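import Pool.Agent.LibRV11.AB0

open Complex Real MeasureTheory
open UpperHalfPlane hiding I
open scoped MatrixGroups

namespace RV11

theorem gm_det {c : ℕ} {a d : ℤ} (h : (c : ℤ) ∣ a * d - 1) :
    gm c a d 0 0 = a ∧ gm c a d 0 1 = (a * d - 1) / c ∧ gm c a d 1 0 = c ∧ gm c a d 1 1 = d := by
  have h1 : a * d - (a * d - 1) / c * c = 1 := by
    rw [Int.ediv_mul_cancel h]; ring
  unfold gm
  rw [dif_pos h1]
  refine ⟨rfl, rfl, rfl, rfl⟩

/-- every element of the theta group with `c > 0` is a `gm` -/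
theorem eq_gm {g : SL(2, ℤ)} {c : ℕ} (hc : 1 ≤ c) (hg : g 1 0 = c) :
    (c : ℤ) ∣ g 0 0 * g 1 1 - 1 ∧ g = gm c (g 0 0) (g 1 1) := by
  have hdet : g 0 0 * g 1 1 - g 0 1 * g 1 0 = 1 := by
    have h := g.det_coe
    rw [Matrix.det_fin_two] at h
    exact h
  have hcZ : (c : ℤ) ≠ 0 := by exact_mod_cast (by omega : c ≠ 0)
  have h1 : g 0 0 * g 1 1 - 1 = g 0 1 * c := by rw [← hg]; linear_combination hdet
  have hdvd : (c : ℤ) ∣ g 0 0 * g 1 1 - 1 := ⟨g 0 1, by rw [h1]; ring⟩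
  refine ⟨hdvd, ?_⟩
  obtain ⟨e1, e2, e3, e4⟩ := gm_det hdvd
  have h2 : (g 0 0 * g 1 1 - 1) / c = g 0 1 := by
    rw [h1]; exact Int.mul_ediv_cancel _ hcZ
  rw [h2] at e2
  apply Matrix.SpecialLinearGroup.ext
  intro i j
  fin_cases i <;> fin_cases j
  · exact e1.symm
  · exact e2.symm
  · show g 1 0 = gm c (g 0 0) (g 1 1) 1 0
    rw [e3, hg]
  · exact e4.symm

theorem gm_mem {c : ℕ} (hc : 1 ≤ c) {p : ℕ × ℕ} (hp : p ∈ adPairs c) (k l : ℤ) :
    (c : ℤ) ∣ (p.1 + 2 * c * k) * (p.2 + 2 * c * l) - 1 ∧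
      gm c (p.1 + 2 * c * k) (p.2 + 2 * c * l) ∈ Gam := by
  have hcZ : (c : ℤ) ≠ 0 := by exact_mod_cast (by omega : c ≠ 0)
  simp only [adPairs, Finset.mem_filter] at hp
  obtain ⟨-, ⟨b, hb⟩, h2, h3⟩ := hp
  have hdiv : ((p.1 : ℤ) * p.2 - 1) / c = b := by
    rw [hb]; exact Int.mul_ediv_cancel_left _ hcZ
  rw [hdiv] at h2
  have h4 : (p.1 + 2 * c * k) * (p.2 + 2 * c * l) - 1 =
      (c : ℤ) * (b + 2 * (k * p.2 + l * p.1 + 2 * c * k * l)) := by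
    linear_combination hb
  have hdvd : (c : ℤ) ∣ (p.1 + 2 * c * k) * (p.2 + 2 * c * l) - 1 := ⟨_, h4⟩
  refine ⟨hdvd, ?_⟩
  obtain ⟨e1, e2, e3, e4⟩ := gm_det hdvd
  rw [mem_Gam_iff, e1, e2, e3, e4, h4, Int.mul_ediv_cancel_left _ hcZ]
  constructor
  · have h5 : ((p.1 : ℤ) + 2 * c * k) * (b + 2 * (k * p.2 + l * p.1 + 2 * c * k * l)) =
        p.1 * b + 2 * (c * k * (b + 2 * (k * p.2 + l * p.1 + 2 * c * k * l)) +
          p.1 * (k * p.2 + l * p.1 + 2 * c * k * l)) := by ring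
    rw [h5]
    exact h2.add (even_two_mul _)
  · have h5 : (c : ℤ) * (p.2 + 2 * c * l) = c * p.2 + 2 * (c * c * l) := by ring
    rw [h5]
    exact h3.add (even_two_mul _)

/-- parametrisation of the elements with lower left entry `c` -/
theorem exists_pair {c : ℕ} (hc : 1 ≤ c) {g : SL(2, ℤ)} (hg : g ∈ Gam) (hgc : g 1 0 = c) :
    ∃! q : (ℕ × ℕ) × (ℤ × ℤ), q.1 ∈ adPairs c ∧
      g = gm c (q.1.1 + 2 * c * q.2.1) (q.1.2 + 2 * c * q.2.2) := by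
  have hcZ : (c : ℤ) ≠ 0 := by exact_mod_cast (by omega : c ≠ 0)
  have hcpos : (0 : ℤ) < 2 * c := by omega
  obtain ⟨hdvd, hgm⟩ := eq_gm hc hgc
  obtain ⟨e1, e2, e3, e4⟩ := gm_det hdvd
  obtain ⟨a, ha⟩ : ∃ a, a = g 0 0 := ⟨_, rfl⟩
  obtain ⟨d, hd⟩ : ∃ d, d = g 1 1 := ⟨_, rfl⟩
  rw [← ha, ← hd] at hdvd hgm
  -- residues
  have hp1 : (((a % (2 * c)).toNat : ℕ) : ℤ) = a % (2 * c) := Int.toNat_of_nonneg
    (Int.emod_nonneg _ hcpos.ne')
  have hp2 : (((d % (2 * c)).toNat : ℕ) : ℤ) = d % (2 * c) := Int.toNat_of_nonneg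
    (Int.emod_nonneg _ hcpos.ne')
  have hlt1 : (a % (2 * c)).toNat < 2 * c := by
    have := Int.emod_lt_of_pos a hcpos
    omega
  have hlt2 : (d % (2 * c)).toNat < 2 * c := by
    have := Int.emod_lt_of_pos d hcpos
    omega
  have hA : a = ((a % (2 * c)).toNat : ℕ) + 2 * c * (a / (2 * c)) := by
    rw [hp1]; exact (Int.emod_add_mul_ediv a (2 * c)).symm
  have hD : d = ((d % (2 * c)).toNat : ℕ) + 2 * c * (d / (2 * c)) := by
    rw [hp2]; exact (Int.emod_add_mul_ediv d (2 * c)).symm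
  obtain ⟨b, hb⟩ := hdvd
  have hmem : ((a % (2 * c)).toNat, (d % (2 * c)).toNat) ∈ adPairs c := by
    simp only [adPairs, Finset.mem_filter, Finset.mem_product, Finset.mem_range]
    obtain ⟨x, hx⟩ : ∃ x : ℤ, x = (((a % (2 * c)).toNat : ℕ) : ℤ) := ⟨_, rfl⟩
    obtain ⟨y, hy⟩ : ∃ y : ℤ, y = (((d % (2 * c)).toNat : ℕ) : ℤ) := ⟨_, rfl⟩
    obtain ⟨k, hk⟩ : ∃ k : ℤ, k = a / (2 * c) := ⟨_, rfl⟩
    obtain ⟨l, hl⟩ : ∃ l : ℤ, l = d / (2 * c) := ⟨_, rfl⟩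
    rw [← hx, ← hk] at hA
    rw [← hy, ← hl] at hD
    rw [← hx, ← hy]
    have h4 : x * y - 1 = (c : ℤ) * (b - 2 * (k * y + l * x + 2 * c * k * l)) := by
      rw [hA, hD] at hb
      linear_combination hb
    obtain ⟨hE1, hE2⟩ := (mem_Gam_iff g).1 hg
    have hgb : g 0 1 = b := by
      have h5 : g 0 1 = (a * d - 1) / c := by
        rw [hgm]; exact (gm_det ⟨b, hb⟩).2.1
      rw [h5, hb, Int.mul_ediv_cancel_left _ hcZ]
    rw [← ha, hgb] at hE1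
    rw [hgc, ← hd] at hE2
    refine ⟨⟨hlt1, hlt2⟩, ⟨_, h4⟩, ?_, ?_⟩
    · rw [h4, Int.mul_ediv_cancel_left _ hcZ]
      have h6 : x * (b - 2 * (k * y + l * x + 2 * c * k * l)) =
          a * b - 2 * (c * k * b + x * (k * y + l * x + 2 * c * k * l)) := by
        rw [hA]; ring
      rw [h6]
      exact hE1.sub (even_two_mul _)
    · have h6 : (c : ℤ) * y = c * d - 2 * (c * c * l) := by rw [hD]; ring
      rw [h6]
      exact hE2.sub (even_two_mul _)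
  refine ⟨(((a % (2 * c)).toNat, (d % (2 * c)).toNat), (a / (2 * c), d / (2 * c))), ⟨hmem, ?_⟩, ?_⟩
  · show g = gm c (((a % (2 * c)).toNat : ℕ) + 2 * c * (a / (2 * c)))
      (((d % (2 * c)).toNat : ℕ) + 2 * c * (d / (2 * c)))
    rw [← hA, ← hD]
    exact hgm
  · rintro ⟨⟨x, y⟩, ⟨k, l⟩⟩ ⟨hq, hgq⟩
    simp only at hq hgq
    obtain ⟨f1, -, -, f4⟩ := gm_det (gm_mem hc hq k l).1
    simp only at f1 f4
    rw [← hgq] at f1 f4
    rw [← ha] at f1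
    rw [← hd] at f4
    simp only [adPairs, Finset.mem_filter, Finset.mem_product, Finset.mem_range] at hq
    obtain ⟨⟨hx, hy⟩, -⟩ := hq
    have hxZ : (x : ℤ) < 2 * c := by exact_mod_cast hx
    have hyZ : (y : ℤ) < 2 * c := by exact_mod_cast hy
    have hk : a / (2 * c) = k := by
      rw [f1, mul_comm (2 * (c : ℤ)) k, Int.add_mul_ediv_right _ _ hcpos.ne',
        Int.ediv_eq_zero_of_lt (by positivity) hxZ, zero_add]
    have hl : d / (2 * c) = l := by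
      rw [f4, mul_comm (2 * (c : ℤ)) l, Int.add_mul_ediv_right _ _ hcpos.ne',
        Int.ediv_eq_zero_of_lt (by positivity) hyZ, zero_add]
    have hx' : (a % (2 * c)).toNat = x := by
      have : a % (2 * c) = x := by
        rw [f1, Int.add_mul_emod_self_left, Int.emod_eq_of_lt (by positivity) hxZ]
      rw [this]; rfl
    have hy' : (d % (2 * c)).toNat = y := by
      have : d % (2 * c) = y := by
        rw [f4, Int.add_mul_emod_self_left, Int.emod_eq_of_lt (by positivity) hyZ]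
      rw [this]; rfl
    rw [hk, hl, hx', hy']

end RV11
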