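import Pool.Agent.LibRV11.AB12
import Pool.Agent.LibRV11.AB13

open Complex Real MeasureTheory
open UpperHalfPlane hiding I
open scoped MatrixGroups

namespace RV11

/-- matrix coefficient -/
noncomputable def ab14b (h : ℝ → ℝ) (n : ℕ) (G : ℝ → ℝ) (g : SL(2, ℤ)) : ℂ :=
  iH (fun z φ => act g (q0 h n G) z φ * (starRingEnd ℂ) (q0 h n G z φ))

theorem ab14_zero {h : ℝ → ℝ} (hh : IsBump h) {n : ℕ} {G : ℝ → ℝ} {g : SL(2, ℤ)}
    (hz : ∀ z ∈ K0 n, g • z ∉ K0 n) : ab14b h n G g = 0 := by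
  have key : ∀ z : ℍ, (∫ φ in (0 : ℝ)..π, act g (q0 h n G) z φ *
      (starRingEnd ℂ) (q0 h n G z φ)) * (W z : ℂ) = 0 := by
    intro z
    have h2 : ∀ φ, act g (q0 h n G) z φ * (starRingEnd ℂ) (q0 h n G z φ) = 0 := by
      intro φ
      by_cases h1 : z ∈ K0 n
      · have h3 : act g (q0 h n G) z φ = 0 := q0_eq_zero hh n G (hz z h1) _
        rw [h3, zero_mul]
      · rw [q0_eq_zero hh n G h1]; simp
    simp [h2]
  unfold ab14b iH
  simp [key]

theorem ab14_notS {h : ℝ → ℝ} (hh : IsBump h) {n : ℕ} (hn : 1 ≤ n) {G : ℝ → ℝ}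
    {S : Finset SL(2, ℤ)} (hS : IsS n S) {g : SL(2, ℤ)} (hg : g ∈ Gam) (hgS : g ∉ S) :
    ab14b h n G g = 0 := by
  apply ab14_zero hh
  intro z hz hgz
  exact hgS (hS.all g hg z (mem_RR_of_K0 hn hz) (mem_RR_of_K0 hn hgz))

theorem ab14_neg {h : ℝ → ℝ} (hh : IsBump h) {n : ℕ} {G : ℝ → ℝ} (hG : IsG0 G) (g : SL(2, ℤ)) :
    ab14b h n G (-g) = ab14b h n G g := by
  unfold ab14b
  rw [act_neg (isFr_q0 hh n hG)]

theorem ab14_c0 {h : ℝ → ℝ} (hh : IsBump h) {n : ℕ} {G : ℝ → ℝ}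
    {g : SL(2, ℤ)} (hg : g ∈ Gam) (hc : g 1 0 = 0) (h1 : g ≠ 1) (h2 : g ≠ -1) :
    ab14b h n G g = 0 := by
  apply ab14_zero hh
  intro z hz hgz
  have hdet := Matrix.SpecialLinearGroup.det_coe g
  rw [Matrix.det_fin_two, hc, mul_zero, sub_zero] at hdet
  have hb : Even (g 0 1) := by
    have := hg.2
    rw [hc, add_zero] at this
    exact this
  have hb2 : g 0 1 ≠ 0 := by
    intro h0
    rcases Int.mul_eq_one_iff_eq_one_or_neg_one.mp hdet with ⟨h3, h4⟩ | ⟨h3, h4⟩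
    · apply h1
      ext i j
      fin_cases i <;> fin_cases j <;> simp [h3, h4, h0, hc]
    · apply h2
      ext i j
      fin_cases i <;> fin_cases j <;> simp [h3, h4, h0, hc]
  have hre : |(g • z).re - z.re| = |(g 0 1 : ℝ)| := by
    have h5 := coe_specialLinearGroup_apply g z
    rcases Int.mul_eq_one_iff_eq_one_or_neg_one.mp hdet with ⟨h3, h4⟩ | ⟨h3, h4⟩
    · rw [hc, h3, h4] at h5
      have h6 : ((g • z : ℍ) : ℂ) = (z : ℂ) + ((g 0 1 : ℝ) : ℂ) := by
        rw [h5]; simp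
      have h7 : (g • z).re = z.re + (g 0 1 : ℝ) := by
        have := congrArg Complex.re h6
        simpa using this
      rw [h7]; congr 1; ring
    · rw [hc, h3, h4] at h5
      have h6 : ((g • z : ℍ) : ℂ) = (z : ℂ) - ((g 0 1 : ℝ) : ℂ) := by
        rw [h5]; simp; ring
      have h7 : (g • z).re = z.re - (g 0 1 : ℝ) := by
        have := congrArg Complex.re h6
        simpa using this
      rw [h7, ← abs_neg]; congr 1; ring
  have hb3 : (2 : ℝ) ≤ |(g 0 1 : ℝ)| := by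
    obtain ⟨k, hk⟩ := hb
    have hk0 : k ≠ 0 := by rintro rfl; exact hb2 (by simpa using hk)
    have : 1 ≤ |k| := Int.one_le_abs hk0
    have h8 : |g 0 1| = 2 * |k| := by rw [hk, ← two_mul, abs_mul]; rfl
    have h9 : 2 ≤ |g 0 1| := by rw [h8]; omega
    exact_mod_cast h9
  have h10 : |(g • z).re - z.re| < 2 := by
    have ha := abs_lt.mp hgz.1
    have hb := abs_lt.mp hz.1
    rw [abs_lt]
    constructor <;> linarith [ha.1, ha.2, hb.1, hb.2]
  linarith

open Classical in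
theorem ab14_row {h : ℝ → ℝ} (hh : IsBump h) {n : ℕ} (hn : 1 ≤ n) {G : ℝ → ℝ}
    {S : Finset SL(2, ℤ)} (hS : IsS n S) {c : ℕ} (hc : 1 ≤ c) (S' : Finset SL(2, ℤ))
    (hSS : S ⊆ S') (hS' : ∀ g ∈ S', g ∈ Gam) :
    ∑ g ∈ S'.filter (fun g => g 1 0 = (c : ℤ)), ab14b h n G g = ∑ p ∈ adPairs c, ∑' kl : ℤ × ℤ,
      ab14b h n G (gm c (p.1 + 2 * c * kl.1) (p.2 + 2 * c * kl.2)) := by
  have hex : ∀ g : SL(2, ℤ), ∃ q : (ℕ × ℕ) × (ℤ × ℤ), (g ∈ Gam ∧ g 1 0 = c) → q.1 ∈ adPairs c ∧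
      g = gm c (q.1.1 + 2 * c * q.2.1) (q.1.2 + 2 * c * q.2.2) := by
    intro g
    by_cases hg : g ∈ Gam ∧ g 1 0 = c
    · obtain ⟨q, hq, -⟩ := exists_pair hc hg.1 hg.2
      exact ⟨q, fun _ => hq⟩
    · exact ⟨default, fun h => absurd h hg⟩
  choose q hq using hex
  have hmaps : ∀ g ∈ S'.filter (fun g => g 1 0 = (c : ℤ)), (q g).1 ∈ adPairs c := by
    intro g hg
    simp only [Finset.mem_filter] at hg
    exact (hq g ⟨hS' g hg.1, hg.2⟩).1
  rw [← Finset.sum_fiberwise_of_maps_to hmaps]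
  refine Finset.sum_congr rfl ?_
  intro p hp
  have huniq : ∀ kl : ℤ × ℤ, q (gm c (p.1 + 2 * c * kl.1) (p.2 + 2 * c * kl.2)) = (p, kl) := by
    intro kl
    have hmem := gm_mem hc hp kl.1 kl.2
    have hdet := gm_det hmem.1
    obtain ⟨q', hq', hu⟩ := exists_pair hc hmem.2 hdet.2.2.1
    have e1 := hu (p, kl) ⟨hp, rfl⟩
    have e2 := hu _ (hq _ ⟨hmem.2, hdet.2.2.1⟩)
    rw [e1, e2]
  rw [tsum_eq_sum (s := ((S'.filter (fun g => g 1 0 = (c : ℤ))).filter (fun g => (q g).1 = p)).image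
    (fun g => (q g).2))]
  · rw [Finset.sum_image]
    · refine Finset.sum_congr rfl ?_
      intro g hg
      simp only [Finset.mem_filter] at hg
      have := (hq g ⟨hS' g hg.1.1, hg.1.2⟩).2
      rw [hg.2] at this
      rw [← this]
    · intro g hg g' hg' heq
      simp only [Finset.coe_filter, Finset.mem_filter, Set.mem_ofPred_eq] at hg hg'
      have e1 := (hq g ⟨hS' g hg.1.1, hg.1.2⟩).2
      have e2 := (hq g' ⟨hS' g' hg'.1.1, hg'.1.2⟩).2
      have heq' : (q g).2 = (q g').2 := heq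
      rw [hg.2, heq'] at e1
      rw [hg'.2] at e2
      exact e1.trans e2.symm
  · intro kl hkl
    by_contra hne
    apply hkl
    have hmem := gm_mem hc hp kl.1 kl.2
    have hdet := gm_det hmem.1
    have hinS : gm c (p.1 + 2 * c * kl.1) (p.2 + 2 * c * kl.2) ∈ S := by
      by_contra hcon
      exact hne (ab14_notS hh hn hS hmem.2 hcon)
    simp only [Finset.mem_image, Finset.mem_filter]
    refine ⟨_, ⟨⟨hSS hinS, hdet.2.2.1⟩, ?_⟩, ?_⟩
    · rw [huniq kl]
    · rw [huniq kl]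

open Classical in
/-- splitting of the sum over the group into rows -/
theorem sum_rows {h : ℝ → ℝ} (hh : IsBump h) {n : ℕ} (hn : 1 ≤ n) {G : ℝ → ℝ} (hG : IsG0 G)
    {S : Finset SL(2, ℤ)} (hS : IsS n S) {m : ℕ} (hm : 1 ≤ m) : ∃ N0 : ℕ, ∀ N : ℕ, N0 ≤ N →
    1 / 2 * ∑ g ∈ S.filter (fun g => (m : ℤ) ∣ g 1 0), chi g *
        iH (fun z φ => act g (q0 h n G) z φ * (starRingEnd ℂ) (q0 h n G z φ)) =
      iH (fun z φ => q0 h n G z φ * (starRingEnd ℂ) (q0 h n G z φ)) +
      ∑ c ∈ (Finset.Icc 1 N).filter (fun c => m ∣ c), (-1) ^ c * ∑ p ∈ adPairs c, ∑' kl : ℤ × ℤ,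
        iH (fun z φ => act (gm c (p.1 + 2 * c * kl.1) (p.2 + 2 * c * kl.2)) (q0 h n G) z φ *
          (starRingEnd ℂ) (q0 h n G z φ)) := by
  -- a set stable under `-1` containing `S` and `±1`
  obtain ⟨S', hS'def⟩ : ∃ S' : Finset SL(2, ℤ), S' = S ∪ S.image (fun g => -g) ∪ {1, -1} :=
    ⟨_, rfl⟩
  have hSS : S ⊆ S' := by
    intro g hg; rw [hS'def]; simp [hg]
  have hneg1 : (-1 : SL(2, ℤ)) ∈ Gam := by
    constructor <;> simp [← two_mul, even_two_mul]
  have hnegG : ∀ g : SL(2, ℤ), g ∈ Gam → -g ∈ Gam := by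
    intro g hg
    have := Gam.mul_mem hneg1 hg
    simpa using this
  have hS' : ∀ g ∈ S', g ∈ Gam := by
    intro g hg
    rw [hS'def] at hg
    simp only [Finset.mem_union, Finset.mem_image, Finset.mem_insert, Finset.mem_singleton] at hg
    rcases hg with (hg | ⟨g', hg', rfl⟩) | (rfl | rfl)
    · exact hS.sub g hg
    · exact hnegG _ (hS.sub g' hg')
    · exact Gam.one_mem
    · exact hneg1
  have hneg : ∀ g ∈ S', -g ∈ S' := by
    intro g hg
    rw [hS'def] at hg ⊢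
    simp only [Finset.mem_union, Finset.mem_image, Finset.mem_insert, Finset.mem_singleton] at hg ⊢
    rcases hg with (hg | ⟨g', hg', rfl⟩) | (rfl | rfl)
    · exact Or.inl (Or.inr ⟨g, hg, rfl⟩)
    · rw [neg_neg]; exact Or.inl (Or.inl hg')
    · exact Or.inr (Or.inr rfl)
    · rw [neg_neg]; exact Or.inr (Or.inl rfl)
  set a : SL(2, ℤ) → ℂ := fun g => chi g * ab14b h n G g with ha
  have haneg : ∀ g, a (-g) = a g := by
    intro g
    simp only [ha, chi_neg, ab14_neg hh hG]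
  have h1 : ∑ g ∈ S.filter (fun g => (m : ℤ) ∣ g 1 0), a g =
      ∑ g ∈ S'.filter (fun g => (m : ℤ) ∣ g 1 0), a g := by
    apply Finset.sum_subset
    · exact Finset.filter_subset_filter _ hSS
    · intro g hg hg'
      simp only [Finset.mem_filter] at hg hg'
      have : g ∉ S := fun hcon => hg' ⟨hcon, hg.2⟩
      simp only [ha, ab14_notS hh hn hS (hS' g hg.1) this, mul_zero]
  -- splitting by the sign of `c`
  have h2 : ∑ g ∈ S'.filter (fun g => (m : ℤ) ∣ g 1 0), a g =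
      ∑ g ∈ S'.filter (fun g => g 1 0 = 0), a g +
      2 * ∑ g ∈ S'.filter (fun g => (m : ℤ) ∣ g 1 0 ∧ 0 < g 1 0), a g := by
    have e1 : S'.filter (fun g => (m : ℤ) ∣ g 1 0) = S'.filter (fun g => g 1 0 = 0) ∪
        (S'.filter (fun g => (m : ℤ) ∣ g 1 0 ∧ 0 < g 1 0) ∪
          S'.filter (fun g => (m : ℤ) ∣ g 1 0 ∧ g 1 0 < 0)) := by
      ext g
      simp only [Finset.mem_filter, Finset.mem_union]
      constructor
      · rintro ⟨h1, h2⟩
        rcases lt_trichotomy (g 1 0) 0 with h3 | h3 | h3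
        · exact Or.inr (Or.inr ⟨h1, h2, h3⟩)
        · exact Or.inl ⟨h1, h3⟩
        · exact Or.inr (Or.inl ⟨h1, h2, h3⟩)
      · rintro (⟨h1, h2⟩ | ⟨h1, h2, h3⟩ | ⟨h1, h2, h3⟩)
        · exact ⟨h1, by rw [h2]; exact dvd_zero _⟩
        · exact ⟨h1, h2⟩
        · exact ⟨h1, h2⟩
    rw [e1, Finset.sum_union, Finset.sum_union, two_mul]
    · congr 2
      refine Finset.sum_bij (fun g _ => -g) ?_ ?_ ?_ ?_
      · intro g hg
        simp only [Finset.mem_filter] at hg ⊢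
        refine ⟨hneg g hg.1, ?_, ?_⟩
        · have : (-g : SL(2, ℤ)) 1 0 = -(g 1 0) := by simp
          rw [this]; exact (dvd_neg).mpr hg.2.1
        · have : (-g : SL(2, ℤ)) 1 0 = -(g 1 0) := by simp
          rw [this]; omega
      · intro g _ g' _ heq
        exact neg_injective heq
      · intro g hg
        simp only [Finset.mem_filter] at hg
        refine ⟨-g, ?_, neg_neg g⟩
        simp only [Finset.mem_filter]
        have : (-g : SL(2, ℤ)) 1 0 = -(g 1 0) := by simp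
        refine ⟨hneg g hg.1, ?_, ?_⟩
        · rw [this]; exact (dvd_neg).mpr hg.2.1
        · rw [this]; omega
      · intro g _
        exact (haneg g).symm
    · rw [Finset.disjoint_left]
      intro g hg hg'
      simp only [Finset.mem_filter] at hg hg'
      omega
    · rw [Finset.disjoint_left]
      intro g hg hg'
      simp only [Finset.mem_filter, Finset.mem_union] at hg hg'
      omega
  -- the elements with `c = 0`
  have h3 : ∑ g ∈ S'.filter (fun g => g 1 0 = 0), a g =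
      2 * iH (fun z φ => q0 h n G z φ * (starRingEnd ℂ) (q0 h n G z φ)) := by
    have e1 : ∑ g ∈ S'.filter (fun g => g 1 0 = 0), a g = ∑ g ∈ ({1, -1} : Finset SL(2, ℤ)), a g := by
      symm
      apply Finset.sum_subset
      · intro g hg
        simp only [Finset.mem_insert, Finset.mem_singleton] at hg
        simp only [Finset.mem_filter]
        refine ⟨?_, ?_⟩
        · rw [hS'def]
          simp only [Finset.mem_union, Finset.mem_insert, Finset.mem_singleton]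
          exact Or.inr hg
        · rcases hg with rfl | rfl <;> simp
      · intro g hg hg'
        simp only [Finset.mem_filter, Finset.mem_insert, Finset.mem_singleton, not_or] at hg hg'
        simp only [ha, ab14_c0 hh (hS' g hg.1) hg.2 hg'.1 hg'.2, mul_zero]
    have hne : (1 : SL(2, ℤ)) ≠ -1 := by
      intro heq
      have := congrArg (fun g : SL(2, ℤ) => g 0 0) heq
      simp at this
    rw [e1, Finset.sum_pair hne, haneg 1, ← two_mul]
    congr 1
    simp only [ha, ab14b, act_one]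
    have : chi 1 = 1 := by simp [chi]
    rw [this, one_mul]
  -- the elements with `c > 0`
  obtain ⟨N0, hN0⟩ : ∃ N0 : ℕ, ∀ g ∈ S', g 1 0 ≤ (N0 : ℤ) := by
    refine ⟨∑ g ∈ S', (g 1 0).natAbs, ?_⟩
    intro g hg
    have e1 : (g 1 0).natAbs ≤ ∑ g ∈ S', (g 1 0).natAbs :=
      Finset.single_le_sum (f := fun g : SL(2, ℤ) => (g 1 0).natAbs) (fun _ _ => Nat.zero_le _) hg
    omega
  refine ⟨N0, ?_⟩
  intro N hN
  have h4 : ∑ g ∈ S'.filter (fun g => (m : ℤ) ∣ g 1 0 ∧ 0 < g 1 0), a g =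
      ∑ c ∈ (Finset.Icc 1 N).filter (fun c => m ∣ c),
        ∑ g ∈ S'.filter (fun g => g 1 0 = (c : ℤ)), a g := by
    have hmaps : ∀ g ∈ S'.filter (fun g => (m : ℤ) ∣ g 1 0 ∧ 0 < g 1 0),
        (g 1 0).toNat ∈ (Finset.Icc 1 N).filter (fun c => m ∣ c) := by
      intro g hg
      simp only [Finset.mem_filter, Finset.mem_Icc] at hg ⊢
      obtain ⟨hg1, hg2, hg3⟩ := hg
      have := hN0 g hg1
      refine ⟨⟨by omega, by omega⟩, ?_⟩
      have e1 : ((g 1 0).toNat : ℤ) = g 1 0 := Int.toNat_of_nonneg hg3.le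
      rw [← e1] at hg2
      exact_mod_cast hg2
    rw [← Finset.sum_fiberwise_of_maps_to hmaps]
    refine Finset.sum_congr rfl ?_
    intro c hc
    simp only [Finset.mem_filter, Finset.mem_Icc] at hc
    refine Finset.sum_congr ?_ (fun _ _ => rfl)
    ext g
    simp only [Finset.mem_filter]
    constructor
    · rintro ⟨⟨h5, h6, h7⟩, h8⟩
      exact ⟨h5, by omega⟩
    · rintro ⟨h5, h6⟩
      refine ⟨⟨h5, ?_, by omega⟩, by omega⟩
      rw [h6]; exact_mod_cast hc.2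
  have h5 : ∑ g ∈ S.filter (fun g => (m : ℤ) ∣ g 1 0), chi g *
        iH (fun z φ => act g (q0 h n G) z φ * (starRingEnd ℂ) (q0 h n G z φ)) =
      ∑ g ∈ S.filter (fun g => (m : ℤ) ∣ g 1 0), a g := rfl
  have h6 : ∀ c ∈ (Finset.Icc 1 N).filter (fun c => m ∣ c),
      ∑ g ∈ S'.filter (fun g => g 1 0 = (c : ℤ)), a g = (-1) ^ c * ∑ p ∈ adPairs c, ∑' kl : ℤ × ℤ,
        iH (fun z φ => act (gm c (p.1 + 2 * c * kl.1) (p.2 + 2 * c * kl.2)) (q0 h n G) z φ *
          (starRingEnd ℂ) (q0 h n G z φ)) := by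
    intro c hc
    simp only [Finset.mem_filter, Finset.mem_Icc] at hc
    have e1 := ab14_row hh hn hS hc.1.1 S' hSS hS' (G := G)
    have e2 : ∑ g ∈ S'.filter (fun g => g 1 0 = (c : ℤ)), a g =
        (-1) ^ c * ∑ g ∈ S'.filter (fun g => g 1 0 = (c : ℤ)), ab14b h n G g := by
      rw [Finset.mul_sum]
      refine Finset.sum_congr rfl ?_
      intro g hg
      simp only [Finset.mem_filter] at hg
      simp only [ha, chi, hg.2]
      congr 1
      by_cases hev : Even c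
      · rw [hev.neg_one_pow, if_pos (by exact_mod_cast hev)]
      · rw [(Nat.not_even_iff_odd.mp hev).neg_one_pow, if_neg (by exact_mod_cast hev)]
    rw [e2, e1]
    rfl
  rw [h5, h1, h2, h3, h4, Finset.sum_congr rfl h6]
  ring

end RV11
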