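import Pool.Agent.LibRV11.Defs

open Complex Real MeasureTheory
open UpperHalfPlane hiding I
open scoped MatrixGroups

namespace RV11

/-- `θ₂(w) = ∑ e^{iπ (k+1/2)² w}`. -/
noncomputable def th2 (w : ℂ) : ℂ := ∑' k : ℤ, cexp (π * I * ((k : ℂ) + 1 / 2) ^ 2 * w)

/-- `N(p) = |cz+d|²/y`. -/
noncomputable def Np (z : ℍ) (c d : ℝ) : ℝ := ‖(c : ℂ) * (z : ℂ) + d‖ ^ 2 / z.im

end RV11
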