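import Pool.Agent.LibRV11.Defs
import Pool.Agent.LibRV11.TH0
open Complex Real MeasureTheory
open UpperHalfPlane hiding I
open scoped MatrixGroups

namespace RV11

/-! Cartesian coordinates on the upper half plane. -/

private noncomputable def th13_rho (p : ℝ × ℝ) : ENNReal := ENNReal.ofReal (1 / p.2 ^ 2)

private theorem th13_rho_meas : Measurable th13_rho := by
  unfold th13_rho
  exact (measurable_const.div (measurable_snd.pow_const 2)).ennreal_ofReal

private noncomputable def th13_e (p : ℝ × ℝ) : ℂ := (p.1 : ℂ) + I * p.2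

private theorem th13_e_eq : th13_e = ⇑Complex.measurableEquivRealProd.symm := by
  funext p
  unfold th13_e
  apply Complex.ext
  · simp [Complex.measurableEquivRealProd]
  · simp [Complex.measurableEquivRealProd]

private theorem th13_e_emb : MeasurableEmbedding th13_e := by
  rw [th13_e_eq]; exact MeasurableEquiv.measurableEmbedding _

private theorem th13_lint (g : ℂ → ENNReal) (hg : Measurable g) :
    ∫⁻ z : ℍ, g z = ∫⁻ w in {w : ℂ | 0 < w.im}, g w * ENNReal.ofReal (1 / w.im ^ 2) := by
  have hmp : MeasurePreserving UpperHalfPlane.coe (volume.comap UpperHalfPlane.coe)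
      (volume.restrict (.range UpperHalfPlane.coe)) :=
    ⟨measurable_coe, by rw [measurableEmbedding_coe.map_comap]⟩
  have hrange : Set.range UpperHalfPlane.coe = {w : ℂ | 0 < w.im} := by
    ext w
    constructor
    · rintro ⟨z, rfl⟩; exact z.im_pos
    · intro h; exact ⟨⟨w, h⟩, rfl⟩
  have hρm : Measurable fun z : ℍ => ((((1 / NNReal.mk z.im z.im_pos.le : NNReal) ^ 2 : NNReal)) : ENNReal) := by
    refine measurable_coe_nnreal_ennreal.comp ?_
    refine (measurable_const.div ?_).pow_const 2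
    exact (UpperHalfPlane.continuous_im.measurable).subtype_mk
  rw [UpperHalfPlane.volume_def]
  have hstep := lintegral_withDensity_eq_lintegral_mul (volume.comap UpperHalfPlane.coe) hρm
    (g := fun z : ℍ => g (z : ℂ)) (hg.comp measurable_coe)
  rw [hstep]
  rw [hrange] at hmp
  rw [← hmp.lintegral_comp (f := fun w => g w * ENNReal.ofReal (1 / w.im ^ 2))
    (hg.mul ((measurable_const.div (Complex.measurable_im.pow_const 2)).ennreal_ofReal))]
  refine lintegral_congr fun z => ?_
  simp only [Pi.mul_apply, Function.comp]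
  rw [mul_comm]
  congr 1
  rw [← ENNReal.ofReal_coe_nnreal]
  congr 1
  push_cast
  rw [one_div, one_div, inv_pow]
  rfl

private theorem th13_lint2 (X : Set ℝ) (hX : MeasurableSet X) (g : ℂ → ENNReal) (hg : Measurable g) :
    ∫⁻ z : ℍ in {z | z.re ∈ X}, g z =
      ∫⁻ p, g (th13_e p) * th13_rho p ∂((volume.restrict X).prod (volume.restrict (Set.Ioi (0:ℝ)))) := by
  have hSX : MeasurableSet {z : ℍ | z.re ∈ X} := UpperHalfPlane.continuous_re.measurable hX
  have hSX' : MeasurableSet {w : ℂ | w.re ∈ X} := Complex.measurable_re hX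
  rw [← lintegral_indicator hSX]
  have e1 : ∀ z : ℍ, ({z : ℍ | z.re ∈ X}.indicator (fun z : ℍ => g z)) z = ({w : ℂ | w.re ∈ X}.indicator g) z := by
    intro z
    by_cases h : z.re ∈ X
    · rw [Set.indicator_of_mem (by exact h), Set.indicator_of_mem (by exact h)]
    · rw [Set.indicator_of_notMem (by exact h), Set.indicator_of_notMem (by exact h)]
  simp_rw [e1]
  rw [th13_lint _ (hg.indicator hSX')]
  have hmp := Complex.volume_preserving_equiv_real_prod.symm
  have hH : MeasurableSet {w : ℂ | 0 < w.im} := measurableSet_lt measurable_const Complex.measurable_im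
  rw [← lintegral_indicator hH, ← hmp.lintegral_comp_emb (MeasurableEquiv.measurableEmbedding _)]
  rw [Measure.prod_restrict, ← lintegral_indicator (hX.prod measurableSet_Ioi)]
  refine lintegral_congr fun p => ?_
  have hep : Complex.measurableEquivRealProd.symm p = th13_e p := by rw [th13_e_eq]
  rw [hep]
  have hre : (th13_e p).re = p.1 := by simp [th13_e]
  have him : (th13_e p).im = p.2 := by simp [th13_e]
  by_cases h2 : 0 < p.2
  · rw [Set.indicator_of_mem (by change 0 < (th13_e p).im; rw [him]; exact h2)]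
    by_cases h1 : p.1 ∈ X
    · rw [Set.indicator_of_mem (by change (th13_e p).re ∈ X; rw [hre]; exact h1),
        Set.indicator_of_mem (by exact ⟨h1, h2⟩), him]
      rfl
    · rw [Set.indicator_of_notMem (by change ¬ (th13_e p).re ∈ X; rw [hre]; exact h1),
        Set.indicator_of_notMem (fun h => h1 h.1), zero_mul]
  · rw [Set.indicator_of_notMem (by change ¬ 0 < (th13_e p).im; rw [him]; exact h2),
      Set.indicator_of_notMem (fun h => h2 h.2)]

theorem lintegral_coord (f : ℂ → ENNReal) (hf : Measurable f) :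
    ∫⁻ z : ℍ, f z = ∫⁻ y in Set.Ioi (0 : ℝ), ∫⁻ x : ℝ, f (x + I * y) * ENNReal.ofReal (1 / y ^ 2) := by
  have h := th13_lint2 Set.univ MeasurableSet.univ f hf
  have e : {z : ℍ | z.re ∈ (Set.univ : Set ℝ)} = Set.univ := by ext z; simp
  rw [e, Measure.restrict_univ, Measure.restrict_univ] at h
  rw [h, lintegral_prod_symm]
  · rfl
  · exact ((hf.comp th13_e_emb.measurable).mul th13_rho_meas).aemeasurable

private theorem th13_strip : {z : ℍ | z.re ∈ Set.Ioo (-1 : ℝ) 1} = Strip := by
  ext z
  simp only [Strip, Set.mem_ofPred_eq, Set.mem_Ioo, abs_lt]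

theorem lintegral_strip (f : ℂ → ENNReal) (hf : Measurable f) :
    ∫⁻ z : ℍ in Strip, f z =
      ∫⁻ y in Set.Ioi (0 : ℝ), ∫⁻ x in Set.Ioo (-1 : ℝ) 1, f (x + I * y) *
        ENNReal.ofReal (1 / y ^ 2) := by
  have h := th13_lint2 (Set.Ioo (-1 : ℝ) 1) measurableSet_Ioo f hf
  rw [th13_strip] at h
  rw [h, lintegral_prod_symm]
  · rfl
  · exact ((hf.comp th13_e_emb.measurable).mul th13_rho_meas).aemeasurable

private theorem th13_map (X : Set ℝ) (hX : MeasurableSet X) :
    Measure.map UpperHalfPlane.coe ((volume : Measure ℍ).restrict {z | z.re ∈ X}) =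
      Measure.map th13_e (((volume.restrict X).prod (volume.restrict (Set.Ioi (0:ℝ)))).withDensity th13_rho) := by
  refine Measure.ext_of_lintegral _ fun g hg => ?_
  have hstep := lintegral_withDensity_eq_lintegral_mul ((volume.restrict X).prod (volume.restrict (Set.Ioi (0:ℝ))))
    th13_rho_meas (g := fun p => g (th13_e p)) (hg.comp th13_e_emb.measurable)
  rw [lintegral_map hg measurable_coe, lintegral_map hg th13_e_emb.measurable, hstep, th13_lint2 X hX g hg]
  refine lintegral_congr fun p => ?_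
  simp only [Pi.mul_apply, Function.comp]
  rw [mul_comm]

private theorem th13_int (X : Set ℝ) (hX : MeasurableSet X) (f : ℂ → ℂ)
    (hf : IntegrableOn (fun z : ℍ => f z) {z | z.re ∈ X}) :
    Integrable (fun p : ℝ × ℝ => f (p.1 + I * p.2) / (p.2 : ℂ) ^ 2) ((volume.restrict X).prod (volume.restrict (Set.Ioi (0:ℝ)))) ∧
    ∫ z : ℍ in {z | z.re ∈ X}, f z =
      ∫ p : ℝ × ℝ, f (p.1 + I * p.2) / (p.2 : ℂ) ^ 2 ∂((volume.restrict X).prod (volume.restrict (Set.Ioi (0:ℝ)))) := by
  have hm := th13_map X hX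
  have h1 : Integrable f (Measure.map UpperHalfPlane.coe ((volume : Measure ℍ).restrict {z | z.re ∈ X})) :=
    measurableEmbedding_coe.integrable_map_iff.2 hf
  have h2 := h1
  rw [hm, th13_e_emb.integrable_map_iff] at h2
  have hlt : ∀ p : ℝ × ℝ, th13_rho p < ⊤ := fun p => ENNReal.ofReal_lt_top
  have h3 := (integrable_withDensity_iff_integrable_smul' th13_rho_meas (Filter.Eventually.of_forall hlt)).1 h2
  have e : (fun p : ℝ × ℝ => (th13_rho p).toReal • (f ∘ th13_e) p) = fun p => f (p.1 + I * p.2) / (p.2 : ℂ) ^ 2 := by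
    funext p
    unfold th13_rho
    rw [ENNReal.toReal_ofReal (by positivity), Complex.real_smul, div_eq_mul_inv]
    push_cast
    rw [mul_comm, one_mul]
    rfl
  rw [e] at h3
  refine ⟨h3, ?_⟩
  have h4 : ∫ z : ℍ in {z | z.re ∈ X}, f z = ∫ w, f w ∂(Measure.map UpperHalfPlane.coe ((volume : Measure ℍ).restrict {z | z.re ∈ X})) :=
    (measurableEmbedding_coe.integral_map _).symm
  rw [h4, hm, th13_e_emb.integral_map, integral_withDensity_eq_integral_toReal_smul th13_rho_meas (Filter.Eventually.of_forall hlt)]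
  exact integral_congr_ae (Filter.Eventually.of_forall fun p => congrFun e p)

theorem integral_coord (f : ℂ → ℂ) (hf : Integrable (fun z : ℍ => f z)) :
    ∫ z : ℍ, f z = ∫ y in Set.Ioi (0 : ℝ), ∫ x : ℝ, f (x + I * y) / y ^ 2 := by
  have e : {z : ℍ | z.re ∈ (Set.univ : Set ℝ)} = Set.univ := by ext z; simp
  obtain ⟨h1, h2⟩ := th13_int Set.univ MeasurableSet.univ f (by rw [e]; exact hf.integrableOn)
  rw [e, Measure.restrict_univ] at h2
  rw [h2, integral_prod_symm _ h1, Measure.restrict_univ]

/-- the same for the strip; both orders of integration. -/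
theorem integral_strip (f : ℂ → ℂ) (hf : IntegrableOn (fun z : ℍ => f z) Strip) :
    ∫ z : ℍ in Strip, f z = ∫ y in Set.Ioi (0 : ℝ), ∫ x in (-1 : ℝ)..1, f (x + I * y) / y ^ 2 := by
  obtain ⟨h1, h2⟩ := th13_int (Set.Ioo (-1 : ℝ) 1) measurableSet_Ioo f (by rw [th13_strip]; exact hf)
  rw [th13_strip] at h2
  rw [h2, integral_prod_symm _ h1]
  refine integral_congr_ae (Filter.Eventually.of_forall fun y => ?_)
  simp only
  rw [intervalIntegral.integral_of_le (by norm_num), integral_Ioc_eq_integral_Ioo]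

theorem integral_strip' (f : ℂ → ℂ) (hf : IntegrableOn (fun z : ℍ => f z) Strip) :
    ∫ z : ℍ in Strip, f z = ∫ x in (-1 : ℝ)..1, ∫ y in Set.Ioi (0 : ℝ), f (x + I * y) / y ^ 2 := by
  obtain ⟨h1, h2⟩ := th13_int (Set.Ioo (-1 : ℝ) 1) measurableSet_Ioo f (by rw [th13_strip]; exact hf)
  rw [th13_strip] at h2
  rw [h2, integral_prod _ h1, intervalIntegral.integral_of_le (by norm_num), integral_Ioc_eq_integral_Ioo]

theorem measurableSet_Strip : MeasurableSet Strip := by
  rw [← th13_strip]
  exact UpperHalfPlane.continuous_re.measurable measurableSet_Ioo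

theorem isOpen_DD : IsOpen DD := by
  have h1 : IsOpen {z : ℍ | |z.re| < 1} :=
    isOpen_lt (UpperHalfPlane.continuous_re.abs) continuous_const
  have h2 : IsOpen {z : ℍ | 1 < ‖(z : ℂ)‖} :=
    isOpen_lt continuous_const (UpperHalfPlane.continuous_coe.norm)
  exact h1.inter h2

theorem measurableSet_DD : MeasurableSet DD := isOpen_DD.measurableSet

private theorem th13_fin (c : ℝ) (F : ℝ → ENNReal) (hF : ∀ y, 0 < y → F y ≤ ENNReal.ofReal (c * (1 + y ^ 2)⁻¹)) :
    ∫⁻ y in Set.Ioi (0:ℝ), F y < ⊤ := by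
  have h1 : Integrable (fun y : ℝ => c * (1 + y ^ 2)⁻¹) := integrable_inv_one_add_sq.const_mul c
  have h2 : ∫⁻ y in Set.Ioi (0:ℝ), ENNReal.ofReal (c * (1 + y ^ 2)⁻¹) < ⊤ := h1.integrableOn.lintegral_lt_top
  refine lt_of_le_of_lt ?_ h2
  exact setLIntegral_mono' measurableSet_Ioi fun y hy => hF y hy

/-- integrability of functions bounded and supported in a bounded part of the strip away from
the real axis. -/
theorem integrableOn_strip_of_bounded (f : ℍ → ℂ) (hf : Measurable f) (a b M : ℝ) (ha : 0 < a)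
    (h1 : ∀ z, f z ≠ 0 → a ≤ z.im ∧ z.im ≤ b) (h2 : ∀ z ∈ Strip, ‖f z‖ ≤ M) :
    IntegrableOn f Strip := by
  set B : Set ℍ := Strip ∩ {z | a ≤ z.im} with hB
  have hm2 : MeasurableSet {z : ℍ | a ≤ z.im} := measurableSet_le measurable_const UpperHalfPlane.continuous_im.measurable
  have hBm : MeasurableSet B := measurableSet_Strip.inter hm2
  have hvol : volume B < ⊤ := by
    have e1 : volume B = ∫⁻ z : ℍ in Strip, ({w : ℂ | a ≤ w.im}.indicator (fun _ => (1:ENNReal))) z := by
      have : ∀ z : ℍ, ({w : ℂ | a ≤ w.im}.indicator (fun _ => (1:ENNReal))) z = ({z : ℍ | a ≤ z.im}.indicator (fun _ => (1:ENNReal))) z := by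
        intro z
        by_cases h : a ≤ z.im
        · rw [Set.indicator_of_mem (by exact h), Set.indicator_of_mem (by exact h)]
        · rw [Set.indicator_of_notMem (by exact h), Set.indicator_of_notMem (by exact h)]
      simp_rw [this]
      rw [lintegral_indicator hm2, Measure.restrict_restrict hm2, lintegral_const, one_mul, Measure.restrict_apply_univ, hB,
        Set.inter_comm]
    have hm3 : MeasurableSet {w : ℂ | a ≤ w.im} := measurableSet_le measurable_const Complex.measurable_im
    rw [e1, lintegral_strip _ (measurable_const.indicator hm3)]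
    refine th13_fin (2 * (1 + (a ^ 2)⁻¹)) _ fun y hy => ?_
    by_cases hay : a ≤ y
    · have e2 : ∀ x : ℝ, ({w : ℂ | a ≤ w.im}.indicator (fun _ => (1:ENNReal))) (x + I * y) = 1 := by
        intro x
        rw [Set.indicator_of_mem]
        simpa using hay
      simp_rw [e2, one_mul]
      rw [lintegral_const, Measure.restrict_apply_univ, Real.volume_Ioo, ← ENNReal.ofReal_mul (by positivity)]
      refine ENNReal.ofReal_le_ofReal ?_
      have : 1 / y ^ 2 ≤ (1 + (a ^ 2)⁻¹) * (1 + y ^ 2)⁻¹ := by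
        rw [div_le_iff₀ (by positivity), mul_assoc, mul_comm, ← div_eq_inv_mul]
        have h5 : a ^ 2 ≤ y ^ 2 := pow_le_pow_left₀ ha.le hay 2
        rw [div_mul_eq_mul_div, le_div_iff₀ (by positivity), one_mul]
        have h6 : 1 ≤ y ^ 2 * (a ^ 2)⁻¹ := by
          rw [← div_eq_mul_inv, le_div_iff₀ (by positivity), one_mul]; exact h5
        nlinarith
      linarith
    · have e2 : ∀ x : ℝ, ({w : ℂ | a ≤ w.im}.indicator (fun _ => (1:ENNReal))) (x + I * y) = 0 := by
        intro x
        rw [Set.indicator_of_notMem]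
        simpa using hay
      simp_rw [e2, zero_mul]
      simp
  have hBi : IntegrableOn f B := by
    refine Measure.integrableOn_of_bounded (M := M) hvol.ne hf.aestronglyMeasurable ?_
    rw [ae_restrict_iff' hBm]
    exact Filter.Eventually.of_forall fun z hz => h2 z hz.1
  refine hBi.of_forall_sdiff_eq_zero measurableSet_Strip fun z hz => ?_
  by_contra h0
  exact hz.2 ⟨hz.1, (h1 z h0).1⟩

theorem volume_DD_lt_top : volume DD < ⊤ := by
  set D' : Set ℂ := {w : ℂ | 1 < ‖w‖} with hD'
  have hm3 : MeasurableSet D' := measurableSet_lt measurable_const continuous_norm.measurable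
  have hm2 : MeasurableSet {z : ℍ | 1 < ‖(z : ℂ)‖} := measurable_coe hm3
  have e1 : volume DD = ∫⁻ z : ℍ in Strip, (D'.indicator (fun _ => (1:ENNReal))) z := by
    have : ∀ z : ℍ, (D'.indicator (fun _ => (1:ENNReal))) z = ({z : ℍ | 1 < ‖(z : ℂ)‖}.indicator (fun _ => (1:ENNReal))) z := by
      intro z
      by_cases h : 1 < ‖(z : ℂ)‖
      · rw [Set.indicator_of_mem (by exact h), Set.indicator_of_mem (by exact h)]
      · rw [Set.indicator_of_notMem (by exact h), Set.indicator_of_notMem (by exact h)]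
    simp_rw [this]
    rw [lintegral_indicator hm2, Measure.restrict_restrict hm2, lintegral_const, one_mul, Measure.restrict_apply_univ]
    congr 1
    ext z
    simp only [DD, Strip, Set.mem_ofPred_eq, Set.mem_inter_iff]
    tauto
  rw [e1, lintegral_strip _ (measurable_const.indicator hm3)]
  refine th13_fin 4 _ fun y hy => ?_
  -- bound the inner integral
  have hinner : ∫⁻ x in Set.Ioo (-1 : ℝ) 1, (D'.indicator (fun _ => (1:ENNReal))) (x + I * y) * ENNReal.ofReal (1 / y ^ 2) ≤
      ENNReal.ofReal (2 * min 1 (y ^ 2)) * ENNReal.ofReal (1 / y ^ 2) := by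
    have hmeas : Measurable fun x : ℝ => (D'.indicator (fun _ => (1:ENNReal))) (x + I * y) :=
      (measurable_const.indicator hm3).comp (by fun_prop)
    rw [lintegral_mul_const _ hmeas]
    refine mul_le_mul_left ?_ _
    have hnorm : ∀ x : ℝ, ‖(x : ℂ) + I * y‖ ^ 2 = x ^ 2 + y ^ 2 := by
      intro x
      rw [Complex.sq_norm, Complex.normSq_apply]; simp; ring
    rcases le_total 1 y with h1y | h1y
    · have : min 1 (y ^ 2) = 1 := min_eq_left (one_le_pow₀ h1y)
      rw [this, mul_one]
      calc ∫⁻ x in Set.Ioo (-1 : ℝ) 1, (D'.indicator (fun _ => (1:ENNReal))) (x + I * y) ≤ ∫⁻ x in Set.Ioo (-1 : ℝ) 1, 1 :=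
            lintegral_mono fun x => Set.indicator_le_self' (by simp) _
        _ = ENNReal.ofReal 2 := by
            rw [lintegral_const, Measure.restrict_apply_univ, Real.volume_Ioo, one_mul]; norm_num
    · have : min 1 (y ^ 2) = y ^ 2 := min_eq_right (pow_le_one₀ hy.le h1y)
      rw [this]
      have hsub : ∀ x : ℝ, x ∈ Set.Ioo (-1 : ℝ) 1 → (D'.indicator (fun _ => (1:ENNReal))) (x + I * y) ≤
          (Set.Ioo (-1 : ℝ) (-(1 - y ^ 2)) ∪ Set.Ioo (1 - y ^ 2) 1).indicator (fun _ => (1:ENNReal)) x := by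
        intro x hx
        by_cases hxD : (x : ℂ) + I * y ∈ D'
        · have h3 : 1 < x ^ 2 + y ^ 2 := by rw [← hnorm]; exact one_lt_pow₀ hxD (by norm_num)
          have hmem : x ∈ Set.Ioo (-1 : ℝ) (-(1 - y ^ 2)) ∪ Set.Ioo (1 - y ^ 2) 1 := by
            rcases le_total 0 x with h0 | h0
            · right; exact ⟨by nlinarith [hx.2], hx.2⟩
            · left; exact ⟨hx.1, by nlinarith [hx.1]⟩
          rw [Set.indicator_of_mem hxD, Set.indicator_of_mem hmem]
        · rw [Set.indicator_of_notMem hxD]; exact bot_le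
      calc ∫⁻ x in Set.Ioo (-1 : ℝ) 1, (D'.indicator (fun _ => (1:ENNReal))) (x + I * y)
          ≤ ∫⁻ x in Set.Ioo (-1 : ℝ) 1, (Set.Ioo (-1 : ℝ) (-(1 - y ^ 2)) ∪ Set.Ioo (1 - y ^ 2) 1).indicator (fun _ => (1:ENNReal)) x :=
            setLIntegral_mono' measurableSet_Ioo hsub
        _ ≤ ∫⁻ x, (Set.Ioo (-1 : ℝ) (-(1 - y ^ 2)) ∪ Set.Ioo (1 - y ^ 2) 1).indicator (fun _ => (1:ENNReal)) x :=
            setLIntegral_le_lintegral _ _
        _ = volume (Set.Ioo (-1 : ℝ) (-(1 - y ^ 2)) ∪ Set.Ioo (1 - y ^ 2) 1) := by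
            rw [lintegral_indicator (measurableSet_Ioo.union measurableSet_Ioo), lintegral_const, one_mul, Measure.restrict_apply_univ]
        _ ≤ volume (Set.Ioo (-1 : ℝ) (-(1 - y ^ 2))) + volume (Set.Ioo (1 - y ^ 2) 1) := measure_union_le _ _
        _ = ENNReal.ofReal (2 * y ^ 2) := by
            rw [Real.volume_Ioo, Real.volume_Ioo, ← ENNReal.ofReal_add (by nlinarith) (by nlinarith)]
            congr 1; ring
  refine hinner.trans ?_
  rw [← ENNReal.ofReal_mul (by positivity)]
  refine ENNReal.ofReal_le_ofReal ?_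
  have hy2 : 0 < y ^ 2 := by positivity
  rw [mul_one_div, div_le_iff₀ hy2, mul_assoc, ← div_eq_inv_mul, mul_div_assoc', le_div_iff₀ (by positivity)]
  rcases le_total 1 (y ^ 2) with h | h
  · rw [min_eq_left h]; nlinarith
  · rw [min_eq_right h]; nlinarith

end RV11
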