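import Pool.Agent.LibRV11.AB0
import Pool.Agent.LibRV11.TH13

open Complex Real MeasureTheory
open UpperHalfPlane hiding I
open scoped MatrixGroups

namespace RV11

theorem ab5_re (x y : ℝ) : ((x : ℂ) + I * y).re = x := by simp

theorem ab5_im (x y : ℝ) : ((x : ℂ) + I * y).im = y := by simp

theorem ab5_meas {α : Type} [MeasurableSpace α] {F : ℝ → ℝ → α}
    (hF : Measurable (Function.uncurry F)) : Measurable (fun w : ℂ => F w.re w.im) :=
  hF.comp (Complex.measurable_re.prodMk Complex.measurable_im)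

theorem ab5_swap_meas {α : Type} [MeasurableSpace α] {F : ℝ → ℝ → α}
    (hF : Measurable (Function.uncurry F)) : Measurable (fun p : ℝ × ℝ => F p.2 p.1) :=
  hF.comp measurable_swap

theorem ab5_weight : Measurable (fun p : ℝ × ℝ => ENNReal.ofReal (1 / p.1 ^ 2)) := by
  fun_prop

/-- Integration over the upper half plane in coordinates. -/
theorem lintegral_H (F : ℝ → ℝ → ENNReal) (hF : Measurable (Function.uncurry F)) :
    ∫⁻ z : ℍ, F z.re z.im =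
      ∫⁻ x : ℝ, ∫⁻ y in Set.Ioi (0 : ℝ), F x y * ENNReal.ofReal (1 / y ^ 2) := by
  have h1 := lintegral_coord (fun w => F w.re w.im) (ab5_meas hF)
  simp only [ab5_re, ab5_im] at h1
  have h2 : ∫⁻ y in Set.Ioi (0 : ℝ), ∫⁻ x : ℝ, F x y * ENNReal.ofReal (1 / y ^ 2) =
      ∫⁻ x : ℝ, ∫⁻ y in Set.Ioi (0 : ℝ), F x y * ENNReal.ofReal (1 / y ^ 2) :=
    lintegral_lintegral_swap (((ab5_swap_meas hF).mul ab5_weight).aemeasurable)
  rw [← h2, ← h1]
  rfl

theorem integral_H (F : ℝ → ℝ → ℂ) (hF : Measurable (Function.uncurry F))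
    (hF' : Integrable (fun z : ℍ => F z.re z.im)) :
    ∫ z : ℍ, F z.re z.im = ∫ x : ℝ, ∫ y in Set.Ioi (0 : ℝ), F x y * (1 / y ^ 2 : ℝ) := by
  have h1 := integral_coord (fun w => F w.re w.im) hF'
  simp only [ab5_re, ab5_im] at h1
  have hm : Measurable (fun p : ℝ × ℝ => F p.2 p.1 * ((1 / p.1 ^ 2 : ℝ) : ℂ)) := by
    refine (ab5_swap_meas hF).mul (Complex.measurable_ofReal.comp ?_)
    fun_prop
  have hint : Integrable (Function.uncurry fun y x : ℝ => F x y * ((1 / y ^ 2 : ℝ) : ℂ))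
      ((volume.restrict (Set.Ioi (0 : ℝ))).prod volume) := by
    refine ⟨hm.aestronglyMeasurable, ?_⟩
    have h3 := lintegral_coord (fun w => ‖F w.re w.im‖ₑ) (ab5_meas hF).enorm
    simp only [ab5_re, ab5_im] at h3
    have h4 : ∫⁻ z : ℍ, ‖F (z : ℂ).re (z : ℂ).im‖ₑ < ⊤ := hF'.2
    rw [h3] at h4
    have h7 : ∫⁻ p : ℝ × ℝ, ‖F p.2 p.1 * ((1 / p.1 ^ 2 : ℝ) : ℂ)‖ₑ
        ∂((volume.restrict (Set.Ioi (0 : ℝ))).prod volume) =
        ∫⁻ y in Set.Ioi (0 : ℝ), ∫⁻ x : ℝ, ‖F x y * ((1 / y ^ 2 : ℝ) : ℂ)‖ₑ :=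
      lintegral_prod _ (hm.enorm.aemeasurable)
    have h5 : ∀ y : ℝ, ∀ x : ℝ, ‖F x y * ((1 / y ^ 2 : ℝ) : ℂ)‖ₑ =
        ‖F x y‖ₑ * ENNReal.ofReal (1 / y ^ 2) := by
      intro y x
      rw [enorm_mul]
      congr 1
      rw [← ofReal_norm, Complex.norm_real, Real.norm_of_nonneg (by positivity)]
    show ∫⁻ p : ℝ × ℝ, ‖F p.2 p.1 * ((1 / p.1 ^ 2 : ℝ) : ℂ)‖ₑ
        ∂((volume.restrict (Set.Ioi (0 : ℝ))).prod volume) < ⊤
    rw [h7]
    simp only [h5]
    exact h4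
  have h2 := integral_integral_swap hint
  rw [← h2]
  have h6 : ∫ z : ℍ, F z.re z.im = ∫ z : ℍ, F (z : ℂ).re (z : ℂ).im := rfl
  rw [h6, h1]
  refine integral_congr_ae (Filter.Eventually.of_forall fun y => ?_)
  refine integral_congr_ae (Filter.Eventually.of_forall fun x => ?_)
  simp only
  push_cast
  ring

end RV11
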