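import Pool.Agent.LibRV11.AB0
import Pool.Agent.LibRV11.TH13
import Pool.Agent.LibRV11.AB5

open Complex Real MeasureTheory
open UpperHalfPlane hiding I
open scoped MatrixGroups

namespace RV11

theorem ab4_coe (g : SL(2, ℤ)) (z : ℍ) : ((g • z : ℍ) : ℂ) =
    ((g 0 0 : ℂ) * (z : ℂ) + (g 0 1 : ℂ)) / ((g 1 0 : ℂ) * (z : ℂ) + (g 1 1 : ℂ)) := by
  rw [UpperHalfPlane.coe_specialLinearGroup_apply]
  simp

theorem mem_RR_of_K0 {n : ℕ} (hn : 1 ≤ n) {z : ℍ} (hz : z ∈ K0 n) : z ∈ RR n := by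
  obtain ⟨h1, h2, h3⟩ := hz
  have hn' : (1 : ℝ) ≤ n := by exact_mod_cast hn
  have hy := z.im_pos
  refine ⟨h1, h2, ?_⟩
  nlinarith

theorem mem_RR_of_DD {n : ℕ} (hn : 1 ≤ n) {z : ℍ} (hz : z ∈ DD) {g : SL(2, ℤ)} (hg : g ∈ Gam)
    (hgz : g • z ∈ K0 n) : z ∈ RR n := by
  obtain ⟨h1, h2, h3⟩ := hgz
  have hn' : (1 : ℝ) ≤ n := by exact_mod_cast hn
  have hy := z.im_pos
  have him := im_smul_eq g z
  have hgy := (g • z).im_pos
  have hNpos : 0 < Np z (g 1 0) (g 1 1) := by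
    rw [him] at hgy
    exact one_div_pos.1 hgy
  have hrow : 1 ≤ ‖(g 1 0 : ℂ) * (z : ℂ) + (g 1 1 : ℂ)‖ :=
    one_le_norm_row hz.1.le hz.2.le (odd_row hg)
  have hNp : 1 / z.im ≤ Np z (g 1 0) (g 1 1) := by
    unfold Np
    have h5 : 1 ≤ ‖(((g 1 0 : ℤ) : ℝ) : ℂ) * (z : ℂ) + (((g 1 1 : ℤ) : ℝ) : ℂ)‖ ^ 2 := by
      push_cast
      nlinarith
    exact div_le_div_of_nonneg_right h5 hy.le
  have h4 : (g • z).im ≤ z.im := by
    rw [him, div_le_iff₀ hNpos]
    calc (1 : ℝ) = z.im * (1 / z.im) := by field_simp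
      _ ≤ z.im * Np z (g 1 0) (g 1 1) := mul_le_mul_of_nonneg_left hNp hy.le
  refine ⟨hz.1, ?_, ?_⟩
  · nlinarith
  · by_cases hc : g 1 0 = 0
    · have hdet : g 0 0 * g 1 1 - g 0 1 * g 1 0 = 1 := by
        have h := g.det_coe
        rw [Matrix.det_fin_two] at h
        exact h
      rw [hc, mul_zero, sub_zero] at hdet
      have hd : (g 1 1 : ℝ) ^ 2 = 1 := by
        rcases Int.mul_eq_one_iff_eq_one_or_neg_one.1 hdet with ⟨-, h⟩ | ⟨-, h⟩ <;> rw [h] <;> norm_num
      have h6 : Np z (g 1 0) (g 1 1) = 1 / z.im := by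
        unfold Np
        rw [hc]
        have h7 : ‖(((0 : ℤ) : ℝ) : ℂ) * (z : ℂ) + (((g 1 1 : ℤ) : ℝ) : ℂ)‖ ^ 2 = 1 := by
          rw [Int.cast_zero, Complex.ofReal_zero, zero_mul, zero_add, Complex.norm_real,
            Real.norm_eq_abs, sq_abs, hd]
        rw [h7]
      rw [h6, one_div_one_div] at him
      rw [him] at h3
      nlinarith
    · have h6 := le_Np z (g 1 0) (g 1 1)
      have hc2 : (1 : ℝ) ≤ (g 1 0 : ℝ) ^ 2 := by
        have : (1 : ℤ) ≤ (g 1 0) ^ 2 := by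
          have := sq_pos_of_ne_zero hc
          omega
        exact_mod_cast this
      have h7 : z.im ≤ Np z (g 1 0) (g 1 1) := by nlinarith
      have h8 : Np z (g 1 0) (g 1 1) ≤ n := by
        rw [him, mul_one_div, le_div_iff₀ hNpos, one_mul] at h2
        exact h2
      linarith

theorem exists_S {n : ℕ} (hn : 1 ≤ n) : ∃ S : Finset SL(2, ℤ), IsS n S := by
  have hn' : (1 : ℝ) ≤ n := by exact_mod_cast hn
  -- the finite set
  have hfin : {g : SL(2, ℤ) | g ∈ Gam ∧ ∀ i j, g i j ∈ Set.Icc (-(12 * n ^ 3 : ℤ)) (12 * n ^ 3)}.Finite := by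
    have h1 : (Set.pi Set.univ (fun _ : Fin 2 => Set.pi Set.univ (fun _ : Fin 2 =>
        Set.Icc (-(12 * n ^ 3 : ℤ)) (12 * n ^ 3)))).Finite :=
      Set.Finite.pi fun _ => Set.Finite.pi fun _ => Set.finite_Icc _ _
    have h2 := h1.preimage (f := fun g : SL(2, ℤ) => (g : Matrix (Fin 2) (Fin 2) ℤ))
      (Subtype.coe_injective.injOn)
    refine h2.subset ?_
    rintro g ⟨-, hg⟩
    exact fun i _ j _ => hg i j
  refine ⟨hfin.toFinset, ?_, ?_⟩
  · intro g hg
    exact ((Set.Finite.mem_toFinset hfin).1 hg).1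
  · intro g hg z hz hgz
    rw [Set.Finite.mem_toFinset]
    refine ⟨hg, ?_⟩
    obtain ⟨hx, hy1, hy2⟩ := hz
    obtain ⟨hx', hy1', hy2'⟩ := hgz
    have hy := z.im_pos
    have hY := (g • z).im_pos
    have him := im_smul_eq g z
    have hNpos : 0 < Np z (g 1 0) (g 1 1) := by
      rw [him] at hY
      exact one_div_pos.1 hY
    have h8 : Np z (g 1 0) (g 1 1) ≤ n := by
      rw [him, mul_one_div, le_div_iff₀ hNpos, one_mul] at hy1'
      exact hy1'
    obtain ⟨D, hD⟩ : ∃ D, D = ‖(g 1 0 : ℂ) * (z : ℂ) + (g 1 1 : ℂ)‖ := ⟨_, rfl⟩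
    have hDN : D ^ 2 = Np z (g 1 0) (g 1 1) * z.im := by
      unfold Np
      rw [div_mul_cancel₀ _ hy.ne', hD]
      push_cast
      rfl
    have hD2 : D ^ 2 ≤ 2 * n ^ 2 := by
      rw [hDN]
      nlinarith
    have hD0 : 0 ≤ D := by rw [hD]; exact norm_nonneg _
    have hD1 : D ≤ 2 * n := by nlinarith
    have hDne : D ≠ 0 := by
      intro h0
      rw [h0] at hDN
      have := mul_pos hNpos hy
      rw [← hDN] at this
      norm_num at this
    -- general bound for a row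
    have hrow : ∀ (a b : ℤ) (M : ℝ), ‖(a : ℂ) * (z : ℂ) + (b : ℂ)‖ ≤ M →
        |(a : ℝ)| ≤ n * M ∧ |(b : ℝ)| ≤ M + n * M := by
      intro a b M hM
      have h1 : |((a : ℂ) * (z : ℂ) + (b : ℂ)).im| ≤ M := (Complex.abs_im_le_norm _).trans hM
      have h2 : |((a : ℂ) * (z : ℂ) + (b : ℂ)).re| ≤ M := (Complex.abs_re_le_norm _).trans hM
      have h3 : ((a : ℂ) * (z : ℂ) + (b : ℂ)).im = a * z.im := by
        simp
      have h4 : ((a : ℂ) * (z : ℂ) + (b : ℂ)).re = a * z.re + b := by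
        simp
      rw [h3, abs_mul, abs_of_pos hy] at h1
      rw [h4] at h2
      have h5 : |(a : ℝ)| ≤ n * M := by
        have h6 : |(a : ℝ)| * 1 ≤ |(a : ℝ)| * (n * z.im) :=
          mul_le_mul_of_nonneg_left hy1 (abs_nonneg _)
        nlinarith
      refine ⟨h5, ?_⟩
      have h7 : |(b : ℝ)| ≤ |(a : ℝ) * z.re + b| + |(a : ℝ) * z.re| := by
        have := abs_sub ((a : ℝ) * z.re + b) ((a : ℝ) * z.re)
        rwa [add_sub_cancel_left] at this
      have h8 : |(a : ℝ) * z.re| ≤ n * M := by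
        rw [abs_mul]
        calc |(a : ℝ)| * |z.re| ≤ |(a : ℝ)| * 1 :=
              mul_le_mul_of_nonneg_left hx.le (abs_nonneg _)
          _ ≤ n * M := by rw [mul_one]; exact h5
      linarith
    obtain ⟨hc, hd⟩ := hrow (g 1 0) (g 1 1) (2 * n) (by rw [← hD]; exact hD1)
    have htop : ‖(g 0 0 : ℂ) * (z : ℂ) + (g 0 1 : ℂ)‖ ≤ 6 * n ^ 2 := by
      have h1 : ‖((g • z : ℍ) : ℂ)‖ * D = ‖(g 0 0 : ℂ) * (z : ℂ) + (g 0 1 : ℂ)‖ := by
        rw [ab4_coe, norm_div, ← hD, div_mul_cancel₀ _ hDne]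
      have h2 : ‖((g • z : ℍ) : ℂ)‖ ≤ 3 * n := by
        have h3 := Complex.norm_le_abs_re_add_abs_im ((g • z : ℍ) : ℂ)
        rw [UpperHalfPlane.coe_re, UpperHalfPlane.coe_im, abs_of_pos hY] at h3
        linarith
      rw [← h1]
      calc ‖((g • z : ℍ) : ℂ)‖ * D ≤ (3 * n) * (2 * n) :=
            mul_le_mul h2 hD1 hD0 (by positivity)
        _ = 6 * n ^ 2 := by ring
    obtain ⟨ha, hb⟩ := hrow (g 0 0) (g 0 1) (6 * n ^ 2) htop
    have hn2 : (n : ℝ) ≤ n ^ 2 := by nlinarith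
    have hn3 : (n : ℝ) ^ 2 ≤ n ^ 3 := by
      have : (n : ℝ) ^ 3 = n * n ^ 2 := by ring
      rw [this]
      nlinarith
    have hfinal : ∀ x : ℤ, |(x : ℝ)| ≤ 12 * n ^ 3 → x ∈ Set.Icc (-(12 * n ^ 3 : ℤ)) (12 * n ^ 3) := by
      intro x hx
      obtain ⟨h1, h2⟩ := abs_le.1 hx
      constructor
      · exact_mod_cast h1
      · exact_mod_cast h2
    intro i j
    apply hfinal
    have hn3' : (n : ℝ) * n ^ 2 = n ^ 3 := by ring
    have hn2' : (n : ℝ) * n = n ^ 2 := by ring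
    fin_cases i <;> fin_cases j
    · show |((g 0 0 : ℤ) : ℝ)| ≤ 12 * n ^ 3
      nlinarith
    · show |((g 0 1 : ℤ) : ℝ)| ≤ 12 * n ^ 3
      nlinarith
    · show |((g 1 0 : ℤ) : ℝ)| ≤ 12 * n ^ 3
      nlinarith
    · show |((g 1 1 : ℤ) : ℝ)| ≤ 12 * n ^ 3
      nlinarith



theorem ab4_measurable_re : Measurable fun z : ℍ => z.re :=
  Complex.measurable_re.comp UpperHalfPlane.measurable_coe

theorem ab4_measurable_im : Measurable fun z : ℍ => z.im :=
  Complex.measurable_im.comp UpperHalfPlane.measurable_coe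

theorem measurableSet_K0 (n : ℕ) : MeasurableSet (K0 n) := by
  have h1 : MeasurableSet {z : ℍ | |z.re| < 1} :=
    measurableSet_lt (ab4_measurable_re.abs) measurable_const
  have h2 : MeasurableSet {z : ℍ | 1 ≤ n * z.im} :=
    measurableSet_le measurable_const (ab4_measurable_im.const_mul _)
  have h3 : MeasurableSet {z : ℍ | n * z.im ≤ 2} :=
    measurableSet_le (ab4_measurable_im.const_mul _) measurable_const
  exact h1.inter (h2.inter h3)

theorem measurableSet_RR (n : ℕ) : MeasurableSet (RR n) := by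
  have h1 : MeasurableSet {z : ℍ | |z.re| < 1} :=
    measurableSet_lt (ab4_measurable_re.abs) measurable_const
  have h2 : MeasurableSet {z : ℍ | 1 ≤ n * z.im} :=
    measurableSet_le measurable_const (ab4_measurable_im.const_mul _)
  have h3 : MeasurableSet {z : ℍ | z.im ≤ 2 * n} :=
    measurableSet_le ab4_measurable_im measurable_const
  exact h1.inter (h2.inter h3)

theorem ab4_int {a b : ℝ} (ha : 0 < a) (hab : a ≤ b) :
    ∫⁻ y in Set.Icc a b, ENNReal.ofReal (1 / y ^ 2) = ENNReal.ofReal (1 / a - 1 / b) := by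
  have hcont : ContinuousOn (fun y : ℝ => 1 / y ^ 2) (Set.Icc a b) := by
    refine ContinuousOn.div continuousOn_const (continuousOn_id.pow 2) fun y hy => ?_
    have : 0 < y := lt_of_lt_of_le ha hy.1
    exact (pow_pos this 2).ne'
  have hint : IntegrableOn (fun y : ℝ => 1 / y ^ 2) (Set.Icc a b) :=
    hcont.integrableOn_compact isCompact_Icc
  rw [← ofReal_integral_eq_lintegral_ofReal hint (Filter.Eventually.of_forall fun y => by
    simp only [Pi.zero_apply]; positivity)]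
  congr 1
  rw [integral_Icc_eq_integral_Ioc, ← intervalIntegral.integral_of_le hab]
  have := intervalIntegral.integral_eq_sub_of_hasDerivAt (a := a) (b := b)
    (f := fun y => -(1 / y)) (f' := fun y => 1 / y ^ 2) (fun y hy => ?_) ?_
  · rw [this]; ring
  · rw [Set.uIcc_of_le hab] at hy
    have hy0 : y ≠ 0 := (lt_of_lt_of_le ha hy.1).ne'
    have h1 := (hasDerivAt_inv hy0).neg
    simp only [one_div]
    rw [neg_neg] at h1
    exact h1
  · rw [intervalIntegrable_iff_integrableOn_Icc_of_le hab]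
    exact hint

theorem ab4_vol {a b : ℝ} (ha : 0 < a) (hab : a ≤ b) :
    volume {z : ℍ | |z.re| < 1 ∧ a ≤ z.im ∧ z.im ≤ b} = ENNReal.ofReal (2 * (1 / a - 1 / b)) := by
  classical
  set F : ℝ → ℝ → ENNReal := fun x y =>
    (Set.Ioo (-1 : ℝ) 1).indicator 1 x * (Set.Icc a b).indicator 1 y with hF
  have hFm : Measurable (Function.uncurry F) := by
    refine Measurable.mul ?_ ?_
    · exact (measurable_const.indicator measurableSet_Ioo).comp measurable_fst
    · exact (measurable_const.indicator measurableSet_Icc).comp measurable_snd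
  have hm : MeasurableSet {z : ℍ | |z.re| < 1 ∧ a ≤ z.im ∧ z.im ≤ b} := by
    have h1 : MeasurableSet {z : ℍ | |z.re| < 1} :=
      measurableSet_lt (ab4_measurable_re.abs) measurable_const
    have h2 : MeasurableSet {z : ℍ | a ≤ z.im} :=
      measurableSet_le measurable_const ab4_measurable_im
    have h3 : MeasurableSet {z : ℍ | z.im ≤ b} :=
      measurableSet_le ab4_measurable_im measurable_const
    exact h1.inter (h2.inter h3)
  have h1 : volume {z : ℍ | |z.re| < 1 ∧ a ≤ z.im ∧ z.im ≤ b} = ∫⁻ z : ℍ, F z.re z.im := by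
    rw [← lintegral_indicator_one hm]
    refine lintegral_congr fun z => ?_
    simp only [hF, Set.indicator_apply, Set.mem_ofPred_eq, Set.mem_Ioo, Set.mem_Icc,
      Pi.one_apply, abs_lt]
    split_ifs with h1 h2 h3 <;> simp_all
  rw [h1, lintegral_H F hFm]
  have h2 : ∀ x : ℝ, ∫⁻ y in Set.Ioi (0 : ℝ), F x y * ENNReal.ofReal (1 / y ^ 2) =
      (Set.Ioo (-1 : ℝ) 1).indicator (fun _ => ENNReal.ofReal (1 / a - 1 / b)) x := by
    intro x
    by_cases hx : x ∈ Set.Ioo (-1 : ℝ) 1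
    · rw [Set.indicator_of_mem hx, ← ab4_int ha hab, ← lintegral_indicator measurableSet_Icc,
        ← lintegral_indicator measurableSet_Ioi]
      refine lintegral_congr fun y => ?_
      by_cases hy : y ∈ Set.Icc a b
      · have hy0 : y ∈ Set.Ioi (0 : ℝ) := lt_of_lt_of_le ha hy.1
        simp [hF, Set.indicator_of_mem hx, Set.indicator_of_mem hy, Set.indicator_of_mem hy0]
      · by_cases hy0 : y ∈ Set.Ioi (0 : ℝ)
        · simp [hF, Set.indicator_of_notMem hy]
        · rw [Set.indicator_of_notMem hy, Set.indicator_of_notMem hy0]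
    · rw [Set.indicator_of_notMem hx]
      simp [hF, Set.indicator_of_notMem hx]
  rw [lintegral_congr h2, lintegral_indicator measurableSet_Ioo, setLIntegral_const,
    Real.volume_Ioo, mul_comm, ← ENNReal.ofReal_mul (by norm_num)]
  congr 1
  ring

theorem volume_RR {n : ℕ} (hn : 1 ≤ n) : volume (RR n) < ⊤ := by
  have hn0 : (0 : ℝ) < n := by exact_mod_cast hn
  have hn1 : (1 : ℝ) ≤ n := by exact_mod_cast hn
  have h : RR n = {z : ℍ | |z.re| < 1 ∧ 1 / (n : ℝ) ≤ z.im ∧ z.im ≤ 2 * n} := by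
    ext z
    simp only [RR, Set.mem_ofPred_eq, div_le_iff₀ hn0, mul_comm]
  rw [h, ab4_vol (by positivity) ?_]
  · exact ENNReal.ofReal_lt_top
  · rw [div_le_iff₀ hn0]
    nlinarith

/-- in fact equality holds -/
theorem volume_K0 {n : ℕ} (hn : 1 ≤ n) : volume (K0 n) ≤ ENNReal.ofReal n := by
  have hn0 : (0 : ℝ) < n := by exact_mod_cast hn
  have h : K0 n = {z : ℍ | |z.re| < 1 ∧ 1 / (n : ℝ) ≤ z.im ∧ z.im ≤ 2 / n} := by
    ext z
    simp only [K0, Set.mem_ofPred_eq, div_le_iff₀ hn0, le_div_iff₀ hn0, mul_comm]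
  rw [h, ab4_vol (by positivity) ?_]
  · refine le_of_eq ?_
    congr 1
    field_simp
    ring
  · gcongr
    norm_num

end RV11
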