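import Pool.Agent.LibRV11.AB3
import Pool.Agent.LibRV11.AB4
import Pool.Agent.LibRV11.AB13

open Complex Real MeasureTheory
open UpperHalfPlane hiding I
open scoped MatrixGroups

namespace RV11

theorem ab15_fun (g : SL(2, ℤ)) :
    (fun z : ℍ => g • z) = fun z : ℍ => (g : GL (Fin 2) ℝ) • z := by
  funext z
  rfl

theorem ab15_emb (g : SL(2, ℤ)) : MeasurableEmbedding (fun z : ℍ => g • z) := by
  rw [ab15_fun]
  exact measurableEmbedding_const_smul _

theorem mp_smul (g : SL(2, ℤ)) : MeasurePreserving (fun z : ℍ => g • z) volume volume := by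
  rw [ab15_fun]
  exact measurePreserving_smul _ _

theorem ab15_box (a b t A : ℝ) (ha : 0 < a) :
    volume {z : ℍ | |z.re - t| ≤ A ∧ a ≤ z.im ∧ z.im ≤ b} < ⊤ := by
  refine IsCompact.measure_lt_top ?_
  rw [UpperHalfPlane.isOpenEmbedding_coe.isEmbedding.isCompact_iff]
  have h1 : ((↑) : ℍ → ℂ) '' {z : ℍ | |z.re - t| ≤ A ∧ a ≤ z.im ∧ z.im ≤ b} =
      {w : ℂ | |w.re - t| ≤ A ∧ a ≤ w.im ∧ w.im ≤ b} := by
    ext w
    constructor
    · rintro ⟨z, hz, rfl⟩
      exact hz
    · intro hw
      exact ⟨⟨w, lt_of_lt_of_le ha hw.2.1⟩, hw, rfl⟩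
  rw [h1]
  refine Metric.isCompact_of_isClosed_isBounded ?_ ?_
  · refine IsClosed.inter ?_ (IsClosed.inter ?_ ?_)
    · exact isClosed_le (continuous_abs.comp (Complex.continuous_re.sub continuous_const))
        continuous_const
    · exact isClosed_le continuous_const Complex.continuous_im
    · exact isClosed_le Complex.continuous_im continuous_const
  · rw [isBounded_iff_forall_norm_le]
    refine ⟨|t| + A + (|a| + |b|), fun w hw => ?_⟩
    obtain ⟨h1, h2, h3⟩ := hw
    have e1 := Complex.norm_le_abs_re_add_abs_im w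
    have e2 : |w.re| ≤ |t| + A := by
      have : w.re = t + (w.re - t) := by ring
      rw [this]
      exact (abs_add_le _ _).trans (by linarith)
    have e3 : |w.im| ≤ |a| + |b| := by
      rw [abs_le]
      constructor
      · have := abs_nonneg b
        have := neg_abs_le a
        linarith
      · have := le_abs_self b
        have := abs_nonneg a
        linarith
    linarith

/-- compact support -/
theorem integrable_qq_qq {h : ℝ → ℝ} (hh : IsBump h) {n : ℕ} (hn : 1 ≤ n) {G : ℝ → ℝ}
    (hG : IsG0 G) {g : SL(2, ℤ)} (hg : g ∈ Gam) (hc : g 1 0 ≠ 0) :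
    Integrable (fun z => (∫ φ in (0 : ℝ)..π, act g (qq h n G) z φ *
      (starRingEnd ℂ) (qq h n G z φ)) * (W z : ℂ)) := by
  have hn0 : (0 : ℝ) < n := by exact_mod_cast hn
  have hWn : ∀ z : ℍ, 0 ≤ W z := fun z => by
    unfold W
    positivity
  have hfr := isFr_mul (isFr_act (isFr_qq hh n hG) g) (isFr_qq hh n hG)
  -- measurability
  have hmeas : AEStronglyMeasurable (fun z : ℍ => (∫ φ in (0 : ℝ)..π, act g (qq h n G) z φ *
      (starRingEnd ℂ) (qq h n G z φ)) * (W z : ℂ)) volume := by
    refine AEStronglyMeasurable.mul ?_ ?_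
    · have h1 : StronglyMeasurable (fun z : ℍ => ∫ φ in Set.Ioc (0 : ℝ) π,
          act g (qq h n G) z φ * (starRingEnd ℂ) (qq h n G z φ)) :=
        StronglyMeasurable.integral_prod_right (ν := volume.restrict (Set.Ioc (0 : ℝ) π))
          hfr.meas.stronglyMeasurable
      simp only [intervalIntegral.integral_of_le Real.pi_pos.le]
      exact h1.aestronglyMeasurable
    · exact (Complex.measurable_ofReal.comp measurable_W).aestronglyMeasurable
  set B : Set ℍ := {z : ℍ | |z.re - (-((g 1 1 : ℤ) : ℝ) / ((g 1 0 : ℤ) : ℝ))| ≤ 2 ∧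
    1 / (n : ℝ) ≤ z.im ∧ z.im ≤ 2 / n} with hB
  have hBfin : volume B < ⊤ := ab15_box _ _ _ _ (by positivity)
  have hBm : MeasurableSet B := by
    have : IsClosed B := by
      refine IsClosed.inter ?_ (IsClosed.inter ?_ ?_)
      · exact isClosed_le (continuous_abs.comp (UpperHalfPlane.continuous_re.sub
          continuous_const)) continuous_const
      · exact isClosed_le continuous_const UpperHalfPlane.continuous_im
      · exact isClosed_le UpperHalfPlane.continuous_im continuous_const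
    exact this.measurableSet
  set C : ℝ := (2 * Real.exp (2 * π)) * (2 * Real.exp (2 * π)) * π with hC
  -- pointwise bound
  have hbd : ∀ z : ℍ, ‖(∫ φ in (0 : ℝ)..π, act g (qq h n G) z φ *
      (starRingEnd ℂ) (qq h n G z φ)) * (W z : ℂ)‖ ≤ C := by
    intro z
    have h1 : (∫ φ in (0 : ℝ)..π, act g (qq h n G) z φ *
      (starRingEnd ℂ) (qq h n G z φ)) * (W z : ℂ) = ∫ φ in (0 : ℝ)..π, act g (qq h n G) z φ *
      (starRingEnd ℂ) (qq h n G z φ) * (W z : ℂ) := by
      rw [intervalIntegral.integral_mul_const]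
    rw [h1]
    refine (intervalIntegral.norm_integral_le_of_norm_le_const (a := 0) (b := π)
      (C := (2 * Real.exp (2 * π)) * (2 * Real.exp (2 * π))) fun φ _ => ?_).trans ?_
    · have e1 : ‖act g (qq h n G) z φ‖ * Real.sqrt (W z) ≤ 2 * Real.exp (2 * π) := by
        have := norm_qq_le hh hn hG (g • z) (φ + jarg g z)
        rw [W_smul hg] at this
        exact this
      have e2 := norm_qq_le hh hn hG z φ
      have e3 : ‖act g (qq h n G) z φ * (starRingEnd ℂ) (qq h n G z φ) * (W z : ℂ)‖ =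
          (‖act g (qq h n G) z φ‖ * Real.sqrt (W z)) * (‖qq h n G z φ‖ * Real.sqrt (W z)) := by
        rw [norm_mul, norm_mul, RCLike.norm_conj, Complex.norm_real, Real.norm_of_nonneg (hWn z)]
        have : W z = Real.sqrt (W z) * Real.sqrt (W z) := (Real.mul_self_sqrt (hWn z)).symm
        conv_lhs => rw [this]
        ring
      rw [e3]
      exact mul_le_mul e1 e2 (by positivity) (by positivity)
    · rw [sub_zero, abs_of_pos Real.pi_pos]
  -- support
  have hsupp : ∀ z : ℍ, z ∉ B → (∫ φ in (0 : ℝ)..π, act g (qq h n G) z φ *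
      (starRingEnd ℂ) (qq h n G z φ)) * (W z : ℂ) = 0 := by
    intro z hz
    have hq0 : ∀ (w : ℍ) (φ : ℝ), h (n * w.im) = 0 → qq h n G w φ = 0 := by
      intro w φ hw
      unfold qq
      rw [hw]
      simp
    have hint : ∀ φ, act g (qq h n G) z φ * (starRingEnd ℂ) (qq h n G z φ) = 0 := by
      intro φ
      by_contra hne
      apply hz
      have n1 : h (n * z.im) ≠ 0 := by
        intro h0
        apply hne
        rw [hq0 z φ h0, map_zero, mul_zero]
      have n2 : h (n * (g • z).im) ≠ 0 := by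
        intro h0
        apply hne
        have : act g (qq h n G) z φ = 0 := hq0 (g • z) _ h0
        rw [this, zero_mul]
      have m1 : 1 < n * z.im ∧ n * z.im < 2 := by
        by_contra hcon
        apply n1
        apply hh.supp
        by_contra hcon2
        push Not at hcon2
        exact hcon ⟨hcon2.1, hcon2.2⟩
      have m2 : 1 < n * (g • z).im ∧ n * (g • z).im < 2 := by
        by_contra hcon
        apply n2
        apply hh.supp
        by_contra hcon2
        push Not at hcon2
        exact hcon ⟨hcon2.1, hcon2.2⟩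
      refine ⟨?_, ?_, ?_⟩
      · have him : (g • z).im = z.im / Complex.normSq (((g 1 0 : ℤ) : ℂ) * z + ((g 1 1 : ℤ) : ℂ)) := by
          rw [ModularGroup.im_smul_eq_div_normSq, ModularGroup.denom_apply]
        set D : ℝ := Complex.normSq (((g 1 0 : ℤ) : ℂ) * z + ((g 1 1 : ℤ) : ℂ)) with hD
        have hDpos : 0 < D := by
          have hp := (g • z).im_pos
          rw [him] at hp
          by_contra hcon
          push Not at hcon
          have := div_nonpos_of_nonneg_of_nonpos z.im_pos.le hcon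
          linarith
        have hD2 : D < 2 := by
          have e1 := m2.1
          rw [him, mul_div_assoc', lt_div_iff₀ hDpos] at e1
          linarith [m1.2]
        have hDre : (((g 1 0 : ℤ) : ℝ) * z.re + ((g 1 1 : ℤ) : ℝ)) ^ 2 ≤ D := by
          rw [hD, Complex.normSq_apply]
          simp only [Complex.add_re, Complex.mul_re, Complex.intCast_re, Complex.intCast_im,
            Complex.add_im, Complex.mul_im, UpperHalfPlane.coe_re, UpperHalfPlane.coe_im]
          nlinarith [mul_self_nonneg (((g 1 0 : ℤ) : ℝ) * z.im)]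
        have hc1 : (1 : ℝ) ≤ |((g 1 0 : ℤ) : ℝ)| := by
          have := Int.one_le_abs hc
          exact_mod_cast this
        have hcne : ((g 1 0 : ℤ) : ℝ) ≠ 0 := by exact_mod_cast hc
        have e4 : |((g 1 0 : ℤ) : ℝ) * z.re + ((g 1 1 : ℤ) : ℝ)| ≤ 2 := by
          apply abs_le_of_sq_le_sq' _ (by norm_num) |> abs_le.mpr
          linarith
        have e5 : ((g 1 0 : ℤ) : ℝ) * z.re + ((g 1 1 : ℤ) : ℝ) =
            ((g 1 0 : ℤ) : ℝ) * (z.re - (-((g 1 1 : ℤ) : ℝ) / ((g 1 0 : ℤ) : ℝ))) := by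
          field_simp
          ring
        rw [e5, abs_mul] at e4
        have e6 := abs_nonneg (z.re - (-((g 1 1 : ℤ) : ℝ) / ((g 1 0 : ℤ) : ℝ)))
        nlinarith
      · rw [div_le_iff₀ hn0]
        linarith [m1.1]
      · rw [le_div_iff₀ hn0]
        linarith [m1.2]
    simp only [hint, intervalIntegral.integral_zero, zero_mul]
  have hind : Integrable (B.indicator fun _ : ℍ => C) volume :=
    (integrable_indicator_iff hBm).mpr (integrableOn_const hBfin.ne)
  refine hind.mono' hmeas (Filter.Eventually.of_forall fun z => ?_)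
  by_cases hz : z ∈ B
  · rw [Set.indicator_of_mem hz]
    exact hbd z
  · rw [Set.indicator_of_notMem hz, hsupp z hz, norm_zero]

theorem ab15_null (t : ℝ) : volume {z : ℍ | z.re = t} = 0 := by
  have hm : MeasurableSet {z : ℍ | z.re = t} :=
    (isClosed_eq UpperHalfPlane.continuous_re continuous_const).measurableSet
  rw [UpperHalfPlane.volume_def]
  refine withDensity_absolutelyContinuous _ _ ?_
  rw [UpperHalfPlane.measurableEmbedding_coe.comap_apply]
  have h1 : ((↑) : ℍ → ℂ) '' {z : ℍ | z.re = t} ⊆ {w : ℂ | w.re = t} := by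
    rintro _ ⟨z, hz, rfl⟩
    exact hz
  refine measure_mono_null h1 ?_
  have h2 : {w : ℂ | w.re = t} = Complex.measurableEquivRealProd ⁻¹' ({t} ×ˢ Set.univ) := by
    ext w
    simp [Complex.measurableEquivRealProd]
  rw [h2, Complex.volume_preserving_equiv_real_prod.measure_preimage
    ((measurableSet_singleton t).prod MeasurableSet.univ).nullMeasurableSet]
  rw [Measure.volume_eq_prod, Measure.prod_prod]
  simp

/-- translation by `2 l` -/
noncomputable def ab15_T (l : ℤ) : SL(2, ℤ) := ModularGroup.T ^ (2 * l)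

theorem ab15_T_mem (l : ℤ) : ab15_T l ∈ Gam := by
  have h := ModularGroup.coe_T_zpow (2 * l)
  have e : ∀ i j, (ab15_T l : Matrix (Fin 2) (Fin 2) ℤ) i j = (!![1, 2 * l; 0, 1]) i j := by
    intro i j
    unfold ab15_T
    rw [h]
  rw [mem_Gam_iff]
  constructor
  · have e1 := e 0 0
    have e2 := e 0 1
    simp only [Matrix.of_apply, Matrix.cons_val', Matrix.cons_val_zero, Matrix.cons_val_one,
      Matrix.cons_val_fin_one] at e1 e2
    rw [e1, e2, one_mul]
    exact even_two_mul l
  · have e1 := e 1 0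
    simp only [Matrix.of_apply, Matrix.cons_val', Matrix.cons_val_zero, Matrix.cons_val_one,
      Matrix.cons_val_fin_one] at e1
    rw [e1, zero_mul]
    exact Even.zero

theorem ab15_T_smul (l : ℤ) (z : ℍ) : ((ab15_T l • z : ℍ) : ℂ) = (z : ℂ) + 2 * l := by
  unfold ab15_T
  rw [UpperHalfPlane.modular_T_zpow_smul]
  rw [UpperHalfPlane.coe_vadd]
  push_cast
  ring

theorem ab15_T_re (l : ℤ) (z : ℍ) : (ab15_T l • z : ℍ).re = z.re + 2 * l := by
  have := congrArg Complex.re (ab15_T_smul l z)
  simpa using this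


theorem ab15_qq_T {h : ℝ → ℝ} {n : ℕ} {G : ℝ → ℝ} (l : ℤ) (z : ℍ) (φ : ℝ) :
    qq h n G (ab15_T l • z) φ = qq h n G z φ :=
  qq_of_eq h n G z (ab15_T l • z) l (ab15_T_smul l z) φ

/-- the matrix `gm c (a + 2ck) (d + 2cl)` acts as `T^{2k} γ T^{2l}` -/
theorem ab15_gm {c : ℕ} (hc : 1 ≤ c) {p : ℕ × ℕ} (hp : p ∈ adPairs c) (k l : ℤ) (z : ℍ) :
    gm c (p.1 + 2 * c * k) (p.2 + 2 * c * l) • z =
        ab15_T k • (gm c p.1 p.2 • (ab15_T l • z)) ∧
      jarg (gm c (p.1 + 2 * c * k) (p.2 + 2 * c * l)) z = jarg (gm c p.1 p.2) (ab15_T l • z) := by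
  have hcC : (c : ℂ) ≠ 0 := by
    have : c ≠ 0 := by omega
    exact_mod_cast this
  have hcZ : (c : ℤ) ≠ 0 := by
    have : c ≠ 0 := by omega
    exact_mod_cast this
  have h0 := (gm_mem hc hp 0 0).1
  simp only [mul_zero, add_zero] at h0
  have h1 := (gm_mem hc hp k l).1
  obtain ⟨a1, b1, c1, d1⟩ := gm_det h0
  obtain ⟨a2, b2, c2, d2⟩ := gm_det h1
  obtain ⟨b, hb⟩ := h0
  obtain ⟨b', hb'⟩ := h1
  rw [hb, Int.mul_ediv_cancel_left _ hcZ] at b1
  rw [hb', Int.mul_ediv_cancel_left _ hcZ] at b2
  have hbb : b' = 2 * l * p.1 + b + 4 * k * l * c + 2 * k * p.2 := by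
    have e1 : (c : ℤ) * b' = c * (2 * l * p.1 + b + 4 * k * l * c + 2 * k * p.2) := by
      rw [← hb']
      linear_combination hb
    exact mul_left_cancel₀ hcZ e1
  have hden : ∀ w : ℍ, ((c : ℂ)) * (w : ℂ) + (p.2 : ℂ) ≠ 0 := by
    intro w h
    have := congrArg Complex.im h
    simp only [Complex.add_im, Complex.mul_im, Complex.natCast_re, Complex.natCast_im,
      UpperHalfPlane.coe_im, UpperHalfPlane.coe_re, Complex.zero_im, zero_mul, add_zero] at this
    have h2 : (0 : ℝ) < c := by exact_mod_cast hc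
    have h3 := mul_pos h2 w.im_pos
    linarith
  have hw := ab15_T_smul l z
  constructor
  · apply UpperHalfPlane.ext
    rw [ab15_T_smul, UpperHalfPlane.coe_specialLinearGroup_apply,
      UpperHalfPlane.coe_specialLinearGroup_apply, a1, b1, c1, d1, a2, b2, c2, d2, hw]
    have hd1 := hden (ab15_T l • z)
    rw [hw] at hd1
    have hd2 : (c : ℂ) * (z : ℂ) + ((p.2 : ℂ) + 2 * c * l) ≠ 0 := by
      intro h
      apply hd1
      linear_combination h
    simp only [algebraMap_int_eq, eq_intCast, Int.cast_add, Int.cast_mul, Int.cast_natCast,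
      Int.cast_ofNat, Complex.ofReal_add, Complex.ofReal_mul, Complex.ofReal_natCast,
      Complex.ofReal_intCast, Complex.ofReal_ofNat]
    rw [div_add' _ _ _ hd1, div_eq_div_iff hd2 hd1]
    have hbC : (b' : ℂ) = 2 * l * p.1 + b + 4 * k * l * c + 2 * k * p.2 := by
      exact_mod_cast hbb
    rw [hbC]
    ring
  · unfold jarg
    rw [c1, d1, c2, d2, hw]
    congr 1
    push_cast
    ring

theorem ab15_round {x : ℝ} (hx : ∀ m : ℤ, x ≠ 2 * m + 1) : ∃ l : ℤ, |x - 2 * l| < 1 := by
  refine ⟨round (x / 2), ?_⟩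
  have h1 := abs_sub_round (x / 2)
  have h2 : |x - 2 * (round (x / 2) : ℝ)| ≤ 1 := by
    have : x - 2 * (round (x / 2) : ℝ) = 2 * (x / 2 - round (x / 2)) := by ring
    rw [this, abs_mul, abs_two]
    linarith
  refine lt_of_le_of_ne h2 fun h3 => ?_
  rcases (abs_eq (by norm_num : (0 : ℝ) ≤ 1)).mp h3 with h4 | h4
  · exact hx (round (x / 2)) (by linarith)
  · exact hx (round (x / 2) - 1) (by push_cast; linarith)

theorem ab15_ae_re : ∀ᵐ z : ℍ, ∀ m : ℤ, z.re ≠ 2 * m + 1 := by
  rw [ae_all_iff]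
  intro m
  have h := ab15_null (2 * m + 1)
  have h2 : {z : ℍ | z.re = 2 * m + 1} = {z : ℍ | ¬ (z.re ≠ 2 * m + 1)} := by
    ext z
    simp
  rw [h2] at h
  exact h

/-- tiling by the translates of the strip on both sides -/
theorem tiling {h : ℝ → ℝ} (hh : IsBump h) {n : ℕ} (hn : 1 ≤ n) {G : ℝ → ℝ}
    (hG : IsG0 G) {c : ℕ} (hc : 1 ≤ c) {p : ℕ × ℕ} (hp : p ∈ adPairs c) :
    ∑' kl : ℤ × ℤ,
        iH (fun z φ => act (gm c (p.1 + 2 * c * kl.1) (p.2 + 2 * c * kl.2)) (q0 h n G) z φ *
          (starRingEnd ℂ) (q0 h n G z φ)) =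
      iH (fun z φ => act (gm c p.1 p.2) (qq h n G) z φ * (starRingEnd ℂ) (qq h n G z φ)) := by
  classical
  set γ : SL(2, ℤ) := gm c p.1 p.2 with hγ
  have hγmem : γ ∈ Gam := by
    have := (gm_mem hc hp 0 0).2
    simp only [mul_zero, add_zero] at this
    exact this
  have hγc : γ 1 0 ≠ 0 := by
    have h0 := (gm_mem hc hp 0 0).1
    simp only [mul_zero, add_zero] at h0
    rw [hγ, (gm_det h0).2.2.1]
    have : c ≠ 0 := by omega
    exact_mod_cast this
  set F : ℍ → ℂ := fun w => (∫ φ in (0 : ℝ)..π, act γ (qq h n G) w φ *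
    (starRingEnd ℂ) (qq h n G w φ)) * (W w : ℂ) with hF
  have hFi : Integrable F := integrable_qq_qq hh hn hG hγmem hγc
  set E : ℤ × ℤ → Set ℍ := fun kl => {w : ℍ | |w.re - 2 * kl.2| < 1 ∧
    |(γ • w).re + 2 * kl.1| < 1} with hE
  have hEm : ∀ kl, MeasurableSet (E kl) := by
    intro kl
    have h1 : Measurable fun w : ℍ => |w.re - 2 * kl.2| :=
      (continuous_abs.comp (UpperHalfPlane.continuous_re.sub continuous_const)).measurable
    have h2 : Measurable fun w : ℍ => |w.re + 2 * (kl.1 : ℝ)| :=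
      (continuous_abs.comp (UpperHalfPlane.continuous_re.add continuous_const)).measurable
    have h3 : Measurable fun w : ℍ => |(γ • w).re + 2 * (kl.1 : ℝ)| :=
      h2.comp (mp_smul γ).measurable
    exact (measurableSet_lt h1 measurable_const).inter (measurableSet_lt h3 measurable_const)
  have huniq : ∀ (x : ℝ) (m m' : ℤ), |x - 2 * m| < 1 → |x - 2 * m'| < 1 → m = m' := by
    intro x m m' h1 h2
    rw [abs_lt] at h1 h2
    have h3 : ((m - m' : ℤ) : ℝ) < 1 := by push_cast; linarith
    have h4 : (-1 : ℝ) < ((m - m' : ℤ) : ℝ) := by push_cast; linarith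
    have h5 : m - m' < 1 := by exact_mod_cast h3
    have h6 : -1 < m - m' := by exact_mod_cast h4
    omega
  have hdisj : Pairwise (Function.onFun Disjoint E) := by
    intro kl kl' hne
    rw [Function.onFun, Set.disjoint_left]
    intro w hw hw'
    apply hne
    have e1 := huniq _ _ _ hw.1 hw'.1
    have e2 : -kl.1 = -kl'.1 := by
      refine huniq (γ • w).re (-kl.1) (-kl'.1) ?_ ?_
      · have := hw.2
        push_cast
        rw [mul_neg, sub_neg_eq_add]
        exact this
      · have := hw'.2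
        push_cast
        rw [mul_neg, sub_neg_eq_add]
        exact this
    exact Prod.ext (neg_injective e2) e1
  have hcov : ∀ᵐ w : ℍ, w ∈ ⋃ kl, E kl := by
    have a1 := ab15_ae_re
    have a2 : ∀ᵐ w : ℍ, ∀ m : ℤ, (γ • w).re ≠ 2 * m + 1 :=
      (mp_smul γ).quasiMeasurePreserving.ae ab15_ae_re
    filter_upwards [a1, a2] with w h1 h2
    obtain ⟨l, hl⟩ := ab15_round h1
    obtain ⟨k, hk⟩ := ab15_round h2
    refine Set.mem_iUnion.mpr ⟨(-k, l), hl, ?_⟩
    push_cast
    rw [mul_neg, ← sub_eq_add_neg]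
    exact hk
  have hterm : ∀ kl : ℤ × ℤ,
      iH (fun z φ => act (gm c (p.1 + 2 * c * kl.1) (p.2 + 2 * c * kl.2)) (q0 h n G) z φ *
          (starRingEnd ℂ) (q0 h n G z φ)) = ∫ w in E kl, F w := by
    intro kl
    have hpt : ∀ z : ℍ, (∫ φ in (0 : ℝ)..π,
        act (gm c (p.1 + 2 * c * kl.1) (p.2 + 2 * c * kl.2)) (q0 h n G) z φ *
          (starRingEnd ℂ) (q0 h n G z φ)) * (W z : ℂ) =
        (E kl).indicator F (ab15_T kl.2 • z) := by
      intro z
      obtain ⟨g1, g2⟩ := ab15_gm hc hp kl.1 kl.2 z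
      have hW : W (ab15_T kl.2 • z) = W z := W_smul (ab15_T_mem kl.2) z
      set w : ℍ := ab15_T kl.2 • z with hw
      have hre : z.re = w.re - 2 * kl.2 := by
        have := ab15_T_re kl.2 z
        linarith
      have hqz : ∀ φ, qq h n G z φ = qq h n G w φ := fun φ => (ab15_qq_T kl.2 z φ).symm
      have hact : ∀ φ, act (gm c (p.1 + 2 * c * kl.1) (p.2 + 2 * c * kl.2)) (q0 h n G) z φ =
          (ind (|(γ • w).re + 2 * kl.1| < 1) : ℂ) * act γ (qq h n G) w φ := by
        intro φ
        unfold act q0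
        rw [g1, g2, ab15_qq_T, ab15_T_re]
      by_cases hwE : w ∈ E kl
      · rw [Set.indicator_of_mem hwE]
        rw [hF]
        simp only
        rw [hW]
        congr 1
        refine intervalIntegral.integral_congr fun φ _ => ?_
        rw [hact φ]
        unfold q0
        rw [hre, hqz φ]
        unfold ind
        rw [if_pos hwE.1, if_pos hwE.2]
        simp
      · rw [Set.indicator_of_notMem hwE]
        have hz0 : ∀ φ, act (gm c (p.1 + 2 * c * kl.1) (p.2 + 2 * c * kl.2)) (q0 h n G) z φ *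
          (starRingEnd ℂ) (q0 h n G z φ) = 0 := by
          intro φ
          rw [hact φ]
          unfold q0
          rw [hre]
          by_cases h1 : |w.re - 2 * kl.2| < 1
          · have h2 : ¬ |(γ • w).re + 2 * kl.1| < 1 := fun h2 => hwE ⟨h1, h2⟩
            unfold ind
            rw [if_neg h2]
            simp
          · unfold ind
            rw [if_neg h1]
            simp
        simp only [hz0, intervalIntegral.integral_zero, zero_mul]
    unfold iH
    rw [integral_congr_ae (Filter.Eventually.of_forall hpt),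
      (mp_smul (ab15_T kl.2)).integral_comp (ab15_emb _) ((E kl).indicator F),
      integral_indicator (hEm kl)]
  rw [tsum_congr hterm, ← integral_iUnion hEm hdisj hFi.integrableOn,
    Measure.restrict_eq_self_of_ae_mem hcov]
  rfl

end RV11
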