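import Pool.Agent.LibRV11.AB3
import Pool.Agent.LibRV11.AB13

open Complex Real MeasureTheory
open UpperHalfPlane hiding I
open scoped MatrixGroups

namespace RV11

theorem ab16_arg {w : ℂ} (hw : 0 < w.im) :
    0 < Complex.arg w ∧ Complex.arg w < π := by
  constructor
  · have h0 : 0 ≤ Complex.arg w := Complex.arg_nonneg_iff.mpr hw.le
    refine lt_of_le_of_ne h0 ?_
    intro h
    have := Complex.arg_eq_zero_iff.mp h.symm
    linarith [this.2]
  · refine lt_of_le_of_ne (Complex.arg_le_pi w) ?_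
    intro h
    have := Complex.arg_eq_pi_iff.mp h
    linarith [this.2]

/-- the two cases of the argument -/
theorem ab16_cases {w : ℂ} (hw : 0 < w.im) (hw' : w.re ≠ 0) :
    (Real.arctan (w.im / w.re) = Complex.arg w ∧ 0 < Complex.arg w ∧ Complex.arg w < π / 2) ∨
    (Real.arctan (w.im / w.re) = Complex.arg w - π ∧ π / 2 < Complex.arg w ∧
      Complex.arg w < π) := by
  obtain ⟨h0, h1⟩ := ab16_arg hw
  have htan : Real.tan (Complex.arg w) = w.im / w.re := Complex.tan_arg w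
  have hwne : w ≠ 0 := by
    intro h
    rw [h] at hw
    simp at hw
  rcases lt_or_gt_of_ne hw' with hneg | hpos
  · right
    have h2 : π / 2 < Complex.arg w := by
      by_contra hcon
      rw [not_lt] at hcon
      have hc : 0 ≤ Real.cos (Complex.arg w) :=
        Real.cos_nonneg_of_mem_Icc ⟨by linarith [Real.pi_pos], hcon⟩
      rw [Complex.cos_arg hwne] at hc
      have : w.re / ‖w‖ < 0 := div_neg_of_neg_of_pos hneg (norm_pos_iff.mpr hwne)
      linarith
    refine ⟨?_, h2, h1⟩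
    rw [← htan, ← Real.tan_sub_pi]
    apply Real.arctan_tan <;> linarith [Real.pi_pos]
  · left
    have h2 : Complex.arg w < π / 2 := by
      by_contra hcon
      rw [not_lt] at hcon
      have hc : Real.cos (Complex.arg w) ≤ 0 :=
        Real.cos_nonpos_of_pi_div_two_le_of_le hcon (by linarith [Real.pi_pos])
      rw [Complex.cos_arg hwne] at hc
      have : 0 < w.re / ‖w‖ := div_pos hpos (norm_pos_iff.mpr hwne)
      linarith
    refine ⟨?_, h0, h2⟩
    rw [← htan]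
    apply Real.arctan_tan <;> linarith [Real.pi_pos]

theorem fibre_Rc {δ : ℝ} {G : ℝ → ℝ} (hG : IsG δ G) {w : ℂ} (hw : 0 < w.im) (hw' : w.re ≠ 0) :
    ∫ φ in (0 : ℝ)..π, Gp G (φ + Complex.arg w) * Gp G φ = Rc G (Real.arctan (w.im / w.re)) := by
  have hpi := Real.pi_gt_three
  have hδ := hG.pos
  have hδ' := hG.le
  have key : ∀ φ : ℝ, φ ∈ Set.Ioo 0 π →
      Gp G (φ + Complex.arg w) * Gp G φ = G φ * G (φ + Real.arctan (w.im / w.re)) := by
    intro φ hφ
    have h1 : Gp G φ = G φ := Gp_of_mem G hφ.1.le hφ.2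
    rw [h1]
    by_cases hφδ : φ ≤ δ
    · rcases ab16_cases hw hw' with ⟨ha, hb, hc⟩ | ⟨ha, hb, hc⟩
      · rw [ha, Gp_of_mem G (by linarith [hφ.1]) (by linarith)]
        ring
      · rw [ha]
        by_cases hsgn : 0 ≤ φ + (Complex.arg w - π)
        · have h2 : Gp G (φ + Complex.arg w) = G (φ + (Complex.arg w - π)) := by
            have h3 := Gp_add_pi G (φ + (Complex.arg w - π))
            rw [Gp_of_mem G hsgn (by linarith)] at h3
            rw [← h3]
            congr 1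
            ring
          rw [h2]
          ring
        · rw [not_le] at hsgn
          have h2 : Gp G (φ + Complex.arg w) = 0 := by
            rw [Gp_of_mem G (by linarith [hφ.1]) (by linarith)]
            exact hG.supp _ (Or.inr (by linarith [hφ.1]))
          have h3 : G (φ + (Complex.arg w - π)) = 0 := hG.supp _ (Or.inl hsgn)
          rw [h2, h3]
          ring
    · rw [not_le] at hφδ
      rw [hG.supp φ (Or.inr hφδ)]
      ring
  rw [Rc, intervalIntegral.integral_of_le Real.pi_pos.le, integral_Ioc_eq_integral_Ioo,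
    setIntegral_congr_fun measurableSet_Ioo key, ← integral_Ioc_eq_integral_Ioo]
  have h0 : ∀ φ : ℝ, φ ∉ Set.Icc (0 : ℝ) π →
      G φ * G (φ + Real.arctan (w.im / w.re)) = 0 := by
    intro φ hφ
    rw [Set.mem_Icc, not_and_or, not_le, not_le] at hφ
    have : G φ = 0 := by
      rcases hφ with h | h
      · exact hG.supp _ (Or.inl h)
      · exact hG.supp _ (Or.inr (by linarith))
    rw [this, zero_mul]
  rw [← integral_Icc_eq_integral_Ioc]
  exact setIntegral_eq_integral_of_forall_compl_eq_zero h0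

theorem ab16_conj_qq (h : ℝ → ℝ) (n : ℕ) (G : ℝ → ℝ) (z : ℍ) (φ : ℝ) :
    (starRingEnd ℂ) (qq h n G z φ) * (W z : ℂ) =
      (Gp G φ : ℂ) * (((h (n * z.im) * z.im : ℝ) : ℂ) * jacobiTheta (z : ℂ) *
        cexp (-(π * I * n * (z : ℂ)))) := by
  have hth : jacobiTheta (z : ℂ) ≠ 0 := theta_ne_zero z
  have hth' : (starRingEnd ℂ) (jacobiTheta (z : ℂ)) ≠ 0 := by
    rw [Ne, map_eq_zero]; exact hth
  have hW : (W z : ℂ) = jacobiTheta (z : ℂ) * (starRingEnd ℂ) (jacobiTheta (z : ℂ)) *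
      (Real.sqrt z.im : ℂ) := by
    rw [Complex.mul_conj, W, Complex.normSq_eq_norm_sq]
    push_cast
    ring
  have hy : (Real.sqrt z.im : ℂ) * (Real.sqrt z.im : ℂ) = (z.im : ℂ) := by
    rw [← Complex.ofReal_mul, Real.mul_self_sqrt z.im_pos.le]
  have hexp : (starRingEnd ℂ) (cexp (π * I * n * (starRingEnd ℂ (z : ℂ)))) =
      cexp (-(π * I * n * (z : ℂ))) := by
    rw [← Complex.exp_conj]
    congr 1
    simp only [map_mul, Complex.conj_ofReal, Complex.conj_I, map_natCast, Complex.conj_conj]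
    ring
  rw [qq, map_div₀, map_mul, Complex.conj_ofReal, hexp, hW]
  push_cast
  rw [div_mul_eq_mul_div, div_eq_iff hth', ← hy]
  ring

theorem pointwise {h : ℝ → ℝ} {n : ℕ} (hn : 1 ≤ n) {δ : ℝ} {G : ℝ → ℝ}
    (hG : IsG δ G) {c : ℕ} (hc : 1 ≤ c) {p : ℕ × ℕ} (hp : p ∈ adPairs c) (z : ℍ)
    (hz : (c : ℝ) * z.re + p.2 ≠ 0) :
    (∫ φ in (0 : ℝ)..π, act (gm c p.1 p.2) (qq h n G) z φ * (starRingEnd ℂ) (qq h n G z φ)) *
        (W z : ℂ) =
      Gs p.2 c / Real.sqrt c * cexp (π * I * n * ((p.1 : ℂ) + p.2) / c) *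
        KK h (Rc G) n c p.2 z.re z.im := by
  obtain ⟨hdvd, hmem⟩ := gm_mem hc hp 0 0
  simp only [mul_zero, add_zero] at hdvd hmem
  obtain ⟨e00, e01, e10, e11⟩ := gm_det hdvd
  set g := gm c (p.1 : ℤ) (p.2 : ℤ) with hg
  have hcR : (0 : ℝ) < c := by exact_mod_cast hc
  have hcC : (c : ℂ) ≠ 0 := by exact_mod_cast hcR.ne'
  -- the number s + i E
  set s : ℝ := c * z.re + p.2 with hs
  set E : ℝ := c * z.im with hE
  have hEpos : 0 < E := mul_pos hcR z.im_pos
  have hcz : (c : ℂ) * (z : ℂ) + ((p.2 : ℕ) : ℂ) = (s : ℂ) + I * E := by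
    apply Complex.ext
    · simp [hs, hE]
    · simp [hs, hE]
  have hN : 0 < s ^ 2 + E ^ 2 := by positivity
  have hwne : (s : ℂ) + I * E ≠ 0 := by
    intro h0
    have := congrArg Complex.im h0
    simp at this
    exact hEpos.ne' this
  have hwne' : (s : ℂ) - I * E ≠ 0 := by
    intro h0
    have := congrArg Complex.im h0
    simp at this
    exact hEpos.ne' this
  have hNC : ((s : ℂ) + I * E) * ((s : ℂ) - I * E) = (s : ℂ) ^ 2 + (E : ℂ) ^ 2 := by
    linear_combination (-(E : ℂ) ^ 2) * Complex.I_sq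
  have hNne : (s : ℂ) ^ 2 + (E : ℂ) ^ 2 ≠ 0 := by
    rw [← hNC]; exact mul_ne_zero hwne hwne'
  have hdenom : ((g 1 0 : ℤ) : ℂ) * (z : ℂ) + ((g 1 1 : ℤ) : ℂ) = (s : ℂ) + I * E := by
    rw [e10, e11, ← hcz]
    push_cast
    ring
  -- imaginary part
  have him : (g • z).im = z.im / (s ^ 2 + E ^ 2) := by
    rw [im_smul_eq, Np, e10, e11]
    have : ‖((((c : ℤ) : ℝ)) : ℂ) * (z : ℂ) + ((((p.2 : ℤ) : ℝ)) : ℂ)‖ ^ 2 = s ^ 2 + E ^ 2 := by
      have h1 : ((((c : ℤ) : ℝ)) : ℂ) * (z : ℂ) + ((((p.2 : ℤ) : ℝ)) : ℂ) = (s : ℂ) + I * E := by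
        rw [← hcz]
        push_cast
        ring
      rw [h1, ← Complex.normSq_eq_norm_sq, Complex.normSq_apply]
      simp
      ring
    rw [this]
    field_simp
  -- g z
  have hb : (c : ℂ) * ((g 0 1 : ℤ) : ℂ) = (p.1 : ℂ) * p.2 - 1 := by
    rw [e01]
    have h1 : (c : ℤ) * (((p.1 : ℤ) * p.2 - 1) / c) = (p.1 : ℤ) * p.2 - 1 :=
      Int.mul_ediv_cancel' hdvd
    exact_mod_cast congrArg (fun t : ℤ => (t : ℂ)) h1
  have hgz : ((g • z : ℍ) : ℂ) = ((p.1 : ℂ)) / c - 1 / (c * ((s : ℂ) + I * E)) := by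
    rw [UpperHalfPlane.coe_specialLinearGroup_apply]
    simp only [eq_intCast]
    have h1 : ((((g 1 0 : ℤ) : ℝ)) : ℂ) * (z : ℂ) + ((((g 1 1 : ℤ) : ℝ)) : ℂ) =
        (s : ℂ) + I * E := by
      rw [← hdenom]
      push_cast
      ring
    rw [h1, div_eq_iff hwne, e00]
    push_cast
    have h2 : ((p.1 : ℂ) / c - 1 / (c * ((s : ℂ) + I * E))) * ((s : ℂ) + I * E) =
        ((p.1 : ℂ) * ((s : ℂ) + I * E) - 1) / c := by
      field_simp
    rw [h2, eq_div_iff hcC, ← hcz]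
    linear_combination hb
  have hconj : (starRingEnd ℂ) ((g • z : ℍ) : ℂ) =
      (p.1 : ℂ) / c - ((s : ℂ) + I * E) / (c * ((s : ℂ) ^ 2 + (E : ℂ) ^ 2)) := by
    rw [hgz]
    simp only [map_sub, map_div₀, map_natCast, map_one, map_mul, map_add, Complex.conj_ofReal,
      Complex.conj_I]
    rw [← hNC]
    have h3 : (s : ℂ) + -I * E = (s : ℂ) - I * E := by ring
    rw [h3]
    field_simp
  have hzc : (z : ℂ) = ((s : ℂ) + I * E) / c - (p.2 : ℂ) / c := by
    rw [← hcz]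
    field_simp
    ring
  have hEc : (E : ℂ) / c = (z.im : ℂ) := by
    rw [hE]
    push_cast
    field_simp
  -- theta
  have hθ := theta_gauss hmem c hc (by exact_mod_cast e10) z
  rw [e11] at hθ
  have hθ' : jacobiTheta (z : ℂ) / jacobiTheta ((g • z : ℍ) : ℂ) =
      Gs p.2 c / Real.sqrt c * (-I * ((s : ℂ) + I * E)) ^ (-(1 / 2) : ℂ) := by
    rw [div_eq_iff (theta_ne_zero (g • z)), hθ, ← hcz]
    push_cast
    rfl
  -- the fibre integral
  have hint : (∫ φ in (0 : ℝ)..π, act g (qq h n G) z φ * (starRingEnd ℂ) (qq h n G z φ)) *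
        (W z : ℂ) = (Rc G (Real.arctan (E / s)) : ℂ) *
        (((h (n * (g • z).im) * Real.sqrt (g • z).im : ℝ) : ℂ) *
          cexp (π * I * n * (starRingEnd ℂ ((g • z : ℍ) : ℂ))) / jacobiTheta ((g • z : ℍ) : ℂ) *
          (((h (n * z.im) * z.im : ℝ) : ℂ) * jacobiTheta (z : ℂ) *
            cexp (-(π * I * n * (z : ℂ))))) := by
    have hfib := fibre_Rc hG (w := (s : ℂ) + I * E) (by simpa using hEpos) (by simpa using hz)
    have hre : ((s : ℂ) + I * E).re = s := by simp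
    have him' : ((s : ℂ) + I * E).im = E := by simp
    rw [hre, him'] at hfib
    rw [← hfib, ← intervalIntegral.integral_ofReal, ← intervalIntegral.integral_mul_const,
      ← intervalIntegral.integral_mul_const]
    apply intervalIntegral.integral_congr
    intro φ _
    simp only
    rw [mul_assoc, ab16_conj_qq, act, jarg, hdenom, qq]
    push_cast
    ring
  rw [hint, him]
  have hR : (Rc G (Real.arctan (E / s)) : ℂ) *
        (((h (n * (z.im / (s ^ 2 + E ^ 2))) * Real.sqrt (z.im / (s ^ 2 + E ^ 2)) : ℝ) : ℂ) *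
          cexp (π * I * n * (starRingEnd ℂ ((g • z : ℍ) : ℂ))) / jacobiTheta ((g • z : ℍ) : ℂ) *
          (((h (n * z.im) * z.im : ℝ) : ℂ) * jacobiTheta (z : ℂ) *
            cexp (-(π * I * n * (z : ℂ))))) =
      (jacobiTheta (z : ℂ) / jacobiTheta ((g • z : ℍ) : ℂ)) *
      (cexp (π * I * n * (starRingEnd ℂ ((g • z : ℍ) : ℂ))) * cexp (-(π * I * n * (z : ℂ)))) *
      ((Rc G (Real.arctan (E / s)) : ℂ) *
        ((h (n * (z.im / (s ^ 2 + E ^ 2))) * Real.sqrt (z.im / (s ^ 2 + E ^ 2)) : ℝ) : ℂ) *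
        ((h (n * z.im) * z.im : ℝ) : ℂ)) := by
    ring
  rw [hR, hθ', ← Complex.exp_add]
  have hexp : π * I * n * (starRingEnd ℂ ((g • z : ℍ) : ℂ)) + -(π * I * n * (z : ℂ)) =
      π * I * n * ((p.1 : ℂ) + p.2) / c +
      (((π * (n * z.im + n * (z.im / (s ^ 2 + E ^ 2))) : ℝ) : ℂ) +
      -(π * I * ((n / c * s * (1 + 1 / (s ^ 2 + E ^ 2)) : ℝ) : ℂ))) := by
    rw [hconj]
    have e1 : π * I * n * (z : ℂ) = π * I * n * (((s : ℂ) + I * E) / c - (p.2 : ℂ) / c) := by
      rw [← hzc]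
    rw [e1]
    push_cast
    rw [← hEc]
    field_simp
    ring_nf
    rw [Complex.I_sq]
    ring
  rw [hexp, Complex.exp_add, Complex.exp_add, ← Complex.ofReal_exp, KK]
  simp only [Int.cast_natCast, ← hs, ← hE]
  push_cast
  ring

end RV11
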