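import Pool.Agent.LibRV11.Theta

/-! Module AB: definitions (final, do not change) -/

open Complex Real MeasureTheory
open UpperHalfPlane hiding I
open scoped MatrixGroups

namespace RV11

/-- The angle cocycle. -/
noncomputable def jarg (g : SL(2, ℤ)) (z : ℍ) : ℝ :=
  Complex.arg ((g 1 0 : ℂ) * (z : ℂ) + (g 1 1 : ℂ))

/-- The action of `g` on functions on the frame bundle. -/
noncomputable def act (g : SL(2, ℤ)) (f : ℍ → ℝ → ℂ) (z : ℍ) (φ : ℝ) : ℂ :=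
  f (g • z) (φ + jarg g z)

/-- `π`-periodisation of a function on `[0, π)`. -/
noncomputable def Gp (G : ℝ → ℝ) (φ : ℝ) : ℝ := G (toIcoMod Real.pi_pos 0 φ)

/-- The test function. -/
noncomputable def qq (h : ℝ → ℝ) (n : ℕ) (G : ℝ → ℝ) (z : ℍ) (φ : ℝ) : ℂ :=
  ((Gp G φ * h (n * z.im) * Real.sqrt z.im : ℝ) : ℂ) *
    cexp (π * I * n * (starRingEnd ℂ (z : ℂ))) / jacobiTheta (z : ℂ)

/-- The test function cut off to the strip. -/
noncomputable def q0 (h : ℝ → ℝ) (n : ℕ) (G : ℝ → ℝ) (z : ℍ) (φ : ℝ) : ℂ :=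
  (ind (|z.re| < 1) : ℂ) * qq h n G z φ

/-- Bounded measurable profiles. -/
structure IsG0 (G : ℝ → ℝ) : Prop where
  meas : Measurable G
  le_one : ∀ φ, |G φ| ≤ 1

/-- Admissible profiles for the pairing. -/
structure IsG (δ : ℝ) (G : ℝ → ℝ) : Prop extends IsG0 G where
  pos : 0 < δ
  le : δ ≤ 1 / 8
  supp : ∀ φ, φ < 0 ∨ δ < φ → G φ = 0

/-- Functions on the frame bundle: measurable and `π`-periodic in the angle. -/
structure IsFr (f : ℍ → ℝ → ℂ) : Prop where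
  meas : Measurable (Function.uncurry f)
  per : ∀ z φ, f z (φ + π) = f z φ

/-- Integral over the standard domain. -/
noncomputable def iD (F : ℍ → ℝ → ℂ) : ℂ := ∫ z in DD, (∫ φ in (0 : ℝ)..π, F z φ) * (W z : ℂ)

/-- Integral over the upper half plane. -/
noncomputable def iH (F : ℍ → ℝ → ℂ) : ℂ := ∫ z, (∫ φ in (0 : ℝ)..π, F z φ) * (W z : ℂ)

/-- `L¹` norm over the standard domain. -/
noncomputable def l1 (F : ℍ → ℝ → ℂ) : ENNReal :=
  ∫⁻ z in DD, ∫⁻ φ in Set.Ioc (0 : ℝ) π, ‖F z φ‖ₑ * ENNReal.ofReal (W z)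

/-- The support of `q0`. -/
def K0 (n : ℕ) : Set ℍ := {z | |z.re| < 1 ∧ 1 ≤ n * z.im ∧ n * z.im ≤ 2}

/-- A larger relatively compact region. -/
def RR (n : ℕ) : Set ℍ := {z | |z.re| < 1 ∧ 1 ≤ n * z.im ∧ z.im ≤ 2 * n}

/-- The matrix with entries `a`, `c`, `d`. -/
noncomputable def gm (c : ℕ) (a d : ℤ) : SL(2, ℤ) :=
  if h : a * d - (a * d - 1) / c * c = 1 then
    ⟨!![a, (a * d - 1) / c; (c : ℤ), d], by rw [Matrix.det_fin_two_of]; exact h⟩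
  else 1

/-- The class function of level `m`. -/
structure IsKap (m : ℕ) (T : Finset (ℕ × ℕ)) (κ : SL(2, ℤ) → ℕ × ℕ) : Prop where
  card : (T.card : ℝ) ≤ ∑ d ∈ m.divisors, (d : ℝ)
  mem : ∀ g, κ g ∈ T
  iff : ∀ g g', κ g = κ g' ↔ (m : ℤ) ∣ g 1 0 * g' 1 1 - g' 1 0 * g 1 1

/-- `S` contains all `g` in the theta group with `z, g z ∈ RR n` for some `z`. -/
structure IsS (n : ℕ) (S : Finset SL(2, ℤ)) : Prop where
  sub : ∀ g ∈ S, g ∈ Gam
  all : ∀ g ∈ Gam, ∀ z, z ∈ RR n → g • z ∈ RR n → g ∈ S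

/-- The explicit kernel: `s = c x + d`, `E = c y`. -/
noncomputable def KK (h R : ℝ → ℝ) (n c : ℕ) (d : ℤ) (x y : ℝ) : ℂ :=
  ((R (Real.arctan (c * y / (c * x + d))) * h (n * y) *
      h (n * (y / ((c * x + d) ^ 2 + (c * y) ^ 2))) * y *
      Real.sqrt (y / ((c * x + d) ^ 2 + (c * y) ^ 2)) *
      Real.exp (π * (n * y + n * (y / ((c * x + d) ^ 2 + (c * y) ^ 2)))) : ℝ) : ℂ) *
    (-I * ((c * x + d : ℝ) + I * (c * y : ℝ))) ^ (-(1 / 2) : ℂ) *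
    cexp (-(π * I * (n / c * (c * x + d) * (1 + 1 / ((c * x + d) ^ 2 + (c * y) ^ 2)) : ℝ)))

open Classical in
/-- The partial Poincare series of a class. -/
noncomputable def QQ (h : ℝ → ℝ) (n : ℕ) (G : ℝ → ℝ) (S : Finset SL(2, ℤ))
    (κ : SL(2, ℤ) → ℕ × ℕ) (k : ℕ × ℕ) (z : ℍ) (φ : ℝ) : ℂ :=
  1 / 2 * ∑ g ∈ S.filter (fun g => κ g = k), chi g * act g (q0 h n G) z φ

end RV11
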