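import Pool.Agent.LibRV11.AB5
import Pool.Agent.LibRV11.AB0

open Complex Real MeasureTheory
open UpperHalfPlane hiding I
open scoped MatrixGroups

namespace RV11

/-- the kernel in the variables `s` and `E = c y` -/
private noncomputable def ab17_K (h R : ℝ → ℝ) (n c : ℕ) (s y : ℝ) : ℂ :=
  ((R (Real.arctan (c * y / s)) * h (n * y) *
      h (n * (y / (s ^ 2 + (c * y) ^ 2))) * y *
      Real.sqrt (y / (s ^ 2 + (c * y) ^ 2)) *
      Real.exp (π * (n * y + n * (y / (s ^ 2 + (c * y) ^ 2)))) : ℝ) : ℂ) *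
    (-I * ((s : ℝ) + I * (c * y : ℝ))) ^ (-(1 / 2) : ℂ) *
    cexp (-(π * I * (n / c * s * (1 + 1 / (s ^ 2 + (c * y) ^ 2)) : ℝ)))

private theorem ab17_KK (h R : ℝ → ℝ) (n c : ℕ) (d : ℤ) (x y : ℝ) :
    KK h R n c d x y = ab17_K h R n c (c * x + d) y := by
  unfold KK ab17_K
  rfl

private theorem ab17_meas {h : ℝ → ℝ} (hh : IsBump h) {R : ℝ → ℝ} (hR : Measurable R) (n c : ℕ) :
    Measurable fun p : ℝ × ℝ => ab17_K h R n c p.1 p.2 := by
  have hm : Measurable h := hh.smooth.continuous.measurable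
  have h1 : Measurable fun p : ℝ × ℝ => p.1 := measurable_fst
  have h2 : Measurable fun p : ℝ × ℝ => p.2 := measurable_snd
  have h3 : Measurable fun p : ℝ × ℝ => p.1 ^ 2 + (c * p.2) ^ 2 :=
    (h1.pow_const 2).add ((h2.const_mul _).pow_const 2)
  have h4 : Measurable fun p : ℝ × ℝ => p.2 / (p.1 ^ 2 + (c * p.2) ^ 2) := h2.div h3
  have h5 : Measurable fun p : ℝ × ℝ => R (Real.arctan (c * p.2 / p.1)) :=
    hR.comp (Real.measurable_arctan.comp ((h2.const_mul _).div h1))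
  have h6 : Measurable fun p : ℝ × ℝ => h (n * p.2) := hm.comp (h2.const_mul _)
  have h7 : Measurable fun p : ℝ × ℝ => h (n * (p.2 / (p.1 ^ 2 + (c * p.2) ^ 2))) :=
    hm.comp (h4.const_mul _)
  have h8 : Measurable fun p : ℝ × ℝ =>
      Real.exp (π * (n * p.2 + n * (p.2 / (p.1 ^ 2 + (c * p.2) ^ 2)))) :=
    Real.measurable_exp.comp (((h2.const_mul _).add (h4.const_mul _)).const_mul _)
  have h9 : Measurable fun p : ℝ × ℝ => (-I * ((p.1 : ℝ) + I * (c * p.2 : ℝ)) : ℂ) :=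
    ((Complex.measurable_ofReal.comp h1).add
      ((Complex.measurable_ofReal.comp (h2.const_mul _)).const_mul _)).const_mul _
  have h10 : Measurable fun p : ℝ × ℝ =>
      cexp (-(π * I * (n / c * p.1 * (1 + 1 / (p.1 ^ 2 + (c * p.2) ^ 2)) : ℝ))) := by
    refine Complex.measurable_exp.comp (Measurable.neg (Measurable.const_mul ?_ _))
    refine Complex.measurable_ofReal.comp ?_
    exact (h1.const_mul _).mul ((measurable_const.div h3).const_add _)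
  unfold ab17_K
  exact ((Complex.measurable_ofReal.comp
    (((((h5.mul h6).mul h7).mul h2).mul h4.sqrt).mul h8)).mul (h9.pow_const _)).mul h10

theorem measurable_KK {h : ℝ → ℝ} (hh : IsBump h) {R : ℝ → ℝ} (hR : Measurable R) (n c : ℕ)
    (d : ℤ) : Measurable (Function.uncurry (KK h R n c d)) := by
  have h1 : Function.uncurry (KK h R n c d) =
      (fun p : ℝ × ℝ => ab17_K h R n c p.1 p.2) ∘ fun p : ℝ × ℝ => ((c : ℝ) * p.1 + d, p.2) := by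
    funext p
    exact ab17_KK h R n c d p.1 p.2
  rw [h1]
  exact (ab17_meas hh hR n c).comp
    (((measurable_fst.const_mul _).add_const _).prodMk measurable_snd)

/-- the integrand of `II` -/
private noncomputable def ab17_J (h R : ℝ → ℝ) (ρ s Y : ℝ) : ℂ :=
  ((R (Real.arctan (ρ * Y / s)) * h Y * h (Y / (s ^ 2 + (ρ * Y) ^ 2)) *
      Real.sqrt (Y / (s ^ 2 + (ρ * Y) ^ 2)) *
      Real.exp (π * (Y + Y / (s ^ 2 + (ρ * Y) ^ 2))) / Y : ℝ) : ℂ) *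
    (-I * (s + I * (ρ * Y))) ^ (-(1 / 2) : ℂ) *
    cexp (-(π * I * (s / ρ) * (1 + 1 / (s ^ 2 + (ρ * Y) ^ 2))))

private theorem ab17_pt {h R : ℝ → ℝ} {n c : ℕ} (hn : 1 ≤ n) (hc : 1 ≤ c) (s : ℝ) {Y : ℝ}
    (hY : 0 < Y) :
    ab17_K h R n c s ((n : ℝ)⁻¹ * Y) * (1 / ((n : ℝ)⁻¹ * Y) ^ 2 : ℝ) =
      ((n / Real.sqrt n : ℝ) : ℂ) * ab17_J h R (c / n) s Y := by
  have hn0 : (0 : ℝ) < n := by exact_mod_cast hn
  have hc0 : (0 : ℝ) < c := by exact_mod_cast hc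
  have h1 : (c : ℝ) * ((n : ℝ)⁻¹ * Y) = c / n * Y := by field_simp
  have h2 : (n : ℝ) * ((n : ℝ)⁻¹ * Y) = Y := by field_simp
  have h3 : (n : ℝ) * ((n : ℝ)⁻¹ * Y / (s ^ 2 + (c / n * Y) ^ 2)) =
      Y / (s ^ 2 + (c / n * Y) ^ 2) := by
    rw [← mul_div_assoc, h2]
  have h4 : Real.sqrt ((n : ℝ)⁻¹ * Y / (s ^ 2 + (c / n * Y) ^ 2)) =
      (Real.sqrt n)⁻¹ * Real.sqrt (Y / (s ^ 2 + (c / n * Y) ^ 2)) := by
    rw [mul_div_assoc, Real.sqrt_mul (by positivity), Real.sqrt_inv]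
  unfold ab17_K ab17_J
  rw [h1, h2, h3, h4]
  set A := R (Real.arctan (c / n * Y / s)) with hA
  set B := h (Y / (s ^ 2 + (c / n * Y) ^ 2)) with hB
  set D := Real.sqrt (Y / (s ^ 2 + (c / n * Y) ^ 2)) with hD
  set E := Real.exp (π * (Y + Y / (s ^ 2 + (c / n * Y) ^ 2))) with hE
  have h5 : (-I * ((s : ℝ) + I * (c / n * Y : ℝ)) : ℂ) =
      -I * (s + I * (((c / n : ℝ) : ℂ) * Y)) := by push_cast; ring
  have h6 : (-(π * I * (n / c * s * (1 + 1 / (s ^ 2 + (c / n * Y) ^ 2)) : ℝ)) : ℂ) =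
      -(π * I * (s / ((c / n : ℝ) : ℂ)) * (1 + 1 / (s ^ 2 + (((c / n : ℝ) : ℂ) * Y) ^ 2))) := by
    have h7 : ((n / c * s * (1 + 1 / (s ^ 2 + (c / n * Y) ^ 2)) : ℝ) : ℂ) =
        ((s / (c / n) * (1 + 1 / (s ^ 2 + (c / n * Y) ^ 2)) : ℝ) : ℂ) := by
      congr 1
      field_simp
    rw [h7]
    push_cast
    ring
  rw [h5, h6]
  set F := (-I * (s + I * (((c / n : ℝ) : ℂ) * Y)) : ℂ) ^ (-(1 / 2) : ℂ)
  set G := cexp (-(π * I * (s / ((c / n : ℝ) : ℂ)) *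
    (1 + 1 / (s ^ 2 + (((c / n : ℝ) : ℂ) * Y) ^ 2))))
  have h8 : (A * h Y * B * ((n : ℝ)⁻¹ * Y) * ((Real.sqrt n)⁻¹ * D) * E) *
      (1 / ((n : ℝ)⁻¹ * Y) ^ 2) = (n / Real.sqrt n) * (A * h Y * B * D * E / Y) := by
    field_simp
  have h9 : (((A * h Y * B * ((n : ℝ)⁻¹ * Y) * ((Real.sqrt n)⁻¹ * D) * E : ℝ)) : ℂ) *
      ((1 / ((n : ℝ)⁻¹ * Y) ^ 2 : ℝ) : ℂ) =
      ((n / Real.sqrt n : ℝ) : ℂ) * ((A * h Y * B * D * E / Y : ℝ) : ℂ) := by
    rw [← Complex.ofReal_mul, h8, Complex.ofReal_mul]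
  linear_combination (F * G) * h9

/-- change of variables `x = (s - d)/c`, `y = Y/n` -/
theorem integral_KK {h : ℝ → ℝ} (hh : IsBump h) {R : ℝ → ℝ} (hR : Measurable R) {n c : ℕ}
    (hn : 1 ≤ n) (hc : 1 ≤ c) (d : ℤ) (hint : Integrable (fun z : ℍ => KK h R n c d z.re z.im)) :
    ∫ z : ℍ, KK h R n c d z.re z.im = 1 / (Real.sqrt n * c) * II h R (c / n) := by
  have hn0 : (0 : ℝ) < n := by exact_mod_cast hn
  have hc0 : (0 : ℝ) < c := by exact_mod_cast hc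
  rw [integral_H _ (measurable_KK hh hR n c d) hint]
  simp_rw [ab17_KK]
  -- the inner integral
  have hin : ∀ s : ℝ, ∫ y in Set.Ioi (0 : ℝ), ab17_K h R n c s y * (1 / y ^ 2 : ℝ) =
      ((1 / Real.sqrt n : ℝ) : ℂ) * ∫ Y in (1 : ℝ)..2, ab17_J h R (c / n) s Y := by
    intro s
    have h1 := integral_comp_mul_left_Ioi
      (fun y : ℝ => ab17_K h R n c s y * (1 / y ^ 2 : ℝ)) 0 (inv_pos.2 hn0)
    rw [mul_zero, inv_inv] at h1
    have h2 : ∫ Y in Set.Ioi (0 : ℝ), ab17_K h R n c s ((n : ℝ)⁻¹ * Y) *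
        (1 / ((n : ℝ)⁻¹ * Y) ^ 2 : ℝ) =
        ∫ Y in Set.Ioi (0 : ℝ), ((n / Real.sqrt n : ℝ) : ℂ) * ab17_J h R (c / n) s Y :=
      setIntegral_congr_fun measurableSet_Ioi fun Y hY => ab17_pt hn hc s hY
    have h3 : ∫ Y in Set.Ioi (0 : ℝ), ab17_J h R (c / n) s Y =
        ∫ Y in (1 : ℝ)..2, ab17_J h R (c / n) s Y := by
      rw [intervalIntegral.integral_of_le (by norm_num)]
      refine setIntegral_eq_of_subset_of_forall_sdiff_eq_zero measurableSet_Ioi ?_ ?_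
      · intro x hx
        exact lt_trans one_pos hx.1
      · rintro x ⟨-, hx⟩
        have h4 : h x = 0 := by
          apply hh.supp
          by_contra hcon
          push Not at hcon
          exact hx ⟨hcon.1, hcon.2.le⟩
        unfold ab17_J
        rw [h4]
        simp
    rw [h2, integral_const_mul, h3] at h1
    have h5 : (n : ℝ) • ∫ y in Set.Ioi (0 : ℝ), ab17_K h R n c s y * (1 / y ^ 2 : ℝ) =
        (n : ℝ) • (((1 / Real.sqrt n : ℝ) : ℂ) * ∫ Y in (1 : ℝ)..2, ab17_J h R (c / n) s Y) := by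
      rw [← h1, Complex.real_smul, ← mul_assoc, ← Complex.ofReal_mul]
      congr 2
      field_simp
    exact smul_right_injective ℂ hn0.ne' h5
  simp_rw [hin]
  have h6 := Measure.integral_comp_mul_left
    (fun x : ℝ => ((1 / Real.sqrt n : ℝ) : ℂ) *
      ∫ Y in (1 : ℝ)..2, ab17_J h R (c / n) (x + d) Y) (c : ℝ)
  rw [h6]
  have h7 := integral_add_right_eq_self (μ := (volume : Measure ℝ))
    (fun x : ℝ => ((1 / Real.sqrt n : ℝ) : ℂ) *
      ∫ Y in (1 : ℝ)..2, ab17_J h R (c / n) x Y) (d : ℝ)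
  rw [h7, integral_const_mul]
  have h8 : ∫ s : ℝ, ∫ Y in (1 : ℝ)..2, ab17_J h R (c / n) s Y = II h R (c / n) := rfl
  rw [h8, abs_of_pos (inv_pos.2 hc0), Complex.real_smul]
  push_cast
  field_simp

end RV11
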