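import Pool.Agent.LibRV11.AB3
import Pool.Agent.LibRV11.AB4
import Pool.Agent.LibRV11.AB15
import Pool.Agent.LibRV11.AB16
import Pool.Agent.LibRV11.AB17

open Complex Real MeasureTheory
open UpperHalfPlane hiding I
open scoped MatrixGroups

namespace RV11

theorem ab_measurable_Rc {δ : ℝ} {G : ℝ → ℝ} (hG : IsG δ G) : Measurable (Rc G) := by
  have h1 : StronglyMeasurable (Function.uncurry fun (α φ : ℝ) => G φ * G (φ + α)) := by
    apply Measurable.stronglyMeasurable
    exact (hG.meas.comp measurable_snd).mul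
      (hG.meas.comp (measurable_snd.add measurable_fst))
  exact (h1.integral_prod_right).measurable

theorem ab_Rc_zero {δ : ℝ} {G : ℝ → ℝ} (hG : IsG δ G) {α : ℝ} (hα : δ < |α|) : Rc G α = 0 := by
  have h1 : ∀ φ, G φ * G (φ + α) = 0 := by
    intro φ
    by_contra hne
    have h2 : G φ ≠ 0 := left_ne_zero_of_mul hne
    have h3 : G (φ + α) ≠ 0 := right_ne_zero_of_mul hne
    have h4 : ¬ (φ < 0 ∨ δ < φ) := fun h => h2 (hG.supp φ h)
    have h5 : ¬ (φ + α < 0 ∨ δ < φ + α) := fun h => h3 (hG.supp _ h)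
    push Not at h4 h5
    have : |α| ≤ δ := abs_le.2 ⟨by linarith, by linarith⟩
    linarith
  rw [Rc]
  simp_rw [h1]
  simp

/-- the vertical line `c x + d = 0` is a null set -/
theorem ab_ae_ne (c : ℕ) (hc : 1 ≤ c) (d : ℝ) : ∀ᵐ z : ℍ, (c : ℝ) * z.re + d ≠ 0 := by
  have hc0 : (c : ℝ) ≠ 0 := by
    have : c ≠ 0 := by omega
    exact_mod_cast this
  rw [ae_iff, volume_eq_lintegral]
  apply setLIntegral_measure_zero
  have h1 : volume {z : ℂ | z.re = -d / c} = 0 := by
    have e : {z : ℂ | z.re = -d / c} =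
        Complex.measurableEquivRealProd ⁻¹' (({-d / c} : Set ℝ) ×ˢ (Set.univ : Set ℝ)) := by
      ext z
      simp
    rw [e, Complex.volume_preserving_equiv_real_prod.measure_preimage
      (((MeasurableSet.singleton _).prod MeasurableSet.univ).nullMeasurableSet),
      Measure.volume_eq_prod, Measure.prod_prod]
    simp
  apply measure_mono_null _ h1
  rintro _ ⟨z, hz, rfl⟩
  have hz' : (c : ℝ) * z.re + d = 0 := by
    by_contra h
    exact hz h
  change z.re = -d / c
  rw [eq_div_iff hc0]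
  linarith

theorem row_term {h : ℝ → ℝ} (hh : IsBump h) {n : ℕ} (hn : 1 ≤ n) {δ : ℝ} {G : ℝ → ℝ}
    (hG : IsG δ G) {c : ℕ} (hc : 1 ≤ c) {p : ℕ × ℕ} (hp : p ∈ adPairs c) :
    iH (fun z φ => act (gm c p.1 p.2) (qq h n G) z φ * (starRingEnd ℂ) (qq h n G z φ)) =
      Gs p.2 c / Real.sqrt c * cexp (π * I * n * ((p.1 : ℂ) + p.2) / c) *
        (1 / (Real.sqrt n * c) * II h (Rc G) (c / n)) := by
  set A : ℂ := Gs p.2 c / Real.sqrt c * cexp (π * I * n * ((p.1 : ℂ) + p.2) / c) with hA
  have hae : ∀ᵐ z : ℍ, (∫ φ in (0 : ℝ)..π, act (gm c p.1 p.2) (qq h n G) z φ *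
      (starRingEnd ℂ) (qq h n G z φ)) * (W z : ℂ) = A * KK h (Rc G) n c p.2 z.re z.im := by
    filter_upwards [ab_ae_ne c hc p.2] with z hz
    exact pointwise hn hG hc hp z hz
  rw [iH, integral_congr_ae hae, integral_const_mul]
  by_cases hA0 : A = 0
  · rw [hA0, zero_mul, zero_mul]
  · have hgm := gm_mem hc hp 0 0
    simp only [mul_zero, add_zero] at hgm
    have hc10 : gm c p.1 p.2 1 0 ≠ 0 := by
      rw [(gm_det hgm.1).2.2.1]
      have : c ≠ 0 := by omega
      exact_mod_cast this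
    have hint : Integrable (fun z : ℍ => KK h (Rc G) n c p.2 z.re z.im) := by
      have h1 := integrable_qq_qq hh hn hG.toIsG0 hgm.2 hc10
      have h2 := (h1.congr hae).const_mul A⁻¹
      refine h2.congr (Filter.Eventually.of_forall fun z => ?_)
      simp only
      rw [← mul_assoc, inv_mul_cancel₀ hA0, one_mul]
    rw [integral_KK hh (ab_measurable_Rc hG) hn hc p.2 hint]

theorem diag_term {h : ℝ → ℝ} (hh : IsBump h) {n : ℕ} (hn : 1 ≤ n) {δ : ℝ} {G : ℝ → ℝ}
    (hG : IsG δ G) :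
    ‖iH (fun z φ => q0 h n G z φ * (starRingEnd ℂ) (q0 h n G z φ))‖ ≤
      4 * Real.exp (4 * π) * δ / Real.sqrt n := by
  have hn0 : (0 : ℝ) < n := by
    have : 0 < n := by omega
    exact_mod_cast this
  have hδ := hG.pos
  have hδπ : δ ≤ π := by
    have := hG.le
    have := Real.pi_gt_three
    linarith
  set C : ℝ := (2 / n) * Real.sqrt (2 / n) * Real.exp (4 * π) with hC
  have hC0 : 0 ≤ C := by positivity
  set f : ℍ → ℂ := fun z =>
    (∫ φ in (0 : ℝ)..π, q0 h n G z φ * (starRingEnd ℂ) (q0 h n G z φ)) * (W z : ℂ) with hf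
  have hout : ∀ z, z ∉ K0 n → f z = 0 := by
    intro z hz
    simp only [hf]
    simp_rw [q0_eq_zero hh n G hz]
    simp
  have hin : ∀ z ∈ K0 n, ‖f z‖ ≤ C * δ := by
    intro z hz
    obtain ⟨hz1, hz2, hz3⟩ := hz
    have hW := W_pos z
    have hq : ∀ φ, q0 h n G z φ = qq h n G z φ := by
      intro φ
      rw [q0, ind, if_pos hz1]
      simp
    have hy : z.im ≤ 2 / n := by
      rw [le_div_iff₀ hn0]; linarith
    have hsup : ∀ φ ∈ Set.Ioc (0 : ℝ) π \ Set.Ioc 0 δ,
        q0 h n G z φ * (starRingEnd ℂ) (q0 h n G z φ) = 0 ∨ φ = π := by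
      intro φ hφ
      by_cases hp : φ = π
      · exact Or.inr hp
      · left
        have h1 : φ < π := lt_of_le_of_ne hφ.1.2 hp
        have h2 : δ < φ := by
          by_contra hcon
          exact hφ.2 ⟨hφ.1.1, not_lt.1 hcon⟩
        have h3 : Gp G φ = 0 := by
          rw [Gp_of_mem G hφ.1.1.le h1]
          exact hG.supp φ (Or.inr h2)
        rw [hq, qq, h3]
        simp
    have hbound : ∀ φ, ‖q0 h n G z φ * (starRingEnd ℂ) (q0 h n G z φ)‖ * W z ≤ C := by
      intro φ
      rw [hq, norm_mul, RCLike.norm_conj, ← sq, norm_qq_sq]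
      have h1 : Gp G φ ^ 2 ≤ 1 := by
        rw [sq_le_one_iff_abs_le_one]
        exact abs_Gp_le hG.toIsG0 φ
      have h2 : h (n * z.im) ^ 2 ≤ 1 := by
        rw [sq_le_one_iff_abs_le_one, abs_of_nonneg (hh.nonneg _)]
        exact hh.le_one _
      have h3 : Real.exp (2 * π * n * z.im) ≤ Real.exp (4 * π) := by
        apply Real.exp_le_exp.2
        have := Real.pi_pos
        nlinarith
      have h4 : z.im * Real.sqrt z.im ≤ 2 / n * Real.sqrt (2 / n) := by
        have := z.im_pos.le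
        gcongr
      have h5 := z.im_pos.le
      calc Gp G φ ^ 2 * h (n * z.im) ^ 2 *
            (z.im * Real.sqrt z.im * Real.exp (2 * π * n * z.im)) ≤
            1 * 1 * (2 / n * Real.sqrt (2 / n) * Real.exp (4 * π)) := by gcongr
        _ = C := by rw [hC]; ring
    have hint : ∫ φ in (0 : ℝ)..π, q0 h n G z φ * (starRingEnd ℂ) (q0 h n G z φ) =
        ∫ φ in (0 : ℝ)..δ, q0 h n G z φ * (starRingEnd ℂ) (q0 h n G z φ) := by
      rw [intervalIntegral.integral_of_le Real.pi_pos.le, intervalIntegral.integral_of_le hδ.le]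
      rw [← integral_indicator measurableSet_Ioc, ← integral_indicator measurableSet_Ioc]
      apply integral_congr_ae
      have hne : ∀ᵐ φ : ℝ, φ ≠ π := by
        rw [ae_iff]
        simp
      filter_upwards [hne] with φ hφ
      by_cases h1 : φ ∈ Set.Ioc (0 : ℝ) δ
      · rw [Set.indicator_of_mem h1, Set.indicator_of_mem (Set.Ioc_subset_Ioc_right hδπ h1)]
      · rw [Set.indicator_of_notMem h1]
        by_cases h2 : φ ∈ Set.Ioc (0 : ℝ) π
        · rw [Set.indicator_of_mem h2]
          exact (hsup φ ⟨h2, h1⟩).resolve_right hφ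
        · rw [Set.indicator_of_notMem h2]
    simp only [hf]
    rw [norm_mul, Complex.norm_real, Real.norm_eq_abs, abs_of_pos hW, hint]
    have h6 : ‖∫ φ in (0 : ℝ)..δ, q0 h n G z φ * (starRingEnd ℂ) (q0 h n G z φ)‖ ≤
        (C / W z) * |δ - 0| := by
      apply intervalIntegral.norm_integral_le_of_norm_le_const
      intro φ _
      rw [le_div_iff₀ hW]
      exact hbound φ
    calc _ ≤ (C / W z) * |δ - 0| * W z := by gcongr
      _ = C * δ := by
        rw [sub_zero, abs_of_pos hδ]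
        field_simp
  have hvol := volume_K0 hn
  have hvol' : volume (K0 n) < ⊤ := lt_of_le_of_lt hvol ENNReal.ofReal_lt_top
  have h7 : iH (fun z φ => q0 h n G z φ * (starRingEnd ℂ) (q0 h n G z φ)) =
      ∫ z in K0 n, f z := by
    rw [iH, setIntegral_eq_integral_of_forall_compl_eq_zero hout]
  rw [h7]
  have h8 := norm_setIntegral_le_of_norm_le_const hvol' hin
  have h9 : volume.real (K0 n) ≤ n := by
    rw [Measure.real]
    exact ENNReal.toReal_le_of_le_ofReal hn0.le hvol
  refine h8.trans ?_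
  have h10 : Real.sqrt n ≠ 0 := (Real.sqrt_pos.2 hn0).ne'
  have h11 : Real.sqrt 2 ≤ 2 := by
    rw [Real.sqrt_le_left (by norm_num)]
    norm_num
  calc C * δ * volume.real (K0 n) ≤ C * δ * n := by gcongr
    _ = 2 * Real.sqrt 2 * Real.exp (4 * π) * δ / Real.sqrt n := by
      rw [hC, Real.sqrt_div (by norm_num)]
      field_simp
    _ ≤ 2 * 2 * Real.exp (4 * π) * δ / Real.sqrt n := by gcongr
    _ = 4 * Real.exp (4 * π) * δ / Real.sqrt n := by norm_num

end RV11
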