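import Pool.Agent.LibRV11.Defs

open Complex Real MeasureTheory
open UpperHalfPlane hiding I
open scoped MatrixGroups

namespace RV11

theorem CI6_meas {k : ℝ → ℝ} (hk : IsProf k) (δ : ℝ) : Measurable (prof k δ) := by
  have h1 : Measurable k := hk.smooth.continuous.measurable
  exact Measurable.ite measurableSet_Ici (h1.comp (measurable_id.div_const δ)) measurable_const

theorem CI6_le {k : ℝ → ℝ} (hk : IsProf k) (δ φ : ℝ) : |prof k δ φ| ≤ 1 := by
  unfold prof
  split_ifs with h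
  · exact hk.le_one _
  · simp

theorem CI6_supp {k : ℝ → ℝ} (hk : IsProf k) {δ : ℝ} (hδ : 0 < δ) {φ : ℝ} (h : φ < 0 ∨ δ < φ) :
    prof k δ φ = 0 := by
  unfold prof
  rcases h with h | h
  · rw [if_neg (not_le.mpr h)]
  · rw [if_pos (hδ.le.trans h.le)]
    refine hk.supp _ ?_
    rw [le_div_iff₀ hδ]
    linarith

theorem CI6_lip {k : ℝ → ℝ} (hk : IsProf k) {δ : ℝ} (hδ : 0 < δ) {a b : ℝ} (ha : 0 ≤ a)
    (hb : 0 ≤ b) : |prof k δ a - prof k δ b| ≤ |a - b| / δ := by
  unfold prof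
  rw [if_pos ha, if_pos hb]
  have h := Convex.norm_image_sub_le_of_norm_deriv_le (f := k) (C := 1) (s := Set.univ)
    (x := b / δ) (y := a / δ)
    (fun x _ => (hk.smooth.differentiable (by norm_num)).differentiableAt)
    (fun x _ => by rw [Real.norm_eq_abs]; exact hk.deriv_le x) convex_univ
    (Set.mem_univ _) (Set.mem_univ _)
  rw [Real.norm_eq_abs, Real.norm_eq_abs, one_mul, ← sub_div, abs_div, abs_of_pos hδ] at h
  exact h

theorem CI6_bound {k : ℝ → ℝ} (hk : IsProf k) {δ : ℝ} (hδ : 0 < δ) (α φ : ℝ) :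
    ‖prof k δ φ * prof k δ (φ + α)‖ ≤ (Set.Icc 0 δ).indicator (fun _ => (1 : ℝ)) φ := by
  by_cases h : φ ∈ Set.Icc 0 δ
  · rw [Set.indicator_of_mem h, norm_mul, Real.norm_eq_abs, Real.norm_eq_abs]
    exact mul_le_one₀ (CI6_le hk δ φ) (abs_nonneg _) (CI6_le hk δ _)
  · rw [Set.indicator_of_notMem h]
    have h0 : prof k δ φ = 0 := by
      apply CI6_supp hk hδ
      by_contra hcon
      push Not at hcon
      exact h ⟨hcon.1, hcon.2⟩
    rw [h0, zero_mul, norm_zero]

theorem CI6_ind_int {a b : ℝ} (hab : a ≤ b) (C : ℝ) :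
    Integrable ((Set.Icc a b).indicator (fun _ => C)) ∧
      ∫ x, (Set.Icc a b).indicator (fun _ => C) x = C * (b - a) := by
  constructor
  · rw [integrable_indicator_iff measurableSet_Icc]
    exact integrableOn_const (by rw [Real.volume_Icc]; exact ENNReal.ofReal_ne_top)
  · rw [integral_indicator measurableSet_Icc, setIntegral_const, Real.volume_real_Icc_of_le hab,
      smul_eq_mul, mul_comm]

theorem CI6_integrable {k : ℝ → ℝ} (hk : IsProf k) {δ : ℝ} (hδ : 0 < δ) (α : ℝ) :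
    Integrable (fun φ => prof k δ φ * prof k δ (φ + α)) := by
  refine (CI6_ind_int hδ.le 1).1.mono' ?_ (Filter.Eventually.of_forall (CI6_bound hk hδ α))
  exact ((CI6_meas hk δ).mul
    ((CI6_meas hk δ).comp (measurable_id.add_const α))).aestronglyMeasurable

theorem CI6_diff {k : ℝ → ℝ} (hk : IsProf k) {δ : ℝ} (hδ : 0 < δ) (γ : ℝ) {t : ℝ} (ht : 0 ≤ t)
    (φ : ℝ) : ‖prof k δ φ * prof k δ (φ + (γ + t)) - prof k δ φ * prof k δ (φ + γ)‖ ≤
      (Set.Icc (-γ) (δ - γ)).indicator (fun _ => t / δ) φ +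
        (Set.Icc (-γ - t) (-γ)).indicator (fun _ => (1 : ℝ)) φ := by
  have hn1 : 0 ≤ (Set.Icc (-γ) (δ - γ)).indicator (fun _ => t / δ) φ :=
    Set.indicator_nonneg (fun _ _ => by positivity) _
  have hn2 : 0 ≤ (Set.Icc (-γ - t) (-γ)).indicator (fun _ => (1 : ℝ)) φ :=
    Set.indicator_nonneg (fun _ _ => by positivity) _
  have h1 : ‖prof k δ φ * prof k δ (φ + (γ + t)) - prof k δ φ * prof k δ (φ + γ)‖ ≤
      |prof k δ (φ + (γ + t)) - prof k δ (φ + γ)| := by
    rw [← mul_sub, norm_mul, Real.norm_eq_abs, Real.norm_eq_abs]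
    exact mul_le_of_le_one_left (abs_nonneg _) (CI6_le hk δ φ)
  refine h1.trans ?_
  rcases lt_or_ge (φ + γ) 0 with h2 | h2
  · rw [CI6_supp hk hδ (Or.inl h2), sub_zero]
    rcases lt_or_ge (φ + (γ + t)) 0 with h3 | h3
    · rw [CI6_supp hk hδ (Or.inl h3), abs_zero]
      positivity
    · have hmem : φ ∈ Set.Icc (-γ - t) (-γ) := ⟨by linarith, by linarith⟩
      rw [Set.indicator_of_mem hmem]
      have := CI6_le hk δ (φ + (γ + t))
      linarith
  · rcases le_or_gt (φ + γ) δ with h3 | h3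
    · have hmem : φ ∈ Set.Icc (-γ) (δ - γ) := ⟨by linarith, by linarith⟩
      rw [Set.indicator_of_mem hmem]
      have h4 := CI6_lip hk hδ (a := φ + (γ + t)) (b := φ + γ) (by linarith) h2
      have h5 : φ + (γ + t) - (φ + γ) = t := by ring
      rw [h5, abs_of_nonneg ht] at h4
      linarith
    · rw [CI6_supp hk hδ (Or.inr h3), CI6_supp hk hδ (Or.inr (by linarith)), sub_zero, abs_zero]
      positivity

theorem CI6_Rc_diff {k : ℝ → ℝ} (hk : IsProf k) {δ : ℝ} (hδ : 0 < δ) (γ : ℝ) {t : ℝ}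
    (ht : 0 ≤ t) : |Rc (prof k δ) (γ + t) - Rc (prof k δ) γ| ≤ 4 * t := by
  unfold Rc
  rw [← integral_sub (CI6_integrable hk hδ (γ + t)) (CI6_integrable hk hδ γ)]
  have i1 := CI6_ind_int (a := -γ) (b := δ - γ) (by linarith) (t / δ)
  have i2 := CI6_ind_int (a := -γ - t) (b := -γ) (by linarith) 1
  have h1 := norm_integral_le_of_norm_le (i1.1.add i2.1)
    (Filter.Eventually.of_forall (CI6_diff hk hδ γ ht))
  rw [Real.norm_eq_abs] at h1
  refine h1.trans ?_
  simp only [Pi.add_apply]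
  rw [integral_add i1.1 i2.1, i1.2, i2.2]
  have h2 : t / δ * (δ - γ - -γ) = t := by
    field_simp
    ring
  rw [h2]
  linarith

theorem Rc_prof' (k : ℝ → ℝ) (hk : IsProf k) (δ : ℝ) (hδ : 0 < δ) (hδ' : δ ≤ 1 / 8) :
    Measurable (prof k δ) ∧ (∀ φ, |prof k δ φ| ≤ 1) ∧ (∀ φ, φ < 0 ∨ δ < φ → prof k δ φ = 0) ∧
    (∀ α, |Rc (prof k δ) α| ≤ δ) ∧
    (∀ α β, |Rc (prof k δ) α - Rc (prof k δ) β| ≤ 4 * |α - β|) ∧
    (∀ α, δ < |α| → Rc (prof k δ) α = 0) := by
  refine ⟨CI6_meas hk δ, CI6_le hk δ, fun φ h => CI6_supp hk hδ h, ?_, ?_, ?_⟩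
  · intro α
    have i1 := CI6_ind_int hδ.le 1
    have h1 := norm_integral_le_of_norm_le i1.1 (Filter.Eventually.of_forall (CI6_bound hk hδ α))
    rw [i1.2] at h1
    unfold Rc
    rw [← Real.norm_eq_abs]
    linarith
  · intro α β
    rcases le_total β α with h | h
    · have h1 := CI6_Rc_diff hk hδ β (t := α - β) (by linarith)
      rw [add_sub_cancel] at h1
      rw [abs_of_nonneg (by linarith : (0 : ℝ) ≤ α - β)]
      exact h1
    · have h1 := CI6_Rc_diff hk hδ α (t := β - α) (by linarith)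
      rw [add_sub_cancel] at h1
      rw [abs_sub_comm, abs_sub_comm α β, abs_of_nonneg (by linarith : (0 : ℝ) ≤ β - α)]
      exact h1
  · intro α hα
    unfold Rc
    have h0 : ∀ φ, prof k δ φ * prof k δ (φ + α) = 0 := by
      intro φ
      by_cases h : φ < 0 ∨ δ < φ
      · rw [CI6_supp hk hδ h, zero_mul]
      · push Not at h
        have h2 : φ + α < 0 ∨ δ < φ + α := by
          rcases lt_abs.mp hα with h3 | h3
          · right
            linarith
          · left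
            linarith
        rw [CI6_supp hk hδ h2, mul_zero]
    simp only [h0, integral_zero]

end RV11
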