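import Pool.Agent.LibRV11.CI4a

open Complex Real MeasureTheory
open UpperHalfPlane hiding I
open scoped MatrixGroups

namespace RV11

/-- swap the integrals in `IIp` -/
theorem IIp_bound {h : ℝ → ℝ} (hh : IsBump h) : ∃ C : ℝ, 0 ≤ C ∧ ∀ δ : ℝ, 0 < δ → δ ≤ 1 / 8 →
    ∀ R : ℝ → ℝ, (∀ α, |R α| ≤ δ) → (∀ α β, |R α - R β| ≤ 4 * |α - β|) →
    (∀ α, δ < |α| → R α = 0) → ∀ ρ, 0 < ρ → ‖IIp h R ρ‖ ≤ C * δ * Real.sqrt ρ := by
  obtain ⟨C, hC, hI⟩ := IIp_inner hh
  refine ⟨C, hC, fun δ hδ hδ' R h1 h2 h3 ρ hρ => ?_⟩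
  rcases le_or_gt ρ 1 with hρ1 | hρ1
  · have hRc : Continuous R := by
      have : LipschitzWith 4 R := LipschitzWith.of_dist_le_mul fun x y => by
        rw [Real.dist_eq, Real.dist_eq]; exact h2 x y
      exact this.continuous
    have hint : IntegrableOn (Function.uncurry fun s Y : ℝ => fI h R ρ s Y)
        (Set.uIoc (7 / 10 : ℝ) (71 / 50) ×ˢ Set.uIoc (1 : ℝ) 2) := by
      rw [Set.uIoc_of_le (by norm_num), Set.uIoc_of_le (by norm_num)]
      have hc := fI_continuousOn hh hRc hρ
      have hi : IntegrableOn (fun p : ℝ × ℝ => fI h R ρ p.1 p.2)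
          (Set.Icc (7 / 10) (71 / 50) ×ˢ Set.Icc 1 2) volume :=
        hc.integrableOn_compact (isCompact_Icc.prod isCompact_Icc)
      exact hi.mono_set (Set.prod_mono Set.Ioc_subset_Icc_self Set.Ioc_subset_Icc_self)
    unfold IIp
    rw [intervalIntegral_intervalIntegral_swap hint]
    have key := intervalIntegral.norm_integral_le_of_norm_le_const (a := (1 : ℝ)) (b := 2)
      (f := fun Y => ∫ s in (7 / 10 : ℝ)..(71 / 50), fI h R ρ s Y) (C := C * δ * Real.sqrt ρ)
      (fun Y hY => by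
        rw [Set.uIoc_of_le (by norm_num)] at hY
        exact hI δ hδ hδ' R h1 h2 h3 ρ hρ hρ1 Y ⟨hY.1.le, hY.2⟩)
    refine key.trans (le_of_eq ?_)
    norm_num
  · have hz : IIp h R ρ = 0 := by
      unfold IIp
      have : ∀ s ∈ Set.uIcc (7 / 10 : ℝ) (71 / 50),
          (∫ Y in (1 : ℝ)..2, fI h R ρ s Y) = 0 := by
        intro s hs
        rw [Set.uIcc_of_le (by norm_num)] at hs
        have : ∀ Y ∈ Set.uIcc (1 : ℝ) 2, fI h R ρ s Y = 0 := by
          intro Y hY
          rw [Set.uIcc_of_le (by norm_num)] at hY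
          by_contra hne
          have hs0 : s ≠ 0 := by
            have := hs.1
            intro h0
            rw [h0] at this
            norm_num at this
          have := (fI_supp hh hδ hδ' h3 hρ hs0 hY hne).2.2.2.2
          linarith
        rw [intervalIntegral.integral_congr (g := fun _ => (0 : ℂ)) this]
        simp
      rw [intervalIntegral.integral_congr (g := fun _ => (0 : ℂ)) this]
      simp
    rw [hz, norm_zero]
    positivity

end RV11
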