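import Pool.Agent.LibRV11.CI5a

open Complex Real MeasureTheory
open UpperHalfPlane hiding I
open scoped MatrixGroups

namespace RV11

theorem CI5b_int {h : ℝ → ℝ} (hh : IsBump h) {R : ℝ → ℝ} (hRc : Continuous R) {ρ : ℝ}
    (hρ : 0 < ρ) : IntegrableOn (fun p : ℝ × ℝ => fI h R ρ p.1 p.2)
      (Set.Ioc (7 / 10) (71 / 50) ×ˢ Set.Ioc 1 2) (volume.prod volume) := by
  have hc := fI_continuousOn hh hRc hρ
  have hi : IntegrableOn (fun p : ℝ × ℝ => fI h R ρ p.1 p.2)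
      (Set.Icc (7 / 10) (71 / 50) ×ˢ Set.Icc 1 2) volume :=
    hc.integrableOn_compact (isCompact_Icc.prod isCompact_Icc)
  exact hi.mono_set (Set.prod_mono Set.Ioc_subset_Icc_self Set.Ioc_subset_Icc_self)

theorem CI5b_eq {h : ℝ → ℝ} (hh : IsBump h) {R : ℝ → ℝ} (hRc : Continuous R) {ρ : ℝ}
    (hρ : 0 < ρ) : IIp h R ρ = ∫ p in Set.Ioc (7 / 10 : ℝ) (71 / 50) ×ˢ Set.Ioc (1 : ℝ) 2,
      fI h R ρ p.1 p.2 ∂(volume.prod volume) := by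
  rw [setIntegral_prod _ (CI5b_int hh hRc hρ)]
  unfold IIp
  rw [intervalIntegral.integral_of_le (by norm_num)]
  congr 1
  funext s
  rw [intervalIntegral.integral_of_le (by norm_num)]

theorem IIp_lip {h : ℝ → ℝ} (hh : IsBump h) : ∃ C : ℝ, 0 ≤ C ∧ ∀ δ : ℝ, 0 < δ → δ ≤ 1 / 8 →
    ∀ R : ℝ → ℝ, (∀ α, |R α| ≤ δ) → (∀ α β, |R α - R β| ≤ 4 * |α - β|) →
    (∀ α, δ < |α| → R α = 0) → ∀ ρ ρ', 0 < ρ → ρ ≤ ρ' → ρ' ≤ 1 →
      ‖IIp h R ρ - IIp h R ρ'‖ ≤ C * δ * (ρ' - ρ) / ρ ^ 2 := by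
  obtain ⟨C, hC, hI⟩ := fI_lip hh
  refine ⟨C, hC, fun δ hδ hδ' R h1 h2 h3 ρ ρ' hρ hρρ hρ1 => ?_⟩
  have hρ' : 0 < ρ' := hρ.trans_le hρρ
  have hRc : Continuous R := by
    have : LipschitzWith 4 R := LipschitzWith.of_dist_le_mul fun x y => by
      rw [Real.dist_eq, Real.dist_eq]; exact h2 x y
    exact this.continuous
  rw [CI5b_eq hh hRc hρ, CI5b_eq hh hRc hρ',
    ← integral_sub (CI5b_int hh hRc hρ) (CI5b_int hh hRc hρ')]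
  have hX0 : 0 ≤ C * δ * (ρ' - ρ) / ρ ^ 2 := by
    have : 0 ≤ ρ' - ρ := by linarith
    positivity
  have hvol : (volume.prod volume : Measure (ℝ × ℝ))
      (Set.Ioc (7 / 10 : ℝ) (71 / 50) ×ˢ Set.Ioc (1 : ℝ) 2) = ENNReal.ofReal (18 / 25) := by
    rw [Measure.prod_prod, Real.volume_Ioc, Real.volume_Ioc]
    rw [← ENNReal.ofReal_mul (by norm_num)]
    norm_num
  have key := norm_setIntegral_le_of_norm_le_const (μ := (volume.prod volume : Measure (ℝ × ℝ)))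
    (s := Set.Ioc (7 / 10 : ℝ) (71 / 50) ×ˢ Set.Ioc (1 : ℝ) 2)
    (f := fun p : ℝ × ℝ => fI h R ρ p.1 p.2 - fI h R ρ' p.1 p.2)
    (C := C * δ * (ρ' - ρ) / ρ ^ 2) (by rw [hvol]; exact ENNReal.ofReal_lt_top)
    (fun p hp => hI δ hδ hδ' R h1 h2 h3 ρ ρ' hρ hρρ hρ1 p.1 ⟨hp.1.1.le, hp.1.2⟩ p.2
      ⟨hp.2.1.le, hp.2.2⟩)
  refine key.trans ?_
  rw [Measure.real, hvol, ENNReal.toReal_ofReal (by norm_num)]
  linarith

end RV11
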