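import Pool.Agent.LibRV11.CI1c
import Pool.Agent.LibRV11.CI4b
import Pool.Agent.LibRV11.CI5b
import Pool.Agent.LibRV11.CI6

open Complex Real MeasureTheory
open UpperHalfPlane hiding I
open scoped MatrixGroups

namespace RV11

theorem II_zero' (h : ℝ → ℝ) (hh : IsBump h) (δ : ℝ) (hδ : 0 < δ) (hδ' : δ ≤ 1 / 8) (R : ℝ → ℝ)
    (hR : ∀ α, δ < |α| → R α = 0) (ρ : ℝ) (hρ : 4 * δ < ρ) : II h R ρ = 0 := by
  have hρ0 : 0 < ρ := by linarith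
  rw [II_eq]
  have h0 : (fun s : ℝ => ∫ Y in (1 : ℝ)..2, fI h R ρ s Y) =ᵐ[volume] fun _ => (0 : ℂ) := by
    have : ∀ᵐ s : ℝ, s ≠ 0 := by
      simp [ae_iff, measure_singleton]
    filter_upwards [this] with s hs
    have : ∀ Y ∈ Set.uIcc (1 : ℝ) 2, fI h R ρ s Y = 0 := by
      intro Y hY
      rw [Set.uIcc_of_le (by norm_num)] at hY
      by_contra hne
      exact absurd (fI_supp hh hδ hδ' hR hρ0 hs hY hne).2.2.2.2 (not_le.mpr hρ)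
    rw [intervalIntegral.integral_congr (g := fun _ => (0 : ℂ)) this]
    simp
  rw [integral_congr_ae h0]
  simp

theorem abs_lip_continuous {R : ℝ → ℝ} (h : ∀ α β, |R α - R β| ≤ 4 * |α - β|) :
    Continuous R := by
  have : LipschitzWith 4 R := LipschitzWith.of_dist_le_mul fun x y => by
    rw [Real.dist_eq, Real.dist_eq]; exact h x y
  exact this.continuous

theorem II_bound' (h : ℝ → ℝ) (hh : IsBump h) : ∃ C : ℝ, ∀ δ : ℝ, 0 < δ → δ ≤ 1 / 8 →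
    ∀ R : ℝ → ℝ, (∀ α, |R α| ≤ δ) → (∀ α β, |R α - R β| ≤ 4 * |α - β|) →
    (∀ α, δ < |α| → R α = 0) → ∀ ρ, 0 < ρ → ‖II h R ρ‖ ≤ C * δ * Real.sqrt ρ := by
  obtain ⟨C, hC0, hC⟩ := IIp_bound hh
  refine ⟨2 * C, fun δ hδ hδ' R h1 h2 h3 ρ hρ => ?_⟩
  rw [II_eq_IIp hh hδ hδ' (abs_lip_continuous h2) h3 hρ]
  have e1 := hC δ hδ hδ' R h1 h2 h3 ρ hρ
  have e2 := hC δ hδ hδ' (fun α => R (-α)) (fun α => h1 _)
    (fun α β => by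
      have := h2 (-α) (-β)
      rwa [show -α - -β = -(α - β) by ring, abs_neg] at this)
    (fun α hα => h3 _ (by rwa [abs_neg])) ρ hρ
  refine (norm_add_le _ _).trans ?_
  rw [RCLike.norm_conj]
  linarith

theorem II_lip' (h : ℝ → ℝ) (hh : IsBump h) : ∃ C : ℝ, ∀ δ : ℝ, 0 < δ → δ ≤ 1 / 8 →
    ∀ R : ℝ → ℝ, (∀ α, |R α| ≤ δ) → (∀ α β, |R α - R β| ≤ 4 * |α - β|) →
    (∀ α, δ < |α| → R α = 0) → ∀ ρ ρ', 0 < ρ → ρ ≤ ρ' → ρ' ≤ 1 →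
      ‖II h R ρ - II h R ρ'‖ ≤ C * δ * (ρ' - ρ) / ρ ^ 2 := by
  obtain ⟨C, hC0, hC⟩ := IIp_lip hh
  refine ⟨2 * C, fun δ hδ hδ' R h1 h2 h3 ρ ρ' hρ hρρ hρ1 => ?_⟩
  rw [II_eq_IIp hh hδ hδ' (abs_lip_continuous h2) h3 hρ,
    II_eq_IIp hh hδ hδ' (abs_lip_continuous h2) h3 (hρ.trans_le hρρ)]
  have e1 := hC δ hδ hδ' R h1 h2 h3 ρ ρ' hρ hρρ hρ1
  have e2 := hC δ hδ hδ' (fun α => R (-α)) (fun α => h1 _)
    (fun α β => by
      have := h2 (-α) (-β)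
      rwa [show -α - -β = -(α - β) by ring, abs_neg] at this)
    (fun α hα => h3 _ (by rwa [abs_neg])) ρ ρ' hρ hρρ hρ1
  rw [add_sub_add_comm, ← map_sub]
  refine (norm_add_le _ _).trans ?_
  rw [RCLike.norm_conj]
  have : 2 * C * δ * (ρ' - ρ) / ρ ^ 2 = C * δ * (ρ' - ρ) / ρ ^ 2 + C * δ * (ρ' - ρ) / ρ ^ 2 := by
    ring
  rw [this]
  exact add_le_add e1 e2

end RV11
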