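import Pool.Agent.LibRV11.Defs
import Pool.Agent.LibRV11.CI7
import Pool.Agent.LibRV11.CI6
open Complex Real MeasureTheory
open UpperHalfPlane hiding I
open scoped MatrixGroups

namespace RV11

theorem II_zero (h : ℝ → ℝ) (hh : IsBump h) (δ : ℝ) (hδ : 0 < δ) (hδ' : δ ≤ 1 / 8) (R : ℝ → ℝ)
    (hR : ∀ α, δ < |α| → R α = 0) (ρ : ℝ) (hρ : 4 * δ < ρ) : II h R ρ = 0 :=
  II_zero' h hh δ hδ hδ' R hR ρ hρ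

theorem II_bound (h : ℝ → ℝ) (hh : IsBump h) : ∃ C : ℝ, ∀ δ : ℝ, 0 < δ → δ ≤ 1 / 8 →
    ∀ R : ℝ → ℝ, (∀ α, |R α| ≤ δ) → (∀ α β, |R α - R β| ≤ 4 * |α - β|) →
    (∀ α, δ < |α| → R α = 0) → ∀ ρ, 0 < ρ → ‖II h R ρ‖ ≤ C * δ * Real.sqrt ρ :=
  II_bound' h hh

theorem II_lip (h : ℝ → ℝ) (hh : IsBump h) : ∃ C : ℝ, ∀ δ : ℝ, 0 < δ → δ ≤ 1 / 8 →
    ∀ R : ℝ → ℝ, (∀ α, |R α| ≤ δ) → (∀ α β, |R α - R β| ≤ 4 * |α - β|) →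
    (∀ α, δ < |α| → R α = 0) → ∀ ρ ρ', 0 < ρ → ρ ≤ ρ' → ρ' ≤ 1 →
      ‖II h R ρ - II h R ρ'‖ ≤ C * δ * (ρ' - ρ) / ρ ^ 2 :=
  II_lip' h hh

theorem Rc_prof (k : ℝ → ℝ) (hk : IsProf k) (δ : ℝ) (hδ : 0 < δ) (hδ' : δ ≤ 1 / 8) :
    Measurable (prof k δ) ∧ (∀ φ, |prof k δ φ| ≤ 1) ∧ (∀ φ, φ < 0 ∨ δ < φ → prof k δ φ = 0) ∧
    (∀ α, |Rc (prof k δ) α| ≤ δ) ∧
    (∀ α β, |Rc (prof k δ) α - Rc (prof k δ) β| ≤ 4 * |α - β|) ∧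
    (∀ α, δ < |α| → Rc (prof k δ) α = 0) :=
  Rc_prof' k hk δ hδ hδ'

end RV11
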