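import Pool.Agent.LibRV11.AB8
import Pool.Agent.LibRV11.AB14
import Pool.Agent.LibRV11.AB18
import Pool.Agent.LibRV11.ModC

/-! Module AB: assembly -/

open Complex Real MeasureTheory
open UpperHalfPlane hiding I
open scoped MatrixGroups

namespace RV11

theorem pair_integrable (h : ℝ → ℝ) (hh : IsBump h) (n : ℕ) (hn : 1 ≤ n) (G : ℝ → ℝ)
    (hG : Measurable G) (hG' : ∀ φ, |G φ| ≤ 1) (U : ℍ → ℝ → ℂ) (hU : Equi U) (hU' : nrm U ≠ ⊤) :
    IntegrableOn (fun z : ℍ => (∫ φ in (0 : ℝ)..π, U z φ * G φ) *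
      ((h (n * z.im) * z.im : ℝ) * jacobiTheta (z : ℂ) * cexp (-(π * I * n * (z : ℂ))))) Strip := by
  have hG0 : IsG0 G := ⟨hG, hG'⟩
  have h1 := integrable_pair hh hn hG0 hU hU'
  have h2 := h1.integrableOn (s := Strip)
  refine h2.congr_fun_ae ?_
  have hm : MeasurableSet Strip := measurableSet_Strip
  filter_upwards [ae_restrict_mem hm] with z hz
  rw [pair_point n hG0 U z]
  have hz' : |z.re| < 1 := hz
  simp only [ind, hz', if_true]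
  push_cast
  rw [one_mul]

theorem formula {h : ℝ → ℝ} (hh : IsBump h) {n : ℕ} (hn : 1 ≤ n) {δ : ℝ} {G : ℝ → ℝ}
    (hG : IsG δ G) {S : Finset SL(2, ℤ)} (hS : IsS n S) {m : ℕ} (hm : 1 ≤ m) :
    1 / 2 * ∑ g ∈ S.filter (fun g => (m : ℤ) ∣ g 1 0), chi g *
        iH (fun z φ => act g (q0 h n G) z φ * (starRingEnd ℂ) (q0 h n G z φ)) =
      iH (fun z φ => q0 h n G z φ * (starRingEnd ℂ) (q0 h n G z φ)) +
      (∑ c ∈ (Finset.Icc 1 ⌊4 * δ * n⌋₊).filter (fun c => m ∣ c),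
        Kst n c * II h (Rc G) (c / n) / Real.sqrt c) / Real.sqrt n := by
  obtain ⟨N0, hN0⟩ := sum_rows hh hn hG.toIsG0 hS hm
  rw [hN0 (max N0 ⌊4 * δ * n⌋₊) (le_max_left _ _)]
  congr 1
  have hn0 : (0 : ℝ) < n := by positivity
  rw [Finset.sum_div, ← Finset.sum_subset (s₁ := (Finset.Icc 1 ⌊4 * δ * n⌋₊).filter (fun c => m ∣ c))]
  · refine Finset.sum_congr rfl ?_
    intro c hc
    simp only [Finset.mem_filter, Finset.mem_Icc] at hc
    have hc1 : 1 ≤ c := hc.1.1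
    rw [Finset.sum_congr rfl (fun p hp => (tiling hh hn hG.toIsG0 hc1 hp).trans
      (row_term hh hn hG hc1 hp))]
    unfold Kst
    rw [Finset.mul_sum, Finset.mul_sum, Finset.sum_mul, Finset.sum_div, Finset.sum_div]
    refine Finset.sum_congr rfl ?_
    intro p hp
    have e1 : (c : ℂ) ≠ 0 := by
      have : c ≠ 0 := by omega
      exact_mod_cast this
    have e2 : (Real.sqrt c : ℂ) ≠ 0 := by
      have : Real.sqrt c ≠ 0 := by positivity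
      exact_mod_cast this
    have e3 : (Real.sqrt n : ℂ) ≠ 0 := by
      have : Real.sqrt n ≠ 0 := by positivity
      exact_mod_cast this
    field_simp
  · intro c hc
    simp only [Finset.mem_filter, Finset.mem_Icc] at hc ⊢
    exact ⟨⟨hc.1.1, hc.1.2.trans (le_max_right _ _)⟩, hc.2⟩
  · intro c hc hc'
    simp only [Finset.mem_filter, Finset.mem_Icc] at hc hc'
    have hc1 : 1 ≤ c := hc.1.1
    have hc2 : ⌊4 * δ * n⌋₊ < c := by
      by_contra hcon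
      exact hc' ⟨⟨hc1, by omega⟩, hc.2⟩
    have hc3 : 4 * δ * n < c := by
      have := (Nat.floor_lt (by have := hG.pos; positivity)).mp hc2
      exact this
    have hII : II h (Rc G) (c / n) = 0 :=
      II_zero h hh _ hG.pos hG.le _ (fun α hα => ab_Rc_zero hG hα) _ (by
        rw [lt_div_iff₀ hn0]; exact hc3)
    rw [Finset.sum_congr rfl (fun p hp => (tiling hh hn hG.toIsG0 hc1 hp).trans
      (row_term hh hn hG hc1 hp))]
    rw [hII]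
    simp

theorem pair_AB (h : ℝ → ℝ) (hh : IsBump h) : ∃ C : ℝ, ∀ n : ℕ, 1 ≤ n → ∀ δ : ℝ, 0 < δ → δ ≤ 1 / 8 →
    ∀ G : ℝ → ℝ, Measurable G → (∀ φ, |G φ| ≤ 1) → (∀ φ, φ < 0 ∨ δ < φ → G φ = 0) →
    ∀ m : ℕ, 1 ≤ m → ∀ U : ℍ → ℝ → ℂ, Equi U → ∀ B : ℝ, 0 ≤ B → nrm U ≤ ENNReal.ofReal (B ^ 2) →
    ‖pair h n U G‖ ^ 2 ≤ (∑ d ∈ m.divisors, (d : ℝ)) * B ^ 2 *
      (C * δ / Real.sqrt n + ‖∑ c ∈ (Finset.Icc 1 ⌊4 * δ * n⌋₊).filter (fun c => m ∣ c),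
        Kst n c * II h (Rc G) (c / n) / Real.sqrt c‖ / Real.sqrt n) := by
  refine ⟨4 * Real.exp (4 * π), ?_⟩
  intro n hn δ hδ hδ' G hGm hG1 hGs m hm U hU B hB hUB
  have hG : IsG δ G := ⟨⟨hGm, hG1⟩, hδ, hδ', hGs⟩
  have hUtop : nrm U ≠ ⊤ := (lt_of_le_of_lt hUB ENNReal.ofReal_lt_top).ne
  obtain ⟨S, hS⟩ := exists_S hn
  obtain ⟨T, κ, hκ⟩ := exists_kap hm
  rw [pair_grouped hh hn hG.toIsG0 hS hκ hU hUtop]
  have h1 := cs_frame T (fun k => QQ h n G S κ k) (fun k _ => isFr_QQ hh n hG.toIsG0 S κ k)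
    hU.isFr B hB hUB (fun k _ => nrm_QQ hh hn hG.toIsG0 hS κ k)
  refine h1.trans ?_
  rw [sum_QQ_sq hh hn hG.toIsG0 hS hκ, formula hh hn hG hS hm]
  have h2 := diag_term hh hn hG
  have h3 : ‖(∑ c ∈ (Finset.Icc 1 ⌊4 * δ * n⌋₊).filter (fun c => m ∣ c),
        Kst n c * II h (Rc G) (c / n) / Real.sqrt c) / (Real.sqrt n : ℂ)‖ =
      ‖∑ c ∈ (Finset.Icc 1 ⌊4 * δ * n⌋₊).filter (fun c => m ∣ c),
        Kst n c * II h (Rc G) (c / n) / Real.sqrt c‖ / Real.sqrt n := by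
    rw [norm_div, Complex.norm_real, Real.norm_of_nonneg (Real.sqrt_nonneg _)]
  have h4 : ‖iH (fun z φ => q0 h n G z φ * (starRingEnd ℂ) (q0 h n G z φ)) +
      (∑ c ∈ (Finset.Icc 1 ⌊4 * δ * n⌋₊).filter (fun c => m ∣ c),
        Kst n c * II h (Rc G) (c / n) / Real.sqrt c) / (Real.sqrt n : ℂ)‖ ≤
      4 * Real.exp (4 * π) * δ / Real.sqrt n +
      ‖∑ c ∈ (Finset.Icc 1 ⌊4 * δ * n⌋₊).filter (fun c => m ∣ c),
        Kst n c * II h (Rc G) (c / n) / Real.sqrt c‖ / Real.sqrt n :=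
    (norm_add_le _ _).trans (add_le_add h2 h3.le)
  have h5 : (0 : ℝ) ≤ ∑ d ∈ m.divisors, (d : ℝ) := Finset.sum_nonneg (fun _ _ => by positivity)
  calc (T.card : ℝ) * B ^ 2 * _ ≤ (∑ d ∈ m.divisors, (d : ℝ)) * B ^ 2 * _ := by
        gcongr
        exact hκ.card
    _ ≤ _ := by gcongr

end RV11
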