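import Pool.Agent.LibRV11.AB0

open Complex Real MeasureTheory
open UpperHalfPlane hiding I
open scoped MatrixGroups

namespace RV11

theorem Gp_add_pi (G : ℝ → ℝ) (φ : ℝ) : Gp G (φ + π) = Gp G φ := by
  unfold Gp
  rw [toIcoMod_add_right]

theorem Gp_of_mem (G : ℝ → ℝ) {φ : ℝ} (h0 : 0 ≤ φ) (h1 : φ < π) : Gp G φ = G φ := by
  unfold Gp
  rw [(toIcoMod_eq_self Real.pi_pos).mpr]
  rw [zero_add]
  exact ⟨h0, h1⟩

theorem measurable_Gp {G : ℝ → ℝ} (hG : Measurable G) : Measurable (Gp G) := by
  unfold Gp
  apply hG.comp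
  have h : (toIcoMod Real.pi_pos 0 : ℝ → ℝ) = fun φ => Int.fract (φ / π) * π := by
    funext φ
    exact toIcoMod_eq_fract_mul Real.pi_pos φ
  rw [h]
  exact ((measurable_id.div_const π).fract).mul_const π

theorem abs_Gp_le {G : ℝ → ℝ} (hG : IsG0 G) (φ : ℝ) : |Gp G φ| ≤ 1 := hG.le_one _

theorem ab1_theta_meas : Measurable (fun z : ℍ => jacobiTheta (z : ℂ)) := by
  apply Continuous.measurable
  rw [continuous_iff_continuousAt]
  intro z
  exact ContinuousAt.comp (g := jacobiTheta) (continuousAt_jacobiTheta z.im_pos)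
    UpperHalfPlane.continuous_coe.continuousAt

theorem isFr_qq {h : ℝ → ℝ} (hh : IsBump h) (n : ℕ) {G : ℝ → ℝ} (hG : IsG0 G) :
    IsFr (qq h n G) := by
  constructor
  · have him : Measurable (fun p : ℍ × ℝ => p.1.im) :=
      UpperHalfPlane.continuous_im.measurable.comp measurable_fst
    have hhm : Measurable h := hh.smooth.continuous.measurable
    have h1 : Measurable (fun p : ℍ × ℝ =>
        ((Gp G p.2 * h (n * p.1.im) * Real.sqrt p.1.im : ℝ) : ℂ)) := by
      apply Complex.measurable_ofReal.comp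
      exact (((measurable_Gp hG.meas).comp measurable_snd).mul
        (hhm.comp (him.const_mul _))).mul (Real.continuous_sqrt.measurable.comp him)
    have h2 : Measurable (fun p : ℍ × ℝ => cexp (π * I * n * (starRingEnd ℂ (p.1 : ℂ)))) := by
      apply Complex.measurable_exp.comp
      apply Measurable.const_mul
      exact (Complex.continuous_conj.measurable.comp
        UpperHalfPlane.continuous_coe.measurable).comp measurable_fst
    exact (h1.mul h2).div (ab1_theta_meas.comp measurable_fst)
  · intro z φ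
    unfold qq
    rw [Gp_add_pi]

theorem isFr_q0 {h : ℝ → ℝ} (hh : IsBump h) (n : ℕ) {G : ℝ → ℝ} (hG : IsG0 G) :
    IsFr (q0 h n G) := by
  have h1 := isFr_qq hh n hG
  constructor
  · have hind : Measurable (fun p : ℍ × ℝ => ((ind (|p.1.re| < 1) : ℝ) : ℂ)) := by
      apply Complex.measurable_ofReal.comp
      unfold ind
      have hre : Measurable (fun p : ℍ × ℝ => |p.1.re|) :=
        (continuous_abs.measurable.comp UpperHalfPlane.continuous_re.measurable).comp
          measurable_fst
      exact Measurable.ite (measurableSet_lt hre measurable_const) measurable_const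
        measurable_const
    exact hind.mul h1.meas
  · intro z φ
    unfold q0
    rw [h1.per]

theorem q0_eq_zero {h : ℝ → ℝ} (hh : IsBump h) (n : ℕ) (G : ℝ → ℝ) {z : ℍ} (hz : z ∉ K0 n)
    (φ : ℝ) : q0 h n G z φ = 0 := by
  unfold q0
  by_cases hre : |z.re| < 1
  · have hh0 : h (n * z.im) = 0 := by
      apply hh.supp
      by_contra hcon
      rw [not_or, not_le, not_le] at hcon
      exact hz ⟨hre, hcon.1.le, hcon.2.le⟩
    unfold qq
    rw [hh0]
    simp
  · unfold ind
    rw [if_neg hre]
    simp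

/-- `q` is invariant under `z ↦ z + 2`. -/
theorem qq_of_eq (h : ℝ → ℝ) (n : ℕ) (G : ℝ → ℝ) (z w : ℍ) (k : ℤ)
    (hw : (w : ℂ) = (z : ℂ) + 2 * k) (φ : ℝ) : qq h n G w φ = qq h n G z φ := by
  have him : w.im = z.im := by
    have h1 := congrArg Complex.im hw
    simpa using h1
  have hper : Function.Periodic jacobiTheta 2 := by
    intro τ
    rw [add_comm]
    exact jacobiTheta_two_add τ
  have hθ : jacobiTheta (w : ℂ) = jacobiTheta (z : ℂ) := by
    rw [hw]
    have h1 := hper.int_mul k (z : ℂ)
    rw [← h1]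
    congr 1
    ring
  have hexp : cexp (π * I * n * (starRingEnd ℂ (w : ℂ))) =
      cexp (π * I * n * (starRingEnd ℂ (z : ℂ))) := by
    rw [Complex.exp_eq_exp_iff_exists_int]
    refine ⟨n * k, ?_⟩
    rw [hw, map_add, map_mul, map_ofNat, map_intCast]
    push_cast
    ring
  unfold qq
  rw [him, hθ, hexp]

end RV11
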