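import Pool.Agent.LibRV11.AB2
import Pool.Agent.LibRV11.AB4

open Complex Real MeasureTheory
open UpperHalfPlane hiding I
open scoped MatrixGroups

namespace RV11

private theorem ab10_W_nonneg (z : ℍ) : 0 ≤ W z := by
  unfold W
  positivity

private theorem ab10_integrable {F : ℍ → ℝ → ℂ} (hF : IsFr F) (h1 : l1 F ≠ ⊤) :
    Integrable (fun p : ℍ × ℝ => F p.1 p.2 * (W p.1 : ℂ))
      ((volume.restrict DD).prod (volume.restrict (Set.Ioc (0 : ℝ) π))) := by
  have hm : Measurable (fun p : ℍ × ℝ => F p.1 p.2 * (W p.1 : ℂ)) :=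
    hF.meas.mul (Complex.measurable_ofReal.comp (measurable_W.comp measurable_fst))
  refine ⟨hm.aestronglyMeasurable, ?_⟩
  rw [HasFiniteIntegral, lintegral_prod _ hm.enorm.aemeasurable]
  have e : ∀ z φ, ‖F z φ * (W z : ℂ)‖ₑ = ‖F z φ‖ₑ * ENNReal.ofReal (W z) := by
    intro z φ
    rw [enorm_mul]
    congr 1
    rw [← ofReal_norm, Complex.norm_real, Real.norm_eq_abs, abs_of_nonneg
      (ab10_W_nonneg z)]
  simp_rw [e]
  exact lt_of_le_of_ne le_top h1

private theorem ab10_iD_eq {F : ℍ → ℝ → ℂ} :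
    iD F = ∫ z in DD, ∫ φ in Set.Ioc (0 : ℝ) π, F z φ * (W z : ℂ) := by
  rw [iD]
  congr 1
  ext z
  rw [intervalIntegral.integral_of_le Real.pi_pos.le, integral_mul_const]

theorem iD_sum {ι : Type} (s : Finset ι) (F : ι → ℍ → ℝ → ℂ) (hF : ∀ i ∈ s, IsFr (F i))
    (h1 : ∀ i ∈ s, l1 (F i) ≠ ⊤) :
    iD (fun z φ => ∑ i ∈ s, F i z φ) = ∑ i ∈ s, iD (F i) := by
  have hi := fun i hi => ab10_integrable (hF i hi) (h1 i hi)
  simp_rw [ab10_iD_eq]
  rw [← integral_finsetSum]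
  · apply integral_congr_ae
    have hae : ∀ᵐ z ∂(volume.restrict DD), ∀ i ∈ s,
        Integrable (fun φ => F i z φ * (W z : ℂ)) (volume.restrict (Set.Ioc (0 : ℝ) π)) := by
      rw [Filter.eventually_all_finset]
      intro i his
      exact (hi i his).prod_right_ae
    filter_upwards [hae] with z hz
    simp_rw [Finset.sum_mul]
    rw [integral_finsetSum s hz]
  · intro i his
    exact (hi i his).integral_prod_left

theorem iD_const_mul (c : ℂ) (F : ℍ → ℝ → ℂ) : iD (fun z φ => c * F z φ) = c * iD F := by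
  simp_rw [ab10_iD_eq]
  rw [← integral_const_mul]
  congr 1
  ext z
  rw [← integral_const_mul]
  congr 1
  ext φ
  ring

theorem l1_mul_ne_top {U V : ℍ → ℝ → ℂ} (hU : IsFr U) (hV : IsFr V) (hU' : nrm U ≠ ⊤)
    (hV' : nrm V ≠ ⊤) : l1 (fun z φ => U z φ * (starRingEnd ℂ) (V z φ)) ≠ ⊤ := by
  have hle : l1 (fun z φ => U z φ * (starRingEnd ℂ) (V z φ)) ≤ nrm U + nrm V := by
    rw [l1, nrm, nrm, ← lintegral_add_left]
    · apply lintegral_mono
      intro z
      simp only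
      rw [← lintegral_add_left]
      · apply lintegral_mono
        intro φ
        simp only
        rw [← add_mul, enorm_mul, RCLike.enorm_conj]
        gcongr
        rcases le_total ‖U z φ‖ₑ ‖V z φ‖ₑ with h | h
        · calc ‖U z φ‖ₑ * ‖V z φ‖ₑ ≤ ‖V z φ‖ₑ * ‖V z φ‖ₑ := by gcongr
            _ = ‖V z φ‖ₑ ^ 2 := (sq _).symm
            _ ≤ _ := le_add_self
        · calc ‖U z φ‖ₑ * ‖V z φ‖ₑ ≤ ‖U z φ‖ₑ * ‖U z φ‖ₑ := by gcongr
            _ = ‖U z φ‖ₑ ^ 2 := (sq _).symm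
            _ ≤ _ := le_self_add
      · exact ((hU.meas.comp measurable_prodMk_left).enorm.pow_const 2).mul_const _
    · exact Measurable.lintegral_prod_right' (f := fun p : ℍ × ℝ =>
        ‖U p.1 p.2‖ₑ ^ 2 * ENNReal.ofReal (W p.1))
        ((hU.meas.enorm.pow_const 2).mul
          (ENNReal.measurable_ofReal.comp (measurable_W.comp measurable_fst)))
  exact ne_top_of_le_ne_top (ENNReal.add_ne_top.2 ⟨hU', hV'⟩) hle

/-- bounded functions supported in `RR n` have finite norm -/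
theorem nrm_ne_top {n : ℕ} (hn : 1 ≤ n) {V : ℍ → ℝ → ℂ} (C : ℝ)
    (hb : ∀ z ∈ DD, ∀ φ, ‖V z φ‖ * Real.sqrt (W z) ≤ C) (hs : ∀ z ∈ DD, z ∉ RR n → ∀ φ, V z φ = 0) :
    nrm V ≠ ⊤ := by
  have hDD : MeasurableSet DD := by
    have e : DD = (fun z : ℍ => |z.re|) ⁻¹' Set.Iio 1 ∩ (fun z : ℍ => ‖(z : ℂ)‖) ⁻¹' Set.Ioi 1 := rfl
    rw [e]
    apply MeasurableSet.inter
    · exact (measurable_norm.comp (Complex.measurable_re.comp measurable_coe)) measurableSet_Iio
    · exact (measurable_norm.comp measurable_coe) measurableSet_Ioi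
  have hle : nrm V ≤ ∫⁻ z in DD, (RR n).indicator
      (fun _ => ENNReal.ofReal (C ^ 2) * ENNReal.ofReal π) z := by
    rw [nrm]
    apply lintegral_mono_ae
    rw [ae_restrict_iff' hDD]
    apply Filter.Eventually.of_forall
    intro z hz
    by_cases hR : z ∈ RR n
    · rw [Set.indicator_of_mem hR]
      have h1 : ∀ φ, ‖V z φ‖ₑ ^ 2 * ENNReal.ofReal (W z) ≤ ENNReal.ofReal (C ^ 2) := by
        intro φ
        rw [← ofReal_norm, ← ENNReal.ofReal_pow (norm_nonneg _),
          ← ENNReal.ofReal_mul (by positivity)]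
        apply ENNReal.ofReal_le_ofReal
        have h2 := hb z hz φ
        have h3 : 0 ≤ ‖V z φ‖ * Real.sqrt (W z) := by positivity
        calc ‖V z φ‖ ^ 2 * W z = (‖V z φ‖ * Real.sqrt (W z)) ^ 2 := by
              rw [mul_pow, Real.sq_sqrt (ab10_W_nonneg z)]
          _ ≤ C ^ 2 := pow_le_pow_left₀ h3 h2 2
      calc _ ≤ ∫⁻ φ in Set.Ioc (0 : ℝ) π, ENNReal.ofReal (C ^ 2) :=
            lintegral_mono (fun φ => h1 φ)
        _ = ENNReal.ofReal (C ^ 2) * ENNReal.ofReal π := by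
            rw [lintegral_const, Measure.restrict_apply_univ, Real.volume_Ioc, sub_zero]
    · rw [Set.indicator_of_notMem hR]
      simp [hs z hz hR]
  have hfin : ∫⁻ z in DD, (RR n).indicator
      (fun _ => ENNReal.ofReal (C ^ 2) * ENNReal.ofReal π) z < ⊤ := by
    calc _ ≤ ∫⁻ z, (RR n).indicator (fun _ => ENNReal.ofReal (C ^ 2) * ENNReal.ofReal π) z :=
          setLIntegral_le_lintegral _ _
      _ = ENNReal.ofReal (C ^ 2) * ENNReal.ofReal π * volume (RR n) := by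
          rw [lintegral_indicator (measurableSet_RR n), setLIntegral_const]
      _ < ⊤ := ENNReal.mul_lt_top (ENNReal.mul_lt_top ENNReal.ofReal_lt_top
          ENNReal.ofReal_lt_top) (volume_RR hn)
  exact (lt_of_le_of_lt hle hfin).ne

end RV11
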