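import Pool.Agent.LibRV11.AB2
import Pool.Agent.LibRV11.AB4

open Complex Real MeasureTheory
open UpperHalfPlane hiding I
open scoped MatrixGroups

namespace RV11

/-- the fibre integral is invariant -/
theorem fibre_act {F : ℍ → ℝ → ℂ} (hF : IsFr F) {g : SL(2, ℤ)} (hg : g ∈ Gam) (z : ℍ) :
    (∫ φ in (0 : ℝ)..π, F (g • z) φ) * (W (g • z) : ℂ) =
      (∫ φ in (0 : ℝ)..π, act g F z φ) * (W z : ℂ) := by
  rw [W_smul hg]
  congr 1
  have h1 : ∫ φ in (0 : ℝ)..π, act g F z φ =
      ∫ φ in (0 : ℝ) + jarg g z..π + jarg g z, F (g • z) φ := by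
    rw [← intervalIntegral.integral_comp_add_right (fun φ => F (g • z) φ) (jarg g z)]
    rfl
  have hper : Function.Periodic (F (g • z)) π := fun φ => hF.per (g • z) φ
  have h2 := hper.intervalIntegral_add_eq 0 (0 + jarg g z)
  rw [h1]
  have e1 : (0 : ℝ) + jarg g z + π = π + jarg g z := by ring
  rw [e1, zero_add π] at h2
  exact h2

theorem unfold_frame {F : ℍ → ℝ → ℂ} (hF : IsFr F)
    (hF' : Integrable (fun z => (∫ φ in (0 : ℝ)..π, F z φ) * (W z : ℂ))) :
    2 * iH F = ∑' g : Gam, iD (act g F) := by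
  have h := (unfold_integral _ hF').2.2
  unfold iH
  rw [h]
  refine tsum_congr fun g => ?_
  unfold iD
  refine integral_congr_ae (Filter.Eventually.of_forall fun z => ?_)
  exact fibre_act hF g.2 z

/-- the version with finitely many terms -/
theorem unfold_finite {F : ℍ → ℝ → ℂ} (hF : IsFr F)
    (hF' : Integrable (fun z => (∫ φ in (0 : ℝ)..π, F z φ) * (W z : ℂ)))
    {n : ℕ} (hn : 1 ≤ n) (hsupp : ∀ z φ, z ∉ K0 n → F z φ = 0) {S : Finset SL(2, ℤ)}
    (hS : IsS n S) : 2 * iH F = ∑ g ∈ S, iD (act g F) := by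
  classical
  rw [unfold_frame hF hF']
  have hzero : ∀ g ∈ Gam, g ∉ S → iD (act g F) = 0 := by
    intro g hg hgS
    unfold iD
    have hD : MeasurableSet DD := by
      have h1 : IsOpen DD := by
        refine IsOpen.inter ?_ ?_
        · exact isOpen_lt (continuous_abs.comp UpperHalfPlane.continuous_re) continuous_const
        · exact isOpen_lt continuous_const (continuous_norm.comp UpperHalfPlane.continuous_coe)
      exact h1.measurableSet
    have h0 : ∀ z ∈ DD, (∫ φ in (0 : ℝ)..π, act g F z φ) * (W z : ℂ) = 0 := by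
      intro z hz
      have h1 : ∀ φ, act g F z φ = 0 := by
        intro φ
        by_contra hne
        have hK : g • z ∈ K0 n := by
          by_contra hK
          exact hne (hsupp _ _ hK)
        exact hgS (hS.all g hg z (mem_RR_of_DD hn hz hg hK) (mem_RR_of_K0 hn hK))
      simp only [h1, intervalIntegral.integral_zero, zero_mul]
    rw [setIntegral_congr_fun hD h0, integral_zero]
  rw [tsum_eq_sum (s := S.subtype (fun g => g ∈ Gam))]
  · exact Finset.sum_subtype_of_mem (fun g : SL(2, ℤ) => iD (act g F)) hS.sub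
  · intro g hgS
    refine hzero g g.2 fun h => hgS ?_
    rw [Finset.mem_subtype]
    exact h

end RV11
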