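import Pool.Agent.LibRV11.AB3
import Pool.Agent.LibRV11.AB4
import Pool.Agent.LibRV11.AB6

open Complex Real MeasureTheory
open UpperHalfPlane hiding I
open scoped MatrixGroups

namespace RV11

theorem ab9_conj_qq (h : ℝ → ℝ) (n : ℕ) (G : ℝ → ℝ) (z : ℍ) (φ : ℝ) :
    (starRingEnd ℂ) (qq h n G z φ) * (W z : ℂ) =
      (Gp G φ : ℂ) * (((h (n * z.im) * z.im : ℝ) : ℂ) * jacobiTheta (z : ℂ) *
        cexp (-(π * I * n * (z : ℂ)))) := by
  have hth : jacobiTheta (z : ℂ) ≠ 0 := theta_ne_zero z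
  have hth' : (starRingEnd ℂ) (jacobiTheta (z : ℂ)) ≠ 0 := by
    rw [Ne, map_eq_zero]; exact hth
  have hW : (W z : ℂ) = jacobiTheta (z : ℂ) * (starRingEnd ℂ) (jacobiTheta (z : ℂ)) *
      (Real.sqrt z.im : ℂ) := by
    rw [Complex.mul_conj, W, Complex.normSq_eq_norm_sq]
    push_cast
    ring
  have hy : (Real.sqrt z.im : ℂ) * (Real.sqrt z.im : ℂ) = (z.im : ℂ) := by
    rw [← Complex.ofReal_mul, Real.mul_self_sqrt z.im_pos.le]
  have hexp : (starRingEnd ℂ) (cexp (π * I * n * (starRingEnd ℂ (z : ℂ)))) =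
      cexp (-(π * I * n * (z : ℂ))) := by
    rw [← Complex.exp_conj]
    congr 1
    simp only [map_mul, Complex.conj_ofReal, Complex.conj_I, map_natCast, Complex.conj_conj]
    ring
  rw [qq, map_div₀, map_mul, Complex.conj_ofReal, hexp, hW]
  push_cast
  rw [div_mul_eq_mul_div, div_eq_iff hth', ← hy]
  ring

theorem pair_point {h : ℝ → ℝ} (n : ℕ) {G : ℝ → ℝ} (hG : IsG0 G) (U : ℍ → ℝ → ℂ) (z : ℍ) :
    (∫ φ in (0 : ℝ)..π, U z φ * (starRingEnd ℂ) (q0 h n G z φ)) * (W z : ℂ) =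
      (ind (|z.re| < 1) : ℂ) * ((∫ φ in (0 : ℝ)..π, U z φ * G φ) *
      ((h (n * z.im) * z.im : ℝ) * jacobiTheta (z : ℂ) * cexp (-(π * I * n * (z : ℂ))))) := by
  rw [← intervalIntegral.integral_mul_const, ← intervalIntegral.integral_mul_const,
    ← intervalIntegral.integral_const_mul]
  apply intervalIntegral.integral_congr_ae
  have hne : ∀ᵐ φ : ℝ, φ ≠ π := by
    simp [ae_iff]
  filter_upwards [hne] with φ hφ hmem
  rw [Set.uIoc_of_le Real.pi_pos.le] at hmem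
  have hGp : Gp G φ = G φ := Gp_of_mem G hmem.1.le (lt_of_le_of_ne hmem.2 hφ)
  have h1 := ab9_conj_qq h n G z φ
  rw [hGp] at h1
  rw [q0, map_mul, Complex.conj_ofReal, mul_assoc (U z φ)]
  rw [mul_assoc ((ind (|z.re| < 1) : ℝ) : ℂ), h1]
  push_cast
  ring

theorem pair_eq {h : ℝ → ℝ} (n : ℕ) {G : ℝ → ℝ} (hG : IsG0 G) (U : ℍ → ℝ → ℂ) :
    pair h n U G = iH (fun z φ => U z φ * (starRingEnd ℂ) (q0 h n G z φ)) := by
  rw [pair, iH, ← integral_indicator measurableSet_Strip]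
  apply integral_congr_ae
  apply Filter.Eventually.of_forall
  intro z
  simp only
  rw [pair_point n hG U z]
  by_cases hz : z ∈ Strip
  · rw [Set.indicator_of_mem hz]
    have hz' : |z.re| < 1 := hz
    have : ind (|z.re| < 1) = 1 := by
      rw [ind, if_pos hz']
    rw [this]
    push_cast
    ring
  · rw [Set.indicator_of_notMem hz]
    have hz' : ¬ |z.re| < 1 := hz
    have : ind (|z.re| < 1) = 0 := by
      rw [ind, if_neg hz']
    rw [this]
    push_cast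
    ring

/-- the pointwise bound of one translate on the standard domain -/
theorem ab9_term {h : ℝ → ℝ} (hh : IsBump h) {n : ℕ} (hn : 1 ≤ n) {G : ℝ → ℝ}
    (hG : IsG0 G) {U : ℍ → ℝ → ℂ} {g : SL(2, ℤ)} (hg : g ∈ Gam) {z : ℍ}
    (hz : z ∈ DD) (φ : ℝ) :
    ‖U z φ‖ₑ * ‖act g (q0 h n G) z φ‖ₑ * ENNReal.ofReal (W z) ≤
      ‖U z φ‖ₑ ^ 2 * ENNReal.ofReal (W z) +
        (RR n).indicator (fun _ => ENNReal.ofReal ((2 * Real.exp (2 * π)) ^ 2)) z := by
  by_cases hk : g • z ∈ K0 n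
  · have hzR : z ∈ RR n := mem_RR_of_DD hn hz hg hk
    rw [Set.indicator_of_mem hzR]
    have hb := norm_act_q0_le hh hn hG hg z φ
    have hA : 0 ≤ ‖act g (q0 h n G) z φ‖ := norm_nonneg _
    have hWp := W_pos z
    have hs : Real.sqrt (W z) * Real.sqrt (W z) = W z := Real.mul_self_sqrt hWp.le
    have hs0 : 0 ≤ Real.sqrt (W z) := Real.sqrt_nonneg _
    rw [← ofReal_norm (U z φ), ← ofReal_norm (act g (q0 h n G) z φ),
      ← ENNReal.ofReal_mul (norm_nonneg _), ← ENNReal.ofReal_mul (by positivity),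
      ← ENNReal.ofReal_pow (norm_nonneg _), ← ENNReal.ofReal_mul (by positivity),
      ← ENNReal.ofReal_add (by positivity) (by positivity)]
    apply ENNReal.ofReal_le_ofReal
    have h2 : (‖act g (q0 h n G) z φ‖ * Real.sqrt (W z)) ^ 2 ≤ (2 * Real.exp (2 * π)) ^ 2 :=
      pow_le_pow_left₀ (by positivity) hb 2
    have h3 : ‖U z φ‖ * ‖act g (q0 h n G) z φ‖ * W z =
        (‖U z φ‖ * Real.sqrt (W z)) * (‖act g (q0 h n G) z φ‖ * Real.sqrt (W z)) := by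
      rw [mul_mul_mul_comm, hs]
    have h4 : (‖U z φ‖ * Real.sqrt (W z)) ^ 2 = ‖U z φ‖ ^ 2 * W z := by
      rw [mul_pow, Real.sq_sqrt hWp.le]
    rw [h3, ← h4]
    refine le_trans ?_ (add_le_add_right h2 _)
    generalize ‖U z φ‖ * Real.sqrt (W z) = p
    generalize ‖act g (q0 h n G) z φ‖ * Real.sqrt (W z) = q
    nlinarith [sq_nonneg (p - q), sq_nonneg p, sq_nonneg q]
  · have h0 : act g (q0 h n G) z φ = 0 := q0_eq_zero hh n G hk _
    rw [h0]
    simp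

/-- the majorant -/
noncomputable def ab9_maj (h : ℝ → ℝ) (n : ℕ) (G : ℝ → ℝ) (U : ℍ → ℝ → ℂ) (z : ℍ) : ENNReal :=
  ∫⁻ φ in Set.Ioc (0 : ℝ) π, ‖U z φ‖ₑ * ‖q0 h n G z φ‖ₑ * ENNReal.ofReal (W z)

theorem ab9_measurable {h : ℝ → ℝ} (hh : IsBump h) (n : ℕ) {G : ℝ → ℝ}
    (hG : IsG0 G) {U : ℍ → ℝ → ℂ} (hU : IsFr U) :
    Measurable (Function.uncurry fun (z : ℍ) (φ : ℝ) =>
      ‖U z φ‖ₑ * ‖q0 h n G z φ‖ₑ * ENNReal.ofReal (W z)) := by
  have h1 : Measurable fun p : ℍ × ℝ => ‖U p.1 p.2‖ₑ := hU.meas.enorm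
  have h2 : Measurable fun p : ℍ × ℝ => ‖q0 h n G p.1 p.2‖ₑ := (isFr_q0 hh n hG).meas.enorm
  have h3 : Measurable fun p : ℍ × ℝ => ENNReal.ofReal (W p.1) :=
    (measurable_W.comp measurable_fst).ennreal_ofReal
  exact (h1.mul h2).mul h3

theorem ab9_maj_smul {h : ℝ → ℝ} (hh : IsBump h) (n : ℕ) {G : ℝ → ℝ}
    (hG : IsG0 G) {U : ℍ → ℝ → ℂ} (hU : Equi U) {g : SL(2, ℤ)} (hg : g ∈ Gam) (z : ℍ) :
    ab9_maj h n G U (g • z) =
      ∫⁻ φ in Set.Ioc (0 : ℝ) π, ‖U z φ‖ₑ * ‖act g (q0 h n G) z φ‖ₑ * ENNReal.ofReal (W z) := by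
  rw [ab9_maj]
  have hm : Measurable fun φ : ℝ =>
      ‖U (g • z) φ‖ₑ * ‖q0 h n G (g • z) φ‖ₑ * ENNReal.ofReal (W (g • z)) :=
    (ab9_measurable hh n hG hU.isFr).comp (measurable_const.prodMk measurable_id)
  have hp : ∀ φ : ℝ, ‖U (g • z) (φ + π)‖ₑ * ‖q0 h n G (g • z) (φ + π)‖ₑ *
      ENNReal.ofReal (W (g • z)) =
      ‖U (g • z) φ‖ₑ * ‖q0 h n G (g • z) φ‖ₑ * ENNReal.ofReal (W (g • z)) := by
    intro φ
    rw [hU.per, (isFr_q0 hh n hG).per]
  rw [← lintegral_shift _ hm hp (jarg g z)]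
  congr 1
  funext φ
  have h1 : U (g • z) (φ + jarg g z) = chi g * U z φ := by
    have := congrFun (congrFun (act_equi hU hg) z) φ
    simpa [act] using this
  have h2 : ‖U (g • z) (φ + jarg g z)‖ₑ = ‖U z φ‖ₑ := by
    rw [h1, enorm_mul, ← ofReal_norm (chi g), norm_chi]
    simp
  rw [h2, W_smul hg]
  rfl

theorem ab9_lt_top {h : ℝ → ℝ} (hh : IsBump h) {n : ℕ} (hn : 1 ≤ n) {G : ℝ → ℝ}
    (hG : IsG0 G) {U : ℍ → ℝ → ℂ} (hU : Equi U) (hU' : nrm U ≠ ⊤) {g : SL(2, ℤ)}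
    (hg : g ∈ Gam) : ∫⁻ z in DD, ab9_maj h n G U (g • z) < ⊤ := by
  have hm1 : Measurable (Function.uncurry fun (z : ℍ) (φ : ℝ) =>
      ‖U z φ‖ₑ ^ 2 * ENNReal.ofReal (W z)) := by
    have h1 : Measurable fun p : ℍ × ℝ => ‖U p.1 p.2‖ₑ := hU.meas.enorm
    have h3 : Measurable fun p : ℍ × ℝ => ENNReal.ofReal (W p.1) :=
      (measurable_W.comp measurable_fst).ennreal_ofReal
    exact (h1.pow_const 2).mul h3
  have hle : ∫⁻ z in DD, ab9_maj h n G U (g • z) ≤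
      ∫⁻ z in DD, ((∫⁻ φ in Set.Ioc (0 : ℝ) π, ‖U z φ‖ₑ ^ 2 * ENNReal.ofReal (W z)) +
        (RR n).indicator (fun _ => ENNReal.ofReal ((2 * Real.exp (2 * π)) ^ 2)) z *
          ENNReal.ofReal π) := by
    apply setLIntegral_mono' measurableSet_DD
    intro z hz
    rw [ab9_maj_smul hh n hG hU hg]
    calc ∫⁻ φ in Set.Ioc (0 : ℝ) π, ‖U z φ‖ₑ * ‖act g (q0 h n G) z φ‖ₑ * ENNReal.ofReal (W z)
        ≤ ∫⁻ φ in Set.Ioc (0 : ℝ) π, (‖U z φ‖ₑ ^ 2 * ENNReal.ofReal (W z) +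
          (RR n).indicator (fun _ => ENNReal.ofReal ((2 * Real.exp (2 * π)) ^ 2)) z) :=
          lintegral_mono fun φ => ab9_term hh hn hG hg hz φ
      _ = _ := by
          rw [lintegral_add_right _ measurable_const, setLIntegral_const, Real.volume_Ioc, sub_zero]
  refine lt_of_le_of_lt hle ?_
  have hind : Measurable fun z : ℍ =>
      (RR n).indicator (fun _ => ENNReal.ofReal ((2 * Real.exp (2 * π)) ^ 2)) z *
          ENNReal.ofReal π :=
    (measurable_const.indicator (measurableSet_RR n)).mul_const _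
  rw [lintegral_add_right _ hind]
  apply ENNReal.add_lt_top.mpr
  constructor
  · exact lt_top_iff_ne_top.mpr hU'
  · rw [lintegral_mul_const _ (measurable_const.indicator (measurableSet_RR n))]
    apply ENNReal.mul_lt_top _ ENNReal.ofReal_lt_top
    refine lt_of_le_of_lt (setLIntegral_le_lintegral _ _) ?_
    rw [lintegral_indicator (measurableSet_RR n), setLIntegral_const]
    exact ENNReal.mul_lt_top ENNReal.ofReal_lt_top (volume_RR hn)

theorem ab9_zero {h : ℝ → ℝ} (hh : IsBump h) {n : ℕ} (hn : 1 ≤ n) {G : ℝ → ℝ}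
    (U : ℍ → ℝ → ℂ) {S : Finset SL(2, ℤ)} (hS : IsS n S) {g : SL(2, ℤ)}
    (hg : g ∈ Gam) (hgS : g ∉ S) : ∫⁻ z in DD, ab9_maj h n G U (g • z) = 0 := by
  have : ∫⁻ z in DD, ab9_maj h n G U (g • z) = ∫⁻ z in DD, 0 := by
    apply setLIntegral_congr_fun measurableSet_DD
    intro z hz
    have hk : g • z ∉ K0 n := by
      intro hk
      exact hgS (hS.all g hg z (mem_RR_of_DD hn hz hg hk) (mem_RR_of_K0 hn hk))
    have h0 : ∀ φ : ℝ, q0 h n G (g • z) φ = 0 := fun φ => q0_eq_zero hh n G hk φ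
    simp only [ab9_maj, h0, enorm_zero, mul_zero, zero_mul, lintegral_zero]
  rw [this, lintegral_zero]

theorem ab9_total {h : ℝ → ℝ} (hh : IsBump h) {n : ℕ} (hn : 1 ≤ n) {G : ℝ → ℝ}
    (hG : IsG0 G) {U : ℍ → ℝ → ℂ} (hU : Equi U) (hU' : nrm U ≠ ⊤) :
    ∫⁻ z, ab9_maj h n G U z < ⊤ := by
  classical
  have hm : Measurable (ab9_maj h n G U) :=
    (ab9_measurable hh n hG hU.isFr).lintegral_prod_right'
  obtain ⟨S, hS⟩ := exists_S hn
  have h2 := unfold_lintegral _ hm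
  have hsum : ∑' g : Gam, ∫⁻ z in DD, ab9_maj h n G U ((g : SL(2, ℤ)) • z) =
      ∑ g ∈ S.subtype (· ∈ Gam), ∫⁻ z in DD, ab9_maj h n G U ((g : SL(2, ℤ)) • z) := by
    apply tsum_eq_sum
    intro g hg
    apply ab9_zero hh hn U hS g.2
    intro hgS
    exact hg (Finset.mem_subtype.mpr hgS)
  have hlt : 2 * ∫⁻ z, ab9_maj h n G U z < ⊤ := by
    rw [h2, hsum]
    apply ENNReal.sum_lt_top.mpr
    intro g _
    exact ab9_lt_top hh hn hG hU hU' g.2
  by_contra hcon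
  rw [not_lt, top_le_iff] at hcon
  rw [hcon] at hlt
  simp at hlt

theorem integrable_pair {h : ℝ → ℝ} (hh : IsBump h) {n : ℕ} (hn : 1 ≤ n) {G : ℝ → ℝ}
    (hG : IsG0 G) {U : ℍ → ℝ → ℂ} (hU : Equi U) (hU' : nrm U ≠ ⊤) :
    Integrable (fun z => (∫ φ in (0 : ℝ)..π, U z φ * (starRingEnd ℂ) (q0 h n G z φ)) *
      (W z : ℂ)) := by
  have hmeas : Measurable (Function.uncurry fun (z : ℍ) (φ : ℝ) =>
      U z φ * (starRingEnd ℂ) (q0 h n G z φ)) := (isFr_mul hU.isFr (isFr_q0 hh n hG)).meas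
  constructor
  · have h1 : StronglyMeasurable fun z : ℍ => ∫ φ in (0 : ℝ)..π,
        U z φ * (starRingEnd ℂ) (q0 h n G z φ) := by
      simp only [intervalIntegral.integral_of_le Real.pi_pos.le]
      exact hmeas.stronglyMeasurable.integral_prod_right'
    have h2 : StronglyMeasurable fun z : ℍ => (W z : ℂ) :=
      (Complex.measurable_ofReal.comp measurable_W).stronglyMeasurable
    exact (h1.mul h2).aestronglyMeasurable
  · rw [hasFiniteIntegral_iff_enorm]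
    refine lt_of_le_of_lt ?_ (ab9_total hh hn hG hU hU')
    apply lintegral_mono
    intro z
    simp only
    rw [enorm_mul, intervalIntegral.integral_of_le Real.pi_pos.le]
    have hW : ‖(W z : ℂ)‖ₑ = ENNReal.ofReal (W z) := by
      rw [← ofReal_norm, Complex.norm_real, Real.norm_of_nonneg (W_pos z).le]
    rw [hW]
    have hcm : Measurable fun φ : ℝ => ‖U z φ‖ₑ * ‖q0 h n G z φ‖ₑ := by
      have h1 : Measurable fun φ : ℝ => ‖U z φ‖ₑ :=
        (hU.meas.comp (measurable_const.prodMk measurable_id)).enorm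
      have h2 : Measurable fun φ : ℝ => ‖q0 h n G z φ‖ₑ :=
        ((isFr_q0 hh n hG).meas.comp (measurable_const.prodMk measurable_id)).enorm
      exact h1.mul h2
    rw [ab9_maj, lintegral_mul_const _ hcm]
    gcongr
    refine (enorm_integral_le_lintegral_enorm _).trans (le_of_eq ?_)
    congr 1
    funext φ
    rw [enorm_mul]
    congr 1
    rw [← ofReal_norm, ← ofReal_norm, RCLike.norm_conj]

end RV11
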