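import Pool.Agent.LibRV11.AB3
import Pool.Agent.LibRV11.AB4
import Pool.Agent.LibRV11.AB9
import Pool.Agent.LibRV11.AB10

open Complex Real MeasureTheory
open UpperHalfPlane hiding I
open scoped MatrixGroups

namespace RV11

private theorem ab11_chi_conj (g : SL(2, ℤ)) : (starRingEnd ℂ) (chi g) = chi g := by
  unfold chi
  split_ifs <;> simp

private theorem ab11_chi_norm (g : SL(2, ℤ)) : ‖chi g‖ = 1 := by
  unfold chi
  split_ifs <;> simp

private theorem ab11_isFr_sum {ι : Type} (s : Finset ι) (F : ι → ℍ → ℝ → ℂ)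
    (hF : ∀ i ∈ s, IsFr (F i)) : IsFr (fun z φ => ∑ i ∈ s, F i z φ) where
  meas := by
    have h : Function.uncurry (fun z φ => ∑ i ∈ s, F i z φ) =
        fun p : ℍ × ℝ => ∑ i ∈ s, Function.uncurry (F i) p := rfl
    rw [h]
    exact Finset.measurable_fun_sum s fun i hi => (hF i hi).meas
  per := fun z φ => Finset.sum_congr rfl fun i hi => (hF i hi).per z φ

private theorem ab11_isFr_const_mul (c : ℂ) {F : ℍ → ℝ → ℂ} (hF : IsFr F) :
    IsFr (fun z φ => c * F z φ) where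
  meas := by
    have h : Function.uncurry (fun z φ => c * F z φ) =
        fun p : ℍ × ℝ => c * Function.uncurry F p := rfl
    rw [h]
    exact hF.meas.const_mul c
  per := fun z φ => by rw [hF.per z φ]

theorem isFr_QQ {h : ℝ → ℝ} (hh : IsBump h) (n : ℕ) {G : ℝ → ℝ} (hG : IsG0 G)
    (S : Finset SL(2, ℤ)) (κ : SL(2, ℤ) → ℕ × ℕ) (k : ℕ × ℕ) : IsFr (QQ h n G S κ k) := by
  classical
  have h1 : QQ h n G S κ k = fun z φ => 1 / 2 *
      (fun z φ => ∑ g ∈ S.filter (fun g => κ g = k), chi g * act g (q0 h n G) z φ) z φ := by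
    funext z φ
    unfold QQ
    congr!
  rw [h1]
  refine ab11_isFr_const_mul _ (ab11_isFr_sum _ (fun g z φ => chi g * act g (q0 h n G) z φ)
    fun g _ => ab11_isFr_const_mul _ (isFr_act (isFr_q0 hh n hG) g))

private theorem ab11_supp {h : ℝ → ℝ} (hh : IsBump h) {n : ℕ} (hn : 1 ≤ n) {G : ℝ → ℝ}
    {g : SL(2, ℤ)} (hg : g ∈ Gam) {z : ℍ} (hz : z ∈ DD) (hzR : z ∉ RR n) (φ : ℝ) :
    act g (q0 h n G) z φ = 0 := by
  unfold act
  apply q0_eq_zero hh
  intro hK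
  exact hzR (mem_RR_of_DD hn hz hg hK)

theorem nrm_act_q0 {h : ℝ → ℝ} (hh : IsBump h) {n : ℕ} (hn : 1 ≤ n) {G : ℝ → ℝ} (hG : IsG0 G)
    {g : SL(2, ℤ)} (hg : g ∈ Gam) : nrm (act g (q0 h n G)) ≠ ⊤ :=
  nrm_ne_top hn (2 * Real.exp (2 * π)) (fun z _ φ => norm_act_q0_le hh hn hG hg z φ)
    fun _ hz hzR φ => ab11_supp hh hn hg hz hzR φ

theorem nrm_QQ {h : ℝ → ℝ} (hh : IsBump h) {n : ℕ} (hn : 1 ≤ n) {G : ℝ → ℝ} (hG : IsG0 G)
    {S : Finset SL(2, ℤ)} (hS : IsS n S) (κ : SL(2, ℤ) → ℕ × ℕ) (k : ℕ × ℕ) :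
    nrm (QQ h n G S κ k) ≠ ⊤ := by
  classical
  refine nrm_ne_top hn (1 / 2 * ∑ g ∈ S.filter (fun g => κ g = k), 2 * Real.exp (2 * π)) ?_ ?_
  · intro z _ φ
    have h1 : ‖QQ h n G S κ k z φ‖ ≤
        1 / 2 * ∑ g ∈ S.filter (fun g => κ g = k), ‖act g (q0 h n G) z φ‖ := by
      have h2 : QQ h n G S κ k z φ = 1 / 2 * ∑ g ∈ S.filter (fun g => κ g = k),
          chi g * act g (q0 h n G) z φ := by
        unfold QQ
        congr!
      rw [h2, norm_mul]
      have h3 : ‖(1 / 2 : ℂ)‖ = 1 / 2 := by simp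
      rw [h3]
      refine mul_le_mul_of_nonneg_left ?_ (by norm_num)
      refine le_trans (norm_sum_le _ _) (Finset.sum_le_sum fun g _ => ?_)
      rw [norm_mul, ab11_chi_norm, one_mul]
    refine le_trans (mul_le_mul_of_nonneg_right h1 (Real.sqrt_nonneg _)) ?_
    rw [mul_assoc, Finset.sum_mul]
    refine mul_le_mul_of_nonneg_left (Finset.sum_le_sum fun g hg => ?_) (by norm_num)
    exact norm_act_q0_le hh hn hG (hS.sub g (Finset.mem_filter.1 hg).1) z φ
  · intro z hz hzR φ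
    unfold QQ
    rw [Finset.sum_eq_zero, mul_zero]
    intro g hg
    rw [ab11_supp hh hn (hS.sub g (Finset.mem_filter.1 hg).1) hz hzR φ, mul_zero]

theorem pair_grouped {h : ℝ → ℝ} (hh : IsBump h) {n : ℕ} (hn : 1 ≤ n) {G : ℝ → ℝ} (hG : IsG0 G)
    {S : Finset SL(2, ℤ)} (hS : IsS n S) {m : ℕ} {T : Finset (ℕ × ℕ)} {κ : SL(2, ℤ) → ℕ × ℕ}
    (hκ : IsKap m T κ) {U : ℍ → ℝ → ℂ} (hU : Equi U) (hU' : nrm U ≠ ⊤) :
    pair h n U G =
      ∑ k ∈ T, iD (fun z φ => U z φ * (starRingEnd ℂ) (QQ h n G S κ k z φ)) := by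
  classical
  set F : ℍ → ℝ → ℂ := fun z φ => U z φ * (starRingEnd ℂ) (q0 h n G z φ) with hF
  have hFr : IsFr F := isFr_mul hU.isFr (isFr_q0 hh n hG)
  -- the pieces
  set P : SL(2, ℤ) → ℍ → ℝ → ℂ := fun g z φ =>
    chi g * (U z φ * (starRingEnd ℂ) (act g (q0 h n G) z φ)) with hP
  have hPFr : ∀ g, IsFr (P g) := fun g =>
    ab11_isFr_const_mul _ (isFr_mul hU.isFr (isFr_act (isFr_q0 hh n hG) g))
  have hPl1 : ∀ g ∈ Gam, l1 (P g) ≠ ⊤ := by
    intro g hg
    have h1 : l1 (P g) = l1 (fun z φ => U z φ * (starRingEnd ℂ) (act g (q0 h n G) z φ)) := by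
      unfold l1
      refine lintegral_congr fun z => lintegral_congr fun φ => ?_
      simp only [hP]
      rw [enorm_mul (chi g)]
      have h2 : ‖chi g‖ₑ = 1 := by
        rw [← ofReal_norm, ab11_chi_norm, ENNReal.ofReal_one]
      rw [h2, one_mul]
    rw [h1]
    exact l1_mul_ne_top hU.isFr (isFr_act (isFr_q0 hh n hG) g) hU' (nrm_act_q0 hh hn hG hg)
  have hact : ∀ g ∈ S, act g F = P g := by
    intro g hg
    rw [hF, act_mul_conj, act_equi hU (hS.sub g hg)]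
    funext z φ
    simp only [hP]
    ring
  have hunf : 2 * iH F = ∑ g ∈ S, iD (P g) := by
    rw [unfold_finite hFr (integrable_pair hh hn hG hU hU') hn ?_ hS]
    · exact Finset.sum_congr rfl fun g hg => by rw [hact g hg]
    · intro z φ hz
      simp only [hF]
      rw [q0_eq_zero hh n G hz φ, map_zero, mul_zero]
  have hk : ∀ k ∈ T, iD (fun z φ => U z φ * (starRingEnd ℂ) (QQ h n G S κ k z φ)) =
      1 / 2 * ∑ g ∈ S.filter (fun g => κ g = k), iD (P g) := by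
    intro k _
    rw [← iD_sum (S.filter (fun g => κ g = k)) P (fun g _ => hPFr g)
      (fun g hg => hPl1 g (hS.sub g (Finset.mem_filter.1 hg).1)), ← iD_const_mul]
    congr 1
    funext z φ
    have h2 : QQ h n G S κ k z φ = 1 / 2 * ∑ g ∈ S.filter (fun g => κ g = k),
        chi g * act g (q0 h n G) z φ := by
      unfold QQ
      congr!
    have h3 : (starRingEnd ℂ) (1 / 2 : ℂ) = 1 / 2 := by
      rw [map_div₀, map_one, map_ofNat]
    rw [h2, map_mul, h3, map_sum, Finset.mul_sum, Finset.mul_sum, Finset.mul_sum]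
    refine Finset.sum_congr rfl fun g _ => ?_
    rw [map_mul, ab11_chi_conj]
    simp only [hP]
    ring
  rw [Finset.sum_congr rfl hk, ← Finset.mul_sum,
    Finset.sum_fiberwise_of_maps_to (fun g _ => hκ.mem g), ← hunf, pair_eq n hG U]
  ring

end RV11
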