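import Pool.Agent.LibRV11.AB0

open Complex Real MeasureTheory
open UpperHalfPlane hiding I
open scoped MatrixGroups

namespace RV11

/-- The second component. -/
noncomputable def ab7_v (m e : ℕ) (c d : ℤ) : ℕ :=
  ((d : ZMod (m / e)) * (((c / e : ℤ) : ZMod (m / e)))⁻¹).val

theorem ab7_det (g : SL(2, ℤ)) : g 0 0 * g 1 1 - g 0 1 * g 1 0 = 1 := by
  have h := g.det_coe
  rw [Matrix.det_fin_two] at h
  exact h

theorem ab7_coprime (g : SL(2, ℤ)) : IsCoprime (g 1 0) (g 1 1) :=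
  ⟨- g 0 1, g 0 0, by linear_combination ab7_det g⟩

theorem ab7_dvd {m : ℕ} {g g' : SL(2, ℤ)} (h : (m : ℤ) ∣ g 1 0 * g' 1 1 - g' 1 0 * g 1 1) :
    Int.gcd (g 1 0) m ∣ Int.gcd (g' 1 0) m := by
  have h1 : ((Int.gcd (g 1 0) m : ℕ) : ℤ) ∣ g 1 0 := Int.gcd_dvd_left _ _
  have h2 : ((Int.gcd (g 1 0) m : ℕ) : ℤ) ∣ (m : ℤ) := Int.gcd_dvd_right _ _
  have h3 : ((Int.gcd (g 1 0) m : ℕ) : ℤ) ∣ g' 1 0 * g 1 1 := by
    have h4 := dvd_sub (h1.mul_right (g' 1 1)) (h2.trans h)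
    have h5 : g 1 0 * g' 1 1 - (g 1 0 * g' 1 1 - g' 1 0 * g 1 1) = g' 1 0 * g 1 1 := by ring
    rwa [h5] at h4
  have h6 : IsCoprime ((Int.gcd (g 1 0) m : ℕ) : ℤ) (g 1 1) :=
    (ab7_coprime g).of_isCoprime_of_dvd_left h1
  have h7 : ((Int.gcd (g 1 0) m : ℕ) : ℤ) ∣ g' 1 0 := h6.dvd_of_dvd_mul_right h3
  exact Int.dvd_gcd h7 h2

/-- The comparison of the second components. -/
theorem ab7_iff {m : ℕ} (hm : 1 ≤ m) (g g' : SL(2, ℤ)) (he : Int.gcd (g 1 0) m = Int.gcd (g' 1 0) m) :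
    ab7_v m (Int.gcd (g 1 0) m) (g 1 0) (g 1 1) = ab7_v m (Int.gcd (g' 1 0) m) (g' 1 0) (g' 1 1) ↔
      (m : ℤ) ∣ g 1 0 * g' 1 1 - g' 1 0 * g 1 1 := by
  rw [← he]
  obtain ⟨e, hee⟩ : ∃ e, e = Int.gcd (g 1 0) m := ⟨_, rfl⟩
  rw [← hee] at he ⊢
  have hme : (m : ℤ) ≠ 0 := by exact_mod_cast (by omega : m ≠ 0)
  have hepos : 0 < e := by
    rw [hee]
    exact Int.gcd_pos_of_ne_zero_right _ hme
  obtain ⟨c1, hc1⟩ : (e : ℤ) ∣ g 1 0 := by rw [hee]; exact Int.gcd_dvd_left _ _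
  obtain ⟨c2, hc2⟩ : (e : ℤ) ∣ g' 1 0 := by rw [he]; exact Int.gcd_dvd_left _ _
  obtain ⟨m1, hm1⟩ : e ∣ m := by
    have : ((e : ℕ) : ℤ) ∣ (m : ℤ) := by rw [hee]; exact Int.gcd_dvd_right _ _
    exact_mod_cast this
  have hm1pos : 0 < m1 := by
    rcases Nat.eq_zero_or_pos m1 with h | h
    · rw [h, mul_zero] at hm1; omega
    · exact h
  have hdiv : m / e = m1 := by rw [hm1]; exact Nat.mul_div_cancel_left _ hepos
  have heZ : (e : ℤ) ≠ 0 := by exact_mod_cast hepos.ne'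
  have hcop1 : IsCoprime c1 (m1 : ℤ) := by
    rw [Int.isCoprime_iff_gcd_eq_one]
    have h1 : Int.gcd (g 1 0) m = e * Int.gcd c1 m1 := by
      rw [hc1, hm1]
      push_cast
      rw [Int.gcd_mul_left]
      simp
    rw [← hee] at h1
    exact Nat.eq_of_mul_eq_mul_left hepos (by rw [mul_one]; exact h1.symm)
  have hcop2 : IsCoprime c2 (m1 : ℤ) := by
    rw [Int.isCoprime_iff_gcd_eq_one]
    have h1 : Int.gcd (g' 1 0) m = e * Int.gcd c2 m1 := by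
      rw [hc2, hm1]
      push_cast
      rw [Int.gcd_mul_left]
      simp
    rw [← he] at h1
    exact Nat.eq_of_mul_eq_mul_left hepos (by rw [mul_one]; exact h1.symm)
  have : NeZero m1 := ⟨hm1pos.ne'⟩
  have hu : ∀ c : ℤ, IsCoprime c (m1 : ℤ) → (c : ZMod m1) * ((c : ZMod m1))⁻¹ = 1 := by
    intro c hc
    obtain ⟨x, y, hxy⟩ := hc
    have h1 : IsUnit (c : ZMod m1) := by
      refine IsUnit.of_mul_eq_one (x : ZMod m1) ?_
      have h2 := congrArg (fun t : ℤ => (t : ZMod m1)) hxy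
      simp only [Int.cast_add, Int.cast_mul, Int.cast_natCast, ZMod.natCast_self, mul_zero,
        add_zero, Int.cast_one] at h2
      rw [mul_comm]; exact h2
    exact ZMod.mul_inv_of_unit _ h1
  have hv1 : ab7_v m e (g 1 0) (g 1 1) = ((g 1 1 : ZMod m1) * ((c1 : ℤ) : ZMod m1)⁻¹).val := by
    unfold ab7_v
    rw [hdiv, hc1, Int.mul_ediv_cancel_left _ heZ]
  have hv2 : ab7_v m e (g' 1 0) (g' 1 1) = ((g' 1 1 : ZMod m1) * ((c2 : ℤ) : ZMod m1)⁻¹).val := by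
    unfold ab7_v
    rw [hdiv, hc2, Int.mul_ediv_cancel_left _ heZ]
  rw [hv1, hv2, (ZMod.val_injective m1).eq_iff]
  have hkey : ((g 1 1 : ZMod m1) * ((c1 : ℤ) : ZMod m1)⁻¹ = (g' 1 1 : ZMod m1) * ((c2 : ℤ) : ZMod m1)⁻¹)
      ↔ ((c1 : ZMod m1) * (g' 1 1 : ZMod m1) - (c2 : ZMod m1) * (g 1 1 : ZMod m1) = 0) := by
    have h1 := hu c1 hcop1
    have h2 := hu c2 hcop2
    constructor
    · intro h
      have h3 : (c1 : ZMod m1) * (c2 : ZMod m1) * ((g 1 1 : ZMod m1) * ((c1 : ℤ) : ZMod m1)⁻¹) =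
          (c1 : ZMod m1) * (c2 : ZMod m1) * ((g' 1 1 : ZMod m1) * ((c2 : ℤ) : ZMod m1)⁻¹) := by rw [h]
      linear_combination (-1) * h3 + (c2 : ZMod m1) * (g 1 1 : ZMod m1) * h1 -
        (c1 : ZMod m1) * (g' 1 1 : ZMod m1) * h2
    · intro h
      linear_combination (-((c1 : ZMod m1)⁻¹ * (c2 : ZMod m1)⁻¹)) * h +
        ((c2 : ZMod m1)⁻¹ * (g' 1 1 : ZMod m1)) * h1 - ((c1 : ZMod m1)⁻¹ * (g 1 1 : ZMod m1)) * h2
  rw [hkey]
  have hcast : ((c1 : ZMod m1) * (g' 1 1 : ZMod m1) - (c2 : ZMod m1) * (g 1 1 : ZMod m1)) =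
      ((c1 * g' 1 1 - c2 * g 1 1 : ℤ) : ZMod m1) := by push_cast; ring
  rw [hcast, ZMod.intCast_zmod_eq_zero_iff_dvd]
  have hm1' : (m : ℤ) = e * m1 := by rw [hm1]; push_cast; ring
  have hfac : g 1 0 * g' 1 1 - g' 1 0 * g 1 1 = e * (c1 * g' 1 1 - c2 * g 1 1) := by
    rw [hc1, hc2]; ring
  rw [hm1', hfac]
  exact (mul_dvd_mul_iff_left heZ).symm

/-- `κ g = (gcd(c,m), d (c/e)⁻¹ mod m/e)`. -/
theorem exists_kap {m : ℕ} (hm : 1 ≤ m) : ∃ T κ, IsKap m T κ := by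
  classical
  refine ⟨m.divisors.biUnion (fun e => (Finset.range (m / e)).image (fun x => (e, x))),
    fun g => (Int.gcd (g 1 0) m, ab7_v m (Int.gcd (g 1 0) m) (g 1 0) (g 1 1)), ?_, ?_, ?_⟩
  · have h1 : (m.divisors.biUnion (fun e => (Finset.range (m / e)).image (fun x => (e, x)))).card ≤
        ∑ e ∈ m.divisors, m / e := by
      refine Finset.card_biUnion_le.trans (Finset.sum_le_sum fun e _ => ?_)
      exact Finset.card_image_le.trans (by rw [Finset.card_range])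
    have h2 : ∑ e ∈ m.divisors, m / e = ∑ d ∈ m.divisors, d :=
      Nat.sum_div_divisors m (fun d => d)
    rw [h2] at h1
    have h3 := (Nat.cast_le (α := ℝ)).2 h1
    rw [Nat.cast_sum] at h3
    exact h3
  · intro g
    simp only [Finset.mem_biUnion, Nat.mem_divisors, Finset.mem_image, Finset.mem_range,
      Prod.mk.injEq]
    have hme : (m : ℤ) ≠ 0 := by exact_mod_cast (by omega : m ≠ 0)
    have hdvd : Int.gcd (g 1 0) m ∣ m := by
      have : ((Int.gcd (g 1 0) m : ℕ) : ℤ) ∣ (m : ℤ) := Int.gcd_dvd_right _ _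
      exact_mod_cast this
    have hpos : 0 < m / Int.gcd (g 1 0) m :=
      Nat.div_pos (Nat.le_of_dvd hm hdvd) (Int.gcd_pos_of_ne_zero_right _ hme)
    refine ⟨Int.gcd (g 1 0) m, ⟨hdvd, by omega⟩, _, ?_, rfl, rfl⟩
    have : NeZero (m / Int.gcd (g 1 0) m) := ⟨hpos.ne'⟩
    exact ZMod.val_lt _
  · intro g g'
    constructor
    · intro h
      obtain ⟨h1, h2⟩ := Prod.mk.inj h
      exact (ab7_iff hm g g' h1).1 h2
    · intro h
      have he : Int.gcd (g 1 0) m = Int.gcd (g' 1 0) m := by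
        apply Nat.dvd_antisymm (ab7_dvd h)
        apply ab7_dvd
        have h1 : g' 1 0 * g 1 1 - g 1 0 * g' 1 1 = -(g 1 0 * g' 1 1 - g' 1 0 * g 1 1) := by ring
        rw [h1]
        exact (dvd_neg).2 h
      exact Prod.ext he ((ab7_iff hm g g' he).2 h)

end RV11
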