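import Pool.Agent.LibRV11.AB11
import Pool.Agent.LibRV11.AB6
import Pool.Agent.LibRV11.AB7

open Complex Real MeasureTheory
open UpperHalfPlane hiding I
open scoped MatrixGroups

namespace RV11

private theorem ab12_bound {h : ℝ → ℝ} (hh : IsBump h) {n : ℕ} (hn : 1 ≤ n) {G : ℝ → ℝ}
    (hG : IsG0 G) {g k : SL(2, ℤ)} (hg : g ∈ Gam) (hk : k ∈ Gam) (z : ℍ) (φ : ℝ) :
    ‖act g (q0 h n G) z φ * (starRingEnd ℂ) (act k (q0 h n G) z φ)‖ * W z ≤
      (2 * Real.exp (2 * π)) ^ 2 := by
  have h1 := norm_act_q0_le hh hn hG hg z φ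
  have h2 := norm_act_q0_le hh hn hG hk z φ
  have hW := W_pos z
  rw [norm_mul, RCLike.norm_conj]
  calc ‖act g (q0 h n G) z φ‖ * ‖act k (q0 h n G) z φ‖ * W z =
      (‖act g (q0 h n G) z φ‖ * Real.sqrt (W z)) *
        (‖act k (q0 h n G) z φ‖ * Real.sqrt (W z)) := by
        have := Real.mul_self_sqrt hW.le
        linear_combination (-‖act g (q0 h n G) z φ‖ * ‖act k (q0 h n G) z φ‖) * this
    _ ≤ (2 * Real.exp (2 * π)) * (2 * Real.exp (2 * π)) := by
        apply mul_le_mul h1 h2 (by positivity) (by positivity)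
    _ = (2 * Real.exp (2 * π)) ^ 2 := (sq _).symm

private theorem ab12_act_one (f : ℍ → ℝ → ℂ) (z : ℍ) (φ : ℝ) : act 1 f z φ = f z φ := by
  rw [act_one]

theorem integrable_gam {h : ℝ → ℝ} (hh : IsBump h) {n : ℕ} (hn : 1 ≤ n) {G : ℝ → ℝ} (hG : IsG0 G)
    {g : SL(2, ℤ)} (hg : g ∈ Gam) :
    Integrable (fun z => (∫ φ in (0 : ℝ)..π, act g (q0 h n G) z φ *
      (starRingEnd ℂ) (q0 h n G z φ)) * (W z : ℂ)) := by
  have hfr : IsFr (fun z φ => act g (q0 h n G) z φ * (starRingEnd ℂ) (q0 h n G z φ)) :=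
    isFr_mul (isFr_act (isFr_q0 hh n hG) g) (isFr_q0 hh n hG)
  have hmeas : Measurable (fun z => (∫ φ in (0 : ℝ)..π, act g (q0 h n G) z φ *
      (starRingEnd ℂ) (q0 h n G z φ)) * (W z : ℂ)) := by
    apply Measurable.mul _ (Complex.measurable_ofReal.comp measurable_W)
    have e : (fun z : ℍ => ∫ φ in (0 : ℝ)..π, act g (q0 h n G) z φ *
      (starRingEnd ℂ) (q0 h n G z φ)) = fun z : ℍ => ∫ φ in Set.Ioc (0 : ℝ) π,
        act g (q0 h n G) z φ * (starRingEnd ℂ) (q0 h n G z φ) := by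
      ext z
      rw [intervalIntegral.integral_of_le Real.pi_pos.le]
    rw [e]
    exact (hfr.meas.stronglyMeasurable.integral_prod_right).measurable
  have hout : ∀ z, z ∉ K0 n → (∫ φ in (0 : ℝ)..π, act g (q0 h n G) z φ *
      (starRingEnd ℂ) (q0 h n G z φ)) * (W z : ℂ) = 0 := by
    intro z hz
    simp_rw [q0_eq_zero hh n G hz]
    simp
  have hvol' : volume (K0 n) < ⊤ := lt_of_le_of_lt (volume_K0 hn) ENNReal.ofReal_lt_top
  rw [← integrableOn_iff_integrable_of_support_subset (s := K0 n)]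
  · apply Measure.integrableOn_of_bounded (M := (2 * Real.exp (2 * π)) ^ 2 * π) hvol'.ne
      hmeas.aestronglyMeasurable
    apply Filter.Eventually.of_forall
    intro z
    have hW := W_pos z
    rw [norm_mul, Complex.norm_real, Real.norm_eq_abs, abs_of_pos hW]
    have h1 : ‖∫ φ in (0 : ℝ)..π, act g (q0 h n G) z φ *
        (starRingEnd ℂ) (q0 h n G z φ)‖ ≤ ((2 * Real.exp (2 * π)) ^ 2 / W z) * |π - 0| := by
      apply intervalIntegral.norm_integral_le_of_norm_le_const
      intro φ _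
      rw [le_div_iff₀ hW]
      have := ab12_bound hh hn hG hg Gam.one_mem z φ
      rwa [ab12_act_one] at this
    calc _ ≤ ((2 * Real.exp (2 * π)) ^ 2 / W z) * |π - 0| * W z := by gcongr
      _ = (2 * Real.exp (2 * π)) ^ 2 * π := by
        rw [sub_zero, abs_of_pos Real.pi_pos]
        field_simp
  · intro z hz
    by_contra hcon
    exact hz (hout z hcon)

/-- the two-element terms of the square -/
theorem iD_pair_zero {h : ℝ → ℝ} (hh : IsBump h) {n : ℕ} (hn : 1 ≤ n) (G : ℝ → ℝ)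
    {S : Finset SL(2, ℤ)} (hS : IsS n S) {g k : SL(2, ℤ)} (hg : g ∈ Gam) (hk : k ∈ Gam)
    (hne : g ∉ S ∨ k ∉ S ∨ g * k⁻¹ ∉ S) :
    iD (fun z φ => act g (q0 h n G) z φ * (starRingEnd ℂ) (act k (q0 h n G) z φ)) = 0 := by
  have key : ∀ z ∈ DD, ∀ φ, act g (q0 h n G) z φ *
      (starRingEnd ℂ) (act k (q0 h n G) z φ) = 0 := by
    intro z hz φ
    by_cases h1 : g • z ∈ K0 n
    · by_cases h2 : k • z ∈ K0 n
      · exfalso
        have h3 := mem_RR_of_DD hn hz hg h1
        have h4 := mem_RR_of_K0 hn h1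
        have h5 := mem_RR_of_K0 hn h2
        have h6 : (g * k⁻¹) • (k • z) = g • z := by
          rw [smul_smul, inv_mul_cancel_right]
        rcases hne with hne | hne | hne
        · exact hne (hS.all g hg z h3 h4)
        · exact hne (hS.all k hk z h3 h5)
        · apply hne (hS.all (g * k⁻¹) (Gam.mul_mem hg (Gam.inv_mem hk)) (k • z) h5 _)
          rw [h6]
          exact h4
      · rw [act, act, q0_eq_zero hh n G h2, map_zero, mul_zero]
    · rw [act, q0_eq_zero hh n G h1, zero_mul]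
  rw [iD]
  have hDD : MeasurableSet DD := by
    have e : DD = (fun z : ℍ => |z.re|) ⁻¹' Set.Iio 1 ∩ (fun z : ℍ => ‖(z : ℂ)‖) ⁻¹' Set.Ioi 1 := rfl
    rw [e]
    apply MeasurableSet.inter
    · exact (measurable_norm.comp (Complex.measurable_re.comp measurable_coe)) measurableSet_Iio
    · exact (measurable_norm.comp measurable_coe) measurableSet_Ioi
  apply setIntegral_eq_zero_of_forall_eq_zero
  intro z hz
  simp_rw [key z hz]
  simp

private theorem ab12_conj_chi (g : SL(2, ℤ)) : (starRingEnd ℂ) (chi g) = chi g := by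
  unfold chi
  split_ifs <;> simp

private theorem ab12_mul_inv (g k : SL(2, ℤ)) :
    (g * k⁻¹) 1 0 = g 1 0 * k 1 1 - k 1 0 * g 1 1 := by
  rw [Matrix.SpecialLinearGroup.coe_mul, Matrix.SpecialLinearGroup.coe_inv,
    Matrix.adjugate_fin_two]
  simp [Matrix.mul_apply, Fin.sum_univ_two]
  ring

theorem sum_QQ_sq {h : ℝ → ℝ} (hh : IsBump h) {n : ℕ} (hn : 1 ≤ n) {G : ℝ → ℝ} (hG : IsG0 G)
    {S : Finset SL(2, ℤ)} (hS : IsS n S) {m : ℕ} {T : Finset (ℕ × ℕ)} {κ : SL(2, ℤ) → ℕ × ℕ}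
    (hκ : IsKap m T κ) :
    ∑ k ∈ T, iD (fun z φ => QQ h n G S κ k z φ * (starRingEnd ℂ) (QQ h n G S κ k z φ)) =
      1 / 2 * ∑ g ∈ S.filter (fun g => (m : ℤ) ∣ g 1 0), chi g *
        iH (fun z φ => act g (q0 h n G) z φ * (starRingEnd ℂ) (q0 h n G z φ)) := by
  classical
  set J : SL(2, ℤ) → SL(2, ℤ) → ℂ := fun g k =>
    iD (fun z φ => act g (q0 h n G) z φ * (starRingEnd ℂ) (act k (q0 h n G) z φ)) with hJ
  -- one class
  have h1 : ∀ t : ℕ × ℕ, iD (fun z φ => QQ h n G S κ t z φ *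
      (starRingEnd ℂ) (QQ h n G S κ t z φ)) =
      1 / 4 * ∑ k ∈ S.filter (fun g => κ g = t), ∑ g ∈ S.filter (fun g => κ g = t),
        chi g * chi k * J g k := by
    intro t
    have e1 : (fun (z : ℍ) (φ : ℝ) => QQ h n G S κ t z φ *
        (starRingEnd ℂ) (QQ h n G S κ t z φ)) =
        fun z φ => ∑ x ∈ (S.filter (fun g => κ g = t)) ×ˢ (S.filter (fun g => κ g = t)),
          (1 / 4 * (chi x.2 * chi x.1)) * (act x.2 (q0 h n G) z φ *
            (starRingEnd ℂ) (act x.1 (q0 h n G) z φ)) := by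
      ext z φ
      rw [QQ, map_mul, map_sum, Finset.sum_product, mul_mul_mul_comm, Finset.sum_mul_sum,
        Finset.sum_comm, Finset.mul_sum]
      apply Finset.sum_congr rfl
      intro k _
      rw [Finset.mul_sum]
      apply Finset.sum_congr rfl
      intro g _
      rw [map_mul, ab12_conj_chi]
      simp only [map_div₀, map_one, map_ofNat]
      ring
    rw [e1, iD_sum]
    · simp_rw [iD_const_mul]
      rw [Finset.sum_product, Finset.mul_sum]
      apply Finset.sum_congr rfl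
      intro k _
      rw [Finset.mul_sum]
      apply Finset.sum_congr rfl
      intro g _
      simp only [hJ]
      ring
    · intro x _
      have hfr := isFr_mul (isFr_act (isFr_q0 hh n hG) x.2) (isFr_act (isFr_q0 hh n hG) x.1)
      exact ⟨measurable_const.mul hfr.meas, fun z φ => by rw [hfr.per z φ]⟩
    · intro x hx
      rw [Finset.mem_product, Finset.mem_filter, Finset.mem_filter] at hx
      have hx1 := hS.sub _ hx.1.1
      have hx2 := hS.sub _ hx.2.1
      have hl := l1_mul_ne_top (isFr_act (isFr_q0 hh n hG) x.2) (isFr_act (isFr_q0 hh n hG) x.1)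
        (nrm_act_q0 hh hn hG hx2) (nrm_act_q0 hh hn hG hx1)
      have e2 : l1 (fun z φ => (1 / 4 * (chi x.2 * chi x.1)) * (act x.2 (q0 h n G) z φ *
            (starRingEnd ℂ) (act x.1 (q0 h n G) z φ))) ≤ ‖(1 / 4 * (chi x.2 * chi x.1) : ℂ)‖ₑ *
          l1 (fun z φ => act x.2 (q0 h n G) z φ *
            (starRingEnd ℂ) (act x.1 (q0 h n G) z φ)) := by
        rw [l1, l1, ← lintegral_const_mul' _ _ enorm_ne_top]
        apply lintegral_mono
        intro z
        simp only
        rw [← lintegral_const_mul' _ _ enorm_ne_top]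
        apply lintegral_mono
        intro φ
        simp only
        rw [enorm_mul, mul_assoc]
      exact ne_top_of_le_ne_top (ENNReal.mul_ne_top enorm_ne_top hl) e2
  simp_rw [h1]
  rw [← Finset.mul_sum]
  -- all classes
  have h2 : ∑ t ∈ T, ∑ k ∈ S.filter (fun g => κ g = t), ∑ g ∈ S.filter (fun g => κ g = t),
      chi g * chi k * J g k =
      ∑ k ∈ S, ∑ g ∈ S.filter (fun g => (m : ℤ) ∣ (g * k⁻¹) 1 0), chi g * chi k * J g k := by
    rw [← Finset.sum_fiberwise_of_maps_to (s := S) (t := T) (g := κ) (fun g _ => hκ.mem g)]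
    apply Finset.sum_congr rfl
    intro t _
    apply Finset.sum_congr rfl
    intro k hk
    rw [Finset.mem_filter] at hk
    apply Finset.sum_congr _ (fun _ _ => rfl)
    apply Finset.filter_congr
    intro g _
    rw [← hk.2, hκ.iff, ab12_mul_inv]
  -- reindexing
  have h3 : ∀ k ∈ S, ∑ g ∈ S.filter (fun g => (m : ℤ) ∣ (g * k⁻¹) 1 0), chi g * chi k * J g k =
      ∑ γ ∈ S.filter (fun g => (m : ℤ) ∣ g 1 0), chi γ * iD (act k (fun z φ =>
        act γ (q0 h n G) z φ * (starRingEnd ℂ) (q0 h n G z φ))) := by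
    intro k hk
    have hkG := hS.sub k hk
    have hterm : ∀ γ ∈ Gam, chi (γ * k) * chi k * J (γ * k) k = chi γ * iD (act k (fun z φ =>
        act γ (q0 h n G) z φ * (starRingEnd ℂ) (q0 h n G z φ))) := by
      intro γ hγ
      rw [chi_mul hγ hkG, mul_assoc (chi γ), chi_mul_self, mul_one]
      congr 1
      simp only [hJ]
      rw [act_mul_conj, act_act (isFr_q0 hh n hG)]
    refine Finset.sum_bij_ne_zero (fun g _ _ => g * k⁻¹) ?_ ?_ ?_ ?_
    · intro g hg1 hg2
      rw [Finset.mem_filter] at hg1 ⊢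
      refine ⟨?_, hg1.2⟩
      by_contra hcon
      apply hg2
      simp only [hJ]
      rw [iD_pair_zero hh hn G hS (hS.sub g hg1.1) hkG (Or.inr (Or.inr hcon)), mul_zero]
    · intro g _ _ g' _ _ heq
      exact mul_right_cancel heq
    · intro γ hγ1 hγ2
      rw [Finset.mem_filter] at hγ1
      have hγG := hS.sub γ hγ1.1
      rw [← hterm γ hγG] at hγ2
      have hmem : γ * k ∈ S := by
        by_contra hcon
        apply hγ2
        simp only [hJ]
        rw [iD_pair_zero hh hn G hS (Gam.mul_mem hγG hkG) hkG (Or.inl hcon), mul_zero]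
      refine ⟨γ * k, ?_, hγ2, ?_⟩
      · rw [Finset.mem_filter, mul_inv_cancel_right]
        exact ⟨hmem, hγ1.2⟩
      · exact mul_inv_cancel_right γ k
    · intro g hg1 _
      rw [Finset.mem_filter] at hg1
      have hgG := hS.sub g hg1.1
      have := hterm (g * k⁻¹) (Gam.mul_mem hgG (Gam.inv_mem hkG))
      rwa [inv_mul_cancel_right] at this
  rw [h2, Finset.sum_congr rfl h3, Finset.sum_comm]
  have h4 : ∀ γ ∈ S.filter (fun g => (m : ℤ) ∣ g 1 0), ∑ k ∈ S, chi γ * iD (act k (fun z φ =>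
        act γ (q0 h n G) z φ * (starRingEnd ℂ) (q0 h n G z φ))) =
      2 * (chi γ * iH (fun z φ => act γ (q0 h n G) z φ * (starRingEnd ℂ) (q0 h n G z φ))) := by
    intro γ hγ
    rw [Finset.mem_filter] at hγ
    have hγG := hS.sub γ hγ.1
    rw [← Finset.mul_sum, ← unfold_finite
      (isFr_mul (isFr_act (isFr_q0 hh n hG) γ) (isFr_q0 hh n hG))
      (integrable_gam hh hn hG hγG) hn _ hS]
    · ring
    · intro z φ hz
      rw [q0_eq_zero hh n G hz, map_zero, mul_zero]
  rw [Finset.sum_congr rfl h4, ← Finset.mul_sum]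
  ring

end RV11
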