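import Pool.Agent.LibRV11.AB0

open Complex Real MeasureTheory
open UpperHalfPlane hiding I
open scoped MatrixGroups

namespace RV11

theorem ab2_ne (g : SL(2, ℤ)) (z : ℍ) : (g 1 0 : ℂ) * (z : ℂ) + (g 1 1 : ℂ) ≠ 0 := by
  have h := UpperHalfPlane.denom_ne_zero (g : GL (Fin 2) ℝ) z
  rwa [ModularGroup.denom_apply] at h

theorem ab2_coe (g : SL(2, ℤ)) (z : ℍ) : ((g • z : ℍ) : ℂ) =
    ((g 0 0 : ℂ) * (z : ℂ) + (g 0 1 : ℂ)) / ((g 1 0 : ℂ) * (z : ℂ) + (g 1 1 : ℂ)) := by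
  rw [UpperHalfPlane.coe_specialLinearGroup_apply]
  simp

theorem ab2_mul (g k : SL(2, ℤ)) (z : ℍ) :
    ((g * k) 1 0 : ℂ) * (z : ℂ) + ((g * k) 1 1 : ℂ) =
      ((k 1 0 : ℂ) * (z : ℂ) + (k 1 1 : ℂ)) *
        ((g 1 0 : ℂ) * ((k • z : ℍ) : ℂ) + (g 1 1 : ℂ)) := by
  have h := ab2_ne k z
  rw [ab2_coe]
  have h1 : ((g * k) 1 0 : ℤ) = g 1 0 * k 0 0 + g 1 1 * k 1 0 := by
    simp [Matrix.SpecialLinearGroup.coe_mul, Matrix.mul_apply, Fin.sum_univ_two]
  have h2 : ((g * k) 1 1 : ℤ) = g 1 0 * k 0 1 + g 1 1 * k 1 1 := by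
    simp [Matrix.SpecialLinearGroup.coe_mul, Matrix.mul_apply, Fin.sum_univ_two]
  rw [h1, h2]
  push_cast
  field_simp
  ring

theorem jarg_mul (g k : SL(2, ℤ)) (z : ℍ) :
    ∃ m : ℤ, jarg k z + jarg g (k • z) = jarg (g * k) z + 2 * π * m := by
  have h := Complex.arg_mul_coe_angle (ab2_ne k z) (ab2_ne g (k • z))
  rw [← ab2_mul, ← Real.Angle.coe_add, Real.Angle.angle_eq_iff_two_pi_dvd_sub] at h
  obtain ⟨m, hm⟩ := h
  refine ⟨-m, ?_⟩
  unfold jarg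
  push_cast
  linarith

theorem IsFr.add_int {f : ℍ → ℝ → ℂ} (hf : IsFr f) (z : ℍ) (φ : ℝ) (m : ℤ) :
    f z (φ + π * m) = f z φ := by
  have h : Function.Periodic (f z) π := hf.per z
  have h1 := h.int_mul m φ
  rwa [mul_comm] at h1

theorem act_act {f : ℍ → ℝ → ℂ} (hf : IsFr f) (g k : SL(2, ℤ)) :
    act k (act g f) = act (g * k) f := by
  funext z φ
  unfold act
  obtain ⟨m, hm⟩ := jarg_mul g k z
  have h1 : φ + jarg k z + jarg g (k • z) = φ + jarg (g * k) z + π * ((2 * m : ℤ) : ℝ) := by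
    push_cast
    linarith
  rw [h1, hf.add_int, mul_smul]

theorem act_neg {f : ℍ → ℝ → ℂ} (hf : IsFr f) (g : SL(2, ℤ)) : act (-g) f = act g f := by
  funext z φ
  unfold act
  have h0 : (-g) • z = g • z := by
    apply UpperHalfPlane.ext
    rw [ab2_coe, ab2_coe]
    have h3 : ∀ i j, ((-g) i j : ℤ) = - g i j := fun i j => by simp
    rw [h3, h3, h3, h3]
    push_cast
    rw [show -(g 0 0 : ℂ) * (z : ℂ) + -(g 0 1 : ℂ) = -((g 0 0 : ℂ) * (z : ℂ) + (g 0 1 : ℂ)) by ring,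
      show -(g 1 0 : ℂ) * (z : ℂ) + -(g 1 1 : ℂ) = -((g 1 0 : ℂ) * (z : ℂ) + (g 1 1 : ℂ)) by ring,
      neg_div_neg_eq]
  have h1 : ∃ m : ℤ, jarg (-g) z = jarg g z + π * m := by
    have h := Complex.arg_neg_coe_angle (ab2_ne g z)
    rw [← Real.Angle.coe_add, Real.Angle.angle_eq_iff_two_pi_dvd_sub] at h
    obtain ⟨m, hm⟩ := h
    refine ⟨2 * m + 1, ?_⟩
    unfold jarg
    have h3 : ∀ i j, ((-g) i j : ℤ) = - g i j := fun i j => by simp
    rw [h3, h3]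
    push_cast
    rw [show -(g 1 0 : ℂ) * (z : ℂ) + -(g 1 1 : ℂ) = -((g 1 0 : ℂ) * (z : ℂ) + (g 1 1 : ℂ)) by ring]
    linarith
  obtain ⟨m, hm⟩ := h1
  rw [h0, hm, ← add_assoc, hf.add_int]

theorem act_one {f : ℍ → ℝ → ℂ} : act 1 f = f := by
  funext z φ
  unfold act jarg
  simp

theorem measurable_jarg (g : SL(2, ℤ)) : Measurable (jarg g) := by
  refine Complex.measurable_arg.comp ?_
  exact ((UpperHalfPlane.continuous_coe.const_mul _).add_const _).measurable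

theorem isFr_act {f : ℍ → ℝ → ℂ} (hf : IsFr f) (g : SL(2, ℤ)) : IsFr (act g f) := by
  refine ⟨?_, fun z φ => ?_⟩
  · have h1 : Measurable fun p : ℍ × ℝ => (g • p.1, p.2 + jarg g p.1) := by
      refine Measurable.prodMk ?_ ?_
      · have h2 : Continuous fun z : ℍ => g • z :=
          continuous_const_smul (g : GL (Fin 2) ℝ)
        exact h2.measurable.comp measurable_fst
      · exact measurable_snd.add ((measurable_jarg g).comp measurable_fst)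
    exact hf.meas.comp h1
  · unfold act
    rw [show φ + π + jarg g z = φ + jarg g z + π by ring, hf.per]

theorem isFr_mul {f k : ℍ → ℝ → ℂ} (hf : IsFr f) (hk : IsFr k) :
    IsFr (fun z φ => f z φ * (starRingEnd ℂ) (k z φ)) := by
  refine ⟨?_, fun z φ => ?_⟩
  · exact hf.meas.mul (Complex.continuous_conj.measurable.comp hk.meas)
  · simp only [hf.per, hk.per]

theorem act_mul_conj (g : SL(2, ℤ)) (f k : ℍ → ℝ → ℂ) :
    act g (fun z φ => f z φ * (starRingEnd ℂ) (k z φ)) =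
      fun z φ => act g f z φ * (starRingEnd ℂ) (act g k z φ) := rfl

theorem Equi.isFr {U : ℍ → ℝ → ℂ} (hU : Equi U) : IsFr U := ⟨hU.meas, hU.per⟩

theorem act_equi {U : ℍ → ℝ → ℂ} (hU : Equi U) {g : SL(2, ℤ)} (hg : g ∈ Gam) :
    act g U = fun z φ => chi g * U z φ := by
  funext z φ
  exact hU.eqv g hg z φ

end RV11
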