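import Pool.Agent.LibRV11.AB1
import Pool.Agent.LibRV11.AB2

open Complex Real MeasureTheory
open UpperHalfPlane hiding I
open scoped MatrixGroups

namespace RV11

/-- Elements of the theta group with `c = 0` act trivially on `qq`. -/
theorem act_qq_of_c_zero {h : ℝ → ℝ} (hh : IsBump h) (n : ℕ) {G : ℝ → ℝ} (hG : IsG0 G)
    {g : SL(2, ℤ)} (hg : g ∈ Gam) (hc : g 1 0 = 0) : act g (qq h n G) = qq h n G := by
  funext z φ
  have hdet : g 0 0 * g 1 1 - g 0 1 * g 1 0 = 1 := by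
    have := g.det_coe
    rwa [Matrix.det_fin_two] at this
  rw [hc, mul_zero, sub_zero] at hdet
  have hb : Even (g 0 1) := by
    have := hg.2
    rwa [hc, add_zero] at this
  obtain ⟨b, hb⟩ := hb
  have hcoe : ((g • z : ℍ) : ℂ) = ((g 0 0 : ℂ) * z + (g 0 1 : ℂ)) / (g 1 1 : ℂ) := by
    rw [UpperHalfPlane.coe_specialLinearGroup_apply]
    simp [hc]
  have hcases : (g 0 0 = 1 ∧ g 1 1 = 1) ∨ (g 0 0 = -1 ∧ g 1 1 = -1) :=
    Int.mul_eq_one_iff_eq_one_or_neg_one.mp hdet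
  rcases hcases with ⟨ha, hd⟩ | ⟨ha, hd⟩
  · have hj : jarg g z = 0 := by
      rw [jarg, hc, hd]
      simp
    rw [act, hj, add_zero]
    refine qq_of_eq h n G z (g • z) b ?_ φ
    rw [hcoe, ha, hd, hb]
    push_cast
    ring
  · have hj : jarg g z = π := by
      rw [jarg, hc, hd]
      simp
    rw [act, hj, (isFr_qq hh n hG).per]
    refine qq_of_eq h n G z (g • z) (-b) ?_ φ
    rw [hcoe, ha, hd, hb]
    push_cast
    ring

theorem norm_qq_sq {h : ℝ → ℝ} {n : ℕ} {G : ℝ → ℝ} (z : ℍ) (φ : ℝ) :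
    ‖qq h n G z φ‖ ^ 2 * W z =
      Gp G φ ^ 2 * h (n * z.im) ^ 2 * (z.im * Real.sqrt z.im * Real.exp (2 * π * n * z.im)) := by
  have hy : 0 < z.im := z.im_pos
  have hθ : ‖jacobiTheta (z : ℂ)‖ ≠ 0 := norm_ne_zero_iff.mpr (theta_ne_zero z)
  have hexp : ‖cexp (π * I * n * (starRingEnd ℂ (z : ℂ)))‖ = Real.exp (π * n * z.im) := by
    rw [Complex.norm_exp]
    congr 1
    have : (π * I * n * (starRingEnd ℂ (z : ℂ)) : ℂ) =
        ((π * n : ℝ) : ℂ) * (I * (starRingEnd ℂ (z : ℂ))) := by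
      push_cast; ring
    rw [this, Complex.re_ofReal_mul]
    simp [UpperHalfPlane.coe_im]
  have hs : Real.sqrt z.im ^ 2 = z.im := Real.sq_sqrt hy.le
  have he : Real.exp (π * n * z.im) ^ 2 = Real.exp (2 * π * n * z.im) := by
    rw [← Real.exp_nat_mul]
    congr 1
    push_cast
    ring
  rw [qq, norm_div, norm_mul, Complex.norm_real, hexp, W, div_pow, mul_pow, Real.norm_eq_abs,
    sq_abs, he, mul_pow, mul_pow, hs]
  field_simp

theorem norm_qq_le {h : ℝ → ℝ} (hh : IsBump h) {n : ℕ} (hn : 1 ≤ n) {G : ℝ → ℝ}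
    (hG : IsG0 G) (z : ℍ) (φ : ℝ) :
    ‖qq h n G z φ‖ * Real.sqrt (W z) ≤ 2 * Real.exp (2 * π) := by
  have hy : 0 < z.im := z.im_pos
  have hn1 : (1 : ℝ) ≤ n := by exact_mod_cast hn
  have hW : 0 ≤ W z := (W_pos z).le
  have key : (‖qq h n G z φ‖ * Real.sqrt (W z)) ^ 2 ≤ (2 * Real.exp (2 * π)) ^ 2 := by
    rw [mul_pow, Real.sq_sqrt hW, norm_qq_sq]
    have he : (2 * Real.exp (2 * π)) ^ 2 = 4 * Real.exp (4 * π) := by
      rw [mul_pow, ← Real.exp_nat_mul]
      congr 1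
      · norm_num
      · congr 1
        push_cast
        ring
    rw [he]
    have hGp : Gp G φ ^ 2 ≤ 1 := by
      have := abs_Gp_le hG φ
      rw [← sq_abs]
      exact pow_le_one₀ (abs_nonneg _) this
    rcases le_or_gt (n * z.im) 1 with h1 | h1
    · rw [hh.supp _ (Or.inl h1)]
      have : 0 ≤ 4 * Real.exp (4 * π) := by positivity
      simpa using this
    rcases le_or_gt 2 (n * z.im) with h2 | h2
    · rw [hh.supp _ (Or.inr h2)]
      have : 0 ≤ 4 * Real.exp (4 * π) := by positivity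
      simpa using this
    have hh1 : h (n * z.im) ^ 2 ≤ 1 :=
      pow_le_one₀ (hh.nonneg _) (hh.le_one _)
    have hy2 : z.im ≤ 2 := by nlinarith
    have hs2 : Real.sqrt z.im ≤ 2 := by
      rw [Real.sqrt_le_left (by norm_num)]
      linarith
    have hys : z.im * Real.sqrt z.im ≤ 4 := by
      have := mul_le_mul hy2 hs2 (Real.sqrt_nonneg _) (by norm_num)
      linarith
    have hee : Real.exp (2 * π * n * z.im) ≤ Real.exp (4 * π) := by
      apply Real.exp_le_exp.mpr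
      nlinarith [Real.pi_pos]
    calc Gp G φ ^ 2 * h (n * z.im) ^ 2 * (z.im * Real.sqrt z.im * Real.exp (2 * π * n * z.im))
        ≤ 1 * 1 * (4 * Real.exp (4 * π)) := by
          gcongr
      _ = 4 * Real.exp (4 * π) := by ring
  exact le_of_sq_le_sq key (by positivity)

theorem norm_act_q0_le {h : ℝ → ℝ} (hh : IsBump h) {n : ℕ} (hn : 1 ≤ n) {G : ℝ → ℝ}
    (hG : IsG0 G) {g : SL(2, ℤ)} (hg : g ∈ Gam) (z : ℍ) (φ : ℝ) :
    ‖act g (q0 h n G) z φ‖ * Real.sqrt (W z) ≤ 2 * Real.exp (2 * π) := by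
  rw [act, ← W_smul hg z]
  refine le_trans ?_ (norm_qq_le hh hn hG (g • z) (φ + jarg g z))
  refine mul_le_mul_of_nonneg_right ?_ (Real.sqrt_nonneg _)
  rw [q0, norm_mul, Complex.norm_real]
  refine mul_le_of_le_one_left (norm_nonneg _) ?_
  unfold ind
  split_ifs <;> simp

end RV11
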