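import Pool.Agent.LibRV11.AB2
import Pool.Agent.LibRV11.AB4

open Complex Real MeasureTheory
open UpperHalfPlane hiding I
open scoped MatrixGroups

namespace RV11

/-- the product measure on the frame bundle over the standard domain -/
private noncomputable def ab8_mu : Measure (ℍ × ℝ) :=
  ((volume : Measure ℍ).restrict DD).prod ((volume : Measure ℝ).restrict (Set.Ioc (0 : ℝ) π))

private instance : SFinite ab8_mu := by unfold ab8_mu; infer_instance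

private theorem ab8_W_nonneg (z : ℍ) : 0 ≤ W z := by
  unfold W
  positivity

private theorem ab8_measW : Measurable fun p : ℍ × ℝ => W p.1 := measurable_W.comp measurable_fst

private theorem ab8_meas {Q : ℍ → ℝ → ℂ} (hQ : IsFr Q) : Measurable fun p : ℍ × ℝ => Q p.1 p.2 :=
  hQ.meas

private theorem ab8_nrm {Q : ℍ → ℝ → ℂ} (hQ : IsFr Q) :
    nrm Q = ∫⁻ p, ‖Q p.1 p.2‖ₑ ^ 2 * ENNReal.ofReal (W p.1) ∂ab8_mu := by
  unfold nrm ab8_mu
  rw [lintegral_prod]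
  exact (((ab8_meas hQ).enorm.pow_const 2).mul ab8_measW.ennreal_ofReal).aemeasurable

/-- square root of the weight -/
private noncomputable def ab8_s (z : ℍ) : ENNReal := ENNReal.ofReal (Real.sqrt (W z))

private theorem ab8_s_sq (z : ℍ) : ab8_s z ^ 2 = ENNReal.ofReal (W z) := by
  unfold ab8_s
  rw [← ENNReal.ofReal_pow (Real.sqrt_nonneg _), Real.sq_sqrt (ab8_W_nonneg z)]

private theorem ab8_iD_le (F : ℍ → ℝ → ℂ) :
    ‖iD F‖ₑ ≤ ∫⁻ z in DD, ∫⁻ φ in Set.Ioc (0 : ℝ) π, ‖F z φ‖ₑ * ENNReal.ofReal (W z) := by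
  unfold iD
  refine le_trans (enorm_integral_le_lintegral_enorm _) (lintegral_mono fun z => ?_)
  rw [enorm_mul, intervalIntegral.integral_of_le Real.pi_pos.le]
  have h1 : ‖((W z : ℝ) : ℂ)‖ₑ = ENNReal.ofReal (W z) := by
    rw [← ofReal_norm, Complex.norm_real, Real.norm_of_nonneg (ab8_W_nonneg z)]
  rw [h1]
  refine le_trans (mul_le_mul_left (enorm_integral_le_lintegral_enorm _) _) ?_
  rw [lintegral_mul_const' _ _ ENNReal.ofReal_ne_top]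

private theorem ab8_holder {U Q : ℍ → ℝ → ℂ} (hU : IsFr U) (hQ : IsFr Q) :
    (∫⁻ z in DD, ∫⁻ φ in Set.Ioc (0 : ℝ) π,
      ‖U z φ * (starRingEnd ℂ) (Q z φ)‖ₑ * ENNReal.ofReal (W z)) ^ 2 ≤ nrm U * nrm Q := by
  have h1 : ∫⁻ z in DD, ∫⁻ φ in Set.Ioc (0 : ℝ) π,
      ‖U z φ * (starRingEnd ℂ) (Q z φ)‖ₑ * ENNReal.ofReal (W z) =
      ∫⁻ p, ((fun p : ℍ × ℝ => ‖U p.1 p.2‖ₑ * ab8_s p.1) *
        (fun p : ℍ × ℝ => ‖Q p.1 p.2‖ₑ * ab8_s p.1)) p ∂ab8_mu := by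
    unfold ab8_mu
    rw [lintegral_prod]
    · refine lintegral_congr fun z => lintegral_congr fun φ => ?_
      rw [Pi.mul_apply, enorm_mul]
      have h2 : ‖(starRingEnd ℂ) (Q z φ)‖ₑ = ‖Q z φ‖ₑ := by
        rw [← ofReal_norm, ← ofReal_norm, Complex.norm_conj]
      rw [h2]
      simp only
      rw [← ab8_s_sq z]
      ring
    · have hs : Measurable fun p : ℍ × ℝ => ab8_s p.1 :=
        (ab8_measW.sqrt).ennreal_ofReal
      exact (((ab8_meas hU).enorm.mul hs).mul ((ab8_meas hQ).enorm.mul hs)).aemeasurable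
  have hs : Measurable fun p : ℍ × ℝ => ab8_s p.1 :=
    (ab8_measW.sqrt).ennreal_ofReal
  have h3 := ENNReal.lintegral_mul_le_Lp_mul_Lq ab8_mu Real.HolderConjugate.two_two
    (((ab8_meas hU).enorm.mul hs).aemeasurable) (((ab8_meas hQ).enorm.mul hs).aemeasurable)
  have h4 : ∀ {Q : ℍ → ℝ → ℂ}, IsFr Q →
      ∫⁻ p : ℍ × ℝ, (‖Q p.1 p.2‖ₑ * ab8_s p.1) ^ (2 : ℝ) ∂ab8_mu = nrm Q := by
    intro Q hQ
    rw [ab8_nrm hQ]
    refine lintegral_congr fun p => ?_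
    rw [ENNReal.rpow_two, mul_pow, ab8_s_sq]
  have h5 : (nrm U ^ (1 / 2 : ℝ) * nrm Q ^ (1 / 2 : ℝ)) ^ 2 = nrm U * nrm Q := by
    rw [mul_pow, ← ENNReal.rpow_two, ← ENNReal.rpow_two, ← ENNReal.rpow_mul, ← ENNReal.rpow_mul]
    norm_num
  rw [h1, ← h5]
  refine pow_le_pow_left' ?_ 2
  refine le_trans h3 (le_of_eq ?_)
  rw [← h4 hU, ← h4 hQ]
  rfl

theorem nrm_eq {Q : ℍ → ℝ → ℂ} (hQ : IsFr Q) (hfin : nrm Q ≠ ⊤) :
    iD (fun z φ => Q z φ * (starRingEnd ℂ) (Q z φ)) = ((nrm Q).toReal : ℂ) := by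
  have hn := ab8_nrm hQ
  have hm : Measurable fun p : ℍ × ℝ => ‖Q p.1 p.2‖ ^ 2 * W p.1 :=
    ((ab8_meas hQ).norm.pow_const 2).mul ab8_measW
  have hpos : ∀ p : ℍ × ℝ, 0 ≤ ‖Q p.1 p.2‖ ^ 2 * W p.1 := fun p =>
    mul_nonneg (sq_nonneg _) (ab8_W_nonneg _)
  have h1 : ∀ p : ℍ × ℝ, ‖Q p.1 p.2‖ₑ ^ 2 * ENNReal.ofReal (W p.1) =
      ENNReal.ofReal (‖Q p.1 p.2‖ ^ 2 * W p.1) := by
    intro p
    rw [ENNReal.ofReal_mul (sq_nonneg _), ENNReal.ofReal_pow (norm_nonneg _), ofReal_norm]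
  simp_rw [h1] at hn
  have hint : Integrable (fun p : ℍ × ℝ => ‖Q p.1 p.2‖ ^ 2 * W p.1) ab8_mu := by
    refine ⟨hm.aestronglyMeasurable, ?_⟩
    rw [hasFiniteIntegral_iff_ofReal (Filter.Eventually.of_forall hpos), ← hn]
    exact lt_top_iff_ne_top.2 hfin
  have h2 : (nrm Q).toReal = ∫ p, ‖Q p.1 p.2‖ ^ 2 * W p.1 ∂ab8_mu := by
    rw [hn, integral_eq_lintegral_of_nonneg_ae (Filter.Eventually.of_forall hpos)
      hm.aestronglyMeasurable]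
  have h3 : ∫ p, ‖Q p.1 p.2‖ ^ 2 * W p.1 ∂ab8_mu =
      ∫ z in DD, ∫ φ in Set.Ioc (0 : ℝ) π, ‖Q z φ‖ ^ 2 * W z := by
    unfold ab8_mu
    exact integral_prod _ hint
  rw [h2, h3, ← integral_complex_ofReal]
  unfold iD
  refine integral_congr_ae (Filter.Eventually.of_forall fun z => ?_)
  simp only
  rw [intervalIntegral.integral_of_le Real.pi_pos.le, ← integral_complex_ofReal,
    ← integral_mul_const]
  refine integral_congr_ae (Filter.Eventually.of_forall fun φ => ?_)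
  simp only
  rw [Complex.mul_conj, Complex.normSq_eq_norm_sq]
  push_cast
  ring

theorem cs_frame {ι : Type} (T : Finset ι) (Q : ι → ℍ → ℝ → ℂ) (hQ : ∀ k ∈ T, IsFr (Q k))
    {U : ℍ → ℝ → ℂ} (hU : IsFr U) (B : ℝ) (hB : 0 ≤ B) (hUB : nrm U ≤ ENNReal.ofReal (B ^ 2))
    (hQ' : ∀ k ∈ T, nrm (Q k) ≠ ⊤) :
    ‖∑ k ∈ T, iD (fun z φ => U z φ * (starRingEnd ℂ) (Q k z φ))‖ ^ 2 ≤
      T.card * B ^ 2 * ‖∑ k ∈ T, iD (fun z φ => Q k z φ * (starRingEnd ℂ) (Q k z φ))‖ := by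
  have h1 : ∀ k ∈ T, ‖iD (fun z φ => U z φ * (starRingEnd ℂ) (Q k z φ))‖ ^ 2 ≤
      B ^ 2 * (nrm (Q k)).toReal := by
    intro k hk
    have h2 : ‖iD (fun z φ => U z φ * (starRingEnd ℂ) (Q k z φ))‖ₑ ^ 2 ≤
        ENNReal.ofReal (B ^ 2) * nrm (Q k) := by
      refine le_trans (pow_le_pow_left' (ab8_iD_le _) 2) ?_
      refine le_trans (ab8_holder hU (hQ k hk)) ?_
      exact mul_le_mul_left hUB _
    have h3 := ENNReal.toReal_mono (ENNReal.mul_ne_top ENNReal.ofReal_ne_top (hQ' k hk)) h2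
    rw [ENNReal.toReal_pow, toReal_enorm, ENNReal.toReal_mul,
      ENNReal.toReal_ofReal (sq_nonneg B)] at h3
    exact h3
  have h4 : ‖∑ k ∈ T, iD (fun z φ => Q k z φ * (starRingEnd ℂ) (Q k z φ))‖ =
      ∑ k ∈ T, (nrm (Q k)).toReal := by
    have h5 : ∑ k ∈ T, iD (fun z φ => Q k z φ * (starRingEnd ℂ) (Q k z φ)) =
        ((∑ k ∈ T, (nrm (Q k)).toReal : ℝ) : ℂ) := by
      rw [Complex.ofReal_sum]
      exact Finset.sum_congr rfl fun k hk => nrm_eq (hQ k hk) (hQ' k hk)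
    rw [h5, Complex.norm_real, Real.norm_of_nonneg]
    exact Finset.sum_nonneg fun k _ => ENNReal.toReal_nonneg
  rw [h4]
  calc ‖∑ k ∈ T, iD (fun z φ => U z φ * (starRingEnd ℂ) (Q k z φ))‖ ^ 2
      ≤ (∑ k ∈ T, ‖iD (fun z φ => U z φ * (starRingEnd ℂ) (Q k z φ))‖) ^ 2 :=
        pow_le_pow_left₀ (norm_nonneg _) (norm_sum_le _ _) 2
    _ ≤ T.card * ∑ k ∈ T, ‖iD (fun z φ => U z φ * (starRingEnd ℂ) (Q k z φ))‖ ^ 2 :=
        sq_sum_le_card_mul_sum_sq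
    _ ≤ T.card * ∑ k ∈ T, B ^ 2 * (nrm (Q k)).toReal :=
        mul_le_mul_of_nonneg_left (Finset.sum_le_sum h1) (Nat.cast_nonneg _)
    _ = T.card * B ^ 2 * ∑ k ∈ T, (nrm (Q k)).toReal := by
        rw [← Finset.mul_sum]
        ring

end RV11
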