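import Pool.Agent.LibRV11.Defs

open Complex Real MeasureTheory
open UpperHalfPlane hiding I
open scoped MatrixGroups

namespace RV11

/-- Separation sign for the frame `(z, ∞)`. -/
noncomputable def sep (g : SL(2, ℤ)) (z : ℍ) : ℝ :=
  ind (-1 < (g • z).re) - ind (-1 < (g 0 0 : ℝ) / (g 1 0 : ℝ))

/-- `(x - ξ₁)(x - ξ₂) + y²` with `ξ₁ = -d/c`, `ξ₂ = -(b+d)/(a+c)`. -/
noncomputable def qf (g : SL(2, ℤ)) (x y : ℝ) : ℝ :=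
  (x + (g 1 1 : ℝ) / (g 1 0 : ℝ)) *
    (x + ((g 0 1 : ℝ) + (g 1 1 : ℝ)) / ((g 0 0 : ℝ) + (g 1 0 : ℝ))) + y ^ 2

/-- `sep` in terms of `qf`. -/
noncomputable def sepq (g : SL(2, ℤ)) (x y : ℝ) : ℝ :=
  if 0 < (g 1 0 : ℝ) * ((g 0 0 : ℝ) + (g 1 0 : ℝ)) then -ind (qf g x y ≤ 0) else ind (qf g x y < 0)

/-- The contribution of one wall to the integral of `ThA`. -/
noncomputable def TA (h : ℝ → ℝ) (n : ℕ) (r : ℝ) (J : ℕ) (g : SL(2, ℤ)) (z : ℍ) : ℂ :=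
  chi g * ((sep g z * eta (2 ^ (J + 1) * (z.im * |(g 1 0 : ℝ)| *
        |(g 0 0 + g 1 0 : ℝ)|)) : ℝ) : ℂ) * phh r (g • z) *
    ((h (n * z.im) * z.im : ℝ) * jacobiTheta (z : ℂ) * cexp (-(π * I * n * (z : ℂ))))

end RV11
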