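import Pool.Agent.LibRV11.Defs
import Pool.Agent.LibRV11.TH0
open Complex Real MeasureTheory
open UpperHalfPlane hiding I
open scoped MatrixGroups

namespace RV11

private theorem th1_det (g : SL(2, ℤ)) : g 0 0 * g 1 1 - g 0 1 * g 1 0 = 1 := by
  have := g.det_coe
  rw [Matrix.det_fin_two] at this
  exact this

private theorem th1_odd (g : SL(2, ℤ)) : ¬ Even (g 0 0 * g 1 1 - g 0 1 * g 1 0) := by
  rw [th1_det]; decide

private theorem th1_cases {g : SL(2, ℤ)} (hg : g ∈ Gam) :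
    (¬ Even (g 0 0) ∧ ¬ Even (g 1 1) ∧ Even (g 0 1) ∧ Even (g 1 0)) ∨
    (Even (g 0 0) ∧ Even (g 1 1) ∧ ¬ Even (g 0 1) ∧ ¬ Even (g 1 0)) := by
  obtain ⟨h1, h2⟩ : Even (g 0 0 + g 1 1) ∧ Even (g 0 1 + g 1 0) := hg
  have h3 := th1_odd g
  rw [Int.even_add] at h1 h2
  rw [Int.even_sub, Int.even_mul, Int.even_mul] at h3
  tauto

theorem odd_row {g : SL(2, ℤ)} (hg : g ∈ Gam) : Odd (g 1 0 + g 1 1) := by
  rw [← Int.not_even_iff_odd, Int.even_add]
  have := th1_cases hg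
  tauto

theorem odd_col {g : SL(2, ℤ)} (hg : g ∈ Gam) : Odd (g 0 0 + g 1 0) := by
  rw [← Int.not_even_iff_odd, Int.even_add]
  have := th1_cases hg
  tauto

theorem odd_col' {g : SL(2, ℤ)} (hg : g ∈ Gam) : Odd (g 0 1 + g 1 1) := by
  rw [← Int.not_even_iff_odd, Int.even_add]
  have := th1_cases hg
  tauto

theorem even_cd {g : SL(2, ℤ)} (hg : g ∈ Gam) : Even (g 1 0 * g 1 1) := by
  rw [Int.even_mul]
  have := th1_cases hg
  tauto

theorem even_ab {g : SL(2, ℤ)} (hg : g ∈ Gam) : Even (g 0 0 * g 0 1) := by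
  rw [Int.even_mul]
  have := th1_cases hg
  tauto

theorem mem_Gam_iff (g : SL(2, ℤ)) :
    g ∈ Gam ↔ Even (g 0 0 * g 0 1) ∧ Even (g 1 0 * g 1 1) := by
  refine ⟨fun hg => ⟨even_ab hg, even_cd hg⟩, fun h => ?_⟩
  obtain ⟨h1, h2⟩ := h
  have h3 := th1_odd g
  rw [Int.even_mul] at h1 h2
  rw [Int.even_sub, Int.even_mul, Int.even_mul] at h3
  change Even (g 0 0 + g 1 1) ∧ Even (g 0 1 + g 1 0)
  rw [Int.even_add, Int.even_add]
  tauto

private theorem th1_chi_even {g : SL(2, ℤ)} (h : Even (g 1 0)) : chi g = 1 := if_pos h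

private theorem th1_chi_odd {g : SL(2, ℤ)} (h : ¬ Even (g 1 0)) : chi g = -1 := if_neg h

theorem chi_mul {g k : SL(2, ℤ)} (hg : g ∈ Gam) (hk : k ∈ Gam) : chi (g * k) = chi g * chi k := by
  have e : (g * k) 1 0 = g 1 0 * k 0 0 + g 1 1 * k 1 0 := by
    simp [Matrix.SpecialLinearGroup.coe_mul, Matrix.mul_apply, Fin.sum_univ_two]
  have h : Even ((g * k) 1 0) ↔ (Even (g 1 0) ↔ Even (k 1 0)) := by
    rw [e, Int.even_add, Int.even_mul, Int.even_mul]
    have h1 := th1_cases hg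
    have h2 := th1_cases hk
    tauto
  by_cases h1 : Even (g 1 0) <;> by_cases h2 : Even (k 1 0)
  · rw [th1_chi_even h1, th1_chi_even h2, th1_chi_even (h.2 (by tauto))]; norm_num
  · rw [th1_chi_even h1, th1_chi_odd h2, th1_chi_odd (fun h3 => by have := h.1 h3; tauto)]; norm_num
  · rw [th1_chi_odd h1, th1_chi_even h2, th1_chi_odd (fun h3 => by have := h.1 h3; tauto)]; norm_num
  · rw [th1_chi_odd h1, th1_chi_odd h2, th1_chi_even (h.2 (by tauto))]; norm_num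

theorem chi_neg (g : SL(2, ℤ)) : chi (-g) = chi g := by
  have e : (-g) 1 0 = -(g 1 0) := by simp
  by_cases h : Even (g 1 0)
  · rw [th1_chi_even h, th1_chi_even (by rw [e, even_neg]; exact h)]
  · rw [th1_chi_odd h, th1_chi_odd (by rw [e, even_neg]; exact h)]

theorem chi_mul_self (g : SL(2, ℤ)) : chi g * chi g = 1 := by
  unfold chi
  split_ifs <;> norm_num

theorem norm_chi (g : SL(2, ℤ)) : ‖chi g‖ = 1 := by
  unfold chi
  split_ifs <;> simp

end RV11
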