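import Pool.Agent.LibRV11.AI0
import Pool.Agent.LibRV11.TH1

open Complex Real MeasureTheory
open UpperHalfPlane hiding I
open scoped MatrixGroups

namespace RV11

theorem AI1a_re (g : SL(2, ℤ)) (z : ℍ) :
    (g • z).re * ‖(g 1 0 : ℂ) * (z : ℂ) + (g 1 1 : ℂ)‖ ^ 2 =
      ((g 0 0 : ℝ) * z.re + g 0 1) * ((g 1 0 : ℝ) * z.re + g 1 1) +
        (g 0 0 : ℝ) * z.im * ((g 1 0 : ℝ) * z.im) := by
  have hne : (g 1 0 : ℂ) * (z : ℂ) + (g 1 1 : ℂ) ≠ 0 := by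
    have := UpperHalfPlane.denom_ne_zero g z
    rwa [ModularGroup.denom_apply] at this
  have h1 : ((g • z : ℍ) : ℂ) * ((g 1 0 : ℂ) * (z : ℂ) + (g 1 1 : ℂ)) =
      (g 0 0 : ℂ) * (z : ℂ) + (g 0 1 : ℂ) := by
    rw [UpperHalfPlane.coe_specialLinearGroup_apply]
    simp only [algebraMap_int_eq, eq_intCast, Complex.ofReal_intCast]
    exact div_mul_cancel₀ _ hne
  have h2 : ((g • z : ℍ) : ℂ) * ((Complex.normSq ((g 1 0 : ℂ) * (z : ℂ) + (g 1 1 : ℂ)) : ℝ) : ℂ) =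
      ((g 0 0 : ℂ) * (z : ℂ) + (g 0 1 : ℂ)) *
        (starRingEnd ℂ) ((g 1 0 : ℂ) * (z : ℂ) + (g 1 1 : ℂ)) := by
    rw [← h1, Complex.normSq_eq_conj_mul_self]
    ring
  have h3 := congrArg Complex.re h2
  rw [Complex.re_mul_ofReal] at h3
  rw [Complex.sq_norm]
  have h4 : ((g • z : ℍ) : ℂ).re = (g • z).re := rfl
  rw [h4] at h3
  rw [h3]
  simp only [Complex.mul_re, Complex.add_re, Complex.add_im, Complex.mul_im, Complex.conj_re,
    Complex.conj_im, Complex.intCast_re, Complex.intCast_im, UpperHalfPlane.coe_re,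
    UpperHalfPlane.coe_im]
  ring

/-- `(Re gz + 1)|cz+d|² = c(a+c) qf(x,y)` (also from `re_smul_add_one` at `φ = 0`). -/
theorem re_smul_add_one_qf {g : SL(2, ℤ)} (hc : g 1 0 ≠ 0) (hac : g 0 0 + g 1 0 ≠ 0) (z : ℍ) :
    ((g • z).re + 1) * ‖(g 1 0 : ℂ) * (z : ℂ) + (g 1 1 : ℂ)‖ ^ 2 =
      (g 1 0 : ℝ) * ((g 0 0 : ℝ) + (g 1 0 : ℝ)) * qf g z.re z.im := by
  have hc' : (g 1 0 : ℝ) ≠ 0 := by exact_mod_cast hc
  have hac' : (g 0 0 : ℝ) + (g 1 0 : ℝ) ≠ 0 := by exact_mod_cast hac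
  have h1 := AI1a_re g z
  have h2 : ‖(g 1 0 : ℂ) * (z : ℂ) + (g 1 1 : ℂ)‖ ^ 2 =
      ((g 1 0 : ℝ) * z.re + g 1 1) ^ 2 + ((g 1 0 : ℝ) * z.im) ^ 2 := by
    rw [Complex.sq_norm, Complex.normSq_apply]
    simp only [Complex.mul_re, Complex.add_re, Complex.add_im, Complex.mul_im,
      Complex.intCast_re, Complex.intCast_im, UpperHalfPlane.coe_re, UpperHalfPlane.coe_im]
    ring
  rw [add_mul, h1, one_mul, h2]
  unfold qf
  field_simp
  ring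

theorem sep_eq_sepq {g : SL(2, ℤ)} (hc : g 1 0 ≠ 0) (hac : g 0 0 + g 1 0 ≠ 0) (z : ℍ) :
    sep g z = sepq g z.re z.im := by
  have hc' : (g 1 0 : ℝ) ≠ 0 := by exact_mod_cast hc
  have hac' : (g 0 0 : ℝ) + (g 1 0 : ℝ) ≠ 0 := by exact_mod_cast hac
  have hne : (g 1 0 : ℂ) * (z : ℂ) + (g 1 1 : ℂ) ≠ 0 := by
    have := UpperHalfPlane.denom_ne_zero g z
    rwa [ModularGroup.denom_apply] at this
  have hpos : 0 < ‖(g 1 0 : ℂ) * (z : ℂ) + (g 1 1 : ℂ)‖ ^ 2 := by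
    have := norm_pos_iff.mpr hne
    positivity
  have h1 := re_smul_add_one_qf hc hac z
  have hiff : -1 < (g • z).re ↔
      0 < (g 1 0 : ℝ) * ((g 0 0 : ℝ) + (g 1 0 : ℝ)) * qf g z.re z.im := by
    rw [← h1]
    constructor
    · intro h
      exact mul_pos (by linarith) hpos
    · intro h
      have := (mul_pos_iff_of_pos_right hpos).mp h
      linarith
  have hiff2 : -1 < (g 0 0 : ℝ) / (g 1 0 : ℝ) ↔
      0 < (g 1 0 : ℝ) * ((g 0 0 : ℝ) + (g 1 0 : ℝ)) := by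
    have e1 : (g 1 0 : ℝ) * ((g 0 0 : ℝ) + (g 1 0 : ℝ)) =
        ((g 0 0 : ℝ) / (g 1 0 : ℝ) + 1) * (g 1 0 : ℝ) ^ 2 := by
      field_simp
    rw [e1]
    have hc2 : 0 < (g 1 0 : ℝ) ^ 2 := by positivity
    constructor
    · intro h
      exact mul_pos (by linarith) hc2
    · intro h
      have := (mul_pos_iff_of_pos_right hc2).mp h
      linarith
  unfold sep sepq
  set q := qf g z.re z.im
  by_cases h : 0 < (g 1 0 : ℝ) * ((g 0 0 : ℝ) + (g 1 0 : ℝ))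
  · rw [if_pos h]
    unfold ind
    rw [if_pos (hiff2.mpr h)]
    by_cases hq : q ≤ 0
    · rw [if_pos hq, if_neg]
      · ring
      · rw [hiff]
        push Not
        exact mul_nonpos_of_nonneg_of_nonpos h.le hq
    · rw [if_neg hq, if_pos]
      · ring
      · rw [hiff]
        push Not at hq
        exact mul_pos h hq
  · rw [if_neg h]
    unfold ind
    rw [if_neg (fun h' => h (hiff2.mp h'))]
    have hlt : (g 1 0 : ℝ) * ((g 0 0 : ℝ) + (g 1 0 : ℝ)) < 0 :=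
      lt_of_le_of_ne (not_lt.mp h) (mul_ne_zero hc' hac')
    by_cases hq : q < 0
    · rw [if_pos hq, if_pos (hiff.mpr (mul_pos_of_neg_of_neg hlt hq))]
      ring
    · rw [if_neg hq, if_neg]
      · ring
      · rw [hiff]
        push Not at hq ⊢
        exact mul_nonpos_of_nonpos_of_nonneg hlt.le hq

/-- With `u = x - ξ₁`, `v = x - ξ₂`: `u v ≤ -y² < 0`, `|u| + |v| = |ξ₁ - ξ₂| = 1/|c(a+c)|`. -/
theorem qf_bounds {g : SL(2, ℤ)} (hc : g 1 0 ≠ 0) (hac : g 0 0 + g 1 0 ≠ 0) {x y : ℝ} (hy : 0 < y)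
    (h : qf g x y ≤ 0) :
    y * |(g 1 0 : ℝ)| * |(g 0 0 : ℝ) + (g 1 0 : ℝ)| ≤ 1 / 2 ∧
      |x + (g 1 1 : ℝ) / (g 1 0 : ℝ)| ≤ 1 / (|(g 1 0 : ℝ)| * |(g 0 0 : ℝ) + (g 1 0 : ℝ)|) ∧
      |x + (g 1 1 : ℝ) / (g 1 0 : ℝ)| ≤ 1 := by
  have hc' : (g 1 0 : ℝ) ≠ 0 := by exact_mod_cast hc
  have hac' : (g 0 0 : ℝ) + (g 1 0 : ℝ) ≠ 0 := by exact_mod_cast hac
  have hdet : (g 0 0 : ℝ) * g 1 1 - g 0 1 * g 1 0 = 1 := by
    have := Matrix.det_fin_two g.1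
    rw [g.2] at this
    exact_mod_cast this.symm
  have hc1 : (1 : ℝ) ≤ |(g 1 0 : ℝ)| := by
    have := Int.one_le_abs hc
    exact_mod_cast this
  have hac1 : (1 : ℝ) ≤ |(g 0 0 : ℝ) + (g 1 0 : ℝ)| := by
    have := Int.one_le_abs hac
    exact_mod_cast this
  set M : ℝ := |(g 1 0 : ℝ)| * |(g 0 0 : ℝ) + (g 1 0 : ℝ)| with hM
  have hM1 : 1 ≤ M := by
    rw [hM]
    nlinarith
  set u : ℝ := x + (g 1 1 : ℝ) / (g 1 0 : ℝ) with hu
  set v : ℝ := x + ((g 0 1 : ℝ) + (g 1 1 : ℝ)) / ((g 0 0 : ℝ) + (g 1 0 : ℝ)) with hv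
  have huv : u * v + y ^ 2 ≤ 0 := h
  have hdiff : |u - v| = 1 / M := by
    have e1 : u - v = 1 / ((g 1 0 : ℝ) * ((g 0 0 : ℝ) + (g 1 0 : ℝ))) := by
      rw [hu, hv]
      field_simp
      linear_combination hdet
    rw [e1, abs_div, abs_one, abs_mul]
  have hneg : u * v ≤ - y ^ 2 := by linarith
  have hneg' : u * v < 0 := by nlinarith
  have hsum : |u| + |v| = 1 / M := by
    rw [← hdiff]
    rcases lt_or_ge u 0 with h0 | h0
    · have hv0 : 0 < v := by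
        by_contra hcon
        push Not at hcon
        have := mul_nonneg_of_nonpos_of_nonpos h0.le hcon
        linarith
      rw [abs_of_neg h0, abs_of_pos hv0, abs_of_neg (by linarith)]
      ring
    · have hv0 : v < 0 := by
        by_contra hcon
        push Not at hcon
        have := mul_nonneg h0 hcon
        linarith
      rw [abs_of_nonneg h0, abs_of_neg hv0, abs_of_nonneg (by linarith)]
      ring
  have hu1 : |u| ≤ 1 / M := by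
    have := abs_nonneg v
    linarith
  have hMle : 1 / M ≤ 1 := by
    rw [div_le_one (by linarith)]
    exact hM1
  refine ⟨?_, hu1, hu1.trans hMle⟩
  have hy2 : y ^ 2 ≤ |u| * |v| := by
    rw [← abs_mul, abs_of_neg hneg']
    linarith
  have hy3 : (2 * y) ^ 2 ≤ (1 / M) ^ 2 := by
    rw [← hsum]
    nlinarith [sq_nonneg (|u| - |v|)]
  have hMpos : 0 < M := by linarith
  have hy4 : 2 * y ≤ 1 / M := by
    refine le_of_sq_le_sq hy3 ?_ |> id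
    positivity
  rw [le_div_iff₀ hMpos] at hy4
  rw [mul_assoc, ← hM]
  linarith

theorem sepq_bounds {g : SL(2, ℤ)} (hc : g 1 0 ≠ 0) (hac : g 0 0 + g 1 0 ≠ 0) {x y : ℝ}
    (hy : 0 < y) (h : sepq g x y ≠ 0) :
    y * |(g 1 0 : ℝ)| * |(g 0 0 : ℝ) + (g 1 0 : ℝ)| ≤ 1 / 2 ∧
      |x + (g 1 1 : ℝ) / (g 1 0 : ℝ)| ≤ 1 := by
  have h1 : qf g x y ≤ 0 := by
    by_contra hn
    apply h
    have e1 : ind (qf g x y ≤ 0) = 0 := if_neg hn
    have e2 : ind (qf g x y < 0) = 0 := if_neg (fun h' => hn h'.le)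
    unfold sepq
    rw [e1, e2]
    simp
  obtain ⟨a, _, c⟩ := qf_bounds hc hac hy h1
  exact ⟨a, c⟩

end RV11
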