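import Pool.Agent.LibRV11.AI1a

open Complex Real MeasureTheory
open UpperHalfPlane hiding I
open scoped MatrixGroups

namespace RV11

theorem AI1b_set {S : Set ℝ} {p q : ℝ} (hS : S =ᵐ[volume] Set.Ioc p q) (hSm : MeasurableSet S)
    (f : ℝ → ℂ) :
    ∫ x in (-1 : ℝ)..1, S.indicator f x = ∫ x in Set.Ioc (max (-1) p) (min 1 q), f x := by
  rw [intervalIntegral.integral_of_le (by norm_num), setIntegral_indicator hSm]
  apply setIntegral_congr_set
  have : (Set.Ioc (-1 : ℝ) 1 ∩ S : Set ℝ) =ᵐ[volume] (Set.Ioc (-1 : ℝ) 1 ∩ Set.Ioc p q : Set ℝ) :=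
    Filter.EventuallyEq.rfl.inter hS
  rw [Set.Ioc_inter_Ioc] at this
  exact this

theorem AI1b_core {c d : ℝ} {S : Set ℝ} {p q σ : ℝ} (hσ : |σ| ≤ 1)
    (hS : S =ᵐ[volume] Set.Ioc p q)
    (hSm : MeasurableSet S) (hb : ∀ x, p ≤ x → x ≤ q → |x + d / c| ≤ 1) (F : ℝ → ℝ)
    (hF : ∀ x, F x = S.indicator (fun _ => σ) x) :
    ∃ σ x1 x2 : ℝ, |σ| ≤ 1 ∧ x1 ≤ x2 ∧
      (x1 = x2 ∨ (|x1 + d / c| ≤ 1 ∧ |x2 + d / c| ≤ 1)) ∧
      ∀ f : ℝ → ℂ, ∫ x in (-1 : ℝ)..1, (F x : ℂ) * f x = σ * ∫ x in x1..x2, f x := by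
  have key : ∀ f : ℝ → ℂ, ∫ x in (-1 : ℝ)..1, (F x : ℂ) * f x =
      σ * ∫ x in Set.Ioc (max (-1) p) (min 1 q), f x := by
    intro f
    rw [← AI1b_set hS hSm f, ← intervalIntegral.integral_const_mul]
    congr 1
    funext x
    rw [hF x]
    by_cases hx : x ∈ S
    · simp [hx]
    · simp [hx]
  rcases le_total (max (-1) p) (min 1 q) with h | h
  · refine ⟨σ, max (-1) p, min 1 q, hσ, h, Or.inr ⟨?_, ?_⟩, ?_⟩
    · exact hb _ (le_max_right _ _) (h.trans (min_le_right _ _))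
    · exact hb _ ((le_max_right _ _).trans h) (min_le_right _ _)
    · intro f
      rw [key f, intervalIntegral.integral_of_le h]
  · refine ⟨σ, 0, 0, hσ, le_rfl, Or.inl rfl, ?_⟩
    intro f
    rw [key f, Set.Ioc_eq_empty (not_lt.mpr h)]
    simp

/-- For fixed `y` the separated `x ∈ (-1,1)` form an interval. -/
theorem sepq_interval {g : SL(2, ℤ)} (hc : g 1 0 ≠ 0) (hac : g 0 0 + g 1 0 ≠ 0) {y : ℝ}
    (hy : 0 < y) : ∃ σ x1 x2 : ℝ, |σ| ≤ 1 ∧ x1 ≤ x2 ∧
      (x1 = x2 ∨ (|x1 + (g 1 1 : ℝ) / (g 1 0 : ℝ)| ≤ 1 ∧ |x2 + (g 1 1 : ℝ) / (g 1 0 : ℝ)| ≤ 1)) ∧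
      ∀ f : ℝ → ℂ, ∫ x in (-1 : ℝ)..1, (sepq g x y : ℂ) * f x = σ * ∫ x in x1..x2, f x := by
  set u : ℝ := (g 1 1 : ℝ) / (g 1 0 : ℝ) with hu
  set v : ℝ := ((g 0 1 : ℝ) + (g 1 1 : ℝ)) / ((g 0 0 : ℝ) + (g 1 0 : ℝ)) with hv
  set m : ℝ := -(u + v) / 2 with hm
  set D : ℝ := ((u - v) / 2) ^ 2 - y ^ 2 with hD
  have hq : ∀ x, qf g x y = (x - m) ^ 2 - D := by
    intro x
    unfold qf
    rw [← hu, ← hv, hm, hD]
    ring
  have hbd : ∀ x, qf g x y ≤ 0 → |x + (g 1 1 : ℝ) / (g 1 0 : ℝ)| ≤ 1 :=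
    fun x hx => (qf_bounds hc hac hy hx).2.2
  rcases lt_or_ge D 0 with hD0 | hD0
  · have hpos : ∀ x, 0 < qf g x y := by
      intro x
      rw [hq x]
      nlinarith [sq_nonneg (x - m)]
    have hz : ∀ x, sepq g x y = 0 := by
      intro x
      unfold sepq ind
      rw [if_neg (not_le.mpr (hpos x)), if_neg (not_lt.mpr (hpos x).le)]
      simp
    refine ⟨0, 0, 0, by simp, le_rfl, Or.inl rfl, ?_⟩
    intro f
    simp [hz]
  · have hsq := Real.sq_sqrt hD0
    set s := Real.sqrt D with hs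
    have hs0 : 0 ≤ s := Real.sqrt_nonneg D
    have h1 : ∀ x, qf g x y ≤ 0 ↔ m - s ≤ x ∧ x ≤ m + s := by
      intro x
      rw [hq x]
      constructor
      · intro h
        have : (x - m) ^ 2 ≤ s ^ 2 := by linarith
        have := abs_le_of_sq_le_sq this hs0
        have h' := abs_le.mp this
        constructor <;> linarith [h'.1, h'.2]
      · rintro ⟨h, h'⟩
        have : (x - m) ^ 2 ≤ s ^ 2 := by
          apply sq_le_sq'
          · linarith
          · linarith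
        linarith
    have h2 : ∀ x, qf g x y < 0 ↔ m - s < x ∧ x < m + s := by
      intro x
      rw [hq x]
      constructor
      · intro h
        have : (x - m) ^ 2 < s ^ 2 := by linarith
        have := abs_lt_of_sq_lt_sq this hs0
        have h' := abs_lt.mp this
        constructor <;> linarith [h'.1, h'.2]
      · rintro ⟨h, h'⟩
        have : (x - m) ^ 2 < s ^ 2 := by
          apply sq_lt_sq'
          · linarith
          · linarith
        linarith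
    by_cases hsgn : 0 < (g 1 0 : ℝ) * ((g 0 0 : ℝ) + (g 1 0 : ℝ))
    · apply AI1b_core (S := Set.Icc (m - s) (m + s)) (p := m - s) (q := m + s) (σ := -1)
        (by simp) Ioc_ae_eq_Icc.symm measurableSet_Icc
        (fun x hx hx' => hbd x ((h1 x).mpr ⟨hx, hx'⟩))
      intro x
      unfold sepq ind
      rw [if_pos hsgn]
      by_cases hx : qf g x y ≤ 0
      · rw [if_pos hx, Set.indicator_of_mem (show x ∈ Set.Icc (m - s) (m + s) from (h1 x).mp hx)]
      · rw [if_neg hx, Set.indicator_of_notMem (show x ∉ Set.Icc (m - s) (m + s) from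
          fun h => hx ((h1 x).mpr h))]
        simp
    · apply AI1b_core (S := Set.Ioo (m - s) (m + s)) (p := m - s) (q := m + s) (σ := 1)
        (by simp) Ioo_ae_eq_Ioc measurableSet_Ioo
        (fun x hx hx' => hbd x ((h1 x).mpr ⟨hx, hx'⟩))
      intro x
      unfold sepq ind
      rw [if_neg hsgn]
      by_cases hx : qf g x y < 0
      · rw [if_pos hx, Set.indicator_of_mem (show x ∈ Set.Ioo (m - s) (m + s) from (h2 x).mp hx)]
      · rw [if_neg hx, Set.indicator_of_notMem (show x ∉ Set.Ioo (m - s) (m + s) from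
          fun h => hx ((h2 x).mpr h))]

end RV11
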