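import Pool.Agent.LibRV11.AI1a

open Complex Real MeasureTheory
open UpperHalfPlane hiding I
open scoped MatrixGroups

namespace RV11

private theorem AI2a_det (g : SL(2, ℤ)) : g 0 0 * g 1 1 - g 0 1 * g 1 0 = 1 := by
  have := g.det_coe
  rw [Matrix.det_fin_two] at this
  exact this

private theorem AI2a_fin (B : ℤ) :
    {g : SL(2, ℤ) | g 1 0 ≠ 0 ∧ |g 0 0 + g 1 0| ≤ B ∧ |g 1 0| ≤ B ∧ |g 1 1| ≤ B}.Finite := by
  have hf : ((Set.Icc (-B) B ×ˢ (Set.Icc (-B) B ×ˢ Set.Icc (-B) B)) : Set (ℤ × (ℤ × ℤ))).Finite :=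
    (Set.finite_Icc _ _).prod ((Set.finite_Icc _ _).prod (Set.finite_Icc _ _))
  refine Set.Finite.of_finite_image (f := fun g : SL(2, ℤ) => (g 0 0 + g 1 0, (g 1 0, g 1 1)))
    (hf.subset ?_) ?_
  · rintro _ ⟨g, ⟨_, h1, h3, h4⟩, rfl⟩
    exact ⟨abs_le.1 h1, ⟨abs_le.1 h3, abs_le.1 h4⟩⟩
  · intro g hg h _ hgh
    simp only [Prod.mk.injEq] at hgh
    obtain ⟨e1, e3, e4⟩ := hgh
    have e1' : g 0 0 = h 0 0 := by omega
    have d1 := AI2a_det g
    have d2 := AI2a_det h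
    have e2 : g 0 1 = h 0 1 := by
      rw [← e1', ← e4, ← e3] at d2
      have h5 : g 0 1 * g 1 0 = h 0 1 * g 1 0 := by linarith
      exact mul_right_cancel₀ hg.1 h5
    ext i j
    fin_cases i <;> fin_cases j
    · exact e1'
    · exact e2
    · exact e3
    · exact e4

/-- `|c|, |a+c| ≤ 1/(2y)` and `|cx+d| ≤ |c|` leave finitely many `(a,c,d)`; `b` is determined. -/
theorem sep_finite (z : ℍ) :
    {g : Gam | (g : SL(2, ℤ)) 1 0 ≠ 0 ∧ sep (g : SL(2, ℤ)) z ≠ 0}.Finite := by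
  set M : ℝ := 1 / (2 * z.im) with hM
  have hy := z.im_pos
  have hM0 : 0 < M := by positivity
  set B : ℤ := ⌈M * (2 + |z.re|)⌉ with hB
  refine Set.Finite.of_finite_image (f := fun g : Gam => (g : SL(2, ℤ))) ((AI2a_fin B).subset ?_)
    Subtype.val_injective.injOn
  rintro _ ⟨g, ⟨hc, hs⟩, rfl⟩
  have hac : (g : SL(2, ℤ)) 0 0 + (g : SL(2, ℤ)) 1 0 ≠ 0 := by
    have := odd_col g.2
    intro h
    rw [h] at this
    exact absurd this (by decide)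
  rw [sep_eq_sepq hc hac] at hs
  obtain ⟨h1, h2⟩ := sepq_bounds hc hac hy hs
  simp only
  set c : ℤ := (g : SL(2, ℤ)) 1 0 with hcd
  set d : ℤ := (g : SL(2, ℤ)) 1 1 with hdd
  set a : ℤ := (g : SL(2, ℤ)) 0 0 with had
  have hcR : (c : ℝ) ≠ 0 := by exact_mod_cast hc
  have hc1 : (1 : ℝ) ≤ |(c : ℝ)| := by exact_mod_cast Int.one_le_abs hc
  have ha1 : (1 : ℝ) ≤ |(a : ℝ) + (c : ℝ)| := by exact_mod_cast Int.one_le_abs hac
  have k1 : |(c : ℝ)| ≤ M := by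
    rw [hM, le_div_iff₀ (by positivity)]
    have : z.im * |(c : ℝ)| * 1 ≤ z.im * |(c : ℝ)| * |(a : ℝ) + (c : ℝ)| :=
      mul_le_mul_of_nonneg_left ha1 (by positivity)
    nlinarith
  have k2 : |(a : ℝ) + (c : ℝ)| ≤ M := by
    rw [hM, le_div_iff₀ (by positivity)]
    have : z.im * |(a : ℝ) + (c : ℝ)| * 1 ≤ z.im * |(a : ℝ) + (c : ℝ)| * |(c : ℝ)| :=
      mul_le_mul_of_nonneg_left hc1 (by positivity)
    nlinarith
  have k3 : |(d : ℝ)| ≤ M * (1 + |z.re|) := by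
    have e : (d : ℝ) = (z.re + d / c) * c - z.re * c := by field_simp; ring
    have h3 : |(d : ℝ)| ≤ |z.re + d / c| * |(c : ℝ)| + |z.re| * |(c : ℝ)| := by
      conv_lhs => rw [e]
      calc _ ≤ |(z.re + d / c) * (c : ℝ)| + |z.re * (c : ℝ)| := abs_sub _ _
        _ = _ := by rw [abs_mul, abs_mul]
    have h4 : |z.re + d / c| * |(c : ℝ)| ≤ 1 * |(c : ℝ)| :=
      mul_le_mul_of_nonneg_right h2 (abs_nonneg _)
    have h5 : |z.re| * |(c : ℝ)| ≤ |z.re| * M := mul_le_mul_of_nonneg_left k1 (abs_nonneg _)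
    nlinarith
  have hBM : M * (2 + |z.re|) ≤ (B : ℝ) := Int.le_ceil _
  have hMx : 0 ≤ M * |z.re| := by positivity
  have toB : ∀ m : ℤ, |(m : ℝ)| ≤ M * (2 + |z.re|) → |m| ≤ B := by
    intro m hm
    have : ((|m| : ℤ) : ℝ) ≤ (B : ℝ) := by
      push_cast
      linarith
    exact_mod_cast this
  refine ⟨hc, toB _ ?_, toB _ ?_, toB _ ?_⟩
  · push_cast
    nlinarith
  · nlinarith
  · nlinarith

end RV11
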