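import Pool.Agent.LibRV11.AI2a

open Complex Real MeasureTheory
open UpperHalfPlane hiding I
open scoped MatrixGroups

namespace RV11

/-- at `φ = 0`: `u_p u_q = y c (a+c)` -/
theorem del_zero (g : SL(2, ℤ)) (z : ℍ) :
    del g z 0 = z.im * ((g 1 0 : ℝ) * ((g 0 0 : ℝ) + (g 1 0 : ℝ))) := by
  unfold del uu
  rw [Real.sin_zero, Real.cos_zero]
  have h1 : Real.sqrt z.im * Real.sqrt z.im = z.im := Real.mul_self_sqrt z.im_pos.le
  have h2 : Real.sqrt z.im ≠ 0 := (Real.sqrt_pos.mpr z.im_pos).ne'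
  rw [div_mul_div_comm, h1, div_eq_iff z.im_pos.ne']
  ring

theorem sum_zet (J : ℕ) {x : ℝ} (hx : x ≤ 1) :
    ∑ j ∈ Finset.range (J + 1), zet (2 ^ j * x) = 1 - eta (2 ^ (J + 1) * x) := by
  have h1 : eta x = 1 := by
    unfold eta
    exact Real.smoothTransition.one_of_one_le (by linarith)
  have h2 : ∀ j : ℕ, zet (2 ^ j * x) = eta (2 ^ j * x) - eta (2 ^ (j + 1) * x) := by
    intro j
    unfold zet
    congr 2
    ring
  simp_rw [h2]
  rw [Finset.sum_range_sub' (fun j => eta (2 ^ j * x)) (J + 1)]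
  rw [pow_zero, one_mul, h1]

theorem AI2b_zet_zero : zet 0 = 0 := by
  unfold zet
  rw [mul_zero, sub_self]

/-- for `c ≠ 0` the sign of `c (a + c)` decides whether `a / c > -1` -/
theorem AI2b_ind {g : SL(2, ℤ)} (hc : g 1 0 ≠ 0) (z : ℍ) :
    ind (0 < del g z 0) = ind (-1 < (g 0 0 : ℝ) / (g 1 0 : ℝ)) := by
  have hc' : (g 1 0 : ℝ) ≠ 0 := by exact_mod_cast hc
  have hc2 : 0 < (g 1 0 : ℝ) ^ 2 := by positivity
  have e1 : (g 1 0 : ℝ) * ((g 0 0 : ℝ) + (g 1 0 : ℝ)) =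
      ((g 0 0 : ℝ) / (g 1 0 : ℝ) + 1) * (g 1 0 : ℝ) ^ 2 := by
    field_simp
  have hiff : 0 < del g z 0 ↔ -1 < (g 0 0 : ℝ) / (g 1 0 : ℝ) := by
    rw [del_zero, e1, mul_pos_iff_of_pos_left z.im_pos, mul_pos_iff_of_pos_right hc2]
    constructor
    · intro h
      linarith
    · intro h
      linarith
  unfold ind
  by_cases h : 0 < del g z 0
  · rw [if_pos h, if_pos (hiff.mp h)]
  · rw [if_neg h, if_neg (fun h' => h (hiff.mpr h'))]

/-- All sums are finite (`sep_finite`); the terms with `c = 0` vanish because `zet 0 = 0`;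
`sum_zet` with `x = y|c||a+c| ≤ 1/2`. -/
theorem Th_decomp' (r : ℝ) (hr : 0 ≤ r) (J : ℕ) (z : ℍ) (hz : z ∈ Strip) :
    Th r z = ∑ j ∈ Finset.range (J + 1), Uj r j z 0 + ThA r J z := by
  classical
  set S : Finset Gam := (sep_finite z).toFinset with hS
  have hmemS : ∀ g : Gam, g ∉ S → (g : SL(2, ℤ)) 1 0 ≠ 0 → sep (g : SL(2, ℤ)) z = 0 := by
    intro g hg hc
    by_contra hne
    exact hg ((sep_finite z).mem_toFinset.mpr ⟨hc, hne⟩)
  -- the terms of the `U_j`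
  have hU : ∀ (j : ℕ) (g : Gam), chi g *
      ((ind (-1 < ((g : SL(2, ℤ)) • z).re) - ind (0 < del g z 0)) *
        zet (2 ^ j * |del g z 0|) : ℝ) * phh r ((g : SL(2, ℤ)) • z) =
      if (g : SL(2, ℤ)) 1 0 = 0 then 0 else chi g *
        (sep g z * zet (2 ^ j * |del g z 0|) : ℝ) * phh r ((g : SL(2, ℤ)) • z) := by
    intro j g
    by_cases hc : (g : SL(2, ℤ)) 1 0 = 0
    · rw [if_pos hc, del_zero, hc]
      simp [AI2b_zet_zero]
    · rw [if_neg hc, AI2b_ind hc]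
      rfl
  have e1 : Th r z = om r / 2 * ∑ g ∈ S, (if (g : SL(2, ℤ)) 1 0 = 0 then 0 else chi g *
      ((sep g z : ℝ) : ℂ) * phh r ((g : SL(2, ℤ)) • z)) := by
    unfold Th
    congr 1
    rw [tsum_eq_sum (s := S)]
    · rfl
    · intro g hg
      by_cases hc : (g : SL(2, ℤ)) 1 0 = 0
      · rw [if_pos hc]
      · rw [if_neg hc]
        have h0 := hmemS g hg hc
        unfold sep at h0
        rw [h0]
        simp
  have e2 : ∀ j : ℕ, Uj r j z 0 = om r / 2 * ∑ g ∈ S, (if (g : SL(2, ℤ)) 1 0 = 0 then 0 else chi g *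
      (sep g z * zet (2 ^ j * |del g z 0|) : ℝ) * phh r ((g : SL(2, ℤ)) • z)) := by
    intro j
    unfold Uj
    congr 1
    rw [tsum_congr (hU j), tsum_eq_sum (s := S)]
    intro g hg
    by_cases hc : (g : SL(2, ℤ)) 1 0 = 0
    · rw [if_pos hc]
    · rw [if_neg hc, hmemS g hg hc]
      simp
  have e3 : ThA r J z = om r / 2 * ∑ g ∈ S, (if (g : SL(2, ℤ)) 1 0 = 0 then 0 else chi g *
      (sep g z * eta (2 ^ (J + 1) * (z.im * |((g : SL(2, ℤ)) 1 0 : ℝ)| *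
        |((g : SL(2, ℤ)) 0 0 + (g : SL(2, ℤ)) 1 0 : ℝ)|)) : ℝ) * phh r ((g : SL(2, ℤ)) • z)) := by
    unfold ThA
    congr 1
    rw [tsum_eq_sum (s := S)]
    · rfl
    · intro g hg
      by_cases hc : (g : SL(2, ℤ)) 1 0 = 0
      · rw [if_pos hc]
      · rw [if_neg hc]
        have h0 := hmemS g hg hc
        unfold sep at h0
        rw [h0]
        simp
  rw [e1, e3]
  simp_rw [e2]
  rw [← Finset.mul_sum, ← mul_add, Finset.sum_comm, ← Finset.sum_add_distrib]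
  congr 1
  refine Finset.sum_congr rfl fun g hg => ?_
  obtain ⟨hc, hsep⟩ := (sep_finite z).mem_toFinset.mp hg
  simp only [if_neg hc]
  have hac : (g : SL(2, ℤ)) 0 0 + (g : SL(2, ℤ)) 1 0 ≠ 0 := by
    have h := odd_col g.2
    intro h0
    rw [h0] at h
    exact absurd h (by decide)
  have hsep' : sepq g z.re z.im ≠ 0 := by
    rw [← sep_eq_sepq hc hac]
    exact hsep
  have hb := (sepq_bounds hc hac z.im_pos hsep').1
  set x : ℝ := z.im * |((g : SL(2, ℤ)) 1 0 : ℝ)| *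
        |((g : SL(2, ℤ)) 0 0 + (g : SL(2, ℤ)) 1 0 : ℝ)| with hx
  have hdx : |del g z 0| = x := by
    rw [del_zero, abs_mul, abs_mul, abs_of_pos z.im_pos, hx]
    ring
  rw [hdx, ← Finset.sum_mul, ← Finset.mul_sum, ← add_mul, ← mul_add]
  congr 2
  rw [← Complex.ofReal_sum, ← Complex.ofReal_add, ← Finset.mul_sum, sum_zet J (by linarith)]
  congr 1
  ring

end RV11
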