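import Pool.Agent.LibRV11.Defs
import Pool.Agent.LibRV11.TH13

open Complex Real MeasureTheory
open UpperHalfPlane hiding I
open scoped MatrixGroups

namespace RV11

/-- `∫_Strip F dμ = ∫_0^∞ (∫_{-1}^1 F(x+iy) dx) y^{-2} dy`. -/
theorem strip_integral (F : ℂ → ℂ) (hF : IntegrableOn (fun z : ℍ => F z) Strip) :
    ∫ z in Strip, F (z : ℂ) =
      ∫ y in Set.Ioi (0 : ℝ), (∫ x in (-1 : ℝ)..1, F (x + y * I)) / (y : ℂ) ^ 2 := by
  rw [integral_strip F hF]
  refine setIntegral_congr_fun measurableSet_Ioi fun y _ => ?_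
  rw [← intervalIntegral.integral_div]
  refine intervalIntegral.integral_congr fun x _ => ?_
  rw [mul_comm I (y : ℂ)]

end RV11
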