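import Pool.Agent.LibRV11.Defs
import Pool.Agent.LibRV11.TH13

open Complex Real MeasureTheory
open UpperHalfPlane hiding I
open scoped MatrixGroups

namespace RV11

/-- A bounded measurable function supported in `1/n ≤ y ≤ 2/n` is integrable on the strip. -/
theorem strip_integrable_of_bounded (f : ℍ → ℂ) (hf : Measurable f) {a b K : ℝ} (ha : 0 < a)
    (hs : ∀ z : ℍ, z.im < a ∨ b < z.im → f z = 0) (hK : ∀ z, ‖f z‖ ≤ K) :
    IntegrableOn f Strip := by
  refine integrableOn_strip_of_bounded f hf a b K ha (fun z hz => ?_) (fun z _ => hK z)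
  constructor
  · by_contra h
    exact hz (hs z (Or.inl (not_le.1 h)))
  · by_contra h
    exact hz (hs z (Or.inr (not_le.1 h)))

end RV11
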