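import Mathlib

open Complex Real MeasureTheory

namespace RV11

/-- amplitude `(y - it)^{-1/2} e^{-πRy/(t²+y²)}` -/
noncomputable def ampW (R y t : ℝ) : ℂ :=
  (-I * (t + I * y)) ^ (-(1 / 2) : ℂ) * (Real.exp (-(π * R * y / (t ^ 2 + y ^ 2))) : ℂ)

/-- phase `-π(nt + Rt/(t²+y²))` -/
noncomputable def phsW (n : ℕ) (R y t : ℝ) : ℝ := -(π * (n * t + R * t / (t ^ 2 + y ^ 2)))

theorem AI4a_den {y : ℝ} (hy : 0 < y) (t : ℝ) : 0 < t ^ 2 + y ^ 2 := by positivity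

theorem AI4a_ne {y : ℝ} (hy : 0 < y) (t : ℝ) : (t : ℂ) + I * y ≠ 0 := by
  intro h
  have := congrArg Complex.im h
  simp at this
  exact hy.ne' this

/-- The integrand. -/
theorem wall_integrand (n : ℕ) (R : ℝ) {y : ℝ} (hy : 0 < y) (t : ℝ) :
    (-I * (t + I * y)) ^ (-(1 / 2) : ℂ) * cexp (-(π * I * R / (t + I * y))) *
      cexp (-(π * I * n * t)) = ampW R y t * cexp (I * phsW n R y t) := by
  have h1 := AI4a_ne hy t
  have h2 : ((t : ℂ) ^ 2 + (y : ℂ) ^ 2) ≠ 0 := by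
    have := (AI4a_den hy t).ne'
    exact_mod_cast this
  rw [ampW, phsW, mul_assoc _ (cexp _) (cexp _), mul_assoc _ ((Real.exp _ : ℝ) : ℂ) (cexp _),
    ← Complex.exp_add, ofReal_exp, ← Complex.exp_add]
  congr 2
  push_cast
  have h3 : (t : ℂ) ^ 2 + (y : ℂ) ^ 2 = (t + I * y) * (t - I * y) := by
    linear_combination ((y : ℂ) ^ 2) * I_sq
  have h4 : (π : ℂ) * I * R / (t + I * y) = π * I * R * (t - I * y) / (t ^ 2 + y ^ 2) := by
    rw [div_eq_div_iff h1 h2, h3]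
    ring
  rw [h4]
  field_simp
  linear_combination ((R : ℂ) * y) * I_sq

theorem AI4a_norm_base (y t : ℝ) : |t| ≤ ‖(-I * (t + I * y) : ℂ)‖ := by
  rw [norm_mul, norm_neg, norm_I, one_mul]
  have h := Complex.abs_re_le_norm ((t : ℂ) + I * y)
  simpa using h

theorem AI4a_norm_cpow (y t s : ℝ) :
    ‖(-I * (t + I * y) : ℂ) ^ ((s : ℝ) : ℂ)‖ = ‖(-I * (t + I * y) : ℂ)‖ ^ s :=
  Complex.norm_cpow_real _ _

theorem AI4a_cast : (-(1 / 2) : ℂ) = ((-(1 / 2) : ℝ) : ℂ) := by push_cast; ring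

theorem ampW_norm_le {R y t : ℝ} (hR : 0 ≤ R) (hy : 0 < y) (ht : t ≠ 0) :
    ‖ampW R y t‖ ≤ |t| ^ (-(1 / 2) : ℝ) := by
  rw [ampW, norm_mul, AI4a_cast, AI4a_norm_cpow]
  have h1 : ‖(Real.exp (-(π * R * y / (t ^ 2 + y ^ 2))) : ℂ)‖ ≤ 1 := by
    rw [Complex.norm_real, Real.norm_eq_abs, abs_of_pos (Real.exp_pos _)]
    apply Real.exp_le_one_iff.2
    have : 0 ≤ π * R * y / (t ^ 2 + y ^ 2) := by positivity
    linarith
  have h2 : ‖(-I * (t + I * y) : ℂ)‖ ^ (-(1 / 2) : ℝ) ≤ |t| ^ (-(1 / 2) : ℝ) :=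
    Real.rpow_le_rpow_of_nonpos (abs_pos.2 ht) (AI4a_norm_base y t) (by norm_num)
  calc _ ≤ |t| ^ (-(1 / 2) : ℝ) * 1 := mul_le_mul h2 h1 (norm_nonneg _) (by positivity)
    _ = _ := mul_one _

theorem AI4a_slit {y : ℝ} (hy : 0 < y) (t : ℝ) : (-I * (t + I * y) : ℂ) ∈ slitPlane := by
  left
  simp [hy]

/-- `A' = (i/2)(y-it)^{-3/2} e^{-X} + (y-it)^{-1/2} (2t/(t²+y²)) X e^{-X}`, `X = πRy/(t²+y²)`,
`X e^{-X} ≤ 1/e`. -/
theorem ampW_deriv {R y : ℝ} (hR : 0 ≤ R) (hy : 0 < y) : ∃ A' : ℝ → ℂ,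
    (∀ t : ℝ, HasDerivAt (ampW R y) (A' t) t) ∧ Continuous A' ∧
      ∀ t : ℝ, 0 < t → ‖A' t‖ ≤ 2 * t ^ (-(3 / 2) : ℝ) := by
  refine ⟨fun t => (((-(1 / 2) : ℝ) : ℂ) * (-I * (t + I * y) : ℂ) ^ ((-(3 / 2) : ℝ) : ℂ) * -I) *
      (Real.exp (-(π * R * y / (t ^ 2 + y ^ 2))) : ℂ) +
    (-I * (t + I * y) : ℂ) ^ ((-(1 / 2) : ℝ) : ℂ) *
      ((Real.exp (-(π * R * y / (t ^ 2 + y ^ 2))) *
        (2 * t / (t ^ 2 + y ^ 2) * (π * R * y / (t ^ 2 + y ^ 2))) : ℝ) : ℂ), ?_, ?_, ?_⟩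
  · intro t
    have hb : HasDerivAt (fun t : ℝ => (-I * ((t : ℂ) + I * y))) (-I) t := by
      have := ((Complex.ofRealCLM.hasDerivAt (x := t)).add_const (I * (y : ℂ))).const_mul (-I)
      simpa using this
    have hc0 : HasDerivAt (fun z : ℂ => z ^ ((-(1 / 2) : ℝ) : ℂ))
        (((-(1 / 2) : ℝ) : ℂ) * (-I * ((t : ℂ) + I * y)) ^ (((-(1 / 2) : ℝ) : ℂ) - 1) * 1)
        (-I * ((t : ℂ) + I * y)) :=
      HasDerivAt.cpow_const (c := ((-(1 / 2) : ℝ) : ℂ)) (hasDerivAt_id _) (AI4a_slit hy t)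
    have hc : HasDerivAt (fun t : ℝ => (-I * ((t : ℂ) + I * y)) ^ ((-(1 / 2) : ℝ) : ℂ)) _ t :=
      HasDerivAt.comp (h₂ := fun z : ℂ => z ^ ((-(1 / 2) : ℝ) : ℂ)) t hc0 hb
    simp only [mul_one] at hc
    have he : HasDerivAt (fun t : ℝ => Real.exp (-(π * R * y / (t ^ 2 + y ^ 2))))
        (Real.exp (-(π * R * y / (t ^ 2 + y ^ 2))) *
        (2 * t / (t ^ 2 + y ^ 2) * (π * R * y / (t ^ 2 + y ^ 2)))) t := by
      have h1 : HasDerivAt (fun t : ℝ => t ^ 2 + y ^ 2) (2 * t) t := by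
        simpa using (hasDerivAt_pow 2 t).add_const (y ^ 2)
      have hne := (AI4a_den hy t).ne'
      have h2 := (((hasDerivAt_const t (π * R * y)).div h1 hne).neg).exp
      have h3 : HasDerivAt (fun t : ℝ => Real.exp (-(π * R * y / (t ^ 2 + y ^ 2))))
        (Real.exp (-(π * R * y / (t ^ 2 + y ^ 2))) *
          -((0 * (t ^ 2 + y ^ 2) - π * R * y * (2 * t)) / (t ^ 2 + y ^ 2) ^ 2)) t := h2
      refine h3.congr_deriv ?_
      field_simp
      ring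
    have h := hc.mul he.ofReal_comp
    have hfun : ampW R y = fun t : ℝ => (-I * ((t : ℂ) + I * y)) ^ ((-(1 / 2) : ℝ) : ℂ) *
        ((Real.exp (-(π * R * y / (t ^ 2 + y ^ 2))) : ℝ) : ℂ) := by
      funext t
      rw [ampW, AI4a_cast]
    rw [hfun]
    refine h.congr_deriv ?_
    have h3 : (((-(1 / 2) : ℝ) : ℂ) - 1) = ((-(3 / 2) : ℝ) : ℂ) := by push_cast; ring
    rw [h3]
  · have hbase : Continuous fun t : ℝ => (-I * ((t : ℂ) + I * y)) := by fun_prop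
    have hden : Continuous fun t : ℝ => π * R * y / (t ^ 2 + y ^ 2) :=
      continuous_const.div (by fun_prop) fun t => (AI4a_den hy t).ne'
    have hden2 : Continuous fun t : ℝ => 2 * t / (t ^ 2 + y ^ 2) :=
      (by fun_prop : Continuous fun t : ℝ => 2 * t).div (by fun_prop) fun t => (AI4a_den hy t).ne'
    have hexp : Continuous fun t : ℝ => Real.exp (-(π * R * y / (t ^ 2 + y ^ 2))) :=
      Real.continuous_exp.comp hden.neg
    have hp : ∀ s : ℝ, Continuous fun t : ℝ => (-I * ((t : ℂ) + I * y)) ^ ((s : ℝ) : ℂ) :=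
      fun s => hbase.cpow continuous_const fun t => AI4a_slit hy t
    exact (((continuous_const.mul (hp _)).mul continuous_const).mul
      (continuous_ofReal.comp hexp)).add ((hp _).mul
        (continuous_ofReal.comp (hexp.mul (hden2.mul hden))))
  · intro t ht
    set Xv := π * R * y / (t ^ 2 + y ^ 2) with hX
    have hX0 : 0 ≤ Xv := by positivity
    have hD := AI4a_den hy t
    have habs : |t| = t := abs_of_pos ht
    have hn : ∀ s : ℝ, s ≤ 0 → ‖(-I * (t + I * y) : ℂ) ^ ((s : ℝ) : ℂ)‖ ≤ t ^ s := by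
      intro s hs
      rw [AI4a_norm_cpow]
      have h1 := AI4a_norm_base y t
      rw [habs] at h1
      exact Real.rpow_le_rpow_of_nonpos ht h1 hs
    have he1 : Real.exp (-Xv) ≤ 1 := Real.exp_le_one_iff.2 (by linarith)
    have he2 : Real.exp (-Xv) * Xv ≤ 1 / 2 := by
      have h1 := Real.quadratic_le_exp_of_nonneg hX0
      have h2 : 2 * Xv ≤ Real.exp Xv := by nlinarith [sq_nonneg (Xv - 1)]
      rw [Real.exp_neg, inv_mul_le_iff₀ (Real.exp_pos _)]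
      linarith
    have hf : 2 * t / (t ^ 2 + y ^ 2) ≤ 2 / t := by
      rw [div_le_div_iff₀ hD ht]
      nlinarith [sq_nonneg y]
    have hf0 : 0 ≤ 2 * t / (t ^ 2 + y ^ 2) := by positivity
    have hpow : t ^ (-(1 / 2) : ℝ) * (2 / t) = 2 * t ^ (-(3 / 2) : ℝ) := by
      rw [show (-(3 / 2) : ℝ) = -(1 / 2) - 1 by norm_num, Real.rpow_sub_one ht.ne']
      ring
    have hp0 : 0 < t ^ (-(3 / 2) : ℝ) := Real.rpow_pos_of_pos ht _
    have hp1 : 0 < t ^ (-(1 / 2) : ℝ) := Real.rpow_pos_of_pos ht _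
    have hT1 : ‖(((-(1 / 2) : ℝ) : ℂ) * (-I * (t + I * y) : ℂ) ^ ((-(3 / 2) : ℝ) : ℂ) * -I) *
      (Real.exp (-Xv) : ℂ)‖ ≤ 1 / 2 * t ^ (-(3 / 2) : ℝ) := by
      rw [norm_mul, norm_mul, norm_mul, norm_neg, norm_I, mul_one, Complex.norm_real,
        Complex.norm_real, Real.norm_eq_abs, Real.norm_eq_abs, abs_of_pos (Real.exp_pos _)]
      have h1 := hn (-(3 / 2)) (by norm_num)
      have h2 : |(-(1 / 2) : ℝ)| = 1 / 2 := by rw [abs_neg, abs_of_pos (by norm_num)]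
      rw [h2]
      calc 1 / 2 * ‖(-I * (t + I * y) : ℂ) ^ ((-(3 / 2) : ℝ) : ℂ)‖ * Real.exp (-Xv)
          ≤ 1 / 2 * t ^ (-(3 / 2) : ℝ) * 1 :=
            mul_le_mul (mul_le_mul_of_nonneg_left h1 (by norm_num)) he1 (Real.exp_pos _).le
              (by positivity)
        _ = _ := mul_one _
    have hT2 : ‖(-I * (t + I * y) : ℂ) ^ ((-(1 / 2) : ℝ) : ℂ) *
      ((Real.exp (-Xv) * (2 * t / (t ^ 2 + y ^ 2) * Xv) : ℝ) : ℂ)‖ ≤ t ^ (-(3 / 2) : ℝ) := by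
      rw [norm_mul, Complex.norm_real, Real.norm_eq_abs]
      have h1 := hn (-(1 / 2)) (by norm_num)
      have h2 : |Real.exp (-Xv) * (2 * t / (t ^ 2 + y ^ 2) * Xv)| ≤ (2 / t) * (1 / 2) := by
        rw [abs_of_nonneg (by positivity)]
        have : Real.exp (-Xv) * (2 * t / (t ^ 2 + y ^ 2) * Xv) =
          (2 * t / (t ^ 2 + y ^ 2)) * (Real.exp (-Xv) * Xv) := by ring
        rw [this]
        exact mul_le_mul hf he2 (by positivity) (by positivity)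
      calc _ ≤ t ^ (-(1 / 2) : ℝ) * ((2 / t) * (1 / 2)) :=
            mul_le_mul h1 h2 (abs_nonneg _) hp1.le
        _ = t ^ (-(3 / 2) : ℝ) := by rw [← mul_assoc, hpow]; ring
    refine (norm_add_le _ _).trans ?_
    linarith

end RV11
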