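import Pool.Agent.LibRV11.AI4a

open Complex Real MeasureTheory

namespace RV11

/-- `ψ'' = -2πRt(t²-3y²)/(t²+y²)³`, for `0 < 5y ≤ t`: `ψ'' ≤ -4R/t³`;
`ψ' = -π(n + R(y²-t²)/(t²+y²)²)`, for `5y ≤ t` and `4R ≤ n t²`: `ψ' ≤ -2n`. -/
theorem phsW_deriv (n : ℕ) {R y : ℝ} (hR : 0 ≤ R) (hy : 0 < y) : ∃ f' f'' : ℝ → ℝ,
    (∀ t : ℝ, HasDerivAt (phsW n R y) (f' t) t) ∧ (∀ t : ℝ, HasDerivAt f' (f'' t) t) ∧
      Continuous f'' ∧ (∀ t : ℝ, 5 * y ≤ t → f'' t ≤ -(4 * R / t ^ 3)) ∧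
      (∀ t : ℝ, 5 * y ≤ t → 4 * R ≤ n * t ^ 2 → f' t ≤ -(2 * n)) := by
  have hD : ∀ t : ℝ, 0 < t ^ 2 + y ^ 2 := fun t => by positivity
  have hd : ∀ t : ℝ, HasDerivAt (fun t : ℝ => t ^ 2 + y ^ 2) (2 * t) t := by
    intro t
    simpa using (hasDerivAt_pow 2 t).add_const (y ^ 2)
  refine ⟨fun t => -(π * (n + R * (y ^ 2 - t ^ 2) / (t ^ 2 + y ^ 2) ^ 2)),
    fun t => -(2 * π * R * t * (t ^ 2 - 3 * y ^ 2) / (t ^ 2 + y ^ 2) ^ 3), ?_, ?_, ?_, ?_, ?_⟩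
  · intro t
    have hne := (hD t).ne'
    have h1 : HasDerivAt (fun t : ℝ => R * t) R t := by
      simpa using (hasDerivAt_id t).const_mul R
    have h2 : HasDerivAt (fun t : ℝ => R * t / (t ^ 2 + y ^ 2))
        ((R * (t ^ 2 + y ^ 2) - R * t * (2 * t)) / (t ^ 2 + y ^ 2) ^ 2) t := h1.div (hd t) hne
    have h3 : HasDerivAt (fun t : ℝ => (n : ℝ) * t) n t := by
      simpa using (hasDerivAt_id t).const_mul (n : ℝ)
    have h4 : HasDerivAt (fun t : ℝ => -(π * (n * t + R * t / (t ^ 2 + y ^ 2))))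
        (-(π * (n + (R * (t ^ 2 + y ^ 2) - R * t * (2 * t)) / (t ^ 2 + y ^ 2) ^ 2))) t :=
      ((h3.add h2).const_mul π).neg
    have h5 : phsW n R y = fun t : ℝ => -(π * (n * t + R * t / (t ^ 2 + y ^ 2))) := rfl
    rw [h5]
    refine h4.congr_deriv ?_
    congr 3
    congr 1
    ring
  · intro t
    have hne := (hD t).ne'
    have h1 : HasDerivAt (fun t : ℝ => R * (y ^ 2 - t ^ 2)) (R * (-(2 * t))) t := by
      have := (((hasDerivAt_pow 2 t).const_sub (y ^ 2))).const_mul R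
      simpa using this
    have h0 : HasDerivAt (fun t : ℝ => (t ^ 2 + y ^ 2) ^ 2) (2 * (t ^ 2 + y ^ 2) * (2 * t)) t := by
      have h := (hd t).mul (hd t)
      have h' : HasDerivAt (fun t : ℝ => (t ^ 2 + y ^ 2) * (t ^ 2 + y ^ 2))
        (2 * t * (t ^ 2 + y ^ 2) + (t ^ 2 + y ^ 2) * (2 * t)) t := h
      have he : (fun t : ℝ => (t ^ 2 + y ^ 2) ^ 2) =
        fun t : ℝ => (t ^ 2 + y ^ 2) * (t ^ 2 + y ^ 2) := by funext t; ring
      rw [he]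
      exact h'.congr_deriv (by ring)
    have h2 : HasDerivAt (fun t : ℝ => R * (y ^ 2 - t ^ 2) / (t ^ 2 + y ^ 2) ^ 2)
        ((R * (-(2 * t)) * (t ^ 2 + y ^ 2) ^ 2 - R * (y ^ 2 - t ^ 2) *
          (2 * (t ^ 2 + y ^ 2) * (2 * t))) / ((t ^ 2 + y ^ 2) ^ 2) ^ 2) t :=
      h1.div h0 (pow_ne_zero 2 hne)
    have h4 : HasDerivAt (fun t : ℝ => -(π * (n + R * (y ^ 2 - t ^ 2) / (t ^ 2 + y ^ 2) ^ 2)))
        (-(π * ((R * (-(2 * t)) * (t ^ 2 + y ^ 2) ^ 2 - R * (y ^ 2 - t ^ 2) *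
          (2 * (t ^ 2 + y ^ 2) * (2 * t))) / ((t ^ 2 + y ^ 2) ^ 2) ^ 2))) t :=
      ((h2.const_add (n : ℝ)).const_mul π).neg
    refine h4.congr_deriv ?_
    field_simp
    ring
  · apply Continuous.neg
    exact (by fun_prop : Continuous fun t : ℝ => 2 * π * R * t * (t ^ 2 - 3 * y ^ 2)).div
      (by fun_prop) fun t => pow_ne_zero 3 (hD t).ne'
  · intro t ht
    have ht0 : 0 < t := lt_of_lt_of_le (by positivity) ht
    apply neg_le_neg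
    rw [div_le_div_iff₀ (by positivity) (pow_pos (hD t) 3)]
    have hu : 25 * y ^ 2 ≤ t ^ 2 := by nlinarith
    have hpi : (3.14 : ℝ) < π := Real.pi_gt_d2
    set a := t ^ 2 with ha
    set b := y ^ 2 with hb
    have ha0 : 0 < a := by positivity
    have hb0 : 0 < b := by positivity
    have h1 : 2 * (a + b) ^ 3 ≤ 3 * a ^ 2 * (a - 3 * b) := by
      nlinarith [mul_pos ha0 hb0, mul_pos (mul_pos ha0 hb0) hb0, mul_pos (mul_pos ha0 ha0) hb0,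
        mul_nonneg (mul_pos ha0 ha0).le (sub_nonneg.2 hu),
        mul_nonneg (mul_pos ha0 hb0).le (sub_nonneg.2 hu),
        mul_nonneg (mul_pos hb0 hb0).le (sub_nonneg.2 hu)]
    have h2 : 3 * a ^ 2 * (a - 3 * b) ≤ π * a ^ 2 * (a - 3 * b) := by
      have h3 : 0 ≤ a - 3 * b := by linarith
      have : 0 ≤ a ^ 2 * (a - 3 * b) := by positivity
      nlinarith
    have h4 : t * t ^ 3 = a ^ 2 := by rw [ha]; ring
    have h5 : 2 * π * R * t * (a - 3 * b) * t ^ 3 = 2 * R * (π * a ^ 2 * (a - 3 * b)) := by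
      rw [← h4]; ring
    rw [h5]
    have h6 : 2 * R * (2 * (a + b) ^ 3) ≤ 2 * R * (π * a ^ 2 * (a - 3 * b)) :=
      mul_le_mul_of_nonneg_left (h1.trans h2) (by positivity)
    linarith
  · intro t ht hRt
    have ht0 : 0 < t := lt_of_lt_of_le (by positivity) ht
    have hpi : (3.14 : ℝ) < π := Real.pi_gt_d2
    simp only []
    have h1 : R * (t ^ 2 - y ^ 2) / (t ^ 2 + y ^ 2) ^ 2 ≤ n / 4 := by
      rw [div_le_div_iff₀ (pow_pos (hD t) 2) (by norm_num)]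
      have h2 : R * (t ^ 2 - y ^ 2) * 4 ≤ n * t ^ 2 * (t ^ 2 - y ^ 2) := by
        have h3 : 0 ≤ t ^ 2 - y ^ 2 := by nlinarith
        nlinarith
      have h4 : (n : ℝ) * t ^ 2 * (t ^ 2 - y ^ 2) ≤ n * (t ^ 2 + y ^ 2) ^ 2 := by
        rw [mul_assoc]
        apply mul_le_mul_of_nonneg_left _ (Nat.cast_nonneg n)
        nlinarith [sq_nonneg (t * y), sq_nonneg (y ^ 2)]
      linarith
    have h2 : R * (y ^ 2 - t ^ 2) / (t ^ 2 + y ^ 2) ^ 2 =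
        -(R * (t ^ 2 - y ^ 2) / (t ^ 2 + y ^ 2) ^ 2) := by ring
    rw [h2]
    apply neg_le_neg
    have h3 : (n : ℝ) * (3 / 4) ≤ n + -(R * (t ^ 2 - y ^ 2) / (t ^ 2 + y ^ 2) ^ 2) := by linarith
    have h4 : π * ((n : ℝ) * (3 / 4)) ≤ π * (n + -(R * (t ^ 2 - y ^ 2) / (t ^ 2 + y ^ 2) ^ 2)) :=
      mul_le_mul_of_nonneg_left h3 Real.pi_pos.le
    have h5 : (2 : ℝ) * n ≤ π * ((n : ℝ) * (3 / 4)) := by
      have : (0 : ℝ) ≤ n := Nat.cast_nonneg n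
      nlinarith
    linarith

end RV11
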