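import Pool.Agent.LibRV11.OS1a

open Complex Real MeasureTheory

namespace RV11

/-- A monotone continuous function crosses a level. -/
theorem OS1b_level {a b c : ℝ} (hab : a ≤ b) (g : ℝ → ℝ) (hg : ContinuousOn g (Set.Icc a b))
    (hm : ∀ x ∈ Set.Icc a b, ∀ y ∈ Set.Icc a b, x ≤ y → g x ≤ g y) :
    ∃ p ∈ Set.Icc a b, (p = a ∨ ∀ x ∈ Set.Icc a p, g x ≤ c) ∧
      (p = b ∨ ∀ x ∈ Set.Icc p b, c ≤ g x) := by
  have ha : a ∈ Set.Icc a b := ⟨le_rfl, hab⟩
  have hb : b ∈ Set.Icc a b := ⟨hab, le_rfl⟩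
  by_cases h1 : c ≤ g a
  · exact ⟨a, ha, Or.inl rfl, Or.inr (fun x hx => h1.trans (hm a ha x hx hx.1))⟩
  by_cases h2 : g b ≤ c
  · exact ⟨b, hb, Or.inr (fun x hx => (hm x hx b hb hx.2).trans h2), Or.inl rfl⟩
  push Not at h1 h2
  obtain ⟨p, hp, hpc⟩ := intermediate_value_Icc hab hg ⟨h1.le, h2.le⟩
  refine ⟨p, hp, Or.inr ?_, Or.inr ?_⟩
  · intro x hx
    exact (hm x ⟨hx.1, hx.2.trans hp.2⟩ p hp hx.2).trans_eq hpc
  · intro x hx
    exact hpc.symm.trans_le (hm p hp x ⟨hp.1.trans hx.1, hx.2⟩ hx.1)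

/-- Second derivative test, convex case. -/
theorem OS1b_pos {a b l : ℝ} (hab : a ≤ b) (hl : 0 < l) (f f' f'' : ℝ → ℝ)
    (h1 : ∀ x ∈ Set.Icc a b, HasDerivAt f (f' x) x)
    (h2 : ∀ x ∈ Set.Icc a b, HasDerivAt f' (f'' x) x)
    (hc : ContinuousOn f'' (Set.Icc a b))
    (hs : ∀ x ∈ Set.Icc a b, l ≤ f'' x) :
    ‖∫ x in a..b, cexp (I * f x)‖ ≤ 8 / Real.sqrt l := by
  have hmu : 0 < Real.sqrt l := Real.sqrt_pos.mpr hl
  have hsq : Real.sqrt l * Real.sqrt l = l := Real.mul_self_sqrt hl.le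
  set m := Real.sqrt l with hm
  have hcf : ContinuousOn f (Set.Icc a b) := fun x hx => (h1 x hx).continuousAt.continuousWithinAt
  have hcf' : ContinuousOn f' (Set.Icc a b) :=
    fun x hx => (h2 x hx).continuousAt.continuousWithinAt
  have hce : ContinuousOn (fun x => cexp (I * f x)) (Set.Icc a b) :=
    (continuousOn_const.mul (Complex.continuous_ofReal.comp_continuousOn hcf)).cexp
  -- growth of the derivative
  have hgrow : ∀ x ∈ Set.Icc a b, ∀ y ∈ Set.Icc a b, x ≤ y → l * (y - x) ≤ f' y - f' x := by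
    intro x hx y hy hxy
    have hsub : Set.Icc x y ⊆ Set.Icc a b := Set.Icc_subset_Icc hx.1 hy.2
    have hu : Set.uIcc x y = Set.Icc x y := Set.uIcc_of_le hxy
    have hI : IntervalIntegrable f'' volume x y := by
      apply ContinuousOn.intervalIntegrable; rw [hu]; exact hc.mono hsub
    have hF : ∫ t in x..y, f'' t = f' y - f' x := by
      apply intervalIntegral.integral_eq_sub_of_hasDerivAt
      · intro t ht; rw [hu] at ht; exact h2 t (hsub ht)
      · exact hI
    rw [← hF]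
    have : ∫ t in x..y, l = l * (y - x) := by
      rw [intervalIntegral.integral_const]; simp; ring
    rw [← this]
    apply intervalIntegral.integral_mono_on hxy _ hI
    · intro t ht; exact hs t (hsub ht)
    · exact intervalIntegrable_const
  have hmono : ∀ x ∈ Set.Icc a b, ∀ y ∈ Set.Icc a b, x ≤ y → f' x ≤ f' y := by
    intro x hx y hy hxy
    have h3 := hgrow x hx y hy hxy
    have h4 : 0 ≤ l * (y - x) := mul_nonneg hl.le (by linarith)
    linarith
  obtain ⟨p, hp, hp1, hp2⟩ := OS1b_level (c := -m) hab f' hcf' hmono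
  have hpb : Set.Icc p b ⊆ Set.Icc a b := Set.Icc_subset_Icc_left hp.1
  obtain ⟨q, hq, hq1, hq2⟩ := OS1b_level (c := m) hp.2 f' (hcf'.mono hpb)
    (fun x hx y hy hxy => hmono x (hpb hx) y (hpb hy) hxy)
  have hap : Set.Icc a p ⊆ Set.Icc a b := Set.Icc_subset_Icc_right hp.2
  have hqb : Set.Icc q b ⊆ Set.Icc a b := Set.Icc_subset_Icc_left (hp.1.trans hq.1)
  have hpq : Set.Icc p q ⊆ Set.Icc a b := Set.Icc_subset_Icc hp.1 hq.2
  -- three pieces
  have hA : ‖∫ x in a..p, cexp (I * f x)‖ ≤ 3 / m := by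
    rcases hp1 with h | h
    · rw [h, intervalIntegral.integral_same, norm_zero]; positivity
    · exact first_test hp.1 hmu f f' f'' (fun x hx => h1 x (hap hx)) (fun x hx => h2 x (hap hx))
        (hc.mono hap) (Or.inl (fun x hx => hl.le.trans (hs x (hap hx)))) (Or.inr h)
  have hC : ‖∫ x in q..b, cexp (I * f x)‖ ≤ 3 / m := by
    rcases hq2 with h | h
    · rw [h, intervalIntegral.integral_same, norm_zero]; positivity
    · exact first_test hq.2 hmu f f' f'' (fun x hx => h1 x (hqb hx)) (fun x hx => h2 x (hqb hx))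
        (hc.mono hqb) (Or.inl (fun x hx => hl.le.trans (hs x (hqb hx)))) (Or.inl h)
  have hlen : q - p ≤ 2 / m := by
    have hpos : 0 ≤ 2 / m := by positivity
    rcases hp2 with h | h
    · have : q = p := le_antisymm (h ▸ hq.2) hq.1
      rw [this, sub_self]; exact hpos
    · rcases hq1 with h' | h'
      · rw [h', sub_self]; exact hpos
      · have h3 := hgrow p hp q ⟨hp.1.trans hq.1, hq.2⟩ hq.1
        have h4 := h' q ⟨hq.1, le_rfl⟩
        have h5 := h p ⟨le_rfl, hp.2⟩
        rw [le_div_iff₀ hmu]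
        have h6 : m * (m * (q - p)) ≤ m * 2 := by
          calc m * (m * (q - p)) = l * (q - p) := by rw [← mul_assoc, hsq]
            _ ≤ f' q - f' p := h3
            _ ≤ m * 2 := by linarith
        have h7 := le_of_mul_le_mul_left h6 hmu
        linarith
  have hB : ‖∫ x in p..q, cexp (I * f x)‖ ≤ 2 / m := by
    have h3 : ‖∫ x in p..q, cexp (I * f x)‖ ≤ 1 * |q - p| := by
      apply intervalIntegral.norm_integral_le_of_norm_le_const
      intro x _
      rw [mul_comm]
      exact (Complex.norm_exp_ofReal_mul_I (f x)).le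
    rw [one_mul, abs_of_nonneg (sub_nonneg.mpr hq.1)] at h3
    exact h3.trans hlen
  have hi : ∀ x y, x ≤ y → Set.Icc x y ⊆ Set.Icc a b →
      IntervalIntegrable (fun x => cexp (I * f x)) volume x y := by
    intro x y hxy hsub
    apply ContinuousOn.intervalIntegrable
    rw [Set.uIcc_of_le hxy]
    exact hce.mono hsub
  have hsplit : ∫ x in a..b, cexp (I * f x)
      = (∫ x in a..p, cexp (I * f x)) + (∫ x in p..q, cexp (I * f x))
        + ∫ x in q..b, cexp (I * f x) := by
    rw [intervalIntegral.integral_add_adjacent_intervals (hi a p hp.1 hap) (hi p q hq.1 hpq),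
      intervalIntegral.integral_add_adjacent_intervals
        (hi a q (hp.1.trans hq.1) (Set.Icc_subset_Icc_right hq.2)) (hi q b hq.2 hqb)]
  rw [hsplit]
  calc ‖(∫ x in a..p, cexp (I * f x)) + (∫ x in p..q, cexp (I * f x))
        + ∫ x in q..b, cexp (I * f x)‖
      ≤ 3 / m + 2 / m + 3 / m := norm_add_le_of_le (norm_add_le_of_le hA hB) hC
    _ = 8 / m := by ring

/-- Second derivative test (van der Corput). -/
theorem second_test {a b l : ℝ} (hab : a ≤ b) (hl : 0 < l) (f f' f'' : ℝ → ℝ)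
    (h1 : ∀ x ∈ Set.Icc a b, HasDerivAt f (f' x) x)
    (h2 : ∀ x ∈ Set.Icc a b, HasDerivAt f' (f'' x) x)
    (hc : ContinuousOn f'' (Set.Icc a b))
    (hs : (∀ x ∈ Set.Icc a b, l ≤ f'' x) ∨ (∀ x ∈ Set.Icc a b, f'' x ≤ -l)) :
    ‖∫ x in a..b, cexp (I * f x)‖ ≤ 8 / Real.sqrt l := by
  rcases hs with h | h
  · exact OS1b_pos hab hl f f' f'' h1 h2 hc h
  · have h3 := OS1b_pos hab hl (fun x => -f x) (fun x => -f' x) (fun x => -f'' x)
      (fun x hx => (h1 x hx).neg) (fun x hx => (h2 x hx).neg) hc.neg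
      (fun x hx => by have := h x hx; linarith)
    have h4 : ∫ x in a..b, cexp (I * ((-f x : ℝ) : ℂ))
        = (starRingEnd ℂ) (∫ x in a..b, cexp (I * f x)) := by
      rw [intervalIntegral.integral_of_le hab, intervalIntegral.integral_of_le hab, ← integral_conj]
      apply integral_congr_ae
      filter_upwards with x
      rw [← Complex.exp_conj, map_mul, Complex.conj_I, Complex.conj_ofReal]
      congr 1
      push_cast
      ring
    rw [h4, Complex.norm_conj] at h3
    exact h3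

end RV11
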