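import Mathlib

open Complex Real MeasureTheory

namespace RV11

/-- Integration by parts with a `C¹` amplitude and a variable bound for the partial integrals. -/
theorem amp_smooth {a b : ℝ} (hab : a ≤ b) (A A' g : ℝ → ℂ) (M : ℝ → ℝ)
    (hA : ∀ t ∈ Set.Icc a b, HasDerivAt A (A' t) t) (hA' : ContinuousOn A' (Set.Icc a b))
    (hg : ContinuousOn g (Set.Icc a b)) (hM : ContinuousOn M (Set.Icc a b))
    (hb : ∀ t ∈ Set.Icc a b, ‖∫ x in a..t, g x‖ ≤ M t) :
    ‖∫ x in a..b, A x * g x‖ ≤ ‖A b‖ * M b + ∫ t in a..b, ‖A' t‖ * M t := by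
  have hu : Set.uIcc a b = Set.Icc a b := Set.uIcc_of_le hab
  have hgi : IntervalIntegrable g volume a b := by
    apply ContinuousOn.intervalIntegrable; rw [hu]; exact hg
  have hA'i : IntervalIntegrable A' volume a b := by
    apply ContinuousOn.intervalIntegrable; rw [hu]; exact hA'
  have hAc : ContinuousOn A (Set.Icc a b) := fun t ht => (hA t ht).continuousAt.continuousWithinAt
  set F : ℝ → ℂ := fun t => ∫ x in a..t, g x with hF
  have hFc : ContinuousOn F (Set.Icc a b) := by
    have := intervalIntegral.continuousOn_primitive_interval (f := g) (μ := volume) (a := a) (b := b)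
      (by rw [hu]; exact hg.integrableOn_Icc)
    rw [hu] at this
    exact this
  have hFd : ∀ x ∈ Set.Ioo (min a b) (max a b), HasDerivWithinAt F (g x) (Set.Ioi x) x := by
    intro x hx
    rw [min_eq_left hab, max_eq_right hab] at hx
    have hgx : ContinuousAt g x := hg.continuousAt (Icc_mem_nhds hx.1 hx.2)
    have h1 : IntervalIntegrable g volume a x := by
      apply ContinuousOn.intervalIntegrable
      rw [Set.uIcc_of_le hx.1.le]
      exact hg.mono (Set.Icc_subset_Icc le_rfl hx.2.le)
    have hm : StronglyMeasurableAtFilter g (nhds x) volume :=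
      ContinuousOn.stronglyMeasurableAtFilter (s := Set.Ioo a b) isOpen_Ioo
        (hg.mono Set.Ioo_subset_Icc_self) x hx
    exact (intervalIntegral.integral_hasDerivAt_right h1 hm hgx).hasDerivWithinAt
  have hAd : ∀ x ∈ Set.Ioo (min a b) (max a b), HasDerivWithinAt A (A' x) (Set.Ioi x) x := by
    intro x hx
    rw [min_eq_left hab, max_eq_right hab] at hx
    exact (hA x ⟨hx.1.le, hx.2.le⟩).hasDerivWithinAt
  have key := intervalIntegral.integral_mul_deriv_eq_deriv_mul_of_hasDeriv_right (u := A) (v := F)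
    (u' := A') (v' := g) (by rw [hu]; exact hAc) (by rw [hu]; exact hFc) hAd hFd hA'i hgi
  have hFa : F a = 0 := by simp [hF]
  rw [key, hFa, mul_zero, sub_zero]
  have hbb : b ∈ Set.Icc a b := ⟨hab, le_rfl⟩
  have e1 : ‖A b * F b‖ ≤ ‖A b‖ * M b := by
    rw [norm_mul]
    exact mul_le_mul_of_nonneg_left (hb b hbb) (norm_nonneg _)
  have e2 : ‖∫ x in a..b, A' x * F x‖ ≤ ∫ t in a..b, ‖A' t‖ * M t := by
    refine (intervalIntegral.norm_integral_le_integral_norm hab).trans ?_
    apply intervalIntegral.integral_mono_on hab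
    · apply ContinuousOn.intervalIntegrable
      rw [hu]
      exact (hA'.mul hFc).norm
    · apply ContinuousOn.intervalIntegrable
      rw [hu]
      exact hA'.norm.mul hM
    · intro x hx
      rw [norm_mul]
      exact mul_le_mul_of_nonneg_left (hb x hx) (norm_nonneg _)
  exact (norm_sub_le _ _).trans (add_le_add e1 e2)

end RV11
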