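import Pool.Agent.LibRV11.AI4b
import Pool.Agent.LibRV11.OS1b
import Pool.Agent.LibRV11.OS2a

open Complex Real MeasureTheory

namespace RV11

theorem AI5a_cont_exp (n : ℕ) {R y : ℝ} (hR : 0 ≤ R) (hy : 0 < y) :
    Continuous (fun t : ℝ => cexp (I * phsW n R y t)) := by
  obtain ⟨f', f'', h1, _, _, _, _⟩ := phsW_deriv n hR hy
  have hc : Continuous (phsW n R y) :=
    continuous_iff_continuousAt.mpr (fun t => (h1 t).continuousAt)
  have := Complex.continuous_ofReal.comp hc
  exact Complex.continuous_exp.comp (continuous_const.mul this)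

/-- Second derivative test on `[a,t]` gives `‖∫_a^t e^{iψ}‖ ≤ 8/√(4R/t³) = 4 t^{3/2}/√R`; then
`amp_smooth`: `≤ 4b/√R + ∫_a^b 8/√R ≤ 12 b/√R ≤ 24/√n`. -/
theorem wall_low {n : ℕ} (hn : 1 ≤ n) {R y a b : ℝ} (hR : 0 < R) (hy : 0 < y) (ha : 5 * y ≤ a)
    (hab : a ≤ b) (hb : n * b ^ 2 ≤ 4 * R) :
    ‖∫ t in a..b, ampW R y t * cexp (I * phsW n R y t)‖ ≤ 24 / Real.sqrt n := by
  obtain ⟨f', f'', h1, h2, hc2, h3, _⟩ := phsW_deriv n hR.le hy
  obtain ⟨A', hA1, hA2, hA3⟩ := ampW_deriv hR.le hy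
  have ha0 : 0 < a := by linarith
  have hb0 : 0 < b := by linarith
  have hsR : 0 < Real.sqrt R := Real.sqrt_pos.mpr hR
  have hn0 : (0 : ℝ) < n := by exact_mod_cast hn
  have hsn : 0 < Real.sqrt n := Real.sqrt_pos.mpr hn0
  set M : ℝ → ℝ := fun t => 4 * t ^ (3 / 2 : ℝ) / Real.sqrt R with hM
  have hMc : ContinuousOn M (Set.Icc a b) := by
    apply ContinuousOn.div_const
    apply ContinuousOn.mul continuousOn_const
    apply ContinuousOn.rpow_const continuousOn_id
    intro x hx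
    left
    exact ne_of_gt (lt_of_lt_of_le ha0 hx.1)
  have key : ∀ t ∈ Set.Icc a b, ‖∫ x in a..t, cexp (I * phsW n R y x)‖ ≤ M t := by
    intro t ht
    have ht0 : 0 < t := lt_of_lt_of_le ha0 ht.1
    have hl : 0 < 4 * R / t ^ 3 := by positivity
    have := second_test (l := 4 * R / t ^ 3) ht.1 hl (phsW n R y) f' f''
      (fun x _ => h1 x) (fun x _ => h2 x) hc2.continuousOn
      (Or.inr (fun x hx => by
        have hx0 : 0 < x := lt_of_lt_of_le ha0 hx.1
        have e := h3 x (le_trans ha hx.1)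
        have : 4 * R / t ^ 3 ≤ 4 * R / x ^ 3 := by
          apply div_le_div_of_nonneg_left (by positivity) (by positivity)
          exact pow_le_pow_left₀ hx0.le hx.2 3
        linarith))
    refine this.trans (le_of_eq ?_)
    rw [hM]
    simp only
    have e1 : Real.sqrt (4 * R / t ^ 3) = 2 * Real.sqrt R / t ^ (3 / 2 : ℝ) := by
      rw [Real.sqrt_eq_iff_mul_self_eq (by positivity) (by positivity)]
      have e2 : t ^ (3 / 2 : ℝ) * t ^ (3 / 2 : ℝ) = t ^ 3 := by
        rw [← Real.rpow_add ht0, ← Real.rpow_natCast]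
        norm_num
      have e3 := Real.mul_self_sqrt hR.le
      rw [div_mul_div_comm, e2]
      congr 1
      nlinarith
    rw [e1]
    field_simp
    ring
  have main := amp_smooth hab (ampW R y) A' (fun x => cexp (I * phsW n R y x)) M
    (fun t _ => hA1 t) hA2.continuousOn (AI5a_cont_exp n hR.le hy).continuousOn hMc key
  refine main.trans ?_
  have t1 : ‖ampW R y b‖ * M b ≤ 4 * b / Real.sqrt R := by
    have e := ampW_norm_le hR.le hy (ne_of_gt hb0)
    rw [abs_of_pos hb0] at e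
    have hMb : 0 ≤ M b := by rw [hM]; positivity
    calc ‖ampW R y b‖ * M b ≤ b ^ (-(1 / 2) : ℝ) * M b := mul_le_mul_of_nonneg_right e hMb
      _ = 4 * b / Real.sqrt R := by
        rw [hM]
        simp only
        have : b ^ (-(1 / 2) : ℝ) * b ^ (3 / 2 : ℝ) = b := by
          rw [← Real.rpow_add hb0]; norm_num
        calc b ^ (-(1 / 2) : ℝ) * (4 * b ^ (3 / 2 : ℝ) / Real.sqrt R)
            = 4 * (b ^ (-(1 / 2) : ℝ) * b ^ (3 / 2 : ℝ)) / Real.sqrt R := by ring
          _ = _ := by rw [this]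
  have t2 : ∫ t in a..b, ‖A' t‖ * M t ≤ 8 * b / Real.sqrt R := by
    have e1 : ∫ t in a..b, ‖A' t‖ * M t ≤ ∫ t in a..b, (8 / Real.sqrt R : ℝ) := by
      apply intervalIntegral.integral_mono_on hab
      · apply ContinuousOn.intervalIntegrable
        rw [Set.uIcc_of_le hab]
        exact hA2.norm.continuousOn.mul hMc
      · exact intervalIntegrable_const
      · intro t ht
        have ht0 : 0 < t := lt_of_lt_of_le ha0 ht.1
        have hMt : 0 ≤ M t := by rw [hM]; positivity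
        calc ‖A' t‖ * M t ≤ (2 * t ^ (-(3 / 2) : ℝ)) * M t :=
              mul_le_mul_of_nonneg_right (hA3 t ht0) hMt
          _ = 8 / Real.sqrt R := by
            rw [hM]
            simp only
            have : t ^ (-(3 / 2) : ℝ) * t ^ (3 / 2 : ℝ) = 1 := by
              rw [← Real.rpow_add ht0]; norm_num
            calc 2 * t ^ (-(3 / 2) : ℝ) * (4 * t ^ (3 / 2 : ℝ) / Real.sqrt R)
                = 8 * (t ^ (-(3 / 2) : ℝ) * t ^ (3 / 2 : ℝ)) / Real.sqrt R := by ring
              _ = _ := by rw [this]; ring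
    refine e1.trans ?_
    rw [intervalIntegral.integral_const, smul_eq_mul]
    rw [show 8 * b / Real.sqrt R = b * (8 / Real.sqrt R) by ring]
    apply mul_le_mul_of_nonneg_right (by linarith) (by positivity)
  have t3 : b / Real.sqrt R ≤ 2 / Real.sqrt n := by
    rw [div_le_div_iff₀ hsR hsn]
    have h4 : Real.sqrt (n * b ^ 2) ≤ Real.sqrt (4 * R) := Real.sqrt_le_sqrt hb
    rw [Real.sqrt_mul hn0.le, Real.sqrt_sq hb0.le, Real.sqrt_mul (by norm_num : (0:ℝ) ≤ 4),
      show Real.sqrt 4 = 2 by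
        rw [show (4 : ℝ) = 2 ^ 2 by norm_num]; exact Real.sqrt_sq (by norm_num)] at h4
    linarith
  calc ‖ampW R y b‖ * M b + ∫ t in a..b, ‖A' t‖ * M t
      ≤ 4 * b / Real.sqrt R + 8 * b / Real.sqrt R := add_le_add t1 t2
    _ = 12 * (b / Real.sqrt R) := by ring
    _ ≤ 12 * (2 / Real.sqrt n) := by linarith
    _ = 24 / Real.sqrt n := by ring

/-- First derivative test on `[a,t]` gives `3/(2n)`; then `amp_smooth`. -/
theorem wall_high {n : ℕ} (hn : 1 ≤ n) {R y a b : ℝ} (hR : 0 ≤ R) (hy : 0 < y) (ha : 5 * y ≤ a)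
    (ha' : 10 / n ≤ a) (hab : a ≤ b) (hb : 4 * R ≤ n * a ^ 2) :
    ‖∫ t in a..b, ampW R y t * cexp (I * phsW n R y t)‖ ≤ 3 / Real.sqrt n := by
  obtain ⟨f', f'', h1, h2, hc2, h3, h4⟩ := phsW_deriv n hR hy
  obtain ⟨A', hA1, hA2, hA3⟩ := ampW_deriv hR hy
  have ha0 : 0 < a := by linarith
  have hb0 : 0 < b := by linarith
  have hn0 : (0 : ℝ) < n := by exact_mod_cast hn
  have hsn : 0 < Real.sqrt n := Real.sqrt_pos.mpr hn0
  have key : ∀ t ∈ Set.Icc a b, ‖∫ x in a..t, cexp (I * phsW n R y x)‖ ≤ 3 / (2 * n) := by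
    intro t ht
    apply first_test (l := 2 * n) ht.1 (by positivity) (phsW n R y) f' f''
      (fun x _ => h1 x) (fun x _ => h2 x) hc2.continuousOn
    · right
      intro x hx
      have hx0 : 0 < x := lt_of_lt_of_le ha0 hx.1
      have e := h3 x (le_trans ha hx.1)
      have : 0 ≤ 4 * R / x ^ 3 := by positivity
      linarith
    · right
      intro x hx
      apply h4 x (le_trans ha hx.1)
      refine hb.trans ?_
      apply mul_le_mul_of_nonneg_left _ hn0.le
      exact pow_le_pow_left₀ ha0.le hx.1 2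
  have main := amp_smooth hab (ampW R y) A' (fun x => cexp (I * phsW n R y x))
    (fun _ => 3 / (2 * n)) (fun t _ => hA1 t) hA2.continuousOn
    (AI5a_cont_exp n hR hy).continuousOn continuousOn_const key
  refine main.trans ?_
  have e := ampW_norm_le hR hy (ne_of_gt hb0)
  rw [abs_of_pos hb0] at e
  have hM0 : (0 : ℝ) ≤ 3 / (2 * n) := by positivity
  have t2 : ∫ t in a..b, ‖A' t‖ * (3 / (2 * n)) ≤
      (4 * (a ^ (-(1 / 2) : ℝ) - b ^ (-(1 / 2) : ℝ))) * (3 / (2 * n)) := by
    rw [intervalIntegral.integral_mul_const]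
    apply mul_le_mul_of_nonneg_right _ hM0
    have e1 : ∫ t in a..b, ‖A' t‖ ≤ ∫ t in a..b, 2 * t ^ (-(3 / 2) : ℝ) := by
      apply intervalIntegral.integral_mono_on hab
      · exact hA2.norm.intervalIntegrable _ _
      · apply ContinuousOn.intervalIntegrable
        rw [Set.uIcc_of_le hab]
        apply ContinuousOn.mul continuousOn_const
        apply ContinuousOn.rpow_const continuousOn_id
        intro x hx
        left
        exact ne_of_gt (lt_of_lt_of_le ha0 hx.1)
      · intro t ht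
        exact hA3 t (lt_of_lt_of_le ha0 ht.1)
    refine e1.trans (le_of_eq ?_)
    rw [intervalIntegral.integral_const_mul, integral_rpow]
    · rw [show (-(3 / 2) : ℝ) + 1 = -(1 / 2) by norm_num]
      ring
    · right
      refine ⟨by norm_num, ?_⟩
      rw [Set.uIcc_of_le hab]
      intro h
      linarith [h.1]
  have t3 : b ^ (-(1 / 2) : ℝ) ≤ a ^ (-(1 / 2) : ℝ) :=
    Real.rpow_le_rpow_of_nonpos ha0 hab (by norm_num)
  have t5 : 0 ≤ b ^ (-(1 / 2) : ℝ) := Real.rpow_nonneg hb0.le _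
  have t4 : a ^ (-(1 / 2) : ℝ) ≤ Real.sqrt n / 3 := by
    rw [Real.rpow_neg ha0.le, ← Real.sqrt_eq_rpow, ← Real.sqrt_inv]
    have : a⁻¹ ≤ n / 10 := by
      rw [inv_le_comm₀ ha0 (by positivity)]
      have : ((n : ℝ) / 10)⁻¹ = 10 / n := by rw [inv_div]
      rw [this]; exact ha'
    calc Real.sqrt a⁻¹ ≤ Real.sqrt (n / 9) := by
          apply Real.sqrt_le_sqrt
          refine this.trans ?_
          apply div_le_div_of_nonneg_left hn0.le (by norm_num) (by norm_num)
      _ = Real.sqrt n / 3 := by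
          rw [Real.sqrt_div hn0.le, show Real.sqrt 9 = 3 by
            rw [show (9 : ℝ) = 3 ^ 2 by norm_num]; exact Real.sqrt_sq (by norm_num)]
  calc ‖ampW R y b‖ * (3 / (2 * n)) + ∫ t in a..b, ‖A' t‖ * (3 / (2 * n))
      ≤ b ^ (-(1 / 2) : ℝ) * (3 / (2 * n)) +
        (4 * (a ^ (-(1 / 2) : ℝ) - b ^ (-(1 / 2) : ℝ))) * (3 / (2 * n)) :=
        add_le_add (mul_le_mul_of_nonneg_right e hM0) t2
    _ = (4 * a ^ (-(1 / 2) : ℝ) - 3 * b ^ (-(1 / 2) : ℝ)) * (3 / (2 * n)) := by ring
    _ ≤ (4 * (Real.sqrt n / 3)) * (3 / (2 * n)) := by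
        apply mul_le_mul_of_nonneg_right _ hM0
        linarith
    _ = 2 / Real.sqrt n := by
        have hs : Real.sqrt n * Real.sqrt n = n := Real.mul_self_sqrt hn0.le
        field_simp
        nlinarith
    _ ≤ 3 / Real.sqrt n := by
        apply div_le_div_of_nonneg_right (by norm_num) hsn.le

end RV11
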