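import Pool.Agent.LibRV11.AI4a

open Complex Real MeasureTheory

namespace RV11

theorem AI5b_bound {t : ℝ} (ht : t ≠ 0) :
    |t| ^ (-(1 / 2) : ℝ) = t ^ (-(1 / 2) : ℝ) + (-t) ^ (-(1 / 2) : ℝ) := by
  have hc : Real.cos (-(1 / 2) * π) = 0 := by
    have : -(1 / 2) * π = -(π / 2) := by ring
    rw [this, Real.cos_neg, Real.cos_pi_div_two]
  rcases lt_or_gt_of_ne ht with h | h
  · rw [abs_of_neg h, Real.rpow_def_of_neg h, hc]
    simp
  · rw [abs_of_pos h]
    have h' : -t < 0 := by linarith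
    rw [Real.rpow_def_of_neg h', hc]
    simp

theorem AI5b_int (c : ℝ) (hc : 0 ≤ c) :
    ∫ t in (-c)..c, (t ^ (-(1 / 2) : ℝ) + (-t) ^ (-(1 / 2) : ℝ)) = 4 * Real.sqrt c := by
  have h1 : ∀ a b : ℝ, IntervalIntegrable (fun t : ℝ => t ^ (-(1 / 2) : ℝ)) volume a b :=
    fun a b => intervalIntegral.intervalIntegrable_rpow' (by norm_num)
  have h2 : ∀ a b : ℝ, IntervalIntegrable (fun t : ℝ => (-t) ^ (-(1 / 2) : ℝ)) volume a b := by
    intro a b
    have := (h1 (-a) (-b)).comp_mul_left (c := -1)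
    simpa using this
  rw [intervalIntegral.integral_add (h1 _ _) (h2 _ _)]
  have h3 : ∫ t in (-c)..c, (-t) ^ (-(1 / 2) : ℝ) = ∫ t in (-c)..c, t ^ (-(1 / 2) : ℝ) := by
    rw [intervalIntegral.integral_comp_neg (fun t : ℝ => t ^ (-(1 / 2) : ℝ))]
    simp
  have h4 : ∫ t in (-c)..c, t ^ (-(1 / 2) : ℝ) = 2 * Real.sqrt c := by
    rw [integral_rpow (Or.inl (by norm_num))]
    have e1 : (-(1 / 2) : ℝ) + 1 = 1 / 2 := by norm_num
    rw [e1, ← Real.sqrt_eq_rpow]
    have e2 : (-c) ^ (1 / 2 : ℝ) = 0 := by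
      rw [← Real.sqrt_eq_rpow]
      exact Real.sqrt_eq_zero_of_nonpos (by linarith)
    rw [e2]
    ring
  rw [h3, h4]
  ring

/-- Trivial estimate near `0`. -/
theorem wall_zero {n : ℕ} (hn : 1 ≤ n) {R y a b : ℝ} (hR : 0 ≤ R) (hy : 0 < y)
    (ha : -(10 / n) ≤ a) (hab : a ≤ b) (hb : b ≤ 10 / n) :
    ‖∫ t in a..b, ampW R y t * cexp (I * phsW n R y t)‖ ≤ 13 / Real.sqrt n := by
  have hn0 : (0 : ℝ) < n := by exact_mod_cast hn
  have h1 : ∀ a b : ℝ, IntervalIntegrable (fun t : ℝ => t ^ (-(1 / 2) : ℝ)) volume a b :=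
    fun a b => intervalIntegral.intervalIntegrable_rpow' (by norm_num)
  have h2 : ∀ a b : ℝ, IntervalIntegrable (fun t : ℝ => (-t) ^ (-(1 / 2) : ℝ)) volume a b := by
    intro a b
    have := (h1 (-a) (-b)).comp_mul_left (c := -1)
    simpa using this
  set g : ℝ → ℝ := fun t => t ^ (-(1 / 2) : ℝ) + (-t) ^ (-(1 / 2) : ℝ) with hg
  have hgi : ∀ a b : ℝ, IntervalIntegrable g volume a b := fun a b => (h1 a b).add (h2 a b)
  have hne : ∀ᵐ t : ℝ ∂volume, t ≠ 0 := by
    have : (volume : Measure ℝ) {0} = 0 := by simp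
    exact compl_mem_ae_iff.mpr this
  have hbd : ∀ᵐ t : ℝ ∂volume, t ∈ Set.Ioc a b →
      ‖ampW R y t * cexp (I * phsW n R y t)‖ ≤ g t := by
    filter_upwards [hne] with t ht _
    rw [norm_mul, hg]
    have e1 : ‖cexp (I * phsW n R y t)‖ = 1 := by
      rw [mul_comm]
      exact Complex.norm_exp_ofReal_mul_I _
    rw [e1, mul_one]
    simp only
    rw [← AI5b_bound ht]
    exact ampW_norm_le hR hy ht
  have h3 := intervalIntegral.norm_integral_le_of_norm_le hab hbd (hgi a b)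
  have hg0 : ∀ᵐ t : ℝ ∂volume, 0 ≤ g t := by
    filter_upwards [hne] with t ht
    rw [hg]
    simp only
    rw [← AI5b_bound ht]
    positivity
  have h4 : ∫ t in a..b, g t ≤ ∫ t in (-(10 / n : ℝ))..(10 / n), g t :=
    intervalIntegral.integral_mono_interval ha hab hb (ae_restrict_of_ae hg0) (hgi _ _)
  have h5 : ∫ t in (-(10 / n : ℝ))..(10 / n), g t = 4 * Real.sqrt (10 / n) :=
    AI5b_int _ (by positivity)
  have h6 : 4 * Real.sqrt (10 / n) ≤ 13 / Real.sqrt n := by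
    rw [Real.sqrt_div (by norm_num)]
    rw [← mul_div_assoc]
    apply div_le_div_of_nonneg_right _ (Real.sqrt_nonneg _)
    have : Real.sqrt 10 ≤ 13 / 4 := by
      rw [Real.sqrt_le_left (by norm_num)]
      norm_num
    linarith
  calc _ ≤ _ := h3
    _ ≤ _ := h4
    _ = _ := h5
    _ ≤ _ := h6

theorem AI5b_neg (n : ℕ) {R y : ℝ} (hy : 0 < y) (t : ℝ) :
    ampW R y (-t) * cexp (I * phsW n R y (-t)) =
      (starRingEnd ℂ) (ampW R y t * cexp (I * phsW n R y t)) := by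
  have h1 : phsW n R y (-t) = - phsW n R y t := by
    unfold phsW
    rw [neg_sq]
    ring
  have h2 : ampW R y (-t) = (starRingEnd ℂ) (ampW R y t) := by
    unfold ampW
    rw [map_mul, Complex.conj_ofReal, neg_sq]
    congr 1
    have harg : (-I * ((t : ℂ) + I * y)).arg ≠ π := by
      intro h
      rw [Complex.arg_eq_pi_iff] at h
      have : (-I * ((t : ℂ) + I * y)).re = y := by simp
      rw [this] at h
      linarith [h.1]
    have e1 : (starRingEnd ℂ) (-(1 / 2) : ℂ) = (-(1 / 2) : ℂ) := by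
      rw [map_neg, map_div₀, map_one, map_ofNat]
    have := Complex.conj_cpow (-I * ((t : ℂ) + I * y)) (-(1 / 2)) harg
    rw [e1] at this
    rw [← this]
    congr 1
    simp only [map_mul, map_neg, map_add, Complex.conj_I, Complex.conj_ofReal, Complex.ofReal_neg]
    ring
  rw [map_mul, h2, h1]
  congr 1
  rw [← Complex.exp_conj]
  congr 1
  simp only [map_mul, Complex.conj_I, Complex.conj_ofReal, Complex.ofReal_neg]
  ring

/-- `ampW(-t) = conj ampW(t)`, `phsW(-t) = -phsW(t)`. -/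
theorem wall_neg (n : ℕ) {R y : ℝ} (hy : 0 < y) (a b : ℝ) :
    ∫ t in a..b, ampW R y t * cexp (I * phsW n R y t) =
      (starRingEnd ℂ) (∫ t in (-b)..(-a), ampW R y t * cexp (I * phsW n R y t)) := by
  rw [← intervalIntegral.intervalIntegral_conj,
    ← intervalIntegral.integral_comp_neg
      (fun t => (starRingEnd ℂ) (ampW R y t * cexp (I * phsW n R y t)))]
  congr 1
  funext t
  rw [AI5b_neg n hy, Complex.conj_conj]

end RV11
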