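import Pool.Agent.LibRV11.AI5a
import Pool.Agent.LibRV11.AI5b

open Complex Real MeasureTheory

namespace RV11

theorem AI5c_cont (n : ℕ) {R y : ℝ} (hR : 0 ≤ R) (hy : 0 < y) :
    Continuous (fun t : ℝ => ampW R y t * cexp (I * phsW n R y t)) := by
  obtain ⟨A', hA1, _, _⟩ := ampW_deriv hR hy
  have hc : Continuous (ampW R y) :=
    continuous_iff_continuousAt.mpr (fun t => (hA1 t).continuousAt)
  exact hc.mul (AI5a_cont_exp n hR hy)

theorem AI5c_split (n : ℕ) {R y : ℝ} (hR : 0 ≤ R) (hy : 0 < y) (a b c : ℝ) {u v : ℝ}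
    (h1 : ‖∫ t in a..b, ampW R y t * cexp (I * phsW n R y t)‖ ≤ u)
    (h2 : ‖∫ t in b..c, ampW R y t * cexp (I * phsW n R y t)‖ ≤ v) :
    ‖∫ t in a..c, ampW R y t * cexp (I * phsW n R y t)‖ ≤ u + v := by
  have hc := AI5c_cont n hR hy
  rw [← intervalIntegral.integral_add_adjacent_intervals (hc.intervalIntegrable a b)
    (hc.intervalIntegrable b c)]
  exact (norm_add_le _ _).trans (add_le_add h1 h2)

theorem AI5c_pos {n : ℕ} (hn : 1 ≤ n) {R y a b : ℝ} (hR : 0 ≤ R) (hy : 0 < y)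
    (hny : n * y ≤ 2) (ha : 10 / n ≤ a) (hab : a ≤ b) :
    ‖∫ t in a..b, ampW R y t * cexp (I * phsW n R y t)‖ ≤ 27 / Real.sqrt n := by
  have hn0 : (0 : ℝ) < n := by exact_mod_cast hn
  have hsn : 0 < Real.sqrt n := Real.sqrt_pos.mpr hn0
  have hy5 : 5 * y ≤ 10 / n := by
    rw [le_div_iff₀ hn0]; nlinarith
  have ha5 : 5 * y ≤ a := hy5.trans ha
  have ha0 : 0 < a := by linarith
  have hb0 : 0 < b := by linarith
  set m : ℝ := 2 * Real.sqrt (R / n) with hm
  have hm0 : 0 ≤ m := by positivity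
  have hnm : n * m ^ 2 = 4 * R := by
    rw [hm, mul_pow, Real.sq_sqrt (by positivity)]
    field_simp
    ring
  have e1 : 24 / Real.sqrt n ≤ 27 / Real.sqrt n :=
    div_le_div_of_nonneg_right (by norm_num) hsn.le
  have e2 : 3 / Real.sqrt n ≤ 27 / Real.sqrt n :=
    div_le_div_of_nonneg_right (by norm_num) hsn.le
  have hlow : ∀ x, a ≤ x → x ≤ m → n * x ^ 2 ≤ 4 * R := by
    intro x hx1 hx2
    rw [← hnm]
    apply mul_le_mul_of_nonneg_left _ hn0.le
    exact pow_le_pow_left₀ (by linarith) hx2 2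
  have hRpos : a ≤ m → 0 < R := by
    intro h
    rcases hR.lt_or_eq with h' | h'
    · exact h'
    · exfalso
      rw [← h'] at hm
      simp at hm
      linarith
  rcases le_total b m with h | h
  · exact (wall_low hn (hRpos (hab.trans h)) hy ha5 hab (hlow b hab h)).trans e1
  · rcases le_total m a with h' | h'
    · refine (wall_high hn hR hy ha5 ha hab ?_).trans e2
      rw [← hnm]
      apply mul_le_mul_of_nonneg_left _ hn0.le
      exact pow_le_pow_left₀ hm0 h' 2
    · have := AI5c_split n hR hy a m b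
        (wall_low hn (hRpos h') hy ha5 h' (hlow m h' le_rfl))
        (wall_high hn hR hy (ha5.trans h') (ha.trans h') h (le_of_eq hnm.symm))
      refine this.trans (le_of_eq ?_)
      rw [← add_div]; norm_num

theorem AI5c_neg {n : ℕ} (hn : 1 ≤ n) {R y a b : ℝ} (hR : 0 ≤ R) (hy : 0 < y)
    (hny : n * y ≤ 2) (hb : b ≤ -(10 / n)) (hab : a ≤ b) :
    ‖∫ t in a..b, ampW R y t * cexp (I * phsW n R y t)‖ ≤ 27 / Real.sqrt n := by
  rw [wall_neg n hy a b, RCLike.norm_conj]
  exact AI5c_pos hn hR hy hny (by linarith) (by linarith)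

theorem AI5c_ge {n : ℕ} (hn : 1 ≤ n) {R y a b : ℝ} (hR : 0 ≤ R) (hy : 0 < y)
    (hny : n * y ≤ 2) (ha : -(10 / n) ≤ a) (hab : a ≤ b) :
    ‖∫ t in a..b, ampW R y t * cexp (I * phsW n R y t)‖ ≤ 40 / Real.sqrt n := by
  have hn0 : (0 : ℝ) < n := by exact_mod_cast hn
  have hsn : 0 < Real.sqrt n := Real.sqrt_pos.mpr hn0
  rcases le_total b (10 / n) with h | h
  · exact (wall_zero hn hR hy ha hab h).trans
      (div_le_div_of_nonneg_right (by norm_num) hsn.le)
  · rcases le_total (10 / n : ℝ) a with h' | h'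
    · exact (AI5c_pos hn hR hy hny h' hab).trans
        (div_le_div_of_nonneg_right (by norm_num) hsn.le)
    · have := AI5c_split n hR hy a (10 / n) b
        (wall_zero hn hR hy ha h' le_rfl) (AI5c_pos hn hR hy hny le_rfl h)
      refine this.trans (le_of_eq ?_)
      rw [← add_div]; norm_num

/-- Split at `±10/n` and `±2√(R/n)`. -/
theorem wall_osc : ∃ C : ℝ, 0 ≤ C ∧ ∀ n : ℕ, 1 ≤ n → ∀ y : ℝ, 0 < y → n * y ≤ 2 → ∀ R : ℝ, 0 ≤ R →
    ∀ a b : ℝ, a ≤ b →
      ‖∫ t in a..b, (-I * (t + I * y)) ^ (-(1 / 2) : ℂ) * cexp (-(π * I * R / (t + I * y))) *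
        cexp (-(π * I * n * t))‖ ≤ C / Real.sqrt n := by
  refine ⟨67, by norm_num, ?_⟩
  intro n hn y hy hny R hR a b hab
  have hn0 : (0 : ℝ) < n := by exact_mod_cast hn
  have hsn : 0 < Real.sqrt n := Real.sqrt_pos.mpr hn0
  have e : ∀ t : ℝ, (-I * (t + I * y)) ^ (-(1 / 2) : ℂ) * cexp (-(π * I * R / (t + I * y))) *
        cexp (-(π * I * n * t)) = ampW R y t * cexp (I * phsW n R y t) :=
    fun t => wall_integrand n R hy t
  simp only [e]
  rcases le_total (-(10 / n : ℝ)) a with h | h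
  · exact (AI5c_ge hn hR hy hny h hab).trans
      (div_le_div_of_nonneg_right (by norm_num) hsn.le)
  · rcases le_total b (-(10 / n : ℝ)) with h' | h'
    · exact (AI5c_neg hn hR hy hny h' hab).trans
        (div_le_div_of_nonneg_right (by norm_num) hsn.le)
    · have := AI5c_split n hR hy a (-(10 / n)) b
        (AI5c_neg hn hR hy hny le_rfl h) (AI5c_ge hn hR hy hny le_rfl h')
      refine this.trans (le_of_eq ?_)
      rw [← add_div]; norm_num

end RV11
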