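import Pool.Agent.LibRV11.Defs
import Pool.Agent.LibRV11.TH0
import Pool.Agent.LibRV11.TH1
open Complex Real MeasureTheory
open UpperHalfPlane hiding I
open scoped MatrixGroups

namespace RV11

private theorem th2_sq (z : ℍ) (c d : ℝ) :
    ‖(c : ℂ) * (z : ℂ) + d‖ ^ 2 = (c * z.re + d) ^ 2 + (c * z.im) ^ 2 := by
  rw [Complex.sq_norm, Complex.normSq_apply]
  simp
  ring

private theorem th2_norm (z : ℍ) : ‖(z : ℂ)‖ ^ 2 = z.re ^ 2 + z.im ^ 2 := by
  rw [Complex.sq_norm, Complex.normSq_apply]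
  simp
  ring

private theorem th2_int {c d : ℤ} (hcd : Odd (c + d)) : (1:ℝ) ≤ (|(c:ℝ)| - |(d:ℝ)|) ^ 2 := by
  have h1 : |c| - |d| ≠ 0 := by
    intro h
    have h2 : Even (|c| - |d|) := by rw [h]; exact Even.zero
    rw [Int.even_sub, even_abs, even_abs] at h2
    rw [← Int.not_even_iff_odd, Int.even_add] at hcd
    exact hcd h2
  have h3 : 1 ≤ (|c| - |d|) ^ 2 := by
    have : 0 < (|c| - |d|) ^ 2 := by positivity
    omega
  exact_mod_cast h3

private theorem th2_key {x n : ℝ} (hx : |x| ≤ 1) (c d : ℝ) :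
    (|c| - |d|) ^ 2 + c ^ 2 * (n - 1) ≤ c ^ 2 * n + 2 * c * d * x + d ^ 2 := by
  have h1 : -(|c| * |d|) ≤ c * d * x := by
    have : |c * d * x| ≤ |c| * |d| := by
      rw [abs_mul, abs_mul]
      exact mul_le_of_le_one_right (by positivity) hx
    exact (abs_le.1 this).1
  nlinarith [sq_abs c, sq_abs d]

/-- T7a -/
theorem one_le_norm_row {z : ℍ} (h1 : |z.re| ≤ 1) (h2 : 1 ≤ ‖(z : ℂ)‖) {c d : ℤ}
    (hcd : Odd (c + d)) : 1 ≤ ‖(c : ℂ) * (z : ℂ) + d‖ := by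
  have e := th2_sq z c d
  push_cast at e
  have h3 := th2_key h1 (n := z.re ^ 2 + z.im ^ 2) (c:ℝ) (d:ℝ)
  have h4 := th2_int hcd
  have h5 : 1 ≤ z.re ^ 2 + z.im ^ 2 := by rw [← th2_norm]; exact one_le_pow₀ h2
  have h6 : (0:ℝ) ≤ (c:ℝ) ^ 2 * (z.re ^ 2 + z.im ^ 2 - 1) := mul_nonneg (by positivity) (by linarith)
  have h7 : 1 ≤ ‖(c : ℂ) * (z : ℂ) + d‖ ^ 2 := by rw [e]; nlinarith
  by_contra hcon
  push Not at hcon
  have := norm_nonneg ((c : ℂ) * (z : ℂ) + d)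
  nlinarith

/-- T7b: strict version. -/
theorem one_lt_norm_row {z : ℍ} (hz : z ∈ DD) {c d : ℤ} (hc : c ≠ 0)
    (hcd : Odd (c + d)) : 1 < ‖(c : ℂ) * (z : ℂ) + d‖ := by
  obtain ⟨h1, h2⟩ := hz
  have e := th2_sq z c d
  push_cast at e
  have h3 := th2_key h1.le (n := z.re ^ 2 + z.im ^ 2) (c:ℝ) (d:ℝ)
  have h4 := th2_int hcd
  have h5 : 1 < z.re ^ 2 + z.im ^ 2 := by rw [← th2_norm]; exact one_lt_pow₀ h2 (by norm_num)
  have hc' : (0:ℝ) < (c:ℝ) ^ 2 := by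
    have : (c:ℝ) ≠ 0 := by exact_mod_cast hc
    positivity
  have h6 : (0:ℝ) < (c:ℝ) ^ 2 * (z.re ^ 2 + z.im ^ 2 - 1) := mul_pos hc' (by linarith)
  have h7 : 1 < ‖(c : ℂ) * (z : ℂ) + d‖ ^ 2 := by rw [e]; nlinarith
  by_contra hcon
  push Not at hcon
  have := norm_nonneg ((c : ℂ) * (z : ℂ) + d)
  nlinarith

theorem le_Np (z : ℍ) (c d : ℝ) : c ^ 2 * z.im ≤ Np z c d := by
  unfold Np
  rw [th2_sq, le_div_iff₀ z.im_pos]
  nlinarith [sq_nonneg (c * z.re + d)]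

/-- T7c -/
theorem one_le_Np {z : ℍ} (hz : z ∈ DD) {c d : ℤ} (hc : c ≠ 0) (hcd : Odd (c + d)) :
    1 ≤ Np z c d := by
  rcases le_total 1 z.im with h | h
  · have h1 := le_Np z c d
    have h2 : (1:ℝ) ≤ (c:ℝ) ^ 2 := by
      have : 1 ≤ c ^ 2 := by
        have : 0 < c ^ 2 := by positivity
        omega
      exact_mod_cast this
    nlinarith
  · have h1 := one_lt_norm_row hz hc hcd
    unfold Np
    rw [le_div_iff₀ z.im_pos]
    push_cast
    nlinarith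

theorem im_smul_eq (g : SL(2, ℤ)) (z : ℍ) : (g • z).im = 1 / Np z (g 1 0) (g 1 1) := by
  rw [ModularGroup.im_smul_eq_div_normSq, Np, ModularGroup.denom_apply, Complex.normSq_eq_norm_sq]
  push_cast
  rw [one_div_div]

/-- T7e -/
theorem eq_one_or_neg_one {z : ℍ} {g : SL(2, ℤ)} (hg : g ∈ Gam) (hz : z ∈ DD) (hgz : g • z ∈ DD) :
    g = 1 ∨ g = -1 := by
  have hdet : g 0 0 * g 1 1 - g 0 1 * g 1 0 = 1 := by
    have := g.det_coe
    rw [Matrix.det_fin_two] at this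
    exact this
  have him : ∀ (k : SL(2, ℤ)) (w : ℍ), w ∈ DD → k ∈ Gam → k 1 0 ≠ 0 → (k • w).im < w.im := by
    intro k w hw hk hk0
    have h1 := one_lt_norm_row hw hk0 (odd_row hk)
    rw [im_smul_eq, Np, one_div_div]
    push_cast
    exact div_lt_self w.im_pos (one_lt_pow₀ h1 (by norm_num))
  by_cases hc : g 1 0 = 0
  · -- translations
    rw [hc, mul_zero, sub_zero] at hdet
    have hre : (g • z).re = (g 0 0 * z.re + g 0 1) / g 1 1 := by
      have h1 : ((g • z : ℍ) : ℂ) = ((g 0 0 : ℂ) * z + g 0 1) / ((g 1 0 : ℂ) * z + g 1 1) := by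
        rw [UpperHalfPlane.specialLinearGroup_apply]
        simp
      have h2 : (g • z).re = ((g • z : ℍ) : ℂ).re := rfl
      rw [h2, h1, hc]
      have h3 : (((0:ℤ) : ℂ) * (z:ℂ) + (g 1 1 : ℂ)) = (((g 1 1 : ℤ) : ℝ) : ℂ) := by push_cast; ring
      rw [h3, Complex.div_ofReal_re]
      simp
    have hb : Even (g 0 1) := by
      have : Even (g 0 1 + g 1 0) := hg.2
      rwa [hc, add_zero] at this
    have h1 := abs_lt.1 hz.1
    have h2 := abs_lt.1 hgz.1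
    rw [hre] at h2
    rcases Int.eq_one_or_neg_one_of_mul_eq_one' hdet with ⟨ha, hd⟩ | ⟨ha, hd⟩
    · rw [ha, hd] at h2
      have h3 : -2 < (g 0 1 : ℝ) ∧ (g 0 1 : ℝ) < 2 := by
        push_cast at h2
        constructor <;> linarith [h2.1, h2.2, h1.1, h1.2]
      have h4 : -2 < g 0 1 ∧ g 0 1 < 2 := by exact_mod_cast h3
      have h5 : g 0 1 = 0 := by
        obtain ⟨e, he⟩ := hb
        omega
      left
      ext i j
      fin_cases i <;> fin_cases j <;> simp [ha, hd, h5, hc]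
    · rw [ha, hd] at h2
      have h3 : -2 < (g 0 1 : ℝ) ∧ (g 0 1 : ℝ) < 2 := by
        push_cast at h2
        constructor <;> linarith [h2.1, h2.2, h1.1, h1.2]
      have h4 : -2 < g 0 1 ∧ g 0 1 < 2 := by exact_mod_cast h3
      have h5 : g 0 1 = 0 := by
        obtain ⟨e, he⟩ := hb
        omega
      right
      ext i j
      fin_cases i <;> fin_cases j <;> simp [ha, hd, h5, hc]
  · exfalso
    have h1 := him g z hz hg hc
    have h2 := him g⁻¹ (g • z) hgz (Gam.inv_mem hg) (by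
      have : (g⁻¹ : SL(2, ℤ)) 1 0 = -(g 1 0) := by
        rw [Matrix.SpecialLinearGroup.coe_inv, Matrix.adjugate_fin_two]
        simp
      rw [this]; simpa using hc)
    rw [inv_smul_smul] at h2
    linarith

end RV11
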