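import Pool.Agent.LibRV11.Defs
import Pool.Agent.LibRV11.TH0
import Pool.Agent.LibRV11.TH1
import Pool.Agent.LibRV11.TH2
open Complex Real MeasureTheory
open UpperHalfPlane hiding I
open scoped MatrixGroups

namespace RV11

/-- shift by an integer -/
private theorem th3_T (n : ℤ) (g : SL(2, ℤ)) :
    ModularGroup.T ^ n * g ∈ Gam ↔
      Even ((g 0 0 + n * g 1 0) + g 1 1) ∧ Even ((g 0 1 + n * g 1 1) + g 1 0) := by
  have e : ∀ i, (ModularGroup.T ^ n * g) 0 i = g 0 i + n * g 1 i ∧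
      (ModularGroup.T ^ n * g) 1 i = g 1 i := by
    intro i
    rw [Matrix.SpecialLinearGroup.coe_mul, ModularGroup.coe_T_zpow]
    simp [Matrix.mul_apply, Fin.sum_univ_two]
  change Even ((ModularGroup.T ^ n * g) 0 0 + (ModularGroup.T ^ n * g) 1 1) ∧
    Even ((ModularGroup.T ^ n * g) 0 1 + (ModularGroup.T ^ n * g) 1 0) ↔ _
  rw [(e 0).1, (e 1).1, (e 0).2, (e 1).2]

private theorem th3_S (g : SL(2, ℤ)) : (ModularGroup.S * g) 0 0 = - g 1 0 ∧
    (ModularGroup.S * g) 0 1 = - g 1 1 ∧ (ModularGroup.S * g) 1 0 = g 0 0 ∧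
    (ModularGroup.S * g) 1 1 = g 0 1 := by
  rw [Matrix.SpecialLinearGroup.coe_mul, ModularGroup.coe_S]
  simp [Matrix.mul_apply, Fin.sum_univ_two]

private theorem th3_par (a b c d : ℤ) (h : ¬ Even (a * d - b * c)) :
    (Even (a + d) ∧ Even (b + c)) ∨
    ((Even ((a + (1 : ℤ) * c) + d) ∧ Even ((b + (1 : ℤ) * d) + c)) ∧
      (Even ((a + (-1 : ℤ) * c) + d) ∧ Even ((b + (-1 : ℤ) * d) + c))) ∨
    ((Even ((-c + (1 : ℤ) * a) + b) ∧ Even ((-d + (1 : ℤ) * b) + a)) ∧
      (Even ((-c + (-1 : ℤ) * a) + b) ∧ Even ((-d + (-1 : ℤ) * b) + a))) := by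
  by_cases ha : Even a <;> by_cases hb : Even b <;> by_cases hc : Even c <;> by_cases hd : Even d <;>
    simp [Int.even_add, Int.even_sub, Int.even_mul, ha, hb, hc, hd] at h ⊢

/-- the three cosets -/
private theorem th3_cases (g : SL(2, ℤ)) : g ∈ Gam ∨
    (ModularGroup.T ^ (1 : ℤ) * g ∈ Gam ∧ ModularGroup.T ^ (-1 : ℤ) * g ∈ Gam) ∨
    (ModularGroup.T ^ (1 : ℤ) * (ModularGroup.S * g) ∈ Gam ∧
      ModularGroup.T ^ (-1 : ℤ) * (ModularGroup.S * g) ∈ Gam) := by
  have hd : g 0 0 * g 1 1 - g 0 1 * g 1 0 = 1 := by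
    have := g.det_coe
    rwa [Matrix.det_fin_two] at this
  have hodd : ¬ Even (g 0 0 * g 1 1 - g 0 1 * g 1 0) := by rw [hd]; decide
  obtain ⟨s1, s2, s3, s4⟩ := th3_S g
  rw [th3_T, th3_T, th3_T, th3_T, s1, s2, s3, s4]
  exact th3_par _ _ _ _ hodd

/-- T7d -/
theorem exists_smul_mem (z : ℍ) : ∃ g ∈ Gam, |(g • z).re| ≤ 1 ∧ 1 ≤ ‖((g • z : ℍ) : ℂ)‖ := by
  obtain ⟨g, hg1, hg2⟩ := ModularGroup.exists_smul_mem_fd z
  set w : ℍ := g • z with hw
  have hn : 1 ≤ w.re ^ 2 + w.im ^ 2 := by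
    have := hg1
    rw [normSq_apply] at this
    change 1 ≤ w.re * w.re + w.im * w.im at this
    nlinarith
  have hn0 : 0 < w.re ^ 2 + w.im ^ 2 := by linarith
  have hre := abs_le.1 hg2
  have hT : ∀ (n : ℤ) (u : ℍ), ((ModularGroup.T ^ n • u : ℍ).re = n + u.re) ∧
      ((ModularGroup.T ^ n • u : ℍ).im = u.im) := by
    intro n u
    rw [modular_T_zpow_smul]
    simp
  have hnorm : ∀ u : ℍ, 1 ≤ u.re ^ 2 + u.im ^ 2 → 1 ≤ ‖(u : ℂ)‖ := by
    intro u hu
    rw [← one_le_sq_iff₀ (norm_nonneg _), Complex.sq_norm, normSq_apply]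
    change 1 ≤ u.re * u.re + u.im * u.im
    nlinarith
  have hS : (ModularGroup.S • w : ℍ).re = - w.re / (w.re ^ 2 + w.im ^ 2) ∧
      (ModularGroup.S • w : ℍ).im = w.im / (w.re ^ 2 + w.im ^ 2) := by
    rw [modular_S_smul]
    constructor
    · change ((-(w : ℂ))⁻¹).re = _
      rw [Complex.inv_re, normSq_neg, normSq_apply]
      change - w.re / (w.re * w.re + w.im * w.im) = _
      rw [← sq, ← sq]
    · change ((-(w : ℂ))⁻¹).im = _
      rw [Complex.inv_im, normSq_neg, normSq_apply]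
      change - (- w.im) / (w.re * w.re + w.im * w.im) = _
      rw [← sq, ← sq, neg_neg]
  rcases th3_cases g with h | ⟨h1, h2⟩ | ⟨h1, h2⟩
  · refine ⟨g, h, ?_, hnorm _ hn⟩
    rw [← hw]
    exact hg2.trans (by norm_num)
  · rcases le_total w.re 0 with h0 | h0
    · refine ⟨_, h1, ?_⟩
      rw [mul_smul, ← hw]
      obtain ⟨e1, e2⟩ := hT 1 w
      refine ⟨?_, hnorm _ ?_⟩
      · rw [e1, abs_le]; push_cast; constructor <;> linarith
      · rw [e1, e2]; push_cast; nlinarith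
    · refine ⟨_, h2, ?_⟩
      rw [mul_smul, ← hw]
      obtain ⟨e1, e2⟩ := hT (-1) w
      refine ⟨?_, hnorm _ ?_⟩
      · rw [e1, abs_le]; push_cast; constructor <;> linarith
      · rw [e1, e2]; push_cast; nlinarith
  · have hq : |w.re / (w.re ^ 2 + w.im ^ 2)| ≤ 1 / 2 := by
      rw [abs_div, abs_of_pos hn0, div_le_iff₀ hn0]
      nlinarith
    have hq' := abs_le.1 hq
    have e3 : w.im ^ 2 / (w.re ^ 2 + w.im ^ 2) ^ 2 + (w.re / (w.re ^ 2 + w.im ^ 2)) ^ 2 =
        1 / (w.re ^ 2 + w.im ^ 2) := by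
      field_simp
      ring
    rcases le_total 0 w.re with h0 | h0
    · refine ⟨_, h1, ?_⟩
      rw [mul_smul, mul_smul, ← hw]
      obtain ⟨e1, e2⟩ := hT 1 (ModularGroup.S • w)
      rw [hS.1, neg_div] at e1
      rw [hS.2] at e2
      have h3 : 0 ≤ w.re / (w.re ^ 2 + w.im ^ 2) := div_nonneg h0 hn0.le
      refine ⟨?_, hnorm _ ?_⟩
      · rw [e1, abs_le]; push_cast; constructor <;> linarith
      · rw [e1, e2]
        push_cast
        have h4 : 2 * (w.re / (w.re ^ 2 + w.im ^ 2)) ≤ 1 / (w.re ^ 2 + w.im ^ 2) := by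
          rw [← mul_div_assoc]
          apply div_le_div_of_nonneg_right _ hn0.le
          linarith
        rw [div_pow w.im]
        nlinarith
    · refine ⟨_, h2, ?_⟩
      rw [mul_smul, mul_smul, ← hw]
      obtain ⟨e1, e2⟩ := hT (-1) (ModularGroup.S • w)
      rw [hS.1, neg_div] at e1
      rw [hS.2] at e2
      have h3 : w.re / (w.re ^ 2 + w.im ^ 2) ≤ 0 := div_nonpos_of_nonpos_of_nonneg h0 hn0.le
      refine ⟨?_, hnorm _ ?_⟩
      · rw [e1, abs_le]; push_cast; constructor <;> linarith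
      · rw [e1, e2]
        push_cast
        have h4 : -(2 * (w.re / (w.re ^ 2 + w.im ^ 2))) ≤ 1 / (w.re ^ 2 + w.im ^ 2) := by
          rw [← mul_div_assoc, ← neg_div]
          apply div_le_div_of_nonneg_right _ hn0.le
          linarith
        rw [div_pow w.im]
        nlinarith

/-- the boundary of the domain is a null set -/
private theorem th3_null : volume {z : ℍ | |z.re| = 1 ∨ ‖(z : ℂ)‖ = 1} = 0 := by
  rw [volume_eq_lintegral]
  apply setLIntegral_measure_zero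
  have h1 : volume {z : ℂ | z.re = 1} = 0 := by
    have e : {z : ℂ | z.re = 1} =
        Complex.measurableEquivRealProd ⁻¹' (({1} : Set ℝ) ×ˢ (Set.univ : Set ℝ)) := by
      ext z
      simp
    rw [e, Complex.volume_preserving_equiv_real_prod.measure_preimage
      (((MeasurableSet.singleton _).prod MeasurableSet.univ).nullMeasurableSet),
      Measure.volume_eq_prod, Measure.prod_prod]
    simp
  have h2 : volume {z : ℂ | z.re = -1} = 0 := by
    have e : {z : ℂ | z.re = -1} =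
        Complex.measurableEquivRealProd ⁻¹' (({-1} : Set ℝ) ×ˢ (Set.univ : Set ℝ)) := by
      ext z
      simp
    rw [e, Complex.volume_preserving_equiv_real_prod.measure_preimage
      (((MeasurableSet.singleton _).prod MeasurableSet.univ).nullMeasurableSet),
      Measure.volume_eq_prod, Measure.prod_prod]
    simp
  have h3 : volume (Metric.sphere (0 : ℂ) 1) = 0 := Measure.addHaar_sphere _ _ _
  apply measure_mono_null _ (measure_union_null h1 (measure_union_null h2 h3))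
  rintro _ ⟨z, hz, rfl⟩
  rcases hz with hz | hz
  · rcases eq_or_eq_neg_of_abs_eq hz with hz | hz
    · exact Or.inl hz
    · exact Or.inr (Or.inl hz)
  · right; right
    simpa using hz

/-- T7f -/
theorem ae_exists_smul_mem_DD : ∀ᵐ z : ℍ, ∃ g ∈ Gam, g • z ∈ DD := by
  set B : Set ℍ := {z : ℍ | |z.re| = 1 ∨ ‖(z : ℂ)‖ = 1} with hB
  have hn : ∀ g : SL(2, ℤ), volume {z : ℍ | g • z ∈ B} = 0 := by
    intro g
    have e : {z : ℍ | g • z ∈ B} = (fun z : ℍ => (g : GL (Fin 2) ℝ) • z) ⁻¹' B := rfl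
    rw [e, measure_preimage_smul]
    exact th3_null
  have hc : Countable SL(2, ℤ) := by
    apply Function.Injective.countable (f := fun g : SL(2, ℤ) => (g 0 0, g 0 1, g 1 0, g 1 1))
    intro g h hgh
    simp only [Prod.mk.injEq] at hgh
    ext i j
    fin_cases i <;> fin_cases j
    · exact hgh.1
    · exact hgh.2.1
    · exact hgh.2.2.1
    · exact hgh.2.2.2
  have hU : volume (⋃ g : SL(2, ℤ), {z : ℍ | g • z ∈ B}) = 0 := measure_iUnion_null hn
  rw [ae_iff]
  apply measure_mono_null _ hU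
  intro z hz
  obtain ⟨g, hg, h1, h2⟩ := exists_smul_mem z
  rw [Set.mem_iUnion]
  refine ⟨g, ?_⟩
  by_contra hcon
  apply hz
  refine ⟨g, hg, ?_, ?_⟩
  · apply lt_of_le_of_ne h1
    intro h3
    exact hcon (Or.inl h3)
  · apply lt_of_le_of_ne h2
    intro h3
    exact hcon (Or.inr h3.symm)

end RV11
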