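import Pool.Agent.LibRV11.Defs
import Pool.Agent.LibRV11.TH0
open Complex Real MeasureTheory
open UpperHalfPlane hiding I
open scoped MatrixGroups

namespace RV11

private noncomputable def th6_E (d : ℤ) (c : ℕ) (n : ℤ) : ℂ := cexp (-(π * I * (n : ℂ) ^ 2 * d / c))

private theorem th6_per (d : ℤ) (c : ℕ) (hc : 0 < c) (heven : Even (c * d)) (n m : ℤ) :
    th6_E d c (n + c * m) = th6_E d c n := by
  obtain ⟨e, he⟩ := heven
  have hc0 : (c : ℂ) ≠ 0 := by exact_mod_cast hc.ne'
  have he' : (c : ℂ) * d = e + e := by exact_mod_cast he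
  unfold th6_E
  rw [Complex.exp_eq_exp_iff_exists_int]
  refine ⟨-(n * m * d + m ^ 2 * e), ?_⟩
  push_cast
  field_simp
  linear_combination (-((m:ℂ) ^ 2) * c) * he'

private theorem th6_norm (d : ℤ) (c : ℕ) (n : ℤ) : ‖th6_E d c n‖ = 1 := by
  unfold th6_E
  have : -(π * I * (n : ℂ) ^ 2 * d / c) = ((-(π * (n:ℝ) ^ 2 * d / c) : ℝ) : ℂ) * I := by
    push_cast; ring
  rw [this, Complex.norm_exp_ofReal_mul_I]

private theorem th6_add (d : ℤ) (c : ℕ) [NeZero c] (y m : ℤ) :
    th6_E d c (y + m) = th6_E d c y * th6_E d c m * ZMod.stdAddChar (((y * (-d * m) : ℤ) : ZMod c)) := by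
  rw [ZMod.stdAddChar_coe]
  unfold th6_E
  rw [← Complex.exp_add, ← Complex.exp_add]
  congr 1
  have hc0 : (c : ℂ) ≠ 0 := by exact_mod_cast NeZero.ne c
  push_cast
  field_simp
  ring

private theorem th6_conj (d : ℤ) (c : ℕ) (n : ℤ) : th6_E d c n * (starRingEnd ℂ) (th6_E d c n) = 1 := by
  rw [Complex.mul_conj, Complex.normSq_eq_norm_sq, th6_norm]; norm_num

theorem norm_Gs (d : ℤ) (c : ℕ) (hc : 0 < c) (hcop : IsCoprime (c : ℤ) d) (heven : Even (c * d)) :
    ‖Gs d c‖ = Real.sqrt c := by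
  have : NeZero c := ⟨hc.ne'⟩
  set f : ZMod c → ℂ := fun x => th6_E d c (x.val : ℤ) with hf
  have hE : ∀ n : ℤ, th6_E d c n = f (n : ZMod c) := by
    intro n
    simp only [hf]
    rw [ZMod.val_intCast]
    have h := Int.emod_add_mul_ediv n c
    conv_lhs => rw [← h]
    exact th6_per d c hc heven _ _
  have hG : Gs d c = ∑ x : ZMod c, f x := by
    unfold Gs
    obtain ⟨k, rfl⟩ : ∃ k, c = k + 1 := ⟨c - 1, by omega⟩
    have := Fin.sum_univ_eq_sum_range (fun i => th6_E d (k + 1) (i : ℤ)) (k + 1)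
    refine Eq.trans ?_ this.symm
    refine Finset.sum_congr rfl fun i _ => ?_
    unfold th6_E
    push_cast
    rfl
  have hfadd : ∀ y m : ZMod c, f (y + m) = f y * f m * ZMod.stdAddChar (y * (-(d : ZMod c) * m)) := by
    intro y m
    have e1 : (((y.val : ℤ) : ZMod c)) = y := by simp
    have e2 : (((m.val : ℤ) : ZMod c)) = m := by simp
    have h := th6_add d c (y.val : ℤ) (m.val : ℤ)
    rw [hE, hE, hE] at h
    push_cast at h e1 e2
    simp only [ZMod.natCast_val, ZMod.cast_id', id_eq] at h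
    exact h
  have hdu : IsUnit (d : ZMod c) := by
    obtain ⟨u, v, huv⟩ := hcop
    refine IsUnit.of_mul_eq_one (v : ZMod c) ?_
    have : ((u * c + v * d : ℤ) : ZMod c) = 1 := by rw [huv]; simp
    push_cast at this
    simp only [CharP.cast_eq_zero, mul_zero, zero_add] at this
    rw [mul_comm]; exact this
  have hsum : ∀ m : ZMod c, ∑ y : ZMod c, ZMod.stdAddChar (y * (-(d : ZMod c) * m)) = if m = 0 then (c : ℂ) else 0 := by
    intro m
    rw [AddChar.sum_mulShift _ (ZMod.isPrimitive_stdAddChar c)]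
    have : (-(d : ZMod c) * m = 0) ↔ m = 0 := by
      rw [neg_mul, neg_eq_zero]
      exact hdu.mul_right_eq_zero
    simp only [this, ZMod.card]
    split_ifs <;> simp
  have hsq : Gs d c * (starRingEnd ℂ) (Gs d c) = c := by
    rw [hG, map_sum, Finset.sum_mul_sum]
    rw [Finset.sum_comm]
    have h1 : ∀ y : ZMod c, ∑ x : ZMod c, f x * (starRingEnd ℂ) (f y) =
        ∑ m : ZMod c, f m * ZMod.stdAddChar (y * (-(d : ZMod c) * m)) := by
      intro y
      rw [← Equiv.sum_comp (Equiv.addLeft y)]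
      refine Finset.sum_congr rfl fun m _ => ?_
      rw [Equiv.coe_addLeft, hfadd]
      have h2 : f y * (starRingEnd ℂ) (f y) = 1 := th6_conj d c _
      linear_combination (f m * ZMod.stdAddChar (y * (-(d : ZMod c) * m))) * h2
    simp_rw [h1]
    rw [Finset.sum_comm]
    simp_rw [← Finset.mul_sum, hsum]
    rw [Finset.sum_eq_single (0 : ZMod c)]
    · simp [hf, th6_E]
    · intro b _ hb; simp [hb]
    · intro h; exact absurd (Finset.mem_univ _) h
  have h3 : (‖Gs d c‖ : ℝ) ^ 2 = c := by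
    have := hsq
    rw [Complex.mul_conj, Complex.normSq_eq_norm_sq] at this
    exact_mod_cast this
  rw [← h3, Real.sqrt_sq (norm_nonneg _)]

end RV11
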