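import Pool.Agent.LibRV11.Defs
import Pool.Agent.LibRV11.TH0
import Pool.Agent.LibRV11.TH1
open Complex Real MeasureTheory
open UpperHalfPlane hiding I
open scoped MatrixGroups

namespace RV11

private theorem th7_exp_even {m : ℤ} (hm : Even m) : cexp (π * I * (m : ℂ)) = 1 := by
  obtain ⟨k, rfl⟩ := hm
  rw [show (π : ℂ) * I * ((k + k : ℤ) : ℂ) = k * (2 * π * I) by push_cast; ring]
  exact Complex.exp_int_mul_two_pi_mul_I k

private theorem th7_shift_one {c : ℕ} {f : ℤ → ℂ} (hf : ∀ n, f (n + c) = f n) (s : ℤ) :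
    ∑ k ∈ Finset.range c, f (k + (s + 1)) = ∑ k ∈ Finset.range c, f (k + s) := by
  have h1 := Finset.sum_range_succ (fun k : ℕ => f (k + s)) c
  have h2 := Finset.sum_range_succ' (fun k : ℕ => f (k + s)) c
  rw [h1] at h2
  have h3 : f ((c : ℤ) + s) = f (((0 : ℕ) : ℤ) + s) := by
    rw [add_comm (c : ℤ) s, hf]; simp
  rw [h3] at h2
  have h4 := add_right_cancel h2
  rw [h4]
  refine Finset.sum_congr rfl fun k _ => ?_
  congr 1; push_cast; ring

private theorem th7_shift {c : ℕ} {f : ℤ → ℂ} (hf : ∀ n, f (n + c) = f n) (s : ℤ) :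
    ∑ k ∈ Finset.range c, f (k + s) = ∑ k ∈ Finset.range c, f k := by
  induction s using Int.induction_on with
  | zero => simp
  | succ i ih => rw [th7_shift_one hf, ih]
  | pred i ih =>
    rw [← ih, ← th7_shift_one hf]
    refine Finset.sum_congr rfl fun k _ => ?_
    congr 1; ring

private theorem th7_split {c : ℕ} (hc : 0 < c) {f : ℤ → ℂ} (hf : Summable f) :
    ∑' n : ℤ, f n = ∑ k ∈ Finset.range c, ∑' m : ℤ, f (m * c + k) := by
  have : NeZero c := ⟨hc.ne'⟩
  have hs : Summable (fun p : ℤ × Fin c => f ((Int.divModEquiv c).symm p)) :=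
    (Equiv.summable_iff (Int.divModEquiv c).symm).2 hf
  rw [← (Int.divModEquiv c).symm.tsum_eq f]
  have h1 : ∑' p : ℤ × Fin c, f ((Int.divModEquiv c).symm p)
      = ∑' p : Fin c × ℤ, f ((Int.divModEquiv c).symm (p.2, p.1)) :=
    ((Equiv.prodComm (Fin c) ℤ).tsum_eq
      (fun p : ℤ × Fin c => f ((Int.divModEquiv c).symm p))).symm
  have hs' : Summable (fun p : Fin c × ℤ => f ((Int.divModEquiv c).symm (p.2, p.1))) :=
    (Equiv.summable_iff (Equiv.prodComm (Fin c) ℤ)).2 hs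
  rw [h1, hs'.tsum_prod, tsum_fintype,
    ← Fin.sum_univ_eq_sum_range (fun k : ℕ => ∑' m : ℤ, f (m * c + k)) c]
  rfl

private theorem th7_sqrt {c : ℕ} (hc : 0 < c) {x : ℂ} (hx : x ≠ 0) :
    ((c : ℂ) * x) ^ (1 / 2 : ℂ) = Real.sqrt c * x ^ (1 / 2 : ℂ) := by
  have hc' : (0 : ℝ) < c := by exact_mod_cast hc
  have hcc : (c : ℂ) ≠ 0 := by exact_mod_cast hc.ne'
  rw [Complex.cpow_def_of_ne_zero (mul_ne_zero hcc hx), Complex.cpow_def_of_ne_zero hx]
  have : Complex.log ((c : ℂ) * x) = Real.log c + Complex.log x := by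
    have := Complex.log_ofReal_mul hc' hx
    simpa using this
  rw [this, add_mul, Complex.exp_add]
  congr 1
  rw [Real.sqrt_eq_rpow, Real.rpow_def_of_pos hc']
  push_cast
  rfl

/-- T4 -/
theorem theta_gauss {g : SL(2, ℤ)} (hg : g ∈ Gam) (c : ℕ) (hc : 0 < c) (hgc : g 1 0 = c) (z : ℍ) :
    jacobiTheta (z : ℂ) = Gs (g 1 1) c / Real.sqrt c *
      (-I * (c * (z : ℂ) + (g 1 1 : ℂ))) ^ (-(1 / 2) : ℂ) * jacobiTheta ((g • z : ℍ) : ℂ) := by
  have hcd := even_cd hg
  have hab := even_ab hg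
  have hdet : g 0 0 * g 1 1 - g 0 1 * g 1 0 = 1 := by
    have := g.det_coe
    rwa [Matrix.det_fin_two] at this
  have hgz : ((g • z : ℍ) : ℂ) = ((g 0 0 : ℂ) * z + (g 0 1 : ℂ)) / ((g 1 0 : ℂ) * z + (g 1 1 : ℂ)) := by
    rw [UpperHalfPlane.specialLinearGroup_apply]
    simp
  rw [hgz]
  rw [hgc] at hcd hdet ⊢
  generalize g 0 0 = a at *
  generalize g 0 1 = b at *
  generalize g 1 1 = d at *
  have hcc : (c : ℂ) ≠ 0 := by exact_mod_cast hc.ne'
  set τ : ℂ := c * (c * (z : ℂ) + d) with hτ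
  have hτim : 0 < τ.im := by
    have hz : 0 < (z : ℂ).im := z.im_pos
    have hc' : (0 : ℝ) < c := by exact_mod_cast hc
    have : τ.im = c * (c * (z : ℂ).im) := by
      rw [hτ]; simp
    rw [this]; positivity
  have hτ0 : τ ≠ 0 := by
    rintro h; rw [h] at hτim; simp at hτim
  have hcz0 : c * (z : ℂ) + d ≠ 0 := by
    intro h; apply hτ0; rw [hτ, h, mul_zero]
  have hz : (z : ℂ) = τ / c ^ 2 - d / c := by
    rw [hτ]; field_simp; ring
  have hgz' : ((a : ℂ) * z + (b : ℂ)) / (((c : ℕ) : ℤ) * (z : ℂ) + (d : ℂ)) = a / c - 1 / τ := by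
    have hdet' : (a : ℂ) * d - b * c = 1 := by exact_mod_cast hdet
    have : (((c : ℕ) : ℤ) : ℂ) = (c : ℂ) := by simp
    rw [this, div_sub_div _ _ hcc hτ0, div_eq_div_iff hcz0 (mul_ne_zero hcc hτ0), hτ]
    linear_combination -(c * (c * (z : ℂ) + d)) * hdet'
  rw [hgz']
  obtain ⟨w, hw⟩ : ∃ w : ℤ → ℂ, w = fun n : ℤ => cexp (-(π * I * (n : ℂ) ^ 2 * d / c)) :=
    ⟨_, rfl⟩
  have hwper : ∀ n m : ℤ, w (n * c + m) = w m := by
    intro n m
    rw [hw]
    simp only
    have he : Even (-(n ^ 2 * (c * d) + 2 * (n * m * d))) := by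
      apply Even.neg
      exact (hcd.mul_left _).add (even_two_mul _)
    rw [← mul_one (cexp (-(π * I * (m : ℂ) ^ 2 * d / c))), ← th7_exp_even he, ← Complex.exp_add]
    congr 1
    push_cast
    field_simp
    ring
  have hwper' : ∀ n : ℤ, w (n + c) = w n := by
    intro n
    have := hwper 1 n
    rwa [one_mul, add_comm] at this
  have hsum : Summable (fun n : ℤ => cexp (π * I * (n : ℂ) ^ 2 * (z : ℂ))) := by
    have := (summable_jacobiTheta₂_term_iff 0 (z : ℂ)).2 z.im_pos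
    refine this.congr fun n => ?_
    simp [jacobiTheta₂_term]
  have hinv : -1 / τ = -(1 / τ) := by ring
  have hpos : 0 < (-1 / τ).im := by
    rw [neg_div, Complex.neg_im, one_div, Complex.inv_im]
    have : 0 < Complex.normSq τ := Complex.normSq_pos.2 hτ0
    rw [neg_div, neg_neg]
    positivity
  have hs2 : ∀ k : ℕ, Summable (fun j : ℤ => jacobiTheta₂_term j (k / c) (-1 / τ)) := fun k =>
    (summable_jacobiTheta₂_term_iff _ _).2 hpos
  -- step 1
  have h1 : jacobiTheta (z : ℂ) = 1 / (-I * τ) ^ (1 / 2 : ℂ) *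
      ∑ k ∈ Finset.range c, w k * jacobiTheta₂ (k / c) (-1 / τ) := by
    unfold jacobiTheta
    rw [th7_split hc hsum, Finset.mul_sum]
    refine Finset.sum_congr rfl fun k _ => ?_
    have e1 : ∀ m : ℤ, cexp (π * I * ((m * c + k : ℤ) : ℂ) ^ 2 * (z : ℂ))
        = w k * cexp (π * I * (k : ℂ) ^ 2 * τ / c ^ 2) * jacobiTheta₂_term m (k * τ / c) τ := by
      intro m
      have e2 := hwper m k
      rw [jacobiTheta₂_term]
      have e3 : cexp (π * I * ((m * c + k : ℤ) : ℂ) ^ 2 * (z : ℂ))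
          = w (m * c + k) * cexp (π * I * ((m * c + k : ℤ) : ℂ) ^ 2 * (τ / c ^ 2)) := by
        rw [hw]
        simp only
        rw [← Complex.exp_add, hz]
        congr 1
        ring
      rw [e3, e2, mul_assoc (w k) (cexp _) (cexp _), ← Complex.exp_add]
      congr 2
      push_cast
      field_simp
      ring
    rw [tsum_congr e1, tsum_mul_left]
    change w k * cexp (π * I * (k : ℂ) ^ 2 * τ / c ^ 2) * jacobiTheta₂ (k * τ / c) τ = _
    rw [jacobiTheta₂_functional_equation]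
    have e4 : (k : ℂ) * τ / c / τ = k / c := by field_simp
    rw [e4]
    have e5 : cexp (π * I * (k : ℂ) ^ 2 * τ / c ^ 2) * cexp (-π * I * ((k : ℂ) * τ / c) ^ 2 / τ)
        = 1 := by
      rw [← Complex.exp_add, ← Complex.exp_zero]
      congr 1
      field_simp
      ring
    linear_combination (w k * (1 / (-I * τ) ^ (1 / 2 : ℂ)) * jacobiTheta₂ (k / c) (-1 / τ)) * e5
  -- step 2
  have h2 : ∑ k ∈ Finset.range c, w k * jacobiTheta₂ (k / c) (-1 / τ)
      = Gs d c * jacobiTheta (a / c - 1 / τ) := by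
    unfold jacobiTheta jacobiTheta₂
    simp_rw [← tsum_mul_left]
    rw [← Summable.tsum_finsetSum (fun k _ => (hs2 k).mul_left _)]
    refine tsum_congr fun j => ?_
    have e1 : ∀ k : ℕ, w k * jacobiTheta₂_term j (k / c) (-1 / τ)
        = cexp (π * I * (j : ℂ) ^ 2 * (a / c - 1 / τ)) * w (k + (-(a * j))) := by
      intro k
      have he : Even (a * b * j ^ 2 - 2 * (b * j * k)) := by
        exact (hab.mul_right _).sub (even_two_mul _)
      rw [hw, jacobiTheta₂_term]
      simp only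
      rw [← mul_one (cexp (π * I * (j : ℂ) ^ 2 * (a / c - 1 / τ)) * _), ← th7_exp_even he,
        ← Complex.exp_add, ← Complex.exp_add, ← Complex.exp_add]
      congr 1
      have hdet' : (a : ℂ) * d - b * c = 1 := by exact_mod_cast hdet
      push_cast
      field_simp
      linear_combination (τ * (a * j ^ 2 - 2 * j * k)) * hdet'
    rw [Finset.sum_congr rfl fun k _ => e1 k, ← Finset.mul_sum, th7_shift hwper', mul_comm]
    congr 1
    rw [Gs, hw]
    simp
  rw [h1, h2, Complex.cpow_neg]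
  have e6 : -I * τ = (c : ℂ) * (-I * (c * (z : ℂ) + d)) := by rw [hτ]; ring
  rw [e6, th7_sqrt hc (mul_ne_zero (neg_ne_zero.2 I_ne_zero) hcz0)]
  field_simp

end RV11
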