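import Pool.Agent.LibRV11.Defs
import Pool.Agent.LibRV11.TH0
import Pool.Agent.LibRV11.TH1
import Pool.Agent.LibRV11.TH2
import Pool.Agent.LibRV11.TH6
import Pool.Agent.LibRV11.TH7
open Complex Real MeasureTheory
open UpperHalfPlane hiding I
open scoped MatrixGroups

namespace RV11

private lemma theta_add_two_mul_int (τ : ℂ) (n : ℤ) : jacobiTheta (τ + 2 * n) = jacobiTheta τ := by
  have hp : Function.Periodic jacobiTheta (2 : ℂ) := by
    intro τ
    rw [add_comm, jacobiTheta_two_add]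
  have := hp.int_mul n τ
  rwa [mul_comm (n : ℂ) 2] at this

private lemma theta_smul_norm_pos {g : SL(2, ℤ)} (hg : g ∈ Gam) (hc : 0 < g 1 0) (z : ℍ) :
    ‖jacobiTheta ((g • z : ℍ) : ℂ)‖ ^ 2 =
      ‖(g 1 0 : ℂ) * (z : ℂ) + (g 1 1 : ℂ)‖ * ‖jacobiTheta (z : ℂ)‖ ^ 2 := by
  obtain ⟨c, hc'⟩ := Int.eq_ofNat_of_zero_le hc.le
  have hc0 : 0 < c := by omega
  have hgc : g 1 0 = (c : ℤ) := hc'
  have hdet : g 0 0 * g 1 1 - g 0 1 * g 1 0 = 1 := by
    have := g.det_coe
    rwa [Matrix.det_fin_two] at this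
  have hcop : IsCoprime (c : ℤ) (g 1 1) := by
    rw [← hgc]
    exact ⟨-g 0 1, g 0 0, by linarith⟩
  have heven : Even ((c : ℤ) * g 1 1) := by
    rw [← hgc]; exact even_cd hg
  have h1 := theta_gauss hg c hc0 hgc z
  have hGs := norm_Gs (g 1 1) c hc0 hcop heven
  set w : ℂ := (c : ℂ) * (z : ℂ) + (g 1 1 : ℂ) with hw
  have hw0 : w ≠ 0 := by
    intro h
    have := congrArg Complex.im h
    rw [hw] at this
    simp at this
    rcases this with h2 | h2
    · omega
    · exact absurd h2 z.im_pos.ne'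
  have hwn : 0 < ‖w‖ := norm_pos_iff.mpr hw0
  have h2 : ‖jacobiTheta (z : ℂ)‖ = ‖w‖ ^ (-(1/2) : ℝ) * ‖jacobiTheta ((g • z : ℍ) : ℂ)‖ := by
    rw [h1, norm_mul, norm_mul, norm_div, hGs]
    have e1 : ‖(-I * w) ^ (-(1 / 2) : ℂ)‖ = ‖w‖ ^ (-(1/2) : ℝ) := by
      have := norm_cpow_real (-I * w) (-(1/2))
      rw [show ((-(1/2) : ℝ) : ℂ) = (-(1 / 2) : ℂ) by push_cast; ring] at this
      rw [this]
      simp
    have e2 : ‖((Real.sqrt c : ℝ) : ℂ)‖ = Real.sqrt c := by
      rw [Complex.norm_real, Real.norm_of_nonneg (Real.sqrt_nonneg _)]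
    rw [e1, e2, div_self (by positivity), one_mul]
  have hgcC : (g 1 0 : ℂ) = (c : ℂ) := by rw [hgc]; simp
  rw [hgcC, ← hw, h2, mul_pow, ← Real.rpow_natCast (‖w‖ ^ (-(1/2) : ℝ)) 2, ← Real.rpow_mul hwn.le]
  norm_num
  rw [Real.rpow_neg_one]
  field_simp

theorem theta_smul_norm {g : SL(2, ℤ)} (hg : g ∈ Gam) (z : ℍ) :
    ‖jacobiTheta ((g • z : ℍ) : ℂ)‖ ^ 2 =
      ‖(g 1 0 : ℂ) * (z : ℂ) + (g 1 1 : ℂ)‖ * ‖jacobiTheta (z : ℂ)‖ ^ 2 := by
  rcases lt_trichotomy (g 1 0) 0 with h | h | h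
  · have hg' : -g ∈ Gam := by
      rw [mem_Gam_iff] at hg ⊢
      simpa using hg
    have h1 := theta_smul_norm_pos hg' (by simpa using h) z
    rw [ModularGroup.SL_neg_smul] at h1
    rw [h1]
    congr 1
    rw [← norm_neg]
    congr 1
    simp
    ring
  · have hdet : g 0 0 * g 1 1 - g 0 1 * g 1 0 = 1 := by
      have := g.det_coe
      rwa [Matrix.det_fin_two] at this
    rw [h, mul_zero, sub_zero] at hdet
    have hg' := (mem_Gam_iff g).mp hg
    have hz : ((g • z : ℍ) : ℂ) = ((g 0 0 : ℂ) * z + g 0 1) / ((g 1 0 : ℂ) * z + g 1 1) := by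
      rw [UpperHalfPlane.specialLinearGroup_apply]
      simp
    rcases Int.eq_one_or_neg_one_of_mul_eq_one' hdet with ⟨ha, hd⟩ | ⟨ha, hd⟩
    · have hb : Even (g 0 1) := by
        have := hg'.1
        rwa [ha, one_mul] at this
      obtain ⟨m, hm⟩ := hb
      have : ((g • z : ℍ) : ℂ) = z + 2 * m := by
        rw [hz, ha, hd, h, hm]; push_cast; ring
      rw [this, theta_add_two_mul_int, h, hd]
      simp
    · have hb : Even (g 0 1) := by
        have := hg'.1
        rw [ha] at this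
        simpa using this
      obtain ⟨m, hm⟩ := hb
      have : ((g • z : ℍ) : ℂ) = z + 2 * ((-m : ℤ) : ℂ) := by
        rw [hz, ha, hd, h, hm]; push_cast; ring
      rw [this, theta_add_two_mul_int, h, hd]
      simp
  · exact theta_smul_norm_pos hg h z

theorem W_smul {g : SL(2, ℤ)} (hg : g ∈ Gam) (z : ℍ) : W (g • z) = W z := by
  unfold W
  rw [theta_smul_norm hg z, im_smul_eq]
  unfold Np
  set w : ℂ := (g 1 0 : ℂ) * (z : ℂ) + (g 1 1 : ℂ) with hw
  have hw0 : w ≠ 0 := by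
    have := UpperHalfPlane.denom_ne_zero g z
    rwa [ModularGroup.denom_apply] at this
  have hwn : 0 < ‖w‖ := norm_pos_iff.mpr hw0
  have e1 : (((g 1 0 : ℝ) : ℂ) * (z : ℂ) + ((g 1 1 : ℝ) : ℂ)) = w := by
    rw [hw]; push_cast; rfl
  rw [e1, one_div_div, Real.sqrt_div z.im_pos.le, Real.sqrt_sq hwn.le]
  field_simp

private lemma continuous_theta : Continuous (fun z : ℍ => jacobiTheta (z : ℂ)) := by
  rw [continuous_iff_continuousAt]
  intro z
  exact ContinuousAt.comp (f := fun z : ℍ => (z : ℂ)) (g := jacobiTheta) (continuousAt_jacobiTheta z.im_pos) UpperHalfPlane.continuous_coe.continuousAt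

theorem measurable_W : Measurable W := by
  have h : Continuous W := by
    unfold W
    exact (continuous_theta.norm.pow 2).mul (Real.continuous_sqrt.comp UpperHalfPlane.continuous_im)
  exact h.measurable

theorem measurable_phh (r : ℝ) : Measurable (phh r) := by
  unfold phh
  refine Measurable.div ?_ continuous_theta.measurable
  have h : Continuous (fun z : ℍ => cexp (π * I * r * (z : ℂ))) := by
    have := UpperHalfPlane.continuous_coe
    fun_prop
  exact h.measurable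

end RV11
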