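import Pool.Agent.LibRV11.Defs
import Pool.Agent.LibRV11.TH0
open Complex Real MeasureTheory
open UpperHalfPlane hiding I
open scoped MatrixGroups

namespace RV11

private lemma exp_int_even {k : ℤ} (hk : Even k) : cexp (π * I * k) = 1 := by
  obtain ⟨m, hm⟩ := hk
  rw [hm]
  rw [show (π * I * ((m + m : ℤ) : ℂ)) = m * (2 * π * I) by push_cast; ring]
  exact Complex.exp_int_mul_two_pi_mul_I m

theorem th2_add_one (w : ℂ) (hw : 0 < w.im) : th2 (w + 1) = cexp (π * I / 4) * th2 w := by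
  unfold th2
  rw [← tsum_mul_left]
  refine tsum_congr fun k => ?_
  have h1 : cexp (π * I * ((k * (k + 1) : ℤ) : ℂ)) = 1 := exp_int_even (Int.even_mul_succ_self k)
  have h2 : (π * I * ((k : ℂ) + 1 / 2) ^ 2 * (w + 1)) = π * I * ((k * (k + 1) : ℤ) : ℂ) + (π * I / 4 + π * I * ((k : ℂ) + 1 / 2) ^ 2 * w) := by
    push_cast; ring
  rw [h2, Complex.exp_add, h1, one_mul, Complex.exp_add]

private lemma th2_eq (w : ℂ) : cexp (π * I * w / 4) * jacobiTheta₂ (-w / 2) w = th2 w := by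
  unfold th2 jacobiTheta₂
  rw [← tsum_mul_left, ← Equiv.tsum_eq (Equiv.addRight (1 : ℤ))]
  refine tsum_congr fun k => ?_
  unfold jacobiTheta₂_term
  rw [← Complex.exp_add]
  congr 1
  simp only [Equiv.coe_addRight]
  push_cast
  ring

theorem theta_neg_one_sub (w : ℂ) (hw : 0 < w.im) :
    jacobiTheta (-1 - 1 / w) = (-I * w) ^ (1 / 2 : ℂ) * th2 w := by
  have hw0 : w ≠ 0 := by
    intro h; rw [h] at hw; simp at hw
  have h1 : jacobiTheta (-1 - 1 / w) = jacobiTheta₂ (1 / 2) (-1 / w) := by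
    rw [jacobiTheta_eq_jacobiTheta₂]
    unfold jacobiTheta₂ jacobiTheta₂_term
    refine tsum_congr fun n => ?_
    have h2 : cexp (π * I * ((n * (n + 1) : ℤ) : ℂ)) = 1 := exp_int_even (Int.even_mul_succ_self n)
    have h3 : 2 * π * I * n * (1 / 2) + π * I * n ^ 2 * (-1 / w) = π * I * ((n * (n + 1) : ℤ) : ℂ) + (2 * π * I * n * 0 + π * I * n ^ 2 * (-1 - 1 / w)) := by
      push_cast; ring
    rw [h3, Complex.exp_add (π * I * ((n * (n + 1) : ℤ) : ℂ)), h2, one_mul]
  rw [h1, jacobiTheta₂_functional_equation]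
  have e1 : (-1 : ℂ) / (-1 / w) = w := by field_simp
  have e2 : (1 / 2 : ℂ) / (-1 / w) = -w / 2 := by field_simp
  have e3 : -π * I * (1 / 2) ^ 2 / (-1 / w) = π * I * w / 4 := by field_simp; ring
  rw [e1, e2, e3, mul_assoc, th2_eq]
  congr 1
  have hre : 0 < (-I * w).re := by simp [hw]
  have harg : (-I * w).arg ≠ π := by
    intro h
    rw [Complex.arg_eq_pi_iff] at h
    linarith [h.1]
  have e4 : -I * (-1 / w) = (-I * w)⁻¹ := by
    have hI : I * I = -1 := Complex.I_mul_I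
    field_simp
    linear_combination hI
  rw [e4, Complex.inv_cpow _ _ harg]
  field_simp

theorem theta_one_sub (w : ℂ) (hw : 0 < w.im) :
    jacobiTheta (1 - 1 / w) = (-I * w) ^ (1 / 2 : ℂ) * th2 w := by
  rw [← theta_neg_one_sub w hw, ← jacobiTheta_two_add (-1 - 1 / w)]
  congr 1
  ring

end RV11
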