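import Pool.Agent.LibRV11.Defs
import Pool.Agent.LibRV11.TH0
import Pool.Agent.LibRV11.TH1
import Pool.Agent.LibRV11.TH2
import Pool.Agent.LibRV11.TH3
import Pool.Agent.LibRV11.TH8
import Pool.Agent.LibRV11.TH9
open Complex Real MeasureTheory
open UpperHalfPlane hiding I
open scoped MatrixGroups

namespace RV11

private lemma exp_lt_third {t : ℝ} (ht : 3 / 2 ≤ t) : Real.exp (-t) < 1 / 3 := by
  rw [Real.exp_neg, inv_eq_one_div]
  apply one_div_lt_one_div_of_lt (by norm_num)
  have h := Real.quadratic_le_exp_of_nonneg (by linarith : 0 ≤ t)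
  nlinarith

private lemma norm_f (w : ℂ) (s : ℝ) : ‖cexp (π * I * ((s : ℂ)) ^ 2 * w)‖ = Real.exp (-(π * s ^ 2 * w.im)) := by
  rw [Complex.norm_exp]
  congr 1
  have : (π * I * ((s : ℂ)) ^ 2 * w) = ((π * s ^ 2 : ℝ) : ℂ) * (I * w) := by push_cast; ring
  rw [this, Complex.re_ofReal_mul]
  simp

private lemma th2_ne_zero_aux (w : ℂ) (hw : 1 ≤ w.im) : th2 w ≠ 0 := by
  set f : ℕ → ℂ := fun n => cexp (π * I * ((((n : ℝ) + 1 / 2 : ℝ)) : ℂ) ^ 2 * w) with hf
  set q : ℝ := Real.exp (-(π * w.im)) with hq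
  have hpi := Real.pi_gt_three
  have hq0 : 0 < q := Real.exp_pos _
  have hq1 : q < 1 / 3 := exp_lt_third (by nlinarith)
  have hn : ∀ n : ℕ, ‖f n‖ ≤ ‖f 0‖ * q ^ n := by
    intro n
    simp only [hf]
    rw [norm_f, norm_f, hq, ← Real.exp_nat_mul, ← Real.exp_add]
    apply Real.exp_le_exp.mpr
    have hn0 : (0:ℝ) ≤ n := Nat.cast_nonneg n
    have hpw : 0 < π * w.im := by positivity
    have : (n : ℝ) * (π * w.im) ≤ ((n:ℝ) ^ 2 + n) * (π * w.im) := by
      gcongr
      nlinarith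
    push_cast
    nlinarith
  have hs : Summable f := by
    refine Summable.of_norm_bounded ((summable_geometric_of_lt_one hq0.le (by linarith)).mul_left ‖f 0‖) hn
  have h1 : th2 w = ∑' n : ℕ, f n + ∑' n : ℕ, f n := by
    unfold th2
    have e1 : ∀ n : ℕ, cexp (π * I * (((n : ℤ) : ℂ) + 1 / 2) ^ 2 * w) = f n := by
      intro n
      simp only [hf]
      congr 3
      push_cast; ring
    have e2 : ∀ n : ℕ, cexp (π * I * (((-((n : ℤ) + 1) : ℤ) : ℂ) + 1 / 2) ^ 2 * w) = f n := by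
      intro n
      simp only [hf]
      congr 1
      push_cast; ring
    rw [tsum_of_nat_of_neg_add_one (f := fun k : ℤ => cexp (π * I * ((k : ℂ) + 1 / 2) ^ 2 * w))]
    · simp only [e1, e2]
    · simpa only [e1] using hs
    · simpa only [e2] using hs
  have h2 : ∑' n : ℕ, f n = f 0 + ∑' n : ℕ, f (n + 1) := hs.tsum_eq_zero_add
  have h3 : ‖∑' n : ℕ, f (n + 1)‖ ≤ ‖f 0‖ * (q / (1 - q)) := by
    have hg : HasSum (fun n : ℕ => ‖f 0‖ * q ^ (n + 1)) (‖f 0‖ * (q / (1 - q))) := by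
      refine HasSum.mul_left _ ?_
      have := (hasSum_geometric_of_lt_one hq0.le (by linarith : q < 1)).mul_left q
      simpa [pow_succ, mul_comm, div_eq_mul_inv] using this
    exact tsum_of_norm_bounded hg fun n => hn (n + 1)
  have hf0 : 0 < ‖f 0‖ := by
    simp only [hf]
    rw [norm_f]; exact Real.exp_pos _
  have hqq : q / (1 - q) < 1 := by
    rw [div_lt_one (by linarith)]; linarith
  intro h
  rw [h1, ← two_mul] at h
  have h4 : ∑' n : ℕ, f n = 0 := by
    rcases mul_eq_zero.mp h with h' | h'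
    · norm_num at h'
    · exact h'
  rw [h2] at h4
  have h5 : ‖f 0‖ = ‖∑' n : ℕ, f (n + 1)‖ := by
    rw [eq_neg_of_add_eq_zero_left h4, norm_neg]
  rw [← h5] at h3
  nlinarith

private lemma theta_ne_zero_closure {z : ℍ} (h1 : |z.re| ≤ 1) (h2 : 1 ≤ ‖(z : ℂ)‖) : jacobiTheta (z : ℂ) ≠ 0 := by
  have hy := z.im_pos
  have hpi := Real.pi_gt_three
  by_cases hy2 : 1 / 2 ≤ z.im
  · intro h
    have h3 := norm_jacobiTheta_sub_one_le (τ := (z : ℂ)) z.im_pos
    rw [h, zero_sub, norm_neg, norm_one] at h3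
    have hq : Real.exp (-π * (z : ℂ).im) < 1 / 3 := by
      have : -π * (z : ℂ).im = -(π * z.im) := by
        rw [UpperHalfPlane.coe_im]; ring
      rw [this]
      exact exp_lt_third (by nlinarith)
    have hq0 := Real.exp_pos (-π * (z : ℂ).im)
    set q := Real.exp (-π * (z : ℂ).im)
    rw [div_mul_eq_mul_div, le_div_iff₀ (by linarith)] at h3
    linarith
  · push Not at hy2
    have hn : 1 ≤ z.re ^ 2 + z.im ^ 2 := by
      have : (1:ℝ) ≤ ‖(z : ℂ)‖ ^ 2 := by nlinarith
      rw [← Complex.normSq_eq_norm_sq, Complex.normSq_apply] at this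
      rw [UpperHalfPlane.coe_re, UpperHalfPlane.coe_im] at this
      nlinarith
    rw [abs_le] at h1
    have aux : ∀ ζ : ℂ, 0 < ζ.im → Complex.normSq ζ ≤ ζ.im → 1 ≤ (-1 / ζ).im := by
      intro ζ hζ hle
      have hne : ζ ≠ 0 := by
        intro h; rw [h] at hζ; simp at hζ
      have hpos : 0 < Complex.normSq ζ := Complex.normSq_pos.mpr hne
      have : (-1 / ζ).im = ζ.im / Complex.normSq ζ := by
        rw [neg_div, one_div, Complex.neg_im, Complex.inv_im]; ring
      rw [this, one_le_div hpos]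
      exact hle
    rcases le_total z.re 0 with hx | hx
    · have him : ((z : ℂ) + 1).im = z.im := by simp
      have hre : ((z : ℂ) + 1).re = z.re + 1 := by simp
      have hns : Complex.normSq ((z : ℂ) + 1) ≤ ((z : ℂ) + 1).im := by
        rw [Complex.normSq_apply, him, hre]
        have hs : z.re + 1 ≤ z.im ^ 2 := by nlinarith
        nlinarith
      have hw := aux ((z : ℂ) + 1) (by rw [him]; exact hy) hns
      have hne : (z : ℂ) + 1 ≠ 0 := by
        intro h; rw [h] at him; simp at him; linarith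
      have hz : -1 - 1 / (-1 / ((z : ℂ) + 1)) = (z : ℂ) := by field_simp; ring
      have h3 := theta_neg_one_sub (-1 / ((z : ℂ) + 1)) (by linarith)
      rw [hz] at h3
      rw [h3]
      refine mul_ne_zero ?_ (th2_ne_zero_aux _ hw)
      rw [Complex.cpow_ne_zero_iff]
      left
      refine mul_ne_zero (by simp) ?_
      exact div_ne_zero (by norm_num) hne
    · have him : ((z : ℂ) - 1).im = z.im := by simp
      have hre : ((z : ℂ) - 1).re = z.re - 1 := by simp
      have hns : Complex.normSq ((z : ℂ) - 1) ≤ ((z : ℂ) - 1).im := by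
        rw [Complex.normSq_apply, him, hre]
        have hs : 1 - z.re ≤ z.im ^ 2 := by nlinarith
        nlinarith
      have hw := aux ((z : ℂ) - 1) (by rw [him]; exact hy) hns
      have hne : (z : ℂ) - 1 ≠ 0 := by
        intro h; rw [h] at him; simp at him; linarith
      have hz : 1 - 1 / (-1 / ((z : ℂ) - 1)) = (z : ℂ) := by field_simp; ring
      have h3 := theta_one_sub (-1 / ((z : ℂ) - 1)) (by linarith)
      rw [hz] at h3
      rw [h3]
      refine mul_ne_zero ?_ (th2_ne_zero_aux _ hw)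
      rw [Complex.cpow_ne_zero_iff]
      left
      refine mul_ne_zero (by simp) ?_
      exact div_ne_zero (by norm_num) hne

theorem theta_ne_zero (z : ℍ) : jacobiTheta (z : ℂ) ≠ 0 := by
  obtain ⟨g, hg, h1, h2⟩ := exists_smul_mem z
  have h3 := theta_ne_zero_closure h1 h2
  intro h
  have h4 := theta_smul_norm hg z
  rw [h, norm_zero] at h4
  have : ‖jacobiTheta ((g • z : ℍ) : ℂ)‖ ^ 2 = 0 := by rw [h4]; ring
  rw [sq_eq_zero_iff, norm_eq_zero] at this
  exact h3 this

theorem W_pos (z : ℍ) : 0 < W z := by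
  unfold W
  have h1 : 0 < ‖jacobiTheta (z : ℂ)‖ := norm_pos_iff.mpr (theta_ne_zero z)
  have h2 : 0 < Real.sqrt z.im := Real.sqrt_pos.mpr z.im_pos
  positivity

/-- T3 -/
theorem norm_phh_smul (r : ℝ) {g : SL(2, ℤ)} (hg : g ∈ Gam) (z : ℍ) :
    ‖phh r (g • z)‖ * Real.sqrt (W z) = Real.exp (-(π * r / Np z (g 1 0) (g 1 1))) *
      (Np z (g 1 0) (g 1 1)) ^ (-(1 / 4) : ℝ) := by
  have hy := z.im_pos
  set w : ℂ := (g 1 0 : ℂ) * (z : ℂ) + (g 1 1 : ℂ) with hw
  have hw0 : w ≠ 0 := by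
    have := UpperHalfPlane.denom_ne_zero g z
    rwa [ModularGroup.denom_apply] at this
  have hwn : 0 < ‖w‖ := norm_pos_iff.mpr hw0
  have hNp : Np z (g 1 0) (g 1 1) = ‖w‖ ^ 2 / z.im := by
    unfold Np
    rw [hw]; push_cast; rfl
  have hNpos : 0 < Np z (g 1 0) (g 1 1) := by rw [hNp]; positivity
  have hth := theta_smul_norm hg z
  rw [← hw] at hth
  have hθ : 0 < ‖jacobiTheta (z : ℂ)‖ := norm_pos_iff.mpr (theta_ne_zero z)
  have hθg : 0 < ‖jacobiTheta ((g • z : ℍ) : ℂ)‖ := norm_pos_iff.mpr (theta_ne_zero _)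
  have hexp : ‖cexp (π * I * r * ((g • z : ℍ) : ℂ))‖ = Real.exp (-(π * r / Np z (g 1 0) (g 1 1))) := by
    rw [Complex.norm_exp]
    congr 1
    have : (π * I * r * ((g • z : ℍ) : ℂ)) = ((π * r : ℝ) : ℂ) * (I * ((g • z : ℍ) : ℂ)) := by push_cast; ring
    rw [this, Complex.re_ofReal_mul]
    have e : (I * ((g • z : ℍ) : ℂ)).re = -(g • z).im := by simp
    rw [e, im_smul_eq]
    ring
  unfold phh
  rw [norm_div, hexp, div_mul_eq_mul_div, mul_div_assoc]
  congr 1
  -- both sides are nonnegative: compare fourth powers through logarithms of squares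
  have hL : Real.sqrt (W z) / ‖jacobiTheta ((g • z : ℍ) : ℂ)‖ = Real.sqrt (Real.sqrt z.im / ‖w‖) := by
    rw [eq_comm, Real.sqrt_eq_iff_mul_self_eq (by positivity) (by positivity)]
    have hWs : Real.sqrt (W z) * Real.sqrt (W z) = W z := Real.mul_self_sqrt (W_pos z).le
    have : Real.sqrt (W z) / ‖jacobiTheta ((g • z : ℍ) : ℂ)‖ * (Real.sqrt (W z) / ‖jacobiTheta ((g • z : ℍ) : ℂ)‖) = 
        (Real.sqrt (W z) * Real.sqrt (W z)) / ‖jacobiTheta ((g • z : ℍ) : ℂ)‖ ^ 2 := by
      field_simp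
    rw [this, hWs, hth]
    unfold W
    field_simp
  rw [hL, hNp, Real.sqrt_eq_rpow, Real.sqrt_eq_rpow]
  rw [show (-(1 / 4) : ℝ) = -(1/4) by norm_num, Real.rpow_neg (by positivity), ← Real.inv_rpow (by positivity), inv_div,
    Real.div_rpow hy.le (by positivity), Real.div_rpow (by positivity) hwn.le, ← Real.rpow_mul hy.le, ← Real.rpow_natCast ‖w‖ 2,
    ← Real.rpow_mul hwn.le]
  norm_num

end RV11
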