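import Pool.Agent.LibRV11.Defs
import Pool.Agent.LibRV11.TH0
import Pool.Agent.LibRV11.TH2
open Complex Real MeasureTheory
open UpperHalfPlane hiding I
open scoped MatrixGroups

namespace RV11

private theorem th5_sqrt_ne (z : ℍ) : Real.sqrt z.im ≠ 0 := (Real.sqrt_pos.2 z.im_pos).ne'

private theorem th5_sqrt_sq (z : ℍ) : Real.sqrt z.im ^ 2 = z.im := Real.sq_sqrt z.im_pos.le

theorem vv_add_uu (z : ℍ) (φ c d : ℝ) :
    (vv z φ c d : ℂ) + I * uu z φ c d = cexp (I * φ) * (c * (z : ℂ) + d) / Real.sqrt z.im := by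
  have hz : (z : ℂ) = (z.re : ℂ) + z.im * I := (Complex.re_add_im (z : ℂ)).symm
  have h1 : (Real.sqrt z.im : ℂ) ≠ 0 := by exact_mod_cast th5_sqrt_ne z
  rw [mul_comm I (φ : ℂ), Complex.exp_mul_I, vv, uu]
  conv_rhs => rw [hz]
  push_cast
  field_simp
  ring_nf
  rw [Complex.I_sq]
  ring

theorem uu_sq_add_vv_sq (z : ℍ) (φ c d : ℝ) : uu z φ c d ^ 2 + vv z φ c d ^ 2 = Np z c d := by
  have h1 : ‖(c : ℂ) * (z : ℂ) + d‖ ^ 2 = (c * z.re + d) ^ 2 + (c * z.im) ^ 2 := by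
    rw [Complex.sq_norm, normSq_apply]
    simp
    ring
  have h2 := Real.sin_sq_add_cos_sq φ
  rw [uu, vv, Np, h1, div_pow, div_pow, th5_sqrt_sq, ← add_div]
  congr 1
  linear_combination ((c * z.re + d) ^ 2 + (c * z.im) ^ 2) * h2

private theorem th5_smul (g : SL(2, ℤ)) (z : ℍ) (φ c d : ℝ) :
    (vv (g • z) (φ + Complex.arg ((g 1 0 : ℂ) * (z : ℂ) + (g 1 1 : ℂ))) c d : ℂ) +
      I * uu (g • z) (φ + Complex.arg ((g 1 0 : ℂ) * (z : ℂ) + (g 1 1 : ℂ))) c d =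
      vv z φ (c * g 0 0 + d * g 1 0) (c * g 0 1 + d * g 1 1) +
      I * uu z φ (c * g 0 0 + d * g 1 0) (c * g 0 1 + d * g 1 1) := by
  rw [vv_add_uu, vv_add_uu]
  set j : ℂ := (g 1 0 : ℂ) * (z : ℂ) + (g 1 1 : ℂ) with hj
  have hj0 : j ≠ 0 := by
    have := denom_ne_zero (g : GL (Fin 2) ℝ) z
    rw [ModularGroup.denom_apply] at this
    exact this
  have hjn : 0 < ‖j‖ := norm_pos_iff.2 hj0
  have him : (g • z).im = z.im / ‖j‖ ^ 2 := by
    rw [ModularGroup.im_smul_eq_div_normSq, ModularGroup.denom_apply, ← Complex.sq_norm]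
  have hs : Real.sqrt (g • z).im = Real.sqrt z.im / ‖j‖ := by
    rw [him, Real.sqrt_div z.im_pos.le, Real.sqrt_sq hjn.le]
  have hgz : ((g • z : ℍ) : ℂ) = ((g 0 0 : ℂ) * z + (g 0 1 : ℂ)) / j := by
    rw [coe_specialLinearGroup_apply]
    simp [hj]
  have harg : cexp (I * (φ + Complex.arg j : ℝ)) = cexp (I * φ) * (j / ‖j‖) := by
    rw [Complex.ofReal_add, mul_add, Complex.exp_add]
    congr 1
    rw [eq_div_iff (by exact_mod_cast hjn.ne'), mul_comm I, mul_comm]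
    exact Complex.norm_mul_exp_arg_mul_I j
  have h1 : (Real.sqrt z.im : ℂ) ≠ 0 := by exact_mod_cast th5_sqrt_ne z
  have h2 : (‖j‖ : ℂ) ≠ 0 := by exact_mod_cast hjn.ne'
  rw [harg, hs, hgz]
  push_cast
  have e1 : (c : ℂ) * (((g 0 0 : ℂ) * z + (g 0 1 : ℂ)) / j) + d =
      ((c * g 0 0 + d * g 1 0) * z + (c * g 0 1 + d * g 1 1)) / j := by
    rw [eq_div_iff hj0, add_mul, mul_assoc, div_mul_cancel₀ _ hj0, hj]
    ring
  rw [e1]
  field_simp

private theorem th5_ext {a b c d : ℝ} (h : (a : ℂ) + I * b = c + I * d) : a = c ∧ b = d := by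
  have h1 := congrArg Complex.re h
  have h2 := congrArg Complex.im h
  simp at h1 h2
  exact ⟨h1, h2⟩

theorem uu_smul (g : SL(2, ℤ)) (z : ℍ) (φ c d : ℝ) :
    uu (g • z) (φ + Complex.arg ((g 1 0 : ℂ) * (z : ℂ) + (g 1 1 : ℂ))) c d =
      uu z φ (c * g 0 0 + d * g 1 0) (c * g 0 1 + d * g 1 1) :=
  (th5_ext (th5_smul g z φ c d)).2

theorem vv_smul (g : SL(2, ℤ)) (z : ℍ) (φ c d : ℝ) :
    vv (g • z) (φ + Complex.arg ((g 1 0 : ℂ) * (z : ℂ) + (g 1 1 : ℂ))) c d =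
      vv z φ (c * g 0 0 + d * g 1 0) (c * g 0 1 + d * g 1 1) :=
  (th5_ext (th5_smul g z φ c d)).1

theorem uu_vv_det (z : ℍ) (φ a b c d : ℝ) :
    uu z φ a b * vv z φ c d - vv z φ a b * uu z φ c d = a * d - b * c := by
  have h0 := z.im_pos.ne'
  have h2 := Real.sin_sq_add_cos_sq φ
  rw [uu, vv, uu, vv, div_mul_div_comm, div_mul_div_comm, ← sub_div, ← sq, th5_sqrt_sq,
    div_eq_iff h0]
  linear_combination ((a * d - b * c) * z.im) * h2

theorem re_smul_add_one (g : SL(2, ℤ)) (z : ℍ) (φ : ℝ) :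
    (g • z).re + 1 = (uu z φ (g 1 0) (g 1 1) * uu z φ (g 0 0 + g 1 0) (g 0 1 + g 1 1) +
      vv z φ (g 1 0) (g 1 1) * vv z φ (g 0 0 + g 1 0) (g 0 1 + g 1 1)) /
      Np z (g 1 0) (g 1 1) := by
  have h0 := z.im_pos.ne'
  have h2 := Real.sin_sq_add_cos_sq φ
  have hj0 : ((g 1 0 : ℂ) * (z : ℂ) + (g 1 1 : ℂ)) ≠ 0 := by
    have := denom_ne_zero (g : GL (Fin 2) ℝ) z
    rw [ModularGroup.denom_apply] at this
    exact this
  have hgz : ((g • z : ℍ) : ℂ) = ((g 0 0 : ℂ) * z + (g 0 1 : ℂ)) /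
      ((g 1 0 : ℂ) * (z : ℂ) + (g 1 1 : ℂ)) := by
    rw [coe_specialLinearGroup_apply]
    simp
  have h3 : ((g 1 0 : ℝ) * z.re + g 1 1) ^ 2 + ((g 1 0 : ℝ) * z.im) ^ 2 ≠ 0 := by
    intro h
    apply hj0
    apply normSq_eq_zero.1
    rw [normSq_apply]
    simp
    linarith
  have h1 : ‖(((g 1 0 : ℝ) : ℂ)) * (z : ℂ) + ((g 1 1 : ℝ) : ℂ)‖ ^ 2 =
      ((g 1 0 : ℝ) * z.re + g 1 1) ^ 2 + ((g 1 0 : ℝ) * z.im) ^ 2 := by
    rw [Complex.sq_norm, normSq_apply]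
    simp
    ring
  have h4 : (g • z).re = (((g 0 0 : ℝ) * z.re + g 0 1) * ((g 1 0 : ℝ) * z.re + g 1 1) +
      ((g 0 0 : ℝ) * z.im) * ((g 1 0 : ℝ) * z.im)) /
      (((g 1 0 : ℝ) * z.re + g 1 1) ^ 2 + ((g 1 0 : ℝ) * z.im) ^ 2) := by
    change ((g • z : ℍ) : ℂ).re = _
    rw [hgz, Complex.div_re, normSq_apply]
    simp
    ring
  rw [h4, Np, h1, uu, uu, vv, vv, div_mul_div_comm, div_mul_div_comm, ← add_div, ← sq,
    th5_sqrt_sq, div_div_div_cancel_right₀ h0, eq_div_iff h3, add_mul, div_mul_cancel₀ _ h3]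
  linear_combination (-(((g 1 0 : ℝ) * z.re + g 1 1) * (((g 0 0 : ℝ) + g 1 0) * z.re +
    (g 0 1 + g 1 1)) + (g 1 0 : ℝ) * z.im * (((g 0 0 : ℝ) + g 1 0) * z.im))) * h2

theorem hasDerivAt_uu (z : ℍ) (φ c d : ℝ) :
    HasDerivAt (fun φ => uu z φ c d) (vv z φ c d) φ := by
  unfold uu vv
  have h1 := (((Real.hasDerivAt_sin φ).const_mul (c * z.re + d)).add
    ((Real.hasDerivAt_cos φ).const_mul (c * z.im))).div_const (Real.sqrt z.im)
  refine h1.congr_deriv ?_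
  ring

theorem hasDerivAt_vv (z : ℍ) (φ c d : ℝ) :
    HasDerivAt (fun φ => vv z φ c d) (-uu z φ c d) φ := by
  unfold uu vv
  have h1 := (((Real.hasDerivAt_cos φ).const_mul (c * z.re + d)).sub
    ((Real.hasDerivAt_sin φ).const_mul (c * z.im))).div_const (Real.sqrt z.im)
  refine h1.congr_deriv ?_
  ring

theorem del_smul {g k : SL(2, ℤ)} (z : ℍ) (φ : ℝ) :
    del g (k • z) (φ + Complex.arg ((k 1 0 : ℂ) * (z : ℂ) + (k 1 1 : ℂ))) = del (g * k) z φ := by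
  rw [del, del, uu_smul, uu_smul]
  have e : ∀ i l, (g * k) i l = g i 0 * k 0 l + g i 1 * k 1 l := by
    intro i l
    rw [Matrix.SpecialLinearGroup.coe_mul]
    simp [Matrix.mul_apply, Fin.sum_univ_two]
  rw [e 0 0, e 0 1, e 1 0, e 1 1]
  push_cast
  congr 2 <;> ring

theorem del_add_pi (g : SL(2, ℤ)) (z : ℍ) (φ : ℝ) : del g z (φ + π) = del g z φ := by
  simp only [del, uu, Real.sin_add_pi, Real.cos_add_pi]
  ring

theorem lintegral_shift (f : ℝ → ENNReal) (hf : Measurable f) (hper : ∀ φ, f (φ + π) = f φ)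
    (a : ℝ) : ∫⁻ φ in Set.Ioc 0 π, f (φ + a) = ∫⁻ φ in Set.Ioc 0 π, f φ := by
  have h1 : ∫⁻ φ in Set.Ioc 0 π, f (φ + a) = ∫⁻ φ in Set.Ioc a (a + π), f φ := by
    rw [← (measurePreserving_add_right volume a).setLIntegral_comp_preimage measurableSet_Ioc hf]
    congr 2
    rw [Set.preimage_add_const_Ioc]
    simp
  rw [h1]
  have h2 := isAddFundamentalDomain_Ioc Real.pi_pos a
  have h3 := isAddFundamentalDomain_Ioc Real.pi_pos 0
  have h4 := h2.setLIntegral_eq h3 f (by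
    rintro ⟨g, hg⟩ x
    obtain ⟨n, rfl⟩ := AddSubgroup.mem_zmultiples_iff.1 hg
    have hp : Function.Periodic f π := hper
    change f (n • π + x) = f x
    rw [add_comm]
    exact hp.zsmul n x)
  rw [zero_add] at h4
  exact h4

end RV11
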