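import Pool.Agent.LibRV11.Defs
import Pool.Agent.LibRV11.TH0
import Pool.Agent.LibRV11.TH5
open Complex Real MeasureTheory
open UpperHalfPlane hiding I
open scoped MatrixGroups

namespace RV11

private theorem th11_polar (x y : ℝ) : ∃ ψ r : ℝ, 0 ≤ ψ ∧ ψ < π ∧ r ^ 2 = x ^ 2 + y ^ 2 ∧
    x = r * Real.cos ψ ∧ y = r * Real.sin ψ := by
  have h1 : ((⟨x, y⟩ : ℂ)).re = ‖(⟨x, y⟩ : ℂ)‖ * Real.cos (Complex.arg ⟨x, y⟩) :=
    (Complex.norm_mul_cos_arg _).symm
  have h2 : ((⟨x, y⟩ : ℂ)).im = ‖(⟨x, y⟩ : ℂ)‖ * Real.sin (Complex.arg ⟨x, y⟩) :=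
    (Complex.norm_mul_sin_arg _).symm
  have h3 : ‖(⟨x, y⟩ : ℂ)‖ ^ 2 = x ^ 2 + y ^ 2 := by
    rw [Complex.sq_norm, Complex.normSq_apply]; ring
  have h4 := Complex.neg_pi_lt_arg (⟨x, y⟩ : ℂ)
  have h5 := Complex.arg_le_pi (⟨x, y⟩ : ℂ)
  set θ := Complex.arg (⟨x, y⟩ : ℂ) with hθ
  set ρ := ‖(⟨x, y⟩ : ℂ)‖ with hρ
  simp only at h1 h2
  rcases lt_or_ge θ 0 with h | h
  · refine ⟨θ + π, -ρ, by linarith, by linarith, by rw [neg_sq]; exact h3, ?_, ?_⟩
    · rw [Real.cos_add_pi, h1]; ring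
    · rw [Real.sin_add_pi, h2]; ring
  · rcases h5.lt_or_eq with h6 | h6
    · exact ⟨θ, ρ, h, h6, h3, h1, h2⟩
    · refine ⟨0, -ρ, le_rfl, Real.pi_pos, by rw [neg_sq]; exact h3, ?_, ?_⟩
      · rw [h1, h6, Real.cos_pi, Real.cos_zero]; ring
      · rw [h2, h6, Real.sin_pi, Real.sin_zero]; ring

private theorem th11_parallel {p q : ℤ × ℤ} (hp : IsCoprime p.1 p.2) (hq : IsCoprime q.1 q.2)
    (h : p.1 * q.2 - p.2 * q.1 = 0) : q = p ∨ q = -p := by
  obtain ⟨a, b, hab⟩ := hp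
  obtain ⟨c, d, hcd⟩ := hq
  -- q = k p
  set k := a * q.1 + b * q.2 with hk
  set l := c * p.1 + d * p.2 with hl
  have h1 : q.1 = k * p.1 := by
    rw [hk]; linear_combination (-q.1) * hab + (-b) * h
  have h2 : q.2 = k * p.2 := by
    rw [hk]; linear_combination (-q.2) * hab + (a) * h
  have h3 : k * l = 1 := by
    rw [hl]
    calc k * (c * p.1 + d * p.2) = c * (k * p.1) + d * (k * p.2) := by ring
      _ = c * q.1 + d * q.2 := by rw [← h1, ← h2]
      _ = 1 := hcd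
  rcases Int.eq_one_or_neg_one_of_mul_eq_one h3 with h4 | h4
  · left
    rw [h4, one_mul] at h1 h2
    exact Prod.ext h1 h2
  · right
    rw [h4] at h1 h2
    exact Prod.ext (by simpa using h1) (by simpa using h2)

/-- Non-parallel integer rows have `|det| ≥ 1`; a set of pairwise non-parallel coprime rows in a
disc of radius `√R` has at most `π R + 2` elements. `M` is given by the two linear forms. -/
theorem counting (α β γ δ : ℝ) (hdet : |α * δ - β * γ| = 1) (R : ℝ) (hR : 1 ≤ R)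
    (S : Finset (ℤ × ℤ)) (hS : ∀ p ∈ S, IsCoprime p.1 p.2)
    (hS2 : ∀ p ∈ S, ((p.1 : ℝ) * α + p.2 * β) ^ 2 + ((p.1 : ℝ) * γ + p.2 * δ) ^ 2 ≤ R) :
    (S.card : ℝ) ≤ 2 * (π * R + 2) := by
  classical
  have hR0 : 0 < R := by linarith
  have hpol : ∀ p : ℤ × ℤ, ∃ ψ r : ℝ, 0 ≤ ψ ∧ ψ < π ∧
      r ^ 2 = ((p.1 : ℝ) * α + p.2 * β) ^ 2 + ((p.1 : ℝ) * γ + p.2 * δ) ^ 2 ∧
      ((p.1 : ℝ) * α + p.2 * β) = r * Real.cos ψ ∧ ((p.1 : ℝ) * γ + p.2 * δ) = r * Real.sin ψ :=
    fun p => th11_polar _ _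
  choose ψ r h0 hπ hr hx hy using hpol
  set F : ℤ × ℤ → ℕ := fun p => ⌊R * ψ p⌋₊ with hF
  have hFR : ∀ p ∈ S, F p ∈ Finset.range (⌊R * π⌋₊ + 1) := by
    intro p _
    rw [Finset.mem_range, Nat.lt_succ_iff]
    exact Nat.floor_le_floor (mul_le_mul_of_nonneg_left (hπ p).le hR0.le)
  have hfib : ∀ n ∈ Finset.range (⌊R * π⌋₊ + 1), (S.filter (fun p => F p = n)).card ≤ 2 := by
    intro n _
    rcases (S.filter (fun p => F p = n)).eq_empty_or_nonempty with he | ⟨p, hp⟩
    · rw [he]; simp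
    · rw [Finset.mem_filter] at hp
      have hsub : S.filter (fun p => F p = n) ⊆ {p, -p} := by
        intro q hq
        rw [Finset.mem_filter] at hq
        have hpq : F p = F q := hp.2.trans hq.2.symm
        have hclose : |R * ψ q - R * ψ p| < 1 := by
          have a1 := Nat.floor_le (mul_nonneg hR0.le (h0 p))
          have a2 := Nat.lt_floor_add_one (R * ψ p)
          have b1 := Nat.floor_le (mul_nonneg hR0.le (h0 q))
          have b2 := Nat.lt_floor_add_one (R * ψ q)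
          have e : (⌊R * ψ p⌋₊ : ℝ) = (⌊R * ψ q⌋₊ : ℝ) := by exact_mod_cast hpq
          rw [abs_lt]
          constructor <;> linarith
        have hsin : |Real.sin (ψ q - ψ p)| < 1 / R := by
          have c1 : |Real.sin (ψ q - ψ p)| ≤ |ψ q - ψ p| := Real.abs_sin_le_abs
          have c2 : |ψ q - ψ p| < 1 / R := by
            rw [lt_div_iff₀ hR0]
            rw [← mul_sub, abs_mul, abs_of_pos hR0] at hclose
            linarith
          linarith
        have hrr : |r p * r q| ≤ R := by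
          have d1 := hS2 p hp.1
          have d2 := hS2 q hq.1
          rw [← hr] at d1 d2
          rw [abs_le]
          constructor <;> nlinarith [sq_nonneg (r p - r q), sq_nonneg (r p + r q)]
        have hdd : ((p.1 * q.2 - p.2 * q.1 : ℤ) : ℝ) * (α * δ - β * γ) = r p * r q * Real.sin (ψ q - ψ p) := by
          have : r p * r q * Real.sin (ψ q - ψ p) = (r p * Real.cos (ψ p)) * (r q * Real.sin (ψ q)) -
              (r p * Real.sin (ψ p)) * (r q * Real.cos (ψ q)) := by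
            rw [Real.sin_sub]; ring
          rw [this, ← hx, ← hy, ← hx, ← hy]
          push_cast; ring
        have hlt : |((p.1 * q.2 - p.2 * q.1 : ℤ) : ℝ)| < 1 := by
          have e1 : |((p.1 * q.2 - p.2 * q.1 : ℤ) : ℝ)| = |r p * r q * Real.sin (ψ q - ψ p)| := by
            rw [← hdd, abs_mul, hdet, mul_one]
          rw [e1, abs_mul]
          calc |r p * r q| * |Real.sin (ψ q - ψ p)| ≤ R * |Real.sin (ψ q - ψ p)| :=
                mul_le_mul_of_nonneg_right hrr (abs_nonneg _)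
            _ < R * (1 / R) := mul_lt_mul_of_pos_left hsin hR0
            _ = 1 := by field_simp
        have hz : p.1 * q.2 - p.2 * q.1 = 0 := by
          have : |(p.1 * q.2 - p.2 * q.1)| < 1 := by exact_mod_cast hlt
          exact Int.abs_lt_one_iff.1 this
        rcases th11_parallel (hS p hp.1) (hS q hq.1) hz with h | h
        · rw [h]; simp
        · rw [h]; simp
      exact (Finset.card_le_card hsub).trans Finset.card_le_two
  have hcard := Finset.card_le_mul_card_image_of_maps_to hFR 2 hfib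
  rw [Finset.card_range] at hcard
  have h2 : (S.card : ℝ) ≤ 2 * ((⌊R * π⌋₊ : ℝ) + 1) := by exact_mod_cast hcard
  have h3 : (⌊R * π⌋₊ : ℝ) ≤ R * π := Nat.floor_le (mul_nonneg hR0.le Real.pi_pos.le)
  nlinarith

/-- the form used in module U -/
theorem counting_frame (K : ℝ) (hK : 1 ≤ K) : ∃ C : ℝ, ∀ (z : ℍ) (φ T : ℝ) (S : Finset (ℤ × ℤ)),
    (∀ p ∈ S, IsCoprime p.1 p.2) →
    (∀ p ∈ S, vv z φ p.1 p.2 ^ 2 ≤ K * Real.exp T ∧ uu z φ p.1 p.2 ^ 2 ≤ K * Real.exp (-T)) →
    (S.card : ℝ) ≤ C := by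
  refine ⟨2 * (π * (2 * K) + 2), fun z φ T S hS hS2 => ?_⟩
  have hy := z.im_pos
  set y := z.im with hyd
  set e := Real.exp (T / 2) with he
  have he0 : 0 < e := Real.exp_pos _
  have hs0 : 0 < Real.sqrt y := Real.sqrt_pos.2 hy
  have hss : Real.sqrt y ^ 2 = y := Real.sq_sqrt hy.le
  have he2 : Real.exp T = e ^ 2 := by rw [he, ← Real.exp_nat_mul]; congr 1; push_cast; ring
  have he3 : Real.exp (-T) = (e ^ 2)⁻¹ := by rw [Real.exp_neg, he2]
  refine counting ((z.re * Real.cos φ - y * Real.sin φ) / Real.sqrt y / e) (Real.cos φ / Real.sqrt y / e)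
    ((z.re * Real.sin φ + y * Real.cos φ) / Real.sqrt y * e) (Real.sin φ / Real.sqrt y * e) ?_ (2 * K) (by linarith) S hS ?_
  · have : (z.re * Real.cos φ - y * Real.sin φ) / Real.sqrt y / e * (Real.sin φ / Real.sqrt y * e) -
        Real.cos φ / Real.sqrt y / e * ((z.re * Real.sin φ + y * Real.cos φ) / Real.sqrt y * e) = -1 := by
      have h1 : (z.re * Real.cos φ - y * Real.sin φ) / Real.sqrt y / e * (Real.sin φ / Real.sqrt y * e) -
        Real.cos φ / Real.sqrt y / e * ((z.re * Real.sin φ + y * Real.cos φ) / Real.sqrt y * e) =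
        -(y * (Real.sin φ ^ 2 + Real.cos φ ^ 2)) / Real.sqrt y ^ 2 := by
        field_simp
        ring
      rw [h1, Real.sin_sq_add_cos_sq, hss, mul_one, neg_div, div_self hy.ne']
    rw [this]; norm_num
  · intro p hp
    obtain ⟨h1, h2⟩ := hS2 p hp
    have e1 : (p.1 : ℝ) * ((z.re * Real.cos φ - y * Real.sin φ) / Real.sqrt y / e) + p.2 * (Real.cos φ / Real.sqrt y / e) =
        vv z φ p.1 p.2 / e := by
      unfold vv
      rw [← hyd]
      field_simp
      ring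
    have e2 : (p.1 : ℝ) * ((z.re * Real.sin φ + y * Real.cos φ) / Real.sqrt y * e) + p.2 * (Real.sin φ / Real.sqrt y * e) =
        uu z φ p.1 p.2 * e := by
      unfold uu
      rw [← hyd]
      field_simp
      ring
    rw [e1, e2, div_pow, mul_pow]
    rw [he2] at h1
    rw [he3] at h2
    have h3 : vv z φ p.1 p.2 ^ 2 / e ^ 2 ≤ K := by
      rw [div_le_iff₀ (by positivity)]; exact h1
    have h4 : uu z φ p.1 p.2 ^ 2 * e ^ 2 ≤ K := by
      calc uu z φ p.1 p.2 ^ 2 * e ^ 2 ≤ (K * (e ^ 2)⁻¹) * e ^ 2 := mul_le_mul_of_nonneg_right h2 (by positivity)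
        _ = K := by field_simp
    linarith

end RV11
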