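import Pool.Agent.LibRV11.Defs
import Pool.Agent.LibRV11.TH0
import Pool.Agent.LibRV11.TH9
import Pool.Agent.LibRV11.TH10
open Complex Real MeasureTheory
open UpperHalfPlane hiding I
open scoped MatrixGroups

namespace RV11

private lemma im_cusp (w : ℂ) : (-1 - 1 / w).im = w.im / Complex.normSq w := by
  rw [Complex.sub_im, one_div, Complex.inv_im]
  simp
  ring

theorem th2_ne_zero (w : ℂ) (hw : 0 < w.im) : th2 w ≠ 0 := by
  have hw0 : w ≠ 0 := by
    intro h; rw [h] at hw; simp at hw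
  have him : 0 < (-1 - 1 / w).im := by
    rw [im_cusp]
    exact div_pos hw (Complex.normSq_pos.mpr hw0)
  have h1 := theta_neg_one_sub w hw
  have h2 := theta_ne_zero ⟨-1 - 1 / w, him⟩
  intro h
  rw [h, mul_zero] at h1
  exact h2 h1

theorem W_eq_th2 (z w : ℍ) (h : (z : ℂ) = -1 - 1 / (w : ℂ)) :
    W z = ‖th2 w‖ ^ 2 * Real.sqrt w.im := by
  have hw := w.im_pos
  have hw0 : (w : ℂ) ≠ 0 := w.ne_zero
  have hwn : 0 < ‖(w : ℂ)‖ := norm_pos_iff.mpr hw0
  have him : z.im = w.im / ‖(w : ℂ)‖ ^ 2 := by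
    have h1 : (z : ℂ).im = (w : ℂ).im / Complex.normSq (w : ℂ) := by rw [h, im_cusp]
    rw [Complex.normSq_eq_norm_sq] at h1
    exact h1
  unfold W
  rw [him, h, theta_neg_one_sub (w : ℂ) w.im_pos, norm_mul, mul_pow]
  have e1 : ‖(-I * (w : ℂ)) ^ (1 / 2 : ℂ)‖ ^ 2 = ‖(w : ℂ)‖ := by
    have := norm_cpow_real (-I * (w : ℂ)) (1/2)
    rw [show ((1/2 : ℝ) : ℂ) = (1 / 2 : ℂ) by push_cast; ring] at this
    rw [this, ← Real.rpow_natCast, ← Real.rpow_mul (norm_nonneg _)]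
    simp
  rw [e1, Real.sqrt_div hw.le, Real.sqrt_sq hwn.le]
  field_simp

end RV11
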