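import Pool.Agent.LibRV11.Defs
import Pool.Agent.LibRV11.TH0
import Pool.Agent.LibRV11.TH1
import Pool.Agent.LibRV11.TH2
import Pool.Agent.LibRV11.TH3
open Complex Real MeasureTheory
open UpperHalfPlane hiding I
open scoped MatrixGroups

namespace RV11

theorem TH4_countable : Countable Gam := by
  have h1 : Countable (Matrix (Fin 2) (Fin 2) ℤ) := inferInstanceAs (Countable (Fin 2 → Fin 2 → ℤ))
  have h2 : Countable SL(2, ℤ) :=
    inferInstanceAs (Countable {A : Matrix (Fin 2) (Fin 2) ℤ // A.det = 1})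
  infer_instance

theorem TH4_mp (g : SL(2, ℤ)) : MeasurePreserving (fun z : ℍ => g • z) ∧
    MeasurableEmbedding (fun z : ℍ => g • z) := by
  have h1 : (fun z : ℍ => g • z) = fun z : ℍ => (g : GL (Fin 2) ℝ) • z := by
    funext z
    rfl
  rw [h1]
  exact ⟨measurePreserving_smul _ _, measurableEmbedding_const_smul _⟩

theorem TH4_measDD : MeasurableSet DD := by
  have h1 : IsOpen DD := by
    refine IsOpen.inter ?_ ?_
    · exact isOpen_lt (continuous_abs.comp UpperHalfPlane.continuous_re) continuous_const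
    · exact isOpen_lt continuous_const (continuous_norm.comp UpperHalfPlane.continuous_coe)
  exact h1.measurableSet

theorem TH4_count {M : Type*} [AddCommMonoid M] [TopologicalSpace M] [T2Space M] (a : M) {z : ℍ}
    (hz : ∃ g ∈ Gam, g • z ∈ DD) :
    ∑' g : Gam, DD.indicator (fun _ => a) ((g : SL(2, ℤ)) • z) = a + a := by
  classical
  obtain ⟨g0, hg0, h0⟩ := hz
  have hneg : -g0 ∈ Gam := by
    obtain ⟨h1, h2⟩ := hg0
    constructor
    · have := h1.neg
      simpa [add_comm] using this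
    · have := h2.neg
      simpa [add_comm] using this
  have hne : g0 ≠ -g0 := by
    intro h
    have h1 : ∀ i j, g0 i j = 0 := by
      intro i j
      have := congrArg (fun m : SL(2, ℤ) => (m : Matrix (Fin 2) (Fin 2) ℤ) i j) h
      simp only [Matrix.SpecialLinearGroup.coe_neg, Matrix.neg_apply] at this
      omega
    have h2 := g0.det_coe
    rw [Matrix.det_fin_two] at h2
    simp only [h1] at h2
    norm_num at h2
  have hns : (-g0) • z = g0 • z := by
    exact ModularGroup.SL_neg_smul g0 z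
  rw [tsum_eq_sum (s := {(⟨g0, hg0⟩ : Gam), ⟨-g0, hneg⟩})]
  · rw [Finset.sum_pair]
    · rw [Set.indicator_of_mem h0, Set.indicator_of_mem]
      change (-g0) • z ∈ DD
      rw [hns]
      exact h0
    · intro h
      exact hne (congrArg Subtype.val h)
  · rintro ⟨g, hg⟩ hgs
    refine Set.indicator_of_notMem ?_ _
    intro hgz
    apply hgs
    change g • z ∈ DD at hgz
    have h1 : (g * g0⁻¹) • (g0 • z) ∈ DD := by
      rw [← mul_smul, inv_mul_cancel_right]
      exact hgz
    rcases eq_one_or_neg_one (Gam.mul_mem hg (Gam.inv_mem hg0)) h0 h1 with h2 | h2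
    · have : g = g0 := by
        rw [mul_inv_eq_one] at h2
        exact h2
      subst this
      simp
    · have : g = -g0 := by
        have := congrArg (fun m => m * g0) h2
        simp only [inv_mul_cancel_right, neg_mul, one_mul] at this
        exact this
      subst this
      simp

theorem TH4_fun {M : Type*} [Zero M] (f : ℍ → M) (g : SL(2, ℤ)) (z : ℍ) :
    DD.indicator (fun _ => f z) (g • z) = DD.indicator (fun w => f (g⁻¹ • w)) (g • z) := by
  by_cases h : g • z ∈ DD
  · rw [Set.indicator_of_mem h, Set.indicator_of_mem h, inv_smul_smul]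
  · rw [Set.indicator_of_notMem h, Set.indicator_of_notMem h]

theorem unfold_lintegral (f : ℍ → ENNReal) (hf : Measurable f) :
    2 * ∫⁻ z, f z = ∑' g : Gam, ∫⁻ z in DD, f ((g : SL(2, ℤ)) • z) := by
  have hcount := TH4_countable
  have hm : ∀ g : Gam, Measurable fun z => DD.indicator (fun w => f ((g : SL(2, ℤ))⁻¹ • w))
      ((g : SL(2, ℤ)) • z) := fun g =>
    (((hf.comp (TH4_mp _).1.measurable).indicator TH4_measDD)).comp (TH4_mp _).1.measurable
  have h1 : ∫⁻ z, ∑' g : Gam, DD.indicator (fun w => f ((g : SL(2, ℤ))⁻¹ • w))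
      ((g : SL(2, ℤ)) • z) = ∑' g : Gam, ∫⁻ z in DD, f ((g : SL(2, ℤ))⁻¹ • z) := by
    rw [lintegral_tsum fun g => (hm g).aemeasurable]
    refine tsum_congr fun g => ?_
    have hmi : Measurable (DD.indicator (fun w => f ((g : SL(2, ℤ))⁻¹ • w))) :=
      (hf.comp (TH4_mp _).1.measurable).indicator TH4_measDD
    rw [(TH4_mp (g : SL(2, ℤ))).1.lintegral_comp hmi, lintegral_indicator TH4_measDD]
  have h2 : ∫⁻ z, ∑' g : Gam, DD.indicator (fun w => f ((g : SL(2, ℤ))⁻¹ • w))
      ((g : SL(2, ℤ)) • z) = 2 * ∫⁻ z, f z := by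
    rw [← lintegral_const_mul _ hf]
    refine lintegral_congr_ae ?_
    filter_upwards [ae_exists_smul_mem_DD] with z hz
    rw [two_mul, ← TH4_count (f z) hz]
    exact tsum_congr fun g => (TH4_fun f _ z).symm
  rw [← h2, h1]
  exact (Equiv.inv Gam).tsum_eq (fun g : Gam => ∫⁻ z in DD, f ((g : SL(2, ℤ)) • z))

theorem unfold_integral (f : ℍ → ℂ) (hf : Integrable f) :
    (∀ g : Gam, IntegrableOn (fun z => f ((g : SL(2, ℤ)) • z)) DD) ∧
    (Summable fun g : Gam => ∫ z in DD, ‖f ((g : SL(2, ℤ)) • z)‖) ∧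
    2 * ∫ z, f z = ∑' g : Gam, ∫ z in DD, f ((g : SL(2, ℤ)) • z) := by
  have hcount := TH4_countable
  have hi : ∀ g : SL(2, ℤ), Integrable fun z => f (g • z) := fun g =>
    (TH4_mp g).1.integrable_comp_of_integrable hf
  have h1 : ∀ g : Gam, IntegrableOn (fun z => f ((g : SL(2, ℤ)) • z)) DD := fun g =>
    (hi _).integrableOn
  have h2 : Summable fun g : Gam => ∫ z in DD, ‖f ((g : SL(2, ℤ)) • z)‖ := by
    set f' := hf.1.mk f with hf'
    have hm : Measurable fun z => ‖f' z‖ₑ := hf.1.stronglyMeasurable_mk.measurable.enorm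
    have e1 := unfold_lintegral (fun z => ‖f' z‖ₑ) hm
    have e2 : ∫⁻ z, ‖f' z‖ₑ ≠ ⊤ := by
      have : ∫⁻ z, ‖f' z‖ₑ = ∫⁻ z, ‖f z‖ₑ := by
        refine lintegral_congr_ae ?_
        filter_upwards [hf.1.ae_eq_mk] with z hz
        rw [hz]
      rw [this]
      exact hf.2.ne
    have e3 : ∑' g : Gam, ∫⁻ z in DD, ‖f' ((g : SL(2, ℤ)) • z)‖ₑ ≠ ⊤ := by
      rw [← e1]
      exact ENNReal.mul_ne_top (by norm_num) e2
    have e4 := ENNReal.summable_toReal e3
    have e5 : (fun g : Gam => ∫ z in DD, ‖f ((g : SL(2, ℤ)) • z)‖) =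
        fun g : Gam => (∫⁻ z in DD, ‖f' ((g : SL(2, ℤ)) • z)‖ₑ).toReal := by
      funext g
      rw [integral_norm_eq_lintegral_enorm (h1 g).1]
      congr 1
      refine lintegral_congr_ae (ae_restrict_of_ae ?_)
      have := (TH4_mp (g : SL(2, ℤ))).1.quasiMeasurePreserving.ae_eq_comp hf.1.ae_eq_mk
      filter_upwards [this] with z hz
      simp only [Function.comp] at hz
      rw [hz]
    rw [e5]
    exact e4
  refine ⟨h1, h2, ?_⟩
  set F : Gam → ℍ → ℂ := fun g z => DD.indicator (fun w => f ((g : SL(2, ℤ))⁻¹ • w))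
    ((g : SL(2, ℤ)) • z) with hF
  have hFi : ∀ g, Integrable (F g) := by
    intro g
    have e0 : Integrable (DD.indicator (fun w => f ((g : SL(2, ℤ))⁻¹ • w))) :=
      (hi (g : SL(2, ℤ))⁻¹).indicator TH4_measDD
    have e1 := (TH4_mp (g : SL(2, ℤ))).1.integrable_comp_of_integrable e0
    exact e1
  have hFn : ∀ g : Gam, ∫ z, ‖F g z‖ = ∫ z in DD, ‖f ((g : SL(2, ℤ))⁻¹ • z)‖ := by
    intro g
    have e1 : ∀ z, ‖F g z‖ = DD.indicator (fun w => ‖f ((g : SL(2, ℤ))⁻¹ • w)‖)
        ((g : SL(2, ℤ)) • z) := fun z =>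
      norm_indicator_eq_indicator_norm (s := DD) (fun w => f ((g : SL(2, ℤ))⁻¹ • w))
        ((g : SL(2, ℤ)) • z)
    simp only [e1]
    rw [(TH4_mp (g : SL(2, ℤ))).1.integral_comp (TH4_mp _).2
      (DD.indicator (fun w => ‖f ((g : SL(2, ℤ))⁻¹ • w)‖)), integral_indicator TH4_measDD]
  have hFint : ∀ g : Gam, ∫ z, F g z = ∫ z in DD, f ((g : SL(2, ℤ))⁻¹ • z) := by
    intro g
    rw [hF]
    simp only
    rw [(TH4_mp (g : SL(2, ℤ))).1.integral_comp (TH4_mp _).2
      (DD.indicator (fun w => f ((g : SL(2, ℤ))⁻¹ • w))), integral_indicator TH4_measDD]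
  have hsum : Summable fun g => ∫ z, ‖F g z‖ := by
    simp only [hFn]
    exact (Equiv.inv Gam).summable_iff.mpr h2
  have h3 := hasSum_integral_of_summable_integral_norm hFi hsum
  have h4 : ∫ z, ∑' g, F g z = 2 * ∫ z, f z := by
    rw [← integral_const_mul]
    refine integral_congr_ae ?_
    filter_upwards [ae_exists_smul_mem_DD] with z hz
    rw [two_mul, ← TH4_count (f z) hz]
    exact tsum_congr fun g => (TH4_fun f _ z).symm
  rw [← h4, ← h3.tsum_eq]
  simp only [hFint]
  exact (Equiv.inv Gam).tsum_eq (fun g : Gam => ∫ z in DD, f ((g : SL(2, ℤ)) • z))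

end RV11
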