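import Pool.Agent.LibRV11.TH0
import Pool.Agent.LibRV11.TH1
import Pool.Agent.LibRV11.TH2
import Pool.Agent.LibRV11.TH3
import Pool.Agent.LibRV11.TH4
import Pool.Agent.LibRV11.TH5
import Pool.Agent.LibRV11.TH6
import Pool.Agent.LibRV11.TH7
import Pool.Agent.LibRV11.TH8
import Pool.Agent.LibRV11.TH10
import Pool.Agent.LibRV11.TH9
import Pool.Agent.LibRV11.TH12
import Pool.Agent.LibRV11.TH11
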