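import Pool.Agent.LibRV11.AI1a
import Pool.Agent.LibRV11.AI3b
import Pool.Agent.LibRV11.Theta

open Complex Real MeasureTheory
open UpperHalfPlane hiding I
open scoped MatrixGroups

namespace RV11

theorem AI6a_neg_entry (g : SL(2, ℤ)) (i j : Fin 2) : (-g : SL(2, ℤ)) i j = -(g i j) := by
  change ((-g : SL(2, ℤ)) : Matrix (Fin 2) (Fin 2) ℤ) i j = _
  rw [Matrix.SpecialLinearGroup.coe_neg, Matrix.neg_apply]

theorem sep_neg (g : SL(2, ℤ)) (z : ℍ) : sep (-g) z = sep g z := by
  unfold sep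
  rw [AI6a_neg_entry, AI6a_neg_entry, ModularGroup.SL_neg_smul]
  push_cast
  rw [neg_div_neg_eq]

theorem TA_neg (h : ℝ → ℝ) (n : ℕ) (r : ℝ) (J : ℕ) (g : SL(2, ℤ)) (z : ℍ) :
    TA h n r J (-g) z = TA h n r J g z := by
  unfold TA
  rw [chi_neg, sep_neg, AI6a_neg_entry, AI6a_neg_entry, ModularGroup.SL_neg_smul]
  have h1 : |((-(g 1 0) : ℤ) : ℝ)| = |(g 1 0 : ℝ)| := by push_cast; rw [abs_neg]
  have h2 : |((-(g 0 0) : ℤ) : ℝ) + ((-(g 1 0) : ℤ) : ℝ)| = |(g 0 0 + g 1 0 : ℝ)| := by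
    push_cast
    rw [← neg_add, abs_neg]
  rw [h1, h2]

theorem AI6a_ind_le (P Q : Prop) : |ind P - ind Q| ≤ 1 := by
  unfold ind
  split_ifs <;> norm_num

theorem AI6a_continuous (g : SL(2, ℤ)) : Continuous fun z : ℍ => g • z := by
  have h : (fun z : ℍ => g • z) =
      fun z : ℍ => (Matrix.SpecialLinearGroup.map (Int.castRingHom ℝ) g : SL(2, ℝ)) • z := by
    funext z
    rfl
  rw [h]
  exact continuous_const_smul _

theorem TA_measurable {h : ℝ → ℝ} (hh : IsBump h) (n : ℕ) (r : ℝ) (J : ℕ) (g : SL(2, ℤ)) :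
    Measurable (TA h n r J g) := by
  have hsm : Continuous fun z : ℍ => g • z := AI6a_continuous g
  have hre : Measurable fun z : ℍ => (g • z).re :=
    (UpperHalfPlane.continuous_re.comp hsm).measurable
  have him : Continuous fun z : ℍ => z.im := UpperHalfPlane.continuous_im
  have hsep : Measurable fun z : ℍ => sep g z := by
    unfold sep
    apply Measurable.sub _ measurable_const
    unfold ind
    exact Measurable.ite (measurableSet_lt measurable_const hre) measurable_const measurable_const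
  have heta : Continuous eta := by
    unfold eta
    exact Real.smoothTransition.continuous.comp (continuous_const.sub continuous_id)
  have hhc : Continuous h := hh.smooth.continuous
  have hθ : Continuous fun z : ℍ => jacobiTheta (z : ℂ) := by
    rw [continuous_iff_continuousAt]
    intro z
    exact ContinuousAt.comp (f := fun z : ℍ => (z : ℂ)) (g := jacobiTheta)
      (differentiableAt_jacobiTheta z.im_pos).continuousAt
      UpperHalfPlane.continuous_coe.continuousAt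
  have hcoe : Continuous fun z : ℍ => (z : ℂ) := UpperHalfPlane.continuous_coe
  unfold TA
  apply Measurable.mul
  · apply Measurable.mul
    · apply Measurable.mul measurable_const
      apply Complex.measurable_ofReal.comp
      apply hsep.mul
      exact (heta.comp (by fun_prop)).measurable
    · exact (measurable_phh r).comp hsm.measurable
  · apply Measurable.mul
    · apply Measurable.mul
      · apply Complex.measurable_ofReal.comp
        exact ((hhc.comp (by fun_prop)).mul him).measurable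
      · exact hθ.measurable
    · exact (Complex.continuous_exp.comp (by fun_prop)).measurable

theorem AI6a_phh_theta {r : ℝ} (hr : 0 ≤ r) {g : SL(2, ℤ)} (hg : g ∈ Gam) (hc : g 1 0 ≠ 0)
    (z : ℍ) : ‖phh r (g • z)‖ * ‖jacobiTheta (z : ℂ)‖ ≤ Real.sqrt (1 / z.im) := by
  have hθ := theta_ne_zero (g • z)
  have hθ0 : 0 < ‖jacobiTheta ((g • z : ℍ) : ℂ)‖ := norm_pos_iff.2 hθ
  have hexp : ‖cexp (π * I * r * ((g • z : ℍ) : ℂ))‖ ≤ 1 := by
    rw [Complex.norm_exp]
    apply Real.exp_le_one_iff.2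
    have : (π * I * r * ((g • z : ℍ) : ℂ)).re = -(π * r * (g • z).im) := by
      simp [Complex.mul_re, Complex.mul_im]
    rw [this]
    have := (g • z).im_pos
    have : 0 ≤ π * r * (g • z).im := by positivity
    linarith
  have hden : z.im ≤ ‖(g 1 0 : ℂ) * (z : ℂ) + (g 1 1 : ℂ)‖ := by
    have h1 := Complex.abs_im_le_norm ((g 1 0 : ℂ) * (z : ℂ) + (g 1 1 : ℂ))
    have h2 : ((g 1 0 : ℂ) * (z : ℂ) + (g 1 1 : ℂ)).im = (g 1 0 : ℝ) * z.im := by
      simp
    rw [h2, abs_mul, abs_of_pos z.im_pos] at h1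
    have h3 : (1 : ℝ) ≤ |(g 1 0 : ℝ)| := by
      have : (1 : ℤ) ≤ |g 1 0| := Int.one_le_abs hc
      exact_mod_cast this
    have := z.im_pos
    nlinarith
  have hsq : (‖phh r (g • z)‖ * ‖jacobiTheta (z : ℂ)‖) ^ 2 ≤ 1 / z.im := by
    have h1 := theta_smul_norm hg z
    rw [phh, norm_div, div_mul_eq_mul_div, div_pow, mul_pow]
    rw [h1, div_le_div_iff₀ (by rw [← h1]; positivity) z.im_pos]
    have h2 : ‖cexp (π * I * r * ((g • z : ℍ) : ℂ))‖ ^ 2 ≤ 1 :=
      pow_le_one₀ (norm_nonneg _) hexp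
    have h3 : 0 ≤ ‖jacobiTheta (z : ℂ)‖ ^ 2 := by positivity
    calc ‖cexp (π * I * r * ((g • z : ℍ) : ℂ))‖ ^ 2 * ‖jacobiTheta (z : ℂ)‖ ^ 2 * z.im
        ≤ 1 * ‖jacobiTheta (z : ℂ)‖ ^ 2 * z.im := by
          gcongr
      _ ≤ 1 * (‖(g 1 0 : ℂ) * (z : ℂ) + (g 1 1 : ℂ)‖ * ‖jacobiTheta (z : ℂ)‖ ^ 2) := by
          nlinarith
  exact Real.le_sqrt_of_sq_le hsq

/-- `‖phh r (gz) θ(z)‖ = |cz+d|^{-1/2} e^{-πr Im gz} ≤ (|c| y)^{-1/2} ≤ √n`. -/
theorem TA_integrable {h : ℝ → ℝ} (hh : IsBump h) {n : ℕ} (hn : 1 ≤ n) {r : ℝ} (hr : 0 ≤ r) (J : ℕ)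
    {g : SL(2, ℤ)} (hg : g ∈ Gam) (hc : g 1 0 ≠ 0) : IntegrableOn (TA h n r J g) Strip := by
  have hn0 : (0 : ℝ) < n := by exact_mod_cast hn
  have hn1 : (1 : ℝ) ≤ n := by exact_mod_cast hn
  have hzero : ∀ z : ℍ, z.im < 1 / n ∨ 2 / n < z.im → TA h n r J g z = 0 := by
    intro z hz
    have h1 : h (n * z.im) = 0 := by
      apply hh.supp
      rcases hz with hz | hz
      · left
        rw [lt_div_iff₀ hn0] at hz
        linarith
      · right
        rw [div_lt_iff₀ hn0] at hz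
        linarith
    unfold TA
    rw [h1]
    simp
  apply strip_integrable_of_bounded (TA h n r J g) (TA_measurable hh n r J g)
    (a := 1 / n) (b := 2 / n) (K := Real.sqrt n * 2 * Real.exp (2 * π)) (by positivity) hzero
  intro z
  by_cases hz : z.im < 1 / n ∨ 2 / n < z.im
  · rw [hzero z hz, norm_zero]; positivity
  · push Not at hz
    obtain ⟨hz1, hz2⟩ := hz
    have hy := z.im_pos
    have b1 : ‖chi g‖ = 1 := norm_chi g
    have b2 : ‖((sep g z * eta (2 ^ (J + 1) * (z.im * |(g 1 0 : ℝ)| *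
        |(g 0 0 + g 1 0 : ℝ)|)) : ℝ) : ℂ)‖ ≤ 1 := by
      rw [Complex.norm_real, Real.norm_eq_abs, abs_mul]
      have e1 : |sep g z| ≤ 1 := AI6a_ind_le _ _
      have e2 : ∀ x, |eta x| ≤ 1 := by
        intro x
        unfold eta
        rw [abs_of_nonneg (Real.smoothTransition.nonneg _)]
        exact Real.smoothTransition.le_one _
      exact mul_le_one₀ e1 (abs_nonneg _) (e2 _)
    have b3 : ‖phh r (g • z)‖ * ‖jacobiTheta (z : ℂ)‖ ≤ Real.sqrt n := by
      refine (AI6a_phh_theta hr hg hc z).trans (Real.sqrt_le_sqrt ?_)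
      rw [div_le_iff₀ hy]
      rw [div_le_iff₀ hn0] at hz1
      linarith
    have b4 : ‖((h (n * z.im) * z.im : ℝ) : ℂ)‖ ≤ 2 := by
      rw [Complex.norm_real, Real.norm_eq_abs, abs_mul, abs_of_nonneg (hh.nonneg _),
        abs_of_pos hy]
      have e1 := hh.le_one (n * z.im)
      have e2 : z.im ≤ 2 := hz2.trans (by rw [div_le_iff₀ hn0]; linarith)
      have e3 := hh.nonneg (n * z.im)
      nlinarith
    have b5 : ‖cexp (-(π * I * n * (z : ℂ)))‖ ≤ Real.exp (2 * π) := by
      rw [Complex.norm_exp]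
      apply Real.exp_le_exp.2
      have : (-(π * I * n * (z : ℂ))).re = π * (n * z.im) := by
        simp [Complex.mul_re, Complex.mul_im]
        ring
      rw [this]
      have e1 : (n : ℝ) * z.im ≤ 2 := by
        rw [le_div_iff₀ hn0] at hz2
        linarith
      have := Real.pi_pos
      nlinarith
    unfold TA
    rw [norm_mul, norm_mul, norm_mul, norm_mul, norm_mul, b1, one_mul]
    set A := ‖((sep g z * eta (2 ^ (J + 1) * (z.im * |(g 1 0 : ℝ)| *
        |(g 0 0 + g 1 0 : ℝ)|)) : ℝ) : ℂ)‖ with hA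
    set P := ‖phh r (g • z)‖ with hP
    set Q := ‖jacobiTheta (z : ℂ)‖ with hQ
    set H := ‖((h (n * z.im) * z.im : ℝ) : ℂ)‖ with hH
    set E := ‖cexp (-(π * I * n * (z : ℂ)))‖ with hE
    have hA0 : 0 ≤ A := norm_nonneg _
    have hP0 : 0 ≤ P := norm_nonneg _
    have hQ0 : 0 ≤ Q := norm_nonneg _
    have hH0 : 0 ≤ H := norm_nonneg _
    have hE0 : 0 ≤ E := norm_nonneg _
    calc A * P * (H * Q * E) = A * ((P * Q) * H * E) := by ring
      _ ≤ 1 * (Real.sqrt n * 2 * Real.exp (2 * π)) := by gcongr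
      _ = _ := one_mul _

end RV11
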