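import Pool.Agent.LibRV11.AI0
import Pool.Agent.LibRV11.Theta

open Complex Real MeasureTheory
open UpperHalfPlane hiding I
open scoped MatrixGroups

namespace RV11

/-- For `c > 0`: `phh r (gz) θ(z) = Gs(d,c)/√c · (-i(cz+d))^{-1/2} e^{iπra/c} e^{-iπr/(c(cz+d))}`
(`theta_gauss`), in the variable `t = x + d/c`, `R = r/c²`. -/
theorem phh_mul_theta {r : ℝ} {g : SL(2, ℤ)} (hg : g ∈ Gam) {c : ℕ} (hc : 0 < c) (hgc : g 1 0 = c)
    (z : ℍ) : phh r (g • z) * jacobiTheta (z : ℂ) =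
      Gs (g 1 1) c / Real.sqrt c * ((c : ℝ) ^ (-(1 / 2) : ℝ) : ℝ) *
        cexp (π * I * r * (g 0 0) / c) *
        ((-I * (((z.re + (g 1 1 : ℝ) / c : ℝ) : ℂ) + I * z.im)) ^ (-(1 / 2) : ℂ) *
          cexp (-(π * I * ((r / c ^ 2 : ℝ) : ℂ) /
            (((z.re + (g 1 1 : ℝ) / c : ℝ) : ℂ) + I * z.im)))) := by
  have hθ := theta_ne_zero (g • z)
  rw [theta_gauss hg c hc hgc z, phh]
  set t : ℂ := ((z.re + (g 1 1 : ℝ) / c : ℝ) : ℂ) + I * z.im with ht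
  have hcC : (c : ℂ) ≠ 0 := by exact_mod_cast hc.ne'
  have hcR : (0 : ℝ) < c := by exact_mod_cast hc
  have ht0 : t ≠ 0 := by
    intro h
    have him := congrArg Complex.im h
    rw [ht] at him
    simp at him
    exact z.im_pos.ne' him
  have hz : (z : ℂ) = z.re + z.im * I := by
    rw [← UpperHalfPlane.coe_re, ← UpperHalfPlane.coe_im]
    exact (Complex.re_add_im (z : ℂ)).symm
  have hden : (c : ℂ) * (z : ℂ) + ((g 1 1 : ℤ) : ℂ) = c * t := by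
    rw [ht, hz]
    push_cast
    field_simp
    ring
  have hdet : (g 0 0 : ℤ) * g 1 1 - g 0 1 * g 1 0 = 1 := by
    have := g.2
    rw [Matrix.det_fin_two] at this
    exact this
  have hdetC : ((g 0 0 : ℤ) : ℂ) * ((g 1 1 : ℤ) : ℂ) - ((g 0 1 : ℤ) : ℂ) * c = 1 := by
    rw [hgc] at hdet
    exact_mod_cast hdet
  have hgz : ((g • z : ℍ) : ℂ) = (g 0 0 : ℤ) / c - 1 / (c ^ 2 * t) := by
    have h1 : ((g • z : ℍ) : ℂ) = (((g 0 0 : ℤ) : ℂ) * z + ((g 0 1 : ℤ) : ℂ)) /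
        (((g 1 0 : ℤ) : ℂ) * z + ((g 1 1 : ℤ) : ℂ)) := by
      rw [UpperHalfPlane.coe_specialLinearGroup_apply]
      simp
    have h2 : (((g 1 0 : ℤ) : ℂ) * z + ((g 1 1 : ℤ) : ℂ)) = c * t := by
      rw [← hden, hgc]; simp
    have h3 : (z : ℂ) = t - ((g 1 1 : ℤ) : ℂ) / c := by
      field_simp
      linear_combination hden
    rw [h1, h2, h3]
    field_simp
    linear_combination -hdetC
  have hpow : (-I * ((c : ℂ) * (z : ℂ) + ((g 1 1 : ℤ) : ℂ))) ^ (-(1 / 2) : ℂ) =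
      (((c : ℝ) ^ (-(1 / 2) : ℝ) : ℝ) : ℂ) * (-I * t) ^ (-(1 / 2) : ℂ) := by
    have h1 : -I * ((c : ℂ) * (z : ℂ) + ((g 1 1 : ℤ) : ℂ)) = ((c : ℝ) : ℂ) * (-I * t) := by
      rw [hden]; push_cast; ring
    have h2 : -I * t ≠ 0 := mul_ne_zero (neg_ne_zero.2 I_ne_zero) ht0
    have h3 : ((c : ℝ) : ℂ) * (-I * t) ≠ 0 := mul_ne_zero (by exact_mod_cast hc.ne') h2
    rw [h1, Complex.cpow_def_of_ne_zero h3, Complex.cpow_def_of_ne_zero h2,
      Complex.log_ofReal_mul hcR h2, Real.rpow_def_of_pos hcR, add_mul, Complex.exp_add]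
    congr 1
    push_cast
    congr 1
  have hexp : cexp (π * I * r * ((g • z : ℍ) : ℂ)) = cexp (π * I * r * (g 0 0) / c) *
      cexp (-(π * I * ((r / c ^ 2 : ℝ) : ℂ) / t)) := by
    rw [← Complex.exp_add, hgz]
    congr 1
    push_cast
    field_simp
    ring
  rw [hpow, hexp]
  field_simp

end RV11
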