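import Pool.Agent.LibRV11.AI1b
import Pool.Agent.LibRV11.AI3a
import Pool.Agent.LibRV11.AI5c
import Pool.Agent.LibRV11.AI6a
import Pool.Agent.LibRV11.AI6b

open Complex Real MeasureTheory
open UpperHalfPlane hiding I
open scoped MatrixGroups

namespace RV11

/-- the `y`-dependent factor -/
noncomputable def AI6c_K (h : ℝ → ℝ) (n : ℕ) (r : ℝ) (J : ℕ) (g : SL(2, ℤ)) (c : ℕ) (y : ℝ) : ℂ :=
  chi g * (eta (2 ^ (J + 1) * (y * |(g 1 0 : ℝ)| * |(g 0 0 + g 1 0 : ℝ)|)) : ℝ) *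
    (Gs (g 1 1) c / Real.sqrt c * ((c : ℝ) ^ (-(1 / 2) : ℝ) : ℝ) *
        cexp (π * I * r * (g 0 0) / c)) *
    ((h (n * y) * y : ℝ) * ((Real.exp (π * n * y) : ℝ) * cexp (π * I * n * ((g 1 1 : ℝ) / c : ℝ))))

theorem AI6c_K_zero {h : ℝ → ℝ} (hh : IsBump h) (n : ℕ) (r : ℝ) (J : ℕ) (g : SL(2, ℤ)) (c : ℕ)
    {y : ℝ} (hy : n * y ≤ 1 ∨ 2 ≤ n * y) : AI6c_K h n r J g c y = 0 := by
  unfold AI6c_K
  rw [hh.supp _ hy]
  simp

theorem AI6c_eta_le (x : ℝ) : |eta x| ≤ 1 := by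
  unfold eta
  rw [abs_le]
  exact ⟨by linarith [Real.smoothTransition.nonneg (2 - x)], Real.smoothTransition.le_one _⟩

theorem AI6c_K_norm {h : ℝ → ℝ} (hh : IsBump h) (n : ℕ) (r : ℝ) (J : ℕ) {g : SL(2, ℤ)}
    (hg : g ∈ Gam) {c : ℕ} (hc : 0 < c) (hgc : g 1 0 = c) {y : ℝ} (hy : 0 < y) (hy2 : n * y ≤ 2) :
    ‖AI6c_K h n r J g c y‖ ≤ y * Real.exp (2 * π) := by
  have hcop : IsCoprime (c : ℤ) (g 1 1) := by
    have hdet := g.det_coe
    rw [Matrix.det_fin_two] at hdet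
    refine ⟨-(g 0 1), g 0 0, ?_⟩
    rw [← hgc]; linarith
  have heven : Even ((c : ℤ) * g 1 1) := by
    have := even_cd hg
    rwa [hgc] at this
  have hGs : ‖Gs (g 1 1) c / Real.sqrt c‖ = 1 := by
    rw [norm_div, norm_Gs _ _ hc hcop heven, Complex.norm_real, Real.norm_eq_abs,
      abs_of_nonneg (Real.sqrt_nonneg _), div_self]
    exact (Real.sqrt_pos.mpr (by exact_mod_cast hc)).ne'
  have hcc : ‖(((c : ℝ) ^ (-(1 / 2) : ℝ) : ℝ) : ℂ)‖ ≤ 1 := by
    rw [Complex.norm_real, Real.norm_eq_abs, abs_of_nonneg (Real.rpow_nonneg (by positivity) _)]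
    exact Real.rpow_le_one_of_one_le_of_nonpos (by exact_mod_cast hc) (by norm_num)
  have e1 : ‖cexp (π * I * r * (g 0 0) / c)‖ = 1 := by
    rw [show (π * I * r * (g 0 0) / c : ℂ) = ((π * r * (g 0 0 : ℝ) / c : ℝ) : ℂ) * I by
      push_cast; ring]
    exact Complex.norm_exp_ofReal_mul_I _
  have e2 : ‖cexp (π * I * n * ((g 1 1 : ℝ) / c : ℝ))‖ = 1 := by
    rw [show (π * I * n * ((g 1 1 : ℝ) / c : ℝ) : ℂ) = ((π * n * ((g 1 1 : ℝ) / c) : ℝ) : ℂ) * I by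
      push_cast; ring]
    exact Complex.norm_exp_ofReal_mul_I _
  have e3 : ‖((Real.exp (π * n * y) : ℝ) : ℂ)‖ ≤ Real.exp (2 * π) := by
    rw [Complex.norm_real, Real.norm_eq_abs, abs_of_pos (Real.exp_pos _)]
    apply Real.exp_le_exp.mpr
    nlinarith [Real.pi_pos]
  have e4 : ‖((h (n * y) * y : ℝ) : ℂ)‖ ≤ y := by
    rw [Complex.norm_real, Real.norm_eq_abs, abs_mul, abs_of_pos hy, abs_of_nonneg (hh.nonneg _)]
    exact mul_le_of_le_one_left hy.le (hh.le_one _)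
  have e5 : ‖((eta (2 ^ (J + 1) * (y * |(g 1 0 : ℝ)| * |(g 0 0 + g 1 0 : ℝ)|)) : ℝ) : ℂ)‖ ≤ 1 := by
    rw [Complex.norm_real, Real.norm_eq_abs]; exact AI6c_eta_le _
  unfold AI6c_K
  rw [norm_mul, norm_mul, norm_mul, norm_mul, norm_mul, norm_mul, norm_mul, norm_chi, hGs, e1, e2,
    one_mul, one_mul, mul_one, mul_one]
  calc _ ≤ 1 * 1 * (y * Real.exp (2 * π)) := by gcongr
    _ = _ := by ring

/-- the `x`-dependent factor -/
noncomputable def AI6c_P (n : ℕ) (R y t : ℝ) : ℂ :=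
  (-I * (t + I * y)) ^ (-(1 / 2) : ℂ) * cexp (-(π * I * R / (t + I * y))) *
    cexp (-(π * I * n * t))

theorem AI6c_TA_eq {h : ℝ → ℝ} (n : ℕ) (r : ℝ) (J : ℕ) {g : SL(2, ℤ)}
    (hg : g ∈ Gam) {c : ℕ} (hc : 0 < c) (hgc : g 1 0 = c) (z : ℍ) :
    TA h n r J g z = AI6c_K h n r J g c z.im *
      ((sepq g z.re z.im : ℂ) * AI6c_P n (r / c ^ 2) z.im (z.re + (g 1 1 : ℝ) / c)) := by
  have hc0 : g 1 0 ≠ 0 := by rw [hgc]; exact_mod_cast hc.ne'
  have hac : g 0 0 + g 1 0 ≠ 0 := by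
    intro h0
    have := odd_col hg
    rw [h0] at this
    exact absurd this (by decide)
  have hexp : cexp (-(π * I * n * (z : ℂ))) =
      (Real.exp (π * n * z.im) : ℝ) * (cexp (π * I * n * ((g 1 1 : ℝ) / c : ℝ)) *
        cexp (-(π * I * n * ((z.re + (g 1 1 : ℝ) / c : ℝ) : ℂ)))) := by
    rw [Complex.ofReal_exp, ← Complex.exp_add, ← Complex.exp_add]
    congr 1
    have hz : (z : ℂ) = (z.re : ℂ) + z.im * I := by
      apply Complex.ext <;> simp
    rw [hz]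
    push_cast
    have := Complex.I_mul_I
    linear_combination (-(π * n * (z.im : ℂ)) : ℂ) * this
  have h1 := phh_mul_theta (r := r) hg hc hgc z
  have h2 := sep_eq_sepq hc0 hac z
  unfold TA AI6c_K AI6c_P
  rw [hexp, h2]
  have h3 : chi g * ((sepq g z.re z.im * eta (2 ^ (J + 1) * (z.im * |(g 1 0 : ℝ)| *
        |(g 0 0 + g 1 0 : ℝ)|)) : ℝ) : ℂ) * phh r (g • z) *
      ((h (n * z.im) * z.im : ℝ) * jacobiTheta (z : ℂ) * ((Real.exp (π * n * z.im) : ℝ) *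
      (cexp (π * I * n * ((g 1 1 : ℝ) / c : ℝ)) *
        cexp (-(π * I * n * ((z.re + (g 1 1 : ℝ) / c : ℝ) : ℂ)))))) =
      chi g * ((sepq g z.re z.im * eta (2 ^ (J + 1) * (z.im * |(g 1 0 : ℝ)| *
        |(g 0 0 + g 1 0 : ℝ)|)) : ℝ) : ℂ) * (phh r (g • z) * jacobiTheta (z : ℂ)) *
      ((h (n * z.im) * z.im : ℝ) * ((Real.exp (π * n * z.im) : ℝ) *
      (cexp (π * I * n * ((g 1 1 : ℝ) / c : ℝ)) *
        cexp (-(π * I * n * ((z.re + (g 1 1 : ℝ) / c : ℝ) : ℂ)))))) := by ring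
  rw [h3, h1]
  push_cast
  ring

theorem AI6c_inner {C : ℝ} (hC : ∀ n : ℕ, 1 ≤ n → ∀ y : ℝ, 0 < y → n * y ≤ 2 →
    ∀ R : ℝ, 0 ≤ R → ∀ a b : ℝ, a ≤ b →
      ‖∫ t in a..b, (-I * (t + I * y)) ^ (-(1 / 2) : ℂ) * cexp (-(π * I * R / (t + I * y))) *
        cexp (-(π * I * n * t))‖ ≤ C / Real.sqrt n) {n : ℕ} (hn : 1 ≤ n) {R y : ℝ} (hR : 0 ≤ R)
    (hy : 0 < y) (hny : n * y ≤ 2) {g : SL(2, ℤ)} (hc : g 1 0 ≠ 0) (hac : g 0 0 + g 1 0 ≠ 0)
    (s : ℝ) :
    ‖∫ x in (-1 : ℝ)..1, (sepq g x y : ℂ) * AI6c_P n R y (x + s)‖ ≤ C / Real.sqrt n := by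
  obtain ⟨σ, x1, x2, hσ, hx, -, hf⟩ := sepq_interval hc hac hy
  rw [hf, norm_mul, intervalIntegral.integral_comp_add_right (fun x => AI6c_P n R y x)]
  have h1 : ‖(σ : ℂ)‖ ≤ 1 := by rw [Complex.norm_real]; exact hσ
  have h2 : ‖∫ x in (x1 + s)..(x2 + s), AI6c_P n R y x‖ ≤ C / Real.sqrt n :=
    hC n hn y hy hny R hR _ _ (by linarith)
  calc _ ≤ 1 * (C / Real.sqrt n) := by gcongr
    _ = _ := one_mul _

/-- For fixed `y ∈ [1/n, 2/n]`: `‖∫_{-1}^1 TA(x+iy) dx‖ ≤ C y /√n` (by `sepq_interval`,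
`phh_mul_theta` and `wall_osc`), then integrate `dy/y²` (`strip_integral` with
`F = TA ∘ UpperHalfPlane.ofComplex`). `g` with `c < 0`: `TA_neg`. -/
theorem TA_bound (h : ℝ → ℝ) (hh : IsBump h) : ∃ C : ℝ, 0 ≤ C ∧ ∀ n : ℕ, 1 ≤ n → ∀ r : ℝ, 0 ≤ r →
    ∀ J : ℕ, ∀ g ∈ Gam, g 1 0 ≠ 0 → ‖∫ z in Strip, TA h n r J g z‖ ≤ C / Real.sqrt n := by
  obtain ⟨C, hC0, hC⟩ := wall_osc
  refine ⟨Real.exp (2 * π) * C, by positivity, ?_⟩
  -- the case c > 0
  have key : ∀ n : ℕ, 1 ≤ n → ∀ r : ℝ, 0 ≤ r → ∀ J : ℕ, ∀ g ∈ Gam, ∀ c : ℕ, 0 < c → g 1 0 = c →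
      ‖∫ z in Strip, TA h n r J g z‖ ≤ Real.exp (2 * π) * C / Real.sqrt n := by
    intro n hn r hr J g hg c hc hgc
    have hc0 : g 1 0 ≠ 0 := by rw [hgc]; exact_mod_cast hc.ne'
    have hac : g 0 0 + g 1 0 ≠ 0 := by
      intro h0
      have := odd_col hg
      rw [h0] at this
      exact absurd this (by decide)
    have hn0 : (0 : ℝ) < n := by exact_mod_cast hn
    have hint := TA_integrable hh hn hr J hg hc0
    have hF : ∀ z : ℍ, TA h n r J g (UpperHalfPlane.ofComplex (z : ℂ)) = TA h n r J g z := by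
      intro z; rw [UpperHalfPlane.ofComplex_apply]
    have h1 := strip_integral (fun w : ℂ => TA h n r J g (UpperHalfPlane.ofComplex w))
      (by simpa only [hF] using hint)
    simp only [hF] at h1
    rw [h1]
    have hy : ∀ y : ℝ, 0 < y → ∫ x in (-1 : ℝ)..1,
        TA h n r J g (UpperHalfPlane.ofComplex ((x : ℂ) + y * I)) =
        AI6c_K h n r J g c y * ∫ x in (-1 : ℝ)..1,
          (sepq g x y : ℂ) * AI6c_P n (r / c ^ 2) y (x + (g 1 1 : ℝ) / c) := by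
      intro y hy
      rw [← intervalIntegral.integral_const_mul]
      apply intervalIntegral.integral_congr
      intro x _
      have him : 0 < ((x : ℂ) + y * I).im := by simpa using hy
      simp only
      rw [UpperHalfPlane.ofComplex_apply_of_im_pos him, AI6c_TA_eq n r J hg hc hgc]
      have e1 : (UpperHalfPlane.mk ((x : ℂ) + y * I) him).im = y := by
        simp [UpperHalfPlane.im]
      have e2 : (UpperHalfPlane.mk ((x : ℂ) + y * I) him).re = x := by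
        simp [UpperHalfPlane.re]
      rw [e1, e2]
    have hsub : Set.Icc (1 / (n : ℝ)) (2 / n) ⊆ Set.Ioi 0 := fun y hy =>
      lt_of_lt_of_le (by positivity) hy.1
    have h2 : ∫ y in Set.Ioi (0 : ℝ), (∫ x in (-1 : ℝ)..1,
        TA h n r J g (UpperHalfPlane.ofComplex ((x : ℂ) + y * I))) / (y : ℂ) ^ 2 =
        ∫ y in Set.Icc (1 / (n : ℝ)) (2 / n), (∫ x in (-1 : ℝ)..1,
        TA h n r J g (UpperHalfPlane.ofComplex ((x : ℂ) + y * I))) / (y : ℂ) ^ 2 := by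
      apply setIntegral_eq_of_subset_of_forall_sdiff_eq_zero measurableSet_Ioi hsub
      intro y hyy
      have hy0 : 0 < y := hyy.1
      rw [hy y hy0]
      have : n * y ≤ 1 ∨ 2 ≤ n * y := by
        by_contra hcon
        push Not at hcon
        apply hyy.2
        constructor
        · rw [div_le_iff₀ hn0]; linarith
        · rw [le_div_iff₀ hn0]; linarith
      rw [AI6c_K_zero hh n r J g c this, zero_mul, zero_div]
    rw [h2]
    have h3 : ∀ y ∈ Set.Icc (1 / (n : ℝ)) (2 / n), ‖(∫ x in (-1 : ℝ)..1,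
        TA h n r J g (UpperHalfPlane.ofComplex ((x : ℂ) + y * I))) / (y : ℂ) ^ 2‖ ≤
        n * (Real.exp (2 * π) * C / Real.sqrt n) := by
      intro y hyy
      have hy0 : 0 < y := hsub hyy
      have hny : n * y ≤ 2 := by
        have := hyy.2; rw [le_div_iff₀ hn0] at this; linarith
      have hny1 : 1 ≤ n * y := by
        have := hyy.1; rw [div_le_iff₀ hn0] at this; linarith
      rw [hy y hy0, norm_div, norm_mul]
      have a1 := AI6c_K_norm hh n r J hg hc hgc hy0 hny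
      have a2 := AI6c_inner hC hn (R := r / c ^ 2) (by positivity) hy0 hny hc0 hac
        ((g 1 1 : ℝ) / c)
      have a3 : ‖(y : ℂ) ^ 2‖ = y ^ 2 := by
        rw [norm_pow, Complex.norm_real, Real.norm_eq_abs, abs_of_pos hy0]
      rw [a3, div_le_iff₀ (by positivity)]
      calc _ ≤ (y * Real.exp (2 * π)) * (C / Real.sqrt n) := by gcongr
        _ = (Real.exp (2 * π) * C / Real.sqrt n) * y := by ring
        _ ≤ (Real.exp (2 * π) * C / Real.sqrt n) * (n * y ^ 2) := by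
            apply mul_le_mul_of_nonneg_left _ (by positivity)
            nlinarith
        _ = _ := by ring
    have h4 := norm_setIntegral_le_of_norm_le_const (μ := volume)
      (s := Set.Icc (1 / (n : ℝ)) (2 / n)) (by
        rw [Real.volume_Icc]; exact ENNReal.ofReal_lt_top) h3
    refine h4.trans ?_
    rw [Real.volume_real_Icc_of_le (by gcongr; norm_num)]
    have : (2 / (n : ℝ) - 1 / n) = 1 / n := by ring
    rw [this]
    apply le_of_eq
    field_simp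
  intro n hn r hr J g hg hc
  rcases lt_or_gt_of_ne hc with hneg | hpos
  · have hg' : -g ∈ Gam := by
      rw [mem_Gam_iff] at hg ⊢
      simpa using hg
    have e : ∀ z, TA h n r J g z = TA h n r J (-g) z := fun z => (TA_neg h n r J g z).symm
    simp only [e]
    refine key n hn r hr J (-g) hg' (g 1 0).natAbs (by omega) ?_
    simp only [Matrix.SpecialLinearGroup.coe_neg, Matrix.neg_apply]
    omega
  · exact key n hn r hr J g hg (g 1 0).natAbs (by omega) (by omega)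

end RV11
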