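import Pool.Agent.LibRV11.Defs

open Complex Real MeasureTheory
open UpperHalfPlane hiding I
open scoped MatrixGroups

namespace RV11

private theorem AI7_det (g : SL(2, ℤ)) : g 0 0 * g 1 1 - g 0 1 * g 1 0 = 1 := by
  have := g.det_coe
  rw [Matrix.det_fin_two] at this
  exact this

private noncomputable def AI7_T (n : ℕ) : Finset (ℤ × ℤ × ℤ) :=
  (Finset.Icc 1 n).biUnion fun m : ℕ =>
    (({(m : ℤ), -(m : ℤ)} : Finset ℤ) ×ˢ
      ((Finset.Icc (1 : ℤ) ((n / m : ℕ) : ℤ) ∪ Finset.Icc (-((n / m : ℕ) : ℤ)) (-1)) ×ˢ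
        Finset.Icc (-2 : ℤ) 1))

private theorem AI7_card (n : ℕ) : (AI7_T n).card ≤ 16 * ∑ m ∈ Finset.Icc 1 n, n / m := by
  unfold AI7_T
  refine (Finset.card_biUnion_le).trans ?_
  rw [Finset.mul_sum]
  refine Finset.sum_le_sum fun m _ => ?_
  rw [Finset.card_product, Finset.card_product]
  have h1 : (({(m : ℤ), -(m : ℤ)} : Finset ℤ)).card ≤ 2 := Finset.card_le_two
  have h2 : (Finset.Icc (1 : ℤ) ((n / m : ℕ) : ℤ) ∪ Finset.Icc (-((n / m : ℕ) : ℤ)) (-1)).card ≤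
      2 * (n / m) := by
    refine (Finset.card_union_le _ _).trans ?_
    rw [Int.card_Icc, Int.card_Icc]
    omega
  have h3 : (Finset.Icc (-2 : ℤ) 1).card = 4 := by decide
  rw [h3]
  calc _ ≤ 2 * (2 * (n / m) * 4) := Nat.mul_le_mul h1 (Nat.mul_le_mul_right _ h2)
    _ = 16 * (n / m) := by ring

private theorem AI7_card_real (N : ℝ) (hN : 1 ≤ N) :
    ((AI7_T ⌊N⌋₊).card : ℝ) ≤ 16 * N * (1 + Real.log N) := by
  set n := ⌊N⌋₊ with hn
  have hn1 : 1 ≤ n := (Nat.one_le_floor_iff N).2 hN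
  have hnN : (n : ℝ) ≤ N := Nat.floor_le (by linarith)
  have h1 : ((AI7_T n).card : ℝ) ≤ 16 * ∑ m ∈ Finset.Icc 1 n, ((n / m : ℕ) : ℝ) := by
    exact_mod_cast AI7_card n
  have h2 : ∑ m ∈ Finset.Icc 1 n, ((n / m : ℕ) : ℝ) ≤ N * (1 + Real.log N) := by
    have h3 : ∑ m ∈ Finset.Icc 1 n, ((n / m : ℕ) : ℝ) ≤ (n : ℝ) * ∑ m ∈ Finset.Icc 1 n, ((m : ℝ))⁻¹ := by
      rw [Finset.mul_sum]
      refine Finset.sum_le_sum fun m _ => ?_
      rw [← div_eq_mul_inv]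
      exact Nat.cast_div_le
    have h4 : (∑ m ∈ Finset.Icc 1 n, ((m : ℝ))⁻¹) ≤ 1 + Real.log n := by
      have h5 := harmonic_le_one_add_log n
      rw [harmonic_eq_sum_Icc] at h5
      push_cast at h5
      exact h5
    have h6 : Real.log n ≤ Real.log N := Real.log_le_log (by exact_mod_cast hn1) hnN
    have h7 : 0 ≤ Real.log N := Real.log_nonneg hN
    have h8 : 0 ≤ 1 + Real.log n := by
      have := Real.log_nonneg (by exact_mod_cast hn1 : (1 : ℝ) ≤ n)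
      linarith
    calc _ ≤ (n : ℝ) * ∑ m ∈ Finset.Icc 1 n, ((m : ℝ))⁻¹ := h3
      _ ≤ (n : ℝ) * (1 + Real.log n) := mul_le_mul_of_nonneg_left h4 (Nat.cast_nonneg _)
      _ ≤ N * (1 + Real.log N) := mul_le_mul hnN (by linarith) h8 (by linarith)
  nlinarith

private theorem AI7_inj {g h : SL(2, ℤ)} (hc : g 1 0 ≠ 0) (e1 : g 1 0 = h 1 0)
    (e2 : g 0 0 + g 1 0 = h 0 0 + h 1 0) (e3 : g 1 1 / |g 1 0| = h 1 1 / |h 1 0|) : g = h := by
  have ea : g 0 0 = h 0 0 := by omega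
  have d1 := AI7_det g
  have d2 := AI7_det h
  rw [← ea, ← e1] at d2
  have hdvd : g 1 0 ∣ g 1 1 - h 1 1 := by
    have h1 : g 1 0 ∣ g 0 0 * (g 1 1 - h 1 1) := ⟨g 0 1 - h 0 1, by linear_combination d1 - d2⟩
    have h2 : IsCoprime (g 1 0) (g 0 0) := ⟨-(g 0 1), g 1 1, by linear_combination d1⟩
    exact h2.dvd_of_dvd_mul_left h1
  have ed : g 1 1 = h 1 1 := by
    rw [← e1] at e3
    have hpos : 0 < |g 1 0| := abs_pos.2 hc
    have m1 := Int.emod_add_mul_ediv (g 1 1) |g 1 0|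
    have m2 := Int.emod_add_mul_ediv (h 1 1) |g 1 0|
    have b1 := Int.emod_nonneg (g 1 1) hpos.ne'
    have b2 := Int.emod_nonneg (h 1 1) hpos.ne'
    have b3 := Int.emod_lt_of_pos (g 1 1) hpos
    have b4 := Int.emod_lt_of_pos (h 1 1) hpos
    rw [← e3] at m2
    have hd' : |g 1 0| ∣ g 1 1 - h 1 1 := (abs_dvd _ _).2 hdvd
    have hdiff : |g 1 1 - h 1 1| < |g 1 0| := by
      rw [abs_lt]
      constructor <;> linarith
    have := Int.eq_zero_of_abs_lt_dvd hd' hdiff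
    linarith
  have eb : g 0 1 = h 0 1 := by
    rw [← ed] at d2
    have h5 : g 0 1 * g 1 0 = h 0 1 * g 1 0 := by linarith
    exact mul_right_cancel₀ hc h5
  ext i j
  fin_cases i <;> fin_cases j
  · exact ea
  · exact eb
  · exact e1
  · exact ed

/-- `(c, a+c)`: at most `4 N (1 + log N)` pairs; given `(a,c)` the residue of `d` modulo `c` is
determined (`ad ≡ 1`), so at most `4` values of `d`; `b` is determined. -/
theorem wall_count (N : ℝ) (hN : 1 ≤ N) : ∃ S : Finset Gam,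
    (∀ g : Gam, (g : SL(2, ℤ)) 1 0 ≠ 0 → (g : SL(2, ℤ)) 0 0 + (g : SL(2, ℤ)) 1 0 ≠ 0 →
      |((g : SL(2, ℤ)) 1 0 : ℝ)| * |((g : SL(2, ℤ)) 0 0 : ℝ) + ((g : SL(2, ℤ)) 1 0 : ℝ)| ≤ N →
      |((g : SL(2, ℤ)) 1 1 : ℝ)| < 2 * |((g : SL(2, ℤ)) 1 0 : ℝ)| → g ∈ S) ∧
    (∀ g ∈ S, (g : SL(2, ℤ)) 1 0 ≠ 0) ∧
    (S.card : ℝ) ≤ 16 * N * (1 + Real.log N) := by
  set f : Gam → ℤ × ℤ × ℤ := fun g => ((g : SL(2, ℤ)) 1 0, (g : SL(2, ℤ)) 0 0 + (g : SL(2, ℤ)) 1 0,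
    (g : SL(2, ℤ)) 1 1 / |(g : SL(2, ℤ)) 1 0|) with hf
  set U : Set Gam := {g | (g : SL(2, ℤ)) 1 0 ≠ 0 ∧ (g : SL(2, ℤ)) 0 0 + (g : SL(2, ℤ)) 1 0 ≠ 0 ∧
      |((g : SL(2, ℤ)) 1 0 : ℝ)| * |((g : SL(2, ℤ)) 0 0 : ℝ) + ((g : SL(2, ℤ)) 1 0 : ℝ)| ≤ N ∧
      |((g : SL(2, ℤ)) 1 1 : ℝ)| < 2 * |((g : SL(2, ℤ)) 1 0 : ℝ)|} with hU
  have hmaps : Set.MapsTo f U (AI7_T ⌊N⌋₊ : Set (ℤ × ℤ × ℤ)) := by
    rintro g ⟨hc, he, hce, hd⟩
    simp only [hf]
    generalize (g : SL(2, ℤ)) 1 0 = c at *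
    generalize (g : SL(2, ℤ)) 0 0 = a at *
    generalize (g : SL(2, ℤ)) 1 1 = d at *
    have hce' : ((c.natAbs * (a + c).natAbs : ℕ) : ℝ) ≤ N := by
      push_cast
      rw [Nat.cast_natAbs, Nat.cast_natAbs]
      push_cast
      exact hce
    have hn := (Nat.le_floor hce')
    have hc1 : 1 ≤ c.natAbs := Int.natAbs_pos.2 hc
    have he1 : 1 ≤ (a + c).natAbs := Int.natAbs_pos.2 he
    have hdI : |d| < 2 * |c| := by exact_mod_cast hd
    have hpos : 0 < |c| := abs_pos.2 hc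
    simp only [AI7_T, Finset.coe_biUnion, Set.mem_iUnion, Finset.mem_coe, Finset.mem_product,
      Finset.mem_union, Finset.mem_Icc, Finset.mem_insert, Finset.mem_singleton]
    refine ⟨c.natAbs, ⟨hc1, le_trans (Nat.le_mul_of_pos_right _ he1) hn⟩, ?_, ?_, ?_, ?_⟩
    · omega
    · have h5 : (a + c).natAbs ≤ ⌊N⌋₊ / c.natAbs := by
        rw [Nat.le_div_iff_mul_le hc1, mul_comm]
        exact hn
      generalize ⌊N⌋₊ / c.natAbs = q at *
      omega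
    · rw [Int.le_ediv_iff_mul_le hpos]
      have := (abs_lt.1 hdI).1
      linarith
    · have : d / |c| < 2 := by
        rw [Int.ediv_lt_iff_lt_mul hpos]
        exact (abs_lt.1 hdI).2
      omega
  have hinj : Set.InjOn f U := by
    rintro g ⟨hc, _⟩ h _ hgh
    simp only [hf, Prod.mk.injEq] at hgh
    obtain ⟨e1, e2, e3⟩ := hgh
    exact Subtype.ext (AI7_inj hc e1 e2 e3)
  have hfin : U.Finite := Set.Finite.of_injOn hmaps hinj (Finset.finite_toSet _)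
  refine ⟨hfin.toFinset, fun g h1 h2 h3 h4 => hfin.mem_toFinset.2 ⟨h1, h2, h3, h4⟩,
    fun g hg => (hfin.mem_toFinset.1 hg).1, ?_⟩
  refine le_trans ?_ (AI7_card_real N hN)
  have : hfin.toFinset.card ≤ (AI7_T ⌊N⌋₊).card := by
    refine Finset.card_le_card_of_injOn f (fun g hg => hmaps (hfin.mem_toFinset.1 hg)) ?_
    rw [hfin.coe_toFinset]
    exact hinj
  exact_mod_cast this

end RV11
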