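import Pool.Agent.LibRV11.AI2b
import Pool.Agent.LibRV11.AI6c
import Pool.Agent.LibRV11.AI7

open Complex Real MeasureTheory
open UpperHalfPlane hiding I
open scoped MatrixGroups

namespace RV11

theorem AI8_om (r : ℝ) : ‖om r / 2‖ ≤ 1 := by
  have h1 : ‖cexp (2 * π * I * r)‖ = 1 := by
    rw [show (2 * π * I * r : ℂ) = ((2 * π * r : ℝ) : ℂ) * I by push_cast; ring]
    exact Complex.norm_exp_ofReal_mul_I _
  have h2 : ‖om r‖ ≤ 2 := by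
    unfold om
    calc _ ≤ ‖(1 : ℂ)‖ + ‖cexp (2 * π * I * r)‖ := norm_sub_le _ _
      _ = 2 := by rw [h1]; norm_num
  rw [norm_div]
  have : ‖(2 : ℂ)‖ = 2 := by norm_num
  rw [this]; linarith

theorem AI8_num {n : ℕ} (hn : 1 ≤ n) :
    16 * (2 * (n : ℝ) ^ (19 / 40 : ℝ)) * (1 + Real.log (2 * (n : ℝ) ^ (19 / 40 : ℝ))) /
      Real.sqrt n ≤ 672 := by
  have hn1 : (1 : ℝ) ≤ n := by exact_mod_cast hn
  have hn0 : (0 : ℝ) < n := by linarith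
  have hlog : Real.log (2 * (n : ℝ) ^ (19 / 40 : ℝ)) = Real.log 2 + 19 / 40 * Real.log n := by
    rw [Real.log_mul (by norm_num) (by positivity), Real.log_rpow hn0]
  have h2 : Real.log 2 ≤ 1 := by
    have := Real.log_le_sub_one_of_pos (show (0 : ℝ) < 2 by norm_num)
    linarith
  have h3 : Real.log n ≤ 40 * (n : ℝ) ^ (1 / 40 : ℝ) := by
    have := Real.log_le_rpow_div hn0.le (show (0 : ℝ) < 1 / 40 by norm_num)
    linarith
  have h4 : (1 : ℝ) ≤ (n : ℝ) ^ (1 / 40 : ℝ) := Real.one_le_rpow hn1 (by norm_num)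
  have h5 : Real.sqrt n = (n : ℝ) ^ (19 / 40 : ℝ) * (n : ℝ) ^ (1 / 40 : ℝ) := by
    rw [← Real.rpow_add hn0, Real.sqrt_eq_rpow]; norm_num
  have h6 : 0 < (n : ℝ) ^ (19 / 40 : ℝ) := by positivity
  rw [hlog, h5, div_le_iff₀ (by positivity)]
  have h7 : 1 + (Real.log 2 + 19 / 40 * Real.log n) ≤ 21 * (n : ℝ) ^ (1 / 40 : ℝ) := by
    nlinarith
  calc 16 * (2 * (n : ℝ) ^ (19 / 40 : ℝ)) * (1 + (Real.log 2 + 19 / 40 * Real.log n))
      ≤ 16 * (2 * (n : ℝ) ^ (19 / 40 : ℝ)) * (21 * (n : ℝ) ^ (1 / 40 : ℝ)) := by gcongr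
    _ = _ := by ring

theorem AI8_mem {n : ℕ} (hn : 1 ≤ n) {J : ℕ} (hJ : (n : ℝ) ^ (21 / 40 : ℝ) ≤ 2 ^ (J + 1))
    {g : Gam} (hc : (g : SL(2, ℤ)) 1 0 ≠ 0) {z : ℍ} (hz : z ∈ Strip) (hy1 : 1 < n * z.im)
    (hne : sep (g : SL(2, ℤ)) z * eta (2 ^ (J + 1) * (z.im * |((g : SL(2, ℤ)) 1 0 : ℝ)| *
      |((g : SL(2, ℤ)) 0 0 + (g : SL(2, ℤ)) 1 0 : ℝ)|)) ≠ 0) :
    |((g : SL(2, ℤ)) 1 0 : ℝ)| * |((g : SL(2, ℤ)) 0 0 : ℝ) + ((g : SL(2, ℤ)) 1 0 : ℝ)| ≤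
      2 * (n : ℝ) ^ (19 / 40 : ℝ) ∧
    |((g : SL(2, ℤ)) 1 1 : ℝ)| < 2 * |((g : SL(2, ℤ)) 1 0 : ℝ)| := by
  have hn1 : (1 : ℝ) ≤ n := by exact_mod_cast hn
  have hn0 : (0 : ℝ) < n := by linarith
  have hac : (g : SL(2, ℤ)) 0 0 + (g : SL(2, ℤ)) 1 0 ≠ 0 := by
    intro h0
    have := odd_col g.2
    rw [h0] at this
    exact absurd this (by decide)
  obtain ⟨hs, he⟩ := mul_ne_zero_iff.mp hne
  rw [sep_eq_sepq hc hac] at hs
  obtain ⟨h1, h2⟩ := sepq_bounds hc hac z.im_pos hs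
  constructor
  · set X : ℝ := |((g : SL(2, ℤ)) 1 0 : ℝ)| *
      |((g : SL(2, ℤ)) 0 0 : ℝ) + ((g : SL(2, ℤ)) 1 0 : ℝ)| with hX
    have hX0 : 0 ≤ X := by positivity
    have h3 : 2 ^ (J + 1) * (z.im * X) < 2 := by
      by_contra hcon
      push Not at hcon
      apply he
      unfold eta
      apply Real.smoothTransition.zero_of_nonpos
      rw [hX] at hcon
      rw [mul_assoc z.im]
      linarith
    have h4 : 2 ^ (J + 1) * X < 2 * n := by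
      have : 2 ^ (J + 1) * X * 1 ≤ 2 ^ (J + 1) * X * (n * z.im) :=
        mul_le_mul_of_nonneg_left hy1.le (by positivity)
      nlinarith
    have h5 : (n : ℝ) ^ (21 / 40 : ℝ) * X ≤ 2 * n :=
      (mul_le_mul_of_nonneg_right hJ hX0).trans h4.le
    have h6 : (n : ℝ) = (n : ℝ) ^ (21 / 40 : ℝ) * (n : ℝ) ^ (19 / 40 : ℝ) := by
      rw [← Real.rpow_add hn0]; norm_num
    have h7 : 0 < (n : ℝ) ^ (21 / 40 : ℝ) := by positivity
    have h8 : (n : ℝ) ^ (21 / 40 : ℝ) * X ≤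
        (n : ℝ) ^ (21 / 40 : ℝ) * (2 * (n : ℝ) ^ (19 / 40 : ℝ)) := by
      calc _ ≤ 2 * (n : ℝ) := h5
        _ = 2 * ((n : ℝ) ^ (21 / 40 : ℝ) * (n : ℝ) ^ (19 / 40 : ℝ)) := by rw [← h6]
        _ = _ := by ring
    exact le_of_mul_le_mul_left h8 h7
  · have hcR : 0 < |((g : SL(2, ℤ)) 1 0 : ℝ)| := abs_pos.mpr (by exact_mod_cast hc)
    have h3 : |((g : SL(2, ℤ)) 1 1 : ℝ) / ((g : SL(2, ℤ)) 1 0 : ℝ)| < 2 := by
      have hz' : |z.re| < 1 := hz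
      calc |((g : SL(2, ℤ)) 1 1 : ℝ) / ((g : SL(2, ℤ)) 1 0 : ℝ)|
          = |(z.re + ((g : SL(2, ℤ)) 1 1 : ℝ) / ((g : SL(2, ℤ)) 1 0 : ℝ)) - z.re| := by ring_nf
        _ ≤ |z.re + ((g : SL(2, ℤ)) 1 1 : ℝ) / ((g : SL(2, ℤ)) 1 0 : ℝ)| + |z.re| := abs_sub _ _
        _ < 2 := by linarith
    rw [abs_div, div_lt_iff₀ hcR] at h3
    exact h3

/-- With `N = 2 n^{19/40}`: only `g ∈ S` (`wall_count`) contribute. -/
theorem ThA_bound' (h : ℝ → ℝ) (hh : IsBump h) : ∃ (C : ℝ) (n0 : ℕ), ∀ n : ℕ, n0 ≤ n →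
    ∀ r : ℝ, 0 ≤ r → ∀ J : ℕ, (n : ℝ) ^ (21 / 40 : ℝ) ≤ 2 ^ (J + 1) →
    ‖∫ z in Strip, ThA r J z * ((h (n * z.im) * z.im : ℝ) * jacobiTheta (z : ℂ) *
      cexp (-(π * I * n * (z : ℂ))))‖ ≤ C := by
  obtain ⟨C, hC0, hC⟩ := TA_bound h hh
  refine ⟨672 * C, 1, fun n hn r hr J hJ => ?_⟩
  have hn1 : (1 : ℝ) ≤ n := by exact_mod_cast hn
  have hN : 1 ≤ 2 * (n : ℝ) ^ (19 / 40 : ℝ) := by
    have : (1 : ℝ) ≤ (n : ℝ) ^ (19 / 40 : ℝ) := Real.one_le_rpow hn1 (by norm_num)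
    linarith
  obtain ⟨S, hS1, hS2, hS3⟩ := wall_count _ hN
  have hpt : ∀ z ∈ Strip, ThA r J z * ((h (n * z.im) * z.im : ℝ) * jacobiTheta (z : ℂ) *
      cexp (-(π * I * n * (z : ℂ)))) = om r / 2 * ∑ g ∈ S, TA h n r J (g : SL(2, ℤ)) z := by
    intro z hz
    by_cases hz0 : h (n * z.im) = 0
    · have : ∀ g ∈ S, TA h n r J (g : SL(2, ℤ)) z = 0 := by
        intro g _
        unfold TA
        rw [hz0]; simp
      rw [Finset.sum_eq_zero this, hz0]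
      simp
    have hy1 : 1 < n * z.im := by
      by_contra hcon
      exact hz0 (hh.supp _ (Or.inl (not_lt.mp hcon)))
    unfold ThA
    rw [tsum_eq_sum (s := S)]
    · rw [mul_assoc, Finset.sum_mul]
      congr 1
      apply Finset.sum_congr rfl
      intro g hg
      rw [if_neg (hS2 g hg)]
      rfl
    · intro g hg
      by_cases hc : (g : SL(2, ℤ)) 1 0 = 0
      · rw [if_pos hc]
      rw [if_neg hc]
      by_cases hne : sep (g : SL(2, ℤ)) z * eta (2 ^ (J + 1) * (z.im *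
          |((g : SL(2, ℤ)) 1 0 : ℝ)| *
          |((g : SL(2, ℤ)) 0 0 + (g : SL(2, ℤ)) 1 0 : ℝ)|)) = 0
      · unfold sep at hne
        rw [hne]; simp
      · exfalso
        obtain ⟨h1, h2⟩ := AI8_mem hn hJ hc hz hy1 hne
        have hac : (g : SL(2, ℤ)) 0 0 + (g : SL(2, ℤ)) 1 0 ≠ 0 := by
          intro h0
          have := odd_col g.2
          rw [h0] at this
          exact absurd this (by decide)
        exact hg (hS1 g hc hac h1 h2)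
  have hmS : MeasurableSet Strip := by
    have : Strip = (fun z : ℍ => |z.re|) ⁻¹' Set.Iio 1 := rfl
    rw [this]
    exact (isOpen_Iio.preimage (by fun_prop)).measurableSet
  rw [setIntegral_congr_fun hmS hpt, integral_const_mul, integral_finset_sum]
  · rw [norm_mul]
    have h1 : ‖∑ g ∈ S, ∫ z in Strip, TA h n r J (g : SL(2, ℤ)) z‖ ≤
        S.card * (C / Real.sqrt n) := by
      refine (norm_sum_le _ _).trans ?_
      rw [← nsmul_eq_mul]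
      apply Finset.sum_le_card_nsmul
      intro g hg
      exact hC n hn r hr J g g.2 (hS2 g hg)
    calc _ ≤ 1 * (S.card * (C / Real.sqrt n)) := by
          gcongr
          exact AI8_om r
      _ ≤ 1 * ((16 * (2 * (n : ℝ) ^ (19 / 40 : ℝ)) *
          (1 + Real.log (2 * (n : ℝ) ^ (19 / 40 : ℝ)))) * (C / Real.sqrt n)) := by gcongr
      _ = (16 * (2 * (n : ℝ) ^ (19 / 40 : ℝ)) *
          (1 + Real.log (2 * (n : ℝ) ^ (19 / 40 : ℝ))) / Real.sqrt n) * C := by ring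
      _ ≤ 672 * C := by
          gcongr
          exact AI8_num hn
  · intro g hg
    exact TA_integrable hh hn hr J g.2 (hS2 g hg)

end RV11
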