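import Pool.Agent.LibRV11.Defs
open Complex Real MeasureTheory
open UpperHalfPlane hiding I
open scoped MatrixGroups

namespace RV11

namespace Asm1Aux

open Function Function.Periodic Filter Topology

/-- extension by zero -/
noncomputable def ext (F : ℂ → ℂ) (z : ℂ) : ℂ := if 0 < z.im then F z else 0

theorem ext_of_pos {F : ℂ → ℂ} {z : ℂ} (hz : 0 < z.im) : ext F z = F z := if_pos hz

theorem isOpen_im : IsOpen {z : ℂ | 0 < z.im} := isOpen_lt continuous_const Complex.continuous_im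

theorem ext_periodic {F : ℂ → ℂ} (hper : ∀ z : ℂ, 0 < z.im → F (z + 2) = F z) :
    Function.Periodic (ext F) ((2 : ℝ) : ℂ) := by
  intro z
  have h2 : (((2 : ℝ) : ℂ)) = 2 := by norm_num
  rw [h2]
  have him : (z + 2).im = z.im := by simp
  unfold ext
  rw [him]
  by_cases hz : 0 < z.im
  · rw [if_pos hz, if_pos hz, hper z hz]
  · rw [if_neg hz, if_neg hz]

theorem ext_differentiableAt {F : ℂ → ℂ} (hF : DifferentiableOn ℂ F {z | 0 < z.im}) {z : ℂ}
    (hz : 0 < z.im) : DifferentiableAt ℂ (ext F) z := by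
  have h1 : DifferentiableAt ℂ F z := (hF z hz).differentiableAt (isOpen_im.mem_nhds hz)
  refine h1.congr_of_eventuallyEq ?_
  filter_upwards [isOpen_im.mem_nhds hz] with w hw
  exact ext_of_pos hw

theorem qParam_two (z : ℂ) : qParam 2 z = cexp (π * I * z) := by
  rw [qParam]
  congr 1
  push_cast
  ring

/-- the function on the disc -/
noncomputable def gg (F : ℂ → ℂ) : ℂ → ℂ := cuspFunction 2 (ext F)

theorem gg_apply {F : ℂ → ℂ} (hper : ∀ z : ℂ, 0 < z.im → F (z + 2) = F z) {z : ℂ}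
    (hz : 0 < z.im) : gg F (cexp (π * I * z)) = F z := by
  rw [gg, ← qParam_two, eq_cuspFunction (by norm_num) (ext_periodic hper), ext_of_pos hz]

theorem gg_differentiable {F : ℂ → ℂ} (hF : DifferentiableOn ℂ F {z | 0 < z.im})
    (hper : ∀ z : ℂ, 0 < z.im → F (z + 2) = F z) (C : ℝ) (hC : ∀ z : ℂ, 2 ≤ z.im → ‖F z‖ ≤ C) :
    DifferentiableOn ℂ (gg F) (Metric.ball 0 1) := by
  intro q hq
  apply DifferentiableAt.differentiableWithinAt
  rw [mem_ball_zero_iff] at hq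
  have hev : ∀ y : ℝ, ∀ᶠ z : ℂ in comap Complex.im atTop, y ≤ z.im := fun y =>
    tendsto_comap.eventually (eventually_ge_atTop y)
  by_cases h0 : q = 0
  · rw [h0]
    apply differentiableAt_cuspFunction_zero (by norm_num) (ext_periodic hper)
    · filter_upwards [hev 1] with z hz
      exact ext_differentiableAt hF (by linarith)
    · apply Asymptotics.IsBigO.of_bound C
      filter_upwards [hev 2] with z hz
      rw [ext_of_pos (by linarith)]
      simpa using hC z hz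
  · have h1 : 0 < (invQParam 2 q).im := by
      rw [im_invQParam]
      have h2 : Real.log ‖q‖ < 0 := Real.log_neg (norm_pos_iff.2 h0) hq
      have h3 : -(2 : ℝ) / (2 * π) < 0 := by
        rw [neg_div, neg_lt_zero]
        positivity
      exact mul_pos_of_neg_of_neg h3 h2
    have h2 := differentiableAt_cuspFunction (h := 2) (by norm_num) (ext_periodic hper)
      (ext_differentiableAt hF h1)
    rwa [qParam_right_inv (by norm_num) h0] at h2

theorem coeff_eq {F : ℂ → ℂ} (hF : DifferentiableOn ℂ F {z | 0 < z.im})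
    (hper : ∀ z : ℂ, 0 < z.im → F (z + 2) = F z) (C : ℝ) (hC : ∀ z : ℂ, 2 ≤ z.im → ‖F z‖ ≤ C)
    {R : NNReal} (hR0 : 0 < R) (hR1 : (R : ℝ) < 1) :
    HasFPowerSeriesOnBall (gg F) (cauchyPowerSeries (gg F) 0 R) 0 R :=
  DifferentiableOn.hasFPowerSeriesOnBall
    ((gg_differentiable hF hper C hC).mono (Metric.closedBall_subset_ball hR1)) hR0

/-- the coefficients -/
noncomputable def cc (F : ℂ → ℂ) (n : ℕ) : ℂ :=
  (cauchyPowerSeries (gg F) 0 ((1 / 2 : NNReal) : ℝ)).coeff n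

theorem series_eq {F : ℂ → ℂ} (hF : DifferentiableOn ℂ F {z | 0 < z.im})
    (hper : ∀ z : ℂ, 0 < z.im → F (z + 2) = F z) (C : ℝ) (hC : ∀ z : ℂ, 2 ≤ z.im → ‖F z‖ ≤ C)
    {R : NNReal} (hR0 : 0 < R) (hR1 : (R : ℝ) < 1) (n : ℕ) :
    cc F n = (cauchyPowerSeries (gg F) 0 R).coeff n := by
  have h1 := coeff_eq hF hper C hC (R := 1 / 2) (by norm_num) (by norm_num)
  have h2 := coeff_eq hF hper C hC hR0 hR1
  have h3 := HasFPowerSeriesAt.eq_formalMultilinearSeries ⟨_, h1⟩ ⟨_, h2⟩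
  rw [cc, h3]

theorem cc_circle {F : ℂ → ℂ} (hF : DifferentiableOn ℂ F {z | 0 < z.im})
    (hper : ∀ z : ℂ, 0 < z.im → F (z + 2) = F z) (C : ℝ) (hC : ∀ z : ℂ, 2 ≤ z.im → ‖F z‖ ≤ C)
    (n : ℕ) {y : ℝ} (hy : 0 < y) :
    cc F n = 1 / 2 * ∫ x in (-1 : ℝ)..1, F (x + I * y) * cexp (-(π * I * n * (x + I * y))) := by
  -- the radius
  obtain ⟨R, hR⟩ : ∃ R : NNReal, (R : ℝ) = Real.exp (-π * y) := ⟨⟨_, (Real.exp_pos _).le⟩, rfl⟩
  have hR0 : 0 < R := by
    rw [← NNReal.coe_pos, hR]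
    exact Real.exp_pos _
  have hR1 : (R : ℝ) < 1 := by
    rw [hR, Real.exp_lt_one_iff]
    have := Real.pi_pos
    nlinarith
  have hR0' : (R : ℝ) ≠ 0 := (NNReal.coe_pos.2 hR0).ne'
  rw [series_eq hF hper C hC hR0 hR1 n]
  have e1 : (cauchyPowerSeries (gg F) 0 R).coeff n =
      cauchyPowerSeries (gg F) 0 R n (fun _ => 1) := rfl
  rw [e1, cauchyPowerSeries_apply, circleIntegral]
  -- the integrand in terms of the angle
  obtain ⟨f, hf⟩ : ∃ f : ℝ → ℂ, f = fun x : ℝ =>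
    F (x + I * y) * cexp (-(π * I * n * (x + I * y))) := ⟨_, rfl⟩
  have e2 : ∀ θ : ℝ, deriv (circleMap 0 (R : ℝ)) θ •
      ((1 / (circleMap 0 (R : ℝ) θ - 0)) ^ n • (circleMap 0 (R : ℝ) θ - 0)⁻¹ •
        gg F (circleMap 0 (R : ℝ) θ)) = I * f (π⁻¹ * θ) := by
    intro θ
    have hq : circleMap 0 (R : ℝ) θ = cexp (π * I * ((π⁻¹ * θ : ℝ) + I * y)) := by
      rw [circleMap, zero_add, hR, Complex.ofReal_exp, ← Complex.exp_add]
      congr 1
      have hpi : (π : ℂ) ≠ 0 := by exact_mod_cast Real.pi_ne_zero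
      push_cast
      field_simp
      linear_combination (-(π * y : ℂ)) * Complex.I_sq
    have hq0 : circleMap 0 (R : ℝ) θ ≠ 0 := circleMap_ne_center hR0'
    have him : 0 < (((π⁻¹ * θ : ℝ) : ℂ) + I * y).im := by simpa using hy
    have hg : gg F (circleMap 0 (R : ℝ) θ) = F (((π⁻¹ * θ : ℝ) : ℂ) + I * y) := by
      rw [hq, gg_apply hper him]
    rw [hg, deriv_circleMap, sub_zero, smul_eq_mul, smul_eq_mul, smul_eq_mul, hf]
    have hpow : (1 / circleMap 0 (R : ℝ) θ) ^ n =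
        cexp (-(π * I * n * (((π⁻¹ * θ : ℝ) : ℂ) + I * y))) := by
      rw [hq, one_div, ← Complex.exp_neg, ← Complex.exp_nat_mul]
      congr 1
      ring
    rw [hpow]
    field_simp
  rw [intervalIntegral.integral_congr (fun θ _ => e2 θ), intervalIntegral.integral_const_mul,
    intervalIntegral.integral_comp_mul_left (f := f) (inv_ne_zero Real.pi_ne_zero), mul_zero]
  have e3 : π⁻¹ * (2 * π) = 2 := by
    field_simp
  rw [e3, inv_inv]
  -- periodicity
  have hfp : Function.Periodic f 2 := by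
    intro x
    have him : 0 < ((x : ℂ) + I * y).im := by simpa using hy
    have h1 : (((x + 2 : ℝ) : ℂ) + I * y) = (x + I * y) + 2 := by
      push_cast; ring
    simp only [hf]
    rw [h1, hper _ him]
    congr 1
    have h2 : -(π * I * n * ((x : ℂ) + I * y + 2)) =
        -(π * I * n * ((x : ℂ) + I * y)) - (n : ℕ) * (2 * π * I) := by ring
    rw [h2, Complex.exp_sub, Complex.exp_nat_mul_two_pi_mul_I, div_one]
  have e4 : ∫ x in (0 : ℝ)..2, f x = ∫ x in (-1 : ℝ)..1, f x := by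
    have h1 := hfp.intervalIntegral_add_eq 0 (-1)
    norm_num at h1
    exact h1
  rw [e4]
  have e5 : (∫ x in (-1 : ℝ)..1, F (x + I * y) * cexp (-(π * I * n * (x + I * y)))) =
      ∫ x in (-1 : ℝ)..1, f x := by rw [hf]
  rw [e5]
  have hpi : (π : ℂ) ≠ 0 := by exact_mod_cast Real.pi_ne_zero
  simp only [Complex.real_smul, smul_eq_mul]
  field_simp

theorem cc_hasSum {F : ℂ → ℂ} (hF : DifferentiableOn ℂ F {z | 0 < z.im})
    (hper : ∀ z : ℂ, 0 < z.im → F (z + 2) = F z) (C : ℝ) (hC : ∀ z : ℂ, 2 ≤ z.im → ‖F z‖ ≤ C)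
    {τ : ℂ} (hτ : 0 < τ.im) : HasSum (fun n : ℕ => cc F n * cexp (π * I * n * τ)) (F τ) := by
  have hq : ‖cexp (π * I * τ)‖ < 1 := by
    rw [← qParam_two]
    exact norm_qParam_lt_one (by norm_num) hτ
  obtain ⟨R, hR1, hR2⟩ := exists_between hq
  lift R to NNReal using (norm_nonneg _).trans hR1.le
  have hR0 : 0 < R := by
    rw [← NNReal.coe_pos]
    exact lt_of_le_of_lt (norm_nonneg _) hR1
  have h1 := (coeff_eq hF hper C hC hR0 hR2).hasSum (y := cexp (π * I * τ)) (by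
    rw [Metric.mem_eball, edist_zero_right, ← ofReal_norm]
    rw [← ENNReal.ofReal_coe_nnreal]
    exact (ENNReal.ofReal_lt_ofReal_iff (NNReal.coe_pos.2 hR0)).2 hR1)
  rw [zero_add, gg_apply hper hτ] at h1
  have h2 : (fun n : ℕ => cc F n * cexp (π * I * n * τ)) =
      fun n : ℕ => cauchyPowerSeries (gg F) 0 R n fun _ => cexp (π * I * τ) := by
    funext n
    rw [FormalMultilinearSeries.apply_eq_pow_smul_coeff, ← series_eq hF hper C hC hR0 hR2 n,
      smul_eq_mul, ← Complex.exp_nat_mul, mul_comm]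
    congr 2
    ring
  rw [h2]
  exact h1

end Asm1Aux

open Asm1Aux

theorem fourier_coeff (F : ℂ → ℂ) (hF : DifferentiableOn ℂ F {z | 0 < z.im})
    (hper : ∀ z : ℂ, 0 < z.im → F (z + 2) = F z) (C : ℝ) (hC : ∀ z : ℂ, 2 ≤ z.im → ‖F z‖ ≤ C) :
    ∃ c : ℕ → ℂ,
      (∀ (n : ℕ) (y : ℝ), 0 < y →
        c n = 1 / 2 * ∫ x in (-1 : ℝ)..1, F (x + I * y) * cexp (-(π * I * n * (x + I * y)))) ∧
      (∀ τ : ℂ, 0 < τ.im → HasSum (fun n : ℕ => c n * cexp (π * I * n * τ)) (F τ)) ∧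
      ∀ n : ℕ, ‖c n‖ ≤ C * Real.exp (2 * π * n) := by
  refine ⟨cc F, fun n y hy => cc_circle hF hper C hC n hy, fun τ hτ => cc_hasSum hF hper C hC hτ,
    fun n => ?_⟩
  rw [cc_circle hF hper C hC n (y := 2) (by norm_num)]
  have h1 : ‖∫ x in (-1 : ℝ)..1, F (x + I * (2 : ℝ)) *
      cexp (-(π * I * n * (x + I * (2 : ℝ))))‖ ≤ (C * Real.exp (2 * π * n)) * |1 - (-1)| := by
    apply intervalIntegral.norm_integral_le_of_norm_le_const
    intro x _
    rw [norm_mul]
    have h2 : ‖cexp (-(π * I * n * (x + I * (2 : ℝ))))‖ = Real.exp (2 * π * n) := by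
      rw [Complex.norm_exp]
      congr 1
      simp
      ring
    rw [h2]
    apply mul_le_mul_of_nonneg_right _ (Real.exp_pos _).le
    apply hC
    simp
  rw [norm_mul]
  have h3 : ‖(1 / 2 : ℂ)‖ = 1 / 2 := by norm_num
  rw [h3]
  have h4 : |(1 : ℝ) - (-1)| = 2 := by norm_num
  rw [h4] at h1
  linarith

end RV11
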