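import Pool.Agent.LibRV11.Defs
import Pool.Agent.LibRV11.TH13
open Complex Real MeasureTheory
open UpperHalfPlane hiding I
open scoped MatrixGroups

namespace RV11

namespace Asm2Aux

theorem isOpen_im : IsOpen {z : ℂ | 0 < z.im} := isOpen_lt continuous_const Complex.continuous_im

/-- a continuous function on `ℍ` times a bump is integrable on the strip -/
theorem integrable_aux (h : ℝ → ℝ) (hh : IsBump h) (G : ℂ → ℂ)
    (hG : ContinuousOn G {z | 0 < z.im}) (n : ℕ) (hn : 1 ≤ n)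
    (hsupp : ∀ z : ℍ, h (n * z.im) = 0 → G z = 0) :
    IntegrableOn (fun z : ℍ => G (z : ℂ)) Strip := by
  have hn0 : (0 : ℝ) < n := by exact_mod_cast hn
  have hK : IsCompact (Set.Icc (-1 : ℝ) 1 ×ℂ Set.Icc (1 / (n : ℝ)) (2 / n)) :=
    isCompact_Icc.reProdIm isCompact_Icc
  have hKsub : Set.Icc (-1 : ℝ) 1 ×ℂ Set.Icc (1 / (n : ℝ)) (2 / n) ⊆ {z : ℂ | 0 < z.im} := by
    intro z hz
    have h1 : (1 : ℝ) / n ≤ z.im := hz.2.1
    exact lt_of_lt_of_le (by positivity) h1
  obtain ⟨M, hM⟩ := hK.exists_bound_of_continuousOn (hG.mono hKsub)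
  have hsupp' : ∀ z : ℍ, G (z : ℂ) ≠ 0 → 1 / (n : ℝ) ≤ z.im ∧ z.im ≤ 2 / n := by
    intro z hz
    have h1 : h (n * z.im) ≠ 0 := fun h0 => hz (hsupp z h0)
    have h2 : ¬ (n * z.im ≤ 1 ∨ 2 ≤ n * z.im) := fun h0 => h1 (hh.supp _ h0)
    push Not at h2
    constructor
    · rw [div_le_iff₀ hn0]
      linarith [h2.1]
    · rw [le_div_iff₀ hn0]
      linarith [h2.2]
  refine integrableOn_strip_of_bounded _ ?_ (1 / n) (2 / n) (max M 0) (by positivity) hsupp' ?_
  · exact (hG.comp_continuous UpperHalfPlane.continuous_coe (fun z => z.im_pos)).measurable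
  · intro z hz
    by_cases h0 : G (z : ℂ) = 0
    · rw [h0, norm_zero]
      exact le_max_right _ _
    · refine (hM z ⟨?_, ?_⟩).trans (le_max_left _ _)
      · have : |z.re| < 1 := hz
        exact abs_le.1 this.le
      · exact hsupp' z h0

theorem weight_continuous (h : ℝ → ℝ) (hh : IsBump h) (n : ℕ) :
    Continuous (fun z : ℂ => (((h (n * z.im) * z.im : ℝ) : ℂ) *
      cexp (-(π * I * n * z)))) := by
  have h1 : Continuous h := hh.smooth.continuous
  have h2 : Continuous (fun z : ℂ => h (n * z.im) * z.im) :=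
    (h1.comp (continuous_const.mul Complex.continuous_im)).mul Complex.continuous_im
  exact (Complex.continuous_ofReal.comp h2).mul (by fun_prop)

theorem integral_scale (h : ℝ → ℝ) (hh : IsBump h) (n : ℕ) (hn : 1 ≤ n) :
    ∫ y in Set.Ioi (0 : ℝ), h (n * y) / y = ∫ Y in (1 : ℝ)..2, h Y / Y := by
  have hn0 : (0 : ℝ) < n := by exact_mod_cast hn
  have e1 : ∫ y in Set.Ioi (0 : ℝ), h (n * y) / y =
      ∫ y in Set.Ioi (0 : ℝ), n * (fun Y => h Y / Y) (n * y) := by
    apply setIntegral_congr_fun measurableSet_Ioi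
    intro y hy
    have hy' : (0 : ℝ) < y := hy
    simp only
    field_simp
  have e2 : ∫ y in Set.Ioi (0 : ℝ), (fun Y => h Y / Y) (n * y) =
      (n : ℝ)⁻¹ • ∫ y in Set.Ioi ((n : ℝ) * 0), (fun Y => h Y / Y) y :=
    integral_comp_mul_left_Ioi (fun Y => h Y / Y) 0 hn0
  rw [e1, integral_const_mul, e2, mul_zero, smul_eq_mul, mul_inv_cancel_left₀ hn0.ne',
    intervalIntegral.integral_of_le (by norm_num)]
  apply setIntegral_eq_of_subset_of_forall_sdiff_eq_zero measurableSet_Ioi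
  · intro y hy
    exact lt_trans one_pos hy.1
  · rintro y ⟨hy, hy2⟩
    have h3 : y ≤ 1 ∨ 2 ≤ y := by
      by_contra hcon
      push Not at hcon
      exact hy2 ⟨hcon.1, hcon.2.le⟩
    rw [hh.supp y h3, zero_div]

end Asm2Aux

open Asm2Aux

/-- integrability of `F` against the weight -/
theorem F_integrable (h : ℝ → ℝ) (hh : IsBump h) (F : ℂ → ℂ)
    (hF : DifferentiableOn ℂ F {z | 0 < z.im}) (n : ℕ) (hn : 1 ≤ n) :
    IntegrableOn (fun z : ℍ => F (z : ℂ) * ((h (n * z.im) * z.im : ℝ) *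
      cexp (-(π * I * n * (z : ℂ))))) Strip := by
  refine integrable_aux h hh (fun z : ℂ => F z * (((h (n * z.im) * z.im : ℝ) : ℂ) *
      cexp (-(π * I * n * z)))) (hF.continuousOn.mul (weight_continuous h hh n).continuousOn)
      n hn ?_
  intro z h0
  have h1 : h (n * (z : ℂ).im) = 0 := h0
  simp only [h1, zero_mul, Complex.ofReal_zero, mul_zero]

theorem coeff_strip (h : ℝ → ℝ) (hh : IsBump h) (F : ℂ → ℂ)
    (hF : DifferentiableOn ℂ F {z | 0 < z.im}) (c : ℂ) (n : ℕ) (hn : 1 ≤ n)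
    (hc : ∀ (y : ℝ), 0 < y →
        c = 1 / 2 * ∫ x in (-1 : ℝ)..1, F (x + I * y) * cexp (-(π * I * n * (x + I * y)))) :
    2 * (∫ Y in (1 : ℝ)..2, h Y / Y : ℝ) * c =
      ∫ z in Strip, F (z : ℂ) * ((h (n * z.im) * z.im : ℝ) * cexp (-(π * I * n * (z : ℂ)))) := by
  have e1 := integral_strip (fun z : ℂ => F z * (((h (n * z.im) * z.im : ℝ) : ℂ) *
      cexp (-(π * I * n * z)))) (F_integrable h hh F hF n hn)
  have e2 : ∫ z in Strip, F (z : ℂ) * ((h (n * z.im) * z.im : ℝ) *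
      cexp (-(π * I * n * (z : ℂ)))) = ∫ z : ℍ in Strip, (fun z : ℂ => F z *
      (((h (n * z.im) * z.im : ℝ) : ℂ) * cexp (-(π * I * n * z)))) z := rfl
  rw [e2, e1]
  have e3 : ∀ y ∈ Set.Ioi (0 : ℝ), (∫ x in (-1 : ℝ)..1, F (x + I * y) *
      (((h (n * (x + I * y : ℂ).im) * (x + I * y : ℂ).im : ℝ) : ℂ) *
        cexp (-(π * I * n * (x + I * y)))) / y ^ 2) = ((h (n * y) / y : ℝ) : ℂ) * (2 * c) := by
    intro y hy
    have hy' : (0 : ℝ) < y := hy
    have him : ∀ x : ℝ, (x + I * y : ℂ).im = y := fun x => by simp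
    rw [hc y hy']
    have e4 : ∀ x : ℝ, F (x + I * y) *
        (((h (n * (x + I * y : ℂ).im) * (x + I * y : ℂ).im : ℝ) : ℂ) *
        cexp (-(π * I * n * (x + I * y)))) / y ^ 2 =
        ((h (n * y) / y : ℝ) : ℂ) * (F (x + I * y) * cexp (-(π * I * n * (x + I * y)))) := by
      intro x
      rw [him x]
      have hyc : (y : ℂ) ≠ 0 := by exact_mod_cast hy'.ne'
      push_cast
      field_simp
    rw [intervalIntegral.integral_congr (fun x _ => e4 x), intervalIntegral.integral_const_mul]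
    ring
  rw [setIntegral_congr_fun measurableSet_Ioi e3, integral_mul_const, integral_complex_ofReal,
    integral_scale h hh n hn]
  ring

end RV11
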