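import Pool.Agent.LibRV11.Defs
import Pool.Agent.LibRV11.Theta
import Pool.Agent.LibRV11.TH13
open Complex Real MeasureTheory
open UpperHalfPlane hiding I
open scoped MatrixGroups

namespace RV11

namespace Asm3Aux

/-- the integrand without the theta function -/
noncomputable def GG (h : ℝ → ℝ) (r : ℝ) (n : ℕ) (z : ℂ) : ℂ :=
  cexp (π * I * r * z) * (((h (n * z.im) * z.im : ℝ) : ℂ) * cexp (-(π * I * n * z)))

theorem GG_eq (h : ℝ → ℝ) (r : ℝ) (n : ℕ) (z : ℍ) :
    phh r z * ((h (n * z.im) * z.im : ℝ) * jacobiTheta (z : ℂ) *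
      cexp (-(π * I * n * (z : ℂ)))) = GG h r n (z : ℂ) := by
  have h0 := theta_ne_zero z
  have h1 : (z : ℂ).im = z.im := rfl
  rw [phh, GG, h1]
  field_simp

theorem GG_continuous (h : ℝ → ℝ) (hh : IsBump h) (r : ℝ) (n : ℕ) : Continuous (GG h r n) := by
  have h1 : Continuous h := hh.smooth.continuous
  have h2 : Continuous (fun z : ℂ => h (n * z.im) * z.im) :=
    (h1.comp (continuous_const.mul Complex.continuous_im)).mul Complex.continuous_im
  unfold GG
  exact Continuous.mul (by fun_prop) ((Complex.continuous_ofReal.comp h2).mul (by fun_prop))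

theorem integrable_aux (h : ℝ → ℝ) (hh : IsBump h) (G : ℂ → ℂ) (hG : Continuous G) (n : ℕ)
    (hn : 1 ≤ n) (hsupp : ∀ z : ℍ, h (n * z.im) = 0 → G z = 0) :
    IntegrableOn (fun z : ℍ => G (z : ℂ)) Strip := by
  have hn0 : (0 : ℝ) < n := by exact_mod_cast hn
  have hK : IsCompact (Set.Icc (-1 : ℝ) 1 ×ℂ Set.Icc (1 / (n : ℝ)) (2 / n)) :=
    isCompact_Icc.reProdIm isCompact_Icc
  obtain ⟨M, hM⟩ := hK.exists_bound_of_continuousOn hG.continuousOn
  have hsupp' : ∀ z : ℍ, G (z : ℂ) ≠ 0 → 1 / (n : ℝ) ≤ z.im ∧ z.im ≤ 2 / n := by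
    intro z hz
    have h1 : h (n * z.im) ≠ 0 := fun h0 => hz (hsupp z h0)
    have h2 : ¬ (n * z.im ≤ 1 ∨ 2 ≤ n * z.im) := fun h0 => h1 (hh.supp _ h0)
    push Not at h2
    constructor
    · rw [div_le_iff₀ hn0]
      linarith [h2.1]
    · rw [le_div_iff₀ hn0]
      linarith [h2.2]
  refine integrableOn_strip_of_bounded _ ?_ (1 / n) (2 / n) (max M 0) (by positivity) hsupp' ?_
  · exact (hG.comp UpperHalfPlane.continuous_coe).measurable
  · intro z hz
    by_cases h0 : G (z : ℂ) = 0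
    · rw [h0, norm_zero]
      exact le_max_right _ _
    · refine (hM z ⟨?_, ?_⟩).trans (le_max_left _ _)
      · have : |z.re| < 1 := hz
        exact abs_le.1 this.le
      · exact hsupp' z h0

theorem scale_eq (h : ℝ → ℝ) (n : ℕ) (hn : 1 ≤ n) :
    Set.EqOn (fun y : ℝ => h (n * y) / y) (fun y => n * (fun Y => h Y / Y) (n * y))
      (Set.Ioi 0) := by
  intro y hy
  have hy' : (0 : ℝ) < y := hy
  have hn0 : (0 : ℝ) < n := by exact_mod_cast hn
  simp only
  field_simp

theorem integrable_base (h : ℝ → ℝ) (hh : IsBump h) :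
    IntegrableOn (fun Y => h Y / Y) (Set.Ioi (0 : ℝ)) := by
  have h1 : IntegrableOn (fun Y => h Y / Y) (Set.Icc (1 : ℝ) 2) := by
    apply ContinuousOn.integrableOn_Icc
    apply hh.smooth.continuous.continuousOn.div continuousOn_id
    intro x hx
    exact (lt_of_lt_of_le one_pos hx.1).ne'
  have h2 : (fun Y => h Y / Y) = (Set.Icc (1 : ℝ) 2).indicator (fun Y => h Y / Y) := by
    funext y
    by_cases hy : y ∈ Set.Icc (1 : ℝ) 2
    · rw [Set.indicator_of_mem hy]
    · rw [Set.indicator_of_notMem hy]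
      have h3 : y ≤ 1 ∨ 2 ≤ y := by
        by_contra hcon
        push Not at hcon
        exact hy ⟨hcon.1.le, hcon.2.le⟩
      rw [hh.supp y h3, zero_div]
  rw [h2]
  exact ((integrable_indicator_iff measurableSet_Icc).2 h1).integrableOn

theorem integrable_scale (h : ℝ → ℝ) (hh : IsBump h) (n : ℕ) (hn : 1 ≤ n) :
    IntegrableOn (fun y => h (n * y) / y) (Set.Ioi (0 : ℝ)) := by
  have hn0 : (0 : ℝ) < n := by exact_mod_cast hn
  rw [integrableOn_congr_fun (scale_eq h n hn) measurableSet_Ioi]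
  apply Integrable.const_mul
  have h1 := (integrableOn_Ioi_comp_mul_left_iff (fun Y => h Y / Y) 0 hn0).2
    (by rw [mul_zero]; exact integrable_base h hh)
  exact h1

theorem integral_scale (h : ℝ → ℝ) (n : ℕ) (hn : 1 ≤ n) :
    ∫ y in Set.Ioi (0 : ℝ), h (n * y) / y = ∫ Y in Set.Ioi (0 : ℝ), h Y / Y := by
  have hn0 : (0 : ℝ) < n := by exact_mod_cast hn
  have e2 : ∫ y in Set.Ioi (0 : ℝ), (fun Y => h Y / Y) (n * y) =
      (n : ℝ)⁻¹ • ∫ y in Set.Ioi ((n : ℝ) * 0), (fun Y => h Y / Y) y :=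
    integral_comp_mul_left_Ioi (fun Y => h Y / Y) 0 hn0
  rw [setIntegral_congr_fun measurableSet_Ioi (scale_eq h n hn), integral_const_mul, e2, mul_zero,
    smul_eq_mul, mul_inv_cancel_left₀ hn0.ne']

/-- pointwise bound -/
theorem GG_bound (h : ℝ → ℝ) (hh : IsBump h) {r : ℝ} (hr : 0 ≤ r) (n : ℕ) (hn : 1 ≤ n) (x : ℝ)
    {y : ℝ} (hy : 0 < y) :
    ‖GG h r n (x + I * y) / y ^ 2‖ ≤ Real.exp (2 * π) * (h (n * y) / y) := by
  have hn0 : (0 : ℝ) < n := by exact_mod_cast hn
  have him : (x + I * y : ℂ).im = y := by simp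
  have hy0 : (0 : ℝ) < y ^ 2 := by positivity
  have h1 : ‖GG h r n (x + I * y) / y ^ 2‖ =
      Real.exp (-(π * r * y)) * (h (n * y) * y * Real.exp (π * n * y)) / y ^ 2 := by
    rw [GG, him, norm_div, norm_mul, norm_mul, Complex.norm_exp, Complex.norm_exp,
      Complex.norm_real, norm_pow, Complex.norm_real, Real.norm_of_nonneg hy.le,
      Real.norm_of_nonneg (mul_nonneg (hh.nonneg _) hy.le)]
    congr 3
    · simp
    · congr 1
      simp
  rw [h1]
  by_cases h2 : h (n * y) = 0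
  · rw [h2]
    simp
  · have h3 : ¬ (n * y ≤ 1 ∨ 2 ≤ n * y) := fun h0 => h2 (hh.supp _ h0)
    push Not at h3
    have h4 : Real.exp (-(π * r * y)) ≤ 1 := by
      rw [Real.exp_le_one_iff]
      have := Real.pi_pos
      have : 0 ≤ π * r * y := by positivity
      linarith
    have h5 : Real.exp (π * n * y) ≤ Real.exp (2 * π) := by
      apply Real.exp_le_exp.2
      have := Real.pi_pos
      nlinarith [h3.2]
    have h6 : 0 ≤ h (n * y) := hh.nonneg _
    calc Real.exp (-(π * r * y)) * (h (n * y) * y * Real.exp (π * n * y)) / y ^ 2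
        ≤ 1 * (h (n * y) * y * Real.exp (2 * π)) / y ^ 2 := by
          apply div_le_div_of_nonneg_right _ hy0.le
          apply mul_le_mul h4 _ (by positivity) (by norm_num)
          exact mul_le_mul_of_nonneg_left h5 (by positivity)
      _ = Real.exp (2 * π) * (h (n * y) / y) := by
          field_simp

end Asm3Aux

open Asm3Aux

theorem phi_integrable (h : ℝ → ℝ) (hh : IsBump h) (r : ℝ) (hr : 0 ≤ r) (n : ℕ) (hn : 1 ≤ n) :
    IntegrableOn (fun z : ℍ => phh r z * ((h (n * z.im) * z.im : ℝ) * jacobiTheta (z : ℂ) *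
      cexp (-(π * I * n * (z : ℂ))))) Strip := by
  have h1 : (fun z : ℍ => phh r z * ((h (n * z.im) * z.im : ℝ) * jacobiTheta (z : ℂ) *
      cexp (-(π * I * n * (z : ℂ))))) = fun z : ℍ => GG h r n (z : ℂ) := by
    funext z
    exact GG_eq h r n z
  rw [h1]
  apply integrable_aux h hh _ (GG_continuous h hh r n) n hn
  intro z hz
  have h2 : h (n * (z : ℂ).im) = 0 := hz
  simp only [GG, h2, zero_mul, Complex.ofReal_zero, mul_zero]

theorem phi_part (h : ℝ → ℝ) (hh : IsBump h) : ∃ C : ℝ, ∀ (r : ℝ), 0 ≤ r → ∀ n : ℕ, 1 ≤ n →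
    ‖∫ z in Strip, phh r z * ((h (n * z.im) * z.im : ℝ) * jacobiTheta (z : ℂ) *
      cexp (-(π * I * n * (z : ℂ))))‖ ≤ C := by
  refine ⟨Real.exp (2 * π) * 2 * ∫ Y in Set.Ioi (0 : ℝ), h Y / Y, fun r hr n hn => ?_⟩
  have h1 : (fun z : ℍ => phh r z * ((h (n * z.im) * z.im : ℝ) * jacobiTheta (z : ℂ) *
      cexp (-(π * I * n * (z : ℂ))))) = fun z : ℍ => GG h r n (z : ℂ) := by
    funext z
    exact GG_eq h r n z
  have h2 := phi_integrable h hh r hr n hn
  rw [h1] at h2 ⊢
  rw [integral_strip (GG h r n) h2]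
  have h3 : ‖∫ y in Set.Ioi (0 : ℝ), ∫ x in (-1 : ℝ)..1, GG h r n (x + I * y) / y ^ 2‖ ≤
      ∫ y in Set.Ioi (0 : ℝ), Real.exp (2 * π) * 2 * (h (n * y) / y) := by
    apply norm_integral_le_of_norm_le
    · exact (integrable_scale h hh n hn).const_mul _
    · filter_upwards [ae_restrict_mem measurableSet_Ioi] with y hy
      have hy' : (0 : ℝ) < y := hy
      have h4 := intervalIntegral.norm_integral_le_of_norm_le_const (a := -1) (b := 1)
        (f := fun x : ℝ => GG h r n (x + I * y) / y ^ 2)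
        (C := Real.exp (2 * π) * (h (n * y) / y)) (fun x _ => GG_bound h hh hr n hn x hy')
      have h5 : |(1 : ℝ) - (-1)| = 2 := by norm_num
      rw [h5] at h4
      linarith
  refine h3.trans (le_of_eq ?_)
  rw [integral_const_mul, integral_scale h n hn]

end RV11
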