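import Pool.Agent.LibRV11.Defs
open Complex Real MeasureTheory
open UpperHalfPlane hiding I
open scoped MatrixGroups

namespace RV11

/-- the cutoff -/
noncomputable def asm4k (x : ℝ) : ℝ := Real.smoothTransition (1 - x) * Real.smoothTransition (x + 2)

theorem asm4k_smooth : ContDiff ℝ 3 asm4k := by
  unfold asm4k
  exact (Real.smoothTransition.contDiff.comp (contDiff_const.sub contDiff_id)).mul
    (Real.smoothTransition.contDiff.comp (contDiff_id.add contDiff_const))

theorem asm4k_nonneg (x : ℝ) : 0 ≤ asm4k x :=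
  mul_nonneg (Real.smoothTransition.nonneg _) (Real.smoothTransition.nonneg _)

theorem asm4k_zero : asm4k 0 = 1 := by
  unfold asm4k
  rw [Real.smoothTransition.one_of_one_le (by norm_num),
    Real.smoothTransition.one_of_one_le (by norm_num)]
  norm_num

theorem asm4k_supp {x : ℝ} (hx : 1 ≤ x) : asm4k x = 0 := by
  unfold asm4k
  rw [Real.smoothTransition.zero_of_nonpos (by linarith), zero_mul]

theorem asm4k_supp' {x : ℝ} (hx : x ≤ -2) : asm4k x = 0 := by
  unfold asm4k
  rw [Real.smoothTransition.zero_of_nonpos (x := x + 2) (by linarith), mul_zero]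

theorem asm4k_compact : HasCompactSupport asm4k := by
  apply HasCompactSupport.of_support_subset_isCompact (isCompact_Icc (a := (-2 : ℝ)) (b := 1))
  intro x hx
  rw [Function.mem_support] at hx
  constructor
  · by_contra h
    exact hx (asm4k_supp' (not_le.1 h).le)
  · by_contra h
    exact hx (asm4k_supp (not_le.1 h).le)

theorem asm4_profile : ∃ (K : ℝ) (k k' : ℝ → ℝ), 1 ≤ K ∧ IsProf (fun x => k x / K) ∧
    IsProf (fun x => k' x / K) ∧ k 0 = 1 ∧ (∀ x, HasDerivAt k (k' x) x) ∧
    (∀ x, 1 ≤ x → k x = 0) ∧ (∀ x, 0 ≤ k x) ∧ Continuous k' := by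
  have h0 := asm4k_smooth
  have hd : Differentiable ℝ asm4k := h0.differentiable (by norm_num)
  have h1 : ContDiff ℝ 2 (deriv asm4k) := by
    have : ContDiff ℝ ((2 : ℕ∞) + 1 : WithTop ℕ∞) asm4k := by
      refine h0.of_le ?_
      norm_num
    exact (contDiff_succ_iff_deriv.1 this).2.2
  have hd1 : Differentiable ℝ (deriv asm4k) := h1.differentiable (by norm_num)
  have h2 : Continuous (deriv (deriv asm4k)) := h1.continuous_deriv (by norm_num)
  obtain ⟨C0, hC0⟩ := h0.continuous.bounded_above_of_compact_support asm4k_compact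
  obtain ⟨C1, hC1⟩ := h1.continuous.bounded_above_of_compact_support asm4k_compact.deriv
  obtain ⟨C2, hC2⟩ := h2.bounded_above_of_compact_support asm4k_compact.deriv.deriv
  set K := max (max 1 C0) (max C1 C2) with hK
  have hK1 : 1 ≤ K := le_trans (le_max_left _ _) (le_max_left _ _)
  have hK0 : 0 < K := by linarith
  have e0 : C0 ≤ K := le_trans (le_max_right _ _) (le_max_left _ _)
  have e1 : C1 ≤ K := le_trans (le_max_left _ _) (le_max_right _ _)
  have e2 : C2 ≤ K := le_trans (le_max_right _ _) (le_max_right _ _)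
  have hbd : ∀ (f : ℝ → ℝ) (C : ℝ), (∀ x, ‖f x‖ ≤ C) → C ≤ K → ∀ x, |f x / K| ≤ 1 := by
    intro f C h hC x
    rw [abs_div, abs_of_pos hK0, div_le_one hK0]
    exact (h x).trans hC
  have hs1 : ∀ x, 1 ≤ x → deriv asm4k x = 0 := by
    intro x hx
    have a1 : HasDerivWithinAt asm4k (deriv asm4k x) (Set.Ici x) x :=
      (hd x).hasDerivAt.hasDerivWithinAt
    have a2 : HasDerivWithinAt asm4k 0 (Set.Ici x) x := by
      refine (hasDerivWithinAt_const x (Set.Ici x) (0 : ℝ)).congr (fun y hy => ?_) (asm4k_supp hx)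
      exact asm4k_supp (le_trans hx hy)
    exact (uniqueDiffWithinAt_Ici x).eq_deriv _ a1 a2
  refine ⟨K, asm4k, deriv asm4k, hK1, ⟨?_, ?_, ?_, ?_⟩, ⟨?_, ?_, ?_, ?_⟩, asm4k_zero,
    fun x => (hd x).hasDerivAt, fun x hx => asm4k_supp hx, asm4k_nonneg, h1.continuous⟩
  · exact (h0.of_le (by norm_num)).div_const K
  · exact hbd _ _ hC0 e0
  · intro x
    rw [deriv_div_const]
    exact hbd _ _ hC1 e1 x
  · intro x hx; rw [asm4k_supp hx, zero_div]
  · exact (h1.of_le (by norm_num)).div_const K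
  · exact hbd _ _ hC1 e1
  · intro x
    rw [deriv_div_const]
    exact hbd _ _ hC2 e2 x
  · intro x hx; rw [hs1 x hx, zero_div]

/-- A fixed smooth cutoff and its derivative, normalised: `k0 = 1` near `0`. -/
theorem exists_profile : ∃ (K : ℝ) (k k' : ℝ → ℝ), 1 ≤ K ∧ IsProf (fun x => k x / K) ∧
    IsProf (fun x => k' x / K) ∧ k 0 = 1 ∧ (∀ x, HasDerivAt k (k' x) x) ∧
    (∀ x, 1 ≤ x → k x = 0) := by
  obtain ⟨K, k, k', h1, h2, h3, h4, h5, h6, -⟩ := asm4_profile
  exact ⟨K, k, k', h1, h2, h3, h4, h5, h6⟩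

/-- Fundamental theorem of calculus: value at angle `0` through profiles. -/
theorem value_zero (U : ℝ → ℂ) (dU : ℝ → ℂ) (hU : ∀ φ, HasDerivAt U (dU φ) φ) (hdU : Continuous dU)
    (k k' : ℝ → ℝ) (hk : ∀ x, HasDerivAt k (k' x) x) (hk' : Continuous k') (hk0 : k 0 = 1)
    (hk1 : ∀ x, 1 ≤ x → k x = 0) (δ : ℝ) (hδ : 0 < δ) (hδ' : δ ≤ 1) :
    U 0 = -(∫ φ in (0 : ℝ)..π, dU φ * prof k δ φ) -
      (1 / δ : ℝ) * ∫ φ in (0 : ℝ)..π, U φ * prof k' δ φ := by
  have hpi : (0 : ℝ) ≤ π := Real.pi_pos.le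
  have hUc : Continuous U := continuous_iff_continuousAt.2 fun φ => (hU φ).continuousAt
  have hkc : Continuous k := continuous_iff_continuousAt.2 fun φ => (hk φ).continuousAt
  have e1 : ∫ φ in (0 : ℝ)..π, dU φ * prof k δ φ = ∫ φ in (0 : ℝ)..π, dU φ * (k (φ / δ) : ℂ) := by
    apply intervalIntegral.integral_congr
    intro φ hφ
    rw [Set.uIcc_of_le hpi] at hφ
    simp only [prof, if_pos hφ.1]
  have e2 : ∫ φ in (0 : ℝ)..π, U φ * prof k' δ φ = ∫ φ in (0 : ℝ)..π, U φ * (k' (φ / δ) : ℂ) := by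
    apply intervalIntegral.integral_congr
    intro φ hφ
    rw [Set.uIcc_of_le hpi] at hφ
    simp only [prof, if_pos hφ.1]
  rw [e1, e2]
  have hder : ∀ φ : ℝ, HasDerivAt (fun φ : ℝ => U φ * (k (φ / δ) : ℂ))
      (dU φ * (k (φ / δ) : ℂ) + U φ * ((k' (φ / δ) * (1 / δ) : ℝ) : ℂ)) φ := by
    intro φ
    have h1 : HasDerivAt (fun φ : ℝ => k (φ / δ)) (k' (φ / δ) * (1 / δ)) φ :=
      (hk (φ / δ)).comp φ ((hasDerivAt_id φ).div_const δ)
    exact (hU φ).mul h1.ofReal_comp
  have c1 : Continuous fun φ : ℝ => dU φ * (k (φ / δ) : ℂ) := by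
    have : Continuous fun φ : ℝ => k (φ / δ) := hkc.comp (continuous_id.div_const δ)
    exact hdU.mul (Complex.continuous_ofReal.comp this)
  have c2 : Continuous fun φ : ℝ => U φ * (k' (φ / δ) : ℂ) := by
    have : Continuous fun φ : ℝ => k' (φ / δ) := hk'.comp (continuous_id.div_const δ)
    exact hUc.mul (Complex.continuous_ofReal.comp this)
  have c3 : Continuous fun φ : ℝ => U φ * ((k' (φ / δ) * (1 / δ) : ℝ) : ℂ) := by
    have : Continuous fun φ : ℝ => k' (φ / δ) * (1 / δ) :=
      (hk'.comp (continuous_id.div_const δ)).mul continuous_const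
    exact hUc.mul (Complex.continuous_ofReal.comp this)
  have hftc := intervalIntegral.integral_eq_sub_of_hasDerivAt (a := (0 : ℝ)) (b := π)
    (fun φ _ => hder φ) ((c1.add c3).intervalIntegrable _ _)
  rw [intervalIntegral.integral_add (c1.intervalIntegrable _ _) (c3.intervalIntegrable _ _)] at hftc
  have e3 : ∫ φ in (0 : ℝ)..π, U φ * ((k' (φ / δ) * (1 / δ) : ℝ) : ℂ) =
      ((1 / δ : ℝ) : ℂ) * ∫ φ in (0 : ℝ)..π, U φ * (k' (φ / δ) : ℂ) := by
    rw [← intervalIntegral.integral_const_mul]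
    apply intervalIntegral.integral_congr
    intro φ _
    simp only
    push_cast
    ring
  rw [e3] at hftc
  have hkpi : k (π / δ) = 0 := by
    apply hk1
    rw [le_div_iff₀ hδ]
    linarith [Real.pi_gt_three]
  rw [hkpi, zero_div, hk0] at hftc
  simp only [Complex.ofReal_zero, mul_zero, Complex.ofReal_one, mul_one, zero_sub] at hftc
  linear_combination hftc

theorem exists_bump : ∃ h : ℝ → ℝ, IsBump h ∧ 0 < ∫ Y in (1 : ℝ)..2, h Y / Y := by
  set h : ℝ → ℝ := fun x => Real.smoothTransition (x - 1) * Real.smoothTransition (2 - x) with hh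
  have hs : ContDiff ℝ 2 h :=
    (Real.smoothTransition.contDiff.comp (contDiff_id.sub contDiff_const)).mul
      (Real.smoothTransition.contDiff.comp (contDiff_const.sub contDiff_id))
  refine ⟨h, ⟨hs, ?_, ?_, ?_⟩, ?_⟩
  · intro x; exact mul_nonneg (Real.smoothTransition.nonneg _) (Real.smoothTransition.nonneg _)
  · intro x
    exact mul_le_one₀ (Real.smoothTransition.le_one _) (Real.smoothTransition.nonneg _)
      (Real.smoothTransition.le_one _)
  · intro x hx
    rw [hh]
    simp only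
    rcases hx with hx | hx
    · rw [Real.smoothTransition.zero_of_nonpos (x := x - 1) (by linarith), zero_mul]
    · rw [Real.smoothTransition.zero_of_nonpos (x := 2 - x) (by linarith), mul_zero]
  · apply intervalIntegral.intervalIntegral_pos_of_pos_on
    · apply ContinuousOn.intervalIntegrable
      intro x hx
      rw [Set.uIcc_of_le (by norm_num)] at hx
      have hx0 : x ≠ 0 := by
        have := hx.1; linarith
      exact (hs.continuous.continuousAt.div continuousAt_id hx0).continuousWithinAt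
    · intro x hx
      apply div_pos
      · exact mul_pos (Real.smoothTransition.pos_of_pos (by linarith [hx.1]))
          (Real.smoothTransition.pos_of_pos (by linarith [hx.2]))
      · linarith [hx.1]
    · norm_num

end RV11
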