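import Pool.Agent.LibRV11.N25

open Complex Real

namespace RV11

theorem NT2_main : ∃ (C : ℝ), ∀ n : ℕ, 1 ≤ n → ∀ δ : ℝ, 0 < δ → δ ≤ 1 / 8 →
    ∑ c ∈ Finset.Icc 1 ⌊4 * δ * n⌋₊, ‖Kst n c‖ ≤ C * δ * (n : ℝ) ^ (1 + 1 / 100000 : ℝ) := by
  obtain ⟨C, hC1, hC⟩ := Kst_sum (1 / 100000) (by norm_num)
  refine ⟨4 * C, fun n hn δ hδ hδ8 => ?_⟩
  have hn0 : (0 : ℝ) < n := by exact_mod_cast hn
  have hY : (⌊4 * δ * n⌋₊ : ℝ) ≤ 4 * δ * n := Nat.floor_le (by positivity)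
  have hYn : ⌊4 * δ * n⌋₊ ≤ n := by
    have : (⌊4 * δ * n⌋₊ : ℝ) ≤ n := by nlinarith
    exact_mod_cast this
  refine (hC n _ hn hYn).trans ?_
  have hp : (n : ℝ) ^ (1 + 1 / 100000 : ℝ) = n * (n : ℝ) ^ (1 / 100000 : ℝ) := by
    rw [Real.rpow_add hn0, Real.rpow_one]
  rw [hp]
  have h1 : (0 : ℝ) ≤ (n : ℝ) ^ (1 / 100000 : ℝ) := by positivity
  calc C * (⌊4 * δ * n⌋₊ : ℝ) * (n : ℝ) ^ (1 / 100000 : ℝ)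
      ≤ C * (4 * δ * n) * (n : ℝ) ^ (1 / 100000 : ℝ) := by gcongr
    _ = 4 * C * δ * (n * (n : ℝ) ^ (1 / 100000 : ℝ)) := by ring

end RV11
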