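import Pool.Agent.LibRV11.N27
import Pool.Agent.LibRV11.N28
open Complex Real MeasureTheory
open UpperHalfPlane hiding I
open scoped MatrixGroups

/-!
# Module N of the proof of uniform boundedness (number theory)

`IsJ` is defined in `N23.lean`.
-/

namespace RV11

theorem NT1 : ∃ (C : ℝ) (n0 : ℕ), ∀ n : ℕ, n0 ≤ n → ∀ δ : ℝ,
    (n : ℝ) ^ (-(1 / 2000) : ℝ) ≤ δ → δ ≤ 1 / 8 → ∀ J, IsJ δ J →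
    ∃ m : ℕ, 1 ≤ m ∧ (∑ d ∈ m.divisors, (d : ℝ)) ≤ (n : ℝ) ^ (1 / 10 : ℝ) ∧
      (∑ d ∈ m.divisors, (d : ℝ)) *
        ‖∑ c ∈ (Finset.Icc 1 ⌊4 * δ * n⌋₊).filter (fun c => m ∣ c),
          Kst n c * J (c / n) / Real.sqrt c‖ ≤ C * δ * Real.sqrt n := NT1_main

theorem NT2 : ∃ (C : ℝ), ∀ n : ℕ, 1 ≤ n → ∀ δ : ℝ, 0 < δ → δ ≤ 1 / 8 →
    ∑ c ∈ Finset.Icc 1 ⌊4 * δ * n⌋₊, ‖Kst n c‖ ≤ C * δ * (n : ℝ) ^ (1 + 1 / 100000 : ℝ) :=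
  NT2_main

end RV11
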