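import Pool.Agent.LibRV11.Defs
import Pool.Agent.LibRV11.ModAB
import Pool.Agent.LibRV11.ModC
import Pool.Agent.LibRV11.ModN
open Complex Real MeasureTheory
open UpperHalfPlane hiding I
open scoped MatrixGroups

namespace RV11

theorem pair_large (h : ℝ → ℝ) (hh : IsBump h) : ∃ (C : ℝ) (n0 : ℕ), ∀ n : ℕ, n0 ≤ n →
    ∀ δ : ℝ, (n : ℝ) ^ (-(1 / 2000) : ℝ) ≤ δ → δ ≤ 1 / 8 → ∀ k, IsProf k →
    ∀ U : ℍ → ℝ → ℂ, Equi U → ∀ B : ℝ, 0 ≤ B → nrm U ≤ ENNReal.ofReal (B ^ 2) →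
    ‖pair h n U (prof k δ)‖ ≤ C * δ * B := by
  obtain ⟨Ca, hCa⟩ := pair_AB h hh
  obtain ⟨C1, hC1⟩ := II_bound h hh
  obtain ⟨C2, hC2⟩ := II_lip h hh
  obtain ⟨C4, n0, hN⟩ := NT1
  set C3 : ℝ := max (max C1 C2) 1 with hC3
  have hC30 : 0 < C3 := lt_of_lt_of_le one_pos (le_max_right _ _)
  have hC31 : C1 ≤ C3 := le_trans (le_max_left _ _) (le_max_left _ _)
  have hC32 : C2 ≤ C3 := le_trans (le_max_right _ _) (le_max_left _ _)
  refine ⟨Real.sqrt (|Ca| + C3 * |C4|), max n0 1, ?_⟩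
  intro n hn δ hδn hδ8 k hk U hU B hB hUB
  have hn0 : n0 ≤ n := le_trans (le_max_left _ _) hn
  have hn1 : 1 ≤ n := le_trans (le_max_right _ _) hn
  have hnR : (1 : ℝ) ≤ n := by exact_mod_cast hn1
  have hnpos : (0 : ℝ) < n := by linarith
  have hδ : 0 < δ := lt_of_lt_of_le (Real.rpow_pos_of_pos hnpos _) hδn
  obtain ⟨p1, p2, p3, p4, p5, p6⟩ := Rc_prof k hk δ hδ hδ8
  set R := Rc (prof k δ) with hR
  set J : ℝ → ℂ := fun ρ => II h R ρ / ((C3 * δ : ℝ) : ℂ) with hJ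
  have hC3δ : 0 < C3 * δ := by positivity
  have hnJ : ‖((C3 * δ : ℝ) : ℂ)‖ = C3 * δ := by
    rw [Complex.norm_real, Real.norm_eq_abs, abs_of_pos hC3δ]
  have hIsJ : IsJ δ J := by
    refine ⟨?_, ?_, ?_⟩
    · intro ρ hρ
      rw [hJ]; simp only
      rw [norm_div, hnJ, div_le_iff₀ hC3δ]
      refine (hC1 δ hδ hδ8 R p4 p5 p6 ρ hρ).trans ?_
      have : 0 ≤ Real.sqrt ρ := Real.sqrt_nonneg ρ
      calc C1 * δ * Real.sqrt ρ ≤ C3 * δ * Real.sqrt ρ := by gcongr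
        _ = _ := by ring
    · intro ρ ρ' hρ hρρ' hρ1
      rw [hJ]; simp only
      rw [← sub_div, norm_div, hnJ, div_le_iff₀ hC3δ]
      refine (hC2 δ hδ hδ8 R p4 p5 p6 ρ ρ' hρ hρρ' hρ1).trans ?_
      have h1 : 0 ≤ ρ' - ρ := by linarith
      calc C2 * δ * (ρ' - ρ) / ρ ^ 2 ≤ C3 * δ * (ρ' - ρ) / ρ ^ 2 := by gcongr
        _ = _ := by ring
    · intro ρ hρ
      rw [hJ]; simp only
      rw [II_zero h hh δ hδ hδ8 R p6 ρ hρ, zero_div]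
  obtain ⟨m, hm1, hm2, hm3⟩ := hN n hn0 δ hδn hδ8 J hIsJ
  have hAB := hCa n hn1 δ hδ hδ8 (prof k δ) p1 p2 p3 m hm1 U hU B hB hUB
  set σ : ℝ := ∑ d ∈ m.divisors, (d : ℝ) with hσ
  have hσ0 : 0 ≤ σ := Finset.sum_nonneg fun _ _ => Nat.cast_nonneg _
  -- the sum in terms of J
  have hsum : ∑ c ∈ (Finset.Icc 1 ⌊4 * δ * n⌋₊).filter (fun c => m ∣ c),
        Kst n c * II h R (c / n) / Real.sqrt c =
      ((C3 * δ : ℝ) : ℂ) * ∑ c ∈ (Finset.Icc 1 ⌊4 * δ * n⌋₊).filter (fun c => m ∣ c),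
        Kst n c * J (c / n) / Real.sqrt c := by
    rw [Finset.mul_sum]
    refine Finset.sum_congr rfl fun c _ => ?_
    have hne : ((C3 * δ : ℝ) : ℂ) ≠ 0 := by exact_mod_cast hC3δ.ne'
    rw [hJ]
    simp only
    field_simp
  rw [← hR, hsum, norm_mul, hnJ] at hAB
  set S : ℝ := ‖∑ c ∈ (Finset.Icc 1 ⌊4 * δ * n⌋₊).filter (fun c => m ∣ c),
        Kst n c * J (c / n) / Real.sqrt c‖ with hS
  have hsn : 0 < Real.sqrt n := Real.sqrt_pos.2 hnpos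
  have hB2 : 0 ≤ B ^ 2 := by positivity
  -- first term
  have t1 : σ * (Ca * δ / Real.sqrt n) ≤ |Ca| * δ ^ 2 := by
    have h1 : σ / Real.sqrt n ≤ δ := by
      refine le_trans ?_ hδn
      rw [div_le_iff₀ hsn, Real.sqrt_eq_rpow, ← Real.rpow_add hnpos]
      refine hm2.trans (Real.rpow_le_rpow_of_exponent_le hnR ?_)
      norm_num
    calc σ * (Ca * δ / Real.sqrt n) = Ca * δ * (σ / Real.sqrt n) := by ring
      _ ≤ |Ca| * δ * (σ / Real.sqrt n) := by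
          have : 0 ≤ σ / Real.sqrt n := by positivity
          gcongr
          exact le_abs_self _
      _ ≤ |Ca| * δ * δ := by gcongr
      _ = _ := by ring
  have t2 : σ * (C3 * δ * S / Real.sqrt n) ≤ C3 * |C4| * δ ^ 2 := by
    calc σ * (C3 * δ * S / Real.sqrt n) = C3 * δ * (σ * S) / Real.sqrt n := by ring
      _ ≤ C3 * δ * (C4 * δ * Real.sqrt n) / Real.sqrt n := by gcongr
      _ = C3 * C4 * δ ^ 2 := by field_simp
      _ ≤ C3 * |C4| * δ ^ 2 := by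
          gcongr
          exact le_abs_self _
  have hfin : ‖pair h n U (prof k δ)‖ ^ 2 ≤ (Real.sqrt (|Ca| + C3 * |C4|) * δ * B) ^ 2 := by
    refine hAB.trans ?_
    have hsq : (Real.sqrt (|Ca| + C3 * |C4|)) ^ 2 = |Ca| + C3 * |C4| :=
      Real.sq_sqrt (by positivity)
    calc σ * B ^ 2 * (Ca * δ / Real.sqrt n + C3 * δ * S / Real.sqrt n)
        = B ^ 2 * (σ * (Ca * δ / Real.sqrt n) + σ * (C3 * δ * S / Real.sqrt n)) := by ring
      _ ≤ B ^ 2 * (|Ca| * δ ^ 2 + C3 * |C4| * δ ^ 2) := by gcongr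
      _ = (|Ca| + C3 * |C4|) * δ ^ 2 * B ^ 2 := by ring
      _ = _ := by rw [mul_pow, mul_pow, hsq]
  exact (abs_le_of_sq_le_sq' hfin (by positivity)).2

end RV11
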