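import Pool.Agent.LibRV11.Defs
import Pool.Agent.LibRV11.ModAB
import Pool.Agent.LibRV11.ModC
import Pool.Agent.LibRV11.ModN
open Complex Real MeasureTheory
open UpperHalfPlane hiding I
open scoped MatrixGroups

namespace RV11

theorem pair_small (h : ℝ → ℝ) (hh : IsBump h) : ∃ (C : ℝ), ∀ n : ℕ, 1 ≤ n →
    ∀ δ : ℝ, 0 < δ → δ ≤ 1 / 8 → ∀ k, IsProf k →
    ∀ U : ℍ → ℝ → ℂ, Equi U → ∀ B : ℝ, 0 ≤ B → nrm U ≤ ENNReal.ofReal (B ^ 2) →
    ‖pair h n U (prof k δ)‖ ≤ C * (Real.sqrt δ * (n : ℝ) ^ (-(1 / 4) : ℝ) +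
      δ * (n : ℝ) ^ (1 / 100000 : ℝ)) * B := by
  obtain ⟨Ca, hCa⟩ := pair_AB h hh
  obtain ⟨C1, hC1⟩ := II_bound h hh
  obtain ⟨C2, hC2⟩ := NT2
  refine ⟨Real.sqrt (|Ca| + |C1| * |C2|), ?_⟩
  intro n hn1 δ hδ hδ8 k hk U hU B hB hUB
  have hnR : (1 : ℝ) ≤ n := by exact_mod_cast hn1
  have hnpos : (0 : ℝ) < n := by linarith
  obtain ⟨p1, p2, p3, p4, p5, p6⟩ := Rc_prof k hk δ hδ hδ8
  set R := Rc (prof k δ) with hR
  have hAB := hCa n hn1 δ hδ hδ8 (prof k δ) p1 p2 p3 1 le_rfl U hU B hB hUB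
  simp only [Nat.divisors_one, Finset.sum_singleton, Nat.cast_one, one_mul, one_dvd,
    Finset.filter_true] at hAB
  rw [← hR] at hAB
  have hsn : 0 < Real.sqrt n := Real.sqrt_pos.2 hnpos
  have hN := hC2 n hn1 δ hδ hδ8
  have hS : ‖∑ c ∈ Finset.Icc 1 ⌊4 * δ * n⌋₊, Kst n c * II h R (c / n) / Real.sqrt c‖ ≤
      |C1| * δ / Real.sqrt n * (|C2| * δ * (n : ℝ) ^ (1 + 1 / 100000 : ℝ)) := by
    calc ‖∑ c ∈ Finset.Icc 1 ⌊4 * δ * n⌋₊, Kst n c * II h R (c / n) / Real.sqrt c‖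
        ≤ ∑ c ∈ Finset.Icc 1 ⌊4 * δ * n⌋₊, ‖Kst n c * II h R (c / n) / Real.sqrt c‖ :=
          norm_sum_le _ _
      _ ≤ ∑ c ∈ Finset.Icc 1 ⌊4 * δ * n⌋₊, ‖Kst n c‖ * (|C1| * δ / Real.sqrt n) := by
          refine Finset.sum_le_sum fun c hc => ?_
          have hc1 : 1 ≤ c := (Finset.mem_Icc.1 hc).1
          have hcpos : (0 : ℝ) < c := by exact_mod_cast hc1
          have hsc : 0 < Real.sqrt c := Real.sqrt_pos.2 hcpos
          rw [norm_div, norm_mul, Complex.norm_real, Real.norm_eq_abs, abs_of_pos hsc,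
            mul_div_assoc]
          have h1 := hC1 δ hδ hδ8 R p4 p5 p6 (c / n) (by positivity)
          have h2 : Real.sqrt ((c : ℝ) / n) = Real.sqrt c / Real.sqrt n :=
            Real.sqrt_div hcpos.le _
          have h3 : ‖II h R (c / n)‖ / Real.sqrt c ≤ |C1| * δ / Real.sqrt n := by
            rw [div_le_iff₀ hsc]
            refine h1.trans ?_
            rw [h2]
            calc C1 * δ * (Real.sqrt c / Real.sqrt n) ≤ |C1| * δ * (Real.sqrt c / Real.sqrt n) := by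
                  have : C1 ≤ |C1| := le_abs_self _
                  gcongr
              _ = _ := by ring
          gcongr
      _ = |C1| * δ / Real.sqrt n * ∑ c ∈ Finset.Icc 1 ⌊4 * δ * n⌋₊, ‖Kst n c‖ := by
          rw [← Finset.sum_mul]; ring
      _ ≤ |C1| * δ / Real.sqrt n * (C2 * δ * (n : ℝ) ^ (1 + 1 / 100000 : ℝ)) := by gcongr
      _ ≤ _ := by
          have : C2 ≤ |C2| := le_abs_self _
          gcongr
  set X : ℝ := Real.sqrt δ * (n : ℝ) ^ (-(1 / 4) : ℝ) with hX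
  set Y : ℝ := δ * (n : ℝ) ^ (1 / 100000 : ℝ) with hY
  have hX0 : 0 ≤ X := by positivity
  have hY0 : 0 ≤ Y := by positivity
  have hXsq : δ / Real.sqrt n = X ^ 2 := by
    rw [hX, mul_pow, Real.sq_sqrt hδ.le, ← Real.rpow_natCast, ← Real.rpow_mul hnpos.le,
      Real.sqrt_eq_rpow, div_eq_mul_inv, ← Real.rpow_neg hnpos.le]
    norm_num
  have hYsq : δ / Real.sqrt n * (δ * (n : ℝ) ^ (1 + 1 / 100000 : ℝ)) / Real.sqrt n ≤ Y ^ 2 := by
    have h1 : δ / Real.sqrt n * (δ * (n : ℝ) ^ (1 + 1 / 100000 : ℝ)) / Real.sqrt n =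
        δ ^ 2 * (n : ℝ) ^ (1 / 100000 : ℝ) := by
      rw [Real.rpow_add hnpos, Real.rpow_one]
      have h2 : Real.sqrt n * Real.sqrt n = n := Real.mul_self_sqrt hnpos.le
      field_simp
      rw [sq, h2]
    rw [h1, hY, mul_pow]
    have h3 : (1 : ℝ) ≤ (n : ℝ) ^ (1 / 100000 : ℝ) := Real.one_le_rpow hnR (by norm_num)
    gcongr
    nlinarith
  have hfin : ‖pair h n U (prof k δ)‖ ^ 2 ≤
      (Real.sqrt (|Ca| + |C1| * |C2|) * (X + Y) * B) ^ 2 := by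
    refine hAB.trans ?_
    have hsq : (Real.sqrt (|Ca| + |C1| * |C2|)) ^ 2 = |Ca| + |C1| * |C2| :=
      Real.sq_sqrt (by positivity)
    have hB2 : 0 ≤ B ^ 2 := by positivity
    have t1 : Ca * δ / Real.sqrt n ≤ |Ca| * X ^ 2 := by
      rw [← hXsq, mul_div_assoc]
      have : Ca ≤ |Ca| := le_abs_self _
      gcongr
    have t2 : ‖∑ c ∈ Finset.Icc 1 ⌊4 * δ * n⌋₊, Kst n c * II h R (c / n) / Real.sqrt c‖ /
        Real.sqrt n ≤ |C1| * |C2| * Y ^ 2 := by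
      calc _ ≤ (|C1| * δ / Real.sqrt n * (|C2| * δ * (n : ℝ) ^ (1 + 1 / 100000 : ℝ))) /
              Real.sqrt n := by gcongr
        _ = |C1| * |C2| *
              (δ / Real.sqrt n * (δ * (n : ℝ) ^ (1 + 1 / 100000 : ℝ)) / Real.sqrt n) := by ring
        _ ≤ _ := by gcongr
    calc B ^ 2 * (Ca * δ / Real.sqrt n +
          ‖∑ c ∈ Finset.Icc 1 ⌊4 * δ * n⌋₊, Kst n c * II h R (c / n) / Real.sqrt c‖ / Real.sqrt n)
        ≤ B ^ 2 * (|Ca| * X ^ 2 + |C1| * |C2| * Y ^ 2) := by gcongr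
      _ ≤ B ^ 2 * ((|Ca| + |C1| * |C2|) * (X + Y) ^ 2) := by
          gcongr
          have a1 : 0 ≤ |Ca| := abs_nonneg _
          have a2 : 0 ≤ |C1| * |C2| := by positivity
          have a3 : 0 ≤ X * Y := mul_nonneg hX0 hY0
          nlinarith [mul_nonneg a1 a3, mul_nonneg a2 a3, mul_nonneg a1 (sq_nonneg Y),
            mul_nonneg a2 (sq_nonneg X)]
      _ = _ := by rw [mul_pow, mul_pow, hsq]; ring
  exact (abs_le_of_sq_le_sq' hfin (by positivity)).2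

end RV11
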