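import Pool.Agent.LibRV11.Defs
import Pool.Agent.LibRV11.ModAB
import Pool.Agent.LibRV11.Asm5a
import Pool.Agent.LibRV11.TH13
import Pool.Agent.LibRV11.Asm4
open Complex Real MeasureTheory
open UpperHalfPlane hiding I
open scoped MatrixGroups

namespace RV11

theorem G0_part (h : ℝ → ℝ) (hh : IsBump h) : ∃ (C : ℝ) (n0 : ℕ), ∀ n : ℕ, n0 ≤ n →
    ∀ G0 : ℍ → ℂ, Measurable G0 → (∀ g ∈ Gam, ∀ z, G0 (g • z) = chi g * G0 z) →
    ∀ B : ℝ, 0 ≤ B → (∫⁻ z in DD, ‖G0 z‖ₑ ^ 2 * ENNReal.ofReal (W z)) ≤ ENNReal.ofReal B →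
    IntegrableOn (fun z : ℍ => G0 z * ((h (n * z.im) * z.im : ℝ) * jacobiTheta (z : ℂ) *
      cexp (-(π * I * n * (z : ℂ))))) Strip ∧
    ‖∫ z in Strip, G0 z * ((h (n * z.im) * z.im : ℝ) * jacobiTheta (z : ℂ) *
      cexp (-(π * I * n * (z : ℂ))))‖ ≤ C * Real.sqrt B := by
  obtain ⟨C1, n1, hC1⟩ := pair_large h hh
  obtain ⟨K, k, k', hK1, hk, -, hk0, hkd, hk1, hkn, -⟩ := asm4_profile
  have hK0 : 0 < K := by linarith
  set κ : ℝ → ℝ := fun x => k x / K with hκ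
  have hkc : Continuous k := continuous_iff_continuousAt.2 fun φ => (hkd φ).continuousAt
  set ι : ℝ := ∫ φ in (0 : ℝ)..π, prof κ (1 / 8) φ with hι
  have hι0 : 0 < ι := by
    have e1 : ι = ∫ φ in (0 : ℝ)..π, κ (φ / (1 / 8)) := by
      rw [hι]
      apply intervalIntegral.integral_congr
      intro φ hφ
      rw [Set.uIcc_of_le Real.pi_pos.le] at hφ
      simp only [prof, if_pos hφ.1]
    rw [e1]
    have hc : Continuous fun φ : ℝ => κ (φ / (1 / 8)) :=
      (hkc.div_const K).comp (continuous_id.div_const _)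
    refine intervalIntegral.integral_pos Real.pi_pos hc.continuousOn (fun x _ => ?_)
      ⟨0, ⟨le_rfl, Real.pi_pos.le⟩, ?_⟩
    · rw [hκ]; exact div_nonneg (hkn _) hK0.le
    · rw [hκ]
      simp only [zero_div, hk0]
      positivity
  -- the lower bound for n
  have hlim : ∀ᶠ n : ℕ in Filter.atTop, (n : ℝ) ^ (-(1 / 2000) : ℝ) ≤ 1 / 8 := by
    have h1 := (tendsto_rpow_neg_atTop (show (0 : ℝ) < 1 / 2000 by norm_num)).comp
      tendsto_natCast_atTop_atTop
    exact (h1.eventually_lt_const (show (0 : ℝ) < 1 / 8 by norm_num)).mono fun n hn => hn.le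
  obtain ⟨n2, hn2⟩ := Filter.eventually_atTop.1 hlim
  refine ⟨C1 * (1 / 8) * Real.sqrt π / ι, max (max n1 n2) 1, ?_⟩
  intro n hn G0 hG0 hG0' B hB hGB
  have hn1 : n1 ≤ n := le_trans (le_trans (le_max_left _ _) (le_max_left _ _)) hn
  have hn2' := hn2 n (le_trans (le_trans (le_max_right _ _) (le_max_left _ _)) hn)
  have hn11 : 1 ≤ n := le_trans (le_max_right _ _) hn
  set U : ℍ → ℝ → ℂ := fun z _ => G0 z with hU
  have hEq : Equi U := by
    refine ⟨?_, ?_, ?_⟩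
    · exact hG0.comp measurable_fst
    · intro z φ; rfl
    · intro g hg z φ
      exact hG0' g hg z
  have hnrm : nrm U ≤ ENNReal.ofReal ((Real.sqrt (π * B)) ^ 2) := by
    rw [Real.sq_sqrt (by positivity)]
    unfold nrm
    rw [hU]
    simp only [lintegral_const, Measure.restrict_apply MeasurableSet.univ, Set.univ_inter,
      Real.volume_Ioc, sub_zero]
    rw [lintegral_mul_const' _ _ ENNReal.ofReal_ne_top, mul_comm,
      ENNReal.ofReal_mul Real.pi_pos.le]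
    gcongr
  obtain ⟨p1, p2, p3, -⟩ := Rc_prof κ hk (1 / 8) (by norm_num) le_rfl
  have hint := pair_integrable h hh n hn11 (prof κ (1 / 8)) p1 p2 U hEq
    (ne_top_of_le_ne_top ENNReal.ofReal_ne_top hnrm)
  have hinner : ∀ z : ℍ, ∫ φ in (0 : ℝ)..π, U z φ * (prof κ (1 / 8) φ : ℂ) = (ι : ℂ) * G0 z := by
    intro z
    rw [hU]
    simp only
    rw [intervalIntegral.integral_const_mul, intervalIntegral.integral_ofReal, mul_comm]
  have hιC : (ι : ℂ) ≠ 0 := by exact_mod_cast hι0.ne'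
  have hfun : (fun z : ℍ => G0 z * ((h (n * z.im) * z.im : ℝ) * jacobiTheta (z : ℂ) *
      cexp (-(π * I * n * (z : ℂ))))) = fun z : ℍ => (ι : ℂ)⁻¹ *
      ((∫ φ in (0 : ℝ)..π, U z φ * (prof κ (1 / 8) φ : ℂ)) * ((h (n * z.im) * z.im : ℝ) *
        jacobiTheta (z : ℂ) * cexp (-(π * I * n * (z : ℂ))))) := by
    funext z
    rw [hinner]
    field_simp
  rw [hfun]
  refine ⟨hint.const_mul _, ?_⟩
  rw [integral_const_mul]
  have hp := hC1 n hn1 (1 / 8) hn2' le_rfl κ hk U hEq (Real.sqrt (π * B)) (Real.sqrt_nonneg _) hnrm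
  unfold pair at hp
  rw [norm_mul, norm_inv, Complex.norm_real, Real.norm_eq_abs, abs_of_pos hι0,
    inv_mul_le_iff₀ hι0]
  refine hp.trans (le_of_eq ?_)
  rw [Real.sqrt_mul Real.pi_pos.le]
  field_simp

end RV11
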