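import Pool.Agent.LibRV11.U02
open Complex Real MeasureTheory
open UpperHalfPlane hiding I
open scoped MatrixGroups

namespace RV11

/-! ### U04: equivariance and measurability -/

private theorem measurable_ind {α : Type*} [MeasurableSpace α] {p : α → Prop}
    (hp : MeasurableSet {a | p a}) : Measurable (fun a => ind (p a)) := by
  classical
  have : (fun a => ind (p a)) = fun a => if p a then (1 : ℝ) else 0 := by
    funext a
    by_cases h : p a <;> simp [ind, h]
  rw [this]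
  exact Measurable.ite hp measurable_const measurable_const

private theorem continuous_im_H : Continuous (fun z : ℍ => z.im) := UpperHalfPlane.continuous_im

private theorem continuous_uu (c d : ℝ) : Continuous (fun p : ℍ × ℝ => uu p.1 p.2 c d) := by
  unfold uu
  have h1 : Continuous (fun p : ℍ × ℝ => p.1.re) := UpperHalfPlane.continuous_re.comp continuous_fst
  have h2 : Continuous (fun p : ℍ × ℝ => p.1.im) := UpperHalfPlane.continuous_im.comp continuous_fst
  have h3 : Continuous (fun p : ℍ × ℝ => Real.sin p.2) := Real.continuous_sin.comp continuous_snd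
  have h4 : Continuous (fun p : ℍ × ℝ => Real.cos p.2) := Real.continuous_cos.comp continuous_snd
  have h5 : Continuous (fun p : ℍ × ℝ => Real.sqrt p.1.im) := Real.continuous_sqrt.comp h2
  refine Continuous.div ?_ h5 (fun p => ?_)
  · exact (((continuous_const.mul h1).add continuous_const).mul h3).add
      ((continuous_const.mul h2).mul h4)
  · exact (Real.sqrt_pos.mpr p.1.im_pos).ne'

private theorem continuous_vv (c d : ℝ) : Continuous (fun p : ℍ × ℝ => vv p.1 p.2 c d) := by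
  unfold vv
  have h1 : Continuous (fun p : ℍ × ℝ => p.1.re) := UpperHalfPlane.continuous_re.comp continuous_fst
  have h2 : Continuous (fun p : ℍ × ℝ => p.1.im) := UpperHalfPlane.continuous_im.comp continuous_fst
  have h3 : Continuous (fun p : ℍ × ℝ => Real.sin p.2) := Real.continuous_sin.comp continuous_snd
  have h4 : Continuous (fun p : ℍ × ℝ => Real.cos p.2) := Real.continuous_cos.comp continuous_snd
  have h5 : Continuous (fun p : ℍ × ℝ => Real.sqrt p.1.im) := Real.continuous_sqrt.comp h2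
  refine Continuous.div ?_ h5 (fun p => ?_)
  · exact (((continuous_const.mul h1).add continuous_const).mul h4).sub
      ((continuous_const.mul h2).mul h3)
  · exact (Real.sqrt_pos.mpr p.1.im_pos).ne'

theorem measurable_atg {w : ℝ → ℝ → ℝ → ℝ → ℝ}
    (hw : Measurable (fun x : ℝ × ℝ × ℝ × ℝ => w x.1 x.2.1 x.2.2.1 x.2.2.2)) (g : SL(2, ℤ)) :
    Measurable (Function.uncurry (atg w g)) := by
  have h : Measurable (fun p : ℍ × ℝ => (uu p.1 p.2 (g 1 0) (g 1 1), vv p.1 p.2 (g 1 0) (g 1 1),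
      uu p.1 p.2 (g 0 0 + g 1 0) (g 0 1 + g 1 1), vv p.1 p.2 (g 0 0 + g 1 0) (g 0 1 + g 1 1))) :=
    (continuous_uu _ _).measurable.prodMk ((continuous_vv _ _).measurable.prodMk
      ((continuous_uu _ _).measurable.prodMk (continuous_vv _ _).measurable))
  exact hw.comp h

theorem measurable_wR {Z : ℝ → ℝ} (hZ : IsKer Z) (e : Bool) (J : ℝ) :
    Measurable (fun x : ℝ × ℝ × ℝ × ℝ => wR Z e J x.1 x.2.1 x.2.2.1 x.2.2.2) := by
  have m1 : Measurable (fun x : ℝ × ℝ × ℝ × ℝ => x.1) := measurable_fst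
  have m2 : Measurable (fun x : ℝ × ℝ × ℝ × ℝ => x.2.1) := measurable_fst.comp measurable_snd
  have m3 : Measurable (fun x : ℝ × ℝ × ℝ × ℝ => x.2.2.1) :=
    measurable_fst.comp (measurable_snd.comp measurable_snd)
  have m4 : Measurable (fun x : ℝ × ℝ × ℝ × ℝ => x.2.2.2) :=
    measurable_snd.comp (measurable_snd.comp measurable_snd)
  have md : Measurable (fun x : ℝ × ℝ × ℝ × ℝ => x.1 * x.2.2.1) := m1.mul m3
  have mdot : Measurable (fun x : ℝ × ℝ × ℝ × ℝ => x.1 * x.2.2.1 + x.2.1 * x.2.2.2) :=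
    md.add (m2.mul m4)
  have hs1 : MeasurableSet {x : ℝ × ℝ × ℝ × ℝ | 0 < x.1 * x.2.2.1 + x.2.1 * x.2.2.2} :=
    measurableSet_lt measurable_const mdot
  have hs2 : MeasurableSet {x : ℝ × ℝ × ℝ × ℝ | 0 < x.1 * x.2.2.1} :=
    measurableSet_lt measurable_const md
  have msep : Measurable (fun x : ℝ × ℝ × ℝ × ℝ => sepR x.1 x.2.1 x.2.2.1 x.2.2.2) :=
    (measurable_ind hs1).sub (measurable_ind hs2)
  have mZ : Measurable (fun x : ℝ × ℝ × ℝ × ℝ => Z (J * |x.1 * x.2.2.1|)) :=
    hZ.smooth.continuous.measurable.comp (measurable_const.mul (continuous_abs.measurable.comp md))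
  have mk : Measurable (fun x : ℝ × ℝ × ℝ × ℝ => kapR e x.1 x.2.1 x.2.2.1 x.2.2.2) := by
    unfold kapR
    cases e
    · simp only [Bool.false_eq_true, if_false]
      exact measurable_const
    · simp only [if_true]
      exact (Measurable.ite hs2 measurable_const measurable_const).mul ((m3.mul m2).add (m1.mul m4))
  exact (msep.mul mZ).mul mk

private theorem measurable_sHH :
    Measurable (fun x : ℝ × ℝ × ℝ × ℝ => sH (Hr x.1 x.2.1 x.2.2.1 x.2.2.2)) := by
  have m1 : Measurable (fun x : ℝ × ℝ × ℝ × ℝ => x.1) := measurable_fst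
  have m2 : Measurable (fun x : ℝ × ℝ × ℝ × ℝ => x.2.1) := measurable_fst.comp measurable_snd
  have m3 : Measurable (fun x : ℝ × ℝ × ℝ × ℝ => x.2.2.1) :=
    measurable_fst.comp (measurable_snd.comp measurable_snd)
  have m4 : Measurable (fun x : ℝ × ℝ × ℝ × ℝ => x.2.2.2) :=
    measurable_snd.comp (measurable_snd.comp measurable_snd)
  have mH : Measurable (fun x : ℝ × ℝ × ℝ × ℝ => Hr x.1 x.2.1 x.2.2.1 x.2.2.2) := by
    unfold Hr
    exact (continuous_abs.measurable.comp (m3.mul m4)).div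
      (continuous_abs.measurable.comp (m1.mul m2))
  have msH : Measurable sH := by
    apply Continuous.measurable
    unfold sH
    fun_prop
  exact msH.comp mH

theorem measurable_wP {Z : ℝ → ℝ} (hZ : IsKer Z) (e : Bool) (J : ℝ) :
    Measurable (fun x : ℝ × ℝ × ℝ × ℝ => wP Z e J x.1 x.2.1 x.2.2.1 x.2.2.2) :=
  (measurable_wR hZ e J).mul measurable_sHH

theorem measurable_wQ {Z : ℝ → ℝ} (hZ : IsKer Z) (e : Bool) (J : ℝ) :
    Measurable (fun x : ℝ × ℝ × ℝ × ℝ => wQ Z e J x.1 x.2.1 x.2.2.1 x.2.2.2) :=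
  (measurable_wR hZ e J).mul (measurable_const.sub measurable_sHH)

private theorem countable_Gam : Countable Gam := TH4_countable

/-- wall sums are measurable (for weights supported in `NP NQ ≤ K`) -/
theorem measurable_VS {w : ℝ → ℝ → ℝ → ℝ → ℝ}
    (hw : Measurable (fun x : ℝ × ℝ × ℝ × ℝ => w x.1 x.2.1 x.2.2.1 x.2.2.2))
    (K : ℝ) (hK : ∀ g z φ, atg w g z φ ≠ 0 → NP g z * NQ g z ≤ K) (r : ℝ) (S : Set SL(2, ℤ)) :
    Measurable (Function.uncurry (VS w r S)) := by
  have := countable_Gam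
  set f : Gam → ℍ × ℝ → ℂ := fun g p => S.indicator (fun g : SL(2, ℤ) => chi g *
    (atg w g p.1 p.2 : ℂ) * phh r (g • p.1)) g with hf
  have hmeas : ∀ g : Gam, Measurable (f g) := by
    intro g
    by_cases hg : (g : SL(2, ℤ)) ∈ S
    · have e : f g = fun p => chi g * (atg w g p.1 p.2 : ℂ) * phh r ((g : SL(2, ℤ)) • p.1) := by
        funext p
        simp only [hf, Set.indicator_of_mem hg]
      rw [e]
      have h1 : Measurable (fun p : ℍ × ℝ => (atg w g p.1 p.2 : ℂ)) :=
        Complex.measurable_ofReal.comp (measurable_atg hw g)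
      have h2 : Measurable (fun p : ℍ × ℝ => phh r ((g : SL(2, ℤ)) • p.1)) := by
        have h3 : Measurable (fun z : ℍ => (g : SL(2, ℤ)) • z) :=
          (TH4_mp (g : SL(2, ℤ))).1.measurable
        exact (measurable_phh r).comp (h3.comp measurable_fst)
      exact (measurable_const.mul h1).mul h2
    · have e : f g = fun _ => 0 := by
        funext p
        simp only [hf, Set.indicator_of_notMem hg]
      rw [e]
      exact measurable_const
  have hsum : ∀ p : ℍ × ℝ, HasSum (fun g => f g p) (∑' g, f g p) := by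
    intro p
    apply Summable.hasSum
    apply summable_of_finite_support
    have hfin := finite_NPNQ p.1 K
    have h2 : {g : Gam | NP (g : SL(2, ℤ)) p.1 * NQ (g : SL(2, ℤ)) p.1 ≤ K}.Finite :=
      hfin.preimage Subtype.val_injective.injOn
    refine h2.subset ?_
    intro g hg
    apply hK g p.1 p.2
    intro h0
    apply hg
    by_cases hgS : (g : SL(2, ℤ)) ∈ S
    · simp only [hf, Set.indicator_of_mem hgS, h0]
      simp
    · simp only [hf, Set.indicator_of_notMem hgS]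
  have hlim : Filter.Tendsto (fun (s : Finset Gam) (p : ℍ × ℝ) => ∑ g ∈ s, f g p) Filter.atTop
      (nhds (fun p => ∑' g, f g p)) := by
    rw [tendsto_pi_nhds]
    intro p
    exact hsum p
  have hm : Measurable (fun p => ∑' g, f g p) := by
    refine measurable_of_tendsto_metrizable' Filter.atTop (fun s => ?_) hlim
    exact Finset.measurable_sum s (fun g _ => hmeas g)
  exact measurable_const.mul hm

theorem atg_smul (w : ℝ → ℝ → ℝ → ℝ → ℝ) (g k : SL(2, ℤ)) (z : ℍ) (φ : ℝ) :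
    atg w g (k • z) (φ + Complex.arg ((k 1 0 : ℂ) * (z : ℂ) + (k 1 1 : ℂ))) = atg w (g * k) z φ := by
  have e10 : ((g * k) 1 0 : ℤ) = g 1 0 * k 0 0 + g 1 1 * k 1 0 := by
    simp [Matrix.mul_apply, Fin.sum_univ_two]
  have e11 : ((g * k) 1 1 : ℤ) = g 1 0 * k 0 1 + g 1 1 * k 1 1 := by
    simp [Matrix.mul_apply, Fin.sum_univ_two]
  have e00 : ((g * k) 0 0 : ℤ) = g 0 0 * k 0 0 + g 0 1 * k 1 0 := by
    simp [Matrix.mul_apply, Fin.sum_univ_two]
  have e01 : ((g * k) 0 1 : ℤ) = g 0 0 * k 0 1 + g 0 1 * k 1 1 := by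
    simp [Matrix.mul_apply, Fin.sum_univ_two]
  have r10 : (((g * k) 1 0 : ℤ) : ℝ) = g 1 0 * k 0 0 + g 1 1 * k 1 0 := by rw [e10]; push_cast; ring
  have r11 : (((g * k) 1 1 : ℤ) : ℝ) = g 1 0 * k 0 1 + g 1 1 * k 1 1 := by rw [e11]; push_cast; ring
  have rq0 : (((g * k) 0 0 : ℤ) : ℝ) + (((g * k) 1 0 : ℤ) : ℝ) =
      (g 0 0 + g 1 0) * k 0 0 + (g 0 1 + g 1 1) * k 1 0 := by
    rw [e00, e10]; push_cast; ring
  have rq1 : (((g * k) 0 1 : ℤ) : ℝ) + (((g * k) 1 1 : ℤ) : ℝ) =
      (g 0 0 + g 1 0) * k 0 1 + (g 0 1 + g 1 1) * k 1 1 := by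
    rw [e01, e11]; push_cast; ring
  simp only [atg]
  rw [uu_smul, uu_smul, vv_smul, vv_smul, rq0, rq1, r10, r11]

private theorem atg_add_pi {Z : ℝ → ℝ} (e : Bool) (J : ℝ) (g : SL(2, ℤ)) (z : ℍ) (φ : ℝ) :
    atg (wR Z e J) g z (φ + π) = atg (wR Z e J) g z φ := by
  have hu : ∀ c d : ℝ, uu z (φ + π) c d = -uu z φ c d := by
    intro c d
    unfold uu
    rw [Real.sin_add_pi, Real.cos_add_pi]
    ring
  have hv : ∀ c d : ℝ, vv z (φ + π) c d = -vv z φ c d := by
    intro c d
    unfold vv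
    rw [Real.sin_add_pi, Real.cos_add_pi]
    ring
  simp only [atg, wR, sepR, kapR, hu, hv, neg_mul_neg]

theorem equi_VS {Z : ℝ → ℝ} (hZ : IsKer Z) (e : Bool) (r J : ℝ) (hJ : 1 ≤ J) :
    Equi (VS (wR Z e J) r Set.univ) := by
  refine ⟨?_, ?_, ?_⟩
  · exact measurable_VS (measurable_wR hZ e J) (J ^ 2 + 1) (fun g z φ h => NPNQ_le hZ hJ g z φ h) r _
  · intro z φ
    simp only [VS, atg_add_pi]
  · intro k hk z φ
    simp only [VS, Set.indicator_univ]
    have e1 : ∀ g : Gam, chi g * (atg (wR Z e J) g (k • z)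
        (φ + Complex.arg ((k 1 0 : ℂ) * (z : ℂ) + (k 1 1 : ℂ))) : ℂ) *
        phh r ((g : SL(2, ℤ)) • k • z) =
        chi k * (chi ((g * ⟨k, hk⟩ : Gam) : SL(2, ℤ)) *
          (atg (wR Z e J) ((g * ⟨k, hk⟩ : Gam) : SL(2, ℤ)) z φ : ℂ) *
          phh r (((g * ⟨k, hk⟩ : Gam) : SL(2, ℤ)) • z)) := by
      intro g
      rw [atg_smul, smul_smul]
      have h1 : ((g * ⟨k, hk⟩ : Gam) : SL(2, ℤ)) = (g : SL(2, ℤ)) * k := rfl
      rw [h1, chi_mul g.2 hk]
      have h2 := chi_mul_self k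
      linear_combination (-(chi g * (atg (wR Z e J) ((g : SL(2, ℤ)) * k) z φ : ℂ) *
          phh r (((g : SL(2, ℤ)) * k) • z))) * h2
    have e2 : ∑' g : Gam, chi g * (atg (wR Z e J) g (k • z)
        (φ + Complex.arg ((k 1 0 : ℂ) * (z : ℂ) + (k 1 1 : ℂ))) : ℂ) *
        phh r ((g : SL(2, ℤ)) • k • z) = chi k * ∑' g : Gam, chi g *
          (atg (wR Z e J) g z φ : ℂ) * phh r ((g : SL(2, ℤ)) • z) := by
      rw [tsum_congr e1, tsum_mul_left]
      congr 1
      exact (Equiv.mulRight (⟨k, hk⟩ : Gam)).tsum_eq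
        (fun g : Gam => chi g * (atg (wR Z e J) g z φ : ℂ) * phh r ((g : SL(2, ℤ)) • z))
    rw [e2]
    ring

end RV11
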