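import Pool.Agent.LibRV11.U0
import Pool.Agent.LibRV11.Theta
open Complex Real MeasureTheory
open UpperHalfPlane hiding I
open scoped MatrixGroups

namespace RV11

/-! ### U12: sums over rows by the counting lemma -/

theorem U12_fiber (S : Finset (ℤ × ℤ)) (ν : ℤ × ℤ → ℕ) (f : ℤ × ℤ → ℝ) (F : ℕ → ℝ) (C₀ B : ℝ)
    (hF : ∀ n, 0 ≤ F n) (hcard : ∀ n, ((S.filter (fun p => ν p = n)).card : ℝ) ≤ C₀)
    (hf : ∀ p ∈ S, f p ≤ F (ν p)) (hB : ∀ T : Finset ℕ, ∑ n ∈ T, F n ≤ B) :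
    ∑ p ∈ S, f p ≤ C₀ * B := by
  have hC₀ : 0 ≤ C₀ := le_trans (Nat.cast_nonneg _) (hcard 0)
  calc ∑ p ∈ S, f p ≤ ∑ p ∈ S, F (ν p) := Finset.sum_le_sum hf
    _ = ∑ n ∈ S.image ν, ∑ p ∈ S.filter (fun p => ν p = n), F (ν p) :=
        (Finset.sum_fiberwise_of_maps_to (fun p hp => Finset.mem_image_of_mem ν hp) _).symm
    _ = ∑ n ∈ S.image ν, ((S.filter (fun p => ν p = n)).card : ℝ) * F n := by
        refine Finset.sum_congr rfl fun n _ => ?_
        rw [Finset.sum_congr rfl (g := fun _ => F n) (by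
          intro p hp
          rw [(Finset.mem_filter.mp hp).2]), Finset.sum_const, nsmul_eq_mul]
    _ ≤ ∑ n ∈ S.image ν, C₀ * F n :=
        Finset.sum_le_sum fun n _ => mul_le_mul_of_nonneg_right (hcard n) (hF n)
    _ = C₀ * ∑ n ∈ S.image ν, F n := by rw [Finset.mul_sum]
    _ ≤ C₀ * B := mul_le_mul_of_nonneg_left (hB _) hC₀

/-- the exponent of a row: `e^n ≤ N < e^{n+1}` -/
theorem U12_nu {N : ℝ} (hN : 1 ≤ N) : Real.exp (⌊Real.log N⌋₊ : ℝ) ≤ N ∧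
    N ≤ Real.exp ((⌊Real.log N⌋₊ : ℝ) + 1) := by
  have hN0 : 0 < N := by linarith
  have h0 : 0 ≤ Real.log N := Real.log_nonneg hN
  constructor
  · rw [← Real.le_log_iff_exp_le hN0]
    exact Nat.floor_le h0
  · rw [← Real.log_le_iff_le_exp hN0]
    exact (Nat.lt_floor_add_one _).le

theorem U12_rpow_neg {N : ℝ} (hN : 1 ≤ N) : N ^ (-(1 / 4) : ℝ) ≤
    Real.exp (-(⌊Real.log N⌋₊ : ℝ) / 4) := by
  have h1 := (U12_nu hN).1
  calc N ^ (-(1 / 4) : ℝ) ≤ (Real.exp (⌊Real.log N⌋₊ : ℝ)) ^ (-(1 / 4) : ℝ) :=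
        Real.rpow_le_rpow_of_nonpos (Real.exp_pos _) h1 (by norm_num)
    _ = Real.exp (-(⌊Real.log N⌋₊ : ℝ) / 4) := by
        rw [← Real.exp_mul]
        congr 1
        ring

theorem U12_rpow_half {N : ℝ} (hN : 1 ≤ N) : N ^ (1 / 2 : ℝ) ≤
    Real.exp (((⌊Real.log N⌋₊ : ℝ) + 1) / 2) := by
  have h1 := (U12_nu hN).2
  calc N ^ (1 / 2 : ℝ) ≤ (Real.exp ((⌊Real.log N⌋₊ : ℝ) + 1)) ^ (1 / 2 : ℝ) :=
        Real.rpow_le_rpow (by linarith) h1 (by norm_num)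
    _ = Real.exp (((⌊Real.log N⌋₊ : ℝ) + 1) / 2) := by
        rw [← Real.exp_mul]
        congr 1
        ring

/-- the rows of one dyadic level: at most `C` of them. -/
theorem U12_card : ∃ C₀ : ℝ, ∀ (z : ℍ) (φ : ℝ) (S : Finset (ℤ × ℤ)) (n : ℕ),
    (∀ p ∈ S, IsCoprime p.1 p.2 ∧ 1 ≤ Np z p.1 p.2 ∧
      ((|uu z φ p.1 p.2 * vv z φ p.1 p.2| ≤ 3 ∧ uu z φ p.1 p.2 ^ 2 < vv z φ p.1 p.2 ^ 2) ∨
        uu z φ p.1 p.2 ^ 2 + vv z φ p.1 p.2 ^ 2 ≤ 4)) →
    ((S.filter (fun p => ⌊Real.log (Np z p.1 p.2)⌋₊ = n)).card : ℝ) ≤ C₀ := by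
  obtain ⟨C₀, hC₀⟩ := counting_frame 18 (by norm_num)
  refine ⟨C₀, fun z φ S n hS => hC₀ z φ n _ ?_ ?_⟩
  · intro p hp
    exact (hS p (Finset.mem_filter.mp hp).1).1
  · intro p hp
    obtain ⟨hp1, hp2⟩ := Finset.mem_filter.mp hp
    obtain ⟨_, hN, hcase⟩ := hS p hp1
    obtain ⟨h1, h2⟩ := U12_nu hN
    rw [hp2] at h1 h2
    have hsum := uu_sq_add_vv_sq z φ p.1 p.2
    set u := uu z φ p.1 p.2 with hu
    set v := vv z φ p.1 p.2 with hv
    set N := Np z p.1 p.2 with hNdef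
    have hN0 : 0 < N := by linarith
    have he : Real.exp 1 ≤ 3 := Real.exp_one_lt_three.le
    have hu0 := sq_nonneg u
    have hv0 := sq_nonneg v
    have hex := Real.exp_pos (n : ℝ)
    constructor
    · rw [Real.exp_add] at h2
      have h3 : Real.exp (n : ℝ) * Real.exp 1 ≤ Real.exp (n : ℝ) * 3 :=
        mul_le_mul_of_nonneg_left he hex.le
      linarith
    · have h3 : N * u ^ 2 ≤ 18 := by
        rcases hcase with ⟨c1, c2⟩ | c
        · have c3 : (u * v) ^ 2 ≤ 9 := by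
            rw [← sq_abs]
            calc |u * v| ^ 2 ≤ 3 ^ 2 := pow_le_pow_left₀ (abs_nonneg _) c1 2
              _ = 9 := by norm_num
          have c4 : u ^ 2 * u ^ 2 ≤ u ^ 2 * v ^ 2 := mul_le_mul_of_nonneg_left c2.le hu0
          rw [← hsum]
          rw [mul_pow] at c3
          linarith
        · have c3 : N ≤ 4 := by rw [← hsum]; exact c
          have c4 : u ^ 2 ≤ 4 := by linarith
          calc N * u ^ 2 ≤ 4 * 4 := mul_le_mul c3 c4 hu0 (by norm_num)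
            _ ≤ 18 := by norm_num
      rw [Real.exp_neg, ← div_eq_mul_inv, le_div_iff₀ hex]
      have h4 : u ^ 2 * Real.exp (n : ℝ) ≤ u ^ 2 * N := mul_le_mul_of_nonneg_left h1 hu0
      linarith

/-- geometric sums -/
theorem U12_geom : ∃ G : ℝ, ∀ (M : ℝ), 0 ≤ M → ∀ T : Finset ℕ,
    ∑ n ∈ T, Real.exp (-|(n : ℝ) - M| / 4) ≤ G := by
  have hsum : Summable (fun k : ℤ => Real.exp (-|(k : ℝ)| / 4)) := by
    have hq0 : (0 : ℝ) ≤ Real.exp (-1 / 4) := (Real.exp_pos _).le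
    have hq1 : Real.exp (-1 / 4) < 1 := by
      rw [Real.exp_lt_one_iff]; norm_num
    have hgeo := summable_geometric_of_lt_one hq0 hq1
    have hnat : ∀ n : ℕ, Real.exp (-|((n : ℤ) : ℝ)| / 4) = Real.exp (-1 / 4) ^ n := by
      intro n
      rw [← Real.exp_nat_mul, Int.cast_natCast, Nat.abs_cast]
      congr 1
      ring
    apply Summable.of_nat_of_neg
    · simp_rw [hnat]
      exact hgeo
    · have hneg : ∀ n : ℕ, Real.exp (-|((-(n : ℤ) : ℤ) : ℝ)| / 4) = Real.exp (-1 / 4) ^ n := by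
        intro n
        rw [← hnat n, Int.cast_neg, abs_neg]
      simp_rw [hneg]
      exact hgeo
  refine ⟨Real.exp (1 / 4) * ∑' k : ℤ, Real.exp (-|(k : ℝ)| / 4), fun M hM T => ?_⟩
  set m : ℤ := ⌊M⌋ with hm
  have h1 : ∀ n : ℕ, Real.exp (-|(n : ℝ) - M| / 4) ≤
      Real.exp (1 / 4) * Real.exp (-|(((n : ℤ) - m : ℤ) : ℝ)| / 4) := by
    intro n
    rw [← Real.exp_add]
    apply Real.exp_le_exp.mpr
    push_cast
    have h2 : |(n : ℝ) - m| ≤ |(n : ℝ) - M| + 1 := by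
      have h3 : (n : ℝ) - m = ((n : ℝ) - M) + (M - m) := by ring
      rw [h3]
      refine (abs_add_le _ _).trans ?_
      have h4 : |M - m| ≤ 1 := by
        rw [abs_le]
        have h5 := Int.floor_le M
        have h6 := Int.lt_floor_add_one M
        constructor <;> linarith
      linarith
    linarith
  calc ∑ n ∈ T, Real.exp (-|(n : ℝ) - M| / 4)
      ≤ ∑ n ∈ T, Real.exp (1 / 4) * Real.exp (-|(((n : ℤ) - m : ℤ) : ℝ)| / 4) :=
        Finset.sum_le_sum fun n _ => h1 n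
    _ = Real.exp (1 / 4) * ∑ n ∈ T, Real.exp (-|(((n : ℤ) - m : ℤ) : ℝ)| / 4) := by
        rw [Finset.mul_sum]
    _ ≤ Real.exp (1 / 4) * ∑' k : ℤ, Real.exp (-|(k : ℝ)| / 4) := by
        apply mul_le_mul_of_nonneg_left _ (Real.exp_pos _).le
        have hinj : Set.InjOn (fun n : ℕ => (n : ℤ) - m) (T : Set ℕ) := by
          intro a _ b _ hab
          simp only at hab
          omega
        rw [← Finset.sum_image (f := fun k : ℤ => Real.exp (-|(k : ℝ)| / 4)) hinj]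
        exact hsum.sum_le_tsum _ fun k _ => (Real.exp_pos _).le

/-- (S1) -/
theorem sum_S1 : ∃ C : ℝ, ∀ z ∈ DD, ∀ φ : ℝ, ∀ S : Finset (ℤ × ℤ),
    (∀ p ∈ S, IsCoprime p.1 p.2 ∧ p.1 ≠ 0 ∧ Odd (p.1 + p.2) ∧
      ((|uu z φ p.1 p.2 * vv z φ p.1 p.2| ≤ 3 ∧ uu z φ p.1 p.2 ^ 2 < vv z φ p.1 p.2 ^ 2) ∨
        uu z φ p.1 p.2 ^ 2 + vv z φ p.1 p.2 ^ 2 ≤ 4)) →
    ∑ p ∈ S, (Np z p.1 p.2) ^ (-(1 / 4) : ℝ) ≤ C := by
  obtain ⟨C₀, hC₀⟩ := U12_card
  obtain ⟨G, hG⟩ := U12_geom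
  refine ⟨C₀ * G, fun z hz φ S hS => ?_⟩
  have hN : ∀ p ∈ S, 1 ≤ Np z p.1 p.2 := fun p hp =>
    one_le_Np hz (hS p hp).2.1 (hS p hp).2.2.1
  apply U12_fiber S (fun p => ⌊Real.log (Np z p.1 p.2)⌋₊) _
    (fun n => Real.exp (-(n : ℝ) / 4)) C₀ G
  · intro n
    exact (Real.exp_pos _).le
  · intro n
    exact hC₀ z φ S n fun p hp => ⟨(hS p hp).1, hN p hp, (hS p hp).2.2.2⟩
  · intro p hp
    exact U12_rpow_neg (hN p hp)
  · intro T
    have := hG 0 le_rfl T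
    simp only [sub_zero, Nat.abs_cast] at this
    exact this

/-- (S3) -/
theorem sum_S3 : ∃ C : ℝ, ∀ r : ℝ, 0 ≤ r → ∀ (z : ℍ) (φ : ℝ), ∀ S : Finset (ℤ × ℤ),
    (∀ p ∈ S, IsCoprime p.1 p.2 ∧ 1 < Np z p.1 p.2 ∧
      ((|uu z φ p.1 p.2 * vv z φ p.1 p.2| ≤ 1 / 2 ∧ uu z φ p.1 p.2 ^ 2 < vv z φ p.1 p.2 ^ 2) ∨
        uu z φ p.1 p.2 ^ 2 + vv z φ p.1 p.2 ^ 2 < 2)) →
    ∑ p ∈ S, (Np z p.1 p.2) ^ (-(1 / 4) : ℝ) *
      min ((1 + r) ^ (1 / 4 : ℝ)) ((Np z p.1 p.2) ^ (1 / 2 : ℝ) * Real.log (2 + r)) ≤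
      C * ((1 + r) ^ (1 / 8 : ℝ) * Real.log (2 + r)) := by
  obtain ⟨C₀, hC₀⟩ := U12_card
  obtain ⟨G, hG⟩ := U12_geom
  refine ⟨C₀ * (4 * G), fun r hr z φ S hS => ?_⟩
  have hN : ∀ p ∈ S, 1 ≤ Np z p.1 p.2 := fun p hp => (hS p hp).2.1.le
  set L := Real.log (2 + r) with hL
  have hL1 : 1 / 2 ≤ L := by
    have h1 : Real.log 2 ≤ L := Real.log_le_log (by norm_num) (by linarith)
    have h2 := Real.log_two_gt_d9
    linarith
  have hL0 : 0 < L := by linarith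
  set M := Real.log (1 + r) / 2 with hM
  have hM0 : 0 ≤ M := div_nonneg (Real.log_nonneg (by linarith)) (by norm_num)
  have h1r : 0 < 1 + r := by linarith
  have hR4 : (1 + r) ^ (1 / 4 : ℝ) = Real.exp (M / 2) := by
    rw [Real.rpow_def_of_pos h1r, hM]
    congr 1
    ring
  have hR8 : (1 + r) ^ (1 / 8 : ℝ) = Real.exp (M / 4) := by
    rw [Real.rpow_def_of_pos h1r, hM]
    congr 1
    ring
  rw [hR4, hR8, mul_assoc]
  apply U12_fiber S (fun p => ⌊Real.log (Np z p.1 p.2)⌋₊) _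
    (fun n => 4 * (Real.exp (M / 4) * L) * Real.exp (-|(n : ℝ) - M| / 4)) C₀
      (4 * G * (Real.exp (M / 4) * L))
  · intro n
    positivity
  · intro n
    refine hC₀ z φ S n fun p hp => ⟨(hS p hp).1, hN p hp, ?_⟩
    rcases (hS p hp).2.2 with ⟨h1, h2⟩ | h
    · exact Or.inl ⟨by linarith, h2⟩
    · exact Or.inr (by linarith)
  · intro p hp
    have h1 := U12_rpow_neg (hN p hp)
    have h2 := U12_rpow_half (hN p hp)
    set n : ℕ := ⌊Real.log (Np z p.1 p.2)⌋₊ with hn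
    have hNpos : 0 < Np z p.1 p.2 := by linarith [hN p hp]
    have hmin : 0 ≤ min (Real.exp (M / 2)) ((Np z p.1 p.2) ^ (1 / 2 : ℝ) * L) := by
      apply le_min
      · positivity
      · positivity
    refine (mul_le_mul_of_nonneg_right h1 hmin).trans ?_
    rcases le_total (M : ℝ) (n : ℝ) with hMn | hMn
    · rw [abs_of_nonneg (by linarith)]
      calc Real.exp (-(n : ℝ) / 4) * min (Real.exp (M / 2)) ((Np z p.1 p.2) ^ (1 / 2 : ℝ) * L)
          ≤ Real.exp (-(n : ℝ) / 4) * Real.exp (M / 2) :=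
            mul_le_mul_of_nonneg_left (min_le_left _ _) (Real.exp_pos _).le
        _ = 1 * (Real.exp (M / 4) * Real.exp (-((n : ℝ) - M) / 4)) := by
            rw [one_mul, ← Real.exp_add, ← Real.exp_add]
            congr 1
            ring
        _ ≤ (4 * L) * (Real.exp (M / 4) * Real.exp (-((n : ℝ) - M) / 4)) :=
            mul_le_mul_of_nonneg_right (by linarith) (by positivity)
        _ = 4 * (Real.exp (M / 4) * L) * Real.exp (-((n : ℝ) - M) / 4) := by ring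
    · rw [abs_of_nonpos (by linarith)]
      have he : Real.exp (1 / 2) ≤ 4 := by
        have h3 : Real.exp (1 / 2) ≤ Real.exp 1 := Real.exp_le_exp.mpr (by norm_num)
        have h4 := Real.exp_one_lt_three
        linarith
      calc Real.exp (-(n : ℝ) / 4) * min (Real.exp (M / 2)) ((Np z p.1 p.2) ^ (1 / 2 : ℝ) * L)
          ≤ Real.exp (-(n : ℝ) / 4) * ((Np z p.1 p.2) ^ (1 / 2 : ℝ) * L) :=
            mul_le_mul_of_nonneg_left (min_le_right _ _) (Real.exp_pos _).le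
        _ ≤ Real.exp (-(n : ℝ) / 4) * (Real.exp (((n : ℝ) + 1) / 2) * L) := by
            apply mul_le_mul_of_nonneg_left _ (Real.exp_pos _).le
            exact mul_le_mul_of_nonneg_right h2 hL0.le
        _ = Real.exp (1 / 2) * (L * (Real.exp (M / 4) * Real.exp (-(-((n : ℝ) - M)) / 4))) := by
            rw [← Real.exp_add, ← mul_assoc, ← mul_assoc, ← Real.exp_add,
              mul_comm (Real.exp (1 / 2)) L, mul_assoc, ← Real.exp_add, mul_comm]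
            congr 2
            ring
        _ ≤ 4 * (L * (Real.exp (M / 4) * Real.exp (-(-((n : ℝ) - M)) / 4))) :=
            mul_le_mul_of_nonneg_right he (by positivity)
        _ = 4 * (Real.exp (M / 4) * L) * Real.exp (-(-((n : ℝ) - M)) / 4) := by ring
  · intro T
    rw [← Finset.mul_sum]
    have h3 := mul_le_mul_of_nonneg_left (hG M hM0 T)
      (by positivity : 0 ≤ 4 * (Real.exp (M / 4) * L))
    linarith

theorem card_small : ∃ C : ℝ, ∀ (z : ℍ), ∀ S : Finset (ℤ × ℤ),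
    (∀ p ∈ S, IsCoprime p.1 p.2 ∧ Np z p.1 p.2 ≤ 1) → (S.card : ℝ) ≤ C := by
  obtain ⟨C, hC⟩ := counting_frame 1 le_rfl
  refine ⟨C, fun z S hS => hC z 0 0 S (fun p hp => (hS p hp).1) fun p hp => ?_⟩
  have h1 := uu_sq_add_vv_sq z 0 p.1 p.2
  have h2 := (hS p hp).2
  have h3 := sq_nonneg (uu z 0 p.1 p.2)
  have h4 := sq_nonneg (vv z 0 p.1 p.2)
  rw [neg_zero, Real.exp_zero, mul_one]
  constructor <;> linarith

end RV11
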