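import Pool.Agent.LibRV11.U11b
import Pool.Agent.LibRV11.U12
open Complex Real MeasureTheory
open UpperHalfPlane hiding I
open scoped MatrixGroups

namespace RV11

/-! ### U13b -/

namespace U13b94

theorem wR_ne_of_wQ {Z : ℝ → ℝ} {e : Bool} {J up vp uq vq : ℝ} (h : wQ Z e J up vp uq vq ≠ 0) :
    wR Z e J up vp uq vq ≠ 0 ∧ 1 - sH (Hr up vp uq vq) ≠ 0 := by
  rw [wQ] at h
  exact ⟨left_ne_zero_of_mul h, right_ne_zero_of_mul h⟩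

theorem ker_bound {Z : ℝ → ℝ} (hZ : IsKer Z) : ∃ M : ℝ, 0 ≤ M ∧ ∀ x, |Z x| ≤ M := by
  obtain ⟨M, hM⟩ := (isCompact_Icc (a := (1 / 2 : ℝ)) (b := 2)).exists_bound_of_continuousOn
    hZ.smooth.continuous.continuousOn
  refine ⟨|M|, abs_nonneg _, fun x => ?_⟩
  by_cases h : x ≤ 1 / 2 ∨ 2 ≤ x
  · rw [hZ.supp x h, abs_zero]
    exact abs_nonneg _
  · push Not at h
    exact (hM x ⟨h.1.le, h.2.le⟩).trans (le_abs_self M)

theorem abs_wQ_le {Z : ℝ → ℝ} {M : ℝ} (hM0 : 0 ≤ M) (hM : ∀ x, |Z x| ≤ M) {e : Bool}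
    {J up vp uq vq : ℝ} (h : Sep up vp uq vq) : |wQ Z e J up vp uq vq| ≤ M := by
  rw [wQ, wR, abs_mul, abs_mul, abs_mul]
  have h1 := abs_sepR_le up vp uq vq
  have h2 := h.kap e
  have h3 := sH_mem (Hr up vp uq vq)
  have h4 : |1 - sH (Hr up vp uq vq)| ≤ 1 := by
    rw [abs_le]
    constructor <;> linarith
  calc |sepR up vp uq vq| * |Z (J * |up * uq|)| * |kapR e up vp uq vq| *
      |1 - sH (Hr up vp uq vq)| ≤ 1 * M * 1 * 1 := by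
        gcongr
        exact hM _
    _ = M := by ring

/-- data of a term of a near Q-sum -/
theorem frame_facts {Z : ℝ → ℝ} (hZ : IsKer Z) {e : Bool} {J : ℝ} (hJ : 1 ≤ J) {g : SL(2, ℤ)}
    {z : ℍ} {φ : ℝ} (h : atg (wQ Z e J) g z φ ≠ 0) :
    Sep (uu z φ (g 1 0) (g 1 1)) (vv z φ (g 1 0) (g 1 1))
      (uu z φ (g 0 0 + g 1 0) (g 0 1 + g 1 1)) (vv z φ (g 0 0 + g 1 0) (g 0 1 + g 1 1)) ∧
    |uu z φ (g 0 0 + g 1 0) (g 0 1 + g 1 1) * vv z φ (g 0 0 + g 1 0) (g 0 1 + g 1 1)| <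
      |uu z φ (g 1 0) (g 1 1) * vv z φ (g 1 0) (g 1 1)| := by
  obtain ⟨h3, h4⟩ := wR_ne_of_wQ h
  have hdet := atg_det g z φ
  simp only [atg] at hdet h3 h4
  obtain ⟨h5, -, -⟩ := sep_of_wR hZ (by linarith : 0 < J) hdet h3
  exact ⟨h5, lt_of_sH_ne_one h5 h4⟩

theorem NQ_eq (g : SL(2, ℤ)) (z : ℍ) (φ : ℝ) :
    uu z φ (g 0 0 + g 1 0) (g 0 1 + g 1 1) ^ 2 + vv z φ (g 0 0 + g 1 0) (g 0 1 + g 1 1) ^ 2 =
      NQ g z := by
  rw [NQ, uu_sq_add_vv_sq]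

/-- at most two terms over each bottom row -/
theorem fiber_card {Z : ℝ → ℝ} (hZ : IsKer Z) {e : Bool} {J : ℝ} (hJ : 1 ≤ J) {z : ℍ}
    {φ : ℝ} (S : Finset Gam) (hS : ∀ g ∈ S, atg (wQ Z e J) (g : SL(2, ℤ)) z φ ≠ 0) (q : ℤ × ℤ)
    (hq : ∀ g ∈ S, (((g : SL(2, ℤ)) 1 0, (g : SL(2, ℤ)) 1 1) : ℤ × ℤ) = q) : S.card ≤ 2 := by
  classical
  rcases S.eq_empty_or_nonempty with rfl | ⟨g0, hg0⟩
  · simp
  have hspec := exists_fibP.choose_spec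
  have hfib : ∀ p k, ((fibP (p, k) : Gam) : SL(2, ℤ)) 1 0 = p.1.1 ∧
      ((fibP (p, k) : Gam) : SL(2, ℤ)) 1 1 = p.1.2 ∧
      ((fibP (p, k) : Gam) : SL(2, ℤ)) =
        (ModularGroup.T ^ 2) ^ k * ((fibP (p, 0) : Gam) : SL(2, ℤ)) := hspec
  set p0 : RowP := (fibP.symm g0).1 with hp0
  have hp : ∀ g ∈ S, (fibP.symm g).1 = p0 := by
    intro g hg
    have key : ∀ g : Gam, ((fibP.symm g).1.1 : ℤ × ℤ) =
        ((g : SL(2, ℤ)) 1 0, (g : SL(2, ℤ)) 1 1) := by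
      intro g
      have h1 := hfib (fibP.symm g).1 (fibP.symm g).2
      rw [Prod.mk.eta, Equiv.apply_symm_apply] at h1
      rw [h1.1, h1.2.1]
    apply Subtype.ext
    rw [hp0, key, key, hq g hg, hq g0 hg0]
  set a : SL(2, ℤ) := ((fibP (p0, 0) : Gam) : SL(2, ℤ)) with ha
  have hg : ∀ g ∈ S, (g : SL(2, ℤ)) = (ModularGroup.T ^ 2) ^ (fibP.symm g).2 * a := by
    intro g hgS
    have h1 := (hfib (fibP.symm g).1 (fibP.symm g).2).2.2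
    rw [Prod.mk.eta, Equiv.apply_symm_apply, hp g hgS] at h1
    exact h1
  have hinj : Set.InjOn (fun g : Gam => (fibP.symm g).2) (S : Set Gam) := by
    intro g hg' g' hg'' he
    apply fibP.symm.injective
    exact Prod.ext ((hp g hg').trans (hp g' hg'').symm) he
  rw [← Finset.card_image_of_injOn hinj]
  have hdet := atg_det a z φ
  simp only [atg] at hdet
  refine multiplicity hdet _ fun k hk => ?_
  obtain ⟨g, hgS, rfl⟩ := Finset.mem_image.mp hk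
  have h1 := frame_facts hZ hJ (hS g hgS)
  have e0 := T_zpow_mul (fibP.symm g).2 a
  rw [hg g hgS] at h1
  simp only [e0.1, e0.2.1, e0.2.2.1, e0.2.2.2] at h1
  have hu : ∀ k : ℤ, uu z φ (((a 0 0 + 2 * k * a 1 0 : ℤ) : ℝ) + (a 1 0 : ℝ))
      (((a 0 1 + 2 * k * a 1 1 : ℤ) : ℝ) + (a 1 1 : ℝ)) =
      uu z φ (a 0 0 + a 1 0) (a 0 1 + a 1 1) + 2 * k * uu z φ (a 1 0) (a 1 1) := by
    intro k
    simp only [uu]
    push_cast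
    ring
  have hv : ∀ k : ℤ, vv z φ (((a 0 0 + 2 * k * a 1 0 : ℤ) : ℝ) + (a 1 0 : ℝ))
      (((a 0 1 + 2 * k * a 1 1 : ℤ) : ℝ) + (a 1 1 : ℝ)) =
      vv z φ (a 0 0 + a 1 0) (a 0 1 + a 1 1) + 2 * k * vv z φ (a 1 0) (a 1 1) := by
    intro k
    simp only [vv]
    push_cast
    ring
  rw [hu, hv] at h1
  exact h1

end U13b94

open U13b94

/-- near terms -/
theorem sup_Qnear {Z : ℝ → ℝ} (hZ : IsKer Z) (e : Bool) : ∃ C : ℝ, ∀ r : ℝ, 0 ≤ r →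
    ∀ J : ℝ, 1 ≤ J → ∀ z ∈ DD, ∀ φ : ℝ,
    ‖VS (wQ Z e J) r {g | g 1 0 ≠ 0 ∧ 1 < NQ g z ∧ |(ww g z).re| ≤ 1} z φ‖ * Real.sqrt (W z) ≤ C := by
  classical
  obtain ⟨C2, hC2⟩ := sum_S1
  obtain ⟨M, hM0, hM⟩ := ker_bound hZ
  refine ⟨M * (2 * C2), fun r hr J hJ z hz φ => ?_⟩
  set SS : Set SL(2, ℤ) := {g | g 1 0 ≠ 0 ∧ 1 < NQ g z ∧ |(ww g z).re| ≤ 1} with hSS
  have hfin : {g : Gam | atg (wQ Z e J) (g : SL(2, ℤ)) z φ ≠ 0}.Finite := by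
    have h1 := finite_NPNQ z (J ^ 2 + 1)
    have h2 : {g : Gam | atg (wQ Z e J) (g : SL(2, ℤ)) z φ ≠ 0} ⊆
        (Subtype.val : Gam → SL(2, ℤ)) ⁻¹' {g : SL(2, ℤ) | NP g z * NQ g z ≤ J ^ 2 + 1} := by
      intro g hg
      exact NPNQ_le hZ hJ _ z φ (wR_ne_of_wQ hg).1
    exact (h1.preimage Subtype.val_injective.injOn).subset h2
  set G : Finset Gam := hfin.toFinset.filter fun g : Gam => (g : SL(2, ℤ)) ∈ SS with hG
  have hGmem : ∀ g ∈ G, atg (wQ Z e J) (g : SL(2, ℤ)) z φ ≠ 0 ∧ (g : SL(2, ℤ)) ∈ SS := by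
    intro g hg
    obtain ⟨h1, h2⟩ := Finset.mem_filter.mp hg
    exact ⟨hfin.mem_toFinset.mp h1, h2⟩
  set T : Gam → ℂ := fun g => SS.indicator (fun g : SL(2, ℤ) => chi g *
    (atg (wQ Z e J) g z φ : ℂ) * phh r (g • z)) g with hT
  have hsum : ∑' g : Gam, T g = ∑ g ∈ G, T g := by
    apply tsum_eq_sum
    intro g hg
    simp only [hT]
    by_cases h1 : (g : SL(2, ℤ)) ∈ SS
    · rw [Set.indicator_of_mem h1]
      have h2 : atg (wQ Z e J) (g : SL(2, ℤ)) z φ = 0 := by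
        by_contra h3
        exact hg (Finset.mem_filter.mpr ⟨hfin.mem_toFinset.mpr h3, h1⟩)
      rw [h2]
      simp
    · rw [Set.indicator_of_notMem h1]
  have hW : 0 ≤ Real.sqrt (W z) := Real.sqrt_nonneg _
  have hNp : ∀ c d : ℝ, 0 ≤ Np z c d := by
    intro c d
    rw [Np]
    exact div_nonneg (sq_nonneg _) z.im_pos.le
  have hterm : ∀ g ∈ G, ‖T g‖ * Real.sqrt (W z) ≤
      M * (Np z ((g : SL(2, ℤ)) 1 0) ((g : SL(2, ℤ)) 1 1)) ^ (-(1 / 4) : ℝ) := by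
    intro g hg
    obtain ⟨h1, h2⟩ := hGmem g hg
    simp only [hT]
    rw [Set.indicator_of_mem h2, norm_mul, norm_mul, norm_chi, one_mul, mul_assoc,
      norm_phh_smul r g.2 z, Complex.norm_real, Real.norm_eq_abs]
    have h3 : |atg (wQ Z e J) (g : SL(2, ℤ)) z φ| ≤ M := abs_wQ_le hM0 hM (frame_facts hZ hJ h1).1
    have h6 : Real.exp (-(π * r / Np z ((g : SL(2, ℤ)) 1 0) ((g : SL(2, ℤ)) 1 1))) ≤ 1 := by
      rw [Real.exp_le_one_iff, neg_nonpos]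
      exact div_nonneg (mul_nonneg Real.pi_pos.le hr) (hNp _ _)
    have h7 := Real.rpow_nonneg (hNp ((g : SL(2, ℤ)) 1 0) ((g : SL(2, ℤ)) 1 1)) (-(1 / 4) : ℝ)
    calc _ ≤ M * (1 * (Np z ((g : SL(2, ℤ)) 1 0) ((g : SL(2, ℤ)) 1 1)) ^ (-(1 / 4) : ℝ)) := by
          gcongr
      _ = _ := by rw [one_mul]
  set row : Gam → ℤ × ℤ := fun g => ((g : SL(2, ℤ)) 1 0, (g : SL(2, ℤ)) 1 1) with hrow
  have hrows : ∀ q ∈ G.image row, IsCoprime q.1 q.2 ∧ q.1 ≠ 0 ∧ Odd (q.1 + q.2) ∧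
      ((|uu z φ q.1 q.2 * vv z φ q.1 q.2| ≤ 3 ∧ uu z φ q.1 q.2 ^ 2 < vv z φ q.1 q.2 ^ 2) ∨
        uu z φ q.1 q.2 ^ 2 + vv z φ q.1 q.2 ^ 2 ≤ 4) := by
    intro q hq
    obtain ⟨g, hg, rfl⟩ := Finset.mem_image.mp hq
    obtain ⟨h1, h2⟩ := hGmem g hg
    refine ⟨?_, h2.1, odd_row g.2, ?_⟩
    · refine ⟨-((g : SL(2, ℤ)) 0 1), (g : SL(2, ℤ)) 0 0, ?_⟩
      have h3 := (g : SL(2, ℤ)).det_coe
      rw [Matrix.det_fin_two] at h3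
      change -((g : SL(2, ℤ)) 0 1) * (g : SL(2, ℤ)) 1 0 + (g : SL(2, ℤ)) 0 0 * (g : SL(2, ℤ)) 1 1 = 1
      change (g : SL(2, ℤ)) 0 0 * (g : SL(2, ℤ)) 1 1 -
        (g : SL(2, ℤ)) 0 1 * (g : SL(2, ℤ)) 1 0 = 1 at h3
      linarith
    · obtain ⟨h4, h5⟩ := frame_facts hZ hJ h1
      have h6 := NQ_eq (g : SL(2, ℤ)) z φ
      have h7 : |uu z φ ((g : SL(2, ℤ)) 1 0) ((g : SL(2, ℤ)) 1 1) *
          uu z φ ((g : SL(2, ℤ)) 0 0 + (g : SL(2, ℤ)) 1 0)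
            ((g : SL(2, ℤ)) 0 1 + (g : SL(2, ℤ)) 1 1) +
          vv z φ ((g : SL(2, ℤ)) 1 0) ((g : SL(2, ℤ)) 1 1) *
          vv z φ ((g : SL(2, ℤ)) 0 0 + (g : SL(2, ℤ)) 1 0)
            ((g : SL(2, ℤ)) 0 1 + (g : SL(2, ℤ)) 1 1)| ≤ NQ g z := by
        have h8 := h2.2.2
        have h9 := h2.2.1
        rw [ww_re (g : SL(2, ℤ)) z φ, abs_div, abs_neg,
          abs_of_pos (by linarith : 0 < NQ (g : SL(2, ℤ)) z),
          div_le_one (by linarith)] at h8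
        exact h8
      have h10 := h4.factC h5 (by rw [h6]; exact h2.2.1) (by rw [h6]; exact h7)
      exact h10
  have hS := hC2 z hz φ (G.image row) hrows
  have hfs : ∑ g ∈ G, (Np z ((g : SL(2, ℤ)) 1 0) ((g : SL(2, ℤ)) 1 1)) ^ (-(1 / 4) : ℝ) ≤
      ∑ q ∈ G.image row, 2 * (Np z q.1 q.2) ^ (-(1 / 4) : ℝ) := by
    have h1 : ∑ g ∈ G, (fun q : ℤ × ℤ => (Np z q.1 q.2) ^ (-(1 / 4) : ℝ)) (row g) =
        ∑ q ∈ G.image row, (G.filter fun g => row g = q).card •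
          (fun q : ℤ × ℤ => (Np z q.1 q.2) ^ (-(1 / 4) : ℝ)) q := by
      have h0 := Finset.sum_comp (s := G) (fun q : ℤ × ℤ => (Np z q.1 q.2) ^ (-(1 / 4) : ℝ)) row
      convert h0
    have h2 : ∑ g ∈ G, (Np z ((g : SL(2, ℤ)) 1 0) ((g : SL(2, ℤ)) 1 1)) ^ (-(1 / 4) : ℝ) =
        ∑ g ∈ G, (fun q : ℤ × ℤ => (Np z q.1 q.2) ^ (-(1 / 4) : ℝ)) (row g) := rfl
    rw [h2, h1]
    refine Finset.sum_le_sum fun q hq => ?_
    rw [nsmul_eq_mul]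
    have h3 : (G.filter fun g => row g = q).card ≤ 2 :=
      fiber_card hZ hJ (G.filter fun g => row g = q)
        (fun g hg => (hGmem g (Finset.mem_filter.mp hg).1).1) q
        (fun g hg => (Finset.mem_filter.mp hg).2)
    have h4 : (((G.filter fun g => row g = q).card : ℕ) : ℝ) ≤ 2 := by exact_mod_cast h3
    have h5 := Real.rpow_nonneg (hNp q.1 q.2) (-(1 / 4) : ℝ)
    exact mul_le_mul_of_nonneg_right h4 h5
  have hom : ‖om r / 2‖ ≤ 1 := by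
    rw [norm_div]
    have h1 : ‖(2 : ℂ)‖ = 2 := by simp
    rw [h1, div_le_one (by norm_num), om]
    refine (norm_sub_le _ _).trans ?_
    have h2 : ‖cexp (2 * π * I * r)‖ = 1 := by
      have h3 : (2 * π * I * r : ℂ) = ((2 * π * r : ℝ) : ℂ) * I := by
        push_cast
        ring
      rw [h3, Complex.norm_exp_ofReal_mul_I]
    rw [h2, norm_one]
    norm_num
  rw [VS]
  change ‖om r / 2 * ∑' g : Gam, T g‖ * Real.sqrt (W z) ≤ M * (2 * C2)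
  rw [hsum]
  calc ‖om r / 2 * ∑ g ∈ G, T g‖ * Real.sqrt (W z)
      ≤ (1 * ∑ g ∈ G, ‖T g‖) * Real.sqrt (W z) := by
        rw [norm_mul]
        gcongr
        exact norm_sum_le _ _
    _ = ∑ g ∈ G, ‖T g‖ * Real.sqrt (W z) := by rw [one_mul, Finset.sum_mul]
    _ ≤ ∑ g ∈ G, M * (Np z ((g : SL(2, ℤ)) 1 0) ((g : SL(2, ℤ)) 1 1)) ^ (-(1 / 4) : ℝ) :=
        Finset.sum_le_sum hterm
    _ = M * ∑ g ∈ G, (Np z ((g : SL(2, ℤ)) 1 0) ((g : SL(2, ℤ)) 1 1)) ^ (-(1 / 4) : ℝ) := by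
        rw [Finset.mul_sum]
    _ ≤ M * ∑ q ∈ G.image row, 2 * (Np z q.1 q.2) ^ (-(1 / 4) : ℝ) := by gcongr
    _ = M * (2 * ∑ q ∈ G.image row, (Np z q.1 q.2) ^ (-(1 / 4) : ℝ)) := by
        rw [← Finset.mul_sum]
    _ ≤ M * (2 * C2) := by gcongr

end RV11
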