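import Pool.Agent.LibRV11.U11b
import Pool.Agent.LibRV11.U12
open Complex Real MeasureTheory
open UpperHalfPlane hiding I
open scoped MatrixGroups

namespace RV11

/-! ### U13c -/

namespace U13c94

theorem wR_ne_of_wQ {Z : ℝ → ℝ} {e : Bool} {J up vp uq vq : ℝ} (h : wQ Z e J up vp uq vq ≠ 0) :
    wR Z e J up vp uq vq ≠ 0 ∧ 1 - sH (Hr up vp uq vq) ≠ 0 := by
  rw [wQ] at h
  exact ⟨left_ne_zero_of_mul h, right_ne_zero_of_mul h⟩

/-- data of a term of a Q-sum -/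
theorem frame_facts {Z : ℝ → ℝ} (hZ : IsKer Z) {e : Bool} {J : ℝ} (hJ : 1 ≤ J) {g : SL(2, ℤ)}
    {z : ℍ} {φ : ℝ} (h : atg (wQ Z e J) g z φ ≠ 0) :
    Sep (uu z φ (g 1 0) (g 1 1)) (vv z φ (g 1 0) (g 1 1))
      (uu z φ (g 0 0 + g 1 0) (g 0 1 + g 1 1)) (vv z φ (g 0 0 + g 1 0) (g 0 1 + g 1 1)) ∧
    |uu z φ (g 0 0 + g 1 0) (g 0 1 + g 1 1) * vv z φ (g 0 0 + g 1 0) (g 0 1 + g 1 1)| <
      |uu z φ (g 1 0) (g 1 1) * vv z φ (g 1 0) (g 1 1)| := by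
  obtain ⟨h3, h4⟩ := wR_ne_of_wQ h
  have hdet := atg_det g z φ
  simp only [atg] at hdet h3 h4
  obtain ⟨h5, -, -⟩ := sep_of_wR hZ (by linarith : 0 < J) hdet h3
  exact ⟨h5, lt_of_sH_ne_one h5 h4⟩

theorem supp_finite {Z : ℝ → ℝ} (hZ : IsKer Z) {e : Bool} {J : ℝ} (hJ : 1 ≤ J) (z : ℍ) (φ : ℝ) :
    {g : Gam | atg (wQ Z e J) (g : SL(2, ℤ)) z φ ≠ 0}.Finite := by
  have h1 := finite_NPNQ z (J ^ 2 + 1)
  have h2 : {g : Gam | atg (wQ Z e J) (g : SL(2, ℤ)) z φ ≠ 0} ⊆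
      (Subtype.val : Gam → SL(2, ℤ)) ⁻¹' {g : SL(2, ℤ) | NP g z * NQ g z ≤ J ^ 2 + 1} := by
    intro g hg
    exact NPNQ_le hZ hJ _ z φ (wR_ne_of_wQ hg).1
  exact (h1.preimage Subtype.val_injective.injOn).subset h2

theorem fibQ_spec (q : RowQ) (k : ℤ) :
    ((fibQ (q, k) : Gam) : SL(2, ℤ)) 0 0 + ((fibQ (q, k) : Gam) : SL(2, ℤ)) 1 0 = q.1.1 ∧
    ((fibQ (q, k) : Gam) : SL(2, ℤ)) 0 1 + ((fibQ (q, k) : Gam) : SL(2, ℤ)) 1 1 = q.1.2 ∧
    ((fibQ (q, k) : Gam) : SL(2, ℤ)) = PP ^ k * ((fibQ (q, 0) : Gam) : SL(2, ℤ)) :=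
  exists_fibQ.choose_spec q k

theorem NQ_eq (g : SL(2, ℤ)) (z : ℍ) (c d : ℤ) (h1 : g 0 0 + g 1 0 = c) (h2 : g 0 1 + g 1 1 = d) :
    NQ g z = Np z c d := by
  rw [NQ, ← h1, ← h2]
  push_cast
  rfl

theorem NQ_fib (q : RowQ) (k : ℤ) (z : ℍ) :
    NQ (PP ^ k * ((fibQ (q, 0) : Gam) : SL(2, ℤ))) z = Np z q.1.1 q.1.2 := by
  rw [← (fibQ_spec q k).2.2]
  exact NQ_eq _ _ _ _ (fibQ_spec q k).1 (fibQ_spec q k).2.1

/-- a block of a Q-sum -/
noncomputable def blk (Z : ℝ → ℝ) (e : Bool) (J r : ℝ) (z : ℍ) (φ : ℝ) (S : Set SL(2, ℤ))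
    (q : RowQ) : ℂ :=
  ∑' k : ℤ, Set.indicator {k : ℤ | PP ^ k * ((fibQ (q, 0) : Gam) : SL(2, ℤ)) ∈ S}
    (fun k => chi (PP ^ k * ((fibQ (q, 0) : Gam) : SL(2, ℤ))) *
      (atg (wQ Z e J) (PP ^ k * ((fibQ (q, 0) : Gam) : SL(2, ℤ))) z φ : ℂ) *
      phh r ((PP ^ k * ((fibQ (q, 0) : Gam) : SL(2, ℤ))) • z)) k

/-- the rows which occur -/
def QS (Z : ℝ → ℝ) (e : Bool) (J : ℝ) (z : ℍ) (φ : ℝ) : Set RowQ :=
  {q | ∃ k : ℤ, atg (wQ Z e J) (PP ^ k * ((fibQ (q, 0) : Gam) : SL(2, ℤ))) z φ ≠ 0}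

theorem QS_finite {Z : ℝ → ℝ} (hZ : IsKer Z) (e : Bool) {J : ℝ} (hJ : 1 ≤ J) (z : ℍ) (φ : ℝ) :
    (QS Z e J z φ).Finite := by
  have h2 : QS Z e J z φ ⊆ (fun g : Gam => (fibQ.symm g).1) ''
      {g : Gam | atg (wQ Z e J) (g : SL(2, ℤ)) z φ ≠ 0} := by
    rintro q ⟨k, hk⟩
    refine ⟨fibQ (q, k), ?_, by simp⟩
    change atg (wQ Z e J) (fibQ (q, k) : SL(2, ℤ)) z φ ≠ 0
    rw [(fibQ_spec q k).2.2]
    exact hk
  exact ((supp_finite hZ hJ z φ).image _).subset h2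

theorem blk_eq_zero {Z : ℝ → ℝ} {e : Bool} {J r : ℝ} {z : ℍ} {φ : ℝ} {S : Set SL(2, ℤ)}
    {q : RowQ} (h : q ∉ QS Z e J z φ) : blk Z e J r z φ S q = 0 := by
  have h1 : ∀ k : ℤ, atg (wQ Z e J) (PP ^ k * ((fibQ (q, 0) : Gam) : SL(2, ℤ))) z φ = 0 := by
    intro k
    by_contra hne
    exact h ⟨k, hne⟩
  simp only [blk, h1]
  simp

theorem VS_eq {Z : ℝ → ℝ} (hZ : IsKer Z) (e : Bool) {J : ℝ} (hJ : 1 ≤ J) (r : ℝ) (z : ℍ) (φ : ℝ)
    (S : Set SL(2, ℤ)) :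
    VS (wQ Z e J) r S z φ = om r / 2 * ∑ q ∈ (QS_finite hZ e hJ z φ).toFinset,
      blk Z e J r z φ S q := by
  rw [VS]
  congr 1
  have h1 : ∀ x : RowQ × ℤ, Set.indicator S (fun g : SL(2, ℤ) => chi g *
      (atg (wQ Z e J) g z φ : ℂ) * phh r (g • z)) (fibQ x : SL(2, ℤ)) =
      Set.indicator {k : ℤ | PP ^ k * ((fibQ (x.1, 0) : Gam) : SL(2, ℤ)) ∈ S}
        (fun k => chi (PP ^ k * ((fibQ (x.1, 0) : Gam) : SL(2, ℤ))) *
        (atg (wQ Z e J) (PP ^ k * ((fibQ (x.1, 0) : Gam) : SL(2, ℤ))) z φ : ℂ) *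
        phh r ((PP ^ k * ((fibQ (x.1, 0) : Gam) : SL(2, ℤ))) • z)) x.2 := by
    rintro ⟨q, k⟩
    rw [(fibQ_spec q k).2.2]
    simp only [Set.indicator, Set.mem_ofPred_eq]
  rw [← fibQ.tsum_eq]
  simp only [h1]
  have hsum : Summable (fun x : RowQ × ℤ =>
      Set.indicator {k : ℤ | PP ^ k * ((fibQ (x.1, 0) : Gam) : SL(2, ℤ)) ∈ S}
        (fun k => chi (PP ^ k * ((fibQ (x.1, 0) : Gam) : SL(2, ℤ))) *
        (atg (wQ Z e J) (PP ^ k * ((fibQ (x.1, 0) : Gam) : SL(2, ℤ))) z φ : ℂ) *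
        phh r ((PP ^ k * ((fibQ (x.1, 0) : Gam) : SL(2, ℤ))) • z)) x.2) := by
    apply summable_of_hasFiniteSupport
    apply ((supp_finite hZ hJ z φ).preimage fibQ.injective.injOn).subset
    intro x hx
    rw [Function.mem_support] at hx
    by_contra hcon
    apply hx
    have h2 : atg (wQ Z e J) (PP ^ x.2 * ((fibQ (x.1, 0) : Gam) : SL(2, ℤ))) z φ = 0 := by
      by_contra h3
      apply hcon
      change atg (wQ Z e J) (fibQ x : SL(2, ℤ)) z φ ≠ 0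
      rw [(fibQ_spec x.1 x.2).2.2]
      exact h3
    simp only [Set.indicator]
    split_ifs with h4
    · rw [h2]
      simp
    · rfl
  rw [hsum.tsum_prod]
  change ∑' q : RowQ, blk Z e J r z φ S q = _
  apply tsum_eq_sum
  intro q hq
  apply blk_eq_zero
  intro h3
  exact hq ((QS_finite hZ e hJ z φ).mem_toFinset.mpr h3)

theorem norm_om_le (r : ℝ) : ‖om r / 2‖ ≤ 1 := by
  rw [norm_div]
  have h1 : ‖(2 : ℂ)‖ = 2 := by simp
  rw [h1, div_le_one (by norm_num), om]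
  refine (norm_sub_le _ _).trans ?_
  have h2 : ‖cexp (2 * π * I * r)‖ = 1 := by
    have h3 : (2 * π * I * r : ℂ) = ((2 * π * r : ℝ) : ℂ) * I := by
      push_cast
      ring
    rw [h3, Complex.norm_exp_ofReal_mul_I]
  rw [h2, norm_one]
  norm_num

theorem norm_VS_le {Z : ℝ → ℝ} (hZ : IsKer Z) (e : Bool) {J : ℝ} (hJ : 1 ≤ J) (r : ℝ) (z : ℍ)
    (φ : ℝ) (S : Set SL(2, ℤ)) :
    ‖VS (wQ Z e J) r S z φ‖ * Real.sqrt (W z) ≤ ∑ q ∈ (QS_finite hZ e hJ z φ).toFinset,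
      ‖blk Z e J r z φ S q‖ * Real.sqrt (W z) := by
  rw [VS_eq hZ e hJ, ← Finset.sum_mul]
  gcongr
  rw [norm_mul]
  calc _ ≤ 1 * ∑ q ∈ (QS_finite hZ e hJ z φ).toFinset, ‖blk Z e J r z φ S q‖ := by
        gcongr
        · exact norm_om_le r
        · exact norm_sum_le _ _
    _ = _ := one_mul _

theorem q_ne_zero (q : RowQ) : q.1.1 ≠ 0 := by
  intro h
  have := q.2.2.1
  rw [h] at this
  exact (Int.not_odd_iff_even.mpr (by decide)) this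

/-- the index for which the lower left entry vanishes -/
theorem entry (q : RowQ) (k : ℤ) : (PP ^ k * ((fibQ (q, 0) : Gam) : SL(2, ℤ))) 1 0 =
    ((fibQ (q, 0) : Gam) : SL(2, ℤ)) 1 0 + k * q.1.1 := by
  rw [(PP_zpow_mul k _).1, (fibQ_spec q 0).1]

theorem rows {Z : ℝ → ℝ} (hZ : IsKer Z) {e : Bool} {J : ℝ} (hJ : 1 ≤ J) {z : ℍ} {φ : ℝ}
    {q : RowQ} (hq : q ∈ QS Z e J z φ) :
    (|uu z φ q.1.1 q.1.2 * vv z φ q.1.1 q.1.2| ≤ 1 / 2 ∧
      uu z φ q.1.1 q.1.2 ^ 2 < vv z φ q.1.1 q.1.2 ^ 2) ∨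
    uu z φ q.1.1 q.1.2 ^ 2 + vv z φ q.1.1 q.1.2 ^ 2 < 2 := by
  obtain ⟨k, hk⟩ := hq
  obtain ⟨h1, h2⟩ := frame_facts hZ hJ hk
  have h3 := h1.factB h2
  have e1 := (fibQ_spec q k).1
  have e2 := (fibQ_spec q k).2.1
  rw [(fibQ_spec q k).2.2] at e1 e2
  have e1' : ((((PP ^ k * ((fibQ (q, 0) : Gam) : SL(2, ℤ))) 0 0 : ℤ) : ℝ) +
      (((PP ^ k * ((fibQ (q, 0) : Gam) : SL(2, ℤ))) 1 0 : ℤ) : ℝ)) = (q.1.1 : ℝ) := by
    exact_mod_cast e1
  have e2' : ((((PP ^ k * ((fibQ (q, 0) : Gam) : SL(2, ℤ))) 0 1 : ℤ) : ℝ) +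
      (((PP ^ k * ((fibQ (q, 0) : Gam) : SL(2, ℤ))) 1 1 : ℤ) : ℝ)) = (q.1.2 : ℝ) := by
    exact_mod_cast e2
  rw [e1', e2'] at h3
  rcases h3 with ⟨h4, h5 | h5⟩
  · exact Or.inl ⟨h4, h5⟩
  · exact Or.inr h5

theorem ww_re_fib (q : RowQ) (k : ℤ) (z : ℍ) :
    (ww (PP ^ k * ((fibQ (q, 0) : Gam) : SL(2, ℤ))) z).re =
      (ww ((fibQ (q, 0) : Gam) : SL(2, ℤ)) z).re - k := by
  set g := ((fibQ (q, 0) : Gam) : SL(2, ℤ)) with hg
  have h0 : NQ (PP ^ k * g) z = NQ g z := by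
    rw [NQ_fib q k z]
    have := NQ_fib q 0 z
    rw [zpow_zero, one_mul] at this
    exact this.symm
  have hpos : 0 < NQ g z := by
    have h1 := ww_im g z
    have h2 := NP_mul_NQ g z 0
    have h3 : 0 ≤ NQ g z := by
      rw [NQ, Np]
      exact div_nonneg (sq_nonneg _) z.im_pos.le
    rcases h3.lt_or_eq with h4 | h4
    · exact h4
    · exfalso
      rw [← h4, mul_zero] at h2
      nlinarith [sq_nonneg (atg (fun up vp uq vq => up * uq + vp * vq) g z 0)]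
  rw [ww_re _ z 0, ww_re g z 0, h0, atg_PP]
  have h1 : atg (fun up vp uq vq => (up + k * uq) * uq + (vp + k * vq) * vq) g z 0 =
      atg (fun up vp uq vq => up * uq + vp * vq) g z 0 + k * NQ g z := by
    rw [NQ, ← uu_sq_add_vv_sq z 0]
    simp only [atg]
    ring
  rw [h1]
  field_simp
  ring

end U13c94

open U13c94

/-- far terms with `NQ > 1` -/
theorem sup_Qfar {Z : ℝ → ℝ} (hZ : IsKer Z) (e : Bool) : ∃ C : ℝ, ∀ r : ℝ, 0 ≤ r →
    ∀ J : ℝ, 1 ≤ J → ∀ z ∈ DD, ∀ φ : ℝ,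
    ‖VS (wQ Z e J) r {g | g 1 0 ≠ 0 ∧ 1 < NQ g z ∧ 1 < |(ww g z).re|} z φ‖ * Real.sqrt (W z) ≤
      C * ((1 + r) ^ (1 / 8 : ℝ) * Real.log (2 + r)) := by
  classical
  obtain ⟨C1, hC1⟩ := block_Qfar hZ e
  obtain ⟨C2, hC2⟩ := sum_S3
  refine ⟨|C1| * C2, fun r hr J hJ z hz φ => ?_⟩
  set S : Set SL(2, ℤ) := {g | g 1 0 ≠ 0 ∧ 1 < NQ g z ∧ 1 < |(ww g z).re|} with hS
  refine (norm_VS_le hZ e hJ r z φ S).trans ?_
  set Q1 : Finset RowQ := (QS_finite hZ e hJ z φ).toFinset.filter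
    fun q : RowQ => 1 < Np z q.1.1 q.1.2 with hQ1
  have hlog : 0 ≤ Real.log (2 + r) := Real.log_nonneg (by linarith)
  have hmin : ∀ x : ℝ, 0 ≤ x → 0 ≤ x ^ (-(1 / 4) : ℝ) *
      min ((1 + r) ^ (1 / 4 : ℝ)) (x ^ (1 / 2 : ℝ) * Real.log (2 + r)) := by
    intro x hx
    apply mul_nonneg (Real.rpow_nonneg hx _)
    apply le_min (Real.rpow_nonneg (by linarith) _)
    exact mul_nonneg (Real.rpow_nonneg hx _) hlog
  have hNp : ∀ c d : ℝ, 0 ≤ Np z c d := by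
    intro c d
    rw [Np]
    exact div_nonneg (sq_nonneg _) z.im_pos.le
  -- blocks with small norm vanish
  have h1 : ∑ q ∈ (QS_finite hZ e hJ z φ).toFinset, ‖blk Z e J r z φ S q‖ * Real.sqrt (W z) =
      ∑ q ∈ Q1, ‖blk Z e J r z φ S q‖ * Real.sqrt (W z) := by
    symm
    apply Finset.sum_subset (Finset.filter_subset _ _)
    intro q hq hq1
    have h2 : ¬ 1 < Np z q.1.1 q.1.2 := fun h => hq1 (Finset.mem_filter.mpr ⟨hq, h⟩)
    have h3 : blk Z e J r z φ S q = 0 := by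
      rw [blk]
      have h4 : ∀ k : ℤ, k ∉ {k : ℤ | PP ^ k * ((fibQ (q, 0) : Gam) : SL(2, ℤ)) ∈ S} := by
        intro k hk
        have h5 : 1 < NQ (PP ^ k * ((fibQ (q, 0) : Gam) : SL(2, ℤ))) z := hk.2.1
        rw [NQ_fib] at h5
        exact h2 h5
      have h6 : ∀ k : ℤ, Set.indicator {k : ℤ | PP ^ k * ((fibQ (q, 0) : Gam) : SL(2, ℤ)) ∈ S}
          (fun k => chi (PP ^ k * ((fibQ (q, 0) : Gam) : SL(2, ℤ))) *
          (atg (wQ Z e J) (PP ^ k * ((fibQ (q, 0) : Gam) : SL(2, ℤ))) z φ : ℂ) *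
          phh r ((PP ^ k * ((fibQ (q, 0) : Gam) : SL(2, ℤ))) • z)) k = 0 :=
        fun k => Set.indicator_of_notMem (h4 k) _
      simp only [h6, tsum_zero]
    rw [h3, norm_zero, zero_mul]
  rw [h1]
  have h2 : ∀ q ∈ Q1, ‖blk Z e J r z φ S q‖ * Real.sqrt (W z) ≤
      |C1| * ((Np z q.1.1 q.1.2) ^ (-(1 / 4) : ℝ) * min ((1 + r) ^ (1 / 4 : ℝ))
        ((Np z q.1.1 q.1.2) ^ (1 / 2 : ℝ) * Real.log (2 + r))) := by
    intro q hq
    obtain ⟨hq1, hq2⟩ := Finset.mem_filter.mp hq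
    set g := ((fibQ (q, 0) : Gam) : SL(2, ℤ)) with hg
    have hNQ : NQ g z = Np z q.1.1 q.1.2 := by
      have := NQ_fib q 0 z
      rwa [zpow_zero, one_mul] at this
    -- the excluded index
    obtain ⟨k0, hk0⟩ : ∃ k0 : ℤ, {k : ℤ | PP ^ k * g ∈ S} =
        {k | k ≠ k0 ∧ 1 < |(ww g z).re - k|} := by
      have hmem : ∀ k : ℤ, PP ^ k * g ∈ S ↔
          g 1 0 + k * q.1.1 ≠ 0 ∧ 1 < |(ww g z).re - k| := by
        intro k
        have e1 := entry q k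
        have e2 := ww_re_fib q k z
        have e3 := NQ_fib q k z
        rw [← hg] at e1 e2 e3
        change (PP ^ k * g) 1 0 ≠ 0 ∧ 1 < NQ (PP ^ k * g) z ∧ 1 < |(ww (PP ^ k * g) z).re| ↔ _
        rw [e1, e2, e3]
        exact ⟨fun h => ⟨h.1, h.2.2⟩, fun h => ⟨h.1, hq2, h.2⟩⟩
      by_cases hex : ∃ k1 : ℤ, g 1 0 + k1 * q.1.1 = 0
      · obtain ⟨k1, hk1⟩ := hex
        refine ⟨k1, ?_⟩
        ext k
        rw [Set.mem_ofPred_eq, hmem, Set.mem_ofPred_eq]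
        have h3 : g 1 0 + k * q.1.1 ≠ 0 ↔ k ≠ k1 := by
          rw [not_iff_not]
          constructor
          · intro h4
            have h5 : (k - k1) * q.1.1 = 0 := by linarith
            exact sub_eq_zero.mp ((mul_eq_zero.mp h5).resolve_right (q_ne_zero q))
          · rintro rfl
            exact hk1
        rw [h3]
      · refine ⟨⌊(ww g z).re⌋, ?_⟩
        ext k
        rw [Set.mem_ofPred_eq, hmem, Set.mem_ofPred_eq]
        constructor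
        · rintro ⟨h3, h4⟩
          refine ⟨?_, h4⟩
          rintro rfl
          have h5 := Int.floor_le (ww g z).re
          have h6 := Int.lt_floor_add_one (ww g z).re
          rw [abs_of_nonneg (by linarith)] at h4
          linarith
        · rintro ⟨h3, h4⟩
          exact ⟨fun h5 => hex ⟨k, h5⟩, h4⟩
    have h3 := hC1 r hr J hJ z φ g (fibQ (q, 0)).2 k0
    rw [blk, ← hg, hk0]
    refine h3.trans ?_
    rw [hNQ, mul_assoc]
    exact mul_le_mul_of_nonneg_right (le_abs_self C1) (hmin _ (hNp _ _))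
  refine (Finset.sum_le_sum h2).trans ?_
  rw [← Finset.mul_sum, mul_assoc]
  apply mul_le_mul_of_nonneg_left _ (abs_nonneg _)
  have hinj : Set.InjOn (fun q : RowQ => q.1) (Q1 : Set RowQ) := Subtype.val_injective.injOn
  have h3 := hC2 r hr z φ (Q1.image fun q : RowQ => q.1) (by
    intro p hp
    obtain ⟨q, hq, rfl⟩ := Finset.mem_image.mp hp
    obtain ⟨hq1, hq2⟩ := Finset.mem_filter.mp hq
    refine ⟨q.2.1, hq2, ?_⟩
    exact rows hZ hJ ((QS_finite hZ e hJ z φ).mem_toFinset.mp hq1))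
  rw [Finset.sum_image hinj] at h3
  exact h3

/-- blocks with `NQ ≤ 1` -/
theorem sup_Qsmall {Z : ℝ → ℝ} (hZ : IsKer Z) (e : Bool) : ∃ C : ℝ, ∀ r : ℝ, 0 ≤ r →
    ∀ J : ℝ, 1 ≤ J → ∀ z ∈ DD, ∀ φ : ℝ,
    ‖VS (wQ Z e J) r {g | g 1 0 ≠ 0 ∧ NQ g z ≤ 1} z φ‖ * Real.sqrt (W z) ≤
      C * Real.log (2 + r) := by
  classical
  obtain ⟨C1, hC1⟩ := block_Qb hZ e
  obtain ⟨C2, hC2⟩ := card_small
  refine ⟨C2 * |C1|, fun r hr J hJ z hz φ => ?_⟩
  set S : Set SL(2, ℤ) := {g | g 1 0 ≠ 0 ∧ NQ g z ≤ 1} with hS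
  refine (norm_VS_le hZ e hJ r z φ S).trans ?_
  set Q1 : Finset RowQ := (QS_finite hZ e hJ z φ).toFinset.filter
    fun q : RowQ => Np z q.1.1 q.1.2 ≤ 1 with hQ1
  have hlog : 0 ≤ Real.log (2 + r) := Real.log_nonneg (by linarith)
  have hNp : ∀ c d : ℝ, 0 ≤ Np z c d := by
    intro c d
    rw [Np]
    exact div_nonneg (sq_nonneg _) z.im_pos.le
  have h1 : ∑ q ∈ (QS_finite hZ e hJ z φ).toFinset, ‖blk Z e J r z φ S q‖ * Real.sqrt (W z) =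
      ∑ q ∈ Q1, ‖blk Z e J r z φ S q‖ * Real.sqrt (W z) := by
    symm
    apply Finset.sum_subset (Finset.filter_subset _ _)
    intro q hq hq1
    have h2 : ¬ Np z q.1.1 q.1.2 ≤ 1 := fun h => hq1 (Finset.mem_filter.mpr ⟨hq, h⟩)
    have h3 : blk Z e J r z φ S q = 0 := by
      rw [blk]
      have h4 : ∀ k : ℤ, k ∉ {k : ℤ | PP ^ k * ((fibQ (q, 0) : Gam) : SL(2, ℤ)) ∈ S} := by
        intro k hk
        have h5 : NQ (PP ^ k * ((fibQ (q, 0) : Gam) : SL(2, ℤ))) z ≤ 1 := hk.2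
        rw [NQ_fib] at h5
        exact h2 h5
      have h6 : ∀ k : ℤ, Set.indicator {k : ℤ | PP ^ k * ((fibQ (q, 0) : Gam) : SL(2, ℤ)) ∈ S}
          (fun k => chi (PP ^ k * ((fibQ (q, 0) : Gam) : SL(2, ℤ))) *
          (atg (wQ Z e J) (PP ^ k * ((fibQ (q, 0) : Gam) : SL(2, ℤ))) z φ : ℂ) *
          phh r ((PP ^ k * ((fibQ (q, 0) : Gam) : SL(2, ℤ))) • z)) k = 0 :=
        fun k => Set.indicator_of_notMem (h4 k) _
      simp only [h6, tsum_zero]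
    rw [h3, norm_zero, zero_mul]
  rw [h1]
  have h2 : ∀ q ∈ Q1, ‖blk Z e J r z φ S q‖ * Real.sqrt (W z) ≤ |C1| * Real.log (2 + r) := by
    intro q hq
    obtain ⟨hq1, hq2⟩ := Finset.mem_filter.mp hq
    set g := ((fibQ (q, 0) : Gam) : SL(2, ℤ)) with hg
    have hNQ : NQ g z = Np z q.1.1 q.1.2 := by
      have := NQ_fib q 0 z
      rwa [zpow_zero, one_mul] at this
    set F : ℤ → ℂ := fun k => chi (PP ^ k * g) *
      (atg (wQ Z e J) (PP ^ k * g) z φ : ℂ) * phh r ((PP ^ k * g) • z) with hF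
    obtain ⟨k0, hk0⟩ : ∃ k0 : ℤ, ∀ k : ℤ, Set.indicator {k : ℤ | PP ^ k * g ∈ S} F k =
        Set.indicator ({k0}ᶜ : Set ℤ) F k := by
      have hmem : ∀ k : ℤ, PP ^ k * g ∈ S ↔ g 1 0 + k * q.1.1 ≠ 0 := by
        intro k
        have e1 := entry q k
        have e3 := NQ_fib q k z
        rw [← hg] at e1 e3
        change (PP ^ k * g) 1 0 ≠ 0 ∧ NQ (PP ^ k * g) z ≤ 1 ↔ _
        rw [e1, e3]
        exact ⟨fun h => h.1, fun h => ⟨h, hq2⟩⟩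
      by_cases hex : ∃ k1 : ℤ, g 1 0 + k1 * q.1.1 = 0
      · obtain ⟨k1, hk1⟩ := hex
        refine ⟨k1, fun k => ?_⟩
        have h3 : {k : ℤ | PP ^ k * g ∈ S} = ({k1}ᶜ : Set ℤ) := by
          ext k
          rw [Set.mem_ofPred_eq, hmem, Set.mem_compl_singleton_iff, not_iff_not]
          constructor
          · intro h4
            have h5 : (k - k1) * q.1.1 = 0 := by linarith
            exact sub_eq_zero.mp ((mul_eq_zero.mp h5).resolve_right (q_ne_zero q))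
          · rintro rfl
            exact hk1
        rw [h3]
      · -- an index outside the support
        have hfin : (Function.support F).Finite := by
          have h3 : Function.support F ⊆ (fun k : ℤ => (fibQ (q, k) : Gam)) ⁻¹'
              {g : Gam | atg (wQ Z e J) (g : SL(2, ℤ)) z φ ≠ 0} := by
            intro k hk
            rw [Function.mem_support] at hk
            change atg (wQ Z e J) (fibQ (q, k) : SL(2, ℤ)) z φ ≠ 0
            rw [(fibQ_spec q k).2.2]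
            intro h4
            apply hk
            simp only [hF]
            rw [h4]
            simp
          refine ((supp_finite hZ hJ z φ).preimage ?_).subset h3
          intro k _ k' _ he
          have := fibQ.injective he
          exact (Prod.ext_iff.mp this).2
        obtain ⟨k0, hk0⟩ := hfin.exists_notMem
        rw [Function.notMem_support] at hk0
        refine ⟨k0, fun k => ?_⟩
        have h4 : k ∈ {k : ℤ | PP ^ k * g ∈ S} := by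
          rw [Set.mem_ofPred_eq, hmem]
          exact fun h5 => hex ⟨k, h5⟩
        rw [Set.indicator_of_mem h4]
        by_cases h5 : k = k0
        · rw [h5, hk0, Set.indicator_of_notMem]
          simp
        · rw [Set.indicator_of_mem]
          exact h5
    have h3 := hC1 r hr J hJ z φ g (fibQ (q, 0)).2 k0
    have h4 : blk Z e J r z φ S q = ∑' k : ℤ, Set.indicator ({k0}ᶜ : Set ℤ) F k :=
      tsum_congr hk0
    rw [h4]
    refine h3.trans ?_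
    rw [hNQ]
    have h5 : (Np z q.1.1 q.1.2) ^ (1 / 4 : ℝ) ≤ 1 :=
      Real.rpow_le_one (hNp _ _) hq2 (by norm_num)
    have h6 : 0 ≤ (Np z q.1.1 q.1.2) ^ (1 / 4 : ℝ) := Real.rpow_nonneg (hNp _ _) _
    calc C1 * (Np z q.1.1 q.1.2) ^ (1 / 4 : ℝ) * Real.log (2 + r)
        ≤ |C1| * (Np z q.1.1 q.1.2) ^ (1 / 4 : ℝ) * Real.log (2 + r) := by
          gcongr
          exact le_abs_self C1
      _ ≤ |C1| * 1 * Real.log (2 + r) := by gcongr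
      _ = _ := by rw [mul_one]
  refine (Finset.sum_le_sum h2).trans ?_
  rw [Finset.sum_const, nsmul_eq_mul, mul_assoc]
  apply mul_le_mul_of_nonneg_right _ (mul_nonneg (abs_nonneg _) hlog)
  have hinj : Set.InjOn (fun q : RowQ => q.1) (Q1 : Set RowQ) := Subtype.val_injective.injOn
  have h3 := hC2 z (Q1.image fun q : RowQ => q.1) (by
    intro p hp
    obtain ⟨q, hq, rfl⟩ := Finset.mem_image.mp hp
    obtain ⟨hq1, hq2⟩ := Finset.mem_filter.mp hq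
    exact ⟨q.2.1, hq2⟩)
  rw [Finset.card_image_of_injOn hinj] at h3
  exact h3

end RV11
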