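import Pool.Agent.LibRV11.U13a
import Pool.Agent.LibRV11.U13b
import Pool.Agent.LibRV11.U13c
open Complex Real MeasureTheory
open UpperHalfPlane hiding I
open scoped MatrixGroups

namespace RV11

/-! ### U13d -/

theorem U13d_summable {w : ℝ → ℝ → ℝ → ℝ → ℝ} {z : ℍ} {φ K : ℝ}
    (hK : ∀ g, atg w g z φ ≠ 0 → NP g z * NQ g z ≤ K) (r : ℝ) (S : Set SL(2, ℤ)) :
    Summable (fun g : Gam => S.indicator (fun g : SL(2, ℤ) => chi g * (atg w g z φ : ℂ) *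
      phh r (g • z)) g) := by
  refine summable_of_hasFiniteSupport ?_
  refine Set.Finite.subset (Set.Finite.preimage (f := fun g : Gam => (g : SL(2, ℤ)))
    Subtype.val_injective.injOn (finite_NPNQ z K)) ?_
  intro g hg
  rw [Function.mem_support] at hg
  have h1 : atg w (g : SL(2, ℤ)) z φ ≠ 0 := by
    intro h0
    apply hg
    by_cases hS : (g : SL(2, ℤ)) ∈ S
    · rw [Set.indicator_of_mem hS, h0]
      simp
    · rw [Set.indicator_of_notMem hS]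
  exact hK g h1

/-- additivity in the weight -/
theorem U13d_add {w1 w2 w3 : ℝ → ℝ → ℝ → ℝ → ℝ} {z : ℍ} {φ K : ℝ}
    (h3 : ∀ g, atg w3 g z φ = atg w1 g z φ + atg w2 g z φ)
    (hK1 : ∀ g, atg w1 g z φ ≠ 0 → NP g z * NQ g z ≤ K)
    (hK2 : ∀ g, atg w2 g z φ ≠ 0 → NP g z * NQ g z ≤ K) (r : ℝ) (S : Set SL(2, ℤ)) :
    VS w3 r S z φ = VS w1 r S z φ + VS w2 r S z φ := by
  unfold VS
  rw [← mul_add, ← (U13d_summable hK1 r S).tsum_add (U13d_summable hK2 r S)]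
  congr 1
  refine tsum_congr fun g => ?_
  by_cases hS : (g : SL(2, ℤ)) ∈ S
  · rw [Set.indicator_of_mem hS, Set.indicator_of_mem hS, Set.indicator_of_mem hS, h3]
    push_cast
    ring
  · rw [Set.indicator_of_notMem hS, Set.indicator_of_notMem hS, Set.indicator_of_notMem hS,
      add_zero]

/-- additivity in the set -/
theorem U13d_union {w : ℝ → ℝ → ℝ → ℝ → ℝ} {z : ℍ} {φ K : ℝ}
    (hK : ∀ g, atg w g z φ ≠ 0 → NP g z * NQ g z ≤ K) (r : ℝ) {S S1 S2 : Set SL(2, ℤ)}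
    (hS : S = S1 ∪ S2) (hd : Disjoint S1 S2) :
    VS w r S z φ = VS w r S1 z φ + VS w r S2 z φ := by
  unfold VS
  rw [← mul_add, ← (U13d_summable hK r S1).tsum_add (U13d_summable hK r S2)]
  congr 1
  refine tsum_congr fun g => ?_
  rw [hS, Set.indicator_union_of_disjoint hd]

theorem U13d_wP_ne {Z : ℝ → ℝ} (hZ : IsKer Z) {e : Bool} {J : ℝ} (hJ : 1 ≤ J) (g : SL(2, ℤ))
    (z : ℍ) (φ : ℝ) (h : atg (wP Z e J) g z φ ≠ 0) : NP g z * NQ g z ≤ J ^ 2 + 1 := by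
  refine NPNQ_le hZ hJ g z φ (e := e) ?_
  intro h0
  apply h
  unfold atg wP
  unfold atg at h0
  rw [h0, zero_mul]

theorem U13d_wQ_ne {Z : ℝ → ℝ} (hZ : IsKer Z) {e : Bool} {J : ℝ} (hJ : 1 ≤ J) (g : SL(2, ℤ))
    (z : ℍ) (φ : ℝ) (h : atg (wQ Z e J) g z φ ≠ 0) : NP g z * NQ g z ≤ J ^ 2 + 1 := by
  refine NPNQ_le hZ hJ g z φ (e := e) ?_
  intro h0
  apply h
  unfold atg wQ
  unfold atg at h0
  rw [h0, zero_mul]

/-- splitting of the weight -/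
theorem U13d_split {Z : ℝ → ℝ} (hZ : IsKer Z) (e : Bool) {J : ℝ} (hJ : 1 ≤ J) (r : ℝ)
    (S : Set SL(2, ℤ)) (z : ℍ) (φ : ℝ) :
    VS (wR Z e J) r S z φ = VS (wP Z e J) r S z φ + VS (wQ Z e J) r S z φ := by
  refine U13d_add (K := J ^ 2 + 1) ?_ (fun g => U13d_wP_ne hZ hJ g z φ)
    (fun g => U13d_wQ_ne hZ hJ g z φ) r S
  intro g
  unfold atg wP wQ
  ring

theorem U13d_real {r : ℝ} (hr : 0 ≤ r) :
    1 / 2 ≤ (1 + r) ^ (1 / 8 : ℝ) * Real.log (2 + r) ∧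
      Real.log (2 + r) ≤ (1 + r) ^ (1 / 8 : ℝ) * Real.log (2 + r) := by
  have h1 : 1 ≤ (1 + r) ^ (1 / 8 : ℝ) := Real.one_le_rpow (by linarith) (by norm_num)
  have h2 : 1 / 2 ≤ Real.log (2 + r) := by
    have h3 : Real.log 2 ≤ Real.log (2 + r) := Real.log_le_log (by norm_num) (by linarith)
    have h4 := Real.log_two_gt_d9
    linarith
  constructor
  · nlinarith
  · nlinarith

theorem sup_beta {Z : ℝ → ℝ} (hZ : IsKer Z) (e : Bool) : ∃ C : ℝ, ∀ r : ℝ, 0 ≤ r →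
    ∀ J : ℝ, 1 ≤ J → ∀ z ∈ DD, ∀ φ : ℝ,
    ‖VS (wR Z e J) r {g | g 1 0 ≠ 0} z φ‖ * Real.sqrt (W z) ≤
      C * ((1 + r) ^ (1 / 8 : ℝ) * Real.log (2 + r)) := by
  obtain ⟨C1, h1⟩ := sup_P hZ e
  obtain ⟨C2, h2⟩ := sup_Qnear hZ e
  obtain ⟨C3, h3⟩ := sup_Qfar hZ e
  obtain ⟨C4, h4⟩ := sup_Qsmall hZ e
  refine ⟨2 * |C1| + 2 * |C2| + C3 + |C4|, fun r hr J hJ z hz φ => ?_⟩
  have e1 := U13d_split hZ e hJ r {g | g 1 0 ≠ 0} z φ
  have hQ := fun g => U13d_wQ_ne hZ (e := e) hJ g z φ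
  have e2 : VS (wQ Z e J) r {g | g 1 0 ≠ 0} z φ =
      VS (wQ Z e J) r {g | g 1 0 ≠ 0 ∧ 1 < NQ g z} z φ +
        VS (wQ Z e J) r {g | g 1 0 ≠ 0 ∧ NQ g z ≤ 1} z φ := by
    refine U13d_union hQ r ?_ ?_
    · ext g
      simp only [Set.mem_ofPred_eq, Set.mem_union]
      constructor
      · intro h
        rcases lt_or_ge 1 (NQ g z) with h' | h'
        · exact Or.inl ⟨h, h'⟩
        · exact Or.inr ⟨h, h'⟩
      · rintro (h | h)
        · exact h.1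
        · exact h.1
    · rw [Set.disjoint_left]
      rintro g ⟨_, h⟩ ⟨_, h'⟩
      exact absurd h (not_lt.mpr h')
  have e3 : VS (wQ Z e J) r {g | g 1 0 ≠ 0 ∧ 1 < NQ g z} z φ =
      VS (wQ Z e J) r {g | g 1 0 ≠ 0 ∧ 1 < NQ g z ∧ |(ww g z).re| ≤ 1} z φ +
        VS (wQ Z e J) r {g | g 1 0 ≠ 0 ∧ 1 < NQ g z ∧ 1 < |(ww g z).re|} z φ := by
    refine U13d_union hQ r ?_ ?_
    · ext g
      simp only [Set.mem_ofPred_eq, Set.mem_union]
      constructor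
      · intro h
        rcases lt_or_ge 1 |(ww g z).re| with h' | h'
        · exact Or.inr ⟨h.1, h.2, h'⟩
        · exact Or.inl ⟨h.1, h.2, h'⟩
      · rintro (h | h)
        · exact ⟨h.1, h.2.1⟩
        · exact ⟨h.1, h.2.1⟩
    · rw [Set.disjoint_left]
      rintro g ⟨_, _, h⟩ ⟨_, _, h'⟩
      exact absurd h (not_le.mpr h')
  have f1 := h1 r hr J hJ z hz φ
  have f2 := h2 r hr J hJ z hz φ
  have f3 := h3 r hr J hJ z hz φ
  have f4 := h4 r hr J hJ z hz φ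
  obtain ⟨r1, r2⟩ := U13d_real hr
  set X : ℝ := (1 + r) ^ (1 / 8 : ℝ) * Real.log (2 + r) with hX
  have hs := Real.sqrt_nonneg (W z)
  rw [e1, e2, e3]
  set a := VS (wP Z e J) r {g | g 1 0 ≠ 0} z φ
  set b := VS (wQ Z e J) r {g | g 1 0 ≠ 0 ∧ 1 < NQ g z ∧ |(ww g z).re| ≤ 1} z φ
  set c := VS (wQ Z e J) r {g | g 1 0 ≠ 0 ∧ 1 < NQ g z ∧ 1 < |(ww g z).re|} z φ
  set d := VS (wQ Z e J) r {g | g 1 0 ≠ 0 ∧ NQ g z ≤ 1} z φ
  have hn : ‖a + (b + c + d)‖ ≤ ‖a‖ + (‖b‖ + ‖c‖ + ‖d‖) :=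
    (norm_add_le _ _).trans (add_le_add le_rfl ((norm_add_le _ _).trans
      (add_le_add (norm_add_le _ _) le_rfl)))
  have hmul := mul_le_mul_of_nonneg_right hn hs
  have g1 : C1 ≤ 2 * |C1| * X := by
    have := le_abs_self C1
    have := abs_nonneg C1
    nlinarith
  have g2 : C2 ≤ 2 * |C2| * X := by
    have := le_abs_self C2
    have := abs_nonneg C2
    nlinarith
  have hlog : 0 ≤ Real.log (2 + r) := Real.log_nonneg (by linarith)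
  have g4 : C4 * Real.log (2 + r) ≤ |C4| * X :=
    (mul_le_mul_of_nonneg_right (le_abs_self C4) hlog).trans
      (mul_le_mul_of_nonneg_left r2 (abs_nonneg C4))
  nlinarith

end RV11
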