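import Pool.Agent.LibRV11.U0
open Complex Real MeasureTheory
open UpperHalfPlane hiding I
open scoped MatrixGroups

namespace RV11

/-! ### U05: summation by parts over `ℤ` -/

/-- total variation of a finitely supported sequence -/
noncomputable def tv (w : ℤ → ℝ) : ℝ := ∑' k : ℤ, |w (k + 1) - w k|

theorem finite_shift (w : ℤ → ℝ) (hw : w.support.Finite) :
    (Function.support fun k : ℤ => w (k + 1)).Finite := by
  have h : (Function.support fun k : ℤ => w (k + 1)) = (Equiv.addRight (1 : ℤ)) ⁻¹' w.support := by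
    ext k; simp
  rw [h]
  exact hw.preimage (Equiv.addRight (1 : ℤ)).injective.injOn

theorem summable_tv (w : ℤ → ℝ) (hw : w.support.Finite) :
    Summable fun k : ℤ => |w (k + 1) - w k| := by
  apply summable_of_hasFiniteSupport
  refine ((finite_shift w hw).union hw).subset ?_
  intro k hk
  by_contra hcon
  simp only [Set.mem_union, Function.mem_support, not_or, not_not] at hcon
  apply hk
  simp [hcon.1, hcon.2]

theorem abel_om (r : ℝ) (w : ℤ → ℝ) (hw : w.support.Finite) :
    ‖om r * ∑' k : ℤ, (w k : ℂ) * cexp (2 * π * I * r * k)‖ ≤ tv w := by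
  have hf1 : (Function.support fun k : ℤ => (w k : ℂ) * cexp (2 * π * I * r * k)).Finite := by
    refine hw.subset ?_
    intro k hk h0
    apply hk
    simp only at h0 ⊢
    rw [h0]; simp
  have hf2 : (Function.support fun k : ℤ => (w k : ℂ) * cexp (2 * π * I * r * (k + 1))).Finite := by
    refine hw.subset ?_
    intro k hk h0
    apply hk
    simp only at h0 ⊢
    rw [h0]; simp
  have hs1 : Summable fun k : ℤ => (w k : ℂ) * cexp (2 * π * I * r * k) :=
    summable_of_hasFiniteSupport hf1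
  have hs2 : Summable fun k : ℤ => (w k : ℂ) * cexp (2 * π * I * r * (k + 1)) :=
    summable_of_hasFiniteSupport hf2
  have e1 : om r * ∑' k : ℤ, (w k : ℂ) * cexp (2 * π * I * r * k)
      = ∑' k : ℤ, ((w (k + 1) - w k : ℝ) : ℂ) * cexp (2 * π * I * r * (k + 1)) := by
    have e2 : ∑' k : ℤ, (w k : ℂ) * cexp (2 * π * I * r * k)
        = ∑' k : ℤ, (w (k + 1) : ℂ) * cexp (2 * π * I * r * (k + 1)) := by
      rw [← (Equiv.addRight (1 : ℤ)).tsum_eq]
      apply tsum_congr
      intro k
      simp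
    have hs3 : Summable fun k : ℤ => (w (k + 1) : ℂ) * cexp (2 * π * I * r * (k + 1)) := by
      have := (Equiv.addRight (1 : ℤ)).summable_iff.mpr hs1
      convert this using 2 with k
      simp
    unfold om
    have e4 : cexp (2 * π * I * r) * ∑' k : ℤ, (w k : ℂ) * cexp (2 * π * I * r * k)
        = ∑' k : ℤ, cexp (2 * π * I * r) * ((w k : ℂ) * cexp (2 * π * I * r * k)) :=
      (hs1.tsum_mul_left _).symm
    rw [sub_mul, one_mul, e4]
    have e3 : ∀ k : ℤ, cexp (2 * π * I * r) * ((w k : ℂ) * cexp (2 * π * I * r * k))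
        = (w k : ℂ) * cexp (2 * π * I * r * (k + 1)) := by
      intro k
      rw [mul_add, Complex.exp_add, mul_one]
      ring
    rw [tsum_congr e3, e2, ← hs3.tsum_sub hs2]
    apply tsum_congr
    intro k
    push_cast
    ring
  rw [e1]
  unfold tv
  have hterm : ∀ k : ℤ, ‖((w (k + 1) - w k : ℝ) : ℂ) * cexp (2 * π * I * r * (k + 1))‖
      = |w (k + 1) - w k| := by
    intro k
    have : (2 * π * I * r * (k + 1) : ℂ) = ((2 * π * r * (k + 1) : ℝ) : ℂ) * I := by
      push_cast; ring
    rw [norm_mul, this, Complex.norm_exp_ofReal_mul_I, mul_one, Complex.norm_real, Real.norm_eq_abs]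
  have hs := summable_tv w hw
  calc ‖∑' k : ℤ, ((w (k + 1) - w k : ℝ) : ℂ) * cexp (2 * π * I * r * (k + 1))‖
      ≤ ∑' k : ℤ, ‖((w (k + 1) - w k : ℝ) : ℂ) * cexp (2 * π * I * r * (k + 1))‖ := by
        apply norm_tsum_le_tsum_norm
        simp_rw [hterm]
        exact hs
    _ = ∑' k : ℤ, |w (k + 1) - w k| := tsum_congr hterm

theorem abel_partial (a : ℤ → ℂ) (w : ℤ → ℝ) (K1 K2 : ℤ) (hw : ∀ k, w k ≠ 0 → K1 ≤ k ∧ k ≤ K2)
    (B : ℝ) (hB : ∀ M, K1 ≤ M → M ≤ K2 → ‖∑ k ∈ Finset.Icc K1 M, a k‖ ≤ B) :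
    ‖∑' k : ℤ, (w k : ℂ) * a k‖ ≤ B * tv w := by
  have hwf : w.support.Finite := (Set.finite_Icc K1 K2).subset (fun k hk => hw k hk)
  rcases lt_or_ge K2 K1 with hK | hK
  · have hw0 : ∀ k, w k = 0 := by
      intro k
      by_contra h
      have := hw k h
      omega
    have : tv w = 0 := by simp [tv, hw0]
    simp [hw0, this]
  have hB0 : 0 ≤ B := (norm_nonneg _).trans (hB K1 le_rfl hK)
  set A : ℤ → ℂ := fun M => ∑ k ∈ Finset.Icc K1 M, a k with hA
  have hAlt : ∀ M, M < K1 → A M = 0 := by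
    intro M hM
    simp [hA, Finset.Icc_eq_empty (by omega : ¬ K1 ≤ M)]
  have hAstep : ∀ M, K1 ≤ M + 1 → A (M + 1) = A M + a (M + 1) := by
    intro M hM
    simp only [hA]
    have : Finset.Icc K1 (M + 1) = insert (M + 1) (Finset.Icc K1 M) := by
      ext x; simp only [Finset.mem_Icc, Finset.mem_insert]; omega
    rw [this, Finset.sum_insert (by simp), add_comm]
  have hwa : ∀ k, (w (k + 1) : ℂ) * a (k + 1) = (w (k + 1) : ℂ) * A (k + 1) - (w (k + 1) : ℂ) * A k := by
    intro k
    by_cases h : w (k + 1) = 0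
    · simp [h]
    · rw [hAstep k (hw _ h).1]; ring
  have hfin : ∀ f : ℤ → ℂ, (Function.support fun k : ℤ => (w k : ℂ) * f k).Finite := by
    intro f
    refine hwf.subset ?_
    intro k hk h0
    apply hk
    simp only at h0 ⊢
    rw [h0]; simp
  have hfin' : ∀ f : ℤ → ℂ, (Function.support fun k : ℤ => (w (k + 1) : ℂ) * f k).Finite := by
    intro f
    refine (finite_shift w hwf).subset ?_
    intro k hk h0
    apply hk
    simp only at h0 ⊢
    rw [h0]; simp
  have e2 : ∀ f : ℤ → ℂ, ∑' k : ℤ, (w k : ℂ) * f k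
        = ∑' k : ℤ, (w (k + 1) : ℂ) * f (k + 1) := by
    intro f
    rw [← (Equiv.addRight (1 : ℤ)).tsum_eq]
    apply tsum_congr
    intro k
    simp
  have e1 : ∑' k : ℤ, (w k : ℂ) * a k = ∑' k : ℤ, (-((w (k + 1) - w k : ℝ) : ℂ)) * A k := by
    rw [e2 a, tsum_congr hwa,
      (summable_of_hasFiniteSupport (hfin' fun k => A (k + 1))).tsum_sub
        (summable_of_hasFiniteSupport (hfin' A)), ← e2 A,
      ← (summable_of_hasFiniteSupport (hfin A)).tsum_sub
        (summable_of_hasFiniteSupport (hfin' A))]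
    apply tsum_congr
    intro k
    push_cast
    ring
  rw [e1]
  have hterm : ∀ k : ℤ, ‖(-((w (k + 1) - w k : ℝ) : ℂ)) * A k‖ ≤ B * |w (k + 1) - w k| := by
    intro k
    rw [norm_mul, norm_neg, Complex.norm_real, Real.norm_eq_abs, mul_comm B]
    rcases lt_or_ge k K1 with h1 | h1
    · rw [hAlt k h1]; simp; positivity
    rcases le_or_gt k K2 with h2 | h2
    · exact mul_le_mul_of_nonneg_left (hB k h1 h2) (abs_nonneg _)
    · have hk0 : w k = 0 := by
        by_contra h
        have := (hw k h).2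
        omega
      have hk1 : w (k + 1) = 0 := by
        by_contra h
        have := (hw (k + 1) h).2
        omega
      simp [hk0, hk1]
  have hs := (summable_tv w hwf).mul_left B
  have hsn : Summable fun k : ℤ => ‖(-((w (k + 1) - w k : ℝ) : ℂ)) * A k‖ :=
    Summable.of_nonneg_of_le (fun _ => norm_nonneg _) hterm hs
  unfold tv
  rw [← tsum_mul_left]
  exact (norm_tsum_le_tsum_norm hsn).trans (hsn.tsum_le_tsum hterm hs)

theorem tv_nonneg (w : ℤ → ℝ) : 0 ≤ tv w := tsum_nonneg fun _ => abs_nonneg _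

/-- sup bound by the variation -/
theorem abs_le_tv (w : ℤ → ℝ) (hw : w.support.Finite) (k : ℤ) : |w k| ≤ tv w := by
  obtain ⟨N, hN⟩ : ∃ N : ℕ, w (k + N) = 0 := by
    obtain ⟨M, hM⟩ := hw.bddAbove
    refine ⟨(M + 1 - k).toNat, ?_⟩
    by_contra h
    have h1 := hM h
    have h2 := Int.self_le_toNat (M + 1 - k)
    omega
  have h1 := Finset.sum_range_sub (fun i : ℕ => w (k + i)) N
  simp only [hN, Nat.cast_zero, add_zero, zero_sub] at h1
  have h2 : |w k| ≤ ∑ i ∈ Finset.range N, |w (k + (i + 1 : ℕ)) - w (k + i)| := by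
    rw [← abs_neg, ← h1]
    exact Finset.abs_sum_le_sum_abs _ _
  refine h2.trans ?_
  have h3 : ∑ i ∈ Finset.range N, |w (k + (i + 1 : ℕ)) - w (k + i)|
      = ∑ j ∈ (Finset.range N).map ⟨fun i : ℕ => k + (i : ℤ), fun a b h => by
        simpa using h⟩, |w (j + 1) - w j| := by
    rw [Finset.sum_map]
    apply Finset.sum_congr rfl
    intro i _
    show |w (k + (i + 1 : ℕ)) - w (k + i)| = |w (k + i + 1) - w (k + i)|
    rw [Nat.cast_add, Nat.cast_one, add_assoc]
  rw [h3]
  exact (summable_tv w hw).sum_le_tsum _ (fun _ _ => abs_nonneg _)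

theorem tv_le_add_two (f w : ℤ → ℝ) (hw : w.support.Finite) (k1 k2 : ℤ)
    (M : ℝ) (h : ∀ k, |f (k + 1) - f k| ≤ |w (k + 1) - w k| +
      ((if k = k1 then M else 0) + (if k = k2 then M else 0))) : tv f ≤ tv w + 2 * M := by
  have hs1 : Summable fun k : ℤ => (if k = k1 then M else 0 : ℝ) :=
    (hasSum_ite_eq k1 M).summable
  have hs2 : Summable fun k : ℤ => (if k = k2 then M else 0 : ℝ) :=
    (hasSum_ite_eq k2 M).summable
  have hs := (summable_tv w hw).add (hs1.add hs2)
  have hsf : Summable fun k : ℤ => |f (k + 1) - f k| :=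
    Summable.of_nonneg_of_le (fun _ => abs_nonneg _) h hs
  calc tv f ≤ ∑' k : ℤ, (|w (k + 1) - w k| +
      ((if k = k1 then M else 0) + (if k = k2 then M else 0))) := hsf.tsum_le_tsum h hs
    _ = tv w + (M + M) := by
        rw [(summable_tv w hw).tsum_add (hs1.add hs2), hs1.tsum_add hs2, tsum_ite_eq, tsum_ite_eq]
        rfl
    _ = tv w + 2 * M := by ring

/-- multiplication by the indicator of an interval of integers `{k | α < k ∧ k < β}` (possibly
infinite: `α, β` extended by conditions) costs a constant factor: here for an arbitrary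
order-connected set. -/
theorem tv_indicator (w : ℤ → ℝ) (hw : w.support.Finite) (S : Set ℤ) (hS : Set.OrdConnected S) :
    tv (Set.indicator S w) ≤ 3 * tv w := by
  classical
  obtain ⟨k1, hk1⟩ : ∃ k1 : ℤ, ∀ k, k ∉ S → k + 1 ∈ S → k = k1 := by
    by_cases h : ∃ k, k ∉ S ∧ k + 1 ∈ S
    · obtain ⟨k1, h1, h2⟩ := h
      refine ⟨k1, fun k h3 h4 => ?_⟩
      rcases lt_trichotomy k k1 with h | h | h
      · exact absurd (hS.out h4 h2 ⟨by omega, by omega⟩) h1
      · exact h
      · exact absurd (hS.out h2 h4 ⟨by omega, by omega⟩) h3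
    · push Not at h
      exact ⟨0, fun k h1 h2 => absurd h2 (h k h1)⟩
  obtain ⟨k2, hk2⟩ : ∃ k2 : ℤ, ∀ k, k ∈ S → k + 1 ∉ S → k = k2 := by
    by_cases h : ∃ k, k ∈ S ∧ k + 1 ∉ S
    · obtain ⟨k2, h1, h2⟩ := h
      refine ⟨k2, fun k h3 h4 => ?_⟩
      rcases lt_trichotomy k k2 with h | h | h
      · exact absurd (hS.out h3 h1 ⟨by omega, by omega⟩) h4
      · exact h
      · exact absurd (hS.out h1 h3 ⟨by omega, by omega⟩) h2
    · push Not at h
      exact ⟨0, fun k h1 h2 => absurd (h k h1) h2⟩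
  have := tv_le_add_two (Set.indicator S w) w hw k1 k2 (tv w) (fun k => by
    by_cases h1 : k ∈ S <;> by_cases h2 : k + 1 ∈ S
    · rw [Set.indicator_of_mem h1, Set.indicator_of_mem h2]
      have : 0 ≤ ((if k = k1 then tv w else 0 : ℝ) + (if k = k2 then tv w else 0)) := by
        have := tv_nonneg w
        split_ifs <;> positivity
      linarith
    · rw [Set.indicator_of_mem h1, Set.indicator_of_notMem h2, if_pos (hk2 k h1 h2)]
      have h3 : (0 : ℝ) ≤ (if k = k1 then tv w else 0 : ℝ) := by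
        have := tv_nonneg w
        split_ifs <;> positivity
      have h4 := abs_le_tv w hw k
      have h5 := abs_nonneg (w (k + 1) - w k)
      rw [zero_sub, abs_neg]
      linarith
    · rw [Set.indicator_of_notMem h1, Set.indicator_of_mem h2, if_pos (hk1 k h1 h2)]
      have h3 : (0 : ℝ) ≤ (if k = k2 then tv w else 0 : ℝ) := by
        have := tv_nonneg w
        split_ifs <;> positivity
      have h4 := abs_le_tv w hw (k + 1)
      have h5 := abs_nonneg (w (k + 1) - w k)
      rw [sub_zero]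
      linarith
    · rw [Set.indicator_of_notMem h1, Set.indicator_of_notMem h2]
      have h3 : (0 : ℝ) ≤ (if k = k1 then tv w else 0 : ℝ) + (if k = k2 then tv w else 0) := by
        have := tv_nonneg w
        split_ifs <;> positivity
      have h5 := abs_nonneg (w (k + 1) - w k)
      simp only [sub_self, abs_zero]
      linarith)
  linarith

/-- removing one point -/
theorem tv_remove (w : ℤ → ℝ) (hw : w.support.Finite) (k0 : ℤ) :
    tv (Set.indicator ({k0}ᶜ : Set ℤ) w) ≤ 3 * tv w := by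
  have := tv_le_add_two (Set.indicator ({k0}ᶜ : Set ℤ) w) w hw k0 (k0 - 1) (tv w)
    (fun k => by
    have h0 := tv_nonneg w
    have h5 := abs_nonneg (w (k + 1) - w k)
    by_cases h1 : k = k0
    · have e1 : Set.indicator ({k0}ᶜ : Set ℤ) w k = 0 := Set.indicator_of_notMem (by simp [h1]) _
      have e2 : Set.indicator ({k0}ᶜ : Set ℤ) w (k + 1) = w (k + 1) :=
        Set.indicator_of_mem (by
          simp only [Set.mem_compl_iff, Set.mem_singleton_iff]; omega) _
      rw [e1, e2, if_pos h1, if_neg (by omega), sub_zero]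
      have h4 := abs_le_tv w hw (k + 1)
      linarith
    · by_cases h2 : k = k0 - 1
      · have h3 : k + 1 = k0 := by omega
        have e1 : Set.indicator ({k0}ᶜ : Set ℤ) w k = w k := Set.indicator_of_mem (by simpa using h1) _
        have e2 : Set.indicator ({k0}ᶜ : Set ℤ) w (k + 1) = 0 :=
          Set.indicator_of_notMem (by simp [h3]) _
        rw [e1, e2, if_neg h1, if_pos h2, zero_sub, abs_neg]
        have h4 := abs_le_tv w hw k
        linarith
      · have e1 : Set.indicator ({k0}ᶜ : Set ℤ) w k = w k := Set.indicator_of_mem (by simpa using h1) _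
        have e2 : Set.indicator ({k0}ᶜ : Set ℤ) w (k + 1) = w (k + 1) := Set.indicator_of_mem (by
          simp only [Set.mem_compl_iff, Set.mem_singleton_iff]; omega) _
        rw [e1, e2, if_neg h1, if_neg h2]
        simp)
  linarith

end RV11
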