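import Pool.Agent.LibRV11.U01
import Pool.Agent.LibRV11.U05
open Complex Real MeasureTheory
open UpperHalfPlane hiding I
open scoped MatrixGroups

namespace RV11

/-! ### U06a -/

/-- variation on an integer interval -/
noncomputable def tvI (f : ℤ → ℝ) (K1 K2 : ℤ) : ℝ := ∑ k ∈ Finset.Ico K1 K2, |f (k + 1) - f k|

theorem tvI_nonneg (f : ℤ → ℝ) (K1 K2 : ℤ) : 0 ≤ tvI f K1 K2 :=
  Finset.sum_nonneg fun _ _ => abs_nonneg _

theorem tv_le_tvI (w : ℤ → ℝ) (K1 K2 : ℤ) (h12 : K1 ≤ K2) (hw : ∀ k, w k ≠ 0 → K1 ≤ k ∧ k ≤ K2) :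
    tv w ≤ |w K1| + |w K2| + tvI w K1 K2 := by
  have h0 : ∀ k, k < K1 → w k = 0 := fun k hk => by
    by_contra h; have := hw k h; omega
  have h1 : ∀ k, K2 < k → w k = 0 := fun k hk => by
    by_contra h; have := hw k h; omega
  unfold tv tvI
  rw [tsum_eq_sum (s := Finset.Ico (K1 - 1) (K2 + 1))]
  · have e1 : Finset.Ico (K1 - 1) (K2 + 1) = insert (K1 - 1) (insert K2 (Finset.Ico K1 K2)) := by
      ext k; simp only [Finset.mem_Ico, Finset.mem_insert]; omega
    rw [e1, Finset.sum_insert, Finset.sum_insert]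
    · have e2 : K1 - 1 + 1 = K1 := by ring
      rw [e2, h0 (K1 - 1) (by omega), h1 (K2 + 1) (by omega), sub_zero, zero_sub, abs_neg]
      linarith
    · simp
    · simp only [Finset.mem_insert, Finset.mem_Ico]; omega
  · intro k hk
    simp only [Finset.mem_Ico, not_and_or, not_le, not_lt] at hk
    rcases hk with hk | hk
    · rw [h0 k (by omega), h0 (k + 1) (by omega)]; simp
    · rw [h1 k (by omega), h1 (k + 1) (by omega)]; simp

/-- bounded with bounded variation on an integer interval -/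
structure BVI (f : ℤ → ℝ) (K1 K2 : ℤ) (M V : ℝ) : Prop where
  bd : ∀ k, K1 ≤ k → k ≤ K2 → |f k| ≤ M
  var : tvI f K1 K2 ≤ V

theorem BVI.mul {f g : ℤ → ℝ} {K1 K2 : ℤ} {M V M' V' : ℝ} (hM : 0 ≤ M) (hM' : 0 ≤ M')
    (hf : BVI f K1 K2 M V) (hg : BVI g K1 K2 M' V') :
    BVI (fun k => f k * g k) K1 K2 (M * M') (M * V' + M' * V) := by
  refine ⟨fun k h1 h2 => ?_, ?_⟩
  · rw [abs_mul]
    exact mul_le_mul (hf.bd k h1 h2) (hg.bd k h1 h2) (abs_nonneg _) hM
  · have h1 : tvI (fun k => f k * g k) K1 K2 ≤ M * tvI g K1 K2 + M' * tvI f K1 K2 := by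
      unfold tvI
      rw [Finset.mul_sum, Finset.mul_sum, ← Finset.sum_add_distrib]
      apply Finset.sum_le_sum
      intro k hk
      rw [Finset.mem_Ico] at hk
      have e : f (k + 1) * g (k + 1) - f k * g k =
        f (k + 1) * (g (k + 1) - g k) + g k * (f (k + 1) - f k) := by ring
      rw [e]
      refine (abs_add_le _ _).trans ?_
      rw [abs_mul, abs_mul]
      exact add_le_add
        (mul_le_mul_of_nonneg_right (hf.bd _ (by omega) (by omega)) (abs_nonneg _))
        (mul_le_mul_of_nonneg_right (hg.bd _ (by omega) (by omega)) (abs_nonneg _))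
    exact h1.trans (add_le_add (mul_le_mul_of_nonneg_left hg.var hM)
      (mul_le_mul_of_nonneg_left hf.var hM'))

theorem BVI.congr {f g : ℤ → ℝ} {K1 K2 : ℤ} {M V : ℝ} (hf : BVI f K1 K2 M V)
    (h : ∀ k, K1 ≤ k → k ≤ K2 → g k = f k) : BVI g K1 K2 M V := by
  refine ⟨fun k h1 h2 => by rw [h k h1 h2]; exact hf.bd k h1 h2, ?_⟩
  have : tvI g K1 K2 = tvI f K1 K2 := by
    unfold tvI
    apply Finset.sum_congr rfl
    intro k hk
    rw [Finset.mem_Ico] at hk
    rw [h k (by omega) (by omega), h (k + 1) (by omega) (by omega)]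
  rw [this]; exact hf.var

theorem BVI.mono {f : ℤ → ℝ} {K1 K2 : ℤ} {M V M' V' : ℝ} (hf : BVI f K1 K2 M V) (hM : M ≤ M')
    (hV : V ≤ V') : BVI f K1 K2 M' V' :=
  ⟨fun k h1 h2 => (hf.bd k h1 h2).trans hM, hf.var.trans hV⟩

/-- telescoping -/
theorem tele (f : ℤ → ℝ) (K1 : ℤ) (n : ℕ) :
    ∑ k ∈ Finset.Ico K1 (K1 + n), (f (k + 1) - f k) = f (K1 + n) - f K1 := by
  induction n with
  | zero => simp
  | succ n ih =>
    have e : Finset.Ico K1 (K1 + ((n + 1 : ℕ) : ℤ)) = insert (K1 + n) (Finset.Ico K1 (K1 + n)) := by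
      ext k; simp only [Finset.mem_Ico, Finset.mem_insert]; push_cast; omega
    rw [e, Finset.sum_insert (by simp), ih]
    push_cast
    rw [show K1 + (n : ℤ) + 1 = K1 + ((n : ℤ) + 1) by ring]
    ring

/-- unimodal sequences with values in `[0, 1]` -/
theorem tvI_unimodal (f : ℤ → ℝ) (K1 K2 : ℤ) (h01 : ∀ k, K1 ≤ k → k ≤ K2 → 0 ≤ f k ∧ f k ≤ 1)
    (huni : ∀ k i, K1 ≤ k → k ≤ i → i + 1 ≤ K2 → f (k + 1) < f k → f (i + 1) ≤ f i) :
    tvI f K1 K2 ≤ 2 := by
  by_cases h12 : K1 ≤ K2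
  swap
  · unfold tvI
    rw [Finset.Ico_eq_empty (by omega)]; norm_num
  obtain ⟨n, hn⟩ := Int.eq_ofNat_of_zero_le (by omega : 0 ≤ K2 - K1)
  have hK2 : K2 = K1 + n := by omega
  subst hK2
  clear hn h12
  have hstep : ∀ m : ℕ, tvI f K1 (K1 + ((m + 1 : ℕ) : ℤ)) =
      tvI f K1 (K1 + m) + |f (K1 + ((m + 1 : ℕ) : ℤ)) - f (K1 + m)| := by
    intro m
    unfold tvI
    have e : Finset.Ico K1 (K1 + ((m + 1 : ℕ) : ℤ)) = insert (K1 + m) (Finset.Ico K1 (K1 + m)) := by
      ext k; simp only [Finset.mem_Ico, Finset.mem_insert]; push_cast; omega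
    rw [e, Finset.sum_insert (by simp)]
    push_cast
    rw [show K1 + (m : ℤ) + 1 = K1 + ((m : ℤ) + 1) by ring]
    ring
  have key : ∀ m : ℕ, m ≤ n →
      tvI f K1 (K1 + m) = f (K1 + m) - f K1 ∨
      (tvI f K1 (K1 + m) ≤ 2 - f K1 - f (K1 + m) ∧ ∃ k, K1 ≤ k ∧ k < K1 + m ∧ f (k + 1) < f k) := by
    intro m
    induction m with
    | zero =>
      intro _
      left
      simp [tvI]
    | succ m ih =>
      intro hm
      have hb := h01 (K1 + m) (by omega) (by omega)
      have hb' := h01 (K1 + ((m + 1 : ℕ) : ℤ)) (by push_cast; omega) (by push_cast; omega)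
      rw [hstep m]
      rcases ih (by omega) with h | ⟨h, k, hk1, hk2, hk3⟩
      · by_cases hD : f (K1 + m) ≤ f (K1 + ((m + 1 : ℕ) : ℤ))
        · left
          rw [h, abs_of_nonneg (by linarith)]; ring
        · push Not at hD
          right
          refine ⟨?_, K1 + m, by omega, by push_cast; omega, ?_⟩
          · rw [h, abs_of_neg (by linarith)]; linarith
          · have e' : K1 + (m : ℤ) + 1 = K1 + ((m + 1 : ℕ) : ℤ) := by push_cast; ring
            rw [e']; exact hD
      · have hD := huni k (K1 + m) hk1 (by omega) (by omega) hk3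
        have e : K1 + (m : ℤ) + 1 = K1 + ((m + 1 : ℕ) : ℤ) := by push_cast; ring
        rw [e] at hD
        right
        refine ⟨?_, k, hk1, by push_cast; omega, hk3⟩
        rw [abs_of_nonpos (by linarith)]; linarith
  have hb1 := h01 K1 le_rfl (by omega)
  have hb2 := h01 (K1 + n) (by omega) le_rfl
  rcases key n le_rfl with h | ⟨h, -⟩
  · rw [h]; linarith
  · linarith

theorem tvI_mono (f : ℤ → ℝ) (K1 K2 : ℤ) (M : ℝ) (hb : ∀ k, K1 ≤ k → k ≤ K2 → |f k| ≤ M)
    (hm : (∀ k, K1 ≤ k → k < K2 → f k ≤ f (k + 1)) ∨ (∀ k, K1 ≤ k → k < K2 → f (k + 1) ≤ f k)) :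
    tvI f K1 K2 ≤ 2 * M ∨ K2 < K1 := by
  by_cases h12 : K1 ≤ K2
  swap
  · right; omega
  left
  obtain ⟨n, hn⟩ := Int.eq_ofNat_of_zero_le (by omega : 0 ≤ K2 - K1)
  have hK2 : K2 = K1 + n := by omega
  subst hK2
  have hb1 := abs_le.mp (hb K1 le_rfl (by omega))
  have hb2 := abs_le.mp (hb (K1 + n) (by omega) le_rfl)
  have ht := tele f K1 n
  rcases hm with hm | hm
  · have : tvI f K1 (K1 + n) = f (K1 + n) - f K1 := by
      rw [← ht]; unfold tvI
      apply Finset.sum_congr rfl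
      intro k hk
      rw [Finset.mem_Ico] at hk
      exact abs_of_nonneg (by linarith [hm k hk.1 hk.2])
    rw [this]; linarith
  · have : tvI f K1 (K1 + n) = -(f (K1 + n) - f K1) := by
      rw [← ht, ← Finset.sum_neg_distrib]; unfold tvI
      apply Finset.sum_congr rfl
      intro k hk
      rw [Finset.mem_Ico] at hk
      exact abs_of_nonpos (by linarith [hm k hk.1 hk.2])
    rw [this]; linarith

/-- affine sequences bounded by `M` -/
theorem bvi_affine (α β : ℝ) (K1 K2 : ℤ) (M : ℝ) (hM : 0 ≤ M)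
    (hb : ∀ k : ℤ, K1 ≤ k → k ≤ K2 → |α + β * k| ≤ M) :
    BVI (fun k : ℤ => α + β * k) K1 K2 M (2 * M) := by
  refine ⟨hb, ?_⟩
  rcases tvI_mono (fun k : ℤ => α + β * k) K1 K2 M hb (by
    rcases le_total 0 β with h | h
    · left; intro k _ _; push_cast; nlinarith
    · right; intro k _ _; push_cast; nlinarith) with h | h
  · exact h
  · unfold tvI; rw [Finset.Ico_eq_empty (by omega)]; simpa using hM

/-- kernels are differences of bounded monotone functions -/
theorem ker_decomp {Z : ℝ → ℝ} (hZ : IsKer Z) : ∃ (A B : ℝ → ℝ) (K : ℝ), 0 ≤ K ∧ Monotone A ∧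
    Monotone B ∧ (∀ x, |A x| ≤ K) ∧ (∀ x, |B x| ≤ K) ∧ (∀ x, Z x = A x - B x) := by
  have hd : Continuous (deriv Z) := hZ.smooth.continuous_deriv le_rfl
  have hsupp : ∀ x, x ≤ 0 ∨ 3 ≤ x → deriv Z x = 0 := by
    intro x hx
    have : Z =ᶠ[nhds x] fun _ => 0 := by
      rcases hx with hx | hx
      · filter_upwards [Iio_mem_nhds (show x < 1 / 2 by linarith)] with y hy
        exact hZ.supp y (Or.inl (le_of_lt hy))
      · filter_upwards [Ioi_mem_nhds (show 2 < x by linarith)] with y hy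
        exact hZ.supp y (Or.inr (le_of_lt hy))
    rw [this.deriv_eq]; simp
  -- positive and negative parts
  set P : ℝ → ℝ := fun t => max (deriv Z t) 0 with hP
  set N : ℝ → ℝ := fun t => max (-deriv Z t) 0 with hN
  have hPc : Continuous P := hd.max continuous_const
  have hNc : Continuous N := hd.neg.max continuous_const
  have hP0 : ∀ t, 0 ≤ P t := fun t => le_max_right _ _
  have hN0 : ∀ t, 0 ≤ N t := fun t => le_max_right _ _
  have mono : ∀ f : ℝ → ℝ, Continuous f → (∀ t, 0 ≤ f t) → Monotone (fun x => ∫ t in (0:ℝ)..x, f t) := by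
    intro f hf h0 a b hab
    have h1 : (∫ t in (0:ℝ)..b, f t) = (∫ t in (0:ℝ)..a, f t) + ∫ t in a..b, f t :=
      (intervalIntegral.integral_add_adjacent_intervals (hf.intervalIntegrable _ _)
        (hf.intervalIntegrable _ _)).symm
    have h2 : 0 ≤ ∫ t in a..b, f t := intervalIntegral.integral_nonneg hab (fun t _ => h0 t)
    show (∫ t in (0:ℝ)..a, f t) ≤ ∫ t in (0:ℝ)..b, f t
    linarith
  have bd : ∀ f : ℝ → ℝ, Continuous f → (∀ t, 0 ≤ f t) → (∀ t, t ≤ 0 ∨ 3 ≤ t → f t = 0) → ∀ x,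
      |∫ t in (0:ℝ)..x, f t| ≤ ∫ t in (0:ℝ)..3, f t := by
    intro f hf h0 hs x
    have hint : ∀ a b, IntervalIntegrable f volume a b := fun a b => hf.intervalIntegrable _ _
    rcases le_total x 0 with hx | hx
    · have : (∫ t in (0:ℝ)..x, f t) = 0 := by
        rw [intervalIntegral.integral_symm]
        have : (∫ t in x..(0:ℝ), f t) = ∫ t in x..(0:ℝ), (0 : ℝ) := by
          apply intervalIntegral.integral_congr
          intro t ht
          rw [Set.uIcc_of_le hx] at ht
          exact hs t (Or.inl ht.2)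
        rw [this]; simp
      rw [this, abs_zero]
      exact intervalIntegral.integral_nonneg (by norm_num) (fun t _ => h0 t)
    · have hnn : 0 ≤ ∫ t in (0:ℝ)..x, f t := intervalIntegral.integral_nonneg hx (fun t _ => h0 t)
      rw [abs_of_nonneg hnn]
      rcases le_total x 3 with h3 | h3
      · exact mono f hf h0 h3
      · have h1 : (∫ t in (0:ℝ)..x, f t) = (∫ t in (0:ℝ)..3, f t) + ∫ t in (3:ℝ)..x, f t :=
          (intervalIntegral.integral_add_adjacent_intervals (hint _ _) (hint _ _)).symm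
        have h2 : (∫ t in (3:ℝ)..x, f t) = 0 := by
          have : (∫ t in (3:ℝ)..x, f t) = ∫ t in (3:ℝ)..x, (0 : ℝ) := by
            apply intervalIntegral.integral_congr
            intro t ht
            rw [Set.uIcc_of_le h3] at ht
            exact hs t (Or.inr ht.1)
          rw [this]; simp
        linarith
  refine ⟨fun x => ∫ t in (0:ℝ)..x, P t, fun x => ∫ t in (0:ℝ)..x, N t,
    max (∫ t in (0:ℝ)..3, P t) (∫ t in (0:ℝ)..3, N t), ?_, mono P hPc hP0, mono N hNc hN0, ?_, ?_, ?_⟩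
  · exact le_max_of_le_left (intervalIntegral.integral_nonneg (by norm_num) (fun t _ => hP0 t))
  · intro x
    exact (bd P hPc hP0 (fun t ht => by rw [hP]; simp [hsupp t ht]) x).trans (le_max_left _ _)
  · intro x
    exact (bd N hNc hN0 (fun t ht => by rw [hN]; simp [hsupp t ht]) x).trans (le_max_right _ _)
  · intro x
    show Z x = (∫ t in (0:ℝ)..x, P t) - ∫ t in (0:ℝ)..x, N t
    rw [← intervalIntegral.integral_sub (hPc.intervalIntegrable _ _) (hNc.intervalIntegrable _ _)]
    have : ∀ t, P t - N t = deriv Z t := by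
      intro t
      rw [hP, hN]
      show max (deriv Z t) 0 - max (-deriv Z t) 0 = deriv Z t
      rcases le_total 0 (deriv Z t) with h | h
      · rw [max_eq_left h, max_eq_right (by linarith)]; ring
      · rw [max_eq_right h, max_eq_left (by linarith)]; ring
    simp_rw [this]
    rw [intervalIntegral.integral_deriv_eq_sub
      (fun t _ => (hZ.smooth.differentiable (by norm_num)) t) (hd.intervalIntegrable _ _)]
    rw [hZ.supp 0 (Or.inl (by norm_num))]; ring

/-- composition of a kernel with an affine sequence -/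
theorem bvi_ker {Z : ℝ → ℝ} (hZ : IsKer Z) : ∃ C : ℝ, 0 ≤ C ∧ ∀ (α β : ℝ) (K1 K2 : ℤ), K1 ≤ K2 →
    BVI (fun k : ℤ => Z (α + β * k)) K1 K2 C C := by
  obtain ⟨A, B, K, hK, hA, hB, hAb, hBb, hdec⟩ := ker_decomp hZ
  refine ⟨4 * K, by linarith, fun α β K1 K2 h12 => ⟨fun k _ _ => ?_, ?_⟩⟩
  · rw [hdec]
    exact (abs_sub _ _).trans (by linarith [hAb (α + β * k), hBb (α + β * k)])
  · have main : ∀ F : ℝ → ℝ, Monotone F → (∀ x, |F x| ≤ K) →
        tvI (fun k : ℤ => F (α + β * k)) K1 K2 ≤ 2 * K := by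
      intro F hF hFb
      rcases tvI_mono (fun k : ℤ => F (α + β * k)) K1 K2 K (fun k _ _ => hFb _) (by
        rcases le_total 0 β with h | h
        · left; intro k _ _; apply hF; push_cast; nlinarith
        · right; intro k _ _; apply hF; push_cast; nlinarith) with h | h
      · exact h
      · omega
    have h1 := main A hA hAb
    have h2 := main B hB hBb
    calc tvI (fun k : ℤ => Z (α + β * k)) K1 K2
        ≤ tvI (fun k : ℤ => A (α + β * k)) K1 K2 + tvI (fun k : ℤ => B (α + β * k)) K1 K2 := by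
          unfold tvI
          rw [← Finset.sum_add_distrib]
          apply Finset.sum_le_sum
          intro k _
          simp only
          rw [hdec, hdec]
          have : A (α + β * ((k + 1 : ℤ) : ℝ)) - B (α + β * ((k + 1 : ℤ) : ℝ)) -
            (A (α + β * k) - B (α + β * k)) = (A (α + β * ((k + 1 : ℤ) : ℝ)) - A (α + β * k)) -
            (B (α + β * ((k + 1 : ℤ) : ℝ)) - B (α + β * k)) := by ring
          rw [this]
          exact abs_sub _ _
      _ ≤ 4 * K := by linarith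

/-- generic block estimate -/
theorem tv_generic {Z : ℝ → ℝ} (hZ : IsKer Z) (e : Bool) : ∃ C : ℝ, 0 ≤ C ∧ ∀ J : ℝ, 0 < J →
    ∀ (up vp uq vq : ℤ → ℝ), (∀ k, uq k * vp k - vq k * up k = 1) →
    ∀ d0 d1 e0 e1 f0 f1 : ℝ, 0 ≤ d1 → 0 ≤ e1 → (e1 = 0 → e0 = 0) →
    (∀ k : ℤ, up k * uq k + vp k * vq k = d0 + d1 * k) → (∀ k : ℤ, up k * uq k = e0 + e1 * k) →
    (∀ k : ℤ, uq k * vp k + up k * vq k = f0 + f1 * k) →
    ∀ c : ℤ → ℝ, (∀ K1 K2, K1 ≤ K2 → (∀ k, K1 ≤ k → k ≤ K2 → Sep (up k) (vp k) (uq k) (vq k)) →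
      BVI c K1 K2 1 2) →
    (Function.support (fun k => wR Z e J (up k) (vp k) (uq k) (vq k) * c k)).Finite ∧
    tv (fun k => wR Z e J (up k) (vp k) (uq k) (vq k) * c k) ≤ C := by
  obtain ⟨C, hC0, hC⟩ := bvi_ker hZ
  refine ⟨(2 * C + (C * 2 + 1 * (C * 2 + 1 * C))) * 2, by positivity, ?_⟩
  intro J hJ up vp uq vq hdet d0 d1 e0 e1 f0 f1 hd1 he1 he hdot hdel hm c hc
  set w : ℤ → ℝ := fun k => wR Z e J (up k) (vp k) (uq k) (vq k) * c k with hw
  have hsep : ∀ k, w k ≠ 0 → Sep (up k) (vp k) (uq k) (vq k) := by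
    intro k hk
    exact (sep_of_wR hZ hJ (hdet k) (left_ne_zero_of_mul hk)).1
  have hfin : (Function.support w).Finite := by
    rcases eq_or_lt_of_le he1 with h | h
    · have : Function.support w = ∅ := by
        ext k
        simp only [Function.mem_support, Set.mem_empty_iff_false, iff_false, not_not]
        by_contra hk
        have := (hsep k hk).d
        rw [hdel, ← h, he h.symm] at this
        simp at this
      rw [this]; exact Set.finite_empty
    · apply (Set.finite_Icc (⌊(-(2 / J) - e0) / e1⌋ - 1) (⌈(2 / J - e0) / e1⌉ + 1)).subset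
      intro k hk
      have h1 := (sep_of_wR hZ hJ (hdet k) (left_ne_zero_of_mul hk)).2.2
      rw [hdel, abs_le] at h1
      have a1 : (-(2 / J) - e0) / e1 ≤ k := by rw [div_le_iff₀ h]; linarith
      have a2 : (k : ℝ) ≤ (2 / J - e0) / e1 := by rw [le_div_iff₀ h]; linarith
      rw [Set.mem_Icc]
      constructor
      · have := Int.floor_le ((-(2 / J) - e0) / e1)
        have : (⌊(-(2 / J) - e0) / e1⌋ : ℝ) ≤ k := this.trans a1
        have : ⌊(-(2 / J) - e0) / e1⌋ ≤ k := by exact_mod_cast this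
        omega
      · have := Int.le_ceil ((2 / J - e0) / e1)
        have : (k : ℝ) ≤ ⌈(2 / J - e0) / e1⌉ := a2.trans this
        have : k ≤ ⌈(2 / J - e0) / e1⌉ := by exact_mod_cast this
        omega
  refine ⟨hfin, ?_⟩
  have hCpos : 0 ≤ (2 * C + (C * 2 + 1 * (C * 2 + 1 * C))) * 2 := by positivity
  by_cases hne : (Function.support w).Nonempty
  swap
  · rw [Set.not_nonempty_iff_eq_empty, Function.support_eq_empty_iff] at hne
    rw [hne]; simpa [tv] using hCpos
  -- hull
  set S := hfin.toFinset with hS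
  have hSne : S.Nonempty := by
    obtain ⟨k, hk⟩ := hne
    exact ⟨k, by rw [hS, Set.Finite.mem_toFinset]; exact hk⟩
  set K1 := S.min' hSne with hK1
  set K2 := S.max' hSne with hK2
  have hK1m : w K1 ≠ 0 := by
    exact hfin.mem_toFinset.mp (S.min'_mem hSne)
  have hK2m : w K2 ≠ 0 := by
    exact hfin.mem_toFinset.mp (S.max'_mem hSne)
  have hsub : ∀ k, w k ≠ 0 → K1 ≤ k ∧ k ≤ K2 := by
    intro k hk
    have : k ∈ S := by rw [hS, Set.Finite.mem_toFinset]; exact hk
    exact ⟨S.min'_le k this, S.le_max' k this⟩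
  have h12 : K1 ≤ K2 := (hsub K1 hK1m).2
  have s1 := hsep K1 hK1m
  have s2 := hsep K2 hK2m
  have h12' : (K1 : ℝ) ≤ K2 := by exact_mod_cast h12
  -- the type is constant
  have htype : (∀ k, K1 ≤ k → k ≤ K2 → 0 < up k * uq k + vp k * vq k ∧ up k * uq k < 0) ∨
      (∀ k, K1 ≤ k → k ≤ K2 → up k * uq k + vp k * vq k ≤ 0 ∧ 0 < up k * uq k) := by
    rcases s1.cases with ⟨a1, b1⟩ | ⟨a1, b1⟩ <;> rcases s2.cases with ⟨a2, b2⟩ | ⟨a2, b2⟩
    · left
      intro k hk1 hk2
      have c1 : (K1 : ℝ) ≤ k := by exact_mod_cast hk1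
      have c2 : (k : ℝ) ≤ K2 := by exact_mod_cast hk2
      rw [hdot] at a1 ⊢; rw [hdel] at b2 ⊢
      constructor <;> nlinarith
    · exfalso
      rw [hdot] at a1 a2
      nlinarith
    · exfalso
      rw [hdel] at b1 b2
      nlinarith
    · right
      intro k hk1 hk2
      have c1 : (K1 : ℝ) ≤ k := by exact_mod_cast hk1
      have c2 : (k : ℝ) ≤ K2 := by exact_mod_cast hk2
      rw [hdot] at a2 ⊢; rw [hdel] at b1 ⊢
      constructor <;> nlinarith
  have hallsep : ∀ k, K1 ≤ k → k ≤ K2 → Sep (up k) (vp k) (uq k) (vq k) := by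
    intro k hk1 hk2
    rcases htype with h | h
    · obtain ⟨a, b⟩ := h k hk1 hk2
      refine ⟨hdet k, ?_, ne_of_lt b⟩
      unfold sepR ind
      rw [if_pos a, if_neg (not_lt.mpr b.le)]; norm_num
    · obtain ⟨a, b⟩ := h k hk1 hk2
      refine ⟨hdet k, ?_, ne_of_gt b⟩
      unfold sepR ind
      rw [if_neg (not_lt.mpr a), if_pos b]; norm_num
  have bc := hc K1 K2 h12 hallsep
  -- the kernel factor
  have bZ : BVI (fun k => Z (J * |up k * uq k|)) K1 K2 C C := by
    rcases htype with h | h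
    · refine (hC (-(J * e0)) (-(J * e1)) K1 K2 h12).congr (fun k hk1 hk2 => ?_)
      obtain ⟨a, b⟩ := h k hk1 hk2
      rw [abs_of_neg b, hdel]; congr 1; ring
    · refine (hC (J * e0) (J * e1) K1 K2 h12).congr (fun k hk1 hk2 => ?_)
      obtain ⟨a, b⟩ := h k hk1 hk2
      rw [abs_of_pos b, hdel]; congr 1; ring
  have bK : BVI (fun k => kapR e (up k) (vp k) (uq k) (vq k)) K1 K2 1 2 := by
    have hb : ∀ k : ℤ, K1 ≤ k → k ≤ K2 → |f0 + f1 * k| ≤ 1 := by
      intro k hk1 hk2
      have := (hallsep k hk1 hk2).sum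
      rw [← hm k]
      exact (abs_add_le _ _).trans this.le
    cases e with
    | false =>
      refine ⟨fun k _ _ => by simp [kapR], ?_⟩
      simp [tvI, kapR]
    | true =>
      rcases htype with h | h
      · have := bvi_affine (-f0) (-f1) K1 K2 1 (by norm_num) (by
          intro k hk1 hk2
          have := hb k hk1 hk2
          rw [show -f0 + -f1 * (k:ℝ) = -(f0 + f1 * k) by ring, abs_neg]; exact this)
        refine (this.congr (fun k hk1 hk2 => ?_)).mono le_rfl (by norm_num)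
        obtain ⟨a, b⟩ := h k hk1 hk2
        simp only [kapR, if_true]
        rw [if_neg (not_lt.mpr b.le), hm]; ring
      · have := bvi_affine f0 f1 K1 K2 1 (by norm_num) hb
        refine (this.congr (fun k hk1 hk2 => ?_)).mono le_rfl (by norm_num)
        obtain ⟨a, b⟩ := h k hk1 hk2
        simp only [kapR, if_true]
        rw [if_pos b, hm]; ring
  have bS : BVI (fun k => sepR (up k) (vp k) (uq k) (vq k)) K1 K2 1 0 := by
    refine ⟨fun k _ _ => abs_sepR_le _ _ _ _, ?_⟩
    apply le_of_eq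
    unfold tvI
    apply Finset.sum_eq_zero
    intro k hk
    rw [Finset.mem_Ico] at hk
    rcases htype with h | h
    · obtain ⟨a, b⟩ := h k hk.1 (by omega)
      obtain ⟨a', b'⟩ := h (k + 1) (by omega) (by omega)
      have e1 : ∀ i : ℤ, 0 < up i * uq i + vp i * vq i → up i * uq i < 0 →
          sepR (up i) (vp i) (uq i) (vq i) = 1 := by
        intro i hi hi'
        unfold sepR ind
        rw [if_pos hi, if_neg (not_lt.mpr hi'.le)]; norm_num
      show |sepR (up (k + 1)) (vp (k + 1)) (uq (k + 1)) (vq (k + 1)) -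
        sepR (up k) (vp k) (uq k) (vq k)| = 0
      rw [e1 _ a b, e1 _ a' b']; simp
    · obtain ⟨a, b⟩ := h k hk.1 (by omega)
      obtain ⟨a', b'⟩ := h (k + 1) (by omega) (by omega)
      have e1 : ∀ i : ℤ, up i * uq i + vp i * vq i ≤ 0 → 0 < up i * uq i →
          sepR (up i) (vp i) (uq i) (vq i) = -1 := by
        intro i hi hi'
        unfold sepR ind
        rw [if_neg (not_lt.mpr hi), if_pos hi']; norm_num
      show |sepR (up (k + 1)) (vp (k + 1)) (uq (k + 1)) (vq (k + 1)) -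
        sepR (up k) (vp k) (uq k) (vq k)| = 0
      rw [e1 _ a b, e1 _ a' b']; simp
  have b1 := bS.mul (by norm_num) hC0 bZ
  have b2 := b1.mul (by positivity) (by norm_num) bK
  have b3 := b2.mul (by positivity) (by norm_num) bc
  have b4 : BVI w K1 K2 (1 * C * 1 * 1) _ := b3.congr (fun k _ _ => by
    simp only [hw, wR])
  have ht := tv_le_tvI w K1 K2 h12 hsub
  have m1 := b4.bd K1 le_rfl h12
  have m2 := b4.bd K2 h12 le_rfl
  have m3 := b4.var
  refine ht.trans ?_
  nlinarith

theorem sH_mono : Monotone sH := by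
  intro a b h
  unfold sH
  exact max_le_max le_rfl (min_le_min le_rfl (by linarith))

/-- P-blocks (`q ↦ q + 2kp`) with the cutoff `sH` -/
theorem tv_wP {Z : ℝ → ℝ} (hZ : IsKer Z) (e : Bool) : ∃ C : ℝ, ∀ J : ℝ, 0 < J →
    ∀ up vp uq vq : ℝ, uq * vp - vq * up = 1 →
    (Function.support (fun k : ℤ => wP Z e J up vp (uq + 2 * k * up) (vq + 2 * k * vp))).Finite ∧
    tv (fun k : ℤ => wP Z e J up vp (uq + 2 * k * up) (vq + 2 * k * vp)) ≤ C := by
  obtain ⟨C, hC0, hC⟩ := tv_generic hZ e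
  refine ⟨C, fun J hJ up vp uq vq hdet => ?_⟩
  refine hC J hJ (fun _ => up) (fun _ => vp) (fun k => uq + 2 * k * up) (fun k => vq + 2 * k * vp)
    (fun k => by linear_combination hdet) (up * uq + vp * vq) (2 * (up ^ 2 + vp ^ 2)) (up * uq)
    (2 * up ^ 2) (uq * vp + up * vq) (4 * (up * vp)) (by positivity) (by positivity)
    (fun h => by
      have : up ^ 2 = 0 := by linarith
      rw [pow_eq_zero_iff (by norm_num)] at this
      rw [this]; ring)
    (fun k => by ring) (fun k => by ring) (fun k => by ring)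
    (fun k => sH (Hr up vp (uq + 2 * k * up) (vq + 2 * k * vp))) ?_
  intro K1 K2 h12 hsep
  refine ⟨fun k _ _ => ?_, ?_⟩
  · rw [abs_of_nonneg (sH_mem _).1]; exact (sH_mem _).2
  · have hG : ∀ k : ℤ, K1 ≤ k → k ≤ K2 → Hr up vp (uq + 2 * k * up) (vq + 2 * k * vp) =
        -((uq + 2 * k * up) * (vq + 2 * k * vp)) / (up * vp) := by
      intro k h1 h2
      have hopp := (hsep k h1 h2).opp
      have h3 : (up * vp) * ((uq + 2 * k * up) * (vq + 2 * k * vp)) < 0 := by
        have : (up * vp) * ((uq + 2 * k * up) * (vq + 2 * k * vp)) =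
          (up * (uq + 2 * k * up)) * (vp * (vq + 2 * k * vp)) := by ring
        rw [this]; exact hopp
      unfold Hr
      rcases mul_neg_iff.mp h3 with ⟨a, b⟩ | ⟨a, b⟩
      · rw [abs_of_neg b, abs_of_pos a]
      · rw [abs_of_pos b, abs_of_neg a, neg_div, div_neg]
    have hup : up * vp ≠ 0 := by
      have hopp := (hsep K1 le_rfl h12).opp
      intro h0
      have : (up * (uq + 2 * K1 * up)) * (vp * (vq + 2 * K1 * vp)) =
        (up * vp) * ((uq + 2 * K1 * up) * (vq + 2 * K1 * vp)) := by ring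
      rw [this, h0, zero_mul] at hopp
      exact lt_irrefl _ hopp
    apply tvI_unimodal
    · intro k _ _; exact sH_mem _
    · intro k i hk1 hki hi hlt
      -- differences
      have hlt' : Hr up vp (uq + 2 * ((k + 1 : ℤ) : ℝ) * up) (vq + 2 * ((k + 1 : ℤ) : ℝ) * vp) <
          Hr up vp (uq + 2 * k * up) (vq + 2 * k * vp) := by
        by_contra hc
        push Not at hc
        exact absurd (sH_mono hc) (not_le.mpr hlt)
      apply sH_mono
      rw [hG (k + 1) (by omega) (by omega), hG k hk1 (by omega)] at hlt'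
      rw [hG (i + 1) (by omega) (by omega), hG i (by omega) (by omega)]
      have hik : (k : ℝ) ≤ i := by exact_mod_cast hki
      have e1 : ∀ t : ℝ, -((uq + 2 * (t + 1) * up) * (vq + 2 * (t + 1) * vp)) / (up * vp) -
          -((uq + 2 * t * up) * (vq + 2 * t * vp)) / (up * vp) =
          -(4 * (2 * t + 1)) - 2 * (uq * vp + up * vq) / (up * vp) := by
        intro t
        have hup0 : up ≠ 0 := left_ne_zero_of_mul hup
        have hvp0 : vp ≠ 0 := right_ne_zero_of_mul hup
        field_simp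
        ring
      have e2 := e1 k
      have e3 := e1 i
      push_cast at hlt' ⊢
      linarith

/-- P-blocks without cutoff (vertical walls) -/
theorem tv_wR {Z : ℝ → ℝ} (hZ : IsKer Z) (e : Bool) : ∃ C : ℝ, ∀ J : ℝ, 0 < J →
    ∀ up vp uq vq : ℝ, uq * vp - vq * up = 1 →
    (Function.support (fun k : ℤ => wR Z e J up vp (uq + 2 * k * up) (vq + 2 * k * vp))).Finite ∧
    tv (fun k : ℤ => wR Z e J up vp (uq + 2 * k * up) (vq + 2 * k * vp)) ≤ C := by
  obtain ⟨C, hC0, hC⟩ := tv_generic hZ e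
  refine ⟨C, fun J hJ up vp uq vq hdet => ?_⟩
  have h := hC J hJ (fun _ => up) (fun _ => vp) (fun k => uq + 2 * k * up) (fun k => vq + 2 * k * vp)
    (fun k => by linear_combination hdet) (up * uq + vp * vq) (2 * (up ^ 2 + vp ^ 2)) (up * uq)
    (2 * up ^ 2) (uq * vp + up * vq) (4 * (up * vp)) (by positivity) (by positivity)
    (fun h => by
      have : up ^ 2 = 0 := by linarith
      rw [pow_eq_zero_iff (by norm_num)] at this
      rw [this]; ring)
    (fun k => by ring) (fun k => by ring) (fun k => by ring)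
    (fun _ => 1) (fun K1 K2 h12 _ => ⟨fun k _ _ => by simp, by simp [tvI]⟩)
  simpa using h

end RV11
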