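import Pool.Agent.LibRV11.U0
import Pool.Agent.LibRV11.Theta
import Pool.Agent.LibRV11.TH13
open Complex Real MeasureTheory
open UpperHalfPlane hiding I
open scoped MatrixGroups

namespace RV11

/-! ### U07: cosets of `⟨T²⟩` and of `⟨PP⟩` -/

theorem PP_mem_Gam : PP ∈ Gam := by
  constructor
  · simp [PP]
  · simp [PP]

theorem u07_T2 (k : ℤ) : (((ModularGroup.T ^ 2) ^ k : SL(2, ℤ)) : Matrix (Fin 2) (Fin 2) ℤ) =
    !![1, 2 * k; 0, 1] := by
  have h1 : (ModularGroup.T ^ 2) ^ k = ModularGroup.T ^ (2 * k) := by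
    rw [zpow_mul]
    rfl
  rw [h1, ModularGroup.coe_T_zpow]

/-- the powers of `PP` -/
def u07_P (k : ℤ) : SL(2, ℤ) := ⟨!![1 - k, -k; k, 1 + k], by rw [Matrix.det_fin_two_of]; ring⟩

theorem u07_P_add (j k : ℤ) : u07_P (j + k) = u07_P j * u07_P k := by
  apply Subtype.ext
  simp only [u07_P, Matrix.SpecialLinearGroup.coe_mul, Matrix.mul_fin_two]
  congr 1
  ext i j
  fin_cases i <;> fin_cases j <;> simp <;> ring

theorem u07_PP (k : ℤ) : PP ^ k = u07_P k := by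
  have h1 : PP = u07_P 1 := by
    apply Subtype.ext
    simp [PP, u07_P]
  have h0 : u07_P 0 = 1 := by
    apply Subtype.ext
    simp only [u07_P, Matrix.SpecialLinearGroup.coe_one]
    ext i j
    fin_cases i <;> fin_cases j <;> simp
  let f : Multiplicative ℤ →* SL(2, ℤ) :=
    { toFun := fun k => u07_P (Multiplicative.toAdd k)
      map_one' := h0
      map_mul' := fun j k => u07_P_add _ _ }
  have h2 : f (Multiplicative.ofAdd 1 ^ k) = f (Multiplicative.ofAdd 1) ^ k := map_zpow f _ k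
  have h3 : (Multiplicative.ofAdd (1 : ℤ)) ^ k = Multiplicative.ofAdd k := by
    rw [← ofAdd_zsmul]
    simp
  rw [h3] at h2
  rw [h1]
  exact h2.symm

theorem T2_mem_Gam' : ModularGroup.T ^ 2 ∈ Gam := by
  have h1 := u07_T2 1
  rw [zpow_one] at h1
  constructor
  · rw [h1]; simp
  · rw [h1]; simp

/-- entries of `T^{2k} g` -/
theorem T_zpow_mul (k : ℤ) (g : SL(2, ℤ)) :
    ((ModularGroup.T ^ 2) ^ k * g) 0 0 = g 0 0 + 2 * k * g 1 0 ∧
    ((ModularGroup.T ^ 2) ^ k * g) 0 1 = g 0 1 + 2 * k * g 1 1 ∧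
    ((ModularGroup.T ^ 2) ^ k * g) 1 0 = g 1 0 ∧ ((ModularGroup.T ^ 2) ^ k * g) 1 1 = g 1 1 := by
  simp only [Matrix.SpecialLinearGroup.coe_mul, u07_T2, Matrix.mul_apply, Fin.sum_univ_two]
  refine ⟨?_, ?_, ?_, ?_⟩ <;> simp

/-- entries of `PP^k g`: `p ↦ p + kq`, `q ↦ q`. -/
theorem PP_zpow_mul (k : ℤ) (g : SL(2, ℤ)) :
    (PP ^ k * g) 1 0 = g 1 0 + k * (g 0 0 + g 1 0) ∧
    (PP ^ k * g) 1 1 = g 1 1 + k * (g 0 1 + g 1 1) ∧
    (PP ^ k * g) 0 0 + (PP ^ k * g) 1 0 = g 0 0 + g 1 0 ∧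
    (PP ^ k * g) 0 1 + (PP ^ k * g) 1 1 = g 0 1 + g 1 1 := by
  rw [u07_PP]
  simp only [Matrix.SpecialLinearGroup.coe_mul, u07_P, Matrix.mul_apply, Fin.sum_univ_two]
  refine ⟨?_, ?_, ?_, ?_⟩ <;> simp <;> ring

theorem u07_ext {g k : SL(2, ℤ)} (h00 : g 0 0 = k 0 0) (h01 : g 0 1 = k 0 1) (h10 : g 1 0 = k 1 0)
    (h11 : g 1 1 = k 1 1) : g = k := by
  apply Subtype.ext
  ext i j
  fin_cases i <;> fin_cases j
  · exact h00
  · exact h01
  · exact h10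
  · exact h11

theorem u07_det (g : SL(2, ℤ)) : g 0 0 * g 1 1 - g 0 1 * g 1 0 = 1 := by
  have := g.det_coe
  rwa [Matrix.det_fin_two] at this

/-- a matrix of the theta group with prescribed entries -/
theorem u07_exists (a b c d : ℤ) (h : a * d - b * c = 1) (h1 : Even (a + d)) (h2 : Even (b + c)) :
    ∃ g ∈ Gam, g 0 0 = a ∧ g 0 1 = b ∧ g 1 0 = c ∧ g 1 1 = d := by
  refine ⟨⟨!![a, b; c, d], by rw [Matrix.det_fin_two_of]; exact h⟩, ⟨?_, ?_⟩, rfl, rfl, rfl, rfl⟩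
  · simpa using h1
  · simpa using h2

theorem u07_liftP (p : RowP) : ∃ g ∈ Gam, g 1 0 = p.1.1 ∧ g 1 1 = p.1.2 := by
  obtain ⟨⟨c, d⟩, ⟨u, v, huv⟩, hodd⟩ := p
  simp only at huv hodd ⊢
  rcases Int.even_or_odd' c with ⟨c', hc | hc⟩
  · obtain ⟨d', hd⟩ : ∃ d', d = 2 * d' + 1 := by
      obtain ⟨e, he⟩ := hodd
      exact ⟨e - c', by linarith⟩
    obtain ⟨g, hg, h1, h2, h3, h4⟩ := u07_exists (v + u * c) (-u + u * d) c d
      (by linear_combination huv)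
      ⟨1 - v * d' + d', by subst hc hd; linear_combination huv⟩
      ⟨u * d' + c', by subst hc hd; ring⟩
    exact ⟨g, hg, h3, h4⟩
  · obtain ⟨d', hd⟩ : ∃ d', d = 2 * d' := by
      obtain ⟨e, he⟩ := hodd
      exact ⟨e - c', by linarith⟩
    obtain ⟨g, hg, h1, h2, h3, h4⟩ := u07_exists (v + v * c) (-u + v * d) c d
      (by linear_combination huv)
      ⟨v * (c' + 1) + d', by subst hc hd; ring⟩
      ⟨u * c' + 2 * v * d' + c', by subst hc hd; linear_combination -huv⟩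
    exact ⟨g, hg, h3, h4⟩

theorem u07_liftQ (q : RowQ) : ∃ g ∈ Gam, g 0 0 + g 1 0 = q.1.1 ∧ g 0 1 + g 1 1 = q.1.2 := by
  obtain ⟨⟨q1, q2⟩, ⟨u, v, huv⟩, ⟨e1, h1⟩, ⟨e2, h2⟩⟩ := q
  simp only at huv h1 h2 ⊢
  -- `c = -v`, `d = u`: `q1 d - q2 c = 1`
  obtain ⟨g, hg, k1, k2, k3, k4⟩ := u07_exists (q1 + v) (q2 - u) (-v) u
      (by linear_combination huv)
      ⟨1 - u * e1 + e1 - v * e2, by subst h1 h2; linear_combination huv⟩
      ⟨u * e1 + v * e2 + e2, by subst h1 h2; linear_combination -huv⟩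
  exact ⟨g, hg, by rw [k1, k3]; ring, by rw [k2, k4]; ring⟩

theorem u07_rowP {g : SL(2, ℤ)} (hg : g ∈ Gam) :
    IsCoprime (g 1 0) (g 1 1) ∧ Odd (g 1 0 + g 1 1) := by
  refine ⟨⟨-g 0 1, g 0 0, ?_⟩, odd_row hg⟩
  linear_combination u07_det g

theorem u07_rowQ {g : SL(2, ℤ)} (hg : g ∈ Gam) :
    IsCoprime (g 0 0 + g 1 0) (g 0 1 + g 1 1) ∧ Odd (g 0 0 + g 1 0) ∧ Odd (g 0 1 + g 1 1) := by
  refine ⟨⟨g 1 1, -g 1 0, ?_⟩, odd_col hg, odd_col' hg⟩
  linear_combination u07_det g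

/-- every bottom row lifts; left cosets of `⟨T²⟩` are determined by the bottom row. -/
theorem exists_fibP : ∃ e : RowP × ℤ ≃ Gam, ∀ p k,
    ((e (p, k) : Gam) : SL(2, ℤ)) 1 0 = p.1.1 ∧ ((e (p, k) : Gam) : SL(2, ℤ)) 1 1 = p.1.2 ∧
    ((e (p, k) : Gam) : SL(2, ℤ)) = (ModularGroup.T ^ 2) ^ k * ((e (p, 0) : Gam) : SL(2, ℤ)) := by
  classical
  choose gp hgp hgp1 hgp2 using u07_liftP
  let f : RowP × ℤ → Gam := fun x => ⟨(ModularGroup.T ^ 2) ^ x.2 * gp x.1,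
    Gam.mul_mem (Gam.zpow_mem T2_mem_Gam' _) (hgp x.1)⟩
  have hf1 : ∀ x, ((f x : Gam) : SL(2, ℤ)) 1 0 = x.1.1.1 := fun x => by
    change ((ModularGroup.T ^ 2) ^ x.2 * gp x.1) 1 0 = _
    rw [(T_zpow_mul _ _).2.2.1, hgp1]
  have hf2 : ∀ x, ((f x : Gam) : SL(2, ℤ)) 1 1 = x.1.1.2 := fun x => by
    change ((ModularGroup.T ^ 2) ^ x.2 * gp x.1) 1 1 = _
    rw [(T_zpow_mul _ _).2.2.2, hgp2]
  have hinj : Function.Injective f := by
    rintro ⟨p, k⟩ ⟨p', k'⟩ h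
    have hp : p = p' := by
      apply Subtype.ext
      apply Prod.ext
      · rw [← hf1 (p, k), ← hf1 (p', k'), h]
      · rw [← hf2 (p, k), ← hf2 (p', k'), h]
    subst hp
    have hval : (ModularGroup.T ^ 2) ^ k * gp p = (ModularGroup.T ^ 2) ^ k' * gp p :=
      congrArg Subtype.val h
    have h00 := congrArg (fun m : SL(2, ℤ) => m 0 0) hval
    have h01 := congrArg (fun m : SL(2, ℤ) => m 0 1) hval
    rw [(T_zpow_mul _ _).1, (T_zpow_mul _ _).1] at h00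
    rw [(T_zpow_mul _ _).2.1, (T_zpow_mul _ _).2.1] at h01
    have e1 : (k - k') * gp p 1 0 = 0 := by linarith
    have e2 : (k - k') * gp p 1 1 = 0 := by linarith
    have e3 : k - k' = 0 := by
      have := u07_det (gp p)
      linear_combination (gp p 0 0) * e2 - (gp p 0 1) * e1 - (k - k') * this
    have : k = k' := by linarith
    rw [this]
  have hsurj : Function.Surjective f := by
    rintro ⟨g, hg⟩
    let p : RowP := ⟨(g 1 0, g 1 1), u07_rowP hg⟩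
    have hp1 : gp p 1 0 = g 1 0 := hgp1 p
    have hp2 : gp p 1 1 = g 1 1 := hgp2 p
    have d1 := u07_det g
    have d2 := u07_det (gp p)
    rw [hp1, hp2] at d2
    -- `m` with `a - a' = m c`, `b - b' = m d`
    set m : ℤ := (g 0 1 - gp p 0 1) * g 0 0 - (g 0 0 - gp p 0 0) * g 0 1 with hm
    have hmc : g 0 0 - gp p 0 0 = m * g 1 0 := by
      linear_combination (gp p 0 0) * d1 - (g 0 0) * d2
    have hmd : g 0 1 - gp p 0 1 = m * g 1 1 := by
      linear_combination (gp p 0 1) * d1 - (g 0 1) * d2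
    have heven : Even m := by
      have a1 := hg.1
      have a2 := hg.2
      have b1 := (hgp p).1
      have b2 := (hgp p).2
      rw [hp2] at b1
      rw [hp1] at b2
      have c1 : Even (m * g 1 0) := by
        rw [← hmc]
        have := a1.sub b1
        rwa [add_sub_add_right_eq_sub] at this
      have c2 : Even (m * g 1 1) := by
        rw [← hmd]
        have := a2.sub b2
        rwa [add_sub_add_right_eq_sub] at this
      have c3 : Even (m * (g 1 0 + g 1 1)) := by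
        rw [mul_add]; exact c1.add c2
      rcases Int.even_mul.mp c3 with h | h
      · exact h
      · exact absurd h (Int.not_even_iff_odd.mpr (odd_row hg))
    obtain ⟨k, hk⟩ := heven
    refine ⟨(p, k), ?_⟩
    apply Subtype.ext
    change (ModularGroup.T ^ 2) ^ k * gp p = g
    obtain ⟨t1, t2, t3, t4⟩ := T_zpow_mul k (gp p)
    apply u07_ext
    · rw [t1, hp1]
      linear_combination -hmc - (g 1 0) * hk
    · rw [t2, hp2]
      linear_combination -hmd - (g 1 1) * hk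
    · rw [t3, hp1]
    · rw [t4, hp2]
  refine ⟨Equiv.ofBijective f ⟨hinj, hsurj⟩, fun p k => ⟨hf1 (p, k), hf2 (p, k), ?_⟩⟩
  change (ModularGroup.T ^ 2) ^ k * gp p = (ModularGroup.T ^ 2) ^ k *
    ((ModularGroup.T ^ 2) ^ (0 : ℤ) * gp p)
  rw [zpow_zero, one_mul]

/-- left cosets of `⟨PP⟩` are determined by the sum of the two rows. -/
theorem exists_fibQ : ∃ e : RowQ × ℤ ≃ Gam, ∀ q k,
    ((e (q, k) : Gam) : SL(2, ℤ)) 0 0 + ((e (q, k) : Gam) : SL(2, ℤ)) 1 0 = q.1.1 ∧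
    ((e (q, k) : Gam) : SL(2, ℤ)) 0 1 + ((e (q, k) : Gam) : SL(2, ℤ)) 1 1 = q.1.2 ∧
    ((e (q, k) : Gam) : SL(2, ℤ)) = PP ^ k * ((e (q, 0) : Gam) : SL(2, ℤ)) := by
  classical
  choose gp hgp hgp1 hgp2 using u07_liftQ
  let f : RowQ × ℤ → Gam := fun x => ⟨PP ^ x.2 * gp x.1,
    Gam.mul_mem (Gam.zpow_mem PP_mem_Gam _) (hgp x.1)⟩
  have hf1 : ∀ x, ((f x : Gam) : SL(2, ℤ)) 0 0 + ((f x : Gam) : SL(2, ℤ)) 1 0 = x.1.1.1 :=
    fun x => by
    change (PP ^ x.2 * gp x.1) 0 0 + (PP ^ x.2 * gp x.1) 1 0 = _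
    rw [(PP_zpow_mul _ _).2.2.1, hgp1]
  have hf2 : ∀ x, ((f x : Gam) : SL(2, ℤ)) 0 1 + ((f x : Gam) : SL(2, ℤ)) 1 1 = x.1.1.2 :=
    fun x => by
    change (PP ^ x.2 * gp x.1) 0 1 + (PP ^ x.2 * gp x.1) 1 1 = _
    rw [(PP_zpow_mul _ _).2.2.2, hgp2]
  have hinj : Function.Injective f := by
    rintro ⟨p, k⟩ ⟨p', k'⟩ h
    have hp : p = p' := by
      apply Subtype.ext
      apply Prod.ext
      · rw [← hf1 (p, k), ← hf1 (p', k'), h]
      · rw [← hf2 (p, k), ← hf2 (p', k'), h]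
    subst hp
    have hval : PP ^ k * gp p = PP ^ k' * gp p := congrArg Subtype.val h
    have h00 := congrArg (fun m : SL(2, ℤ) => m 1 0) hval
    have h01 := congrArg (fun m : SL(2, ℤ) => m 1 1) hval
    rw [(PP_zpow_mul _ _).1, (PP_zpow_mul _ _).1] at h00
    rw [(PP_zpow_mul _ _).2.1, (PP_zpow_mul _ _).2.1] at h01
    have e1 : (k - k') * (gp p 0 0 + gp p 1 0) = 0 := by linarith
    have e2 : (k - k') * (gp p 0 1 + gp p 1 1) = 0 := by linarith
    have e3 : k - k' = 0 := by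
      have := u07_det (gp p)
      linear_combination (gp p 1 1) * e1 - (gp p 1 0) * e2 - (k - k') * this
    have : k = k' := by linarith
    rw [this]
  have hsurj : Function.Surjective f := by
    rintro ⟨g, hg⟩
    let p : RowQ := ⟨(g 0 0 + g 1 0, g 0 1 + g 1 1), u07_rowQ hg⟩
    have hp1 : gp p 0 0 + gp p 1 0 = g 0 0 + g 1 0 := hgp1 p
    have hp2 : gp p 0 1 + gp p 1 1 = g 0 1 + g 1 1 := hgp2 p
    have d1 := u07_det g
    have d2 := u07_det (gp p)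
    set q1 := g 0 0 + g 1 0 with hq1
    set q2 := g 0 1 + g 1 1 with hq2
    have d1' : q1 * g 1 1 - q2 * g 1 0 = 1 := by
      rw [hq1, hq2]; linear_combination d1
    have d2' : q1 * gp p 1 1 - q2 * gp p 1 0 = 1 := by
      rw [← hp1, ← hp2]; linear_combination d2
    set k : ℤ := (g 1 0 - gp p 1 0) * g 1 1 - (g 1 1 - gp p 1 1) * g 1 0 with hk
    have hkc : g 1 0 - gp p 1 0 = k * q1 := by
      linear_combination (gp p 1 0) * d1' - (g 1 0) * d2'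
    have hkd : g 1 1 - gp p 1 1 = k * q2 := by
      linear_combination (gp p 1 1) * d1' - (g 1 1) * d2'
    refine ⟨(p, k), ?_⟩
    apply Subtype.ext
    change PP ^ k * gp p = g
    obtain ⟨t1, t2, t3, t4⟩ := PP_zpow_mul k (gp p)
    rw [hp1] at t1 t3
    rw [hp2] at t2 t4
    apply u07_ext
    · linear_combination t3 - t1 + hkc + hq1
    · linear_combination t4 - t2 + hkd + hq2
    · linear_combination t1 - hkc
    · linear_combination t2 - hkd
  refine ⟨Equiv.ofBijective f ⟨hinj, hsurj⟩, fun p k => ⟨hf1 (p, k), hf2 (p, k), ?_⟩⟩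
  change PP ^ k * gp p = PP ^ k * (PP ^ (0 : ℤ) * gp p)
  rw [zpow_zero, one_mul]

noncomputable def fibP : RowP × ℤ ≃ Gam := exists_fibP.choose
noncomputable def fibQ : RowQ × ℤ ≃ Gam := exists_fibQ.choose

/-- weights along blocks -/
theorem atg_T (w : ℝ → ℝ → ℝ → ℝ → ℝ) (k : ℤ) (g : SL(2, ℤ)) (z : ℍ) (φ : ℝ) :
    atg w ((ModularGroup.T ^ 2) ^ k * g) z φ =
      atg (fun up vp uq vq => w up vp (uq + 2 * k * up) (vq + 2 * k * vp)) g z φ := by
  obtain ⟨h1, h2, h3, h4⟩ := T_zpow_mul k g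
  rw [atg, atg, h1, h2, h3, h4]
  have e1 : uu z φ (((g 0 0 + 2 * k * g 1 0 : ℤ) : ℝ) + (g 1 0 : ℝ))
      (((g 0 1 + 2 * k * g 1 1 : ℤ) : ℝ) + (g 1 1 : ℝ)) =
      uu z φ (g 0 0 + g 1 0) (g 0 1 + g 1 1) + 2 * k * uu z φ (g 1 0) (g 1 1) := by
    rw [uu, uu, uu]
    push_cast
    ring
  have e2 : vv z φ (((g 0 0 + 2 * k * g 1 0 : ℤ) : ℝ) + (g 1 0 : ℝ))
      (((g 0 1 + 2 * k * g 1 1 : ℤ) : ℝ) + (g 1 1 : ℝ)) =
      vv z φ (g 0 0 + g 1 0) (g 0 1 + g 1 1) + 2 * k * vv z φ (g 1 0) (g 1 1) := by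
    rw [vv, vv, vv]
    push_cast
    ring
  rw [e1, e2]

theorem atg_PP (w : ℝ → ℝ → ℝ → ℝ → ℝ) (k : ℤ) (g : SL(2, ℤ)) (z : ℍ) (φ : ℝ) :
    atg w (PP ^ k * g) z φ =
      atg (fun up vp uq vq => w (up + k * uq) (vp + k * vq) uq vq) g z φ := by
  obtain ⟨h1, h2, h3, h4⟩ := PP_zpow_mul k g
  have h3' : (((PP ^ k * g) 0 0 : ℤ) : ℝ) + (((PP ^ k * g) 1 0 : ℤ) : ℝ) =
      (g 0 0 : ℝ) + (g 1 0 : ℝ) := by exact_mod_cast h3
  have h4' : (((PP ^ k * g) 0 1 : ℤ) : ℝ) + (((PP ^ k * g) 1 1 : ℤ) : ℝ) =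
      (g 0 1 : ℝ) + (g 1 1 : ℝ) := by exact_mod_cast h4
  rw [atg, atg, h3', h4', h1, h2]
  have e1 : uu z φ ((g 1 0 + k * (g 0 0 + g 1 0) : ℤ) : ℝ)
      ((g 1 1 + k * (g 0 1 + g 1 1) : ℤ) : ℝ) =
      uu z φ (g 1 0) (g 1 1) + k * uu z φ (g 0 0 + g 1 0) (g 0 1 + g 1 1) := by
    rw [uu, uu, uu]
    push_cast
    ring
  have e2 : vv z φ ((g 1 0 + k * (g 0 0 + g 1 0) : ℤ) : ℝ)
      ((g 1 1 + k * (g 0 1 + g 1 1) : ℤ) : ℝ) =
      vv z φ (g 1 0) (g 1 1) + k * vv z φ (g 0 0 + g 1 0) (g 0 1 + g 1 1) := by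
    rw [vv, vv, vv]
    push_cast
    ring
  rw [e1, e2]

theorem u07_re (k : ℤ) (w : ℍ) : (((ModularGroup.T ^ 2) ^ k : SL(2, ℤ)) • w).re = w.re + 2 * k := by
  have h1 : (ModularGroup.T ^ 2) ^ k = ModularGroup.T ^ (2 * k) := by
    rw [zpow_mul]
    rfl
  rw [h1, UpperHalfPlane.modular_T_zpow_smul, UpperHalfPlane.vadd_re]
  push_cast
  ring

theorem u07_tsum (a : ENNReal) {w : ℍ} (hw : ∀ m : ℤ, w.re ≠ 2 * m + 1) :
    ∑' k : ℤ, Strip.indicator (fun _ => a) (((ModularGroup.T ^ 2) ^ k : SL(2, ℤ)) • w) = a := by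
  have hmem : ∀ k : ℤ, (((ModularGroup.T ^ 2) ^ k : SL(2, ℤ)) • w) ∈ Strip ↔
      |w.re + 2 * k| < 1 := by
    intro k
    rw [← u07_re k w]
    rfl
  set k0 : ℤ := -round (w.re / 2) with hk0
  have h1 := abs_sub_round (w.re / 2)
  have h2 : |w.re + 2 * k0| ≤ 1 := by
    have : w.re + 2 * k0 = 2 * (w.re / 2 - round (w.re / 2)) := by
      rw [hk0]; push_cast; ring
    rw [this, abs_mul, abs_two]
    linarith
  have h3 : |w.re + 2 * k0| < 1 := by
    refine lt_of_le_of_ne h2 ?_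
    intro h
    rcases (abs_eq (by norm_num : (0 : ℝ) ≤ 1)).mp h with h | h
    · exact hw (-k0) (by push_cast; linarith)
    · exact hw (-k0 - 1) (by push_cast; linarith)
  rw [tsum_eq_single k0]
  · rw [Set.indicator_of_mem ((hmem k0).mpr h3)]
  · intro k hk
    apply Set.indicator_of_notMem
    rw [hmem]
    intro h
    apply hk
    rw [abs_lt] at h h3
    have e1 : (k : ℝ) - k0 < 1 := by linarith [h.2, h3.1]
    have e2 : (-1 : ℝ) < (k : ℝ) - k0 := by linarith [h.1, h3.2]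
    have e3 : k - k0 < 1 := by exact_mod_cast e1
    have e4 : -1 < k - k0 := by exact_mod_cast e2
    omega

theorem u07_null : ∀ᵐ w : ℍ, ∀ m : ℤ, w.re ≠ 2 * m + 1 := by
  rw [ae_all_iff]
  intro m
  rw [ae_iff]
  simp only [not_not, ne_eq]
  have hme : MeasurableSet {w : ℂ | w.re = 2 * m + 1} :=
    measurableSet_eq_fun Complex.measurable_re measurable_const
  have h1 := lintegral_coord ({w : ℂ | w.re = 2 * m + 1}.indicator fun _ => 1)
    (measurable_const.indicator hme)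
  have h2 : ∫⁻ z : ℍ, ({w : ℂ | w.re = 2 * m + 1}.indicator (fun _ => (1 : ENNReal))) z =
      volume {w : ℍ | w.re = 2 * m + 1} := by
    have hme' : MeasurableSet {w : ℍ | w.re = 2 * m + 1} := by
      have : {w : ℍ | w.re = 2 * m + 1} = (fun w : ℍ => (w : ℂ)) ⁻¹' {w : ℂ | w.re = 2 * m + 1} :=
        rfl
      rw [this]
      exact hme.preimage UpperHalfPlane.continuous_coe.measurable
    rw [← lintegral_indicator_one hme']
    rfl
  rw [← h2, h1]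
  apply lintegral_eq_zero_of_ae_eq_zero
  filter_upwards with y
  have h3 : ∫⁻ x : ℝ, ({w : ℂ | w.re = 2 * m + 1}.indicator (fun _ => (1 : ENNReal)))
      ((x : ℂ) + I * y) * ENNReal.ofReal (1 / y ^ 2) = ∫⁻ _ : ℝ, 0 := by
    apply lintegral_congr_ae
    have hne : ∀ᵐ x : ℝ, x ≠ 2 * m + 1 := by
      simp [ae_iff]
    filter_upwards [hne] with x hx
    rw [Set.indicator_of_notMem, zero_mul]
    simpa using hx
  rw [h3]
  simp

theorem u07_T_inv (F : ℍ → ENNReal) (hT : ∀ z : ℍ, F ((ModularGroup.T ^ 2) • z) = F z) (k : ℤ)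
    (z : ℍ) : F (((ModularGroup.T ^ 2) ^ k : SL(2, ℤ)) • z) = F z := by
  induction k using Int.induction_on with
  | zero => rw [zpow_zero, one_smul]
  | succ n ih => rw [add_comm, zpow_one_add, mul_smul, hT, ih]
  | pred n ih =>
    have h1 := hT ((((ModularGroup.T ^ 2) ^ (-(n : ℤ) - 1) : SL(2, ℤ)) • z))
    rw [← mul_smul, ← zpow_one_add] at h1
    have h2 : (1 : ℤ) + (-(n : ℤ) - 1) = -(n : ℤ) := by ring
    rw [h2, ih] at h1
    exact h1.symm

/-- unfolding over bottom rows -/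
theorem unfold_rows (F : ℍ → ENNReal) (hF : Measurable F)
    (hT : ∀ z : ℍ, F ((ModularGroup.T ^ 2) • z) = F z) :
    ∑' p : RowP, ∫⁻ z in DD, F ((fibP (p, 0) : SL(2, ℤ)) • z) = 2 * ∫⁻ z in Strip, F z := by
  have hspec := exists_fibP.choose_spec
  have hcG := TH4_countable
  have hc2 : Countable (RowP × ℤ) := Countable.of_equiv _ fibP.symm
  have hmS : Measurable (Strip.indicator F) := hF.indicator measurableSet_Strip
  rw [← lintegral_indicator measurableSet_Strip, unfold_lintegral _ hmS,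
    ← fibP.tsum_eq (fun g : Gam => ∫⁻ z in DD, Strip.indicator F ((g : SL(2, ℤ)) • z)),
    ENNReal.tsum_prod']
  apply tsum_congr
  intro p
  have hex : ∑' b : ℤ, ∫⁻ z in DD, Strip.indicator F ((fibP (p, b) : SL(2, ℤ)) • z) =
      ∫⁻ z in DD, ∑' b : ℤ, Strip.indicator F ((fibP (p, b) : SL(2, ℤ)) • z) :=
    (lintegral_tsum fun k => (hmS.comp (TH4_mp (fibP (p, k) : SL(2, ℤ))).1.measurable).aemeasurable).symm
  rw [hex]
  apply lintegral_congr_ae
  apply ae_restrict_of_ae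
  have hn := (TH4_mp (fibP (p, 0) : SL(2, ℤ))).1.quasiMeasurePreserving.ae u07_null
  filter_upwards [hn] with z hz
  have h1 : ∀ k : ℤ, Strip.indicator F ((fibP (p, k) : SL(2, ℤ)) • z) =
      Strip.indicator (fun _ => F ((fibP (p, 0) : SL(2, ℤ)) • z))
        (((ModularGroup.T ^ 2) ^ k : SL(2, ℤ)) • ((fibP (p, 0) : SL(2, ℤ)) • z)) := by
    intro k
    have h2 : ((fibP (p, k) : Gam) : SL(2, ℤ)) = (ModularGroup.T ^ 2) ^ k *
      ((fibP (p, 0) : Gam) : SL(2, ℤ)) := (hspec p k).2.2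
    rw [h2, mul_smul]
    by_cases hs : (((ModularGroup.T ^ 2) ^ k : SL(2, ℤ)) • ((fibP (p, 0) : SL(2, ℤ)) • z)) ∈ Strip
    · rw [Set.indicator_of_mem hs, Set.indicator_of_mem hs, u07_T_inv F hT]
    · rw [Set.indicator_of_notMem hs, Set.indicator_of_notMem hs]
  simp only [h1]
  exact (u07_tsum _ hz).symm

end RV11
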