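import Pool.Agent.LibRV11.U07
open Complex Real MeasureTheory
open UpperHalfPlane hiding I
open scoped MatrixGroups

namespace RV11

/-! ### U08: the terms of a Q-block -/

/-- `w = -1/(gz+1)` -/
noncomputable def ww (g : SL(2, ℤ)) (z : ℍ) : ℂ := -1 / (((g • z : ℍ) : ℂ) + 1)

private theorem denom_ne (g : SL(2, ℤ)) (z : ℍ) : (g 1 0 : ℂ) * (z : ℂ) + (g 1 1 : ℂ) ≠ 0 := by
  have := denom_ne_zero (g : GL (Fin 2) ℝ) z
  rw [ModularGroup.denom_apply] at this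
  exact this

private theorem coe_smul (g : SL(2, ℤ)) (z : ℍ) : ((g • z : ℍ) : ℂ) =
    ((g 0 0 : ℂ) * (z : ℂ) + (g 0 1 : ℂ)) / ((g 1 0 : ℂ) * (z : ℂ) + (g 1 1 : ℂ)) := by
  rw [UpperHalfPlane.specialLinearGroup_apply]
  simp

private theorem add_one_ne (z : ℍ) : (z : ℂ) + 1 ≠ 0 := by
  intro h
  have : ((z : ℂ) + 1).im = 0 := by rw [h]; simp
  simp at this
  exact z.im_pos.ne' this

private theorem qrow_ne (g : SL(2, ℤ)) (z : ℍ) :
    ((g 0 0 : ℂ) + (g 1 0 : ℂ)) * (z : ℂ) + ((g 0 1 : ℂ) + (g 1 1 : ℂ)) ≠ 0 := by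
  have h1 := add_one_ne (g • z)
  rw [coe_smul, div_add_one (denom_ne g z)] at h1
  intro h
  apply h1
  have : (g 0 0 : ℂ) * (z : ℂ) + (g 0 1 : ℂ) + ((g 1 0 : ℂ) * (z : ℂ) + (g 1 1 : ℂ)) = 0 := by
    rw [← h]; ring
  rw [this, zero_div]

/-- `w = -(p.z)/(q.z)` -/
theorem ww_eq (g : SL(2, ℤ)) (z : ℍ) : ww g z = -((g 1 0 : ℂ) * (z : ℂ) + (g 1 1 : ℂ)) /
    (((g 0 0 : ℂ) + (g 1 0 : ℂ)) * (z : ℂ) + ((g 0 1 : ℂ) + (g 1 1 : ℂ))) := by
  have h1 := denom_ne g z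
  have h2 := qrow_ne g z
  rw [ww, coe_smul, div_add_one h1]
  have e : (g 0 0 : ℂ) * (z : ℂ) + (g 0 1 : ℂ) + ((g 1 0 : ℂ) * (z : ℂ) + (g 1 1 : ℂ)) =
      ((g 0 0 : ℂ) + (g 1 0 : ℂ)) * (z : ℂ) + ((g 0 1 : ℂ) + (g 1 1 : ℂ)) := by ring
  rw [e, div_div_eq_mul_div]
  congr 1
  ring

private theorem Np_pos' (g : SL(2, ℤ)) (z : ℍ) : 0 < NP g z := by
  rw [NP, Np]
  have h : ((g 1 0 : ℝ) : ℂ) * (z : ℂ) + ((g 1 1 : ℝ) : ℂ) ≠ 0 := by
    have := denom_ne g z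
    push_cast
    exact this
  have h2 := norm_pos_iff.mpr h
  have := z.im_pos
  positivity

private theorem NQ_pos' (g : SL(2, ℤ)) (z : ℍ) : 0 < NQ g z := by
  rw [NQ, Np]
  have h : (((g 0 0 : ℝ) + (g 1 0 : ℝ) : ℝ) : ℂ) * (z : ℂ) +
      (((g 0 1 : ℝ) + (g 1 1 : ℝ) : ℝ) : ℂ) ≠ 0 := by
    have := qrow_ne g z
    push_cast
    exact this
  have h2 := norm_pos_iff.mpr h
  have := z.im_pos
  positivity

private theorem normSq_add_one (g : SL(2, ℤ)) (z : ℍ) :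
    normSq (((g • z : ℍ) : ℂ) + 1) = NQ g z / NP g z := by
  rw [Complex.normSq_eq_norm_sq, coe_smul, div_add_one (denom_ne g z), norm_div, div_pow, NQ, NP,
    Np, Np]
  have e : (g 0 0 : ℂ) * (z : ℂ) + (g 0 1 : ℂ) + ((g 1 0 : ℂ) * (z : ℂ) + (g 1 1 : ℂ)) =
      ((g 0 0 : ℂ) + (g 1 0 : ℂ)) * (z : ℂ) + ((g 0 1 : ℂ) + (g 1 1 : ℂ)) := by ring
  rw [e]
  push_cast
  have := z.im_pos
  have h2 := norm_pos_iff.mpr (denom_ne g z)
  field_simp

theorem ww_im (g : SL(2, ℤ)) (z : ℍ) : (ww g z).im = 1 / NQ g z := by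
  have hP := Np_pos' g z
  have hQ := NQ_pos' g z
  have him : (((g • z : ℍ) : ℂ) + 1).im = 1 / NP g z := by
    have h := im_smul_eq g z
    rw [Complex.add_im, Complex.one_im, add_zero]
    exact h
  rw [ww, div_eq_mul_inv, neg_one_mul, Complex.neg_im, Complex.inv_im, normSq_add_one, him]
  field_simp

theorem ww_re (g : SL(2, ℤ)) (z : ℍ) (φ : ℝ) :
    (ww g z).re = -(atg (fun up vp uq vq => up * uq + vp * vq) g z φ) / NQ g z := by
  have hP := Np_pos' g z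
  have hQ := NQ_pos' g z
  have hre : (((g • z : ℍ) : ℂ) + 1).re =
      (atg (fun up vp uq vq => up * uq + vp * vq) g z φ) / NP g z := by
    have h := re_smul_add_one g z φ
    rw [Complex.add_re, Complex.one_re]
    exact h
  rw [ww, div_eq_mul_inv, neg_one_mul, Complex.neg_re, Complex.inv_re, normSq_add_one, hre]
  field_simp

theorem norm_ww_sub (g : SL(2, ℤ)) (z : ℍ) (k : ℤ) :
    ‖ww g z - k‖ ^ 2 = NP (PP ^ k * g) z / NQ g z := by
  obtain ⟨h1, h2, h3, h4⟩ := PP_zpow_mul k g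
  have hq := qrow_ne g z
  have e : ww g z - k = -(((g 1 0 + k * (g 0 0 + g 1 0) : ℤ) : ℂ) * (z : ℂ) +
      ((g 1 1 + k * (g 0 1 + g 1 1) : ℤ) : ℂ)) /
      (((g 0 0 : ℂ) + (g 1 0 : ℂ)) * (z : ℂ) + ((g 0 1 : ℂ) + (g 1 1 : ℂ))) := by
    rw [ww_eq]
    have e0 : ∀ P Q K : ℂ, Q ≠ 0 → -P / Q - K = -(P + K * Q) / Q := by
      intro P Q K hQ
      field_simp
      ring
    rw [e0 _ _ _ hq]
    congr 2
    push_cast
    ring
  rw [e, norm_div, norm_neg, div_pow, NP, NQ, Np, Np, h1, h2]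
  push_cast
  have := z.im_pos
  have h5 := norm_pos_iff.mpr hq
  field_simp

private theorem chi_PP (g : SL(2, ℤ)) (hg : g ∈ Gam) (k : ℤ) :
    chi (PP ^ k * g) = chi g * (-1) ^ k := by
  obtain ⟨h1, h2, h3, h4⟩ := PP_zpow_mul k g
  have hodd : Odd (g 0 0 + g 1 0) := odd_col hg
  rcases Int.even_or_odd k with hk | hk
  · rw [hk.neg_one_zpow, mul_one]
    unfold chi
    have : Even ((PP ^ k * g) 1 0) ↔ Even (g 1 0) := by
      rw [h1, Int.even_add]
      simp [hk.mul_right]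
    simp only [this]
  · rw [hk.neg_one_zpow]
    unfold chi
    have : Even ((PP ^ k * g) 1 0) ↔ ¬ Even (g 1 0) := by
      rw [h1, Int.even_add]
      have : ¬ Even (k * (g 0 0 + g 1 0)) := by
        rw [Int.not_even_iff_odd]
        exact hk.mul hodd
      simp [this]
    simp only [this]
    by_cases h : Even (g 1 0) <;> simp [h]

private theorem ww_im_pos (g : SL(2, ℤ)) (z : ℍ) : 0 < (ww g z).im := by
  rw [ww_im]; exact one_div_pos.mpr (NQ_pos' g z)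

private theorem th2_sub_nat (w : ℂ) (hw : 0 < w.im) (n : ℕ) :
    th2 (w + n) = cexp (π * I / 4) ^ n * th2 w := by
  induction n with
  | zero => simp
  | succ n ih =>
    have : w + ((n + 1 : ℕ) : ℂ) = (w + n) + 1 := by push_cast; ring
    rw [this, th2_add_one _ (by simpa using hw), ih, pow_succ]
    ring

private theorem th2_sub_int (w : ℂ) (hw : 0 < w.im) (k : ℤ) :
    th2 (w - k) = cexp (π * I / 4) ^ (-k) * th2 w := by
  have hne : cexp (π * I / 4) ≠ 0 := Complex.exp_ne_zero _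
  rcases Int.le_total 0 k with hk | hk
  · obtain ⟨n, rfl⟩ := Int.eq_ofNat_of_zero_le hk
    have h := th2_sub_nat (w - ((n : ℤ) : ℂ)) (by simpa using hw) n
    have e : w - ((n : ℤ) : ℂ) + (n : ℂ) = w := by push_cast; ring
    rw [e] at h
    rw [h, zpow_neg, zpow_natCast]
    field_simp
  · obtain ⟨n, hn⟩ := Int.eq_ofNat_of_zero_le (Int.neg_nonneg.mpr hk)
    have h := th2_sub_nat w hw n
    have e : w - (k : ℂ) = w + (n : ℂ) := by
      have : (k : ℂ) = -(n : ℂ) := by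
        have h2 : k = -(n : ℤ) := by omega
        rw [h2]; push_cast; ring
      rw [this]; ring
    rw [e, h, hn, zpow_natCast]

theorem term_Q (r : ℝ) {g : SL(2, ℤ)} (hg : g ∈ Gam) (z : ℍ) (k : ℤ) :
    chi (PP ^ k * g) * phh r ((PP ^ k * g) • z) =
      chi g * cexp (-(π * I * r)) * (kp ^ k * AA r (ww g z - k)) / th2 (ww g z) := by
  obtain ⟨h1, h2, h3, h4⟩ := PP_zpow_mul k g
  have hw := ww_im_pos g z
  have hwk : 0 < (ww g z - k).im := by simpa using hw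
  have hwk0 : ww g z - k ≠ 0 := by
    intro h; rw [h] at hwk; simp at hwk
  -- the point
  have hww : ww (PP ^ k * g) z = ww g z - k := by
    rw [ww_eq, ww_eq]
    have e3 : (((PP ^ k * g) 0 0 : ℤ) : ℂ) + (((PP ^ k * g) 1 0 : ℤ) : ℂ) =
        (g 0 0 : ℂ) + (g 1 0 : ℂ) := by exact_mod_cast h3
    have e4 : (((PP ^ k * g) 0 1 : ℤ) : ℂ) + (((PP ^ k * g) 1 1 : ℤ) : ℂ) =
        (g 0 1 : ℂ) + (g 1 1 : ℂ) := by exact_mod_cast h4
    rw [e3, e4, h1, h2]
    have hq := qrow_ne g z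
    have e0 : ∀ P Q K : ℂ, Q ≠ 0 → -P / Q - K = -(P + K * Q) / Q := by
      intro P Q K hQ
      field_simp
      ring
    rw [e0 _ _ _ hq]
    congr 2
    push_cast
    ring
  have hpt : (((PP ^ k * g) • z : ℍ) : ℂ) = -1 - 1 / (ww g z - k) := by
    rw [← hww, ww]
    have := add_one_ne ((PP ^ k * g) • z)
    field_simp
    ring
  have hIw : -I * (ww g z - k) ≠ 0 := mul_ne_zero (neg_ne_zero.mpr Complex.I_ne_zero) hwk0
  have hpne : (-I * (ww g z - k)) ^ (1 / 2 : ℂ) ≠ 0 := by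
    rw [Complex.cpow_def_of_ne_zero hIw]
    exact Complex.exp_ne_zero _
  have hth : th2 (ww g z) ≠ 0 := th2_ne_zero _ hw
  have hne : cexp (π * I / 4) ≠ 0 := Complex.exp_ne_zero _
  rw [chi_PP g hg, phh, hpt, theta_neg_one_sub _ hwk, th2_sub_int _ hw, AA, Complex.cpow_neg, kp]
  have e5 : cexp (π * I * r * (-1 - 1 / (ww g z - k))) =
      cexp (-(π * I * r)) * cexp (-(π * I * r / (ww g z - k))) := by
    rw [← Complex.exp_add]
    congr 1
    field_simp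
    ring
  rw [e5]
  have e6 : (-cexp (π * I / 4)) ^ k = (-1) ^ k * cexp (π * I / 4) ^ k := by
    rw [neg_eq_neg_one_mul, mul_zpow]
  rw [e6, zpow_neg]
  have hz : cexp (π * I / 4) ^ k ≠ 0 := zpow_ne_zero _ hne
  field_simp

theorem sqrt_W_eq {g : SL(2, ℤ)} (hg : g ∈ Gam) (z : ℍ) :
    Real.sqrt (W z) = ‖th2 (ww g z)‖ * (ww g z).im ^ (1 / 4 : ℝ) := by
  have hw := ww_im_pos g z
  have hw0 : ww g z ≠ 0 := by
    intro h; rw [h] at hw; simp at hw
  have hpt : ((g • z : ℍ) : ℂ) = -1 - 1 / (ww g z) := by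
    rw [ww]
    have := add_one_ne (g • z)
    field_simp
    ring
  have h := W_eq_th2 (g • z) ⟨ww g z, hw⟩ hpt
  rw [W_smul hg] at h
  rw [h]
  change Real.sqrt (‖th2 (ww g z)‖ ^ 2 * Real.sqrt (ww g z).im) = _
  rw [Real.sqrt_mul (by positivity), Real.sqrt_sq (norm_nonneg _)]
  congr 1
  rw [Real.sqrt_eq_rpow, Real.sqrt_eq_rpow, ← Real.rpow_mul hw.le]
  norm_num

/-- terms of a P-block -/
theorem term_P (r : ℝ) {g : SL(2, ℤ)} (hg : g ∈ Gam) (z : ℍ) (k : ℤ) :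
    chi ((ModularGroup.T ^ 2) ^ k * g) * phh r (((ModularGroup.T ^ 2) ^ k * g) • z) =
      chi g * phh r (g • z) * cexp (2 * π * I * r * k) := by
  obtain ⟨h1, h2, h3, h4⟩ := T_zpow_mul k g
  have hchi : chi ((ModularGroup.T ^ 2) ^ k * g) = chi g := by
    unfold chi
    rw [h3]
  have hpt : ((((ModularGroup.T ^ 2) ^ k * g) • z : ℍ) : ℂ) = ((g • z : ℍ) : ℂ) + 2 * k := by
    rw [coe_smul, coe_smul, h1, h2, h3, h4]
    have := denom_ne g z
    push_cast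
    field_simp
    ring
  have hθ : ∀ (n : ℕ) (u : ℂ), jacobiTheta (u + 2 * n) = jacobiTheta u := by
    intro n
    induction n with
    | zero => intro u; simp
    | succ n ih =>
      intro u
      have e : u + 2 * ((n + 1 : ℕ) : ℂ) = 2 + (u + 2 * n) := by push_cast; ring
      rw [e, jacobiTheta_two_add, ih]
  have hθ' : jacobiTheta (((g • z : ℍ) : ℂ) + 2 * k) = jacobiTheta ((g • z : ℍ) : ℂ) := by
    rcases Int.le_total 0 k with hk | hk
    · obtain ⟨n, rfl⟩ := Int.eq_ofNat_of_zero_le hk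
      exact hθ n _
    · obtain ⟨n, hn⟩ := Int.eq_ofNat_of_zero_le (Int.neg_nonneg.mpr hk)
      have e : ((g • z : ℍ) : ℂ) = (((g • z : ℍ) : ℂ) + 2 * k) + 2 * n := by
        have : (k : ℂ) = -(n : ℂ) := by
          have h2 : k = -(n : ℤ) := by omega
          rw [h2]; push_cast; ring
        rw [this]; ring
      conv_rhs => rw [e]
      rw [hθ]
  rw [hchi, phh, phh, hpt, hθ', mul_add, Complex.exp_add]
  have e7 : (π * I * r * (2 * k) : ℂ) = 2 * π * I * r * k := by ring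
  rw [e7]
  ring

end RV11
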