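import Pool.Agent.LibRV11.U02
import Pool.Agent.LibRV11.U06a
import Pool.Agent.LibRV11.U07
import Pool.Agent.LibRV11.U08
open Complex Real MeasureTheory
open UpperHalfPlane hiding I
open scoped MatrixGroups

namespace RV11

/-! ### U11a -/

theorem U11a_norm_chi (g : SL(2, ℤ)) : ‖chi g‖ = 1 := by
  unfold chi
  split_ifs <;> simp

/-- the common argument: a block with weights of bounded variation -/
theorem U11a_block (w : ℝ → ℝ → ℝ → ℝ → ℝ) (C : ℝ)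
    (hw : ∀ up vp uq vq : ℝ, uq * vp - vq * up = 1 →
      (Function.support (fun k : ℤ => w up vp (uq + 2 * k * up) (vq + 2 * k * vp))).Finite ∧
      tv (fun k : ℤ => w up vp (uq + 2 * k * up) (vq + 2 * k * vp)) ≤ C)
    (r : ℝ) (z : ℍ) (φ : ℝ) (g : SL(2, ℤ)) (hg : g ∈ Gam) :
    ‖om r * ∑' k : ℤ, chi ((ModularGroup.T ^ 2) ^ k * g) *
      (atg w ((ModularGroup.T ^ 2) ^ k * g) z φ : ℂ) *
      phh r (((ModularGroup.T ^ 2) ^ k * g) • z)‖ * Real.sqrt (W z) ≤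
      C * Real.exp (-(π * r / NP g z)) * (NP g z) ^ (-(1 / 4) : ℝ) := by
  set W' : ℤ → ℝ := fun k => atg w ((ModularGroup.T ^ 2) ^ k * g) z φ with hW'
  have hdet := atg_det g z φ
  have hW2 : W' = fun k : ℤ => w (uu z φ (g 1 0) (g 1 1)) (vv z φ (g 1 0) (g 1 1))
      (uu z φ (g 0 0 + g 1 0) (g 0 1 + g 1 1) + 2 * k * uu z φ (g 1 0) (g 1 1))
      (vv z φ (g 0 0 + g 1 0) (g 0 1 + g 1 1) + 2 * k * vv z φ (g 1 0) (g 1 1)) := by
    ext k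
    rw [hW']
    simp only
    rw [atg_T]
    rfl
  obtain ⟨hfin, htv⟩ := hw (uu z φ (g 1 0) (g 1 1)) (vv z φ (g 1 0) (g 1 1))
    (uu z φ (g 0 0 + g 1 0) (g 0 1 + g 1 1)) (vv z φ (g 0 0 + g 1 0) (g 0 1 + g 1 1)) hdet
  rw [← hW2] at hfin htv
  have hsum : ∑' k : ℤ, chi ((ModularGroup.T ^ 2) ^ k * g) *
      (atg w ((ModularGroup.T ^ 2) ^ k * g) z φ : ℂ) *
      phh r (((ModularGroup.T ^ 2) ^ k * g) • z) =
      (chi g * phh r (g • z)) * ∑' k : ℤ, (W' k : ℂ) * cexp (2 * π * I * r * k) := by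
    rw [← tsum_mul_left]
    congr 1
    ext k
    have := term_P r hg z k
    calc _ = (chi ((ModularGroup.T ^ 2) ^ k * g) * phh r (((ModularGroup.T ^ 2) ^ k * g) • z)) *
          (W' k : ℂ) := by rw [hW']; ring
      _ = _ := by rw [this]; ring
  rw [hsum]
  have h1 := abel_om r W' hfin
  have h2 := norm_phh_smul r hg z
  have h3 : ‖om r * (chi g * phh r (g • z) * ∑' k : ℤ, (W' k : ℂ) * cexp (2 * π * I * r * k))‖ *
      Real.sqrt (W z) = ‖om r * ∑' k : ℤ, (W' k : ℂ) * cexp (2 * π * I * r * k)‖ *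
        (‖phh r (g • z)‖ * Real.sqrt (W z)) := by
    rw [norm_mul, norm_mul, norm_mul, norm_mul, U11a_norm_chi]
    ring
  rw [h3, h2]
  have h4 : 0 ≤ Real.exp (-(π * r / Np z (g 1 0) (g 1 1))) *
      (Np z (g 1 0) (g 1 1)) ^ (-(1 / 4) : ℝ) := by
    rw [← h2]; positivity
  calc _ ≤ C * (Real.exp (-(π * r / Np z (g 1 0) (g 1 1))) *
      (Np z (g 1 0) (g 1 1)) ^ (-(1 / 4) : ℝ)) :=
        mul_le_mul_of_nonneg_right (h1.trans htv) h4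
    _ = _ := by rw [← mul_assoc]; rfl

theorem block_P {Z : ℝ → ℝ} (hZ : IsKer Z) (e : Bool) : ∃ C : ℝ, ∀ r : ℝ, 0 ≤ r → ∀ J : ℝ, 1 ≤ J →
    ∀ (z : ℍ) (φ : ℝ), ∀ g ∈ Gam,
    ‖om r * ∑' k : ℤ, chi ((ModularGroup.T ^ 2) ^ k * g) *
      (atg (wP Z e J) ((ModularGroup.T ^ 2) ^ k * g) z φ : ℂ) *
      phh r (((ModularGroup.T ^ 2) ^ k * g) • z)‖ * Real.sqrt (W z) ≤
      C * Real.exp (-(π * r / NP g z)) * (NP g z) ^ (-(1 / 4) : ℝ) := by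
  obtain ⟨C, hC⟩ := tv_wP hZ e
  refine ⟨C, fun r _ J hJ z φ g hg => ?_⟩
  exact U11a_block (wP Z e J) C (hC J (by linarith)) r z φ g hg

theorem block_R {Z : ℝ → ℝ} (hZ : IsKer Z) (e : Bool) : ∃ C : ℝ, ∀ r : ℝ, 0 ≤ r → ∀ J : ℝ, 1 ≤ J →
    ∀ (z : ℍ) (φ : ℝ), ∀ g ∈ Gam,
    ‖om r * ∑' k : ℤ, chi ((ModularGroup.T ^ 2) ^ k * g) *
      (atg (wR Z e J) ((ModularGroup.T ^ 2) ^ k * g) z φ : ℂ) *
      phh r (((ModularGroup.T ^ 2) ^ k * g) • z)‖ * Real.sqrt (W z) ≤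
      C * Real.exp (-(π * r / NP g z)) * (NP g z) ^ (-(1 / 4) : ℝ) := by
  obtain ⟨C, hC⟩ := tv_wR hZ e
  refine ⟨C, fun r _ J hJ z φ g hg => ?_⟩
  exact U11a_block (wR Z e J) C (hC J (by linarith)) r z φ g hg

end RV11
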