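import Pool.Agent.LibRV11.U11a
import Pool.Agent.LibRV11.U12
open Complex Real MeasureTheory
open UpperHalfPlane hiding I
open scoped MatrixGroups

namespace RV11

/-! ### U13a -/

namespace U13a94

/-- one term of a wall sum -/
noncomputable def tm (w : ℝ → ℝ → ℝ → ℝ → ℝ) (r : ℝ) (z : ℍ) (φ : ℝ) (g : SL(2, ℤ)) : ℂ :=
  chi g * (atg w g z φ : ℂ) * phh r (g • z)

theorem tm_eq_zero {w : ℝ → ℝ → ℝ → ℝ → ℝ} {r : ℝ} {z : ℍ} {φ : ℝ} {g : SL(2, ℤ)}
    (h : atg w g z φ = 0) : tm w r z φ g = 0 := by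
  rw [tm, h]
  simp

theorem supp_finite {w : ℝ → ℝ → ℝ → ℝ → ℝ} (K : ℝ)
    (hK : ∀ g z φ, atg w g z φ ≠ 0 → NP g z * NQ g z ≤ K) (z : ℍ) (φ : ℝ) :
    {g : Gam | atg w (g : SL(2, ℤ)) z φ ≠ 0}.Finite := by
  have h1 := finite_NPNQ z K
  have h2 : {g : Gam | atg w (g : SL(2, ℤ)) z φ ≠ 0} ⊆
      (Subtype.val : Gam → SL(2, ℤ)) ⁻¹' {g : SL(2, ℤ) | NP g z * NQ g z ≤ K} := by
    intro g hg
    exact hK _ _ _ hg
  exact (h1.preimage Subtype.val_injective.injOn).subset h2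

theorem wR_ne_of_wP {Z : ℝ → ℝ} {e : Bool} {J up vp uq vq : ℝ} (h : wP Z e J up vp uq vq ≠ 0) :
    wR Z e J up vp uq vq ≠ 0 ∧ sH (Hr up vp uq vq) ≠ 0 := by
  rw [wP] at h
  exact ⟨left_ne_zero_of_mul h, right_ne_zero_of_mul h⟩

end U13a94

open U13a94

theorem VS_eq_blocksP {w : ℝ → ℝ → ℝ → ℝ → ℝ} (K : ℝ)
    (hK : ∀ g z φ, atg w g z φ ≠ 0 → NP g z * NQ g z ≤ K) (r : ℝ) (z : ℍ) (φ : ℝ) :
    VS w r {g | g 1 0 ≠ 0} z φ = om r / 2 * ∑' p : RowP, (if p.1.1 = 0 then 0 else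
      ∑' k : ℤ, chi ((ModularGroup.T ^ 2) ^ k * (fibP (p, 0) : SL(2, ℤ))) *
      (atg w ((ModularGroup.T ^ 2) ^ k * (fibP (p, 0) : SL(2, ℤ))) z φ : ℂ) *
      phh r (((ModularGroup.T ^ 2) ^ k * (fibP (p, 0) : SL(2, ℤ))) • z)) ∧
    {p : RowP | ∃ k : ℤ,
      atg w ((ModularGroup.T ^ 2) ^ k * (fibP (p, 0) : SL(2, ℤ))) z φ ≠ 0}.Finite := by
  have hspec := exists_fibP.choose_spec
  have hfib : ∀ p k, ((fibP (p, k) : Gam) : SL(2, ℤ)) 1 0 = p.1.1 ∧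
      ((fibP (p, k) : Gam) : SL(2, ℤ)) 1 1 = p.1.2 ∧
      ((fibP (p, k) : Gam) : SL(2, ℤ)) =
        (ModularGroup.T ^ 2) ^ k * ((fibP (p, 0) : Gam) : SL(2, ℤ)) := hspec
  have hfin := supp_finite K hK z φ
  constructor
  · rw [VS]
    congr 1
    have h1 : ∀ x : RowP × ℤ, Set.indicator {g : SL(2, ℤ) | g 1 0 ≠ 0}
        (fun g : SL(2, ℤ) => chi g * (atg w g z φ : ℂ) * phh r (g • z)) (fibP x : SL(2, ℤ)) =
        if x.1.1.1 = 0 then 0 else tm w r z φ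
          ((ModularGroup.T ^ 2) ^ x.2 * (fibP (x.1, 0) : SL(2, ℤ))) := by
      rintro ⟨p, k⟩
      obtain ⟨e1, e2, e3⟩ := hfib p k
      simp only
      split_ifs with h
      · rw [Set.indicator_of_notMem]
        intro hmem
        have hmem' : ((fibP (p, k) : Gam) : SL(2, ℤ)) 1 0 ≠ 0 := hmem
        rw [e1] at hmem'
        exact hmem' h
      · rw [Set.indicator_of_mem]
        · rw [e3]
          rfl
        · change ((fibP (p, k) : Gam) : SL(2, ℤ)) 1 0 ≠ 0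
          rw [e1]
          exact h
    rw [← fibP.tsum_eq]
    simp only [h1]
    have hsum : Summable (fun x : RowP × ℤ => if x.1.1.1 = 0 then (0 : ℂ) else tm w r z φ
        ((ModularGroup.T ^ 2) ^ x.2 * (fibP (x.1, 0) : SL(2, ℤ)))) := by
      apply summable_of_hasFiniteSupport
      apply (hfin.preimage fibP.injective.injOn).subset
      intro x hx
      rw [Function.mem_support] at hx
      by_contra hcon
      apply hx
      have h2 : atg w ((ModularGroup.T ^ 2) ^ x.2 * (fibP (x.1, 0) : SL(2, ℤ))) z φ = 0 := by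
        by_contra h3
        apply hcon
        change atg w (fibP x : SL(2, ℤ)) z φ ≠ 0
        rw [(hfib x.1 x.2).2.2]
        exact h3
      rw [tm_eq_zero h2, ite_self]
    rw [hsum.tsum_prod]
    refine tsum_congr fun p => ?_
    simp only
    split_ifs with h
    · simp
    · rfl
  · have h2 : {p : RowP | ∃ k : ℤ,
        atg w ((ModularGroup.T ^ 2) ^ k * (fibP (p, 0) : SL(2, ℤ))) z φ ≠ 0} ⊆
        (fun g : Gam => (fibP.symm g).1) '' {g : Gam | atg w (g : SL(2, ℤ)) z φ ≠ 0} := by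
      rintro p ⟨k, hk⟩
      refine ⟨fibP (p, k), ?_, by simp⟩
      change atg w (fibP (p, k) : SL(2, ℤ)) z φ ≠ 0
      rw [(hfib p k).2.2]
      exact hk
    exact (hfin.image _).subset h2

theorem sup_P {Z : ℝ → ℝ} (hZ : IsKer Z) (e : Bool) : ∃ C : ℝ, ∀ r : ℝ, 0 ≤ r → ∀ J : ℝ, 1 ≤ J →
    ∀ z ∈ DD, ∀ φ : ℝ,
    ‖VS (wP Z e J) r {g | g 1 0 ≠ 0} z φ‖ * Real.sqrt (W z) ≤ C := by
  classical
  obtain ⟨C1, hC1⟩ := block_P hZ e
  obtain ⟨C2, hC2⟩ := sum_S1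
  refine ⟨|C1| * C2, fun r hr J hJ z hz φ => ?_⟩
  have hspec := exists_fibP.choose_spec
  have hfib : ∀ p k, ((fibP (p, k) : Gam) : SL(2, ℤ)) 1 0 = p.1.1 ∧
      ((fibP (p, k) : Gam) : SL(2, ℤ)) 1 1 = p.1.2 ∧
      ((fibP (p, k) : Gam) : SL(2, ℤ)) =
        (ModularGroup.T ^ 2) ^ k * ((fibP (p, 0) : Gam) : SL(2, ℤ)) := hspec
  obtain ⟨h1, h2⟩ := VS_eq_blocksP (w := wP Z e J) (J ^ 2 + 1)
    (fun g z φ h => NPNQ_le hZ hJ g z φ (wR_ne_of_wP h).1) r z φ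
  set G : RowP → SL(2, ℤ) := fun p => ((fibP (p, 0) : Gam) : SL(2, ℤ)) with hG
  set P' : Finset RowP := h2.toFinset with hP'
  set bl : RowP → ℂ := fun p => if p.1.1 = 0 then 0 else
      ∑' k : ℤ, chi ((ModularGroup.T ^ 2) ^ k * (fibP (p, 0) : SL(2, ℤ))) *
      (atg (wP Z e J) ((ModularGroup.T ^ 2) ^ k * (fibP (p, 0) : SL(2, ℤ))) z φ : ℂ) *
      phh r (((ModularGroup.T ^ 2) ^ k * (fibP (p, 0) : SL(2, ℤ))) • z) with hbl
  have hzero : ∀ p, p ∉ P' → bl p = 0 := by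
    intro p hp
    have h3 : ∀ k : ℤ, atg (wP Z e J)
        ((ModularGroup.T ^ 2) ^ k * (fibP (p, 0) : SL(2, ℤ))) z φ = 0 := by
      intro k
      by_contra hne
      apply hp
      rw [hP', Set.Finite.mem_toFinset]
      exact ⟨k, hne⟩
    simp only [hbl]
    simp only [h3]
    simp
  set P'' : Finset RowP := P'.filter fun p => p.1.1 ≠ 0 with hP''
  have hsum : ∑' p, bl p = ∑ p ∈ P'', bl p := by
    apply tsum_eq_sum
    intro p hp
    by_cases h3 : p ∈ P'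
    · have h4 : p.1.1 = 0 := by
        by_contra h5
        exact hp (Finset.mem_filter.mpr ⟨h3, h5⟩)
      simp only [hbl]
      rw [if_pos h4]
    · exact hzero p h3
  have hW : 0 ≤ Real.sqrt (W z) := Real.sqrt_nonneg _
  -- the bound of one block
  have hblock : ∀ p ∈ P'', ‖om r * bl p‖ * Real.sqrt (W z) ≤
      |C1| * (Np z p.1.1 p.1.2) ^ (-(1 / 4) : ℝ) := by
    intro p hp
    have h3 : p.1.1 ≠ 0 := (Finset.mem_filter.mp hp).2
    have h4 := hC1 r hr J hJ z φ (G p) (fibP (p, 0)).2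
    have h5 : NP (G p) z = Np z p.1.1 p.1.2 := by
      rw [NP, (hfib p 0).1, (hfib p 0).2.1]
    rw [h5] at h4
    simp only [hbl]
    rw [if_neg h3]
    refine h4.trans ?_
    have hNp : 0 ≤ Np z p.1.1 p.1.2 := by
      rw [Np]
      exact div_nonneg (sq_nonneg _) z.im_pos.le
    have h6 : Real.exp (-(π * r / Np z p.1.1 p.1.2)) ≤ 1 := by
      rw [Real.exp_le_one_iff, neg_nonpos]
      exact div_nonneg (mul_nonneg Real.pi_pos.le hr) hNp
    have h7 : 0 ≤ (Np z p.1.1 p.1.2) ^ (-(1 / 4) : ℝ) := Real.rpow_nonneg hNp _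
    calc C1 * Real.exp (-(π * r / Np z p.1.1 p.1.2)) * (Np z p.1.1 p.1.2) ^ (-(1 / 4) : ℝ)
        ≤ |C1| * Real.exp (-(π * r / Np z p.1.1 p.1.2)) *
          (Np z p.1.1 p.1.2) ^ (-(1 / 4) : ℝ) := by
          gcongr
          exact le_abs_self C1
      _ ≤ |C1| * 1 * (Np z p.1.1 p.1.2) ^ (-(1 / 4) : ℝ) := by gcongr
      _ = _ := by rw [mul_one]
  -- the sum over the rows
  have hinj : Set.InjOn (fun p : RowP => p.1) (P'' : Set RowP) := Subtype.val_injective.injOn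
  have hS := hC2 z hz φ (P''.image fun p : RowP => p.1) (by
    intro q hq
    obtain ⟨p, hp, rfl⟩ := Finset.mem_image.mp hq
    obtain ⟨hp1, hp2⟩ := Finset.mem_filter.mp hp
    rw [hP', Set.Finite.mem_toFinset] at hp1
    obtain ⟨k, hk⟩ := hp1
    refine ⟨p.2.1, hp2, p.2.2, ?_⟩
    set g' := (ModularGroup.T ^ 2) ^ k * (fibP (p, 0) : SL(2, ℤ)) with hg'
    have e1 : g' 1 0 = p.1.1 := by rw [hg', (T_zpow_mul k _).2.2.1, (hfib p 0).1]
    have e2 : g' 1 1 = p.1.2 := by rw [hg', (T_zpow_mul k _).2.2.2, (hfib p 0).2.1]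
    have hdet := atg_det g' z φ
    obtain ⟨h3, h4⟩ := wR_ne_of_wP hk
    simp only [atg] at hdet h3 h4
    obtain ⟨h5, -, -⟩ := sep_of_wR hZ (by linarith : 0 < J) hdet h3
    have h6 := h5.factA (lt_of_sH_ne_zero h5 h4)
    rw [e1, e2] at h6
    rcases h6.2 with h7 | h7
    · exact Or.inl ⟨h6.1.trans (by norm_num), h7⟩
    · exact Or.inr h7.le)
  rw [Finset.sum_image hinj] at hS
  rw [h1]
  change ‖om r / 2 * ∑' p, bl p‖ * Real.sqrt (W z) ≤ |C1| * C2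
  rw [hsum, Finset.mul_sum]
  calc ‖∑ p ∈ P'', om r / 2 * bl p‖ * Real.sqrt (W z)
      ≤ (∑ p ∈ P'', ‖om r / 2 * bl p‖) * Real.sqrt (W z) := by
        gcongr
        exact norm_sum_le _ _
    _ = ∑ p ∈ P'', ‖om r / 2 * bl p‖ * Real.sqrt (W z) := Finset.sum_mul _ _ _
    _ ≤ ∑ p ∈ P'', |C1| * (Np z p.1.1 p.1.2) ^ (-(1 / 4) : ℝ) := by
        refine Finset.sum_le_sum fun p hp => ?_
        refine le_trans ?_ (hblock p hp)
        gcongr
        rw [div_mul_eq_mul_div, norm_div]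
        have h8 : ‖(2 : ℂ)‖ = 2 := by simp
        rw [h8]
        linarith [norm_nonneg (om r * bl p)]
    _ = |C1| * ∑ p ∈ P'', (Np z p.1.1 p.1.2) ^ (-(1 / 4) : ℝ) := by rw [Finset.mul_sum]
    _ ≤ |C1| * C2 := by gcongr

end RV11
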