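import Pool.Agent.LibRV11.U02
open Complex Real MeasureTheory
open UpperHalfPlane hiding I
open scoped MatrixGroups

namespace RV11

/-! ### U14a -/

/-- the elementary estimate in a quarter period -/
private theorem u14_quarter (D ρ a : ℝ) (hD : 0 ≤ D) (hρ : ρ ^ 2 = D ^ 2 + 1) (hρ0 : 0 < ρ)
    (ha : 0 < a) (x y : ℝ) (hx0 : 0 ≤ x) (hxy : x ≤ y) (hy : y ≤ π / 4)
    (hx1 : ρ * Real.cos (2 * x) - D ≤ 4 * a) (hy1 : a ≤ ρ * Real.cos (2 * y) - D) :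
    y - x ≤ 18 * a := by
  have hpi := Real.pi_gt_three
  have hpi2 := Real.pi_lt_d2
  obtain ⟨s, hs⟩ : ∃ s, s = Real.sin x := ⟨_, rfl⟩
  obtain ⟨t, ht⟩ : ∃ t, t = Real.sin y := ⟨_, rfl⟩
  have hs0 : 0 ≤ s := by rw [hs]; exact Real.sin_nonneg_of_nonneg_of_le_pi hx0 (by linarith)
  have hst : s ≤ t := by
    rw [hs, ht]
    exact Real.sin_le_sin_of_le_of_le_pi_div_two (by linarith) (by linarith) hxy
  have hcx : Real.cos (2 * x) = 1 - 2 * s ^ 2 := by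
    rw [Real.cos_two_mul, hs, Real.sin_sq]
    ring
  have hcy : Real.cos (2 * y) = 1 - 2 * t ^ 2 := by
    rw [Real.cos_two_mul, ht, Real.sin_sq]
    ring
  rw [hcx] at hx1
  rw [hcy] at hy1
  obtain ⟨m, hm⟩ : ∃ m, m = ρ - D := ⟨_, rfl⟩
  have hmul : m * (ρ + D) = 1 := by rw [hm]; nlinarith
  have hDρ : D ≤ ρ := by nlinarith
  have hρ1 : 1 ≤ ρ := by nlinarith
  have hm0 : 0 < m := by
    by_contra hcon
    push Not at hcon
    nlinarith
  -- 1 ≤ 2 ρ m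
  have hm1 : 1 ≤ 2 * ρ * m := by nlinarith
  have h1 : m - 4 * a ≤ 2 * ρ * s ^ 2 := by rw [hm]; linarith
  have h2 : 2 * ρ * t ^ 2 ≤ m - a := by rw [hm]; linarith
  have ht0 : 0 ≤ t := hs0.trans hst
  have hts : t - s ≤ 8 * a := by
    by_cases hc : m < 8 * a
    · -- t ≤ m
      have : t ≤ m := by
        by_contra hcon
        push Not at hcon
        have e1 : m ^ 2 < t ^ 2 := by nlinarith
        have e2 : 2 * ρ * m ^ 2 ≤ 2 * ρ * t ^ 2 := by nlinarith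
        have e3 : m ≤ 2 * ρ * m ^ 2 := by nlinarith
        linarith
      linarith
    · push Not at hc
      -- s ≥ 1/(3ρ)
      have e1 : m / 2 ≤ 2 * ρ * s ^ 2 := by linarith
      have e2 : 1 ≤ (3 * ρ * s) ^ 2 := by
        have : (3 * ρ * s) ^ 2 = 9 / 2 * ρ * (2 * ρ * s ^ 2) := by ring
        rw [this]
        nlinarith
      have e3 : 1 ≤ 3 * ρ * s := by
        by_contra hcon
        push Not at hcon
        have : 0 ≤ 3 * ρ * s := by positivity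
        nlinarith
      have e4 : 2 * ρ * ((t - s) * (t + s)) ≤ 3 * a := by nlinarith
      have e5 : (t - s) * 2 ≤ (t - s) * (3 * ρ * (t + s)) := by
        refine mul_le_mul_of_nonneg_left ?_ (by linarith)
        nlinarith
      nlinarith
  -- from sines to angles
  have h3 : t - s = 2 * Real.sin ((y - x) / 2) * Real.cos ((y + x) / 2) := by
    rw [ht, hs, Real.sin_sub_sin]
  have h4 : 2 / π * ((y - x) / 2) ≤ Real.sin ((y - x) / 2) :=
    Real.mul_le_sin (by linarith) (by linarith)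
  have h5 : 7 / 10 ≤ Real.cos ((y + x) / 2) := by
    have h6 : Real.cos (π / 4) ≤ Real.cos ((y + x) / 2) :=
      Real.cos_le_cos_of_nonneg_of_le_pi (by linarith) (by linarith) (by linarith)
    have h7 : (7 / 10 : ℝ) ≤ Real.cos (π / 4) := by
      rw [Real.cos_pi_div_four]
      have : (7 / 5 : ℝ) ≤ √2 := Real.le_sqrt_of_sq_le (by norm_num)
      linarith
    linarith
  have h8 : (y - x) / π * (7 / 5) ≤ 8 * a := by
    have e0 : 0 ≤ (y - x) / π := div_nonneg (by linarith) (by linarith)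
    have e1 : (y - x) / π ≤ Real.sin ((y - x) / 2) := by
      have : 2 / π * ((y - x) / 2) = (y - x) / π := by field_simp
      linarith
    have e2 : (y - x) / π * (7 / 10) ≤ Real.sin ((y - x) / 2) * Real.cos ((y + x) / 2) :=
      mul_le_mul e1 h5 (by norm_num) (e0.trans e1)
    linarith
  rw [div_mul_eq_mul_div, div_le_iff₀ (by linarith)] at h8
  nlinarith

private theorem u14_diam (D ρ a : ℝ) (hD : 0 ≤ D) (hρ : ρ ^ 2 = D ^ 2 + 1) (hρ0 : 0 < ρ)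
    (ha : 0 < a) (x y : ℝ) (hx0 : 0 ≤ x) (hx4 : x ≤ π / 4) (hy0 : 0 ≤ y) (hy : y ≤ π / 4)
    (hx : a ≤ ρ * Real.cos (2 * x) - D ∧ ρ * Real.cos (2 * x) - D ≤ 4 * a)
    (hy1 : a ≤ ρ * Real.cos (2 * y) - D ∧ ρ * Real.cos (2 * y) - D ≤ 4 * a) :
    |x - y| ≤ 18 * a := by
  rcases le_total x y with h | h
  · rw [abs_sub_comm, abs_of_nonneg (by linarith)]
    exact u14_quarter D ρ a hD hρ hρ0 ha x y hx0 h hy hx.2 hy1.1
  · rw [abs_of_nonneg (by linarith)]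
    exact u14_quarter D ρ a hD hρ hρ0 ha y x hy0 h hx4 hy1.2 hx.1

private theorem u14_core0 (D ρ a : ℝ) (hD : 0 ≤ D) (hρ : ρ ^ 2 = D ^ 2 + 1) (hρ0 : 0 < ρ)
    (ha : 0 < a) :
    volume {φ : ℝ | φ ∈ Set.Ioc 0 π ∧ (a ≤ ρ * Real.cos (2 * φ) - D ∧
      ρ * Real.cos (2 * φ) - D ≤ 4 * a)} ≤ ENNReal.ofReal (36 * a) := by
  have hsub : {φ : ℝ | φ ∈ Set.Ioc 0 π ∧ (a ≤ ρ * Real.cos (2 * φ) - D ∧
      ρ * Real.cos (2 * φ) - D ≤ 4 * a)} ⊆
      {φ : ℝ | (0 ≤ φ ∧ φ ≤ π / 4) ∧ (a ≤ ρ * Real.cos (2 * φ) - D ∧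
        ρ * Real.cos (2 * φ) - D ≤ 4 * a)} ∪
      {φ : ℝ | (3 * π / 4 ≤ φ ∧ φ ≤ π) ∧ (a ≤ ρ * Real.cos (2 * φ) - D ∧
        ρ * Real.cos (2 * φ) - D ≤ 4 * a)} := by
    rintro φ ⟨⟨h1, h2⟩, h3, h4⟩
    by_cases hc : φ ≤ π / 4
    · exact Or.inl ⟨⟨h1.le, hc⟩, h3, h4⟩
    · by_cases hc' : 3 * π / 4 ≤ φ
      · exact Or.inr ⟨⟨hc', h2⟩, h3, h4⟩
      · exfalso
        push Not at hc hc'
        have := Real.cos_nonpos_of_pi_div_two_le_of_le (x := 2 * φ) (by linarith) (by linarith)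
        nlinarith
  refine (measure_mono hsub).trans ((measure_union_le _ _).trans ?_)
  have h36 : ENNReal.ofReal (36 * a) = ENNReal.ofReal (18 * a) + ENNReal.ofReal (18 * a) := by
    rw [← ENNReal.ofReal_add (by linarith) (by linarith)]
    congr 1
    ring
  rw [h36]
  refine add_le_add ?_ ?_
  · refine (Real.volume_le_diam _).trans (Metric.ediam_le ?_)
    rintro x ⟨⟨hx0, hx4⟩, hx⟩ y ⟨⟨hy0, hy4⟩, hy⟩
    rw [edist_dist, Real.dist_eq]
    exact ENNReal.ofReal_le_ofReal (u14_diam D ρ a hD hρ hρ0 ha x y hx0 hx4 hy0 hy4 hx hy)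
  · refine (Real.volume_le_diam _).trans (Metric.ediam_le ?_)
    rintro x ⟨⟨hx0, hx4⟩, hx⟩ y ⟨⟨hy0, hy4⟩, hy⟩
    have e : ∀ t : ℝ, Real.cos (2 * (π - t)) = Real.cos (2 * t) := by
      intro t
      rw [show 2 * (π - t) = 2 * π - 2 * t by ring, Real.cos_two_pi_sub]
    rw [edist_dist, Real.dist_eq]
    refine ENNReal.ofReal_le_ofReal ?_
    have := u14_diam D ρ a hD hρ hρ0 ha (π - x) (π - y) (by linarith) (by linarith)
      (by linarith) (by linarith) (by rw [e]; exact hx) (by rw [e]; exact hy)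
    rw [show π - x - (π - y) = -(x - y) by ring, abs_neg] at this
    exact this

private theorem u14_core (D ρ a γ : ℝ) (hD : 0 ≤ D) (hρ : ρ ^ 2 = D ^ 2 + 1) (hρ0 : 0 < ρ)
    (ha : 0 < a) :
    volume {φ : ℝ | φ ∈ Set.Ioc 0 π ∧ (a ≤ ρ * Real.cos (2 * φ - γ) - D ∧
      ρ * Real.cos (2 * φ - γ) - D ≤ 4 * a)} ≤ ENNReal.ofReal (36 * a) := by
  obtain ⟨F, hF⟩ : ∃ F : Set ℝ, F = {φ : ℝ | a ≤ ρ * Real.cos (2 * φ) - D ∧
      ρ * Real.cos (2 * φ) - D ≤ 4 * a} := ⟨_, rfl⟩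
  have hFm : MeasurableSet F := by
    rw [hF]
    have m1 : Measurable (fun φ : ℝ => ρ * Real.cos (2 * φ) - D) := by fun_prop
    have e0 : {φ : ℝ | a ≤ ρ * Real.cos (2 * φ) - D ∧ ρ * Real.cos (2 * φ) - D ≤ 4 * a} =
      {φ : ℝ | a ≤ ρ * Real.cos (2 * φ) - D} ∩ {φ : ℝ | ρ * Real.cos (2 * φ) - D ≤ 4 * a} :=
      Set.ext fun _ => Iff.rfl
    rw [e0]
    exact (measurableSet_le measurable_const m1).inter (measurableSet_le m1 measurable_const)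
  have hf : Measurable (F.indicator (fun _ => (1 : ENNReal))) :=
    measurable_const.indicator hFm
  have hper : ∀ φ, F.indicator (fun _ => (1 : ENNReal)) (φ + π) =
      F.indicator (fun _ => (1 : ENNReal)) φ := by
    intro φ
    have : φ + π ∈ F ↔ φ ∈ F := by
      rw [hF]
      simp only [Set.mem_ofPred_eq]
      rw [show 2 * (φ + π) = 2 * φ + 2 * π by ring, Real.cos_add_two_pi]
    by_cases h : φ ∈ F
    · rw [Set.indicator_of_mem h, Set.indicator_of_mem (this.2 h)]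
    · rw [Set.indicator_of_notMem h, Set.indicator_of_notMem (fun h' => h (this.1 h'))]
  have hshift := lintegral_shift _ hf hper (-(γ / 2))
  have e1 : ∫⁻ φ in Set.Ioc 0 π, F.indicator (fun _ => (1 : ENNReal)) (φ + -(γ / 2)) =
      volume {φ : ℝ | φ ∈ Set.Ioc 0 π ∧ (a ≤ ρ * Real.cos (2 * φ - γ) - D ∧
      ρ * Real.cos (2 * φ - γ) - D ≤ 4 * a)} := by
    have hG : MeasurableSet {φ : ℝ | a ≤ ρ * Real.cos (2 * φ - γ) - D ∧
        ρ * Real.cos (2 * φ - γ) - D ≤ 4 * a} := by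
      have m1 : Measurable (fun φ : ℝ => ρ * Real.cos (2 * φ - γ) - D) := by fun_prop
      have e0 : {φ : ℝ | a ≤ ρ * Real.cos (2 * φ - γ) - D ∧
        ρ * Real.cos (2 * φ - γ) - D ≤ 4 * a} =
        {φ : ℝ | a ≤ ρ * Real.cos (2 * φ - γ) - D} ∩
        {φ : ℝ | ρ * Real.cos (2 * φ - γ) - D ≤ 4 * a} := Set.ext fun _ => Iff.rfl
      rw [e0]
      exact (measurableSet_le measurable_const m1).inter (measurableSet_le m1 measurable_const)
    have : (fun φ : ℝ => F.indicator (fun _ => (1 : ENNReal)) (φ + -(γ / 2))) =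
        {φ : ℝ | a ≤ ρ * Real.cos (2 * φ - γ) - D ∧
          ρ * Real.cos (2 * φ - γ) - D ≤ 4 * a}.indicator (fun _ => (1 : ENNReal)) := by
      funext φ
      rw [hF]
      simp only [Set.indicator, Set.mem_ofPred_eq]
      rw [show 2 * (φ + -(γ / 2)) = 2 * φ - γ by ring]
    rw [this, lintegral_indicator hG, setLIntegral_one, Measure.restrict_apply hG]
    congr 1
    ext φ
    simp only [Set.mem_inter_iff, Set.mem_ofPred_eq]
    tauto
  have e2 : ∫⁻ φ in Set.Ioc 0 π, F.indicator (fun _ => (1 : ENNReal)) φ =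
      volume {φ : ℝ | φ ∈ Set.Ioc 0 π ∧ (a ≤ ρ * Real.cos (2 * φ) - D ∧
      ρ * Real.cos (2 * φ) - D ≤ 4 * a)} := by
    rw [lintegral_indicator hFm, setLIntegral_one, Measure.restrict_apply hFm]
    congr 1
    ext φ
    rw [hF]
    simp only [Set.mem_inter_iff, Set.mem_ofPred_eq]
    tauto
  rw [← e1, hshift, e2]
  exact u14_core0 D ρ a hD hρ hρ0 ha

/-- `2 u_p u_q = dot - ρ cos (2 φ - γ)`. -/
private theorem u14_polar (g : SL(2, ℤ)) (z : ℍ) : ∃ D ρ γ : ℝ, 0 < ρ ∧ ρ ^ 2 = D ^ 2 + 1 ∧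
    ∀ φ : ℝ, uu z φ (g 1 0) (g 1 1) * uu z φ (g 0 0 + g 1 0) (g 0 1 + g 1 1) +
      vv z φ (g 1 0) (g 1 1) * vv z φ (g 0 0 + g 1 0) (g 0 1 + g 1 1) = D ∧
      2 * (uu z φ (g 1 0) (g 1 1) * uu z φ (g 0 0 + g 1 0) (g 0 1 + g 1 1)) =
        D - ρ * Real.cos (2 * φ - γ) := by
  have hy : 0 < z.im := z.im_pos
  have hsy : 0 < Real.sqrt z.im := Real.sqrt_pos.2 hy
  have hsq : Real.sqrt z.im ^ 2 = z.im := Real.sq_sqrt hy.le
  obtain ⟨S, hS⟩ : ∃ S, S = Real.sqrt z.im := ⟨_, rfl⟩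
  obtain ⟨c, hc⟩ : ∃ c : ℝ, c = (g 1 0 : ℝ) := ⟨_, rfl⟩
  obtain ⟨d, hd⟩ : ∃ c : ℝ, c = (g 1 1 : ℝ) := ⟨_, rfl⟩
  obtain ⟨a, ha⟩ : ∃ c : ℝ, c = (g 0 0 : ℝ) := ⟨_, rfl⟩
  obtain ⟨b, hb⟩ : ∃ c : ℝ, c = (g 0 1 : ℝ) := ⟨_, rfl⟩
  have hdet : a * d - b * c = 1 := by
    have h := g.det_coe
    rw [Matrix.det_fin_two] at h
    rw [ha, hb, hc, hd]
    exact_mod_cast h
  -- a1 = (c x + d)/S, b1 = c y / S
  obtain ⟨a1, ha1⟩ : ∃ t, t = (c * z.re + d) / S := ⟨_, rfl⟩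
  obtain ⟨b1, hb1⟩ : ∃ t, t = c * z.im / S := ⟨_, rfl⟩
  obtain ⟨a2, ha2⟩ : ∃ t, t = ((a + c) * z.re + (b + d)) / S := ⟨_, rfl⟩
  obtain ⟨b2, hb2⟩ : ∃ t, t = (a + c) * z.im / S := ⟨_, rfl⟩
  have hSS : S * S = z.im := by rw [hS, ← sq, hsq]
  have hS0 : S ≠ 0 := by rw [hS]; exact hsy.ne'
  have hdet2 : b2 * a1 - a2 * b1 = 1 := by
    rw [ha1, ha2, hb1, hb2]
    field_simp
    rw [sq, hSS]
    linear_combination z.im * hdet
  have huP : ∀ φ, uu z φ c d = a1 * Real.sin φ + b1 * Real.cos φ := by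
    intro φ
    unfold uu
    rw [ha1, hb1, ← hS]
    ring
  have hvP : ∀ φ, vv z φ c d = a1 * Real.cos φ - b1 * Real.sin φ := by
    intro φ
    unfold vv
    rw [ha1, hb1, ← hS]
    ring
  have huQ : ∀ φ, uu z φ (a + c) (b + d) = a2 * Real.sin φ + b2 * Real.cos φ := by
    intro φ
    unfold uu
    rw [ha2, hb2, ← hS]
    ring
  have hvQ : ∀ φ, vv z φ (a + c) (b + d) = a2 * Real.cos φ - b2 * Real.sin φ := by
    intro φ
    unfold vv
    rw [ha2, hb2, ← hS]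
    ring
  obtain ⟨w, hw⟩ : ∃ w : ℂ, w = ⟨a1 * a2 - b1 * b2, -(a1 * b2 + a2 * b1)⟩ := ⟨_, rfl⟩
  have hre : w.re = a1 * a2 - b1 * b2 := by rw [hw]
  have him : w.im = -(a1 * b2 + a2 * b1) := by rw [hw]
  have hn : ‖w‖ ^ 2 = (a1 * a2 + b1 * b2) ^ 2 + 1 := by
    rw [← Complex.normSq_eq_norm_sq, Complex.normSq_apply, hre, him]
    have : (1 : ℝ) = (b2 * a1 - a2 * b1) ^ 2 := by rw [hdet2]; norm_num
    linear_combination -this
  have hwpos : 0 < ‖w‖ := by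
    by_contra hcon
    have : ‖w‖ = 0 := le_antisymm (not_lt.1 hcon) (norm_nonneg _)
    rw [this] at hn
    nlinarith [sq_nonneg (a1 * a2 + b1 * b2)]
  refine ⟨a1 * a2 + b1 * b2, ‖w‖, Complex.arg w, hwpos, hn, fun φ => ?_⟩
  rw [← ha, ← hb, ← hc, ← hd, huP, huQ, hvP, hvQ]
  have hc2 : ‖w‖ * Real.cos (Complex.arg w) = a1 * a2 - b1 * b2 := by
    rw [Complex.norm_mul_cos_arg, hre]
  have hs2 : ‖w‖ * Real.sin (Complex.arg w) = -(a1 * b2 + a2 * b1) := by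
    rw [Complex.norm_mul_sin_arg, him]
  have hsc := Real.sin_sq_add_cos_sq φ
  constructor
  · linear_combination (a1 * a2 + b1 * b2) * hsc
  · rw [Real.cos_sub, Real.cos_two_mul, Real.sin_two_mul]
    linear_combination (2 * Real.cos φ ^ 2 - 1) * hc2 +
      (2 * Real.sin φ * Real.cos φ) * hs2 + (2 * (a1 * a2)) * hsc

/-- (E0): one wall is seen in an angle set of measure `≤ C/J`. -/
theorem mes_wall {Z : ℝ → ℝ} (hZ : IsKer Z) (e : Bool) : ∃ C : ℝ, ∀ J : ℝ, 1 ≤ J →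
    ∀ (g : SL(2, ℤ)) (z : ℍ),
    volume {φ : ℝ | φ ∈ Set.Ioc 0 π ∧ atg (wR Z e J) g z φ ≠ 0} ≤ ENNReal.ofReal (C / J) := by
  refine ⟨36, fun J hJ g z => ?_⟩
  have hJ0 : 0 < J := by linarith
  have ha : 0 < 1 / J := by positivity
  obtain ⟨D, ρ, γ, hρ0, hρ, hφ⟩ := u14_polar g z
  have e36 : (36 : ℝ) / J = 36 * (1 / J) := by ring
  rw [e36]
  have hmain : ∀ φ : ℝ, atg (wR Z e J) g z φ ≠ 0 →
      (0 < D → (1 / J ≤ ρ * Real.cos (2 * φ - γ) - D ∧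
        ρ * Real.cos (2 * φ - γ) - D ≤ 4 * (1 / J))) ∧
      (¬ 0 < D → (1 / J ≤ ρ * Real.cos (2 * φ - (γ + π)) - (-D) ∧
        ρ * Real.cos (2 * φ - (γ + π)) - (-D) ≤ 4 * (1 / J))) := by
    intro φ h
    obtain ⟨hD, h2⟩ := hφ φ
    have hdet := atg_det g z φ
    unfold atg at h hdet
    obtain ⟨hsep, hl, hu⟩ := sep_of_wR hZ hJ0 hdet h
    obtain ⟨δ, hδ⟩ : ∃ δ, δ = uu z φ (g 1 0) (g 1 1) *
      uu z φ (g 0 0 + g 1 0) (g 0 1 + g 1 1) := ⟨_, rfl⟩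
    have hs := hsep.s
    unfold sepR at hs
    rw [hD, ← hδ] at hs
    rw [← hδ] at h2 hl hu
    have hδ0 : δ ≠ 0 := by
      intro h0
      rw [h0, abs_zero] at hl
      have : 0 < 1 / (2 * J) := by positivity
      linarith
    have e1 : 1 / (2 * J) = 1 / J / 2 := by field_simp
    have e2 : 2 / J = 2 * (1 / J) := by ring
    rw [e1] at hl
    rw [e2] at hu
    constructor
    · intro hDp
      have hneg : δ < 0 := by
        by_contra hcon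
        have hpos : 0 < δ := lt_of_le_of_ne (not_lt.1 hcon) (Ne.symm hδ0)
        apply hs
        unfold ind
        rw [if_pos hDp, if_pos hpos, sub_self]
      rw [abs_of_neg hneg] at hl hu
      constructor <;> linarith
    · intro hDn
      have hpos : 0 < δ := by
        by_contra hcon
        apply hs
        unfold ind
        rw [if_neg hDn, if_neg hcon, sub_self]
      rw [abs_of_pos hpos] at hl hu
      rw [show 2 * φ - (γ + π) = 2 * φ - γ - π by ring, Real.cos_sub_pi]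
      constructor <;> linarith
  by_cases hDp : 0 < D
  · refine (measure_mono ?_).trans (u14_core D ρ (1 / J) γ hDp.le hρ hρ0 ha)
    rintro φ ⟨h1, h2⟩
    exact ⟨h1, (hmain φ h2).1 hDp⟩
  · refine (measure_mono ?_).trans (u14_core (-D) ρ (1 / J) (γ + π) (by linarith)
      (by rw [hρ]; ring) hρ0 ha)
    rintro φ ⟨h1, h2⟩
    exact ⟨h1, (hmain φ h2).2 hDp⟩

end RV11
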