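import Pool.Agent.LibRV11.U02
import Pool.Agent.LibRV11.U14a
import Pool.Agent.LibRV11.TH13
import Pool.Agent.LibRV11.U07
open Complex Real MeasureTheory
open UpperHalfPlane hiding I
open scoped MatrixGroups

namespace RV11

/-! ### U14b -/

theorem U14b_atg (w : ℝ → ℝ → ℝ → ℝ → ℝ) (k : ℤ) (z : ℍ) (φ : ℝ) :
    atg w ((ModularGroup.T ^ 2) ^ k) z φ =
      w (Real.sin φ / Real.sqrt z.im) (Real.cos φ / Real.sqrt z.im)
        (((z.re + 2 * k + 1) * Real.sin φ + z.im * Real.cos φ) / Real.sqrt z.im)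
        (((z.re + 2 * k + 1) * Real.cos φ - z.im * Real.sin φ) / Real.sqrt z.im) := by
  obtain ⟨h1, h2, h3, h4⟩ := T_zpow_mul k 1
  rw [mul_one] at h1 h2 h3 h4
  unfold atg
  rw [h1, h2, h3, h4]
  unfold uu vv
  simp only [Matrix.SpecialLinearGroup.coe_one, Matrix.one_apply_eq, ne_eq, one_ne_zero,
    not_false_eq_true, Matrix.one_apply_ne, zero_ne_one]
  push_cast
  congr 1 <;> ring

/-- the sign analysis -/
theorem U14b_sep {Z : ℝ → ℝ} (hZ : IsKer Z) (e : Bool) {J : ℝ} (hJ : 1 ≤ J) {y X s c : ℝ}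
    (hy : 0 < y) (hsc : s ^ 2 + c ^ 2 = 1)
    (h : wR Z e J (s / Real.sqrt y) (c / Real.sqrt y) ((X * s + y * c) / Real.sqrt y)
      ((X * c - y * s) / Real.sqrt y) ≠ 0) :
    |X| * |s| < y * |c| ∧ 1 / (2 * J) ≤ |s * (X * s + y * c)| / y ∧
      |s * (X * s + y * c)| ≤ y * (|s| * |c|) ∧
      Sep (s / Real.sqrt y) (c / Real.sqrt y) ((X * s + y * c) / Real.sqrt y)
      ((X * c - y * s) / Real.sqrt y) := by
  have hJ0 : 0 < J := by linarith
  have hr : Real.sqrt y * Real.sqrt y = y := Real.mul_self_sqrt hy.le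
  have hr0 : 0 < Real.sqrt y := Real.sqrt_pos.mpr hy
  have hdet : (X * s + y * c) / Real.sqrt y * (c / Real.sqrt y) -
      (X * c - y * s) / Real.sqrt y * (s / Real.sqrt y) = 1 := by
    rw [div_mul_div_comm, div_mul_div_comm, hr, ← sub_div,
      show (X * s + y * c) * c - (X * c - y * s) * s = y * (s ^ 2 + c ^ 2) by ring, hsc, mul_one,
      div_self hy.ne']
  obtain ⟨hs, h1, h2⟩ := sep_of_wR hZ hJ0 hdet h
  have hdel : s / Real.sqrt y * ((X * s + y * c) / Real.sqrt y) = s * (X * s + y * c) / y := by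
    rw [div_mul_div_comm, hr]
  have hdot : s / Real.sqrt y * ((X * s + y * c) / Real.sqrt y) +
      c / Real.sqrt y * ((X * c - y * s) / Real.sqrt y) = X / y := by
    rw [div_mul_div_comm, div_mul_div_comm, hr, ← add_div,
      show s * (X * s + y * c) + c * (X * c - y * s) = X * (s ^ 2 + c ^ 2) by ring, hsc, mul_one]
  have hs1 := hs.s
  have hs2 := hs.d
  rw [hdel] at hs2 h1
  unfold sepR ind at hs1
  rw [hdot, hdel] at hs1
  rw [abs_div, abs_of_pos hy] at h1
  have hne : s * (X * s + y * c) ≠ 0 := by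
    intro h0
    rw [h0, zero_div] at hs2
    exact hs2 rfl
  have hs0 : s ≠ 0 := fun h0 => hne (by rw [h0, zero_mul])
  have hspos : 0 < |s| := abs_pos.mpr hs0
  have habs : -(s * c) ≤ |s| * |c| ∧ s * c ≤ |s| * |c| := by
    rw [← abs_mul]
    exact ⟨neg_le_abs _, le_abs_self _⟩
  have hss : s ^ 2 = |s| * |s| := by rw [← sq_abs]; ring
  have key : |X| * |s| < y * |c| ∧ |s * (X * s + y * c)| ≤ y * (|s| * |c|) := by
    by_cases hX : 0 < X
    · rw [if_pos (div_pos hX hy)] at hs1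
      have hneg : s * (X * s + y * c) < 0 := by
        by_contra hcon
        have hpos : 0 < s * (X * s + y * c) := lt_of_le_of_ne (not_lt.mp hcon) hne.symm
        rw [if_pos (div_pos hpos hy)] at hs1
        exact hs1 (sub_self _)
      rw [abs_of_pos hX, abs_of_neg hneg]
      have e1 : s * (X * s + y * c) = X * (|s| * |s|) + y * (s * c) := by rw [← hss]; ring
      have e2 : y * (-(s * c)) ≤ y * (|s| * |c|) := mul_le_mul_of_nonneg_left habs.1 hy.le
      have e3 : 0 ≤ X * (|s| * |s|) := by positivity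
      constructor
      · have e4 : |s| * (X * |s|) < |s| * (y * |c|) := by
          rw [e1] at hneg
          linarith
        exact lt_of_mul_lt_mul_left e4 (abs_nonneg s)
      · rw [e1]
        linarith
    · have hX' : X ≤ 0 := not_lt.mp hX
      rw [if_neg (by
        intro h0
        exact absurd (div_nonpos_of_nonpos_of_nonneg hX' hy.le) (not_le.mpr h0))] at hs1
      have hpos : 0 < s * (X * s + y * c) := by
        by_contra hcon
        rw [if_neg (by
          intro h0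
          exact absurd (div_nonpos_of_nonpos_of_nonneg (not_lt.mp hcon) hy.le)
            (not_le.mpr h0))] at hs1
        exact hs1 (sub_self _)
      rw [abs_of_nonpos hX', abs_of_pos hpos]
      have e1 : s * (X * s + y * c) = -(-X * (|s| * |s|)) + y * (s * c) := by rw [← hss]; ring
      have e2 : y * (s * c) ≤ y * (|s| * |c|) := mul_le_mul_of_nonneg_left habs.2 hy.le
      have e3 : 0 ≤ -X * (|s| * |s|) := mul_nonneg (by linarith) (by positivity)
      constructor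
      · have e4 : |s| * (-X * |s|) < |s| * (y * |c|) := by
          rw [e1] at hpos
          linarith
        exact lt_of_mul_lt_mul_left e4 (abs_nonneg s)
      · rw [e1]
        linarith
  exact ⟨key.1, h1, key.2, hs⟩

/-- a vertical wall separated at `(z, φ)` satisfies `|x + 2k + 1| |sin φ| < y |cos φ|`. -/
theorem vertical_sep {Z : ℝ → ℝ} (hZ : IsKer Z) (e : Bool) {J : ℝ} (hJ : 1 ≤ J) (k : ℤ) (z : ℍ)
    (φ : ℝ) (h : atg (wR Z e J) ((ModularGroup.T ^ 2) ^ k) z φ ≠ 0) :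
    |z.re + 2 * k + 1| * |Real.sin φ| < z.im * |Real.cos φ| := by
  rw [U14b_atg] at h
  exact (U14b_sep hZ e hJ z.im_pos (Real.sin_sq_add_cos_sq φ) h).1

theorem U14b_sin_measure (m : ℝ) (hm : 0 ≤ m) :
    volume {φ : ℝ | φ ∈ Set.Ioc 0 π ∧ |Real.sin φ| < m} ≤ ENNReal.ofReal (π * m) := by
  have hpi := Real.pi_pos
  have hsub : {φ : ℝ | φ ∈ Set.Ioc 0 π ∧ |Real.sin φ| < m} ⊆
      Set.Icc 0 (π / 2 * m) ∪ Set.Icc (π - π / 2 * m) π := by
    rintro φ ⟨⟨h0, h1⟩, h2⟩
    rw [abs_of_nonneg (Real.sin_nonneg_of_nonneg_of_le_pi h0.le h1)] at h2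
    by_cases hφ : φ ≤ π / 2
    · left
      refine ⟨h0.le, ?_⟩
      have h3 := Real.mul_le_sin h0.le hφ
      have h4 : φ = π / 2 * (2 / π * φ) := by field_simp
      rw [h4]
      exact mul_le_mul_of_nonneg_left (h3.trans h2.le) (by positivity)
    · right
      refine ⟨?_, h1⟩
      have h3 := Real.mul_le_sin (x := π - φ) (by linarith) (by linarith)
      rw [Real.sin_pi_sub] at h3
      have h4 : π - φ = π / 2 * (2 / π * (π - φ)) := by field_simp
      have h5 : π / 2 * (2 / π * (π - φ)) ≤ π / 2 * m :=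
        mul_le_mul_of_nonneg_left (h3.trans h2.le) (by positivity)
      linarith
  calc volume {φ : ℝ | φ ∈ Set.Ioc 0 π ∧ |Real.sin φ| < m}
      ≤ volume (Set.Icc 0 (π / 2 * m) ∪ Set.Icc (π - π / 2 * m) π) := measure_mono hsub
    _ ≤ volume (Set.Icc 0 (π / 2 * m)) + volume (Set.Icc (π - π / 2 * m) π) :=
        measure_union_le _ _
    _ = ENNReal.ofReal (π * m) := by
        rw [Real.volume_Icc, Real.volume_Icc, ← ENNReal.ofReal_add (by
          rw [sub_zero]; positivity) (by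
          rw [sub_sub_cancel]; positivity)]
        congr 1
        ring

/-- (E1') -/
theorem mes_vertical {Z : ℝ → ℝ} (hZ : IsKer Z) (e : Bool) : ∃ C : ℝ, ∀ J : ℝ, 1 ≤ J → ∀ (z : ℍ),
    volume {φ : ℝ | φ ∈ Set.Ioc 0 π ∧
      ∃ k : ℤ, atg (wR Z e J) ((ModularGroup.T ^ 2) ^ k) z φ ≠ 0} ≤
      ENNReal.ofReal (C * (1 / J + Real.sqrt (z.im / J))) := by
  obtain ⟨C, hC⟩ := mes_wall hZ e
  refine ⟨max C 0 + π, fun J hJ z => ?_⟩
  have hpi := Real.pi_pos
  have hJ0 : 0 < J := by linarith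
  have hy := z.im_pos
  set y := z.im with hydef
  set x := z.re with hxdef
  set R := Real.sqrt (J * y) with hR
  have hR0 : 0 < R := Real.sqrt_pos.mpr (by positivity)
  have hRR : R * R = J * y := Real.mul_self_sqrt (by positivity)
  have hRJ : R / J = Real.sqrt (y / J) := by
    rw [eq_comm, Real.sqrt_eq_iff_mul_self_eq (by positivity) (by positivity)]
    rw [div_mul_div_comm, hRR]
    field_simp
  have hyR : y / R = Real.sqrt (y / J) := by
    rw [← hRJ, div_eq_div_iff hR0.ne' hJ0.ne', hRR, mul_comm]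
  set K : Finset ℤ := Finset.Icc ⌈(-R - x - 1) / 2⌉ ⌊(R - x - 1) / 2⌋ with hK
  have hsub : {φ : ℝ | φ ∈ Set.Ioc 0 π ∧
      ∃ k : ℤ, atg (wR Z e J) ((ModularGroup.T ^ 2) ^ k) z φ ≠ 0} ⊆
      (⋃ k ∈ K, {φ : ℝ | φ ∈ Set.Ioc 0 π ∧
        atg (wR Z e J) ((ModularGroup.T ^ 2) ^ k) z φ ≠ 0}) ∪
      {φ : ℝ | φ ∈ Set.Ioc 0 π ∧ |Real.sin φ| < Real.sqrt (y / J)} := by
    rintro φ ⟨hφ, k, hk⟩
    by_cases hkK : |x + 2 * k + 1| ≤ R
    · left
      rw [Set.mem_iUnion₂]
      refine ⟨k, ?_, hφ, hk⟩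
      rw [hK, Finset.mem_Icc, Int.ceil_le, Int.le_floor]
      rw [abs_le] at hkK
      constructor
      · linarith [hkK.1]
      · linarith [hkK.2]
    · right
      refine ⟨hφ, ?_⟩
      have h1 := vertical_sep hZ e hJ k z φ hk
      have h2 : R * |Real.sin φ| ≤ |x + 2 * k + 1| * |Real.sin φ| :=
        mul_le_mul_of_nonneg_right (not_le.mp hkK).le (abs_nonneg _)
      have h3 : y * |Real.cos φ| ≤ y * 1 :=
        mul_le_mul_of_nonneg_left (Real.abs_cos_le_one φ) hy.le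
      rw [← hyR, lt_div_iff₀ hR0]
      linarith
  have hcard : (K.card : ℝ) ≤ R + 1 := by
    rw [hK, Int.card_Icc]
    have h1 := Int.floor_le ((R - x - 1) / 2)
    have h2 := Int.le_ceil ((-R - x - 1) / 2)
    have h3 : ((⌊(R - x - 1) / 2⌋ + 1 - ⌈(-R - x - 1) / 2⌉ : ℤ) : ℝ) ≤ R + 1 := by
      push_cast
      linarith
    rcases le_total (⌊(R - x - 1) / 2⌋ + 1 - ⌈(-R - x - 1) / 2⌉) 0 with h | h
    · rw [Int.toNat_of_nonpos h]
      simp only [Nat.cast_zero]
      linarith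
    · have h4 : ((Int.toNat (⌊(R - x - 1) / 2⌋ + 1 - ⌈(-R - x - 1) / 2⌉) : ℕ) : ℝ) =
          ((⌊(R - x - 1) / 2⌋ + 1 - ⌈(-R - x - 1) / 2⌉ : ℤ) : ℝ) := by
        have := Int.toNat_of_nonneg h
        exact_mod_cast this
      rw [h4]
      exact h3
  have hC' : ∀ k : ℤ, volume {φ : ℝ | φ ∈ Set.Ioc 0 π ∧
        atg (wR Z e J) ((ModularGroup.T ^ 2) ^ k) z φ ≠ 0} ≤ ENNReal.ofReal (max C 0 / J) := by
    intro k
    refine (hC J hJ _ z).trans (ENNReal.ofReal_le_ofReal ?_)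
    exact div_le_div_of_nonneg_right (le_max_left _ _) hJ0.le
  calc volume {φ : ℝ | φ ∈ Set.Ioc 0 π ∧
      ∃ k : ℤ, atg (wR Z e J) ((ModularGroup.T ^ 2) ^ k) z φ ≠ 0}
      ≤ volume ((⋃ k ∈ K, {φ : ℝ | φ ∈ Set.Ioc 0 π ∧
        atg (wR Z e J) ((ModularGroup.T ^ 2) ^ k) z φ ≠ 0}) ∪
      {φ : ℝ | φ ∈ Set.Ioc 0 π ∧ |Real.sin φ| < Real.sqrt (y / J)}) := measure_mono hsub
    _ ≤ volume (⋃ k ∈ K, {φ : ℝ | φ ∈ Set.Ioc 0 π ∧
        atg (wR Z e J) ((ModularGroup.T ^ 2) ^ k) z φ ≠ 0}) +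
      volume {φ : ℝ | φ ∈ Set.Ioc 0 π ∧ |Real.sin φ| < Real.sqrt (y / J)} :=
        measure_union_le _ _
    _ ≤ ∑ k ∈ K, volume {φ : ℝ | φ ∈ Set.Ioc 0 π ∧
        atg (wR Z e J) ((ModularGroup.T ^ 2) ^ k) z φ ≠ 0} +
        ENNReal.ofReal (π * Real.sqrt (y / J)) :=
        add_le_add (measure_biUnion_finset_le _ _)
          (U14b_sin_measure _ (Real.sqrt_nonneg _))
    _ ≤ ∑ k ∈ K, ENNReal.ofReal (max C 0 / J) + ENNReal.ofReal (π * Real.sqrt (y / J)) :=
        add_le_add (Finset.sum_le_sum fun k _ => hC' k) le_rfl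
    _ = ENNReal.ofReal (K.card * (max C 0 / J) + π * Real.sqrt (y / J)) := by
        rw [Finset.sum_const, ← ENNReal.ofReal_nsmul, ← ENNReal.ofReal_add]
        · rw [nsmul_eq_mul]
        · rw [nsmul_eq_mul]
          have := le_max_right C 0
          positivity
        · positivity
    _ ≤ ENNReal.ofReal ((max C 0 + π) * (1 / J + Real.sqrt (y / J))) := by
        apply ENNReal.ofReal_le_ofReal
        have hC0 : 0 ≤ max C 0 := le_max_right C 0
        have h1 : (K.card : ℝ) * (max C 0 / J) ≤ (R + 1) * (max C 0 / J) :=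
          mul_le_mul_of_nonneg_right hcard (by positivity)
        have h2 : (R + 1) * (max C 0 / J) = max C 0 * (1 / J + R / J) := by ring
        rw [h2, hRJ] at h1
        have h3 : 0 ≤ π * (1 / J) := by positivity
        linarith

/-- (E2) -/
theorem im_ge_of_wP {Z : ℝ → ℝ} (hZ : IsKer Z) (e : Bool) {J : ℝ} (hJ : 1 ≤ J) (k : ℤ) (z : ℍ)
    (φ : ℝ) (h : atg (wP Z e J) ((ModularGroup.T ^ 2) ^ k) z φ ≠ 0) :
    1 / (5 * J) ≤ z.im := by
  rw [U14b_atg] at h
  unfold wP at h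
  have hJ0 : 0 < J := by linarith
  obtain ⟨hw, hsH⟩ := mul_ne_zero_iff.mp h
  have hy := z.im_pos
  have hsc := Real.sin_sq_add_cos_sq φ
  obtain ⟨h1, h2, h3, hsep⟩ := U14b_sep hZ e hJ hy hsc hw
  have h4 := lt_of_sH_ne_zero hsep hsH
  set y := z.im with hydef
  set s := Real.sin φ with hsdef
  set c := Real.cos φ with hcdef
  set X := z.re + 2 * k + 1 with hX
  have hr : Real.sqrt y * Real.sqrt y = y := Real.mul_self_sqrt hy.le
  rw [div_mul_div_comm, div_mul_div_comm, hr, abs_div, abs_div, abs_of_pos hy, ← mul_div_assoc,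
    div_lt_div_iff_of_pos_right hy, abs_mul, abs_mul] at h4
  -- `|s c| < 4 |Xs + yc| |Xc - ys|`
  have hA0 : 0 < |s * (X * s + y * c)| := by
    have : 0 < 1 / (2 * J) := by positivity
    have h5 := lt_of_lt_of_le this h2
    by_contra hcon
    have h6 : |s * (X * s + y * c)| = 0 := le_antisymm (not_lt.mp hcon) (abs_nonneg _)
    rw [h6, zero_div] at h5
    exact lt_irrefl _ h5
  have hs0 : 0 < |s| := by
    rw [abs_mul] at hA0
    exact pos_of_mul_pos_left hA0 (abs_nonneg _)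
  have hc0 : 0 < |c| := by
    have h5 : 0 < y * (|s| * |c|) := lt_of_lt_of_le hA0 h3
    have h6 : 0 < |s| * |c| := pos_of_mul_pos_right h5 hy.le
    exact pos_of_mul_pos_right h6 hs0.le
  have h5 : |s * (X * c - y * s)| ≤ y := by
    calc |s * (X * c - y * s)| = |X * s * c - y * s ^ 2| := by congr 1; ring
      _ ≤ |X * s * c| + |y * s ^ 2| := abs_sub _ _
      _ = (|X| * |s|) * |c| + y * s ^ 2 := by
          rw [abs_mul, abs_mul, abs_of_nonneg (by positivity : 0 ≤ y * s ^ 2)]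
      _ ≤ (y * |c|) * |c| + y * s ^ 2 := by
          have := mul_le_mul_of_nonneg_right h1.le (abs_nonneg c)
          linarith
      _ = y * (s ^ 2 + |c| ^ 2) := by ring
      _ = y := by rw [sq_abs, hsc, mul_one]
  have h6 : |s| ^ 2 * (|s| * |c|) < (2 * y) ^ 2 * (|s| * |c|) := by
    calc |s| ^ 2 * (|s| * |c|) < |s| ^ 2 * (4 * (|X * s + y * c| * |X * c - y * s|)) :=
          mul_lt_mul_of_pos_left h4 (by positivity)
      _ = 4 * (|s * (X * s + y * c)| * |s * (X * c - y * s)|) := by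
          rw [abs_mul s, abs_mul s]; ring
      _ ≤ 4 * ((y * (|s| * |c|)) * y) := by
          apply mul_le_mul_of_nonneg_left _ (by norm_num)
          exact mul_le_mul h3 h5 (abs_nonneg _) (by positivity)
      _ = (2 * y) ^ 2 * (|s| * |c|) := by ring
  have h7 : |s| ^ 2 < (2 * y) ^ 2 := lt_of_mul_lt_mul_right h6 (by positivity)
  have h8 : |s| < 2 * y := lt_of_pow_lt_pow_left₀ 2 (by positivity) h7
  have h9 : |s * (X * s + y * c)| / y ≤ |s| := by
    rw [div_le_iff₀ hy]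
    have : |s| * |c| ≤ |s| * 1 := mul_le_mul_of_nonneg_left (Real.abs_cos_le_one φ) hs0.le
    have h10 : y * (|s| * |c|) ≤ y * (|s| * 1) := mul_le_mul_of_nonneg_left this hy.le
    linarith
  have h10 : 1 / (2 * J) < 2 * y := lt_of_le_of_lt (h2.trans h9) h8
  have h11 : 1 / (5 * J) = (2 / 5) * (1 / (2 * J)) := by field_simp
  have h12 : 0 < 1 / (2 * J) := by positivity
  rw [h11]
  linarith

end RV11
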