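import Pool.Agent.LibRV11.U14a
import Pool.Agent.LibRV11.U14b
import Pool.Agent.LibRV11.TH13
open Complex Real MeasureTheory
open UpperHalfPlane hiding I
open scoped MatrixGroups

namespace RV11

/-! ### U15a -/

/-- integral of a function of the height over the strip -/
theorem U15a_strip (g : ℝ → ℝ) (hg : Measurable g) :
    ∫⁻ z : ℍ in Strip, ENNReal.ofReal (g z.im) =
      ∫⁻ y in Set.Ioi (0 : ℝ), ENNReal.ofReal (2 * (g y / y ^ 2)) := by
  have h1 := lintegral_strip (fun w : ℂ => ENNReal.ofReal (g w.im))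
    (hg.comp Complex.measurable_im).ennreal_ofReal
  have h2 : ∫⁻ z : ℍ in Strip, ENNReal.ofReal (g z.im) =
      ∫⁻ z : ℍ in Strip, (fun w : ℂ => ENNReal.ofReal (g w.im)) (z : ℂ) := rfl
  rw [h2, h1]
  refine setLIntegral_congr_fun measurableSet_Ioi fun y hy => ?_
  have hy0 : (0 : ℝ) < y := hy
  have e1 : ∀ x : ℝ, ((x : ℂ) + I * (y : ℂ)).im = y := by
    intro x
    simp
  simp only [e1]
  rw [lintegral_const, Measure.restrict_apply_univ, Real.volume_Ioo]
  have e2 : (1 : ℝ) - -1 = 2 := by norm_num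
  rw [e2, mul_comm, ENNReal.ofReal_mul (by norm_num : (0 : ℝ) ≤ 2), div_eq_mul_one_div (g y)]
  congr 1
  rw [← ENNReal.ofReal_mul' (by positivity)]

open Classical in
/-- inner integral: the measure of a set times a constant -/
theorem U15a_const (P : ℝ → Prop) {c m : ℝ} (hc : 0 ≤ c)
    (hm : volume {φ : ℝ | φ ∈ Set.Ioc 0 π ∧ P φ} ≤ ENNReal.ofReal m) :
    ∫⁻ φ in Set.Ioc (0 : ℝ) π, (if P φ then ENNReal.ofReal c else 0) ≤
      ENNReal.ofReal (c * min π m) := by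
  have h1 : ∫⁻ φ in Set.Ioc (0 : ℝ) π, (if P φ then ENNReal.ofReal c else 0) ≤
      ENNReal.ofReal c * volume {φ : ℝ | φ ∈ Set.Ioc 0 π ∧ P φ} := by
    have e1 : ∀ φ, (if P φ then ENNReal.ofReal c else 0) =
        Set.indicator {φ | P φ} (fun _ => ENNReal.ofReal c) φ := by
      intro φ
      by_cases h : P φ
      · rw [if_pos h, Set.indicator_of_mem (by exact h)]
      · rw [if_neg h, Set.indicator_of_notMem (by exact h)]
    simp only [e1]
    refine (lintegral_indicator_const_le _ _).trans (le_of_eq ?_)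
    rw [Measure.restrict_apply' measurableSet_Ioc]
    congr 2
    ext φ
    exact and_comm
  have h2 : volume {φ : ℝ | φ ∈ Set.Ioc 0 π ∧ P φ} ≤ ENNReal.ofReal π := by
    refine (measure_mono (t := Set.Ioc 0 π) fun φ h => h.1).trans (le_of_eq ?_)
    rw [Real.volume_Ioc, sub_zero]
  refine h1.trans ?_
  rw [ENNReal.ofReal_mul hc]
  refine mul_le_mul_right ?_ _
  rcases min_cases π m with h | h
  · rw [h.1]
    exact h2
  · rw [h.1]
    exact hm

theorem U15a_wP {Z : ℝ → ℝ} {e : Bool} {J : ℝ} {g : SL(2, ℤ)} {z : ℍ} {φ : ℝ}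
    (h : atg (wP Z e J) g z φ ≠ 0) : atg (wR Z e J) g z φ ≠ 0 := by
  intro h0
  apply h
  unfold atg wP
  unfold atg at h0
  rw [h0, zero_mul]

theorem U15a_min_sqrt {a b : ℝ} (ha : 0 ≤ a) (hb : 0 ≤ b) : min a b ≤ Real.sqrt (a * b) := by
  have hm : 0 ≤ min a b := le_min ha hb
  rw [← Real.sqrt_sq hm]
  refine Real.sqrt_le_sqrt ?_
  rw [sq]
  exact mul_le_mul (min_le_left _ _) (min_le_right _ _) hm ha

open Classical in
theorem U15a_inner {Z : ℝ → ℝ} (hZ : IsKer Z) (e : Bool) : ∃ C : ℝ, 0 < C ∧ ∀ J : ℝ, 1 ≤ J →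
    ∀ z : ℍ, ∀ c : ℝ, 0 ≤ c →
    ∫⁻ φ in Set.Ioc (0 : ℝ) π,
      (if ∃ k : ℤ, atg (wP Z e J) ((ModularGroup.T ^ 2) ^ k) z φ ≠ 0 then
        ENNReal.ofReal c else 0) ≤
      ENNReal.ofReal (c * (if 1 / (5 * J) ≤ z.im then min π (C * Real.sqrt (z.im / J)) else 0)) := by
  obtain ⟨C, hC⟩ := mes_vertical hZ e
  refine ⟨4 * (|C| + 1), by positivity, fun J hJ z c hc => ?_⟩
  have hJ0 : 0 < J := by linarith
  split_ifs with hy
  · refine U15a_const _ hc ?_
    refine (measure_mono ?_).trans ((hC J hJ z).trans (ENNReal.ofReal_le_ofReal ?_))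
    · rintro φ ⟨h1, k, h2⟩
      exact ⟨h1, k, U15a_wP h2⟩
    · have hz := z.im_pos
      have e1 : 1 / J ≤ 3 * Real.sqrt (z.im / J) := by
        have e2 : 1 / J ≤ 5 * z.im := by
          rw [div_le_iff₀ (by positivity)] at hy ⊢
          linarith
        have e3 : (1 / J) ^ 2 ≤ 9 * (z.im / J) := by
          have e4 : (1 / J) ^ 2 = (1 / J) * (1 / J) := sq _
          have e5 : 9 * (z.im / J) = 9 * z.im * (1 / J) := by ring
          rw [e4, e5]
          exact mul_le_mul_of_nonneg_right (by linarith) (by positivity)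
        have e6 : 3 * Real.sqrt (z.im / J) = Real.sqrt (9 * (z.im / J)) := by
          rw [Real.sqrt_mul (by norm_num)]
          congr 1
          rw [show (9 : ℝ) = 3 ^ 2 by norm_num, Real.sqrt_sq (by norm_num)]
        rw [e6]
        exact Real.le_sqrt_of_sq_le e3
      have e7 := Real.sqrt_nonneg (z.im / J)
      have e8 : 0 ≤ 1 / J + Real.sqrt (z.im / J) := by positivity
      calc C * (1 / J + Real.sqrt (z.im / J)) ≤ |C| * (1 / J + Real.sqrt (z.im / J)) :=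
            mul_le_mul_of_nonneg_right (le_abs_self _) e8
        _ ≤ |C| * (4 * Real.sqrt (z.im / J)) :=
            mul_le_mul_of_nonneg_left (by linarith) (abs_nonneg _)
        _ ≤ 4 * (|C| + 1) * Real.sqrt (z.im / J) := by nlinarith
  · have h0 : ∀ φ, ¬ ∃ k : ℤ, atg (wP Z e J) ((ModularGroup.T ^ 2) ^ k) z φ ≠ 0 := by
      rintro φ ⟨k, hk⟩
      exact hy (im_ge_of_wP hZ e hJ k z φ hk)
    simp only [if_neg (h0 _)]
    simp

theorem U15a_pow {a c : ℝ} (ha : a < -1) (hc : 0 < c) :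
    ∫⁻ y in Set.Ioi c, ENNReal.ofReal (y ^ a) = ENNReal.ofReal (-c ^ (a + 1) / (a + 1)) := by
  rw [← integral_Ioi_rpow_of_lt ha hc, ofReal_integral_eq_lintegral_ofReal
    (integrableOn_Ioi_rpow_of_lt ha hc)]
  refine (ae_restrict_mem measurableSet_Ioi).mono fun y hy => ?_
  have hy' : c < y := hy
  exact Real.rpow_nonneg (by linarith) _

theorem U15a_gamma {s : ℝ} (hs : 0 < s) :
    ∫⁻ y in Set.Ioi (0 : ℝ), ENNReal.ofReal (y ^ (-(3 / 4) : ℝ) * Real.exp (-(s * y))) =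
      ENNReal.ofReal ((1 / s) ^ (1 / 4 : ℝ) * Real.Gamma (1 / 4)) := by
  have h1 := Real.integral_rpow_mul_exp_neg_mul_Ioi (a := 1 / 4) (r := s) (by norm_num) hs
  have h2 : (1 / 4 - 1 : ℝ) = -(3 / 4) := by norm_num
  rw [h2] at h1
  have hG : 0 < Real.Gamma (1 / 4) := Real.Gamma_pos_of_pos (by norm_num)
  have hi : IntegrableOn (fun y : ℝ => y ^ (-(3 / 4) : ℝ) * Real.exp (-(s * y))) (Set.Ioi 0) := by
    refine Integrable.of_integral_ne_zero ?_
    rw [h1]
    positivity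
  rw [← h1, ofReal_integral_eq_lintegral_ofReal hi]
  refine (ae_restrict_mem measurableSet_Ioi).mono fun y hy => ?_
  have hy' : (0 : ℝ) < y := hy
  simp only [Pi.zero_apply]
  positivity

/-- the first bound -/
theorem U15a_boundA {C : ℝ} (hC : 0 < C) {r : ℝ} (hr : 0 ≤ r) {J : ℝ} (hJ : 1 ≤ J) :
    ∫⁻ y in Set.Ioi (0 : ℝ), ENNReal.ofReal (2 * (y ^ (1 / 4 : ℝ) * Real.exp (-(π * r * y)) *
      (if 1 / (5 * J) ≤ y then min π (C * Real.sqrt (y / J)) else 0) / y ^ 2)) ≤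
      ENNReal.ofReal ((16 * C + 4 * Real.sqrt (π * C)) * J ^ (-(1 / 4) : ℝ)) := by
  have hJ0 : 0 < J := by linarith
  have hpt : ∀ y ∈ Set.Ioi (0 : ℝ), ENNReal.ofReal (2 * (y ^ (1 / 4 : ℝ) *
      Real.exp (-(π * r * y)) *
      (if 1 / (5 * J) ≤ y then min π (C * Real.sqrt (y / J)) else 0) / y ^ 2)) ≤
      ENNReal.ofReal (2 * C * J ^ (-(1 / 2) : ℝ)) *
        (Set.Ioi (1 / (6 * J))).indicator (fun y => ENNReal.ofReal (y ^ (-(5 / 4) : ℝ))) y +
      ENNReal.ofReal (2 * Real.sqrt (π * C) * J ^ (-(1 / 4) : ℝ)) *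
        (Set.Ioi (1 : ℝ)).indicator (fun y => ENNReal.ofReal (y ^ (-(3 / 2) : ℝ))) y := by
    intro y hy
    have hy0 : (0 : ℝ) < y := hy
    have hexp : Real.exp (-(π * r * y)) ≤ 1 := by
      rw [Real.exp_le_one_iff]
      have := Real.pi_pos
      have : 0 ≤ π * r * y := by positivity
      linarith
    have hy2 : y ^ 2 = y ^ (2 : ℝ) := by rw [Real.rpow_ofNat]
    split_ifs with h1
    · have h6 : 1 / (6 * J) < y := by
        refine lt_of_lt_of_le ?_ h1
        exact one_div_lt_one_div_of_lt (by positivity) (by linarith)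
      have hsq : Real.sqrt (y / J) = y ^ (1 / 2 : ℝ) * J ^ (-(1 / 2) : ℝ) := by
        rw [Real.sqrt_eq_rpow, Real.div_rpow hy0.le hJ0.le, Real.rpow_neg hJ0.le, div_eq_mul_inv]
      rcases le_or_gt y 1 with h2 | h2
      · refine le_trans ?_ le_self_add
        rw [Set.indicator_of_mem (show y ∈ Set.Ioi (1 / (6 * J)) from h6),
          ← ENNReal.ofReal_mul (by positivity)]
        refine ENNReal.ofReal_le_ofReal ?_
        have e1 : min π (C * Real.sqrt (y / J)) ≤ C * (y ^ (1 / 2 : ℝ) * J ^ (-(1 / 2) : ℝ)) := by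
          rw [hsq]
          exact min_le_right _ _
        have e2 : y ^ (1 / 4 : ℝ) * Real.exp (-(π * r * y)) * min π (C * Real.sqrt (y / J)) ≤
            y ^ (1 / 4 : ℝ) * 1 * (C * (y ^ (1 / 2 : ℝ) * J ^ (-(1 / 2) : ℝ))) :=
          mul_le_mul (mul_le_mul_of_nonneg_left hexp (by positivity)) e1
            (le_min Real.pi_pos.le (by positivity)) (by positivity)
        have e3 : 2 * (y ^ (1 / 4 : ℝ) * 1 * (C * (y ^ (1 / 2 : ℝ) * J ^ (-(1 / 2) : ℝ))) / y ^ 2) =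
            2 * C * J ^ (-(1 / 2) : ℝ) * y ^ (-(5 / 4) : ℝ) := by
          have e4 : y ^ (-(5 / 4) : ℝ) = y ^ (1 / 4 : ℝ) * y ^ (1 / 2 : ℝ) / y ^ (2 : ℝ) := by
            rw [← Real.rpow_add hy0, ← Real.rpow_sub hy0]
            norm_num
          rw [e4, hy2]
          ring
        rw [← e3]
        gcongr
      · refine le_trans ?_ (self_le_add_left _ _)
        rw [Set.indicator_of_mem (show y ∈ Set.Ioi (1 : ℝ) from h2),
          ← ENNReal.ofReal_mul (by positivity)]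
        refine ENNReal.ofReal_le_ofReal ?_
        have e1 : min π (C * Real.sqrt (y / J)) ≤
            Real.sqrt (π * C) * (y ^ (1 / 4 : ℝ) * J ^ (-(1 / 4) : ℝ)) := by
          refine (U15a_min_sqrt Real.pi_pos.le (by positivity)).trans (le_of_eq ?_)
          rw [← mul_assoc, Real.sqrt_mul (by positivity), Real.sqrt_eq_rpow (Real.sqrt (y / J)),
            hsq, Real.mul_rpow (by positivity) (by positivity), ← Real.rpow_mul hy0.le,
            ← Real.rpow_mul hJ0.le]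
          norm_num
        have e2 : y ^ (1 / 4 : ℝ) * Real.exp (-(π * r * y)) * min π (C * Real.sqrt (y / J)) ≤
            y ^ (1 / 4 : ℝ) * 1 * (Real.sqrt (π * C) * (y ^ (1 / 4 : ℝ) * J ^ (-(1 / 4) : ℝ))) :=
          mul_le_mul (mul_le_mul_of_nonneg_left hexp (by positivity)) e1
            (le_min Real.pi_pos.le (by positivity)) (by positivity)
        have e3 : 2 * (y ^ (1 / 4 : ℝ) * 1 * (Real.sqrt (π * C) *
            (y ^ (1 / 4 : ℝ) * J ^ (-(1 / 4) : ℝ))) / y ^ 2) =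
            2 * Real.sqrt (π * C) * J ^ (-(1 / 4) : ℝ) * y ^ (-(3 / 2) : ℝ) := by
          have e4 : y ^ (-(3 / 2) : ℝ) = y ^ (1 / 4 : ℝ) * y ^ (1 / 4 : ℝ) / y ^ (2 : ℝ) := by
            rw [← Real.rpow_add hy0, ← Real.rpow_sub hy0]
            norm_num
          rw [e4, hy2]
          ring
        rw [← e3]
        gcongr
    · simp
  refine (setLIntegral_mono' measurableSet_Ioi hpt).trans ?_
  have m1 : Measurable (fun y : ℝ => ENNReal.ofReal (2 * C * J ^ (-(1 / 2) : ℝ)) *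
        (Set.Ioi (1 / (6 * J))).indicator (fun y => ENNReal.ofReal (y ^ (-(5 / 4) : ℝ))) y) := by
    refine Measurable.const_mul ?_ _
    exact (measurable_id.pow_const _).ennreal_ofReal.indicator measurableSet_Ioi
  rw [lintegral_add_left m1, lintegral_const_mul' _ _ ENNReal.ofReal_ne_top,
    lintegral_const_mul' _ _ ENNReal.ofReal_ne_top, lintegral_indicator measurableSet_Ioi,
    lintegral_indicator measurableSet_Ioi, Measure.restrict_restrict measurableSet_Ioi,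
    Measure.restrict_restrict measurableSet_Ioi]
  have s1 : Set.Ioi (1 / (6 * J)) ∩ Set.Ioi (0 : ℝ) = Set.Ioi (1 / (6 * J)) := by
    rw [Set.Ioi_inter_Ioi, sup_eq_left.mpr (by positivity)]
  have s2 : Set.Ioi (1 : ℝ) ∩ Set.Ioi (0 : ℝ) = Set.Ioi 1 := by
    rw [Set.Ioi_inter_Ioi, sup_eq_left.mpr (by norm_num)]
  rw [s1, s2, U15a_pow (by norm_num) (by positivity), U15a_pow (by norm_num) (by norm_num),
    ← ENNReal.ofReal_mul (by positivity), ← ENNReal.ofReal_mul (by positivity)]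
  have p1 : 0 ≤ -(1 / (6 * J)) ^ (-(5 / 4) + 1 : ℝ) / (-(5 / 4) + 1) := by
    have := Real.rpow_nonneg (by positivity : 0 ≤ 1 / (6 * J)) (-(5 / 4) + 1 : ℝ)
    have e : -(1 / (6 * J)) ^ (-(5 / 4) + 1 : ℝ) / (-(5 / 4) + 1) =
        4 * (1 / (6 * J)) ^ (-(5 / 4) + 1 : ℝ) := by ring
    rw [e]
    positivity
  have p2 : 0 ≤ -(1 : ℝ) ^ (-(3 / 2) + 1 : ℝ) / (-(3 / 2) + 1) := by
    rw [Real.one_rpow]
    norm_num
  rw [← ENNReal.ofReal_add (by positivity) (by positivity)]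
  refine ENNReal.ofReal_le_ofReal ?_
  rw [Real.one_rpow]
  have q1 : (1 / (6 * J)) ^ (-(5 / 4) + 1 : ℝ) ≤ 2 * J ^ (1 / 4 : ℝ) := by
    have e1 : (1 / (6 * J)) ^ (-(5 / 4) + 1 : ℝ) = (6 * J) ^ (1 / 4 : ℝ) := by
      rw [one_div, Real.inv_rpow (by positivity), ← Real.rpow_neg (by positivity)]
      norm_num
    rw [e1, Real.mul_rpow (by norm_num) hJ0.le]
    refine mul_le_mul_of_nonneg_right ?_ (by positivity)
    have e2 : (2 : ℝ) = (16 : ℝ) ^ (1 / 4 : ℝ) := by
      rw [show (16 : ℝ) = 2 ^ (4 : ℝ) by norm_num, ← Real.rpow_mul (by norm_num)]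
      norm_num
    rw [e2]
    exact Real.rpow_le_rpow (by norm_num) (by norm_num) (by norm_num)
  have q2 : J ^ (-(1 / 2) : ℝ) * J ^ (1 / 4 : ℝ) = J ^ (-(1 / 4) : ℝ) := by
    rw [← Real.rpow_add hJ0]
    norm_num
  have q3 : 2 * C * J ^ (-(1 / 2) : ℝ) * (-(1 / (6 * J)) ^ (-(5 / 4) + 1 : ℝ) / (-(5 / 4) + 1)) ≤
      16 * C * J ^ (-(1 / 4) : ℝ) := by
    have e : 2 * C * J ^ (-(1 / 2) : ℝ) * (-(1 / (6 * J)) ^ (-(5 / 4) + 1 : ℝ) / (-(5 / 4) + 1)) =
        8 * C * (J ^ (-(1 / 2) : ℝ) * (1 / (6 * J)) ^ (-(5 / 4) + 1 : ℝ)) := by ring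
    rw [e, ← q2]
    have := mul_le_mul_of_nonneg_left q1 (Real.rpow_nonneg hJ0.le (-(1 / 2) : ℝ))
    nlinarith
  have q4 : 2 * Real.sqrt (π * C) * J ^ (-(1 / 4) : ℝ) * (-1 / (-(3 / 2) + 1)) =
      4 * Real.sqrt (π * C) * J ^ (-(1 / 4) : ℝ) := by ring
  rw [q4]
  linarith

/-- the second bound -/
theorem U15a_boundB {C : ℝ} (hC : 0 < C) {r : ℝ} (hr : 0 ≤ r) {J : ℝ} (hJ : 1 ≤ J) :
    ∫⁻ y in Set.Ioi (0 : ℝ), ENNReal.ofReal (2 * (y ^ (1 / 4 : ℝ) * Real.exp (-(π * r * y)) *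
      (if 1 / (5 * J) ≤ y then min π (C * Real.sqrt (y / J)) else 0) / y ^ 2)) ≤
      ENNReal.ofReal ((6 * C * Real.exp π * Real.Gamma (1 / 4) + 3 * π) *
        (1 + r) ^ (-(1 / 4) : ℝ)) := by
  have hJ0 : 0 < J := by linarith
  have hG : 0 < Real.Gamma (1 / 4) := Real.Gamma_pos_of_pos (by norm_num)
  have hpi := Real.pi_gt_three
  have hr1 : (1 + r) ^ (1 / 4 : ℝ) * Real.exp (-(π * r)) ≤ 1 := by
    have e1 : (1 + r) ^ (1 / 4 : ℝ) ≤ 1 + r := by
      conv_rhs => rw [← Real.rpow_one (1 + r)]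
      exact Real.rpow_le_rpow_of_exponent_le (by linarith) (by norm_num)
    have e2 : 1 + r ≤ Real.exp (π * r) := by
      have := Real.add_one_le_exp (π * r)
      nlinarith
    rw [Real.exp_neg, ← div_eq_mul_inv, div_le_one (Real.exp_pos _)]
    linarith
  have hr2 : Real.exp (-(π * r)) ≤ (1 + r) ^ (-(1 / 4) : ℝ) := by
    have h0 : 0 < (1 + r) ^ (1 / 4 : ℝ) := Real.rpow_pos_of_pos (by linarith) _
    rw [Real.rpow_neg (by linarith), ← one_div, le_div_iff₀ h0]
    linarith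
  have hpt : ∀ y ∈ Set.Ioi (0 : ℝ), ENNReal.ofReal (2 * (y ^ (1 / 4 : ℝ) *
      Real.exp (-(π * r * y)) *
      (if 1 / (5 * J) ≤ y then min π (C * Real.sqrt (y / J)) else 0) / y ^ 2)) ≤
      ENNReal.ofReal (6 * C * Real.exp π) *
        ENNReal.ofReal (y ^ (-(3 / 4) : ℝ) * Real.exp (-(π * (1 + r) * y))) +
      ENNReal.ofReal (2 * π * (1 + r) ^ (-(1 / 4) : ℝ)) *
        (Set.Ioi (1 : ℝ)).indicator (fun y => ENNReal.ofReal (y ^ (-(7 / 4) : ℝ))) y := by
    intro y hy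
    have hy0 : (0 : ℝ) < y := hy
    have hy2 : y ^ 2 = y ^ (2 : ℝ) := by rw [Real.rpow_ofNat]
    split_ifs with h1
    · rcases le_or_gt y 1 with h2 | h2
      · refine le_trans ?_ le_self_add
        rw [← ENNReal.ofReal_mul (by positivity)]
        refine ENNReal.ofReal_le_ofReal ?_
        have e0 : Real.sqrt (y / J) ≤ 3 * y := by
          have f1 : 1 / J ≤ 5 * y := by
            rw [div_le_iff₀ (by positivity)] at h1 ⊢
            linarith
          refine Real.sqrt_le_iff.mpr ⟨by positivity, ?_⟩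
          have f2 : y / J = y * (1 / J) := by ring
          rw [f2]
          nlinarith
        have e1 : min π (C * Real.sqrt (y / J)) ≤ C * (3 * y) :=
          (min_le_right _ _).trans (mul_le_mul_of_nonneg_left e0 hC.le)
        have e2 : Real.exp (-(π * r * y)) ≤ Real.exp π * Real.exp (-(π * (1 + r) * y)) := by
          rw [← Real.exp_add, Real.exp_le_exp]
          nlinarith
        have e3 : y ^ (1 / 4 : ℝ) * Real.exp (-(π * r * y)) * min π (C * Real.sqrt (y / J)) ≤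
            y ^ (1 / 4 : ℝ) * (Real.exp π * Real.exp (-(π * (1 + r) * y))) * (C * (3 * y)) :=
          mul_le_mul (mul_le_mul_of_nonneg_left e2 (by positivity)) e1
            (le_min Real.pi_pos.le (by positivity)) (by positivity)
        have e4 : 2 * (y ^ (1 / 4 : ℝ) * (Real.exp π * Real.exp (-(π * (1 + r) * y))) *
            (C * (3 * y)) / y ^ 2) =
            6 * C * Real.exp π * (y ^ (-(3 / 4) : ℝ) * Real.exp (-(π * (1 + r) * y))) := by
          have f1 : y ^ (-(3 / 4) : ℝ) = y ^ (1 / 4 : ℝ) * y / y ^ 2 := by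
            have f2 : y ^ (1 / 4 : ℝ) * y = y ^ (1 / 4 : ℝ) * y ^ (1 : ℝ) := by
              rw [Real.rpow_one]
            rw [f2, hy2, ← Real.rpow_add hy0, ← Real.rpow_sub hy0]
            norm_num
          rw [f1]
          ring
        rw [← e4]
        gcongr
      · refine le_trans ?_ (self_le_add_left _ _)
        rw [Set.indicator_of_mem (show y ∈ Set.Ioi (1 : ℝ) from h2),
          ← ENNReal.ofReal_mul (by positivity)]
        refine ENNReal.ofReal_le_ofReal ?_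
        have e2 : Real.exp (-(π * r * y)) ≤ (1 + r) ^ (-(1 / 4) : ℝ) := by
          refine le_trans ?_ hr2
          rw [Real.exp_le_exp]
          have : 0 ≤ π * r := by positivity
          nlinarith
        have e3 : y ^ (1 / 4 : ℝ) * Real.exp (-(π * r * y)) * min π (C * Real.sqrt (y / J)) ≤
            y ^ (1 / 4 : ℝ) * (1 + r) ^ (-(1 / 4) : ℝ) * π :=
          mul_le_mul (mul_le_mul_of_nonneg_left e2 (by positivity)) (min_le_left _ _)
            (le_min Real.pi_pos.le (by positivity)) (by positivity)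
        have e4 : 2 * (y ^ (1 / 4 : ℝ) * (1 + r) ^ (-(1 / 4) : ℝ) * π / y ^ 2) =
            2 * π * (1 + r) ^ (-(1 / 4) : ℝ) * y ^ (-(7 / 4) : ℝ) := by
          have f1 : y ^ (-(7 / 4) : ℝ) = y ^ (1 / 4 : ℝ) / y ^ 2 := by
            rw [hy2, ← Real.rpow_sub hy0]
            norm_num
          rw [f1]
          ring
        rw [← e4]
        gcongr
    · simp
  refine (setLIntegral_mono' measurableSet_Ioi hpt).trans ?_
  have m1 : Measurable (fun y : ℝ => ENNReal.ofReal (6 * C * Real.exp π) *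
        ENNReal.ofReal (y ^ (-(3 / 4) : ℝ) * Real.exp (-(π * (1 + r) * y)))) := by
    refine Measurable.const_mul ?_ _
    refine ((measurable_id.pow_const _).mul ?_).ennreal_ofReal
    exact Real.measurable_exp.comp ((measurable_const.mul measurable_id).neg)
  have s2 : Set.Ioi (1 : ℝ) ∩ Set.Ioi (0 : ℝ) = Set.Ioi 1 := by
    rw [Set.Ioi_inter_Ioi, sup_eq_left.mpr (by norm_num)]
  rw [lintegral_add_left m1, lintegral_const_mul' _ _ ENNReal.ofReal_ne_top,
    lintegral_const_mul' _ _ ENNReal.ofReal_ne_top, lintegral_indicator measurableSet_Ioi,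
    Measure.restrict_restrict measurableSet_Ioi, s2, U15a_gamma (by positivity),
    U15a_pow (by norm_num) (by norm_num),
    ← ENNReal.ofReal_mul (by positivity), ← ENNReal.ofReal_mul (by positivity)]
  have p2 : 0 ≤ -(1 : ℝ) ^ (-(7 / 4) + 1 : ℝ) / (-(7 / 4) + 1) := by
    rw [Real.one_rpow]
    norm_num
  rw [← ENNReal.ofReal_add (by positivity) (by positivity)]
  refine ENNReal.ofReal_le_ofReal ?_
  rw [Real.one_rpow]
  have q1 : (1 / (π * (1 + r))) ^ (1 / 4 : ℝ) ≤ (1 + r) ^ (-(1 / 4) : ℝ) := by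
    rw [Real.rpow_neg (by linarith), ← Real.inv_rpow (by linarith)]
    refine Real.rpow_le_rpow (by positivity) ?_ (by norm_num)
    rw [one_div]
    refine inv_anti₀ (by linarith) ?_
    nlinarith
  have hRR : 0 < (1 + r) ^ (-(1 / 4) : ℝ) := Real.rpow_pos_of_pos (by linarith) _
  have q2 : 6 * C * Real.exp π * ((1 / (π * (1 + r))) ^ (1 / 4 : ℝ) * Real.Gamma (1 / 4)) ≤
      6 * C * Real.exp π * ((1 + r) ^ (-(1 / 4) : ℝ) * Real.Gamma (1 / 4)) := by
    gcongr
  have q3 : 2 * π * (1 + r) ^ (-(1 / 4) : ℝ) * (-1 / (-(7 / 4) + 1)) ≤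
      3 * π * (1 + r) ^ (-(1 / 4) : ℝ) := by
    have e : 2 * π * (1 + r) ^ (-(1 / 4) : ℝ) * (-1 / (-(7 / 4) + 1)) =
        8 / 3 * (π * (1 + r) ^ (-(1 / 4) : ℝ)) := by ring
    rw [e]
    have : 0 < π * (1 + r) ^ (-(1 / 4) : ℝ) := by positivity
    linarith
  calc _ ≤ 6 * C * Real.exp π * ((1 + r) ^ (-(1 / 4) : ℝ) * Real.Gamma (1 / 4)) +
        3 * π * (1 + r) ^ (-(1 / 4) : ℝ) := add_le_add q2 q3
    _ = _ := by ring

open Classical in
/-- the integral over the strip -/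
theorem strip_P {Z : ℝ → ℝ} (hZ : IsKer Z) (e : Bool) : ∃ C : ℝ, ∀ r : ℝ, 0 ≤ r →
    ∀ J : ℝ, 1 ≤ J →
    ∫⁻ z : ℍ in Strip, ∫⁻ φ in Set.Ioc (0 : ℝ) π,
      (if ∃ k : ℤ, atg (wP Z e J) ((ModularGroup.T ^ 2) ^ k) z φ ≠ 0 then
        ENNReal.ofReal (z.im ^ (1 / 4 : ℝ) * Real.exp (-(π * r * z.im))) else 0) ≤
      ENNReal.ofReal (C * min (J ^ (-(1 / 4) : ℝ)) ((1 + r) ^ (-(1 / 4) : ℝ))) := by
  obtain ⟨C, hC, hin⟩ := U15a_inner hZ e
  have hG : 0 < Real.Gamma (1 / 4) := Real.Gamma_pos_of_pos (by norm_num)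
  set A : ℝ := 16 * C + 4 * Real.sqrt (π * C) with hA
  set B : ℝ := 6 * C * Real.exp π * Real.Gamma (1 / 4) + 3 * π with hB
  have hA0 : 0 ≤ A := by positivity
  have hB0 : 0 ≤ B := by
    have := Real.pi_pos
    positivity
  refine ⟨A + B, fun r hr J hJ => ?_⟩
  have hJ0 : 0 < J := by linarith
  have hmeas : Measurable (fun y : ℝ => y ^ (1 / 4 : ℝ) * Real.exp (-(π * r * y)) *
      (if 1 / (5 * J) ≤ y then min π (C * Real.sqrt (y / J)) else 0)) := by
    refine Measurable.mul (Measurable.mul (measurable_id.pow_const _) ?_) ?_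
    · exact Real.measurable_exp.comp ((measurable_const.mul measurable_id).neg)
    · refine Measurable.ite measurableSet_Ici ?_ measurable_const
      refine measurable_const.min (Measurable.const_mul ?_ _)
      exact Real.continuous_sqrt.measurable.comp (measurable_id.div_const _)
  have h1 : ∫⁻ z : ℍ in Strip, ∫⁻ φ in Set.Ioc (0 : ℝ) π,
      (if ∃ k : ℤ, atg (wP Z e J) ((ModularGroup.T ^ 2) ^ k) z φ ≠ 0 then
        ENNReal.ofReal (z.im ^ (1 / 4 : ℝ) * Real.exp (-(π * r * z.im))) else 0) ≤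
      ∫⁻ z : ℍ in Strip, ENNReal.ofReal (z.im ^ (1 / 4 : ℝ) * Real.exp (-(π * r * z.im)) *
      (if 1 / (5 * J) ≤ z.im then min π (C * Real.sqrt (z.im / J)) else 0)) := by
    refine lintegral_mono fun z => ?_
    have := z.im_pos
    exact hin J hJ z _ (by positivity)
  refine h1.trans ?_
  rw [U15a_strip (fun y : ℝ => y ^ (1 / 4 : ℝ) * Real.exp (-(π * r * y)) *
      (if 1 / (5 * J) ≤ y then min π (C * Real.sqrt (y / J)) else 0)) hmeas]
  have hm0 : 0 ≤ J ^ (-(1 / 4) : ℝ) := by positivity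
  have hm1 : 0 ≤ (1 + r) ^ (-(1 / 4) : ℝ) := Real.rpow_nonneg (by linarith) _
  rcases min_cases (J ^ (-(1 / 4) : ℝ)) ((1 + r) ^ (-(1 / 4) : ℝ)) with h | h
  · rw [h.1]
    refine (U15a_boundA hC hr hJ).trans (ENNReal.ofReal_le_ofReal ?_)
    exact mul_le_mul_of_nonneg_right (by linarith) hm0
  · rw [h.1]
    refine (U15a_boundB hC hr hJ).trans (ENNReal.ofReal_le_ofReal ?_)
    exact mul_le_mul_of_nonneg_right (by linarith) hm1

end RV11
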