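import Pool.Agent.LibRV11.U04
import Pool.Agent.LibRV11.U11a
import Pool.Agent.LibRV11.U13a
import Pool.Agent.LibRV11.U15a
open Complex Real MeasureTheory
open UpperHalfPlane hiding I
open scoped MatrixGroups

namespace RV11

/-! ### U15b -/

open Classical in
/-- the event for the coset of `1`, with its weight -/
noncomputable def U15b_G (Z : ℝ → ℝ) (e : Bool) (r J : ℝ) (z : ℍ) (φ : ℝ) : ENNReal :=
  if ∃ k : ℤ, atg (wP Z e J) ((ModularGroup.T ^ 2) ^ k) z φ ≠ 0 then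
    ENNReal.ofReal (z.im ^ (1 / 4 : ℝ) * Real.exp (-(π * r * z.im))) else 0

theorem U15b_meas {Z : ℝ → ℝ} (hZ : IsKer Z) (e : Bool) (r J : ℝ) :
    Measurable (Function.uncurry (U15b_G Z e r J)) := by
  classical
  have h1 : MeasurableSet {x : ℍ × ℝ | ∃ k : ℤ, atg (wP Z e J) ((ModularGroup.T ^ 2) ^ k) x.1 x.2 ≠ 0} := by
    have h2 : {x : ℍ × ℝ | ∃ k : ℤ, atg (wP Z e J) ((ModularGroup.T ^ 2) ^ k) x.1 x.2 ≠ 0} =
        ⋃ k : ℤ, {x : ℍ × ℝ | atg (wP Z e J) ((ModularGroup.T ^ 2) ^ k) x.1 x.2 ≠ 0} := by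
      ext x
      simp
    rw [h2]
    refine MeasurableSet.iUnion fun k => ?_
    have h3 := measurable_atg (measurable_wP hZ e J) ((ModularGroup.T ^ 2) ^ k)
    exact (h3 (measurableSet_singleton (0 : ℝ))).compl
  have h4 : Measurable (fun x : ℍ × ℝ =>
      ENNReal.ofReal (x.1.im ^ (1 / 4 : ℝ) * Real.exp (-(π * r * x.1.im)))) := by
    have him : Measurable (fun x : ℍ × ℝ => x.1.im) :=
      UpperHalfPlane.continuous_im.measurable.comp measurable_fst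
    refine Measurable.ennreal_ofReal (Measurable.mul (him.pow_const _) ?_)
    exact Real.measurable_exp.comp ((measurable_const.mul him).neg)
  exact Measurable.ite h1 h4 measurable_const

theorem U15b_per (Z : ℝ → ℝ) (e : Bool) (r J : ℝ) (z : ℍ) (φ : ℝ) :
    U15b_G Z e r J z (φ + π) = U15b_G Z e r J z φ := by
  have h1 : ∀ g : SL(2, ℤ), atg (wP Z e J) g z (φ + π) = atg (wP Z e J) g z φ := by
    intro g
    have hu : ∀ c d : ℝ, uu z (φ + π) c d = -uu z φ c d := by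
      intro c d
      unfold uu
      rw [Real.sin_add_pi, Real.cos_add_pi]
      ring
    have hv : ∀ c d : ℝ, vv z (φ + π) c d = -vv z φ c d := by
      intro c d
      unfold vv
      rw [Real.sin_add_pi, Real.cos_add_pi]
      ring
    unfold atg
    rw [hu, hv, hu, hv]
    unfold wP wR sepR kapR Hr
    simp only [neg_mul_neg]
  have hex : (∃ k : ℤ, atg (wP Z e J) ((ModularGroup.T ^ 2) ^ k) z (φ + π) ≠ 0) ↔
      ∃ k : ℤ, atg (wP Z e J) ((ModularGroup.T ^ 2) ^ k) z φ ≠ 0 := by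
    constructor
    · rintro ⟨k, hk⟩
      exact ⟨k, by rwa [← h1]⟩
    · rintro ⟨k, hk⟩
      exact ⟨k, by rwa [h1]⟩
  unfold U15b_G
  by_cases h : ∃ k : ℤ, atg (wP Z e J) ((ModularGroup.T ^ 2) ^ k) z φ ≠ 0
  · rw [if_pos h, if_pos (hex.mpr h)]
  · rw [if_neg h, if_neg fun h' => h (hex.mp h')]

theorem U15b_T (Z : ℝ → ℝ) (e : Bool) (r J : ℝ) (z : ℍ) (φ : ℝ) :
    U15b_G Z e r J ((ModularGroup.T ^ 2) • z) φ = U15b_G Z e r J z φ := by
  have hT := T_zpow_mul 1 1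
  rw [zpow_one, mul_one] at hT
  have h10 : (1 : SL(2, ℤ)) 1 0 = 0 := rfl
  have h11 : (1 : SL(2, ℤ)) 1 1 = 1 := rfl
  have hc : (ModularGroup.T ^ 2 : SL(2, ℤ)) 1 0 = 0 := hT.2.2.1.trans h10
  have hd : (ModularGroup.T ^ 2 : SL(2, ℤ)) 1 1 = 1 := hT.2.2.2.trans h11
  have harg : Complex.arg (((ModularGroup.T ^ 2 : SL(2, ℤ)) 1 0 : ℂ) * (z : ℂ) +
      ((ModularGroup.T ^ 2 : SL(2, ℤ)) 1 1 : ℂ)) = 0 := by
    rw [hc, hd]
    simp
  have h1 : ∀ k : ℤ, atg (wP Z e J) ((ModularGroup.T ^ 2) ^ k) ((ModularGroup.T ^ 2) • z) φ =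
      atg (wP Z e J) ((ModularGroup.T ^ 2) ^ (k + 1)) z φ := by
    intro k
    have h2 := atg_smul (wP Z e J) ((ModularGroup.T ^ 2) ^ k) (ModularGroup.T ^ 2) z φ
    rw [harg, add_zero, ← zpow_add_one] at h2
    exact h2
  have him : ((ModularGroup.T ^ 2 : SL(2, ℤ)) • z).im = z.im := by
    rw [im_smul_eq, Np, hc, hd]
    simp
  have hex : (∃ k : ℤ, atg (wP Z e J) ((ModularGroup.T ^ 2) ^ k) ((ModularGroup.T ^ 2) • z) φ ≠ 0) ↔
      ∃ k : ℤ, atg (wP Z e J) ((ModularGroup.T ^ 2) ^ k) z φ ≠ 0 := by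
    constructor
    · rintro ⟨k, hk⟩
      exact ⟨k + 1, by rwa [← h1]⟩
    · rintro ⟨k, hk⟩
      refine ⟨k - 1, ?_⟩
      rw [h1, sub_add_cancel]
      exact hk
  unfold U15b_G
  rw [him]
  by_cases h : ∃ k : ℤ, atg (wP Z e J) ((ModularGroup.T ^ 2) ^ k) z φ ≠ 0
  · rw [if_pos h, if_pos (hex.mpr h)]
  · rw [if_neg h, if_neg fun h' => h (hex.mp h')]

/-- the event for the coset of `γ` -/
theorem U15b_coset {Z : ℝ → ℝ} {e : Bool} {r J : ℝ} {γ : SL(2, ℤ)} {z : ℍ} {φ : ℝ}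
    (h : ∃ k : ℤ, atg (wP Z e J) ((ModularGroup.T ^ 2) ^ k * γ) z φ ≠ 0) :
    U15b_G Z e r J (γ • z) (φ + Complex.arg ((γ 1 0 : ℂ) * (z : ℂ) + (γ 1 1 : ℂ))) =
      ENNReal.ofReal (Real.exp (-(π * r / NP γ z)) * (NP γ z) ^ (-(1 / 4) : ℝ)) := by
  have hex : ∃ k : ℤ, atg (wP Z e J) ((ModularGroup.T ^ 2) ^ k) (γ • z)
      (φ + Complex.arg ((γ 1 0 : ℂ) * (z : ℂ) + (γ 1 1 : ℂ))) ≠ 0 := by
    obtain ⟨k, hk⟩ := h
    refine ⟨k, ?_⟩
    rw [atg_smul]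
    exact hk
  unfold U15b_G
  rw [if_pos hex]
  have him : (γ • z).im = 1 / NP γ z := im_smul_eq γ z
  have hNP : 0 < NP γ z := by
    have := (γ • z).im_pos
    rw [him] at this
    exact one_div_pos.mp this
  rw [him]
  congr 1
  rw [one_div, Real.inv_rpow hNP.le, ← Real.rpow_neg hNP.le, mul_comm]
  congr 2

theorem U15b_countable : Countable RowP := by
  unfold RowP
  infer_instance

/-- pointwise bound by the sum of the events -/
theorem U15b_point {Z : ℝ → ℝ} (hZ : IsKer Z) (e : Bool) : ∃ C : ℝ, 0 ≤ C ∧ ∀ r : ℝ, 0 ≤ r →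
    ∀ J : ℝ, 1 ≤ J → ∀ (z : ℍ) (φ : ℝ),
    ‖VS (wP Z e J) r {g | g 1 0 ≠ 0} z φ‖ₑ * ENNReal.ofReal (Real.sqrt (W z)) ≤
      ENNReal.ofReal C * ∑' p : RowP, U15b_G Z e r J ((fibP (p, 0) : SL(2, ℤ)) • z)
        (φ + Complex.arg (((fibP (p, 0) : SL(2, ℤ)) 1 0 : ℂ) * (z : ℂ) +
          ((fibP (p, 0) : SL(2, ℤ)) 1 1 : ℂ))) := by
  classical
  obtain ⟨C, hC⟩ := block_P hZ e
  refine ⟨|C|, abs_nonneg _, fun r hr J hJ z φ => ?_⟩
  have hK : ∀ g z φ, atg (wP Z e J) g z φ ≠ 0 → NP g z * NQ g z ≤ J ^ 2 + 1 :=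
    fun g z φ h => NPNQ_le hZ hJ g z φ (U15a_wP h)
  obtain ⟨h1, h2⟩ := VS_eq_blocksP (J ^ 2 + 1) hK r z φ
  set b : RowP → ℂ := fun p => ∑' k : ℤ, chi ((ModularGroup.T ^ 2) ^ k * (fibP (p, 0) : SL(2, ℤ))) *
      (atg (wP Z e J) ((ModularGroup.T ^ 2) ^ k * (fibP (p, 0) : SL(2, ℤ))) z φ : ℂ) *
      phh r (((ModularGroup.T ^ 2) ^ k * (fibP (p, 0) : SL(2, ℤ))) • z) with hb
  have hb0 : ∀ p, p ∉ h2.toFinset → b p = 0 := by
    intro p hp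
    rw [Set.Finite.mem_toFinset] at hp
    have h0 : ∀ k : ℤ,
        atg (wP Z e J) ((ModularGroup.T ^ 2) ^ k * (fibP (p, 0) : SL(2, ℤ))) z φ = 0 := by
      intro k
      by_contra hne
      exact hp ⟨k, hne⟩
    rw [hb]
    simp only [h0]
    simp
  have h3 : VS (wP Z e J) r {g | g 1 0 ≠ 0} z φ =
      om r / 2 * ∑ p ∈ h2.toFinset, (if p.1.1 = 0 then 0 else b p) := by
    rw [h1, tsum_eq_sum (s := h2.toFinset)]
    intro p hp
    split_ifs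
    · rfl
    · exact hb0 p hp
  have hs := Real.sqrt_nonneg (W z)
  have h4 : ‖VS (wP Z e J) r {g | g 1 0 ≠ 0} z φ‖ * Real.sqrt (W z) ≤
      ∑ p ∈ h2.toFinset, |C| * (Real.exp (-(π * r / NP (fibP (p, 0) : SL(2, ℤ)) z)) *
        (NP (fibP (p, 0) : SL(2, ℤ)) z) ^ (-(1 / 4) : ℝ)) := by
    have e1 : om r / 2 * ∑ p ∈ h2.toFinset, (if p.1.1 = 0 then 0 else b p) =
        ∑ p ∈ h2.toFinset, om r / 2 * (if p.1.1 = 0 then 0 else b p) := Finset.mul_sum _ _ _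
    rw [h3, e1]
    refine (mul_le_mul_of_nonneg_right (norm_sum_le _ _) hs).trans ?_
    rw [Finset.sum_mul]
    refine Finset.sum_le_sum fun p _ => ?_
    have hNP : 0 ≤ NP (fibP (p, 0) : SL(2, ℤ)) z := by
      unfold NP Np
      have := z.im_pos
      positivity
    split_ifs with hp
    · rw [mul_zero, norm_zero, zero_mul]
      positivity
    · have e2 := hC r hr J hJ z φ (fibP (p, 0) : SL(2, ℤ)) (fibP (p, 0)).2
      have e3 : om r / 2 * b p = (1 / 2 : ℂ) * (om r * b p) := by ring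
      have e4 : ‖(1 / 2 : ℂ)‖ = 1 / 2 := by simp
      rw [e3, norm_mul, e4]
      have e5 : 0 ≤ Real.exp (-(π * r / NP (fibP (p, 0) : SL(2, ℤ)) z)) *
        (NP (fibP (p, 0) : SL(2, ℤ)) z) ^ (-(1 / 4) : ℝ) := by positivity
      have e6 : C * Real.exp (-(π * r / NP (fibP (p, 0) : SL(2, ℤ)) z)) *
        (NP (fibP (p, 0) : SL(2, ℤ)) z) ^ (-(1 / 4) : ℝ) ≤
        |C| * (Real.exp (-(π * r / NP (fibP (p, 0) : SL(2, ℤ)) z)) *
        (NP (fibP (p, 0) : SL(2, ℤ)) z) ^ (-(1 / 4) : ℝ)) := by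
        rw [mul_assoc]
        exact mul_le_mul_of_nonneg_right (le_abs_self _) e5
      have e7 : 0 ≤ ‖om r * b p‖ * Real.sqrt (W z) := by positivity
      have e8 : ‖om r * b p‖ * Real.sqrt (W z) ≤ C * Real.exp (-(π * r / NP (fibP (p, 0) : SL(2, ℤ)) z)) *
        (NP (fibP (p, 0) : SL(2, ℤ)) z) ^ (-(1 / 4) : ℝ) := e2
      have e9 : 1 / 2 * ‖om r * b p‖ * Real.sqrt (W z) =
        1 / 2 * (‖om r * b p‖ * Real.sqrt (W z)) := by ring
      rw [e9]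
      linarith
  have h5 : ‖VS (wP Z e J) r {g | g 1 0 ≠ 0} z φ‖ₑ * ENNReal.ofReal (Real.sqrt (W z)) =
      ENNReal.ofReal (‖VS (wP Z e J) r {g | g 1 0 ≠ 0} z φ‖ * Real.sqrt (W z)) := by
    rw [ENNReal.ofReal_mul (norm_nonneg _), ofReal_norm]
  rw [h5]
  refine (ENNReal.ofReal_le_ofReal h4).trans ?_
  have hNP : ∀ p : RowP, 0 ≤ Real.exp (-(π * r / NP (fibP (p, 0) : SL(2, ℤ)) z)) *
        (NP (fibP (p, 0) : SL(2, ℤ)) z) ^ (-(1 / 4) : ℝ) := by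
    intro p
    have : 0 ≤ NP (fibP (p, 0) : SL(2, ℤ)) z := by
      unfold NP Np
      have := z.im_pos
      positivity
    positivity
  rw [ENNReal.ofReal_sum_of_nonneg fun p _ => mul_nonneg (abs_nonneg C) (hNP p)]
  have h6 : ∀ p ∈ h2.toFinset, ENNReal.ofReal (|C| *
      (Real.exp (-(π * r / NP (fibP (p, 0) : SL(2, ℤ)) z)) *
        (NP (fibP (p, 0) : SL(2, ℤ)) z) ^ (-(1 / 4) : ℝ))) =
      ENNReal.ofReal |C| * U15b_G Z e r J ((fibP (p, 0) : SL(2, ℤ)) • z)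
        (φ + Complex.arg (((fibP (p, 0) : SL(2, ℤ)) 1 0 : ℂ) * (z : ℂ) +
          ((fibP (p, 0) : SL(2, ℤ)) 1 1 : ℂ))) := by
    intro p hp
    rw [Set.Finite.mem_toFinset] at hp
    rw [U15b_coset hp, ENNReal.ofReal_mul (abs_nonneg C)]
  rw [Finset.sum_congr rfl h6, ← Finset.mul_sum]
  exact mul_le_mul_right (ENNReal.sum_le_tsum _) _

theorem L1_P {Z : ℝ → ℝ} (hZ : IsKer Z) (e : Bool) : ∃ C : ℝ, ∀ r : ℝ, 0 ≤ r →
    ∀ J : ℝ, 1 ≤ J →
    ∫⁻ z : ℍ in DD, ∫⁻ φ in Set.Ioc (0 : ℝ) π,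
      ‖VS (wP Z e J) r {g | g 1 0 ≠ 0} z φ‖ₑ * ENNReal.ofReal (Real.sqrt (W z)) ≤
      ENNReal.ofReal (C * min (J ^ (-(1 / 4) : ℝ)) ((1 + r) ^ (-(1 / 4) : ℝ))) := by
  classical
  obtain ⟨C1, hC1, h1⟩ := U15b_point hZ e
  obtain ⟨C2, h2⟩ := strip_P hZ e
  refine ⟨C1 * (2 * C2), fun r hr J hJ => ?_⟩
  have hcount := U15b_countable
  have hG := U15b_meas hZ e r J
  set F : ℍ → ENNReal := fun z => ∫⁻ φ in Set.Ioc (0 : ℝ) π, U15b_G Z e r J z φ with hF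
  have hFm : Measurable F := hG.lintegral_prod_right
  have hFT : ∀ z : ℍ, F ((ModularGroup.T ^ 2) • z) = F z := by
    intro z
    rw [hF]
    simp only [U15b_T]
  have hGp : ∀ (p : RowP) (z : ℍ), ∫⁻ φ in Set.Ioc (0 : ℝ) π,
      U15b_G Z e r J ((fibP (p, 0) : SL(2, ℤ)) • z)
        (φ + Complex.arg (((fibP (p, 0) : SL(2, ℤ)) 1 0 : ℂ) * (z : ℂ) +
          ((fibP (p, 0) : SL(2, ℤ)) 1 1 : ℂ))) = F ((fibP (p, 0) : SL(2, ℤ)) • z) := by
    intro p z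
    exact lintegral_shift (fun φ => U15b_G Z e r J ((fibP (p, 0) : SL(2, ℤ)) • z) φ)
      (hG.of_uncurry_left (x := (fibP (p, 0) : SL(2, ℤ)) • z))
      (fun φ => U15b_per Z e r J _ φ) _
  have hmp : ∀ (p : RowP) (z : ℍ), Measurable fun φ =>
      U15b_G Z e r J ((fibP (p, 0) : SL(2, ℤ)) • z)
        (φ + Complex.arg (((fibP (p, 0) : SL(2, ℤ)) 1 0 : ℂ) * (z : ℂ) +
          ((fibP (p, 0) : SL(2, ℤ)) 1 1 : ℂ))) := by
    intro p z
    exact (hG.of_uncurry_left (x := (fibP (p, 0) : SL(2, ℤ)) • z)).comp (measurable_id.add_const _)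
  have hstep : ∀ z : ℍ, ∫⁻ φ in Set.Ioc (0 : ℝ) π,
      ‖VS (wP Z e J) r {g | g 1 0 ≠ 0} z φ‖ₑ * ENNReal.ofReal (Real.sqrt (W z)) ≤
      ENNReal.ofReal C1 * ∑' p : RowP, F ((fibP (p, 0) : SL(2, ℤ)) • z) := by
    intro z
    refine (lintegral_mono fun φ => h1 r hr J hJ z φ).trans (le_of_eq ?_)
    rw [lintegral_const_mul' _ _ ENNReal.ofReal_ne_top,
      lintegral_tsum fun p => (hmp p z).aemeasurable]
    congr 1
    exact tsum_congr fun p => hGp p z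
  have hFs : ∀ p : RowP, Measurable fun z : ℍ => F ((fibP (p, 0) : SL(2, ℤ)) • z) :=
    fun p => hFm.comp (TH4_mp _).1.measurable
  refine (lintegral_mono hstep).trans ?_
  rw [lintegral_const_mul' _ _ ENNReal.ofReal_ne_top,
    lintegral_tsum fun p => (hFs p).aemeasurable, unfold_rows F hFm hFT]
  have h3 : ∫⁻ z in Strip, F z ≤
      ENNReal.ofReal (C2 * min (J ^ (-(1 / 4) : ℝ)) ((1 + r) ^ (-(1 / 4) : ℝ))) := h2 r hr J hJ
  refine (mul_le_mul_right (mul_le_mul_right h3 2) _).trans (le_of_eq ?_)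
  have e2 : (2 : ENNReal) = ENNReal.ofReal 2 := by simp
  rw [e2, ← ENNReal.ofReal_mul (by norm_num), ← ENNReal.ofReal_mul hC1]
  congr 1
  ring

end RV11
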