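import Pool.Agent.LibRV11.U16b
import Pool.Agent.LibRV11.U04
open Complex Real MeasureTheory
open UpperHalfPlane hiding I
open scoped MatrixGroups

namespace RV11

/-! ### U16c -/

private theorem u16c_bdd {Z : ℝ → ℝ} (hZ : IsKer Z) : ∃ M : ℝ, 0 ≤ M ∧ ∀ x, |Z x| ≤ M := by
  have hc : ContinuousOn (fun x => |Z x|) (Set.Icc (1 / 2) 2) :=
    hZ.smooth.continuous.abs.continuousOn
  obtain ⟨M, hM⟩ := (isCompact_Icc.image_of_continuousOn hc).bddAbove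
  refine ⟨max M 0, le_max_right _ _, fun x => ?_⟩
  by_cases hx : x ≤ 1 / 2 ∨ 2 ≤ x
  · rw [hZ.supp x hx, abs_zero]
    exact le_max_right _ _
  · push Not at hx
    exact (hM ⟨x, ⟨hx.1.le, hx.2.le⟩, rfl⟩).trans (le_max_left _ _)

private theorem u16c_wQ {Z : ℝ → ℝ} (hZ : IsKer Z) {M : ℝ} (hM0 : 0 ≤ M) (hM : ∀ x, |Z x| ≤ M)
    (e : Bool) {J up vp uq vq : ℝ} (hJ : 0 < J) (hdet : uq * vp - vq * up = 1) :
    |wQ Z e J up vp uq vq| ≤ M := by
  by_cases h : wR Z e J up vp uq vq = 0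
  · unfold wQ
    rw [h, zero_mul, abs_zero]
    exact hM0
  · have hs := (sep_of_wR hZ hJ hdet h).1
    have h1 := abs_sepR_le up vp uq vq
    have h2 := hM (J * |up * uq|)
    have h3 := hs.kap e
    have h4 : |1 - sH (Hr up vp uq vq)| ≤ 1 := by
      have := sH_mem (Hr up vp uq vq)
      rw [abs_le]
      constructor <;> linarith
    unfold wQ wR
    rw [abs_mul, abs_mul, abs_mul]
    calc |sepR up vp uq vq| * |Z (J * |up * uq|)| * |kapR e up vp uq vq| *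
          |1 - sH (Hr up vp uq vq)| ≤ 1 * M * 1 * 1 := by gcongr
      _ = M := by ring

private theorem u16c_per (w : ℝ → ℝ → ℝ → ℝ → ℝ)
    (hw : ∀ a b c d, w (-a) (-b) (-c) (-d) = w a b c d) (g : SL(2, ℤ)) (z : ℍ) (φ : ℝ) :
    atg w g z (φ + π) = atg w g z φ := by
  have h1 : ∀ c d : ℝ, uu z (φ + π) c d = - uu z φ c d := by
    intro c d
    unfold uu
    rw [Real.sin_add_pi, Real.cos_add_pi]
    ring
  have h2 : ∀ c d : ℝ, vv z (φ + π) c d = - vv z φ c d := by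
    intro c d
    unfold vv
    rw [Real.sin_add_pi, Real.cos_add_pi]
    ring
  unfold atg
  rw [h1, h1, h2, h2, hw]

private theorem u16c_wQ_neg (Z : ℝ → ℝ) (e : Bool) (J a b c d : ℝ) :
    wQ Z e J (-a) (-b) (-c) (-d) = wQ Z e J a b c d := by
  unfold wQ wR sepR kapR Hr
  simp only [neg_mul_neg]

private theorem u16c_om (r : ℝ) : ‖om r / 2‖ ≤ 1 := by
  rw [norm_div]
  have h : ‖om r‖ ≤ 2 := by
    unfold om
    calc ‖1 - cexp (2 * π * I * r)‖ ≤ ‖(1 : ℂ)‖ + ‖cexp (2 * π * I * r)‖ := norm_sub_le _ _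
      _ = 1 + 1 := by
          rw [norm_one]
          congr 1
          have : (2 * π * I * r : ℂ) = ((2 * π * r : ℝ) : ℂ) * I := by push_cast; ring
          rw [this, Complex.norm_exp_ofReal_mul_I]
      _ = 2 := by norm_num
  rw [div_le_one (by simp)]
  simpa using h

open Classical in
private theorem u16c_data {Z : ℝ → ℝ} (hZ : IsKer Z) (e : Bool) {M C0 r J : ℝ} (hM0 : 0 ≤ M)
    (hM : ∀ x, |Z x| ≤ M) (hJ : 1 ≤ J)
    (hC0 : ∫⁻ z : ℍ, ∫⁻ φ in Set.Ioc (0 : ℝ) π,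
      (if atg (wQ Z e J) 1 z φ ≠ 0 then
        ENNReal.ofReal (z.im ^ (1 / 4 : ℝ) * Real.exp (-(π * r * z.im))) else 0) ≤
      ENNReal.ofReal (C0 * min (J ^ (-(1 / 4) : ℝ)) ((1 + r) ^ (-(1 / 4) : ℝ)))) :
    ∃ h : ℍ → ℝ → ENNReal, Measurable (Function.uncurry h) ∧ (∀ z φ, h z (φ + π) = h z φ) ∧
      (∫⁻ z : ℍ, ∫⁻ φ in Set.Ioc (0 : ℝ) π, h z φ ≤
        ENNReal.ofReal (C0 * min (J ^ (-(1 / 4) : ℝ)) ((1 + r) ^ (-(1 / 4) : ℝ)))) ∧
      ∀ (g : Gam) (z : ℍ) (φ : ℝ),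
      ‖Set.indicator {g : SL(2, ℤ) | g 1 0 ≠ 0} (fun g : SL(2, ℤ) => chi g *
        (atg (wQ Z e J) g z φ : ℂ) * phh r (g • z)) (g : SL(2, ℤ))‖ₑ *
        ENNReal.ofReal (Real.sqrt (W z)) ≤
      ENNReal.ofReal M * h ((g : SL(2, ℤ)) • z)
        (φ + Complex.arg (((g : SL(2, ℤ)) 1 0 : ℂ) * (z : ℂ) + ((g : SL(2, ℤ)) 1 1 : ℂ))) := by
  have hJ0 : 0 < J := by linarith
  set h : ℍ → ℝ → ENNReal := fun z φ => if atg (wQ Z e J) 1 z φ ≠ 0 then
        ENNReal.ofReal (z.im ^ (1 / 4 : ℝ) * Real.exp (-(π * r * z.im))) else 0 with hh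
  have hma : Measurable (Function.uncurry (atg (wQ Z e J) 1)) :=
    measurable_atg (measurable_wQ hZ e J) 1
  have hset : MeasurableSet {p : ℍ × ℝ | Function.uncurry (atg (wQ Z e J) 1) p ≠ 0} :=
    (hma (measurableSet_singleton 0)).compl
  have hF2 : Measurable (Function.uncurry h) := by
    apply Measurable.ite hset _ measurable_const
    apply Measurable.ennreal_ofReal
    have h1 : Measurable (fun p : ℍ × ℝ => p.1.im) :=
      (UpperHalfPlane.continuous_im.measurable).comp measurable_fst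
    exact (h1.pow_const _).mul ((h1.const_mul _).neg.exp)
  have hper : ∀ z φ, h z (φ + π) = h z φ := by
    intro z φ
    simp only [hh]
    rw [u16c_per _ (u16c_wQ_neg Z e J)]
  refine ⟨h, hF2, hper, hC0, ?_⟩
  intro g z φ
  have hind : ‖Set.indicator {g : SL(2, ℤ) | g 1 0 ≠ 0} (fun g : SL(2, ℤ) => chi g *
      (atg (wQ Z e J) g z φ : ℂ) * phh r (g • z)) (g : SL(2, ℤ))‖ₑ ≤
      ‖chi g * (atg (wQ Z e J) g z φ : ℂ) * phh r ((g : SL(2, ℤ)) • z)‖ₑ := by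
    by_cases hg : (g : SL(2, ℤ)) ∈ {g : SL(2, ℤ) | g 1 0 ≠ 0}
    · rw [Set.indicator_of_mem hg]
    · rw [Set.indicator_of_notMem hg]
      simp
  refine (mul_le_mul' hind le_rfl).trans ?_
  have hat : atg (wQ Z e J) 1 ((g : SL(2, ℤ)) • z)
      (φ + Complex.arg (((g : SL(2, ℤ)) 1 0 : ℂ) * (z : ℂ) + ((g : SL(2, ℤ)) 1 1 : ℂ))) =
      atg (wQ Z e J) g z φ := by
    rw [atg_smul, one_mul]
  by_cases h0 : atg (wQ Z e J) g z φ = 0
  · rw [h0]
    simp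
  · have e1 : h ((g : SL(2, ℤ)) • z)
        (φ + Complex.arg (((g : SL(2, ℤ)) 1 0 : ℂ) * (z : ℂ) + ((g : SL(2, ℤ)) 1 1 : ℂ))) =
        ENNReal.ofReal ((((g : SL(2, ℤ)) • z).im) ^ (1 / 4 : ℝ) *
          Real.exp (-(π * r * ((g : SL(2, ℤ)) • z).im))) := by
      simp only [hh]
      rw [hat, if_pos h0]
    rw [e1, ← ofReal_norm, ← ENNReal.ofReal_mul (norm_nonneg _),
      ← ENNReal.ofReal_mul hM0]
    apply ENNReal.ofReal_le_ofReal
    rw [norm_mul, norm_mul, norm_chi, one_mul, mul_assoc, norm_phh_smul r g.2 z, im_smul_eq]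
    have hNp : 0 < Np z ((g : SL(2, ℤ)) 1 0) ((g : SL(2, ℤ)) 1 1) := by
      have := ((g : SL(2, ℤ)) • z).im_pos
      rw [im_smul_eq] at this
      exact one_div_pos.mp this
    have e2 : (1 / Np z ((g : SL(2, ℤ)) 1 0) ((g : SL(2, ℤ)) 1 1)) ^ (1 / 4 : ℝ) =
        (Np z ((g : SL(2, ℤ)) 1 0) ((g : SL(2, ℤ)) 1 1)) ^ (-(1 / 4) : ℝ) := by
      rw [one_div, Real.inv_rpow hNp.le, ← Real.rpow_neg hNp.le]
    have e3 : π * r * (1 / Np z ((g : SL(2, ℤ)) 1 0) ((g : SL(2, ℤ)) 1 1)) =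
        π * r / Np z ((g : SL(2, ℤ)) 1 0) ((g : SL(2, ℤ)) 1 1) := by ring
    rw [e2, e3]
    have hb : ‖(atg (wQ Z e J) g z φ : ℂ)‖ ≤ M := by
      rw [Complex.norm_real, Real.norm_eq_abs]
      exact u16c_wQ hZ hM0 hM e hJ0 (atg_det g z φ)
    calc _ ≤ M * (Real.exp (-(π * r / Np z ((g : SL(2, ℤ)) 1 0) ((g : SL(2, ℤ)) 1 1))) *
          (Np z ((g : SL(2, ℤ)) 1 0) ((g : SL(2, ℤ)) 1 1)) ^ (-(1 / 4) : ℝ)) :=
          mul_le_mul_of_nonneg_right hb (by positivity)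
      _ = _ := by ring

open Classical in
theorem L1_Q {Z : ℝ → ℝ} (hZ : IsKer Z) (e : Bool) : ∃ C : ℝ, ∀ r : ℝ, 0 ≤ r →
    ∀ J : ℝ, 1 ≤ J →
    ∫⁻ z : ℍ in DD, ∫⁻ φ in Set.Ioc (0 : ℝ) π,
      ‖VS (wQ Z e J) r {g | g 1 0 ≠ 0} z φ‖ₑ * ENNReal.ofReal (Real.sqrt (W z)) ≤
      ENNReal.ofReal (C * min (J ^ (-(1 / 4) : ℝ)) ((1 + r) ^ (-(1 / 4) : ℝ))) := by
  obtain ⟨C0, hC0⟩ := plane_Q hZ e
  obtain ⟨M, hM0, hM⟩ := u16c_bdd hZ
  refine ⟨2 * M * C0, fun r hr J hJ => ?_⟩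
  have hcount := TH4_countable
  obtain ⟨h, hF2, hper, hint, hterm⟩ := u16c_data hZ e hM0 hM hJ (hC0 r hr J hJ)
  set H : ℍ → ENNReal := fun z => ∫⁻ φ in Set.Ioc (0 : ℝ) π, h z φ with hH
  have hHm : Measurable H := hF2.lintegral_prod_right'
  have hVS : ∀ z φ, ‖VS (wQ Z e J) r {g | g 1 0 ≠ 0} z φ‖ₑ * ENNReal.ofReal (Real.sqrt (W z)) ≤
      ENNReal.ofReal M * ∑' g : Gam, h ((g : SL(2, ℤ)) • z)
        (φ + Complex.arg (((g : SL(2, ℤ)) 1 0 : ℂ) * (z : ℂ) + ((g : SL(2, ℤ)) 1 1 : ℂ))) := by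
    intro z φ
    unfold VS
    rw [enorm_mul]
    have h1 : ‖om r / 2‖ₑ ≤ 1 := by
      rw [← ofReal_norm]
      calc ENNReal.ofReal ‖om r / 2‖ ≤ ENNReal.ofReal 1 := ENNReal.ofReal_le_ofReal (u16c_om r)
        _ = 1 := ENNReal.ofReal_one
    calc _ ≤ 1 * (∑' g : Gam, ‖Set.indicator {g : SL(2, ℤ) | g 1 0 ≠ 0}
          (fun g : SL(2, ℤ) => chi g * (atg (wQ Z e J) g z φ : ℂ) * phh r (g • z))
          (g : SL(2, ℤ))‖ₑ) * ENNReal.ofReal (Real.sqrt (W z)) := by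
            apply mul_le_mul' _ le_rfl
            apply mul_le_mul' h1
            exact enorm_tsum_le_tsum_enorm
      _ = ∑' g : Gam, ‖Set.indicator {g : SL(2, ℤ) | g 1 0 ≠ 0}
          (fun g : SL(2, ℤ) => chi g * (atg (wQ Z e J) g z φ : ℂ) * phh r (g • z))
          (g : SL(2, ℤ))‖ₑ * ENNReal.ofReal (Real.sqrt (W z)) := by
            rw [one_mul, ENNReal.tsum_mul_right]
      _ ≤ ∑' g : Gam, ENNReal.ofReal M * h ((g : SL(2, ℤ)) • z)
        (φ + Complex.arg (((g : SL(2, ℤ)) 1 0 : ℂ) * (z : ℂ) + ((g : SL(2, ℤ)) 1 1 : ℂ))) :=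
            ENNReal.tsum_le_tsum fun g => hterm g z φ
      _ = _ := ENNReal.tsum_mul_left
  have hmh : ∀ (g : Gam) (z : ℍ), Measurable fun φ => h ((g : SL(2, ℤ)) • z)
        (φ + Complex.arg (((g : SL(2, ℤ)) 1 0 : ℂ) * (z : ℂ) + ((g : SL(2, ℤ)) 1 1 : ℂ))) := by
    intro g z
    have hm2 : Measurable (fun φ : ℝ => (((g : SL(2, ℤ)) • z : ℍ),
        φ + Complex.arg (((g : SL(2, ℤ)) 1 0 : ℂ) * (z : ℂ) + ((g : SL(2, ℤ)) 1 1 : ℂ)))) :=
      measurable_const.prodMk (measurable_id.add_const _)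
    exact hF2.comp hm2
  calc _ ≤ ∫⁻ z : ℍ in DD, ∫⁻ φ in Set.Ioc (0 : ℝ) π, ENNReal.ofReal M * ∑' g : Gam,
        h ((g : SL(2, ℤ)) • z)
        (φ + Complex.arg (((g : SL(2, ℤ)) 1 0 : ℂ) * (z : ℂ) + ((g : SL(2, ℤ)) 1 1 : ℂ))) := by
          apply lintegral_mono
          intro z
          apply lintegral_mono
          intro φ
          exact hVS z φ
    _ = ∫⁻ z : ℍ in DD, ENNReal.ofReal M * ∑' g : Gam, H ((g : SL(2, ℤ)) • z) := by
          apply lintegral_congr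
          intro z
          rw [lintegral_const_mul' _ _ ENNReal.ofReal_ne_top,
            lintegral_tsum fun g => (hmh g z).aemeasurable]
          congr 1
          apply tsum_congr
          intro g
          have hsh := lintegral_shift (fun φ => h ((g : SL(2, ℤ)) • z) φ)
            (hF2.comp (measurable_const.prodMk measurable_id)) (fun φ => hper _ φ)
            (Complex.arg (((g : SL(2, ℤ)) 1 0 : ℂ) * (z : ℂ) + ((g : SL(2, ℤ)) 1 1 : ℂ)))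
          exact hsh
    _ = ENNReal.ofReal M * ∑' g : Gam, ∫⁻ z : ℍ in DD, H ((g : SL(2, ℤ)) • z) := by
          rw [lintegral_const_mul' _ _ ENNReal.ofReal_ne_top]
          congr 1
          rw [lintegral_tsum]
          intro g
          exact (hHm.comp (TH4_mp _).1.measurable).aemeasurable
    _ = ENNReal.ofReal M * (2 * ∫⁻ z, H z) := by
          rw [unfold_lintegral H hHm]
    _ ≤ ENNReal.ofReal M * (2 * ENNReal.ofReal
          (C0 * min (J ^ (-(1 / 4) : ℝ)) ((1 + r) ^ (-(1 / 4) : ℝ)))) :=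
          mul_le_mul' le_rfl (mul_le_mul' le_rfl hint)
    _ = _ := by
          have h2 : (2 : ENNReal) = ENNReal.ofReal 2 := by simp
          rw [h2, ← ENNReal.ofReal_mul (by norm_num), ← ENNReal.ofReal_mul hM0]
          congr 1
          ring

end RV11
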