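import Pool.Agent.LibRV11.U11a
import Pool.Agent.LibRV11.U14a
import Pool.Agent.LibRV11.U14b
import Pool.Agent.LibRV11.TH13
import Pool.Agent.LibRV11.U04
open Complex Real MeasureTheory
open UpperHalfPlane hiding I
open scoped MatrixGroups

namespace RV11

/-! ### U17: the vertical walls -/

theorem U17_finite {w : ℝ → ℝ → ℝ → ℝ → ℝ} {z : ℍ} {φ K : ℝ}
    (hK : ∀ g, atg w g z φ ≠ 0 → NP g z * NQ g z ≤ K) (r : ℝ) (S : Set SL(2, ℤ)) :
    (Function.support (fun g : Gam => S.indicator (fun g : SL(2, ℤ) => chi g * (atg w g z φ : ℂ) *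
      phh r (g • z)) g)).Finite := by
  refine Set.Finite.subset (Set.Finite.preimage (f := fun g : Gam => (g : SL(2, ℤ)))
    Subtype.val_injective.injOn (finite_NPNQ z K)) ?_
  intro g hg
  rw [Function.mem_support] at hg
  have h1 : atg w (g : SL(2, ℤ)) z φ ≠ 0 := by
    intro h0
    apply hg
    by_cases hS : (g : SL(2, ℤ)) ∈ S
    · rw [Set.indicator_of_mem hS, h0]
      simp
    · rw [Set.indicator_of_notMem hS]
  exact hK g h1

/-- the sum over one class of matrices with `c = 0` -/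
theorem U17_class (f : SL(2, ℤ) → ℂ) {γ : SL(2, ℤ)} (hγ : γ ∈ Gam) (hc : γ 1 0 = 0) :
    ∑' g : Gam, Set.indicator {g : SL(2, ℤ) | g 1 0 = 0 ∧ g 1 1 = γ 1 1} f g =
      ∑' k : ℤ, f ((ModularGroup.T ^ 2) ^ k * γ) := by
  have hdet : ∀ g : SL(2, ℤ), g 0 0 * g 1 1 - g 0 1 * g 1 0 = 1 := fun g => by
    have := g.det_coe
    rw [Matrix.det_fin_two] at this
    exact this
  have hd : γ 0 0 * γ 1 1 = 1 := by
    have := hdet γ
    rw [hc, mul_zero, sub_zero] at this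
    exact this
  have hd0 : γ 1 1 ≠ 0 := by
    intro h
    rw [h, mul_zero] at hd
    exact zero_ne_one hd
  have hmem : ∀ k : ℤ, (ModularGroup.T ^ 2) ^ k * γ ∈ Gam := fun k =>
    Gam.mul_mem (Gam.zpow_mem T2_mem_Gam' k) hγ
  set ι : ℤ → Gam := fun k => ⟨(ModularGroup.T ^ 2) ^ k * γ, hmem k⟩ with hι
  have hinj : Function.Injective ι := by
    intro k l hkl
    have h1 : (ModularGroup.T ^ 2) ^ k * γ = (ModularGroup.T ^ 2) ^ l * γ :=
      congrArg Subtype.val hkl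
    have h2 := (T_zpow_mul k γ).2.1
    have h3 := (T_zpow_mul l γ).2.1
    rw [h1, h3] at h2
    have h4 : (l - k) * γ 1 1 = 0 := by linarith
    rcases mul_eq_zero.mp h4 with h5 | h5
    · omega
    · exact absurd h5 hd0
  have hsupp : Function.support (fun g : Gam =>
      Set.indicator {g : SL(2, ℤ) | g 1 0 = 0 ∧ g 1 1 = γ 1 1} f g) ⊆ Set.range ι := by
    intro g hg
    rw [Function.mem_support] at hg
    have hgS : (g : SL(2, ℤ)) ∈ {g : SL(2, ℤ) | g 1 0 = 0 ∧ g 1 1 = γ 1 1} := by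
      by_contra h
      exact hg (Set.indicator_of_notMem h _)
    obtain ⟨h1, h2⟩ := hgS
    have ha : (g : SL(2, ℤ)) 0 0 * γ 1 1 = 1 := by
      have := hdet g
      rw [h1, h2, mul_zero, sub_zero] at this
      exact this
    have haa : (g : SL(2, ℤ)) 0 0 = γ 0 0 :=
      mul_right_cancel₀ hd0 (ha.trans hd.symm)
    have hsq : γ 0 0 = γ 1 1 := by
      rcases Int.eq_one_or_neg_one_of_mul_eq_one' hd with h | h
      · rw [h.1, h.2]
      · rw [h.1, h.2]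
    have hodd : ¬ Even (γ 0 0) := by
      rcases Int.eq_one_or_neg_one_of_mul_eq_one' hd with h | h
      · rw [h.1]
        decide
      · rw [h.1]
        decide
    have e1 : Even ((g : SL(2, ℤ)) 0 1) := by
      have := even_ab g.2
      rw [Int.even_mul, haa] at this
      tauto
    have e2 : Even (γ 0 1) := by
      have := even_ab hγ
      rw [Int.even_mul] at this
      tauto
    obtain ⟨m, hm⟩ := e1
    obtain ⟨m', hm'⟩ := e2
    refine ⟨(m - m') * γ 1 1, ?_⟩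
    apply Subtype.ext
    obtain ⟨t1, t2, t3, t4⟩ := T_zpow_mul ((m - m') * γ 1 1) γ
    have hsq1 : γ 1 1 * γ 1 1 = 1 := by
      rw [hsq] at hd
      exact hd
    apply Matrix.SpecialLinearGroup.ext
    intro i j
    fin_cases i <;> fin_cases j
    · change ((ModularGroup.T ^ 2) ^ ((m - m') * γ 1 1) * γ) 0 0 = (g : SL(2, ℤ)) 0 0
      rw [t1, hc, haa]
      ring
    · change ((ModularGroup.T ^ 2) ^ ((m - m') * γ 1 1) * γ) 0 1 = (g : SL(2, ℤ)) 0 1
      rw [t2, hm, hm']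
      linear_combination 2 * (m - m') * hsq1
    · change ((ModularGroup.T ^ 2) ^ ((m - m') * γ 1 1) * γ) 1 0 = (g : SL(2, ℤ)) 1 0
      rw [t3, h1, hc]
    · change ((ModularGroup.T ^ 2) ^ ((m - m') * γ 1 1) * γ) 1 1 = (g : SL(2, ℤ)) 1 1
      rw [t4, h2]
  rw [← hinj.tsum_eq hsupp]
  refine tsum_congr fun k => ?_
  obtain ⟨t1, t2, t3, t4⟩ := T_zpow_mul k γ
  have hk : (ι k : SL(2, ℤ)) ∈ {g : SL(2, ℤ) | g 1 0 = 0 ∧ g 1 1 = γ 1 1} := by
    refine ⟨?_, ?_⟩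
    · change ((ModularGroup.T ^ 2) ^ k * γ) 1 0 = 0
      rw [t3, hc]
    · change ((ModularGroup.T ^ 2) ^ k * γ) 1 1 = γ 1 1
      rw [t4]
  rw [Set.indicator_of_mem hk]

theorem U17_wR_neg (Z : ℝ → ℝ) (e : Bool) (J : ℝ) (g : SL(2, ℤ)) (z : ℍ) (φ : ℝ) :
    atg (wR Z e J) (-g) z φ = atg (wR Z e J) g z φ := by
  have hneg : ∀ i j, ((-g : SL(2, ℤ)) i j : ℝ) = -(g i j : ℝ) := by
    intro i j
    have : (-g : SL(2, ℤ)) i j = -(g i j) := rfl
    rw [this]
    push_cast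
    rfl
  have hu : ∀ c d : ℝ, uu z φ (-c) (-d) = -uu z φ c d := by
    intro c d
    unfold uu
    ring
  have hv : ∀ c d : ℝ, vv z φ (-c) (-d) = -vv z φ c d := by
    intro c d
    unfold vv
    ring
  unfold atg
  rw [hneg, hneg, hneg, hneg, ← neg_add, ← neg_add, hu, hv, hu, hv]
  unfold wR sepR kapR
  simp only [neg_mul_neg]

theorem U17_NP (z : ℍ) {γ : SL(2, ℤ)} (hc : γ 1 0 = 0) (hd : γ 1 1 = 1 ∨ γ 1 1 = -1) :
    NP γ z = 1 / z.im := by
  unfold NP Np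
  rw [hc]
  rcases hd with h | h
  · rw [h]
    simp
  · rw [h]
    simp

open Classical in
theorem alpha_point {Z : ℝ → ℝ} (hZ : IsKer Z) (e : Bool) : ∃ C : ℝ, ∀ r : ℝ, 0 ≤ r →
    ∀ J : ℝ, 1 ≤ J → ∀ (z : ℍ) (φ : ℝ),
    ‖VS (wR Z e J) r {g | g 1 0 = 0} z φ‖ * Real.sqrt (W z) ≤
      if ∃ k : ℤ, atg (wR Z e J) ((ModularGroup.T ^ 2) ^ k) z φ ≠ 0 then
        C * z.im ^ (1 / 4 : ℝ) else 0 := by
  obtain ⟨C, hC⟩ := block_R hZ e
  refine ⟨|C|, fun r hr J hJ z φ => ?_⟩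
  have hR := fun g => NPNQ_le hZ (e := e) hJ g z φ
  set f : SL(2, ℤ) → ℂ := fun g => chi g * (atg (wR Z e J) g z φ : ℂ) * phh r (g • z) with hf
  have hone : (1 : SL(2, ℤ)) ∈ Gam := Gam.one_mem
  have hneg : (-1 : SL(2, ℤ)) ∈ Gam := by
    rw [mem_Gam_iff]
    constructor
    · decide
    · decide
  have h10 : (1 : SL(2, ℤ)) 1 0 = 0 := rfl
  have h11 : (1 : SL(2, ℤ)) 1 1 = 1 := rfl
  have n10 : (-1 : SL(2, ℤ)) 1 0 = 0 := rfl
  have n11 : (-1 : SL(2, ℤ)) 1 1 = -1 := rfl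
  -- splitting
  have hsplit : VS (wR Z e J) r {g | g 1 0 = 0} z φ = om r / 2 *
      (∑' k : ℤ, f ((ModularGroup.T ^ 2) ^ k * 1) +
        ∑' k : ℤ, f ((ModularGroup.T ^ 2) ^ k * (-1))) := by
    rw [← U17_class f hone h10, ← U17_class f hneg n10]
    unfold VS
    congr 1
    rw [← Summable.tsum_add (summable_of_hasFiniteSupport (U17_finite hR r _))
      (summable_of_hasFiniteSupport (U17_finite hR r _))]
    refine tsum_congr fun g => ?_
    have hdet : (g : SL(2, ℤ)) 0 0 * (g : SL(2, ℤ)) 1 1 -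
        (g : SL(2, ℤ)) 0 1 * (g : SL(2, ℤ)) 1 0 = 1 := by
      have := (g : SL(2, ℤ)).det_coe
      rw [Matrix.det_fin_two] at this
      exact this
    rw [h11, n11]
    by_cases hc : (g : SL(2, ℤ)) 1 0 = 0
    · rw [hc, mul_zero, sub_zero] at hdet
      rcases Int.eq_one_or_neg_one_of_mul_eq_one' hdet with h | h
      · rw [Set.indicator_of_mem (show (g : SL(2, ℤ)) ∈ {g : SL(2, ℤ) | g 1 0 = 0} from hc),
          Set.indicator_of_mem (show (g : SL(2, ℤ)) ∈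
            {g : SL(2, ℤ) | g 1 0 = 0 ∧ g 1 1 = 1} from ⟨hc, h.2⟩),
          Set.indicator_of_notMem (show (g : SL(2, ℤ)) ∉
            {g : SL(2, ℤ) | g 1 0 = 0 ∧ g 1 1 = -1} from fun h' => by
              have := h'.2
              rw [h.2] at this
              exact absurd this (by decide)), add_zero]
      · rw [Set.indicator_of_mem (show (g : SL(2, ℤ)) ∈ {g : SL(2, ℤ) | g 1 0 = 0} from hc),
          Set.indicator_of_notMem (show (g : SL(2, ℤ)) ∉
            {g : SL(2, ℤ) | g 1 0 = 0 ∧ g 1 1 = 1} from fun h' => by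
              have := h'.2
              rw [h.2] at this
              exact absurd this (by decide)),
          Set.indicator_of_mem (show (g : SL(2, ℤ)) ∈
            {g : SL(2, ℤ) | g 1 0 = 0 ∧ g 1 1 = -1} from ⟨hc, h.2⟩), zero_add]
    · rw [Set.indicator_of_notMem (show (g : SL(2, ℤ)) ∉ {g : SL(2, ℤ) | g 1 0 = 0} from hc),
        Set.indicator_of_notMem (show (g : SL(2, ℤ)) ∉
          {g : SL(2, ℤ) | g 1 0 = 0 ∧ g 1 1 = 1} from fun h' => hc h'.1),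
        Set.indicator_of_notMem (show (g : SL(2, ℤ)) ∉
          {g : SL(2, ℤ) | g 1 0 = 0 ∧ g 1 1 = -1} from fun h' => hc h'.1), add_zero]
  split_ifs with hex
  · have hb : ∀ γ ∈ Gam, γ 1 0 = 0 → (γ 1 1 = 1 ∨ γ 1 1 = -1) →
        ‖om r * ∑' k : ℤ, f ((ModularGroup.T ^ 2) ^ k * γ)‖ * Real.sqrt (W z) ≤
          |C| * z.im ^ (1 / 4 : ℝ) := by
      intro γ hγ h1 h2
      have hz := z.im_pos
      refine (hC r hr J hJ z φ γ hγ).trans ?_
      rw [U17_NP z h1 h2]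
      have e1 : (1 / z.im) ^ (-(1 / 4) : ℝ) = z.im ^ (1 / 4 : ℝ) := by
        rw [one_div, Real.inv_rpow hz.le, ← Real.rpow_neg hz.le, neg_neg]
      rw [e1]
      refine mul_le_mul_of_nonneg_right ?_ (by positivity)
      have e2 : Real.exp (-(π * r / (1 / z.im))) ≤ 1 := by
        rw [Real.exp_le_one_iff]
        have := Real.pi_pos
        have : 0 ≤ π * r / (1 / z.im) := by positivity
        linarith
      calc C * Real.exp (-(π * r / (1 / z.im))) ≤ |C| * Real.exp (-(π * r / (1 / z.im))) :=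
            mul_le_mul_of_nonneg_right (le_abs_self _) (Real.exp_pos _).le
        _ ≤ |C| * 1 := mul_le_mul_of_nonneg_left e2 (abs_nonneg _)
        _ = |C| := mul_one _
    have b1 := hb 1 hone h10 (Or.inl h11)
    have b2 := hb (-1) hneg n10 (Or.inr n11)
    rw [hsplit]
    set A := ∑' k : ℤ, f ((ModularGroup.T ^ 2) ^ k * 1)
    set B := ∑' k : ℤ, f ((ModularGroup.T ^ 2) ^ k * (-1))
    have e1 : om r / 2 * (A + B) = (1 / 2 : ℂ) * (om r * A + om r * B) := by ring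
    have e2 : ‖(1 / 2 : ℂ)‖ = 1 / 2 := by simp
    rw [e1, norm_mul, e2]
    have e3 := mul_le_mul_of_nonneg_right (norm_add_le (om r * A) (om r * B))
      (Real.sqrt_nonneg (W z))
    nlinarith
  · have h0 : ∀ k : ℤ, atg (wR Z e J) ((ModularGroup.T ^ 2) ^ k) z φ = 0 := by
      intro k
      by_contra hne
      exact hex ⟨k, hne⟩
    have f1 : ∀ k : ℤ, f ((ModularGroup.T ^ 2) ^ k * 1) = 0 := by
      intro k
      rw [mul_one, hf]
      simp only
      rw [h0]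
      simp
    have f2 : ∀ k : ℤ, f ((ModularGroup.T ^ 2) ^ k * (-1)) = 0 := by
      intro k
      rw [mul_neg, mul_one, hf]
      simp only
      rw [U17_wR_neg, h0]
      simp
    rw [hsplit]
    simp only [f1, f2, tsum_zero, add_zero, mul_zero, norm_zero, zero_mul]
    exact le_refl _

open Classical in
/-- inner integral: the measure of a set times a constant -/
theorem U17_const (P : ℝ → Prop) {c m : ℝ} (hc : 0 ≤ c)
    (hm : volume {φ : ℝ | φ ∈ Set.Ioc 0 π ∧ P φ} ≤ ENNReal.ofReal m) :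
    ∫⁻ φ in Set.Ioc (0 : ℝ) π, (if P φ then ENNReal.ofReal c else 0) ≤
      ENNReal.ofReal (c * min π m) := by
  have h1 : ∫⁻ φ in Set.Ioc (0 : ℝ) π, (if P φ then ENNReal.ofReal c else 0) ≤
      ENNReal.ofReal c * volume {φ : ℝ | φ ∈ Set.Ioc 0 π ∧ P φ} := by
    have e1 : ∀ φ, (if P φ then ENNReal.ofReal c else 0) =
        Set.indicator {φ | P φ} (fun _ => ENNReal.ofReal c) φ := by
      intro φ
      by_cases h : P φ
      · rw [if_pos h, Set.indicator_of_mem (by exact h)]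
      · rw [if_neg h, Set.indicator_of_notMem (by exact h)]
    simp only [e1]
    refine (lintegral_indicator_const_le _ _).trans (le_of_eq ?_)
    rw [Measure.restrict_apply' measurableSet_Ioc]
    congr 2
    ext φ
    exact and_comm
  have h2 : volume {φ : ℝ | φ ∈ Set.Ioc 0 π ∧ P φ} ≤ ENNReal.ofReal π := by
    refine (measure_mono (t := Set.Ioc 0 π) fun φ h => h.1).trans (le_of_eq ?_)
    rw [Real.volume_Ioc, sub_zero]
  refine h1.trans ?_
  rw [ENNReal.ofReal_mul hc]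
  refine mul_le_mul_right ?_ _
  rcases min_cases π m with h | h
  · rw [h.1]
    exact h2
  · rw [h.1]
    exact hm

theorem U17_width (y : ℝ) :
    volume ({x : ℝ | 1 < x ^ 2 + y ^ 2} ∩ Set.Ioo (-1 : ℝ) 1) ≤ ENNReal.ofReal (min 2 (2 * y ^ 2)) := by
  have h1 : volume ({x : ℝ | 1 < x ^ 2 + y ^ 2} ∩ Set.Ioo (-1 : ℝ) 1) ≤ ENNReal.ofReal 2 := by
    refine (measure_mono Set.inter_subset_right).trans (le_of_eq ?_)
    rw [Real.volume_Ioo]
    norm_num
  have h2 : volume ({x : ℝ | 1 < x ^ 2 + y ^ 2} ∩ Set.Ioo (-1 : ℝ) 1) ≤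
      ENNReal.ofReal (2 * y ^ 2) := by
    have hsub : {x : ℝ | 1 < x ^ 2 + y ^ 2} ∩ Set.Ioo (-1 : ℝ) 1 ⊆
        Set.Ioo (-1) (-1 + y ^ 2) ∪ Set.Ioo (1 - y ^ 2) 1 := by
      rintro x ⟨hx1, hx2, hx3⟩
      have hx1' : 1 < x ^ 2 + y ^ 2 := hx1
      rcases le_or_gt 0 x with h | h
      · right
        exact ⟨by nlinarith, hx3⟩
      · left
        exact ⟨hx2, by nlinarith⟩
    refine (measure_mono hsub).trans ((measure_union_le _ _).trans (le_of_eq ?_))
    rw [Real.volume_Ioo, Real.volume_Ioo, ← ENNReal.ofReal_add (by nlinarith) (by nlinarith)]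
    congr 1
    ring
  rcases min_cases 2 (2 * y ^ 2) with h | h
  · rw [h.1]
    exact h1
  · rw [h.1]
    exact h2

theorem U17_fin : ∫⁻ z : ℍ in DD, ENNReal.ofReal (z.im ^ (1 / 2 : ℝ) + z.im ^ (3 / 4 : ℝ)) < ⊤ := by
  set D' : Set ℂ := {w : ℂ | 1 < ‖w‖} with hD'
  have hm3 : MeasurableSet D' := measurableSet_lt measurable_const continuous_norm.measurable
  have hm2 : MeasurableSet {z : ℍ | 1 < ‖(z : ℂ)‖} := measurable_coe hm3
  set F : ℂ → ENNReal := fun w => ENNReal.ofReal (w.im ^ (1 / 2 : ℝ) + w.im ^ (3 / 4 : ℝ)) with hF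
  have hFm : Measurable F :=
    ((Complex.measurable_im.pow_const _).add (Complex.measurable_im.pow_const _)).ennreal_ofReal
  have e1 : ∫⁻ z : ℍ in DD, ENNReal.ofReal (z.im ^ (1 / 2 : ℝ) + z.im ^ (3 / 4 : ℝ)) =
      ∫⁻ z : ℍ in Strip, (D'.indicator F) z := by
    have h1 : ∀ z : ℍ, (D'.indicator F) z =
        ({z : ℍ | 1 < ‖(z : ℂ)‖}.indicator (fun z : ℍ => F z)) z := by
      intro z
      by_cases h : 1 < ‖(z : ℂ)‖
      · rw [Set.indicator_of_mem (by exact h), Set.indicator_of_mem (by exact h)]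
      · rw [Set.indicator_of_notMem (by exact h), Set.indicator_of_notMem (by exact h)]
    simp only [h1]
    rw [lintegral_indicator hm2, Measure.restrict_restrict hm2]
    have h2 : {z : ℍ | 1 < ‖(z : ℂ)‖} ∩ Strip = DD := by
      ext z
      exact and_comm
    rw [h2]
    rfl
  rw [e1, lintegral_strip _ (hFm.indicator hm3)]
  have hpt : ∀ y ∈ Set.Ioi (0 : ℝ), ∫⁻ x in Set.Ioo (-1 : ℝ) 1, (D'.indicator F) (x + I * y) *
      ENNReal.ofReal (1 / y ^ 2) ≤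
      (Set.Ioc (0 : ℝ) 1).indicator (fun _ => ENNReal.ofReal 4) y +
      ENNReal.ofReal 4 * (Set.Ioi (1 : ℝ)).indicator (fun y => ENNReal.ofReal (y ^ (-(5 / 4) : ℝ))) y := by
    intro y hy
    have hy0 : (0 : ℝ) < y := hy
    have h1 : ∀ x : ℝ, (D'.indicator F) (x + I * y) * ENNReal.ofReal (1 / y ^ 2) =
        {x : ℝ | 1 < x ^ 2 + y ^ 2}.indicator (fun _ => ENNReal.ofReal
          ((y ^ (1 / 2 : ℝ) + y ^ (3 / 4 : ℝ)) * (1 / y ^ 2))) x := by
      intro x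
      have hnorm : ‖(x : ℂ) + I * (y : ℂ)‖ ^ 2 = x ^ 2 + y ^ 2 := by
        rw [Complex.sq_norm, Complex.normSq_apply]
        simp
        ring
      have hiff : 1 < ‖(x : ℂ) + I * (y : ℂ)‖ ↔ 1 < x ^ 2 + y ^ 2 := by
        rw [← hnorm]
        exact (one_lt_sq_iff₀ (norm_nonneg _)).symm
      by_cases h : 1 < ‖(x : ℂ) + I * (y : ℂ)‖
      · rw [Set.indicator_of_mem (by exact h), Set.indicator_of_mem (by exact hiff.mp h),
          ENNReal.ofReal_mul (by positivity), hF]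
        simp
      · rw [Set.indicator_of_notMem (by exact h),
          Set.indicator_of_notMem (by exact fun h' => h (hiff.mpr h')), zero_mul]
    simp only [h1]
    refine (lintegral_indicator_const_le _ _).trans ?_
    rw [Measure.restrict_apply' measurableSet_Ioo]
    refine (mul_le_mul_right (U17_width y) _).trans ?_
    rw [← ENNReal.ofReal_mul (by positivity)]
    rcases le_or_gt y 1 with h | h
    · refine le_trans ?_ le_self_add
      rw [Set.indicator_of_mem (show y ∈ Set.Ioc (0 : ℝ) 1 from ⟨hy0, h⟩)]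
      refine ENNReal.ofReal_le_ofReal ?_
      have f1 : y ^ (1 / 2 : ℝ) ≤ 1 := Real.rpow_le_one hy0.le h (by norm_num)
      have f2 : y ^ (3 / 4 : ℝ) ≤ 1 := Real.rpow_le_one hy0.le h (by norm_num)
      calc (y ^ (1 / 2 : ℝ) + y ^ (3 / 4 : ℝ)) * (1 / y ^ 2) * min 2 (2 * y ^ 2)
          ≤ 2 * (1 / y ^ 2) * (2 * y ^ 2) := by
            gcongr
            · linarith
            · exact min_le_right _ _
        _ = 4 := by
            field_simp
            norm_num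
    · refine le_trans ?_ (self_le_add_left _ _)
      rw [Set.indicator_of_mem (show y ∈ Set.Ioi (1 : ℝ) from h),
        ← ENNReal.ofReal_mul (by norm_num)]
      refine ENNReal.ofReal_le_ofReal ?_
      have f1 : y ^ (1 / 2 : ℝ) ≤ y ^ (3 / 4 : ℝ) :=
        Real.rpow_le_rpow_of_exponent_le h.le (by norm_num)
      have f2 : y ^ (-(5 / 4) : ℝ) = y ^ (3 / 4 : ℝ) / y ^ 2 := by
        rw [← Real.rpow_ofNat y 2, ← Real.rpow_sub hy0]
        norm_num
      calc (y ^ (1 / 2 : ℝ) + y ^ (3 / 4 : ℝ)) * (1 / y ^ 2) * min 2 (2 * y ^ 2)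
          ≤ (y ^ (3 / 4 : ℝ) + y ^ (3 / 4 : ℝ)) * (1 / y ^ 2) * 2 := by
            gcongr
            exact min_le_left _ _
        _ = 4 * y ^ (-(5 / 4) : ℝ) := by
            rw [f2]
            ring
  refine lt_of_le_of_lt (setLIntegral_mono' measurableSet_Ioi hpt) ?_
  rw [lintegral_add_left (measurable_const.indicator measurableSet_Ioc),
    lintegral_const_mul' _ _ ENNReal.ofReal_ne_top, lintegral_indicator measurableSet_Ioc,
    lintegral_indicator measurableSet_Ioi, Measure.restrict_restrict measurableSet_Ioc,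
    Measure.restrict_restrict measurableSet_Ioi]
  refine ENNReal.add_lt_top.mpr ⟨?_, ?_⟩
  · rw [lintegral_const, Measure.restrict_apply_univ]
    refine ENNReal.mul_lt_top ENNReal.ofReal_lt_top ?_
    refine lt_of_le_of_lt (measure_mono Set.inter_subset_left) ?_
    rw [Real.volume_Ioc]
    exact ENNReal.ofReal_lt_top
  · refine ENNReal.mul_lt_top ENNReal.ofReal_lt_top ?_
    have s2 : Set.Ioi (1 : ℝ) ∩ Set.Ioi (0 : ℝ) = Set.Ioi 1 := by
      rw [Set.Ioi_inter_Ioi, sup_eq_left.mpr (by norm_num)]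
    rw [s2]
    have hi : IntegrableOn (fun y : ℝ => y ^ (-(5 / 4) : ℝ)) (Set.Ioi 1) :=
      integrableOn_Ioi_rpow_of_lt (by norm_num) (by norm_num)
    exact hi.lintegral_lt_top

theorem U17_min_sqrt {a b : ℝ} (ha : 0 ≤ a) (hb : 0 ≤ b) : min a b ≤ Real.sqrt (a * b) := by
  have hm : 0 ≤ min a b := le_min ha hb
  rw [← Real.sqrt_sq hm]
  refine Real.sqrt_le_sqrt ?_
  rw [sq]
  exact mul_le_mul (min_le_left _ _) (min_le_right _ _) hm ha

theorem U17_real {C J y : ℝ} (hC : 0 ≤ C) (hJ : 1 ≤ J) (hy : 0 < y) :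
    min π (C * (1 / J + Real.sqrt (y / J))) ≤
      Real.sqrt (π * C) * J ^ (-(1 / 4) : ℝ) * (1 + y ^ (1 / 4 : ℝ)) := by
  have hJ0 : 0 < J := by linarith
  have h1 : 1 / J + Real.sqrt (y / J) ≤ J ^ (-(1 / 2) : ℝ) * (1 + y ^ (1 / 2 : ℝ)) := by
    have e1 : 1 / J ≤ J ^ (-(1 / 2) : ℝ) := by
      rw [one_div, ← Real.rpow_neg_one]
      exact Real.rpow_le_rpow_of_exponent_le hJ (by norm_num)
    have e2 : Real.sqrt (y / J) = y ^ (1 / 2 : ℝ) * J ^ (-(1 / 2) : ℝ) := by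
      rw [Real.sqrt_eq_rpow, Real.div_rpow hy.le hJ0.le, Real.rpow_neg hJ0.le, div_eq_mul_inv]
    rw [e2]
    linarith
  have h2 : C * (1 / J + Real.sqrt (y / J)) ≤
      C * (J ^ (-(1 / 2) : ℝ) * (1 + y ^ (1 / 2 : ℝ))) := mul_le_mul_of_nonneg_left h1 hC
  have h3 : min π (C * (1 / J + Real.sqrt (y / J))) ≤
      min π (C * (J ^ (-(1 / 2) : ℝ) * (1 + y ^ (1 / 2 : ℝ)))) := min_le_min le_rfl h2
  refine h3.trans ((U17_min_sqrt Real.pi_pos.le (by positivity)).trans ?_)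
  refine Real.sqrt_le_iff.mpr ⟨by positivity, ?_⟩
  have e3 : (Real.sqrt (π * C) * J ^ (-(1 / 4) : ℝ) * (1 + y ^ (1 / 4 : ℝ))) ^ 2 =
      π * C * (J ^ (-(1 / 4) : ℝ)) ^ 2 * (1 + y ^ (1 / 4 : ℝ)) ^ 2 := by
    rw [mul_pow, mul_pow, Real.sq_sqrt (by positivity)]
  have e4 : (J ^ (-(1 / 4) : ℝ)) ^ 2 = J ^ (-(1 / 2) : ℝ) := by
    rw [← Real.rpow_natCast _ 2, ← Real.rpow_mul hJ0.le]
    norm_num
  have e5 : (y ^ (1 / 4 : ℝ)) ^ 2 = y ^ (1 / 2 : ℝ) := by
    rw [← Real.rpow_natCast _ 2, ← Real.rpow_mul hy.le]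
    norm_num
  have e6 : 1 + y ^ (1 / 2 : ℝ) ≤ (1 + y ^ (1 / 4 : ℝ)) ^ 2 := by
    have : 0 ≤ y ^ (1 / 4 : ℝ) := by positivity
    nlinarith
  rw [e3, e4]
  have e7 : π * (C * (J ^ (-(1 / 2) : ℝ) * (1 + y ^ (1 / 2 : ℝ)))) =
      π * C * J ^ (-(1 / 2) : ℝ) * (1 + y ^ (1 / 2 : ℝ)) := by ring
  rw [e7]
  exact mul_le_mul_of_nonneg_left e6 (by positivity)

theorem L2_alpha {Z : ℝ → ℝ} (hZ : IsKer Z) (e : Bool) : ∃ C : ℝ, ∀ r : ℝ, 0 ≤ r →
    ∀ J : ℝ, 1 ≤ J →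
    ∫⁻ z : ℍ in DD, ∫⁻ φ in Set.Ioc (0 : ℝ) π,
      ‖VS (wR Z e J) r {g | g 1 0 = 0} z φ‖ₑ ^ 2 * ENNReal.ofReal (W z) ≤
      ENNReal.ofReal (C * J ^ (-(1 / 4) : ℝ)) := by
  classical
  obtain ⟨C1, h1⟩ := alpha_point hZ e
  obtain ⟨C2, h2⟩ := mes_vertical hZ e
  set M : ENNReal := ∫⁻ z : ℍ in DD, ENNReal.ofReal (z.im ^ (1 / 2 : ℝ) + z.im ^ (3 / 4 : ℝ))
    with hM
  have hMtop : M ≠ ⊤ := U17_fin.ne
  set K : ℝ := C1 ^ 2 * Real.sqrt (π * |C2|) with hK
  have hK0 : 0 ≤ K := by positivity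
  refine ⟨K * M.toReal, fun r hr J hJ => ?_⟩
  have hJ0 : 0 < J := by linarith
  have hW0 : ∀ z : ℍ, 0 ≤ W z := fun z => by
    unfold W
    positivity
  have hpt : ∀ z : ℍ, ∫⁻ φ in Set.Ioc (0 : ℝ) π,
      ‖VS (wR Z e J) r {g | g 1 0 = 0} z φ‖ₑ ^ 2 * ENNReal.ofReal (W z) ≤
      ENNReal.ofReal (K * J ^ (-(1 / 4) : ℝ)) *
        ENNReal.ofReal (z.im ^ (1 / 2 : ℝ) + z.im ^ (3 / 4 : ℝ)) := by
    intro z
    have hz := z.im_pos
    set c : ℝ := (C1 * z.im ^ (1 / 4 : ℝ)) ^ 2 with hc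
    have hin : ∀ φ, ‖VS (wR Z e J) r {g | g 1 0 = 0} z φ‖ₑ ^ 2 * ENNReal.ofReal (W z) ≤
        (if ∃ k : ℤ, atg (wR Z e J) ((ModularGroup.T ^ 2) ^ k) z φ ≠ 0 then
          ENNReal.ofReal c else 0) := by
      intro φ
      have e1 := h1 r hr J hJ z φ
      have e2 : ‖VS (wR Z e J) r {g | g 1 0 = 0} z φ‖ₑ ^ 2 * ENNReal.ofReal (W z) =
          ENNReal.ofReal ((‖VS (wR Z e J) r {g | g 1 0 = 0} z φ‖ * Real.sqrt (W z)) ^ 2) := by
        rw [mul_pow, Real.sq_sqrt (hW0 z), ENNReal.ofReal_mul (by positivity),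
          ENNReal.ofReal_pow (norm_nonneg _), ofReal_norm]
      rw [e2]
      have e3 : 0 ≤ ‖VS (wR Z e J) r {g | g 1 0 = 0} z φ‖ * Real.sqrt (W z) := by positivity
      split_ifs at e1 ⊢ with h
      · refine ENNReal.ofReal_le_ofReal ?_
        rw [hc]
        exact pow_le_pow_left₀ e3 e1 2
      · have e4 : ‖VS (wR Z e J) r {g | g 1 0 = 0} z φ‖ * Real.sqrt (W z) = 0 :=
          le_antisymm e1 e3
        rw [e4]
        simp
    refine (lintegral_mono hin).trans ((U17_const _ (by positivity) (h2 J hJ z)).trans ?_)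
    rw [← ENNReal.ofReal_mul (by positivity)]
    refine ENNReal.ofReal_le_ofReal ?_
    have e5 : min π (C2 * (1 / J + Real.sqrt (z.im / J))) ≤
        Real.sqrt (π * |C2|) * J ^ (-(1 / 4) : ℝ) * (1 + z.im ^ (1 / 4 : ℝ)) := by
      refine le_trans (min_le_min le_rfl ?_) (U17_real (abs_nonneg C2) hJ hz)
      exact mul_le_mul_of_nonneg_right (le_abs_self _) (by positivity)
    have e6 : c = C1 ^ 2 * z.im ^ (1 / 2 : ℝ) := by
      rw [hc, mul_pow, ← Real.rpow_natCast (z.im ^ (1 / 4 : ℝ)) 2, ← Real.rpow_mul hz.le]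
      norm_num
    have e7 : z.im ^ (3 / 4 : ℝ) = z.im ^ (1 / 2 : ℝ) * z.im ^ (1 / 4 : ℝ) := by
      rw [← Real.rpow_add hz]
      norm_num
    calc c * min π (C2 * (1 / J + Real.sqrt (z.im / J)))
        ≤ c * (Real.sqrt (π * |C2|) * J ^ (-(1 / 4) : ℝ) * (1 + z.im ^ (1 / 4 : ℝ))) :=
          mul_le_mul_of_nonneg_left e5 (by positivity)
      _ = K * J ^ (-(1 / 4) : ℝ) * (z.im ^ (1 / 2 : ℝ) + z.im ^ (3 / 4 : ℝ)) := by
          rw [e6, e7, hK]
          ring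
  refine (lintegral_mono hpt).trans ?_
  rw [lintegral_const_mul' _ _ ENNReal.ofReal_ne_top, ← hM, ← ENNReal.ofReal_toReal hMtop,
    ← ENNReal.ofReal_mul (by positivity)]
  refine ENNReal.ofReal_le_ofReal (le_of_eq ?_)
  rw [ENNReal.toReal_ofReal ENNReal.toReal_nonneg]
  ring

end RV11
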