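import Pool.Agent.LibRV11.U03
import Pool.Agent.LibRV11.U04
import Pool.Agent.LibRV11.U13d
import Pool.Agent.LibRV11.U15b
import Pool.Agent.LibRV11.U16c
import Pool.Agent.LibRV11.U17
open Complex Real MeasureTheory
open UpperHalfPlane hiding I
open scoped MatrixGroups

namespace RV11

/-! ### U18: assembly of module U -/

theorem U18_W_nonneg (z : ℍ) : 0 ≤ W z := by
  unfold W
  positivity

theorem U18_meas {w : ℝ → ℝ → ℝ → ℝ → ℝ}
    (hw : Measurable (fun x : ℝ × ℝ × ℝ × ℝ => w x.1 x.2.1 x.2.2.1 x.2.2.2))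
    (K : ℝ) (hK : ∀ g z φ, atg w g z φ ≠ 0 → NP g z * NQ g z ≤ K) (r : ℝ) (S : Set SL(2, ℤ)) :
    Measurable (Function.uncurry fun (z : ℍ) (φ : ℝ) =>
      ‖VS w r S z φ‖ₑ * ENNReal.ofReal (Real.sqrt (W z))) := by
  refine Measurable.mul (measurable_VS hw K hK r S).enorm ?_
  exact ((Real.continuous_sqrt.measurable.comp (measurable_W.comp measurable_fst))).ennreal_ofReal

theorem U18_add (f g : ℍ → ℝ → ENNReal) (hf : Measurable (Function.uncurry f)) (c : ENNReal)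
    (hc : c ≠ ⊤) :
    ∫⁻ z : ℍ in DD, ∫⁻ φ in Set.Ioc (0 : ℝ) π, c * (f z φ + g z φ) =
      c * ((∫⁻ z : ℍ in DD, ∫⁻ φ in Set.Ioc (0 : ℝ) π, f z φ) +
        ∫⁻ z : ℍ in DD, ∫⁻ φ in Set.Ioc (0 : ℝ) π, g z φ) := by
  have f1 : ∀ z : ℍ, ∫⁻ φ in Set.Ioc (0 : ℝ) π, c * (f z φ + g z φ) =
      c * ((∫⁻ φ in Set.Ioc (0 : ℝ) π, f z φ) + ∫⁻ φ in Set.Ioc (0 : ℝ) π, g z φ) := by
    intro z
    rw [lintegral_const_mul' _ _ hc, lintegral_add_left (hf.of_uncurry_left (x := z))]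
  rw [lintegral_congr f1, lintegral_const_mul' _ _ hc, lintegral_add_left hf.lintegral_prod_right]

theorem L2_beta {Z : ℝ → ℝ} (hZ : IsKer Z) (e : Bool) : ∃ C : ℝ, ∀ r : ℝ, 0 ≤ r →
    ∀ J : ℝ, 1 ≤ J →
    ∫⁻ z : ℍ in DD, ∫⁻ φ in Set.Ioc (0 : ℝ) π,
      ‖VS (wR Z e J) r {g | g 1 0 ≠ 0} z φ‖ₑ ^ 2 * ENNReal.ofReal (W z) ≤
      ENNReal.ofReal (C * ((1 + r) ^ (1 / 8 : ℝ) * Real.log (2 + r) *
        min (J ^ (-(1 / 4) : ℝ)) ((1 + r) ^ (-(1 / 4) : ℝ)))) := by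
  obtain ⟨C0, h0⟩ := sup_beta hZ e
  obtain ⟨C1, h1⟩ := L1_P hZ e
  obtain ⟨C2, h2⟩ := L1_Q hZ e
  refine ⟨|C0| * (|C1| + |C2|), fun r hr J hJ => ?_⟩
  set X : ℝ := (1 + r) ^ (1 / 8 : ℝ) * Real.log (2 + r) with hX
  set m : ℝ := min (J ^ (-(1 / 4) : ℝ)) ((1 + r) ^ (-(1 / 4) : ℝ)) with hm
  have hX0 : 0 ≤ X := by
    have := (U13d_real hr).1
    linarith
  have hm0 : 0 ≤ m := by
    rw [hm]
    positivity
  have hP := fun g z φ => U13d_wP_ne hZ (e := e) hJ g z φ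
  have hQ := fun g z φ => U13d_wQ_ne hZ (e := e) hJ g z φ
  have hmP := U18_meas (measurable_wP hZ e J) _ hP r {g | g 1 0 ≠ 0}
  -- pointwise
  have hpt : ∀ z ∈ DD, ∀ φ, ‖VS (wR Z e J) r {g | g 1 0 ≠ 0} z φ‖ₑ ^ 2 * ENNReal.ofReal (W z) ≤
      ENNReal.ofReal (|C0| * X) *
        (‖VS (wP Z e J) r {g | g 1 0 ≠ 0} z φ‖ₑ * ENNReal.ofReal (Real.sqrt (W z)) +
        ‖VS (wQ Z e J) r {g | g 1 0 ≠ 0} z φ‖ₑ * ENNReal.ofReal (Real.sqrt (W z))) := by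
    intro z hz φ
    have e1 : ENNReal.ofReal (W z) = ENNReal.ofReal (Real.sqrt (W z)) *
        ENNReal.ofReal (Real.sqrt (W z)) := by
      rw [← ENNReal.ofReal_mul (Real.sqrt_nonneg _), Real.mul_self_sqrt (U18_W_nonneg z)]
    set V := VS (wR Z e J) r {g | g 1 0 ≠ 0} z φ with hV
    set s := ENNReal.ofReal (Real.sqrt (W z)) with hs
    have e2 : ‖V‖ₑ ^ 2 * ENNReal.ofReal (W z) = (‖V‖ₑ * s) * (‖V‖ₑ * s) := by
      rw [e1]
      ring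
    have e3 : ‖V‖ₑ * s ≤ ENNReal.ofReal (|C0| * X) := by
      rw [hs, ← ofReal_norm, ← ENNReal.ofReal_mul (norm_nonneg _)]
      refine ENNReal.ofReal_le_ofReal ((h0 r hr J hJ z hz φ).trans ?_)
      exact mul_le_mul_of_nonneg_right (le_abs_self _) hX0
    have e4 : ‖V‖ₑ * s ≤ ‖VS (wP Z e J) r {g | g 1 0 ≠ 0} z φ‖ₑ * s +
        ‖VS (wQ Z e J) r {g | g 1 0 ≠ 0} z φ‖ₑ * s := by
      rw [← add_mul]
      refine mul_le_mul_left ?_ _
      rw [hV, U13d_split hZ e hJ r]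
      exact enorm_add_le _ _
    rw [e2]
    exact mul_le_mul' e3 e4
  calc ∫⁻ z : ℍ in DD, ∫⁻ φ in Set.Ioc (0 : ℝ) π,
        ‖VS (wR Z e J) r {g | g 1 0 ≠ 0} z φ‖ₑ ^ 2 * ENNReal.ofReal (W z)
      ≤ ∫⁻ z : ℍ in DD, ∫⁻ φ in Set.Ioc (0 : ℝ) π, ENNReal.ofReal (|C0| * X) *
        (‖VS (wP Z e J) r {g | g 1 0 ≠ 0} z φ‖ₑ * ENNReal.ofReal (Real.sqrt (W z)) +
        ‖VS (wQ Z e J) r {g | g 1 0 ≠ 0} z φ‖ₑ * ENNReal.ofReal (Real.sqrt (W z))) := by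
        refine setLIntegral_mono' measurableSet_DD fun z hz => ?_
        exact lintegral_mono fun φ => hpt z hz φ
    _ = ENNReal.ofReal (|C0| * X) * (
        (∫⁻ z : ℍ in DD, ∫⁻ φ in Set.Ioc (0 : ℝ) π,
          ‖VS (wP Z e J) r {g | g 1 0 ≠ 0} z φ‖ₑ * ENNReal.ofReal (Real.sqrt (W z))) +
        ∫⁻ z : ℍ in DD, ∫⁻ φ in Set.Ioc (0 : ℝ) π,
          ‖VS (wQ Z e J) r {g | g 1 0 ≠ 0} z φ‖ₑ * ENNReal.ofReal (Real.sqrt (W z))) := by
        exact U18_add _ _ hmP _ ENNReal.ofReal_ne_top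
    _ ≤ ENNReal.ofReal (|C0| * X) * (ENNReal.ofReal (C1 * m) + ENNReal.ofReal (C2 * m)) :=
        mul_le_mul_right (add_le_add (h1 r hr J hJ) (h2 r hr J hJ)) _
    _ ≤ ENNReal.ofReal (|C0| * (|C1| + |C2|) * (X * m)) := by
        have g1 : ENNReal.ofReal (C1 * m) ≤ ENNReal.ofReal (|C1| * m) :=
          ENNReal.ofReal_le_ofReal (mul_le_mul_of_nonneg_right (le_abs_self _) hm0)
        have g2 : ENNReal.ofReal (C2 * m) ≤ ENNReal.ofReal (|C2| * m) :=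
          ENNReal.ofReal_le_ofReal (mul_le_mul_of_nonneg_right (le_abs_self _) hm0)
        refine (mul_le_mul_right (add_le_add g1 g2) _).trans (le_of_eq ?_)
        rw [← ENNReal.ofReal_add (by positivity) (by positivity),
          ← ENNReal.ofReal_mul (by positivity)]
        congr 1
        ring

theorem real_bound : ∃ C : ℝ, ∀ r : ℝ, 0 ≤ r → ∀ J : ℝ, 1 ≤ J →
    (1 + r) ^ (1 / 8 : ℝ) * Real.log (2 + r) *
        min (J ^ (-(1 / 4) : ℝ)) ((1 + r) ^ (-(1 / 4) : ℝ)) ≤ C * J ^ (-(1 / 10) : ℝ) := by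
  refine ⟨41, fun r hr J hJ => ?_⟩
  set X : ℝ := 1 + r with hX
  have hX1 : 1 ≤ X := by linarith
  have hX0 : 0 < X := by linarith
  have hJ0 : 0 < J := by linarith
  set m : ℝ := min (J ^ (-(1 / 4) : ℝ)) (X ^ (-(1 / 4) : ℝ)) with hm
  have hm0 : 0 < m := by
    rw [hm]
    exact lt_min (Real.rpow_pos_of_pos hJ0 _) (Real.rpow_pos_of_pos hX0 _)
  have h1 : m ≤ J ^ (-(1 / 10) : ℝ) * X ^ (-(3 / 20) : ℝ) := by
    have e1 : m = m ^ (2 / 5 : ℝ) * m ^ (3 / 5 : ℝ) := by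
      rw [← Real.rpow_add hm0]
      norm_num
    have e2 : m ^ (2 / 5 : ℝ) ≤ J ^ (-(1 / 10) : ℝ) := by
      have := Real.rpow_le_rpow hm0.le (min_le_left _ _ : m ≤ J ^ (-(1 / 4) : ℝ))
        (by norm_num : (0 : ℝ) ≤ 2 / 5)
      rw [← Real.rpow_mul hJ0.le] at this
      norm_num at this ⊢
      exact this
    have e3 : m ^ (3 / 5 : ℝ) ≤ X ^ (-(3 / 20) : ℝ) := by
      have := Real.rpow_le_rpow hm0.le (min_le_right _ _ : m ≤ X ^ (-(1 / 4) : ℝ))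
        (by norm_num : (0 : ℝ) ≤ 3 / 5)
      rw [← Real.rpow_mul hX0.le] at this
      norm_num at this ⊢
      exact this
    calc m = m ^ (2 / 5 : ℝ) * m ^ (3 / 5 : ℝ) := e1
      _ ≤ _ := mul_le_mul e2 e3 (Real.rpow_nonneg hm0.le _) (Real.rpow_nonneg hJ0.le _)
  have h2 : Real.log (2 + r) ≤ 41 * X ^ (1 / 40 : ℝ) := by
    have e1 : Real.log (2 + r) ≤ Real.log (2 * X) :=
      Real.log_le_log (by linarith) (by linarith)
    have e2 : Real.log (2 * X) = Real.log 2 + Real.log X :=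
      Real.log_mul (by norm_num) hX0.ne'
    have e3 : Real.log X ≤ X ^ (1 / 40 : ℝ) / (1 / 40) :=
      Real.log_le_rpow_div hX0.le (by norm_num)
    have e4 : 1 ≤ X ^ (1 / 40 : ℝ) := Real.one_le_rpow hX1 (by norm_num)
    have e5 : Real.log 2 ≤ 1 := by
      have := Real.log_two_lt_d9
      linarith
    linarith
  have hlog : 0 ≤ Real.log (2 + r) := Real.log_nonneg (by linarith)
  calc X ^ (1 / 8 : ℝ) * Real.log (2 + r) * m
      ≤ X ^ (1 / 8 : ℝ) * (41 * X ^ (1 / 40 : ℝ)) *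
        (J ^ (-(1 / 10) : ℝ) * X ^ (-(3 / 20) : ℝ)) := by
        refine mul_le_mul (mul_le_mul_of_nonneg_left h2 (Real.rpow_nonneg hX0.le _)) h1 hm0.le ?_
        have := Real.rpow_pos_of_pos hX0 (1 / 40 : ℝ)
        have := Real.rpow_pos_of_pos hX0 (1 / 8 : ℝ)
        positivity
    _ = 41 * J ^ (-(1 / 10) : ℝ) *
        (X ^ (1 / 8 : ℝ) * X ^ (1 / 40 : ℝ) * X ^ (-(3 / 20) : ℝ)) := by ring
    _ = 41 * J ^ (-(1 / 10) : ℝ) := by
        rw [← Real.rpow_add hX0, ← Real.rpow_add hX0]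
        norm_num

theorem nrm_VS {Z : ℝ → ℝ} (hZ : IsKer Z) (e : Bool) : ∃ C : ℝ, ∀ r : ℝ, 0 ≤ r →
    ∀ J : ℝ, 1 ≤ J →
    nrm (VS (wR Z e J) r Set.univ) ≤ ENNReal.ofReal (C * J ^ (-(1 / 10) : ℝ)) := by
  obtain ⟨C1, h1⟩ := L2_alpha hZ e
  obtain ⟨C2, h2⟩ := L2_beta hZ e
  obtain ⟨C3, h3⟩ := real_bound
  refine ⟨2 * (|C1| + |C2| * |C3|), fun r hr J hJ => ?_⟩
  have hR := fun g z φ => NPNQ_le hZ (e := e) hJ g z φ
  have hJ0 : 0 < J := by linarith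
  have hpt : ∀ z φ, ‖VS (wR Z e J) r Set.univ z φ‖ₑ ^ 2 * ENNReal.ofReal (W z) ≤
      2 * (‖VS (wR Z e J) r {g | g 1 0 = 0} z φ‖ₑ ^ 2 * ENNReal.ofReal (W z) +
        ‖VS (wR Z e J) r {g | g 1 0 ≠ 0} z φ‖ₑ ^ 2 * ENNReal.ofReal (W z)) := by
    intro z φ
    have e1 : VS (wR Z e J) r Set.univ z φ = VS (wR Z e J) r {g | g 1 0 = 0} z φ +
        VS (wR Z e J) r {g | g 1 0 ≠ 0} z φ := by
      refine U13d_union (fun g => hR g z φ) r ?_ ?_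
      · ext g
        simp only [Set.mem_univ, Set.mem_union, Set.mem_ofPred_eq, true_iff]
        exact em _
      · rw [Set.disjoint_left]
        intro g h h'
        exact h' h
    rw [e1]
    set a := VS (wR Z e J) r {g | g 1 0 = 0} z φ
    set b := VS (wR Z e J) r {g | g 1 0 ≠ 0} z φ
    rw [← add_mul, ← mul_assoc]
    refine mul_le_mul_left ?_ _
    rw [← ofReal_norm, ← ofReal_norm, ← ofReal_norm,
      ← ENNReal.ofReal_pow (norm_nonneg _), ← ENNReal.ofReal_pow (norm_nonneg _),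
      ← ENNReal.ofReal_pow (norm_nonneg _), ← ENNReal.ofReal_add (by positivity) (by positivity)]
    have e2 : (2 : ENNReal) = ENNReal.ofReal 2 := by simp
    rw [e2, ← ENNReal.ofReal_mul (by norm_num)]
    refine ENNReal.ofReal_le_ofReal ?_
    have := norm_add_le a b
    nlinarith [sq_nonneg (‖a‖ - ‖b‖), norm_nonneg (a + b), norm_nonneg a, norm_nonneg b]
  have hmeas : Measurable (Function.uncurry fun (z : ℍ) (φ : ℝ) =>
      ‖VS (wR Z e J) r {g | g 1 0 = 0} z φ‖ₑ ^ 2 * ENNReal.ofReal (W z)) := by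
    refine Measurable.mul ((measurable_VS (measurable_wR hZ e J) _ hR r _).enorm.pow_const 2) ?_
    exact (measurable_W.comp measurable_fst).ennreal_ofReal
  unfold nrm
  calc ∫⁻ z in DD, ∫⁻ φ in Set.Ioc (0 : ℝ) π, ‖VS (wR Z e J) r Set.univ z φ‖ₑ ^ 2 *
        ENNReal.ofReal (W z)
      ≤ ∫⁻ z in DD, ∫⁻ φ in Set.Ioc (0 : ℝ) π,
        2 * (‖VS (wR Z e J) r {g | g 1 0 = 0} z φ‖ₑ ^ 2 * ENNReal.ofReal (W z) +
        ‖VS (wR Z e J) r {g | g 1 0 ≠ 0} z φ‖ₑ ^ 2 * ENNReal.ofReal (W z)) :=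
        lintegral_mono fun z => lintegral_mono fun φ => hpt z φ
    _ = 2 * ((∫⁻ z in DD, ∫⁻ φ in Set.Ioc (0 : ℝ) π,
          ‖VS (wR Z e J) r {g | g 1 0 = 0} z φ‖ₑ ^ 2 * ENNReal.ofReal (W z)) +
        ∫⁻ z in DD, ∫⁻ φ in Set.Ioc (0 : ℝ) π,
          ‖VS (wR Z e J) r {g | g 1 0 ≠ 0} z φ‖ₑ ^ 2 * ENNReal.ofReal (W z)) := by
        exact U18_add _ _ hmeas _ (by simp)
    _ ≤ ENNReal.ofReal 2 * (ENNReal.ofReal (|C1| * J ^ (-(1 / 10) : ℝ)) +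
          ENNReal.ofReal (|C2| * |C3| * J ^ (-(1 / 10) : ℝ))) := by
        have e2 : (2 : ENNReal) = ENNReal.ofReal 2 := by simp
        rw [← e2]
        refine mul_le_mul_right (add_le_add ((h1 r hr J hJ).trans ?_)
          ((h2 r hr J hJ).trans ?_)) _
        · refine ENNReal.ofReal_le_ofReal ?_
          have g1 : J ^ (-(1 / 4) : ℝ) ≤ J ^ (-(1 / 10) : ℝ) :=
            Real.rpow_le_rpow_of_exponent_le hJ (by norm_num)
          exact mul_le_mul (le_abs_self _) g1 (Real.rpow_nonneg hJ0.le _) (abs_nonneg _)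
        · refine ENNReal.ofReal_le_ofReal ?_
          have g2 := h3 r hr J hJ
          have g3 : 0 ≤ (1 + r) ^ (1 / 8 : ℝ) * Real.log (2 + r) *
              min (J ^ (-(1 / 4) : ℝ)) ((1 + r) ^ (-(1 / 4) : ℝ)) := by
            have := (U13d_real hr).1
            refine mul_nonneg (by linarith) ?_
            exact le_min (Real.rpow_nonneg hJ0.le _) (Real.rpow_nonneg (by linarith) _)
          have g4 : C3 * J ^ (-(1 / 10) : ℝ) ≤ |C3| * J ^ (-(1 / 10) : ℝ) :=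
            mul_le_mul_of_nonneg_right (le_abs_self _) (Real.rpow_nonneg hJ0.le _)
          rw [mul_assoc |C2| |C3|]
          exact mul_le_mul (le_abs_self _) (g2.trans g4) g3 (abs_nonneg _)
    _ = ENNReal.ofReal (2 * (|C1| + |C2| * |C3|) * J ^ (-(1 / 10) : ℝ)) := by
        have := Real.rpow_nonneg hJ0.le (-(1 / 10) : ℝ)
        rw [← ENNReal.ofReal_add (by positivity) (by positivity),
          ← ENNReal.ofReal_mul (by norm_num)]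
        congr 1
        ring

theorem U18_equi_const {U : ℍ → ℝ → ℂ} (hU : Equi U) (c : ℂ) : Equi (fun z φ => c * U z φ) := by
  refine ⟨?_, ?_, ?_⟩
  · exact hU.meas.const_mul c
  · intro z φ
    rw [hU.per]
  · intro g hg z φ
    rw [hU.eqv g hg z φ]
    ring

theorem U18_nrm_const (U : ℍ → ℝ → ℂ) (c : ℝ) :
    nrm (fun z φ => (c : ℂ) * U z φ) = ENNReal.ofReal (c ^ 2) * nrm U := by
  unfold nrm
  have h1 : ∀ (z : ℍ) (φ : ℝ), ‖(c : ℂ) * U z φ‖ₑ ^ 2 * ENNReal.ofReal (W z) =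
      ENNReal.ofReal (c ^ 2) * (‖U z φ‖ₑ ^ 2 * ENNReal.ofReal (W z)) := by
    intro z φ
    have h2 : ‖(c : ℂ)‖ₑ ^ 2 = ENNReal.ofReal (c ^ 2) := by
      rw [← ofReal_norm, ← ENNReal.ofReal_pow (norm_nonneg _), Complex.norm_real,
        Real.norm_eq_abs, sq_abs]
    rw [enorm_mul, mul_pow, h2, mul_assoc]
  simp only [h1]
  have h3 : ∀ z : ℍ, ∫⁻ φ in Set.Ioc (0 : ℝ) π,
      ENNReal.ofReal (c ^ 2) * (‖U z φ‖ₑ ^ 2 * ENNReal.ofReal (W z)) =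
      ENNReal.ofReal (c ^ 2) * ∫⁻ φ in Set.Ioc (0 : ℝ) π,
        ‖U z φ‖ₑ ^ 2 * ENNReal.ofReal (W z) := fun z =>
    lintegral_const_mul' _ _ ENNReal.ofReal_ne_top
  simp only [h3]
  rw [lintegral_const_mul' _ _ ENNReal.ofReal_ne_top]

theorem U18_pow (j : ℕ) : ((2 : ℝ) ^ j) ^ (-(1 / 10) : ℝ) = ((2 : ℝ) ^ (-(j : ℝ) / 20)) ^ 2 := by
  rw [← Real.rpow_natCast 2 j, ← Real.rpow_mul (by norm_num), ← Real.rpow_natCast _ 2,
    ← Real.rpow_mul (by norm_num)]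
  congr 1
  push_cast
  ring

theorem Uj_main' : ∃ C : ℝ, ∀ r : ℝ, 0 ≤ r → ∀ j : ℕ, ∃ dU : ℍ → ℝ → ℂ,
    (∀ z φ, HasDerivAt (fun φ => Uj r j z φ) (dU z φ) φ) ∧
    (∀ z, Continuous (dU z)) ∧ Equi (Uj r j) ∧ Equi dU ∧
    nrm (Uj r j) ≤ ENNReal.ofReal ((C * (2 : ℝ) ^ (-(j : ℝ) / 20)) ^ 2) ∧
    nrm dU ≤ ENNReal.ofReal ((C * 2 ^ j * (2 : ℝ) ^ (-(j : ℝ) / 20)) ^ 2) := by
  obtain ⟨C1, h1⟩ := nrm_VS isKer_zet false
  obtain ⟨C2, h2⟩ := nrm_VS isKer_deriv_zet true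
  set C : ℝ := 1 + |C1| + |C2| with hC
  have hC1 : C1 ≤ C ^ 2 := by
    have := le_abs_self C1
    have := abs_nonneg C1
    have := abs_nonneg C2
    nlinarith
  have hC2 : C2 ≤ C ^ 2 := by
    have := le_abs_self C2
    have := abs_nonneg C1
    have := abs_nonneg C2
    nlinarith
  refine ⟨C, fun r hr j => ?_⟩
  have hJ : (1 : ℝ) ≤ 2 ^ j := one_le_pow₀ (by norm_num)
  have hU : Uj r j = VS (wR zet false (2 ^ j)) r Set.univ := by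
    funext z φ
    exact Uj_eq_VS r j z φ
  set s : ℝ := (2 : ℝ) ^ (-(j : ℝ) / 20) with hs
  refine ⟨fun z φ => (((2 : ℝ) ^ j : ℝ) : ℂ) * VS (wR (deriv zet) true (2 ^ j)) r Set.univ z φ,
    ?_, ?_, ?_, ?_, ?_, ?_⟩
  · intro z φ
    rw [hU]
    exact hasDerivAt_VS r (2 ^ j) hJ z φ
  · intro z
    exact continuous_const.mul (continuous_VS isKer_deriv_zet true r (2 ^ j) hJ z)
  · rw [hU]
    exact equi_VS isKer_zet false r (2 ^ j) hJ
  · exact U18_equi_const (equi_VS isKer_deriv_zet true r (2 ^ j) hJ) _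
  · rw [hU]
    refine (h1 r hr (2 ^ j) hJ).trans (ENNReal.ofReal_le_ofReal ?_)
    rw [U18_pow, mul_pow]
    exact mul_le_mul_of_nonneg_right hC1 (sq_nonneg _)
  · rw [U18_nrm_const]
    have e1 := h2 r hr (2 ^ j) hJ
    rw [U18_pow] at e1
    refine (mul_le_mul_right e1 _).trans ?_
    rw [← ENNReal.ofReal_mul (sq_nonneg _)]
    refine ENNReal.ofReal_le_ofReal ?_
    rw [← hs]
    have e2 : (C * 2 ^ j * s) ^ 2 = (2 ^ j) ^ 2 * (C ^ 2 * s ^ 2) := by ring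
    rw [e2]
    exact mul_le_mul_of_nonneg_left (mul_le_mul_of_nonneg_right hC2 (sq_nonneg _)) (sq_nonneg _)

end RV11
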