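import Pool.Agent.LibRV11.Defs
import Pool.Agent.LibRV11.U18
open Complex Real MeasureTheory
open UpperHalfPlane hiding I
open scoped MatrixGroups

namespace RV11

theorem Uj_main : ∃ C : ℝ, ∀ r : ℝ, 0 ≤ r → ∀ j : ℕ, ∃ dU : ℍ → ℝ → ℂ,
    (∀ z φ, HasDerivAt (fun φ => Uj r j z φ) (dU z φ) φ) ∧
    (∀ z, Continuous (dU z)) ∧ Equi (Uj r j) ∧ Equi dU ∧
    nrm (Uj r j) ≤ ENNReal.ofReal ((C * (2 : ℝ) ^ (-(j : ℝ) / 20)) ^ 2) ∧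
    nrm dU ≤ ENNReal.ofReal ((C * 2 ^ j * (2 : ℝ) ^ (-(j : ℝ) / 20)) ^ 2) :=
  Uj_main'

end RV11
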