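import Pool.Agent.LibRV11.Defs
import Pool.Agent.LibRV11.ModAB
import Pool.Agent.LibRV11.ModU
import Pool.Agent.LibRV11.Asm4
import Pool.Agent.LibRV11.Asm5a
import Pool.Agent.LibRV11.Asm5b
import Pool.Agent.LibRV11.TH13
open Complex Real MeasureTheory
open UpperHalfPlane hiding I
open scoped MatrixGroups

namespace RV11

theorem Uj_part (h : ℝ → ℝ) (hh : IsBump h) : ∃ (C : ℝ) (n0 : ℕ), ∀ n : ℕ, n0 ≤ n →
    ∀ r : ℝ, 0 ≤ r → ∀ j : ℕ,
    IntegrableOn (fun z : ℍ => Uj r j z 0 * ((h (n * z.im) * z.im : ℝ) * jacobiTheta (z : ℂ) *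
      cexp (-(π * I * n * (z : ℂ))))) Strip ∧
    ‖∫ z in Strip, Uj r j z 0 * ((h (n * z.im) * z.im : ℝ) * jacobiTheta (z : ℂ) *
      cexp (-(π * I * n * (z : ℂ))))‖ ≤
      C * (2 : ℝ) ^ (-(j : ℝ) / 20) * (if (2 : ℝ) ^ j ≤ (n : ℝ) ^ (1 / 2000 : ℝ) / 8 then 1 else
        ((n : ℝ) ^ (1 / 100000 : ℝ) + (n : ℝ) ^ (-(1 / 4) : ℝ) * (2 : ℝ) ^ ((j : ℝ) / 2))) := by
  obtain ⟨C1, n1, hC1⟩ := pair_large h hh
  obtain ⟨C2, hC2⟩ := pair_small h hh
  obtain ⟨C3, hC3⟩ := Uj_main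
  obtain ⟨K, k, k', hK1, hk, hk'', hk0, hkd, hk1, -, hk'c⟩ := asm4_profile
  have hK0 : 0 < K := by linarith
  set κ : ℝ → ℝ := fun x => k x / K with hκ
  set κ' : ℝ → ℝ := fun x => k' x / K with hκ'
  set D : ℝ := |C3| with hD
  have hD0 : 0 ≤ D := abs_nonneg _
  refine ⟨2 * K * (|C1| + 3 * |C2|) * D, max n1 1, ?_⟩
  intro n hn r hr j
  have hn1 : n1 ≤ n := le_trans (le_max_left _ _) hn
  have hn11 : 1 ≤ n := le_trans (le_max_right _ _) hn
  have hnR : (1 : ℝ) ≤ n := by exact_mod_cast hn11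
  have hnpos : (0 : ℝ) < n := by linarith
  obtain ⟨dU, hder, hdc, hE, hE', hN, hN'⟩ := hC3 r hr j
  set aj : ℝ := (2 : ℝ) ^ (-(j : ℝ) / 20) with haj
  have haj0 : 0 < aj := Real.rpow_pos_of_pos (by norm_num) _
  set T : ℝ := (2 : ℝ) ^ j with hT
  have hT1 : 1 ≤ T := one_le_pow₀ (by norm_num)
  have hT0 : 0 < T := by linarith
  have hNa : nrm (Uj r j) ≤ ENNReal.ofReal ((D * aj) ^ 2) := by
    refine hN.trans (le_of_eq ?_)
    rw [mul_pow, mul_pow, hD, sq_abs]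
  have hNb : nrm dU ≤ ENNReal.ofReal ((D * T * aj) ^ 2) := by
    refine hN'.trans (le_of_eq ?_)
    rw [mul_pow, mul_pow, mul_pow, mul_pow, hD, sq_abs]
  set δ : ℝ := 1 / (8 * T) with hδ
  have hδ0 : 0 < δ := by positivity
  have hδ8 : δ ≤ 1 / 8 := by
    rw [hδ]
    gcongr
    linarith
  have hδT : δ * T = 1 / 8 := by rw [hδ]; field_simp
  -- pairs
  have hprof : ∀ φ, (prof k δ φ : ℝ) = K * prof κ δ φ := by
    intro φ
    unfold prof
    split_ifs
    · rw [hκ]; field_simp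
    · simp
  have hprof' : ∀ φ, (prof k' δ φ : ℝ) = K * prof κ' δ φ := by
    intro φ
    unfold prof
    split_ifs
    · rw [hκ']; field_simp
    · simp
  set w : ℍ → ℂ := fun z => ((h (n * z.im) * z.im : ℝ) * jacobiTheta (z : ℂ) *
      cexp (-(π * I * n * (z : ℂ)))) with hw
  obtain ⟨p1, p2, -⟩ := Rc_prof κ hk δ hδ0 hδ8
  obtain ⟨q1, q2, -⟩ := Rc_prof κ' hk'' δ hδ0 hδ8
  have i1 : IntegrableOn (fun z : ℍ => (∫ φ in (0 : ℝ)..π, dU z φ * (prof κ δ φ : ℂ)) * w z)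
      Strip := pair_integrable h hh n hn11 (prof κ δ) p1 p2 dU hE'
    (ne_top_of_le_ne_top ENNReal.ofReal_ne_top hNb)
  have i2 : IntegrableOn (fun z : ℍ => (∫ φ in (0 : ℝ)..π, Uj r j z φ * (prof κ' δ φ : ℂ)) * w z)
      Strip := pair_integrable h hh n hn11 (prof κ' δ) q1 q2 (Uj r j) hE
    (ne_top_of_le_ne_top ENNReal.ofReal_ne_top hNa)
  have hval : ∀ z : ℍ, Uj r j z 0 * w z =
      (-(K : ℂ)) * ((∫ φ in (0 : ℝ)..π, dU z φ * (prof κ δ φ : ℂ)) * w z) +
      (-((1 / δ : ℝ) : ℂ) * (K : ℂ)) *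
        ((∫ φ in (0 : ℝ)..π, Uj r j z φ * (prof κ' δ φ : ℂ)) * w z) := by
    intro z
    have h1 := value_zero (fun φ => Uj r j z φ) (dU z) (hder z) (hdc z) k k' hkd hk'c hk0 hk1 δ hδ0
      (by linarith)
    have e1 : ∫ φ in (0 : ℝ)..π, dU z φ * (prof k δ φ : ℂ) =
        (K : ℂ) * ∫ φ in (0 : ℝ)..π, dU z φ * (prof κ δ φ : ℂ) := by
      rw [← intervalIntegral.integral_const_mul]
      apply intervalIntegral.integral_congr
      intro φ _
      simp only
      rw [hprof]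
      push_cast
      ring
    have e2 : ∫ φ in (0 : ℝ)..π, Uj r j z φ * (prof k' δ φ : ℂ) =
        (K : ℂ) * ∫ φ in (0 : ℝ)..π, Uj r j z φ * (prof κ' δ φ : ℂ) := by
      rw [← intervalIntegral.integral_const_mul]
      apply intervalIntegral.integral_congr
      intro φ _
      simp only
      rw [hprof']
      push_cast
      ring
    rw [e1, e2] at h1
    rw [h1]
    ring
  have hval' : (fun z : ℍ => Uj r j z 0 * w z) = fun z : ℍ =>
      (-(K : ℂ)) * ((∫ φ in (0 : ℝ)..π, dU z φ * (prof κ δ φ : ℂ)) * w z) +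
      (-((1 / δ : ℝ) : ℂ) * (K : ℂ)) *
        ((∫ φ in (0 : ℝ)..π, Uj r j z φ * (prof κ' δ φ : ℂ)) * w z) := funext hval
  have hgoal1 : IntegrableOn (fun z : ℍ => Uj r j z 0 * w z) Strip := by
    rw [hval']
    exact (i1.const_mul _).add (i2.const_mul _)
  refine ⟨hgoal1, ?_⟩
  have hint : ∫ z in Strip, Uj r j z 0 * w z =
      (-(K : ℂ)) * pair h n dU (prof κ δ) +
      (-((1 / δ : ℝ) : ℂ) * (K : ℂ)) * pair h n (Uj r j) (prof κ' δ) := by
    rw [hval', integral_add (i1.const_mul _) (i2.const_mul _), integral_const_mul,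
      integral_const_mul]
    rfl
  have hnorm : ‖∫ z in Strip, Uj r j z 0 * w z‖ ≤
      K * ‖pair h n dU (prof κ δ)‖ + (1 / δ) * K * ‖pair h n (Uj r j) (prof κ' δ)‖ := by
    rw [hint]
    refine (norm_add_le _ _).trans (le_of_eq ?_)
    rw [norm_mul, norm_neg, norm_mul, norm_mul, norm_neg, Complex.norm_real, Complex.norm_real,
      Real.norm_eq_abs, Real.norm_eq_abs, abs_of_pos hK0, abs_of_pos (by positivity)]
  refine hnorm.trans ?_
  have hDa : 0 ≤ D * aj := by positivity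
  have hDTa : 0 ≤ D * T * aj := by positivity
  split_ifs with hcase
  · -- large
    have hδn : (n : ℝ) ^ (-(1 / 2000) : ℝ) ≤ δ := by
      have h8 : 8 * T ≤ (n : ℝ) ^ (1 / 2000 : ℝ) := by linarith
      rw [Real.rpow_neg hnpos.le, hδ, ← one_div]
      exact one_div_le_one_div_of_le (by positivity) h8
    have b1 := hC1 n hn1 δ hδn hδ8 κ hk dU hE' (D * T * aj) hDTa hNb
    have b2 := hC1 n hn1 δ hδn hδ8 κ' hk'' (Uj r j) hE (D * aj) hDa hNa
    have b1' : ‖pair h n dU (prof κ δ)‖ ≤ |C1| * D * aj := by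
      refine b1.trans ?_
      calc C1 * δ * (D * T * aj) = C1 * (δ * T) * D * aj := by ring
        _ ≤ |C1| * (δ * T) * D * aj := by
            have : C1 ≤ |C1| := le_abs_self _
            gcongr
        _ = |C1| * (1 / 8) * D * aj := by rw [hδT]
        _ ≤ |C1| * 1 * D * aj := by gcongr; norm_num
        _ = _ := by ring
    have b2' : (1 / δ) * ‖pair h n (Uj r j) (prof κ' δ)‖ ≤ |C1| * D * aj := by
      calc (1 / δ) * ‖pair h n (Uj r j) (prof κ' δ)‖ ≤ (1 / δ) * (C1 * δ * (D * aj)) := by gcongr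
        _ = C1 * D * aj := by field_simp
        _ ≤ |C1| * D * aj := by
            have : C1 ≤ |C1| := le_abs_self _
            gcongr
    have hc : 0 ≤ |C2| := abs_nonneg _
    calc K * ‖pair h n dU (prof κ δ)‖ + (1 / δ) * K * ‖pair h n (Uj r j) (prof κ' δ)‖
        = K * ‖pair h n dU (prof κ δ)‖ + K * ((1 / δ) * ‖pair h n (Uj r j) (prof κ' δ)‖) := by ring
      _ ≤ K * (|C1| * D * aj) + K * (|C1| * D * aj) := by gcongr
      _ = 2 * K * |C1| * D * aj * 1 := by ring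
      _ ≤ _ := by
          have : |C1| ≤ |C1| + 3 * |C2| := by linarith
          gcongr
  · -- small
    set X : ℝ := (n : ℝ) ^ (1 / 100000 : ℝ) with hX
    set Y : ℝ := (n : ℝ) ^ (-(1 / 4) : ℝ) with hY
    set Z : ℝ := (2 : ℝ) ^ ((j : ℝ) / 2) with hZ
    have hX0 : 0 < X := Real.rpow_pos_of_pos hnpos _
    have hY0 : 0 < Y := Real.rpow_pos_of_pos hnpos _
    have hZ0 : 0 < Z := Real.rpow_pos_of_pos (by norm_num) _
    have hZT : Z * Z = T := by
      rw [hZ, hT, ← Real.rpow_add (by norm_num), ← Real.rpow_natCast]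
      congr 1
      ring
    have hsδ : Real.sqrt δ * Z ≤ 1 := by
      have h1 : (Real.sqrt δ * Z) ^ 2 ≤ 1 ^ 2 := by
        rw [mul_pow, Real.sq_sqrt hδ0.le, sq Z, hZT, hδT]; norm_num
      exact (abs_le_of_sq_le_sq' h1 (by norm_num)).2
    have hsδ' : (1 / δ) * Real.sqrt δ ≤ 3 * Z := by
      have h1 : ((1 / δ) * Real.sqrt δ) ^ 2 ≤ (3 * Z) ^ 2 := by
        rw [mul_pow, Real.sq_sqrt hδ0.le, mul_pow, sq Z, hZT]
        have h2 : (1 / δ) ^ 2 * δ = 8 * T := by rw [hδ]; field_simp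
        rw [h2]
        nlinarith
      exact (abs_le_of_sq_le_sq' h1 (by positivity)).2
    have b1 := hC2 n hn11 δ hδ0 hδ8 κ hk dU hE' (D * T * aj) hDTa hNb
    have b2 := hC2 n hn11 δ hδ0 hδ8 κ' hk'' (Uj r j) hE (D * aj) hDa hNa
    rw [← hX, ← hY] at b1 b2
    have hs0 : 0 ≤ Real.sqrt δ := Real.sqrt_nonneg _
    have b1' : ‖pair h n dU (prof κ δ)‖ ≤ |C2| * D * aj * (X + Y * Z) := by
      refine b1.trans ?_
      calc C2 * (Real.sqrt δ * Y + δ * X) * (D * T * aj)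
          ≤ |C2| * (Real.sqrt δ * Y + δ * X) * (D * T * aj) := by
            have : C2 ≤ |C2| := le_abs_self _
            gcongr
        _ = |C2| * D * aj * ((δ * T) * X + Y * Z * (Real.sqrt δ * Z)) := by rw [← hZT]; ring
        _ ≤ |C2| * D * aj * (1 * X + Y * Z * 1) := by
            rw [hδT]
            gcongr
            norm_num
        _ = _ := by ring
    have b2' : (1 / δ) * ‖pair h n (Uj r j) (prof κ' δ)‖ ≤ 3 * |C2| * D * aj * (X + Y * Z) := by
      calc (1 / δ) * ‖pair h n (Uj r j) (prof κ' δ)‖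
          ≤ (1 / δ) * (C2 * (Real.sqrt δ * Y + δ * X) * (D * aj)) := by gcongr
        _ ≤ (1 / δ) * (|C2| * (Real.sqrt δ * Y + δ * X) * (D * aj)) := by
            have : C2 ≤ |C2| := le_abs_self _
            gcongr
        _ = |C2| * D * aj * (((1 / δ) * Real.sqrt δ) * Y + X) := by field_simp
        _ ≤ |C2| * D * aj * ((3 * Z) * Y + 3 * X) := by
            gcongr
            linarith
        _ = _ := by ring
    have hc : 0 ≤ |C1| := abs_nonneg _
    calc K * ‖pair h n dU (prof κ δ)‖ + (1 / δ) * K * ‖pair h n (Uj r j) (prof κ' δ)‖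
        = K * ‖pair h n dU (prof κ δ)‖ + K * ((1 / δ) * ‖pair h n (Uj r j) (prof κ' δ)‖) := by ring
      _ ≤ K * (|C2| * D * aj * (X + Y * Z)) + K * (3 * |C2| * D * aj * (X + Y * Z)) := by gcongr
      _ = 2 * K * (2 * |C2|) * D * aj * (X + Y * Z) := by ring
      _ ≤ _ := by
          have : 2 * |C2| ≤ |C1| + 3 * |C2| := by linarith [abs_nonneg C2]
          gcongr

end RV11
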