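import Pool.Agent.LibRV11.Defs
open Complex Real MeasureTheory
open UpperHalfPlane hiding I
open scoped MatrixGroups

namespace RV11

theorem sum_j : ∃ (C : ℝ) (n0 : ℕ), ∀ n : ℕ, n0 ≤ n → ∃ J : ℕ,
    (n : ℝ) ^ (21 / 40 : ℝ) ≤ 2 ^ (J + 1) ∧
    ∑ j ∈ Finset.range (J + 1), (2 : ℝ) ^ (-(j : ℝ) / 20) *
      (if (2 : ℝ) ^ j ≤ (n : ℝ) ^ (1 / 2000 : ℝ) / 8 then 1 else
        ((n : ℝ) ^ (1 / 100000 : ℝ) + (n : ℝ) ^ (-(1 / 4) : ℝ) * (2 : ℝ) ^ ((j : ℝ) / 2))) ≤ C := by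
  refine ⟨3 * (1 - (2 : ℝ) ^ (-(1 / 40) : ℝ))⁻¹, 2, fun n hn => ?_⟩
  have hn1 : (1 : ℝ) < n := by exact_mod_cast (by omega : 1 < n)
  have hn0 : (0 : ℝ) < n := by linarith
  have hex : ∃ m : ℕ, (n : ℝ) ^ (21 / 40 : ℝ) ≤ 2 ^ m := by
    obtain ⟨m, hm⟩ := pow_unbounded_of_one_lt ((n : ℝ) ^ (21 / 40 : ℝ)) (by norm_num : (1 : ℝ) < 2)
    exact ⟨m, hm.le⟩
  obtain ⟨J, hJ1, hJ2⟩ : ∃ J : ℕ, (n : ℝ) ^ (21 / 40 : ℝ) ≤ 2 ^ (J + 1) ∧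
      (2 : ℝ) ^ J < (n : ℝ) ^ (21 / 40 : ℝ) := by
    classical
    have hm := Nat.find_spec hex
    have hpos : Nat.find hex ≠ 0 := by
      intro h0
      rw [h0] at hm
      have := Real.one_lt_rpow hn1 (by norm_num : (0 : ℝ) < 21 / 40)
      simp only [pow_zero] at hm
      linarith
    obtain ⟨J, hJ⟩ := Nat.exists_eq_succ_of_ne_zero hpos
    refine ⟨J, by rw [hJ] at hm; exact hm, ?_⟩
    have := Nat.find_min hex (m := J) (by omega)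
    push Not at this
    exact this
  refine ⟨J, hJ1, ?_⟩
  have h2 : (0 : ℝ) < 2 := by norm_num
  have hr0 : (0 : ℝ) < (2 : ℝ) ^ (-(1 / 40) : ℝ) := Real.rpow_pos_of_pos h2 _
  have hr1 : (2 : ℝ) ^ (-(1 / 40) : ℝ) < 1 :=
    Real.rpow_lt_one_of_one_lt_of_neg (by norm_num) (by norm_num)
  have hrj : ∀ j : ℕ, ((2 : ℝ) ^ (-(1 / 40) : ℝ)) ^ j = (2 : ℝ) ^ (-(j : ℝ) / 40) := by
    intro j
    rw [← Real.rpow_natCast, ← Real.rpow_mul h2.le]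
    congr 1
    ring
  have key : ∀ j ∈ Finset.range (J + 1), (2 : ℝ) ^ (-(j : ℝ) / 20) *
      (if (2 : ℝ) ^ j ≤ (n : ℝ) ^ (1 / 2000 : ℝ) / 8 then 1 else
        ((n : ℝ) ^ (1 / 100000 : ℝ) + (n : ℝ) ^ (-(1 / 4) : ℝ) * (2 : ℝ) ^ ((j : ℝ) / 2))) ≤
      3 * ((2 : ℝ) ^ (-(1 / 40) : ℝ)) ^ j := by
    intro j hj
    have hjJ : j ≤ J := by
      have := Finset.mem_range.mp hj
      omega
    rw [hrj]
    have hj0 : (0 : ℝ) ≤ j := Nat.cast_nonneg j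
    have hs : (2 : ℝ) ^ (-(j : ℝ) / 20) = (2 : ℝ) ^ (-(j : ℝ) / 40) * (2 : ℝ) ^ (-(j : ℝ) / 40) := by
      rw [← Real.rpow_add h2]
      congr 1
      ring
    have hp : (0 : ℝ) < (2 : ℝ) ^ (-(j : ℝ) / 40) := Real.rpow_pos_of_pos h2 _
    have hle1 : (2 : ℝ) ^ (-(j : ℝ) / 40) ≤ 1 :=
      Real.rpow_le_one_of_one_le_of_nonpos (by norm_num)
        (by rw [neg_div]; linarith [div_nonneg hj0 (by norm_num : (0 : ℝ) ≤ 40)])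
    split_ifs with hc
    · rw [mul_one, hs]
      nlinarith
    · push Not at hc
      rw [mul_add]
      have hA : (2 : ℝ) ^ (-(j : ℝ) / 20) * (n : ℝ) ^ (1 / 100000 : ℝ) ≤
          2 * (2 : ℝ) ^ (-(j : ℝ) / 40) := by
        have h8 : (n : ℝ) ^ (1 / 2000 : ℝ) ≤ 8 * (2 : ℝ) ^ j := by linarith
        have h9 : ((n : ℝ) ^ (1 / 2000 : ℝ)) ^ (1 / 40 : ℝ) ≤ (8 * (2 : ℝ) ^ j) ^ (1 / 40 : ℝ) :=
          Real.rpow_le_rpow (Real.rpow_nonneg hn0.le _) h8 (by norm_num)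
        rw [← Real.rpow_mul hn0.le, Real.mul_rpow (by norm_num) (by positivity),
          ← Real.rpow_natCast, ← Real.rpow_mul h2.le] at h9
        have h10 : (8 : ℝ) ^ (1 / 40 : ℝ) ≤ 2 := by
          have : (8 : ℝ) = 2 ^ (3 : ℝ) := by norm_num
          rw [this, ← Real.rpow_mul h2.le]
          calc (2 : ℝ) ^ (3 * (1 / 40) : ℝ) ≤ (2 : ℝ) ^ (1 : ℝ) :=
                Real.rpow_le_rpow_of_exponent_le (by norm_num) (by norm_num)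
            _ = 2 := Real.rpow_one 2
        have h11 : (n : ℝ) ^ (1 / 100000 : ℝ) ≤ (n : ℝ) ^ ((1 / 2000) * (1 / 40) : ℝ) :=
          Real.rpow_le_rpow_of_exponent_le hn1.le (by norm_num)
        have h12 : (0 : ℝ) < (2 : ℝ) ^ ((j : ℝ) * (1 / 40)) := Real.rpow_pos_of_pos h2 _
        have h13 : (n : ℝ) ^ (1 / 100000 : ℝ) ≤ 2 * (2 : ℝ) ^ ((j : ℝ) * (1 / 40)) := by
          nlinarith
        have h14 : (2 : ℝ) ^ (-(j : ℝ) / 40) * (2 : ℝ) ^ ((j : ℝ) * (1 / 40)) = 1 := by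
          rw [← Real.rpow_add h2]
          have : -(j : ℝ) / 40 + (j : ℝ) * (1 / 40) = 0 := by ring
          rw [this, Real.rpow_zero]
        rw [hs]
        calc (2 : ℝ) ^ (-(j : ℝ) / 40) * (2 : ℝ) ^ (-(j : ℝ) / 40) * (n : ℝ) ^ (1 / 100000 : ℝ)
            ≤ (2 : ℝ) ^ (-(j : ℝ) / 40) * (2 : ℝ) ^ (-(j : ℝ) / 40) *
              (2 * (2 : ℝ) ^ ((j : ℝ) * (1 / 40))) := by
              exact mul_le_mul_of_nonneg_left h13 (by positivity)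
          _ = 2 * (2 : ℝ) ^ (-(j : ℝ) / 40) *
              ((2 : ℝ) ^ (-(j : ℝ) / 40) * (2 : ℝ) ^ ((j : ℝ) * (1 / 40))) := by ring
          _ = 2 * (2 : ℝ) ^ (-(j : ℝ) / 40) := by rw [h14, mul_one]
      have hB : (2 : ℝ) ^ (-(j : ℝ) / 20) * ((n : ℝ) ^ (-(1 / 4) : ℝ) * (2 : ℝ) ^ ((j : ℝ) / 2)) ≤
          (2 : ℝ) ^ (-(j : ℝ) / 40) := by
        have h15 : (2 : ℝ) ^ j ≤ (n : ℝ) ^ (21 / 40 : ℝ) :=
          (pow_le_pow_right₀ (by norm_num) hjJ).trans hJ2.le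
        have h16 : ((2 : ℝ) ^ j) ^ (19 / 40 : ℝ) ≤ ((n : ℝ) ^ (21 / 40 : ℝ)) ^ (19 / 40 : ℝ) :=
          Real.rpow_le_rpow (by positivity) h15 (by norm_num)
        rw [← Real.rpow_mul hn0.le, ← Real.rpow_natCast, ← Real.rpow_mul h2.le] at h16
        have h17 : (n : ℝ) ^ (21 / 40 * (19 / 40) : ℝ) ≤ (n : ℝ) ^ (1 / 4 : ℝ) :=
          Real.rpow_le_rpow_of_exponent_le hn1.le (by norm_num)
        have h18 : (n : ℝ) ^ (-(1 / 4) : ℝ) * (n : ℝ) ^ (1 / 4 : ℝ) = 1 := by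
          rw [← Real.rpow_add hn0]
          norm_num
        have h19 : (0 : ℝ) < (n : ℝ) ^ (-(1 / 4) : ℝ) := Real.rpow_pos_of_pos hn0 _
        have h20 : (2 : ℝ) ^ (-(j : ℝ) / 20) * (2 : ℝ) ^ ((j : ℝ) / 2) =
            (2 : ℝ) ^ (-(j : ℝ) / 40) * (2 : ℝ) ^ ((j : ℝ) * (19 / 40)) := by
          rw [← Real.rpow_add h2, ← Real.rpow_add h2]
          congr 1
          ring
        calc (2 : ℝ) ^ (-(j : ℝ) / 20) * ((n : ℝ) ^ (-(1 / 4) : ℝ) * (2 : ℝ) ^ ((j : ℝ) / 2))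
            = (n : ℝ) ^ (-(1 / 4) : ℝ) * ((2 : ℝ) ^ (-(j : ℝ) / 20) * (2 : ℝ) ^ ((j : ℝ) / 2)) := by
              ring
          _ = (n : ℝ) ^ (-(1 / 4) : ℝ) * ((2 : ℝ) ^ (-(j : ℝ) / 40) *
              (2 : ℝ) ^ ((j : ℝ) * (19 / 40))) := by rw [h20]
          _ ≤ (n : ℝ) ^ (-(1 / 4) : ℝ) * ((2 : ℝ) ^ (-(j : ℝ) / 40) * (n : ℝ) ^ (1 / 4 : ℝ)) := by
              refine mul_le_mul_of_nonneg_left ?_ h19.le
              exact mul_le_mul_of_nonneg_left (h16.trans h17) hp.le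
          _ = (2 : ℝ) ^ (-(j : ℝ) / 40) * ((n : ℝ) ^ (-(1 / 4) : ℝ) * (n : ℝ) ^ (1 / 4 : ℝ)) := by
              ring
          _ = (2 : ℝ) ^ (-(j : ℝ) / 40) := by rw [h18, mul_one]
      linarith
  refine (Finset.sum_le_sum key).trans ?_
  rw [← Finset.mul_sum]
  refine mul_le_mul_of_nonneg_left ?_ (by norm_num)
  have := (summable_geometric_of_lt_one hr0.le hr1).sum_le_tsum (Finset.range (J + 1))
    (fun i _ => by positivity)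
  rw [tsum_geometric_of_lt_one hr0.le hr1] at this
  exact this

end RV11
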