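import Pool.Agent.LibRV11.Defs
import Pool.Agent.LibRV11.AI2b
import Pool.Agent.LibRV11.AI8
open Complex Real MeasureTheory
open UpperHalfPlane hiding I
open scoped MatrixGroups

namespace RV11

theorem Th_decomp (r : ℝ) (hr : 0 ≤ r) (J : ℕ) (z : ℍ) (hz : z ∈ Strip) :
    Th r z = ∑ j ∈ Finset.range (J + 1), Uj r j z 0 + ThA r J z :=
  Th_decomp' r hr J z hz

theorem ThA_bound (h : ℝ → ℝ) (hh : IsBump h) : ∃ (C : ℝ) (n0 : ℕ), ∀ n : ℕ, n0 ≤ n →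
    ∀ r : ℝ, 0 ≤ r → ∀ J : ℕ, (n : ℝ) ^ (21 / 40 : ℝ) ≤ 2 ^ (J + 1) →
    ‖∫ z in Strip, ThA r J z * ((h (n * z.im) * z.im : ℝ) * jacobiTheta (z : ℂ) *
      cexp (-(π * I * n * (z : ℂ))))‖ ≤ C :=
  ThA_bound' h hh

end RV11
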