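import Pool.Agent.LibRV11.F3defs
import Pool.Agent.LibRV11.Theta
open Complex Real MeasureTheory
open UpperHalfPlane hiding I
open scoped MatrixGroups

namespace RV11

/-! ### F33: the automorphic part -/

open Classical in
/-- the summand -/
private noncomputable def f33_K (F1 : ℂ → ℂ) (r : ℝ) (z : ℍ) : ℂ :=
  if z ∈ DD then F1 (z : ℂ) / jacobiTheta (z : ℂ) - phh r z else 0

private theorem f33_eq (F1 : ℂ → ℂ) (r : ℝ) (z : ℍ) :
    G0 F1 r z = 1 / 2 * ∑' g : Gam, chi g * f33_K F1 r ((g : SL(2, ℤ)) • z) := by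
  unfold G0 f33_K
  congr 1
  refine tsum_congr fun g => ?_
  split_ifs <;> simp

private theorem f33_neg_mem : (-1 : SL(2, ℤ)) ∈ Gam := by
  change Even ((-1 : SL(2, ℤ)) 0 0 + (-1 : SL(2, ℤ)) 1 1) ∧ Even ((-1 : SL(2, ℤ)) 0 1 + (-1 : SL(2, ℤ)) 1 0)
  simp

private theorem f33_neg_smul (z : ℍ) : (-1 : SL(2, ℤ)) • z = z := by
  have := ModularGroup.SL_neg_smul (1 : SL(2, ℤ)) z
  rw [this, one_smul]

private theorem f33_chi_one : chi 1 = 1 := by
  unfold chi
  rw [if_pos]
  simp

theorem G0_DD (F1 : ℂ → ℂ) (r : ℝ) {z : ℍ} (hz : z ∈ DD) :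
    G0 F1 r z = F1 z / jacobiTheta z - phh r z := by
  rw [f33_eq]
  set e : Gam := ⟨-1, f33_neg_mem⟩ with he
  have hne : (1 : Gam) ≠ e := by
    intro h
    have h1 := congrArg (fun g : Gam => (g : SL(2, ℤ)) 0 0) h
    simp [he] at h1
  have hsum : ∑' g : Gam, chi g * f33_K F1 r ((g : SL(2, ℤ)) • z) =
      ∑ g ∈ ({1, e} : Finset Gam), chi g * f33_K F1 r ((g : SL(2, ℤ)) • z) := by
    refine tsum_eq_sum fun g hg => ?_
    have hgD : (g : SL(2, ℤ)) • z ∉ DD := by
      intro h
      rcases eq_one_or_neg_one g.2 hz h with h1 | h1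
      · exact hg (by rw [Finset.mem_insert]; left; exact Subtype.ext h1)
      · exact hg (by rw [Finset.mem_insert, Finset.mem_singleton]; right; exact Subtype.ext h1)
    rw [f33_K, if_neg hgD, mul_zero]
  rw [hsum, Finset.sum_pair hne]
  have h1 : chi ((1 : Gam) : SL(2, ℤ)) = 1 := f33_chi_one
  have h2 : chi ((e : Gam) : SL(2, ℤ)) = 1 := by
    change chi (-1) = 1
    rw [chi_neg, f33_chi_one]
  have h3 : ((1 : Gam) : SL(2, ℤ)) • z = z := one_smul _ z
  have h4 : ((e : Gam) : SL(2, ℤ)) • z = z := f33_neg_smul z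
  rw [h1, h2, h3, h4, f33_K, if_pos hz]
  ring

theorem G0_smul (F1 : ℂ → ℂ) (r : ℝ) {g : SL(2, ℤ)} (hg : g ∈ Gam) (z : ℍ) :
    G0 F1 r (g • z) = chi g * G0 F1 r z := by
  rw [f33_eq, f33_eq]
  have h1 : ∀ h : Gam, chi h * f33_K F1 r ((h : SL(2, ℤ)) • g • z) =
      chi g * (chi ((h * ⟨g, hg⟩ : Gam) : SL(2, ℤ)) * f33_K F1 r (((h * ⟨g, hg⟩ : Gam) : SL(2, ℤ)) • z)) := by
    intro h
    rw [Subgroup.coe_mul, chi_mul h.2 hg, mul_smul]
    linear_combination (-(chi h * f33_K F1 r ((h : SL(2, ℤ)) • g • z))) * chi_mul_self g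
  rw [tsum_congr h1, tsum_mul_left]
  have h2 := Equiv.tsum_eq (Equiv.mulRight (⟨g, hg⟩ : Gam)) (fun h : Gam => chi h * f33_K F1 r ((h : SL(2, ℤ)) • z))
  have h3 : ∑' h : Gam, chi ((h * ⟨g, hg⟩ : Gam) : SL(2, ℤ)) * f33_K F1 r (((h * ⟨g, hg⟩ : Gam) : SL(2, ℤ)) • z) =
      ∑' h : Gam, chi h * f33_K F1 r ((h : SL(2, ℤ)) • z) := h2
  rw [h3]
  ring

private theorem f33_measDD : MeasurableSet DD := by
  have h1 : IsOpen {z : ℍ | |z.re| < 1} :=
    isOpen_lt (UpperHalfPlane.continuous_re.abs) continuous_const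
  have h2 : IsOpen {z : ℍ | 1 < ‖(z : ℂ)‖} :=
    isOpen_lt continuous_const (UpperHalfPlane.continuous_coe.norm)
  exact (h1.inter h2).measurableSet

private theorem f33_countable : Countable SL(2, ℤ) := by
  have : Countable (Matrix (Fin 2) (Fin 2) ℤ) := inferInstanceAs (Countable (Fin 2 → Fin 2 → ℤ))
  exact Subtype.val_injective.countable

private theorem f33_measK (F1 : ℂ → ℂ) (r : ℝ) (h1 : IsF1 F1 r) : Measurable (f33_K F1 r) := by
  have hsub : ∀ z ∈ DD, (z : ℂ) ∈ {z : ℂ | 0 < z.im ∧ ∀ k : ℤ, 1 < ‖z - 2 * k‖} := by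
    intro z hz
    refine ⟨z.im_pos, fun k => ?_⟩
    rcases eq_or_ne k 0 with h0 | h0
    · rw [h0]; simpa using hz.2
    · have h2 : |z.re - 2 * k| ≤ ‖(z : ℂ) - 2 * k‖ := by
        have := Complex.abs_re_le_norm ((z : ℂ) - 2 * k)
        have e : ((z : ℂ) - 2 * k).re = z.re - 2 * k := by
          have : (z : ℂ).re = z.re := rfl
          rw [Complex.sub_re, this]; simp
        rwa [e] at this
      have h3 : (2:ℝ) ≤ |2 * (k:ℝ)| := by
        rw [abs_mul, abs_two]
        have : (1:ℝ) ≤ |(k:ℝ)| := by exact_mod_cast Int.one_le_abs h0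
        linarith
      have h4 : |2 * (k:ℝ)| ≤ |z.re - 2 * k| + |z.re| := by
        have := abs_sub_abs_le_abs_sub (2 * (k:ℝ)) z.re
        rw [abs_sub_comm] at this
        linarith
      have h5 : |z.re| < 1 := hz.1
      linarith
  have hcont : ContinuousOn (fun z : ℍ => F1 (z : ℂ)) DD := by
    refine h1.diff.continuousOn.comp UpperHalfPlane.continuous_coe.continuousOn hsub
  have hθ : Measurable fun z : ℍ => jacobiTheta (z : ℂ) := by
    have : Continuous fun z : ℍ => jacobiTheta (z : ℂ) := by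
      rw [continuous_iff_continuousAt]
      intro z
      exact ((differentiableAt_jacobiTheta z.im_pos).continuousAt).comp UpperHalfPlane.continuous_coe.continuousAt
    exact this.measurable
  have hF : Measurable (DD.indicator fun z : ℍ => F1 (z : ℂ)) := by
    classical
    have := hcont.measurable_piecewise (g := fun _ : ℍ => (0:ℂ)) continuousOn_const f33_measDD
    convert this using 1
    funext z
    by_cases hz : z ∈ DD
    · rw [Set.indicator_of_mem hz, Set.piecewise_eq_of_mem _ _ _ hz]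
    · rw [Set.indicator_of_notMem hz, Set.piecewise_eq_of_notMem _ _ _ hz]
  have h5 : Measurable (DD.indicator fun z : ℍ => (DD.indicator (fun z : ℍ => F1 (z : ℂ)) z) / jacobiTheta (z : ℂ) - phh r z) :=
    ((hF.div hθ).sub (measurable_phh r)).indicator f33_measDD
  convert h5 using 1
  funext z
  unfold f33_K
  by_cases hz : z ∈ DD
  · rw [if_pos hz, Set.indicator_of_mem hz, Set.indicator_of_mem hz]
  · rw [if_neg hz, Set.indicator_of_notMem hz]

theorem measurable_G0 (F1 : ℂ → ℂ) (r : ℝ) (h1 : IsF1 F1 r) : Measurable (G0 F1 r) := by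
  have e : G0 F1 r = fun z => 1 / 2 * ∑' g : Gam, chi g * f33_K F1 r ((g : SL(2, ℤ)) • z) := funext (f33_eq F1 r)
  rw [e]
  refine Measurable.const_mul ?_ _
  have hterm : ∀ g : Gam, Measurable fun z : ℍ => chi g * f33_K F1 r ((g : SL(2, ℤ)) • z) := by
    intro g
    refine ((f33_measK F1 r h1).comp ?_).const_mul _
    have : Continuous fun z : ℍ => ((g : SL(2, ℤ)) : GL (Fin 2) ℝ) • z := continuous_const_smul _
    exact this.measurable
  have hsum : ∀ z : ℍ, Summable fun g : Gam => chi g * f33_K F1 r ((g : SL(2, ℤ)) • z) := by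
    intro z
    by_cases hz : ∃ g ∈ Gam, g • z ∈ DD
    · obtain ⟨g0, hg0, hz0⟩ := hz
      refine summable_of_ne_finset_zero (s := ({⟨g0, hg0⟩, ⟨-g0, by
        have := Gam.mul_mem f33_neg_mem hg0
        rwa [neg_one_mul] at this⟩} : Finset Gam)) fun g hg => ?_
      have hgD : (g : SL(2, ℤ)) • z ∉ DD := by
        intro h
        have h2 : ((g : SL(2, ℤ)) * g0⁻¹) • (g0 • z) ∈ DD := by
          rw [smul_smul, inv_mul_cancel_right]; exact h
        rcases eq_one_or_neg_one (Gam.mul_mem g.2 (Gam.inv_mem hg0)) hz0 h2 with h3 | h3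
        · have h4 : (g : SL(2, ℤ)) = g0 := mul_inv_eq_one.1 h3
          exact hg (by rw [Finset.mem_insert]; left; exact Subtype.ext h4)
        · have h4 : (g : SL(2, ℤ)) = -g0 := by
            have := congrArg (· * g0) h3
            simpa using this
          exact hg (by rw [Finset.mem_insert, Finset.mem_singleton]; right; exact Subtype.ext h4)
      rw [f33_K, if_neg hgD, mul_zero]
    · push Not at hz
      have : (fun g : Gam => chi g * f33_K F1 r ((g : SL(2, ℤ)) • z)) = fun _ => 0 := by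
        funext g
        rw [f33_K, if_neg (hz g g.2), mul_zero]
      rw [this]
      exact summable_zero
  have hcount : Countable Gam := by
    have := f33_countable
    infer_instance
  refine measurable_of_tendsto_metrizable' Filter.atTop
    (f := fun (s : Finset Gam) (z : ℍ) => ∑ g ∈ s, chi g * f33_K F1 r ((g : SL(2, ℤ)) • z)) ?_ ?_
  · intro s
    exact Finset.measurable_fun_sum _ fun g _ => hterm g
  · rw [tendsto_pi_nhds]
    intro z
    exact (hsum z).hasSum

end RV11
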