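import Pool.Agent.LibRV11.F32
import Pool.Agent.LibRV11.F33
open Complex Real MeasureTheory
open UpperHalfPlane hiding I
open scoped MatrixGroups

namespace RV11

/-! ### F34: local extension at points of the closure of `DD` -/

private theorem f34_coe_T2 (z : ℍ) : ((ModularGroup.T ^ 2 • z : ℍ) : ℂ) = (z : ℂ) + 2 := by
  have : ModularGroup.T ^ (2 : ℕ) = ModularGroup.T ^ (2 : ℤ) := rfl
  rw [this, UpperHalfPlane.modular_T_zpow_smul, UpperHalfPlane.coe_vadd]
  push_cast
  ring

private theorem f34_coe_S (z : ℍ) : ((ModularGroup.S • z : ℍ) : ℂ) = -1 / (z : ℂ) := by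
  rw [UpperHalfPlane.modular_S_smul]
  simp [neg_div, inv_neg]

private theorem f34_theta_add_two (w : ℂ) : jacobiTheta (w + 2) = jacobiTheta w := by
  rw [add_comm, jacobiTheta_two_add]

private theorem f34_phh_T2 (r : ℝ) (z : ℍ) :
    phh r (ModularGroup.T ^ 2 • z) = cexp (2 * π * I * r) * phh r z := by
  unfold phh
  rw [f34_coe_T2, f34_theta_add_two, ← mul_div_assoc, ← Complex.exp_add]
  congr 2
  ring

private theorem f34_chi_T2 : chi (ModularGroup.T ^ 2) = 1 := by
  have : (ModularGroup.T ^ 2) 1 0 = 0 := by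
    rw [pow_two, Matrix.SpecialLinearGroup.coe_mul, ModularGroup.coe_T, Matrix.mul_apply]
    simp [Fin.sum_univ_two]
  rw [chi, this]
  simp

private theorem f34_chi_S : chi ModularGroup.S = -1 := by
  rw [chi]
  simp [ModularGroup.S]

/-- transformation of `Fh` under `T^2` -/
private theorem f34_Fh_T2 (F1 : ℂ → ℂ) (r : ℝ) (z : ℍ) :
    Fh F1 r (ModularGroup.T ^ 2 • z) = Fh F1 r z := by
  have h1 := ThG_sub r T2_mem_Gam z
  rw [Rem_T, f34_chi_T2, one_mul] at h1
  have h2 := G0_smul F1 r T2_mem_Gam z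
  rw [f34_chi_T2, one_mul] at h2
  unfold Fh
  rw [h2, f34_phh_T2]
  have h3 : ThG r (ModularGroup.T ^ 2 • z) = ThG r z + om r * phh r z := by
    linear_combination -h1
  rw [h3, om]
  ring

/-- transformation of `Fh` under `S` -/
private theorem f34_Fh_S (F1 : ℂ → ℂ) (r : ℝ) (z : ℍ) :
    Fh F1 r z + Fh F1 r (ModularGroup.S • z) = phh r z + phh r (ModularGroup.S • z) := by
  have h1 := ThG_sub r S_mem_Gam z
  rw [Rem_S, f34_chi_S] at h1
  have h2 := G0_smul F1 r S_mem_Gam z
  rw [f34_chi_S] at h2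
  unfold Fh
  rw [h2]
  linear_combination h1

private theorem f34_Fh_DD (F1 : ℂ → ℂ) (r : ℝ) {z : ℍ} (hz : z ∈ DD) :
    Fh F1 r z = F1 z / jacobiTheta z := by
  unfold Fh
  rw [G0_DD F1 r hz, ThG_DD r hz]
  ring

private theorem f34_sq_norm (w : ℂ) : ‖w‖ ^ 2 = w.re ^ 2 + w.im ^ 2 := by
  rw [← Complex.normSq_eq_norm_sq, Complex.normSq_apply]
  ring

/-- the top region contains `|Re| ≤ 1`, `|w| > 1` (also all `|w - 2k| > 1`) -/
private theorem f34_top {w : ℂ} (h1 : |w.re| ≤ 1) (h2 : 1 < ‖w‖) (h3 : 0 < w.im) (k : ℤ) :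
    1 < ‖w - 2 * k‖ := by
  have h4 : (w - 2 * k).re = w.re - 2 * k := by simp
  have h5 : (w - 2 * k).im = w.im := by simp
  rcases eq_or_ne k 0 with h0 | h0
  · simpa [h0] using h2
  · have h6 : 1 ≤ |(k : ℝ)| := by exact_mod_cast Int.one_le_abs h0
    have h7 : 1 ≤ |w.re - 2 * k| := by
      have h8 : |2 * (k : ℝ)| ≤ |w.re - 2 * k| + |w.re| := by
        have := abs_sub_abs_le_abs_sub (2 * (k : ℝ)) w.re
        rw [abs_sub_comm (2 * (k : ℝ)) w.re] at this
        linarith
      rw [abs_mul, abs_two] at h8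
      linarith
    have h9 : 1 ≤ (w.re - 2 * k) ^ 2 := by
      rw [← sq_abs]
      nlinarith
    have h10 : 1 < ‖w - 2 * k‖ ^ 2 := by
      rw [f34_sq_norm, h4, h5]
      nlinarith
    nlinarith [norm_nonneg (w - 2 * k)]

private theorem f34_k_diff (F1 : ℂ → ℂ) (r : ℝ) (h1 : IsF1 F1 r) {s : Set ℂ}
    (hs : s ⊆ {w | 0 < w.im ∧ ∀ k : ℤ, 1 < ‖w - 2 * k‖}) :
    DifferentiableOn ℂ (fun w => F1 w / jacobiTheta w) s := by
  apply DifferentiableOn.div (h1.diff.mono hs)
  · intro w hw
    exact (differentiableAt_jacobiTheta (hs hw).1).differentiableWithinAt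
  · intro w hw
    exact theta_ne_zero ⟨w, (hs hw).1⟩

theorem locExt_DD (F1 : ℂ → ℂ) (r : ℝ) (h1 : IsF1 F1 r) {z : ℍ} (hz : z ∈ DD) :
    LocExt (Fh F1 r) UU z := by
  have hopen : IsOpen {w : ℂ | 0 < w.im ∧ |w.re| < 1 ∧ 1 < ‖w‖} := by
    apply (isOpen_lt continuous_const Complex.continuous_im).inter
    exact (isOpen_lt (continuous_abs.comp Complex.continuous_re) continuous_const).inter
      (isOpen_lt continuous_const continuous_norm)
  obtain ⟨ε, hε, hball⟩ := Metric.isOpen_iff.mp hopen (z : ℂ) ⟨z.im_pos, hz.1, hz.2⟩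
  refine ⟨fun w => F1 w / jacobiTheta w, ε, hε, fun w hw => (hball hw).1, ?_, ?_⟩
  · apply f34_k_diff F1 r h1
    intro w hw
    obtain ⟨h2, h3, h4⟩ := hball hw
    exact ⟨h2, fun k => f34_top h3.le h4 h2 k⟩
  · intro w hw _
    obtain ⟨h2, h3, h4⟩ := hball hw
    exact f34_Fh_DD F1 r ⟨h3, h4⟩

/-- values of `Fh` on `DD` and its translate by 2 (both sides of the line `Re = 1`) -/
theorem Fh_side (F1 : ℂ → ℂ) (r : ℝ) (h1 : IsF1 F1 r) {z : ℍ} (hz : z ∈ UU)
    (h : ∀ k : ℤ, 1 < ‖(z : ℂ) - 2 * k‖) (hx : |z.re| < 2) :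
    Fh F1 r z = F1 z / jacobiTheta z := by
  obtain ⟨hne1, hne2⟩ := re_ne_of_UU hz
  obtain ⟨hx1, hx2⟩ := abs_lt.mp hx
  have hre : (z : ℂ).re = z.re := rfl
  by_cases hD : |z.re| < 1
  · apply f34_Fh_DD F1 r
    refine ⟨hD, ?_⟩
    have := h 0
    simpa using this
  · rcases lt_or_ge z.re 0 with hneg | hpos
    · -- w = z + 2
      have h3 : z.re < -1 := by
        rw [abs_of_neg hneg, not_lt] at hD
        rcases lt_or_eq_of_le (show z.re ≤ -1 by linarith) with h4 | h4
        · exact h4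
        · exact absurd h4 hne2
      have hw : (ModularGroup.T ^ 2 • z : ℍ) ∈ DD := by
        have hre2 : (ModularGroup.T ^ 2 • z : ℍ).re = z.re + 2 := by
          have : (ModularGroup.T ^ 2 • z : ℍ).re = ((ModularGroup.T ^ 2 • z : ℍ) : ℂ).re := rfl
          rw [this, f34_coe_T2]
          simp
        refine ⟨?_, ?_⟩
        · rw [hre2, abs_lt]
          constructor <;> linarith
        · rw [f34_coe_T2]
          have := h (-1)
          push_cast at this
          rw [show (z : ℂ) + 2 = (z : ℂ) - 2 * -1 by ring]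
          exact this
      rw [← f34_Fh_T2, f34_Fh_DD F1 r hw, f34_coe_T2, f34_theta_add_two, h1.per z z.im_pos h]
    · -- w = z - 2
      have h3 : 1 < z.re := by
        rw [abs_of_nonneg hpos, not_lt] at hD
        rcases lt_or_eq_of_le hD with h4 | h4
        · exact h4
        · exact absurd h4.symm hne1
      set w : ℍ := (ModularGroup.T ^ 2)⁻¹ • z with hwdef
      have hwz : ModularGroup.T ^ 2 • w = z := by rw [hwdef, smul_inv_smul]
      have hcoe : (z : ℂ) = (w : ℂ) + 2 := by rw [← hwz, f34_coe_T2]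
      have hw : w ∈ DD := by
        have hre2 : w.re = z.re - 2 := by
          have h4 : (w : ℂ).re = w.re := rfl
          rw [← h4, ← hre, hcoe]
          simp
        refine ⟨?_, ?_⟩
        · rw [hre2, abs_lt]
          constructor <;> linarith
        · have := h 1
          push_cast at this
          rw [show (w : ℂ) = (z : ℂ) - 2 * 1 by rw [hcoe]; ring]
          exact this
      have hk : ∀ k : ℤ, 1 < ‖(w : ℂ) - 2 * k‖ := by
        intro k
        have := h (k + 1)
        push_cast at this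
        rw [hcoe] at this
        rw [show (w : ℂ) - 2 * k = (w : ℂ) + 2 - 2 * (k + 1) by ring]
        exact this
      rw [← hwz, f34_Fh_T2, f34_Fh_DD F1 r hw, f34_coe_T2, f34_theta_add_two,
        h1.per w w.im_pos hk]

theorem locExt_side (F1 : ℂ → ℂ) (r : ℝ) (h1 : IsF1 F1 r) {z : ℍ} (hz : |z.re| = 1) :
    LocExt (Fh F1 r) UU z := by
  have hy : 0 < z.im := z.im_pos
  have hre : (z : ℂ).re = z.re := rfl
  have him : (z : ℂ).im = z.im := rfl
  -- lower bound for the distances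
  have hdist : ∀ k : ℤ, Real.sqrt (1 + z.im ^ 2) ≤ ‖(z : ℂ) - 2 * k‖ := by
    intro k
    apply Real.sqrt_le_iff.mpr ⟨norm_nonneg _, ?_⟩
    rw [f34_sq_norm]
    have h4 : ((z : ℂ) - 2 * k).re = z.re - 2 * k := by simp
    have h5 : ((z : ℂ) - 2 * k).im = z.im := by simp
    rw [h4, h5]
    have h6 : 1 ≤ (z.re - 2 * k) ^ 2 := by
      have h7 : z.re = 1 ∨ z.re = -1 := by
        rcases abs_cases z.re with h | h
        · left; linarith [h.1]
        · right; linarith [h.1]
      rcases h7 with h7 | h7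
      · rw [h7]
        have : (1 : ℤ) ≤ (1 - 2 * k) ^ 2 := by
          have : (1 - 2 * k) ≠ 0 := by omega
          have := Int.one_le_abs this
          rw [← sq_abs]
          nlinarith
        exact_mod_cast this
      · rw [h7]
        have : (1 : ℤ) ≤ (-1 - 2 * k) ^ 2 := by
          have : (-1 - 2 * k) ≠ 0 := by omega
          have := Int.one_le_abs this
          rw [← sq_abs]
          nlinarith
        exact_mod_cast this
    linarith
  have hs1 : 1 < Real.sqrt (1 + z.im ^ 2) := by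
    rw [Real.lt_sqrt (by norm_num)]
    nlinarith
  set s := Real.sqrt (1 + z.im ^ 2) with hs
  set ε := min (min (s - 1) z.im) 1 with hε
  have hε0 : 0 < ε := lt_min (lt_min (by linarith) hy) one_pos
  have hε1 : ε ≤ s - 1 := (min_le_left _ _).trans (min_le_left _ _)
  have hε2 : ε ≤ z.im := (min_le_left _ _).trans (min_le_right _ _)
  have hε3 : ε ≤ 1 := min_le_right _ _
  have hball : ∀ w : ℂ, w ∈ Metric.ball (z : ℂ) ε →
      0 < w.im ∧ (∀ k : ℤ, 1 < ‖w - 2 * k‖) ∧ |w.re| < 2 := by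
    intro w hw
    rw [Metric.mem_ball, dist_eq_norm] at hw
    refine ⟨?_, fun k => ?_, ?_⟩
    · have h2 := Complex.abs_im_le_norm (w - z)
      rw [Complex.sub_im, him] at h2
      have := (abs_le.mp (h2.trans hw.le)).1
      have h3 := (abs_lt.mp (lt_of_le_of_lt h2 hw)).1
      linarith
    · have h2 : ‖(z : ℂ) - 2 * k‖ ≤ ‖w - 2 * k‖ + ‖w - z‖ := by
        have : (z : ℂ) - 2 * k = (w - 2 * k) - (w - z) := by ring
        rw [this]
        exact norm_sub_le _ _
      have h3 := hdist k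
      linarith
    · have h2 := Complex.abs_re_le_norm (w - z)
      rw [Complex.sub_re, hre] at h2
      have h3 : |w.re| ≤ |w.re - z.re| + |z.re| := by
        have : w.re = (w.re - z.re) + z.re := by ring
        conv_lhs => rw [this]
        exact abs_add_le _ _
      rw [hz] at h3
      linarith
  refine ⟨fun w => F1 w / jacobiTheta w, ε, hε0, fun w hw => (hball w hw).1, ?_, ?_⟩
  · apply f34_k_diff F1 r h1
    intro w hw
    exact ⟨(hball w hw).1, (hball w hw).2.1⟩
  · intro w hw hwU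
    obtain ⟨_, h3, h4⟩ := hball w hw
    exact Fh_side F1 r h1 hwU h3 h4

/-- value of `Fh` just below the unit circle -/
theorem Fh_below (F1 : ℂ → ℂ) (r : ℝ) (h1 : IsF1 F1 r) {z : ℍ} (hz : ModularGroup.S • z ∈ DD) :
    Fh F1 r z = phh r z + phh r (ModularGroup.S • z) -
      F1 ((ModularGroup.S • z : ℍ) : ℂ) / jacobiTheta ((ModularGroup.S • z : ℍ) : ℂ) := by
  have h2 := f34_Fh_S F1 r z
  rw [f34_Fh_DD F1 r hz] at h2
  linear_combination h2

theorem locExt_circle (F1 : ℂ → ℂ) (r : ℝ) (h1 : IsF1 F1 r) {z : ℍ} (hz : ‖(z : ℂ)‖ = 1)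
    (hx : |z.re| < 1) : LocExt (Fh F1 r) UU z := by
  obtain ⟨ε1, hε1, FF, hFF, hout, hin⟩ := h1.cross (z : ℂ) hz z.im_pos
  have hopen : IsOpen {w : ℂ | 0 < w.im ∧ |w.re| < 1 ∧ |w.re| < ‖w‖ ^ 2} := by
    apply (isOpen_lt continuous_const Complex.continuous_im).inter
    exact (isOpen_lt (continuous_abs.comp Complex.continuous_re) continuous_const).inter
      (isOpen_lt (continuous_abs.comp Complex.continuous_re) (continuous_norm.pow 2))
  obtain ⟨ε2, hε2, hball⟩ := Metric.isOpen_iff.mp hopen (z : ℂ)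
    ⟨z.im_pos, hx, by rw [hz]; simpa using hx⟩
  have hsub1 : Metric.ball (z : ℂ) (min ε1 ε2) ⊆ Metric.ball (z : ℂ) ε1 :=
    Metric.ball_subset_ball (min_le_left _ _)
  have hsub2 : Metric.ball (z : ℂ) (min ε1 ε2) ⊆ Metric.ball (z : ℂ) ε2 :=
    Metric.ball_subset_ball (min_le_right _ _)
  refine ⟨fun w => FF w / jacobiTheta w, min ε1 ε2, lt_min hε1 hε2,
    fun w hw => (hball (hsub2 hw)).1, ?_, ?_⟩
  · apply DifferentiableOn.div (hFF.mono hsub1)
    · intro w hw
      exact (differentiableAt_jacobiTheta (hball (hsub2 hw)).1).differentiableWithinAt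
    · intro w hw
      exact theta_ne_zero ⟨w, (hball (hsub2 hw)).1⟩
  · intro w hw hwU
    obtain ⟨h2, h3, h4⟩ := hball (hsub2 hw)
    have hwre : (w : ℂ).re = w.re := rfl
    have hne := norm_ne_one_of_UU hwU h3
    rcases lt_or_gt_of_ne hne with hlt | hgt
    · -- below the circle
      have hw0 : (w : ℂ) ≠ 0 := w.ne_zero
      have hn0 : 0 < ‖(w : ℂ)‖ := norm_pos_iff.mpr hw0
      have hS : ModularGroup.S • w ∈ DD := by
        constructor
        · have hre2 : (ModularGroup.S • w : ℍ).re = ((ModularGroup.S • w : ℍ) : ℂ).re := rfl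
          rw [hre2, f34_coe_S]
          have h5 : (-1 / (w : ℂ)).re = -((w : ℂ).re / ‖(w : ℂ)‖ ^ 2) := by
            rw [neg_div, Complex.neg_re, one_div, Complex.inv_re, Complex.normSq_eq_norm_sq]
          rw [h5, abs_neg, abs_div, abs_of_pos (pow_pos hn0 2), div_lt_one (pow_pos hn0 2)]
          exact h4
        · rw [f34_coe_S, norm_div, norm_neg, norm_one, lt_div_iff₀ hn0, one_mul]
          exact hlt
      rw [Fh_below F1 r h1 hS]
      have h5 := hin (w : ℂ) (hsub1 hw) w.im_pos hlt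
      have h6 := jacobiTheta_S_smul w
      have h7 : (-I * (w : ℂ)) ≠ 0 := mul_ne_zero (neg_ne_zero.mpr I_ne_zero) hw0
      have h8 : (-I * (w : ℂ)) ^ (-(1 / 2) : ℂ) = ((-I * (w : ℂ)) ^ (1 / 2 : ℂ))⁻¹ := by
        rw [Complex.cpow_neg]
      have h9 : (-I * (w : ℂ)) ^ (1 / 2 : ℂ) ≠ 0 := by
        rw [Complex.cpow_ne_zero_iff]
        left; exact h7
      have h10 := theta_ne_zero w
      unfold phh
      rw [h6, f34_coe_S]
      show _ = FF (w : ℂ) / jacobiTheta (w : ℂ)
      rw [h5, h8]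
      field_simp
      ring
    · -- above the circle
      rw [f34_Fh_DD F1 r (z := w) ⟨h3, hgt⟩]
      show _ = FF (w : ℂ) / jacobiTheta (w : ℂ)
      rw [hout (w : ℂ) (hsub1 hw) w.im_pos hgt]

end RV11
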