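import Pool.Agent.LibRV11.F32
import Pool.Agent.LibRV11.F33
open Complex Real MeasureTheory
open UpperHalfPlane hiding I
open scoped MatrixGroups

namespace RV11

/-! ### F35: transport and gluing -/

theorem smul_coe_F35 (g : SL(2, ℤ)) (z : ℍ) :
    ((g • z : ℍ) : ℂ) = ((g 0 0 : ℂ) * (z : ℂ) + (g 0 1 : ℂ)) / ((g 1 0 : ℂ) * (z : ℂ) + (g 1 1 : ℂ)) := by
  rw [UpperHalfPlane.coe_specialLinearGroup_apply]
  simp

theorem denom_ne_F35 (g : SL(2, ℤ)) (w : ℂ) (hw : 0 < w.im) :
    (g 1 0 : ℂ) * w + (g 1 1 : ℂ) ≠ 0 := by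
  intro h
  have him := congrArg Complex.im h
  have hre := congrArg Complex.re h
  simp at him hre
  have hc : g 1 0 = 0 := by
    rcases him with h1 | h1
    · exact_mod_cast h1
    · exact absurd h1 hw.ne'
  rw [hc] at hre
  simp at hre
  have hd : g 1 1 = 0 := by exact_mod_cast hre
  have hdet := g.det_coe
  rw [Matrix.det_fin_two, hc, hd] at hdet
  simp at hdet

theorem continuous_smul_F35 (g : SL(2, ℤ)) : Continuous (fun z : ℍ => g • z) := by
  rw [UpperHalfPlane.isOpenEmbedding_coe.isInducing.continuous_iff]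
  have : (UpperHalfPlane.coe ∘ fun z : ℍ => g • z) = fun z : ℍ =>
      ((g 0 0 : ℂ) * (z : ℂ) + (g 0 1 : ℂ)) / ((g 1 0 : ℂ) * (z : ℂ) + (g 1 1 : ℂ)) := by
    funext z
    exact smul_coe_F35 g z
  rw [this]
  refine Continuous.div ?_ ?_ ?_
  · exact (continuous_const.mul UpperHalfPlane.continuous_coe).add continuous_const
  · exact (continuous_const.mul UpperHalfPlane.continuous_coe).add continuous_const
  · intro z
    exact denom_ne_F35 g z z.im_pos

theorem isOpen_DD_F35 : IsOpen DD := by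
  have h1 : IsOpen {z : ℍ | |z.re| < 1} :=
    isOpen_lt (continuous_abs.comp UpperHalfPlane.continuous_re) continuous_const
  have h2 : IsOpen {z : ℍ | 1 < ‖(z : ℂ)‖} :=
    isOpen_lt continuous_const (continuous_norm.comp UpperHalfPlane.continuous_coe)
  exact h1.inter h2

theorem isOpen_UU : IsOpen UU := by
  have : UU = ⋃ g ∈ Gam, (fun z : ℍ => g • z) ⁻¹' DD := by
    ext z
    simp [UU]
  rw [this]
  exact isOpen_biUnion fun g _ => isOpen_DD_F35.preimage (continuous_smul_F35 g)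

theorem isOpenPos_F35 : Measure.IsOpenPosMeasure (volume : Measure ℍ) := by
  constructor
  intro U hU hne h0
  rw [volume_eq_lintegral] at h0
  have hUo : IsOpen (UpperHalfPlane.coe '' U) := UpperHalfPlane.isOpenEmbedding_coe.isOpenMap U hU
  have hpos : 0 < volume (UpperHalfPlane.coe '' U) := hUo.measure_pos _ (hne.image _)
  have hsub : UpperHalfPlane.coe '' U ⊆ {z : ℂ | 0 < z.im} := by
    rintro _ ⟨z, _, rfl⟩
    exact z.im_pos
  have h1 : 0 < ∫⁻ z : ℂ in (UpperHalfPlane.coe '' U), ↑((1 / ‖z.im‖₊) ^ 2 : NNReal) := by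
    rw [setLIntegral_pos_iff]
    · refine lt_of_lt_of_le hpos (measure_mono ?_)
      intro z hz
      refine ⟨?_, hz⟩
      have := hsub hz
      simp only [Set.mem_ofPred_eq] at this
      simp only [Function.mem_support, ne_eq, ENNReal.coe_eq_zero]
      have h2 : ‖z.im‖₊ ≠ 0 := by simpa using this.ne'
      positivity
    · fun_prop
  exact h1.ne' h0

theorem dense_UU : Dense UU := by
  have := isOpenPos_F35
  exact Measure.dense_of_ae ae_exists_smul_mem_DD

theorem smul_mem_UU {g : SL(2, ℤ)} (hg : g ∈ Gam) {z : ℍ} : g • z ∈ UU ↔ z ∈ UU := by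
  constructor
  · rintro ⟨h, hh, hz⟩
    exact ⟨h * g, Gam.mul_mem hh hg, by rwa [mul_smul]⟩
  · rintro ⟨h, hh, hz⟩
    refine ⟨h * g⁻¹, Gam.mul_mem hh (Gam.inv_mem hg), ?_⟩
    rw [mul_smul, inv_smul_smul]
    exact hz

theorem Fh_sub (F1 : ℂ → ℂ) (r : ℝ) {g : SL(2, ℤ)} (hg : g ∈ Gam) (z : ℍ) :
    Fh F1 r z - phh r z = chi g * (Fh F1 r (g • z) - phh r (g • z)) + Rem r g z := by
  have h1 := G0_smul F1 r hg z
  have h2 := ThG_sub r hg z
  have h3 := chi_mul_self g
  simp only [Fh]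
  rw [← h2, h1]
  linear_combination (-(G0 F1 r z)) * h3

theorem phh_hol_F35 (r : ℝ) : DifferentiableOn ℂ (fun w : ℂ => phh r (ofComplex w)) {w | 0 < w.im} := by
  have : DifferentiableOn ℂ (fun w : ℂ => cexp (π * Complex.I * r * w) / jacobiTheta w) {w | 0 < w.im} := by
    intro w hw
    refine DifferentiableAt.differentiableWithinAt ?_
    refine DifferentiableAt.div (by fun_prop) (differentiableAt_jacobiTheta hw) ?_
    exact theta_ne_zero ⟨w, hw⟩
  refine this.congr ?_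
  intro w hw
  simp only [Set.mem_ofPred_eq] at hw
  simp only [phh, UpperHalfPlane.ofComplex_apply_of_im_pos hw]

theorem mob_hol_F35 (g : SL(2, ℤ)) :
    DifferentiableOn ℂ (fun w : ℂ => ((g 0 0 : ℂ) * w + (g 0 1 : ℂ)) / ((g 1 0 : ℂ) * w + (g 1 1 : ℂ)))
      {w | 0 < w.im} := by
  intro w hw
  refine DifferentiableAt.differentiableWithinAt ?_
  exact DifferentiableAt.div (by fun_prop) (by fun_prop) (denom_ne_F35 g w hw)

/-- transport of local extensions -/
theorem locExt_smul (F1 : ℂ → ℂ) (r : ℝ) {g : SL(2, ℤ)} (hg : g ∈ Gam) {z : ℍ}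
    (h : LocExt (Fh F1 r) UU (g • z)) : LocExt (Fh F1 r) UU z := by
  obtain ⟨k, ε, hε, hsub, hk, hkf⟩ := h
  set m : ℂ → ℂ := fun w => ((g 0 0 : ℂ) * w + (g 0 1 : ℂ)) / ((g 1 0 : ℂ) * w + (g 1 1 : ℂ)) with hm
  have hopen : IsOpen {w : ℂ | 0 < w.im} := isOpen_lt continuous_const Complex.continuous_im
  have hmc : ContinuousAt m (z : ℂ) :=
    ((mob_hol_F35 g).differentiableAt (hopen.mem_nhds z.im_pos)).continuousAt
  have hmz : m z = ((g • z : ℍ) : ℂ) := (smul_coe_F35 g z).symm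
  have hnh : m ⁻¹' (Metric.ball ((g • z : ℍ) : ℂ) ε) ∈ nhds (z : ℂ) := by
    apply hmc
    rw [hmz]
    exact Metric.ball_mem_nhds _ hε
  obtain ⟨δ, hδ, hδs⟩ := Metric.mem_nhds_iff.1 (Filter.inter_mem hnh (hopen.mem_nhds z.im_pos))
  have hδ1 : ∀ w ∈ Metric.ball (z : ℂ) δ, m w ∈ Metric.ball ((g • z : ℍ) : ℂ) ε :=
    fun w hw => (hδs hw).1
  have hδ2 : Metric.ball (z : ℂ) δ ⊆ {w : ℂ | 0 < w.im} := fun w hw => (hδs hw).2
  refine ⟨fun w => phh r (ofComplex w) + chi g * (k (m w) - phh r (ofComplex (m w))) +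
    Rem r g (ofComplex w), δ, hδ, hδ2, ?_, ?_⟩
  · have hd1 := (phh_hol_F35 r).mono hδ2
    have hd2 : DifferentiableOn ℂ (fun w => k (m w)) (Metric.ball (z : ℂ) δ) :=
      hk.comp ((mob_hol_F35 g).mono hδ2) hδ1
    have hd3 : DifferentiableOn ℂ (fun w => phh r (ofComplex (m w))) (Metric.ball (z : ℂ) δ) :=
      (phh_hol_F35 r).comp ((mob_hol_F35 g).mono hδ2) (fun w hw => hsub (hδ1 w hw))
    have hd4 := (Rem_hol r hg).mono hδ2
    exact (hd1.add ((hd2.sub hd3).const_mul _)).add hd4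
  · intro w hw hwU
    have h1 : ofComplex (w : ℂ) = w := UpperHalfPlane.ofComplex_apply w
    have h2 : m w = ((g • w : ℍ) : ℂ) := (smul_coe_F35 g w).symm
    have h3 : ofComplex (((g • w : ℍ) : ℂ)) = g • w := UpperHalfPlane.ofComplex_apply _
    have h4 : Fh F1 r (g • w) = k ((g • w : ℍ) : ℂ) := by
      apply hkf
      · rw [← h2]
        exact hδ1 _ hw
      · exact (smul_mem_UU hg).2 hwU
    have h5 := Fh_sub F1 r hg w
    simp only [h1, h2, h3]
    rw [← h4]
    linear_combination h5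

/-- gluing -/
theorem glue (f : ℍ → ℂ) (U : Set ℍ) (hU : Dense U) (hU' : IsOpen U) (h : ∀ z, LocExt f U z) :
    ∃ k : ℂ → ℂ, DifferentiableOn ℂ k {w | 0 < w.im} ∧ ∀ z : ℍ, z ∈ U → f z = k z := by
  classical
  choose kk ε hε hsub hk hkf using h
  have hopen : IsOpen {w : ℂ | 0 < w.im} := isOpen_lt continuous_const Complex.continuous_im
  -- two local extensions agree
  have key : ∀ (a b : ℍ) (w : ℍ), (w : ℂ) ∈ Metric.ball (a : ℂ) (ε a) →
      (w : ℂ) ∈ Metric.ball (b : ℂ) (ε b) → kk a w = kk b w := by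
    intro a b w ha hb
    have hca : ContinuousAt (kk a) (w : ℂ) :=
      ((hk a).differentiableAt (Metric.isOpen_ball.mem_nhds ha)).continuousAt
    have hcb : ContinuousAt (kk b) (w : ℂ) :=
      ((hk b).differentiableAt (Metric.isOpen_ball.mem_nhds hb)).continuousAt
    have hcc : ContinuousAt (fun v : ℍ => (v : ℂ)) w := UpperHalfPlane.continuous_coe.continuousAt
    have hta : Filter.Tendsto (fun v : ℍ => kk a v) (nhdsWithin w U) (nhds (kk a w)) :=
      (ContinuousAt.comp (f := fun v : ℍ => (v : ℂ)) (g := kk a) hca hcc).tendsto.mono_left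
        nhdsWithin_le_nhds
    have htb : Filter.Tendsto (fun v : ℍ => kk b v) (nhdsWithin w U) (nhds (kk b w)) :=
      (ContinuousAt.comp (f := fun v : ℍ => (v : ℂ)) (g := kk b) hcb hcc).tendsto.mono_left
        nhdsWithin_le_nhds
    have : (nhdsWithin w U).NeBot := mem_closure_iff_nhdsWithin_neBot.1 (hU w)
    refine tendsto_nhds_unique hta (htb.congr' ?_)
    have e1 : ∀ᶠ v : ℍ in nhds w, (v : ℂ) ∈ Metric.ball (a : ℂ) (ε a) :=
      hcc.eventually (Metric.isOpen_ball.mem_nhds ha)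
    have e2 : ∀ᶠ v : ℍ in nhds w, (v : ℂ) ∈ Metric.ball (b : ℂ) (ε b) :=
      hcc.eventually (Metric.isOpen_ball.mem_nhds hb)
    filter_upwards [nhdsWithin_le_nhds e1, nhdsWithin_le_nhds e2, self_mem_nhdsWithin] with v v1 v2 v3
    rw [← hkf a v v1 v3, ← hkf b v v2 v3]
  refine ⟨fun w => kk (ofComplex w) w, ?_, ?_⟩
  · intro w hw
    refine DifferentiableAt.differentiableWithinAt ?_
    set a : ℍ := ⟨w, hw⟩ with ha
    have hwa : (a : ℂ) = w := rfl
    have hda : DifferentiableAt ℂ (kk a) w :=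
      (hk a).differentiableAt (Metric.isOpen_ball.mem_nhds (by
        rw [← hwa]; exact Metric.mem_ball_self (hε a)))
    refine hda.congr_of_eventuallyEq ?_
    have hn : Metric.ball (a : ℂ) (ε a) ∈ nhds w := by
      rw [← hwa]
      exact Metric.ball_mem_nhds _ (hε a)
    filter_upwards [hn, hopen.mem_nhds hw] with v hv hv'
    have hv'' : ofComplex v = (⟨v, hv'⟩ : ℍ) := UpperHalfPlane.ofComplex_apply_of_im_pos hv'
    rw [hv'']
    exact key ⟨v, hv'⟩ a ⟨v, hv'⟩ (Metric.mem_ball_self (hε _)) hv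
  · intro z hz
    have h1 : ofComplex (z : ℂ) = z := UpperHalfPlane.ofComplex_apply z
    simp only [h1]
    exact hkf z z (Metric.mem_ball_self (hε z)) hz

end RV11
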