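import Pool.Agent.LibRV11.F1main
import Pool.Agent.LibRV11.F34
import Pool.Agent.LibRV11.F35
open Complex Real MeasureTheory
open UpperHalfPlane hiding I
open scoped MatrixGroups

namespace RV11

/-! ### F36: assembly of module F -/

private theorem f36_coe_T2 (z : ℍ) : ((ModularGroup.T ^ 2 • z : ℍ) : ℂ) = (z : ℂ) + 2 := by
  have : ModularGroup.T ^ (2 : ℕ) = ModularGroup.T ^ (2 : ℤ) := rfl
  rw [this, UpperHalfPlane.modular_T_zpow_smul, UpperHalfPlane.coe_vadd]
  push_cast
  ring

private theorem f36_coe_S (z : ℍ) : ((ModularGroup.S • z : ℍ) : ℂ) = -1 / (z : ℂ) := by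
  rw [UpperHalfPlane.modular_S_smul]
  simp [neg_div, inv_neg]

private theorem f36_theta_add_two (w : ℂ) : jacobiTheta (w + 2) = jacobiTheta w := by
  rw [add_comm, jacobiTheta_two_add]

private theorem f36_phh_T2 (r : ℝ) (z : ℍ) :
    phh r (ModularGroup.T ^ 2 • z) = cexp (2 * π * I * r) * phh r z := by
  unfold phh
  rw [f36_coe_T2, f36_theta_add_two, ← mul_div_assoc, ← Complex.exp_add]
  congr 2
  ring

private theorem f36_chi_T2 : chi (ModularGroup.T ^ 2) = 1 := by
  have : (ModularGroup.T ^ 2) 1 0 = 0 := by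
    rw [pow_two, Matrix.SpecialLinearGroup.coe_mul, ModularGroup.coe_T, Matrix.mul_apply]
    simp [Fin.sum_univ_two]
  rw [chi, this]
  simp

private theorem f36_chi_S : chi ModularGroup.S = -1 := by
  rw [chi]
  simp [ModularGroup.S]

private theorem f36_Fh_T2 (F1 : ℂ → ℂ) (r : ℝ) (z : ℍ) :
    Fh F1 r (ModularGroup.T ^ 2 • z) = Fh F1 r z := by
  have h1 := Fh_sub F1 r T2_mem_Gam z
  rw [Rem_T, f36_chi_T2, one_mul, f36_phh_T2, om] at h1
  linear_combination -h1

private theorem f36_Fh_S (F1 : ℂ → ℂ) (r : ℝ) (z : ℍ) :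
    Fh F1 r z + Fh F1 r (ModularGroup.S • z) = phh r z + phh r (ModularGroup.S • z) := by
  have h1 := Fh_sub F1 r S_mem_Gam z
  rw [Rem_S, f36_chi_S] at h1
  linear_combination h1

private theorem f36_S_im {z : ℂ} (hz : 0 < z.im) : 0 < (-1 / z).im := by
  have hz0 : z ≠ 0 := by rintro rfl; simp at hz
  rw [neg_div, one_div, neg_im, inv_im, neg_div, neg_neg]
  exact div_pos hz (Complex.normSq_pos.mpr hz0)

theorem exists_Fhat (F1 : ℂ → ℂ) (r : ℝ) (h1 : IsF1 F1 r) :
    ∃ k : ℂ → ℂ, DifferentiableOn ℂ k {w | 0 < w.im} ∧ (∀ z : ℍ, z ∈ UU → Fh F1 r z = k z) ∧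
      (∀ z : ℂ, 0 < z.im → k (z + 2) = k z) ∧
      (∀ z : ℂ, 0 < z.im → k z + k (-1 / z) =
        cexp (π * I * r * z) / jacobiTheta z + cexp (π * I * r * (-1 / z)) / jacobiTheta (-1 / z)) := by
  have hloc : ∀ z : ℍ, LocExt (Fh F1 r) UU z := by
    intro z
    obtain ⟨g, hg, hre, hnorm⟩ := exists_smul_mem z
    apply locExt_smul F1 r hg
    rcases lt_or_eq_of_le hre with h2 | h2
    · rcases lt_or_eq_of_le hnorm with h3 | h3
      · exact locExt_DD F1 r h1 ⟨h2, h3⟩
      · exact locExt_circle F1 r h1 h3.symm h2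
    · exact locExt_side F1 r h1 h2
  obtain ⟨k, hk, hkU⟩ := glue (Fh F1 r) UU dense_UU isOpen_UU hloc
  have hcont : ContinuousOn k {w | 0 < w.im} := hk.continuousOn
  have hc1 : Continuous fun z : ℍ => k (z : ℂ) :=
    hcont.comp_continuous UpperHalfPlane.continuous_coe fun z => z.im_pos
  have hc2 : Continuous fun z : ℍ => k ((z : ℂ) + 2) :=
    hcont.comp_continuous (UpperHalfPlane.continuous_coe.add continuous_const) fun z => by
      simpa using z.im_pos
  have hSc : Continuous fun z : ℍ => (-1 / (z : ℂ)) :=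
    continuous_const.div UpperHalfPlane.continuous_coe fun z => z.ne_zero
  have hc3 : Continuous fun z : ℍ => k (-1 / (z : ℂ)) :=
    hcont.comp_continuous hSc fun z => f36_S_im z.im_pos
  have hθc : ContinuousOn jacobiTheta {w : ℂ | 0 < w.im} := fun w hw =>
    (differentiableAt_jacobiTheta hw).continuousAt.continuousWithinAt
  have hc4 : Continuous fun z : ℍ => cexp (π * I * r * (z : ℂ)) / jacobiTheta (z : ℂ) := by
    apply Continuous.div
    · exact Complex.continuous_exp.comp (continuous_const.mul UpperHalfPlane.continuous_coe)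
    · exact hθc.comp_continuous UpperHalfPlane.continuous_coe fun z => z.im_pos
    · exact fun z => theta_ne_zero z
  have hc5 : Continuous fun z : ℍ => cexp (π * I * r * (-1 / (z : ℂ))) /
      jacobiTheta (-1 / (z : ℂ)) := by
    apply Continuous.div
    · exact Complex.continuous_exp.comp (continuous_const.mul hSc)
    · exact hθc.comp_continuous hSc fun z => f36_S_im z.im_pos
    · exact fun z => theta_ne_zero ⟨_, f36_S_im z.im_pos⟩
  refine ⟨k, hk, hkU, ?_, ?_⟩
  · have heq : (fun z : ℍ => k ((z : ℂ) + 2)) = fun z : ℍ => k (z : ℂ) := by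
      apply Continuous.ext_on dense_UU hc2 hc1
      intro z hz
      have h2 : ModularGroup.T ^ 2 • z ∈ UU := (smul_mem_UU T2_mem_Gam).mpr hz
      have h3 := hkU _ h2
      rw [f36_coe_T2, f36_Fh_T2, hkU z hz] at h3
      exact h3.symm
    intro z hz
    exact congrFun heq ⟨z, hz⟩
  · have heq : (fun z : ℍ => k (z : ℂ) + k (-1 / (z : ℂ))) = fun z : ℍ =>
        cexp (π * I * r * (z : ℂ)) / jacobiTheta (z : ℂ) +
          cexp (π * I * r * (-1 / (z : ℂ))) / jacobiTheta (-1 / (z : ℂ)) := by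
      apply Continuous.ext_on dense_UU (hc1.add hc3) (hc4.add hc5)
      intro z hz
      have h2 : ModularGroup.S • z ∈ UU := (smul_mem_UU S_mem_Gam).mpr hz
      have h3 := hkU _ h2
      have h4 := f36_Fh_S F1 r z
      rw [h3, hkU z hz] at h4
      unfold phh at h4
      rw [f36_coe_S] at h4
      exact h4
    intro z hz
    exact congrFun heq ⟨z, hz⟩

theorem F_main' : ∃ C : ℝ, ∀ r : ℝ, 0 ≤ r → ∃ (F : ℂ → ℂ) (G0 : ℍ → ℂ),
    DifferentiableOn ℂ F {z | 0 < z.im} ∧
    (∀ z : ℂ, 0 < z.im → F (z + 2) = F z) ∧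
    (∀ z : ℂ, 0 < z.im → F z + (-I * z) ^ (-(1 / 2) : ℂ) * F (-1 / z) =
      cexp (π * I * r * z) + (-I * z) ^ (-(1 / 2) : ℂ) * cexp (π * I * r * (-1 / z))) ∧
    (∀ z : ℂ, 2 ≤ z.im → ‖F z‖ ≤ C) ∧
    Measurable G0 ∧ (∀ g ∈ Gam, ∀ z, G0 (g • z) = chi g * G0 z) ∧
    (∫⁻ z in DD, ‖G0 z‖ₑ ^ 2 * ENNReal.ofReal (W z)) ≤ ENNReal.ofReal C ∧
    (∀ᵐ z : ℍ, z ∈ Strip → F z = jacobiTheta z * (phh r z + G0 z + Th r z)) := by
  obtain ⟨C, hC⟩ := F1_main
  refine ⟨C, fun r hr => ?_⟩
  obtain ⟨F1, hd, hper, hbd, hint, hcross⟩ := hC r hr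
  have h1 : IsF1 F1 r := ⟨hd, fun z hz hk => hper z ⟨hz, hk⟩, hcross⟩
  obtain ⟨k, hk, hkU, hk2, hkS⟩ := exists_Fhat F1 r h1
  have hθd : DifferentiableOn ℂ jacobiTheta {w : ℂ | 0 < w.im} := fun w hw =>
    (differentiableAt_jacobiTheta hw).differentiableWithinAt
  have hF2 : ∀ z : ℂ, 0 < z.im → jacobiTheta (z + 2) * k (z + 2) = jacobiTheta z * k z := by
    intro z hz
    rw [f36_theta_add_two, hk2 z hz]
  refine ⟨fun z => jacobiTheta z * k z, G0 F1 r, hθd.mul hk, hF2, ?_, ?_, measurable_G0 F1 r h1,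
    fun g hg z => G0_smul F1 r hg z, ?_, ?_⟩
  · intro z hz
    have hz0 : z ≠ 0 := by rintro rfl; simp at hz
    have h6 : jacobiTheta (-1 / z) = (-I * z) ^ (1 / 2 : ℂ) * jacobiTheta z := by
      have := jacobiTheta_S_smul ⟨z, hz⟩
      rw [f36_coe_S] at this
      exact this
    have h7 : (-I * z) ≠ 0 := mul_ne_zero (neg_ne_zero.mpr I_ne_zero) hz0
    have h8 : (-I * z) ^ (-(1 / 2) : ℂ) = ((-I * z) ^ (1 / 2 : ℂ))⁻¹ := by
      rw [Complex.cpow_neg]
    have h9 : (-I * z) ^ (1 / 2 : ℂ) ≠ 0 := by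
      rw [Complex.cpow_ne_zero_iff]
      left; exact h7
    have h10 : jacobiTheta z ≠ 0 := theta_ne_zero ⟨z, hz⟩
    have h11 := hkS z hz
    rw [h6] at h11
    beta_reduce
    rw [h6, h8]
    have h12 : jacobiTheta z * k z + ((-I * z) ^ (1 / 2 : ℂ))⁻¹ *
        ((-I * z) ^ (1 / 2 : ℂ) * jacobiTheta z * k (-1 / z)) =
        jacobiTheta z * (k z + k (-1 / z)) := by
      field_simp
    rw [h12, h11]
    field_simp
  · -- boundedness
    have hV : IsOpen {z : ℍ | 1 < z.im ∧ |z.re| < 2} :=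
      (isOpen_lt continuous_const UpperHalfPlane.continuous_im).inter
        (isOpen_lt (continuous_abs.comp UpperHalfPlane.continuous_re) continuous_const)
    have hdist : ∀ z : ℂ, 1 < z.im → ∀ j : ℤ, 1 < ‖z - 2 * j‖ := by
      intro z hz j
      have h2 := Complex.abs_im_le_norm (z - 2 * j)
      have h3 : (z - 2 * j).im = z.im := by simp
      rw [h3] at h2
      exact lt_of_lt_of_le (lt_of_lt_of_le hz (le_abs_self _)) h2
    have hVeq : ∀ z : ℍ, 1 < z.im → |z.re| < 2 → jacobiTheta z * k z = F1 z := by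
      intro z hz1 hz2
      have hzV : z ∈ {z : ℍ | 1 < z.im ∧ |z.re| < 2} := ⟨hz1, hz2⟩
      have hcl : z ∈ closure ({z : ℍ | 1 < z.im ∧ |z.re| < 2} ∩ UU) :=
        dense_UU.open_subset_closure_inter hV hzV
      have hne : (nhdsWithin z ({z : ℍ | 1 < z.im ∧ |z.re| < 2} ∩ UU)).NeBot :=
        mem_closure_iff_nhdsWithin_neBot.mp hcl
      have hopen1 : IsOpen {w : ℂ | 1 < w.im} := isOpen_lt continuous_const Complex.continuous_im
      have hc1 : ContinuousAt (fun z : ℍ => jacobiTheta (z : ℂ) * k (z : ℂ)) z := by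
        have : ContinuousOn (fun w : ℂ => jacobiTheta w * k w) {w | 0 < w.im} :=
          (hθd.mul hk).continuousOn
        exact (this.comp_continuous UpperHalfPlane.continuous_coe fun z => z.im_pos).continuousAt
      have hc2 : ContinuousAt (fun z : ℍ => F1 (z : ℂ)) z := by
        have h2 : DifferentiableOn ℂ F1 {w : ℂ | 1 < w.im} := by
          apply h1.diff.mono
          intro w hw
          exact ⟨lt_trans one_pos hw, hdist w hw⟩
        have h3 : ContinuousAt F1 (z : ℂ) :=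
          (h2.continuousOn).continuousAt (hopen1.mem_nhds hz1)
        exact ContinuousAt.comp (f := fun z : ℍ => (z : ℂ)) h3
          UpperHalfPlane.continuous_coe.continuousAt
      have ht1 := hc1.tendsto.mono_left
        (nhdsWithin_le_nhds (s := {z : ℍ | 1 < z.im ∧ |z.re| < 2} ∩ UU))
      have ht2 := hc2.tendsto.mono_left
        (nhdsWithin_le_nhds (s := {z : ℍ | 1 < z.im ∧ |z.re| < 2} ∩ UU))
      refine tendsto_nhds_unique (ht1.congr' ?_) ht2
      filter_upwards [self_mem_nhdsWithin] with w hw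
      obtain ⟨⟨hw1, hw2⟩, hwU⟩ := hw
      have h2 := Fh_side F1 r h1 hwU (hdist (w : ℂ) hw1) hw2
      rw [hkU w hwU] at h2
      rw [h2, mul_div_cancel₀ _ (theta_ne_zero w)]
    intro z hz
    show ‖jacobiTheta z * k z‖ ≤ C
    -- integer translates
    have hperZ : ∀ (m : ℤ) (w : ℂ), 0 < w.im →
        jacobiTheta (w + 2 * m) * k (w + 2 * m) = jacobiTheta w * k w := by
      intro m
      induction m using Int.induction_on with
      | zero => intro w _; simp
      | succ n ih =>
        intro w hw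
        have h2 : w + 2 * ((n : ℤ) + 1 : ℤ) = (w + 2 * (n : ℤ)) + 2 := by push_cast; ring
        rw [h2, hF2 _ (by simpa using hw)]
        exact ih w hw
      | pred n ih =>
        intro w hw
        have h2 : w + 2 * (-(n : ℤ) : ℤ) = (w + 2 * (-(n : ℤ) - 1 : ℤ)) + 2 := by push_cast; ring
        have h3 := ih w hw
        rw [h2, hF2 _ (by simpa using hw)] at h3
        exact h3
    set m : ℤ := round (z.re / 2) with hm
    have h2 : |z.re / 2 - m| ≤ 1 / 2 := abs_sub_round _
    have hz' : 0 < (z - 2 * m).im := by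
      have : (z - 2 * m).im = z.im := by simp
      rw [this]; linarith
    have h3 := hperZ m (z - 2 * m) hz'
    rw [sub_add_cancel] at h3
    rw [h3]
    have h4 := hVeq ⟨z - 2 * m, hz'⟩ (by
      show 1 < (z - 2 * m).im
      have : (z - 2 * m).im = z.im := by simp
      rw [this]; linarith) (by
      show |(z - 2 * m).re| < 2
      have h5 : (z - 2 * m).re = z.re - 2 * m := by simp
      rw [h5]
      have h6 : z.re - 2 * m = 2 * (z.re / 2 - m) := by ring
      rw [h6, abs_mul, abs_two]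
      linarith)
    have h5 : jacobiTheta (z - 2 * m) * k (z - 2 * m) = F1 (z - 2 * m) := h4
    rw [h5]
    apply hbd
    have : (z - 2 * m).im = z.im := by simp
    rw [this]
    exact hz
  · have hDD : MeasurableSet DD := by
      apply IsOpen.measurableSet
      exact (isOpen_lt (continuous_abs.comp UpperHalfPlane.continuous_re) continuous_const).inter
        (isOpen_lt continuous_const (continuous_norm.comp UpperHalfPlane.continuous_coe))
    refine le_trans (le_of_eq ?_) hint
    apply setLIntegral_congr_fun hDD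
    intro z hz
    simp only [G0_DD F1 r hz]
  · filter_upwards [ae_exists_smul_mem_DD] with z hz hzS
    have hzU : z ∈ UU := hz
    have h2 := hkU z hzU
    show jacobiTheta z * k z = _
    rw [← h2, Fh, ThG_strip r hzS]

end RV11
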