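import Pool.Agent.LibRV11.Defs
import Pool.Agent.LibRV11.F36
open Complex Real MeasureTheory
open UpperHalfPlane hiding I
open scoped MatrixGroups

namespace RV11

theorem F_main : ∃ C : ℝ, ∀ r : ℝ, 0 ≤ r → ∃ (F : ℂ → ℂ) (G0 : ℍ → ℂ),
    DifferentiableOn ℂ F {z | 0 < z.im} ∧
    (∀ z : ℂ, 0 < z.im → F (z + 2) = F z) ∧
    (∀ z : ℂ, 0 < z.im → F z + (-I * z) ^ (-(1 / 2) : ℂ) * F (-1 / z) =
      cexp (π * I * r * z) + (-I * z) ^ (-(1 / 2) : ℂ) * cexp (π * I * r * (-1 / z))) ∧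
    (∀ z : ℂ, 2 ≤ z.im → ‖F z‖ ≤ C) ∧
    Measurable G0 ∧ (∀ g ∈ Gam, ∀ z, G0 (g • z) = chi g * G0 z) ∧
    (∫⁻ z in DD, ‖G0 z‖ₑ ^ 2 * ENNReal.ofReal (W z)) ≤ ENNReal.ofReal C ∧
    (∀ᵐ z : ℍ, z ∈ Strip → F z = jacobiTheta z * (phh r z + G0 z + Th r z)) :=
  F_main'

end RV11
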