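import Pool.Agent.LibRV11.Defs
import Pool.Agent.LibRV11.ModF
import Pool.Agent.LibRV11.ModA
import Pool.Agent.LibRV11.Asm1
import Pool.Agent.LibRV11.Asm2
import Pool.Agent.LibRV11.Asm3
import Pool.Agent.LibRV11.Asm4
import Pool.Agent.LibRV11.Asm6
import Pool.Agent.LibRV11.Asm7
import Pool.Agent.LibRV11.Asm8
import Pool.Agent.LibRV11.Theta
import Pool.Agent.LibRV11.TH13
open Complex Real MeasureTheory
open UpperHalfPlane hiding I
open scoped MatrixGroups

namespace RV11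

/-- splitting of an integral into four parts, integrability of the last one follows -/
theorem asm9_split {α : Type*} [MeasurableSpace α] (μ : Measure α) (s : Set α)
    (hs : MeasurableSet s) (f f1 f2 f3 f4 : α → ℂ)
    (hf : IntegrableOn f s μ) (hf1 : IntegrableOn f1 s μ) (hf2 : IntegrableOn f2 s μ)
    (hf3 : IntegrableOn f3 s μ) (h : ∀ᵐ x ∂μ, x ∈ s → f x = f1 x + f2 x + f3 x + f4 x) :
    ∫ x in s, f x ∂μ = ∫ x in s, f1 x ∂μ + ∫ x in s, f2 x ∂μ + ∫ x in s, f3 x ∂μ +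
      ∫ x in s, f4 x ∂μ := by
  have h4 : ∫ x in s, f4 x ∂μ = ∫ x in s, (f x - f1 x - f2 x - f3 x) ∂μ := by
    refine setIntegral_congr_ae hs ?_
    filter_upwards [h] with x hx hxs
    rw [hx hxs]
    ring
  have hA : ∫ x in s, (f x - f1 x - f2 x - f3 x) ∂μ =
      ∫ x in s, f x ∂μ - ∫ x in s, f1 x ∂μ - ∫ x in s, f2 x ∂μ - ∫ x in s, f3 x ∂μ := by
    have i1 : IntegrableOn (fun x => f x - f1 x) s μ := hf.sub hf1
    have i2 : IntegrableOn (fun x => f x - f1 x - f2 x) s μ := i1.sub hf2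
    have e1 : ∫ x in s, (f x - f1 x - f2 x - f3 x) ∂μ =
        ∫ x in s, (f x - f1 x - f2 x) ∂μ - ∫ x in s, f3 x ∂μ := integral_sub i2 hf3
    have e2 : ∫ x in s, (f x - f1 x - f2 x) ∂μ =
        ∫ x in s, (f x - f1 x) ∂μ - ∫ x in s, f2 x ∂μ := integral_sub i1 hf2
    have e3 : ∫ x in s, (f x - f1 x) ∂μ = ∫ x in s, f x ∂μ - ∫ x in s, f1 x ∂μ :=
      integral_sub hf hf1
    rw [e1, e2, e3]
  rw [h4, hA]
  ring

theorem thmA : ∃ C : ℝ, ∀ r : ℝ, 0 ≤ r → ∃ c : ℕ → ℂ, (∀ n, ‖c n‖ ≤ C) ∧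
    ∀ τ : ℂ, 0 < τ.im →
      ∑' n : ℕ, c n * (cexp (π * I * n * τ) + (-I * τ) ^ (-(1 / 2) : ℂ) *
          cexp (π * I * n * (-1 / τ))) =
        cexp (π * I * r * τ) + (-I * τ) ^ (-(1 / 2) : ℂ) * cexp (π * I * r * (-1 / τ)) := by
  obtain ⟨CF, hF⟩ := F_main
  obtain ⟨h, hh, hpos⟩ := exists_bump
  obtain ⟨C1, h1⟩ := phi_part h hh
  obtain ⟨C2, n2, h2⟩ := G0_part h hh
  obtain ⟨C3, n3, h3⟩ := Uj_part h hh
  obtain ⟨C4, n4, h4⟩ := sum_j
  obtain ⟨C5, n5, h5⟩ := ThA_bound h hh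
  refine ⟨(|C1| + |C2| * Real.sqrt |CF| + |C3| * |C4| + |C5|) /
    (2 * ∫ Y in (1 : ℝ)..2, h Y / Y) +
    |CF| * Real.exp (2 * π * ((n2 + n3 + n4 + n5 + 1 : ℕ) : ℝ)), fun r hr => ?_⟩
  obtain ⟨F, G0, hd, hper, hfun, hbd, hGm, hGe, hGn, hae⟩ := hF r hr
  obtain ⟨c, hc1, hc2, hc3⟩ := fourier_coeff F hd hper CF hbd
  have hK : 0 ≤ (|C1| + |C2| * Real.sqrt |CF| + |C3| * |C4| + |C5|) /
    (2 * ∫ Y in (1 : ℝ)..2, h Y / Y) := by positivity
  have hK2 : 0 ≤ |CF| * Real.exp (2 * π * ((n2 + n3 + n4 + n5 + 1 : ℕ) : ℝ)) := by positivity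
  refine ⟨c, fun n => ?_, fun τ hτ => ?_⟩
  · by_cases hn : n < n2 + n3 + n4 + n5 + 1
    · have a1 := hc3 n
      have a2 : CF * Real.exp (2 * π * n) ≤
          |CF| * Real.exp (2 * π * ((n2 + n3 + n4 + n5 + 1 : ℕ) : ℝ)) := by
        refine mul_le_mul (le_abs_self _) ?_ (Real.exp_pos _).le (abs_nonneg _)
        refine Real.exp_le_exp.mpr ?_
        have : (n : ℝ) ≤ ((n2 + n3 + n4 + n5 + 1 : ℕ) : ℝ) := by exact_mod_cast hn.le
        have hpi := Real.pi_pos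
        nlinarith
      linarith
    · push Not at hn
      have hn1 : 1 ≤ n := by omega
      obtain ⟨J, hJ1, hJ2⟩ := h4 n (by omega)
      have b1 := h1 r hr n hn1
      have b1i := phi_integrable h hh r hr n hn1
      have hGn' : (∫⁻ z in DD, ‖G0 z‖ₑ ^ 2 * ENNReal.ofReal (W z)) ≤ ENNReal.ofReal |CF| :=
        hGn.trans (ENNReal.ofReal_le_ofReal (le_abs_self _))
      obtain ⟨b2i, b2⟩ := h2 n (by omega) G0 hGm hGe |CF| (abs_nonneg _) hGn'
      have b3 := fun j => (h3 n (by omega) r hr j).2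
      have b3i := fun j => (h3 n (by omega) r hr j).1
      have b5 := h5 n (by omega) r hr J hJ1
      have bF := F_integrable h hh F hd n hn1
      have bc := coeff_strip h hh F hd (c n) n hn1 (fun y hy => hc1 n y hy)
      have b3s : IntegrableOn (fun z : ℍ => ∑ j ∈ Finset.range (J + 1),
          Uj r j z 0 * ((h (n * z.im) * z.im : ℝ) * jacobiTheta (z : ℂ) *
            cexp (-(π * I * n * (z : ℂ))))) Strip := by
        refine integrable_finsetSum _ fun j _ => b3i j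
      have hsplit := asm9_split volume Strip measurableSet_Strip
        (fun z : ℍ => F (z : ℂ) * ((h (n * z.im) * z.im : ℝ) * cexp (-(π * I * n * (z : ℂ)))))
        (fun z : ℍ => phh r z * ((h (n * z.im) * z.im : ℝ) * jacobiTheta (z : ℂ) *
            cexp (-(π * I * n * (z : ℂ)))))
        (fun z : ℍ => G0 z * ((h (n * z.im) * z.im : ℝ) * jacobiTheta (z : ℂ) *
            cexp (-(π * I * n * (z : ℂ)))))
        (fun z : ℍ => ∑ j ∈ Finset.range (J + 1),
          Uj r j z 0 * ((h (n * z.im) * z.im : ℝ) * jacobiTheta (z : ℂ) *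
            cexp (-(π * I * n * (z : ℂ)))))
        (fun z : ℍ => ThA r J z * ((h (n * z.im) * z.im : ℝ) * jacobiTheta (z : ℂ) *
            cexp (-(π * I * n * (z : ℂ))))) bF b1i b2i b3s (by
          filter_upwards [hae] with z hz hzs
          rw [hz hzs, Th_decomp r hr J z hzs, ← Finset.sum_mul]
          ring)
      rw [hsplit, integral_finsetSum _ (fun j _ => b3i j)] at bc
      have b3n : ‖∑ j ∈ Finset.range (J + 1), ∫ z in Strip,
          Uj r j z 0 * ((h (n * z.im) * z.im : ℝ) * jacobiTheta (z : ℂ) *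
            cexp (-(π * I * n * (z : ℂ))))‖ ≤ |C3| * |C4| := by
        refine (norm_sum_le _ _).trans ((Finset.sum_le_sum fun j _ => b3 j).trans ?_)
        have hnn : ∀ j : ℕ, 0 ≤ (2 : ℝ) ^ (-(j : ℝ) / 20) *
            (if (2 : ℝ) ^ j ≤ (n : ℝ) ^ (1 / 2000 : ℝ) / 8 then 1 else
            ((n : ℝ) ^ (1 / 100000 : ℝ) + (n : ℝ) ^ (-(1 / 4) : ℝ) * (2 : ℝ) ^ ((j : ℝ) / 2))) := by
          intro j
          split_ifs <;> positivity
        calc ∑ j ∈ Finset.range (J + 1), C3 * (2 : ℝ) ^ (-(j : ℝ) / 20) *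
            (if (2 : ℝ) ^ j ≤ (n : ℝ) ^ (1 / 2000 : ℝ) / 8 then 1 else
            ((n : ℝ) ^ (1 / 100000 : ℝ) + (n : ℝ) ^ (-(1 / 4) : ℝ) * (2 : ℝ) ^ ((j : ℝ) / 2)))
            = C3 * ∑ j ∈ Finset.range (J + 1), (2 : ℝ) ^ (-(j : ℝ) / 20) *
            (if (2 : ℝ) ^ j ≤ (n : ℝ) ^ (1 / 2000 : ℝ) / 8 then 1 else
            ((n : ℝ) ^ (1 / 100000 : ℝ) +
              (n : ℝ) ^ (-(1 / 4) : ℝ) * (2 : ℝ) ^ ((j : ℝ) / 2))) := by
              rw [Finset.mul_sum]
              refine Finset.sum_congr rfl fun j _ => by ring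
          _ ≤ |C3| * |C4| :=
              mul_le_mul (le_abs_self _) (hJ2.trans (le_abs_self _))
                (Finset.sum_nonneg fun j _ => hnn j) (abs_nonneg _)
      have hle := norm_add₄_le (a := ∫ z in Strip, phh r z * ((h (n * z.im) * z.im : ℝ) *
          jacobiTheta (z : ℂ) * cexp (-(π * I * n * (z : ℂ)))))
        (b := ∫ z in Strip, G0 z * ((h (n * z.im) * z.im : ℝ) * jacobiTheta (z : ℂ) *
            cexp (-(π * I * n * (z : ℂ)))))
        (c := ∑ j ∈ Finset.range (J + 1), ∫ z in Strip,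
          Uj r j z 0 * ((h (n * z.im) * z.im : ℝ) * jacobiTheta (z : ℂ) *
            cexp (-(π * I * n * (z : ℂ)))))
        (d := ∫ z in Strip, ThA r J z * ((h (n * z.im) * z.im : ℝ) * jacobiTheta (z : ℂ) *
            cexp (-(π * I * n * (z : ℂ)))))
      rw [← bc] at hle
      have hlhs : ‖2 * ((∫ Y in (1 : ℝ)..2, h Y / Y : ℝ) : ℂ) * c n‖ =
          (2 * ∫ Y in (1 : ℝ)..2, h Y / Y) * ‖c n‖ := by
        rw [norm_mul, norm_mul, Complex.norm_real, Real.norm_of_nonneg hpos.le]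
        norm_num
      rw [hlhs] at hle
      have b2' : ‖∫ z in Strip, G0 z * ((h (n * z.im) * z.im : ℝ) * jacobiTheta (z : ℂ) *
            cexp (-(π * I * n * (z : ℂ))))‖ ≤ |C2| * Real.sqrt |CF| :=
        b2.trans (mul_le_mul_of_nonneg_right (le_abs_self _) (Real.sqrt_nonneg _))
      have b1' := b1.trans (le_abs_self C1)
      have b5' := b5.trans (le_abs_self C5)
      have hfin : (2 * ∫ Y in (1 : ℝ)..2, h Y / Y) * ‖c n‖ ≤
          |C1| + |C2| * Real.sqrt |CF| + |C3| * |C4| + |C5| := by linarith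
      have hcn : ‖c n‖ ≤ (|C1| + |C2| * Real.sqrt |CF| + |C3| * |C4| + |C5|) /
          (2 * ∫ Y in (1 : ℝ)..2, h Y / Y) := by
        rw [le_div_iff₀ (by positivity)]
        linarith
      linarith
  · have hτ' : 0 < (-1 / τ).im := by
      rw [neg_div, Complex.neg_im, one_div, Complex.inv_im]
      have : 0 < Complex.normSq τ := by
        rw [Complex.normSq_pos]
        rintro rfl
        simp at hτ
      rw [neg_div, neg_neg]
      positivity
    have e1 := hc2 τ hτ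
    have e2 := (hc2 (-1 / τ) hτ').mul_left ((-I * τ) ^ (-(1 / 2) : ℂ))
    have e3 := e1.add e2
    rw [← hfun τ hτ, ← e3.tsum_eq]
    refine tsum_congr fun n => by ring

end RV11
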