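import Mathlib

open Complex Real MeasureTheory

namespace RV11

/-- `cos(2πxy) e^{-πεx²}`. -/
noncomputable def eB (ε y x : ℝ) : ℝ := Real.cos (2 * π * x * y) * Real.exp (-(π * ε * x ^ 2))

/-- Fourier transform (in `x`) of `eB ε y`. -/
noncomputable def ehB (ε y x : ℝ) : ℝ :=
  (Real.exp (-(π * (x - y) ^ 2 / ε)) + Real.exp (-(π * (x + y) ^ 2 / ε))) / (2 * Real.sqrt ε)

/-- `L(eB ε y)`. -/
noncomputable def VB (x0 : ℝ) (c : ℕ → ℂ) (ε y : ℝ) : ℂ :=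
  (eB ε y x0 + ehB ε y x0 : ℝ) -
    ∑' n : ℕ, c n * ((eB ε y (Real.sqrt n) + ehB ε y (Real.sqrt n) : ℝ) : ℂ)

end RV11
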