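import Pool.Agent.LibRV11.BI0

open Complex Real MeasureTheory

namespace RV11

theorem BI1_mul_cpow {z w s : ℂ} (hz : 0 < z.re) (hw : 0 < w.re) : (z * w) ^ s = z ^ s * w ^ s := by
  have hz0 : z ≠ 0 := by rintro rfl; simp at hz
  have hw0 : w ≠ 0 := by rintro rfl; simp at hw
  have a1 : |z.arg| < π / 2 := abs_arg_lt_pi_div_two_iff.mpr (Or.inl hz)
  have a2 : |w.arg| < π / 2 := abs_arg_lt_pi_div_two_iff.mpr (Or.inl hw)
  have a1' := abs_lt.mp a1
  have a2' := abs_lt.mp a2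
  have : z.arg + w.arg ∈ Set.Ioc (-π) π := ⟨by linarith [a1'.1, a2'.1], by linarith [a1'.2, a2'.2]⟩
  rw [Complex.cpow_def_of_ne_zero (mul_ne_zero hz0 hw0), Complex.cpow_def_of_ne_zero hz0,
    Complex.cpow_def_of_ne_zero hw0, Complex.log_mul hz0 hw0 this, ← Complex.exp_add]
  congr 1
  ring

theorem BI1_inv_cpow {w s : ℂ} (hw : 0 < w.re) : (1 / w) ^ s = w ^ (-s) := by
  have a2 : |w.arg| < π / 2 := abs_arg_lt_pi_div_two_iff.mpr (Or.inl hw)
  have a2' := abs_lt.mp a2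
  have : w.arg ≠ π := by
    intro h
    linarith [a2'.2, Real.pi_pos]
  rw [one_div, Complex.inv_cpow _ _ this, Complex.cpow_neg]

/-- `∫ cos(2πxy) e^{-πεx²} e^{-πwy²} dy = w^{-1/2} e^{iπτx²}`, `τ = i(ε + 1/w)`. -/
theorem gauss_eB {ε x : ℝ} (hε : 0 < ε) {w : ℂ} (hw : 0 < w.re) :
    ∫ y : ℝ, (eB ε y x : ℂ) * cexp (-(π * w * (y : ℂ) ^ 2)) =
      w ^ (-(1 / 2) : ℂ) * cexp (π * I * (x : ℂ) ^ 2 * (I * (ε + 1 / w))) := by
  have hw0 : w ≠ 0 := by rintro rfl; simp at hw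
  have hpi : (π : ℂ) ≠ 0 := by exact_mod_cast Real.pi_ne_zero
  have hb : (-(π * w)).re < 0 := by
    rw [Complex.neg_re, Complex.re_ofReal_mul]
    have := mul_pos Real.pi_pos hw
    linarith
  have h1 := fun c => integral_cexp_quadratic hb c 0
  have h2 := fun c => integrable_cexp_quadratic' hb c 0
  have e : ∀ y : ℝ, (eB ε y x : ℂ) * cexp (-(π * w * (y : ℂ) ^ 2)) =
      (cexp (-(π * ε * x ^ 2)) / 2) * cexp (-(π * w) * (y : ℂ) ^ 2 + (2 * π * x * I) * y + 0) +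
      (cexp (-(π * ε * x ^ 2)) / 2) * cexp (-(π * w) * (y : ℂ) ^ 2 + (-(2 * π * x * I)) * y + 0) := by
    intro y
    have hcos : ((Real.cos (2 * π * x * y) : ℝ) : ℂ) =
        (cexp ((2 * π * x * I) * y) + cexp ((-(2 * π * x * I)) * y)) / 2 := by
      rw [Complex.ofReal_cos, Complex.cos]
      push_cast
      congr 3
      · ring
      · ring
    unfold eB
    rw [Complex.ofReal_mul, hcos, Complex.ofReal_exp]
    push_cast
    rw [add_zero, add_zero, Complex.exp_add, Complex.exp_add]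
    rw [show (-(π * w * (y : ℂ) ^ 2)) = -(π * w) * (y : ℂ) ^ 2 by ring]
    ring
  simp_rw [e]
  rw [integral_add ((h2 _).const_mul _) ((h2 _).const_mul _), integral_const_mul,
    integral_const_mul, h1, h1]
  have e1 : ((π : ℂ) / -(-(π * w))) = 1 / w := by
    field_simp
  rw [e1, BI1_inv_cpow hw]
  have e2 : (0 : ℂ) - (2 * π * x * I) ^ 2 / (4 * -(π * w)) = -(π * x ^ 2 / w) := by
    have : (2 * π * x * I : ℂ) ^ 2 = - (4 * π ^ 2 * x ^ 2) := by
      rw [mul_pow, Complex.I_sq]; ring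
    rw [this]
    field_simp
    ring
  have e3 : (0 : ℂ) - (-(2 * π * x * I)) ^ 2 / (4 * -(π * w)) = -(π * x ^ 2 / w) := by
    rw [neg_sq, e2]
  rw [e2, e3]
  have e4 : cexp (π * I * (x : ℂ) ^ 2 * (I * (ε + 1 / w))) =
      cexp (-(π * ε * x ^ 2)) * cexp (-(π * x ^ 2 / w)) := by
    rw [← Complex.exp_add]
    congr 1
    have : (π * I * (x : ℂ) ^ 2 * (I * (ε + 1 / w))) = (I * I) * (π * x ^ 2 * (ε + 1 / w)) := by ring
    rw [this, Complex.I_mul_I]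
    ring
  rw [e4]
  ring

theorem gauss_ehB {ε x : ℝ} (hε : 0 < ε) {w : ℂ} (hw : 0 < w.re) :
    ∫ y : ℝ, (ehB ε y x : ℂ) * cexp (-(π * w * (y : ℂ) ^ 2)) =
      w ^ (-(1 / 2) : ℂ) * ((-I * (I * (ε + 1 / w))) ^ (-(1 / 2) : ℂ) *
        cexp (π * I * (x : ℂ) ^ 2 * (-1 / (I * (ε + 1 / w))))) := by
  have hw0 : w ≠ 0 := by rintro rfl; simp at hw
  have hpi : (π : ℂ) ≠ 0 := by exact_mod_cast Real.pi_ne_zero
  have hε0 : (ε : ℂ) ≠ 0 := by exact_mod_cast hε.ne'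
  have hI : (I : ℂ) ≠ 0 := Complex.I_ne_zero
  have hre1 : 0 < (1 / (ε : ℂ) + w).re := by
    rw [Complex.add_re, one_div, ← Complex.ofReal_inv, Complex.ofReal_re]
    positivity
  have hq0 : 1 / (ε : ℂ) + w ≠ 0 := by
    intro h; rw [h] at hre1; simp at hre1
  have hre2 : 0 < (1 + ε * w : ℂ).re := by
    rw [Complex.add_re, Complex.re_ofReal_mul, Complex.one_re]
    positivity
  have hq1 : (1 + ε * w : ℂ) ≠ 0 := by
    intro h; rw [h] at hre2; simp at hre2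
  have hre3 : 0 < ((ε : ℂ) + 1 / w).re := by
    rw [Complex.add_re, one_div, Complex.inv_re, Complex.ofReal_re]
    have := Complex.normSq_pos.mpr hw0
    positivity
  have hb : (-(π * (1 / ε + w))).re < 0 := by
    rw [Complex.neg_re, Complex.re_ofReal_mul]
    have := mul_pos Real.pi_pos hre1
    linarith
  have h1 := fun c d => integral_cexp_quadratic hb c d
  have h2 := fun c d => integrable_cexp_quadratic' hb c d
  have e : ∀ y : ℝ, (ehB ε y x : ℂ) * cexp (-(π * w * (y : ℂ) ^ 2)) =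
      (1 / (2 * (Real.sqrt ε : ℂ))) *
        cexp (-(π * (1 / ε + w)) * (y : ℂ) ^ 2 + (2 * π * x / ε) * y + (-(π * x ^ 2 / ε))) +
      (1 / (2 * (Real.sqrt ε : ℂ))) *
        cexp (-(π * (1 / ε + w)) * (y : ℂ) ^ 2 + (-(2 * π * x / ε)) * y + (-(π * x ^ 2 / ε))) := by
    intro y
    unfold ehB
    push_cast
    rw [div_mul_eq_mul_div, add_mul, ← Complex.exp_add, ← Complex.exp_add]
    rw [show (-(π * ((x : ℂ) - y) ^ 2 / ε) + -(π * w * (y : ℂ) ^ 2)) =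
      (-(π * (1 / ε + w)) * (y : ℂ) ^ 2 + (2 * π * x / ε) * y + (-(π * x ^ 2 / ε))) by
      field_simp; ring]
    rw [show (-(π * ((x : ℂ) + y) ^ 2 / ε) + -(π * w * (y : ℂ) ^ 2)) =
      (-(π * (1 / ε + w)) * (y : ℂ) ^ 2 + (-(2 * π * x / ε)) * y + (-(π * x ^ 2 / ε))) by
      field_simp; ring]
    ring
  simp_rw [e]
  rw [integral_add ((h2 _ _).const_mul _) ((h2 _ _).const_mul _), integral_const_mul,
    integral_const_mul, h1, h1]
  have e1 : ((π : ℂ) / -(-(π * (1 / ε + w)))) = 1 / (1 / ε + w) := by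
    field_simp
  rw [e1, BI1_inv_cpow hre1]
  have e2 : -(π * x ^ 2 / ε) - (2 * π * x / ε : ℂ) ^ 2 / (4 * -(π * (1 / ε + w))) =
      -(π * x ^ 2 * w / (1 + ε * w)) := by
    have : (1 / (ε : ℂ) + w) = (1 + ε * w) / ε := by field_simp
    rw [this]
    field_simp
    ring
  have e3 : -(π * x ^ 2 / ε) - (-(2 * π * x / ε) : ℂ) ^ 2 / (4 * -(π * (1 / ε + w))) =
      -(π * x ^ 2 * w / (1 + ε * w)) := by
    rw [neg_sq, e2]
  rw [e2, e3]
  have e4 : cexp (π * I * (x : ℂ) ^ 2 * (-1 / (I * (ε + 1 / w)))) =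
      cexp (-(π * x ^ 2 * w / (1 + ε * w))) := by
    congr 1
    have h3 : ((ε : ℂ) + 1 / w) = (1 + ε * w) / w := by field_simp; ring
    rw [h3]
    field_simp
  have e5 : (-I * (I * (ε + 1 / w))) = (ε + 1 / w : ℂ) := by
    rw [← mul_assoc, neg_mul, Complex.I_mul_I]; ring
  rw [e4, e5]
  have hsq : (Real.sqrt ε : ℂ) = (ε : ℂ) ^ (1 / 2 : ℂ) := by
    rw [Real.sqrt_eq_rpow, Complex.ofReal_cpow hε.le]
    norm_num
  have hεre : 0 < (ε : ℂ).re := by simpa using hε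
  have e6 : w ^ (-(1 / 2) : ℂ) * (ε + 1 / w) ^ (-(1 / 2) : ℂ) = (1 + ε * w) ^ (-(1 / 2) : ℂ) := by
    rw [← BI1_mul_cpow hw hre3]
    congr 1
    field_simp
    ring
  have e7 : (1 / (Real.sqrt ε : ℂ)) * (1 / ε + w) ^ (-(1 / 2) : ℂ) =
      (1 + ε * w) ^ (-(1 / 2) : ℂ) := by
    rw [hsq, one_div, ← Complex.cpow_neg, ← BI1_mul_cpow hεre hre1]
    congr 1
    field_simp
  rw [← mul_assoc (w ^ (-(1 / 2) : ℂ)), e6, ← e7]
  have hs0 : (Real.sqrt ε : ℂ) ≠ 0 := by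
    exact_mod_cast (Real.sqrt_pos.mpr hε).ne'
  field_simp
  ring

end RV11
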