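import Pool.Agent.LibRV11.BI0

open Complex Real MeasureTheory

namespace RV11

theorem abs_eB_le {ε y x : ℝ} : |eB ε y x| ≤ Real.exp (-(π * ε * x ^ 2)) := by
  rw [eB, abs_mul, abs_of_pos (Real.exp_pos _)]
  calc |Real.cos (2 * π * x * y)| * Real.exp (-(π * ε * x ^ 2)) ≤
      1 * Real.exp (-(π * ε * x ^ 2)) := by
        gcongr
        exact Real.abs_cos_le_one _
    _ = _ := one_mul _

theorem ehB_nonneg {ε y x : ℝ} : 0 ≤ ehB ε y x := by
  rw [ehB]
  positivity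

/-- `(x ∓ y)² ≥ x²/2 - y²`. -/
theorem ehB_le {ε y x : ℝ} (hε : 0 < ε) :
    ehB ε y x ≤ 1 / Real.sqrt ε * (Real.exp (-(π * x ^ 2 / (2 * ε))) *
      Real.exp (π * y ^ 2 / ε)) := by
  have hs : 0 < Real.sqrt ε := Real.sqrt_pos.2 hε
  have hπ := Real.pi_pos
  have key : ∀ t : ℝ, x ^ 2 / 2 - y ^ 2 ≤ t → Real.exp (-(π * t / ε)) ≤
      Real.exp (-(π * x ^ 2 / (2 * ε))) * Real.exp (π * y ^ 2 / ε) := by
    intro t ht
    rw [← Real.exp_add]
    apply Real.exp_le_exp.2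
    have : π * (x ^ 2 / 2 - y ^ 2) / ε ≤ π * t / ε := by gcongr
    have e : π * (x ^ 2 / 2 - y ^ 2) / ε = π * x ^ 2 / (2 * ε) - π * y ^ 2 / ε := by
      field_simp
    linarith
  have h1 := key ((x - y) ^ 2) (by nlinarith [sq_nonneg (x - 2 * y)])
  have h2 := key ((x + y) ^ 2) (by nlinarith [sq_nonneg (x + 2 * y)])
  rw [ehB, div_le_iff₀ (by positivity)]
  calc Real.exp (-(π * (x - y) ^ 2 / ε)) + Real.exp (-(π * (x + y) ^ 2 / ε)) ≤
      2 * (Real.exp (-(π * x ^ 2 / (2 * ε))) * Real.exp (π * y ^ 2 / ε)) := by linarith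
    _ = 1 / Real.sqrt ε * (Real.exp (-(π * x ^ 2 / (2 * ε))) *
      Real.exp (π * y ^ 2 / ε)) * (2 * Real.sqrt ε) := by field_simp

private theorem BI2_summable {a : ℝ} (ha : 0 < a) : Summable fun n : ℕ => Real.exp (-(a * n)) := by
  have h1 : Real.exp (-a) < 1 := by rw [Real.exp_lt_one_iff]; linarith
  have h2 := summable_geometric_of_lt_one (Real.exp_pos (-a)).le h1
  refine h2.congr (fun n => ?_)
  rw [← Real.exp_nat_mul]
  congr 1
  ring

private theorem BI2_C {c : ℕ → ℂ} {C : ℝ} (hc : ∀ n, ‖c n‖ ≤ C) : 0 ≤ C :=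
  (norm_nonneg _).trans (hc 0)

/-- the terms of the series -/
theorem BI2_term {c : ℕ → ℂ} {C : ℝ} (hc : ∀ n, ‖c n‖ ≤ C) {ε : ℝ} (hε : 0 < ε) (n : ℕ)
    (y : ℝ) : ‖c n * ((eB ε y (Real.sqrt n) + ehB ε y (Real.sqrt n) : ℝ) : ℂ)‖ ≤
      C * (Real.exp (-(π * ε * n)) + 1 / Real.sqrt ε * (Real.exp (-(π / (2 * ε) * n)) *
        Real.exp (π * y ^ 2 / ε))) := by
  have hC := BI2_C hc
  have hn : Real.sqrt n ^ 2 = n := Real.sq_sqrt (Nat.cast_nonneg n)
  rw [norm_mul, Complex.norm_real, Real.norm_eq_abs]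
  apply mul_le_mul (hc n) _ (abs_nonneg _) hC
  refine (abs_add_le _ _).trans (add_le_add ?_ ?_)
  · have := abs_eB_le (ε := ε) (y := y) (x := Real.sqrt n)
    rwa [hn] at this
  · rw [abs_of_nonneg ehB_nonneg]
    refine (ehB_le hε).trans (le_of_eq ?_)
    rw [hn]
    congr 4
    field_simp

/-- summability of the bounds -/
theorem BI2_bound_summable (C : ℝ) {ε : ℝ} (hε : 0 < ε) (A : ℝ) :
    Summable fun n : ℕ => C * (Real.exp (-(π * ε * n)) +
      1 / Real.sqrt ε * (Real.exp (-(π / (2 * ε) * n)) * A)) := by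
  have hπ := Real.pi_pos
  apply Summable.mul_left
  apply Summable.add
  · exact BI2_summable (by positivity)
  · apply Summable.mul_left
    exact (BI2_summable (by positivity)).mul_right _

theorem VB_continuous (x0 : ℝ) {c : ℕ → ℂ} {C : ℝ} (hc : ∀ n, ‖c n‖ ≤ C) {ε : ℝ} (hε : 0 < ε) :
    Continuous (VB x0 c ε) := by
  have hC := BI2_C hc
  have hπ := Real.pi_pos
  have hcont : ∀ x : ℝ, Continuous fun y : ℝ => ((eB ε y x + ehB ε y x : ℝ) : ℂ) := by
    intro x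
    unfold eB ehB
    fun_prop
  have h1 : Continuous fun y : ℝ =>
      ∑' n : ℕ, c n * ((eB ε y (Real.sqrt n) + ehB ε y (Real.sqrt n) : ℝ) : ℂ) := by
    rw [continuous_iff_continuousAt]
    intro y0
    have h2 : ContinuousOn (fun y : ℝ =>
        ∑' n : ℕ, c n * ((eB ε y (Real.sqrt n) + ehB ε y (Real.sqrt n) : ℝ) : ℂ))
        (Set.Ioo (-(|y0| + 1)) (|y0| + 1)) := by
      apply continuousOn_tsum (u := fun n : ℕ => C * (Real.exp (-(π * ε * n)) +
        1 / Real.sqrt ε * (Real.exp (-(π / (2 * ε) * n)) *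
          Real.exp (π * (|y0| + 1) ^ 2 / ε))))
      · intro n
        exact (continuous_const.mul (hcont _)).continuousOn
      · exact BI2_bound_summable C hε _
      · intro n y hy
        refine (BI2_term hc hε n y).trans ?_
        have h3 : y ^ 2 ≤ (|y0| + 1) ^ 2 := by
          apply sq_le_sq'
          · linarith [hy.1]
          · linarith [hy.2]
        gcongr
    apply h2.continuousAt
    apply Ioo_mem_nhds
    · have := neg_abs_le y0
      linarith
    · have := le_abs_self y0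
      linarith
  exact (hcont x0).sub h1

theorem VB_bound (x0 : ℝ) {c : ℕ → ℂ} {C : ℝ} (hc : ∀ n, ‖c n‖ ≤ C) {ε : ℝ} (hε : 0 < ε) :
    ∃ K : ℝ, ∀ y, ‖VB x0 c ε y‖ ≤ K * Real.exp (π / ε * y ^ 2) := by
  have hC := BI2_C hc
  have hπ := Real.pi_pos
  refine ⟨1 + 1 / Real.sqrt ε + ∑' n : ℕ, C * (Real.exp (-(π * ε * n)) +
      1 / Real.sqrt ε * (Real.exp (-(π / (2 * ε) * n)) * 1)), fun y => ?_⟩
  have hE : 1 ≤ Real.exp (π / ε * y ^ 2) := by
    apply Real.one_le_exp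
    positivity
  have hE' : Real.exp (π * y ^ 2 / ε) = Real.exp (π / ε * y ^ 2) := by
    congr 1; ring
  have h1 : ‖((eB ε y x0 + ehB ε y x0 : ℝ) : ℂ)‖ ≤
      (1 + 1 / Real.sqrt ε) * Real.exp (π / ε * y ^ 2) := by
    rw [Complex.norm_real, Real.norm_eq_abs]
    refine (abs_add_le _ _).trans ?_
    have h2 : |eB ε y x0| ≤ 1 := by
      refine abs_eB_le.trans ?_
      rw [Real.exp_le_one_iff]
      have : 0 ≤ π * ε * x0 ^ 2 := by positivity
      linarith
    have h3 : |ehB ε y x0| ≤ 1 / Real.sqrt ε * Real.exp (π / ε * y ^ 2) := by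
      rw [abs_of_nonneg ehB_nonneg]
      refine (ehB_le hε).trans ?_
      rw [hE']
      have h4 : Real.exp (-(π * x0 ^ 2 / (2 * ε))) ≤ 1 := by
        rw [Real.exp_le_one_iff]
        have : 0 ≤ π * x0 ^ 2 / (2 * ε) := by positivity
        linarith
      have h5 : 0 ≤ 1 / Real.sqrt ε := by positivity
      calc 1 / Real.sqrt ε * (Real.exp (-(π * x0 ^ 2 / (2 * ε))) * Real.exp (π / ε * y ^ 2)) ≤
          1 / Real.sqrt ε * (1 * Real.exp (π / ε * y ^ 2)) := by gcongr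
        _ = _ := by ring
    calc |eB ε y x0| + |ehB ε y x0| ≤ 1 * Real.exp (π / ε * y ^ 2) +
        1 / Real.sqrt ε * Real.exp (π / ε * y ^ 2) := by
          apply add_le_add _ h3
          linarith
      _ = _ := by ring
  have h2 : ‖∑' n : ℕ, c n * ((eB ε y (Real.sqrt n) + ehB ε y (Real.sqrt n) : ℝ) : ℂ)‖ ≤
      ∑' n : ℕ, (C * (Real.exp (-(π * ε * n)) +
      1 / Real.sqrt ε * (Real.exp (-(π / (2 * ε) * n)) * 1))) * Real.exp (π / ε * y ^ 2) := by
    apply tsum_of_norm_bounded ((BI2_bound_summable C hε 1).mul_right _).hasSum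
    intro n
    refine (BI2_term hc hε n y).trans ?_
    rw [hE', mul_assoc C]
    apply mul_le_mul_of_nonneg_left _ hC
    rw [add_mul]
    apply add_le_add
    · have : 0 < Real.exp (-(π * ε * n)) := Real.exp_pos _
      nlinarith
    · apply le_of_eq
      ring
  rw [tsum_mul_right] at h2
  rw [VB]
  refine (norm_sub_le _ _).trans ?_
  rw [add_mul]
  exact add_le_add h1 h2

theorem VB_even (x0 : ℝ) (c : ℕ → ℂ) (ε y : ℝ) : VB x0 c ε (-y) = VB x0 c ε y := by
  have h1 : ∀ x, eB ε (-y) x = eB ε y x := by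
    intro x
    rw [eB, eB, mul_neg, Real.cos_neg]
  have h2 : ∀ x, ehB ε (-y) x = ehB ε y x := by
    intro x
    rw [ehB, ehB, sub_neg_eq_add, ← sub_eq_add_neg, add_comm]
  rw [VB, VB]
  simp_rw [h1, h2]

end RV11
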