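import Pool.Agent.LibRV11.BI1
import Pool.Agent.LibRV11.BI2

open Complex Real MeasureTheory

namespace RV11

private theorem BI3_gauss_int {a : ℝ} (ha : 0 < a) :
    Integrable fun y : ℝ => Real.exp (-(π * a * y ^ 2)) := by
  have := integrable_exp_neg_mul_sq (b := π * a) (by have := Real.pi_pos; positivity)
  refine this.congr (Filter.Eventually.of_forall fun y => ?_)
  simp only
  congr 1
  ring

private theorem BI3_norm (w : ℂ) (y : ℝ) :
    ‖cexp (-(π * w * (y : ℂ) ^ 2))‖ = Real.exp (-(π * w.re * y ^ 2)) := by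
  rw [Complex.norm_exp]
  congr 1
  have : -(π * w * (y : ℂ) ^ 2) = ((-(π * y ^ 2) : ℝ) : ℂ) * w := by push_cast; ring
  rw [this, Complex.re_ofReal_mul]
  ring

/-- Exchange sum and integral (`hasSum_integral_of_summable_integral_norm`, with `ehB_le` and
`1/ε < w.re`), then `gauss_eB`, `gauss_ehB` and the hypothesis at `τ = i(ε+1/w)`. -/
theorem VB_gauss (x0 : ℝ) {c : ℕ → ℂ} {C : ℝ} (hc : ∀ n, ‖c n‖ ≤ C)
    (hF : ∀ τ : ℂ, 0 < τ.im →
      ∑' n : ℕ, c n * (cexp (π * I * n * τ) + (-I * τ) ^ (-(1 / 2) : ℂ) *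
          cexp (π * I * n * (-1 / τ))) =
        cexp (π * I * (x0 ^ 2 : ℝ) * τ) + (-I * τ) ^ (-(1 / 2) : ℂ) *
          cexp (π * I * (x0 ^ 2 : ℝ) * (-1 / τ)))
    {ε : ℝ} (hε : 0 < ε) {w : ℂ} (hw : 1 / ε < w.re) :
    ∫ y : ℝ, VB x0 c ε y * cexp (-(π * w * (y : ℂ) ^ 2)) = 0 := by
  have hπ := Real.pi_pos
  have hw0 : 0 < w.re := lt_trans (by positivity) hw
  have hC : 0 ≤ C := (norm_nonneg _).trans (hc 0)
  set τ : ℂ := I * (ε + 1 / w) with hτ
  have hτim : 0 < τ.im := by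
    have h1 : τ.im = ((ε : ℂ) + 1 / w).re := by
      rw [hτ, Complex.I_mul_im]
    rw [h1, Complex.add_re, Complex.ofReal_re, one_div, Complex.inv_re]
    have h2 : 0 < normSq w := by
      rw [normSq_pos]
      rintro rfl
      simp at hw0
    positivity
  -- one term
  have hmeas : ∀ x : ℝ, Continuous fun y : ℝ => ((eB ε y x + ehB ε y x : ℝ) : ℂ) *
      cexp (-(π * w * (y : ℂ) ^ 2)) := by
    intro x
    unfold eB ehB
    fun_prop
  have hmeas1 : ∀ x : ℝ, Continuous fun y : ℝ => ((eB ε y x : ℝ) : ℂ) *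
      cexp (-(π * w * (y : ℂ) ^ 2)) := by
    intro x
    unfold eB
    fun_prop
  have hmeas2 : ∀ x : ℝ, Continuous fun y : ℝ => ((ehB ε y x : ℝ) : ℂ) *
      cexp (-(π * w * (y : ℂ) ^ 2)) := by
    intro x
    unfold ehB
    fun_prop
  have hb1 : ∀ x y : ℝ, ‖((eB ε y x : ℝ) : ℂ) * cexp (-(π * w * (y : ℂ) ^ 2))‖ ≤
      Real.exp (-(π * ε * x ^ 2)) * Real.exp (-(π * w.re * y ^ 2)) := by
    intro x y
    rw [norm_mul, BI3_norm, Complex.norm_real, Real.norm_eq_abs]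
    gcongr
    exact abs_eB_le
  have hb2 : ∀ x y : ℝ, ‖((ehB ε y x : ℝ) : ℂ) * cexp (-(π * w * (y : ℂ) ^ 2))‖ ≤
      1 / Real.sqrt ε * Real.exp (-(π * x ^ 2 / (2 * ε))) *
        Real.exp (-(π * (w.re - 1 / ε) * y ^ 2)) := by
    intro x y
    rw [norm_mul, BI3_norm, Complex.norm_real, Real.norm_eq_abs, abs_of_nonneg ehB_nonneg]
    calc ehB ε y x * Real.exp (-(π * w.re * y ^ 2)) ≤
        (1 / Real.sqrt ε * (Real.exp (-(π * x ^ 2 / (2 * ε))) * Real.exp (π * y ^ 2 / ε))) *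
          Real.exp (-(π * w.re * y ^ 2)) := by
          gcongr
          exact ehB_le hε
      _ = 1 / Real.sqrt ε * Real.exp (-(π * x ^ 2 / (2 * ε))) *
          (Real.exp (π * y ^ 2 / ε) * Real.exp (-(π * w.re * y ^ 2))) := by ring
      _ = _ := by
          rw [← Real.exp_add]
          congr 2
          field_simp
          ring
  have hi1 : ∀ x : ℝ, Integrable fun y : ℝ => ((eB ε y x : ℝ) : ℂ) *
      cexp (-(π * w * (y : ℂ) ^ 2)) := by
    intro x
    exact ((BI3_gauss_int hw0).const_mul _).mono' (hmeas1 x).aestronglyMeasurable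
      (Filter.Eventually.of_forall (hb1 x))
  have hi2 : ∀ x : ℝ, Integrable fun y : ℝ => ((ehB ε y x : ℝ) : ℂ) *
      cexp (-(π * w * (y : ℂ) ^ 2)) := by
    intro x
    exact ((BI3_gauss_int (sub_pos.2 hw)).const_mul _).mono' (hmeas2 x).aestronglyMeasurable
      (Filter.Eventually.of_forall (hb2 x))
  have hadd : ∀ x : ℝ, (fun y : ℝ => ((eB ε y x + ehB ε y x : ℝ) : ℂ) *
      cexp (-(π * w * (y : ℂ) ^ 2))) = fun y : ℝ => ((eB ε y x : ℝ) : ℂ) *
      cexp (-(π * w * (y : ℂ) ^ 2)) + ((ehB ε y x : ℝ) : ℂ) *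
      cexp (-(π * w * (y : ℂ) ^ 2)) := by
    intro x
    ext y
    push_cast
    ring
  have hi : ∀ x : ℝ, Integrable fun y : ℝ => ((eB ε y x + ehB ε y x : ℝ) : ℂ) *
      cexp (-(π * w * (y : ℂ) ^ 2)) := by
    intro x
    rw [hadd]
    exact (hi1 x).add (hi2 x)
  have hint : ∀ x : ℝ, ∫ y : ℝ, ((eB ε y x + ehB ε y x : ℝ) : ℂ) *
      cexp (-(π * w * (y : ℂ) ^ 2)) = w ^ (-(1 / 2) : ℂ) * (cexp (π * I * (x ^ 2 : ℝ) * τ) +
        (-I * τ) ^ (-(1 / 2) : ℂ) * cexp (π * I * (x ^ 2 : ℝ) * (-1 / τ))) := by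
    intro x
    rw [hadd, integral_add (hi1 x) (hi2 x), gauss_eB hε hw0, gauss_ehB hε hw0, ← hτ, mul_add]
    push_cast
    rfl
  -- the norms
  have hnorm : ∀ x : ℝ, ∫ y : ℝ, ‖((eB ε y x + ehB ε y x : ℝ) : ℂ) *
      cexp (-(π * w * (y : ℂ) ^ 2))‖ ≤
      Real.exp (-(π * ε * x ^ 2)) * (∫ y : ℝ, Real.exp (-(π * w.re * y ^ 2))) +
      1 / Real.sqrt ε * Real.exp (-(π * x ^ 2 / (2 * ε))) *
        ∫ y : ℝ, Real.exp (-(π * (w.re - 1 / ε) * y ^ 2)) := by
    intro x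
    rw [← integral_const_mul, ← integral_const_mul, ← integral_add
      ((BI3_gauss_int hw0).const_mul _) ((BI3_gauss_int (sub_pos.2 hw)).const_mul _)]
    apply integral_mono (hi x).norm (((BI3_gauss_int hw0).const_mul _).add
      ((BI3_gauss_int (sub_pos.2 hw)).const_mul _))
    intro y
    simp only [Pi.add_apply]
    have e := congrFun (hadd x) y
    rw [e]
    exact (norm_add_le _ _).trans (add_le_add (hb1 x y) (hb2 x y))
  have hsq : ∀ n : ℕ, Real.sqrt n ^ 2 = n := fun n => Real.sq_sqrt (Nat.cast_nonneg n)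
  set A := ∫ y : ℝ, Real.exp (-(π * w.re * y ^ 2)) with hA
  set B := ∫ y : ℝ, Real.exp (-(π * (w.re - 1 / ε) * y ^ 2)) with hB
  have hA0 : 0 ≤ A := integral_nonneg fun y => (Real.exp_pos _).le
  have hB0 : 0 ≤ B := integral_nonneg fun y => (Real.exp_pos _).le
  have hFint : ∀ n : ℕ, Integrable fun y : ℝ => c n *
      ((eB ε y (Real.sqrt n) + ehB ε y (Real.sqrt n) : ℝ) : ℂ) *
      cexp (-(π * w * (y : ℂ) ^ 2)) := by
    intro n
    have := (hi (Real.sqrt n)).const_mul (c n)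
    refine this.congr (Filter.Eventually.of_forall fun y => ?_)
    simp only
    ring
  have hFsum : Summable fun n : ℕ => ∫ y : ℝ, ‖c n *
      ((eB ε y (Real.sqrt n) + ehB ε y (Real.sqrt n) : ℝ) : ℂ) *
      cexp (-(π * w * (y : ℂ) ^ 2))‖ := by
    have hs1 := BI2_bound_summable (C * A) hε 0
    have hs2 := BI2_bound_summable (C * B) hε 1
    refine Summable.of_nonneg_of_le (fun n => integral_nonneg fun y => norm_nonneg _) ?_
      (hs1.add hs2)
    intro n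
    have e1 : ∫ y : ℝ, ‖c n *
      ((eB ε y (Real.sqrt n) + ehB ε y (Real.sqrt n) : ℝ) : ℂ) *
      cexp (-(π * w * (y : ℂ) ^ 2))‖ = ‖c n‖ * ∫ y : ℝ,
        ‖((eB ε y (Real.sqrt n) + ehB ε y (Real.sqrt n) : ℝ) : ℂ) *
        cexp (-(π * w * (y : ℂ) ^ 2))‖ := by
      rw [← integral_const_mul]
      congr 1
      ext y
      rw [mul_assoc, norm_mul]
    rw [e1]
    have h1 := hnorm (Real.sqrt n)
    rw [hsq n] at h1
    have e2 : Real.exp (-(π * n / (2 * ε))) = Real.exp (-(π / (2 * ε) * n)) := by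
      congr 1; ring
    rw [e2] at h1
    have h2 : 0 < Real.exp (-(π * ε * n)) := Real.exp_pos _
    calc ‖c n‖ * _ ≤ C * (Real.exp (-(π * ε * n)) * A +
          1 / Real.sqrt ε * Real.exp (-(π / (2 * ε) * n)) * B) := by
          apply mul_le_mul (hc n) h1 (integral_nonneg fun y => norm_nonneg _) hC
      _ ≤ _ := by
          have h3 : 0 ≤ C * B * Real.exp (-(π * ε * n)) := by positivity
          simp only [mul_zero, mul_one, add_zero]
          linarith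
  have hsum := (hasSum_integral_of_summable_integral_norm hFint hFsum)
  have hVsplit : ∀ y : ℝ, VB x0 c ε y * cexp (-(π * w * (y : ℂ) ^ 2)) =
      ((eB ε y x0 + ehB ε y x0 : ℝ) : ℂ) * cexp (-(π * w * (y : ℂ) ^ 2)) -
      ∑' n : ℕ, c n * ((eB ε y (Real.sqrt n) + ehB ε y (Real.sqrt n) : ℝ) : ℂ) *
        cexp (-(π * w * (y : ℂ) ^ 2)) := by
    intro y
    rw [VB, sub_mul, tsum_mul_right]
  simp_rw [hVsplit]
  have hI : Integrable fun y : ℝ => ∑' n : ℕ, c n *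
      ((eB ε y (Real.sqrt n) + ehB ε y (Real.sqrt n) : ℝ) : ℂ) *
        cexp (-(π * w * (y : ℂ) ^ 2)) := by
    have h1 : (fun y : ℝ => ∑' n : ℕ, c n *
      ((eB ε y (Real.sqrt n) + ehB ε y (Real.sqrt n) : ℝ) : ℂ) *
        cexp (-(π * w * (y : ℂ) ^ 2))) = fun y : ℝ =>
        ((eB ε y x0 + ehB ε y x0 : ℝ) : ℂ) * cexp (-(π * w * (y : ℂ) ^ 2)) -
          VB x0 c ε y * cexp (-(π * w * (y : ℂ) ^ 2)) := by
      ext y
      rw [hVsplit y]
      ring
    rw [h1]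
    apply (hi x0).sub
    obtain ⟨K, hK⟩ := VB_bound x0 hc hε
    have hcont : Continuous fun y : ℝ => VB x0 c ε y * cexp (-(π * w * (y : ℂ) ^ 2)) := by
      have := VB_continuous x0 hc hε
      fun_prop
    refine ((BI3_gauss_int (sub_pos.2 hw)).const_mul K).mono' hcont.aestronglyMeasurable
      (Filter.Eventually.of_forall fun y => ?_)
    rw [norm_mul, BI3_norm]
    calc ‖VB x0 c ε y‖ * Real.exp (-(π * w.re * y ^ 2)) ≤
        (K * Real.exp (π / ε * y ^ 2)) * Real.exp (-(π * w.re * y ^ 2)) := by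
          gcongr
          exact hK y
      _ = K * Real.exp (-(π * (w.re - 1 / ε) * y ^ 2)) := by
          rw [mul_assoc, ← Real.exp_add]
          congr 2
          field_simp
          ring
  rw [integral_sub (hi x0) hI, hint x0, ← hsum.tsum_eq]
  have hterm : ∀ n : ℕ, ∫ y : ℝ, c n *
      ((eB ε y (Real.sqrt n) + ehB ε y (Real.sqrt n) : ℝ) : ℂ) *
      cexp (-(π * w * (y : ℂ) ^ 2)) = w ^ (-(1 / 2) : ℂ) * (c n * (cexp (π * I * n * τ) +
        (-I * τ) ^ (-(1 / 2) : ℂ) * cexp (π * I * n * (-1 / τ)))) := by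
    intro n
    have h1 := hint (Real.sqrt n)
    rw [hsq n] at h1
    have e1 : ∫ y : ℝ, c n *
      ((eB ε y (Real.sqrt n) + ehB ε y (Real.sqrt n) : ℝ) : ℂ) *
      cexp (-(π * w * (y : ℂ) ^ 2)) = c n * ∫ y : ℝ,
        ((eB ε y (Real.sqrt n) + ehB ε y (Real.sqrt n) : ℝ) : ℂ) *
        cexp (-(π * w * (y : ℂ) ^ 2)) := by
      rw [← integral_const_mul]
      congr 1
      ext y
      ring
    rw [e1, h1]
    push_cast
    ring
  simp_rw [hterm]
  rw [tsum_mul_left, hF τ hτim]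
  ring

end RV11
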