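import Mathlib

open Complex Real MeasureTheory
open scoped FourierTransform

namespace RV11

theorem BI4_norm (w : ℂ) (y : ℝ) :
    ‖cexp (-(π * w * (y : ℂ) ^ 2))‖ = Real.exp (-(π * w.re * y ^ 2)) := by
  rw [Complex.norm_exp]
  congr 1
  have : (-(π * w * (y : ℂ) ^ 2)) = -(((π * y ^ 2 : ℝ) : ℂ) * w) := by push_cast; ring
  rw [this, Complex.neg_re, Complex.re_ofReal_mul]
  ring

theorem BI4_integrable (V : ℝ → ℂ) (hV : Continuous V) (K A : ℝ)
    (hb : ∀ y, ‖V y‖ ≤ K * Real.exp (A * y ^ 2)) (w : ℂ) (hw : A < π * w.re) :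
    Integrable (fun y : ℝ => V y * cexp (-(π * w * (y : ℂ) ^ 2))) := by
  have h1 : Integrable fun y : ℝ => K * Real.exp (-(π * w.re - A) * y ^ 2) :=
    (integrable_exp_neg_mul_sq (by linarith)).const_mul K
  refine h1.mono' (by fun_prop) (Filter.Eventually.of_forall fun y => ?_)
  rw [norm_mul, BI4_norm]
  calc ‖V y‖ * Real.exp (-(π * w.re * y ^ 2)) ≤
      K * Real.exp (A * y ^ 2) * Real.exp (-(π * w.re * y ^ 2)) :=
        mul_le_mul_of_nonneg_right (hb y) (Real.exp_nonneg _)
    _ = K * Real.exp (-(π * w.re - A) * y ^ 2) := by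
        rw [mul_assoc, ← Real.exp_add]
        congr 2
        ring

theorem BI4_half (F : ℝ → ℂ) (hF : Integrable F) (hev : ∀ y, F (-y) = F y)
    (h0 : ∫ y, F y = 0) : ∫ y in Set.Ioi (0 : ℝ), F y = 0 := by
  have h1 := intervalIntegral.integral_Iic_add_Ioi (b := (0 : ℝ)) hF.integrableOn hF.integrableOn
    (μ := volume)
  have h2 := integral_comp_neg_Ioi (0 : ℝ) F
  rw [neg_zero] at h2
  simp_rw [hev] at h2
  rw [← h2, h0] at h1
  have h3 : (2 : ℂ) * ∫ y in Set.Ioi (0 : ℝ), F y = 0 := by rw [two_mul]; exact h1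
  exact (mul_eq_zero.mp h3).resolve_left two_ne_zero

/-- An even continuous function orthogonal to all Gaussians is zero: with `w₀ > (A+1)/π` the
function `f(v) = V(√v) v^{-1/2} e^{-π w₀ v}` (`v > 0`, zero for `v ≤ 0`) is integrable, its Fourier
transform is `∫ V(y) e^{-π(w₀+2it)y²} dy = 0`, and it is continuous at `v > 0`: Fourier inversion
`MeasureTheory.Integrable.fourierInv_fourier_eq`. -/
theorem gauss_inj (V : ℝ → ℂ) (hV : Continuous V) (hev : ∀ y, V (-y) = V y) (K A : ℝ)
    (hb : ∀ y, ‖V y‖ ≤ K * Real.exp (A * y ^ 2))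
    (h0 : ∀ w : ℂ, A < π * w.re → ∫ y : ℝ, V y * cexp (-(π * w * (y : ℂ) ^ 2)) = 0) (y : ℝ) :
    V y = 0 := by
  -- positive arguments suffice
  have hpos : ∀ x : ℝ, 0 < x → V x = 0 := by
    intro x hx
    obtain ⟨w₀, hw₀⟩ : ∃ w₀ : ℝ, A < π * w₀ := ⟨(A + 1) / π, by
      rw [mul_div_cancel₀ _ Real.pi_pos.ne']; linarith⟩
    let g : ℝ → ℂ := fun v => V (√v) * ((√v : ℝ) : ℂ)⁻¹ * cexp (-(π * w₀ * (v : ℂ)))
    let f : ℝ → ℂ := Set.indicator (Set.Ioi 0) g
    have hg : ∀ t ∈ Set.Ioi (0 : ℝ), ∀ u : ℂ,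
        (|(2 : ℝ)| * t ^ ((2 : ℝ) - 1)) • (cexp (u * ((t ^ (2 : ℝ) : ℝ) : ℂ)) * g (t ^ (2 : ℝ))) =
          2 * (V t * cexp (-(π * (w₀ - u / π) * (t : ℂ) ^ 2))) := by
      intro t ht u
      have ht0 : 0 < t := ht
      have e1 : t ^ ((2 : ℝ) - 1) = t := by norm_num
      have e2 : t ^ (2 : ℝ) = t ^ 2 := by norm_num
      have e3 : √(t ^ 2) = t := Real.sqrt_sq ht0.le
      have e4 : |(2 : ℝ)| = 2 := by norm_num
      change _ • (_ * (V (√(t ^ (2 : ℝ))) * ((√(t ^ (2 : ℝ)) : ℝ) : ℂ)⁻¹ *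
        cexp (-(π * w₀ * ((t ^ (2 : ℝ) : ℝ) : ℂ))))) = _
      rw [e1, e2, e3, e4, Complex.real_smul]
      have ht' : (t : ℂ) ≠ 0 := by exact_mod_cast ht0.ne'
      have hpi : (π : ℂ) ≠ 0 := by exact_mod_cast Real.pi_pos.ne'
      have e5 : cexp (-(π * (w₀ - u / π) * (t : ℂ) ^ 2)) =
          cexp (u * ((t ^ 2 : ℝ) : ℂ)) * cexp (-(π * w₀ * ((t ^ 2 : ℝ) : ℂ))) := by
        rw [← Complex.exp_add]
        congr 1
        push_cast
        field_simp
        ring
      rw [e5]
      push_cast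
      field_simp
    have hint : IntegrableOn g (Set.Ioi 0) := by
      rw [← integrableOn_Ioi_comp_rpow_iff g (p := 2) two_ne_zero]
      have h1 := (BI4_integrable V hV K A hb w₀ (by simpa using hw₀)).const_mul 2
      refine (h1.integrableOn (s := Set.Ioi 0)).congr_fun ?_ measurableSet_Ioi
      intro t ht
      have := hg t ht 0
      simp only [zero_mul, Complex.exp_zero, one_mul, zero_div, sub_zero] at this
      exact this.symm
    have hf : Integrable f := (integrable_indicator_iff measurableSet_Ioi).mpr hint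
    have hft : 𝓕 f = 0 := by
      ext t
      rw [Real.fourier_real_eq_integral_exp_smul]
      have h1 : (fun v : ℝ => cexp (↑(-2 * π * v * t) * I) • f v) =
          Set.indicator (Set.Ioi 0) (fun v : ℝ => cexp ((-2 * π * t * I) * (v : ℂ)) * g v) := by
        ext v
        by_cases hv : v ∈ Set.Ioi (0 : ℝ)
        · rw [Set.indicator_of_mem hv]
          change _ • Set.indicator (Set.Ioi 0) g v = _
          rw [Set.indicator_of_mem hv, smul_eq_mul]
          congr 2
          push_cast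
          ring
        · rw [Set.indicator_of_notMem hv]
          change _ • Set.indicator (Set.Ioi 0) g v = _
          rw [Set.indicator_of_notMem hv, smul_zero]
      rw [h1, integral_indicator measurableSet_Ioi,
        ← integral_comp_rpow_Ioi _ (p := 2) two_ne_zero,
        setIntegral_congr_fun measurableSet_Ioi fun s hs => hg s hs _]
      rw [integral_const_mul]
      have hre : A < π * ((w₀ : ℂ) - (-2 * π * t * I) / π).re := by
        have hpi : (π : ℂ) ≠ 0 := by exact_mod_cast Real.pi_pos.ne'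
        have : (w₀ : ℂ) - (-2 * π * t * I) / π = w₀ + ((2 * t : ℝ) : ℂ) * I := by
          push_cast
          field_simp
          ring
        rw [this]
        simpa using hw₀
      rw [BI4_half _ (BI4_integrable V hV K A hb _ hre) (fun s => by
        rw [hev]; push_cast; rw [neg_sq]) (h0 _ hre), mul_zero]
      rfl
    have hcont : ContinuousAt f (x ^ 2) := by
      have h1 : f =ᶠ[nhds (x ^ 2)] g := by
        filter_upwards [isOpen_Ioi.mem_nhds (show x ^ 2 ∈ Set.Ioi (0 : ℝ) from by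
          have := pow_pos hx 2; exact this)] with v hv
        exact Set.indicator_of_mem hv g
      refine ContinuousAt.congr ?_ h1.symm
      have h2 : ContinuousAt (fun v : ℝ => V (√v)) (x ^ 2) :=
        (hV.comp Real.continuous_sqrt).continuousAt
      have h3 : ContinuousAt (fun v : ℝ => ((√v : ℝ) : ℂ)⁻¹) (x ^ 2) := by
        refine ContinuousAt.inv₀ (by fun_prop) ?_
        rw [Real.sqrt_sq hx.le]
        exact_mod_cast hx.ne'
      exact (h2.mul h3).mul (by fun_prop)
    have h5 := hf.fourierInv_fourier_eq (by rw [hft]; exact integrable_zero _ _ _) hcont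
    rw [hft] at h5
    have h6 : f (x ^ 2) = 0 := by
      rw [← h5, Real.fourierInv_eq]
      simp
    change Set.indicator (Set.Ioi 0) g (x ^ 2) = 0 at h6
    rw [Set.indicator_of_mem (show x ^ 2 ∈ Set.Ioi (0 : ℝ) from by
          have := pow_pos hx 2; exact this)] at h6
    change V (√(x ^ 2)) * ((√(x ^ 2) : ℝ) : ℂ)⁻¹ * cexp _ = 0 at h6
    rw [Real.sqrt_sq hx.le] at h6
    rcases mul_eq_zero.mp h6 with h7 | h7
    · rcases mul_eq_zero.mp h7 with h8 | h8
      · exact h8
      · exfalso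
        rw [inv_eq_zero] at h8
        exact hx.ne' (by exact_mod_cast h8)
    · exact absurd h7 (Complex.exp_ne_zero _)
  rcases lt_trichotomy y 0 with hy | hy | hy
  · rw [← hev]
    exact hpos _ (by linarith)
  · subst hy
    have hcl : IsClosed {z : ℝ | V z = 0} := isClosed_eq hV continuous_const
    have hmem : (0 : ℝ) ∈ closure (Set.Ioi (0 : ℝ)) := by rw [closure_Ioi]; exact Set.self_mem_Ici
    exact closure_minimal (fun z hz => hpos z hz) hcl hmem
  · exact hpos y hy

end RV11
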