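import Pool.Agent.LibRV11.BI2

open Complex Real MeasureTheory Filter Topology

namespace RV11

/-- `b * g_ε`. -/
noncomputable def bconv (b : SchwartzMap ℝ ℝ) (ε x : ℝ) : ℝ := ∫ y : ℝ, b y * ehB ε y x

theorem BI5a_nonneg {ε y x : ℝ} : 0 ≤ ehB ε y x := by
  unfold ehB
  positivity

theorem BI5a_le {ε y x : ℝ} (hε : 0 < ε) : ehB ε y x ≤ 1 / Real.sqrt ε := by
  unfold ehB
  have hs : 0 < Real.sqrt ε := Real.sqrt_pos.mpr hε
  have h1 : Real.exp (-(π * (x - y) ^ 2 / ε)) ≤ 1 := by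
    rw [Real.exp_le_one_iff]
    have := Real.pi_pos
    have : 0 ≤ π * (x - y) ^ 2 / ε := by positivity
    linarith
  have h2 : Real.exp (-(π * (x + y) ^ 2 / ε)) ≤ 1 := by
    rw [Real.exp_le_one_iff]
    have := Real.pi_pos
    have : 0 ≤ π * (x + y) ^ 2 / ε := by positivity
    linarith
  rw [div_le_div_iff₀ (by positivity) hs]
  nlinarith

theorem BI5a_cont (ε x : ℝ) : Continuous fun y : ℝ => ehB ε y x := by
  unfold ehB
  fun_prop

theorem bconv_integrable (b : SchwartzMap ℝ ℝ) {ε x : ℝ} (hε : 0 < ε) :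
    Integrable (fun y : ℝ => b y * ehB ε y x) := by
  have h1 : Integrable (fun y : ℝ => (1 / Real.sqrt ε) * ‖b y‖) := b.integrable.norm.const_mul _
  refine h1.mono' ((b.continuous.mul (BI5a_cont ε x)).aestronglyMeasurable)
    (Eventually.of_forall fun y => ?_)
  rw [norm_mul, mul_comm, Real.norm_of_nonneg BI5a_nonneg]
  exact mul_le_mul_of_nonneg_right (BI5a_le hε) (norm_nonneg _)

theorem BI5a_decay (b : SchwartzMap ℝ ℝ) : ∃ C : ℝ, 0 < C ∧ ∀ y, (1 + y ^ 2) ^ 2 * |b y| ≤ C := by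
  obtain ⟨C0, hC0, h0⟩ := b.decay 0 0
  obtain ⟨C4, hC4, h4⟩ := b.decay 4 0
  refine ⟨2 * (C0 + C4), by positivity, fun y => ?_⟩
  have e0 := h0 y
  have e4 := h4 y
  rw [norm_iteratedFDeriv_zero, Real.norm_eq_abs, Real.norm_eq_abs] at e0 e4
  rw [pow_zero, one_mul] at e0
  have e5 : |y| ^ 4 = y ^ 4 := by
    rw [← abs_pow, abs_of_nonneg (by positivity)]
  rw [e5] at e4
  have h5 : (1 + y ^ 2) ^ 2 ≤ 2 * (1 + y ^ 4) := by nlinarith [sq_nonneg (1 - y ^ 2)]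
  calc (1 + y ^ 2) ^ 2 * |b y| ≤ 2 * (1 + y ^ 4) * |b y| :=
        mul_le_mul_of_nonneg_right h5 (abs_nonneg _)
    _ = 2 * (|b y| + y ^ 4 * |b y|) := by ring
    _ ≤ 2 * (C0 + C4) := by linarith

/-- Peetre and the exponential: `(1 + x²)² e^{-πs²/ε} ≤ 4 (1 + y²)² e^{-(π-2)s²/ε}` for
`x = y + s` or `x = s - y`. -/
theorem BI5a_peetre {ε x y s : ℝ} (hε : 0 < ε) (hε1 : ε ≤ 1) (hs : x ^ 2 ≤ 2 * y ^ 2 + 2 * s ^ 2) :
    (1 + x ^ 2) ^ 2 * Real.exp (-(π * s ^ 2 / ε)) ≤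
      4 * ((1 + y ^ 2) ^ 2 * Real.exp (-((π - 2) / ε) * s ^ 2)) := by
  have h1 : 1 + x ^ 2 ≤ 2 * ((1 + y ^ 2) * (1 + s ^ 2)) := by
    nlinarith [sq_nonneg (y * s), sq_nonneg y, sq_nonneg s]
  have h2 : (1 + x ^ 2) ^ 2 ≤ 4 * ((1 + y ^ 2) ^ 2 * (1 + s ^ 2) ^ 2) := by
    have h0 : (0 : ℝ) ≤ 1 + x ^ 2 := by positivity
    calc (1 + x ^ 2) ^ 2 ≤ (2 * ((1 + y ^ 2) * (1 + s ^ 2))) ^ 2 := pow_le_pow_left₀ h0 h1 2
      _ = _ := by ring
  have h3 : (1 + s ^ 2) ^ 2 ≤ Real.exp (2 * (s ^ 2 / ε)) := by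
    have h4 : 1 + s ^ 2 ≤ Real.exp (s ^ 2) := by
      have := Real.add_one_le_exp (s ^ 2); linarith
    have h5 : s ^ 2 ≤ s ^ 2 / ε := by
      rw [le_div_iff₀ hε]
      nlinarith [sq_nonneg s]
    calc (1 + s ^ 2) ^ 2 ≤ (Real.exp (s ^ 2)) ^ 2 := pow_le_pow_left₀ (by positivity) h4 2
      _ = Real.exp (2 * s ^ 2) := by rw [← Real.exp_nat_mul]; norm_num
      _ ≤ _ := Real.exp_le_exp.mpr (by linarith)
  have h6 : Real.exp (2 * (s ^ 2 / ε)) * Real.exp (-(π * s ^ 2 / ε)) =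
      Real.exp (-((π - 2) / ε) * s ^ 2) := by
    rw [← Real.exp_add]
    congr 1
    field_simp
    ring
  calc (1 + x ^ 2) ^ 2 * Real.exp (-(π * s ^ 2 / ε)) ≤
      4 * ((1 + y ^ 2) ^ 2 * (1 + s ^ 2) ^ 2) * Real.exp (-(π * s ^ 2 / ε)) :=
        mul_le_mul_of_nonneg_right h2 (Real.exp_nonneg _)
    _ = 4 * ((1 + y ^ 2) ^ 2 * ((1 + s ^ 2) ^ 2 * Real.exp (-(π * s ^ 2 / ε)))) := by ring
    _ ≤ 4 * ((1 + y ^ 2) ^ 2 * (Real.exp (2 * (s ^ 2 / ε)) * Real.exp (-(π * s ^ 2 / ε)))) := by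
        gcongr
    _ = _ := by rw [h6]

/-- `|b(y)| ≤ C (1+y²)^{-2}`, `(1+x²) ≤ 2(1+y²)(1+(x-y)²)` and the same with `x+y`, substitute
`s = √ε t` in the Gaussian integral. -/
theorem bconv_bound (b : SchwartzMap ℝ ℝ) : ∃ K : ℝ, ∀ ε : ℝ, 0 < ε → ε ≤ 1 → ∀ x : ℝ,
    ∫ y : ℝ, |b y| * ehB ε y x ≤ K / (1 + x ^ 2) ^ 2 := by
  obtain ⟨C, hC, hb⟩ := BI5a_decay b
  have hpi : 0 < π - 2 := by have := Real.pi_gt_three; linarith
  refine ⟨4 * C * Real.sqrt (π / (π - 2)), fun ε hε hε1 x => ?_⟩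
  have hsε : 0 < Real.sqrt ε := Real.sqrt_pos.mpr hε
  have hx : 0 < (1 + x ^ 2) ^ 2 := by positivity
  let E : ℝ → ℝ := fun s => Real.exp (-((π - 2) / ε) * s ^ 2)
  have hE : Integrable E := integrable_exp_neg_mul_sq (div_pos hpi hε)
  have hE1 : Integrable fun y => E (x - y) := hE.comp_sub_left x
  have hE2 : Integrable fun y => E (x + y) := hE.comp_add_left x
  have hIE : ∫ s, E s = Real.sqrt ε * Real.sqrt (π / (π - 2)) := by
    change ∫ s : ℝ, Real.exp (-((π - 2) / ε) * s ^ 2) = _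
    rw [integral_gaussian, ← Real.sqrt_mul hε.le]
    congr 1
    field_simp
  have hpt : ∀ y, |b y| * ehB ε y x ≤
      (4 * C / (1 + x ^ 2) ^ 2 / (2 * Real.sqrt ε)) * (E (x - y) + E (x + y)) := by
    intro y
    have e1 := BI5a_peetre (x := x) (y := y) (s := x - y) hε hε1 (by nlinarith [sq_nonneg (x - 2 * y)])
    have e2 := BI5a_peetre (x := x) (y := y) (s := x + y) hε hε1 (by nlinarith [sq_nonneg (x + 2 * y)])
    have hby := hb y
    have e3 : (1 + x ^ 2) ^ 2 * (|b y| * (Real.exp (-(π * (x - y) ^ 2 / ε)) +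
        Real.exp (-(π * (x + y) ^ 2 / ε)))) ≤ 4 * C * (E (x - y) + E (x + y)) := by
      calc (1 + x ^ 2) ^ 2 * (|b y| * (Real.exp (-(π * (x - y) ^ 2 / ε)) +
        Real.exp (-(π * (x + y) ^ 2 / ε)))) =
          |b y| * ((1 + x ^ 2) ^ 2 * Real.exp (-(π * (x - y) ^ 2 / ε)) +
            (1 + x ^ 2) ^ 2 * Real.exp (-(π * (x + y) ^ 2 / ε))) := by ring
        _ ≤ |b y| * (4 * ((1 + y ^ 2) ^ 2 * E (x - y)) + 4 * ((1 + y ^ 2) ^ 2 * E (x + y))) :=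
            mul_le_mul_of_nonneg_left (add_le_add e1 e2) (abs_nonneg _)
        _ = 4 * ((1 + y ^ 2) ^ 2 * |b y|) * (E (x - y) + E (x + y)) := by ring
        _ ≤ 4 * C * (E (x - y) + E (x + y)) := by
            have : 0 ≤ E (x - y) + E (x + y) := add_nonneg (Real.exp_nonneg _) (Real.exp_nonneg _)
            gcongr
    unfold ehB
    rw [← mul_div_assoc, div_le_iff₀ (by positivity)]
    rw [← div_le_div_iff_of_pos_right hx] at e3
    calc |b y| * (Real.exp (-(π * (x - y) ^ 2 / ε)) + Real.exp (-(π * (x + y) ^ 2 / ε))) =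
        (1 + x ^ 2) ^ 2 * (|b y| * (Real.exp (-(π * (x - y) ^ 2 / ε)) +
        Real.exp (-(π * (x + y) ^ 2 / ε)))) / (1 + x ^ 2) ^ 2 := by field_simp
      _ ≤ _ := e3
      _ = _ := by field_simp
  have hint : Integrable fun y : ℝ => |b y| * ehB ε y x := by
    have := (bconv_integrable b (ε := ε) (x := x) hε).norm
    refine this.congr (Eventually.of_forall fun y => ?_)
    simp only [norm_mul, Real.norm_eq_abs, abs_of_nonneg (BI5a_nonneg (ε := ε) (y := y) (x := x))]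
  calc ∫ y : ℝ, |b y| * ehB ε y x ≤
      ∫ y, (4 * C / (1 + x ^ 2) ^ 2 / (2 * Real.sqrt ε)) * (E (x - y) + E (x + y)) :=
        integral_mono hint ((hE1.add hE2).const_mul _) hpt
    _ = (4 * C / (1 + x ^ 2) ^ 2 / (2 * Real.sqrt ε)) *
        (Real.sqrt ε * Real.sqrt (π / (π - 2)) + Real.sqrt ε * Real.sqrt (π / (π - 2))) := by
        rw [integral_const_mul, integral_add hE1 hE2, integral_sub_left_eq_self E volume x,
          integral_add_left_eq_self E x, hIE]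
    _ = _ := by field_simp; ring

end RV11
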