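import Pool.Agent.LibRV11.BI5a

open Complex Real MeasureTheory Filter Topology

namespace RV11

theorem BI5b_eq (b : SchwartzMap ℝ ℝ) (heven : ∀ x, b (-x) = b x) (x : ℝ) {ε : ℝ} (hε : 0 < ε) :
    bconv b ε x = ∫ t : ℝ, b (x - Real.sqrt ε * t) * Real.exp (-π * t ^ 2) := by
  have hs : 0 < Real.sqrt ε := Real.sqrt_pos.mpr hε
  have hpi := Real.pi_pos
  let g : ℝ → ℝ := fun s => Real.exp (-(π * s ^ 2 / ε))
  have hg : Integrable g := by
    have := integrable_exp_neg_mul_sq (b := π / ε) (by positivity)
    refine this.congr (Eventually.of_forall fun s => ?_)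
    change Real.exp _ = Real.exp _
    congr 1
    ring
  have hgc : Continuous g := by
    change Continuous fun s : ℝ => Real.exp (-(π * s ^ 2 / ε))
    fun_prop
  obtain ⟨C0, _, h0⟩ := b.decay 0 0
  have hb0 : ∀ y, |b y| ≤ C0 := by
    intro y
    have := h0 y
    rw [norm_iteratedFDeriv_zero, Real.norm_eq_abs, Real.norm_eq_abs, pow_zero, one_mul] at this
    exact this
  have h1 : Integrable fun y => b y * g (x - y) := by
    refine ((hg.comp_sub_left x).const_mul C0).mono'
      ((b.continuous.mul (hgc.comp (by fun_prop))).aestronglyMeasurable)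
      (Eventually.of_forall fun y => ?_)
    rw [norm_mul, Real.norm_of_nonneg (Real.exp_nonneg _), Real.norm_eq_abs]
    exact mul_le_mul_of_nonneg_right (hb0 y) (Real.exp_nonneg _)
  have h2 : Integrable fun y => b y * g (x + y) := by
    refine ((hg.comp_add_left x).const_mul C0).mono'
      ((b.continuous.mul (hgc.comp (by fun_prop))).aestronglyMeasurable)
      (Eventually.of_forall fun y => ?_)
    rw [norm_mul, Real.norm_of_nonneg (Real.exp_nonneg _), Real.norm_eq_abs]
    exact mul_le_mul_of_nonneg_right (hb0 y) (Real.exp_nonneg _)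
  have h3 : ∫ y, b y * g (x + y) = ∫ y, b y * g (x - y) := by
    rw [← integral_neg_eq_self (fun y => b y * g (x - y))]
    refine integral_congr_ae (Eventually.of_forall fun y => ?_)
    change b y * g (x + y) = b (-y) * g (x - -y)
    rw [heven, sub_neg_eq_add]
  have h4 : bconv b ε x = (Real.sqrt ε)⁻¹ * ∫ y, b y * g (x - y) := by
    unfold bconv
    have e1 : (fun y => b y * ehB ε y x) =
        fun y => (2 * Real.sqrt ε)⁻¹ * (b y * g (x - y) + b y * g (x + y)) := by
      ext y
      unfold ehB
      change _ = (2 * Real.sqrt ε)⁻¹ * (b y * Real.exp (-(π * (x - y) ^ 2 / ε)) +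
        b y * Real.exp (-(π * (x + y) ^ 2 / ε)))
      field_simp
    rw [e1, integral_const_mul, integral_add h1 h2, h3]
    field_simp
    ring
  have h5 := integral_sub_left_eq_self (fun s => b (x - s) * g s) volume x
  have h6 : (fun y => b (x - (x - y)) * g (x - y)) = fun y => b y * g (x - y) := by
    ext y
    rw [sub_sub_cancel]
  rw [h6] at h5
  have h7 := Measure.integral_comp_mul_left (fun s => b (x - s) * g s) (Real.sqrt ε)
  rw [h4, h5]
  rw [abs_of_pos (inv_pos.mpr hs), smul_eq_mul] at h7
  rw [← h7]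
  refine integral_congr_ae (Eventually.of_forall fun t => ?_)
  change b (x - √ε * t) * Real.exp (-(π * (√ε * t) ^ 2 / ε)) = _
  congr 2
  rw [mul_pow, Real.sq_sqrt hε.le]
  field_simp

/-- `b` even: `bconv b ε x = ∫ b(x - √ε t) e^{-πt²} dt → b x`. -/
theorem bconv_tendsto (b : SchwartzMap ℝ ℝ) (heven : ∀ x, b (-x) = b x) (x : ℝ) :
    Tendsto (fun ε : ℝ => bconv b ε x) (𝓝[>] 0) (𝓝 (b x)) := by
  obtain ⟨C0, _, h0⟩ := b.decay 0 0
  have hb0 : ∀ y, |b y| ≤ C0 := by
    intro y
    have := h0 y
    rw [norm_iteratedFDeriv_zero, Real.norm_eq_abs, Real.norm_eq_abs, pow_zero, one_mul] at this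
    exact this
  have hlim : ∫ t : ℝ, b x * Real.exp (-π * t ^ 2) = b x := by
    rw [integral_const_mul, integral_gaussian, div_self Real.pi_ne_zero, Real.sqrt_one, mul_one]
  have h1 : Tendsto (fun ε : ℝ => ∫ t : ℝ, b (x - Real.sqrt ε * t) * Real.exp (-π * t ^ 2))
      (𝓝[>] 0) (𝓝 (∫ t : ℝ, b x * Real.exp (-π * t ^ 2))) := by
    refine tendsto_integral_filter_of_dominated_convergence
      (fun t => C0 * Real.exp (-π * t ^ 2)) ?_ ?_ ?_ ?_
    · refine Eventually.of_forall fun ε => ?_
      exact ((b.continuous.comp (by fun_prop)).mul (by fun_prop)).aestronglyMeasurable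
    · refine Eventually.of_forall fun ε => Eventually.of_forall fun t => ?_
      rw [norm_mul, Real.norm_of_nonneg (Real.exp_nonneg _), Real.norm_eq_abs]
      exact mul_le_mul_of_nonneg_right (hb0 _) (Real.exp_nonneg _)
    · exact (integrable_exp_neg_mul_sq Real.pi_pos).const_mul C0
    · refine Eventually.of_forall fun t => ?_
      have h2 : Continuous fun ε : ℝ => b (x - Real.sqrt ε * t) * Real.exp (-π * t ^ 2) :=
        (b.continuous.comp (by fun_prop)).mul continuous_const
      have h3 := (h2.tendsto 0).mono_left (nhdsWithin_le_nhds (s := Set.Ioi 0))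
      simpa using h3
  rw [hlim] at h1
  refine h1.congr' ?_
  filter_upwards [self_mem_nhdsWithin] with ε hε
  exact (BI5b_eq b heven x hε).symm

end RV11
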