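import Pool.Agent.LibRV11.BI5a

open Complex Real MeasureTheory Filter Topology

namespace RV11

theorem BI6a_cos_integrable (b : SchwartzMap ℝ ℝ) (x : ℝ) :
    Integrable (fun y : ℝ => b y * Real.cos (2 * π * x * y)) := by
  refine (b.integrable (μ := volume)).norm.mono' ?_ (Filter.Eventually.of_forall fun y => ?_)
  · exact (b.continuous.mul (Real.continuous_cos.comp
      (continuous_const.mul continuous_id))).aestronglyMeasurable
  · rw [norm_mul]
    exact mul_le_of_le_one_right (norm_nonneg _) (by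
      rw [Real.norm_eq_abs]
      exact Real.abs_cos_le_one _)

/-- `∫ b(y) eB ε y x dy = e^{-πεx²} b(x)` if `b` is its own Fourier transform. -/
theorem integral_mul_eB (b : SchwartzMap ℝ ℝ)
    (hfour : ∀ ξ : ℝ, ∫ x : ℝ, (b x : ℂ) * cexp (-(2 * π * I * x * ξ)) = b ξ) (ε x : ℝ) :
    ∫ y : ℝ, b y * eB ε y x = Real.exp (-(π * ε * x ^ 2)) * b x := by
  have hre : ∀ y : ℝ, ((b y : ℂ) * cexp (-(2 * π * I * y * x))).re =
      b y * Real.cos (2 * π * x * y) := by
    intro y
    have h1 : (-(2 * π * I * y * x) : ℂ) = ((-(2 * π * x * y) : ℝ) : ℂ) * I := by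
      push_cast
      ring
    rw [h1, Complex.re_ofReal_mul, Complex.exp_ofReal_mul_I_re, Real.cos_neg]
  have hint : Integrable (fun y : ℝ => (b y : ℂ) * cexp (-(2 * π * I * y * x))) := by
    refine (b.integrable (μ := volume)).norm.mono' ?_ (Filter.Eventually.of_forall fun y => ?_)
    · refine Continuous.aestronglyMeasurable ?_
      exact (Complex.continuous_ofReal.comp b.continuous).mul (by fun_prop)
    · have h1 : (-(2 * π * I * y * x) : ℂ) = ((-(2 * π * x * y) : ℝ) : ℂ) * I := by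
        push_cast
        ring
      rw [norm_mul, h1, Complex.norm_exp_ofReal_mul_I, mul_one, Complex.norm_real]
  have h2 : ∫ y : ℝ, b y * Real.cos (2 * π * x * y) = b x := by
    have h3 := Complex.reCLM.integral_comp_comm hint
    simp only [Complex.reCLM_apply] at h3
    simp only [hre] at h3
    rw [h3, hfour x, Complex.ofReal_re]
  have h4 : ∀ y : ℝ, b y * eB ε y x =
      (b y * Real.cos (2 * π * x * y)) * Real.exp (-(π * ε * x ^ 2)) := by
    intro y
    unfold eB
    ring
  simp only [h4]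
  rw [integral_mul_const, h2, mul_comm]

theorem BI6a_eB_integrable (b : SchwartzMap ℝ ℝ) (ε x : ℝ) :
    Integrable (fun y : ℝ => b y * eB ε y x) := by
  have h4 : (fun y : ℝ => b y * eB ε y x) =
      fun y => (b y * Real.cos (2 * π * x * y)) * Real.exp (-(π * ε * x ^ 2)) := by
    funext y
    unfold eB
    ring
  rw [h4]
  exact (BI6a_cos_integrable b x).mul_const _

theorem BI6a_sum_integral (b : SchwartzMap ℝ ℝ)
    (hfour : ∀ ξ : ℝ, ∫ x : ℝ, (b x : ℂ) * cexp (-(2 * π * I * x * ξ)) = b ξ) {ε : ℝ}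
    (hε : 0 < ε) (x : ℝ) :
    ∫ y : ℝ, ((b y * (eB ε y x + ehB ε y x) : ℝ) : ℂ) =
      ((Real.exp (-(π * ε * x ^ 2)) * b x + bconv b ε x : ℝ) : ℂ) := by
  rw [integral_complex_ofReal]
  congr 1
  simp only [mul_add]
  rw [integral_add (BI6a_eB_integrable b ε x) (bconv_integrable b hε), integral_mul_eB b hfour]
  rfl

/-- Integrate `VB = 0` against `b` (exchange the sum and the integral). -/
theorem bconv_identity (x0 : ℝ) {c : ℕ → ℂ} {C : ℝ} (hc : ∀ n, ‖c n‖ ≤ C) (b : SchwartzMap ℝ ℝ)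
    (hfour : ∀ ξ : ℝ, ∫ x : ℝ, (b x : ℂ) * cexp (-(2 * π * I * x * ξ)) = b ξ)
    {ε : ℝ} (hε : 0 < ε) (hε1 : ε ≤ 1) (hV : ∀ y, VB x0 c ε y = 0) :
    ((Real.exp (-(π * ε * x0 ^ 2)) * b x0 + bconv b ε x0 : ℝ) : ℂ) =
      ∑' n : ℕ, c n * ((Real.exp (-(π * ε * n)) * b (Real.sqrt n) +
        bconv b ε (Real.sqrt n) : ℝ) : ℂ) := by
  have hC : 0 ≤ C := (norm_nonneg _).trans (hc 0)
  obtain ⟨K, hK⟩ := bconv_bound b
  set F : ℕ → ℝ → ℂ := fun n y =>
    c n * ((b y * (eB ε y (Real.sqrt n) + ehB ε y (Real.sqrt n)) : ℝ) : ℂ) with hF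
  have hsq : ∀ n : ℕ, Real.sqrt n ^ 2 = n := fun n => Real.sq_sqrt (Nat.cast_nonneg n)
  have hFint : ∀ n, Integrable (F n) := by
    intro n
    have h1 : Integrable (fun y : ℝ => b y * (eB ε y (Real.sqrt n) + ehB ε y (Real.sqrt n))) := by
      simp only [mul_add]
      exact (BI6a_eB_integrable b ε _).add (bconv_integrable b hε)
    exact h1.ofReal.const_mul (c n)
  have hFval : ∀ n, ∫ y, F n y = c n * ((Real.exp (-(π * ε * n)) * b (Real.sqrt n) +
        bconv b ε (Real.sqrt n) : ℝ) : ℂ) := by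
    intro n
    rw [hF]
    simp only
    rw [integral_const_mul, BI6a_sum_integral b hfour hε, hsq]
  have hFnorm : ∀ n, ∫ y, ‖F n y‖ ≤ C * (Real.exp (-(π * ε)) ^ n * ∫ y, ‖b y‖) +
      C * (K * (1 / ((n + 1 : ℕ) : ℝ) ^ 2)) := by
    intro n
    have hb1 : Integrable (fun y : ℝ => Real.exp (-(π * ε)) ^ n * ‖b y‖) :=
      (b.integrable (μ := volume)).norm.const_mul _
    have hb2 : Integrable (fun y : ℝ => |b y| * ehB ε y (Real.sqrt n)) := by
      have h1 := (bconv_integrable b (x := Real.sqrt n) hε).norm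
      refine h1.congr (Filter.Eventually.of_forall fun y => ?_)
      simp only [norm_mul, Real.norm_eq_abs]
      rw [abs_of_nonneg (ehB_nonneg : 0 ≤ ehB ε y (Real.sqrt n))]
    have hpt : ∀ y, ‖F n y‖ ≤ C * (Real.exp (-(π * ε)) ^ n * ‖b y‖ +
        |b y| * ehB ε y (Real.sqrt n)) := by
      intro y
      rw [hF]
      simp only
      rw [norm_mul, Complex.norm_real, norm_mul]
      refine mul_le_mul (hc n) ?_ (by positivity) hC
      have e1 : |eB ε y (Real.sqrt n)| ≤ Real.exp (-(π * ε)) ^ n := by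
        refine abs_eB_le.trans (le_of_eq ?_)
        rw [hsq, ← Real.exp_nat_mul]
        congr 1
        ring
      have e2 : ‖eB ε y (Real.sqrt n) + ehB ε y (Real.sqrt n)‖ ≤
          Real.exp (-(π * ε)) ^ n + ehB ε y (Real.sqrt n) := by
        rw [Real.norm_eq_abs]
        refine (abs_add_le _ _).trans ?_
        rw [abs_of_nonneg (ehB_nonneg : 0 ≤ ehB ε y (Real.sqrt n))]
        linarith
      refine (mul_le_mul_of_nonneg_left e2 (norm_nonneg _)).trans (le_of_eq ?_)
      rw [← Real.norm_eq_abs]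
      ring
    refine (integral_mono (hFint n).norm ((hb1.add hb2).const_mul C) hpt).trans ?_
    simp only [Pi.add_apply]
    rw [integral_const_mul, integral_add hb1 hb2, integral_const_mul, mul_add]
    have e3 := hK ε hε hε1 (Real.sqrt n)
    rw [hsq] at e3
    have e4 : K / (1 + (n : ℝ)) ^ 2 = K * (1 / ((n + 1 : ℕ) : ℝ) ^ 2) := by
      push_cast
      rw [add_comm (n : ℝ) 1]
      ring
    rw [e4] at e3
    have := mul_le_mul_of_nonneg_left e3 hC
    linarith
  have hsum : Summable fun n => ∫ y, ‖F n y‖ := by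
    refine Summable.of_nonneg_of_le (fun n => integral_nonneg fun y => norm_nonneg _) hFnorm ?_
    refine Summable.add ?_ ?_
    · refine Summable.mul_left _ (Summable.mul_right _ ?_)
      refine summable_geometric_of_lt_one (Real.exp_pos _).le ?_
      rw [Real.exp_lt_one_iff]
      have := mul_pos Real.pi_pos hε
      linarith
    · refine Summable.mul_left _ (Summable.mul_left _ ?_)
      exact (summable_nat_add_iff (f := fun m : ℕ => 1 / (m : ℝ) ^ 2) 1).mpr
        (Real.summable_one_div_nat_pow.mpr (by norm_num))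
  have hmain := (hasSum_integral_of_summable_integral_norm hFint hsum).tsum_eq
  have hpt : ∀ y, ∑' n, F n y = ((b y * (eB ε y x0 + ehB ε y x0) : ℝ) : ℂ) := by
    intro y
    have h1 := hV y
    unfold VB at h1
    rw [sub_eq_zero] at h1
    rw [Complex.ofReal_mul, h1, ← tsum_mul_left]
    refine tsum_congr fun n => ?_
    rw [hF]
    simp only
    rw [Complex.ofReal_mul]
    ring
  simp only [hpt, hFval] at hmain
  rw [hmain, BI6a_sum_integral b hfour hε]

end RV11
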