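import Pool.Agent.LibRV11.BI5b

open Complex Real MeasureTheory Filter Topology

namespace RV11

/-- Let `ε → 0` in `bconv_identity` (dominated convergence). -/
theorem interp_limit (x0 : ℝ) {c : ℕ → ℂ} {C : ℝ} (hc : ∀ n, ‖c n‖ ≤ C) (b : SchwartzMap ℝ ℝ)
    (heven : ∀ x, b (-x) = b x)
    (h : ∀ ε : ℝ, 0 < ε → ε ≤ 1 →
      ((Real.exp (-(π * ε * x0 ^ 2)) * b x0 + bconv b ε x0 : ℝ) : ℂ) =
      ∑' n : ℕ, c n * ((Real.exp (-(π * ε * n)) * b (Real.sqrt n) +
        bconv b ε (Real.sqrt n) : ℝ) : ℂ)) :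
    (b x0 : ℂ) = ∑' n : ℕ, c n * b (Real.sqrt n) := by
  have hC : 0 ≤ C := (norm_nonneg _).trans (hc 0)
  have hπ := Real.pi_pos
  obtain ⟨K, hK⟩ := bconv_bound b
  have hev : ∀ᶠ ε : ℝ in 𝓝[>] 0, 0 < ε ∧ ε ≤ 1 := by
    have h1 : ∀ᶠ ε : ℝ in 𝓝[>] 0, ε ∈ Set.Ioc (0 : ℝ) 1 := Ioc_mem_nhdsGT one_pos
    filter_upwards [h1] with ε hε
    exact ⟨hε.1, hε.2⟩
  have hbc : ∀ ε : ℝ, 0 < ε → ε ≤ 1 → ∀ x, |bconv b ε x| ≤ K / (1 + x ^ 2) ^ 2 := by
    intro ε h0 h1 x
    refine le_trans ?_ (hK ε h0 h1 x)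
    rw [bconv]
    refine (abs_integral_le_integral_abs).trans (le_of_eq ?_)
    congr 1
    ext y
    rw [abs_mul, abs_of_nonneg ehB_nonneg]
  have hb : ∀ x, |b x| ≤ K / (1 + x ^ 2) ^ 2 := by
    intro x
    have h1 := (bconv_tendsto b heven x).abs
    apply le_of_tendsto h1
    filter_upwards [hev] with ε hε
    exact hbc ε hε.1 hε.2 x
  have hlim : ∀ x t : ℝ, Tendsto (fun ε : ℝ => ((Real.exp (-(π * ε * t)) * b x +
      bconv b ε x : ℝ) : ℂ)) (𝓝[>] 0) (𝓝 ((2 * b x : ℝ) : ℂ)) := by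
    intro x t
    apply (Complex.continuous_ofReal.tendsto _).comp
    have h1 : Tendsto (fun ε : ℝ => Real.exp (-(π * ε * t)) * b x) (𝓝[>] 0) (𝓝 (b x)) := by
      have h2 : Continuous fun ε : ℝ => Real.exp (-(π * ε * t)) * b x := by fun_prop
      have h3 := h2.tendsto 0
      simp only [mul_zero, zero_mul, neg_zero, Real.exp_zero, one_mul] at h3
      exact h3.mono_left nhdsWithin_le_nhds
    have := h1.add (bconv_tendsto b heven x)
    rwa [← two_mul] at this
  have hsq : ∀ n : ℕ, Real.sqrt n ^ 2 = n := fun n => Real.sq_sqrt (Nat.cast_nonneg n)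
  have hsumm : Summable fun n : ℕ => C * (2 * (K / (1 + (n : ℝ)) ^ 2)) := by
    apply Summable.mul_left
    apply Summable.mul_left
    have h1 : Summable fun n : ℕ => 1 / ((n : ℝ) + 1) ^ 2 := by
      have := (summable_nat_add_iff 1).2 (Real.summable_one_div_nat_pow.2 (one_lt_two))
      refine this.congr fun n => ?_
      push_cast
      rfl
    refine (h1.mul_left K).congr fun n => ?_
    rw [add_comm (n : ℝ) 1]
    ring
  have hK0 : 0 ≤ K := by
    have := (abs_nonneg _).trans (hb 0)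
    simpa using this
  have ht : Tendsto (fun ε : ℝ => ∑' n : ℕ, c n * ((Real.exp (-(π * ε * n)) * b (Real.sqrt n) +
      bconv b ε (Real.sqrt n) : ℝ) : ℂ)) (𝓝[>] 0)
      (𝓝 (∑' n : ℕ, c n * ((2 * b (Real.sqrt n) : ℝ) : ℂ))) := by
    apply tendsto_tsum_of_dominated_convergence hsumm
    · intro n
      exact (hlim (Real.sqrt n) n).const_mul (c n)
    · filter_upwards [hev] with ε hε n
      rw [norm_mul, Complex.norm_real, Real.norm_eq_abs]
      apply mul_le_mul (hc n) _ (abs_nonneg _) hC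
      refine (abs_add_le _ _).trans ?_
      have h1 := hb (Real.sqrt n)
      have h2 := hbc ε hε.1 hε.2 (Real.sqrt n)
      rw [hsq] at h1 h2
      have h3 : |Real.exp (-(π * ε * n)) * b (Real.sqrt n)| ≤ K / (1 + (n : ℝ)) ^ 2 := by
        rw [abs_mul, abs_of_pos (Real.exp_pos _)]
        have h4 : Real.exp (-(π * ε * n)) ≤ 1 := by
          rw [Real.exp_le_one_iff]
          have := hε.1
          have : 0 ≤ π * ε * n := by positivity
          linarith
        calc _ ≤ 1 * |b (Real.sqrt n)| := by gcongr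
          _ ≤ _ := by rw [one_mul]; exact h1
      linarith
  have hfin := tendsto_nhds_unique ((hlim x0 (x0 ^ 2)).congr' (by
    filter_upwards [hev] with ε hε
    exact h ε hε.1 hε.2)) ht
  have h2 : (2 : ℂ) ≠ 0 := two_ne_zero
  apply mul_left_cancel₀ h2
  rw [← tsum_mul_left]
  rw [Complex.ofReal_mul, Complex.ofReal_ofNat] at hfin
  rw [hfin]
  apply tsum_congr
  intro n
  push_cast
  ring

end RV11
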