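import Pool.Agent.LibRV11.BI3
import Pool.Agent.LibRV11.BI4
import Pool.Agent.LibRV11.BI6a
import Pool.Agent.LibRV11.BI6b

open Complex Real MeasureTheory Filter Topology

namespace RV11

theorem VB_eq_zero (x0 : ℝ) {c : ℕ → ℂ} {C : ℝ} (hc : ∀ n, ‖c n‖ ≤ C)
    (hF : ∀ τ : ℂ, 0 < τ.im →
      ∑' n : ℕ, c n * (cexp (π * I * n * τ) + (-I * τ) ^ (-(1 / 2) : ℂ) *
          cexp (π * I * n * (-1 / τ))) =
        cexp (π * I * (x0 ^ 2 : ℝ) * τ) + (-I * τ) ^ (-(1 / 2) : ℂ) *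
          cexp (π * I * (x0 ^ 2 : ℝ) * (-1 / τ)))
    {ε : ℝ} (hε : 0 < ε) (y : ℝ) : VB x0 c ε y = 0 := by
  obtain ⟨K, hK⟩ := VB_bound x0 hc hε
  refine gauss_inj _ (VB_continuous x0 hc hε) (VB_even x0 c ε) K (π / ε) hK ?_ y
  intro w hw
  refine VB_gauss x0 hc hF hε ?_
  have h1 : π * (1 / ε) < π * w.re := by rw [mul_one_div]; exact hw
  exact lt_of_mul_lt_mul_left h1 Real.pi_pos.le

theorem interp' (x0 C : ℝ) (c : ℕ → ℂ) (hc : ∀ n, ‖c n‖ ≤ C)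
    (hF : ∀ τ : ℂ, 0 < τ.im →
      ∑' n : ℕ, c n * (cexp (π * I * n * τ) + (-I * τ) ^ (-(1 / 2) : ℂ) *
          cexp (π * I * n * (-1 / τ))) =
        cexp (π * I * (x0 ^ 2 : ℝ) * τ) + (-I * τ) ^ (-(1 / 2) : ℂ) *
          cexp (π * I * (x0 ^ 2 : ℝ) * (-1 / τ)))
    (b : SchwartzMap ℝ ℝ) (heven : ∀ x, b (-x) = b x)
    (hfour : ∀ ξ : ℝ, ∫ x : ℝ, (b x : ℂ) * cexp (-(2 * π * I * x * ξ)) = b ξ) :
    (b x0 : ℂ) = ∑' n : ℕ, c n * b (Real.sqrt n) :=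
  interp_limit x0 hc b heven fun _ hε hε1 =>
    bconv_identity x0 hc b hfour hε hε1 fun y => VB_eq_zero x0 hc hF hε y

end RV11
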