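import Pool.Agent.LibRV11.Defs

open Complex Real MeasureTheory
open UpperHalfPlane hiding I
open scoped MatrixGroups

namespace RV11

/-- The smooth amplitude of `II`. -/
noncomputable def ampI (h : ℝ → ℝ) (ρ s Y : ℝ) : ℂ :=
  ((h Y * h (Y / (s ^ 2 + (ρ * Y) ^ 2)) * Real.sqrt (Y / (s ^ 2 + (ρ * Y) ^ 2)) *
      Real.exp (π * (Y + Y / (s ^ 2 + (ρ * Y) ^ 2))) / Y : ℝ) : ℂ) *
    (-I * (s + I * (ρ * Y))) ^ (-(1 / 2) : ℂ)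

/-- The phase of `II`. -/
noncomputable def phsI (ρ s Y : ℝ) : ℝ := -(π * (s / ρ) * (1 + 1 / (s ^ 2 + (ρ * Y) ^ 2)))

/-- The integrand of `II`. -/
noncomputable def fI (h R : ℝ → ℝ) (ρ s Y : ℝ) : ℂ :=
  R (Real.arctan (ρ * Y / s)) * ampI h ρ s Y * cexp (I * phsI ρ s Y)

/-- the half of `II` over `s > 0` -/
noncomputable def IIp (h R : ℝ → ℝ) (ρ : ℝ) : ℂ :=
  ∫ s in (7 / 10 : ℝ)..(71 / 50), ∫ Y in (1 : ℝ)..2, fI h R ρ s Y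

end RV11
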