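import Pool.Agent.LibRV11.CI0

open Complex Real MeasureTheory
open UpperHalfPlane hiding I
open scoped MatrixGroups

namespace RV11

theorem II_eq (h R : ℝ → ℝ) (ρ : ℝ) : II h R ρ = ∫ s : ℝ, ∫ Y in (1 : ℝ)..2, fI h R ρ s Y := by
  have key : ∀ s Y : ℝ, ((R (Real.arctan (ρ * Y / s)) * h Y * h (Y / (s ^ 2 + (ρ * Y) ^ 2)) *
      Real.sqrt (Y / (s ^ 2 + (ρ * Y) ^ 2)) *
      Real.exp (π * (Y + Y / (s ^ 2 + (ρ * Y) ^ 2))) / Y : ℝ) : ℂ) *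
    (-I * (s + I * (ρ * Y))) ^ (-(1 / 2) : ℂ) *
    cexp (-(π * I * (s / ρ) * (1 + 1 / (s ^ 2 + (ρ * Y) ^ 2)))) = fI h R ρ s Y := by
    intro s Y
    have e1 : (-(π * I * (s / ρ) * (1 + 1 / (s ^ 2 + (ρ * Y) ^ 2))) : ℂ) =
        I * (phsI ρ s Y : ℝ) := by
      rw [phsI]
      push_cast
      ring
    have e2 : ((R (Real.arctan (ρ * Y / s)) * h Y * h (Y / (s ^ 2 + (ρ * Y) ^ 2)) *
      Real.sqrt (Y / (s ^ 2 + (ρ * Y) ^ 2)) *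
      Real.exp (π * (Y + Y / (s ^ 2 + (ρ * Y) ^ 2))) / Y : ℝ) : ℂ) =
      (R (Real.arctan (ρ * Y / s)) : ℂ) * ((h Y * h (Y / (s ^ 2 + (ρ * Y) ^ 2)) *
      Real.sqrt (Y / (s ^ 2 + (ρ * Y) ^ 2)) *
      Real.exp (π * (Y + Y / (s ^ 2 + (ρ * Y) ^ 2))) / Y : ℝ) : ℂ) := by
      rw [← Complex.ofReal_mul]
      congr 1
      ring
    rw [e1, e2, fI, ampI]
    ring
  rw [II]
  simp only [key]

/-- support: `1 ≤ Y ≤ 2`, `1 < Y' < 2`, `|ρY/s| ≤ tan δ ≤ 0.126`. -/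
theorem fI_supp {h : ℝ → ℝ} (hh : IsBump h) {δ : ℝ} (hδ : 0 < δ) (hδ' : δ ≤ 1 / 8) {R : ℝ → ℝ}
    (hR : ∀ α, δ < |α| → R α = 0) {ρ s Y : ℝ} (hρ : 0 < ρ) (hs : s ≠ 0) (hY : Y ∈ Set.Icc 1 2)
    (hf : fI h R ρ s Y ≠ 0) :
    7 / 10 ≤ |s| ∧ |s| ≤ 71 / 50 ∧ ρ * Y ≤ 13 / 100 * |s| ∧ ρ * Y ≤ 2 * δ * |s| ∧ ρ ≤ 4 * δ := by
  obtain ⟨hY1, hY2⟩ := hY
  have hR0 : R (Real.arctan (ρ * Y / s)) ≠ 0 := by
    intro h0
    apply hf
    rw [fI, h0]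
    simp
  have hhY : h Y ≠ 0 := by
    intro h0
    apply hf
    rw [fI, ampI, h0]
    simp
  have hhY' : h (Y / (s ^ 2 + (ρ * Y) ^ 2)) ≠ 0 := by
    intro h0
    apply hf
    rw [fI, ampI, h0]
    simp
  have hY1' : 1 < Y ∧ Y < 2 := by
    by_contra hc
    rw [not_and_or, not_lt, not_lt] at hc
    exact hhY (hh.supp Y hc)
  have hYp : 1 < Y / (s ^ 2 + (ρ * Y) ^ 2) ∧ Y / (s ^ 2 + (ρ * Y) ^ 2) < 2 := by
    by_contra hc
    rw [not_and_or, not_lt, not_lt] at hc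
    exact hhY' (hh.supp _ hc)
  have hs2 : 0 < s ^ 2 := by positivity
  have hD : 0 < s ^ 2 + (ρ * Y) ^ 2 := by positivity
  rw [lt_div_iff₀ hD, div_lt_iff₀ hD, one_mul] at hYp
  obtain ⟨hp1, hp2⟩ := hYp
  have hat : |Real.arctan (ρ * Y / s)| ≤ δ := by
    by_contra hc
    rw [not_le] at hc
    exact hR0 (hR _ hc)
  -- the tangent bound
  have hpi : δ < π / 2 := by linarith [Real.pi_gt_three]
  have htan : Real.tan δ ≤ 128 / 127 * δ := by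
    have h1 : Real.sin δ ≤ δ := Real.sin_le hδ.le
    have h2 : 1 - δ ^ 2 / 2 ≤ Real.cos δ := Real.one_sub_sq_div_two_le_cos
    have h3 : 127 / 128 ≤ Real.cos δ := by nlinarith
    have h4 : 0 < Real.cos δ := by linarith
    rw [Real.tan_eq_sin_div_cos, div_le_iff₀ h4]
    nlinarith
  have hmono : ∀ x : ℝ, Real.arctan x ≤ δ → x ≤ Real.tan δ := by
    intro x hx
    have h1 := Real.strictMonoOn_tan.monotoneOn
      (⟨Real.neg_pi_div_two_lt_arctan x, Real.arctan_lt_pi_div_two x⟩ :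
        Real.arctan x ∈ Set.Ioo (-(π / 2)) (π / 2))
      (⟨by linarith [Real.pi_pos], hpi⟩ : δ ∈ Set.Ioo (-(π / 2)) (π / 2)) hx
    rwa [Real.tan_arctan] at h1
  obtain ⟨ha1, ha2⟩ := abs_le.mp hat
  have hx : |ρ * Y / s| ≤ 128 / 127 * δ := by
    rw [abs_le]
    constructor
    · have := hmono (-(ρ * Y / s)) (by rw [Real.arctan_neg]; linarith)
      linarith
    · exact (hmono _ ha2).trans htan
  have hρY : 0 < ρ * Y := by positivity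
  have hsa : 0 < |s| := abs_pos.mpr hs
  rw [abs_div, abs_of_pos hρY, div_le_iff₀ hsa] at hx
  have hs2' : |s| ^ 2 = s ^ 2 := sq_abs s
  have hb1 : ρ * Y ≤ 13 / 100 * |s| := by nlinarith
  have hb2 : ρ * Y ≤ 2 * δ * |s| := by nlinarith [mul_pos hδ hsa]
  have hb3 : |s| ≤ 71 / 50 := by
    by_contra hc
    rw [not_le] at hc
    nlinarith [sq_nonneg (ρ * Y)]
  have hb4 : 7 / 10 ≤ |s| := by
    by_contra hc
    rw [not_le] at hc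
    have h1 : (ρ * Y) ^ 2 ≤ (13 / 100 * |s|) ^ 2 := pow_le_pow_left₀ hρY.le hb1 2
    nlinarith
  refine ⟨hb4, hb3, hb1, hb2, ?_⟩
  have h1 : ρ ≤ ρ * Y := by nlinarith
  nlinarith

end RV11
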