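import Pool.Agent.LibRV11.CI0

open Complex Real MeasureTheory
open UpperHalfPlane hiding I
open scoped MatrixGroups

namespace RV11

/-- `fI(ρ,-s,Y) = conj fI(ρ,s,Y)` with `R` reflected. -/
theorem fI_neg (h R : ℝ → ℝ) {ρ s Y : ℝ} (hρ : 0 < ρ) (hs : 0 < s) (hY : 0 < Y) :
    fI h R ρ (-s) Y = (starRingEnd ℂ) (fI h (fun α => R (-α)) ρ s Y) := by
  have e1 : Real.arctan (ρ * Y / -s) = -Real.arctan (ρ * Y / s) := by
    rw [div_neg, Real.arctan_neg]
  have hρY : 0 < ρ * Y := by positivity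
  have hre : (-I * ((s : ℂ) + I * ((ρ : ℂ) * Y))).re = ρ * Y := by
    simp
  have harg : (-I * ((s : ℂ) + I * ((ρ : ℂ) * Y))).arg ≠ π := by
    intro hc
    rw [Complex.arg_eq_pi_iff, hre] at hc
    linarith [hc.1]
  have e2 : (-I * (((-s : ℝ) : ℂ) + I * ((ρ : ℂ) * Y))) ^ (-(1 / 2) : ℂ) =
      (starRingEnd ℂ) ((-I * ((s : ℂ) + I * ((ρ : ℂ) * Y))) ^ (-(1 / 2) : ℂ)) := by
    have h1 : -I * (((-s : ℝ) : ℂ) + I * ((ρ : ℂ) * Y)) =
        (starRingEnd ℂ) (-I * ((s : ℂ) + I * ((ρ : ℂ) * Y))) := by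
      simp only [map_mul, map_add, map_neg, Complex.conj_I, Complex.conj_ofReal]
      push_cast
      ring
    have h2 : (-(1 / 2) : ℂ) = (starRingEnd ℂ) (-(1 / 2) : ℂ) := by
      have : (-(1 / 2) : ℂ) = ((-(1 / 2) : ℝ) : ℂ) := by push_cast; ring
      rw [this, Complex.conj_ofReal]
    rw [h1, Complex.conj_cpow _ _ harg, ← h2]
  have e3 : phsI ρ (-s) Y = -phsI ρ s Y := by
    rw [phsI, phsI, neg_sq]
    ring
  have e4 : cexp (I * ((-phsI ρ s Y : ℝ) : ℂ)) =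
      (starRingEnd ℂ) (cexp (I * ((phsI ρ s Y : ℝ) : ℂ))) := by
    rw [← Complex.exp_conj]
    congr 1
    simp
  rw [fI, fI, e1, e3, e4, ampI, ampI, e2, map_mul, map_mul, map_mul, Complex.conj_ofReal,
    Complex.conj_ofReal, neg_sq]

/-- `R` continuous. -/
theorem fI_continuousOn {h : ℝ → ℝ} (hh : IsBump h) {R : ℝ → ℝ} (hRc : Continuous R) {ρ : ℝ}
    (hρ : 0 < ρ) : ContinuousOn (fun p : ℝ × ℝ => fI h R ρ p.1 p.2)
      (Set.Icc (7 / 10) (71 / 50) ×ˢ Set.Icc 1 2) := by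
  set K : Set (ℝ × ℝ) := Set.Icc (7 / 10) (71 / 50) ×ˢ Set.Icc 1 2 with hK
  have hs0 : ∀ p ∈ K, (0 : ℝ) < p.1 := fun p hp => by linarith [hp.1.1]
  have hY0 : ∀ p ∈ K, (0 : ℝ) < p.2 := fun p hp => by linarith [hp.2.1]
  have hD : ∀ p ∈ K, (0 : ℝ) < p.1 ^ 2 + (ρ * p.2) ^ 2 := fun p hp => by
    have := hs0 p hp
    positivity
  have c1 : ContinuousOn (fun p : ℝ × ℝ => p.1) K := continuous_fst.continuousOn
  have c2 : ContinuousOn (fun p : ℝ × ℝ => p.2) K := continuous_snd.continuousOn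
  have cD : ContinuousOn (fun p : ℝ × ℝ => p.1 ^ 2 + (ρ * p.2) ^ 2) K := by fun_prop
  have cYp : ContinuousOn (fun p : ℝ × ℝ => p.2 / (p.1 ^ 2 + (ρ * p.2) ^ 2)) K :=
    c2.div cD fun p hp => (hD p hp).ne'
  have hhc : Continuous h := hh.smooth.continuous
  have cR : ContinuousOn (fun p : ℝ × ℝ => R (Real.arctan (ρ * p.2 / p.1))) K := by
    refine (hRc.comp Real.continuous_arctan).comp_continuousOn ?_
    exact (c2.const_smul ρ).div c1 fun p hp => (hs0 p hp).ne'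
  have cA : ContinuousOn (fun p : ℝ × ℝ => (h p.2 * h (p.2 / (p.1 ^ 2 + (ρ * p.2) ^ 2)) *
      Real.sqrt (p.2 / (p.1 ^ 2 + (ρ * p.2) ^ 2)) *
      Real.exp (π * (p.2 + p.2 / (p.1 ^ 2 + (ρ * p.2) ^ 2))) / p.2 : ℝ)) K := by
    refine ContinuousOn.div ?_ c2 fun p hp => (hY0 p hp).ne'
    refine ContinuousOn.mul (ContinuousOn.mul (ContinuousOn.mul ?_ ?_) ?_) ?_
    · exact hhc.comp_continuousOn c2
    · exact hhc.comp_continuousOn cYp
    · exact Real.continuous_sqrt.comp_continuousOn cYp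
    · exact Real.continuous_exp.comp_continuousOn (continuousOn_const.mul (c2.add cYp))
  have cC : ContinuousOn (fun p : ℝ × ℝ =>
      (-I * ((p.1 : ℂ) + I * ((ρ : ℂ) * p.2))) ^ (-(1 / 2) : ℂ)) K := by
    refine ContinuousOn.cpow ?_ continuousOn_const ?_
    · fun_prop
    · intro p hp
      left
      have : (-I * ((p.1 : ℂ) + I * ((ρ : ℂ) * p.2))).re = ρ * p.2 := by simp
      rw [this]
      exact mul_pos hρ (hY0 p hp)
  have cP : ContinuousOn (fun p : ℝ × ℝ => phsI ρ p.1 p.2) K := by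
    unfold phsI
    refine ContinuousOn.neg ?_
    refine ContinuousOn.mul (by fun_prop) ?_
    refine continuousOn_const.add (continuousOn_const.div cD fun p hp => (hD p hp).ne')
  have cE : ContinuousOn (fun p : ℝ × ℝ => cexp (I * (phsI ρ p.1 p.2 : ℝ))) K :=
    Complex.continuous_exp.comp_continuousOn
      (continuousOn_const.mul (Complex.continuous_ofReal.comp_continuousOn cP))
  have cR' : ContinuousOn (fun p : ℝ × ℝ => ((R (Real.arctan (ρ * p.2 / p.1)) : ℝ) : ℂ)) K :=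
    Complex.continuous_ofReal.comp_continuousOn cR
  have cA' : ContinuousOn (fun p : ℝ × ℝ => (((h p.2 * h (p.2 / (p.1 ^ 2 + (ρ * p.2) ^ 2)) *
      Real.sqrt (p.2 / (p.1 ^ 2 + (ρ * p.2) ^ 2)) *
      Real.exp (π * (p.2 + p.2 / (p.1 ^ 2 + (ρ * p.2) ^ 2))) / p.2 : ℝ)) : ℂ)) K :=
    Complex.continuous_ofReal.comp_continuousOn cA
  exact (cR'.mul (cA'.mul cC)).mul cE

end RV11
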