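import Pool.Agent.LibRV11.CI1a
import Pool.Agent.LibRV11.CI1b

open Complex Real MeasureTheory
open UpperHalfPlane hiding I
open scoped MatrixGroups

namespace RV11

/-- the inner integral is integrable over the compact interval -/
theorem CI1c_integrable {h : ℝ → ℝ} (hh : IsBump h) {R : ℝ → ℝ} (hRc : Continuous R) {ρ : ℝ}
    (hρ : 0 < ρ) : IntegrableOn (fun s : ℝ => ∫ Y in (1 : ℝ)..2, fI h R ρ s Y)
      (Set.Icc (7 / 10) (71 / 50)) := by
  have h1 : IntegrableOn (fun p : ℝ × ℝ => fI h R ρ p.1 p.2)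
      (Set.Icc (7 / 10) (71 / 50) ×ˢ Set.Icc 1 2) :=
    (fI_continuousOn hh hRc hρ).integrableOn_compact (isCompact_Icc.prod isCompact_Icc)
  rw [IntegrableOn, Measure.volume_eq_prod, ← Measure.prod_restrict] at h1
  have h2 := h1.integral_prod_left
  refine h2.congr (Filter.Eventually.of_forall fun s => ?_)
  show ∫ Y in Set.Icc (1 : ℝ) 2, fI h R ρ s Y = ∫ Y in (1 : ℝ)..2, fI h R ρ s Y
  rw [intervalIntegral.integral_of_le (by norm_num), integral_Icc_eq_integral_Ioc]

theorem CI1c_zero {h : ℝ → ℝ} (hh : IsBump h) {δ : ℝ} (hδ : 0 < δ) (hδ' : δ ≤ 1 / 8) {R : ℝ → ℝ}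
    (hR : ∀ α, δ < |α| → R α = 0) {ρ : ℝ} (hρ : 0 < ρ) {s : ℝ} (hs : s ≠ 0)
    (hs' : ¬ (7 / 10 ≤ |s| ∧ |s| ≤ 71 / 50)) : ∫ Y in (1 : ℝ)..2, fI h R ρ s Y = 0 := by
  have : ∀ Y ∈ Set.uIcc (1 : ℝ) 2, fI h R ρ s Y = 0 := by
    intro Y hY
    rw [Set.uIcc_of_le (by norm_num)] at hY
    by_contra hc
    have := fI_supp hh hδ hδ' hR hρ hs hY hc
    exact hs' ⟨this.1, this.2.1⟩
  rw [intervalIntegral.integral_congr (g := fun _ => (0 : ℂ)) this]
  simp

/-- Split `ℝ` into `s>0`, `s<0` (the point `s=0` is a null set) and use `fI_supp`, `fI_neg`. -/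
theorem II_eq_IIp {h : ℝ → ℝ} (hh : IsBump h) {δ : ℝ} (hδ : 0 < δ) (hδ' : δ ≤ 1 / 8) {R : ℝ → ℝ}
    (hRc : Continuous R) (hR : ∀ α, δ < |α| → R α = 0) {ρ : ℝ} (hρ : 0 < ρ) :
    II h R ρ = IIp h R ρ + (starRingEnd ℂ) (IIp h (fun α => R (-α)) ρ) := by
  set g : ℝ → ℂ := fun s => ∫ Y in (1 : ℝ)..2, fI h R ρ s Y with hg
  set g' : ℝ → ℂ := fun s => ∫ Y in (1 : ℝ)..2, fI h (fun α => R (-α)) ρ s Y with hg'
  have hRc' : Continuous (fun α => R (-α)) := hRc.comp continuous_neg
  have hneg : ∀ s : ℝ, 0 < s → g (-s) = (starRingEnd ℂ) (g' s) := by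
    intro s hs
    show ∫ Y in (1 : ℝ)..2, fI h R ρ (-s) Y = _
    rw [hg']
    simp only
    rw [← intervalIntegral.intervalIntegral_conj]
    refine intervalIntegral.integral_congr fun Y hY => ?_
    rw [Set.uIcc_of_le (by norm_num)] at hY
    exact fI_neg h R hρ hs (by linarith [hY.1])
  have hi : IntegrableOn g (Set.Icc (7 / 10) (71 / 50)) := CI1c_integrable hh hRc hρ
  have hi' : IntegrableOn g' (Set.Icc (7 / 10) (71 / 50)) := CI1c_integrable hh hRc' hρ
  have hin : IntegrableOn g (Set.Icc (-(71 / 50)) (-(7 / 10))) := by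
    have h1 : IntegrableOn (fun s => (starRingEnd ℂ) (g' s)) (Set.Icc (7 / 10) (71 / 50)) := by
      have : Integrable (fun s => (starRingEnd ℂ) (g' s))
          (volume.restrict (Set.Icc (7 / 10) (71 / 50))) :=
        (Complex.conjCLE : ℂ →L[ℝ] ℂ).integrable_comp hi'
      exact this
    have h2 : IntegrableOn (fun s => g (-s)) (Set.Icc (7 / 10) (71 / 50)) := by
      refine h1.congr_fun (fun s hs => ?_) measurableSet_Icc
      exact (hneg s (by linarith [hs.1])).symm
    have h3 : MeasurePreserving (fun s : ℝ => -s) volume volume :=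
      Measure.measurePreserving_neg volume
    have h4 := h3.integrableOn_comp_preimage (MeasurableEquiv.neg ℝ).measurableEmbedding
      (f := g) (s := Set.Icc (-(71 / 50)) (-(7 / 10)))
    rw [← h4]
    have h5 : (fun s : ℝ => -s) ⁻¹' Set.Icc (-(71 / 50)) (-(7 / 10)) =
        Set.Icc (7 / 10) (71 / 50) := by
      ext s
      simp only [Set.mem_preimage, Set.mem_Icc, neg_le_neg_iff]
      exact and_comm
    rw [h5]
    exact h2
  have hsplit : ∀ᵐ s : ℝ, g s = (Set.Icc (7 / 10 : ℝ) (71 / 50)).indicator g s +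
      (Set.Icc (-(71 / 50) : ℝ) (-(7 / 10))).indicator g s := by
    have h0 : ∀ᵐ s : ℝ, s ≠ 0 := by
      have : (volume : Measure ℝ) {0} = 0 := measure_singleton 0
      rw [ae_iff]
      simpa using this
    filter_upwards [h0] with s hs
    by_cases h1 : s ∈ Set.Icc (7 / 10 : ℝ) (71 / 50)
    · have h2 : s ∉ Set.Icc (-(71 / 50) : ℝ) (-(7 / 10)) := fun h3 => by linarith [h1.1, h3.2]
      rw [Set.indicator_of_mem h1, Set.indicator_of_notMem h2, add_zero]
    · by_cases h2 : s ∈ Set.Icc (-(71 / 50) : ℝ) (-(7 / 10))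
      · rw [Set.indicator_of_notMem h1, Set.indicator_of_mem h2, zero_add]
      · rw [Set.indicator_of_notMem h1, Set.indicator_of_notMem h2, add_zero]
        refine CI1c_zero hh hδ hδ' hR hρ hs ?_
        rintro ⟨h3, h4⟩
        rcases le_total 0 s with h5 | h5
        · rw [abs_of_nonneg h5] at h3 h4
          exact h1 ⟨h3, h4⟩
        · rw [abs_of_nonpos h5] at h3 h4
          exact h2 ⟨by linarith, by linarith⟩
  rw [II_eq]
  calc ∫ s : ℝ, ∫ Y in (1 : ℝ)..2, fI h R ρ s Y
      = ∫ s : ℝ, ((Set.Icc (7 / 10 : ℝ) (71 / 50)).indicator g s +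
        (Set.Icc (-(71 / 50) : ℝ) (-(7 / 10))).indicator g s) := integral_congr_ae hsplit
    _ = (∫ s in Set.Icc (7 / 10 : ℝ) (71 / 50), g s) +
        ∫ s in Set.Icc (-(71 / 50) : ℝ) (-(7 / 10)), g s := by
        rw [integral_add ((integrable_indicator_iff measurableSet_Icc).mpr hi)
          ((integrable_indicator_iff measurableSet_Icc).mpr hin),
          integral_indicator measurableSet_Icc, integral_indicator measurableSet_Icc]
    _ = IIp h R ρ + (starRingEnd ℂ) (IIp h (fun α => R (-α)) ρ) := by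
        congr 1
        · rw [IIp, intervalIntegral.integral_of_le (by norm_num), integral_Icc_eq_integral_Ioc]
        · rw [integral_Icc_eq_integral_Ioc, ← intervalIntegral.integral_of_le (by norm_num),
            ← intervalIntegral.integral_comp_neg, IIp, ← intervalIntegral.intervalIntegral_conj]
          refine intervalIntegral.integral_congr fun s hs => ?_
          rw [Set.uIcc_of_le (by norm_num)] at hs
          exact hneg s (by linarith [hs.1])

end RV11
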