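import Pool.Agent.LibRV11.CI0

open Complex Real MeasureTheory
open UpperHalfPlane hiding I
open scoped MatrixGroups

namespace RV11

/-- the amplitude is smooth -/
theorem CI2_contDiffAt {h : ℝ → ℝ} (hh : IsBump h) {p : ℝ × ℝ × ℝ} (h1 : 0 < p.1)
    (h2 : 0 ≤ p.2.1) (h3 : 0 < p.2.2) :
    ContDiffAt ℝ 1 (fun p : ℝ × ℝ × ℝ => ampI h p.2.1 p.1 p.2.2) p := by
  have hhs : ContDiff ℝ 1 h := hh.smooth.of_le (by norm_num)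
  have c1 : ContDiffAt ℝ 1 (fun p : ℝ × ℝ × ℝ => p.1) p := contDiffAt_fst
  have c2 : ContDiffAt ℝ 1 (fun p : ℝ × ℝ × ℝ => p.2.1) p :=
    contDiffAt_fst.comp p contDiffAt_snd
  have c3 : ContDiffAt ℝ 1 (fun p : ℝ × ℝ × ℝ => p.2.2) p :=
    contDiffAt_snd.comp p contDiffAt_snd
  have cD : ContDiffAt ℝ 1 (fun p : ℝ × ℝ × ℝ => p.1 ^ 2 + (p.2.1 * p.2.2) ^ 2) p :=
    (c1.pow 2).add ((c2.mul c3).pow 2)
  have hD : 0 < p.1 ^ 2 + (p.2.1 * p.2.2) ^ 2 := by positivity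
  have cY : ContDiffAt ℝ 1 (fun p : ℝ × ℝ × ℝ => p.2.2 / (p.1 ^ 2 + (p.2.1 * p.2.2) ^ 2)) p :=
    c3.div cD hD.ne'
  have hY : 0 < p.2.2 / (p.1 ^ 2 + (p.2.1 * p.2.2) ^ 2) := by positivity
  have cA : ContDiffAt ℝ 1 (fun p : ℝ × ℝ × ℝ =>
      (h p.2.2 * h (p.2.2 / (p.1 ^ 2 + (p.2.1 * p.2.2) ^ 2)) *
      Real.sqrt (p.2.2 / (p.1 ^ 2 + (p.2.1 * p.2.2) ^ 2)) *
      Real.exp (π * (p.2.2 + p.2.2 / (p.1 ^ 2 + (p.2.1 * p.2.2) ^ 2))) / p.2.2 : ℝ)) p := by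
    refine ContDiffAt.div ?_ c3 h3.ne'
    refine ContDiffAt.mul (ContDiffAt.mul (ContDiffAt.mul ?_ ?_) ?_) ?_
    · exact hhs.contDiffAt.comp p c3
    · exact hhs.contDiffAt.comp p cY
    · exact cY.sqrt hY.ne'
    · exact (contDiffAt_const.mul (c3.add cY)).exp
  have cA' : ContDiffAt ℝ 1 (fun p : ℝ × ℝ × ℝ =>
      ((h p.2.2 * h (p.2.2 / (p.1 ^ 2 + (p.2.1 * p.2.2) ^ 2)) *
      Real.sqrt (p.2.2 / (p.1 ^ 2 + (p.2.1 * p.2.2) ^ 2)) *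
      Real.exp (π * (p.2.2 + p.2.2 / (p.1 ^ 2 + (p.2.1 * p.2.2) ^ 2))) / p.2.2 : ℝ) : ℂ)) p :=
    Complex.ofRealCLM.contDiff.contDiffAt.comp p cA
  have cz : ContDiffAt ℝ 1 (fun p : ℝ × ℝ × ℝ =>
      (-I * ((p.1 : ℂ) + I * ((p.2.1 : ℂ) * (p.2.2 : ℂ))))) p := by
    have d1 : ContDiffAt ℝ 1 (fun p : ℝ × ℝ × ℝ => (p.1 : ℂ)) p :=
      Complex.ofRealCLM.contDiff.contDiffAt.comp p c1
    have d2 : ContDiffAt ℝ 1 (fun p : ℝ × ℝ × ℝ => (p.2.1 : ℂ)) p :=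
      Complex.ofRealCLM.contDiff.contDiffAt.comp p c2
    have d3 : ContDiffAt ℝ 1 (fun p : ℝ × ℝ × ℝ => (p.2.2 : ℂ)) p :=
      Complex.ofRealCLM.contDiff.contDiffAt.comp p c3
    exact contDiffAt_const.mul (d1.add (contDiffAt_const.mul (d2.mul d3)))
  have hzim : ∀ q : ℝ × ℝ × ℝ, (-I * ((q.1 : ℂ) + I * ((q.2.1 : ℂ) * (q.2.2 : ℂ)))).im = -q.1 := by
    intro q
    simp
  have hslit : ∀ q : ℝ × ℝ × ℝ, 0 < q.1 →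
      (-I * ((q.1 : ℂ) + I * ((q.2.1 : ℂ) * (q.2.2 : ℂ)))) ∈ Complex.slitPlane := by
    intro q hq
    right
    rw [hzim]
    linarith
  have clog : ContDiffAt ℝ 1 (fun p : ℝ × ℝ × ℝ => Complex.log
      (-I * ((p.1 : ℂ) + I * ((p.2.1 : ℂ) * (p.2.2 : ℂ))))) p := by
    have e1 : ContDiffAt ℂ 1 Complex.log
        (-I * ((p.1 : ℂ) + I * ((p.2.1 : ℂ) * (p.2.2 : ℂ)))) :=
      Complex.contDiffAt_log (hslit p h1)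
    exact (e1.restrict_scalars ℝ).comp p cz
  have cexp' : ContDiffAt ℝ 1 (fun p : ℝ × ℝ × ℝ => Complex.exp (Complex.log
      (-I * ((p.1 : ℂ) + I * ((p.2.1 : ℂ) * (p.2.2 : ℂ)))) * (-(1 / 2) : ℂ))) p :=
    (clog.mul contDiffAt_const).cexp
  have hev : (fun p : ℝ × ℝ × ℝ => ampI h p.2.1 p.1 p.2.2) =ᶠ[nhds p] (fun p : ℝ × ℝ × ℝ =>
      ((h p.2.2 * h (p.2.2 / (p.1 ^ 2 + (p.2.1 * p.2.2) ^ 2)) *
      Real.sqrt (p.2.2 / (p.1 ^ 2 + (p.2.1 * p.2.2) ^ 2)) *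
      Real.exp (π * (p.2.2 + p.2.2 / (p.1 ^ 2 + (p.2.1 * p.2.2) ^ 2))) / p.2.2 : ℝ) : ℂ) *
      Complex.exp (Complex.log
      (-I * ((p.1 : ℂ) + I * ((p.2.1 : ℂ) * (p.2.2 : ℂ)))) * (-(1 / 2) : ℂ))) := by
    have h4 : ∀ᶠ q : ℝ × ℝ × ℝ in nhds p, 0 < q.1 :=
      continuous_fst.continuousAt.eventually (lt_mem_nhds h1)
    filter_upwards [h4] with q hq
    rw [ampI, Complex.cpow_def_of_ne_zero (Complex.slitPlane_ne_zero (hslit q hq))]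
  exact (cA'.mul cexp').congr_of_eventuallyEq hev

/-- The amplitude is bounded and Lipschitz on `s ∈ [0.7, 1.42]`, `ρ ∈ (0,1]`, `Y ∈ [1,2]`. -/
theorem ampI_lip {h : ℝ → ℝ} (hh : IsBump h) : ∃ C : ℝ, 0 ≤ C ∧
    ∀ s ∈ Set.Icc (7 / 10 : ℝ) (71 / 50), ∀ s' ∈ Set.Icc (7 / 10 : ℝ) (71 / 50),
    ∀ ρ ∈ Set.Ioc (0 : ℝ) 1, ∀ ρ' ∈ Set.Ioc (0 : ℝ) 1, ∀ Y ∈ Set.Icc (1 : ℝ) 2,
      ‖ampI h ρ s Y‖ ≤ C ∧ ‖ampI h ρ s Y - ampI h ρ' s' Y‖ ≤ C * (|ρ - ρ'| + |s - s'|) := by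
  set K : Set (ℝ × ℝ × ℝ) :=
    Set.Icc (7 / 10 : ℝ) (71 / 50) ×ˢ (Set.Icc (0 : ℝ) 1 ×ˢ Set.Icc (1 : ℝ) 2) with hK
  have hKc : IsCompact K := isCompact_Icc.prod (isCompact_Icc.prod isCompact_Icc)
  have hloc : LocallyLipschitzOn K (fun p : ℝ × ℝ × ℝ => ampI h p.2.1 p.1 p.2.2) := by
    intro p hp
    obtain ⟨hp1, hp2, hp3⟩ := hp
    obtain ⟨C, t, ht, hC⟩ := (CI2_contDiffAt hh (p := p) (by linarith [hp1.1]) hp2.1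
      (by linarith [hp3.1])).exists_lipschitzOnWith
    exact ⟨C, t, mem_nhdsWithin_of_mem_nhds ht, hC⟩
  obtain ⟨L, hL⟩ := hloc.exists_lipschitzOnWith_of_compact hKc
  obtain ⟨M, hM⟩ := hKc.exists_bound_of_continuousOn hloc.continuousOn
  refine ⟨max M 0 + L, by positivity, fun s hs s' hs' ρ hρ ρ' hρ' Y hY => ⟨?_, ?_⟩⟩
  · have h1 := hM (s, ρ, Y) ⟨hs, ⟨⟨hρ.1.le, hρ.2⟩, hY⟩⟩
    have h2 : M ≤ max M 0 := le_max_left _ _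
    have h3 : (0 : ℝ) ≤ L := L.coe_nonneg
    simp only at h1
    linarith
  · have h1 := hL.dist_le_mul (s, ρ, Y) ⟨hs, ⟨⟨hρ.1.le, hρ.2⟩, hY⟩⟩ (s', ρ', Y)
      ⟨hs', ⟨⟨hρ'.1.le, hρ'.2⟩, hY⟩⟩
    simp only [dist_eq_norm] at h1
    have h2 : ‖((s, ρ, Y) : ℝ × ℝ × ℝ) - (s', ρ', Y)‖ ≤ |ρ - ρ'| + |s - s'| := by
      rw [Prod.norm_def, Prod.norm_def]
      simp only [Prod.fst_sub, Prod.snd_sub, sub_self, norm_zero, Real.norm_eq_abs]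
      have a1 := abs_nonneg (ρ - ρ')
      have a2 := abs_nonneg (s - s')
      refine max_le (by linarith) (max_le (by linarith) (by linarith))
    have h3 : (0 : ℝ) ≤ L := L.coe_nonneg
    have h4 : (0 : ℝ) ≤ max M 0 := le_max_right _ _
    have h5 : (0 : ℝ) ≤ |ρ - ρ'| + |s - s'| := by positivity
    calc ‖ampI h ρ s Y - ampI h ρ' s' Y‖ ≤ L * ‖((s, ρ, Y) : ℝ × ℝ × ℝ) - (s', ρ', Y)‖ := h1
      _ ≤ L * (|ρ - ρ'| + |s - s'|) := mul_le_mul_of_nonneg_left h2 h3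
      _ ≤ (max M 0 + L) * (|ρ - ρ'| + |s - s'|) := by nlinarith

end RV11
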