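import Pool.Agent.LibRV11.CI0
import Pool.Agent.LibRV11.OS1b

open Complex Real MeasureTheory
open UpperHalfPlane hiding I
open scoped MatrixGroups

namespace RV11

theorem CI3a_d1 {ρ E : ℝ} (hE : 0 < E) (s : ℝ) :
    HasDerivAt (fun s : ℝ => -(π * (s / ρ) * (1 + 1 / (s ^ 2 + E ^ 2))))
      (-(π / ρ * (1 + (E ^ 2 - s ^ 2) / (s ^ 2 + E ^ 2) ^ 2))) s := by
  have hne : s ^ 2 + E ^ 2 ≠ 0 := by positivity
  have h1 : HasDerivAt (fun s : ℝ => s ^ 2 + E ^ 2) (2 * s) s := by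
    simpa using (hasDerivAt_pow 2 s).add_const (E ^ 2)
  have h2 : HasDerivAt (fun s : ℝ => 1 + 1 / (s ^ 2 + E ^ 2))
      (0 + (0 * (s ^ 2 + E ^ 2) - 1 * (2 * s)) / (s ^ 2 + E ^ 2) ^ 2) s :=
    (hasDerivAt_const s (1 : ℝ)).add ((hasDerivAt_const s (1 : ℝ)).div h1 hne)
  have h3 : HasDerivAt (fun s : ℝ => π * (s / ρ)) (π * (1 / ρ)) s :=
    ((hasDerivAt_id s).div_const ρ).const_mul π
  refine (h3.mul h2).neg.congr_deriv ?_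
  by_cases hρ : ρ = 0
  · subst hρ; simp
  · field_simp
    ring

theorem CI3a_d2 {ρ E : ℝ} (hE : 0 < E) (s : ℝ) :
    HasDerivAt (fun s : ℝ => -(π / ρ * (1 + (E ^ 2 - s ^ 2) / (s ^ 2 + E ^ 2) ^ 2)))
      (-(π / ρ * (2 * s * (s ^ 2 - 3 * E ^ 2) / (s ^ 2 + E ^ 2) ^ 3))) s := by
  have hne : s ^ 2 + E ^ 2 ≠ 0 := by positivity
  have h1 : HasDerivAt (fun s : ℝ => s ^ 2 + E ^ 2) (2 * s) s := by
    simpa using (hasDerivAt_pow 2 s).add_const (E ^ 2)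
  have h1' : HasDerivAt (fun s : ℝ => E ^ 2 - s ^ 2) (-(2 * s)) s := by
    simpa using (hasDerivAt_pow 2 s).const_sub (E ^ 2)
  have h2 : HasDerivAt (fun s : ℝ => (s ^ 2 + E ^ 2) ^ 2)
      (2 * (s ^ 2 + E ^ 2) * (2 * s)) s := by
    refine (h1.pow 2).congr_deriv ?_
    simp
  refine (((h1'.div h2 (pow_ne_zero 2 hne)).const_add 1).const_mul (π / ρ)).neg.congr_deriv ?_
  by_cases hρ : ρ = 0
  · subst hρ; simp
  · field_simp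
    ring

/-- Second derivative test for the phase: `Φ'' = -(π/ρ) 2s(s²-3E²)/(s²+E²)³`, `E = ρY ≤ 0.19`. -/
theorem phsI_osc : ∃ C : ℝ, 0 ≤ C ∧ ∀ ρ : ℝ, 0 < ρ → ∀ Y : ℝ, 0 < Y → ρ * Y ≤ 19 / 100 →
    ∀ t ∈ Set.Icc (7 / 10 : ℝ) (71 / 50),
      ‖∫ s in (7 / 10 : ℝ)..t, cexp (I * phsI ρ s Y)‖ ≤ C * Real.sqrt ρ := by
  refine ⟨32, by norm_num, fun ρ hρ Y hY hE t ht => ?_⟩
  have hE0 : 0 < ρ * Y := mul_pos hρ hY
  have hcont : ContinuousOn (fun s : ℝ => -(π / ρ * (2 * s * (s ^ 2 - 3 * (ρ * Y) ^ 2) /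
      (s ^ 2 + (ρ * Y) ^ 2) ^ 3))) (Set.Icc (7 / 10) t) := by
    apply Continuous.continuousOn
    have : ∀ s : ℝ, (s ^ 2 + (ρ * Y) ^ 2) ^ 3 ≠ 0 := fun s => by positivity
    fun_prop (disch := exact this _)
  have hl : 0 < 1 / (16 * ρ) := by positivity
  have key := second_test (a := 7 / 10) (b := t) (l := 1 / (16 * ρ)) ht.1 hl
    (fun s => phsI ρ s Y)
    (fun s => -(π / ρ * (1 + ((ρ * Y) ^ 2 - s ^ 2) / (s ^ 2 + (ρ * Y) ^ 2) ^ 2)))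
    (fun s => -(π / ρ * (2 * s * (s ^ 2 - 3 * (ρ * Y) ^ 2) / (s ^ 2 + (ρ * Y) ^ 2) ^ 3)))
    (fun s _ => CI3a_d1 hE0 s) (fun s _ => CI3a_d2 hE0 s) hcont (Or.inr ?_)
  · refine key.trans (le_of_eq ?_)
    rw [Real.sqrt_div zero_le_one, Real.sqrt_one, Real.sqrt_mul (by norm_num),
      show (16 : ℝ) = 4 ^ 2 by norm_num, Real.sqrt_sq (by norm_num)]
    have : Real.sqrt ρ ≠ 0 := (Real.sqrt_pos.mpr hρ).ne'
    field_simp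
    norm_num
  · intro s hs
    have hs1 : 7 / 10 ≤ s := hs.1
    have hs2 : s ≤ 71 / 50 := hs.2.trans ht.2
    have hEsq : (ρ * Y) ^ 2 ≤ (19 / 100) ^ 2 := by
      apply pow_le_pow_left₀ hE0.le hE
    have hEsq0 : 0 ≤ (ρ * Y) ^ 2 := sq_nonneg _
    have hpi : 3 < π := Real.pi_gt_three
    have hS1 : s ^ 2 ≤ (71 / 50) ^ 2 := pow_le_pow_left₀ (by linarith) hs2 2
    have hS0 : (7 / 10) ^ 2 ≤ s ^ 2 := pow_le_pow_left₀ (by norm_num) hs1 2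
    have hden : (s ^ 2 + (ρ * Y) ^ 2) ^ 3 ≤ 9 := by
      have h1 : s ^ 2 + (ρ * Y) ^ 2 ≤ 41 / 20 + 1 / 100 := by nlinarith
      have h2 : 0 ≤ s ^ 2 + (ρ * Y) ^ 2 := by positivity
      calc (s ^ 2 + (ρ * Y) ^ 2) ^ 3 ≤ (41 / 20 + 1 / 100) ^ 3 := pow_le_pow_left₀ h2 h1 3
        _ ≤ 9 := by norm_num
    have hdpos : 0 < (s ^ 2 + (ρ * Y) ^ 2) ^ 3 := by positivity
    have hnum : 53 / 100 ≤ 2 * s * (s ^ 2 - 3 * (ρ * Y) ^ 2) := by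
      have h1 : 38 / 100 ≤ s ^ 2 - 3 * (ρ * Y) ^ 2 := by nlinarith
      nlinarith
    have hq : 1 / 17 ≤ 2 * s * (s ^ 2 - 3 * (ρ * Y) ^ 2) / (s ^ 2 + (ρ * Y) ^ 2) ^ 3 := by
      rw [le_div_iff₀ hdpos]
      linarith
    rw [neg_le_neg_iff]
    calc 1 / (16 * ρ) ≤ 3 / ρ * (1 / 17) := by
          rw [div_mul_div_comm, div_le_div_iff₀ (by positivity) (by positivity)]
          nlinarith
      _ ≤ π / ρ * (2 * s * (s ^ 2 - 3 * (ρ * Y) ^ 2) / (s ^ 2 + (ρ * Y) ^ 2) ^ 3) := by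
          apply mul_le_mul _ hq (by norm_num) (by positivity)
          gcongr

end RV11
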