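import Pool.Agent.LibRV11.CI0

open Complex Real MeasureTheory
open UpperHalfPlane hiding I
open scoped MatrixGroups

namespace RV11

/-- `|Φ(ρ) - Φ(ρ')| ≤ C (ρ'-ρ)/ρ²`. -/
theorem phsI_lip : ∃ C : ℝ, 0 ≤ C ∧ ∀ s ∈ Set.Icc (7 / 10 : ℝ) (71 / 50),
    ∀ Y ∈ Set.Icc (1 : ℝ) 2, ∀ ρ ρ' : ℝ, 0 < ρ → ρ ≤ ρ' → ρ' ≤ 1 →
      |phsI ρ s Y - phsI ρ' s Y| ≤ C * (ρ' - ρ) / ρ ^ 2 := by
  refine ⟨240, by norm_num, fun s hs Y hY ρ ρ' hρ hρρ hρ1 => ?_⟩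
  obtain ⟨hs1, hs2⟩ := hs
  obtain ⟨hY1, hY2⟩ := hY
  have hρ' : 0 < ρ' := hρ.trans_le hρρ
  set D := s ^ 2 + (ρ * Y) ^ 2 with hD
  set D' := s ^ 2 + (ρ' * Y) ^ 2 with hD'
  have hs0 : (7 / 10) ^ 2 ≤ s ^ 2 := pow_le_pow_left₀ (by norm_num) hs1 2
  have hDl : 49 / 100 ≤ D := by
    have : 0 ≤ (ρ * Y) ^ 2 := sq_nonneg _
    rw [hD]; linarith
  have hDl' : 49 / 100 ≤ D' := by
    have : 0 ≤ (ρ' * Y) ^ 2 := sq_nonneg _
    rw [hD']; linarith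
  have hD0 : 0 < D := by linarith
  have hD0' : 0 < D' := by linarith
  have e : phsI ρ s Y - phsI ρ' s Y =
      -(π * s * ((ρ' - ρ) / (ρ * ρ') * (1 + 1 / D) + 1 / ρ' * ((D' - D) / (D * D')))) := by
    unfold phsI
    rw [← hD, ← hD']
    field_simp
    ring
  have hDD : D' - D = Y ^ 2 * (ρ' + ρ) * (ρ' - ρ) := by rw [hD, hD']; ring
  have hd0 : 0 ≤ ρ' - ρ := by linarith
  have h1 : (ρ' - ρ) / (ρ * ρ') * (1 + 1 / D) ≤ (ρ' - ρ) / ρ ^ 2 * 4 := by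
    have a1 : (ρ' - ρ) / (ρ * ρ') ≤ (ρ' - ρ) / ρ ^ 2 := by
      apply div_le_div_of_nonneg_left hd0 (by positivity)
      nlinarith
    have a2 : 1 / D ≤ 3 := by
      rw [div_le_iff₀ hD0]; linarith
    apply mul_le_mul a1 (by linarith) (by positivity) (by positivity)
  have h2 : 1 / ρ' * ((D' - D) / (D * D')) ≤ (ρ' - ρ) / ρ ^ 2 * 36 := by
    have a1 : 1 / ρ' ≤ 1 / ρ ^ 2 := by
      apply one_div_le_one_div_of_le (by positivity)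
      nlinarith
    have a3 : 24 / 100 ≤ D * D' := by nlinarith
    have a4 : Y ^ 2 * (ρ' + ρ) ≤ 8 := by nlinarith
    have a2 : (D' - D) / (D * D') ≤ (ρ' - ρ) * 36 := by
      rw [div_le_iff₀ (by positivity), hDD]
      nlinarith
    calc 1 / ρ' * ((D' - D) / (D * D')) ≤ 1 / ρ ^ 2 * ((ρ' - ρ) * 36) := by
          apply mul_le_mul a1 a2 _ (by positivity)
          rw [hDD]
          positivity
      _ = (ρ' - ρ) / ρ ^ 2 * 36 := by ring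
  have hpos : 0 ≤ (ρ' - ρ) / (ρ * ρ') * (1 + 1 / D) + 1 / ρ' * ((D' - D) / (D * D')) := by
    rw [hDD]
    positivity
  have hs00 : 0 ≤ s := by linarith
  rw [e, abs_neg, abs_of_nonneg (by positivity)]
  have hpi : π ≤ 4 := Real.pi_le_four
  have hps : π * s ≤ 4 * (71 / 50) := mul_le_mul hpi hs2 hs00 (by norm_num)
  calc π * s * ((ρ' - ρ) / (ρ * ρ') * (1 + 1 / D) + 1 / ρ' * ((D' - D) / (D * D')))
      ≤ 4 * (71 / 50) * ((ρ' - ρ) / ρ ^ 2 * 4 + (ρ' - ρ) / ρ ^ 2 * 36) := by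
        apply mul_le_mul hps (add_le_add h1 h2) hpos (by norm_num)
    _ ≤ 240 * ((ρ' - ρ) / ρ ^ 2) := by
        have : 0 ≤ (ρ' - ρ) / ρ ^ 2 := by positivity
        linarith
    _ = 240 * (ρ' - ρ) / ρ ^ 2 := by ring

end RV11
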