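import Mathlib
import Pool.Agent.LibRV11.OS2a

open Complex Real MeasureTheory

namespace RV11

/-- Lipschitz amplitude: mollify the amplitude (`(1/h) ∫_x^{x+h} A`) and use `amp_smooth`, `h → 0`. -/
theorem amp_lipschitz {a b : ℝ} (hab : a ≤ b) (A g : ℝ → ℂ) {K L M : ℝ} (hK : 0 ≤ K) (hL : 0 ≤ L)
    (hA : ∀ t ∈ Set.Icc a b, ‖A t‖ ≤ K)
    (hA' : ∀ s ∈ Set.Icc a b, ∀ t ∈ Set.Icc a b, ‖A s - A t‖ ≤ L * |s - t|)
    (hg : ContinuousOn g (Set.Icc a b))
    (hb : ∀ t ∈ Set.Icc a b, ‖∫ x in a..t, g x‖ ≤ M) :
    ‖∫ x in a..b, A x * g x‖ ≤ M * (K + L * (b - a)) := by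
  have hu : Set.uIcc a b = Set.Icc a b := Set.uIcc_of_le hab
  have hM : 0 ≤ M := by
    have := hb a ⟨le_rfl, hab⟩
    simpa using this
  set c : ℝ → ℝ := fun x => max a (min x b) with hc
  have hcm : ∀ x, c x ∈ Set.Icc a b := fun x => ⟨le_max_left _ _, max_le hab (min_le_right _ _)⟩
  have hcl : ∀ x y, |c x - c y| ≤ |x - y| := by
    intro x y
    have h1 : |max a (min x b) - max a (min y b)| ≤ |min x b - min y b| := by
      have := abs_max_sub_max_le_max a (min x b) a (min y b)
      simpa using this
    have h2 : |min x b - min y b| ≤ |x - y| := by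
      have := abs_min_sub_min_le_max x b y b
      simpa using this
    exact h1.trans h2
  have hce : ∀ x ∈ Set.Icc a b, c x = x := by
    intro x hx
    simp only [hc]
    rw [min_eq_left hx.2, max_eq_right hx.1]
  set B : ℝ → ℂ := fun x => A (c x) with hB
  have hBK : ∀ x, ‖B x‖ ≤ K := fun x => hA _ (hcm x)
  have hBL : ∀ x y, ‖B x - B y‖ ≤ L * |x - y| := by
    intro x y
    exact (hA' _ (hcm x) _ (hcm y)).trans (mul_le_mul_of_nonneg_left (hcl x y) hL)
  have hBc : Continuous B := by
    have : LipschitzWith (Real.toNNReal L) B := by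
      apply LipschitzWith.of_dist_le_mul
      intro x y
      rw [dist_eq_norm, Real.dist_eq, Real.coe_toNNReal _ hL]
      exact hBL x y
    exact this.continuous
  set G : ℝ := ∫ x in a..b, ‖g x‖ with hG
  have hG0 : 0 ≤ G := intervalIntegral.integral_nonneg hab (fun x _ => norm_nonneg _)
  have hgi : IntervalIntegrable g volume a b := by
    apply ContinuousOn.intervalIntegrable; rw [hu]; exact hg
  -- the estimate for a given step
  have main : ∀ h : ℝ, 0 < h → ‖∫ x in a..b, A x * g x‖ ≤ M * (K + L * (b - a)) + L * h * G := by
    intro h hh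
    set P : ℝ → ℂ := fun x => ∫ s in (0:ℝ)..x, B s with hP
    have hPd : ∀ x, HasDerivAt P (B x) x := fun x =>
      (hBc.integral_hasStrictDerivAt 0 x).hasDerivAt
    set Ah : ℝ → ℂ := fun x => ((1 / h : ℝ) : ℂ) * (P (x + h) - P x) with hAh
    set Ah' : ℝ → ℂ := fun x => ((1 / h : ℝ) : ℂ) * (B (x + h) - B x) with hAh'
    have hd : ∀ x, HasDerivAt Ah (Ah' x) x := by
      intro x
      have h1 : HasDerivAt (fun x => P (x + h)) (B (x + h)) x := by
        have := (hPd (x + h)).comp_add_const x h
        exact this
      exact (h1.sub (hPd x)).const_mul _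
    have hAhc : Continuous Ah := by
      rw [continuous_iff_continuousAt]
      exact fun x => (hd x).continuousAt
    have hPs : ∀ x, P (x + h) - P x = ∫ s in x..(x + h), B s := by
      intro x
      simp only [hP]
      rw [intervalIntegral.integral_interval_sub_left (hBc.intervalIntegrable _ _)
        (hBc.intervalIntegrable _ _)]
    have hn : ‖((1 / h : ℝ) : ℂ)‖ = 1 / h := by
      rw [Complex.norm_real, Real.norm_of_nonneg (by positivity)]
    have hAhK : ∀ x, ‖Ah x‖ ≤ K := by
      intro x
      simp only [hAh]
      rw [norm_mul, hn, hPs]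
      have := intervalIntegral.norm_integral_le_of_norm_le_const (a := x) (b := x + h) (f := B)
        (C := K) (fun s _ => hBK s)
      rw [add_sub_cancel_left, abs_of_pos hh] at this
      calc 1 / h * ‖∫ s in x..(x + h), B s‖ ≤ 1 / h * (K * h) :=
            mul_le_mul_of_nonneg_left this (by positivity)
        _ = K := by field_simp
    have hAhL : ∀ x, ‖Ah' x‖ ≤ L := by
      intro x
      simp only [hAh']
      rw [norm_mul, hn]
      have := hBL (x + h) x
      rw [add_sub_cancel_left, abs_of_pos hh] at this
      calc 1 / h * ‖B (x + h) - B x‖ ≤ 1 / h * (L * h) :=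
            mul_le_mul_of_nonneg_left this (by positivity)
        _ = L := by field_simp
    have hdiff : ∀ x, ‖B x - Ah x‖ ≤ L * h := by
      intro x
      have e : B x - Ah x = ((1 / h : ℝ) : ℂ) * ∫ s in x..(x + h), (B x - B s) := by
        rw [intervalIntegral.integral_sub (by simp) (hBc.intervalIntegrable _ _),
          intervalIntegral.integral_const, ← hPs, add_sub_cancel_left]
        simp only [hAh]
        rw [Complex.real_smul]
        have e1 : ((1 / h : ℝ) : ℂ) * ((h : ℝ) : ℂ) = 1 := by
          rw [← Complex.ofReal_mul, one_div_mul_cancel hh.ne', Complex.ofReal_one]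
        rw [mul_sub ((1 / h : ℝ) : ℂ) ((h : ℂ) * B x), ← mul_assoc, e1, one_mul]
      rw [e, norm_mul, hn]
      have := intervalIntegral.norm_integral_le_of_norm_le_const (a := x) (b := x + h)
        (f := fun s => B x - B s) (C := L * h) (by
          intro s hs
          rw [Set.uIoc_of_le (by linarith)] at hs
          refine (hBL x s).trans (mul_le_mul_of_nonneg_left ?_ hL)
          rw [abs_sub_comm, abs_of_nonneg (by linarith [hs.1])]
          linarith [hs.2])
      rw [add_sub_cancel_left, abs_of_pos hh] at this
      calc 1 / h * ‖∫ s in x..(x + h), (B x - B s)‖ ≤ 1 / h * (L * h * h) :=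
            mul_le_mul_of_nonneg_left this (by positivity)
        _ = L * h := by field_simp
    have h1 : ‖∫ x in a..b, Ah x * g x‖ ≤ ‖Ah b‖ * M + ∫ t in a..b, ‖Ah' t‖ * M :=
      amp_smooth hab Ah Ah' g (fun _ => M) (fun t _ => hd t)
        (by
          apply Continuous.continuousOn
          exact continuous_const.mul ((hBc.comp (continuous_add_const h)).sub hBc))
        hg continuousOn_const hb
    have h2 : ∫ t in a..b, ‖Ah' t‖ * M ≤ L * M * (b - a) := by
      have hcst : ∫ t in a..b, L * M = (b - a) * (L * M) := by
        rw [intervalIntegral.integral_const, smul_eq_mul]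
      calc ∫ t in a..b, ‖Ah' t‖ * M ≤ ∫ t in a..b, L * M := by
            apply intervalIntegral.integral_mono_on hab
            · apply Continuous.intervalIntegrable
              exact ((continuous_const.mul
                ((hBc.comp (continuous_add_const h)).sub hBc)).norm.mul continuous_const)
            · exact intervalIntegrable_const
            · intro x _
              exact mul_le_mul_of_nonneg_right (hAhL x) hM
        _ = L * M * (b - a) := by rw [hcst]; ring
    have h3 : ∫ x in a..b, A x * g x = (∫ x in a..b, Ah x * g x) + ∫ x in a..b, (B x - Ah x) * g x := by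
      rw [← intervalIntegral.integral_add]
      · apply intervalIntegral.integral_congr
        intro x hx
        rw [hu] at hx
        have : B x = A x := by simp only [hB]; rw [hce x hx]
        simp only
        rw [this]
        ring
      · apply ContinuousOn.intervalIntegrable
        rw [hu]
        exact hAhc.continuousOn.mul hg
      · apply ContinuousOn.intervalIntegrable
        rw [hu]
        exact (hBc.continuousOn.sub hAhc.continuousOn).mul hg
    have h4 : ‖∫ x in a..b, (B x - Ah x) * g x‖ ≤ L * h * G := by
      refine (intervalIntegral.norm_integral_le_integral_norm hab).trans ?_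
      rw [hG, ← intervalIntegral.integral_const_mul]
      apply intervalIntegral.integral_mono_on hab
      · apply ContinuousOn.intervalIntegrable
        rw [hu]
        exact ((hBc.continuousOn.sub hAhc.continuousOn).mul hg).norm
      · apply ContinuousOn.intervalIntegrable
        rw [hu]
        exact continuousOn_const.mul hg.norm
      · intro x _
        rw [norm_mul]
        exact mul_le_mul_of_nonneg_right (hdiff x) (norm_nonneg _)
    rw [h3]
    refine (norm_add_le _ _).trans ?_
    have h5 : ‖Ah b‖ * M ≤ K * M := mul_le_mul_of_nonneg_right (hAhK b) hM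
    nlinarith [h1, h2, h4, h5]
  apply le_of_forall_pos_le_add
  intro ε hε
  have hq : 0 < L * G + 1 := by positivity
  have := main (ε / (L * G + 1)) (by positivity)
  refine this.trans ?_
  have : L * (ε / (L * G + 1)) * G ≤ ε := by
    have e : L * (ε / (L * G + 1)) * G = ε * ((L * G) / (L * G + 1)) := by ring
    rw [e]
    have : (L * G) / (L * G + 1) ≤ 1 := by
      rw [div_le_one hq]; linarith
    nlinarith
  linarith

end RV11
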