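import Pool.Agent.LibRV11.CI1a
import Pool.Agent.LibRV11.CI1b
import Pool.Agent.LibRV11.CI2
import Pool.Agent.LibRV11.CI3a
import Pool.Agent.LibRV11.OS2b

open Complex Real MeasureTheory
open UpperHalfPlane hiding I
open scoped MatrixGroups

namespace RV11

theorem CI4a_arctan (x y : ℝ) : |Real.arctan x - Real.arctan y| ≤ |x - y| := by
  have h := Convex.norm_image_sub_le_of_norm_deriv_le (𝕜 := ℝ) (f := Real.arctan)
    (s := Set.univ) (x := y) (y := x) (C := 1) (fun z _ => Real.differentiable_arctan z)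
    (fun z _ => by
      rw [Real.deriv_arctan, Real.norm_eq_abs, abs_of_nonneg (by positivity)]
      rw [div_le_one (by positivity)]
      nlinarith [sq_nonneg z]) convex_univ (Set.mem_univ _) (Set.mem_univ _)
  simpa [Real.norm_eq_abs] using h

/-- For fixed `Y`. If the integrand is not identically zero then `E = ρY ≤ 0.19` and `E ≤ 3δ`
(`fI_supp`); then `s ↦ R(arctan(E/s))` is bounded by `δ` and Lipschitz with constant
`4E/(s²+E²) ≤ 30 δ`: apply `amp_lipschitz`. -/
theorem IIp_inner {h : ℝ → ℝ} (hh : IsBump h) : ∃ C : ℝ, 0 ≤ C ∧ ∀ δ : ℝ, 0 < δ → δ ≤ 1 / 8 →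
    ∀ R : ℝ → ℝ, (∀ α, |R α| ≤ δ) → (∀ α β, |R α - R β| ≤ 4 * |α - β|) →
    (∀ α, δ < |α| → R α = 0) → ∀ ρ, 0 < ρ → ρ ≤ 1 → ∀ Y ∈ Set.Icc (1 : ℝ) 2,
      ‖∫ s in (7 / 10 : ℝ)..(71 / 50), fI h R ρ s Y‖ ≤ C * δ * Real.sqrt ρ := by
  obtain ⟨C1, hC1, hA⟩ := ampI_lip hh
  obtain ⟨C3, hC3, hP⟩ := phsI_osc
  refine ⟨50 * C1 * C3, by positivity, fun δ hδ hδ' R h1 h2 h3 ρ hρ hρ1 Y hY => ?_⟩
  have hY0 : 0 < Y := by linarith [hY.1]
  by_cases hzero : ρ * Y ≤ 19 / 100 ∧ ρ ≤ 4 * δ
  · obtain ⟨hE, hρδ⟩ := hzero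
    have hE8 : ρ * Y ≤ 8 * δ := by nlinarith [hY.2]
    have hE0 : 0 < ρ * Y := mul_pos hρ hY0
    have hρm : ρ ∈ Set.Ioc (0 : ℝ) 1 := ⟨hρ, hρ1⟩
    have key := amp_lipschitz (a := 7 / 10) (b := 71 / 50) (by norm_num)
      (fun s : ℝ => (R (Real.arctan (ρ * Y / s)) : ℂ) * ampI h ρ s Y)
      (fun s : ℝ => cexp (I * phsI ρ s Y)) (K := δ * C1) (L := 67 * δ * C1)
      (M := C3 * Real.sqrt ρ) (by positivity) (by positivity) ?_ ?_ ?_ ?_
    · refine key.trans ?_
      have : C3 * Real.sqrt ρ * (δ * C1 + 67 * δ * C1 * (71 / 50 - 7 / 10)) =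
          (1 + 67 * (72 / 100)) * (C1 * C3 * δ * Real.sqrt ρ) := by ring
      rw [this]
      have h0 : 0 ≤ C1 * C3 * δ * Real.sqrt ρ := by positivity
      nlinarith
    · intro s hs
      rw [norm_mul, Complex.norm_real, Real.norm_eq_abs]
      exact mul_le_mul (h1 _) (hA s hs s hs ρ hρm ρ hρm Y hY).1 (norm_nonneg _) hδ.le
    · intro s hs t ht
      have hs0 : 0 < s := by linarith [hs.1]
      have ht0 : 0 < t := by linarith [ht.1]
      have e1 : (R (Real.arctan (ρ * Y / s)) : ℂ) * ampI h ρ s Y -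
          (R (Real.arctan (ρ * Y / t)) : ℂ) * ampI h ρ t Y =
          ((R (Real.arctan (ρ * Y / s)) - R (Real.arctan (ρ * Y / t)) : ℝ) : ℂ) * ampI h ρ s Y +
          (R (Real.arctan (ρ * Y / t)) : ℂ) * (ampI h ρ s Y - ampI h ρ t Y) := by
        push_cast
        ring
      rw [e1]
      have b1 : |R (Real.arctan (ρ * Y / s)) - R (Real.arctan (ρ * Y / t))| ≤
          66 * δ * |s - t| := by
        have c1 : ρ * Y / s - ρ * Y / t = ρ * Y * (t - s) / (s * t) := by
          field_simp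
        have c2 : |ρ * Y / s - ρ * Y / t| ≤ 8 * δ * |s - t| / (49 / 100) := by
          rw [c1, abs_div, abs_mul, abs_of_pos hE0, abs_sub_comm t s, abs_of_pos (mul_pos hs0 ht0)]
          apply div_le_div₀ (by positivity) _ (by norm_num)
          · nlinarith [hs.1, ht.1]
          · exact mul_le_mul_of_nonneg_right hE8 (abs_nonneg _)
        have c3 := CI4a_arctan (ρ * Y / s) (ρ * Y / t)
        have c4 := h2 (Real.arctan (ρ * Y / s)) (Real.arctan (ρ * Y / t))
        have c5 : 0 ≤ δ * |s - t| := by positivity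
        have c6 : 8 * δ * |s - t| / (49 / 100) = 800 / 49 * (δ * |s - t|) := by ring
        rw [c6] at c2
        linarith
      have b2 := hA s hs t ht ρ hρm ρ hρm Y hY
      have b3 : ‖ampI h ρ s Y - ampI h ρ t Y‖ ≤ C1 * |s - t| := by
        have := b2.2
        simpa using this
      calc _ ≤ ‖((R (Real.arctan (ρ * Y / s)) - R (Real.arctan (ρ * Y / t)) : ℝ) : ℂ)‖ *
            ‖ampI h ρ s Y‖ + ‖(R (Real.arctan (ρ * Y / t)) : ℂ)‖ *
              ‖ampI h ρ s Y - ampI h ρ t Y‖ := by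
            refine (norm_add_le _ _).trans ?_
            rw [norm_mul, norm_mul]
        _ ≤ 66 * δ * |s - t| * C1 + δ * (C1 * |s - t|) := by
            apply add_le_add
            · rw [Complex.norm_real, Real.norm_eq_abs]
              exact mul_le_mul b1 b2.1 (norm_nonneg _) (by positivity)
            · rw [Complex.norm_real, Real.norm_eq_abs]
              exact mul_le_mul (h1 _) b3 (norm_nonneg _) hδ.le
        _ = 67 * δ * C1 * |s - t| := by ring
    · apply Continuous.continuousOn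
      have hne : ∀ s : ℝ, s ^ 2 + (ρ * Y) ^ 2 ≠ 0 := fun s => by positivity
      have hc : Continuous fun s : ℝ => phsI ρ s Y := by
        unfold phsI
        fun_prop (disch := exact hne _)
      fun_prop
    · intro t ht
      exact hP ρ hρ Y hY0 hE t ht
  · have hz : ∀ s ∈ Set.uIcc (7 / 10 : ℝ) (71 / 50), fI h R ρ s Y = 0 := by
      intro s hs
      rw [Set.uIcc_of_le (by norm_num)] at hs
      by_contra hne
      have hs0 : 0 < s := by linarith [hs.1]
      obtain ⟨_, _, a3, _, a5⟩ := fI_supp hh hδ hδ' h3 hρ hs0.ne' hY hne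
      apply hzero
      rw [abs_of_pos hs0] at a3
      exact ⟨by linarith [hs.2], a5⟩
    rw [intervalIntegral.integral_congr (g := fun _ => (0 : ℂ)) hz]
    simp only [intervalIntegral.integral_zero, norm_zero]
    positivity

end RV11
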