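import Pool.Agent.LibRV11.CI1a
import Pool.Agent.LibRV11.CI1b
import Pool.Agent.LibRV11.CI2
import Pool.Agent.LibRV11.CI3b

open Complex Real MeasureTheory
open UpperHalfPlane hiding I
open scoped MatrixGroups

namespace RV11

theorem CI5a_arctan (x y : ℝ) : |Real.arctan x - Real.arctan y| ≤ |x - y| := by
  have h := Convex.norm_image_sub_le_of_norm_deriv_le (𝕜 := ℝ) (f := Real.arctan)
    (s := Set.univ) (x := y) (y := x) (C := 1) (fun z _ => Real.differentiable_arctan z)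
    (fun z _ => by
      rw [Real.deriv_arctan, Real.norm_eq_abs, abs_of_nonneg (by positivity)]
      rw [div_le_one (by positivity)]
      nlinarith [sq_nonneg z]) convex_univ (Set.mem_univ _) (Set.mem_univ _)
  simpa [Real.norm_eq_abs] using h

theorem CI5a_exp (a b : ℝ) : ‖cexp (I * a) - cexp (I * b)‖ ≤ |a - b| := by
  have e : cexp (I * a) - cexp (I * b) = cexp (I * b) * (cexp (I * ((a - b : ℝ) : ℂ)) - 1) := by
    rw [mul_sub, ← Complex.exp_add, mul_one]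
    congr 2
    push_cast
    ring
  rw [e, norm_mul]
  have h1 : ‖cexp (I * (b : ℂ))‖ = 1 := by
    rw [mul_comm]; exact Complex.norm_exp_ofReal_mul_I b
  rw [h1, one_mul]
  have := Real.norm_exp_I_mul_ofReal_sub_one_le (x := a - b)
  simpa [Real.norm_eq_abs] using this

/-- Pointwise; everything is zero if `ρ > 4δ`, so `1 ≤ 4δ/ρ²` may be used. -/
theorem fI_lip {h : ℝ → ℝ} (hh : IsBump h) : ∃ C : ℝ, 0 ≤ C ∧ ∀ δ : ℝ, 0 < δ → δ ≤ 1 / 8 →
    ∀ R : ℝ → ℝ, (∀ α, |R α| ≤ δ) → (∀ α β, |R α - R β| ≤ 4 * |α - β|) →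
    (∀ α, δ < |α| → R α = 0) → ∀ ρ ρ', 0 < ρ → ρ ≤ ρ' → ρ' ≤ 1 →
    ∀ s ∈ Set.Icc (7 / 10 : ℝ) (71 / 50), ∀ Y ∈ Set.Icc (1 : ℝ) 2,
      ‖fI h R ρ s Y - fI h R ρ' s Y‖ ≤ C * δ * (ρ' - ρ) / ρ ^ 2 := by
  obtain ⟨C1, hC1, hA⟩ := ampI_lip hh
  obtain ⟨C3, hC3, hP⟩ := phsI_lip
  refine ⟨48 * C1 + C1 + C1 * C3, by positivity,
    fun δ hδ hδ' R h1 h2 h3 ρ ρ' hρ hρρ hρ1 s hs Y hY => ?_⟩
  have hρ' : 0 < ρ' := hρ.trans_le hρρ
  have hs0 : 0 < s := by linarith [hs.1]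
  have hY0 : 0 < Y := by linarith [hY.1]
  have hd : 0 ≤ ρ' - ρ := by linarith
  by_cases hbig : ρ ≤ 4 * δ
  · set X := (ρ' - ρ) / ρ ^ 2 with hX
    have hX0 : 0 ≤ X := by positivity
    have hsq : ρ ^ 2 ≤ 1 := by nlinarith
    have hX1 : ρ' - ρ ≤ X := by
      rw [hX, le_div_iff₀ (by positivity)]
      nlinarith
    have hX2 : ρ' - ρ ≤ 4 * δ * X := by
      rw [hX, ← mul_div_assoc, le_div_iff₀ (by positivity)]
      have : ρ ^ 2 ≤ 4 * δ := by nlinarith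
      nlinarith
    have hρm : ρ ∈ Set.Ioc (0 : ℝ) 1 := ⟨hρ, by linarith⟩
    have hρm' : ρ' ∈ Set.Ioc (0 : ℝ) 1 := ⟨hρ', hρ1⟩
    have b2 := hA s hs s hs ρ hρm ρ' hρm' Y hY
    have b3 : ‖ampI h ρ' s Y‖ ≤ C1 := (hA s hs s hs ρ' hρm' ρ hρm Y hY).1
    have b4 : ‖ampI h ρ s Y - ampI h ρ' s Y‖ ≤ C1 * X := by
      have h5 := b2.2
      rw [abs_sub_comm ρ ρ', abs_of_nonneg hd, sub_self, abs_zero, add_zero] at h5
      exact h5.trans (mul_le_mul_of_nonneg_left hX1 hC1)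
    have b1 : |R (Real.arctan (ρ * Y / s)) - R (Real.arctan (ρ' * Y / s))| ≤ 48 * δ * X := by
      have c1 : ρ * Y / s - ρ' * Y / s = -((ρ' - ρ) * (Y / s)) := by ring
      have c2 : |ρ * Y / s - ρ' * Y / s| ≤ (ρ' - ρ) * 3 := by
        rw [c1, abs_neg, abs_of_nonneg (by positivity)]
        apply mul_le_mul_of_nonneg_left _ hd
        rw [div_le_iff₀ hs0]
        linarith [hs.1, hY.2]
      have c3 := CI5a_arctan (ρ * Y / s) (ρ' * Y / s)
      have c4 := h2 (Real.arctan (ρ * Y / s)) (Real.arctan (ρ' * Y / s))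
      linarith
    have b5 : ‖cexp (I * phsI ρ s Y) - cexp (I * phsI ρ' s Y)‖ ≤ C3 * X := by
      refine (CI5a_exp _ _).trans ((hP s hs Y hY ρ ρ' hρ hρρ hρ1).trans (le_of_eq ?_))
      rw [hX]; ring
    have n1 : ‖cexp (I * (phsI ρ s Y : ℂ))‖ = 1 := by
      rw [mul_comm]; exact Complex.norm_exp_ofReal_mul_I _
    have e : fI h R ρ s Y - fI h R ρ' s Y =
        ((R (Real.arctan (ρ * Y / s)) - R (Real.arctan (ρ' * Y / s)) : ℝ) : ℂ) * ampI h ρ s Y *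
          cexp (I * phsI ρ s Y) +
        (R (Real.arctan (ρ' * Y / s)) : ℂ) * (ampI h ρ s Y - ampI h ρ' s Y) *
          cexp (I * phsI ρ s Y) +
        (R (Real.arctan (ρ' * Y / s)) : ℂ) * ampI h ρ' s Y *
          (cexp (I * phsI ρ s Y) - cexp (I * phsI ρ' s Y)) := by
      unfold fI
      push_cast
      ring
    rw [e]
    have t1 : ‖((R (Real.arctan (ρ * Y / s)) - R (Real.arctan (ρ' * Y / s)) : ℝ) : ℂ) *
        ampI h ρ s Y * cexp (I * phsI ρ s Y)‖ ≤ 48 * δ * X * C1 := by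
      rw [norm_mul, norm_mul, n1, mul_one, Complex.norm_real, Real.norm_eq_abs]
      exact mul_le_mul b1 b2.1 (norm_nonneg _) (by positivity)
    have t2 : ‖(R (Real.arctan (ρ' * Y / s)) : ℂ) * (ampI h ρ s Y - ampI h ρ' s Y) *
        cexp (I * phsI ρ s Y)‖ ≤ δ * (C1 * X) := by
      rw [norm_mul, norm_mul, n1, mul_one, Complex.norm_real, Real.norm_eq_abs]
      exact mul_le_mul (h1 _) b4 (norm_nonneg _) hδ.le
    have t3 : ‖(R (Real.arctan (ρ' * Y / s)) : ℂ) * ampI h ρ' s Y *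
          (cexp (I * phsI ρ s Y) - cexp (I * phsI ρ' s Y))‖ ≤ δ * C1 * (C3 * X) := by
      rw [norm_mul, norm_mul, Complex.norm_real, Real.norm_eq_abs]
      exact mul_le_mul (mul_le_mul (h1 _) b3 (norm_nonneg _) hδ.le) b5 (norm_nonneg _)
        (by positivity)
    calc _ ≤ 48 * δ * X * C1 + δ * (C1 * X) + δ * C1 * (C3 * X) := by
          refine (norm_add_le _ _).trans (add_le_add ((norm_add_le _ _).trans ?_) t3)
          exact add_le_add t1 t2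
      _ = (48 * C1 + C1 + C1 * C3) * δ * (ρ' - ρ) / ρ ^ 2 := by rw [hX]; ring
  · have z1 : fI h R ρ s Y = 0 := by
      by_contra hne
      exact hbig (fI_supp hh hδ hδ' h3 hρ hs0.ne' hY hne).2.2.2.2
    have z2 : fI h R ρ' s Y = 0 := by
      by_contra hne
      have := (fI_supp hh hδ hδ' h3 hρ' hs0.ne' hY hne).2.2.2.2
      exact hbig (by linarith)
    rw [z1, z2, sub_self, norm_zero]
    positivity

end RV11
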