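import Mathlib

/-!
# Definitions for MP_dc34ef (uniform boundedness of the Radchenko-Viazovska basis)

`z = x + iy` in the upper half plane, `dmu = dx dy / y^2` is Mathlib's `volume` on `ℍ`.
The frame bundle is `ℍ × ℝ`, the second coordinate is an angle modulo `π`;
`g` acts by `(z, φ) ↦ (g z, φ + arg (c z + d))`.
-/

open Complex Real MeasureTheory
open UpperHalfPlane hiding I
open scoped MatrixGroups

namespace RV11

/-- The theta group: `g ≡ I` or `S` modulo 2. -/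
def Gam : Subgroup SL(2, ℤ) where
  carrier := {g | Even (g 0 0 + g 1 1) ∧ Even (g 0 1 + g 1 0)}
  mul_mem' := by
    intro g k hg hk
    obtain ⟨hg1, hg2⟩ := hg
    obtain ⟨hk1, hk2⟩ := hk
    simp only [Set.mem_ofPred_eq, Matrix.SpecialLinearGroup.coe_mul, Matrix.mul_apply,
      Fin.sum_univ_two]
    constructor
    · have : g 0 0 * k 0 0 + g 0 1 * k 1 0 + (g 1 0 * k 0 1 + g 1 1 * k 1 1)
        = (g 0 0 + g 1 1) * k 0 0 + g 1 1 * (k 0 0 + k 1 1) - 2 * (g 1 1 * k 0 0)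
          + ((g 0 1 + g 1 0) * k 1 0 + g 1 0 * (k 0 1 + k 1 0) - 2 * (g 1 0 * k 1 0)) := by ring
      rw [this]
      exact (((hg1.mul_right _).add (hk1.mul_left _)).sub (even_two_mul _)).add
        (((hg2.mul_right _).add (hk2.mul_left _)).sub (even_two_mul _))
    · have : g 0 0 * k 0 1 + g 0 1 * k 1 1 + (g 1 0 * k 0 0 + g 1 1 * k 1 0)
        = (g 0 0 + g 1 1) * k 0 1 + g 1 1 * (k 0 1 + k 1 0) - 2 * (g 1 1 * k 0 1)
          + ((g 0 1 + g 1 0) * k 1 1 + g 1 0 * (k 0 0 + k 1 1) - 2 * (g 1 0 * k 1 1)) := by ring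
      rw [this]
      exact (((hg1.mul_right _).add (hk2.mul_left _)).sub (even_two_mul _)).add
        (((hg2.mul_right _).add (hk1.mul_left _)).sub (even_two_mul _))
  one_mem' := by
    simp
  inv_mem' := by
    intro g hg
    obtain ⟨hg1, hg2⟩ := hg
    simp only [Set.mem_ofPred_eq, Matrix.SpecialLinearGroup.coe_inv, Matrix.adjugate_fin_two,
      Matrix.of_apply, Matrix.cons_val', Matrix.cons_val_zero, Matrix.cons_val_one,
      Matrix.cons_val_fin_one]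
    constructor
    · rw [add_comm]; exact hg1
    · have := hg2.neg
      rwa [neg_add] at this

/-- The character `(-1)^c` (as a function on matrices). -/
noncomputable def chi (g : SL(2, ℤ)) : ℂ := if Even (g 1 0) then 1 else -1

/-- `W z = |θ(z)|^2 y^{1/2}`. -/
noncomputable def W (z : ℍ) : ℝ := ‖jacobiTheta (z : ℂ)‖ ^ 2 * Real.sqrt z.im

/-- `e^{iπ r z} / θ(z)`. -/
noncomputable def phh (r : ℝ) (z : ℍ) : ℂ := cexp (π * I * r * (z : ℂ)) / jacobiTheta (z : ℂ)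

/-- The standard domain `|Re z| < 1`, `|z| > 1`. -/
def DD : Set ℍ := {z | |z.re| < 1 ∧ 1 < ‖(z : ℂ)‖}

/-- The strip `|Re z| < 1`. -/
def Strip : Set ℍ := {z | |z.re| < 1}

open Classical in
/-- `[P]`. -/
noncomputable def ind (P : Prop) : ℝ := if P then 1 else 0

/-- The coordinates `u`, `v` of a row `(c, d)` in the frame `(z, φ)`:
`v + i u = e^{iφ} (c z + d) / √y`. -/
noncomputable def uu (z : ℍ) (φ c d : ℝ) : ℝ :=
  ((c * z.re + d) * Real.sin φ + c * z.im * Real.cos φ) / Real.sqrt z.im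

noncomputable def vv (z : ℍ) (φ c d : ℝ) : ℝ :=
  ((c * z.re + d) * Real.cos φ - c * z.im * Real.sin φ) / Real.sqrt z.im

/-- `u_p u_q` for the matrix `g`, `p = (c, d)`, `q = (a + c, b + d)`. -/
noncomputable def del (g : SL(2, ℤ)) (z : ℍ) (φ : ℝ) : ℝ :=
  uu z φ (g 1 0) (g 1 1) * uu z φ (g 0 0 + g 1 0) (g 0 1 + g 1 1)

/-- smooth cutoff: `1` on `(-∞, 1]`, `0` on `[2, ∞)`. -/
noncomputable def eta (x : ℝ) : ℝ := Real.smoothTransition (2 - x)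

/-- `ζ(x) = η(x) - η(2x)`, supported in `[1/2, 2]`. -/
noncomputable def zet (x : ℝ) : ℝ := eta x - eta (2 * x)

/-- `1 - e^{2πir}`. -/
noncomputable def om (r : ℝ) : ℂ := 1 - cexp (2 * π * I * r)

/-- The dyadic pieces of the wall function. -/
noncomputable def Uj (r : ℝ) (j : ℕ) (z : ℍ) (φ : ℝ) : ℂ :=
  om r / 2 * ∑' g : Gam, chi g *
    ((ind (-1 < ((g : SL(2, ℤ)) • z).re) - ind (0 < del g z φ)) * zet (2 ^ j * |del g z φ|) : ℝ) *
      phh r ((g : SL(2, ℤ)) • z)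

/-- The wall function in the strip `|Re z| < 1` (sum over `c ≠ 0`). -/
noncomputable def Th (r : ℝ) (z : ℍ) : ℂ :=
  om r / 2 * ∑' g : Gam, if (g : SL(2, ℤ)) 1 0 = 0 then 0 else chi g *
    ((ind (-1 < ((g : SL(2, ℤ)) • z).re) -
      ind (-1 < ((g : SL(2, ℤ)) 0 0 : ℝ) / ((g : SL(2, ℤ)) 1 0 : ℝ))) : ℝ) *
      phh r ((g : SL(2, ℤ)) • z)

/-- The part of the wall function with large walls. -/
noncomputable def ThA (r : ℝ) (J : ℕ) (z : ℍ) : ℂ :=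
  om r / 2 * ∑' g : Gam, if (g : SL(2, ℤ)) 1 0 = 0 then 0 else chi g *
    ((ind (-1 < ((g : SL(2, ℤ)) • z).re) -
      ind (-1 < ((g : SL(2, ℤ)) 0 0 : ℝ) / ((g : SL(2, ℤ)) 1 0 : ℝ))) *
      eta (2 ^ (J + 1) * (z.im * |((g : SL(2, ℤ)) 1 0 : ℝ)| *
        |((g : SL(2, ℤ)) 0 0 + (g : SL(2, ℤ)) 1 0 : ℝ)|)) : ℝ) *
      phh r ((g : SL(2, ℤ)) • z)

/-- `U` is a `χ`-equivariant function on the frame bundle, `π`-periodic in the angle. -/
structure Equi (U : ℍ → ℝ → ℂ) : Prop where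
  meas : Measurable (Function.uncurry U)
  per : ∀ z φ, U z (φ + π) = U z φ
  eqv : ∀ g ∈ Gam, ∀ z φ,
    U (g • z) (φ + Complex.arg ((g 1 0 : ℂ) * (z : ℂ) + (g 1 1 : ℂ))) = chi g * U z φ

/-- Squared norm of `U` on the quotient. -/
noncomputable def nrm (U : ℍ → ℝ → ℂ) : ENNReal :=
  ∫⁻ z in DD, ∫⁻ φ in Set.Ioc (0 : ℝ) π, ‖U z φ‖ₑ ^ 2 * ENNReal.ofReal (W z)

/-- A bump function on `[1,2]`. -/
structure IsBump (h : ℝ → ℝ) : Prop where
  smooth : ContDiff ℝ 2 h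
  nonneg : ∀ x, 0 ≤ h x
  le_one : ∀ x, h x ≤ 1
  supp : ∀ x, x ≤ 1 ∨ 2 ≤ x → h x = 0

/-- The pairing of `U` with the profile `G` at frequency `n`. -/
noncomputable def pair (h : ℝ → ℝ) (n : ℕ) (U : ℍ → ℝ → ℂ) (G : ℝ → ℝ) : ℂ :=
  ∫ z in Strip, (∫ φ in (0 : ℝ)..π, U z φ * G φ) *
    ((h (n * z.im) * z.im : ℝ) * jacobiTheta (z : ℂ) * cexp (-(π * I * n * (z : ℂ))))

/-- The Gauss sum `∑_{k mod c} e^{-iπ k² d / c}`. -/
noncomputable def Gs (d : ℤ) (c : ℕ) : ℂ :=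
  ∑ k ∈ Finset.range c, cexp (-(π * I * (k : ℂ) ^ 2 * d / c))

/-- Pairs `(a, d)` modulo `2c` that occur in matrices of the theta group with lower left entry
`c`. -/
def adPairs (c : ℕ) : Finset (ℕ × ℕ) :=
  ((Finset.range (2 * c)) ×ˢ (Finset.range (2 * c))).filter
    (fun p => (c : ℤ) ∣ (p.1 : ℤ) * p.2 - 1 ∧ Even ((p.1 : ℤ) * (((p.1 : ℤ) * p.2 - 1) / c)) ∧
      Even ((c : ℤ) * p.2))

/-- `K*(n; c)`. -/
noncomputable def Kst (n c : ℕ) : ℂ :=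
  (-1) ^ c / (c : ℂ) * ∑ p ∈ adPairs c, Gs p.2 c * cexp (π * I * n * ((p.1 : ℂ) + p.2) / c)

/-- The archimedean integral. -/
noncomputable def II (h R : ℝ → ℝ) (ρ : ℝ) : ℂ :=
  ∫ s : ℝ, ∫ Y in (1 : ℝ)..2,
    ((R (Real.arctan (ρ * Y / s)) * h Y * h (Y / (s ^ 2 + (ρ * Y) ^ 2)) *
      Real.sqrt (Y / (s ^ 2 + (ρ * Y) ^ 2)) *
      Real.exp (π * (Y + Y / (s ^ 2 + (ρ * Y) ^ 2))) / Y : ℝ) : ℂ) *
    (-I * (s + I * (ρ * Y))) ^ (-(1 / 2) : ℂ) *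
    cexp (-(π * I * (s / ρ) * (1 + 1 / (s ^ 2 + (ρ * Y) ^ 2))))

/-- autocorrelation of a profile. -/
noncomputable def Rc (G : ℝ → ℝ) (α : ℝ) : ℝ := ∫ φ : ℝ, G φ * G (φ + α)

/-- One-sided profile at scale `δ`. -/
noncomputable def prof (k : ℝ → ℝ) (δ : ℝ) (φ : ℝ) : ℝ := if 0 ≤ φ then k (φ / δ) else 0

/-- Admissible profiles. -/
structure IsProf (k : ℝ → ℝ) : Prop where
  smooth : ContDiff ℝ 1 k
  le_one : ∀ x, |k x| ≤ 1
  deriv_le : ∀ x, |deriv k x| ≤ 1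
  supp : ∀ x, 1 ≤ x → k x = 0

end RV11
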