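import Pool.Agent.LibRV11.Defs
import Pool.Agent.LibRV11.TH0
open Complex Real MeasureTheory
open UpperHalfPlane hiding I
open scoped MatrixGroups ComplexConjugate

namespace RV11

/-! ### Definitions for `F1_main` -/

/-- `Y = (θ₄⁴ - θ₂⁴)/θ₃⁴ = 1 - 2λ`. -/
noncomputable def Yf (z : ℂ) : ℂ := (jacobiTheta (z + 1) ^ 4 - th2 z ^ 4) / jacobiTheta z ^ 4

/-- `e^{iπrz}/θ(z)` as a function on `ℂ`. -/
noncomputable def phf (r : ℝ) (z : ℂ) : ℂ := cexp (π * I * r * z) / jacobiTheta z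

/-- The upper half of the unit circle. -/
def Ar : Set ℂ := {z | ‖z‖ = 1 ∧ 0 < z.im}

open Classical in
/-- `phf r z + phf r (-1/z)` for the point `z` of the arc with `Y(z) = it`. -/
noncomputable def Ee (r : ℝ) (t : ℝ) : ℂ :=
  if h : ∃ z ∈ Ar, Yf z = I * t then phf r h.choose + phf r (-1 / h.choose) else 0

/-- The symmetric Cauchy integral `1/(2π) ∫ E(t) s/(t²+s²) dt`. -/
noncomputable def CC (E : ℝ → ℂ) (s : ℂ) : ℂ :=
  1 / (2 * π) * ∫ t : ℝ, E t * (s / ((t : ℂ) ^ 2 + s ^ 2))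

/-- The solution on the top region. -/
noncomputable def F1f (r : ℝ) (z : ℂ) : ℂ := jacobiTheta z * CC (Ee r) (Yf z)

/-- Bounding function. -/
noncomputable def Bd (z : ℂ) : ℝ :=
  ‖jacobiTheta z‖ * (1 + ‖Yf z‖) ^ (1 / 4 : ℝ) * (‖Yf z‖ / (Yf z).re) ^ (1 / 4 : ℝ)

/-- The region above all circles `|z - 2k| = 1`. -/
def Om1 : Set ℂ := {z | 0 < z.im ∧ ∀ k : ℤ, 1 < ‖z - 2 * k‖}

end RV11
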