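import Pool.Agent.LibRV11.Defs
import Pool.Agent.LibRV11.F100
import Pool.Agent.LibRV11.TH9
import Pool.Agent.LibRV11.TH12
open Complex Real MeasureTheory
open UpperHalfPlane hiding I
open scoped MatrixGroups ComplexConjugate

namespace RV11

/-! ### F101: holomorphy of the theta functions and of `Yf` -/

theorem theta_ne {z : ℂ} (hz : 0 < z.im) : jacobiTheta z ≠ 0 :=
  theta_ne_zero ⟨z, hz⟩

theorem diffAt_theta {z : ℂ} (hz : 0 < z.im) : DifferentiableAt ℂ jacobiTheta z :=
  differentiableAt_jacobiTheta hz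

private theorem isOpen_H : IsOpen {z : ℂ | 0 < z.im} :=
  isOpen_lt continuous_const Complex.continuous_im

theorem diffAt_th2 {z : ℂ} (hz : 0 < z.im) : DifferentiableAt ℂ th2 z := by
  have hz0 : z ≠ 0 := by rintro rfl; simp at hz
  have hev : th2 =ᶠ[nhds z] fun w => (-I * w) ^ (-(1 / 2) : ℂ) * jacobiTheta (1 - 1 / w) := by
    filter_upwards [isOpen_H.mem_nhds hz] with w hw
    have hw0 : w ≠ 0 := by rintro rfl; simp at hw
    have hIw : -I * w ≠ 0 := mul_ne_zero (neg_ne_zero.mpr Complex.I_ne_zero) hw0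
    have hpne : (-I * w) ^ (1 / 2 : ℂ) ≠ 0 := by
      rw [Complex.cpow_def_of_ne_zero hIw]
      exact Complex.exp_ne_zero _
    rw [theta_one_sub w hw, Complex.cpow_neg]
    field_simp
  have hslit : -I * z ∈ Complex.slitPlane := by
    left
    simpa using hz
  have him : 0 < (1 - 1 / z).im := by
    have : (1 - 1 / z).im = z.im / normSq z := by
      rw [Complex.sub_im, one_div, Complex.inv_im]
      simp
      ring
    rw [this]
    exact div_pos hz (normSq_pos.mpr hz0)
  have h1 : DifferentiableAt ℂ (fun w : ℂ => (-I * w) ^ (-(1 / 2) : ℂ)) z :=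
    ((differentiableAt_id.const_mul (-I)).cpow (differentiableAt_const _) hslit)
  have h2 : DifferentiableAt ℂ (fun w : ℂ => 1 - 1 / w) z :=
    (differentiableAt_const _).sub ((differentiableAt_const _).div differentiableAt_id hz0)
  have h3 : DifferentiableAt ℂ (fun w : ℂ => jacobiTheta (1 - 1 / w)) z :=
    DifferentiableAt.comp z (g := jacobiTheta) (f := fun w : ℂ => 1 - 1 / w)
      (diffAt_theta him) h2
  exact (h1.mul h3).congr_of_eventuallyEq hev

theorem diffAt_Yf {z : ℂ} (hz : 0 < z.im) : DifferentiableAt ℂ Yf z := by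
  have h1 : DifferentiableAt ℂ (fun z : ℂ => jacobiTheta (z + 1)) z := by
    apply DifferentiableAt.comp z (g := jacobiTheta) (f := fun w : ℂ => w + 1)
    · exact diffAt_theta (by simpa using hz)
    · exact differentiableAt_id.add_const _
  exact ((h1.pow 4).sub ((diffAt_th2 hz).pow 4)).div ((diffAt_theta hz).pow 4)
    (pow_ne_zero _ (theta_ne hz))

theorem diffAt_phf (r : ℝ) {z : ℂ} (hz : 0 < z.im) : DifferentiableAt ℂ (phf r) z := by
  have h1 : DifferentiableAt ℂ (fun z : ℂ => cexp (π * I * r * z)) z :=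
    (differentiableAt_id.const_mul _).cexp
  exact h1.div (diffAt_theta hz) (theta_ne hz)

end RV11
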