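import Pool.Agent.LibRV11.Defs
import Pool.Agent.LibRV11.F100
import Pool.Agent.LibRV11.TH9
open Complex Real MeasureTheory
open UpperHalfPlane hiding I
open scoped MatrixGroups ComplexConjugate

namespace RV11

/-! ### F102: functional equations -/

theorem theta_S {z : ℂ} (hz : 0 < z.im) :
    jacobiTheta (-1 / z) = (-I * z) ^ (1 / 2 : ℂ) * jacobiTheta z := by
  have h := jacobiTheta_S_smul ⟨z, hz⟩
  have e : ((ModularGroup.S • (⟨z, hz⟩ : ℍ) : ℍ) : ℂ) = -1 / z := by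
    rw [UpperHalfPlane.modular_S_smul]
    simp [neg_div]
  rw [e] at h
  exact h

private theorem pow4 {z : ℂ} (hz : 0 < z.im) : ((-I * z) ^ (1 / 2 : ℂ)) ^ 4 = (-I * z) ^ 2 := by
  rw [← Complex.cpow_nat_mul]
  norm_num

private theorem im_neg_inv {z : ℂ} (hz : 0 < z.im) : 0 < (-1 / z).im := by
  have h0 : z ≠ 0 := by rintro rfl; simp at hz
  have : (-1 / z).im = z.im / normSq z := by
    rw [div_eq_mul_inv, Complex.mul_im, Complex.inv_re, Complex.inv_im]
    simp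
    ring
  rw [this]
  exact div_pos hz (normSq_pos.mpr h0)

private theorem th2_pow4_add_one {z : ℂ} (hz : 0 < z.im) : th2 (z + 1) ^ 4 = -th2 z ^ 4 := by
  rw [th2_add_one z hz, mul_pow, ← Complex.exp_nat_mul]
  have : ((4 : ℕ) : ℂ) * (π * I / 4) = π * I := by push_cast; ring
  rw [this, Complex.exp_pi_mul_I]
  ring

private theorem theta_add_two (z : ℂ) : jacobiTheta (z + 2) = jacobiTheta z := by
  rw [add_comm]; exact jacobiTheta_two_add z

theorem Yf_add_two {z : ℂ} (hz : 0 < z.im) : Yf (z + 2) = Yf z := by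
  have e1 : th2 (z + 2) ^ 4 = th2 z ^ 4 := by
    have : z + 2 = (z + 1) + 1 := by ring
    rw [this, th2_pow4_add_one (by simpa using hz), th2_pow4_add_one hz]
    ring
  have e2 : z + 2 + 1 = (z + 1) + 2 := by ring
  rw [Yf, Yf, e1, e2, theta_add_two, theta_add_two]

/-- fourth power of the functional equations -/
private theorem theta_S4 {z : ℂ} (hz : 0 < z.im) :
    jacobiTheta (-1 / z) ^ 4 = (-I * z) ^ 2 * jacobiTheta z ^ 4 := by
  rw [theta_S hz, mul_pow, pow4 hz]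

private theorem theta4_S4 {z : ℂ} (hz : 0 < z.im) :
    jacobiTheta (-1 / z + 1) ^ 4 = (-I * z) ^ 2 * th2 z ^ 4 := by
  have : -1 / z + 1 = 1 - 1 / z := by ring
  rw [this, theta_one_sub z hz, mul_pow, pow4 hz]

private theorem th2_S4 {z : ℂ} (hz : 0 < z.im) :
    th2 (-1 / z) ^ 4 = (-I * z) ^ 2 * jacobiTheta (z + 1) ^ 4 := by
  have hz0 : z ≠ 0 := by rintro rfl; simp at hz
  have h := theta4_S4 (im_neg_inv hz)
  have e : -1 / (-1 / z) + 1 = z + 1 := by field_simp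
  rw [e] at h
  rw [h, ← mul_assoc]
  have hI : I ^ 2 = -1 := Complex.I_sq
  have e2 : (-I * z) ^ 2 * (-I * (-1 / z)) ^ 2 = 1 := by
    field_simp
    rw [show (4 : ℕ) = 2 * 2 by norm_num, pow_mul, hI]; norm_num
  rw [e2, one_mul]

theorem Yf_S {z : ℂ} (hz : 0 < z.im) : Yf (-1 / z) = -Yf z := by
  have hz0 : z ≠ 0 := by rintro rfl; simp at hz
  have hIz : (-I * z) ^ 2 ≠ 0 :=
    pow_ne_zero _ (mul_ne_zero (neg_ne_zero.mpr Complex.I_ne_zero) hz0)
  rw [Yf, Yf, theta_S4 hz, theta4_S4 hz, th2_S4 hz, ← mul_sub, mul_div_mul_left _ _ hIz]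
  ring

theorem Yf_cusp {w : ℂ} (hw : 0 < w.im) :
    Yf (1 - 1 / w) = (jacobiTheta w ^ 4 + jacobiTheta (w + 1) ^ 4) / th2 w ^ 4 := by
  have hz0 : w ≠ 0 := by rintro rfl; simp at hw
  have hIz : (-I * w) ^ 2 ≠ 0 :=
    pow_ne_zero _ (mul_ne_zero (neg_ne_zero.mpr Complex.I_ne_zero) hz0)
  have e1 : (1 : ℂ) - 1 / w + 1 = -1 / w + 2 := by ring
  have e2 : (1 : ℂ) - 1 / w = -1 / w + 1 := by ring
  rw [Yf, e1, theta_add_two, theta_S4 hw, e2, theta4_S4 hw,
    th2_pow4_add_one (im_neg_inv hw), th2_S4 hw, sub_neg_eq_add, ← mul_add,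
    mul_div_mul_left _ _ hIz]

theorem theta_conj (z : ℂ) : jacobiTheta (-(conj z)) = conj (jacobiTheta z) := by
  unfold jacobiTheta
  rw [Complex.conj_tsum]
  refine tsum_congr fun n => ?_
  rw [← Complex.exp_conj]
  congr 1
  simp

theorem th2_conj (z : ℂ) : th2 (-(conj z)) = conj (th2 z) := by
  unfold th2
  rw [Complex.conj_tsum]
  refine tsum_congr fun n => ?_
  rw [← Complex.exp_conj]
  congr 1
  have : conj (1 / 2 : ℂ) = 1 / 2 := by
    have h : (1 / 2 : ℂ) = ((1 / 2 : ℝ) : ℂ) := by push_cast; ring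
    rw [h, Complex.conj_ofReal]
  simp only [map_mul, map_pow, map_add, Complex.conj_ofReal, Complex.conj_I, this, map_intCast]
  ring

theorem Yf_conj {z : ℂ} (hz : 0 < z.im) : Yf (-(conj z)) = conj (Yf z) := by
  have e1 : -(conj z) + 1 = -(conj (z + 1)) + 2 := by
    rw [map_add, map_one]; ring
  rw [Yf, Yf, e1, theta_add_two, theta_conj, theta_conj, th2_conj]
  simp

end RV11
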