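import Pool.Agent.LibRV11.Defs
import Pool.Agent.LibRV11.F100
open Complex Real MeasureTheory
open UpperHalfPlane hiding I
open scoped MatrixGroups ComplexConjugate

namespace RV11

/-! ### F104: `Yf` near `i∞` -/

private theorem f104_norm (w : ℂ) (x : ℝ) :
    ‖cexp (π * I * ((x : ℂ) + 1 / 2) ^ 2 * w)‖ = Real.exp (-(π * (x + 1 / 2) ^ 2 * w.im)) := by
  rw [Complex.norm_exp]
  congr 1
  have : (π * I * ((x : ℂ) + 1 / 2) ^ 2 * w) = ((π * (x + 1 / 2) ^ 2 : ℝ) : ℂ) * (I * w) := by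
    push_cast; ring
  rw [this, Complex.re_ofReal_mul]
  simp

private theorem f104_nat {w : ℂ} (hw : 0 < w.im) :
    Summable (fun n : ℕ => cexp (π * I * ((n : ℂ) + 1 / 2) ^ 2 * w)) ∧
    th2 w = 2 * ∑' n : ℕ, cexp (π * I * ((n : ℂ) + 1 / 2) ^ 2 * w) := by
  have hs : Summable (fun n : ℕ => cexp (π * I * ((n : ℂ) + 1 / 2) ^ 2 * w)) := by
    apply Summable.of_norm_bounded (g := fun n : ℕ => (Real.exp (-(π * w.im))) ^ n)
    · apply summable_geometric_of_lt_one (Real.exp_pos _).le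
      rw [Real.exp_lt_one_iff]
      have := mul_pos Real.pi_pos hw
      linarith
    · intro n
      have := f104_norm w n
      rw [Complex.ofReal_natCast] at this
      rw [this, ← Real.exp_nat_mul]
      apply Real.exp_le_exp.2
      have h1 : (n : ℝ) ≤ ((n : ℝ) + 1 / 2) ^ 2 := by nlinarith [sq_nonneg (n : ℝ)]
      have h2 := mul_pos Real.pi_pos hw
      nlinarith
  refine ⟨hs, ?_⟩
  have hneg : ∀ n : ℕ, cexp (π * I * (((-(n + 1 : ℤ) : ℤ) : ℂ) + 1 / 2) ^ 2 * w)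
      = cexp (π * I * ((n : ℂ) + 1 / 2) ^ 2 * w) := by
    intro n
    congr 1
    push_cast
    ring
  have hpos : ∀ n : ℕ, cexp (π * I * ((((n : ℕ) : ℤ) : ℂ) + 1 / 2) ^ 2 * w)
      = cexp (π * I * ((n : ℂ) + 1 / 2) ^ 2 * w) := by
    intro n
    push_cast
    rfl
  unfold th2
  have h1 := HasSum.of_nat_of_neg_add_one (f := fun k : ℤ => cexp (π * I * ((k : ℂ) + 1 / 2) ^ 2 * w))
    (m := ∑' n : ℕ, cexp (π * I * ((n : ℂ) + 1 / 2) ^ 2 * w))
    (m' := ∑' n : ℕ, cexp (π * I * ((n : ℂ) + 1 / 2) ^ 2 * w)) (by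
      simp_rw [hpos]
      exact hs.hasSum) (by
      simp_rw [hneg]
      exact hs.hasSum)
  rw [h1.tsum_eq]
  ring

theorem th2_asymp {w : ℂ} (hw : 1 ≤ w.im) :
    ‖th2 w - 2 * cexp (π * I * w / 4)‖ ≤ 3 * Real.exp (-(9 * π * w.im / 4)) := by
  have hw0 : 0 < w.im := by linarith
  obtain ⟨hs, he⟩ := f104_nat hw0
  have h0 : ∑' n : ℕ, cexp (π * I * ((n : ℂ) + 1 / 2) ^ 2 * w)
      = cexp (π * I * w / 4) + ∑' n : ℕ, cexp (π * I * (((n + 1 : ℕ) : ℂ) + 1 / 2) ^ 2 * w) := by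
    rw [hs.tsum_eq_zero_add]
    congr 2
    push_cast
    ring
  rw [he, h0, show ∀ a b : ℂ, 2 * (a + b) - 2 * a = 2 * b by intros; ring, norm_mul,
    Complex.norm_two]
  set q : ℝ := Real.exp (-(4 * π * w.im)) with hq
  have hq0 : 0 < q := Real.exp_pos _
  have hq1 : q ≤ 1 / 3 := by
    have h1 : 2 ≤ 4 * π * w.im := by nlinarith [Real.pi_gt_three]
    have h2 : Real.exp (-(4 * π * w.im)) ≤ Real.exp (-2) := Real.exp_le_exp.2 (by linarith)
    have h3 := Real.add_one_le_exp (2 : ℝ)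
    have h4 : Real.exp (-2) ≤ 1 / 3 := by
      rw [Real.exp_neg, inv_eq_one_div]
      apply one_div_le_one_div_of_le <;> linarith
    linarith
  have hsum : HasSum (fun n : ℕ => Real.exp (-(9 * π * w.im / 4)) * q ^ n)
      (Real.exp (-(9 * π * w.im / 4)) * (1 - q)⁻¹) :=
    (hasSum_geometric_of_lt_one hq0.le (by linarith)).mul_left _
  have hb := tsum_of_norm_bounded hsum
    (f := fun n : ℕ => cexp (π * I * (((n + 1 : ℕ) : ℂ) + 1 / 2) ^ 2 * w)) (by
      intro n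
      have := f104_norm w (n + 1 : ℕ)
      rw [Complex.ofReal_natCast] at this
      rw [this, hq, ← Real.exp_nat_mul, ← Real.exp_add]
      apply Real.exp_le_exp.2
      have h1 : 9 / 4 + 4 * (n : ℝ) ≤ (((n + 1 : ℕ) : ℝ) + 1 / 2) ^ 2 := by
        push_cast
        have : (0 : ℝ) ≤ (n : ℝ) * ((n : ℝ) - 1) := by
          rcases Nat.eq_zero_or_pos n with h | h
          · simp [h]
          · have : (1 : ℝ) ≤ n := by exact_mod_cast h
            nlinarith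
        nlinarith
      have h2 := mul_pos Real.pi_pos hw0
      nlinarith)
  have hinv : (1 - q)⁻¹ ≤ 3 / 2 := by
    rw [inv_le_comm₀ (by linarith) (by norm_num)]
    norm_num
    linarith
  have hE := Real.exp_pos (-(9 * π * w.im / 4))
  calc 2 * ‖∑' n : ℕ, cexp (π * I * (((n + 1 : ℕ) : ℂ) + 1 / 2) ^ 2 * w)‖
      ≤ 2 * (Real.exp (-(9 * π * w.im / 4)) * (1 - q)⁻¹) := by linarith
    _ ≤ 2 * (Real.exp (-(9 * π * w.im / 4)) * (3 / 2)) := by gcongr
    _ = 3 * Real.exp (-(9 * π * w.im / 4)) := by ring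

private theorem f104_t : Real.exp (-(π / 4)) ≤ 1 / 2.09 := by
  rw [Real.exp_neg, inv_eq_one_div]
  apply one_div_le_one_div_of_le (by norm_num)
  have h1 := Real.quadratic_le_exp_of_nonneg (x := π / 4) (by positivity)
  have h2 := Real.pi_gt_d2
  nlinarith

private theorem f104_theta {z : ℂ} (hz : 2 ≤ z.im) : ‖jacobiTheta z - 1‖ ≤ 0.0056 := by
  have h1 := norm_jacobiTheta_sub_one_le (τ := z) (by linarith)
  set q : ℝ := Real.exp (-π * z.im) with hq
  have hq0 : 0 < q := Real.exp_pos _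
  have hq1 : q ≤ 0.00275 := by
    have h2 : q ≤ Real.exp (-(π / 4)) ^ 8 := by
      rw [hq, ← Real.exp_nat_mul]
      apply Real.exp_le_exp.2
      push_cast
      nlinarith [Real.pi_pos]
    refine h2.trans ?_
    refine (pow_le_pow_left₀ (Real.exp_pos _).le f104_t 8).trans ?_
    norm_num
  refine h1.trans ?_
  rw [div_mul_eq_mul_div, div_le_iff₀ (by linarith)]
  nlinarith

theorem Yf_near_one {z : ℂ} (hz : 2 ≤ z.im) : ‖Yf z - 1‖ ≤ 1 / 10 := by
  have ha := f104_theta hz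
  have hb := f104_theta (z := z + 1) (by simpa using hz)
  have hc : ‖th2 z‖ ≤ 0.46 := by
    have h1 := th2_asymp (w := z) (by linarith)
    have h2 : ‖(2 : ℂ) * cexp (π * I * z / 4)‖ ≤ 2 * (1 / 2.09) ^ 2 := by
      rw [norm_mul, Complex.norm_two, Complex.norm_exp]
      have h3 : (π * I * z / 4 : ℂ).re = -(π * z.im / 4) := by
        have : (π * I * z / 4 : ℂ) = ((π / 4 : ℝ) : ℂ) * (I * z) := by push_cast; ring
        rw [this, Complex.re_ofReal_mul]
        simp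
        ring
      rw [h3]
      have h4 : Real.exp (-(π * z.im / 4)) ≤ Real.exp (-(π / 4)) ^ 2 := by
        rw [← Real.exp_nat_mul]
        apply Real.exp_le_exp.2
        push_cast
        nlinarith [Real.pi_pos]
      have h5 := pow_le_pow_left₀ (Real.exp_pos _).le f104_t 2
      linarith
    have h3 : 3 * Real.exp (-(9 * π * z.im / 4)) ≤ 3 * (1 / 2.09) ^ 18 := by
      have h4 : Real.exp (-(9 * π * z.im / 4)) ≤ Real.exp (-(π / 4)) ^ 18 := by
        rw [← Real.exp_nat_mul]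
        apply Real.exp_le_exp.2
        push_cast
        nlinarith [Real.pi_pos]
      have h5 := pow_le_pow_left₀ (Real.exp_pos _).le f104_t 18
      linarith
    have h6 : ‖th2 z‖ ≤ ‖th2 z - 2 * cexp (π * I * z / 4)‖ + ‖(2 : ℂ) * cexp (π * I * z / 4)‖ := by
      simpa using norm_add_le (th2 z - 2 * cexp (π * I * z / 4)) (2 * cexp (π * I * z / 4))
    have h7 : (2 : ℝ) * (1 / 2.09) ^ 2 + 3 * (1 / 2.09) ^ 18 ≤ 0.46 := by norm_num
    linarith
  unfold Yf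
  set a := jacobiTheta z with hadef
  set b := jacobiTheta (z + 1) with hbdef
  set c := th2 z with hcdef
  have ha1 : 0.9944 ≤ ‖a‖ := by
    have : ‖(1 : ℂ)‖ ≤ ‖a‖ + ‖a - 1‖ := by
      have := norm_sub_le a (a - 1)
      simpa using this
    rw [norm_one] at this
    linarith
  have ha2 : ‖a‖ ≤ 1.0056 := by
    have : ‖a‖ ≤ ‖a - 1‖ + ‖(1 : ℂ)‖ := by
      have := norm_add_le (a - 1) 1
      simpa using this
    rw [norm_one] at this
    linarith
  have hb2 : ‖b‖ ≤ 1.0056 := by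
    have : ‖b‖ ≤ ‖b - 1‖ + ‖(1 : ℂ)‖ := by
      have := norm_add_le (b - 1) 1
      simpa using this
    rw [norm_one] at this
    linarith
  have ha0 : a ≠ 0 := by
    intro h
    rw [h, norm_zero] at ha1
    norm_num at ha1
  have ha4 : 0 < ‖a‖ ^ 4 := by positivity
  rw [div_sub_one (pow_ne_zero 4 ha0), norm_div, norm_pow, div_le_iff₀ ha4]
  have hba : ‖b - a‖ ≤ 0.0112 := by
    have : ‖b - a‖ ≤ ‖b - 1‖ + ‖a - 1‖ := by
      have := norm_sub_le (b - 1) (a - 1)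
      simpa using this
    linarith
  have h4 : ‖b ^ 4 - a ^ 4‖ ≤ 0.0112 * (4 * 1.0056 ^ 3) := by
    have h5 : b ^ 4 - a ^ 4 = (b - a) * (b ^ 3 + b ^ 2 * a + b * a ^ 2 + a ^ 3) := by ring
    rw [h5, norm_mul]
    have h6 : ‖b ^ 3 + b ^ 2 * a + b * a ^ 2 + a ^ 3‖ ≤ 4 * 1.0056 ^ 3 := by
      have e1 : ‖b ^ 3‖ ≤ 1.0056 ^ 3 := by
        rw [norm_pow]; gcongr
      have e2 : ‖b ^ 2 * a‖ ≤ 1.0056 ^ 2 * 1.0056 := by
        rw [norm_mul, norm_pow]; gcongr
      have e3 : ‖b * a ^ 2‖ ≤ 1.0056 * 1.0056 ^ 2 := by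
        rw [norm_mul, norm_pow]; gcongr
      have e4 : ‖a ^ 3‖ ≤ 1.0056 ^ 3 := by
        rw [norm_pow]; gcongr
      have e5 := norm_add_le (b ^ 3 + b ^ 2 * a + b * a ^ 2) (a ^ 3)
      have e6 := norm_add_le (b ^ 3 + b ^ 2 * a) (b * a ^ 2)
      have e7 := norm_add_le (b ^ 3) (b ^ 2 * a)
      norm_num at *
      linarith
    gcongr
  have h7 : ‖c ^ 4‖ ≤ 0.46 ^ 4 := by
    rw [norm_pow]; gcongr
  have h8 : b ^ 4 - c ^ 4 - a ^ 4 = (b ^ 4 - a ^ 4) - c ^ 4 := by ring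
  have h9 : ‖b ^ 4 - c ^ 4 - a ^ 4‖ ≤ 0.0112 * (4 * 1.0056 ^ 3) + 0.46 ^ 4 := by
    rw [h8]
    exact (norm_sub_le _ _).trans (add_le_add h4 h7)
  have h10 : (0.9944 : ℝ) ^ 4 ≤ ‖a‖ ^ 4 := by gcongr
  norm_num at *
  linarith

theorem theta_norm_le_two {z : ℂ} (hz : 2 ≤ z.im) : ‖jacobiTheta z‖ ≤ 2 := by
  have ha := f104_theta hz
  have : ‖jacobiTheta z‖ ≤ ‖jacobiTheta z - 1‖ + ‖(1 : ℂ)‖ := by
    have := norm_add_le (jacobiTheta z - 1) 1
    simpa using this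
  rw [norm_one] at this
  norm_num at ha
  linarith

end RV11
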