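import Pool.Agent.LibRV11.Defs
import Pool.Agent.LibRV11.TH9
import Pool.Agent.LibRV11.F101
import Pool.Agent.LibRV11.F102
import Pool.Agent.LibRV11.F104
open Complex Real MeasureTheory Filter Topology
open UpperHalfPlane hiding I
open scoped MatrixGroups ComplexConjugate ModularForm

namespace RV11

/-! ### E6 (Lemma Z): a bounded sequence whose generating function satisfies the functional
equations vanishes -/

/-- the generating function -/
noncomputable def E6H (d : ℕ → ℂ) (z : ℂ) : ℂ := ∑' n : ℕ, d n * cexp (π * I * n * z)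

/-- the quotient by theta -/
noncomputable def E6D (d : ℕ → ℂ) (z : ℂ) : ℂ := E6H d z / jacobiTheta z

theorem e6_norm_exp (n : ℕ) (z : ℂ) : ‖cexp (π * I * n * z)‖ = (Real.exp (-(π * z.im))) ^ n := by
  rw [Complex.norm_exp, ← Real.exp_nat_mul]
  congr 1
  have : (π * I * n * z : ℂ) = ((n * π : ℝ) : ℂ) * (I * z) := by push_cast; ring
  rw [this, Complex.re_ofReal_mul]
  simp
  ring

theorem e6_q_lt {z : ℂ} (hz : 0 < z.im) : Real.exp (-(π * z.im)) < 1 := by
  rw [Real.exp_lt_one_iff]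
  have := mul_pos Real.pi_pos hz
  linarith

theorem e6_summable {d : ℕ → ℂ} {C : ℝ} (hd : ∀ n, ‖d n‖ ≤ C) {z : ℂ} (hz : 0 < z.im) :
    Summable (fun n : ℕ => d n * cexp (π * I * n * z)) := by
  apply Summable.of_norm_bounded (g := fun n : ℕ => C * (Real.exp (-(π * z.im))) ^ n)
  · exact (summable_geometric_of_lt_one (Real.exp_pos _).le (e6_q_lt hz)).mul_left C
  · intro n
    rw [norm_mul, e6_norm_exp]
    exact mul_le_mul_of_nonneg_right (hd n) (by positivity)

theorem e6_H_bound {d : ℕ → ℂ} {C : ℝ} (hd : ∀ n, ‖d n‖ ≤ C) {z : ℂ} (hz : 0 < z.im) :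
    ‖E6H d z‖ ≤ C * (1 + 1 / z.im) := by
  have hC : 0 ≤ C := (norm_nonneg _).trans (hd 0)
  have hq := e6_q_lt hz
  have hs : HasSum (fun n : ℕ => C * (Real.exp (-(π * z.im))) ^ n)
      (C * (1 - Real.exp (-(π * z.im)))⁻¹) :=
    (hasSum_geometric_of_lt_one (Real.exp_pos _).le hq).mul_left C
  have hb := tsum_of_norm_bounded hs (f := fun n : ℕ => d n * cexp (π * I * n * z)) (by
    intro n
    rw [norm_mul, e6_norm_exp]
    exact mul_le_mul_of_nonneg_right (hd n) (by positivity))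
  refine hb.trans (mul_le_mul_of_nonneg_left ?_ hC)
  rw [inv_le_iff_one_le_mul₀ (by linarith)]
  have h1 : Real.exp (-(π * z.im)) ≤ 1 / (1 + π * z.im) := by
    rw [Real.exp_neg, inv_eq_one_div]
    apply one_div_le_one_div_of_le
    · have := mul_pos Real.pi_pos hz
      linarith
    · have := Real.add_one_le_exp (π * z.im)
      linarith
  have h2 : (0 : ℝ) < 1 + π * z.im := by
    have := mul_pos Real.pi_pos hz
    linarith
  have h3 : (1 + 1 / z.im) * (1 - 1 / (1 + π * z.im)) ≥ 1 := by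
    have e : (1 + 1 / z.im) * (1 - 1 / (1 + π * z.im)) = (z.im + 1) * π / (1 + π * z.im) := by
      field_simp
      ring
    rw [e, ge_iff_le, one_le_div h2]
    have := Real.pi_gt_three
    nlinarith
  have h4 : (1 + 1 / z.im) * (1 - 1 / (1 + π * z.im)) ≤
      (1 + 1 / z.im) * (1 - Real.exp (-(π * z.im))) := by
    have : 0 < 1 / z.im := by positivity
    apply mul_le_mul_of_nonneg_left _ (by linarith)
    linarith
  linarith

theorem e6_isOpen : IsOpen {z : ℂ | 0 < z.im} :=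
  isOpen_lt continuous_const Complex.continuous_im

theorem e6_diffAt_H {d : ℕ → ℂ} {C : ℝ} (hd : ∀ n, ‖d n‖ ≤ C) {z : ℂ} (hz : 0 < z.im) :
    DifferentiableAt ℂ (E6H d) z := by
  set ε : ℝ := z.im / 2 with hε
  have hε0 : 0 < ε := by positivity
  set U : Set ℂ := {w : ℂ | ε < w.im} with hU
  have hUo : IsOpen U := isOpen_lt continuous_const Complex.continuous_im
  have hzU : z ∈ U := by
    simp only [hU, Set.mem_ofPred_eq, hε]
    linarith
  have key : DifferentiableOn ℂ (fun w => ∑' n : ℕ, d n * cexp (π * I * n * w)) U := by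
    apply differentiableOn_tsum_of_summable_norm
      (u := fun n : ℕ => C * (Real.exp (-(π * ε))) ^ n)
    · apply (summable_geometric_of_lt_one (Real.exp_pos _).le _).mul_left C
      rw [Real.exp_lt_one_iff]
      have := mul_pos Real.pi_pos hε0
      linarith
    · intro n
      apply Differentiable.differentiableOn
      exact (differentiable_id.const_mul _).cexp.const_mul _
    · exact hUo
    · intro n w hw
      rw [norm_mul, e6_norm_exp]
      have hC : 0 ≤ C := (norm_nonneg _).trans (hd 0)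
      have h1 : Real.exp (-(π * w.im)) ≤ Real.exp (-(π * ε)) := by
        apply Real.exp_le_exp.2
        have : ε < w.im := hw
        nlinarith [Real.pi_pos]
      have h2 : Real.exp (-(π * w.im)) ^ n ≤ Real.exp (-(π * ε)) ^ n :=
        pow_le_pow_left₀ (Real.exp_pos _).le h1 n
      exact mul_le_mul (hd n) h2 (by positivity) hC
  exact key.differentiableAt (hUo.mem_nhds hzU)

theorem e6_H_two (d : ℕ → ℂ) (z : ℂ) : E6H d (z + 2) = E6H d z := by
  unfold E6H
  refine tsum_congr fun n => ?_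
  congr 1
  have : (π * I * n * (z + 2) : ℂ) = π * I * n * z + n * (2 * π * I) := by ring
  rw [this, Complex.exp_add, Complex.exp_nat_mul_two_pi_mul_I, mul_one]

theorem e6_im_neg_inv {z : ℂ} (hz : 0 < z.im) : 0 < (-1 / z).im := by
  have h0 : z ≠ 0 := by rintro rfl; simp at hz
  have : (-1 / z).im = z.im / normSq z := by
    rw [div_eq_mul_inv, Complex.mul_im, Complex.inv_re, Complex.inv_im]
    simp
    ring
  rw [this]
  exact div_pos hz (normSq_pos.mpr h0)

theorem e6_eqH {d : ℕ → ℂ} {C : ℝ} (hd : ∀ n, ‖d n‖ ≤ C)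
    (h : ∀ τ : ℂ, 0 < τ.im → ∑' n : ℕ, d n * (cexp (π * I * n * τ) +
      (-I * τ) ^ (-(1 / 2) : ℂ) * cexp (π * I * n * (-1 / τ))) = 0) {z : ℂ} (hz : 0 < z.im) :
    E6H d z + (-I * z) ^ (-(1 / 2) : ℂ) * E6H d (-1 / z) = 0 := by
  have h1 := e6_summable hd hz
  have h2 := e6_summable hd (e6_im_neg_inv hz)
  have h3 := h z hz
  rw [← h3]
  unfold E6H
  rw [← tsum_mul_left, ← h1.tsum_add (h2.mul_left _)]
  refine tsum_congr fun n => ?_
  ring

theorem e6_D_S {d : ℕ → ℂ} {C : ℝ} (hd : ∀ n, ‖d n‖ ≤ C)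
    (h : ∀ τ : ℂ, 0 < τ.im → ∑' n : ℕ, d n * (cexp (π * I * n * τ) +
      (-I * τ) ^ (-(1 / 2) : ℂ) * cexp (π * I * n * (-1 / τ))) = 0) {z : ℂ} (hz : 0 < z.im) :
    E6D d (-1 / z) = -E6D d z := by
  have h1 := e6_eqH hd h hz
  have h0 : z ≠ 0 := by rintro rfl; simp at hz
  have hIz : -I * z ≠ 0 := mul_ne_zero (neg_ne_zero.mpr Complex.I_ne_zero) h0
  have hp : (-I * z) ^ (1 / 2 : ℂ) ≠ 0 := by
    rw [Complex.cpow_def_of_ne_zero hIz]
    exact Complex.exp_ne_zero _
  rw [Complex.cpow_neg] at h1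
  have h2 : E6H d (-1 / z) = -((-I * z) ^ (1 / 2 : ℂ)) * E6H d z := by
    generalize E6H d (-1 / z) = H1 at *
    generalize (-I * z) ^ (1 / 2 : ℂ) = p at *
    generalize E6H d z = H0 at *
    have h3 : p * (H0 + p⁻¹ * H1) = 0 := by rw [h1, mul_zero]
    have h4 : p * (H0 + p⁻¹ * H1) = p * H0 + H1 := by field_simp
    rw [h4] at h3
    linear_combination h3
  unfold E6D
  rw [h2, theta_S hz]
  have := theta_ne hz
  field_simp

theorem e6_D_two (d : ℕ → ℂ) (z : ℂ) : E6D d (z + 2) = E6D d z := by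
  have h1 : jacobiTheta (z + 2) = jacobiTheta z := by
    rw [add_comm]; exact jacobiTheta_two_add z
  unfold E6D
  rw [e6_H_two, h1]

theorem e6_diffAt_D {d : ℕ → ℂ} {C : ℝ} (hd : ∀ n, ‖d n‖ ≤ C) {z : ℂ} (hz : 0 < z.im) :
    DifferentiableAt ℂ (E6D d) z :=
  (e6_diffAt_H hd hz).div (diffAt_theta hz) (theta_ne hz)

/-- `g(w) = D(1 - 1/w)` -/
noncomputable def E6g (d : ℕ → ℂ) (w : ℂ) : ℂ := E6D d (-1 / w + 1)

theorem e6_g_one {d : ℕ → ℂ} {C : ℝ} (hd : ∀ n, ‖d n‖ ≤ C)
    (h : ∀ τ : ℂ, 0 < τ.im → ∑' n : ℕ, d n * (cexp (π * I * n * τ) +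
      (-I * τ) ^ (-(1 / 2) : ℂ) * cexp (π * I * n * (-1 / τ))) = 0) {w : ℂ} (hw : 0 < w.im) :
    E6g d (w + 1) = -E6g d w := by
  have h0 : w ≠ 0 := by rintro rfl; simp at hw
  have hw1 : 0 < (w + 1).im := by simpa using hw
  have h1 : w + 1 ≠ 0 := by
    intro e; rw [e] at hw1; simp at hw1
  unfold E6g
  have him : 0 < (-1 / (w + 1) + 1).im := by
    rw [Complex.add_im, Complex.one_im, add_zero]
    exact e6_im_neg_inv hw1
  have e1 : E6D d (-1 / (-1 / (w + 1) + 1)) = -E6D d (-1 / (w + 1) + 1) := e6_D_S hd h him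
  have e2 : -1 / (-1 / (w + 1) + 1) + 2 = -1 / w + 1 := by
    have : -1 / (w + 1) + 1 = w / (w + 1) := by field_simp; ring
    rw [this]
    field_simp
    ring
  rw [← e2, e6_D_two, e1]
  ring

theorem e6_g_bound {d : ℕ → ℂ} {C : ℝ} (hd : ∀ n, ‖d n‖ ≤ C) {w : ℂ} (hw : 1 ≤ w.im)
    (hr : |w.re| ≤ 1 / 2) : ‖E6g d w‖ ≤ 3 * C * w.im * Real.exp (π * w.im / 4) := by
  have hC : 0 ≤ C := (norm_nonneg _).trans (hd 0)
  have hw0 : 0 < w.im := by linarith
  have h0 : w ≠ 0 := by rintro rfl; simp at hw0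
  have him : 0 < (-1 / w + 1).im := by
    rw [Complex.add_im, Complex.one_im, add_zero]
    exact e6_im_neg_inv hw0
  have himv : (-1 / w + 1).im = w.im / normSq w := by
    rw [Complex.add_im, Complex.one_im, add_zero, div_eq_mul_inv, Complex.mul_im, Complex.inv_re,
      Complex.inv_im]
    simp
    ring
  have hH := e6_H_bound hd him
  have hns : normSq w ≤ 1 / 4 + w.im ^ 2 := by
    rw [Complex.normSq_apply]
    have := abs_le.mp hr
    nlinarith [this.1, this.2]
  have hns0 : 0 < normSq w := normSq_pos.mpr h0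
  have hH2 : ‖E6H d (-1 / w + 1)‖ ≤ C * (3 * w.im) := by
    refine hH.trans (mul_le_mul_of_nonneg_left ?_ hC)
    rw [himv, one_div_div]
    have : normSq w / w.im ≤ 2 * w.im := by
      rw [div_le_iff₀ hw0]
      nlinarith
    linarith
  have hth : jacobiTheta (-1 / w + 1) = (-I * w) ^ (1 / 2 : ℂ) * th2 w := by
    have := theta_one_sub w hw0
    rw [← this]
    congr 1
    ring
  have hpow : 1 ≤ ‖(-I * w) ^ (1 / 2 : ℂ)‖ := by
    have e : (1 / 2 : ℂ) = ((1 / 2 : ℝ) : ℂ) := by push_cast; ring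
    have hnn : -I * w ≠ 0 := mul_ne_zero (neg_ne_zero.mpr Complex.I_ne_zero) h0
    rw [e, Complex.norm_cpow_real]
    apply Real.one_le_rpow _ (by norm_num)
    rw [norm_mul, norm_neg, Complex.norm_I, one_mul]
    exact hw.trans ((le_abs_self _).trans (Complex.abs_im_le_norm w))
  have hth2 : Real.exp (-(π * w.im / 4)) ≤ ‖th2 w‖ := by
    have h1 := th2_asymp hw
    have h2 : ‖(2 : ℂ) * cexp (π * I * w / 4)‖ = 2 * Real.exp (-(π * w.im / 4)) := by
      rw [norm_mul, Complex.norm_two, Complex.norm_exp]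
      have h3 : (π * I * w / 4 : ℂ).re = -(π * w.im / 4) := by
        have : (π * I * w / 4 : ℂ) = ((π / 4 : ℝ) : ℂ) * (I * w) := by push_cast; ring
        rw [this, Complex.re_ofReal_mul]
        simp
        ring
      rw [h3]
    have h3 : ‖(2 : ℂ) * cexp (π * I * w / 4)‖ ≤ ‖th2 w‖ + ‖th2 w - 2 * cexp (π * I * w / 4)‖ := by
      have := norm_sub_le (th2 w) (th2 w - 2 * cexp (π * I * w / 4))
      simpa using this
    have h4 : 3 * Real.exp (-(9 * π * w.im / 4)) ≤ Real.exp (-(π * w.im / 4)) := by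
      have e : -(9 * π * w.im / 4) = -(π * w.im / 4) + -(2 * π * w.im) := by ring
      rw [e, Real.exp_add]
      have h5 : Real.exp (-(2 * π * w.im)) ≤ 1 / 3 := by
        have h6 : Real.exp (-(2 * π * w.im)) ≤ Real.exp (-2) := by
          apply Real.exp_le_exp.2
          nlinarith [Real.pi_gt_three]
        have h7 := Real.add_one_le_exp (2 : ℝ)
        have h8 : Real.exp (-2) ≤ 1 / 3 := by
          rw [Real.exp_neg, inv_eq_one_div]
          apply one_div_le_one_div_of_le <;> linarith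
        linarith
      have h6 := Real.exp_pos (-(π * w.im / 4))
      nlinarith
    linarith
  unfold E6g E6D
  rw [hth, norm_div, norm_mul]
  have hE := Real.exp_pos (-(π * w.im / 4))
  have hden : Real.exp (-(π * w.im / 4)) ≤ ‖(-I * w) ^ (1 / 2 : ℂ)‖ * ‖th2 w‖ := by
    nlinarith [norm_nonneg (th2 w)]
  calc ‖E6H d (-1 / w + 1)‖ / (‖(-I * w) ^ (1 / 2 : ℂ)‖ * ‖th2 w‖)
      ≤ C * (3 * w.im) / Real.exp (-(π * w.im / 4)) := by
        apply div_le_div₀ _ hH2 hE hden
        positivity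
    _ = 3 * C * w.im * Real.exp (π * w.im / 4) := by
        rw [Real.exp_neg, div_inv_eq_mul]
        ring


/-- `g(w) e^{iπw}`, extended by `0`. -/
noncomputable def E6f (d : ℕ → ℂ) (w : ℂ) : ℂ :=
  open Classical in if 0 < w.im then E6g d w * cexp (π * I * w) else 0

theorem e6_f_periodic {d : ℕ → ℂ} {C : ℝ} (hd : ∀ n, ‖d n‖ ≤ C)
    (h : ∀ τ : ℂ, 0 < τ.im → ∑' n : ℕ, d n * (cexp (π * I * n * τ) +
      (-I * τ) ^ (-(1 / 2) : ℂ) * cexp (π * I * n * (-1 / τ))) = 0) :
    Function.Periodic (E6f d) (1 : ℝ) := by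
  intro w
  unfold E6f
  have e : (w + ((1 : ℝ) : ℂ)).im = w.im := by simp
  rw [e]
  split_ifs with hw
  · have e1 : w + ((1 : ℝ) : ℂ) = w + 1 := by simp
    rw [e1, e6_g_one hd h hw]
    have e2 : cexp (π * I * (w + 1)) = -cexp (π * I * w) := by
      have : (π * I * (w + 1) : ℂ) = π * I * w + π * I := by ring
      rw [this, Complex.exp_add, Complex.exp_pi_mul_I]
      ring
    rw [e2]
    ring
  · rfl

theorem e6_diffAt_g {d : ℕ → ℂ} {C : ℝ} (hd : ∀ n, ‖d n‖ ≤ C) {w : ℂ} (hw : 0 < w.im) :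
    DifferentiableAt ℂ (E6g d) w := by
  have h0 : w ≠ 0 := by rintro rfl; simp at hw
  have him : 0 < (-1 / w + 1).im := by
    rw [Complex.add_im, Complex.one_im, add_zero]
    exact e6_im_neg_inv hw
  have h2 : DifferentiableAt ℂ (fun w : ℂ => -1 / w + 1) w :=
    ((differentiableAt_const _).div differentiableAt_id h0).add_const _
  exact DifferentiableAt.comp w (g := E6D d) (f := fun w : ℂ => -1 / w + 1)
    (e6_diffAt_D hd him) h2

theorem e6_f_bound {d : ℕ → ℂ} {C : ℝ} (hd : ∀ n, ‖d n‖ ≤ C)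
    (h : ∀ τ : ℂ, 0 < τ.im → ∑' n : ℕ, d n * (cexp (π * I * n * τ) +
      (-I * τ) ^ (-(1 / 2) : ℂ) * cexp (π * I * n * (-1 / τ))) = 0) {w : ℂ} (hw : 1 ≤ w.im) :
    ‖E6f d w‖ ≤ 3 * C * w.im * Real.exp (-(3 * π / 4 * w.im)) := by
  -- move into the strip
  set m : ℤ := round w.re with hm
  have hp := (e6_f_periodic hd h).sub_zsmul_eq m (x := w)
  set w1 : ℂ := w - m • (((1 : ℝ) : ℂ)) with hw1
  have him : w1.im = w.im := by simp [hw1]
  have hre : |w1.re| ≤ 1 / 2 := by
    have : w1.re = w.re - round w.re := by simp [hw1, hm]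
    rw [this]
    exact abs_sub_round w.re
  rw [← hp, ← him]
  have hw2 : 1 ≤ w1.im := by rw [him]; exact hw
  have hw0 : 0 < w1.im := by linarith
  unfold E6f
  rw [if_pos hw0, norm_mul]
  have h1 := e6_g_bound hd hw2 hre
  have h2 : ‖cexp (π * I * w1)‖ = Real.exp (-(π * w1.im)) := by
    have := e6_norm_exp 1 w1
    simpa using this
  rw [h2]
  calc ‖E6g d w1‖ * Real.exp (-(π * w1.im))
      ≤ 3 * C * w1.im * Real.exp (π * w1.im / 4) * Real.exp (-(π * w1.im)) := by gcongr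
    _ = 3 * C * w1.im * Real.exp (-(3 * π / 4 * w1.im)) := by
      rw [mul_assoc, ← Real.exp_add]
      congr 2
      ring

theorem e6_f_zero {d : ℕ → ℂ} {C : ℝ} (hd : ∀ n, ‖d n‖ ≤ C)
    (h : ∀ τ : ℂ, 0 < τ.im → ∑' n : ℕ, d n * (cexp (π * I * n * τ) +
      (-I * τ) ^ (-(1 / 2) : ℂ) * cexp (π * I * n * (-1 / τ))) = 0) :
    Filter.ZeroAtFilter (comap Complex.im atTop) (E6f d) := by
  have h1 : Tendsto (fun x : ℝ => 3 * C * x * Real.exp (-(3 * π / 4 * x))) atTop (𝓝 0) := by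
    have h2 := Real.tendsto_pow_mul_exp_neg_atTop_nhds_zero 1
    have h3 : Tendsto (fun x : ℝ => 3 * π / 4 * x) atTop atTop :=
      tendsto_id.const_mul_atTop (by positivity)
    have h4 := (h2.comp h3).const_mul (3 * C * (4 / (3 * π)))
    rw [mul_zero] at h4
    refine h4.congr fun x => ?_
    simp only [Function.comp, pow_one]
    have := Real.pi_ne_zero
    field_simp
  have h5 : Tendsto (fun w : ℂ => 3 * C * w.im * Real.exp (-(3 * π / 4 * w.im)))
      (comap Complex.im atTop) (𝓝 0) := h1.comp tendsto_comap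
  refine squeeze_zero_norm' ?_ h5
  have h6 : ∀ᶠ w : ℂ in comap Complex.im atTop, 1 ≤ w.im :=
    tendsto_comap.eventually (eventually_ge_atTop 1)
  filter_upwards [h6] with w hw
  exact e6_f_bound hd h hw

theorem e6_g_decay {d : ℕ → ℂ} {C : ℝ} (hd : ∀ n, ‖d n‖ ≤ C)
    (h : ∀ τ : ℂ, 0 < τ.im → ∑' n : ℕ, d n * (cexp (π * I * n * τ) +
      (-I * τ) ^ (-(1 / 2) : ℂ) * cexp (π * I * n * (-1 / τ))) = 0) :
    Tendsto (E6g d) (comap Complex.im atTop) (𝓝 0) := by
  have hpos : ∀ᶠ w : ℂ in comap Complex.im atTop, 0 < w.im :=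
    tendsto_comap.eventually (eventually_gt_atTop 0)
  have hhol : ∀ᶠ z in comap Complex.im atTop, DifferentiableAt ℂ (E6f d) z := by
    filter_upwards [hpos] with w hw
    have h1 : DifferentiableAt ℂ (fun w => E6g d w * cexp (π * I * w)) w :=
      (e6_diffAt_g hd hw).mul (differentiableAt_id.const_mul _).cexp
    refine h1.congr_of_eventuallyEq ?_
    filter_upwards [e6_isOpen.mem_nhds hw] with v hv
    unfold E6f
    rw [if_pos hv]
  have hO := Function.Periodic.exp_decay_of_zero_at_inf one_pos (e6_f_periodic hd h) hhol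
    (e6_f_zero hd h)
  obtain ⟨K, hK⟩ := hO.bound
  have h1 : Tendsto (fun x : ℝ => K * Real.exp (-(π * x))) atTop (𝓝 0) := by
    have h3 : Tendsto (fun x : ℝ => π * x) atTop atTop :=
      tendsto_id.const_mul_atTop Real.pi_pos
    have h4 := (Real.tendsto_exp_neg_atTop_nhds_zero.comp h3).const_mul K
    rw [mul_zero] at h4
    exact h4
  have h5 : Tendsto (fun w : ℂ => K * Real.exp (-(π * w.im)))
      (comap Complex.im atTop) (𝓝 0) := h1.comp tendsto_comap
  refine squeeze_zero_norm' ?_ h5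
  filter_upwards [hK, hpos] with w hw1 hw2
  unfold E6f at hw1
  rw [if_pos hw2, norm_mul] at hw1
  have h2 : ‖cexp (π * I * w)‖ = Real.exp (-(π * w.im)) := by
    have := e6_norm_exp 1 w
    simpa using this
  rw [h2, Real.norm_of_nonneg (Real.exp_pos _).le] at hw1
  have e : Real.exp (-2 * π * w.im / 1) = Real.exp (-(π * w.im)) * Real.exp (-(π * w.im)) := by
    rw [← Real.exp_add]
    congr 1
    ring
  rw [e, ← mul_assoc] at hw1
  exact le_of_mul_le_mul_right hw1 (Real.exp_pos _)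

theorem e6_theta_lower {w : ℂ} (hw : 2 ≤ w.im) : 2 / 3 ≤ ‖jacobiTheta w‖ := by
  have hw0 : 0 < w.im := by linarith
  have h1 := norm_jacobiTheta_sub_one_le hw0
  set q : ℝ := Real.exp (-π * w.im) with hq
  have hq0 : 0 < q := Real.exp_pos _
  have hq1 : q ≤ 1 / 7 := by
    have h2 : q ≤ Real.exp (-6) := by
      apply Real.exp_le_exp.2
      nlinarith [Real.pi_gt_three]
    have h3 := Real.add_one_le_exp (6 : ℝ)
    have h4 : Real.exp (-6) ≤ 1 / 7 := by
      rw [Real.exp_neg, inv_eq_one_div]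
      apply one_div_le_one_div_of_le <;> linarith
    linarith
  have h2 : 2 / (1 - q) * q ≤ 1 / 3 := by
    rw [div_mul_eq_mul_div, div_le_iff₀ (by linarith)]
    linarith
  have h3 : ‖(1 : ℂ)‖ ≤ ‖jacobiTheta w‖ + ‖jacobiTheta w - 1‖ := by
    have := norm_sub_le (jacobiTheta w) (jacobiTheta w - 1)
    simpa using this
  rw [norm_one] at h3
  linarith

theorem e6_D_bound {d : ℕ → ℂ} {C : ℝ} (hd : ∀ n, ‖d n‖ ≤ C) {w : ℂ} (hw : 2 ≤ w.im) :
    ‖E6D d w‖ ≤ 3 * C := by
  have hC : 0 ≤ C := (norm_nonneg _).trans (hd 0)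
  have hw0 : 0 < w.im := by linarith
  have h1 := e6_H_bound hd hw0
  have h2 := e6_theta_lower hw
  unfold E6D
  rw [norm_div, div_le_iff₀ (by linarith)]
  have h3 : 1 / w.im ≤ 1 / 2 := one_div_le_one_div_of_le (by norm_num) hw
  have h4 : C * (1 + 1 / w.im) ≤ C * (3 / 2) := mul_le_mul_of_nonneg_left (by linarith) hC
  have h5 : 3 * C * (2 / 3) ≤ 3 * C * ‖jacobiTheta w‖ := mul_le_mul_of_nonneg_left h2 (by linarith)
  nlinarith

/-- The norm of `D` to level one, squared. -/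
noncomputable def E6N (d : ℕ → ℂ) (z : ℂ) : ℂ := (E6D d z * E6D d (z + 1) * E6g d z) ^ 2

theorem e6_N_one {d : ℕ → ℂ} {C : ℝ} (hd : ∀ n, ‖d n‖ ≤ C)
    (h : ∀ τ : ℂ, 0 < τ.im → ∑' n : ℕ, d n * (cexp (π * I * n * τ) +
      (-I * τ) ^ (-(1 / 2) : ℂ) * cexp (π * I * n * (-1 / τ))) = 0) {z : ℂ} (hz : 0 < z.im) :
    E6N d (z + 1) = E6N d z := by
  unfold E6N
  have e : z + 1 + 1 = z + 2 := by ring
  rw [e, e6_D_two, e6_g_one hd h hz]
  ring

theorem e6_N_S {d : ℕ → ℂ} {C : ℝ} (hd : ∀ n, ‖d n‖ ≤ C)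
    (h : ∀ τ : ℂ, 0 < τ.im → ∑' n : ℕ, d n * (cexp (π * I * n * τ) +
      (-I * τ) ^ (-(1 / 2) : ℂ) * cexp (π * I * n * (-1 / τ))) = 0) {z : ℂ} (hz : 0 < z.im) :
    E6N d (-1 / z) = E6N d z := by
  have h0 : z ≠ 0 := by rintro rfl; simp at hz
  unfold E6N E6g
  have e : -1 / (-1 / z) + 1 = z + 1 := by field_simp
  rw [e, e6_D_S hd h hz]
  ring

theorem e6_diffAt_N {d : ℕ → ℂ} {C : ℝ} (hd : ∀ n, ‖d n‖ ≤ C) {z : ℂ} (hz : 0 < z.im) :
    DifferentiableAt ℂ (E6N d) z := by
  have h1 : DifferentiableAt ℂ (fun z : ℂ => E6D d (z + 1)) z := by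
    apply DifferentiableAt.comp z (g := E6D d) (f := fun w : ℂ => w + 1)
    · exact e6_diffAt_D hd (by simpa using hz)
    · exact differentiableAt_id.add_const _
  exact (((e6_diffAt_D hd hz).mul h1).mul (e6_diffAt_g hd hz)).pow 2

theorem e6_N_zero {d : ℕ → ℂ} {C : ℝ} (hd : ∀ n, ‖d n‖ ≤ C)
    (h : ∀ τ : ℂ, 0 < τ.im → ∑' n : ℕ, d n * (cexp (π * I * n * τ) +
      (-I * τ) ^ (-(1 / 2) : ℂ) * cexp (π * I * n * (-1 / τ))) = 0) :
    Tendsto (E6N d) (comap Complex.im atTop) (𝓝 0) := by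
  have h1 := (e6_g_decay hd h).norm
  rw [norm_zero] at h1
  have h2 := (h1.const_mul ((3 * C) * (3 * C))).pow 2
  rw [mul_zero, zero_pow (by norm_num)] at h2
  refine squeeze_zero_norm' ?_ h2
  have h6 : ∀ᶠ w : ℂ in comap Complex.im atTop, 2 ≤ w.im :=
    tendsto_comap.eventually (eventually_ge_atTop 2)
  filter_upwards [h6] with w hw
  have h3 := e6_D_bound hd hw
  have h4 := e6_D_bound hd (w := w + 1) (by simpa using hw)
  unfold E6N
  rw [norm_pow, norm_mul, norm_mul]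
  have hC0 : 0 ≤ 3 * C := (norm_nonneg _).trans h3
  gcongr

/-- a holomorphic function on the upper half plane that is invariant under `z + 1` and `-1/z` and
tends to zero at `i∞` vanishes -/
theorem e6_slash {N : ℂ → ℂ} (hone : ∀ z : ℂ, 0 < z.im → N (z + 1) = N z)
    (hinv : ∀ z : ℂ, 0 < z.im → N (-1 / z) = N z) :
    ∀ γ : SL(2, ℤ), (fun τ : ℍ => N (τ : ℂ)) ∣[(0 : ℤ)] γ = fun τ : ℍ => N (τ : ℂ) := by
  apply SlashInvariantForm.slash_action_generators_SL2Z
  · ext τ
    rw [ModularForm.SL_slash_apply, UpperHalfPlane.modular_S_smul]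
    have e : ((UpperHalfPlane.mk (-(τ : ℂ))⁻¹ τ.im_inv_neg_coe_pos : ℍ) : ℂ) = -1 / (τ : ℂ) := by
      rw [UpperHalfPlane.coe_mk, inv_neg, neg_div, one_div]
    rw [neg_zero, zpow_zero, mul_one]
    have h1 := hinv τ τ.2
    rw [← e] at h1
    exact h1
  · ext τ
    rw [ModularForm.SL_slash_apply, modular_T_smul]
    have e : (((1 : ℝ) +ᵥ τ : ℍ) : ℂ) = (τ : ℂ) + 1 := by
      rw [UpperHalfPlane.coe_vadd]
      push_cast
      ring
    rw [neg_zero, zpow_zero, mul_one]
    have h1 := hone τ τ.2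
    rw [← e] at h1
    exact h1

theorem e6_zero {N : ℂ → ℂ} (hone : ∀ z : ℂ, 0 < z.im → N (z + 1) = N z)
    (hinv : ∀ z : ℂ, 0 < z.im → N (-1 / z) = N z)
    (hdiff : ∀ z : ℂ, 0 < z.im → DifferentiableAt ℂ N z)
    (hlim : Tendsto N (comap Complex.im atTop) (𝓝 0)) {z : ℂ} (hz : 0 < z.im) : N z = 0 := by
  have hS := e6_slash hone hinv
  have h0 : IsZeroAtImInfty (fun τ : ℍ => N (τ : ℂ)) := by
    have h2 : Tendsto (fun τ : ℍ => (τ : ℂ)) atImInfty (comap Complex.im atTop) :=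
      tendsto_comap_iff.mpr tendsto_comap
    exact hlim.comp h2
  let F : CuspForm 𝒮ℒ 0 := {
    toFun := fun τ : ℍ => N (τ : ℂ)
    slash_action_eq' := by
      intro A hA
      obtain ⟨A, rfl⟩ := hA
      exact hS A
    holo' := by
      rw [UpperHalfPlane.mdifferentiable_iff]
      refine .congr (fun z hz => (hdiff z hz).differentiableWithinAt) fun z hz => ?_
      simp [ofComplex_apply_of_im_pos hz]
    zero_at_cusps' := by
      intro c hc
      rw [Subgroup.IsArithmetic.isCusp_iff_isCusp_SL2Z] at hc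
      rw [OnePoint.isZeroAt_iff_forall_SL2Z hc]
      intro γ _
      rw [hS γ]
      exact h0 }
  obtain ⟨c, hc⟩ := ModularFormClass.levelOne_weight_zero_const F
  have hF : ∀ τ : ℍ, F τ = N (τ : ℂ) := fun τ => rfl
  have h2 : ∀ τ : ℍ, N (τ : ℂ) = c := by
    intro τ
    rw [← hF, hc]
    rfl
  have h3 : Tendsto (fun τ : ℍ => N (τ : ℂ)) atImInfty (𝓝 c) := by
    simp only [h2]
    exact tendsto_const_nhds
  have h4 : c = 0 := tendsto_nhds_unique h3 h0
  have := h2 ⟨z, hz⟩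
  rw [h4] at this
  exact this

theorem e6_N_eq {d : ℕ → ℂ} {C : ℝ} (hd : ∀ n, ‖d n‖ ≤ C)
    (h : ∀ τ : ℂ, 0 < τ.im → ∑' n : ℕ, d n * (cexp (π * I * n * τ) +
      (-I * τ) ^ (-(1 / 2) : ℂ) * cexp (π * I * n * (-1 / τ))) = 0) {z : ℂ} (hz : 0 < z.im) :
    E6N d z = 0 :=
  e6_zero (fun _ hz => e6_N_one hd h hz) (fun _ hz => e6_N_S hd h hz)
    (fun _ hz => e6_diffAt_N hd hz) (e6_N_zero hd h) hz

theorem e6_coeff {d : ℕ → ℂ} {C : ℝ} (hd : ∀ n, ‖d n‖ ≤ C)
    (h : ∀ z : ℂ, 0 < z.im → E6H d z = 0) : ∀ n, d n = 0 := by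
  intro n
  induction n using Nat.strong_induction_on with
  | _ n ih =>
  have hC : 0 ≤ C := (norm_nonneg _).trans (hd 0)
  -- the shifted series vanishes
  have h1 : ∀ z : ℂ, 0 < z.im → E6H (fun m => d (m + n)) z = 0 := by
    intro z hz
    have hs := e6_summable hd hz
    have h2 := h z hz
    unfold E6H at h2
    rw [← hs.sum_add_tsum_nat_add n] at h2
    rw [Finset.sum_eq_zero (fun i hi => by rw [ih i (Finset.mem_range.mp hi)]; simp),
      zero_add] at h2
    have h3 : ∀ m : ℕ, d (m + n) * cexp (π * I * ((m + n : ℕ) : ℂ) * z) =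
        cexp (π * I * n * z) * (d (m + n) * cexp (π * I * m * z)) := by
      intro m
      have : (π * I * ((m + n : ℕ) : ℂ) * z : ℂ) = π * I * n * z + π * I * m * z := by
        push_cast; ring
      rw [this, Complex.exp_add]
      ring
    simp only [h3] at h2
    rw [tsum_mul_left] at h2
    rcases mul_eq_zero.mp h2 with h4 | h4
    · exact absurd h4 (Complex.exp_ne_zero _)
    · exact h4
  have hd' : ∀ m, ‖(fun m => d (m + n)) m‖ ≤ C := fun m => hd (m + n)
  have hd'' : ∀ m, ‖(fun m => d (m + 1 + n)) m‖ ≤ C := fun m => hd (m + 1 + n)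
  have key : ∀ z : ℂ, 1 ≤ z.im → ‖d n‖ ≤ 2 * C * Real.exp (-(π * z.im)) := by
    intro z hz
    have hz0 : 0 < z.im := by linarith
    have h2 := h1 z hz0
    have hs := e6_summable hd' hz0
    unfold E6H at h2
    rw [hs.tsum_eq_zero_add] at h2
    have h3 : ∀ m : ℕ, d (m + 1 + n) * cexp (π * I * ((m + 1 : ℕ) : ℂ) * z) =
        cexp (π * I * z) * (d (m + 1 + n) * cexp (π * I * m * z)) := by
      intro m
      have : (π * I * ((m + 1 : ℕ) : ℂ) * z : ℂ) = π * I * z + π * I * m * z := by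
        push_cast; ring
      rw [this, Complex.exp_add]
      ring
    simp only [h3, Nat.cast_zero, mul_zero, zero_mul, Complex.exp_zero, mul_one, zero_add] at h2
    rw [tsum_mul_left] at h2
    have h4 : d n = -(cexp (π * I * z) * E6H (fun m => d (m + 1 + n)) z) := by
      unfold E6H
      linear_combination h2
    rw [h4, norm_neg, norm_mul]
    have h5 := e6_H_bound hd'' hz0
    have h6 : ‖cexp (π * I * z)‖ = Real.exp (-(π * z.im)) := by
      have := e6_norm_exp 1 z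
      simpa using this
    rw [h6]
    have h7 : 1 / z.im ≤ 1 := by
      rw [div_le_one hz0]; exact hz
    have h8 : C * (1 + 1 / z.im) ≤ C * 2 := mul_le_mul_of_nonneg_left (by linarith) hC
    calc Real.exp (-(π * z.im)) * ‖E6H (fun m => d (m + 1 + n)) z‖
        ≤ Real.exp (-(π * z.im)) * (C * 2) := by
          apply mul_le_mul_of_nonneg_left (h5.trans h8) (Real.exp_pos _).le
      _ = 2 * C * Real.exp (-(π * z.im)) := by ring
  have hlim : Tendsto (fun y : ℝ => 2 * C * Real.exp (-(π * y))) atTop (𝓝 0) := by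
    have h3 : Tendsto (fun x : ℝ => π * x) atTop atTop :=
      tendsto_id.const_mul_atTop Real.pi_pos
    have h4 := (Real.tendsto_exp_neg_atTop_nhds_zero.comp h3).const_mul (2 * C)
    rw [mul_zero] at h4
    exact h4
  have hle : ‖d n‖ ≤ 0 := by
    refine ge_of_tendsto hlim ?_
    filter_upwards [eventually_ge_atTop 1] with y hy
    have := key (I * y) (by simpa using hy)
    simpa using this
  exact norm_le_zero_iff.mp hle

/-- LEMMA Z. -/
theorem lemmaZ (d : ℕ → ℂ) (C : ℝ) (hd : ∀ n, ‖d n‖ ≤ C)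
    (h : ∀ τ : ℂ, 0 < τ.im → ∑' n : ℕ, d n * (cexp (π * I * n * τ) +
      (-I * τ) ^ (-(1 / 2) : ℂ) * cexp (π * I * n * (-1 / τ))) = 0) : ∀ n, d n = 0 := by
  have hU : IsPreconnected {z : ℂ | 0 < z.im} := (convex_halfSpace_im_gt 0).isPreconnected
  have hA : AnalyticOnNhd ℂ (E6D d) {z : ℂ | 0 < z.im} :=
    DifferentiableOn.analyticOnNhd
      (fun z hz => (e6_diffAt_D hd hz).differentiableWithinAt) e6_isOpen
  have hB : AnalyticOnNhd ℂ (fun z : ℂ => E6D d (z + 1)) {z : ℂ | 0 < z.im} := by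
    apply DifferentiableOn.analyticOnNhd _ e6_isOpen
    intro z hz
    apply DifferentiableAt.differentiableWithinAt
    apply DifferentiableAt.comp z (g := E6D d) (f := fun w : ℂ => w + 1)
    · exact e6_diffAt_D hd (by simpa using hz)
    · exact differentiableAt_id.add_const _
  have hG : AnalyticOnNhd ℂ (E6g d) {z : ℂ | 0 < z.im} :=
    DifferentiableOn.analyticOnNhd
      (fun z hz => (e6_diffAt_g hd hz).differentiableWithinAt) e6_isOpen
  have hN : ∀ z ∈ {z : ℂ | 0 < z.im}, (E6D d z * E6D d (z + 1)) * E6g d z = 0 := by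
    intro z hz
    have := e6_N_eq hd h hz
    unfold E6N at this
    exact pow_eq_zero_iff (by norm_num) |>.mp this
  have hD : ∀ z : ℂ, 0 < z.im → E6D d z = 0 := by
    rcases AnalyticOnNhd.eq_zero_or_eq_zero_of_mul_eq_zero (hA.mul hB) hG hN hU with h1 | h1
    · rcases AnalyticOnNhd.eq_zero_or_eq_zero_of_mul_eq_zero hA hB h1 hU with h2 | h2
      · exact h2
      · intro z hz
        have h3 := h2 (z + 1) (by simpa using hz)
        have e : z + 1 + 1 = z + 2 := by ring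
        simp only [e] at h3
        rwa [e6_D_two] at h3
    · intro z hz
      -- choose w with `-1/w + 1 = z + 2`
      have him1 : 0 < (z + 1).im := by simpa using hz
      have h3 := h1 (-1 / (z + 1)) (e6_im_neg_inv him1)
      have hne : z + 1 ≠ 0 := by
        intro e; rw [e] at him1; simp at him1
      unfold E6g at h3
      have e : -1 / (-1 / (z + 1)) + 1 = z + 2 := by
        field_simp
        ring
      rwa [e, e6_D_two] at h3
  apply e6_coeff hd
  intro z hz
  have h1 := hD z hz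
  unfold E6D at h1
  rcases div_eq_zero_iff.mp h1 with h2 | h2
  · exact h2
  · exact absurd h2 (theta_ne hz)

end RV11
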