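import Pool.Agent.LibRV11.Defs
import Pool.Agent.LibRV11.TH0
import Pool.Agent.LibRV11.F100
open Complex Real MeasureTheory
open UpperHalfPlane hiding I
open scoped MatrixGroups ComplexConjugate

namespace RV11

/-! ### Module EX: existence of the basis functions, definitions -/

/-- `θ₃⁸ / (θ₂⁴ θ₄⁴)`, the Hauptmodul with its pole at `i∞`. -/
noncomputable def Hm (z : ℂ) : ℂ := jacobiTheta z ^ 8 / (th2 z ^ 4 * jacobiTheta (z + 1) ^ 4)

/-- `θ₃³ Hm^k`, weight `3/2`. -/
noncomputable def phk (k : ℕ) (z : ℂ) : ℂ := jacobiTheta z ^ 3 * Hm z ^ k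

/-- Integral from `-1` to `1` along the upper unit semicircle. -/
noncomputable def arcI (h : ℂ → ℂ) : ℂ :=
  ∫ α in (0 : ℝ)..π, h (cexp (α * I)) * (-I * cexp (α * I))

end RV11
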