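import Pool.Agent.LibRV11.EX0
import Pool.Agent.LibRV11.F101
import Pool.Agent.LibRV11.F102
import Pool.Agent.LibRV11.TH9
import Pool.Agent.LibRV11.TH11
open Complex Real MeasureTheory
open UpperHalfPlane hiding I
open scoped MatrixGroups ComplexConjugate

namespace RV11

/-! ### EX1: holomorphy and functional equations of `phk` -/

private theorem EX1_pow4 {z : ℂ} : ((-I * z) ^ (1 / 2 : ℂ)) ^ 4 = (-I * z) ^ 2 := by
  rw [← Complex.cpow_nat_mul]
  norm_num

private theorem EX1_im {z : ℂ} (hz : 0 < z.im) : 0 < (-1 / z).im := by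
  have h0 : z ≠ 0 := by rintro rfl; simp at hz
  have : (-1 / z).im = z.im / normSq z := by
    rw [div_eq_mul_inv, Complex.mul_im, Complex.inv_re, Complex.inv_im]
    simp
    ring
  rw [this]
  exact div_pos hz (normSq_pos.mpr h0)

private theorem EX1_th2_pow4 {z : ℂ} (hz : 0 < z.im) : th2 (z + 1) ^ 4 = -th2 z ^ 4 := by
  rw [th2_add_one z hz, mul_pow, ← Complex.exp_nat_mul]
  have : ((4 : ℕ) : ℂ) * (π * I / 4) = π * I := by push_cast; ring
  rw [this, Complex.exp_pi_mul_I]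
  ring

private theorem EX1_theta_two (z : ℂ) : jacobiTheta (z + 2) = jacobiTheta z := by
  rw [add_comm]; exact jacobiTheta_two_add z

private theorem EX1_theta_S4 {z : ℂ} (hz : 0 < z.im) :
    jacobiTheta (-1 / z) ^ 4 = (-I * z) ^ 2 * jacobiTheta z ^ 4 := by
  rw [theta_S hz, mul_pow, EX1_pow4]

private theorem EX1_theta4_S4 {z : ℂ} (hz : 0 < z.im) :
    jacobiTheta (-1 / z + 1) ^ 4 = (-I * z) ^ 2 * th2 z ^ 4 := by
  have : -1 / z + 1 = 1 - 1 / z := by ring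
  rw [this, theta_one_sub z hz, mul_pow, EX1_pow4]

private theorem EX1_th2_S4 {z : ℂ} (hz : 0 < z.im) :
    th2 (-1 / z) ^ 4 = (-I * z) ^ 2 * jacobiTheta (z + 1) ^ 4 := by
  have hz0 : z ≠ 0 := by rintro rfl; simp at hz
  have h := EX1_theta4_S4 (EX1_im hz)
  have e : -1 / (-1 / z) + 1 = z + 1 := by field_simp
  rw [e] at h
  rw [h, ← mul_assoc]
  have hI : I ^ 2 = -1 := Complex.I_sq
  have e2 : (-I * z) ^ 2 * (-I * (-1 / z)) ^ 2 = 1 := by
    field_simp
    rw [show (4 : ℕ) = 2 * 2 by norm_num, pow_mul, hI]; norm_num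
  rw [e2, one_mul]

private theorem EX1_im_add {z : ℂ} (hz : 0 < z.im) : 0 < (z + 1).im := by simpa using hz

private theorem EX1_diff_Hm {z : ℂ} (hz : 0 < z.im) : DifferentiableAt ℂ Hm z := by
  have h1 : DifferentiableAt ℂ (fun z : ℂ => jacobiTheta (z + 1)) z := by
    apply DifferentiableAt.comp z (g := jacobiTheta) (f := fun w : ℂ => w + 1)
    · exact diffAt_theta (EX1_im_add hz)
    · exact differentiableAt_id.add_const _
  exact ((diffAt_theta hz).pow 8).div (((diffAt_th2 hz).pow 4).mul (h1.pow 4))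
    (mul_ne_zero (pow_ne_zero _ (th2_ne_zero z hz)) (pow_ne_zero _ (theta_ne (EX1_im_add hz))))

theorem diffAt_phk (k : ℕ) {z : ℂ} (hz : 0 < z.im) : DifferentiableAt ℂ (phk k) z := by
  exact ((diffAt_theta hz).pow 3).mul ((EX1_diff_Hm hz).pow k)

private theorem EX1_Hm_two {z : ℂ} (hz : 0 < z.im) : Hm (z + 2) = Hm z := by
  have e1 : th2 (z + 2) ^ 4 = th2 z ^ 4 := by
    have : z + 2 = (z + 1) + 1 := by ring
    rw [this, EX1_th2_pow4 (EX1_im_add hz), EX1_th2_pow4 hz]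
    ring
  have e2 : z + 2 + 1 = (z + 1) + 2 := by ring
  rw [Hm, Hm, e1, e2, EX1_theta_two, EX1_theta_two]

theorem phk_add_two (k : ℕ) {z : ℂ} (hz : 0 < z.im) : phk k (z + 2) = phk k z := by
  rw [phk, phk, EX1_Hm_two hz, EX1_theta_two]

private theorem EX1_Hm_S {z : ℂ} (hz : 0 < z.im) : Hm (-1 / z) = Hm z := by
  have hz0 : z ≠ 0 := by rintro rfl; simp at hz
  have hIz : (-I * z) ^ 4 ≠ 0 :=
    pow_ne_zero _ (mul_ne_zero (neg_ne_zero.mpr Complex.I_ne_zero) hz0)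
  have e8 : jacobiTheta (-1 / z) ^ 8 = (-I * z) ^ 4 * jacobiTheta z ^ 8 := by
    rw [show (8 : ℕ) = 4 * 2 by norm_num, pow_mul, EX1_theta_S4 hz]
    ring
  have e9 : th2 (-1 / z) ^ 4 * jacobiTheta (-1 / z + 1) ^ 4 =
      (-I * z) ^ 4 * (th2 z ^ 4 * jacobiTheta (z + 1) ^ 4) := by
    rw [EX1_theta4_S4 hz, EX1_th2_S4 hz]
    ring
  rw [Hm, Hm, e8, e9, mul_div_mul_left _ _ hIz]

theorem phk_S (k : ℕ) {z : ℂ} (hz : 0 < z.im) :
    phk k (-1 / z) = ((-I * z) ^ (1 / 2 : ℂ)) ^ 3 * phk k z := by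
  rw [phk, phk, EX1_Hm_S hz, theta_S hz]
  ring

private theorem EX1_Hm_conj (z : ℂ) : Hm (-(conj z)) = conj (Hm z) := by
  have e1 : -(conj z) + 1 = -(conj (z + 1)) + 2 := by
    rw [map_add, map_one]; ring
  rw [Hm, Hm, e1, EX1_theta_two, theta_conj, theta_conj, th2_conj]
  simp

theorem phk_conj (k : ℕ) (z : ℂ) : phk k (-(conj z)) = conj (phk k z) := by
  rw [phk, phk, EX1_Hm_conj, theta_conj]
  simp

end RV11
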