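import Pool.Agent.LibRV11.EX0
open Complex Real MeasureTheory
open UpperHalfPlane hiding I
open scoped MatrixGroups ComplexConjugate

namespace RV11

/-! ### EX10: the substitution `z ↦ -1/z` on the arc -/

theorem EX10_inv_cpow {w s : ℂ} (hw : 0 < w.re) : (1 / w) ^ s = w ^ (-s) := by
  have a2 : |w.arg| < π / 2 := abs_arg_lt_pi_div_two_iff.mpr (Or.inl hw)
  have a2' := abs_lt.mp a2
  have : w.arg ≠ π := by
    intro h
    linarith [a2'.2, Real.pi_pos]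
  rw [one_div, Complex.inv_cpow _ _ this, Complex.cpow_neg]

/-- the pointwise identity -/
theorem EX10_pointwise (g : ℂ → ℂ)
    (hS : ∀ z : ℂ, 0 < z.im → g (-1 / z) = ((-I * z) ^ (1 / 2 : ℂ)) ^ 3 * g z) (ξ : ℝ) {w : ℂ}
    (hw : 0 < w.im) :
    g (-1 / w) * ((-I * (-1 / w)) ^ (-(1 / 2) : ℂ) *
      cexp (π * I * (ξ ^ 2 : ℝ) * (-1 / (-1 / w)))) * (-I * (-1 / w)) =
    g w * cexp (π * I * (ξ ^ 2 : ℝ) * w) * (-I * w) := by
  have hw0 : w ≠ 0 := by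
    rintro rfl
    simp at hw
  have h1 : -1 / (-1 / w) = w := by
    field_simp
  have h2 : -I * (-1 / w) = 1 / (-I * w) := by
    field_simp
    rw [Complex.I_sq]
  have hre : 0 < (-I * w).re := by
    simpa using hw
  have h3 : (1 / (-I * w)) ^ (-(1 / 2) : ℂ) = (-I * w) ^ (1 / 2 : ℂ) := by
    rw [EX10_inv_cpow hre, neg_neg]
  have hne : -I * w ≠ 0 := by
    intro h
    rw [h] at hre
    simp at hre
  have h4 : ((-I * w) ^ (1 / 2 : ℂ)) ^ 4 = (-I * w) ^ 2 := by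
    rw [← Complex.cpow_nat_mul]
    norm_num
  rw [h1, hS w hw, h2, h3]
  have h5 : ((-I * w) ^ (1 / 2 : ℂ)) ^ 3 * g w * ((-I * w) ^ (1 / 2 : ℂ) *
      cexp (π * I * (ξ ^ 2 : ℝ) * w)) * (1 / (-I * w)) =
      ((-I * w) ^ (1 / 2 : ℂ)) ^ 4 * (1 / (-I * w)) *
        (g w * cexp (π * I * (ξ ^ 2 : ℝ) * w)) := by ring
  rw [h5, h4]
  have h6 : (-I * w) ^ 2 * (1 / (-I * w)) = -I * w := by
    field_simp
  rw [h6]
  ring

theorem arc_swap (g : ℂ → ℂ)
    (hS : ∀ z : ℂ, 0 < z.im → g (-1 / z) = ((-I * z) ^ (1 / 2 : ℂ)) ^ 3 * g z) (ξ : ℝ) :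
    arcI (fun z => g z * ((-I * z) ^ (-(1 / 2) : ℂ) * cexp (π * I * (ξ ^ 2 : ℝ) * (-1 / z)))) =
      arcI (fun z => g z * cexp (π * I * (ξ ^ 2 : ℝ) * z)) := by
  simp only [arcI]
  have h1 := intervalIntegral.integral_comp_sub_left (a := 0) (b := π)
    (fun α : ℝ => g (cexp (α * I)) * ((-I * cexp (α * I)) ^ (-(1 / 2) : ℂ) *
      cexp (π * I * (ξ ^ 2 : ℝ) * (-1 / cexp (α * I)))) * (-I * cexp (α * I))) π
  rw [sub_self, sub_zero] at h1
  rw [← h1, intervalIntegral.integral_of_le Real.pi_pos.le,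
    intervalIntegral.integral_of_le Real.pi_pos.le, integral_Ioc_eq_integral_Ioo,
    integral_Ioc_eq_integral_Ioo]
  apply setIntegral_congr_fun measurableSet_Ioo
  intro α hα
  have h2 : cexp (((π - α : ℝ) : ℂ) * I) = -1 / cexp (α * I) := by
    push_cast
    rw [sub_mul, Complex.exp_sub, Complex.exp_pi_mul_I]
  have h3 : 0 < (cexp (α * I)).im := by
    rw [Complex.exp_ofReal_mul_I_im]
    exact Real.sin_pos_of_pos_of_lt_pi hα.1 hα.2
  simp only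
  rw [h2]
  exact EX10_pointwise g hS ξ h3

end RV11
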