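import Pool.Agent.LibRV11.EX0
open Complex Real MeasureTheory
open UpperHalfPlane hiding I
open scoped MatrixGroups ComplexConjugate

namespace RV11

/-! ### EX11: real parts -/

theorem real_part (f : SchwartzMap ℝ ℂ) (heven : ∀ x, f (-x) = f x)
    (hfour : ∀ ξ : ℝ, ∫ x : ℝ, f x * cexp (-(2 * π * I * x * ξ)) = f ξ) :
    ∃ b : SchwartzMap ℝ ℝ, (∀ x, b x = (f x).re) ∧ (∀ x, b (-x) = b x) ∧
      (∀ ξ : ℝ, ∫ x : ℝ, (b x : ℂ) * cexp (-(2 * π * I * x * ξ)) = b ξ) := by
  let B : ℂ →L[ℝ] ℝ →L[ℝ] ℝ := (ContinuousLinearMap.mul ℝ ℝ).comp Complex.reCLM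
  have hg : (fun _ : ℝ => (1 : ℝ)).HasTemperateGrowth := Function.HasTemperateGrowth.const 1
  let b : SchwartzMap ℝ ℝ := SchwartzMap.bilinLeftCLM (𝕜 := ℝ) B hg f
  have hb : ∀ x, b x = (f x).re := by
    intro x
    change B (f x) 1 = (f x).re
    simp [B]
  refine ⟨b, hb, fun x => by rw [hb, hb, heven], fun ξ => ?_⟩
  have hfi : Integrable (fun x : ℝ => f x) := f.integrable
  have hcexp : ∀ (ξ x : ℝ), ‖cexp (-(2 * π * I * x * ξ))‖ = 1 := by
    intro ξ x
    have : -(2 * π * I * x * ξ) = ((-(2 * π * x * ξ) : ℝ) : ℂ) * I := by push_cast; ring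
    rw [this, Complex.norm_exp_ofReal_mul_I]
  have hi1 : Integrable (fun x : ℝ => f x * cexp (-(2 * π * I * x * ξ))) := by
    refine hfi.mul_bdd (c := 1) (Continuous.aestronglyMeasurable (by fun_prop)) ?_
    exact Filter.Eventually.of_forall fun x => (hcexp ξ x).le
  have hi2 : Integrable (fun x : ℝ => conj (f x) * cexp (-(2 * π * I * x * ξ))) := by
    refine Integrable.mul_bdd (f := fun x : ℝ => conj (f x)) (c := 1) ?_
      (Continuous.aestronglyMeasurable (by fun_prop)) ?_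
    · exact (Complex.conjCLE.toContinuousLinearMap).integrable_comp hfi
    · exact Filter.Eventually.of_forall fun x => (hcexp ξ x).le
  have h2 : ∫ x : ℝ, conj (f x) * cexp (-(2 * π * I * x * ξ)) = conj (f ξ) := by
    rw [← hfour ξ, ← integral_conj, ← integral_neg_eq_self]
    congr 1
    funext x
    rw [map_mul, ← Complex.exp_conj, heven]
    congr 2
    simp only [map_neg, map_mul, Complex.conj_I, Complex.conj_ofReal, map_ofNat]
    push_cast
    ring
  have h3 : ∀ x : ℝ, (b x : ℂ) * cexp (-(2 * π * I * x * ξ))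
      = (1 / 2 : ℂ) * (f x * cexp (-(2 * π * I * x * ξ))
        + conj (f x) * cexp (-(2 * π * I * x * ξ))) := by
    intro x
    rw [hb, Complex.re_eq_add_conj]
    ring
  simp_rw [h3]
  rw [integral_const_mul, integral_add hi1 hi2, h2, hfour, hb, Complex.re_eq_add_conj]
  ring

end RV11
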