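import Pool.Agent.LibRV11.Defs
import Pool.Agent.LibRV11.F100
open Complex Real MeasureTheory
open UpperHalfPlane hiding I
open scoped MatrixGroups ComplexConjugate

namespace RV11

/-! ### F103: bounds for the theta functions away from the real axis -/

private theorem f103_norm (w : ℂ) (x : ℝ) :
    ‖cexp (π * I * ((x : ℂ) + 1 / 2) ^ 2 * w)‖ = Real.exp (-(π * (x + 1 / 2) ^ 2 * w.im)) := by
  rw [Complex.norm_exp]
  congr 1
  have : (π * I * ((x : ℂ) + 1 / 2) ^ 2 * w) = ((π * (x + 1 / 2) ^ 2 : ℝ) : ℂ) * (I * w) := by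
    push_cast; ring
  rw [this, Complex.re_ofReal_mul]
  simp

private theorem f103_nat {w : ℂ} (hw : 0 < w.im) :
    Summable (fun n : ℕ => cexp (π * I * ((n : ℂ) + 1 / 2) ^ 2 * w)) ∧
    th2 w = 2 * ∑' n : ℕ, cexp (π * I * ((n : ℂ) + 1 / 2) ^ 2 * w) := by
  have hs : Summable (fun n : ℕ => cexp (π * I * ((n : ℂ) + 1 / 2) ^ 2 * w)) := by
    apply Summable.of_norm_bounded (g := fun n : ℕ => (Real.exp (-(π * w.im))) ^ n)
    · apply summable_geometric_of_lt_one (Real.exp_pos _).le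
      rw [Real.exp_lt_one_iff]
      have := mul_pos Real.pi_pos hw
      linarith
    · intro n
      have := f103_norm w n
      rw [Complex.ofReal_natCast] at this
      rw [this, ← Real.exp_nat_mul]
      apply Real.exp_le_exp.2
      have h1 : (n : ℝ) ≤ ((n : ℝ) + 1 / 2) ^ 2 := by nlinarith [sq_nonneg (n : ℝ)]
      have h2 := mul_pos Real.pi_pos hw
      nlinarith
  refine ⟨hs, ?_⟩
  have hneg : ∀ n : ℕ, cexp (π * I * (((-(n + 1 : ℤ) : ℤ) : ℂ) + 1 / 2) ^ 2 * w)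
      = cexp (π * I * ((n : ℂ) + 1 / 2) ^ 2 * w) := by
    intro n
    congr 1
    push_cast
    ring
  have hpos : ∀ n : ℕ, cexp (π * I * ((((n : ℕ) : ℤ) : ℂ) + 1 / 2) ^ 2 * w)
      = cexp (π * I * ((n : ℂ) + 1 / 2) ^ 2 * w) := by
    intro n
    push_cast
    rfl
  unfold th2
  have h1 := HasSum.of_nat_of_neg_add_one (f := fun k : ℤ => cexp (π * I * ((k : ℂ) + 1 / 2) ^ 2 * w))
    (m := ∑' n : ℕ, cexp (π * I * ((n : ℂ) + 1 / 2) ^ 2 * w))
    (m' := ∑' n : ℕ, cexp (π * I * ((n : ℂ) + 1 / 2) ^ 2 * w)) (by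
      simp_rw [hpos]
      exact hs.hasSum) (by
      simp_rw [hneg]
      exact hs.hasSum)
  rw [h1.tsum_eq]
  ring

theorem theta_bound : ∃ C : ℝ, ∀ w : ℂ, 1 / 4 ≤ w.im →
    ‖jacobiTheta w‖ ≤ C ∧ ‖jacobiTheta (w + 1)‖ ≤ C ∧ ‖th2 w‖ ≤ C := by
  set q : ℝ := Real.exp (-(π / 4)) with hq
  have hq0 : 0 < q := Real.exp_pos _
  have hq1 : q < 1 := by
    rw [hq, Real.exp_lt_one_iff]
    have := Real.pi_pos
    linarith
  have hth : ∀ w : ℂ, 1 / 4 ≤ w.im → ‖jacobiTheta w‖ ≤ 2 * (1 - q)⁻¹ := by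
    intro w hw
    have h1 := norm_jacobiTheta_sub_one_le (τ := w) (by linarith)
    have h2 : Real.exp (-π * w.im) ≤ q := by
      apply Real.exp_le_exp.2
      nlinarith [Real.pi_pos]
    have h3 : ‖jacobiTheta w‖ ≤ ‖jacobiTheta w - 1‖ + 1 := by
      have := norm_add_le (jacobiTheta w - 1) 1
      simpa using this
    have h4 : 2 / (1 - Real.exp (-π * w.im)) * Real.exp (-π * w.im) ≤ 2 / (1 - q) * q := by
      have := Real.exp_pos (-π * w.im)
      gcongr
    have h5 : 2 / (1 - q) * q + 1 ≤ 2 * (1 - q)⁻¹ := by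
      have h6 : (1 - q)⁻¹ * (1 - q) = 1 := inv_mul_cancel₀ (by linarith)
      rw [div_eq_mul_inv]
      nlinarith
    linarith
  refine ⟨2 * (1 - q)⁻¹, fun w hw => ⟨hth w hw, hth (w + 1) (by simpa using hw), ?_⟩⟩
  have hw0 : 0 < w.im := by linarith
  obtain ⟨hs, he⟩ := f103_nat hw0
  rw [he, norm_mul, Complex.norm_two]
  have hb := tsum_of_norm_bounded (hasSum_geometric_of_lt_one hq0.le hq1)
    (f := fun n : ℕ => cexp (π * I * ((n : ℂ) + 1 / 2) ^ 2 * w)) (by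
      intro n
      have := f103_norm w n
      rw [Complex.ofReal_natCast] at this
      rw [this, hq, ← Real.exp_nat_mul]
      apply Real.exp_le_exp.2
      have h1 : (n : ℝ) ≤ ((n : ℝ) + 1 / 2) ^ 2 := by nlinarith [sq_nonneg (n : ℝ)]
      have h2 : π * (1 / 4) ≤ π * w.im := by
        have := Real.pi_pos
        gcongr
      have h3 : (0 : ℝ) ≤ n := Nat.cast_nonneg n
      nlinarith [Real.pi_pos])
  linarith

end RV11
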