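import Pool.Agent.LibRV11.EX0
import Pool.Agent.LibRV11.EX1
import Pool.Agent.LibRV11.F101
import Pool.Agent.LibRV11.F102
import Pool.Agent.LibRV11.F103
import Pool.Agent.LibRV11.F104
import Pool.Agent.LibRV11.TH9
import Pool.Agent.LibRV11.TH11
open Complex Real MeasureTheory
open UpperHalfPlane hiding I
open scoped MatrixGroups ComplexConjugate

namespace RV11

/-! ### EX2: `phk` near the cusps `1` and `-1` -/

private theorem ex2_pow4 {z : ℂ} : ((-I * z) ^ (1 / 2 : ℂ)) ^ 4 = (-I * z) ^ 2 := by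
  rw [← Complex.cpow_nat_mul]
  norm_num

private theorem ex2_pow2 {z : ℂ} : ((-I * z) ^ (1 / 2 : ℂ)) ^ 2 = -I * z := by
  rw [← Complex.cpow_nat_mul]
  norm_num

private theorem ex2_im_neg_inv {z : ℂ} (hz : 0 < z.im) : 0 < (-1 / z).im := by
  have h0 : z ≠ 0 := by rintro rfl; simp at hz
  have : (-1 / z).im = z.im / normSq z := by
    rw [div_eq_mul_inv, Complex.mul_im, Complex.inv_re, Complex.inv_im]
    simp
    ring
  rw [this]
  exact div_pos hz (Complex.normSq_pos.mpr h0)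

private theorem ex2_theta_S4 {z : ℂ} (hz : 0 < z.im) :
    jacobiTheta (-1 / z) ^ 4 = (-I * z) ^ 2 * jacobiTheta z ^ 4 := by
  rw [theta_S hz, mul_pow, ex2_pow4]

private theorem ex2_theta4_S4 {z : ℂ} (hz : 0 < z.im) :
    jacobiTheta (-1 / z + 1) ^ 4 = (-I * z) ^ 2 * th2 z ^ 4 := by
  have : -1 / z + 1 = 1 - 1 / z := by ring
  rw [this, theta_one_sub z hz, mul_pow, ex2_pow4]

private theorem ex2_th2_S4 {z : ℂ} (hz : 0 < z.im) :
    th2 (-1 / z) ^ 4 = (-I * z) ^ 2 * jacobiTheta (z + 1) ^ 4 := by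
  have hz0 : z ≠ 0 := by rintro rfl; simp at hz
  have h := ex2_theta4_S4 (ex2_im_neg_inv hz)
  have e : -1 / (-1 / z) + 1 = z + 1 := by field_simp
  rw [e] at h
  rw [h]
  have : (-I * z) ^ 2 * (-I * (-1 / z)) ^ 2 = 1 := by
    field_simp
    rw [show I ^ 4 = 1 from Complex.I_pow_four]
  rw [← mul_assoc, this, one_mul]

private theorem ex2_Hm_cusp {w : ℂ} (hw : 0 < w.im) :
    Hm (1 - 1 / w) = -(th2 w ^ 8 / (jacobiTheta (w + 1) ^ 4 * jacobiTheta w ^ 4)) := by
  have hw0 : w ≠ 0 := by rintro rfl; simp at hw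
  have hIw : (-I * w) ^ 2 ≠ 0 :=
    pow_ne_zero _ (mul_ne_zero (neg_ne_zero.mpr Complex.I_ne_zero) hw0)
  have e1 : (1 : ℂ) - 1 / w + 1 = 2 + -1 / w := by ring
  have e2 : (1 : ℂ) - 1 / w = -1 / w + 1 := by ring
  have h1 : th2 (1 - 1 / w) ^ 4 = -((-I * w) ^ 2 * jacobiTheta (w + 1) ^ 4) := by
    rw [e2, th2_add_one _ (ex2_im_neg_inv hw), mul_pow, ← Complex.exp_nat_mul]
    have : ((4 : ℕ) : ℂ) * (π * I / 4) = π * I := by push_cast; ring
    rw [this, Complex.exp_pi_mul_I, ex2_th2_S4 hw]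
    ring
  have h2 : jacobiTheta (1 - 1 / w + 1) ^ 4 = (-I * w) ^ 2 * jacobiTheta w ^ 4 := by
    rw [e1, jacobiTheta_two_add, ex2_theta_S4 hw]
  have h3 : jacobiTheta (1 - 1 / w) ^ 8 = ((-I * w) ^ 2 * th2 w ^ 4) ^ 2 := by
    rw [← ex2_theta4_S4 hw, ← e2]
    ring
  have h4 : jacobiTheta w ≠ 0 := theta_ne hw
  have h5 : jacobiTheta (w + 1) ≠ 0 := theta_ne (by simpa using hw)
  rw [Hm, h1, h2, h3]
  field_simp

private theorem ex2_theta_lower {w : ℂ} (hw : 1 ≤ w.im) : 1 / 2 ≤ ‖jacobiTheta w‖ := by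
  have h1 := norm_jacobiTheta_sub_one_le (τ := w) (by linarith)
  have hq : Real.exp (-π * w.im) ≤ 1 / 10 := by
    have h2 : Real.exp (-π * w.im) ≤ Real.exp (-3) := by
      apply Real.exp_le_exp.mpr
      have := Real.pi_gt_three
      nlinarith
    have h3 : Real.exp (-3) ≤ 1 / 10 := by
      rw [Real.exp_neg, inv_eq_one_div]
      apply one_div_le_one_div_of_le (by norm_num)
      have h4 : (2.7 : ℝ) ≤ Real.exp 1 := by
        have := Real.exp_one_gt_d9
        linarith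
      have h5 : Real.exp 3 = Real.exp 1 ^ 3 := by
        rw [← Real.exp_nat_mul]; norm_num
      rw [h5]
      have : (2.7 : ℝ) ^ 3 ≤ Real.exp 1 ^ 3 := pow_le_pow_left₀ (by norm_num) h4 3
      norm_num at this ⊢
      linarith
    linarith
  have hq0 : 0 < Real.exp (-π * w.im) := Real.exp_pos _
  have h2 : 2 / (1 - Real.exp (-π * w.im)) * Real.exp (-π * w.im) ≤ 1 / 2 := by
    have h3 : 0 < 1 - Real.exp (-π * w.im) := by linarith
    rw [div_mul_eq_mul_div, div_le_iff₀ h3]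
    linarith
  have h3 : ‖(1 : ℂ)‖ ≤ ‖jacobiTheta w‖ + ‖jacobiTheta w - 1‖ := by
    have := norm_sub_le (jacobiTheta w) (jacobiTheta w - 1)
    simpa using this
  rw [norm_one] at h3
  linarith

private theorem ex2_th2_le {w : ℂ} (hw : 1 ≤ w.im) :
    ‖th2 w‖ ≤ 5 * Real.exp (-(π * w.im / 4)) := by
  have h1 := th2_asymp hw
  have h2 : ‖(2 : ℂ) * cexp (π * I * w / 4)‖ = 2 * Real.exp (-(π * w.im / 4)) := by
    rw [norm_mul, Complex.norm_exp]
    congr 1
    · simp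
    · congr 1
      have : (π * I * w / 4 : ℂ) = ((π / 4 : ℝ) : ℂ) * (I * w) := by push_cast; ring
      rw [this, Complex.re_ofReal_mul]
      simp
      ring
  have h3 : Real.exp (-(9 * π * w.im / 4)) ≤ Real.exp (-(π * w.im / 4)) := by
    apply Real.exp_le_exp.mpr
    have := Real.pi_pos
    nlinarith
  have h4 : ‖th2 w‖ ≤ ‖th2 w - 2 * cexp (π * I * w / 4)‖ + ‖(2 : ℂ) * cexp (π * I * w / 4)‖ := by
    have := norm_add_le (th2 w - 2 * cexp (π * I * w / 4)) (2 * cexp (π * I * w / 4))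
    simpa using this
  rw [h2] at h4
  linarith

/-- the bound in the coordinate of the cusp -/
private theorem ex2_near (k : ℕ) {w : ℂ} (hw : 1 ≤ w.im) (h0 : 0 ≤ w.re) (h1 : w.re ≤ 1 / 2) :
    ‖phk k (1 - 1 / w)‖ ≤ 250 * (10 ^ 8) ^ k * Real.exp (-w.im) := by
  have hw0 : 0 < w.im := by linarith
  have hE : Real.exp (-(π * w.im / 4)) ≤ 1 := by
    rw [Real.exp_le_one_iff]
    have := Real.pi_pos
    have : 0 ≤ π * w.im / 4 := by positivity
    linarith
  have ht := ex2_th2_le hw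
  have ht5 : ‖th2 w‖ ≤ 5 := by linarith
  have hHm : ‖Hm (1 - 1 / w)‖ ≤ 10 ^ 8 := by
    rw [ex2_Hm_cusp hw0, norm_neg, norm_div, norm_mul, norm_pow, norm_pow, norm_pow]
    have ha := ex2_theta_lower hw
    have hb := ex2_theta_lower (w := w + 1) (by simpa using hw)
    have hden : (1 / 2 : ℝ) ^ 4 * (1 / 2 : ℝ) ^ 4 ≤ ‖jacobiTheta (w + 1)‖ ^ 4 * ‖jacobiTheta w‖ ^ 4 :=
      mul_le_mul (pow_le_pow_left₀ (by norm_num) hb 4) (pow_le_pow_left₀ (by norm_num) ha 4)
        (by positivity) (by positivity)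
    have hnum : ‖th2 w‖ ^ 8 ≤ 5 ^ 8 := pow_le_pow_left₀ (norm_nonneg _) ht5 8
    have hpos : 0 < ‖jacobiTheta (w + 1)‖ ^ 4 * ‖jacobiTheta w‖ ^ 4 :=
      lt_of_lt_of_le (by norm_num) hden
    rw [div_le_iff₀ hpos]
    calc ‖th2 w‖ ^ 8 ≤ 5 ^ 8 := hnum
      _ = 10 ^ 8 * ((1 / 2 : ℝ) ^ 4 * (1 / 2 : ℝ) ^ 4) := by norm_num
      _ ≤ _ := mul_le_mul_of_nonneg_left hden (by norm_num)
  have hx : ‖(-I * w) ^ (1 / 2 : ℂ)‖ ^ 2 = ‖w‖ := by
    rw [← norm_pow, ex2_pow2, norm_mul, norm_neg, Complex.norm_I, one_mul]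
  have hwn : ‖w‖ ^ 2 = w.re ^ 2 + w.im ^ 2 := by
    rw [← Complex.normSq_eq_norm_sq, Complex.normSq_apply]
    ring
  have hw1 : 1 ≤ ‖w‖ := by
    have := Complex.abs_im_le_norm w
    have h2 := le_abs_self w.im
    linarith
  set x : ℝ := ‖(-I * w) ^ (1 / 2 : ℂ)‖ with hxdef
  have hx0 : 0 ≤ x := norm_nonneg _
  have hx1 : 1 ≤ x := by nlinarith
  have hx3 : x ^ 3 ≤ 2 * w.im ^ 2 := by
    have : x ^ 3 ≤ x ^ 4 := pow_le_pow_right₀ hx1 (by norm_num)
    have h2 : x ^ 4 = ‖w‖ ^ 2 := by rw [← hx]; ring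
    rw [h2, hwn] at this
    nlinarith
  have hE3 : ‖th2 w‖ ^ 3 ≤ 125 * Real.exp (-(3 * π * w.im / 4)) := by
    have h2 : ‖th2 w‖ ^ 3 ≤ (5 * Real.exp (-(π * w.im / 4))) ^ 3 :=
      pow_le_pow_left₀ (norm_nonneg _) ht 3
    refine h2.trans (le_of_eq ?_)
    rw [mul_pow, ← Real.exp_nat_mul]
    norm_num
    ring
  have hfin : w.im ^ 2 * Real.exp (-(3 * π * w.im / 4)) ≤ Real.exp (-w.im) := by
    have h2 : w.im ≤ Real.exp (5 / 8 * w.im) := by
      have := Real.quadratic_le_exp_of_nonneg (x := 5 / 8 * w.im) (by positivity)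
      nlinarith [sq_nonneg (w.im - 1)]
    have h3 : Real.exp (-(3 * π * w.im / 4)) ≤ Real.exp (-(9 / 4 * w.im)) := by
      apply Real.exp_le_exp.mpr
      have := Real.pi_gt_three
      nlinarith
    have h4 : w.im ^ 2 ≤ Real.exp (5 / 8 * w.im) ^ 2 := pow_le_pow_left₀ hw0.le h2 2
    calc w.im ^ 2 * Real.exp (-(3 * π * w.im / 4))
        ≤ Real.exp (5 / 8 * w.im) ^ 2 * Real.exp (-(9 / 4 * w.im)) :=
          mul_le_mul h4 h3 (Real.exp_pos _).le (by positivity)
      _ = Real.exp (-w.im) := by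
        rw [← Real.exp_nat_mul, ← Real.exp_add]
        congr 1
        push_cast
        ring
  have e1 : ‖phk k (1 - 1 / w)‖ = x ^ 3 * ‖th2 w‖ ^ 3 * ‖Hm (1 - 1 / w)‖ ^ k := by
    rw [phk, norm_mul, norm_pow, norm_pow, theta_one_sub w hw0, norm_mul, mul_pow]
  rw [e1]
  calc x ^ 3 * ‖th2 w‖ ^ 3 * ‖Hm (1 - 1 / w)‖ ^ k
      ≤ (2 * w.im ^ 2) * (125 * Real.exp (-(3 * π * w.im / 4))) * (10 ^ 8) ^ k := by
        gcongr
    _ = 250 * (10 ^ 8) ^ k * (w.im ^ 2 * Real.exp (-(3 * π * w.im / 4))) := by ring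
    _ ≤ 250 * (10 ^ 8) ^ k * Real.exp (-w.im) :=
        mul_le_mul_of_nonneg_left hfin (by positivity)

theorem phk_cusp (k : ℕ) : ∃ C : ℝ, ∀ z : ℂ, 0 < z.im → z.im ≤ 2 → |z.re| ≤ 1 → 1 ≤ ‖z‖ →
    ‖phk k z‖ ≤ C * Real.exp (-(1 / z.im)) := by
  have hK : IsCompact (Set.Icc (-1 : ℝ) 1 ×ℂ Set.Icc (1 / 2 : ℝ) 2) :=
    isCompact_Icc.reProdIm isCompact_Icc
  have hc : ContinuousOn (phk k) (Set.Icc (-1 : ℝ) 1 ×ℂ Set.Icc (1 / 2 : ℝ) 2) := by
    intro z hz
    have h1 : (1 / 2 : ℝ) ≤ z.im := hz.2.1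
    exact (diffAt_phk k (by linarith)).continuousAt.continuousWithinAt
  obtain ⟨C2, hC2⟩ := hK.exists_bound_of_continuousOn hc
  have key : ∀ z : ℂ, 0 < z.im → z.im ≤ 2 → 0 ≤ z.re → z.re ≤ 1 → 1 ≤ ‖z‖ →
      ‖phk k z‖ ≤ (|C2| * Real.exp 2 + 250 * (10 ^ 8) ^ k * Real.exp (1 / 4)) *
        Real.exp (-(1 / z.im)) := by
    intro z hz hz2 hr0 hr1 hn
    have hsq : 1 ≤ z.re ^ 2 + z.im ^ 2 := by
      have : ‖z‖ ^ 2 = z.re ^ 2 + z.im ^ 2 := by
        rw [← Complex.normSq_eq_norm_sq, Complex.normSq_apply]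
        ring
      rw [← this]
      nlinarith
    by_cases hy : 1 / 2 ≤ z.im
    · have h1 : ‖phk k z‖ ≤ C2 := hC2 z ⟨⟨by linarith, hr1⟩, ⟨hy, hz2⟩⟩
      have h2 : 1 / z.im ≤ 2 := by
        rw [div_le_iff₀ hz]; linarith
      have h3 : 1 ≤ Real.exp 2 * Real.exp (-(1 / z.im)) := by
        rw [← Real.exp_add]
        exact Real.one_le_exp (by linarith)
      calc ‖phk k z‖ ≤ |C2| := h1.trans (le_abs_self _)
        _ ≤ |C2| * (Real.exp 2 * Real.exp (-(1 / z.im))) :=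
          le_mul_of_one_le_right (abs_nonneg _) h3
        _ = |C2| * Real.exp 2 * Real.exp (-(1 / z.im)) := by ring
        _ ≤ _ := by
          refine mul_le_mul_of_nonneg_right ?_ (Real.exp_pos _).le
          have : 0 ≤ 250 * (10 ^ 8 : ℝ) ^ k * Real.exp (1 / 4) := by positivity
          linarith
    · push Not at hy
      have hz1 : (1 - z) ≠ 0 := by
        intro h
        have : z.im = 0 := by
          have := congrArg Complex.im h
          simpa using this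
        linarith
      set D : ℝ := (1 - z.re) ^ 2 + z.im ^ 2 with hD
      have hDn : normSq (1 - z) = D := by
        rw [Complex.normSq_apply]
        simp
        ring
      have hDpos : 0 < D := by positivity
      set w : ℂ := 1 / (1 - z) with hw
      have hwre : w.re = (1 - z.re) / D := by
        rw [hw, one_div, Complex.inv_re, hDn]
        simp
      have hwim : w.im = z.im / D := by
        rw [hw, one_div, Complex.inv_im, hDn]
        simp
      have hzw : z = 1 - 1 / w := by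
        rw [hw]
        field_simp
        ring
      have hx : 1 - z.re ≤ z.im ^ 2 := by nlinarith
      have hD1 : D ≤ z.im ^ 2 + z.im ^ 4 := by nlinarith
      have hDle : D ≤ z.im := by nlinarith
      have hv : 1 ≤ w.im := by
        rw [hwim, le_div_iff₀ hDpos]
        linarith
      have hu0 : 0 ≤ w.re := by
        rw [hwre]
        exact div_nonneg (by linarith) hDpos.le
      have hu1 : w.re ≤ 1 / 2 := by
        rw [hwre, div_le_iff₀ hDpos]
        nlinarith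
      have h1 := ex2_near k hv hu0 hu1
      rw [← hzw] at h1
      have hrec : 1 / z.im = w.im + w.re ^ 2 / w.im := by
        rw [hwim, hwre]
        field_simp
        ring
      have h2 : 1 / z.im ≤ w.im + 1 / 4 := by
        rw [hrec]
        have : w.re ^ 2 / w.im ≤ 1 / 4 := by
          rw [div_le_iff₀ (by linarith)]
          nlinarith
        linarith
      have h3 : Real.exp (-w.im) ≤ Real.exp (1 / 4) * Real.exp (-(1 / z.im)) := by
        rw [← Real.exp_add]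
        apply Real.exp_le_exp.mpr
        linarith
      calc ‖phk k z‖ ≤ 250 * (10 ^ 8) ^ k * Real.exp (-w.im) := h1
        _ ≤ 250 * (10 ^ 8) ^ k * (Real.exp (1 / 4) * Real.exp (-(1 / z.im))) :=
          mul_le_mul_of_nonneg_left h3 (by positivity)
        _ = 250 * (10 ^ 8) ^ k * Real.exp (1 / 4) * Real.exp (-(1 / z.im)) := by ring
        _ ≤ _ := by
          refine mul_le_mul_of_nonneg_right ?_ (Real.exp_pos _).le
          have : 0 ≤ |C2| * Real.exp 2 := by positivity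
          linarith
  refine ⟨|C2| * Real.exp 2 + 250 * (10 ^ 8) ^ k * Real.exp (1 / 4), fun z hz hz2 hr hn => ?_⟩
  rcases le_total 0 z.re with h | h
  · exact key z hz hz2 h ((le_abs_self _).trans hr) hn
  · have h1 := key (-(conj z)) (by simpa using hz) (by simpa using hz2) (by simpa using h)
      (by have := (neg_le_abs z.re).trans hr; simpa using this) (by simpa using hn)
    rw [phk_conj, Complex.norm_conj] at h1
    simpa using h1

end RV11
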