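import Pool.Agent.LibRV11.EX0
import Pool.Agent.LibRV11.F104
open Complex Real MeasureTheory
open UpperHalfPlane hiding I
open scoped MatrixGroups ComplexConjugate

namespace RV11

/-! ### EX3: `phk` near `i∞` -/

private theorem ex3_exp {a : ℝ} (ha : 0 < a) :
    Filter.Tendsto (fun z : ℂ => Real.exp (-(a * z.im)))
      (Filter.comap Complex.im Filter.atTop) (nhds 0) := by
  have h1 : Filter.Tendsto (fun y : ℝ => Real.exp (-(a * y))) Filter.atTop (nhds 0) :=
    Real.tendsto_exp_neg_atTop_nhds_zero.comp (Filter.tendsto_id.const_mul_atTop ha)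
  exact h1.comp Filter.tendsto_comap

private theorem ex3_theta : Filter.Tendsto jacobiTheta
    (Filter.comap Complex.im Filter.atTop) (nhds 1) := by
  have h1 : Filter.Tendsto (fun z => jacobiTheta z - 1)
      (Filter.comap Complex.im Filter.atTop) (nhds 0) := by
    refine isBigO_at_im_infty_jacobiTheta_sub_one.trans_tendsto ?_
    refine (ex3_exp Real.pi_pos).congr fun z => ?_
    rw [neg_mul]
  have h2 := h1.add_const 1
  simpa using h2

private theorem ex3_theta1 : Filter.Tendsto (fun z => jacobiTheta (z + 1))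
    (Filter.comap Complex.im Filter.atTop) (nhds 1) := by
  refine ex3_theta.comp ?_
  rw [Filter.tendsto_comap_iff]
  refine Filter.tendsto_comap.congr fun z => ?_
  simp

private theorem ex3_norm (z : ℂ) (a : ℝ) : ‖cexp (-(a * (π * I * z)))‖ = Real.exp (a * (π * z.im)) := by
  rw [Complex.norm_exp]
  congr 1
  have : (-(a * (π * I * z)) : ℂ) = ((-(a * π) : ℝ) : ℂ) * (I * z) := by push_cast; ring
  rw [this, Complex.re_ofReal_mul]
  simp
  ring

private theorem ex3_u : Filter.Tendsto (fun z => th2 z * cexp (-(((1 / 4 : ℝ) : ℂ) * (π * I * z))))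
    (Filter.comap Complex.im Filter.atTop) (nhds 2) := by
  rw [tendsto_iff_norm_sub_tendsto_zero]
  have h1 : Filter.Tendsto (fun z : ℂ => 3 * Real.exp (-((2 * π) * z.im)))
      (Filter.comap Complex.im Filter.atTop) (nhds 0) := by
    simpa using (ex3_exp (a := 2 * π) (by positivity)).const_mul 3
  refine squeeze_zero' (Filter.Eventually.of_forall fun z => norm_nonneg _) ?_ h1
  have h2 : ∀ᶠ z : ℂ in Filter.comap Complex.im Filter.atTop, 1 ≤ z.im :=
    Filter.tendsto_comap.eventually (Filter.eventually_ge_atTop 1)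
  filter_upwards [h2] with z hz
  have h3 : th2 z * cexp (-(((1 / 4 : ℝ) : ℂ) * (π * I * z))) - 2 =
      (th2 z - 2 * cexp (π * I * z / 4)) * cexp (-(((1 / 4 : ℝ) : ℂ) * (π * I * z))) := by
    rw [sub_mul, mul_assoc 2, ← Complex.exp_add]
    have : (π * I * z / 4 + -(((1 / 4 : ℝ) : ℂ) * (π * I * z)) : ℂ) = 0 := by
      push_cast; ring
    rw [this, Complex.exp_zero, mul_one]
  rw [h3, norm_mul, ex3_norm]
  refine (mul_le_mul_of_nonneg_right (th2_asymp hz) (Real.exp_pos _).le).trans ?_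
  rw [mul_assoc, ← Real.exp_add]
  apply le_of_eq
  congr 2
  ring

theorem phk_top (k m : ℕ) (hkm : k ≤ m) :
    Filter.Tendsto (fun z => phk k z * cexp (π * I * m * z))
      (Filter.comap Complex.im Filter.atTop) (nhds (if m = k then (1 / 16 : ℂ) ^ k else 0)) := by
  have hE : Filter.Tendsto (fun z : ℂ => cexp (π * I * z))
      (Filter.comap Complex.im Filter.atTop) (nhds 0) := by
    rw [tendsto_zero_iff_norm_tendsto_zero]
    refine (ex3_exp Real.pi_pos).congr fun z => ?_
    rw [Complex.norm_exp]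
    congr 1
    have : (π * I * z : ℂ) = ((π : ℝ) : ℂ) * (I * z) := by ring
    rw [this, Complex.re_ofReal_mul]
    simp
  have hlim := (ex3_theta.pow 3).mul ((((ex3_theta.pow 8).div ((ex3_u.pow 4).mul
    (ex3_theta1.pow 4)) (by norm_num)).pow k).mul (hE.pow (m - k)))
  have hval : (1 : ℂ) ^ 3 * ((1 ^ 8 / (2 ^ 4 * 1 ^ 4)) ^ k * 0 ^ (m - k)) =
      if m = k then (1 / 16 : ℂ) ^ k else 0 := by
    split_ifs with h
    · subst h
      norm_num
    · rw [zero_pow (by omega)]
      simp
  rw [hval] at hlim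
  refine hlim.congr fun z => ?_
  have h1 : (th2 z * cexp (-(((1 / 4 : ℝ) : ℂ) * (π * I * z)))) ^ 4 =
      th2 z ^ 4 * (cexp (π * I * z))⁻¹ := by
    rw [mul_pow, ← Complex.exp_nat_mul, ← Complex.exp_neg]
    congr 2
    push_cast
    ring
  have h2 : cexp (π * I * m * z) = cexp (π * I * z) ^ k * cexp (π * I * z) ^ (m - k) := by
    rw [← pow_add, ← Complex.exp_nat_mul, Nat.add_sub_cancel' hkm]
    congr 1
    ring
  have h3 : cexp (π * I * z) ≠ 0 := Complex.exp_ne_zero _
  simp only [Pi.div_apply]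
  rw [h1, h2]
  unfold phk Hm
  have h4 : jacobiTheta z ^ 8 / (th2 z ^ 4 * (cexp (π * I * z))⁻¹ * jacobiTheta (z + 1) ^ 4) =
      jacobiTheta z ^ 8 / (th2 z ^ 4 * jacobiTheta (z + 1) ^ 4) * cexp (π * I * z) := by
    rw [show th2 z ^ 4 * (cexp (π * I * z))⁻¹ * jacobiTheta (z + 1) ^ 4 =
      (th2 z ^ 4 * jacobiTheta (z + 1) ^ 4) * (cexp (π * I * z))⁻¹ by ring, ← div_div,
      div_inv_eq_mul]
  rw [h4, mul_pow]
  ring

end RV11
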