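import Pool.Agent.LibRV11.EX0
open Complex Real MeasureTheory
open UpperHalfPlane hiding I
open scoped MatrixGroups ComplexConjugate

namespace RV11

/-! ### EX4: the constant term -/

private theorem ex4_shift (h : ℂ → ℂ) (hd : DifferentiableOn ℂ h {z | 0 < z.im})
    (hper : ∀ z : ℂ, 0 < z.im → h (z + 2) = h z) {T : ℝ} (hT : 2 ≤ T) :
    ∫ x in (-1 : ℝ)..1, h (x + 2 * I) = ∫ x in (-1 : ℝ)..1, h (x + T * I) := by
  have h1 := Complex.integral_boundary_rect_eq_zero_of_differentiableOn h (⟨-1, 2⟩ : ℂ) ⟨1, T⟩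
    (hd.mono (by
      intro z hz
      rw [Complex.mem_reProdIm, Set.uIcc_of_le hT] at hz
      have := hz.2.1
      show 0 < z.im
      linarith))
  simp only at h1
  have h2 : ∫ y : ℝ in (2 : ℝ)..T, h (((1 : ℝ) : ℂ) + y * I) =
      ∫ y : ℝ in (2 : ℝ)..T, h (((-1 : ℝ) : ℂ) + y * I) := by
    apply intervalIntegral.integral_congr
    intro y hy
    rw [Set.uIcc_of_le hT] at hy
    have h3 := hper (((-1 : ℝ) : ℂ) + y * I) (by simp; linarith [hy.1])
    show h (((1 : ℝ) : ℂ) + y * I) = h (((-1 : ℝ) : ℂ) + y * I)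
    rw [← h3]
    congr 1
    push_cast
    ring
  rw [h2, add_sub_cancel_right, sub_eq_zero] at h1
  push_cast at h1
  exact h1

theorem horiz (h : ℂ → ℂ) (hd : DifferentiableOn ℂ h {z | 0 < z.im})
    (hper : ∀ z : ℂ, 0 < z.im → h (z + 2) = h z) (a : ℂ)
    (ha : Filter.Tendsto h (Filter.comap Complex.im Filter.atTop) (nhds a)) :
    ∫ x in (-1 : ℝ)..1, h (x + 2 * I) = 2 * a := by
  have hcont : ∀ T : ℝ, 2 ≤ T → IntervalIntegrable (fun x : ℝ => h (x + T * I)) volume (-1) 1 := by
    intro T hT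
    apply ContinuousOn.intervalIntegrable
    apply hd.continuousOn.comp (by fun_prop)
    intro x _
    show 0 < ((x : ℂ) + T * I).im
    simp
    linarith
  apply eq_of_forall_dist_le
  intro ε hε
  rw [Metric.tendsto_nhds] at ha
  have h1 := ha (ε / 2) (by linarith)
  rw [Filter.eventually_comap] at h1
  obtain ⟨T, h2, hT⟩ := (h1.and (Filter.eventually_ge_atTop 2)).exists
  rw [ex4_shift h hd hper hT]
  have h3 : ∫ x in (-1 : ℝ)..1, (h (x + T * I) - a) =
      (∫ x in (-1 : ℝ)..1, h (x + T * I)) - 2 * a := by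
    rw [intervalIntegral.integral_sub (hcont T hT) (by simp)]
    congr 1
    rw [intervalIntegral.integral_const]
    norm_num
  rw [dist_eq_norm, ← h3]
  have h4 := intervalIntegral.norm_integral_le_of_norm_le_const (a := (-1 : ℝ)) (b := 1)
    (f := fun x : ℝ => h (x + T * I) - a) (C := ε / 2) (by
      intro x _
      have h5 := h2 ((x : ℂ) + T * I) (by simp)
      rw [dist_eq_norm] at h5
      exact h5.le)
  refine h4.trans ?_
  norm_num

end RV11
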