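import Pool.Agent.LibRV11.EX0
open Complex Real MeasureTheory
open UpperHalfPlane hiding I
open scoped MatrixGroups ComplexConjugate

namespace RV11

/-! ### EX5: from the arc to the horizontal segment -/

theorem EX5_im (α : ℝ) : (cexp (α * I)).im = Real.sin α := Complex.exp_ofReal_mul_I_im α

theorem EX5_re (α : ℝ) : (cexp (α * I)).re = Real.cos α := Complex.exp_ofReal_mul_I_re α

theorem EX5_norm (α : ℝ) : ‖cexp (α * I)‖ = 1 := Complex.norm_exp_ofReal_mul_I α

/-- membership in the large disc -/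
theorem EX5_ball {R : ℝ} {z : ℂ} (hR : 0 < R) (h : z.re ^ 2 + z.im ^ 2 < 2 * R * z.im) :
    z ∈ Metric.ball ((R : ℂ) * I) R := by
  rw [Metric.mem_ball, dist_eq_norm, ← sq_lt_sq₀ (norm_nonneg _) hR.le, ← Complex.normSq_eq_norm_sq,
    Complex.normSq_apply]
  simp only [Complex.sub_re, Complex.mul_re, Complex.ofReal_re, Complex.I_re, mul_zero,
    Complex.ofReal_im, Complex.I_im, mul_one, sub_self, sub_zero, Complex.sub_im, Complex.mul_im,
    add_zero, zero_mul]
  nlinarith

theorem EX5_ball_im {R : ℝ} {z : ℂ} (hR : 0 < R) (h : z ∈ Metric.ball ((R : ℂ) * I) R) :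
    0 < z.im := by
  rw [Metric.mem_ball, dist_eq_norm] at h
  have h1 := Complex.abs_im_le_norm (z - R * I)
  simp only [Complex.sub_im, Complex.mul_im, Complex.ofReal_re, Complex.ofReal_im, Complex.I_re,
    Complex.I_im, mul_one, zero_mul, add_zero] at h1
  have h2 := abs_lt.mp (h1.trans_lt h)
  linarith [h2.1]

/-- the estimate at a fixed distance from the real line -/
theorem EX5_step (h : ℂ → ℂ) (hd : DifferentiableOn ℂ h {z | 0 < z.im})
    (hper : ∀ z : ℂ, 0 < z.im → h (z + 2) = h z) (C : ℝ)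
    (hb : ∀ z : ℂ, 0 < z.im → z.im ≤ 2 → |z.re| ≤ 1 → 1 ≤ ‖z‖ → ‖h z‖ ≤ C) (δ : ℝ)
    (h0 : 0 < δ) (h1 : δ < π / 2) :
    ‖(∫ α in δ..(π - δ), h (cexp (α * I)) * (-I * cexp (α * I))) -
      ∫ x in (-1 : ℝ)..1, h (x + 2 * I)‖ ≤ 2 * C * (1 - Real.cos δ) := by
  have hpi := Real.pi_pos
  have hs : 0 < Real.sin δ := Real.sin_pos_of_pos_of_lt_pi h0 (by linarith)
  have hs1 : Real.sin δ ≤ 1 := Real.sin_le_one δ
  have hc : 0 < Real.cos δ := Real.cos_pos_of_mem_Ioo ⟨by linarith, h1⟩
  have hc1 : Real.cos δ ≤ 1 := Real.cos_le_one δ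
  have hcs := Real.sin_sq_add_cos_sq δ
  set s := Real.sin δ with hsd
  set c := Real.cos δ with hcd
  set R := 3 / s with hRd
  have hR : 0 < R := by positivity
  have hRs : R * s = 3 := by rw [hRd]; field_simp
  have hmem : ∀ z : ℂ, |z.re| ≤ 1 → s ≤ z.im → z.im ≤ 2 → z ∈ Metric.ball ((R : ℂ) * I) R := by
    intro z hz1 hz2 hz3
    apply EX5_ball hR
    have h3 : z.re ^ 2 ≤ 1 := by rw [← sq_abs]; nlinarith [abs_nonneg z.re]
    nlinarith
  obtain ⟨Φ, hΦ⟩ := (hd.mono (fun z hz => EX5_ball_im hR hz) :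
    DifferentiableOn ℂ h (Metric.ball ((R : ℂ) * I) R)).isExactOn_ball
  have hΦ' : ∀ z : ℂ, |z.re| ≤ 1 → s ≤ z.im → z.im ≤ 2 → HasDerivAt Φ (h z) z :=
    fun z hz1 hz2 hz3 => hΦ z (hmem z hz1 hz2 hz3)
  have hcont : ContinuousOn h {z | 0 < z.im} := hd.continuousOn
  -- the arc
  have harc : ∫ α in δ..(π - δ), h (cexp (α * I)) * (-I * cexp (α * I)) =
      Φ (c + s * I) - Φ (-c + s * I) := by
    have hder : ∀ α ∈ Set.uIcc δ (π - δ),
        HasDerivAt (fun α : ℝ => -Φ (cexp (α * I))) (h (cexp (α * I)) * (-I * cexp (α * I))) α := by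
      intro α hα
      rw [Set.uIcc_of_le (by linarith)] at hα
      have hsin : s ≤ Real.sin α := by
        rcases le_total α (π / 2) with h5 | h5
        · exact Real.sin_le_sin_of_le_of_le_pi_div_two (by linarith) h5 hα.1
        · rw [← Real.sin_pi_sub α]
          exact Real.sin_le_sin_of_le_of_le_pi_div_two (by linarith) (by linarith) (by linarith [hα.2])
      have h6 : HasDerivAt Φ (h (cexp (α * I))) (cexp (α * I)) := by
        apply hΦ'
        · rw [EX5_re]; exact Real.abs_cos_le_one α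
        · rw [EX5_im]; exact hsin
        · rw [EX5_im]; linarith [Real.sin_le_one α]
      have h7 : HasDerivAt (fun α : ℝ => cexp (α * I)) (cexp (α * I) * I) α := by
        have := ((hasDerivAt_id α).ofReal_comp.mul_const I).cexp
        simpa using this
      have h8 := (h6.comp α h7).neg
      refine h8.congr_deriv ?_
      ring
    rw [intervalIntegral.integral_eq_sub_of_hasDerivAt hder]
    · have e1 : cexp (((π - δ : ℝ) : ℂ) * I) = -c + s * I := by
        rw [Complex.exp_mul_I, ← Complex.ofReal_cos, ← Complex.ofReal_sin, Real.cos_pi_sub,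
          Real.sin_pi_sub, Complex.ofReal_neg]
      have e2 : cexp ((δ : ℂ) * I) = c + s * I := by
        rw [Complex.exp_mul_I, ← Complex.ofReal_cos, ← Complex.ofReal_sin]
      rw [e1, e2]
      ring
    · apply ContinuousOn.intervalIntegrable
      have hcc : Continuous fun α : ℝ => cexp (α * I) := by fun_prop
      apply ContinuousOn.mul
      · apply hcont.comp hcc.continuousOn
        intro α hα
        rw [Set.uIcc_of_le (by linarith)] at hα
        show 0 < (cexp (α * I)).im
        rw [EX5_im]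
        exact Real.sin_pos_of_pos_of_lt_pi (by linarith [hα.1]) (by linarith [hα.2])
      · exact (by fun_prop : Continuous fun α : ℝ => -I * cexp (α * I)).continuousOn
  -- horizontal segments
  have hhor : ∀ (y a b : ℝ), s ≤ y → y ≤ 2 → -1 ≤ a → a ≤ b → b ≤ 1 →
      ∫ x in a..b, h (x + y * I) = Φ (b + y * I) - Φ (a + y * I) := by
    intro y a b hy1 hy2 ha hab hb'
    apply intervalIntegral.integral_eq_sub_of_hasDerivAt (f := fun x : ℝ => Φ (x + y * I))
    · intro x hx
      rw [Set.uIcc_of_le hab] at hx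
      have h6 : HasDerivAt Φ (h (x + y * I)) (x + y * I) := by
        apply hΦ'
        · simp only [Complex.add_re, Complex.ofReal_re, Complex.mul_re, Complex.I_re, mul_zero,
            Complex.ofReal_im, Complex.I_im, mul_one, sub_self, add_zero]
          exact abs_le.mpr ⟨by linarith [hx.1], by linarith [hx.2]⟩
        · simp; exact hy1
        · simp; exact hy2
      have h7 : HasDerivAt (fun x : ℝ => (x + y * I : ℂ)) 1 x := by
        have := (hasDerivAt_id x).ofReal_comp.add_const (y * I : ℂ)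
        simpa using this
      have h8 := h6.comp x h7
      refine h8.congr_deriv ?_
      ring
    · apply ContinuousOn.intervalIntegrable
      apply hcont.comp (by fun_prop : Continuous fun x : ℝ => (x + y * I : ℂ)).continuousOn
      intro x hx
      show 0 < (x + y * I : ℂ).im
      simp
      linarith
  -- vertical segments
  have hver : ∀ a : ℝ, |a| ≤ 1 → ∫ y in s..2, h (a + y * I) * I = Φ (a + 2 * I) - Φ (a + s * I) := by
    intro a ha
    have := intervalIntegral.integral_eq_sub_of_hasDerivAt (a := s) (b := 2)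
      (f := fun y : ℝ => Φ (a + y * I)) (f' := fun y : ℝ => h (a + y * I) * I) ?_ ?_
    · rw [this]; push_cast; rfl
    · intro y hy
      rw [Set.uIcc_of_le (by linarith)] at hy
      have h6 : HasDerivAt Φ (h (a + y * I)) (a + y * I) := by
        apply hΦ'
        · simp; exact ha
        · simp; exact hy.1
        · simp; exact hy.2
      have h7 : HasDerivAt (fun y : ℝ => (a + y * I : ℂ)) I y := by
        have := ((hasDerivAt_id y).ofReal_comp.mul_const I).const_add (a : ℂ)
        simpa using this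
      exact h6.comp y h7
    · apply ContinuousOn.intervalIntegrable
      apply ContinuousOn.mul _ continuousOn_const
      apply hcont.comp (by fun_prop : Continuous fun y : ℝ => (a + y * I : ℂ)).continuousOn
      intro y hy
      rw [Set.uIcc_of_le (by linarith)] at hy
      show 0 < (a + y * I : ℂ).im
      simp
      linarith [hy.1]
  have hv1 := hver 1 (by simp)
  have hv2 := hver (-1) (by simp)
  have hv : ∫ y in s..2, h ((1 : ℝ) + y * I) * I = ∫ y in s..2, h (((-1 : ℝ) : ℂ) + y * I) * I := by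
    apply intervalIntegral.integral_congr
    intro y hy
    rw [Set.uIcc_of_le (by linarith)] at hy
    show h ((1 : ℝ) + y * I) * I = h (((-1 : ℝ) : ℂ) + y * I) * I
    rw [← hper (((-1 : ℝ) : ℂ) + y * I) (by simp; linarith [hy.1])]
    congr 2
    push_cast
    ring
  rw [hv1, hv2] at hv
  have hh1 := hhor 2 (-1) 1 (by linarith) le_rfl le_rfl (by norm_num) le_rfl
  have hh2 := hhor s c 1 le_rfl (by linarith) (by linarith) hc1 le_rfl
  have hh3 := hhor s (-1) (-c) le_rfl (by linarith) le_rfl (by linarith) (by linarith)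
  have hsize : ∀ x : ℝ, c ≤ |x| → |x| ≤ 1 → ‖h (x + s * I)‖ ≤ C := by
    intro x hx1 hx2
    apply hb
    · simp; exact hs
    · simp; linarith
    · simp; exact hx2
    · rw [← one_le_sq_iff₀ (norm_nonneg _), ← Complex.normSq_eq_norm_sq, Complex.normSq_apply]
      simp only [Complex.add_re, Complex.ofReal_re, Complex.mul_re, Complex.I_re, mul_zero,
        Complex.ofReal_im, Complex.I_im, mul_one, sub_self, add_zero, Complex.add_im,
        Complex.mul_im, zero_add]
      have : c ^ 2 ≤ x ^ 2 := by rw [← sq_abs x]; nlinarith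
      nlinarith
  have hn2 : ‖∫ x in c..1, h (x + s * I)‖ ≤ C * |1 - c| := by
    apply intervalIntegral.norm_integral_le_of_norm_le_const
    intro x hx
    rw [Set.uIoc_of_le hc1] at hx
    have : |x| = x := abs_of_pos (by linarith [hx.1])
    exact hsize x (by rw [this]; exact hx.1.le) (by rw [this]; exact hx.2)
  have hn3 : ‖∫ x in (-1 : ℝ)..(-c), h (x + s * I)‖ ≤ C * |-c - (-1)| := by
    apply intervalIntegral.norm_integral_le_of_norm_le_const
    intro x hx
    rw [Set.uIoc_of_le (by linarith)] at hx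
    have : |x| = -x := abs_of_neg (by linarith [hx.2])
    exact hsize x (by rw [this]; linarith [hx.2]) (by rw [this]; linarith [hx.1])
  rw [abs_of_nonneg (by linarith)] at hn2
  rw [abs_of_nonneg (by linarith)] at hn3
  have hfin : (∫ α in δ..(π - δ), h (cexp (α * I)) * (-I * cexp (α * I))) -
      ∫ x in (-1 : ℝ)..1, h (x + 2 * I) =
      -(∫ x in c..1, h (x + s * I)) - ∫ x in (-1 : ℝ)..(-c), h (x + s * I) := by
    rw [harc, hh2, hh3]
    have e : ∫ x in (-1 : ℝ)..1, h (x + 2 * I) = ∫ x in (-1 : ℝ)..1, h (x + (2 : ℝ) * I) := by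
      push_cast; rfl
    rw [e, hh1]
    push_cast at hv ⊢
    linear_combination (-1 : ℂ) * hv
  rw [hfin]
  calc ‖-(∫ x in c..1, h (x + s * I)) - ∫ x in (-1 : ℝ)..(-c), h (x + s * I)‖
      ≤ ‖-(∫ x in c..1, h (x + s * I))‖ + ‖∫ x in (-1 : ℝ)..(-c), h (x + s * I)‖ := norm_sub_le _ _
    _ ≤ C * (1 - c) + C * (-c - (-1)) := by rw [norm_neg]; exact add_le_add hn2 hn3
    _ = 2 * C * (1 - c) := by ring

theorem arcI_eq (h : ℂ → ℂ) (hd : DifferentiableOn ℂ h {z | 0 < z.im})
    (hper : ∀ z : ℂ, 0 < z.im → h (z + 2) = h z) (C : ℝ)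
    (hb : ∀ z : ℂ, 0 < z.im → z.im ≤ 2 → |z.re| ≤ 1 → 1 ≤ ‖z‖ → ‖h z‖ ≤ C) :
    arcI h = ∫ x in (-1 : ℝ)..1, h (x + 2 * I) := by
  have hpi := Real.pi_pos
  have hC : 0 ≤ C := (norm_nonneg _).trans (hb I (by simp) (by simp) (by simp) (by simp))
  -- integrability
  have hF : ∀ a b : ℝ, 0 ≤ a → a ≤ b → b ≤ π → IntervalIntegrable
      (fun α : ℝ => h (cexp (α * I)) * (-I * cexp (α * I))) volume a b := by
    intro a b ha hab hb'
    rw [intervalIntegrable_iff, Set.uIoc_of_le hab]
    have hbound : ∀ᵐ α : ℝ, α ∈ Set.Ioc (0 : ℝ) π →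
        ‖h (cexp (α * I)) * (-I * cexp (α * I))‖ ≤ C := by
      have hne : ∀ᵐ α : ℝ, α ≠ π := by
        rw [ae_iff]; simp
      filter_upwards [hne] with α hα hmem
      rw [norm_mul, norm_mul, norm_neg, Complex.norm_I, EX5_norm, mul_one, mul_one]
      have hα2 : α < π := lt_of_le_of_ne hmem.2 hα
      apply hb
      · rw [EX5_im]; exact Real.sin_pos_of_pos_of_lt_pi hmem.1 hα2
      · rw [EX5_im]; linarith [Real.sin_le_one α]
      · rw [EX5_re]; exact Real.abs_cos_le_one α
      · rw [EX5_norm]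
    have hint : IntegrableOn (fun α : ℝ => h (cexp (α * I)) * (-I * cexp (α * I)))
        (Set.Ioc 0 π) := by
      refine IntegrableOn.of_bound (by simp) ?_ C ?_
      · rw [← restrict_Ioo_eq_restrict_Ioc]
        apply ContinuousOn.aestronglyMeasurable _ measurableSet_Ioo
        have hc : Continuous fun α : ℝ => cexp (α * I) := by fun_prop
        apply ContinuousOn.mul
        · apply hd.continuousOn.comp hc.continuousOn
          intro α hα
          show 0 < (cexp (α * I)).im
          rw [EX5_im]; exact Real.sin_pos_of_pos_of_lt_pi hα.1 hα.2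
        · exact (by fun_prop : Continuous fun α : ℝ => -I * cexp (α * I)).continuousOn
      · rw [ae_restrict_iff' measurableSet_Ioc]; exact hbound
    exact hint.mono_set (Set.Ioc_subset_Ioc ha hb')
  have hsmall : ∀ a b : ℝ, 0 ≤ a → a ≤ b → b ≤ π →
      ‖∫ α in a..b, h (cexp (α * I)) * (-I * cexp (α * I))‖ ≤ C * (b - a) := by
    intro a b ha hab hb'
    have := intervalIntegral.norm_integral_le_of_norm_le_const_ae (a := a) (b := b) (C := C)
      (f := fun α : ℝ => h (cexp (α * I)) * (-I * cexp (α * I))) ?_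
    · rwa [abs_of_nonneg (by linarith)] at this
    · have hne : ∀ᵐ α : ℝ, α ≠ π := by
        rw [ae_iff]; simp
      filter_upwards [hne] with α hα hmem
      rw [Set.uIoc_of_le hab] at hmem
      rw [norm_mul, norm_mul, norm_neg, Complex.norm_I, EX5_norm, mul_one, mul_one]
      have hα2 : α < π := lt_of_le_of_ne (by linarith [hmem.2]) hα
      have hα1 : 0 < α := by linarith [hmem.1]
      apply hb
      · rw [EX5_im]; exact Real.sin_pos_of_pos_of_lt_pi hα1 hα2
      · rw [EX5_im]; linarith [Real.sin_le_one α]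
      · rw [EX5_re]; exact Real.abs_cos_le_one α
      · rw [EX5_norm]
  have hall : ∀ δ : ℝ, 0 < δ → δ < π / 2 →
      ‖arcI h - ∫ x in (-1 : ℝ)..1, h (x + 2 * I)‖ ≤ 2 * C * (1 - Real.cos δ) + 2 * C * δ := by
    intro δ h0 h1
    have hsplit : arcI h = (∫ α in (0 : ℝ)..δ, h (cexp (α * I)) * (-I * cexp (α * I))) +
        (∫ α in δ..(π - δ), h (cexp (α * I)) * (-I * cexp (α * I))) +
        ∫ α in (π - δ)..π, h (cexp (α * I)) * (-I * cexp (α * I)) := by
      rw [arcI, intervalIntegral.integral_add_adjacent_intervals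
        (hF 0 δ le_rfl h0.le (by linarith)) (hF δ (π - δ) h0.le (by linarith) (by linarith)),
        intervalIntegral.integral_add_adjacent_intervals
        (hF 0 (π - δ) le_rfl (by linarith) (by linarith))
        (hF (π - δ) π (by linarith) (by linarith) le_rfl)]
    have hs := EX5_step h hd hper C hb δ h0 h1
    have hs1 := hsmall 0 δ le_rfl h0.le (by linarith)
    have hs2 := hsmall (π - δ) π (by linarith) (by linarith) le_rfl
    have e : arcI h - ∫ x in (-1 : ℝ)..1, h (x + 2 * I) =
        (∫ α in (0 : ℝ)..δ, h (cexp (α * I)) * (-I * cexp (α * I))) +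
        ((∫ α in δ..(π - δ), h (cexp (α * I)) * (-I * cexp (α * I))) -
          ∫ x in (-1 : ℝ)..1, h (x + 2 * I)) +
        ∫ α in (π - δ)..π, h (cexp (α * I)) * (-I * cexp (α * I)) := by
      rw [hsplit]; ring
    rw [e]
    refine (norm_add₃_le).trans ?_
    linarith
  have hlim : Filter.Tendsto (fun δ : ℝ => 2 * C * (1 - Real.cos δ) + 2 * C * δ)
      (nhdsWithin 0 (Set.Ioi 0)) (nhds 0) := by
    have hcont : Continuous fun δ : ℝ => 2 * C * (1 - Real.cos δ) + 2 * C * δ := by fun_prop
    have := (hcont.tendsto 0).mono_left (nhdsWithin_le_nhds (s := Set.Ioi (0 : ℝ)))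
    simpa using this
  have hev : ∀ᶠ δ : ℝ in nhdsWithin 0 (Set.Ioi 0),
      ‖arcI h - ∫ x in (-1 : ℝ)..1, h (x + 2 * I)‖ ≤ 2 * C * (1 - Real.cos δ) + 2 * C * δ := by
    have hmem : Set.Ioo (0 : ℝ) (π / 2) ∈ nhdsWithin (0 : ℝ) (Set.Ioi 0) :=
      Ioo_mem_nhdsGT (by linarith)
    filter_upwards [hmem] with δ hδ
    exact hall δ hδ.1 hδ.2
  have hle := ge_of_tendsto hlim hev
  exact sub_eq_zero.mp (norm_le_zero_iff.mp hle)

end RV11
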