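import Pool.Agent.LibRV11.EX0
open Complex Real MeasureTheory
open UpperHalfPlane hiding I
open scoped MatrixGroups ComplexConjugate

namespace RV11

/-! ### EX6: triangular linear system -/

theorem triang (A : ℕ → ℕ → ℂ) (h0 : ∀ k m, k < m → A k m = 0) (h1 : ∀ k, A k k ≠ 0) (n : ℕ) :
    ∃ p : ℕ → ℂ, ∀ m : ℕ, ∑ k ∈ Finset.range (n + 1), p k * A k m = if m = n then 1 else 0 := by
  have key : ∀ n : ℕ, ∃ p : ℕ → ℂ, (∀ k, n < k → p k = 0) ∧
      ∀ m : ℕ, ∑ k ∈ Finset.range (n + 1), p k * A k m = if m = n then 1 else 0 := by
    intro n
    induction n using Nat.strong_induction_on with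
    | _ n ih =>
      choose! q hq1 hq2 using ih
      refine ⟨fun k => ((if k = n then 1 else 0) - ∑ m ∈ Finset.range n, A n m * q m k) / A n n,
        ?_, ?_⟩
      · intro k hk
        have h2 : ∑ m ∈ Finset.range n, A n m * q m k = 0 := by
          apply Finset.sum_eq_zero
          intro m hm
          have hm' := Finset.mem_range.mp hm
          rw [hq1 m hm' k (by omega), mul_zero]
        simp only [h2, if_neg (show ¬ k = n by omega), sub_zero, zero_div]
      · intro m
        have e1 : ∀ j ∈ Finset.range n, ∑ k ∈ Finset.range (n + 1), q j k * A k m
            = if m = j then 1 else 0 := by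
          intro j hj
          have hj' := Finset.mem_range.mp hj
          rw [← hq2 j hj' m]
          symm
          apply Finset.sum_subset
          · intro k hk
            rw [Finset.mem_range] at hk ⊢
            omega
          · intro k _ hk
            rw [hq1 j hj' k (by rw [Finset.mem_range] at hk; omega), zero_mul]
        have e2 : ∑ k ∈ Finset.range (n + 1),
            (((if k = n then 1 else 0) - ∑ j ∈ Finset.range n, A n j * q j k) / A n n) * A k m
            = (∑ k ∈ Finset.range (n + 1), (if k = n then 1 else 0) * A k m
              - ∑ j ∈ Finset.range n, A n j * ∑ k ∈ Finset.range (n + 1), q j k * A k m)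
                / A n n := by
          have e3 : ∑ j ∈ Finset.range n, A n j * ∑ k ∈ Finset.range (n + 1), q j k * A k m
              = ∑ k ∈ Finset.range (n + 1), (∑ j ∈ Finset.range n, A n j * q j k) * A k m := by
            simp_rw [Finset.mul_sum, Finset.sum_mul]
            rw [Finset.sum_comm]
            refine Finset.sum_congr rfl fun k _ => Finset.sum_congr rfl fun j _ => ?_
            ring
          rw [e3, ← Finset.sum_sub_distrib, Finset.sum_div]
          refine Finset.sum_congr rfl fun k _ => ?_
          ring
        rw [e2]
        have e4 : ∑ k ∈ Finset.range (n + 1), (if k = n then (1 : ℂ) else 0) * A k m = A n m := by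
          rw [Finset.sum_eq_single n]
          · simp
          · intro b _ hb
            simp [hb]
          · intro h
            exact absurd (Finset.mem_range.mpr (Nat.lt_succ_self n)) h
        have e5 : ∑ j ∈ Finset.range n, A n j * ∑ k ∈ Finset.range (n + 1), q j k * A k m
            = if m < n then A n m else 0 := by
          rw [Finset.sum_congr rfl (fun j hj => by rw [e1 j hj])]
          split_ifs with hmn
          · rw [Finset.sum_eq_single m]
            · simp
            · intro b _ hb
              rw [if_neg (fun h => hb h.symm), mul_zero]
            · intro h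
              exact absurd (Finset.mem_range.mpr hmn) h
          · apply Finset.sum_eq_zero
            intro j hj
            have hj' := Finset.mem_range.mp hj
            rw [if_neg (by omega), mul_zero]
        rw [e4, e5]
        rcases lt_trichotomy m n with h | h | h
        · rw [if_pos h, if_neg (by omega), sub_self, zero_div]
        · subst h
          rw [if_neg (lt_irrefl m), if_pos rfl, sub_zero, div_self (h1 m)]
        · rw [if_neg (by omega), if_neg (by omega), h0 n m h, sub_zero, zero_div]
  obtain ⟨p, _, hp⟩ := key n
  exact ⟨p, hp⟩

end RV11
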