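import Pool.Agent.LibRV11.EX0
import Pool.Agent.LibRV11.EX1
import Pool.Agent.LibRV11.EX2
import Pool.Agent.LibRV11.EX3
import Pool.Agent.LibRV11.EX4
import Pool.Agent.LibRV11.EX5
import Pool.Agent.LibRV11.EX6
open Complex Real MeasureTheory
open UpperHalfPlane hiding I
open scoped MatrixGroups ComplexConjugate

namespace RV11

/-! ### EX7: the weakly holomorphic forms `g_n` -/

private theorem e7_norm_exp (m : ℕ) {z : ℂ} (hz : 0 < z.im) : ‖cexp (π * I * m * z)‖ ≤ 1 := by
  rw [Complex.norm_exp]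
  have h : (π * I * m * z).re = -(π * m * z.im) := by
    have : (π * I * m * z) = ((π * m : ℝ) : ℂ) * (I * z) := by push_cast; ring
    rw [this, Complex.re_ofReal_mul, Complex.I_mul_re]
    ring
  rw [h]
  apply Real.exp_le_one_iff.mpr
  have : 0 ≤ π * m * z.im := by positivity
  linarith

private theorem e7_A (k m : ℕ) (hkm : k ≤ m) :
    arcI (fun z => phk k z * cexp (π * I * m * z))
      = 2 * (if m = k then (1 / 16 : ℂ) ^ k else 0) := by
  have hd : DifferentiableOn ℂ (fun z => phk k z * cexp (π * I * m * z)) {z | 0 < z.im} := by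
    intro z hz
    apply DifferentiableAt.differentiableWithinAt
    exact (diffAt_phk k hz).mul (by fun_prop)
  have hper : ∀ z : ℂ, 0 < z.im → (fun z => phk k z * cexp (π * I * m * z)) (z + 2)
      = (fun z => phk k z * cexp (π * I * m * z)) z := by
    intro z hz
    show phk k (z + 2) * cexp (π * I * m * (z + 2)) = phk k z * cexp (π * I * m * z)
    rw [phk_add_two k hz]
    congr 1
    have : π * I * m * (z + 2) = π * I * m * z + (m : ℤ) * (2 * π * I) := by push_cast; ring
    rw [this, Complex.exp_add, Complex.exp_int_mul_two_pi_mul_I, mul_one]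
  obtain ⟨C, hC⟩ := phk_cusp k
  have hC0 : ∀ z : ℂ, 0 < z.im → z.im ≤ 2 → |z.re| ≤ 1 → 1 ≤ ‖z‖ →
      ‖(fun z => phk k z * cexp (π * I * m * z)) z‖ ≤ |C| := by
    intro z h1 h2 h3 h4
    show ‖phk k z * cexp (π * I * m * z)‖ ≤ |C|
    rw [norm_mul]
    have e1 := hC z h1 h2 h3 h4
    have e2 := e7_norm_exp m h1
    have e3 : Real.exp (-(1 / z.im)) ≤ 1 := by
      apply Real.exp_le_one_iff.mpr
      have : 0 < 1 / z.im := by positivity
      linarith
    have e4 : C * Real.exp (-(1 / z.im)) ≤ |C| := by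
      calc C * Real.exp (-(1 / z.im)) ≤ |C| * Real.exp (-(1 / z.im)) :=
            mul_le_mul_of_nonneg_right (le_abs_self C) (Real.exp_pos _).le
        _ ≤ |C| * 1 := mul_le_mul_of_nonneg_left e3 (abs_nonneg C)
        _ = |C| := mul_one _
    calc ‖phk k z‖ * ‖cexp (π * I * m * z)‖ ≤ |C| * 1 := by
          apply mul_le_mul (e1.trans e4) e2 (norm_nonneg _) (abs_nonneg _)
      _ = |C| := mul_one _
  rw [arcI_eq _ hd hper |C| hC0]
  exact horiz _ hd hper _ (phk_top k m hkm)

private theorem e7_circle {α : ℝ} (hα : α ∈ Set.Ioo 0 π) :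
    0 < (cexp (α * I)).im ∧ ‖cexp (α * I)‖ = 1 ∧ |(cexp (α * I)).re| ≤ 1
      ∧ (cexp (α * I)).im ≤ 2 := by
  have h1 : (cexp (α * I)).im = Real.sin α := Complex.exp_ofReal_mul_I_im α
  have h2 : (cexp (α * I)).re = Real.cos α := Complex.exp_ofReal_mul_I_re α
  refine ⟨?_, Complex.norm_exp_ofReal_mul_I α, ?_, ?_⟩
  · rw [h1]; exact Real.sin_pos_of_pos_of_lt_pi hα.1 hα.2
  · rw [h2]; exact Real.abs_cos_le_one α
  · rw [h1]; linarith [Real.sin_le_one α]

/-- integrability of the terms along the arc -/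
private theorem e7_int (k m : ℕ) (c : ℂ) :
    IntervalIntegrable (fun α : ℝ => (c * phk k (cexp (α * I)) * cexp (π * I * m * cexp (α * I)))
      * (-I * cexp (α * I))) volume 0 π := by
  obtain ⟨C, hC⟩ := phk_cusp k
  rw [intervalIntegrable_iff_integrableOn_Ioo_of_le Real.pi_pos.le]
  have hcont : ContinuousOn (fun α : ℝ => (c * phk k (cexp (α * I))
      * cexp (π * I * m * cexp (α * I))) * (-I * cexp (α * I))) (Set.Ioo 0 π) := by
    have h1 : ContinuousOn (fun α : ℝ => phk k (cexp (α * I))) (Set.Ioo 0 π) := by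
      intro α hα
      apply ContinuousAt.continuousWithinAt
      have h2 : ContinuousAt (phk k) (cexp ((α : ℂ) * I)) :=
        (diffAt_phk k (e7_circle hα).1).continuousAt
      have h3 : ContinuousAt (fun α : ℝ => cexp ((α : ℂ) * I)) α := by fun_prop
      exact ContinuousAt.comp (f := fun α : ℝ => cexp ((α : ℂ) * I)) h2 h3
    exact ((continuousOn_const.mul h1).mul (by fun_prop)).mul (by fun_prop)
  refine ⟨hcont.aestronglyMeasurable measurableSet_Ioo,
    HasFiniteIntegral.of_bounded (C := ‖c‖ * |C|) ?_⟩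
  · rw [ae_restrict_iff' measurableSet_Ioo]
    refine Filter.Eventually.of_forall fun α hα => ?_
    obtain ⟨h1, h2, h3, h4⟩ := e7_circle hα
    have e1 := hC _ h1 h4 h3 h2.ge
    have e2 := e7_norm_exp m h1
    have e3 : Real.exp (-(1 / (cexp (α * I)).im)) ≤ 1 := by
      apply Real.exp_le_one_iff.mpr
      have : 0 < 1 / (cexp (α * I)).im := by positivity
      linarith
    have e4 : ‖phk k (cexp (α * I))‖ ≤ |C| := by
      refine e1.trans ?_
      calc C * Real.exp (-(1 / (cexp (α * I)).im)) ≤ |C| * Real.exp (-(1 / (cexp (α * I)).im)) :=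
            mul_le_mul_of_nonneg_right (le_abs_self C) (Real.exp_pos _).le
        _ ≤ |C| * 1 := mul_le_mul_of_nonneg_left e3 (abs_nonneg C)
        _ = |C| := mul_one _
    rw [norm_mul, norm_mul, norm_mul, norm_mul, norm_neg, Complex.norm_I, h2, one_mul, mul_one]
    calc ‖c‖ * ‖phk k (cexp (α * I))‖ * ‖cexp (π * I * m * cexp (α * I))‖
        ≤ ‖c‖ * |C| * 1 := by
          apply mul_le_mul _ e2 (norm_nonneg _) (by positivity)
          exact mul_le_mul_of_nonneg_left e4 (norm_nonneg _)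
      _ = ‖c‖ * |C| := mul_one _

theorem exists_gn (n : ℕ) : ∃ g : ℂ → ℂ, DifferentiableOn ℂ g {z | 0 < z.im} ∧
    (∀ z : ℂ, 0 < z.im → g (-1 / z) = ((-I * z) ^ (1 / 2 : ℂ)) ^ 3 * g z) ∧
    (∃ C : ℝ, ∀ z : ℂ, 0 < z.im → ‖z‖ = 1 → ‖g z‖ ≤ C * Real.exp (-(1 / z.im))) ∧
    (∀ m : ℕ, arcI (fun z => g z * cexp (π * I * m * z)) = if m = n then 1 else 0) := by
  obtain ⟨p, hp⟩ := triang (fun k m => arcI (fun z => phk k z * cexp (π * I * m * z)))
    (fun k m hkm => by
      show arcI (fun z => phk k z * cexp (π * I * m * z)) = 0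
      rw [e7_A k m hkm.le, if_neg (by omega), mul_zero])
    (fun k => by
      show arcI (fun z => phk k z * cexp (π * I * k * z)) ≠ 0
      rw [e7_A k k le_rfl, if_pos rfl]
      exact mul_ne_zero two_ne_zero (pow_ne_zero _ (by norm_num))) n
  refine ⟨fun z => ∑ k ∈ Finset.range (n + 1), p k * phk k z, ?_, ?_, ?_, ?_⟩
  · intro z hz
    apply DifferentiableAt.differentiableWithinAt
    apply DifferentiableAt.fun_sum
    intro k _
    exact (differentiableAt_const _).mul (diffAt_phk k hz)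
  · intro z hz
    show ∑ k ∈ Finset.range (n + 1), p k * phk k (-1 / z)
      = ((-I * z) ^ (1 / 2 : ℂ)) ^ 3 * ∑ k ∈ Finset.range (n + 1), p k * phk k z
    rw [Finset.mul_sum]
    refine Finset.sum_congr rfl fun k _ => ?_
    rw [phk_S k hz]
    ring
  · choose C hC using phk_cusp
    refine ⟨∑ k ∈ Finset.range (n + 1), ‖p k‖ * C k, fun z hz hz1 => ?_⟩
    have h3 : |z.re| ≤ 1 := by rw [← hz1]; exact Complex.abs_re_le_norm z
    have h4 : z.im ≤ 2 := by
      have := Complex.abs_im_le_norm z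
      rw [hz1] at this
      linarith [le_abs_self z.im]
    rw [Finset.sum_mul]
    refine (norm_sum_le _ _).trans (Finset.sum_le_sum fun k _ => ?_)
    rw [norm_mul, mul_assoc]
    exact mul_le_mul_of_nonneg_left (hC k z hz h4 h3 hz1.ge) (norm_nonneg _)
  · intro m
    rw [← hp m]
    unfold arcI
    have e1 : ∀ α : ℝ, (∑ k ∈ Finset.range (n + 1), p k * phk k (cexp (α * I)))
        * cexp (π * I * m * cexp (α * I)) * (-I * cexp (α * I))
        = ∑ k ∈ Finset.range (n + 1), (p k * phk k (cexp (α * I))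
          * cexp (π * I * m * cexp (α * I))) * (-I * cexp (α * I)) := by
      intro α
      rw [Finset.sum_mul, Finset.sum_mul]
    simp_rw [e1]
    rw [intervalIntegral.integral_finsetSum (fun k _ => e7_int k m (p k))]
    refine Finset.sum_congr rfl fun k _ => ?_
    rw [← intervalIntegral.integral_const_mul]
    congr 1
    funext α
    ring

end RV11
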