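import Pool.Agent.LibRV11.EX0
open Complex Real MeasureTheory
open UpperHalfPlane hiding I
open scoped MatrixGroups ComplexConjugate

namespace RV11

/-! ### EX8a: differentiation under the integral over the arc -/

theorem EX8a_exp_norm (x : ℝ) (z : ℂ) :
    ‖cexp (π * I * (x ^ 2 : ℝ) * z)‖ = Real.exp (-(π * x ^ 2 * z.im)) := by
  rw [Complex.norm_exp]
  congr 1
  simp only [Complex.mul_re, Complex.mul_im, Complex.ofReal_re, Complex.ofReal_im, Complex.I_re,
    Complex.I_im]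
  ring

theorem EX8a_im (α : ℝ) : (cexp (α * I)).im = Real.sin α := Complex.exp_ofReal_mul_I_im α

theorem EX8a_norm (α : ℝ) : ‖cexp (α * I)‖ = 1 := Complex.norm_exp_ofReal_mul_I α

theorem EX8a_sin {α : ℝ} (h : α ∈ Set.Ioo 0 π) : 0 < (cexp (α * I)).im := by
  rw [EX8a_im]; exact Real.sin_pos_of_pos_of_lt_pi h.1 h.2

/-- measurability of functions on the arc -/
theorem EX8a_meas (h : ℂ → ℂ) (hg : ContinuousOn h {z | 0 < z.im}) :
    AEStronglyMeasurable (fun α : ℝ => h (cexp (α * I)) * (-I * cexp (α * I)))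
      (volume.restrict (Set.uIoc 0 π)) := by
  rw [Set.uIoc_of_le Real.pi_pos.le, ← restrict_Ioo_eq_restrict_Ioc]
  apply ContinuousOn.aestronglyMeasurable _ measurableSet_Ioo
  have hc : Continuous fun α : ℝ => cexp (α * I) := by fun_prop
  apply ContinuousOn.mul
  · exact hg.comp hc.continuousOn (fun α hα => EX8a_sin hα)
  · exact (by fun_prop : Continuous fun α : ℝ => -I * cexp (α * I)).continuousOn

theorem EX8a_ae : ∀ᵐ α : ℝ, α ∈ Set.uIoc 0 π → α ∈ Set.Ioo 0 π := by
  have hne : ∀ᵐ α : ℝ, α ≠ π := by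
    rw [ae_iff]
    simp
  filter_upwards [hne] with α hα hmem
  rw [Set.uIoc_of_le Real.pi_pos.le] at hmem
  exact ⟨hmem.1, lt_of_le_of_ne hmem.2 hα⟩

theorem EX8a_bound (g : ℂ → ℂ) (C : ℝ)
    (hb : ∀ z : ℂ, 0 < z.im → ‖z‖ = 1 → ‖g z‖ ≤ C * Real.exp (-(1 / z.im))) (z : ℂ)
    (hz : 0 < z.im) (hz1 : ‖z‖ = 1) : ‖g z‖ ≤ |C| := by
  refine (hb z hz hz1).trans ?_
  have : Real.exp (-(1 / z.im)) ≤ 1 := Real.exp_le_one_iff.mpr (by
    have : 0 < 1 / z.im := by positivity
    linarith)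
  calc C * Real.exp (-(1 / z.im)) ≤ |C| * Real.exp (-(1 / z.im)) := by
        gcongr; exact le_abs_self C
    _ ≤ |C| * 1 := by gcongr
    _ = |C| := mul_one _

theorem EX8a_int (h : ℂ → ℂ) (hg : ContinuousOn h {z | 0 < z.im}) (D : ℝ)
    (hD : ∀ z : ℂ, 0 < z.im → ‖z‖ = 1 → ‖h z‖ ≤ D) :
    IntervalIntegrable (fun α : ℝ => h (cexp (α * I)) * (-I * cexp (α * I))) volume 0 π := by
  rw [intervalIntegrable_iff]
  refine IntegrableOn.of_bound (by simp) (EX8a_meas h hg) D ?_
  rw [ae_restrict_iff' measurableSet_uIoc]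
  filter_upwards [EX8a_ae] with α hα hmem
  rw [norm_mul, norm_mul, norm_neg, Complex.norm_I, EX8a_norm, mul_one, mul_one]
  exact hD _ (EX8a_sin (hα hmem)) (EX8a_norm α)

theorem arc_hasDeriv (g : ℂ → ℂ) (hg : ContinuousOn g {z | 0 < z.im}) (C : ℝ)
    (hb : ∀ z : ℂ, 0 < z.im → ‖z‖ = 1 → ‖g z‖ ≤ C * Real.exp (-(1 / z.im))) (x : ℝ) :
    HasDerivAt (fun x : ℝ => arcI (fun z => g z * cexp (π * I * (x ^ 2 : ℝ) * z)))
      (2 * π * I * x * arcI (fun z => z * g z * cexp (π * I * (x ^ 2 : ℝ) * z))) x := by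
  have hcexp : ∀ x : ℝ, Continuous fun z : ℂ => cexp (π * I * (x ^ 2 : ℝ) * z) := by
    intro x; fun_prop
  have hle1 : ∀ (x : ℝ) (z : ℂ), 0 < z.im → ‖cexp (π * I * (x ^ 2 : ℝ) * z)‖ ≤ 1 := by
    intro x z hz
    rw [EX8a_exp_norm]
    apply Real.exp_le_one_iff.mpr
    have : 0 ≤ π * x ^ 2 * z.im := by have := Real.pi_pos; positivity
    linarith
  have hcont : ∀ x : ℝ, ContinuousOn (fun z => g z * cexp (π * I * (x ^ 2 : ℝ) * z))
      {z | 0 < z.im} := fun x => hg.mul (hcexp x).continuousOn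
  have hcont' : ∀ x : ℝ, ContinuousOn
      (fun z => 2 * π * I * x * (z * g z * cexp (π * I * (x ^ 2 : ℝ) * z))) {z | 0 < z.im} :=
    fun x => continuousOn_const.mul ((continuousOn_id.mul hg).mul (hcexp x).continuousOn)
  have key := intervalIntegral.hasDerivAt_integral_of_dominated_loc_of_deriv_le
    (μ := volume) (a := 0) (b := π) (𝕜 := ℝ)
    (F := fun (x : ℝ) (α : ℝ) => (fun z => g z * cexp (π * I * (x ^ 2 : ℝ) * z)) (cexp (α * I)) *
      (-I * cexp (α * I)))
    (F' := fun (x : ℝ) (α : ℝ) =>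
      (fun z => 2 * π * I * x * (z * g z * cexp (π * I * (x ^ 2 : ℝ) * z))) (cexp (α * I)) *
      (-I * cexp (α * I))) (x₀ := x) (s := Metric.ball x 1)
    (bound := fun _ => 2 * π * (|x| + 1) * |C|)
    (Metric.ball_mem_nhds x one_pos)
    (Filter.Eventually.of_forall fun x => EX8a_meas _ (hcont x))
    (EX8a_int _ (hcont x) |C| (fun z hz hz1 => by
      rw [norm_mul]
      calc ‖g z‖ * ‖cexp (π * I * (x ^ 2 : ℝ) * z)‖ ≤ |C| * 1 := by
            gcongr
            · exact EX8a_bound g C hb z hz hz1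
            · exact hle1 x z hz
        _ = |C| := mul_one _))
    (EX8a_meas _ (hcont' x))
    (by
      filter_upwards [EX8a_ae] with α hα hmem u hu
      have hz := EX8a_sin (hα hmem)
      have hu' : |u| ≤ |x| + 1 := by
        rw [Metric.mem_ball, Real.dist_eq] at hu
        have := abs_sub_abs_le_abs_sub u x
        linarith
      rw [norm_mul, norm_mul (-I), norm_neg, Complex.norm_I, EX8a_norm, mul_one, mul_one]
      rw [norm_mul (2 * π * I * u : ℂ), norm_mul (cexp (α * I) * g (cexp (α * I))),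
        norm_mul (cexp (α * I)) (g (cexp (α * I))), EX8a_norm, one_mul]
      have h2 : ‖(2 * π * I * u : ℂ)‖ = 2 * π * |u| := by
        rw [norm_mul, norm_mul, norm_mul, Complex.norm_I, Complex.norm_real, Complex.norm_real,
          Real.norm_eq_abs, Real.norm_eq_abs, abs_of_pos Real.pi_pos]
        simp
      rw [h2]
      have h3 := EX8a_bound g C hb _ hz (EX8a_norm α)
      have h4 := hle1 u _ hz
      have hpi := Real.pi_pos
      calc 2 * π * |u| * (‖g (cexp (α * I))‖ * ‖cexp (π * I * (u ^ 2 : ℝ) * cexp (α * I))‖)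
          ≤ 2 * π * (|x| + 1) * (|C| * 1) := by gcongr
        _ = 2 * π * (|x| + 1) * |C| := by ring)
    intervalIntegrable_const
    (by
      filter_upwards with α hmem u hu
      have h5 : HasDerivAt (fun u : ℝ => ((u ^ 2 : ℝ) : ℂ)) ((2 * u : ℝ) : ℂ) u := by
        have := (hasDerivAt_pow 2 u).ofReal_comp
        convert this using 1
        norm_num
      have h6 : HasDerivAt (fun u : ℝ => cexp (π * I * (u ^ 2 : ℝ) * cexp (α * I)))
          (cexp (π * I * (u ^ 2 : ℝ) * cexp (α * I)) *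
            (π * I * ((2 * u : ℝ) : ℂ) * cexp (α * I))) u :=
        ((h5.const_mul (π * I : ℂ)).mul_const (cexp (α * I))).cexp
      have h7 := (h6.const_mul (g (cexp (α * I)))).mul_const (-I * cexp (α * I))
      refine h7.congr_deriv ?_
      show _ = (2 * π * I * u * (cexp (α * I) * g (cexp (α * I)) *
        cexp (π * I * (u ^ 2 : ℝ) * cexp (α * I)))) * (-I * cexp (α * I))
      rw [show ((2 * u : ℝ) : ℂ) = 2 * (u : ℂ) by push_cast; rfl]
      ring)
  have h8 := key.2
  have h9 : (∫ α in (0 : ℝ)..π,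
      (fun z => 2 * π * I * x * (z * g z * cexp (π * I * (x ^ 2 : ℝ) * z))) (cexp (α * I)) *
      (-I * cexp (α * I))) =
      2 * π * I * x * arcI (fun z => z * g z * cexp (π * I * (x ^ 2 : ℝ) * z)) := by
    rw [arcI, ← intervalIntegral.integral_const_mul]
    apply intervalIntegral.integral_congr
    intro α _
    show (2 * π * I * x * (cexp (α * I) * g (cexp (α * I)) *
      cexp (π * I * (x ^ 2 : ℝ) * cexp (α * I)))) * (-I * cexp (α * I)) =
      2 * π * I * x * (cexp (α * I) * g (cexp (α * I)) *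
      cexp (π * I * (x ^ 2 : ℝ) * cexp (α * I)) * (-I * cexp (α * I)))
    rw [mul_assoc (2 * π * I * x : ℂ)]
  rw [h9] at h8
  exact h8

end RV11
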