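import Pool.Agent.LibRV11.EX0
open Complex Real MeasureTheory
open UpperHalfPlane hiding I
open scoped MatrixGroups ComplexConjugate

namespace RV11

/-! ### EX8b: rapid decay -/

theorem EX8b_exp_norm (x : ℝ) (z : ℂ) :
    ‖cexp (π * I * (x ^ 2 : ℝ) * z)‖ = Real.exp (-(π * x ^ 2 * z.im)) := by
  rw [Complex.norm_exp]
  congr 1
  simp only [Complex.mul_re, Complex.mul_im, Complex.ofReal_re, Complex.ofReal_im, Complex.I_re,
    Complex.I_im]
  ring

theorem EX8b_im (α : ℝ) : (cexp (α * I)).im = Real.sin α := Complex.exp_ofReal_mul_I_im α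

theorem EX8b_norm (α : ℝ) : ‖cexp (α * I)‖ = 1 := Complex.norm_exp_ofReal_mul_I α

theorem EX8b_point (k : ℕ) (x y : ℝ) (hy : 0 < y) (hy1 : y ≤ 1) :
    |x| ^ k * (Real.exp (-(1 / y)) * Real.exp (-(π * x ^ 2 * y))) ≤ 1 + (k.factorial : ℝ) ^ 2 := by
  have hpi : (1 : ℝ) < π := by linarith [Real.pi_gt_three]
  have h1 : |x| ^ k ≤ 1 + (x ^ 2) ^ k := by
    rcases le_total |x| 1 with h | h
    · have : |x| ^ k ≤ 1 := pow_le_one₀ (abs_nonneg x) h
      have h2 : 0 ≤ (x ^ 2) ^ k := by positivity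
      linarith
    · have h3 : |x| ^ k ≤ (|x| ^ 2) ^ k := by
        apply pow_le_pow_left₀ (abs_nonneg x)
        nlinarith
      rw [sq_abs] at h3
      linarith
  have he1 : Real.exp (-(1 / y)) ≤ 1 := Real.exp_le_one_iff.mpr (by
    have : 0 < 1 / y := by positivity
    linarith)
  have he2 : Real.exp (-(π * x ^ 2 * y)) ≤ 1 := Real.exp_le_one_iff.mpr (by
    have : 0 ≤ π * x ^ 2 * y := by positivity
    linarith)
  have hE : 0 < Real.exp (-(1 / y)) * Real.exp (-(π * x ^ 2 * y)) := by positivity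
  have hE1 : Real.exp (-(1 / y)) * Real.exp (-(π * x ^ 2 * y)) ≤ 1 :=
    mul_le_one₀ he1 (Real.exp_pos _).le he2
  -- the main term
  have ha : (x ^ 2 * y) ^ k * Real.exp (-(π * x ^ 2 * y)) ≤ k.factorial := by
    have h4 : (x ^ 2 * y) ^ k ≤ (π * x ^ 2 * y) ^ k := by
      apply pow_le_pow_left₀ (by positivity)
      have : 0 ≤ x ^ 2 * y := by positivity
      nlinarith
    have h5 := Real.pow_div_factorial_le_exp (π * x ^ 2 * y) (by positivity) k
    have h6 : (x ^ 2 * y) ^ k ≤ k.factorial * Real.exp (π * x ^ 2 * y) := by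
      rw [div_le_iff₀ (by positivity)] at h5
      linarith
    calc (x ^ 2 * y) ^ k * Real.exp (-(π * x ^ 2 * y))
        ≤ (k.factorial * Real.exp (π * x ^ 2 * y)) * Real.exp (-(π * x ^ 2 * y)) := by
          gcongr
      _ = k.factorial := by
          rw [mul_assoc, ← Real.exp_add, add_neg_cancel, Real.exp_zero, mul_one]
  have hb : (1 / y) ^ k * Real.exp (-(1 / y)) ≤ k.factorial := by
    have h5 := Real.pow_div_factorial_le_exp (1 / y) (by positivity) k
    have h6 : (1 / y) ^ k ≤ k.factorial * Real.exp (1 / y) := by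
      rw [div_le_iff₀ (by positivity)] at h5
      linarith
    calc (1 / y) ^ k * Real.exp (-(1 / y))
        ≤ (k.factorial * Real.exp (1 / y)) * Real.exp (-(1 / y)) := by
          gcongr
      _ = k.factorial := by
          rw [mul_assoc, ← Real.exp_add, add_neg_cancel, Real.exp_zero, mul_one]
  have hc : (x ^ 2) ^ k = (x ^ 2 * y) ^ k * (1 / y) ^ k := by
    rw [← mul_pow]
    congr 1
    field_simp
  have hmain : (x ^ 2) ^ k * (Real.exp (-(1 / y)) * Real.exp (-(π * x ^ 2 * y))) ≤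
      (k.factorial : ℝ) ^ 2 := by
    rw [hc]
    calc (x ^ 2 * y) ^ k * (1 / y) ^ k * (Real.exp (-(1 / y)) * Real.exp (-(π * x ^ 2 * y)))
        = ((x ^ 2 * y) ^ k * Real.exp (-(π * x ^ 2 * y))) *
          ((1 / y) ^ k * Real.exp (-(1 / y))) := by ring
      _ ≤ (k.factorial : ℝ) * k.factorial := by
          gcongr
      _ = (k.factorial : ℝ) ^ 2 := by ring
  calc |x| ^ k * (Real.exp (-(1 / y)) * Real.exp (-(π * x ^ 2 * y)))
      ≤ (1 + (x ^ 2) ^ k) * (Real.exp (-(1 / y)) * Real.exp (-(π * x ^ 2 * y))) := by gcongr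
    _ = Real.exp (-(1 / y)) * Real.exp (-(π * x ^ 2 * y)) +
        (x ^ 2) ^ k * (Real.exp (-(1 / y)) * Real.exp (-(π * x ^ 2 * y))) := by ring
    _ ≤ 1 + (k.factorial : ℝ) ^ 2 := by linarith

theorem arc_decay (g : ℂ → ℂ) (C : ℝ)
    (hb : ∀ z : ℂ, 0 < z.im → ‖z‖ = 1 → ‖g z‖ ≤ C * Real.exp (-(1 / z.im))) (k : ℕ) :
    ∃ D : ℝ, ∀ x : ℝ, |x| ^ k * ‖arcI (fun z => g z * cexp (π * I * (x ^ 2 : ℝ) * z))‖ ≤ D := by
  refine ⟨|C| * (1 + (k.factorial : ℝ) ^ 2) * |π - 0|, fun x => ?_⟩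
  have h1 : |x| ^ k * ‖arcI (fun z => g z * cexp (π * I * (x ^ 2 : ℝ) * z))‖ =
      ‖∫ α in (0 : ℝ)..π, ((|x| ^ k : ℝ) : ℂ) *
        ((fun z => g z * cexp (π * I * (x ^ 2 : ℝ) * z)) (cexp (α * I)) *
          (-I * cexp (α * I)))‖ := by
    rw [intervalIntegral.integral_const_mul, norm_mul, Complex.norm_real, Real.norm_eq_abs,
      abs_of_nonneg (by positivity : 0 ≤ |x| ^ k)]
    rfl
  rw [h1]
  apply intervalIntegral.norm_integral_le_of_norm_le_const_ae
  have hne : ∀ᵐ α : ℝ, α ≠ π := by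
    rw [ae_iff]
    simp
  filter_upwards [hne] with α hα hmem
  rw [Set.uIoc_of_le Real.pi_pos.le] at hmem
  have hα2 : α < π := lt_of_le_of_ne hmem.2 hα
  have hs : 0 < Real.sin α := Real.sin_pos_of_pos_of_lt_pi hmem.1 hα2
  have hg := hb (cexp (α * I)) (by rw [EX8b_im]; exact hs) (EX8b_norm α)
  rw [EX8b_im] at hg
  rw [norm_mul, norm_mul, norm_mul, norm_mul, norm_neg, Complex.norm_I, EX8b_norm, one_mul, mul_one,
    EX8b_exp_norm, EX8b_im, Complex.norm_real, Real.norm_eq_abs,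
    abs_of_nonneg (by positivity : 0 ≤ |x| ^ k)]
  have hp := EX8b_point k x (Real.sin α) hs (Real.sin_le_one α)
  calc |x| ^ k * (‖g (cexp (α * I))‖ * Real.exp (-(π * x ^ 2 * Real.sin α)))
      ≤ |x| ^ k * ((|C| * Real.exp (-(1 / Real.sin α))) *
          Real.exp (-(π * x ^ 2 * Real.sin α))) := by
        gcongr
        refine hg.trans ?_
        gcongr
        exact le_abs_self C
    _ = |C| * (|x| ^ k * (Real.exp (-(1 / Real.sin α)) *
          Real.exp (-(π * x ^ 2 * Real.sin α)))) := by ring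
    _ ≤ |C| * (1 + (k.factorial : ℝ) ^ 2) := by gcongr

end RV11
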