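import Pool.Agent.LibRV11.EX0
open Complex Real MeasureTheory
open UpperHalfPlane hiding I
open scoped MatrixGroups ComplexConjugate

namespace RV11

/-! ### EX8c: a criterion for Schwartz functions -/

theorem schwartz_of_set (S : Set (ℝ → ℂ)) (hS : ∀ f ∈ S, Differentiable ℝ f ∧ deriv f ∈ S ∧
    ∀ k : ℕ, ∃ C : ℝ, ∀ x : ℝ, |x| ^ k * ‖f x‖ ≤ C) (f : ℝ → ℂ) (hf : f ∈ S) :
    ∃ F : SchwartzMap ℝ ℂ, ∀ x, F x = f x := by
  have hit : ∀ (m : ℕ) (g : ℝ → ℂ), g ∈ S → iteratedDeriv m g ∈ S := by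
    intro m
    induction m with
    | zero =>
      intro g hg
      rwa [iteratedDeriv_zero]
    | succ m ih =>
      intro g hg
      rw [iteratedDeriv_succ']
      exact ih _ (hS g hg).2.1
  refine ⟨⟨f, ?_, ?_⟩, fun x => rfl⟩
  · exact contDiff_of_differentiable_iteratedDeriv (n := ⊤) fun m _ => (hS _ (hit m f hf)).1
  · intro k n
    obtain ⟨C, hC⟩ := (hS _ (hit n f hf)).2.2 k
    refine ⟨C, fun x => ?_⟩
    rw [norm_iteratedFDeriv_eq_norm_iteratedDeriv]
    simpa using hC x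

end RV11
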