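import Pool.Agent.LibRV11.EX0
import Pool.Agent.LibRV11.EX8a
import Pool.Agent.LibRV11.EX8b
import Pool.Agent.LibRV11.EX8c
open Complex Real MeasureTheory
open UpperHalfPlane hiding I
open scoped MatrixGroups ComplexConjugate

namespace RV11

/-! ### EX8: the integrals over the arc are Schwartz functions -/

/-- the generators -/
def EX8_gen : Set (ℝ → ℂ) :=
  {f | ∃ (j : ℕ) (g : ℂ → ℂ) (C : ℝ), ContinuousOn g {z | 0 < z.im} ∧
    (∀ z : ℂ, 0 < z.im → ‖z‖ = 1 → ‖g z‖ ≤ C * Real.exp (-(1 / z.im))) ∧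
    f = fun x : ℝ => (x : ℂ) ^ j * arcI (fun z => g z * cexp (π * I * (x ^ 2 : ℝ) * z))}

theorem EX8_prop (f : ℝ → ℂ) (hf : f ∈ Submodule.span ℂ EX8_gen) :
    Differentiable ℝ f ∧ deriv f ∈ Submodule.span ℂ EX8_gen ∧
    ∀ k : ℕ, ∃ C : ℝ, ∀ x : ℝ, |x| ^ k * ‖f x‖ ≤ C := by
  induction hf using Submodule.span_induction with
  | mem f hf =>
    obtain ⟨j, g, C, hg, hb, rfl⟩ := hf
    have hb' : ∀ z : ℂ, 0 < z.im → ‖z‖ = 1 → ‖z * g z‖ ≤ C * Real.exp (-(1 / z.im)) := by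
      intro z hz hz1
      rw [norm_mul, hz1, one_mul]
      exact hb z hz hz1
    have hg' : ContinuousOn (fun z => z * g z) {z | 0 < z.im} := continuousOn_id.mul hg
    have hd : ∀ x : ℝ, HasDerivAt
        (fun x : ℝ => (x : ℂ) ^ j * arcI (fun z => g z * cexp (π * I * (x ^ 2 : ℝ) * z)))
        ((j : ℂ) * ((x : ℂ) ^ (j - 1) * arcI (fun z => g z * cexp (π * I * (x ^ 2 : ℝ) * z))) +
          (2 * π * I) * ((x : ℂ) ^ (j + 1) *
            arcI (fun z => z * g z * cexp (π * I * (x ^ 2 : ℝ) * z)))) x := by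
      intro x
      have h1 := arc_hasDeriv g hg C hb x
      have h2 : HasDerivAt (fun x : ℝ => (x : ℂ) ^ j) ((j : ℂ) * (x : ℂ) ^ (j - 1)) x := by
        have h3 := (hasDerivAt_pow j (x : ℂ)).comp_ofReal
        simpa using h3
      have h4 := h2.mul h1
      refine h4.congr_deriv ?_
      ring
    have hderiv : deriv
        (fun x : ℝ => (x : ℂ) ^ j * arcI (fun z => g z * cexp (π * I * (x ^ 2 : ℝ) * z))) =
        (j : ℂ) • (fun x : ℝ => (x : ℂ) ^ (j - 1) *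
          arcI (fun z => g z * cexp (π * I * (x ^ 2 : ℝ) * z))) +
        (2 * π * I) • (fun x : ℝ => (x : ℂ) ^ (j + 1) *
          arcI (fun z => z * g z * cexp (π * I * (x ^ 2 : ℝ) * z))) := by
      funext x
      rw [(hd x).deriv]
      rfl
    refine ⟨fun x => (hd x).differentiableAt, ?_, ?_⟩
    · rw [hderiv]
      exact Submodule.add_mem _
        (Submodule.smul_mem _ _ (Submodule.subset_span ⟨j - 1, g, C, hg, hb, rfl⟩))
        (Submodule.smul_mem _ _ (Submodule.subset_span ⟨j + 1, _, C, hg', hb', rfl⟩))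
    · intro k
      obtain ⟨B, hB⟩ := arc_decay g C hb (k + j)
      refine ⟨B, fun x => ?_⟩
      have h1 := hB x
      rw [norm_mul, norm_pow, Complex.norm_real, Real.norm_eq_abs, ← mul_assoc, ← pow_add]
      exact h1
  | zero =>
    refine ⟨differentiable_const _, ?_, fun k => ⟨0, fun x => by simp⟩⟩
    have h1 : deriv (0 : ℝ → ℂ) = 0 := by
      funext x
      simp
    rw [h1]
    exact Submodule.zero_mem _
  | add f g _ _ hf hg =>
    obtain ⟨hf1, hf2, hf3⟩ := hf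
    obtain ⟨hg1, hg2, hg3⟩ := hg
    refine ⟨hf1.add hg1, ?_, ?_⟩
    · have h1 : deriv (f + g) = deriv f + deriv g := by
        funext x
        rw [deriv_add (hf1 x) (hg1 x)]
        rfl
      rw [h1]
      exact Submodule.add_mem _ hf2 hg2
    · intro k
      obtain ⟨A, hA⟩ := hf3 k
      obtain ⟨B, hB⟩ := hg3 k
      refine ⟨A + B, fun x => ?_⟩
      have h1 : ‖(f + g) x‖ ≤ ‖f x‖ + ‖g x‖ := norm_add_le _ _
      calc |x| ^ k * ‖(f + g) x‖ ≤ |x| ^ k * (‖f x‖ + ‖g x‖) :=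
            mul_le_mul_of_nonneg_left h1 (by positivity)
        _ = |x| ^ k * ‖f x‖ + |x| ^ k * ‖g x‖ := by ring
        _ ≤ A + B := add_le_add (hA x) (hB x)
  | smul c f _ hf =>
    obtain ⟨hf1, hf2, hf3⟩ := hf
    refine ⟨hf1.const_smul c, ?_, ?_⟩
    · have h1 : deriv (c • f) = c • deriv f := by
        funext x
        rw [deriv_const_smul c (hf1 x)]
        rfl
      rw [h1]
      exact Submodule.smul_mem _ _ hf2
    · intro k
      obtain ⟨A, hA⟩ := hf3 k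
      refine ⟨‖c‖ * A, fun x => ?_⟩
      have h1 : ‖(c • f) x‖ = ‖c‖ * ‖f x‖ := by
        rw [Pi.smul_apply, norm_smul]
      rw [h1]
      calc |x| ^ k * (‖c‖ * ‖f x‖) = ‖c‖ * (|x| ^ k * ‖f x‖) := by ring
        _ ≤ ‖c‖ * A := mul_le_mul_of_nonneg_left (hA x) (norm_nonneg _)

theorem arc_schwartz (g : ℂ → ℂ) (hg : ContinuousOn g {z | 0 < z.im}) (C : ℝ)
    (hb : ∀ z : ℂ, 0 < z.im → ‖z‖ = 1 → ‖g z‖ ≤ C * Real.exp (-(1 / z.im))) :
    ∃ f : SchwartzMap ℝ ℂ, ∀ x : ℝ, f x = arcI (fun z => g z * cexp (π * I * (x ^ 2 : ℝ) * z)) := by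
  obtain ⟨F, hF⟩ := schwartz_of_set (Submodule.span ℂ EX8_gen : Set (ℝ → ℂ))
    (fun f hf => EX8_prop f hf) _ (Submodule.subset_span ⟨0, g, C, hg, hb, rfl⟩)
  refine ⟨F, fun x => ?_⟩
  rw [hF x, pow_zero, one_mul]

end RV11
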