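import Pool.Agent.LibRV11.EX0
open Complex Real MeasureTheory
open UpperHalfPlane hiding I
open scoped MatrixGroups ComplexConjugate

namespace RV11

/-! ### EX9: the Fourier transform of the integral over the arc -/

theorem EX9_im (α : ℝ) : (cexp (α * I)).im = Real.sin α := Complex.exp_ofReal_mul_I_im α

theorem EX9_norm (α : ℝ) : ‖cexp (α * I)‖ = 1 := Complex.norm_exp_ofReal_mul_I α

theorem EX9_re {z : ℂ} (hz : 0 < z.im) : (π * I * z : ℂ).re < 0 := by
  have : (π * I * z : ℂ).re = -(π * z.im) := by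
    simp [Complex.mul_re, Complex.mul_im]
  rw [this]
  have := mul_pos Real.pi_pos hz
  linarith

theorem EX9_inv_cpow {w s : ℂ} (hw : 0 < w.re) : (1 / w) ^ s = w ^ (-s) := by
  have a2 : |w.arg| < π / 2 := abs_arg_lt_pi_div_two_iff.mpr (Or.inl hw)
  have a2' := abs_lt.mp a2
  have : w.arg ≠ π := by
    intro h
    linarith [a2'.2, Real.pi_pos]
  rw [one_div, Complex.inv_cpow _ _ this, Complex.cpow_neg]

theorem EX9_rew (x ξ : ℝ) (z : ℂ) : cexp (π * I * (x ^ 2 : ℝ) * z) * cexp (-(2 * π * I * x * ξ)) =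
    cexp ((π * I * z) * (x : ℂ) ^ 2 + (-(2 * π * I * ξ)) * x + 0) := by
  rw [← Complex.exp_add]
  congr 1
  push_cast
  ring

/-- the Gaussian integral -/
theorem EX9_gauss {z : ℂ} (hz : 0 < z.im) (ξ : ℝ) :
    ∫ x : ℝ, cexp (π * I * (x ^ 2 : ℝ) * z) * cexp (-(2 * π * I * x * ξ)) =
      (-I * z) ^ (-(1 / 2) : ℂ) * cexp (π * I * (ξ ^ 2 : ℝ) * (-1 / z)) := by
  have hz0 : z ≠ 0 := by rintro rfl; simp at hz
  have hpi : (π : ℂ) ≠ 0 := by exact_mod_cast Real.pi_ne_zero
  simp_rw [EX9_rew]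
  rw [integral_cexp_quadratic (EX9_re hz)]
  have e1 : (π : ℂ) / -(π * I * z) = 1 / (-I * z) := by
    have hI : I ≠ 0 := Complex.I_ne_zero
    field_simp
  have hw : 0 < (-I * z).re := by
    simp [Complex.mul_re]
    exact hz
  rw [e1, EX9_inv_cpow hw]
  congr 2
  have hI : I ≠ 0 := Complex.I_ne_zero
  have h4 : (-(2 * π * I * ξ) : ℂ) ^ 2 = -(4 * π ^ 2 * ξ ^ 2) := by
    have : (-(2 * π * I * ξ) : ℂ) ^ 2 = I ^ 2 * (4 * π ^ 2 * ξ ^ 2) := by ring
    rw [this, Complex.I_sq]; ring
  rw [h4]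
  push_cast
  field_simp
  rw [Complex.I_sq]
  ring

theorem EX9_int {z : ℂ} (hz : 0 < z.im) (ξ : ℝ) :
    Integrable fun x : ℝ => cexp (π * I * (x ^ 2 : ℝ) * z) * cexp (-(2 * π * I * x * ξ)) := by
  simp_rw [EX9_rew]
  exact integrable_cexp_quadratic' (EX9_re hz) _ _

theorem EX9_norm_exp (x : ℝ) (z : ℂ) :
    ‖cexp (π * I * (x ^ 2 : ℝ) * z)‖ = Real.exp (-(π * z.im) * x ^ 2) := by
  rw [Complex.norm_exp]
  congr 1
  simp only [Complex.mul_re, Complex.mul_im, Complex.ofReal_re, Complex.ofReal_im, Complex.I_re,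
    Complex.I_im]
  ring

theorem EX9_norm_exp' (x ξ : ℝ) : ‖cexp (-(2 * π * I * x * ξ))‖ = 1 := by
  have : (-(2 * π * I * x * ξ) : ℂ) = ((-(2 * π * x * ξ) : ℝ) : ℂ) * I := by push_cast; ring
  rw [this, Complex.norm_exp_ofReal_mul_I]

theorem EX9_L1 {z : ℂ} (hz : 0 < z.im) (ξ : ℝ) :
    ∫ x : ℝ, ‖cexp (π * I * (x ^ 2 : ℝ) * z) * cexp (-(2 * π * I * x * ξ))‖ =
      Real.sqrt (1 / z.im) := by
  simp_rw [norm_mul, EX9_norm_exp', mul_one, EX9_norm_exp]
  rw [integral_gaussian]
  congr 1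
  have := Real.pi_pos
  field_simp

theorem arc_fourier (g : ℂ → ℂ) (hg : ContinuousOn g {z | 0 < z.im}) (C : ℝ)
    (hb : ∀ z : ℂ, 0 < z.im → ‖z‖ = 1 → ‖g z‖ ≤ C * Real.exp (-(1 / z.im))) (ξ : ℝ) :
    ∫ x : ℝ, arcI (fun z => g z * cexp (π * I * (x ^ 2 : ℝ) * z)) *
        cexp (-(2 * π * I * x * ξ)) =
      arcI (fun z => g z * ((-I * z) ^ (-(1 / 2) : ℂ) * cexp (π * I * (ξ ^ 2 : ℝ) * (-1 / z)))) := by
  have hpi := Real.pi_pos
  have harc : ∀ h : ℂ → ℂ, arcI h =
      ∫ α in Set.Ioo 0 π, h (cexp (α * I)) * (-I * cexp (α * I)) := by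
    intro h
    rw [arcI, intervalIntegral.integral_of_le hpi.le, integral_Ioc_eq_integral_Ioo]
  have hzpos : ∀ α ∈ Set.Ioo 0 π, 0 < (cexp (α * I)).im := by
    intro α hα
    rw [EX9_im]; exact Real.sin_pos_of_pos_of_lt_pi hα.1 hα.2
  set F : ℝ × ℝ → ℂ := fun p => (g (cexp (p.2 * I)) * (-I * cexp (p.2 * I))) *
    (cexp (π * I * (p.1 ^ 2 : ℝ) * cexp (p.2 * I)) * cexp (-(2 * π * I * p.1 * ξ))) with hF
  have hL : ∀ x : ℝ, arcI (fun z => g z * cexp (π * I * (x ^ 2 : ℝ) * z)) *
      cexp (-(2 * π * I * x * ξ)) = ∫ α in Set.Ioo 0 π, F (x, α) := by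
    intro x
    rw [harc, ← integral_mul_const]
    congr 1
    ext α
    simp only [hF]
    ring
  simp_rw [hL]
  have hmeas : AEStronglyMeasurable F ((volume : Measure ℝ).prod
      ((volume : Measure ℝ).restrict (Set.Ioo 0 π))) := by
    have e : (volume : Measure ℝ).prod ((volume : Measure ℝ).restrict (Set.Ioo 0 π)) =
        ((volume : Measure ℝ).prod (volume : Measure ℝ)).restrict (Set.univ ×ˢ Set.Ioo 0 π) := by
      rw [← Measure.prod_restrict, Measure.restrict_univ]
    rw [e]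
    apply ContinuousOn.aestronglyMeasurable _ (MeasurableSet.univ.prod measurableSet_Ioo)
    have hc : Continuous fun p : ℝ × ℝ => cexp (p.2 * I) := by fun_prop
    apply ContinuousOn.mul
    · apply ContinuousOn.mul
      · apply hg.comp hc.continuousOn
        intro p hp
        exact hzpos p.2 hp.2
      · exact (by fun_prop : Continuous fun p : ℝ × ℝ => -I * cexp (p.2 * I)).continuousOn
    · exact (by fun_prop : Continuous fun p : ℝ × ℝ =>
        cexp (π * I * (p.1 ^ 2 : ℝ) * cexp (p.2 * I)) * cexp (-(2 * π * I * p.1 * ξ))).continuousOn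
  have hL1 : ∀ α ∈ Set.Ioo 0 π, ∫ x : ℝ, ‖F (x, α)‖ =
      ‖g (cexp (α * I))‖ * Real.sqrt (1 / Real.sin α) := by
    intro α hα
    have h1 : ∀ x : ℝ, ‖F (x, α)‖ = ‖g (cexp (α * I))‖ *
        ‖cexp (π * I * (x ^ 2 : ℝ) * cexp (α * I)) * cexp (-(2 * π * I * x * ξ))‖ := by
      intro x
      simp only [hF]
      rw [norm_mul (g (cexp (α * I)) * (-I * cexp (α * I))), norm_mul (g (cexp (α * I))),
        norm_mul (-I), norm_neg, Complex.norm_I, EX9_norm, mul_one, mul_one]
    simp_rw [h1]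
    rw [integral_const_mul, EX9_L1 (hzpos α hα), EX9_im]
  have hint : Integrable F ((volume : Measure ℝ).prod
      ((volume : Measure ℝ).restrict (Set.Ioo 0 π))) := by
    rw [integrable_prod_iff' hmeas]
    constructor
    · rw [ae_restrict_iff' measurableSet_Ioo]
      refine Filter.Eventually.of_forall fun α hα => ?_
      exact (EX9_int (hzpos α hα) ξ).const_mul (g (cexp (α * I)) * (-I * cexp (α * I)))
    · have hI : IntegrableOn (fun α : ℝ => ‖g (cexp (α * I))‖ * Real.sqrt (1 / Real.sin α))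
          (Set.Ioo 0 π) := by
        refine IntegrableOn.of_bound (by simp) ?_ |C| ?_
        · apply ContinuousOn.aestronglyMeasurable _ measurableSet_Ioo
          have hc : Continuous fun α : ℝ => cexp (α * I) := by fun_prop
          apply ContinuousOn.mul
          · exact (hg.comp hc.continuousOn (fun α hα => hzpos α hα)).norm
          · apply Real.continuous_sqrt.comp_continuousOn
            apply continuousOn_const.div Real.continuous_sin.continuousOn
            intro α hα
            exact (Real.sin_pos_of_pos_of_lt_pi hα.1 hα.2).ne'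
        · rw [ae_restrict_iff' measurableSet_Ioo]
          refine Filter.Eventually.of_forall fun α hα => ?_
          have hs : 0 < Real.sin α := Real.sin_pos_of_pos_of_lt_pi hα.1 hα.2
          have h2 := hb _ (hzpos α hα) (EX9_norm α)
          rw [EX9_im] at h2
          rw [Real.norm_eq_abs, abs_of_nonneg (by positivity)]
          have h3 : Real.sqrt (1 / Real.sin α) ≤ Real.exp (1 / Real.sin α) := by
            have h4 : 0 < 1 / Real.sin α := by positivity
            rw [Real.sqrt_le_left (Real.exp_pos _).le]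
            have h5 := Real.add_one_le_exp (1 / Real.sin α)
            nlinarith
          calc ‖g (cexp (α * I))‖ * Real.sqrt (1 / Real.sin α)
              ≤ (|C| * Real.exp (-(1 / Real.sin α))) * Real.exp (1 / Real.sin α) := by
                gcongr
                refine h2.trans ?_
                gcongr
                exact le_abs_self C
            _ = |C| := by
                rw [mul_assoc, ← Real.exp_add, neg_add_cancel, Real.exp_zero, mul_one]
      refine (integrable_congr ?_).mp hI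
      rw [Filter.EventuallyEq, ae_restrict_iff' measurableSet_Ioo]
      exact Filter.Eventually.of_forall fun α hα => (hL1 α hα).symm
  rw [integral_integral_swap hint, harc]
  apply setIntegral_congr_fun measurableSet_Ioo
  intro α hα
  show ∫ x : ℝ, F (x, α) = _
  simp only [hF]
  rw [integral_const_mul, EX9_gauss (hzpos α hα)]
  ring

end RV11
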