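import Pool.Agent.LibRV11.EX0
import Pool.Agent.LibRV11.EX7
import Pool.Agent.LibRV11.EX8
import Pool.Agent.LibRV11.EX9
import Pool.Agent.LibRV11.EX10
import Pool.Agent.LibRV11.EX11
open Complex Real MeasureTheory
open UpperHalfPlane hiding I
open scoped MatrixGroups ComplexConjugate

namespace RV11

/-! ### EX12: existence of the basis functions -/

/-- The Radchenko-Viazovska basis functions exist. -/
theorem basis_exists (n : ℕ) : ∃ b : SchwartzMap ℝ ℝ, (∀ x, b (-x) = b x) ∧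
    (∀ ξ : ℝ, ∫ x : ℝ, (b x : ℂ) * cexp (-(2 * π * I * x * ξ)) = b ξ) ∧
    (∀ m : ℕ, b (Real.sqrt m) = if m = n then 1 else 0) := by
  obtain ⟨g, hgd, hgS, ⟨C, hC⟩, hval⟩ := exists_gn n
  obtain ⟨f, hf⟩ := arc_schwartz g hgd.continuousOn C hC
  have heven : ∀ x, f (-x) = f x := by
    intro x
    rw [hf, hf]
    simp only [neg_sq]
  have hfour : ∀ ξ : ℝ, ∫ x : ℝ, f x * cexp (-(2 * π * I * x * ξ)) = f ξ := by
    intro ξ
    rw [hf ξ, ← arc_swap g hgS ξ, ← arc_fourier g hgd.continuousOn C hC ξ]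
    simp only [hf]
  obtain ⟨b, hb1, hb2, hb3⟩ := real_part f heven hfour
  refine ⟨b, hb2, hb3, fun m => ?_⟩
  rw [hb1, hf]
  have h1 : ((Real.sqrt m ^ 2 : ℝ) : ℂ) = (m : ℂ) := by
    rw [Real.sq_sqrt (Nat.cast_nonneg m)]
    simp
  rw [h1, hval m]
  split_ifs <;> simp

end RV11
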