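import Pool.Agent.LibRV11.Defs
import Pool.Agent.LibRV11.F100
import Pool.Agent.LibRV11.F102
import Pool.Agent.LibRV11.F104
open Complex Real MeasureTheory
open UpperHalfPlane hiding I
open scoped MatrixGroups ComplexConjugate

namespace RV11

/-! ### F105: `Yf` near the cusp `1` -/

private theorem f105_exp_pi : Real.exp (-π) ≤ 1 / 20 := by
  have h1 : Real.exp (-π) ≤ Real.exp (-3) := Real.exp_le_exp.2 (by linarith [Real.pi_gt_three])
  have h2 : (20 : ℝ) ≤ Real.exp 3 := by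
    have h3 : Real.exp 3 = Real.exp 1 ^ 3 := by
      rw [← Real.exp_nat_mul]
      norm_num
    rw [h3]
    have h4 := Real.exp_one_gt_d9
    have h5 : (2.718 : ℝ) ≤ Real.exp 1 := by linarith
    calc (20 : ℝ) ≤ 2.718 ^ 3 := by norm_num
      _ ≤ Real.exp 1 ^ 3 := pow_le_pow_left₀ (by norm_num) h5 3
  have h6 : Real.exp (-3) = (Real.exp 3)⁻¹ := Real.exp_neg 3
  rw [h6] at h1
  refine le_trans h1 ?_
  rw [one_div]
  exact inv_anti₀ (by norm_num) h2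

private theorem f105_Q_le {w : ℂ} (hw : 1 ≤ w.im) : Real.exp (-(π * w.im)) ≤ 1 / 20 := by
  refine le_trans (Real.exp_le_exp.2 ?_) f105_exp_pi
  have := Real.pi_pos
  nlinarith

private theorem f105_one {w : ℂ} (hw : 1 ≤ w.im) :
    ‖jacobiTheta w - 1‖ ≤ 3 * Real.exp (-(π * w.im)) := by
  have h1 := norm_jacobiTheta_sub_one_le (τ := w) (by linarith)
  have h2 := f105_Q_le hw
  have h3 : Real.exp (-π * w.im) = Real.exp (-(π * w.im)) := by rw [neg_mul]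
  rw [h3] at h1
  refine le_trans h1 ?_
  have h4 := Real.exp_pos (-(π * w.im))
  refine mul_le_mul_of_nonneg_right ?_ h4.le
  rw [div_le_iff₀ (by linarith)]
  linarith

/-- cancellation of the first terms -/
private theorem f105_sum {w : ℂ} (hw : 1 ≤ w.im) :
    ‖(jacobiTheta w - 1) + (jacobiTheta (w + 1) - 1)‖ ≤ 6 * Real.exp (-(π * w.im)) ^ 2 := by
  have hw0 : 0 < w.im := by linarith
  have hw1 : 0 < (w + 1).im := by simpa using hw0
  have h1 := hasSum_nat_jacobiTheta hw0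
  have h2 := hasSum_nat_jacobiTheta hw1
  have h3 := h1.add h2
  set q : ℝ := Real.exp (-(π * w.im)) with hq
  have hq0 : 0 < q := Real.exp_pos _
  have hq1 : q ≤ 1 / 20 := f105_Q_le hw
  have hterm : ∀ n : ℕ, ‖cexp (π * I * ((n : ℂ) + 1) ^ 2 * w) +
      cexp (π * I * ((n : ℂ) + 1) ^ 2 * (w + 1))‖ ≤ 2 * q ^ 2 * q ^ n := by
    intro n
    have hnorm : ∀ x : ℂ, x.im = w.im → ‖cexp (π * I * ((n : ℂ) + 1) ^ 2 * x)‖ = q ^ ((n + 1) ^ 2) := by
      intro x hx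
      rw [Complex.norm_exp, hq, ← Real.exp_nat_mul]
      congr 1
      have h4 : (π * I * ((n : ℂ) + 1) ^ 2 * x) = ((π * ((n : ℝ) + 1) ^ 2 : ℝ) : ℂ) * (I * x) := by
        push_cast
        ring
      rw [h4, Complex.re_ofReal_mul, Complex.I_mul_re, hx]
      push_cast
      ring
    rcases Nat.eq_zero_or_pos n with hn | hn
    · subst hn
      have h5 : cexp (π * I * (((0 : ℕ) : ℂ) + 1) ^ 2 * w) +
          cexp (π * I * (((0 : ℕ) : ℂ) + 1) ^ 2 * (w + 1)) = 0 := by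
        have h6 : (π * I * (((0 : ℕ) : ℂ) + 1) ^ 2 * (w + 1)) =
            π * I * (((0 : ℕ) : ℂ) + 1) ^ 2 * w + π * I := by
          push_cast
          ring
        rw [h6, Complex.exp_add, Complex.exp_pi_mul_I]
        ring
      rw [h5, norm_zero]
      positivity
    · refine le_trans (norm_add_le _ _) ?_
      rw [hnorm w rfl, hnorm (w + 1) (by simp)]
      have h7 : q ^ ((n + 1) ^ 2) ≤ q ^ (2 + n) := by
        apply pow_le_pow_of_le_one hq0.le (by linarith)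
        nlinarith
      rw [pow_add] at h7
      linarith
  have h4 : (jacobiTheta w - 1) / 2 + (jacobiTheta (w + 1) - 1) / 2 =
      ((jacobiTheta w - 1) + (jacobiTheta (w + 1) - 1)) / 2 := by ring
  rw [h4] at h3
  have hgeo : HasSum (fun n : ℕ => 2 * q ^ 2 * q ^ n) (2 * q ^ 2 * (1 - q)⁻¹) :=
    (hasSum_geometric_of_lt_one hq0.le (by linarith)).mul_left _
  have h5 : ‖((jacobiTheta w - 1) + (jacobiTheta (w + 1) - 1)) / 2‖ ≤ 2 * q ^ 2 * (1 - q)⁻¹ := by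
    rw [← h3.tsum_eq]
    exact tsum_of_norm_bounded hgeo hterm
  rw [norm_div] at h5
  have h6 : ‖(2 : ℂ)‖ = 2 := by simp
  rw [h6] at h5
  have h7 : (1 - q)⁻¹ ≤ 3 / 2 := by
    rw [inv_le_comm₀ (by linarith) (by norm_num)]
    linarith
  have h8 : 2 * q ^ 2 * (1 - q)⁻¹ ≤ 2 * q ^ 2 * (3 / 2) :=
    mul_le_mul_of_nonneg_left h7 (by positivity)
  linarith

/-- numerator -/
private theorem f105_num {w : ℂ} (hw : 1 ≤ w.im) :
    ‖jacobiTheta w ^ 4 + jacobiTheta (w + 1) ^ 4 - 2‖ ≤ 400 * Real.exp (-(π * w.im)) ^ 2 := by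
  set q : ℝ := Real.exp (-(π * w.im)) with hq
  have hq0 : 0 < q := Real.exp_pos _
  have hq1 : q ≤ 1 / 20 := f105_Q_le hw
  set a := jacobiTheta w - 1 with ha
  set b := jacobiTheta (w + 1) - 1 with hb
  have ha1 : ‖a‖ ≤ 3 * q := f105_one hw
  have hb1 : ‖b‖ ≤ 3 * q := by
    have := f105_one (w := w + 1) (by simpa using hw)
    simpa using this
  have hab : ‖a + b‖ ≤ 6 * q ^ 2 := f105_sum hw
  have h1 : jacobiTheta w ^ 4 + jacobiTheta (w + 1) ^ 4 - 2 =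
      4 * (a + b) + (6 * a ^ 2 + 6 * b ^ 2) + (4 * a ^ 3 + 4 * b ^ 3) + (a ^ 4 + b ^ 4) := by
    have h2 : jacobiTheta w = 1 + a := by rw [ha]; ring
    have h3 : jacobiTheta (w + 1) = 1 + b := by rw [hb]; ring
    rw [h2, h3]
    ring
  rw [h1]
  have h2 : ∀ {x : ℂ} (m : ℕ), ‖x‖ ≤ 3 * q → ‖x ^ m‖ ≤ (3 * q) ^ m := by
    intro x m hx
    rw [norm_pow]
    exact pow_le_pow_left₀ (norm_nonneg _) hx m
  have e1 : ‖4 * (a + b)‖ ≤ 4 * (6 * q ^ 2) := by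
    rw [norm_mul]
    have : ‖(4 : ℂ)‖ = 4 := by simp
    rw [this]
    linarith
  have e2 : ‖6 * a ^ 2 + 6 * b ^ 2‖ ≤ 6 * (3 * q) ^ 2 + 6 * (3 * q) ^ 2 := by
    refine le_trans (norm_add_le _ _) ?_
    rw [norm_mul, norm_mul]
    have : ‖(6 : ℂ)‖ = 6 := by simp
    rw [this]
    have h3 := h2 2 ha1
    have h4 := h2 2 hb1
    linarith
  have e3 : ‖4 * a ^ 3 + 4 * b ^ 3‖ ≤ 4 * (3 * q) ^ 3 + 4 * (3 * q) ^ 3 := by
    refine le_trans (norm_add_le _ _) ?_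
    rw [norm_mul, norm_mul]
    have : ‖(4 : ℂ)‖ = 4 := by simp
    rw [this]
    have h3 := h2 3 ha1
    have h4 := h2 3 hb1
    linarith
  have e4 : ‖a ^ 4 + b ^ 4‖ ≤ (3 * q) ^ 4 + (3 * q) ^ 4 := by
    refine le_trans (norm_add_le _ _) ?_
    have h3 := h2 4 ha1
    have h4 := h2 4 hb1
    linarith
  have e5 : (3 * q) ^ 3 ≤ 2 * q ^ 2 := by
    have : (3 * q) ^ 3 = 27 * q * q ^ 2 := by ring
    rw [this]
    have : 27 * q ≤ 2 := by linarith
    exact mul_le_mul_of_nonneg_right this (by positivity)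
  have e6 : (3 * q) ^ 4 ≤ q ^ 2 := by
    have : (3 * q) ^ 4 = (81 * q ^ 2) * q ^ 2 := by ring
    rw [this]
    have h9 : q ^ 2 ≤ (1 / 20) ^ 2 := pow_le_pow_left₀ hq0.le hq1 2
    have : 81 * q ^ 2 ≤ 1 := by linarith
    calc (81 * q ^ 2) * q ^ 2 ≤ 1 * q ^ 2 := mul_le_mul_of_nonneg_right this (by positivity)
      _ = q ^ 2 := one_mul _
  have e7 := norm_add_le (4 * (a + b) + (6 * a ^ 2 + 6 * b ^ 2) + (4 * a ^ 3 + 4 * b ^ 3))
    (a ^ 4 + b ^ 4)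
  have e8 := norm_add_le (4 * (a + b) + (6 * a ^ 2 + 6 * b ^ 2)) (4 * a ^ 3 + 4 * b ^ 3)
  have e9 := norm_add_le (4 * (a + b)) (6 * a ^ 2 + 6 * b ^ 2)
  nlinarith [sq_nonneg q]

theorem Yf_cusp_asymp : ∃ C : ℝ, ∀ w : ℂ, 1 ≤ w.im →
    ‖Yf (1 - 1 / w) - cexp (-(π * I * w)) / 8‖ ≤ C * Real.exp (-(π * w.im)) := by
  refine ⟨1000, fun w hw => ?_⟩
  have hw0 : 0 < w.im := by linarith
  rw [Yf_cusp hw0]
  set q : ℝ := Real.exp (-(π * w.im)) with hq
  have hq0 : 0 < q := Real.exp_pos _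
  have hq1 : q ≤ 1 / 20 := f105_Q_le hw
  set N := jacobiTheta w ^ 4 + jacobiTheta (w + 1) ^ 4 with hN
  have hN2 : ‖N - 2‖ ≤ 400 * q ^ 2 := f105_num hw
  set E := cexp (π * I * w / 4) with hE
  have hE0 : E ≠ 0 := Complex.exp_ne_zero _
  have hEn : ‖E‖ = Real.exp (-(π * w.im / 4)) := by
    rw [hE, Complex.norm_exp]
    congr 1
    have h4 : (π * I * w / 4) = ((π / 4 : ℝ) : ℂ) * (I * w) := by
      push_cast
      ring
    rw [h4, Complex.re_ofReal_mul, Complex.I_mul_re]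
    ring
  have hE4 : E ^ 4 = cexp (π * I * w) := by
    rw [hE, ← Complex.exp_nat_mul]
    congr 1
    push_cast
    ring
  have hE4n : ‖E‖ ^ 4 = q := by
    rw [hEn, hq, ← Real.exp_nat_mul]
    congr 1
    push_cast
    ring
  -- `th2 = 2 E (1 + η)`
  set η := (th2 w - 2 * E) / (2 * E) with hη
  have hth : th2 w = 2 * E * (1 + η) := by
    rw [hη]
    field_simp
    ring
  have hηn : ‖η‖ ≤ 2 * q ^ 2 := by
    have h1 := th2_asymp hw
    rw [hη, norm_div, norm_mul]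
    have h2 : ‖(2 : ℂ)‖ = 2 := by simp
    rw [h2]
    have h3 : 0 < ‖E‖ := norm_pos_iff.2 hE0
    rw [div_le_iff₀ (by positivity)]
    refine le_trans h1 ?_
    have h4 : Real.exp (-(9 * π * w.im / 4)) = q ^ 2 * ‖E‖ := by
      rw [hEn, hq, ← Real.exp_nat_mul, ← Real.exp_add]
      congr 1
      push_cast
      ring
    rw [h4]
    nlinarith [mul_pos (pow_pos hq0 2) h3]
  have hq2 : q ^ 2 ≤ 1 / 400 := by
    have : q ^ 2 ≤ (1 / 20) ^ 2 := pow_le_pow_left₀ hq0.le hq1 2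
    norm_num at this
    linarith
  have hη1 : ‖η‖ ≤ 1 / 200 := by linarith
  -- `(1 + η)^4 - 1`
  have hP : ‖(1 + η) ^ 4 - 1‖ ≤ 16 * ‖η‖ := by
    have h1 : (1 + η) ^ 4 - 1 = η * (4 + 6 * η + 4 * η ^ 2 + η ^ 3) := by ring
    rw [h1, norm_mul, mul_comm]
    refine mul_le_mul_of_nonneg_right ?_ (norm_nonneg _)
    have h2 : ‖4 + 6 * η + 4 * η ^ 2 + η ^ 3‖ ≤ 4 + 6 * ‖η‖ + 4 * ‖η‖ ^ 2 + ‖η‖ ^ 3 := by
      refine le_trans (norm_add_le _ _) ?_
      rw [norm_pow]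
      refine add_le_add ?_ le_rfl
      refine le_trans (norm_add_le _ _) ?_
      rw [norm_mul, norm_pow]
      have h4 : ‖(4 : ℂ)‖ = 4 := by simp
      rw [h4]
      refine add_le_add ?_ le_rfl
      refine le_trans (norm_add_le _ _) ?_
      rw [norm_mul, h4]
      have h6 : ‖(6 : ℂ)‖ = 6 := by simp
      rw [h6]
    have h3 : ‖η‖ ^ 2 ≤ 1 := by
      have : ‖η‖ ^ 2 ≤ 1 ^ 2 := pow_le_pow_left₀ (norm_nonneg _) (by linarith) 2
      simpa using this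
    have h4 : ‖η‖ ^ 3 ≤ 1 := by
      have : ‖η‖ ^ 3 ≤ 1 ^ 3 := pow_le_pow_left₀ (norm_nonneg _) (by linarith) 3
      simpa using this
    linarith
  have hD : 1 / 2 ≤ ‖(1 + η) ^ 4‖ := by
    have h1 : ‖(1 : ℂ)‖ ≤ ‖(1 + η) ^ 4‖ + ‖(1 + η) ^ 4 - 1‖ := by
      have h2 := norm_sub_le ((1 + η) ^ 4) ((1 + η) ^ 4 - 1)
      have h3 : (1 + η) ^ 4 - ((1 + η) ^ 4 - 1) = 1 := by ring
      rw [h3] at h2
      exact h2
    rw [norm_one] at h1
    linarith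
  have hD0 : (1 + η) ^ 4 ≠ 0 := by
    intro h
    rw [h, norm_zero] at hD
    norm_num at hD
  have hη0 : (1 + η) ≠ 0 := by
    intro h
    rw [h] at hD0
    simp at hD0
  have hmain : N / th2 w ^ 4 - cexp (-(π * I * w)) / 8 =
      ((N - 2) - 2 * ((1 + η) ^ 4 - 1)) / (16 * E ^ 4 * (1 + η) ^ 4) := by
    rw [Complex.exp_neg, ← hE4, hth]
    field_simp
    ring
  have h16 : ‖(16 : ℂ)‖ = 16 := by simp
  have hE4' : ‖E ^ 4‖ = q := by rw [norm_pow, hE4n]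
  rw [hmain, norm_div, norm_mul, norm_mul, h16, hE4']
  have hnum : ‖(N - 2) - 2 * ((1 + η) ^ 4 - 1)‖ ≤ 464 * q ^ 2 := by
    have h1 := norm_sub_le (N - 2) (2 * ((1 + η) ^ 4 - 1))
    rw [norm_mul] at h1
    have h2 : ‖(2 : ℂ)‖ = 2 := by simp
    rw [h2] at h1
    linarith
  have hDpos : 0 < ‖(1 + η) ^ 4‖ := by linarith
  rw [div_le_iff₀ (by positivity)]
  have h1 : 1 / 2 * (16000 * q ^ 2) ≤ ‖(1 + η) ^ 4‖ * (16000 * q ^ 2) :=
    mul_le_mul_of_nonneg_right hD (by positivity)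
  nlinarith [pow_pos hq0 2]

end RV11
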