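import Pool.Agent.LibRV11.Defs
import Pool.Agent.LibRV11.F100
import Pool.Agent.LibRV11.F101
import Pool.Agent.LibRV11.F102
open Complex Real MeasureTheory
open UpperHalfPlane hiding I
open scoped MatrixGroups ComplexConjugate

namespace RV11

/-! ### F106: `Yf` on the lines `Re z = ±1` and on the arc -/

private theorem th2_pow4 {z : ℂ} (hz : 0 < z.im) : th2 (z + 1) ^ 4 = -th2 z ^ 4 := by
  rw [th2_add_one z hz, mul_pow, ← Complex.exp_nat_mul]
  have : ((4 : ℕ) : ℂ) * (π * I / 4) = π * I := by push_cast; ring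
  rw [this, Complex.exp_pi_mul_I]
  ring

private theorem theta_two (z : ℂ) : jacobiTheta (z + 2) = jacobiTheta z := by
  rw [add_comm]; exact jacobiTheta_two_add z

private theorem real_of_conj {w : ℂ} (h : conj w = w) : ∃ a : ℝ, w = a :=
  ⟨w.re, (Complex.conj_eq_iff_re.mp h).symm⟩

private theorem conj_Iy (y : ℝ) : -(conj (I * y)) = I * (y : ℂ) := by simp

private theorem norm_theta_add_one_le {y : ℝ} (hy : 0 < y) :
    ‖jacobiTheta (I * y + 1)‖ ≤ (jacobiTheta (I * y)).re := by
  have him : 0 < (I * (y : ℂ)).im := by simpa using hy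
  have him1 : 0 < (I * (y : ℂ) + 1).im := by simpa using hy
  have hs0 := hasSum_jacobiTheta₂_term 0 him
  have hs1 := hasSum_jacobiTheta₂_term 0 him1
  have hn : ∀ n : ℤ, ‖jacobiTheta₂_term n 0 (I * y + 1)‖ = (jacobiTheta₂_term n 0 (I * y)).re := by
    intro n
    have e : jacobiTheta₂_term n 0 (I * y) = ((Real.exp (-(π * n ^ 2 * y)) : ℝ) : ℂ) := by
      unfold jacobiTheta₂_term
      rw [Complex.ofReal_exp]
      congr 1
      push_cast
      linear_combination (π * n ^ 2 * y : ℂ) * Complex.I_sq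
    rw [norm_jacobiTheta₂_term, e, Complex.ofReal_re]
    congr 1
    simp
  have hre : HasSum (fun n : ℤ => (jacobiTheta₂_term n 0 (I * y)).re) (jacobiTheta₂ 0 (I * y)).re :=
    Complex.hasSum_re hs0
  have hnorm : HasSum (fun n : ℤ => ‖jacobiTheta₂_term n 0 (I * y + 1)‖)
      (jacobiTheta₂ 0 (I * y)).re := by
    simpa only [hn] using hre
  rw [jacobiTheta_eq_jacobiTheta₂, jacobiTheta_eq_jacobiTheta₂, ← hs1.tsum_eq, ← hnorm.tsum_eq]
  exact norm_tsum_le_tsum_norm hnorm.summable

private theorem Yf_side_one {y : ℝ} (hy : 0 < y) :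
    (Yf (I * y + 1)).im = 0 ∧ 1 ≤ (Yf (I * y + 1)).re := by
  have him : 0 < (I * (y : ℂ)).im := by simpa using hy
  have him1 : 0 < (I * (y : ℂ) + 1).im := by simpa using hy
  obtain ⟨a, ha⟩ := real_of_conj (w := jacobiTheta (I * y)) (by
    rw [← theta_conj, conj_Iy])
  obtain ⟨b, hb⟩ := real_of_conj (w := jacobiTheta (I * y + 1)) (by
    rw [← theta_conj]
    have : -(conj (I * (y : ℂ) + 1)) + 2 = I * y + 1 := by
      rw [map_add, neg_add, conj_Iy, map_one]; ring
    have h2 : jacobiTheta (I * y + 1) = jacobiTheta (-(conj (I * (y : ℂ) + 1))) := by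
      conv_lhs => rw [← this]
      rw [theta_two]
    exact h2.symm)
  obtain ⟨c, hc⟩ := real_of_conj (w := th2 (I * y)) (by
    rw [← th2_conj, conj_Iy])
  have hab : |b| ≤ a := by
    have := norm_theta_add_one_le hy
    rwa [ha, hb, Complex.norm_real, Real.norm_eq_abs, Complex.ofReal_re] at this
  have hb0 : b ≠ 0 := by
    rintro rfl
    exact theta_ne him1 (by rw [hb]; simp)
  have hY : Yf (I * y + 1) = (((a ^ 4 + c ^ 4) / b ^ 4 : ℝ) : ℂ) := by
    have e : I * (y : ℂ) + 1 + 1 = I * y + 2 := by ring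
    rw [Yf, e, theta_two, th2_pow4 him, ha, hb, hc]
    push_cast
    ring
  rw [hY]
  refine ⟨Complex.ofReal_im _, ?_⟩
  rw [Complex.ofReal_re, one_le_div (by positivity)]
  have h1 : b ^ 4 ≤ a ^ 4 := by
    rw [← Even.pow_abs (by decide : Even 4) b]
    exact pow_le_pow_left₀ (abs_nonneg _) hab 4
  have : 0 ≤ c ^ 4 := by positivity
  linarith

theorem Yf_side {z : ℂ} (hz : 0 < z.im) (h : |z.re| = 1) : (Yf z).im = 0 ∧ 1 ≤ (Yf z).re := by
  rcases (abs_eq (by norm_num : (0 : ℝ) ≤ 1)).mp h with h | h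
  · have e : z = I * (z.im : ℂ) + 1 := by
      apply Complex.ext <;> simp [h]
    rw [e]
    exact Yf_side_one hz
  · have e : z + 2 = I * (z.im : ℂ) + 1 := by
      apply Complex.ext
      · simp [h]; norm_num
      · simp
    rw [← Yf_add_two hz, e]
    exact Yf_side_one hz

theorem Yf_arc {z : ℂ} (hz : z ∈ Ar) : (Yf z).re = 0 := by
  have h0 : z ≠ 0 := by rintro rfl; have := hz.2; simp at this
  have e : -1 / z = -(conj z) := by
    have : z * conj z = 1 := by
      rw [Complex.mul_conj, Complex.normSq_eq_norm_sq, hz.1]; norm_num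
    field_simp
    rw [this]
  have h1 := Yf_S hz.2
  rw [e, Yf_conj hz.2] at h1
  have h2 := congrArg Complex.re h1
  rw [Complex.conj_re, Complex.neg_re] at h2
  linarith

end RV11
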