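import Pool.Agent.LibRV11.Defs
import Pool.Agent.LibRV11.F100
open Complex Real MeasureTheory
open UpperHalfPlane hiding I
open scoped MatrixGroups ComplexConjugate

namespace RV11

/-! ### F107: minimum principle on the domain `|Re z| < 1 < |z|`, `Im z < 2` -/

private theorem f107_im1 (z : ℂ) : (1 / (1 - z)).im = z.im / Complex.normSq (1 - z) := by
  rw [one_div, Complex.inv_im]
  simp

private theorem f107_im2 (z : ℂ) : (-1 / (1 + z)).im = z.im / Complex.normSq (1 + z) := by
  rw [neg_div, one_div, Complex.neg_im, Complex.inv_im]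
  simp [neg_div]

private theorem f107_low {V : ℝ} {z : ℂ} (h0 : 0 < z.im) (h1 : |z.re| < 1) (h2 : 1 < ‖z‖)
    (h3 : z.im < V * Complex.normSq (1 - z)) (h4 : z.im < V * Complex.normSq (1 + z)) :
    1 ≤ V * (z.im ^ 3 + z.im) := by
  obtain ⟨hx1, hx2⟩ := abs_lt.mp h1
  have h5 : 1 < z.re ^ 2 + z.im ^ 2 := by
    have h6 : ‖z‖ ^ 2 = z.re ^ 2 + z.im ^ 2 := by
      rw [← Complex.normSq_eq_norm_sq, Complex.normSq_apply]
      ring
    rw [← h6]
    nlinarith
  have hn1 : Complex.normSq (1 - z) = (1 - z.re) ^ 2 + z.im ^ 2 := by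
    rw [Complex.normSq_apply]
    simp
    ring
  have hn2 : Complex.normSq (1 + z) = (1 + z.re) ^ 2 + z.im ^ 2 := by
    rw [Complex.normSq_apply]
    simp
    ring
  have key : ∀ N : ℝ, z.im < V * N → 0 ≤ N → N ≤ z.im ^ 4 + z.im ^ 2 →
      1 ≤ V * (z.im ^ 3 + z.im) := by
    intro N hN1 hN2 hN3
    have hV : 0 < V := by
      by_contra hV
      rw [not_lt] at hV
      nlinarith
    have h7 : z.im < V * (z.im ^ 4 + z.im ^ 2) :=
      lt_of_lt_of_le hN1 (mul_le_mul_of_nonneg_left hN3 hV.le)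
    have h8 : z.im * 1 < z.im * (V * (z.im ^ 3 + z.im)) := by
      calc z.im * 1 = z.im := mul_one _
        _ < V * (z.im ^ 4 + z.im ^ 2) := h7
        _ = z.im * (V * (z.im ^ 3 + z.im)) := by ring
    exact (lt_of_mul_lt_mul_left h8 h0.le).le
  rcases le_or_gt 0 z.re with hx | hx
  · refine key _ h3 (Complex.normSq_nonneg _) ?_
    rw [hn1]
    have h9 : 1 - z.re ≤ z.im ^ 2 := by nlinarith
    have h10 : (1 - z.re) ^ 2 ≤ (z.im ^ 2) ^ 2 := pow_le_pow_left₀ (by linarith) h9 2
    nlinarith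
  · refine key _ h4 (Complex.normSq_nonneg _) ?_
    rw [hn2]
    have h9 : 1 + z.re ≤ z.im ^ 2 := by nlinarith
    have h10 : (1 + z.re) ^ 2 ≤ (z.im ^ 2) ^ 2 := pow_le_pow_left₀ (by linarith) h9 2
    nlinarith

theorem min_principle (f : ℂ → ℂ) (hf : DifferentiableOn ℂ f {z | 0 < z.im})
    (hside : ∀ z : ℂ, 0 < z.im → z.im ≤ 2 → |z.re| = 1 → 0 ≤ (f z).re)
    (harc : ∀ z : ℂ, 0 < z.im → ‖z‖ = 1 → 0 ≤ (f z).re)
    (htop : ∀ z : ℂ, z.im = 2 → |z.re| ≤ 1 → 0 ≤ (f z).re)
    (hcusp : ∀ ε : ℝ, 0 < ε → ∃ V : ℝ, ∀ z : ℂ, 0 < z.im → z.im ≤ 2 → |z.re| ≤ 1 → 1 ≤ ‖z‖ →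
      (V ≤ (1 / (1 - z)).im ∨ V ≤ (-1 / (1 + z)).im) → -ε ≤ (f z).re) :
    ∀ z : ℂ, 0 < z.im → z.im < 2 → |z.re| < 1 → 1 < ‖z‖ → 0 ≤ (f z).re := by
  intro z0 hz1 hz2 hz3 hz4
  by_contra hneg
  rw [not_le] at hneg
  set ε := -(f z0).re / 2 with hε
  have hε0 : 0 < ε := by rw [hε]; linarith
  obtain ⟨V, hV⟩ := hcusp ε hε0
  have hnorm0 : ∀ z : ℂ, 0 < z.im → 0 < Complex.normSq (1 - z) := by
    intro z hz
    rw [Complex.normSq_pos]
    intro h
    have := congrArg Complex.im h
    simp at this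
    linarith
  have hnorm1 : ∀ z : ℂ, 0 < z.im → 0 < Complex.normSq (1 + z) := by
    intro z hz
    rw [Complex.normSq_pos]
    intro h
    have := congrArg Complex.im h
    simp at this
    linarith
  obtain ⟨V', hV', hV1, hV2⟩ : ∃ V' : ℝ, V ≤ V' ∧ z0.im < V' * Complex.normSq (1 - z0) ∧
      z0.im < V' * Complex.normSq (1 + z0) := by
    have hN0 := hnorm0 z0 hz1
    have hN1 := hnorm1 z0 hz1
    refine ⟨max V (max (z0.im / Complex.normSq (1 - z0) + 1)
      (z0.im / Complex.normSq (1 + z0) + 1)), le_max_left _ _, ?_, ?_⟩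
    · rw [← div_lt_iff₀ hN0]
      exact lt_of_lt_of_le (lt_add_one _) ((le_max_left _ _).trans (le_max_right _ _))
    · rw [← div_lt_iff₀ hN1]
      exact lt_of_lt_of_le (lt_add_one _) ((le_max_right _ _).trans (le_max_right _ _))
  set U : Set ℂ := {z | (0 < z.im ∧ z.im < 2) ∧ (|z.re| < 1 ∧ 1 < ‖z‖) ∧
    (z.im < V' * Complex.normSq (1 - z) ∧ z.im < V' * Complex.normSq (1 + z))} with hU
  have hcn1 : Continuous fun z : ℂ => V' * Complex.normSq (1 - z) :=
    continuous_const.mul (Complex.continuous_normSq.comp (continuous_const.sub continuous_id))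
  have hcn2 : Continuous fun z : ℂ => V' * Complex.normSq (1 + z) :=
    continuous_const.mul (Complex.continuous_normSq.comp (continuous_const.add continuous_id))
  have hcre : Continuous fun z : ℂ => |z.re| := continuous_abs.comp Complex.continuous_re
  have hUo : IsOpen U := by
    refine ((isOpen_lt continuous_const Complex.continuous_im).inter
      (isOpen_lt Complex.continuous_im continuous_const)).inter (IsOpen.inter ?_ ?_)
    · exact (isOpen_lt hcre continuous_const).inter (isOpen_lt continuous_const continuous_norm)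
    · exact (isOpen_lt Complex.continuous_im hcn1).inter (isOpen_lt Complex.continuous_im hcn2)
  have hUcl : closure U ⊆ {z | (0 < z.im ∧ z.im ≤ 2) ∧ (|z.re| ≤ 1 ∧ 1 ≤ ‖z‖)} := by
    have h1 : closure U ⊆ {z | (0 ≤ z.im ∧ z.im ≤ 2) ∧ (|z.re| ≤ 1 ∧ 1 ≤ ‖z‖) ∧
        1 ≤ V' * (z.im ^ 3 + z.im)} := by
      apply closure_minimal
      · rintro z ⟨⟨h1, h2⟩, ⟨h3, h4⟩, h5, h6⟩
        exact ⟨⟨h1.le, h2.le⟩, ⟨h3.le, h4.le⟩, f107_low h1 h3 h4 h5 h6⟩
      · refine ((isClosed_le continuous_const Complex.continuous_im).inter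
          (isClosed_le Complex.continuous_im continuous_const)).inter (IsClosed.inter ?_ ?_)
        · exact (isClosed_le hcre continuous_const).inter
            (isClosed_le continuous_const continuous_norm)
        · exact isClosed_le continuous_const
            (continuous_const.mul ((Complex.continuous_im.pow 3).add Complex.continuous_im))
    intro z hz
    obtain ⟨⟨h2, h3⟩, h4, h5⟩ := h1 hz
    refine ⟨⟨?_, h3⟩, h4⟩
    rcases lt_or_eq_of_le h2 with h6 | h6
    · exact h6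
    · rw [← h6] at h5
      norm_num at h5
  have hbdd : Bornology.IsBounded U := by
    rw [Metric.isBounded_iff_subset_closedBall 0]
    refine ⟨3, ?_⟩
    rintro z ⟨⟨h1, h2⟩, ⟨h3, h4⟩, _⟩
    rw [mem_closedBall_zero_iff]
    have h5 := Complex.norm_le_abs_re_add_abs_im z
    rw [abs_of_pos h1] at h5
    linarith
  have hd : DiffContOnCl ℂ (fun z => cexp (-f z)) U := by
    have h1 : DifferentiableOn ℂ (fun z => cexp (-f z)) {z | 0 < z.im} := hf.neg.cexp
    refine ⟨h1.mono fun z hz => hz.1.1, h1.continuousOn.mono fun z hz => (hUcl hz).1.1⟩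
  have hfr : ∀ z ∈ frontier U, ‖cexp (-f z)‖ ≤ Real.exp ε := by
    intro z hz
    rw [hUo.frontier_eq] at hz
    obtain ⟨hzc, hzU⟩ := hz
    obtain ⟨⟨h1, h2⟩, h3, h4⟩ := hUcl hzc
    rw [Complex.norm_exp]
    apply Real.exp_le_exp.mpr
    rw [Complex.neg_re]
    by_cases hc1 : z.im < 2
    · by_cases hc2 : |z.re| < 1
      · by_cases hc3 : 1 < ‖z‖
        · by_cases hc4 : z.im < V' * Complex.normSq (1 - z)
          · by_cases hc5 : z.im < V' * Complex.normSq (1 + z)
            · exact absurd ⟨⟨h1, hc1⟩, ⟨hc2, hc3⟩, hc4, hc5⟩ hzU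
            · have h5 : V ≤ (-1 / (1 + z)).im := by
                rw [f107_im2, le_div_iff₀ (hnorm1 z h1)]
                exact (mul_le_mul_of_nonneg_right hV' (Complex.normSq_nonneg _)).trans
                  (not_lt.mp hc5)
              have := hV z h1 h2 h3 h4 (Or.inr h5)
              linarith
          · have h5 : V ≤ (1 / (1 - z)).im := by
              rw [f107_im1, le_div_iff₀ (hnorm0 z h1)]
              exact (mul_le_mul_of_nonneg_right hV' (Complex.normSq_nonneg _)).trans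
                (not_lt.mp hc4)
            have := hV z h1 h2 h3 h4 (Or.inl h5)
            linarith
        · have := harc z h1 (le_antisymm (not_lt.mp hc3) h4)
          linarith
      · have := hside z h1 h2 (le_antisymm h3 (not_lt.mp hc2))
        linarith
    · have := htop z (le_antisymm h2 (not_lt.mp hc1)) h3
      linarith
  have hz0U : z0 ∈ U := ⟨⟨hz1, hz2⟩, ⟨hz3, hz4⟩, hV1, hV2⟩
  have hfin := Complex.norm_le_of_forall_mem_frontier_norm_le hbdd hd hfr (subset_closure hz0U)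
  rw [Complex.norm_exp] at hfin
  have h1 := Real.exp_le_exp.mp hfin
  rw [Complex.neg_re] at h1
  linarith

end RV11
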