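import Pool.Agent.LibRV11.Defs
import Pool.Agent.LibRV11.F100
import Pool.Agent.LibRV11.F101
import Pool.Agent.LibRV11.F102
import Pool.Agent.LibRV11.F104
import Pool.Agent.LibRV11.F105
import Pool.Agent.LibRV11.F106
import Pool.Agent.LibRV11.F107
open Complex Real MeasureTheory
open UpperHalfPlane hiding I
open scoped MatrixGroups ComplexConjugate

namespace RV11

/-! ### F108: lower bound for `Re Y` -/

theorem im_add_inv {z : ℂ} (hz : 0 < z.im) : (z + 1 / z).im = z.im - z.im / ‖z‖ ^ 2 := by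
  rw [Complex.add_im, one_div, Complex.inv_im, Complex.normSq_eq_norm_sq]
  ring

theorem cusp_right {z : ℂ} (h0 : 0 < z.im) (h2 : |z.re| ≤ 1) (h3 : 1 ≤ ‖z‖) {C : ℝ}
    (hC : ∀ w : ℂ, 1 ≤ w.im →
      ‖Yf (1 - 1 / w) - cexp (-(π * I * w)) / 8‖ ≤ C * Real.exp (-(π * w.im)))
    (h4 : 1 ≤ (1 / (1 - z)).im) :
    -(C * Real.exp (-(π * (1 / (1 - z)).im))) ≤ (Yf z).re ∧ z.im ≤ 1 / (1 / (1 - z)).im := by
  set w := 1 / (1 - z) with hw
  have h1z : (1 : ℂ) - z ≠ 0 := by
    intro h
    have : (1 - z).im = 0 := by rw [h]; simp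
    simp at this
    linarith
  have hzw : z = 1 - 1 / w := by
    rw [hw]; field_simp; ring
  have hn : normSq (1 - z) = (1 - z.re) ^ 2 + z.im ^ 2 := by
    rw [Complex.normSq_apply]; simp; ring
  have hnpos : 0 < (1 - z.re) ^ 2 + z.im ^ 2 := by positivity
  have hwre : w.re = (1 - z.re) / ((1 - z.re) ^ 2 + z.im ^ 2) := by
    rw [hw, one_div, Complex.inv_re, hn]; simp
  have hwim : w.im = z.im / ((1 - z.re) ^ 2 + z.im ^ 2) := by
    rw [hw, one_div, Complex.inv_im, hn]; simp
  have hzn : 1 ≤ z.re ^ 2 + z.im ^ 2 := by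
    have : ‖z‖ ^ 2 = z.re ^ 2 + z.im ^ 2 := by
      rw [← Complex.normSq_eq_norm_sq, Complex.normSq_apply]; ring
    nlinarith
  have habs := abs_le.mp h2
  have hu0 : 0 ≤ w.re := by
    rw [hwre]; apply div_nonneg _ hnpos.le; linarith
  have hu1 : w.re ≤ 1 / 2 := by
    rw [hwre, div_le_iff₀ hnpos]; nlinarith
  constructor
  · have := hC w h4
    rw [← hzw] at this
    have hre : (cexp (-(π * I * w)) / 8).re = Real.exp (π * w.im) * Real.cos (π * w.re) / 8 := by
      have e : -(π * I * w) = ((π * w.im : ℝ) : ℂ) + ((-(π * w.re) : ℝ) : ℂ) * I := by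
        apply Complex.ext <;> simp
      rw [e]
      have : (8 : ℂ) = ((8 : ℝ) : ℂ) := by norm_num
      rw [this, Complex.div_ofReal_re, Complex.exp_re]
      simp
    have hcos : 0 ≤ Real.cos (π * w.re) := by
      apply Real.cos_nonneg_of_mem_Icc
      constructor
      · nlinarith [Real.pi_pos]
      · nlinarith [Real.pi_pos]
    have h5 : 0 ≤ (cexp (-(π * I * w)) / 8).re := by
      rw [hre]; positivity
    have h6 : |(Yf z - cexp (-(π * I * w)) / 8).re| ≤ C * Real.exp (-(π * w.im)) :=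
      (Complex.abs_re_le_norm _).trans this
    rw [Complex.sub_re] at h6
    have := (abs_le.mp h6).1
    linarith
  · have hwpos : 0 < w.im := by linarith
    rw [le_div_iff₀ hwpos, hwim, mul_div_assoc', div_le_one hnpos]
    nlinarith

theorem re_Yf_ge {z : ℂ} (h0 : 0 < z.im) (h1 : z.im < 2) (h2 : |z.re| < 1) (h3 : 1 < ‖z‖) :
    (z + 1 / z).im / 4 ≤ (Yf z).re := by
  obtain ⟨C, hC⟩ := Yf_cusp_asymp
  have hfre : ∀ z : ℂ, (Yf z + I / 4 * (z + 1 / z)).re = (Yf z).re - (z + 1 / z).im / 4 := by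
    intro z
    rw [Complex.add_re, Complex.mul_re]
    have e1 : (I / 4 : ℂ).re = 0 := by
      have : (4 : ℂ) = ((4 : ℝ) : ℂ) := by norm_num
      rw [this, Complex.div_ofReal_re]; simp
    have e2 : (I / 4 : ℂ).im = 1 / 4 := by
      have : (4 : ℂ) = ((4 : ℝ) : ℂ) := by norm_num
      rw [this, Complex.div_ofReal_im]; simp
    rw [e1, e2]
    ring
  have key := min_principle (fun z => Yf z + I / 4 * (z + 1 / z)) ?_ ?_ ?_ ?_ ?_ z h0 h1 h2 h3
  · rw [hfre] at key
    linarith
  · intro z hz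
    have hz0 : z ≠ 0 := by rintro rfl; simp at hz
    have h1 : DifferentiableAt ℂ (fun z : ℂ => I / 4 * (z + 1 / z)) z := by
      have : DifferentiableAt ℂ (fun z : ℂ => (1 : ℂ) / z) z :=
        (differentiableAt_const _).div differentiableAt_id hz0
      exact (differentiableAt_id.add this).const_mul _
    exact ((diffAt_Yf hz).add h1).differentiableWithinAt
  · intro z hz hz2 hre
    rw [hfre, im_add_inv hz]
    have h5 := (Yf_side hz hre).2
    have hn : ‖z‖ ^ 2 = 1 + z.im ^ 2 := by
      rw [← Complex.normSq_eq_norm_sq, Complex.normSq_apply]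
      have : z.re * z.re = 1 := by
        rw [← sq, ← sq_abs, hre]; norm_num
      rw [this]; ring
    have h6 : z.im - z.im / ‖z‖ ^ 2 ≤ z.im := by
      have : 0 ≤ z.im / ‖z‖ ^ 2 := by positivity
      linarith
    linarith
  · intro z hz hn
    rw [hfre, im_add_inv hz, Yf_arc ⟨hn, hz⟩, hn]
    simp
  · intro z hz hre
    have hz0 : 0 < z.im := by rw [hz]; norm_num
    rw [hfre, im_add_inv hz0]
    have h5 := Yf_near_one (z := z) hz.ge
    have h6 : |(Yf z - 1).re| ≤ 1 / 10 := (Complex.abs_re_le_norm _).trans h5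
    rw [Complex.sub_re, Complex.one_re] at h6
    have := (abs_le.mp h6).1
    have h7 : 0 ≤ z.im / ‖z‖ ^ 2 := by positivity
    linarith
  · intro ε hε
    -- choose V
    have hlim : ∃ V : ℝ, 1 ≤ V ∧ |C| * Real.exp (-(π * V)) ≤ ε / 2 ∧ 1 / V ≤ ε := by
      have t1 : Filter.Tendsto (fun V : ℝ => |C| * Real.exp (-(π * V))) Filter.atTop (nhds 0) := by
        have h1 : Filter.Tendsto (fun V : ℝ => -(π * V)) Filter.atTop Filter.atBot :=
          Filter.tendsto_neg_atTop_atBot.comp
            (Filter.tendsto_id.const_mul_atTop Real.pi_pos)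
        have h2 := (Real.tendsto_exp_atBot.comp h1).const_mul |C|
        simpa using h2
      have t2 : Filter.Tendsto (fun V : ℝ => 1 / V) Filter.atTop (nhds 0) := by
        simpa using tendsto_inv_atTop_zero (𝕜 := ℝ)
      have e1 := t1.eventually (ge_mem_nhds (show (0 : ℝ) < ε / 2 by linarith))
      have e2 := t2.eventually (ge_mem_nhds (show (0 : ℝ) < ε by linarith))
      obtain ⟨V, hV⟩ := (e1.and (e2.and (Filter.eventually_ge_atTop 1))).exists
      exact ⟨V, hV.2.2, hV.1, hV.2.1⟩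
    obtain ⟨V, hV1, hV2, hV3⟩ := hlim
    have main : ∀ z : ℂ, 0 < z.im → |z.re| ≤ 1 → 1 ≤ ‖z‖ → V ≤ (1 / (1 - z)).im →
        -(ε / 2) ≤ (Yf z).re ∧ z.im ≤ ε := by
      intro z hz hre hn hv
      obtain ⟨a1, a2⟩ := cusp_right hz hre hn hC (hV1.trans hv)
      constructor
      · have : C * Real.exp (-(π * (1 / (1 - z)).im)) ≤ |C| * Real.exp (-(π * V)) := by
          apply mul_le_mul (le_abs_self _) _ (Real.exp_pos _).le (abs_nonneg _)
          apply Real.exp_le_exp.mpr
          have := Real.pi_pos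
          nlinarith
        linarith
      · refine a2.trans (le_trans ?_ hV3)
        apply one_div_le_one_div_of_le (by linarith) hv
    refine ⟨V, fun z hz hz2 hre hn hv => ?_⟩
    rw [hfre, im_add_inv hz]
    have hfin : -(ε / 2) ≤ (Yf z).re ∧ z.im ≤ ε := by
      rcases hv with hv | hv
      · exact main z hz hre hn hv
      · have hz' : 0 < (-(conj z)).im := by simpa using hz
        have h5 := main (-(conj z)) hz' (by simpa using hre) (by simpa using hn) ?_
        · rw [Yf_conj hz] at h5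
          simpa using h5
        · have e : (1 / (1 - -(conj z))) = conj (1 / (1 + z)) := by
            simp
          rw [e, Complex.conj_im]
          have e2 : (-1 / (1 + z)).im = -(1 / (1 + z)).im := by
            rw [neg_div, Complex.neg_im]
          rw [e2] at hv
          exact hv
    have h7 : 0 ≤ z.im / ‖z‖ ^ 2 := by positivity
    linarith [hfin.1, hfin.2]

end RV11
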