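import Pool.Agent.LibRV11.Defs
import Pool.Agent.LibRV11.F100
import Pool.Agent.LibRV11.F102
import Pool.Agent.LibRV11.F104
import Pool.Agent.LibRV11.F106
import Pool.Agent.LibRV11.F108
open Complex Real MeasureTheory
open UpperHalfPlane hiding I
open scoped MatrixGroups ComplexConjugate

namespace RV11

/-! ### F109: `Re Y > 0` on `Om1` -/

theorem mem_Om1 {z : ℂ} (h0 : 0 < z.im) (h1 : |z.re| ≤ 1) (h2 : 1 < ‖z‖) : z ∈ Om1 := by
  refine ⟨h0, fun k => ?_⟩
  by_cases hk : k = 0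
  · rw [hk]; simpa using h2
  · have hn : ‖z - 2 * k‖ ^ 2 = (z.re - 2 * k) ^ 2 + z.im ^ 2 := by
      rw [← Complex.normSq_eq_norm_sq, Complex.normSq_apply]
      simp
      ring
    have hk1 : (1 : ℝ) ≤ |(k : ℝ)| := by
      exact_mod_cast Int.one_le_abs hk
    have h3 : 1 ≤ |z.re - 2 * k| := by
      have : |2 * (k : ℝ)| - |z.re| ≤ |2 * (k : ℝ) - z.re| := abs_sub_abs_le_abs_sub _ _
      rw [abs_sub_comm] at this
      rw [abs_mul] at this
      have h2' : |(2 : ℝ)| = 2 := by norm_num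
      rw [h2'] at this
      linarith
    have h4 : 1 ≤ (z.re - 2 * k) ^ 2 := by
      rw [← sq_abs]; nlinarith
    have h5 : 1 < ‖z - 2 * k‖ ^ 2 := by
      rw [hn]; nlinarith
    by_contra hcon
    push Not at hcon
    have := norm_nonneg (z - 2 * k)
    nlinarith

theorem add_two_mem_Om1 {z : ℂ} : z + 2 ∈ Om1 ↔ z ∈ Om1 := by
  constructor
  · rintro ⟨h0, h1⟩
    refine ⟨by simpa using h0, fun k => ?_⟩
    have := h1 (k + 1)
    have e : z + 2 - 2 * ((k + 1 : ℤ) : ℂ) = z - 2 * k := by push_cast; ring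
    rwa [e] at this
  · rintro ⟨h0, h1⟩
    refine ⟨by simpa using h0, fun k => ?_⟩
    have := h1 (k - 1)
    have e : z - 2 * ((k - 1 : ℤ) : ℂ) = z + 2 - 2 * k := by push_cast; ring
    rwa [e] at this

theorem Yf_add_nat {z : ℂ} (hz : 0 < z.im) (n : ℕ) : Yf (z + 2 * n) = Yf z := by
  induction n with
  | zero => simp
  | succ n ih =>
    have e : z + 2 * ((n + 1 : ℕ) : ℂ) = (z + 2 * n) + 2 := by push_cast; ring
    rw [e, Yf_add_two (by simpa using hz), ih]

theorem Yf_sub_int {z : ℂ} (hz : 0 < z.im) (k : ℤ) : Yf (z - 2 * k) = Yf z := by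
  rcases Int.le_total 0 k with hk | hk
  · obtain ⟨n, rfl⟩ := Int.eq_ofNat_of_zero_le hk
    have h := Yf_add_nat (z := z - 2 * ((n : ℤ) : ℂ)) (by simpa using hz) n
    have e : z - 2 * ((n : ℤ) : ℂ) + 2 * (n : ℂ) = z := by push_cast; ring
    rw [e] at h
    exact h.symm
  · obtain ⟨n, hn⟩ := Int.eq_ofNat_of_zero_le (Int.neg_nonneg.mpr hk)
    have h := Yf_add_nat (z := z) hz n
    have e : z - 2 * (k : ℂ) = z + 2 * (n : ℂ) := by
      have : (k : ℂ) = -(n : ℂ) := by
        have h2 : k = -(n : ℤ) := by omega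
        rw [h2]; push_cast; ring
      rw [this]; ring
    rw [e, h]

theorem re_Yf_pos {z : ℂ} (hz : z ∈ Om1) : 0 < (Yf z).re := by
  obtain ⟨h0, h1⟩ := hz
  set k := round (z.re / 2) with hk
  have hk' : |z.re - 2 * k| ≤ 1 := by
    have h := abs_sub_round (z.re / 2)
    rw [← hk] at h
    have e : z.re - 2 * k = 2 * (z.re / 2 - k) := by ring
    rw [e, abs_mul]
    have h2' : |(2 : ℝ)| = 2 := by norm_num
    rw [h2']
    linarith
  have hY := Yf_sub_int h0 k
  set z' := z - 2 * (k : ℂ) with hz'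
  have hre : z'.re = z.re - 2 * k := by
    rw [hz']; simp
  have him : z'.im = z.im := by
    rw [hz']; simp
  have hn : 1 < ‖z'‖ := h1 k
  rw [← hY]
  rw [← hre] at hk'
  rw [← him] at h0
  rcases eq_or_lt_of_le hk' with h | h
  · linarith [(Yf_side h0 h).2]
  · rcases le_or_gt 2 z'.im with h2 | h2
    · have h5 := Yf_near_one h2
      have h6 : |(Yf z' - 1).re| ≤ 1 / 10 := (Complex.abs_re_le_norm _).trans h5
      rw [Complex.sub_re, Complex.one_re] at h6
      linarith [(abs_le.mp h6).1]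
    · have h5 := re_Yf_ge h0 h2 h hn
      rw [im_add_inv h0] at h5
      have h6 : z'.im / ‖z'‖ ^ 2 < z'.im := by
        apply div_lt_self h0
        nlinarith
      linarith

end RV11
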