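import Pool.Agent.LibRV11.Defs
import Pool.Agent.LibRV11.F100
import Pool.Agent.LibRV11.F101
import Pool.Agent.LibRV11.F102
import Pool.Agent.LibRV11.F106
import Pool.Agent.LibRV11.F108
open Complex Real MeasureTheory
open UpperHalfPlane hiding I
open scoped MatrixGroups ComplexConjugate

namespace RV11

/-! ### F110: derivative and injectivity on the arc -/

private theorem abs_re_lt_one {z : ℂ} (hz : z ∈ Ar) : |z.re| < 1 := by
  have h1 : z.re ^ 2 + z.im ^ 2 = 1 := by
    have : ‖z‖ ^ 2 = z.re ^ 2 + z.im ^ 2 := by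
      rw [← Complex.normSq_eq_norm_sq, Complex.normSq_apply]; ring
    rw [← this, hz.1]; norm_num
  have h2 : 0 < z.im ^ 2 := by have := hz.2; positivity
  rw [← sq_lt_one_iff_abs_lt_one]
  linarith

private theorem im_le_one {z : ℂ} (hz : z ∈ Ar) : z.im ≤ 1 := by
  have := Complex.im_le_norm z
  rw [hz.1] at this
  exact this

theorem deriv_arc_re {z : ℂ} (hz : z ∈ Ar) : 0 < (deriv Yf z * z).re := by
  -- the function `t ↦ Re Y((1+t)z)` has derivative `Re (Y'(z) z)` and is `≥ im z * t / 4`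
  have hd : HasDerivAt (fun t : ℝ => (Yf ((1 + t) * z)).re) (deriv Yf z * z).re 0 := by
    have h1 : HasDerivAt Yf (deriv Yf z) ((1 + (0 : ℝ)) * z : ℂ) := by
      have e : ((1 + (0 : ℝ)) * z : ℂ) = z := by simp
      rw [e]; exact (diffAt_Yf hz.2).hasDerivAt
    have h2 : HasDerivAt (fun t : ℝ => ((1 + t) * z : ℂ)) z 0 := by
      have := ((Complex.ofRealCLM.hasDerivAt (x := (0 : ℝ))).const_add (1 : ℂ)).mul_const z
      simpa using this
    have h3 := HasDerivAt.comp_of_eq (0 : ℝ) h1 h2 (by simp)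
    have h4 := (Complex.reCLM.hasFDerivAt (x := Yf ((1 + (0 : ℝ)) * z))).comp_hasDerivAt (0 : ℝ) h3
    exact h4
  have h0 : (Yf ((1 + (0 : ℝ)) * z)).re = 0 := by
    have e : ((1 + (0 : ℝ)) * z : ℂ) = z := by simp
    rw [e]; exact Yf_arc hz
  have hslope := hd.tendsto_slope_zero_right
  have hre := abs_re_lt_one hz
  have him := im_le_one hz
  have hz2 := hz.2
  -- small `t`
  have hev : ∀ᶠ t : ℝ in nhdsWithin 0 (Set.Ioi 0),
      z.im / 4 ≤ t⁻¹ • ((Yf ((1 + ((0 + t : ℝ))) * z)).re - (Yf ((1 + (0 : ℝ)) * z)).re) := by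
    have hc : ContinuousAt (fun t : ℝ => |(((1 + t : ℝ)) * z : ℂ).re|) 0 := by
      apply Continuous.continuousAt
      fun_prop
    have hev1 : ∀ᶠ t : ℝ in nhds 0, |(((1 + t : ℝ)) * z : ℂ).re| < 1 := by
      apply hc.eventually_lt continuousAt_const
      simpa using hre
    have hev2 : ∀ᶠ t : ℝ in nhdsWithin 0 (Set.Ioi 0), |(((1 + t : ℝ)) * z : ℂ).re| < 1 :=
      hev1.filter_mono nhdsWithin_le_nhds
    have hev3 : ∀ᶠ t : ℝ in nhdsWithin 0 (Set.Ioi (0 : ℝ)), t < 1 :=
      (gt_mem_nhds zero_lt_one).filter_mono nhdsWithin_le_nhds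
    filter_upwards [hev2, hev3, self_mem_nhdsWithin] with t ht1 ht2 ht3
    have ht3 : 0 < t := ht3
    have e1 : ((1 + ((0 + t : ℝ))) * z : ℂ) = ((1 + t : ℝ) : ℂ) * z := by push_cast; ring
    rw [h0, sub_zero, e1]
    have him' : (((1 + t : ℝ) : ℂ) * z).im = (1 + t) * z.im := by simp
    have hn' : ‖((1 + t : ℝ) : ℂ) * z‖ = 1 + t := by
      rw [norm_mul, hz.1, Complex.norm_real, Real.norm_eq_abs, abs_of_pos (by linarith), mul_one]
    have h5 := re_Yf_ge (z := ((1 + t : ℝ) : ℂ) * z) (by rw [him']; positivity)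
      (by rw [him']; nlinarith) ht1 (by rw [hn']; linarith)
    rw [im_add_inv (by rw [him']; positivity), him', hn'] at h5
    rw [smul_eq_mul, inv_mul_eq_div, le_div_iff₀ ht3]
    refine le_trans ?_ h5
    have h6 : (1 + t) * z.im - (1 + t) * z.im / (1 + t) ^ 2 = z.im * ((1 + t) - 1 / (1 + t)) := by
      field_simp
    rw [h6]
    have h7 : t ≤ (1 + t) - 1 / (1 + t) := by
      have : 1 / (1 + t) ≤ 1 := by
        rw [div_le_one (by linarith)]; linarith
      linarith
    nlinarith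
  have := ge_of_tendsto hslope hev
  have : 0 < z.im / 4 := by positivity
  linarith

private theorem hasDerivAt_circle (β : ℝ) (h : cexp (I * β) ∈ Ar) :
    HasDerivAt (fun β : ℝ => Yf (cexp (I * β)))
      (deriv Yf (cexp (I * β)) * (cexp (I * β) * I)) β := by
  have h2 : HasDerivAt (fun β : ℝ => cexp (I * β)) (cexp (I * β) * I) β := by
    have h3 : HasDerivAt (fun β : ℝ => (I * β : ℂ)) I β := by
      have := (Complex.ofRealCLM.hasDerivAt (x := β)).const_mul I
      simpa using this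
    exact h3.cexp
  exact HasDerivAt.comp β (diffAt_Yf h.2).hasDerivAt h2

private theorem exp_mem_Ar {β : ℝ} (h0 : 0 < β) (h1 : β < π) : cexp (I * β) ∈ Ar := by
  constructor
  · rw [Complex.norm_exp]; simp
  · rw [mul_comm, Complex.exp_mul_I]
    simp [← Complex.ofReal_cos, ← Complex.ofReal_sin]
    exact Real.sin_pos_of_pos_of_lt_pi h0 h1

private theorem exists_angle {z : ℂ} (hz : z ∈ Ar) : ∃ β : ℝ, 0 < β ∧ β < π ∧ z = cexp (I * β) := by
  have him := hz.2
  refine ⟨z.arg, ?_, ?_, ?_⟩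
  · have h1 : 0 ≤ z.arg := Complex.arg_nonneg_iff.mpr him.le
    rcases h1.lt_or_eq with h | h
    · exact h
    · have := (Complex.arg_eq_zero_iff.mp h.symm).2
      linarith
  · rcases (Complex.arg_le_pi z).lt_or_eq with h | h
    · exact h
    · have := (Complex.arg_eq_pi_iff.mp h).2
      linarith
  · have := Complex.norm_mul_exp_arg_mul_I z
    rw [hz.1] at this
    rw [mul_comm]
    simpa using this.symm

theorem deriv_arc {z : ℂ} (hz : z ∈ Ar) :
    (deriv Yf z * z).im = 0 ∧ 0 < (deriv Yf z * z).re := by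
  refine ⟨?_, deriv_arc_re hz⟩
  obtain ⟨β, h0, h1, rfl⟩ := exists_angle hz
  have h := hasDerivAt_circle β hz
  have h4 := (Complex.reCLM.hasFDerivAt (x := Yf (cexp (I * β)))).comp_hasDerivAt β h
  have h5 : HasDerivAt (fun β : ℝ => (Yf (cexp (I * β))).re)
      (deriv Yf (cexp (I * β)) * (cexp (I * β) * I)).re β := h4
  have h6 : HasDerivAt (fun β : ℝ => (Yf (cexp (I * β))).re) 0 β := by
    apply (hasDerivAt_const β (0 : ℝ)).congr_of_eventuallyEq
    filter_upwards [(isOpen_Ioo (a := (0 : ℝ)) (b := π)).mem_nhds ⟨h0, h1⟩] with t ht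
    exact Yf_arc (exp_mem_Ar ht.1 ht.2)
  have h7 := h5.unique h6
  rw [← mul_assoc, Complex.mul_I_re] at h7
  linarith

theorem Yf_inj_arc {z z' : ℂ} (hz : z ∈ Ar) (hz' : z' ∈ Ar) (h : Yf z = Yf z') : z = z' := by
  have hmono : StrictMonoOn (fun β : ℝ => (Yf (cexp (I * β))).im) (Set.Ioo 0 π) := by
    have hder : ∀ β ∈ Set.Ioo 0 π, HasDerivAt (fun β : ℝ => (Yf (cexp (I * β))).im)
        (deriv Yf (cexp (I * β)) * (cexp (I * β) * I)).im β := by
      intro β hβ
      have h := hasDerivAt_circle β (exp_mem_Ar hβ.1 hβ.2)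
      exact (Complex.imCLM.hasFDerivAt (x := Yf (cexp (I * β)))).comp_hasDerivAt β h
    apply strictMonoOn_of_deriv_pos (convex_Ioo _ _)
    · intro β hβ
      exact (hder β hβ).continuousAt.continuousWithinAt
    · intro β hβ
      rw [interior_Ioo] at hβ
      rw [(hder β hβ).deriv, ← mul_assoc, Complex.mul_I_im]
      exact (deriv_arc (exp_mem_Ar hβ.1 hβ.2)).2
  obtain ⟨β, h0, h1, rfl⟩ := exists_angle hz
  obtain ⟨β', h0', h1', rfl⟩ := exists_angle hz'
  have := hmono.injOn (x₁ := β) (x₂ := β') ⟨h0, h1⟩ ⟨h0', h1'⟩ (by simp only [h])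
  rw [this]

end RV11
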