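import Pool.Agent.LibRV11.Defs
import Pool.Agent.LibRV11.F100
import Pool.Agent.LibRV11.F101
import Pool.Agent.LibRV11.F102
import Pool.Agent.LibRV11.F109
import Pool.Agent.LibRV11.F110
open Complex Real MeasureTheory
open UpperHalfPlane hiding I
open scoped MatrixGroups ComplexConjugate

namespace RV11

/-! ### F111: local structure at a point of the arc -/

open Filter Topology in
theorem local_struct {z0 : ℂ} (hz0 : z0 ∈ Ar) : ∃ (ε δ t0 : ℝ) (g : ℂ → ℂ), 0 < ε ∧ 0 < δ ∧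
    Yf z0 = I * t0 ∧
    DifferentiableOn ℂ g (Metric.ball (I * t0) ε) ∧
    (∀ s ∈ Metric.ball (I * t0 : ℂ) ε, 0 < (g s).im ∧ Yf (g s) = s) ∧
    (∀ t : ℝ, |t - t0| < ε → g (I * t) ∈ Ar) ∧
    (∀ z ∈ Metric.ball z0 δ, 0 < z.im ∧ Yf z ∈ Metric.ball (I * t0 : ℂ) ε ∧ g (Yf z) = z ∧
      (1 < ‖z‖ → 0 < (Yf z).re) ∧ (‖z‖ < 1 → (Yf z).re < 0 ∧ -1 / z ∈ Om1)) := by
  obtain ⟨hz1, hz2⟩ := hz0
  have hz0 : z0 ∈ Ar := ⟨hz1, hz2⟩
  have hH : IsOpen {z : ℂ | 0 < z.im} := isOpen_lt continuous_const Complex.continuous_im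
  have hdiffOn : DifferentiableOn ℂ Yf {z : ℂ | 0 < z.im} := fun z hz =>
    (diffAt_Yf hz).differentiableWithinAt
  have han : ∀ z : ℂ, 0 < z.im → AnalyticAt ℂ Yf z := fun z hz =>
    hdiffOn.analyticAt (hH.mem_nhds hz)
  have hsd : ∀ z : ℂ, 0 < z.im → HasStrictDerivAt Yf (deriv Yf z) z := fun z hz =>
    (han z hz).hasStrictDerivAt
  have hne : deriv Yf z0 ≠ 0 := by
    intro h
    have := (deriv_arc hz0).2
    rw [h] at this
    simp at this
  have hY0 : Yf z0 = I * ((Yf z0).im : ℝ) := by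
    apply Complex.ext
    · simp [Yf_arc hz0]
    · simp
  set t0 : ℝ := (Yf z0).im with ht0
  -- real part of `z0`
  have hre0 : |z0.re| < 1 := by
    have h1 : z0.re ^ 2 + z0.im ^ 2 = 1 := by
      have := Complex.sq_norm z0
      rw [hz1, Complex.normSq_apply] at this
      nlinarith
    rw [abs_lt]
    constructor <;> nlinarith
  have hz0ne : z0 ≠ 0 := by
    intro h; rw [h] at hz2; simp at hz2
  -- the neighbourhood `V` of `z0`
  have hderivcont : ContinuousAt (deriv Yf) z0 := (han z0 hz2).deriv.continuousAt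
  have hV : ∀ᶠ z in 𝓝 z0, 0 < z.im ∧ deriv Yf z ≠ 0 ∧ |z.re| < 1 ∧ |(-1 / z).re| < 1 ∧ z ≠ 0 := by
    have e1 : ∀ᶠ z in 𝓝 z0, 0 < z.im := hH.mem_nhds hz2
    have e2 : ∀ᶠ z in 𝓝 z0, deriv Yf z ≠ 0 := hderivcont.eventually_ne hne
    have e3 : ∀ᶠ z in 𝓝 z0, |z.re| < 1 :=
      (Complex.continuous_re.abs.continuousAt).eventually_lt continuousAt_const hre0
    have e5 : ∀ᶠ z in 𝓝 z0, z ≠ 0 := continuousAt_id.eventually_ne hz0ne
    have e4 : ∀ᶠ z in 𝓝 z0, |(-1 / z).re| < 1 := by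
      have hc : ContinuousAt (fun z : ℂ => |(-1 / z).re|) z0 := by
        have : ContinuousAt (fun z : ℂ => (-1 / z)) z0 :=
          continuousAt_const.div continuousAt_id hz0ne
        exact (continuous_abs.comp Complex.continuous_re).continuousAt.comp this
      refine hc.eventually_lt continuousAt_const ?_
      have : (-1 / z0).re = -z0.re := by
        rw [Complex.div_re]
        have h1 : Complex.normSq z0 = 1 := by
          rw [← Complex.sq_norm, hz1]; norm_num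
        rw [h1]; simp
      rw [this, abs_neg]
      exact hre0
    filter_upwards [e1, e2, e3, e4, e5] with z h1 h2 h3 h4 h5
    exact ⟨h1, h2, h3, h4, h5⟩
  obtain ⟨V, hVsub, hVopen, hVmem⟩ := mem_nhds_iff.mp hV
  -- sign of the real part on `V`
  have hpos : ∀ z ∈ V, 1 < ‖z‖ → 0 < (Yf z).re := by
    intro z hz h
    obtain ⟨h1, h2, h3, h4, h5⟩ := hVsub hz
    exact re_Yf_pos (mem_Om1 h1 h3.le h)
  have hneg : ∀ z ∈ V, ‖z‖ < 1 → (Yf z).re < 0 ∧ -1 / z ∈ Om1 := by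
    intro z hz h
    obtain ⟨h1, h2, h3, h4, h5⟩ := hVsub hz
    have him : 0 < (-1 / z).im := by
      rw [Complex.div_im]
      have : 0 < Complex.normSq z := Complex.normSq_pos.mpr h5
      simp only [neg_im, one_im, neg_zero, zero_mul, neg_re, one_re, zero_div]
      have := div_pos h1 this
      ring_nf
      ring_nf at this
      linarith
    have hnorm : 1 < ‖-1 / z‖ := by
      rw [norm_div, norm_neg, norm_one, lt_div_iff₀ (norm_pos_iff.mpr h5), one_mul]
      exact h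
    have hOm : -1 / z ∈ Om1 := mem_Om1 him h4.le hnorm
    refine ⟨?_, hOm⟩
    have := re_Yf_pos hOm
    rw [Yf_S h1, neg_re] at this
    linarith
  -- the local inverse
  have hs0 := hsd z0 hz2
  let e := (hs0.hasStrictFDerivAt_equiv hne).toOpenPartialHomeomorph Yf
  have hecoe : ∀ z, e z = Yf z := fun z => rfl
  have hz0e : z0 ∈ e.source := (hs0.hasStrictFDerivAt_equiv hne).mem_toOpenPartialHomeomorph_source
  have hY0e : Yf z0 ∈ e.target := by
    have := e.map_source hz0e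
    rwa [hecoe] at this
  have hleft : e.symm (Yf z0) = z0 := by
    have := e.left_inv hz0e
    rwa [hecoe] at this
  have hsymmcont : ContinuousAt e.symm (Yf z0) := e.symm.continuousAt hY0e
  have hW : ∀ᶠ s in 𝓝 (Yf z0), s ∈ e.target ∧ e.symm s ∈ V := by
    have h1 : ∀ᶠ s in 𝓝 (Yf z0), s ∈ e.target := e.open_target.mem_nhds hY0e
    have h2 : ∀ᶠ s in 𝓝 (Yf z0), e.symm s ∈ V := by
      apply hsymmcont.eventually_mem
      rw [hleft]
      exact hVopen.mem_nhds hVmem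
    exact h1.and h2
  rw [hY0] at hW
  obtain ⟨ε, hε, hεsub⟩ := Metric.eventually_nhds_iff_ball.mp hW
  have hright : ∀ s ∈ Metric.ball (I * t0 : ℂ) ε, Yf (e.symm s) = s := by
    intro s hs
    have := e.right_inv (hεsub s hs).1
    rwa [hecoe] at this
  have hZ : ∀ᶠ z in 𝓝 z0, z ∈ V ∧ z ∈ e.source ∧ Yf z ∈ Metric.ball (I * t0 : ℂ) ε := by
    have h1 : ∀ᶠ z in 𝓝 z0, z ∈ V := hVopen.mem_nhds hVmem
    have h2 : ∀ᶠ z in 𝓝 z0, z ∈ e.source := e.open_source.mem_nhds hz0e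
    have h3 : ∀ᶠ z in 𝓝 z0, Yf z ∈ Metric.ball (I * t0 : ℂ) ε := by
      apply (diffAt_Yf hz2).continuousAt.eventually_mem
      rw [hY0]
      exact Metric.ball_mem_nhds _ hε
    filter_upwards [h1, h2, h3] with z a b c using ⟨a, b, c⟩
  obtain ⟨δ, hδ, hδsub⟩ := Metric.eventually_nhds_iff_ball.mp hZ
  refine ⟨ε, δ, t0, e.symm, hε, hδ, hY0, ?_, ?_, ?_, ?_⟩
  · intro s hs
    obtain ⟨h1, h2⟩ := hεsub s hs
    obtain ⟨hp1, hp2, _⟩ := hVsub h2
    have hd : HasDerivAt e (deriv Yf (e.symm s)) (e.symm s) := (hsd _ hp1).hasDerivAt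
    exact (e.hasDerivAt_symm h1 hp2 hd).differentiableAt.differentiableWithinAt
  · intro s hs
    obtain ⟨h1, h2⟩ := hεsub s hs
    exact ⟨(hVsub h2).1, hright s hs⟩
  · intro t ht
    have hs : (I * t : ℂ) ∈ Metric.ball (I * t0 : ℂ) ε := by
      rw [Metric.mem_ball, dist_eq_norm, ← mul_sub, norm_mul, Complex.norm_I, one_mul,
        ← Complex.ofReal_sub, Complex.norm_real, Real.norm_eq_abs]
      exact ht
    obtain ⟨h1, h2⟩ := hεsub _ hs
    have hr : (Yf (e.symm (I * t))).re = 0 := by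
      rw [hright _ hs]; simp
    refine ⟨?_, (hVsub h2).1⟩
    rcases lt_trichotomy ‖e.symm (I * t)‖ 1 with h | h | h
    · have := (hneg _ h2 h).1
      linarith
    · exact h
    · have := hpos _ h2 h
      linarith
  · intro z hz
    obtain ⟨h1, h2, h3⟩ := hδsub z hz
    refine ⟨(hVsub h1).1, h3, ?_, hpos z h1, hneg z h1⟩
    have := e.left_inv h2
    rwa [hecoe] at this

end RV11
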