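import Pool.Agent.LibRV11.Defs
import Pool.Agent.LibRV11.F100
import Pool.Agent.LibRV11.F110
import Pool.Agent.LibRV11.F111
import Pool.Agent.LibRV11.F102
open Complex Real MeasureTheory
open UpperHalfPlane hiding I
open scoped MatrixGroups ComplexConjugate

namespace RV11

/-! ### F112: the boundary function `Ee` -/

theorem Ee_arc (r : ℝ) {z : ℂ} (hz : z ∈ Ar) (t : ℝ) (h : Yf z = I * t) :
    Ee r t = phf r z + phf r (-1 / z) := by
  have hex : ∃ z ∈ Ar, Yf z = I * t := ⟨z, hz, h⟩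
  unfold Ee
  rw [dif_pos hex]
  have h1 : hex.choose = z :=
    Yf_inj_arc hex.choose_spec.1 hz (by rw [hex.choose_spec.2, h])
  rw [h1]

private theorem f112_ne {z : ℂ} (hz : 0 < z.im) : z ≠ 0 := by
  intro h
  rw [h] at hz
  simp at hz

private theorem f112_neg_inv_im {z : ℂ} (hz : 0 < z.im) : 0 < (-1 / z).im := by
  have h0 : 0 < Complex.normSq z := Complex.normSq_pos.2 (f112_ne hz)
  have h1 : (-1 / z).im = z.im / Complex.normSq z := by
    rw [neg_div, one_div, Complex.neg_im, Complex.inv_im]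
    ring
  rw [h1]
  positivity

private theorem f112_neg_inv_mem {z : ℂ} (hz : z ∈ Ar) : -1 / z ∈ Ar := by
  refine ⟨?_, f112_neg_inv_im hz.2⟩
  rw [norm_div, norm_neg, norm_one, hz.1, div_one]

private theorem f112_neg_inv_inv {z : ℂ} (hz : 0 < z.im) : -1 / (-1 / z) = z := by
  have := f112_ne hz
  field_simp

private theorem f112_Y {z : ℂ} (hz : z ∈ Ar) {t : ℝ} (h : Yf z = I * t) :
    Yf (-1 / z) = I * ((-t : ℝ) : ℂ) := by
  rw [Yf_S hz.2, h]
  push_cast
  ring

theorem Ee_neg (r t : ℝ) : Ee r (-t) = Ee r t := by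
  by_cases hex : ∃ z ∈ Ar, Yf z = I * t
  · obtain ⟨z, hz, h⟩ := hex
    rw [Ee_arc r hz t h, Ee_arc r (f112_neg_inv_mem hz) (-t) (f112_Y hz h),
      f112_neg_inv_inv hz.2, add_comm]
  · have hex' : ¬ ∃ z ∈ Ar, Yf z = I * ((-t : ℝ) : ℂ) := by
      rintro ⟨z, hz, h⟩
      apply hex
      refine ⟨-1 / z, f112_neg_inv_mem hz, ?_⟩
      rw [f112_Y hz h, neg_neg]
    unfold Ee
    rw [dif_neg hex, dif_neg hex']

private theorem f112_contAt (r : ℝ) {t0 : ℝ} (h0 : ∃ z ∈ Ar, Yf z = I * t0) :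
    ContinuousAt (Ee r) t0 ∧ ∀ᶠ t : ℝ in nhds t0, ∃ z ∈ Ar, Yf z = I * (t : ℂ) := by
  obtain ⟨z0, hz0, h⟩ := h0
  obtain ⟨ε, δ, t1, g, hε, hδ, h1, hg, hg2, hg3, -⟩ := local_struct hz0
  have ht : t1 = t0 := by
    have h2 : I * (t1 : ℂ) = I * t0 := by rw [← h1, h]
    have h3 := mul_left_cancel₀ Complex.I_ne_zero h2
    exact_mod_cast h3
  subst ht
  have hball : ∀ t : ℝ, |t - t1| < ε → (I * t : ℂ) ∈ Metric.ball (I * t1 : ℂ) ε := by
    intro t ht
    rw [Metric.mem_ball, dist_eq_norm, ← mul_sub, norm_mul, Complex.norm_I, one_mul,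
      ← Complex.ofReal_sub, Complex.norm_real]
    exact ht
  have hev : ∀ᶠ t : ℝ in nhds t1, |t - t1| < ε := by
    have := Metric.ball_mem_nhds t1 hε
    filter_upwards [this] with t ht
    rwa [Metric.mem_ball, Real.dist_eq] at ht
  have hYg : ∀ t : ℝ, |t - t1| < ε → Yf (g (I * t)) = I * t := fun t ht =>
    (hg2 _ (hball t ht)).2
  refine ⟨?_, ?_⟩
  · have hc0 : |t1 - t1| < ε := by simpa using hε
    have hEe : (fun t : ℝ => phf r (g (I * t)) + phf r (-1 / g (I * t))) =ᶠ[nhds t1] Ee r := by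
      filter_upwards [hev] with t ht
      exact (Ee_arc r (hg3 t ht) t (hYg t ht)).symm
    refine ContinuousAt.congr ?_ hEe
    have hgc : ContinuousAt g (I * t1 : ℂ) :=
      (hg.differentiableAt (Metric.ball_mem_nhds _ hε)).continuousAt
    have hin : ContinuousAt (fun t : ℝ => (I * t : ℂ)) t1 :=
      (continuous_const.mul Complex.continuous_ofReal).continuousAt
    have hgt : ContinuousAt (fun t : ℝ => g (I * t)) t1 :=
      ContinuousAt.comp (f := fun t : ℝ => (I * t : ℂ)) (g := g) hgc hin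
    have him : 0 < (g (I * t1)).im := (hg3 t1 hc0).2
    have hne := f112_ne him
    have hphf : ∀ {w : ℂ}, 0 < w.im → ContinuousAt (phf r) w := fun hw =>
      (diffAt_phf r hw).continuousAt
    have hinv : ContinuousAt (fun t : ℝ => -1 / g (I * t)) t1 :=
      continuousAt_const.div hgt hne
    refine ContinuousAt.add ?_ ?_
    · exact ContinuousAt.comp (f := fun t : ℝ => g (I * t)) (g := phf r) (hphf him) hgt
    · exact ContinuousAt.comp (f := fun t : ℝ => -1 / g (I * t)) (g := phf r)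
        (hphf (f112_neg_inv_im him)) hinv
  · filter_upwards [hev] with t ht
    exact ⟨g (I * t), hg3 t ht, hYg t ht⟩

theorem measurable_Ee (r : ℝ) : Measurable (Ee r) := by
  classical
  set T : Set ℝ := {t | ∃ z ∈ Ar, Yf z = I * t} with hT
  have hTo : IsOpen T := by
    rw [isOpen_iff_mem_nhds]
    intro t ht
    exact (f112_contAt r ht).2
  have h1 : Ee r = T.piecewise (Ee r) (fun _ => 0) := by
    funext t
    by_cases ht : t ∈ T
    · rw [Set.piecewise_eq_of_mem _ _ _ ht]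
    · rw [Set.piecewise_eq_of_notMem _ _ _ ht]
      have ht' : ¬ ∃ z ∈ Ar, Yf z = I * (t : ℂ) := ht
      unfold Ee
      rw [dif_neg ht']
  rw [h1]
  refine ContinuousOn.measurable_piecewise ?_ continuousOn_const hTo.measurableSet
  intro t ht
  exact (f112_contAt r ht).1.continuousWithinAt

end RV11
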