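import Pool.Agent.LibRV11.Defs
import Pool.Agent.LibRV11.F100
import Pool.Agent.LibRV11.F101
import Pool.Agent.LibRV11.F102
open Complex Real MeasureTheory
open UpperHalfPlane hiding I
open scoped MatrixGroups ComplexConjugate

namespace RV11

/-! ### F113: lower bound for theta on the arc -/

private theorem f113_exp_pi : Real.exp (-π) ≤ 1 / 20 := by
  have h1 : Real.exp (-π) ≤ Real.exp (-3) := Real.exp_le_exp.2 (by linarith [Real.pi_gt_three])
  have h2 : (20 : ℝ) ≤ Real.exp 3 := by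
    have h3 : Real.exp 3 = Real.exp 1 ^ 3 := by
      rw [← Real.exp_nat_mul]
      norm_num
    rw [h3]
    have h4 := Real.exp_one_gt_d9
    have h5 : (2.718 : ℝ) ≤ Real.exp 1 := by linarith
    calc (20 : ℝ) ≤ 2.718 ^ 3 := by norm_num
      _ ≤ Real.exp 1 ^ 3 := pow_le_pow_left₀ (by norm_num) h5 3
  have h6 : Real.exp (-3) = (Real.exp 3)⁻¹ := Real.exp_neg 3
  rw [h6] at h1
  refine le_trans h1 ?_
  rw [one_div]
  exact inv_anti₀ (by norm_num) h2

private theorem f113_one {w : ℂ} (hw : 1 ≤ w.im) : ‖jacobiTheta w - 1‖ ≤ 3 / 20 := by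
  have h1 := norm_jacobiTheta_sub_one_le (τ := w) (by linarith)
  have h2 : Real.exp (-π * w.im) ≤ 1 / 20 := by
    refine le_trans (Real.exp_le_exp.2 ?_) f113_exp_pi
    have := Real.pi_pos
    nlinarith
  refine le_trans h1 ?_
  have h4 := Real.exp_pos (-π * w.im)
  have h5 : 2 / (1 - Real.exp (-π * w.im)) ≤ 3 := by
    rw [div_le_iff₀ (by linarith)]
    linarith
  calc 2 / (1 - Real.exp (-π * w.im)) * Real.exp (-π * w.im) ≤ 3 * (1 / 20) :=
        mul_le_mul h5 h2 h4.le (by norm_num)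
    _ = 3 / 20 := by norm_num

private theorem f113_pow {a : ℂ} (ha : ‖a‖ ≤ 3 / 20) : ‖(1 + a) ^ 4 - 1‖ ≤ 3 / 4 := by
  have h1 : (1 + a) ^ 4 - 1 = 4 * a + 6 * a ^ 2 + 4 * a ^ 3 + a ^ 4 := by ring
  have h4 : ‖(4 : ℂ)‖ = 4 := by simp
  have h6 : ‖(6 : ℂ)‖ = 6 := by simp
  have h2 : ‖4 * a + 6 * a ^ 2 + 4 * a ^ 3 + a ^ 4‖ ≤
      4 * ‖a‖ + 6 * ‖a‖ ^ 2 + 4 * ‖a‖ ^ 3 + ‖a‖ ^ 4 := by
    refine le_trans (norm_add_le _ _) ?_
    rw [norm_pow]
    refine add_le_add ?_ le_rfl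
    refine le_trans (norm_add_le _ _) ?_
    rw [norm_mul, norm_pow, h4]
    refine add_le_add ?_ le_rfl
    refine le_trans (norm_add_le _ _) ?_
    rw [norm_mul, norm_mul, norm_pow, h4, h6]
  have h7 : ‖a‖ ^ 2 ≤ (3 / 20) ^ 2 := pow_le_pow_left₀ (norm_nonneg _) ha 2
  have h8 : ‖a‖ ^ 3 ≤ (3 / 20) ^ 3 := pow_le_pow_left₀ (norm_nonneg _) ha 3
  have h9 : ‖a‖ ^ 4 ≤ (3 / 20) ^ 4 := pow_le_pow_left₀ (norm_nonneg _) ha 4
  rw [h1]
  refine le_trans h2 ?_
  norm_num at h7 h8 h9 ⊢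
  linarith

private theorem f113_num {w : ℂ} (hw : 1 ≤ w.im) :
    1 / 2 ≤ ‖jacobiTheta w ^ 4 + jacobiTheta (w + 1) ^ 4‖ := by
  have ha := f113_pow (f113_one hw)
  have hb := f113_pow (f113_one (w := w + 1) (by simpa using hw))
  have e1 : 1 + (jacobiTheta w - 1) = jacobiTheta w := by ring
  have e2 : 1 + (jacobiTheta (w + 1) - 1) = jacobiTheta (w + 1) := by ring
  rw [e1] at ha
  rw [e2] at hb
  have h1 : ‖(2 : ℂ)‖ ≤ ‖jacobiTheta w ^ 4 + jacobiTheta (w + 1) ^ 4‖ +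
      (‖jacobiTheta w ^ 4 - 1‖ + ‖jacobiTheta (w + 1) ^ 4 - 1‖) := by
    have h2 := norm_sub_le (jacobiTheta w ^ 4 + jacobiTheta (w + 1) ^ 4)
      ((jacobiTheta w ^ 4 - 1) + (jacobiTheta (w + 1) ^ 4 - 1))
    have h3 : jacobiTheta w ^ 4 + jacobiTheta (w + 1) ^ 4 -
        ((jacobiTheta w ^ 4 - 1) + (jacobiTheta (w + 1) ^ 4 - 1)) = 2 := by ring
    rw [h3] at h2
    refine le_trans h2 ?_
    have := norm_add_le (jacobiTheta w ^ 4 - 1) (jacobiTheta (w + 1) ^ 4 - 1)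
    linarith
  have h4 : ‖(2 : ℂ)‖ = 2 := by simp
  rw [h4] at h1
  linarith

/-- near the cusp `1` -/
private theorem f113_cusp {z : ℂ} (hz : z ∈ Ar) (hx : 3 / 5 < z.re) :
    1 / ‖jacobiTheta z‖ ≤ 2 * (1 + ‖Yf z‖) ^ (1 / 4 : ℝ) := by
  obtain ⟨hz1, hz2⟩ := hz
  have hxy : z.re ^ 2 + z.im ^ 2 = 1 := by
    have h1 := Complex.sq_norm z
    rw [hz1, Complex.normSq_apply] at h1
    linarith
  have hx1 : z.re < 1 := by nlinarith
  have hne : 1 - z ≠ 0 := by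
    intro h
    have := congr_arg Complex.re h
    simp at this
    linarith
  set w := 1 / (1 - z) with hw
  have hwne : w ≠ 0 := one_div_ne_zero hne
  have hzw : z = 1 - 1 / w := by
    rw [hw]
    field_simp
    ring
  have hwim : w.im = z.im / (2 - 2 * z.re) := by
    have h1 : Complex.normSq (1 - z) = 2 - 2 * z.re := by
      rw [Complex.normSq_apply]
      simp
      nlinarith
    rw [hw, one_div, Complex.inv_im, h1]
    simp
  have hw1 : 1 ≤ w.im := by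
    rw [hwim, le_div_iff₀ (by linarith), one_mul]
    have h1 : (2 - 2 * z.re) ^ 2 ≤ z.im ^ 2 := by nlinarith
    exact (pow_le_pow_iff_left₀ (by linarith) hz2.le two_ne_zero).1 h1
  have hw0 : 0 < w.im := by linarith
  have hwn : 1 ≤ ‖w‖ := le_trans hw1 (le_trans (le_abs_self _) (Complex.abs_im_le_norm w))
  have hth : jacobiTheta z = (-I * w) ^ (1 / 2 : ℂ) * th2 w := by
    rw [hzw]
    exact theta_one_sub w hw0
  have hY : Yf z = (jacobiTheta w ^ 4 + jacobiTheta (w + 1) ^ 4) / th2 w ^ 4 := by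
    rw [hzw]
    exact Yf_cusp hw0
  have hth0 : jacobiTheta z ≠ 0 := theta_ne hz2
  have hth20 : th2 w ≠ 0 := by
    intro h
    rw [h, mul_zero] at hth
    exact hth0 hth
  have hpos : 0 < ‖th2 w‖ := norm_pos_iff.2 hth20
  have hsq : 1 ≤ ‖(-I * w) ^ (1 / 2 : ℂ)‖ := by
    have h1 : ((-I * w) ^ (1 / 2 : ℂ)) ^ 2 = -I * w := by
      rw [← Complex.cpow_nat_mul]
      norm_num
    have h2 : ‖(-I * w) ^ (1 / 2 : ℂ)‖ ^ 2 = ‖w‖ := by
      rw [← norm_pow, h1, norm_mul, norm_neg, Complex.norm_I, one_mul]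
    by_contra hcon
    push Not at hcon
    have h3 : ‖(-I * w) ^ (1 / 2 : ℂ)‖ ^ 2 < 1 := by
      have := norm_nonneg ((-I * w) ^ (1 / 2 : ℂ))
      nlinarith
    linarith
  have h1 : ‖th2 w‖ ≤ ‖jacobiTheta z‖ := by
    rw [hth, norm_mul]
    nlinarith
  have h2 : 1 / ‖jacobiTheta z‖ ≤ 1 / ‖th2 w‖ := one_div_le_one_div_of_le hpos h1
  refine le_trans h2 ?_
  have h3 : (1 / (2 * ‖th2 w‖)) ^ 4 ≤ 1 + ‖Yf z‖ := by
    rw [hY, norm_div, norm_pow]
    have h4 := f113_num hw1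
    have h5 : (1 / (2 * ‖th2 w‖)) ^ 4 = (1 / 16) / ‖th2 w‖ ^ 4 := by
      field_simp
      norm_num
    rw [h5]
    have h6 : (1 / 16) / ‖th2 w‖ ^ 4 ≤
        ‖jacobiTheta w ^ 4 + jacobiTheta (w + 1) ^ 4‖ / ‖th2 w‖ ^ 4 :=
      div_le_div_of_nonneg_right (by linarith) (by positivity)
    linarith
  have h4 : 1 / (2 * ‖th2 w‖) ≤ (1 + ‖Yf z‖) ^ (1 / 4 : ℝ) := by
    have h5 : ((1 / (2 * ‖th2 w‖)) ^ 4) ^ (1 / 4 : ℝ) = 1 / (2 * ‖th2 w‖) := by
      rw [← Real.rpow_natCast, ← Real.rpow_mul (by positivity)]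
      norm_num
    rw [← h5]
    exact Real.rpow_le_rpow (by positivity) h3 (by norm_num)
  have h5 : 1 / ‖th2 w‖ = 2 * (1 / (2 * ‖th2 w‖)) := by
    field_simp
  rw [h5]
  linarith

theorem theta_arc : ∃ C : ℝ, ∀ z ∈ Ar, 1 / ‖jacobiTheta z‖ ≤ C * (1 + ‖Yf z‖) ^ (1 / 4 : ℝ) := by
  set K : Set ℂ := {z | ‖z‖ = 1 ∧ 4 / 5 ≤ z.im} with hK
  have hKc : IsCompact K := by
    have h1 : K = Metric.sphere (0 : ℂ) 1 ∩ {z | 4 / 5 ≤ z.im} := by
      ext z
      simp [hK]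
    rw [h1]
    exact (isCompact_sphere (0 : ℂ) 1).inter_right
      (isClosed_le continuous_const Complex.continuous_im)
  have hcont : ContinuousOn (fun z => 1 / ‖jacobiTheta z‖) K := by
    intro z hz
    have hz0 : 0 < z.im := lt_of_lt_of_le (by norm_num) hz.2
    have h1 : ContinuousAt jacobiTheta z := (diffAt_theta hz0).continuousAt
    exact (continuousAt_const.div h1.norm (norm_ne_zero_iff.2 (theta_ne hz0))).continuousWithinAt
  obtain ⟨C1, hC1⟩ := hKc.exists_bound_of_continuousOn hcont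
  refine ⟨max C1 2, fun z hz => ?_⟩
  have hone : (1 : ℝ) ≤ (1 + ‖Yf z‖) ^ (1 / 4 : ℝ) :=
    Real.one_le_rpow (by linarith [norm_nonneg (Yf z)]) (by norm_num)
  by_cases him : 4 / 5 ≤ z.im
  · have h1 := hC1 z ⟨hz.1, him⟩
    rw [Real.norm_of_nonneg (by positivity)] at h1
    have h2 : C1 ≤ max C1 2 := le_max_left _ _
    have h3 : (0 : ℝ) ≤ max C1 2 := le_trans (by norm_num) (le_max_right _ _)
    nlinarith
  · push Not at him
    have hxy : z.re ^ 2 + z.im ^ 2 = 1 := by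
      have h1 := Complex.sq_norm z
      rw [hz.1, Complex.normSq_apply] at h1
      linarith
    have hz2 : 0 < z.im := hz.2
    have hx : (3 / 5) ^ 2 < z.re ^ 2 := by nlinarith
    have h2 : (2 : ℝ) ≤ max C1 2 := le_max_right _ _
    have hgoal : 1 / ‖jacobiTheta z‖ ≤ 2 * (1 + ‖Yf z‖) ^ (1 / 4 : ℝ) := by
      rcases le_or_gt 0 z.re with hre | hre
      · have hx' : 3 / 5 < z.re := lt_of_pow_lt_pow_left₀ 2 hre hx
        exact f113_cusp hz hx'
      · have hx' : 3 / 5 < -z.re := by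
          apply lt_of_pow_lt_pow_left₀ 2 (by linarith)
          rw [neg_sq]
          exact hx
        have hmem : -(conj z) ∈ Ar := by
          refine ⟨?_, ?_⟩
          · rw [norm_neg, Complex.norm_conj, hz.1]
          · simpa using hz2
        have h3 := f113_cusp hmem (by simpa using hx')
        rw [theta_conj, Yf_conj hz2, Complex.norm_conj, Complex.norm_conj] at h3
        exact h3
    refine le_trans hgoal ?_
    exact mul_le_mul_of_nonneg_right h2 (by linarith)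

end RV11
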