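import Pool.Agent.LibRV11.Defs
import Pool.Agent.LibRV11.F100
import Pool.Agent.LibRV11.F102
import Pool.Agent.LibRV11.F112
import Pool.Agent.LibRV11.F113
open Complex Real MeasureTheory
open UpperHalfPlane hiding I
open scoped MatrixGroups ComplexConjugate

namespace RV11

/-! ### F114: bound for `Ee` -/

theorem neg_inv_mem_Ar {z : ℂ} (hz : z ∈ Ar) : -1 / z ∈ Ar := by
  have h0 : z ≠ 0 := by rintro rfl; have := hz.2; simp at this
  have hn : normSq z = 1 := by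
    rw [Complex.normSq_eq_norm_sq, hz.1]; norm_num
  refine ⟨by rw [norm_div, hz.1]; simp, ?_⟩
  have : (-1 / z).im = z.im := by
    rw [div_eq_mul_inv, Complex.mul_im, Complex.inv_re, Complex.inv_im, hn]
    simp
  rw [this]; exact hz.2

theorem norm_phf_le {r : ℝ} (hr : 0 ≤ r) {z : ℂ} (hz : 0 < z.im) :
    ‖phf r z‖ ≤ 1 / ‖jacobiTheta z‖ := by
  rw [phf, norm_div]
  gcongr
  rw [Complex.norm_exp]
  have : (π * I * r * z).re = -(π * r * z.im) := by
    simp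
  rw [this]
  apply Real.exp_le_one_iff.mpr
  have : 0 ≤ π * r * z.im := by positivity
  linarith

theorem Ee_bound : ∃ C : ℝ, 0 < C ∧ ∀ r : ℝ, 0 ≤ r → ∀ t : ℝ,
    ‖Ee r t‖ ≤ C * (1 + |t|) ^ (1 / 4 : ℝ) := by
  obtain ⟨C, hC⟩ := theta_arc
  refine ⟨2 * |C| + 1, by positivity, fun r hr t => ?_⟩
  have hpos : 0 ≤ (1 + |t|) ^ (1 / 4 : ℝ) := by positivity
  by_cases h : ∃ z ∈ Ar, Yf z = I * t
  · obtain ⟨z, hz, hzt⟩ := h
    rw [Ee_arc r hz t hzt]
    have hz' := neg_inv_mem_Ar hz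
    have hY : ‖Yf z‖ = |t| := by rw [hzt]; simp
    have hY' : ‖Yf (-1 / z)‖ = |t| := by rw [Yf_S hz.2, norm_neg, hY]
    have h1 : ‖phf r z‖ ≤ |C| * (1 + |t|) ^ (1 / 4 : ℝ) := by
      refine (norm_phf_le hr hz.2).trans ((hC z hz).trans ?_)
      rw [hY]
      have := le_abs_self C
      gcongr
    have h2 : ‖phf r (-1 / z)‖ ≤ |C| * (1 + |t|) ^ (1 / 4 : ℝ) := by
      refine (norm_phf_le hr hz'.2).trans ((hC _ hz').trans ?_)
      rw [hY']
      have := le_abs_self C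
      gcongr
    calc ‖phf r z + phf r (-1 / z)‖ ≤ ‖phf r z‖ + ‖phf r (-1 / z)‖ := norm_add_le _ _
      _ ≤ (2 * |C| + 1) * (1 + |t|) ^ (1 / 4 : ℝ) := by nlinarith
  · rw [Ee, dif_neg h, norm_zero]
    positivity

end RV11
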