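import Pool.Agent.LibRV11.Defs
import Pool.Agent.LibRV11.F100
open Complex Real MeasureTheory
open UpperHalfPlane hiding I
open scoped MatrixGroups ComplexConjugate

namespace RV11

/-! ### F115: bound for the Cauchy integral -/

theorem normSq_add (t : ℝ) (s : ℂ) :
    ‖(t : ℂ) ^ 2 + s ^ 2‖ ^ 2 = (t ^ 2 - ‖s‖ ^ 2) ^ 2 + 4 * t ^ 2 * s.re ^ 2 := by
  have h1 : ‖s‖ ^ 2 = s.re ^ 2 + s.im ^ 2 := by
    rw [← Complex.normSq_eq_norm_sq, Complex.normSq_apply]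
    ring
  have hre : ((t : ℂ) ^ 2 + s ^ 2).re = t ^ 2 + s.re ^ 2 - s.im ^ 2 := by
    simp [pow_two, Complex.mul_re]
    ring
  have him : ((t : ℂ) ^ 2 + s ^ 2).im = 2 * s.re * s.im := by
    simp [pow_two, Complex.mul_im]
    ring
  rw [h1, ← Complex.normSq_eq_norm_sq, Complex.normSq_apply, hre, him]
  ring

private theorem f115_inv {N X Y : ℝ} (hX : 0 < X) (hY : 0 < Y) (hXN : X ≤ N) (hYN : Y ≤ N) :
    N⁻¹ ≤ X ^ (-(3 / 4) : ℝ) * Y ^ (-(1 / 4) : ℝ) := by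
  have hN : 0 < N := lt_of_lt_of_le hX hXN
  have h1 : N⁻¹ = N ^ (-(3 / 4) : ℝ) * N ^ (-(1 / 4) : ℝ) := by
    rw [← Real.rpow_add hN, ← Real.rpow_neg_one]
    norm_num
  rw [h1]
  apply mul_le_mul
  · exact Real.rpow_le_rpow_of_nonpos hX hXN (by norm_num)
  · exact Real.rpow_le_rpow_of_nonpos hY hYN (by norm_num)
  · positivity
  · positivity

/-- `|x|^r` is integrable on `[-M, M]` -/
private theorem f115_abs {r : ℝ} (hr : -1 < r) (M : ℝ) (hM : 0 ≤ M) :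
    IntervalIntegrable (fun x : ℝ => |x| ^ r) volume (-M) M := by
  have h0 : IntervalIntegrable (fun x : ℝ => |x| ^ r) volume 0 M := by
    refine (intervalIntegral.intervalIntegrable_rpow' (a := 0) (b := M) hr).congr ?_
    intro x hx
    rw [Set.uIoc_of_le hM] at hx
    show x ^ r = |x| ^ r
    rw [abs_of_pos hx.1]
  have h1 := (IntervalIntegrable.iff_comp_neg (f := fun x : ℝ => |x| ^ r) (a := 0) (b := M)
    (by simp)).mp h0
  simp only [abs_neg, neg_zero] at h1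
  exact h1.symm.trans h0

private theorem f115_indicator {f : ℝ → ℝ} {M : ℝ} (hM : 0 ≤ M)
    (h : IntervalIntegrable f volume (-M) M) :
    Integrable ((Set.Ioc (-M) M).indicator f) := by
  rw [integrable_indicator_iff measurableSet_Ioc]
  exact (intervalIntegrable_iff_integrableOn_Ioc_of_le (by linarith)).mp h

private noncomputable def f115_g (x : ℝ) : ℝ :=
  (1 + |x|) ^ (1 / 4 : ℝ) * |x ^ 2 - 1| ^ (-(3 / 4) : ℝ) * |x| ^ (-(1 / 4) : ℝ)

private theorem f115_g_eq (x : ℝ) :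
    f115_g x = (1 + |x|) ^ (-(1 / 2) : ℝ) * abs (|x| - 1) ^ (-(3 / 4) : ℝ) * |x| ^ (-(1 / 4) : ℝ) := by
  have h0 : 0 < 1 + |x| := by positivity
  have h1 : |x ^ 2 - 1| = abs (|x| - 1) * (1 + |x|) := by
    have : x ^ 2 - 1 = (|x| - 1) * (1 + |x|) := by
      rw [← sq_abs x]; ring
    rw [this, abs_mul, abs_of_pos h0]
  unfold f115_g
  rw [h1, Real.mul_rpow (abs_nonneg _) h0.le]
  have h2 : (1 + |x|) ^ (1 / 4 : ℝ) * (1 + |x|) ^ (-(3 / 4) : ℝ) = (1 + |x|) ^ (-(1 / 2) : ℝ) := by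
    rw [← Real.rpow_add h0]
    norm_num
  rw [← h2]
  ring

private theorem f115_g_nonneg (x : ℝ) : 0 ≤ f115_g x := by
  unfold f115_g
  positivity

private theorem f115_half {e : ℝ} (he0 : 0 ≤ e) (he1 : e ≤ 1) {y : ℝ} (hy : 1 / 2 ≤ y) :
    y ^ (-e) ≤ 2 := by
  calc y ^ (-e) ≤ (1 / 2 : ℝ) ^ (-e) :=
        Real.rpow_le_rpow_of_nonpos (by norm_num) hy (by linarith)
    _ = 2 ^ e := by
        rw [one_div, Real.inv_rpow (by norm_num), Real.rpow_neg (by norm_num), inv_inv]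
    _ ≤ 2 ^ (1 : ℝ) := Real.rpow_le_rpow_of_exponent_le (by norm_num) he1
    _ = 2 := Real.rpow_one 2

private noncomputable def f115_G (x : ℝ) : ℝ :=
  2 * (Set.Ioc (-1 : ℝ) 1).indicator (fun x : ℝ => |x| ^ (-(1 / 4) : ℝ)) x +
  2 * (Set.Ioc (-3 : ℝ) 3).indicator (fun x : ℝ => |x - 1| ^ (-(3 / 4) : ℝ)) x +
  2 * (Set.Ioc (-3 : ℝ) 3).indicator (fun x : ℝ => |x + 1| ^ (-(3 / 4) : ℝ)) x +
  3 * (1 + ‖x‖) ^ (-(3 / 2 : ℝ))

private theorem f115_le (x : ℝ) : f115_g x ≤ f115_G x := by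
  have hi1 : 0 ≤ (Set.Ioc (-1 : ℝ) 1).indicator (fun x : ℝ => |x| ^ (-(1 / 4) : ℝ)) x :=
    Set.indicator_nonneg (fun x _ => by positivity) x
  have hi2 : 0 ≤ (Set.Ioc (-3 : ℝ) 3).indicator (fun x : ℝ => |x - 1| ^ (-(3 / 4) : ℝ)) x :=
    Set.indicator_nonneg (fun x _ => by positivity) x
  have hi3 : 0 ≤ (Set.Ioc (-3 : ℝ) 3).indicator (fun x : ℝ => |x + 1| ^ (-(3 / 4) : ℝ)) x :=
    Set.indicator_nonneg (fun x _ => by positivity) x
  have hi4 : 0 ≤ (1 + ‖x‖) ^ (-(3 / 2 : ℝ)) := by positivity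
  have h0 : 0 < 1 + |x| := by positivity
  have h1 : (1 + |x|) ^ (-(1 / 2) : ℝ) ≤ 1 :=
    Real.rpow_le_one_of_one_le_of_nonpos (by linarith [abs_nonneg x]) (by norm_num)
  have hp1 : 0 ≤ (1 + |x|) ^ (-(1 / 2) : ℝ) := by positivity
  have hp2 : 0 ≤ abs (|x| - 1) ^ (-(3 / 4) : ℝ) := by positivity
  have hp3 : 0 ≤ |x| ^ (-(1 / 4) : ℝ) := by positivity
  rw [f115_g_eq]
  unfold f115_G
  rcases le_or_gt |x| (1 / 2) with hx | hx
  · have h2 : abs (|x| - 1) ^ (-(3 / 4) : ℝ) ≤ 2 := by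
      apply f115_half (by norm_num) (by norm_num)
      rw [abs_sub_comm, abs_of_nonneg (by linarith)]
      linarith
    have hmem : x ∈ Set.Ioc (-1 : ℝ) 1 := by
      obtain ⟨h3, h4⟩ := abs_le.mp hx
      constructor <;> linarith
    rw [Set.indicator_of_mem hmem]
    have h5 : (1 + |x|) ^ (-(1 / 2) : ℝ) * abs (|x| - 1) ^ (-(3 / 4) : ℝ) ≤ 1 * 2 :=
      mul_le_mul h1 h2 hp2 zero_le_one
    have h6 := mul_le_mul_of_nonneg_right h5 hp3
    linarith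
  · rcases le_or_gt |x| 2 with hx2 | hx2
    · have h2 : |x| ^ (-(1 / 4) : ℝ) ≤ 2 := f115_half (by norm_num) (by norm_num) hx.le
      have hmem : x ∈ Set.Ioc (-3 : ℝ) 3 := by
        obtain ⟨h3, h4⟩ := abs_le.mp hx2
        constructor <;> linarith
      rw [Set.indicator_of_mem hmem, Set.indicator_of_mem hmem]
      have h5 : abs (|x| - 1) ^ (-(3 / 4) : ℝ) ≤
          |x - 1| ^ (-(3 / 4) : ℝ) + |x + 1| ^ (-(3 / 4) : ℝ) := by
        have h7 : 0 ≤ |x - 1| ^ (-(3 / 4) : ℝ) := by positivity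
        have h8 : 0 ≤ |x + 1| ^ (-(3 / 4) : ℝ) := by positivity
        rcases le_or_gt 0 x with h6 | h6
        · rw [abs_of_nonneg h6]
          linarith
        · have : abs (|x| - 1) = |x + 1| := by
            rw [abs_of_neg h6, show -x - 1 = -(x + 1) by ring, abs_neg]
          rw [this]
          linarith
      have h6 : (1 + |x|) ^ (-(1 / 2) : ℝ) * abs (|x| - 1) ^ (-(3 / 4) : ℝ) ≤
          1 * abs (|x| - 1) ^ (-(3 / 4) : ℝ) := mul_le_mul_of_nonneg_right h1 hp2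
      have h9 : (1 + |x|) ^ (-(1 / 2) : ℝ) * abs (|x| - 1) ^ (-(3 / 4) : ℝ) * |x| ^ (-(1 / 4) : ℝ) ≤
          abs (|x| - 1) ^ (-(3 / 4) : ℝ) * 2 := by
        rw [one_mul] at h6
        exact mul_le_mul h6 h2 hp3 hp2
      linarith
    · have h2 : (1 + |x|) / 3 ≤ abs (|x| - 1) := by
        rw [abs_of_nonneg (show 0 ≤ |x| - 1 by linarith)]
        linarith
      have h3 : (1 + |x|) / 3 ≤ |x| := by linarith
      have h4 : 0 < (1 + |x|) / 3 := by positivity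
      have h5 : abs (|x| - 1) ^ (-(3 / 4) : ℝ) * |x| ^ (-(1 / 4) : ℝ) ≤ 3 * (1 + |x|) ^ (-1 : ℝ) := by
        calc abs (|x| - 1) ^ (-(3 / 4) : ℝ) * |x| ^ (-(1 / 4) : ℝ) ≤
            ((1 + |x|) / 3) ^ (-(3 / 4) : ℝ) * ((1 + |x|) / 3) ^ (-(1 / 4) : ℝ) := by
              apply mul_le_mul
              · exact Real.rpow_le_rpow_of_nonpos h4 h2 (by norm_num)
              · exact Real.rpow_le_rpow_of_nonpos h4 h3 (by norm_num)
              · positivity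
              · positivity
          _ = ((1 + |x|) / 3) ^ (-1 : ℝ) := by
              rw [← Real.rpow_add h4]
              norm_num
          _ = 3 * (1 + |x|) ^ (-1 : ℝ) := by
              rw [Real.rpow_neg_one, Real.rpow_neg_one, inv_div]
              ring
      have h6 : (1 + |x|) ^ (-(1 / 2) : ℝ) * (3 * (1 + |x|) ^ (-1 : ℝ)) =
          3 * (1 + ‖x‖) ^ (-(3 / 2 : ℝ)) := by
        have : (1 + |x|) ^ (-(1 / 2) : ℝ) * (1 + |x|) ^ (-1 : ℝ) = (1 + |x|) ^ (-(3 / 2) : ℝ) := by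
          rw [← Real.rpow_add h0]
          norm_num
        rw [mul_left_comm, this]
        rfl
      have h7 := mul_le_mul_of_nonneg_left h5 hp1
      rw [h6, ← mul_assoc] at h7
      linarith

private theorem f115_integrable : Integrable f115_g := by
  have hG : Integrable f115_G := by
    unfold f115_G
    refine ((Integrable.add ?_ ?_).add ?_).add ?_
    · exact (f115_indicator zero_le_one (f115_abs (by norm_num) 1 zero_le_one)).const_mul 2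
    · refine (f115_indicator (by norm_num) ?_).const_mul 2
      have h1 := (f115_abs (r := -(3 / 4)) (by norm_num) 4 (by norm_num)).comp_sub_right 1
      exact h1.mono_set (by
        rw [Set.uIcc_of_le (by norm_num), Set.uIcc_of_le (by norm_num)]
        exact Set.Icc_subset_Icc (by norm_num) (by norm_num))
    · refine (f115_indicator (by norm_num) ?_).const_mul 2
      have h1 := (f115_abs (r := -(3 / 4)) (by norm_num) 4 (by norm_num)).comp_add_right 1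
      exact h1.mono_set (by
        rw [Set.uIcc_of_le (by norm_num), Set.uIcc_of_le (by norm_num)]
        exact Set.Icc_subset_Icc (by norm_num) (by norm_num))
    · apply Integrable.const_mul
      apply integrable_one_add_norm
      simp
      norm_num
  have hm : Measurable f115_g := by
    unfold f115_g
    fun_prop
  refine hG.mono' hm.aestronglyMeasurable (Filter.Eventually.of_forall fun x => ?_)
  rw [Real.norm_of_nonneg (f115_g_nonneg x)]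
  exact f115_le x

theorem CC_bound : ∃ C : ℝ, 0 < C ∧ ∀ (E : ℝ → ℂ) (A : ℝ),
    (∀ t, ‖E t‖ ≤ A * (1 + |t|) ^ (1 / 4 : ℝ)) → ∀ s : ℂ, 0 < s.re →
    ‖CC E s‖ ≤ C * A * (1 + ‖s‖) ^ (1 / 4 : ℝ) * (‖s‖ / s.re) ^ (1 / 4 : ℝ) := by
  have hg0 : 0 ≤ ∫ x, f115_g x := integral_nonneg f115_g_nonneg
  refine ⟨1 / (2 * π) * (∫ x, f115_g x) + 1, by positivity, fun E A hA s hs => ?_⟩
  have hA0 : 0 ≤ A := by
    have := (norm_nonneg _).trans (hA 0)
    exact nonneg_of_mul_nonneg_left this (by positivity)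
  have hρ : 0 < ‖s‖ := by
    rw [norm_pos_iff]
    rintro rfl
    simp at hs
  obtain ⟨ρ, hρd⟩ : ∃ ρ, ρ = ‖s‖ := ⟨_, rfl⟩
  obtain ⟨σ, hσd⟩ : ∃ σ, σ = s.re := ⟨_, rfl⟩
  rw [← hρd] at hρ ⊢
  rw [← hσd] at hs ⊢
  set D : ℝ := A * (1 + ρ) ^ (1 / 4 : ℝ) * (ρ / σ) ^ (1 / 4 : ℝ) with hD
  have hD0 : 0 ≤ D := by positivity
  have hbound : ∀ᵐ t : ℝ, ‖E t * (s / ((t : ℂ) ^ 2 + s ^ 2))‖ ≤ D * ρ⁻¹ * f115_g (t / ρ) := by
    have hae : ∀ᵐ t : ℝ, t ∉ ({0, ρ, -ρ} : Set ℝ) :=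
      (Set.toFinite _).countable.ae_notMem _
    filter_upwards [hae] with t ht
    simp only [Set.mem_insert_iff, Set.mem_singleton_iff, not_or] at ht
    obtain ⟨ht0, ht1, ht2⟩ := ht
    obtain ⟨x, hx⟩ : ∃ x, x = t / ρ := ⟨_, rfl⟩
    have htx : t = ρ * x := by rw [hx]; field_simp
    have hx0 : 0 < |x| := by
      rw [abs_pos, hx]
      exact div_ne_zero ht0 hρ.ne'
    have hX0 : 0 < |x ^ 2 - 1| := by
      rw [abs_pos]
      intro h
      have h1 : (x - 1) * (x + 1) = 0 := by linear_combination h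
      rcases mul_eq_zero.mp h1 with h2 | h2
      · apply ht1
        rw [htx, show x = 1 by linarith, mul_one]
      · apply ht2
        rw [htx, show x = -1 by linarith]
        ring
    have hnorm := normSq_add t s
    rw [← hρd, ← hσd] at hnorm
    have hN0 := norm_nonneg ((t : ℂ) ^ 2 + s ^ 2)
    set N := ‖(t : ℂ) ^ 2 + s ^ 2‖ with hN
    have hXN : ρ ^ 2 * |x ^ 2 - 1| ≤ N := by
      have h1 : ρ ^ 2 * |x ^ 2 - 1| = |t ^ 2 - ρ ^ 2| := by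
        rw [htx, ← abs_of_pos (show 0 < ρ ^ 2 by positivity), ← abs_mul,
          abs_of_pos (show 0 < ρ ^ 2 by positivity)]
        congr 1
        ring
      rw [h1]
      apply abs_le_of_sq_le_sq _ hN0
      rw [hnorm]
      nlinarith [mul_nonneg (sq_nonneg t) (sq_nonneg σ)]
    have hYN : 2 * ρ * σ * |x| ≤ N := by
      have h1 : 2 * ρ * σ * |x| = |2 * t * σ| := by
        rw [htx, abs_mul, abs_mul, abs_mul, abs_of_pos hs, abs_of_pos hρ, abs_two]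
        ring
      rw [h1]
      apply abs_le_of_sq_le_sq _ hN0
      rw [hnorm]
      nlinarith [sq_nonneg (t ^ 2 - ρ ^ 2)]
    have hinv := f115_inv (by positivity) (by positivity) hXN hYN
    rw [norm_mul, norm_div, ← hN, ← hρd, div_eq_mul_inv]
    have h1 : (1 + |t|) ^ (1 / 4 : ℝ) ≤ (1 + ρ) ^ (1 / 4 : ℝ) * (1 + |x|) ^ (1 / 4 : ℝ) := by
      rw [← Real.mul_rpow (by positivity) (by positivity)]
      apply Real.rpow_le_rpow (by positivity) _ (by norm_num)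
      rw [htx, abs_mul, abs_of_pos hρ]
      nlinarith
    have h2 : (ρ ^ 2 * |x ^ 2 - 1|) ^ (-(3 / 4) : ℝ) * (2 * ρ * σ * |x|) ^ (-(1 / 4) : ℝ) ≤
        ρ ^ (-(3 / 2) : ℝ) * ρ ^ (-(1 / 4) : ℝ) * σ ^ (-(1 / 4) : ℝ) *
          (|x ^ 2 - 1| ^ (-(3 / 4) : ℝ) * |x| ^ (-(1 / 4) : ℝ)) := by
      have e1 : (ρ ^ 2 * |x ^ 2 - 1|) ^ (-(3 / 4) : ℝ) =
          ρ ^ (-(3 / 2) : ℝ) * |x ^ 2 - 1| ^ (-(3 / 4) : ℝ) := by
        rw [Real.mul_rpow (by positivity) (by positivity), ← Real.rpow_natCast ρ 2,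
          ← Real.rpow_mul hρ.le]
        norm_num
      have e2 : (2 * ρ * σ * |x|) ^ (-(1 / 4) : ℝ) =
          2 ^ (-(1 / 4) : ℝ) * ρ ^ (-(1 / 4) : ℝ) * σ ^ (-(1 / 4) : ℝ) * |x| ^ (-(1 / 4) : ℝ) := by
        rw [Real.mul_rpow (by positivity) (by positivity),
          Real.mul_rpow (by positivity) (by positivity),
          Real.mul_rpow (by positivity) (by positivity)]
      have e3 : (2 : ℝ) ^ (-(1 / 4) : ℝ) ≤ 1 :=
        Real.rpow_le_one_of_one_le_of_nonpos (by norm_num) (by norm_num)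
      rw [e1, e2]
      have e4 : 0 ≤ ρ ^ (-(3 / 2) : ℝ) * ρ ^ (-(1 / 4) : ℝ) * σ ^ (-(1 / 4) : ℝ) *
          (|x ^ 2 - 1| ^ (-(3 / 4) : ℝ) * |x| ^ (-(1 / 4) : ℝ)) := by positivity
      calc _ = 2 ^ (-(1 / 4) : ℝ) * (ρ ^ (-(3 / 2) : ℝ) * ρ ^ (-(1 / 4) : ℝ) *
            σ ^ (-(1 / 4) : ℝ) * (|x ^ 2 - 1| ^ (-(3 / 4) : ℝ) * |x| ^ (-(1 / 4) : ℝ))) := by ring
        _ ≤ 1 * _ := mul_le_mul_of_nonneg_right e3 e4
        _ = _ := one_mul _
    have h3 : ρ * (ρ ^ (-(3 / 2) : ℝ) * ρ ^ (-(1 / 4) : ℝ) * σ ^ (-(1 / 4) : ℝ)) =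
        (ρ / σ) ^ (1 / 4 : ℝ) * ρ⁻¹ := by
      have e0 : (ρ / σ) ^ (1 / 4 : ℝ) = ρ ^ (1 / 4 : ℝ) * σ ^ (-(1 / 4) : ℝ) := by
        rw [Real.div_rpow hρ.le hs.le, Real.rpow_neg hs.le, ← div_eq_mul_inv]
      rw [e0, ← Real.rpow_neg_one ρ]
      have e1 : ρ * (ρ ^ (-(3 / 2) : ℝ) * ρ ^ (-(1 / 4) : ℝ) * σ ^ (-(1 / 4) : ℝ)) =
          ρ ^ (1 : ℝ) * ρ ^ (-(3 / 2) : ℝ) * ρ ^ (-(1 / 4) : ℝ) * σ ^ (-(1 / 4) : ℝ) := by
        rw [Real.rpow_one]
        ring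
      rw [e1, ← Real.rpow_add hρ, ← Real.rpow_add hρ]
      have e2 : ρ ^ (1 / 4 : ℝ) * σ ^ (-(1 / 4) : ℝ) * ρ ^ (-1 : ℝ) =
          ρ ^ (1 / 4 : ℝ) * ρ ^ (-1 : ℝ) * σ ^ (-(1 / 4) : ℝ) := by ring
      rw [e2, ← Real.rpow_add hρ]
      norm_num
    rw [← hx]
    calc ‖E t‖ * (ρ * N⁻¹) ≤ (A * ((1 + ρ) ^ (1 / 4 : ℝ) * (1 + |x|) ^ (1 / 4 : ℝ))) *
          (ρ * (ρ ^ (-(3 / 2) : ℝ) * ρ ^ (-(1 / 4) : ℝ) * σ ^ (-(1 / 4) : ℝ) *
          (|x ^ 2 - 1| ^ (-(3 / 4) : ℝ) * |x| ^ (-(1 / 4) : ℝ)))) := by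
          apply mul_le_mul
          · exact (hA t).trans (mul_le_mul_of_nonneg_left h1 hA0)
          · exact mul_le_mul_of_nonneg_left (hinv.trans h2) hρ.le
          · positivity
          · positivity
      _ = (A * (1 + ρ) ^ (1 / 4 : ℝ)) * (ρ * (ρ ^ (-(3 / 2) : ℝ) * ρ ^ (-(1 / 4) : ℝ) *
            σ ^ (-(1 / 4) : ℝ))) * ((1 + |x|) ^ (1 / 4 : ℝ) * |x ^ 2 - 1| ^ (-(3 / 4) : ℝ) *
            |x| ^ (-(1 / 4) : ℝ)) := by ring
      _ = D * ρ⁻¹ * f115_g x := by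
          rw [h3, hD]
          unfold f115_g
          ring
  have hgint : Integrable fun t : ℝ => D * ρ⁻¹ * f115_g (t / ρ) :=
    (f115_integrable.comp_div hρ.ne').const_mul _
  have h4 := norm_integral_le_of_norm_le hgint hbound
  rw [integral_const_mul, Measure.integral_comp_div, abs_of_pos hρ, smul_eq_mul] at h4
  unfold CC
  rw [norm_mul]
  have h5 : ‖(1 : ℂ) / (2 * π)‖ = 1 / (2 * π) := by
    rw [norm_div, norm_one, norm_mul, Complex.norm_two, Complex.norm_real,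
      Real.norm_of_nonneg Real.pi_pos.le]
  rw [h5]
  have h6 : D * ρ⁻¹ * (ρ * ∫ x, f115_g x) = D * ∫ x, f115_g x := by
    field_simp
  rw [h6] at h4
  calc 1 / (2 * π) * ‖∫ t : ℝ, E t * (s / ((t : ℂ) ^ 2 + s ^ 2))‖ ≤
        1 / (2 * π) * (D * ∫ x, f115_g x) := mul_le_mul_of_nonneg_left h4 (by positivity)
    _ ≤ 1 / (2 * π) * (D * ∫ x, f115_g x) + D := by linarith
    _ = (1 / (2 * π) * (∫ x, f115_g x) + 1) * A * (1 + ρ) ^ (1 / 4 : ℝ) *
        (ρ / σ) ^ (1 / 4 : ℝ) := by rw [hD]; ring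

end RV11
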