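import Pool.Agent.LibRV11.Defs
import Pool.Agent.LibRV11.F100
open Complex Real MeasureTheory
open UpperHalfPlane hiding I
open scoped MatrixGroups ComplexConjugate

namespace RV11

/-! ### F116: holomorphy of the Cauchy integral -/

theorem CC_neg (E : ℝ → ℂ) (s : ℂ) : CC E (-s) = -CC E s := by
  unfold CC
  rw [← mul_neg, ← integral_neg]
  congr 2
  funext t
  rw [neg_sq, neg_div, mul_neg]

/-- holomorphic dependence on a parameter -/
theorem diff_integral (U : Set ℂ) (hU : IsOpen U) (K : ℂ → ℝ → ℂ) (E : ℝ → ℂ) (hE : Measurable E)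
    (hK : ∀ t, E t ≠ 0 → DifferentiableOn ℂ (fun s => K s t) U)
    (hm : ∀ s ∈ U, Measurable (K s))
    (hb : ∀ s ∈ U, ∃ (ρ : ℝ) (b : ℝ → ℝ), 0 < ρ ∧ Metric.closedBall s ρ ⊆ U ∧ Integrable b ∧
      ∀ s' ∈ Metric.closedBall s ρ, ∀ t, ‖E t * K s' t‖ ≤ b t) :
    DifferentiableOn ℂ (fun s => ∫ t, E t * K s t) U := by
  intro s hs
  obtain ⟨ρ, b, hρ, hball, hbint, hbb⟩ := hb s hs
  apply DifferentiableAt.differentiableWithinAt
  -- differentiability of the integrand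
  have hFd : ∀ t, DifferentiableOn ℂ (fun s => E t * K s t) U := by
    intro t
    by_cases h0 : E t = 0
    · simp only [h0, zero_mul]
      exact differentiableOn_const _
    · exact (hK t h0).const_mul _
  have hFda : ∀ t, ∀ x ∈ U, HasDerivAt (fun s => E t * K s t)
      (deriv (fun s => E t * K s t) x) x := fun t x hx =>
    ((hFd t).differentiableAt (hU.mem_nhds hx)).hasDerivAt
  have hsub : Metric.ball s (ρ / 2) ⊆ U := fun x hx => hball (by
    rw [Metric.mem_closedBall]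
    rw [Metric.mem_ball] at hx
    linarith)
  have hmeas : ∀ x ∈ U, Measurable (fun t => E t * K x t) := fun x hx => hE.mul (hm x hx)
  -- measurability of the derivative
  have hF'meas : Measurable (fun t => deriv (fun s => E t * K s t) s) := by
    have hδpos : ∀ n : ℕ, 0 < ρ / ((n : ℝ) + 1) := fun n => by positivity
    have hδU : ∀ n : ℕ, s + ((ρ / ((n : ℝ) + 1) : ℝ) : ℂ) ∈ U := by
      intro n
      apply hball
      rw [Metric.mem_closedBall, dist_eq_norm, add_sub_cancel_left, Complex.norm_real,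
        Real.norm_of_nonneg (hδpos n).le]
      exact div_le_self hρ.le (by linarith [(Nat.cast_nonneg n : (0 : ℝ) ≤ n)])
    have hδ0 : Filter.Tendsto (fun n : ℕ => ((ρ / ((n : ℝ) + 1) : ℝ) : ℂ)) Filter.atTop
        (nhdsWithin 0 {0}ᶜ) := by
      apply tendsto_nhdsWithin_iff.mpr ⟨?_, ?_⟩
      · have h1 : Filter.Tendsto (fun n : ℕ => ρ / ((n : ℝ) + 1)) Filter.atTop (nhds 0) := by
          have := (tendsto_one_div_add_atTop_nhds_zero_nat (𝕜 := ℝ)).const_mul ρ
          rw [mul_zero] at this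
          refine this.congr fun n => ?_
          rw [mul_one_div]
        have h2 := (Complex.continuous_ofReal.tendsto (0 : ℝ)).comp h1
        rw [Complex.ofReal_zero] at h2
        exact h2
      · refine Filter.Eventually.of_forall fun n => ?_
        simp only [Set.mem_compl_iff, Set.mem_singleton_iff]
        exact_mod_cast (hδpos n).ne'
    refine measurable_of_tendsto_metrizable (f := fun (n : ℕ) t =>
      (((ρ / ((n : ℝ) + 1) : ℝ) : ℂ))⁻¹ •
        (E t * K (s + ((ρ / ((n : ℝ) + 1) : ℝ) : ℂ)) t - E t * K s t)) ?_ ?_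
    · intro n
      exact (measurable_const (a := (((ρ / ((n : ℝ) + 1) : ℝ) : ℂ))⁻¹)).mul
        ((hmeas _ (hδU n)).sub (hmeas s hs))
    · rw [tendsto_pi_nhds]
      intro t
      exact (hasDerivAt_iff_tendsto_slope_zero.mp (hFda t s hs)).comp hδ0
  -- Cauchy estimate
  have hcauchy : ∀ t, ∀ x ∈ Metric.ball s (ρ / 2),
      ‖deriv (fun s => E t * K s t) x‖ ≤ b t / (ρ / 2) := by
    intro t x hx
    have hsubx : Metric.closedBall x (ρ / 2) ⊆ Metric.closedBall s ρ := by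
      intro y hy
      rw [Metric.mem_closedBall] at hy ⊢
      rw [Metric.mem_ball] at hx
      have := dist_triangle y x s
      linarith
    apply norm_deriv_le_of_forall_mem_sphere_norm_le (by positivity)
    · apply DifferentiableOn.diffContOnCl
      rw [closure_ball x (by positivity)]
      exact (hFd t).mono (hsubx.trans hball)
    · intro z hz
      exact hbb z (hsubx (Metric.sphere_subset_closedBall hz)) t
  have hmain := hasDerivAt_integral_of_dominated_loc_of_deriv_le (μ := volume)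
    (F := fun s t => E t * K s t) (F' := fun x t => deriv (fun s => E t * K s t) x)
    (s := Metric.ball s (ρ / 2)) (x₀ := s) (bound := fun t => b t / (ρ / 2))
    (Metric.ball_mem_nhds s (by positivity))
    (by
      filter_upwards [hU.mem_nhds hs] with x hx
      exact (hmeas x hx).aestronglyMeasurable)
    (by
      refine Integrable.mono' hbint (hmeas s hs).aestronglyMeasurable ?_
      exact Filter.Eventually.of_forall fun t => hbb s (Metric.mem_closedBall_self hρ.le) t)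
    hF'meas.aestronglyMeasurable
    (Filter.Eventually.of_forall fun t x hx => hcauchy t x hx)
    (hbint.div_const _)
    (Filter.Eventually.of_forall fun t x hx => hFda t x (hsub hx))
  exact hmain.2.differentiableAt

/-- pointwise bound of the kernel -/
theorem f116_bound {E : ℝ → ℂ} {A : ℝ} (hA : ∀ t, ‖E t‖ ≤ A * (1 + |t|) ^ (1 / 4 : ℝ))
    {t : ℝ} {s : ℂ} {B C : ℝ} (hB : ‖s‖ ≤ B) (hC : 1 + t ^ 2 ≤ C * ‖(t : ℂ) ^ 2 + s ^ 2‖) :
    ‖E t * (s / ((t : ℂ) ^ 2 + s ^ 2))‖ ≤ 2 * A * B * C * (1 + ‖t‖) ^ (-(7 / 4 : ℝ)) := by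
  have hN : 0 < C * ‖(t : ℂ) ^ 2 + s ^ 2‖ := lt_of_lt_of_le (by positivity) hC
  have hn0 : 0 < ‖(t : ℂ) ^ 2 + s ^ 2‖ := by
    rcases (norm_nonneg ((t : ℂ) ^ 2 + s ^ 2)).lt_or_eq with h | h
    · exact h
    · rw [← h, mul_zero] at hN
      exact absurd hN (lt_irrefl _)
  have hC0 : 0 < C := pos_of_mul_pos_left hN hn0.le
  have hB0 : 0 ≤ B := (norm_nonneg s).trans hB
  have h1t : 0 < 1 + |t| := by positivity
  have hA0 : 0 ≤ A := by
    have := (norm_nonneg _).trans (hA t)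
    exact nonneg_of_mul_nonneg_left this (by positivity)
  rw [norm_mul, norm_div, Real.norm_eq_abs]
  have h1 : 1 / ‖(t : ℂ) ^ 2 + s ^ 2‖ ≤ C / (1 + t ^ 2) := by
    rw [div_le_div_iff₀ hn0 (by positivity)]
    linarith
  have h2 : (1 + |t|) ^ (1 / 4 : ℝ) / (1 + t ^ 2) ≤ 2 * (1 + |t|) ^ (-(7 / 4 : ℝ)) := by
    have h3 : (1 + |t|) ^ (1 / 4 : ℝ) = (1 + |t|) ^ (-(7 / 4 : ℝ)) * (1 + |t|) ^ 2 := by
      rw [← Real.rpow_natCast, ← Real.rpow_add h1t]
      norm_num
    have h4 : (1 + |t|) ^ 2 ≤ 2 * (1 + t ^ 2) := by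
      rw [← sq_abs t]
      nlinarith [sq_nonneg (1 - |t|)]
    rw [div_le_iff₀ (by positivity), h3]
    have h5 : 0 ≤ (1 + |t|) ^ (-(7 / 4 : ℝ)) := by positivity
    calc (1 + |t|) ^ (-(7 / 4 : ℝ)) * (1 + |t|) ^ 2 ≤
        (1 + |t|) ^ (-(7 / 4 : ℝ)) * (2 * (1 + t ^ 2)) := mul_le_mul_of_nonneg_left h4 h5
      _ = _ := by ring
  calc ‖E t‖ * (‖s‖ / ‖(t : ℂ) ^ 2 + s ^ 2‖) = ‖E t‖ * (‖s‖ * (1 / ‖(t : ℂ) ^ 2 + s ^ 2‖)) := by
        rw [mul_one_div]
    _ ≤ (A * (1 + |t|) ^ (1 / 4 : ℝ)) * (B * (C / (1 + t ^ 2))) := by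
        apply mul_le_mul (hA t) _ (by positivity) (by positivity)
        exact mul_le_mul hB h1 (by positivity) hB0
    _ = A * B * C * ((1 + |t|) ^ (1 / 4 : ℝ) / (1 + t ^ 2)) := by ring
    _ ≤ A * B * C * (2 * (1 + |t|) ^ (-(7 / 4 : ℝ))) :=
        mul_le_mul_of_nonneg_left h2 (by positivity)
    _ = _ := by ring

theorem f116_integrable_bound (D : ℝ) :
    Integrable fun t : ℝ => D * (1 + ‖t‖) ^ (-(7 / 4 : ℝ)) := by
  apply Integrable.const_mul
  apply integrable_one_add_norm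
  simp
  norm_num

/-- lower bound of the denominator for `Re s ≠ 0` -/
theorem f116_low {t : ℝ} {s : ℂ} {σ B : ℝ} (hσ : 0 < σ) (hs : σ ≤ |s.re|) (hB : ‖s‖ ≤ B) :
    1 + t ^ 2 ≤ ((1 + B ^ 2) / σ ^ 2 + 1) * ‖(t : ℂ) ^ 2 + s ^ 2‖ := by
  have hfac : (t : ℂ) ^ 2 + s ^ 2 = ((t : ℂ) - I * s) * ((t : ℂ) + I * s) := by
    have : ((t : ℂ) - I * s) * ((t : ℂ) + I * s) = (t : ℂ) ^ 2 - (I ^ 2) * s ^ 2 := by ring
    rw [this, I_sq]
    ring
  have h1 : σ ≤ ‖(t : ℂ) - I * s‖ := by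
    have h2 := Complex.abs_im_le_norm ((t : ℂ) - I * s)
    have h3 : ((t : ℂ) - I * s).im = -s.re := by simp
    rw [h3, abs_neg] at h2
    exact hs.trans h2
  have h1' : σ ≤ ‖(t : ℂ) + I * s‖ := by
    have h2 := Complex.abs_im_le_norm ((t : ℂ) + I * s)
    have h3 : ((t : ℂ) + I * s).im = s.re := by simp
    rw [h3] at h2
    exact hs.trans h2
  have h4 : σ ^ 2 ≤ ‖(t : ℂ) ^ 2 + s ^ 2‖ := by
    rw [hfac, norm_mul, pow_two]
    exact mul_le_mul h1 h1' hσ.le (norm_nonneg _)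
  have h5 : t ^ 2 - B ^ 2 ≤ ‖(t : ℂ) ^ 2 + s ^ 2‖ := by
    have h6 : ‖(t : ℂ) ^ 2‖ ≤ ‖(t : ℂ) ^ 2 + s ^ 2‖ + ‖s ^ 2‖ := by
      have : (t : ℂ) ^ 2 = ((t : ℂ) ^ 2 + s ^ 2) - s ^ 2 := by ring
      conv_lhs => rw [this]
      exact norm_sub_le _ _
    rw [norm_pow, Complex.norm_real, Real.norm_eq_abs, sq_abs, norm_pow] at h6
    have h7 : ‖s‖ ^ 2 ≤ B ^ 2 := pow_le_pow_left₀ (norm_nonneg _) hB 2
    linarith
  have h8 : 1 + B ^ 2 ≤ (1 + B ^ 2) / σ ^ 2 * ‖(t : ℂ) ^ 2 + s ^ 2‖ := by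
    rw [div_mul_eq_mul_div, le_div_iff₀ (by positivity)]
    exact mul_le_mul_of_nonneg_left h4 (by positivity)
  calc 1 + t ^ 2 = (1 + B ^ 2) + (t ^ 2 - B ^ 2) := by ring
    _ ≤ (1 + B ^ 2) / σ ^ 2 * ‖(t : ℂ) ^ 2 + s ^ 2‖ + ‖(t : ℂ) ^ 2 + s ^ 2‖ := add_le_add h8 h5
    _ = _ := by ring

theorem f116_measurable_kernel (s : ℂ) : Measurable fun t : ℝ => s / ((t : ℂ) ^ 2 + s ^ 2) :=
  measurable_const.div ((Complex.measurable_ofReal.pow_const 2).add_const _)

/-- integrability of the integrand for `Re s ≠ 0` -/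
theorem f116_integrable {E : ℝ → ℂ} (hE : Measurable E) {A : ℝ}
    (hA : ∀ t, ‖E t‖ ≤ A * (1 + |t|) ^ (1 / 4 : ℝ)) {s : ℂ} (hs : s.re ≠ 0) :
    Integrable fun t : ℝ => E t * (s / ((t : ℂ) ^ 2 + s ^ 2)) := by
  refine Integrable.mono' (f116_integrable_bound
    (2 * A * ‖s‖ * ((1 + ‖s‖ ^ 2) / |s.re| ^ 2 + 1)))
    (hE.mul (f116_measurable_kernel s)).aestronglyMeasurable ?_
  exact Filter.Eventually.of_forall fun t =>
    f116_bound hA le_rfl (f116_low (abs_pos.mpr hs) le_rfl le_rfl)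

theorem CC_diff (E : ℝ → ℂ) (hE : Measurable E) (A : ℝ)
    (hA : ∀ t, ‖E t‖ ≤ A * (1 + |t|) ^ (1 / 4 : ℝ)) :
    DifferentiableOn ℂ (CC E) {s | 0 < s.re} := by
  have hne : ∀ (s : ℂ) (t : ℝ), 0 < s.re → (t : ℂ) ^ 2 + s ^ 2 ≠ 0 := by
    intro s t hs h0
    have h1 := f116_low (t := t) (s := s) (B := ‖s‖) hs (le_abs_self _) le_rfl
    rw [h0, norm_zero, mul_zero] at h1
    nlinarith [sq_nonneg t]
  unfold CC
  apply DifferentiableOn.const_mul
  apply diff_integral {s : ℂ | 0 < s.re} (isOpen_lt continuous_const Complex.continuous_re)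
    (fun s t => s / ((t : ℂ) ^ 2 + s ^ 2)) E hE
  · intro t _
    apply DifferentiableOn.div differentiableOn_id (by fun_prop)
    intro s hs
    exact hne s t hs
  · intro s _
    exact f116_measurable_kernel s
  · intro s hs
    have hs' : 0 < s.re := hs
    refine ⟨s.re / 2, _, by positivity, ?_, f116_integrable_bound (2 * A * (‖s‖ + s.re / 2) *
      ((1 + (‖s‖ + s.re / 2) ^ 2) / (s.re / 2) ^ 2 + 1)), ?_⟩
    · intro s1 hs1
      rw [Metric.mem_closedBall, dist_eq_norm] at hs1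
      have h2 := (Complex.abs_re_le_norm (s1 - s)).trans hs1
      rw [Complex.sub_re] at h2
      have h3 := (abs_le.mp h2).1
      show 0 < s1.re
      linarith
    · intro s1 hs1 t
      rw [Metric.mem_closedBall, dist_eq_norm] at hs1
      have h2 := (Complex.abs_re_le_norm (s1 - s)).trans hs1
      rw [Complex.sub_re] at h2
      have h3 := (abs_le.mp h2).1
      have h4 : s.re / 2 ≤ |s1.re| := le_trans (by linarith) (le_abs_self _)
      have h5 : ‖s1‖ ≤ ‖s‖ + s.re / 2 := by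
        have : s1 = s + (s1 - s) := by ring
        rw [this]
        exact (norm_add_le _ _).trans (by linarith)
      exact f116_bound hA h5 (f116_low (by positivity) h4 h5)

end RV11
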