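import Pool.Agent.LibRV11.Defs
import Pool.Agent.LibRV11.F100
import Pool.Agent.LibRV11.F116
open Complex Real MeasureTheory
open UpperHalfPlane hiding I
open scoped MatrixGroups ComplexConjugate

namespace RV11

/-! ### F117: localisation of the Cauchy integral -/

/-- lower bound of the denominator for `|s| ≤ R' < R ≤ |t|` -/
private theorem f117_low {t R R' : ℝ} {s : ℂ} (hR' : 0 ≤ R') (hRR : R' < R) (ht : R ≤ |t|)
    (hs : ‖s‖ ≤ R') :
    1 + t ^ 2 ≤ (1 + R ^ 2) / (R ^ 2 - R' ^ 2) * ‖(t : ℂ) ^ 2 + s ^ 2‖ := by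
  have hD : 0 < R ^ 2 - R' ^ 2 := by nlinarith
  have ht2 : R ^ 2 ≤ t ^ 2 := by
    rw [← sq_abs t]
    exact pow_le_pow_left₀ (by linarith) ht 2
  have h5 : t ^ 2 - R' ^ 2 ≤ ‖(t : ℂ) ^ 2 + s ^ 2‖ := by
    have h6 : ‖(t : ℂ) ^ 2‖ ≤ ‖(t : ℂ) ^ 2 + s ^ 2‖ + ‖s ^ 2‖ := by
      have : (t : ℂ) ^ 2 = ((t : ℂ) ^ 2 + s ^ 2) - s ^ 2 := by ring
      conv_lhs => rw [this]
      exact norm_sub_le _ _
    rw [norm_pow, Complex.norm_real, Real.norm_eq_abs, sq_abs, norm_pow] at h6
    have h7 : ‖s‖ ^ 2 ≤ R' ^ 2 := pow_le_pow_left₀ (norm_nonneg _) hs 2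
    linarith
  have h8 : (1 + t ^ 2) * (R ^ 2 - R' ^ 2) ≤ (1 + R ^ 2) * (t ^ 2 - R' ^ 2) := by
    nlinarith [mul_nonneg (sub_nonneg.mpr ht2) (show (0 : ℝ) ≤ 1 + R' ^ 2 by positivity)]
  rw [div_mul_eq_mul_div, le_div_iff₀ hD]
  exact h8.trans (mul_le_mul_of_nonneg_left h5 (by positivity))

private theorem f117_sub_ne {s : ℂ} (hs : s.re ≠ 0) (t : ℝ) : s - I * t ≠ 0 := by
  intro h
  have := congrArg Complex.re h
  simp at this
  exact hs this

private theorem f117_add_ne {s : ℂ} (hs : s.re ≠ 0) (t : ℝ) : s + I * t ≠ 0 := by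
  intro h
  have := congrArg Complex.re h
  simp at this
  exact hs this

/-- integrability of `E(t)/(s - it)` on the interval -/
private theorem f117_int {E : ℝ → ℂ} (hE : Measurable E) {A : ℝ}
    (hA : ∀ t, ‖E t‖ ≤ A * (1 + |t|) ^ (1 / 4 : ℝ)) (R : ℝ) {s : ℂ} (hs : s.re ≠ 0) (c : ℝ)
    (hc : c = 1 ∨ c = -1) :
    IntervalIntegrable (fun t : ℝ => E t / (s - I * (c * t : ℝ))) volume (-R) R := by
  have hcont : Continuous fun t : ℝ => A * (1 + |t|) ^ (1 / 4 : ℝ) * (1 / |s.re|) := by
    apply Continuous.mul _ continuous_const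
    apply continuous_const.mul
    apply Continuous.rpow_const (by fun_prop)
    intro t
    left
    positivity
  have hmeas : Measurable fun t : ℝ => E t / (s - I * (c * t : ℝ)) := by
    apply hE.div
    apply measurable_const.sub
    apply measurable_const.mul
    exact Complex.measurable_ofReal.comp (measurable_const.mul measurable_id)
  refine (hcont.intervalIntegrable (-R) R).mono_fun' hmeas.aestronglyMeasurable ?_
  refine Filter.Eventually.of_forall fun t => ?_
  show ‖E t / (s - I * (c * t : ℝ))‖ ≤ _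
  rw [norm_div, div_eq_mul_one_div]
  apply mul_le_mul (hA t) _ (by positivity)
  · exact (norm_nonneg _).trans (hA t)
  · apply one_div_le_one_div_of_le (abs_pos.mpr hs)
    have h2 := Complex.abs_re_le_norm (s - I * (c * t : ℝ))
    have h3 : (s - I * (c * t : ℝ)).re = s.re := by simp
    rw [h3] at h2
    exact h2

/-- For `|s| < R` (and `Re s ≠ 0`) the Cauchy integral is the sum of a function holomorphic on the
ball and `1/(2π) ∫_{-R}^{R} E(t)/(s - it) dt`. -/
theorem CC_split (E : ℝ → ℂ) (hE : Measurable E) (hev : ∀ t, E (-t) = E t) (A : ℝ)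
    (hA : ∀ t, ‖E t‖ ≤ A * (1 + |t|) ^ (1 / 4 : ℝ)) (R : ℝ) (hR : 0 < R) :
    ∃ h1 : ℂ → ℂ, DifferentiableOn ℂ h1 (Metric.ball 0 R) ∧
      ∀ s ∈ Metric.ball (0 : ℂ) R, s.re ≠ 0 →
        CC E s = h1 s + 1 / (2 * π) * ∫ t in (-R)..R, E t / (s - I * t) := by
  set S : Set ℝ := Set.Ioc (-R) R with hS
  have hSm : MeasurableSet S := measurableSet_Ioc
  have hSc : ∀ t, t ∈ Sᶜ → R ≤ |t| := by
    intro t ht
    rw [hS, Set.mem_compl_iff, Set.mem_Ioc, not_and_or, not_lt, not_le] at ht
    rcases ht with ht | ht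
    · rw [le_abs]; right; linarith
    · exact ht.le.trans (le_abs_self _)
  have hne : ∀ (s : ℂ) (t : ℝ), ‖s‖ < R → R ≤ |t| → (t : ℂ) ^ 2 + s ^ 2 ≠ 0 := by
    intro s t hs ht h0
    have h1 := f117_low (norm_nonneg s) hs ht le_rfl
    rw [h0, norm_zero, mul_zero] at h1
    nlinarith [sq_nonneg t]
  have hE' : Measurable (Sᶜ.indicator E) := hE.indicator hSm.compl
  have hA' : ∀ t, ‖Sᶜ.indicator E t‖ ≤ A * (1 + |t|) ^ (1 / 4 : ℝ) := fun t =>
    (norm_indicator_le_norm_self E t).trans (hA t)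
  refine ⟨fun s => 1 / (2 * π) * ∫ t : ℝ, Sᶜ.indicator E t * (s / ((t : ℂ) ^ 2 + s ^ 2)),
    ?_, ?_⟩
  · apply DifferentiableOn.const_mul
    apply diff_integral (Metric.ball 0 R) Metric.isOpen_ball
      (fun s t => s / ((t : ℂ) ^ 2 + s ^ 2)) _ hE'
    · intro t ht
      have htS : t ∈ Sᶜ := by
        by_contra h
        exact ht (Set.indicator_of_notMem h E)
      apply DifferentiableOn.div differentiableOn_id (by fun_prop)
      intro s hs
      rw [mem_ball_zero_iff] at hs
      exact hne s t hs (hSc t htS)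
    · intro s _
      exact f116_measurable_kernel s
    · intro s hs
      rw [mem_ball_zero_iff] at hs
      have hR1 : 0 ≤ (R + ‖s‖) / 2 := by positivity
      have hR2 : (R + ‖s‖) / 2 < R := by linarith
      refine ⟨(R - ‖s‖) / 2, _, by linarith, ?_, f116_integrable_bound
        (2 * A * ((R + ‖s‖) / 2) * ((1 + R ^ 2) / (R ^ 2 - ((R + ‖s‖) / 2) ^ 2))), ?_⟩
      · intro s1 hs1
        rw [Metric.mem_closedBall, dist_eq_norm] at hs1
        rw [mem_ball_zero_iff]
        have : s1 = s + (s1 - s) := by ring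
        rw [this]
        exact lt_of_le_of_lt (norm_add_le _ _) (by linarith)
      · intro s1 hs1 t
        rw [Metric.mem_closedBall, dist_eq_norm] at hs1
        have h5 : ‖s1‖ ≤ (R + ‖s‖) / 2 := by
          have : s1 = s + (s1 - s) := by ring
          rw [this]
          exact (norm_add_le _ _).trans (by linarith)
        by_cases htS : t ∈ Sᶜ
        · exact f116_bound hA' h5 (f117_low hR1 hR2 (hSc t htS) h5)
        · rw [Set.indicator_of_notMem htS, zero_mul, norm_zero]
          have hA0 : 0 ≤ A := by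
            have := (norm_nonneg _).trans (hA t)
            exact nonneg_of_mul_nonneg_left this (by positivity)
          have hD : 0 < R ^ 2 - ((R + ‖s‖) / 2) ^ 2 := by nlinarith
          positivity
  · intro s hs hsre
    rw [mem_ball_zero_iff] at hs
    have hint := f116_integrable hE hA hsre
    have h1 : ∫ t : ℝ, E t * (s / ((t : ℂ) ^ 2 + s ^ 2)) =
        (∫ t in S, E t * (s / ((t : ℂ) ^ 2 + s ^ 2))) +
        ∫ t in Sᶜ, E t * (s / ((t : ℂ) ^ 2 + s ^ 2)) :=
      (integral_add_compl hSm hint).symm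
    have h2 : ∫ t in Sᶜ, E t * (s / ((t : ℂ) ^ 2 + s ^ 2)) =
        ∫ t : ℝ, Sᶜ.indicator E t * (s / ((t : ℂ) ^ 2 + s ^ 2)) := by
      rw [← integral_indicator hSm.compl]
      congr 1
      funext t
      by_cases ht : t ∈ Sᶜ
      · rw [Set.indicator_of_mem ht, Set.indicator_of_mem ht]
      · rw [Set.indicator_of_notMem ht, Set.indicator_of_notMem ht, zero_mul]
    have h3 : ∫ t in S, E t * (s / ((t : ℂ) ^ 2 + s ^ 2)) =
        ∫ t in (-R)..R, E t / (s - I * t) := by
      rw [hS, ← intervalIntegral.integral_of_le (by linarith : -R ≤ R)]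
      have hi1 : IntervalIntegrable (fun t : ℝ => E t / (s - I * t)) volume (-R) R := by
        have := f117_int hE hA R hsre 1 (Or.inl rfl)
        simpa using this
      have hi2 : IntervalIntegrable (fun t : ℝ => E t / (s + I * t)) volume (-R) R := by
        have := f117_int hE hA R hsre (-1) (Or.inr rfl)
        simpa [sub_neg_eq_add] using this
      have h4 : ∀ t : ℝ, E t * (s / ((t : ℂ) ^ 2 + s ^ 2)) =
          1 / 2 * (E t / (s - I * t) + E t / (s + I * t)) := by
        intro t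
        have hn1 := f117_sub_ne hsre t
        have hn2 := f117_add_ne hsre t
        have hfac : (t : ℂ) ^ 2 + s ^ 2 = (s - I * t) * (s + I * t) := by
          have : (s - I * t) * (s + I * t) = s ^ 2 - (I ^ 2) * (t : ℂ) ^ 2 := by ring
          rw [this, I_sq]
          ring
        rw [hfac]
        field_simp
        ring
      have h5 : ∫ t in (-R)..R, E t / (s + I * t) = ∫ t in (-R)..R, E t / (s - I * t) := by
        have h6 := intervalIntegral.integral_comp_neg (a := -R) (b := R)
          (fun t : ℝ => E t / (s - I * t))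
        rw [neg_neg] at h6
        rw [← h6]
        congr 1
        funext t
        rw [hev]
        push_cast
        rw [mul_neg, sub_neg_eq_add]
      simp only [h4]
      rw [intervalIntegral.integral_const_mul, intervalIntegral.integral_add hi1 hi2, h5]
      ring
    unfold CC
    rw [h1, h2, h3]
    ring

end RV11
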