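import Pool.Agent.LibRV11.Defs
import Pool.Agent.LibRV11.F100
import Pool.Agent.LibRV11.F116
open Complex Real MeasureTheory
open UpperHalfPlane hiding I
open scoped MatrixGroups ComplexConjugate

namespace RV11

/-! ### F118: the local Plemelj formula -/

theorem F118_dist_eq (t t0 : ℝ) : ‖(I * t - I * t0 : ℂ)‖ = |t - t0| := by
  rw [← mul_sub, norm_mul, Complex.norm_I, one_mul, ← Complex.ofReal_sub, Complex.norm_real,
    Real.norm_eq_abs]

theorem F118_ne {s : ℂ} (hs : s.re ≠ 0) (t : ℝ) : s - I * t ≠ 0 := by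
  intro h
  apply hs
  have := congrArg Complex.re h
  simpa using this

theorem F118_re_le (s : ℂ) (t : ℝ) : |s.re| ≤ ‖s - I * t‖ := by
  have := Complex.abs_re_le_norm (s - I * t)
  simpa using this

theorem F118_intInt (F : ℝ → ℂ) (hF : Measurable F) {s : ℂ} (hs : s.re ≠ 0) {A a b : ℝ}
    (hab : a ≤ b)
    (hA : ∀ t ∈ Set.Ioc a b, ‖F t‖ ≤ A) :
    IntervalIntegrable (fun t => F t / (s - I * t)) volume a b := by
  rw [intervalIntegrable_iff_integrableOn_Ioc_of_le hab]
  have hm : Measurable (fun t : ℝ => F t / (s - I * t)) := by fun_prop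
  refine Measure.integrableOn_of_bounded (M := A / |s.re|) (by simp) hm.aestronglyMeasurable ?_
  rw [ae_restrict_iff' measurableSet_Ioc]
  refine Filter.Eventually.of_forall fun t ht => ?_
  rw [norm_div]
  have h1 : 0 < |s.re| := abs_pos.mpr hs
  exact div_le_div₀ ((norm_nonneg _).trans (hA t ht)) (hA t ht) h1 (F118_re_le s t)

/-- the part of the integral away from `t0` -/
theorem far_diff (E : ℝ → ℂ) (hE : Measurable E) (A : ℝ) (R : ℝ) (hA : ∀ t, |t| ≤ R → ‖E t‖ ≤ A)
    (t0 ε : ℝ) (hε : 0 < ε) (h1 : -R < t0 - ε) (h2 : t0 + ε < R) :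
    ∃ h : ℂ → ℂ, DifferentiableOn ℂ h (Metric.ball (I * t0) ε) ∧
      ∀ s ∈ Metric.ball (I * t0 : ℂ) ε, s.re ≠ 0 →
        ∫ t in (-R)..R, E t / (s - I * t) = h s + ∫ t in (t0 - ε)..(t0 + ε), E t / (s - I * t) := by
  classical
  set S : Set ℝ := Set.Ioc (-R) (t0 - ε) ∪ Set.Ioc (t0 + ε) R with hSdef
  have hSm : MeasurableSet S := measurableSet_Ioc.union measurableSet_Ioc
  have hSε : ∀ t ∈ S, ε ≤ |t - t0| := by
    rintro t (⟨-, ht⟩ | ⟨ht, -⟩)
    · rw [abs_sub_comm, abs_of_nonneg (by linarith)]; linarith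
    · rw [abs_of_nonneg (by linarith)]; linarith
  have hSR : ∀ t ∈ S, |t| ≤ R := by
    rintro t (⟨ht1, ht2⟩ | ⟨ht1, ht2⟩) <;> rw [abs_le] <;> constructor <;> linarith
  have hA0 : 0 ≤ A := (norm_nonneg (E t0)).trans (hA t0 (by rw [abs_le]; constructor <;> linarith))
  have hlow : ∀ s : ℂ, ∀ t ∈ S, ε - dist s (I * t0) ≤ ‖s - I * t‖ := by
    intro s t ht
    have h3 := hSε t ht
    rw [← F118_dist_eq] at h3
    have h4 : (I * t - I * t0 : ℂ) = (s - I * t0) - (s - I * t) := by ring
    rw [h4] at h3
    have h5 := norm_sub_le (s - I * t0) (s - I * t)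
    rw [dist_eq_norm]
    linarith
  have hdiff := diff_integral (Metric.ball (I * t0) ε) Metric.isOpen_ball
    (fun s t => 1 / (s - I * t)) (S.indicator E) (hE.indicator hSm)
    (by
      intro t ht
      have htS : t ∈ S := by
        by_contra hcon
        exact ht (Set.indicator_of_notMem hcon E)
      intro s hs
      have hs' := Metric.mem_ball.mp hs
      have hne : s - I * t ≠ 0 := by
        rw [← norm_pos_iff]
        have := hlow s t htS
        linarith
      apply DifferentiableAt.differentiableWithinAt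
      fun_prop (disch := assumption))
    (by intro s _; fun_prop)
    (by
      intro s hs
      have hs' := Metric.mem_ball.mp hs
      set ρ : ℝ := (ε - dist s (I * t0)) / 2 with hρ
      have hρ0 : 0 < ρ := by rw [hρ]; linarith
      refine ⟨ρ, S.indicator (fun _ => A / ρ), hρ0, ?_, ?_, ?_⟩
      · intro s' h's
        rw [Metric.mem_closedBall] at h's
        rw [Metric.mem_ball]
        have := dist_triangle s' s (I * t0)
        linarith
      · rw [integrable_indicator_iff hSm]
        have hfin : volume S ≠ ⊤ := by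
          rw [hSdef]
          exact ((measure_union_le _ _).trans_lt (by simp)).ne
        exact integrableOn_const hfin (by simp)
      · intro s' h's t
        by_cases htS : t ∈ S
        · rw [Set.indicator_of_mem htS, Set.indicator_of_mem htS, norm_mul, norm_div, norm_one]
          rw [Metric.mem_closedBall] at h's
          have h3 := hlow s' t htS
          have h4 := dist_triangle s' s (I * t0)
          have h5 : ρ ≤ ‖s' - I * t‖ := by rw [hρ] at h's ⊢; linarith
          calc ‖E t‖ * (1 / ‖s' - I * t‖) ≤ A * (1 / ρ) := by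
                apply mul_le_mul (hA t (hSR t htS)) _ (by positivity) hA0
                exact one_div_le_one_div_of_le hρ0 h5
            _ = A / ρ := by ring
        · rw [Set.indicator_of_notMem htS, Set.indicator_of_notMem htS]; simp)
  refine ⟨_, hdiff, ?_⟩
  intro s hs hre
  have hi : ∀ a b : ℝ, -R ≤ a → b ≤ R → a ≤ b →
      IntervalIntegrable (fun t => E t / (s - I * t)) volume a b := by
    intro a b ha hb hab
    exact F118_intInt E hE hre hab (A := A) fun t ht =>
      hA t (by rw [abs_le]; constructor <;> linarith [ht.1, ht.2])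
  have hsum : ∫ t, S.indicator E t * (1 / (s - I * t)) =
      (∫ t in (-R)..(t0 - ε), E t / (s - I * t)) + ∫ t in (t0 + ε)..R, E t / (s - I * t) := by
    rw [intervalIntegral.integral_of_le h1.le, intervalIntegral.integral_of_le h2.le,
      ← setIntegral_union _ measurableSet_Ioc _ _, ← hSdef, ← integral_indicator hSm]
    · congr 1
      ext t
      by_cases htS : t ∈ S
      · rw [Set.indicator_of_mem htS, Set.indicator_of_mem htS]; ring
      · rw [Set.indicator_of_notMem htS, Set.indicator_of_notMem htS]; ring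
    · rw [Set.disjoint_left]
      rintro t ⟨-, h3⟩ ⟨h4, -⟩
      linarith
    · exact (intervalIntegrable_iff_integrableOn_Ioc_of_le h1.le).mp
        (hi _ _ le_rfl (by linarith) h1.le)
    · exact (intervalIntegrable_iff_integrableOn_Ioc_of_le h2.le).mp
        (hi _ _ (by linarith) le_rfl h2.le)
  rw [hsum]
  have e1 := intervalIntegral.integral_add_adjacent_intervals
    (hi (-R) (t0 - ε) le_rfl (by linarith) h1.le)
    (hi (t0 - ε) (t0 + ε) (by linarith) (by linarith) (by linarith))
  have e2 := intervalIntegral.integral_add_adjacent_intervals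
    (hi (-R) (t0 + ε) le_rfl (by linarith) (by linarith))
    (hi (t0 + ε) R (by linarith) le_rfl h2.le)
  rw [← e2, ← e1]
  ring

/-- `log (-a)` for `Im a < 0`. -/
theorem F118_log_neg {a : ℂ} (ha : a.im < 0) : Complex.log (-a) = Complex.log a + I * π := by
  rw [Complex.log, Complex.log, norm_neg, Complex.arg_neg_eq_arg_add_pi_of_im_neg ha]
  push_cast
  ring

theorem F118_log_neg' {a : ℂ} (ha : 0 < a.im) : Complex.log (-a) = Complex.log a - I * π := by
  rw [Complex.log, Complex.log, norm_neg, Complex.arg_neg_eq_arg_sub_pi_of_im_pos ha]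
  push_cast
  ring

/-- logarithms -/
theorem seg_integral (t0 ε : ℝ) (hε : 0 < ε) : ∃ L : ℂ → ℂ,
    DifferentiableOn ℂ L (Metric.ball (I * t0) ε) ∧
    (∀ s ∈ Metric.ball (I * t0 : ℂ) ε, 0 < s.re →
      ∫ t in (t0 - ε)..(t0 + ε), 1 / (s - I * t) = L s) ∧
    (∀ s ∈ Metric.ball (I * t0 : ℂ) ε, s.re < 0 →
      ∫ t in (t0 - ε)..(t0 + ε), 1 / (s - I * t) = L s - 2 * π) := by
  have him : ∀ s ∈ Metric.ball (I * t0 : ℂ) ε, |s.im - t0| < ε := by
    intro s hs
    rw [Metric.mem_ball, dist_eq_norm] at hs
    have := Complex.abs_im_le_norm (s - I * t0)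
    simp only [Complex.sub_im, Complex.mul_im, Complex.I_re, Complex.I_im, Complex.ofReal_re,
      Complex.ofReal_im, one_mul, zero_add, mul_zero] at this
    linarith
  have hu : ∀ s ∈ Metric.ball (I * t0 : ℂ) ε, (s - I * ((t0 + ε : ℝ) : ℂ)).im < 0 := by
    intro s hs
    have := abs_lt.mp (him s hs)
    simp
    linarith [this.2]
  have hl : ∀ s ∈ Metric.ball (I * t0 : ℂ) ε, 0 < (s - I * ((t0 - ε : ℝ) : ℂ)).im := by
    intro s hs
    have := abs_lt.mp (him s hs)
    simp
    linarith [this.1]
  refine ⟨fun s => I * Complex.log (s - I * ((t0 + ε : ℝ) : ℂ)) -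
    I * Complex.log (s - I * ((t0 - ε : ℝ) : ℂ)), ?_, ?_, ?_⟩
  · intro s hs
    have h1 : s - I * ((t0 + ε : ℝ) : ℂ) ∈ Complex.slitPlane := Or.inr (hu s hs).ne
    have h2 : s - I * ((t0 - ε : ℝ) : ℂ) ∈ Complex.slitPlane := Or.inr (hl s hs).ne'
    apply DifferentiableAt.differentiableWithinAt
    fun_prop (disch := assumption)
  · intro s hs hre
    have key : ∀ t ∈ Set.uIcc (t0 - ε) (t0 + ε),
        HasDerivAt (fun t : ℝ => I * Complex.log (s - I * (t : ℂ))) (1 / (s - I * t)) t := by
      intro t _
      have h0 : HasDerivAt (fun t : ℝ => s - I * (t : ℂ)) (-(I * 1)) t :=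
        ((Complex.ofRealCLM.hasDerivAt).const_mul I).const_sub s
      have hsl : s - I * (t : ℂ) ∈ Complex.slitPlane := Or.inl (by simpa using hre)
      have h1 := (h0.clog_real hsl).const_mul I
      refine h1.congr_deriv ?_
      have := F118_ne hre.ne' t
      field_simp
      rw [Complex.I_sq]; ring
    have hint : IntervalIntegrable (fun t : ℝ => 1 / (s - I * t)) volume (t0 - ε) (t0 + ε) :=
      F118_intInt (fun _ => 1) measurable_const hre.ne' (by linarith) (A := 1)
        (fun t _ => by simp)
    rw [intervalIntegral.integral_eq_sub_of_hasDerivAt key hint]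
  · intro s hs hre
    have key : ∀ t ∈ Set.uIcc (t0 - ε) (t0 + ε),
        HasDerivAt (fun t : ℝ => I * Complex.log (-(s - I * (t : ℂ)))) (1 / (s - I * t)) t := by
      intro t _
      have h0 : HasDerivAt (fun t : ℝ => -(s - I * (t : ℂ))) (-(-(I * 1))) t :=
        (((Complex.ofRealCLM.hasDerivAt).const_mul I).const_sub s).neg
      have hsl : -(s - I * (t : ℂ)) ∈ Complex.slitPlane := Or.inl (by simpa using hre)
      have h1 := (h0.clog_real hsl).const_mul I
      refine h1.congr_deriv ?_
      have := F118_ne hre.ne t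
      field_simp
      rw [Complex.I_sq]; ring
    have hint : IntervalIntegrable (fun t : ℝ => 1 / (s - I * t)) volume (t0 - ε) (t0 + ε) :=
      F118_intInt (fun _ => 1) measurable_const hre.ne (by linarith) (A := 1)
        (fun t _ => by simp)
    rw [intervalIntegral.integral_eq_sub_of_hasDerivAt key hint, F118_log_neg (hu s hs),
      F118_log_neg' (hl s hs)]
    have hI : I * I = -1 := Complex.I_mul_I
    linear_combination (2 * (π : ℂ)) * hI

theorem F118_dslope_comm (f : ℂ → ℂ) (a b : ℂ) : dslope f a b = dslope f b a := by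
  by_cases h : a = b
  · rw [h]
  · rw [dslope_of_ne f (Ne.symm h), dslope_of_ne f h, slope_comm]

/-- near part: `E` is the boundary value of a holomorphic function `Ψ` on a larger ball -/
theorem near_diff (Ψ : ℂ → ℂ) (t0 ε ε' : ℝ) (hε : 0 < ε) (hε' : ε < ε')
    (hΨ : DifferentiableOn ℂ Ψ (Metric.ball (I * t0) ε')) : ∃ h : ℂ → ℂ,
    DifferentiableOn ℂ h (Metric.ball (I * t0) ε) ∧
    (∀ s ∈ Metric.ball (I * t0 : ℂ) ε, 0 < s.re →
      ∫ t in (t0 - ε)..(t0 + ε), Ψ (I * t) / (s - I * t) = h s) ∧
    (∀ s ∈ Metric.ball (I * t0 : ℂ) ε, s.re < 0 →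
      ∫ t in (t0 - ε)..(t0 + ε), Ψ (I * t) / (s - I * t) = h s - 2 * π * Ψ s) := by
  classical
  obtain ⟨L, hL, hL1, hL2⟩ := seg_integral t0 ε hε
  set δ : ℝ := (ε + ε') / 2 with hδ
  have hδ1 : ε < δ := by rw [hδ]; linarith
  have hδ2 : δ < ε' := by rw [hδ]; linarith
  set J : Set ℝ := Set.Ioc (t0 - ε) (t0 + ε) with hJ
  have hJm : MeasurableSet J := measurableSet_Ioc
  have hJε : ∀ t ∈ J, |t - t0| ≤ ε := by
    rintro t ⟨h3, h4⟩
    rw [abs_le]; constructor <;> linarith
  have hJδ : ∀ t ∈ J, I * (t : ℂ) ∈ Metric.ball (I * t0 : ℂ) δ := by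
    intro t ht
    rw [Metric.mem_ball, dist_eq_norm, F118_dist_eq]
    linarith [hJε t ht]
  -- derivative bound
  obtain ⟨B, hB⟩ : ∃ B : ℝ, ∀ z ∈ Metric.closedBall (I * t0 : ℂ) δ, ‖deriv Ψ z‖ ≤ B := by
    have hd : DifferentiableOn ℂ (deriv Ψ) (Metric.ball (I * t0 : ℂ) ε') :=
      hΨ.deriv Metric.isOpen_ball
    have hc : ContinuousOn (deriv Ψ) (Metric.closedBall (I * t0 : ℂ) δ) :=
      hd.continuousOn.mono (Metric.closedBall_subset_ball hδ2)
    exact (isCompact_closedBall _ _).exists_bound_of_continuousOn hc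
  have hdiffAt : ∀ z ∈ Metric.closedBall (I * t0 : ℂ) δ, DifferentiableAt ℂ Ψ z := fun z hz =>
    (hΨ z (Metric.closedBall_subset_ball hδ2 hz)).differentiableAt
      (Metric.isOpen_ball.mem_nhds (Metric.closedBall_subset_ball hδ2 hz))
  have hbd : ∀ a ∈ Metric.closedBall (I * t0 : ℂ) δ, ∀ b ∈ Metric.closedBall (I * t0 : ℂ) δ,
      ‖dslope Ψ a b‖ ≤ B := by
    intro a ha b hb
    by_cases hab : b = a
    · rw [hab, dslope_same]; exact hB a ha
    · rw [dslope_of_ne _ hab, slope_def_field, norm_div]
      have h3 := (convex_closedBall (I * t0 : ℂ) δ).norm_image_sub_le_of_norm_deriv_le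
        hdiffAt hB ha hb
      have h4 : 0 < ‖b - a‖ := norm_pos_iff.mpr (sub_ne_zero.mpr hab)
      rw [div_le_iff₀ h4]
      exact h3
  have hdiff := diff_integral (Metric.ball (I * t0) ε) Metric.isOpen_ball
    (fun s => J.indicator (fun t => -dslope Ψ (I * t) s)) (J.indicator (fun _ => 1))
    (measurable_const.indicator hJm)
    (by
      intro t ht
      have htJ : t ∈ J := by
        by_contra hcon
        exact ht (Set.indicator_of_notMem hcon _)
      have h3 : DifferentiableOn ℂ (dslope Ψ (I * t)) (Metric.ball (I * t0 : ℂ) δ) := by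
        rw [Complex.differentiableOn_dslope (Metric.isOpen_ball.mem_nhds (hJδ t htJ))]
        exact hΨ.mono (Metric.ball_subset_ball hδ2.le)
      have h4 := (h3.mono (Metric.ball_subset_ball hδ1.le)).neg
      refine h4.congr fun s _ => ?_
      rw [Set.indicator_of_mem htJ]; rfl)
    (by
      intro s hs
      have hs' : s ∈ Metric.ball (I * t0 : ℂ) δ := Metric.ball_subset_ball hδ1.le hs
      have h3' : DifferentiableOn ℂ (dslope Ψ s) (Metric.ball (I * t0 : ℂ) δ) := by
        rw [Complex.differentiableOn_dslope (Metric.isOpen_ball.mem_nhds hs')]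
        exact hΨ.mono (Metric.ball_subset_ball hδ2.le)
      have h3 := h3'.continuousOn
      have h4 : ContinuousOn (fun t : ℝ => -dslope Ψ (I * t) s) J := by
        have h5 : ContinuousOn (fun t : ℝ => -dslope Ψ s (I * t)) J := by
          apply ContinuousOn.neg
          exact h3.comp (by fun_prop) (fun t ht => hJδ t ht)
        refine h5.congr fun t _ => ?_
        simp only [F118_dslope_comm Ψ (I * t) s]
      have h6 := h4.measurable_piecewise (g := fun _ => (0 : ℂ)) continuousOn_const hJm
      convert h6 using 1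
      ext t
      by_cases htJ : t ∈ J
      · rw [Set.indicator_of_mem htJ, Set.piecewise_eq_of_mem _ _ _ htJ]
      · rw [Set.indicator_of_notMem htJ, Set.piecewise_eq_of_notMem _ _ _ htJ])
    (by
      intro s hs
      have hs' := Metric.mem_ball.mp hs
      set ρ : ℝ := (ε - dist s (I * t0)) / 2 with hρ
      have hρ0 : 0 < ρ := by rw [hρ]; linarith
      have hsub : Metric.closedBall s ρ ⊆ Metric.ball (I * t0 : ℂ) ε := by
        intro s' h's
        rw [Metric.mem_closedBall] at h's
        rw [Metric.mem_ball]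
        have := dist_triangle s' s (I * t0)
        linarith
      refine ⟨ρ, J.indicator (fun _ => B), hρ0, hsub, ?_, ?_⟩
      · rw [integrable_indicator_iff hJm]
        have hfin : volume J ≠ ⊤ := by
          rw [hJ]; simp
        exact integrableOn_const hfin (by simp)
      · intro s' h's t
        by_cases htJ : t ∈ J
        · rw [Set.indicator_of_mem htJ, Set.indicator_of_mem htJ, Set.indicator_of_mem htJ,
            one_mul, norm_neg]
          exact hbd _ (Metric.ball_subset_closedBall (hJδ t htJ)) _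
            (Metric.ball_subset_closedBall (Metric.ball_subset_ball hδ1.le (hsub h's)))
        · rw [Set.indicator_of_notMem htJ, Set.indicator_of_notMem htJ,
            Set.indicator_of_notMem htJ]; simp)
  set h1 : ℂ → ℂ := fun s => ∫ t, J.indicator (fun _ => 1) t *
    J.indicator (fun t : ℝ => -dslope Ψ (I * t) s) t with hh1
  have hΨε : DifferentiableOn ℂ Ψ (Metric.ball (I * t0 : ℂ) ε) :=
    hΨ.mono (Metric.ball_subset_ball hε'.le)
  have hsplit : ∀ s ∈ Metric.ball (I * t0 : ℂ) ε, s.re ≠ 0 →
      ∫ t in (t0 - ε)..(t0 + ε), Ψ (I * t) / (s - I * t) =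
        h1 s + Ψ s * ∫ t in (t0 - ε)..(t0 + ε), 1 / (s - I * t) := by
    intro s hs hre
    have hs' : s ∈ Metric.ball (I * t0 : ℂ) δ := Metric.ball_subset_ball hδ1.le hs
    have e1 : h1 s = ∫ t in (t0 - ε)..(t0 + ε), -dslope Ψ (I * t) s := by
      rw [intervalIntegral.integral_of_le (by linarith), ← integral_indicator measurableSet_Ioc]
      simp only [hh1]
      congr 1
      ext t
      by_cases htJ : t ∈ J
      · rw [Set.indicator_of_mem htJ, Set.indicator_of_mem htJ, one_mul]
      · rw [Set.indicator_of_notMem htJ, Set.indicator_of_notMem htJ]; ring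
    have hi1 : IntervalIntegrable (fun t : ℝ => -dslope Ψ (I * t) s) volume
        (t0 - ε) (t0 + ε) := by
      rw [intervalIntegrable_iff_integrableOn_Ioc_of_le (by linarith)]
      have hm : AEStronglyMeasurable (fun t : ℝ => -dslope Ψ (I * t) s)
          (volume.restrict (Set.Ioc (t0 - ε) (t0 + ε))) := by
        have h3' : DifferentiableOn ℂ (dslope Ψ s) (Metric.ball (I * t0 : ℂ) δ) := by
          rw [Complex.differentiableOn_dslope (Metric.isOpen_ball.mem_nhds hs')]
          exact hΨ.mono (Metric.ball_subset_ball hδ2.le)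
        have h3 := h3'.continuousOn
        have h5 : ContinuousOn (fun t : ℝ => -dslope Ψ s (I * t)) J := by
          apply ContinuousOn.neg
          exact h3.comp (by fun_prop) (fun t ht => hJδ t ht)
        have h4 : ContinuousOn (fun t : ℝ => -dslope Ψ (I * t) s) J := by
          refine h5.congr fun t _ => ?_
          simp only [F118_dslope_comm Ψ (I * t) s]
        exact h4.aestronglyMeasurable measurableSet_Ioc
      refine Integrable.of_bound hm B ?_
      rw [ae_restrict_iff' measurableSet_Ioc]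
      refine Filter.Eventually.of_forall fun t ht => ?_
      rw [norm_neg]
      exact hbd _ (Metric.ball_subset_closedBall (hJδ t ht)) _
        (Metric.ball_subset_closedBall hs')
    have hi2 : IntervalIntegrable (fun t : ℝ => Ψ s * (1 / (s - I * t))) volume
        (t0 - ε) (t0 + ε) :=
      (F118_intInt (fun _ => 1) measurable_const hre (by linarith) (A := 1)
        (fun t _ => by simp)).const_mul _
    rw [e1, ← intervalIntegral.integral_const_mul, ← intervalIntegral.integral_add hi1 hi2]
    apply intervalIntegral.integral_congr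
    intro t _
    have hne := F118_ne hre t
    have hne' : s ≠ I * t := sub_ne_zero.mp hne
    simp only
    rw [dslope_of_ne _ hne', slope_def_field]
    field_simp
    ring
  refine ⟨fun s => h1 s + Ψ s * L s, hdiff.add (hΨε.mul hL), ?_, ?_⟩
  · intro s hs hre
    rw [hsplit s hs hre.ne', hL1 s hs hre]
  · intro s hs hre
    rw [hsplit s hs hre.ne, hL2 s hs hre]
    ring

end RV11
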