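import Pool.Agent.LibRV11.Defs
import Pool.Agent.LibRV11.F100
import Pool.Agent.LibRV11.F116
import Pool.Agent.LibRV11.F117
import Pool.Agent.LibRV11.F118
open Complex Real MeasureTheory
open UpperHalfPlane hiding I
open scoped MatrixGroups ComplexConjugate

namespace RV11

/-! ### F119: crossing of the imaginary axis -/

theorem plemelj (E : ℝ → ℂ) (hE : Measurable E) (hev : ∀ t, E (-t) = E t) (A : ℝ)
    (hA : ∀ t, ‖E t‖ ≤ A * (1 + |t|) ^ (1 / 4 : ℝ)) (t0 ε : ℝ) (hε : 0 < ε) (Ψ : ℂ → ℂ)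
    (hΨ : DifferentiableOn ℂ Ψ (Metric.ball (I * t0) ε))
    (hΨE : ∀ t : ℝ, |t - t0| < ε → Ψ (I * t) = E t) :
    ∃ (ε' : ℝ) (H : ℂ → ℂ), 0 < ε' ∧ ε' ≤ ε ∧ DifferentiableOn ℂ H (Metric.ball (I * t0) ε') ∧
      (∀ s ∈ Metric.ball (I * t0 : ℂ) ε', 0 < s.re → H s = CC E s) ∧
      (∀ s ∈ Metric.ball (I * t0 : ℂ) ε', s.re < 0 → H s = CC E s + Ψ s) := by
  have hA0 : 0 ≤ A := by
    have h := (norm_nonneg _).trans (hA 0)
    simpa using h
  set R : ℝ := |t0| + ε + 1 with hR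
  have hRpos : 0 < R := by positivity
  have hmm := abs_le.mp (le_refl |t0|)
  have hR1 : -R < t0 - ε / 2 := by linarith [hmm.1]
  have hR2 : t0 + ε / 2 < R := by linarith [hmm.2]
  obtain ⟨h1, hh1, hh1'⟩ := CC_split E hE hev A hA R hRpos
  have hAR : ∀ t : ℝ, |t| ≤ R → ‖E t‖ ≤ A * (1 + R) ^ (1 / 4 : ℝ) := by
    intro t ht
    refine (hA t).trans ?_
    gcongr
  obtain ⟨h2, hh2, hh2'⟩ := far_diff E hE (A * (1 + R) ^ (1 / 4 : ℝ)) R hAR t0 (ε / 2) (by linarith)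
    hR1 hR2
  obtain ⟨h3, hh3, hh3p, hh3m⟩ := near_diff Ψ t0 (ε / 2) ε (by linarith) (by linarith) hΨ
  have hball : Metric.ball (I * t0 : ℂ) (ε / 2) ⊆ Metric.ball 0 R := by
    intro s hs
    rw [Metric.mem_ball, dist_eq_norm] at hs ⊢
    have : ‖I * (t0 : ℂ)‖ = |t0| := by simp
    calc ‖s - 0‖ = ‖(s - I * t0) + I * t0‖ := by ring_nf
      _ ≤ ‖s - I * t0‖ + ‖I * (t0 : ℂ)‖ := norm_add_le _ _
      _ < R := by rw [this]; linarith
  have hnear : ∀ s, ∫ t in (t0 - ε / 2)..(t0 + ε / 2), E t / (s - I * t) =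
      ∫ t in (t0 - ε / 2)..(t0 + ε / 2), Ψ (I * t) / (s - I * t) := by
    intro s
    apply intervalIntegral.integral_congr
    intro t ht
    rw [Set.uIcc_of_le (by linarith)] at ht
    have : |t - t0| < ε := by
      rw [abs_lt]; constructor <;> linarith [ht.1, ht.2]
    simp only [hΨE t this]
  have hform : ∀ s ∈ Metric.ball (I * t0 : ℂ) (ε / 2), s.re ≠ 0 →
      CC E s = h1 s + 1 / (2 * π) * (h2 s +
        ∫ t in (t0 - ε / 2)..(t0 + ε / 2), Ψ (I * t) / (s - I * t)) := by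
    intro s hs hre
    rw [hh1' s (hball hs) hre, hh2' s hs hre, hnear]
  refine ⟨ε / 2, fun s => h1 s + 1 / (2 * π) * (h2 s + h3 s), by linarith, by linarith, ?_, ?_, ?_⟩
  · exact (hh1.mono hball).add ((hh2.add hh3).const_mul _)
  · intro s hs hre
    rw [hform s hs hre.ne', hh3p s hs hre]
  · intro s hs hre
    rw [hform s hs hre.ne, hh3m s hs hre]
    have : (π : ℂ) ≠ 0 := by exact_mod_cast Real.pi_ne_zero
    field_simp
    ring

end RV11
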