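import Pool.Agent.LibRV11.Defs
import Pool.Agent.LibRV11.F100
import Pool.Agent.LibRV11.F101
import Pool.Agent.LibRV11.F102
import Pool.Agent.LibRV11.F106
import Pool.Agent.LibRV11.F109
open Complex Real MeasureTheory
open UpperHalfPlane hiding I
open scoped MatrixGroups ComplexConjugate

namespace RV11

/-! ### F120: Schwarz lemma near the cusp `1` -/

theorem F120_real {X Y a ρ n : ℝ} (ha : 0 < a) (hX : 0 < X) (hρ0 : 0 ≤ ρ) (hρ1 : ρ ≤ 1)
    (hn0 : 0 ≤ n) (hn : n ^ 2 = X ^ 2 + Y ^ 2)
    (h : (X - a) ^ 2 + Y ^ 2 ≤ ρ ^ 2 * ((X + a) ^ 2 + Y ^ 2)) : (1 - ρ) / 2 * n ≤ X := by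
  have h1 : (1 - ρ ^ 2) * (n ^ 2 + a ^ 2) ≤ 2 * a * X * (1 + ρ ^ 2) := by rw [hn]; nlinarith
  have hρ2 : 0 ≤ 1 - ρ ^ 2 := by nlinarith
  have h2 : (1 - ρ ^ 2) * (2 * a * n) ≤ (1 - ρ ^ 2) * (n ^ 2 + a ^ 2) :=
    mul_le_mul_of_nonneg_left (by nlinarith [sq_nonneg (n - a)]) hρ2
  have h3 : 2 * a * ((1 - ρ ^ 2) * n) ≤ 2 * a * (X * (1 + ρ ^ 2)) := by nlinarith
  have h4 : (1 - ρ ^ 2) * n ≤ X * (1 + ρ ^ 2) := le_of_mul_le_mul_left h3 (by linarith)
  have h5 : X * (1 + ρ ^ 2) ≤ X * 2 := mul_le_mul_of_nonneg_left (by nlinarith) hX.le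
  have h6 : (1 - ρ) * n ≤ (1 - ρ ^ 2) * n := mul_le_mul_of_nonneg_right (by nlinarith) hn0
  linarith

/-- Schwarz lemma for functions with positive real part -/
theorem schwarz_re (f : ℂ → ℂ) (c : ℂ) (R : ℝ) (hR : 0 < R)
    (hf : DifferentiableOn ℂ f (Metric.ball c R)) (hpos : ∀ z ∈ Metric.ball c R, 0 < (f z).re)
    (hc : (f c).im = 0) {z : ℂ} (hz : z ∈ Metric.ball c R) :
    (1 - ‖z - c‖ / R) / 2 * ‖f z‖ ≤ (f z).re := by
  have hcm : c ∈ Metric.ball c R := Metric.mem_ball_self hR
  set a : ℝ := (f c).re with ha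
  have ha0 : 0 < a := hpos c hcm
  have hfc : f c = (a : ℂ) := by apply Complex.ext <;> simp [ha, hc]
  have hne : ∀ w ∈ Metric.ball c R, f w + a ≠ 0 := by
    intro w hw h0
    have := congrArg Complex.re h0
    simp at this
    linarith [hpos w hw]
  have hM : DifferentiableOn ℂ (fun w => (f w - a) / (f w + a)) (Metric.ball c R) :=
    (hf.sub_const _).div (hf.add_const _) hne
  have hM0 : (f c - a) / (f c + a) = 0 := by rw [hfc]; simp
  have hmaps : Set.MapsTo (fun w => (f w - a) / (f w + a)) (Metric.ball c R)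
      (Metric.ball ((fun w => (f w - a) / (f w + a)) c) 1) := by
    intro w hw
    simp only
    rw [hM0, Metric.mem_ball, dist_zero_right, norm_div, div_lt_one (norm_pos_iff.mpr (hne w hw))]
    have h1 : ‖f w - a‖ ^ 2 < ‖f w + a‖ ^ 2 := by
      rw [← Complex.normSq_eq_norm_sq, ← Complex.normSq_eq_norm_sq, Complex.normSq_apply,
        Complex.normSq_apply]
      simp only [Complex.sub_re, Complex.ofReal_re, Complex.sub_im, Complex.ofReal_im,
        Complex.add_re, Complex.add_im]
      nlinarith [hpos w hw, mul_pos ha0 (hpos w hw)]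
    exact lt_of_pow_lt_pow_left₀ 2 (norm_nonneg _) h1
  have hS := Complex.dist_le_div_mul_dist_of_mapsTo_ball hM
    (hmaps.mono_right Metric.ball_subset_closedBall) hz
  rw [hM0, dist_zero_right, norm_div, div_le_iff₀ (norm_pos_iff.mpr (hne z hz)), dist_eq_norm]
    at hS
  have hρ : 1 / R * ‖z - c‖ = ‖z - c‖ / R := by ring
  rw [hρ] at hS
  have hzc : ‖z - c‖ < R := by
    have := hz; rwa [Metric.mem_ball, dist_eq_norm] at this
  have hρ0 : 0 ≤ ‖z - c‖ / R := by positivity
  have hρ1 : ‖z - c‖ / R ≤ 1 := (div_le_one hR).mpr hzc.le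
  refine F120_real (a := a) (Y := (f z).im) ha0 (hpos z hz) hρ0 hρ1 (norm_nonneg _) ?_ ?_
  · rw [← Complex.normSq_eq_norm_sq, Complex.normSq_apply]; ring
  · have h2 : ‖f z - a‖ ^ 2 ≤ (‖z - c‖ / R) ^ 2 * ‖f z + a‖ ^ 2 := by
      rw [← mul_pow]
      exact pow_le_pow_left₀ (norm_nonneg _) hS 2
    rw [← Complex.normSq_eq_norm_sq (f z - a), ← Complex.normSq_eq_norm_sq (f z + a),
      Complex.normSq_apply, Complex.normSq_apply] at h2
    simp only [Complex.sub_re, Complex.ofReal_re, Complex.sub_im, Complex.ofReal_im,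
        Complex.add_re, Complex.add_im] at h2
    nlinarith

/-- the point `1 - 1/w` in coordinates -/
theorem F120_coord (w : ℂ) : (1 - 1 / w).re = 1 - w.re / Complex.normSq w ∧
    (1 - 1 / w).im = w.im / Complex.normSq w := by
  constructor
  · rw [one_div, Complex.sub_re, Complex.one_re, Complex.inv_re]
  · rw [one_div, Complex.sub_im, Complex.one_im, Complex.inv_im]; ring

theorem F120_mem {w : ℂ} (h0 : |w.re| < 1 / 2) (h1 : 1 / 4 < w.im) : 1 - 1 / w ∈ Om1 := by
  have hw0 : w ≠ 0 := by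
    intro h; rw [h] at h1; simp at h1; linarith
  obtain ⟨e1, e2⟩ := F120_coord w
  have hN : Complex.normSq w = w.re ^ 2 + w.im ^ 2 := by rw [Complex.normSq_apply]; ring
  have hN0 : 0 < Complex.normSq w := Complex.normSq_pos.mpr hw0
  obtain ⟨ha, hb⟩ := abs_lt.mp h0
  rcases le_or_gt 0 w.re with hu | hu
  · apply mem_Om1
    · rw [e2]; positivity
    · rw [e1, abs_le]
      constructor
      · have : w.re / Complex.normSq w ≤ 2 := by
          rw [div_le_iff₀ hN0, hN]; nlinarith [sq_nonneg (w.re - 1 / 4)]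
        linarith
      · have : 0 ≤ w.re / Complex.normSq w := by positivity
        linarith
    · have hsq : 1 < ‖1 - 1 / w‖ ^ 2 := by
        rw [← Complex.normSq_eq_norm_sq, Complex.normSq_apply, e1, e2]
        have : (1 - w.re / Complex.normSq w) * (1 - w.re / Complex.normSq w) +
            w.im / Complex.normSq w * (w.im / Complex.normSq w) =
            1 + (1 - 2 * w.re) / Complex.normSq w := by
          have h3 : w.re ^ 2 + w.im ^ 2 = Complex.normSq w := hN.symm
          field_simp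
          linear_combination h3
        rw [this]
        have : 0 < (1 - 2 * w.re) / Complex.normSq w := div_pos (by linarith) hN0
        linarith
      nlinarith [norm_nonneg (1 - 1 / w)]
  · have hz : (1 - 1 / w : ℂ) = (-1 - 1 / w) + 2 := by ring
    rw [hz, add_two_mem_Om1]
    have e1' : (-1 - 1 / w).re = -1 - w.re / Complex.normSq w := by
      have : (-1 - 1 / w : ℂ) = (1 - 1 / w) - 2 := by ring
      rw [this, Complex.sub_re, e1]; simp; ring
    have e2' : (-1 - 1 / w).im = w.im / Complex.normSq w := by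
      have : (-1 - 1 / w : ℂ) = (1 - 1 / w) - 2 := by ring
      rw [this, Complex.sub_im, e2]; simp
    apply mem_Om1
    · rw [e2']; positivity
    · rw [e1', abs_le]
      have h5 : w.re / Complex.normSq w ≤ 0 := div_nonpos_of_nonpos_of_nonneg hu.le hN0.le
      constructor
      · linarith
      · have : -2 ≤ w.re / Complex.normSq w := by
          rw [le_div_iff₀ hN0, hN]; nlinarith [sq_nonneg (w.re + 1 / 4)]
        linarith
    · have hsq : 1 < ‖-1 - 1 / w‖ ^ 2 := by
        rw [← Complex.normSq_eq_norm_sq, Complex.normSq_apply, e1', e2']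
        have : (-1 - w.re / Complex.normSq w) * (-1 - w.re / Complex.normSq w) +
            w.im / Complex.normSq w * (w.im / Complex.normSq w) =
            1 + (1 + 2 * w.re) / Complex.normSq w := by
          have h3 : w.re ^ 2 + w.im ^ 2 = Complex.normSq w := hN.symm
          field_simp
          linear_combination h3
        rw [this]
        have : 0 < (1 + 2 * w.re) / Complex.normSq w := div_pos (by linarith) hN0
        linarith
      nlinarith [norm_nonneg (-1 - 1 / w)]

theorem cos_bound_cusp {w : ℂ} (h0 : 0 < w.re) (h1 : w.re < 1 / 2) (h2 : 3 / 4 ≤ w.im) :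
    (1 - 2 * w.re) / 2 * ‖Yf (1 - 1 / w)‖ ≤ (Yf (1 - 1 / w)).re := by
  have hball : ∀ w' ∈ Metric.ball (I * (w.im : ℂ)) (1 / 2), |w'.re| < 1 / 2 ∧ 1 / 4 < w'.im := by
    intro w' hw'
    rw [Metric.mem_ball, dist_eq_norm] at hw'
    constructor
    · have := (Complex.abs_re_le_norm (w' - I * (w.im : ℂ))).trans_lt hw'
      simpa using this
    · have := (Complex.abs_im_le_norm (w' - I * (w.im : ℂ))).trans_lt hw'
      have h3 : (w' - I * (w.im : ℂ)).im = w'.im - w.im := by simp
      rw [h3, abs_lt] at this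
      linarith [this.1]
  have hw : w ∈ Metric.ball (I * (w.im : ℂ)) (1 / 2) := by
    rw [Metric.mem_ball, dist_eq_norm]
    have : w - I * (w.im : ℂ) = (w.re : ℂ) := by apply Complex.ext <;> simp
    rw [this, Complex.norm_real, Real.norm_eq_abs, abs_of_pos h0]
    exact h1
  have hmem : ∀ w' ∈ Metric.ball (I * (w.im : ℂ)) (1 / 2), 1 - 1 / w' ∈ Om1 := fun w' hw' =>
    F120_mem (hball w' hw').1 (hball w' hw').2
  have key := schwarz_re (fun w' => Yf (1 - 1 / w')) (I * (w.im : ℂ)) (1 / 2) (by norm_num)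
    (fun w' hw' => by
      have hw0 : w' ≠ 0 := by
        intro h; have := (hball w' hw').2; rw [h] at this; simp at this; linarith
      apply DifferentiableAt.differentiableWithinAt
      have hd := diffAt_Yf (hmem w' hw').1
      exact hd.comp w' ((differentiableAt_const _).sub
        ((differentiableAt_const _).div differentiableAt_id hw0)))
    (fun w' hw' => re_Yf_pos (hmem w' hw')) ?_ hw
  · have h3 : w - I * (w.im : ℂ) = (w.re : ℂ) := by apply Complex.ext <;> simp
    rw [h3, Complex.norm_real, Real.norm_eq_abs, abs_of_pos h0] at key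
    have h4 : (1 - 2 * w.re) / 2 = (1 - w.re / (1 / 2)) / 2 := by ring
    rw [h4]
    exact key
  · have hc := hmem _ (Metric.mem_ball_self (x := I * (w.im : ℂ)) (show (0 : ℝ) < 1 / 2 by norm_num))
    refine (Yf_side hc.1 ?_).1
    rw [(F120_coord _).1]
    simp

end RV11
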