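import Pool.Agent.LibRV11.Defs
import Pool.Agent.LibRV11.F100
import Pool.Agent.LibRV11.F101
import Pool.Agent.LibRV11.F108
import Pool.Agent.LibRV11.F120
open Complex Real MeasureTheory
open UpperHalfPlane hiding I
open scoped MatrixGroups ComplexConjugate

namespace RV11

/-! ### F121: lower bound for `cos arg Y` -/

theorem F121_compact : ∃ K : ℝ, 0 < K ∧ ∀ z : ℂ, |z.re| ≤ 1 → 2 / 3 ≤ z.im → z.im ≤ 2 →
    ‖Yf z‖ ≤ K := by
  have hcomp : IsCompact (Set.Icc (-1 : ℝ) 1 ×ℂ Set.Icc (2 / 3 : ℝ) 2) :=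
    isCompact_Icc.reProdIm isCompact_Icc
  have hcont : ContinuousOn Yf (Set.Icc (-1 : ℝ) 1 ×ℂ Set.Icc (2 / 3 : ℝ) 2) := by
    intro z hz
    have : 0 < z.im := lt_of_lt_of_le (by norm_num) hz.2.1
    exact (diffAt_Yf this).continuousAt.continuousWithinAt
  obtain ⟨K, hK⟩ := hcomp.exists_bound_of_continuousOn hcont
  refine ⟨max K 1, by positivity, fun z h1 h2 h3 => (hK z ?_).trans (le_max_left _ _)⟩
  exact ⟨⟨(abs_le.mp h1).1, (abs_le.mp h1).2⟩, ⟨h2, h3⟩⟩

theorem cos_bound : ∃ c : ℝ, 0 < c ∧ ∀ z : ℂ, 0 < z.im → z.im < 2 → 0 ≤ z.re → z.re < 1 →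
    1 < ‖z‖ → 0 < 1 - 2 * (1 / (1 - z)).re ∧ 1 / 4 ≤ (1 / (1 - z)).im ∧
      c * (1 - 2 * (1 / (1 - z)).re) * ‖Yf z‖ ≤ (Yf z).re := by
  obtain ⟨K, hK0, hK⟩ := F121_compact
  refine ⟨min (1 / 2) (1 / (60 * K)), by positivity, ?_⟩
  intro z h0 h1 hx0 hx1 hn
  have hz2 : 1 < z.re ^ 2 + z.im ^ 2 := by
    have : ‖z‖ ^ 2 = z.re ^ 2 + z.im ^ 2 := by
      rw [← Complex.normSq_eq_norm_sq, Complex.normSq_apply]; ring
    rw [← this]; nlinarith
  set N : ℝ := Complex.normSq (1 - z) with hN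
  have hN' : N = (1 - z.re) ^ 2 + z.im ^ 2 := by rw [hN, Complex.normSq_apply]; simp; ring
  have hN0 : 0 < N := by rw [hN']; positivity
  have hre : (1 / (1 - z)).re = (1 - z.re) / N := by
    rw [one_div, Complex.inv_re]; simp [hN]
  have him : (1 / (1 - z)).im = z.im / N := by
    rw [one_div, Complex.inv_im]; simp [hN]
  have hu : 1 - 2 * (1 / (1 - z)).re = (z.re ^ 2 + z.im ^ 2 - 1) / N := by
    rw [hre]
    field_simp
    rw [hN']; ring
  have hNle : N ≤ 2 * z.im ^ 2 := by rw [hN']; nlinarith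
  have hp : 0 < 1 - 2 * (1 / (1 - z)).re := by
    rw [hu]; exact div_pos (by linarith) hN0
  have hv : 1 / 4 ≤ (1 / (1 - z)).im := by
    rw [him, le_div_iff₀ hN0]
    nlinarith
  refine ⟨hp, hv, ?_⟩
  have hzne : (1 : ℂ) - z ≠ 0 := by
    intro h
    have := congrArg Complex.im h
    simp at this
    linarith
  rcases le_or_gt (3 / 4) ((1 / (1 - z)).im) with hc | hc
  · have hz : z = 1 - 1 / (1 / (1 - z)) := by
      rw [one_div_one_div]; ring
    have hpos : 0 < (1 / (1 - z)).re := by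
      rw [hre]; exact div_pos (by linarith) hN0
    have key := cos_bound_cusp (w := 1 / (1 - z)) hpos (by linarith) hc
    rw [← hz] at key
    refine le_trans ?_ key
    have : min (1 / 2) (1 / (60 * K)) * (1 - 2 * (1 / (1 - z)).re) ≤
        (1 - 2 * (1 / (1 - z)).re) / 2 := by
      have := mul_le_mul_of_nonneg_right (min_le_left (1 / 2) (1 / (60 * K))) hp.le
      linarith
    exact mul_le_mul_of_nonneg_right this (norm_nonneg _)
  · have hy : 2 / 3 < z.im := by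
      rw [him, div_lt_iff₀ hN0] at hc
      nlinarith
    have hN1 : 8 / 9 ≤ N := by
      rw [him, div_lt_iff₀ hN0] at hc
      nlinarith
    have hYK := hK z (abs_le.mpr ⟨by linarith, hx1.le⟩) hy.le h1.le
    have hlow := re_Yf_ge h0 h1 (abs_lt.mpr ⟨by linarith, hx1⟩) hn
    have hzim : (z + 1 / z).im = z.im * ((z.re ^ 2 + z.im ^ 2 - 1) / (z.re ^ 2 + z.im ^ 2)) := by
      rw [one_div, Complex.add_im, Complex.inv_im, Complex.normSq_apply]
      have : z.re * z.re + z.im * z.im ≠ 0 := by nlinarith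
      have : z.re ^ 2 + z.im ^ 2 ≠ 0 := by nlinarith
      field_simp
      ring
    have h5 : z.re ^ 2 + z.im ^ 2 ≤ 5 := by nlinarith
    set m : ℝ := z.re ^ 2 + z.im ^ 2 - 1 with hm
    have hm0 : 0 < m := by linarith
    have hm5 : 2 / 3 * (m / 5) ≤ (z + 1 / z).im := by
      rw [hzim]
      have : m / 5 ≤ m / (z.re ^ 2 + z.im ^ 2) := div_le_div_of_nonneg_left hm0.le (by linarith) h5
      exact mul_le_mul hy.le this (by positivity) h0.le
    have h6 : (1 - 2 * (1 / (1 - z)).re) ≤ m * (9 / 8) := by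
      rw [hu, div_le_iff₀ hN0]
      nlinarith
    calc min (1 / 2) (1 / (60 * K)) * (1 - 2 * (1 / (1 - z)).re) * ‖Yf z‖
        ≤ 1 / (60 * K) * (m * (9 / 8)) * K := by
          gcongr
          exact min_le_right _ _
      _ = 9 / 8 * m / 60 := by field_simp
      _ ≤ 2 / 3 * (m / 5) / 4 := by linarith
      _ ≤ (z + 1 / z).im / 4 := by linarith
      _ ≤ _ := hlow

end RV11
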