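import Pool.Agent.LibRV11.Defs
import Pool.Agent.LibRV11.F100
import Pool.Agent.LibRV11.F101
import Pool.Agent.LibRV11.F102
import Pool.Agent.LibRV11.F103
import Pool.Agent.LibRV11.F104
import Pool.Agent.LibRV11.F109
import Pool.Agent.LibRV11.F121
open Complex Real MeasureTheory
open UpperHalfPlane hiding I
open scoped MatrixGroups ComplexConjugate

namespace RV11

/-! ### F122: bounds for `Bd` -/

theorem Bd_nonneg {z : ℂ} (h : 0 < (Yf z).re) : 0 ≤ Bd z := by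
  unfold Bd; positivity

theorem Bd_conj {z : ℂ} (hz : 0 < z.im) : Bd (-(conj z)) = Bd z := by
  unfold Bd
  rw [theta_conj, Yf_conj hz, RCLike.norm_conj, RCLike.norm_conj, Complex.conj_re]

theorem Bd_top : ∃ C : ℝ, ∀ z : ℂ, 2 ≤ z.im → Bd z ≤ C := by
  refine ⟨2 * (1 + 11 / 10 : ℝ) ^ (1 / 4 : ℝ) * (11 / 10 / (9 / 10) : ℝ) ^ (1 / 4 : ℝ), ?_⟩
  intro z hz
  have h1 := Yf_near_one hz
  have h2 := theta_norm_le_two hz
  have h3 : ‖Yf z‖ ≤ 11 / 10 := by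
    calc ‖Yf z‖ = ‖(Yf z - 1) + 1‖ := by ring_nf
      _ ≤ ‖Yf z - 1‖ + ‖(1 : ℂ)‖ := norm_add_le _ _
      _ ≤ 11 / 10 := by rw [norm_one]; linarith
  have h4 : 9 / 10 ≤ (Yf z).re := by
    have := (Complex.abs_re_le_norm (Yf z - 1)).trans h1
    rw [Complex.sub_re, Complex.one_re, abs_le] at this
    linarith [this.1]
  unfold Bd
  have h5 : ‖Yf z‖ / (Yf z).re ≤ 11 / 10 / (9 / 10) := by gcongr
  have h6 : 0 ≤ ‖Yf z‖ / (Yf z).re := by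
    apply div_nonneg (norm_nonneg _); linarith
  gcongr

theorem Bd_right : ∃ C : ℝ, 0 < C ∧ ∀ z : ℂ, 0 < z.im → z.im < 2 → 0 ≤ z.re → z.re < 1 →
    1 < ‖z‖ → Bd z ^ 2 * Real.sqrt z.im ≤
      C * (Real.sqrt (1 / (1 - z)).im * (1 - 2 * (1 / (1 - z)).re) ^ (-(1 / 2) : ℝ)) := by
  obtain ⟨c, hc0, hc⟩ := cos_bound
  obtain ⟨T, hT⟩ := theta_bound
  refine ⟨Real.sqrt (3 * T ^ 4 + 1) * c ^ (-(1 / 2) : ℝ), by positivity, ?_⟩
  intro z h0 h1 hx0 hx1 hn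
  obtain ⟨hp, hv, hcos⟩ := hc z h0 h1 hx0 hx1 hn
  set w : ℂ := 1 / (1 - z) with hw
  have hzne : (1 : ℂ) - z ≠ 0 := by
    intro h
    have := congrArg Complex.im h
    simp at this
    linarith
  have hz : z = 1 - 1 / w := by rw [hw, one_div_one_div]; ring
  have hwim : 0 < w.im := by linarith
  have hw0 : w ≠ 0 := by
    intro h; rw [h] at hwim; simp at hwim
  obtain ⟨t1, t2, t3⟩ := hT w hv
  -- the theta function
  have hth : ‖jacobiTheta z‖ ^ 2 = ‖w‖ * ‖th2 w‖ ^ 2 := by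
    rw [hz, theta_one_sub w hwim, norm_mul, mul_pow]
    congr 1
    have : ‖(-I * w) ^ (1 / 2 : ℂ)‖ ^ 2 = ‖(-I * w) ^ (1 / 2 : ℂ) * (-I * w) ^ (1 / 2 : ℂ)‖ := by
      rw [norm_mul]; ring
    rw [this, ← Complex.cpow_add _ _ (mul_ne_zero (neg_ne_zero.mpr I_ne_zero) hw0)]
    norm_num
  have hzim : z.im = w.im / ‖w‖ ^ 2 := by
    conv_lhs => rw [hz]
    rw [(F120_coord w).2, Complex.normSq_eq_norm_sq]
  have hwn : 0 < ‖w‖ := norm_pos_iff.mpr hw0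
  have hsq : Real.sqrt z.im = Real.sqrt w.im / ‖w‖ := by
    rw [hzim, Real.sqrt_div hwim.le, Real.sqrt_sq hwn.le]
  have hA : ‖jacobiTheta z‖ ^ 2 * Real.sqrt z.im = ‖th2 w‖ ^ 2 * Real.sqrt w.im := by
    rw [hth, hsq]; field_simp
  -- positivity of Re Y
  have hYpos : 0 < (Yf z).re := re_Yf_pos (mem_Om1 h0 (abs_le.mpr ⟨by linarith, hx1.le⟩) hn)
  have hYn : 0 < ‖Yf z‖ := lt_of_lt_of_le hYpos (Complex.re_le_norm _)
  -- |th2|^4 (1 + |Y|) ≤ 3 T^4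
  have hth2 : ‖th2 w‖ ^ 4 * (1 + ‖Yf z‖) ≤ 3 * T ^ 4 := by
    have hT0 : 0 ≤ T := (norm_nonneg _).trans t1
    have e1 : ‖th2 w‖ ^ 4 * ‖Yf z‖ ≤ 2 * T ^ 4 := by
      rw [hz, Yf_cusp hwim, norm_div, norm_pow]
      have e2 : ‖th2 w‖ ^ 4 * (‖jacobiTheta w ^ 4 + jacobiTheta (w + 1) ^ 4‖ / ‖th2 w‖ ^ 4) ≤
          ‖jacobiTheta w ^ 4 + jacobiTheta (w + 1) ^ 4‖ := by
        by_cases h : ‖th2 w‖ = 0
        · rw [h]; simp
        · rw [mul_div_cancel₀ _ (pow_ne_zero 4 h)]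
      refine e2.trans ((norm_add_le _ _).trans ?_)
      rw [norm_pow, norm_pow]
      have := pow_le_pow_left₀ (norm_nonneg _) t1 4
      have := pow_le_pow_left₀ (norm_nonneg _) t2 4
      linarith
    have := pow_le_pow_left₀ (norm_nonneg _) t3 4
    nlinarith
  have hB : ‖th2 w‖ ^ 2 * (1 + ‖Yf z‖) ^ (1 / 2 : ℝ) ≤ Real.sqrt (3 * T ^ 4 + 1) := by
    apply Real.le_sqrt_of_sq_le
    rw [mul_pow, ← Real.sqrt_eq_rpow, Real.sq_sqrt (by positivity)]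
    calc _ = ‖th2 w‖ ^ 4 * (1 + ‖Yf z‖) := by ring
      _ ≤ 3 * T ^ 4 + 1 := by linarith
  have hD : (‖Yf z‖ / (Yf z).re) ^ (1 / 2 : ℝ) ≤
      c ^ (-(1 / 2) : ℝ) * (1 - 2 * w.re) ^ (-(1 / 2) : ℝ) := by
    rw [← Real.mul_rpow hc0.le hp.le, Real.rpow_neg (by positivity), ← Real.inv_rpow (by positivity)]
    apply Real.rpow_le_rpow (by positivity) _ (by norm_num)
    rw [div_le_iff₀ hYpos, inv_mul_eq_div, le_div_iff₀ (by positivity)]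
    linarith
  have hBd : Bd z ^ 2 = ‖jacobiTheta z‖ ^ 2 * (1 + ‖Yf z‖) ^ (1 / 2 : ℝ) *
      (‖Yf z‖ / (Yf z).re) ^ (1 / 2 : ℝ) := by
    unfold Bd
    rw [mul_pow, mul_pow, ← Real.rpow_natCast, ← Real.rpow_natCast, ← Real.rpow_natCast,
      ← Real.rpow_mul (by positivity), ← Real.rpow_mul (by positivity)]
    norm_num
  calc Bd z ^ 2 * Real.sqrt z.im
      = (‖jacobiTheta z‖ ^ 2 * Real.sqrt z.im) * (1 + ‖Yf z‖) ^ (1 / 2 : ℝ) *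
      (‖Yf z‖ / (Yf z).re) ^ (1 / 2 : ℝ) := by rw [hBd]; ring
    _ = (‖th2 w‖ ^ 2 * (1 + ‖Yf z‖) ^ (1 / 2 : ℝ)) * Real.sqrt w.im *
      (‖Yf z‖ / (Yf z).re) ^ (1 / 2 : ℝ) := by rw [hA]; ring
    _ ≤ Real.sqrt (3 * T ^ 4 + 1) * Real.sqrt w.im *
      (c ^ (-(1 / 2) : ℝ) * (1 - 2 * w.re) ^ (-(1 / 2) : ℝ)) := by gcongr
    _ = _ := by ring

end RV11
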