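import Pool.Agent.LibRV11.Defs
import Pool.Agent.LibRV11.F100
import Pool.Agent.LibRV11.TH13
open Complex Real MeasureTheory
open UpperHalfPlane hiding I
open scoped MatrixGroups ComplexConjugate

namespace RV11

/-! ### F123: three integrals over parts of `DD` -/

/-- right half below height 2 -/
def DR : Set ℍ := {z | z ∈ DD ∧ 0 ≤ z.re ∧ z.im < 2}

/-- left half below height 2 -/
def DL : Set ℍ := {z | z ∈ DD ∧ z.re ≤ 0 ∧ z.im < 2}

/-- part above height 2 -/
def DT : Set ℍ := {z | z ∈ DD ∧ 2 ≤ z.im}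

private theorem f123_measDD : MeasurableSet DD := by
  have h1 : IsOpen DD := by
    refine IsOpen.inter ?_ ?_
    · exact isOpen_lt (continuous_abs.comp UpperHalfPlane.continuous_re) continuous_const
    · exact isOpen_lt continuous_const (continuous_norm.comp UpperHalfPlane.continuous_coe)
  exact h1.measurableSet

private theorem f123_mp (g : SL(2, ℤ)) : MeasurePreserving (fun z : ℍ => g • z) ∧
    MeasurableEmbedding (fun z : ℍ => g • z) := by
  have h1 : (fun z : ℍ => g • z) = fun z : ℍ => (g : GL (Fin 2) ℝ) • z := by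
    funext z
    rfl
  rw [h1]
  exact ⟨measurePreserving_smul _ _, measurableEmbedding_const_smul _⟩

/-- separated variables -/
private theorem f123_fin (J : Set ℝ) (hJ : MeasurableSet J) (h : ℝ → ENNReal) (hh : Measurable h)
    (c : ℝ) (hc : 0 < c) (hfin : ∫⁻ x in J, h x < ⊤) :
    ∫⁻ z : ℍ, ({w : ℂ | w.re ∈ J ∧ c ≤ w.im}.indicator
      (fun w : ℂ => ENNReal.ofReal (Real.sqrt w.im) * h w.re)) (z : ℂ) < ⊤ := by
  have hmeas : MeasurableSet {w : ℂ | w.re ∈ J ∧ c ≤ w.im} :=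
    (Complex.measurable_re hJ).inter (measurableSet_le measurable_const Complex.measurable_im)
  have hf : Measurable ({w : ℂ | w.re ∈ J ∧ c ≤ w.im}.indicator
      (fun w : ℂ => ENNReal.ofReal (Real.sqrt w.im) * h w.re)) := by
    refine Measurable.indicator ?_ hmeas
    exact (Real.continuous_sqrt.measurable.comp Complex.measurable_im).ennreal_ofReal.mul
      (hh.comp Complex.measurable_re)
  rw [lintegral_coord _ hf]
  have hpt : ∀ y ∈ Set.Ioi (0 : ℝ), ∫⁻ x : ℝ, ({w : ℂ | w.re ∈ J ∧ c ≤ w.im}.indicator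
      (fun w : ℂ => ENNReal.ofReal (Real.sqrt w.im) * h w.re)) (x + I * y) *
      ENNReal.ofReal (1 / y ^ 2) =
      (Set.Ioi (c / 2)).indicator (fun y => if c ≤ y then
        ENNReal.ofReal (Real.sqrt y * (1 / y ^ 2)) * ∫⁻ x in J, h x else 0) y := by
    intro y hy
    have hy0 : 0 < y := hy
    have hre : ∀ x : ℝ, ((x : ℂ) + I * y).re = x := by intro x; simp
    have him : ∀ x : ℝ, ((x : ℂ) + I * y).im = y := by intro x; simp
    by_cases hcy : c ≤ y
    · rw [Set.indicator_of_mem (show y ∈ Set.Ioi (c / 2) by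
        rw [Set.mem_Ioi]; linarith), if_pos hcy, ← lintegral_indicator hJ, ← lintegral_const_mul]
      · refine lintegral_congr fun x => ?_
        by_cases hx : x ∈ J
        · rw [Set.indicator_of_mem (by exact ⟨by rw [hre]; exact hx, by rw [him]; exact hcy⟩),
            Set.indicator_of_mem hx, hre, him, ENNReal.ofReal_mul (Real.sqrt_nonneg _)]
          ring
        · rw [Set.indicator_of_notMem (fun hm => hx (by have := hm.1; rwa [hre] at this)),
            Set.indicator_of_notMem hx]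
          simp
      · exact hh.indicator hJ
    · have : ∀ x : ℝ, ({w : ℂ | w.re ∈ J ∧ c ≤ w.im}.indicator
          (fun w : ℂ => ENNReal.ofReal (Real.sqrt w.im) * h w.re)) (x + I * y) *
          ENNReal.ofReal (1 / y ^ 2) = 0 := by
        intro x
        rw [Set.indicator_of_notMem (fun hm => hcy (by have := hm.2; rwa [him] at this)),
          zero_mul]
      simp only [this, lintegral_zero]
      by_cases hm : y ∈ Set.Ioi (c / 2)
      · rw [Set.indicator_of_mem hm, if_neg hcy]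
      · rw [Set.indicator_of_notMem hm]
  rw [setLIntegral_congr_fun measurableSet_Ioi hpt]
  set K : ENNReal := ∫⁻ x in J, h x with hK
  have hint : IntegrableOn (fun y : ℝ => y ^ (-(3 / 2) : ℝ)) (Set.Ioi (c / 2)) :=
    integrableOn_Ioi_rpow_of_lt (by norm_num) (by linarith)
  have hlt : ∫⁻ y in Set.Ioi (c / 2), ENNReal.ofReal (y ^ (-(3 / 2) : ℝ)) < ⊤ :=
    hint.lintegral_lt_top
  refine lt_of_le_of_lt (b := ∫⁻ y in Set.Ioi (0 : ℝ), (Set.Ioi (c / 2)).indicator
    (fun y : ℝ => ENNReal.ofReal (y ^ (-(3 / 2) : ℝ)) * K) y) ?_ ?_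
  · refine setLIntegral_mono' measurableSet_Ioi fun y hy => ?_
    refine Set.indicator_le_indicator ?_
    by_cases hcy : c ≤ y
    · rw [if_pos hcy]
      refine mul_le_mul_left (ENNReal.ofReal_le_ofReal (le_of_eq ?_)) K
      have hy0 : 0 < y := hy
      have e2 : (1 / y ^ 2 : ℝ) = y ^ (-2 : ℝ) := by
        rw [Real.rpow_neg hy0.le, one_div]
        norm_num
      rw [Real.sqrt_eq_rpow, e2, ← Real.rpow_add hy0]
      norm_num
    · rw [if_neg hcy]
      exact zero_le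
  · rw [lintegral_indicator measurableSet_Ioi, Measure.restrict_restrict measurableSet_Ioi]
    refine lt_of_le_of_lt (lintegral_mono_set Set.inter_subset_left) ?_
    rw [lintegral_mul_const' _ _ hfin.ne]
    exact ENNReal.mul_lt_top hlt hfin

/-- comparison after a Möbius transformation -/
private theorem f123_comp (g : SL(2, ℤ)) (S : Set ℍ) (hS : MeasurableSet S) (G : ℍ → ENNReal)
    (F : ℂ → ENNReal) (h : ∀ z ∈ S, G z ≤ F ((g • z : ℍ) : ℂ)) :
    ∫⁻ z : ℍ in S, G z ≤ ∫⁻ z : ℍ, F (z : ℂ) := by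
  calc ∫⁻ z : ℍ in S, G z ≤ ∫⁻ z : ℍ in S, F ((g • z : ℍ) : ℂ) := setLIntegral_mono' hS h
    _ ≤ ∫⁻ z : ℍ, F ((g • z : ℍ) : ℂ) := setLIntegral_le_lintegral _ _
    _ = ∫⁻ z : ℍ, F (z : ℂ) := (f123_mp g).1.lintegral_comp_emb (f123_mp g).2 (fun z => F (z : ℂ))

private theorem f123_sing : ∫⁻ x in Set.Ioo (0 : ℝ) (1 / 2),
    ENNReal.ofReal ((1 - 2 * x) ^ (-(1 / 2) : ℝ)) < ⊤ := by
  have h0 : IntervalIntegrable (fun x : ℝ => x ^ (-(1 / 2) : ℝ)) volume 1 0 :=
    intervalIntegral.intervalIntegrable_rpow' (by norm_num)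
  have h1 := (h0.comp_sub_left 1)
  have h2 := h1.comp_mul_left (c := 2)
  have h3 : IntervalIntegrable (fun x : ℝ => (1 - 2 * x) ^ (-(1 / 2) : ℝ)) volume 0 (1 / 2) := by
    convert h2 using 1 <;> norm_num
  have h4 : IntegrableOn (fun x : ℝ => (1 - 2 * x) ^ (-(1 / 2) : ℝ)) (Set.Ioc 0 (1 / 2)) :=
    (intervalIntegrable_iff_integrableOn_Ioc_of_le (by norm_num)).mp h3
  exact (h4.mono_set Set.Ioo_subset_Ioc_self).lintegral_lt_top

private theorem f123_arith {x y : ℝ} (hy : 0 < y) (hx1 : x < 1) (hx0 : 0 ≤ x) (hn : 1 < x ^ 2 + y ^ 2)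
    (hy2 : y < 2) : 0 < (1 - x) / ((1 - x) ^ 2 + y ^ 2) ∧
      (1 - x) / ((1 - x) ^ 2 + y ^ 2) < 1 / 2 ∧ 1 / 4 ≤ y / ((1 - x) ^ 2 + y ^ 2) := by
  have hN : 0 < (1 - x) ^ 2 + y ^ 2 := by positivity
  refine ⟨by apply div_pos (by linarith) hN, ?_, ?_⟩
  · rw [div_lt_div_iff₀ hN (by norm_num)]
    nlinarith
  · rw [div_le_div_iff₀ (by norm_num) hN]
    nlinarith [mul_pos hy (by linarith : 0 < 2 - y), mul_nonneg hx0 (by linarith : 0 ≤ 1 - x)]

private noncomputable def f123_g1 : SL(2, ℤ) := ⟨!![0, 1; -1, 1], by simp [Matrix.det_fin_two]⟩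

private noncomputable def f123_g2 : SL(2, ℤ) := ⟨!![0, -1; 1, 1], by simp [Matrix.det_fin_two]⟩

private theorem f123_g1_smul (z : ℍ) : ((f123_g1 • z : ℍ) : ℂ) = 1 / (1 - (z : ℂ)) := by
  rw [UpperHalfPlane.coe_specialLinearGroup_apply]
  simp only [f123_g1]
  simp
  ring

private theorem f123_g2_smul (z : ℍ) : ((f123_g2 • z : ℍ) : ℂ) = -1 / (1 + (z : ℂ)) := by
  rw [UpperHalfPlane.coe_specialLinearGroup_apply]
  simp only [f123_g2]
  simp
  ring

private theorem f123_norm {z : ℍ} (h : 1 < ‖(z : ℂ)‖) : 1 < z.re ^ 2 + z.im ^ 2 := by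
  have h1 : ‖(z : ℂ)‖ ^ 2 = z.re ^ 2 + z.im ^ 2 := by
    rw [Complex.sq_norm, Complex.normSq_apply]
    simp only [UpperHalfPlane.coe_re, UpperHalfPlane.coe_im]
    ring
  rw [← h1]
  nlinarith [norm_nonneg (z : ℂ)]

theorem int_DR : ∫⁻ z : ℍ in DR, ENNReal.ofReal (Real.sqrt (1 / (1 - (z : ℂ))).im *
    (1 - 2 * (1 / (1 - (z : ℂ))).re) ^ (-(1 / 2) : ℝ)) < ⊤ := by
  have hmeas : MeasurableSet DR := by
    refine f123_measDD.inter (MeasurableSet.inter ?_ ?_)
    · exact measurableSet_le measurable_const UpperHalfPlane.continuous_re.measurable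
    · exact measurableSet_lt UpperHalfPlane.continuous_im.measurable measurable_const
  have hh : Measurable fun x : ℝ => ENNReal.ofReal ((1 - 2 * x) ^ (-(1 / 2) : ℝ)) :=
    ((measurable_const.sub (measurable_id.const_mul 2)).pow_const _).ennreal_ofReal
  refine lt_of_le_of_lt (f123_comp f123_g1 DR hmeas _ _ ?_)
    (f123_fin (Set.Ioo 0 (1 / 2)) measurableSet_Ioo _ hh (1 / 4) (by norm_num) f123_sing)
  intro z hz
  obtain ⟨⟨hz1, hz2⟩, hz3, hz4⟩ := hz
  rw [f123_g1_smul]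
  have hre : (1 / (1 - (z : ℂ))).re = (1 - z.re) / ((1 - z.re) ^ 2 + z.im ^ 2) := by
    rw [one_div, Complex.inv_re, Complex.normSq_apply]
    simp only [Complex.sub_re, Complex.one_re, UpperHalfPlane.coe_re, Complex.sub_im,
      Complex.one_im, UpperHalfPlane.coe_im]
    congr 1
    ring
  have him : (1 / (1 - (z : ℂ))).im = z.im / ((1 - z.re) ^ 2 + z.im ^ 2) := by
    rw [one_div, Complex.inv_im, Complex.normSq_apply]
    simp only [Complex.sub_re, Complex.one_re, UpperHalfPlane.coe_re, Complex.sub_im,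
      Complex.one_im, UpperHalfPlane.coe_im]
    congr 1 <;> ring
  obtain ⟨h1, h2, h3⟩ := f123_arith z.im_pos (abs_lt.mp hz1).2 hz3 (f123_norm hz2) hz4
  rw [Set.indicator_of_mem (by
    refine ⟨⟨?_, ?_⟩, ?_⟩
    · rw [hre]; exact h1
    · rw [hre]; exact h2
    · rw [him]; exact h3), ENNReal.ofReal_mul (Real.sqrt_nonneg _)]

private theorem f123_sing2 : ∫⁻ x in Set.Ioo (-(1 / 2) : ℝ) 0,
    ENNReal.ofReal ((1 - 2 * (-x)) ^ (-(1 / 2) : ℝ)) < ⊤ := by
  have h0 : IntervalIntegrable (fun x : ℝ => x ^ (-(1 / 2) : ℝ)) volume 0 1 :=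
    intervalIntegral.intervalIntegrable_rpow' (by norm_num)
  have h1 := (h0.comp_add_left 1)
  have h2 := h1.comp_mul_left (c := 2)
  have h3 : IntervalIntegrable (fun x : ℝ => (1 - 2 * (-x)) ^ (-(1 / 2) : ℝ)) volume
      (-(1 / 2)) 0 := by
    convert h2 using 1
    · funext x; ring_nf
    · norm_num
    · norm_num
  have h4 : IntegrableOn (fun x : ℝ => (1 - 2 * (-x)) ^ (-(1 / 2) : ℝ)) (Set.Ioc (-(1 / 2)) 0) :=
    (intervalIntegrable_iff_integrableOn_Ioc_of_le (by norm_num)).mp h3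
  exact (h4.mono_set Set.Ioo_subset_Ioc_self).lintegral_lt_top

theorem int_DL : ∫⁻ z : ℍ in DL, ENNReal.ofReal (Real.sqrt (-1 / (1 + (z : ℂ))).im *
    (1 - 2 * (1 / (1 + (z : ℂ))).re) ^ (-(1 / 2) : ℝ)) < ⊤ := by
  have hmeas : MeasurableSet DL := by
    refine f123_measDD.inter (MeasurableSet.inter ?_ ?_)
    · exact measurableSet_le UpperHalfPlane.continuous_re.measurable measurable_const
    · exact measurableSet_lt UpperHalfPlane.continuous_im.measurable measurable_const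
  have hh : Measurable fun x : ℝ => ENNReal.ofReal ((1 - 2 * (-x)) ^ (-(1 / 2) : ℝ)) :=
    ((measurable_const.sub (measurable_id.neg.const_mul 2)).pow_const _).ennreal_ofReal
  refine lt_of_le_of_lt (f123_comp f123_g2 DL hmeas _ _ ?_)
    (f123_fin (Set.Ioo (-(1 / 2)) 0) measurableSet_Ioo _ hh (1 / 4) (by norm_num) f123_sing2)
  intro z hz
  obtain ⟨⟨hz1, hz2⟩, hz3, hz4⟩ := hz
  rw [f123_g2_smul]
  have hre : (1 / (1 + (z : ℂ))).re = (1 - (-z.re)) / ((1 - (-z.re)) ^ 2 + z.im ^ 2) := by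
    rw [one_div, Complex.inv_re, Complex.normSq_apply]
    simp only [Complex.add_re, Complex.one_re, UpperHalfPlane.coe_re, Complex.add_im,
      Complex.one_im, UpperHalfPlane.coe_im]
    congr 1 <;> ring
  have hre' : (-1 / (1 + (z : ℂ))).re = -((1 - (-z.re)) / ((1 - (-z.re)) ^ 2 + z.im ^ 2)) := by
    rw [neg_div, Complex.neg_re, hre]
  have him : (-1 / (1 + (z : ℂ))).im = z.im / ((1 - (-z.re)) ^ 2 + z.im ^ 2) := by
    rw [neg_div, Complex.neg_im, one_div, Complex.inv_im, Complex.normSq_apply]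
    simp only [Complex.add_re, Complex.one_re, UpperHalfPlane.coe_re, Complex.add_im,
      Complex.one_im, UpperHalfPlane.coe_im]
    rw [neg_div, neg_neg]
    congr 1 <;> ring
  have hn := f123_norm hz2
  obtain ⟨h1, h2, h3⟩ := f123_arith (x := -z.re) z.im_pos (by linarith [(abs_lt.mp hz1).1])
    (by linarith) (by rw [neg_sq]; exact hn) hz4
  rw [Set.indicator_of_mem (by
    refine ⟨⟨?_, ?_⟩, ?_⟩
    · rw [hre']; linarith
    · rw [hre']; linarith
    · rw [him]; exact h3), ENNReal.ofReal_mul (Real.sqrt_nonneg _), hre', neg_neg, hre]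

theorem int_DT : ∫⁻ z : ℍ in DT, ENNReal.ofReal (Real.sqrt z.im) < ⊤ := by
  have hmeas : MeasurableSet DT :=
    f123_measDD.inter (measurableSet_le measurable_const UpperHalfPlane.continuous_im.measurable)
  have hfin : ∫⁻ x in Set.Ioo (-1 : ℝ) 1, (1 : ENNReal) < ⊤ := by
    rw [lintegral_const, one_mul, Measure.restrict_apply_univ, Real.volume_Ioo]
    exact ENNReal.ofReal_lt_top
  refine lt_of_le_of_lt ?_ (f123_fin (Set.Ioo (-1) 1) measurableSet_Ioo (fun _ => 1)
    measurable_const 2 (by norm_num) hfin)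
  rw [← lintegral_indicator hmeas]
  refine lintegral_mono fun z => ?_
  by_cases hz : z ∈ DT
  · obtain ⟨⟨hz1, hz2⟩, hz3⟩ := hz
    rw [Set.indicator_of_mem (show z ∈ DT from ⟨⟨hz1, hz2⟩, hz3⟩), Set.indicator_of_mem (by
      exact ⟨abs_lt.mp hz1, hz3⟩), mul_one]
    rfl
  · rw [Set.indicator_of_notMem hz]
    exact zero_le

theorem DD_subset : DD ⊆ DR ∪ DL ∪ DT := by
  intro z hz
  by_cases h : z.im < 2
  · rcases le_total 0 z.re with h1 | h1
    · exact Or.inl (Or.inl ⟨hz, h1, h⟩)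
    · exact Or.inl (Or.inr ⟨hz, h1, h⟩)
  · exact Or.inr ⟨hz, not_lt.mp h⟩

end RV11
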