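import Pool.Agent.LibRV11.Defs
import Pool.Agent.LibRV11.F100
import Pool.Agent.LibRV11.TH8
import Pool.Agent.LibRV11.TH10
import Pool.Agent.LibRV11.TH13
import Pool.Agent.LibRV11.F122
import Pool.Agent.LibRV11.F123
open Complex Real MeasureTheory
open UpperHalfPlane hiding I
open scoped MatrixGroups ComplexConjugate

namespace RV11

/-! ### F124: `L²` bound -/

private theorem f124_phh_le {r : ℝ} (hr : 0 ≤ r) (z : ℍ) :
    ‖phh r z‖ * ‖jacobiTheta (z : ℂ)‖ ≤ 1 := by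
  have hth : 0 < ‖jacobiTheta (z : ℂ)‖ := norm_pos_iff.2 (theta_ne_zero z)
  unfold phh
  rw [norm_div, div_mul_cancel₀ _ hth.ne', Complex.norm_exp]
  have h1 : (π * I * r * (z : ℂ)).re = -(π * r * z.im) := by
    have h2 : (π * I * r * (z : ℂ)) = ((π * r : ℝ) : ℂ) * (I * z) := by
      push_cast
      ring
    rw [h2, Complex.re_ofReal_mul, Complex.I_mul_re]
    simp
  rw [h1, Real.exp_le_one_iff]
  have := z.im_pos
  have := Real.pi_pos
  have : 0 ≤ π * r * z.im := by positivity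
  linarith

private theorem f124_pt (A : ℝ) {r : ℝ} (hr : 0 ≤ r) (F1 : ℂ → ℂ) (z : ℍ)
    (h : ‖F1 z‖ ≤ A * Bd z) :
    ‖F1 z / jacobiTheta z - phh r z‖ₑ ^ 2 * ENNReal.ofReal (W z) ≤
      ENNReal.ofReal (2 * A ^ 2 * (Bd z ^ 2 * Real.sqrt z.im) + 2 * Real.sqrt z.im) := by
  have hth : 0 < ‖jacobiTheta (z : ℂ)‖ := norm_pos_iff.2 (theta_ne_zero z)
  have hs : 0 ≤ Real.sqrt z.im := Real.sqrt_nonneg _
  rw [← ofReal_norm, ← ENNReal.ofReal_pow (norm_nonneg _),
    ← ENNReal.ofReal_mul (by positivity)]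
  refine ENNReal.ofReal_le_ofReal ?_
  have h1 : ‖F1 z / jacobiTheta z - phh r z‖ * ‖jacobiTheta (z : ℂ)‖ ≤ A * Bd z + 1 := by
    have h2 := norm_sub_le (F1 z / jacobiTheta z) (phh r z)
    have h3 : ‖F1 z / jacobiTheta z‖ * ‖jacobiTheta (z : ℂ)‖ = ‖F1 z‖ := by
      rw [norm_div, div_mul_cancel₀ _ hth.ne']
    have h4 := f124_phh_le hr z
    have h5 := mul_le_mul_of_nonneg_right h2 hth.le
    rw [add_mul, h3] at h5
    linarith
  have h2 : (‖F1 z / jacobiTheta z - phh r z‖ * ‖jacobiTheta (z : ℂ)‖) ^ 2 ≤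
      2 * A ^ 2 * Bd z ^ 2 + 2 := by
    have h3 := pow_le_pow_left₀ (by positivity) h1 2
    nlinarith [sq_nonneg (A * Bd z - 1)]
  unfold W
  calc ‖F1 z / jacobiTheta z - phh r z‖ ^ 2 * (‖jacobiTheta (z : ℂ)‖ ^ 2 * Real.sqrt z.im)
      = (‖F1 z / jacobiTheta z - phh r z‖ * ‖jacobiTheta (z : ℂ)‖) ^ 2 * Real.sqrt z.im := by ring
    _ ≤ (2 * A ^ 2 * Bd z ^ 2 + 2) * Real.sqrt z.im := mul_le_mul_of_nonneg_right h2 hs
    _ = 2 * A ^ 2 * (Bd z ^ 2 * Real.sqrt z.im) + 2 * Real.sqrt z.im := by ring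

/-- the model function on the right half -/
private noncomputable def f124_R (z : ℂ) : ℝ :=
  Real.sqrt (1 / (1 - z)).im * (1 - 2 * (1 / (1 - z)).re) ^ (-(1 / 2) : ℝ)

/-- the model function on the left half -/
private noncomputable def f124_L (z : ℂ) : ℝ :=
  Real.sqrt (-1 / (1 + z)).im * (1 - 2 * (1 / (1 + z)).re) ^ (-(1 / 2) : ℝ)

private theorem f124_LR (z : ℂ) : f124_R (-(conj z)) = f124_L z := by
  have h1 : 1 / (1 - -(conj z)) = conj (1 / (1 + z)) := by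
    rw [map_div₀, map_one, map_add, map_one, sub_neg_eq_add]
  have h2 : (-1 / (1 + z)).im = (conj (1 / (1 + z))).im := by
    rw [Complex.conj_im, neg_div, Complex.neg_im]
  unfold f124_R f124_L
  rw [h1, h2, Complex.conj_re]

private theorem f124_sqrt_le {y : ℝ} (hy : y < 2) : Real.sqrt y ≤ 2 := by
  rw [Real.sqrt_le_left (by norm_num)]
  linarith

theorem L2_of_Bd (A : ℝ) : ∃ C : ℝ, ∀ r : ℝ, 0 ≤ r → ∀ F1 : ℂ → ℂ,
    (∀ z : ℂ, z ∈ Om1 → ‖F1 z‖ ≤ A * Bd z) →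
    (∫⁻ z : ℍ in DD, ‖F1 z / jacobiTheta z - phh r z‖ₑ ^ 2 * ENNReal.ofReal (W z)) ≤
      ENNReal.ofReal C := by
  obtain ⟨C1, hC1, hR⟩ := Bd_right
  obtain ⟨C2, hT⟩ := Bd_top
  set K1 : ℝ := 2 * A ^ 2 * C1 with hK1
  have hK1n : 0 ≤ K1 := by positivity
  set TR : ENNReal := ∫⁻ z : ℍ in DR, (ENNReal.ofReal K1 * ENNReal.ofReal (f124_R z) +
    ENNReal.ofReal 4) with hTR
  set TL : ENNReal := ∫⁻ z : ℍ in DL, (ENNReal.ofReal K1 * ENNReal.ofReal (f124_L z) +
    ENNReal.ofReal 4) with hTL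
  set TT : ENNReal := ∫⁻ z : ℍ in DT, ENNReal.ofReal (2 * A ^ 2 * C2 ^ 2 + 2) *
    ENNReal.ofReal (Real.sqrt z.im) with hTT
  have hvR : volume DR < ⊤ := lt_of_le_of_lt (measure_mono fun z hz => hz.1) volume_DD_lt_top
  have hvL : volume DL < ⊤ := lt_of_le_of_lt (measure_mono fun z hz => hz.1) volume_DD_lt_top
  have hTRf : TR < ⊤ := by
    rw [hTR, lintegral_add_right _ measurable_const, lintegral_const_mul' _ _ ENNReal.ofReal_ne_top,
      setLIntegral_const]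
    exact ENNReal.add_lt_top.2 ⟨ENNReal.mul_lt_top ENNReal.ofReal_lt_top int_DR,
      ENNReal.mul_lt_top ENNReal.ofReal_lt_top hvR⟩
  have hTLf : TL < ⊤ := by
    rw [hTL, lintegral_add_right _ measurable_const, lintegral_const_mul' _ _ ENNReal.ofReal_ne_top,
      setLIntegral_const]
    exact ENNReal.add_lt_top.2 ⟨ENNReal.mul_lt_top ENNReal.ofReal_lt_top int_DL,
      ENNReal.mul_lt_top ENNReal.ofReal_lt_top hvL⟩
  have hTTf : TT < ⊤ := by
    rw [hTT, lintegral_const_mul' _ _ ENNReal.ofReal_ne_top]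
    exact ENNReal.mul_lt_top ENNReal.ofReal_lt_top int_DT
  have hfin : TR + TL + TT ≠ ⊤ := by
    refine ENNReal.add_ne_top.2 ⟨ENNReal.add_ne_top.2 ⟨hTRf.ne, hTLf.ne⟩, hTTf.ne⟩
  refine ⟨(TR + TL + TT).toReal, fun r hr F1 hF1 => ?_⟩
  rw [ENNReal.ofReal_toReal hfin]
  have hOm : ∀ z : ℍ, z ∈ DD → (z : ℂ) ∈ Om1 := fun z hz =>
    mem_Om1 z.im_pos (le_of_lt hz.1) hz.2
  set f : ℍ → ENNReal := fun z =>
    ‖F1 z / jacobiTheta z - phh r z‖ₑ ^ 2 * ENNReal.ofReal (W z) with hf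
  -- measurability of the three sets
  have hre : Measurable fun z : ℍ => z.re := UpperHalfPlane.continuous_re.measurable
  have him : Measurable fun z : ℍ => z.im := UpperHalfPlane.continuous_im.measurable
  have hmR : MeasurableSet DR :=
    measurableSet_DD.inter ((measurableSet_le measurable_const hre).inter
      (measurableSet_lt him measurable_const))
  have hmL : MeasurableSet DL :=
    measurableSet_DD.inter ((measurableSet_le hre measurable_const).inter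
      (measurableSet_lt him measurable_const))
  have hmT : MeasurableSet DT :=
    measurableSet_DD.inter (measurableSet_le measurable_const him)
  have key : ∀ z : ℍ, z ∈ DD → ∀ M : ℝ, Bd z ^ 2 * Real.sqrt z.im ≤ C1 * M → z.im < 2 →
      f z ≤ ENNReal.ofReal K1 * ENNReal.ofReal M + ENNReal.ofReal 4 := by
    intro z hz M hM hy
    refine le_trans (f124_pt A hr F1 z (hF1 z (hOm z hz))) ?_
    have h1 : 2 * A ^ 2 * (Bd z ^ 2 * Real.sqrt z.im) + 2 * Real.sqrt z.im ≤ K1 * M + 4 := by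
      have h2 : 2 * A ^ 2 * (Bd z ^ 2 * Real.sqrt z.im) ≤ 2 * A ^ 2 * (C1 * M) :=
        mul_le_mul_of_nonneg_left hM (by positivity)
      have h3 := f124_sqrt_le hy
      rw [hK1]
      nlinarith
    refine le_trans (ENNReal.ofReal_le_ofReal h1) ?_
    refine le_trans ENNReal.ofReal_add_le ?_
    rw [ENNReal.ofReal_mul hK1n]
  have e1 : ∫⁻ z in DR, f z ≤ TR := by
    refine setLIntegral_mono' hmR fun z hz => ?_
    refine key z hz.1 _ ?_ hz.2.2
    exact hR z z.im_pos hz.2.2 hz.2.1 (lt_of_abs_lt hz.1.1) hz.1.2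
  have e2 : ∫⁻ z in DL, f z ≤ TL := by
    refine setLIntegral_mono' hmL fun z hz => ?_
    refine key z hz.1 _ ?_ hz.2.2
    have h1 := hR (-(conj (z : ℂ))) (by simpa using z.im_pos) (by simpa using hz.2.2)
      (by simpa using hz.2.1) (by
        have := neg_lt_of_abs_lt hz.1.1
        simp
        linarith) (by
        rw [norm_neg, Complex.norm_conj]
        exact hz.1.2)
    rw [Bd_conj z.im_pos] at h1
    have h2 : (-(conj (z : ℂ))).im = z.im := by simp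
    rw [h2] at h1
    have h3 := f124_LR (z : ℂ)
    unfold f124_R at h3
    rw [h3] at h1
    exact h1
  have e3 : ∫⁻ z in DT, f z ≤ TT := by
    refine setLIntegral_mono' hmT fun z hz => ?_
    refine le_trans (f124_pt A hr F1 z (hF1 z (hOm z hz.1))) ?_
    have hBn : 0 ≤ Bd z := Bd_nonneg (re_Yf_pos (hOm z hz.1))
    have hB2 : Bd z ≤ C2 := hT z hz.2
    have hs : 0 ≤ Real.sqrt z.im := Real.sqrt_nonneg _
    have h1 : Bd z ^ 2 ≤ C2 ^ 2 := pow_le_pow_left₀ hBn hB2 2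
    rw [← ENNReal.ofReal_mul (by positivity)]
    refine ENNReal.ofReal_le_ofReal ?_
    have h2 : 2 * A ^ 2 * (Bd z ^ 2 * Real.sqrt z.im) ≤ 2 * A ^ 2 * (C2 ^ 2 * Real.sqrt z.im) :=
      mul_le_mul_of_nonneg_left (mul_le_mul_of_nonneg_right h1 hs) (by positivity)
    linarith
  calc ∫⁻ z in DD, f z ≤ ∫⁻ z in DR ∪ DL ∪ DT, f z := lintegral_mono_set DD_subset
    _ ≤ (∫⁻ z in DR ∪ DL, f z) + (∫⁻ z in DT, f z) := lintegral_union_le _ _ _
    _ ≤ ((∫⁻ z in DR, f z) + (∫⁻ z in DL, f z)) + (∫⁻ z in DT, f z) :=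
        add_le_add (lintegral_union_le _ _ _) le_rfl
    _ ≤ TR + TL + TT := add_le_add (add_le_add e1 e2) e3

end RV11
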