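import Pool.Agent.LibRV11.Defs
import Pool.Agent.LibRV11.F100
import Pool.Agent.LibRV11.F101
import Pool.Agent.LibRV11.F102
import Pool.Agent.LibRV11.F109
import Pool.Agent.LibRV11.F111
import Pool.Agent.LibRV11.F112
import Pool.Agent.LibRV11.F114
import Pool.Agent.LibRV11.F115
import Pool.Agent.LibRV11.F116
import Pool.Agent.LibRV11.F119
open Complex Real MeasureTheory
open UpperHalfPlane hiding I
open scoped MatrixGroups ComplexConjugate

namespace RV11

/-! ### F125: crossing of the arc -/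

theorem F1f_cross (r : ℝ) (hr : 0 ≤ r) {z0 : ℂ} (hz0 : z0 ∈ Ar) : ∃ ε > 0, ∃ FF : ℂ → ℂ,
      DifferentiableOn ℂ FF (Metric.ball z0 ε) ∧
      (∀ z ∈ Metric.ball z0 ε, 0 < z.im → 1 < ‖z‖ → FF z = F1f r z) ∧
      (∀ z ∈ Metric.ball z0 ε, 0 < z.im → ‖z‖ < 1 →
        FF z = cexp (π * I * r * z) + (-I * z) ^ (-(1 / 2) : ℂ) *
          (cexp (π * I * r * (-1 / z)) - F1f r (-1 / z))) := by
  obtain ⟨ε, δ, t0, g, hε, hδ, hz0t, hg, hgs, hgt, hgz⟩ := local_struct hz0
  obtain ⟨CE, hCE0, hCE⟩ := Ee_bound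
  have hS : ∀ z : ℂ, 0 < z.im → 0 < (-1 / z).im := by
    intro z hz
    have h0 : z ≠ 0 := by rintro rfl; simp at hz
    have : (-1 / z).im = z.im / normSq z := by
      rw [div_eq_mul_inv, Complex.mul_im, Complex.inv_re, Complex.inv_im]
      simp
      ring
    rw [this]
    exact div_pos hz (normSq_pos.mpr h0)
  set Ψ : ℂ → ℂ := fun s => phf r (g s) + phf r (-1 / g s) with hΨdef
  have hΨ : DifferentiableOn ℂ Ψ (Metric.ball (I * t0) ε) := by
    intro s hs
    have h1 := hgs s hs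
    have hgd : DifferentiableAt ℂ g s := hg.differentiableAt (Metric.isOpen_ball.mem_nhds hs)
    have hne : g s ≠ 0 := by
      intro h; rw [h] at h1; simp at h1
    have h2 : DifferentiableAt ℂ (fun s => phf r (g s)) s :=
      (diffAt_phf r h1.1).comp s hgd
    have h3 : DifferentiableAt ℂ (fun s => -1 / g s) s := by
      have := (differentiableAt_const (-1 : ℂ) (x := s)).div hgd hne
      exact this
    have h4 : DifferentiableAt ℂ (fun s => phf r (-1 / g s)) s :=
      DifferentiableAt.comp s (g := phf r) (f := fun s => -1 / g s) (diffAt_phf r (hS _ h1.1)) h3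
    exact (h2.add h4).differentiableWithinAt
  have hΨE : ∀ t : ℝ, |t - t0| < ε → Ψ (I * t) = Ee r t := by
    intro t ht
    have hmem : (I * t : ℂ) ∈ Metric.ball (I * t0 : ℂ) ε := by
      rw [Metric.mem_ball, dist_eq_norm, ← mul_sub, norm_mul, Complex.norm_I, one_mul,
        ← Complex.ofReal_sub, Complex.norm_real]
      exact ht
    rw [Ee_arc r (hgt t ht) t (hgs _ hmem).2]
  obtain ⟨ε', H, hε', hε'ε, hH, hHp, hHm⟩ := plemelj (Ee r) (measurable_Ee r) (Ee_neg r) CE
    (hCE r hr) t0 ε hε Ψ hΨ hΨE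
  have hYc : ContinuousAt Yf z0 := (diffAt_Yf hz0.2).continuousAt
  have hnb : Yf ⁻¹' (Metric.ball (I * t0) ε') ∈ nhds z0 := by
    apply hYc.preimage_mem_nhds
    rw [hz0t]
    exact Metric.ball_mem_nhds _ hε'
  obtain ⟨δ', hδ', hδball⟩ := Metric.mem_nhds_iff.mp hnb
  refine ⟨min δ δ', lt_min hδ hδ', fun z => jacobiTheta z * H (Yf z), ?_, ?_, ?_⟩
  · intro z hz
    have hz1 : z ∈ Metric.ball z0 δ := Metric.ball_subset_ball (min_le_left _ _) hz
    have hz2 : z ∈ Metric.ball z0 δ' := Metric.ball_subset_ball (min_le_right _ _) hz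
    have him := (hgz z hz1).1
    have hHd : DifferentiableAt ℂ H (Yf z) :=
      hH.differentiableAt (Metric.isOpen_ball.mem_nhds (hδball hz2))
    exact ((diffAt_theta him).mul (hHd.comp z (diffAt_Yf him))).differentiableWithinAt
  · intro z hz _ hn
    have hz1 : z ∈ Metric.ball z0 δ := Metric.ball_subset_ball (min_le_left _ _) hz
    have hz2 : z ∈ Metric.ball z0 δ' := Metric.ball_subset_ball (min_le_right _ _) hz
    obtain ⟨him, hb, hgY, hp, hm⟩ := hgz z hz1
    simp only [F1f]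
    rw [hHp (Yf z) (hδball hz2) (hp hn)]
  · intro z hz _ hn
    have hz1 : z ∈ Metric.ball z0 δ := Metric.ball_subset_ball (min_le_left _ _) hz
    have hz2 : z ∈ Metric.ball z0 δ' := Metric.ball_subset_ball (min_le_right _ _) hz
    obtain ⟨him, hb, hgY, hp, hm⟩ := hgz z hz1
    have hYneg := (hm hn).1
    simp only
    rw [hHm (Yf z) (hδball hz2) hYneg]
    simp only [hΨdef, hgY]
    have hYS := Yf_S him
    have hCCn : CC (Ee r) (Yf z) = -CC (Ee r) (Yf (-1 / z)) := by
      rw [hYS, CC_neg, neg_neg]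
    rw [hCCn]
    have hθS := theta_S him
    have hz0' : z ≠ 0 := by rintro rfl; simp at him
    have hIz : -I * z ≠ 0 := mul_ne_zero (neg_ne_zero.mpr Complex.I_ne_zero) hz0'
    have hθ : jacobiTheta z ≠ 0 := theta_ne him
    have hθ' : jacobiTheta (-1 / z) ≠ 0 := theta_ne (hS z him)
    have hpow : (-I * z) ^ (-(1 / 2) : ℂ) = ((-I * z) ^ (1 / 2 : ℂ))⁻¹ := Complex.cpow_neg _ _
    have hpne : (-I * z) ^ (1 / 2 : ℂ) ≠ 0 := by
      rw [Complex.cpow_def_of_ne_zero hIz]
      exact Complex.exp_ne_zero _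
    simp only [phf, F1f]
    rw [hpow, hθS]
    field_simp
    ring

end RV11
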