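import Pool.Agent.LibRV11.Defs
import Pool.Agent.LibRV11.F100
import Pool.Agent.LibRV11.F101
import Pool.Agent.LibRV11.F102
import Pool.Agent.LibRV11.F109
import Pool.Agent.LibRV11.F114
import Pool.Agent.LibRV11.F115
import Pool.Agent.LibRV11.F116
import Pool.Agent.LibRV11.F122
import Pool.Agent.LibRV11.F124
import Pool.Agent.LibRV11.F125
open Complex Real MeasureTheory
open UpperHalfPlane hiding I
open scoped MatrixGroups

namespace RV11

/-- Solution of the Riemann-Hilbert problem on the top region. -/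
theorem F1_main : ∃ C : ℝ, ∀ r : ℝ, 0 ≤ r → ∃ F1 : ℂ → ℂ,
    DifferentiableOn ℂ F1 Om1 ∧
    (∀ z ∈ Om1, F1 (z + 2) = F1 z) ∧
    (∀ z : ℂ, 2 ≤ z.im → ‖F1 z‖ ≤ C) ∧
    (∫⁻ z : ℍ in DD, ‖F1 z / jacobiTheta z - phh r z‖ₑ ^ 2 * ENNReal.ofReal (W z)) ≤
      ENNReal.ofReal C ∧
    (∀ z0 : ℂ, ‖z0‖ = 1 → 0 < z0.im → ∃ ε > 0, ∃ FF : ℂ → ℂ,
      DifferentiableOn ℂ FF (Metric.ball z0 ε) ∧
      (∀ z ∈ Metric.ball z0 ε, 0 < z.im → 1 < ‖z‖ → FF z = F1 z) ∧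
      (∀ z ∈ Metric.ball z0 ε, 0 < z.im → ‖z‖ < 1 →
        FF z = cexp (π * I * r * z) + (-I * z) ^ (-(1 / 2) : ℂ) *
          (cexp (π * I * r * (-1 / z)) - F1 (-1 / z)))) := by
  obtain ⟨CE, hCE0, hCE⟩ := Ee_bound
  obtain ⟨CB, hCB0, hCB⟩ := CC_bound
  obtain ⟨CT, hCT⟩ := Bd_top
  obtain ⟨C2, hC2⟩ := L2_of_Bd (CB * CE)
  refine ⟨max (CB * CE * CT) C2, fun r hr => ⟨F1f r, ?_, ?_, ?_, ?_, ?_⟩⟩
  · intro z hz
    have h1 : DifferentiableAt ℂ jacobiTheta z := diffAt_theta hz.1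
    have h2 : DifferentiableAt ℂ Yf z := diffAt_Yf hz.1
    have h3 : DifferentiableAt ℂ (CC (Ee r)) (Yf z) :=
      (CC_diff (Ee r) (measurable_Ee r) CE (hCE r hr)).differentiableAt
        ((isOpen_lt continuous_const Complex.continuous_re).mem_nhds (re_Yf_pos hz))
    exact (h1.mul (h3.comp z h2)).differentiableWithinAt
  · intro z hz
    have h0 : 0 < z.im := hz.1
    have h1 : jacobiTheta (z + 2) = jacobiTheta z := by
      rw [add_comm]; exact jacobiTheta_two_add z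
    simp only [F1f, h1, Yf_add_two h0]
  · intro z hz
    have hzO : z ∈ Om1 := by
      refine ⟨by linarith, fun k => ?_⟩
      have : z.im ≤ ‖z - 2 * k‖ := by
        have h := Complex.abs_im_le_norm (z - 2 * k)
        have e : (z - 2 * (k : ℂ)).im = z.im := by simp
        rw [e] at h
        exact (le_abs_self _).trans h
      linarith
    have h1 : ‖F1f r z‖ ≤ CB * CE * Bd z := by
      rw [F1f, norm_mul, Bd]
      have := hCB (Ee r) CE (hCE r hr) (Yf z) (re_Yf_pos hzO)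
      calc ‖jacobiTheta z‖ * ‖CC (Ee r) (Yf z)‖
          ≤ ‖jacobiTheta z‖ * (CB * CE * (1 + ‖Yf z‖) ^ (1 / 4 : ℝ) *
            (‖Yf z‖ / (Yf z).re) ^ (1 / 4 : ℝ)) := by gcongr
        _ = _ := by ring
    refine (h1.trans ?_).trans (le_max_left _ _)
    exact mul_le_mul_of_nonneg_left (hCT z hz) (by positivity)
  · refine (hC2 r hr (F1f r) ?_).trans (ENNReal.ofReal_le_ofReal (le_max_right _ _))
    intro z hzO
    rw [F1f, norm_mul, Bd]
    have := hCB (Ee r) CE (hCE r hr) (Yf z) (re_Yf_pos hzO)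
    calc ‖jacobiTheta z‖ * ‖CC (Ee r) (Yf z)‖
        ≤ ‖jacobiTheta z‖ * (CB * CE * (1 + ‖Yf z‖) ^ (1 / 4 : ℝ) *
          (‖Yf z‖ / (Yf z).re) ^ (1 / 4 : ℝ)) := by gcongr
      _ = _ := by ring
  · intro z0 h1 h2
    exact F1f_cross r hr ⟨h1, h2⟩

end RV11
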