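import Pool.Agent.LibRV11.F3defs
import Pool.Agent.LibRV11.Theta
open Complex Real MeasureTheory
open UpperHalfPlane hiding I
open scoped MatrixGroups

namespace RV11

/-! ### F31a: walls -/

private theorem f31a_det (g : SL(2, ℤ)) : g 0 0 * g 1 1 - g 0 1 * g 1 0 = 1 := by
  have := g.det_coe
  rw [Matrix.det_fin_two] at this
  exact this

private theorem f31a_norm (z : ℍ) : ‖(z : ℂ)‖ ^ 2 = z.re ^ 2 + z.im ^ 2 := by
  rw [Complex.sq_norm, Complex.normSq_apply]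
  simp
  ring

private theorem f31a_pos (g : SL(2, ℤ)) (z : ℍ) :
    0 < ((g 1 0 : ℝ) * z.re + g 1 1) ^ 2 + ((g 1 0 : ℝ) * z.im) ^ 2 := by
  by_contra hcon
  push Not at hcon
  have h1 : ((g 1 0 : ℝ) * z.im) ^ 2 = 0 := by nlinarith [sq_nonneg ((g 1 0 : ℝ) * z.re + g 1 1), sq_nonneg ((g 1 0 : ℝ) * z.im)]
  have h2 : ((g 1 0 : ℝ) * z.re + g 1 1) ^ 2 = 0 := by nlinarith [sq_nonneg ((g 1 0 : ℝ) * z.re + g 1 1), sq_nonneg ((g 1 0 : ℝ) * z.im)]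
  have h3 : (g 1 0 : ℝ) = 0 := by
    have := pow_eq_zero_iff (two_ne_zero) |>.1 h1
    rcases mul_eq_zero.1 this with h | h
    · exact h
    · exact absurd h z.im_pos.ne'
  have h4 := pow_eq_zero_iff (two_ne_zero) |>.1 h2
  rw [h3, zero_mul, zero_add] at h4
  have h5 : g 1 0 = 0 := by exact_mod_cast h3
  have h6 : g 1 1 = 0 := by exact_mod_cast h4
  have := f31a_det g
  rw [h5, h6] at this
  simp at this

private theorem f31a_re (g : SL(2, ℤ)) (z : ℍ) :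
    (g • z).re + 1 = (((g 0 0 + g 1 0 : ℤ) : ℝ) * (g 1 0 : ℝ) * ‖(z : ℂ)‖ ^ 2 +
      (((g 0 0 + g 1 0 : ℤ) : ℝ) * (g 1 1 : ℝ) + ((g 0 1 + g 1 1 : ℤ) : ℝ) * (g 1 0 : ℝ)) * z.re +
      ((g 0 1 + g 1 1 : ℤ) : ℝ) * (g 1 1 : ℝ)) /
      (((g 1 0 : ℝ) * z.re + g 1 1) ^ 2 + ((g 1 0 : ℝ) * z.im) ^ 2) := by
  have hD := f31a_pos g z
  have h1 : ((g • z : ℍ) : ℂ) = ((g 0 0 : ℂ) * z + g 0 1) / ((g 1 0 : ℂ) * z + g 1 1) := by
    rw [UpperHalfPlane.specialLinearGroup_apply]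
    simp
  have h2 : (g • z).re = ((g • z : ℍ) : ℂ).re := rfl
  have h3 : (z : ℂ).re = z.re := rfl
  have h4 : (z : ℂ).im = z.im := rfl
  have hN : normSq ((g 1 0 : ℂ) * z + g 1 1) = ((g 1 0 : ℝ) * z.re + g 1 1) ^ 2 + ((g 1 0 : ℝ) * z.im) ^ 2 := by
    rw [Complex.normSq_apply]
    simp
    ring
  rw [h2, h1, Complex.div_re, hN, f31a_norm]
  simp only [Complex.add_re, Complex.mul_re, Complex.add_im, Complex.mul_im, Complex.intCast_re, Complex.intCast_im, h3, h4,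
    zero_mul, sub_zero, add_zero]
  set D := ((g 1 0 : ℝ) * z.re + g 1 1) ^ 2 + ((g 1 0 : ℝ) * z.im) ^ 2 with hDdef
  rw [eq_div_iff hD.ne', add_mul, add_mul, div_mul_cancel₀ _ hD.ne', div_mul_cancel₀ _ hD.ne', one_mul, hDdef]
  push_cast
  ring

/-- `Re gz + 1` has the sign of the quadratic form
`q1 c |z|² + (q1 d + q2 c) x + q2 d`, `q = (a + c, b + d)`. -/
theorem sg_eq_form (g : SL(2, ℤ)) (z : ℍ) :
    sgF g z = ind (0 < ((g 0 0 + g 1 0 : ℤ) : ℝ) * (g 1 0 : ℝ) * ‖(z : ℂ)‖ ^ 2 +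
      (((g 0 0 + g 1 0 : ℤ) : ℝ) * (g 1 1 : ℝ) + ((g 0 1 + g 1 1 : ℤ) : ℝ) * (g 1 0 : ℝ)) * z.re +
      ((g 0 1 + g 1 1 : ℤ) : ℝ) * (g 1 1 : ℝ)) := by
  unfold sgF
  congr 1
  have h1 := f31a_re g z
  have hD := f31a_pos g z
  rw [eq_div_iff hD.ne'] at h1
  rw [← h1]
  apply propext
  constructor
  · intro h
    exact mul_pos (by linarith) hD
  · intro h
    have := (mul_pos_iff_of_pos_right hD).1 h
    linarith

private theorem f31a_bound {c d X Y y0 R : ℝ} (hy0 : 0 < y0) (hY : y0 ≤ Y) (hX : X ^ 2 ≤ R) :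
    c ^ 2 + d ^ 2 ≤ (2 + (1 + 2 * R) / y0 ^ 2) * ((c * X + d) ^ 2 + (c * Y) ^ 2) := by
  have hR : 0 ≤ R := le_trans (sq_nonneg X) hX
  have h1 : d ^ 2 ≤ 2 * (c * X + d) ^ 2 + 2 * (c ^ 2 * X ^ 2) := by nlinarith [sq_nonneg (2 * (c * X) + d)]
  have h2 : c ^ 2 * X ^ 2 ≤ c ^ 2 * R := mul_le_mul_of_nonneg_left hX (sq_nonneg c)
  have h3 : c ^ 2 * (1 + 2 * R) ≤ (1 + 2 * R) / y0 ^ 2 * (c * Y) ^ 2 := by
    rw [div_mul_eq_mul_div, le_div_iff₀ (by positivity)]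
    have h4 : y0 ^ 2 ≤ Y ^ 2 := pow_le_pow_left₀ hy0.le hY 2
    have h5 : c ^ 2 * y0 ^ 2 ≤ c ^ 2 * Y ^ 2 := mul_le_mul_of_nonneg_left h4 (sq_nonneg c)
    have h6 := mul_le_mul_of_nonneg_left h5 (by linarith : 0 ≤ 1 + 2 * R)
    nlinarith
  have h7 : 0 ≤ (1 + 2 * R) / y0 ^ 2 * (c * X + d) ^ 2 := by positivity
  have h8 : 0 ≤ (c * Y) ^ 2 := sq_nonneg _
  nlinarith

private theorem f31a_fin (B : ℤ) : {g : SL(2, ℤ) | |g 0 0| ≤ B ∧ |g 0 1| ≤ B ∧ |g 1 0| ≤ B ∧ |g 1 1| ≤ B}.Finite := by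
  have hf : (((Set.Icc (-B) B ×ˢ Set.Icc (-B) B) ×ˢ (Set.Icc (-B) B ×ˢ Set.Icc (-B) B)) : Set ((ℤ × ℤ) × (ℤ × ℤ))).Finite :=
    ((Set.finite_Icc _ _).prod (Set.finite_Icc _ _)).prod ((Set.finite_Icc _ _).prod (Set.finite_Icc _ _))
  refine Set.Finite.of_finite_image (f := fun g : SL(2, ℤ) => ((g 0 0, g 0 1), (g 1 0, g 1 1))) (hf.subset ?_) ?_
  · rintro _ ⟨g, ⟨h1, h2, h3, h4⟩, rfl⟩
    exact ⟨⟨abs_le.1 h1, abs_le.1 h2⟩, ⟨abs_le.1 h3, abs_le.1 h4⟩⟩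
  · intro g _ h _ hgh
    simp only [Prod.mk.injEq] at hgh
    obtain ⟨⟨e1, e2⟩, e3, e4⟩ := hgh
    ext i j
    fin_cases i <;> fin_cases j
    · exact e1
    · exact e2
    · exact e3
    · exact e4

/-- only finitely many walls separate two points -/
theorem sg_finite (z z' : ℍ) : {g : SL(2, ℤ) | sgF g z ≠ sgF g z'}.Finite := by
  set y0 := min z.im z'.im with hy0d
  have hy0 : 0 < y0 := lt_min z.im_pos z'.im_pos
  set Y1 := max z.im z'.im with hY1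
  set R := max (z.re ^ 2) (z'.re ^ 2) with hR
  set M := 2 + (1 + 2 * R) / y0 ^ 2 with hM
  have hR0 : 0 ≤ R := le_trans (sq_nonneg _) (le_max_left _ _)
  have hM0 : 0 < M := by positivity
  set B : ℤ := 2 * ⌈M ^ 2 * Y1 ^ 2⌉ with hB
  refine (f31a_fin B).subset fun g hg => ?_
  change sgF g z ≠ sgF g z' at hg
  set c : ℝ := (g 1 0 : ℝ) with hc
  set d : ℝ := (g 1 1 : ℝ) with hd
  set q1 : ℝ := ((g 0 0 + g 1 0 : ℤ) : ℝ) with hq1
  set q2 : ℝ := ((g 0 1 + g 1 1 : ℤ) : ℝ) with hq2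
  have hdet : q1 * d - q2 * c = 1 := by
    have := f31a_det g
    have h' : ((g 0 0 * g 1 1 - g 0 1 * g 1 0 : ℤ) : ℝ) = 1 := by rw [this]; norm_num
    rw [hq1, hq2, hc, hd]
    push_cast at h' ⊢
    linear_combination h'
  set x : ℝ → ℝ := fun t => (1 - t) * z.re + t * z'.re with hx
  set y : ℝ → ℝ := fun t => (1 - t) * z.im + t * z'.im with hy
  set F : ℝ → ℝ := fun t => q1 * c * (x t ^ 2 + y t ^ 2) + (q1 * d + q2 * c) * x t + q2 * d with hF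
  have hFc : Continuous F := by
    simp only [hF, hx, hy]
    fun_prop
  have hF0 : sgF g z = ind (0 < F 0) := by
    rw [sg_eq_form, f31a_norm]
    simp only [hF, hx, hy, hc, hd, hq1, hq2]
    congr 2
    ring
  have hF1 : sgF g z' = ind (0 < F 1) := by
    rw [sg_eq_form, f31a_norm]
    simp only [hF, hx, hy, hc, hd, hq1, hq2]
    congr 2
    ring
  have hzero : ∃ t ∈ Set.Icc (0:ℝ) 1, F t = 0 := by
    rw [hF0, hF1] at hg
    by_cases h0 : 0 < F 0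
    · by_cases h1 : 0 < F 1
      · exact absurd (by rw [ind, ind, if_pos h0, if_pos h1]) hg
      · push Not at h1
        exact intermediate_value_Icc' zero_le_one hFc.continuousOn ⟨h1, h0.le⟩
    · by_cases h1 : 0 < F 1
      · push Not at h0
        exact intermediate_value_Icc zero_le_one hFc.continuousOn ⟨h0, h1.le⟩
      · exact absurd (by rw [ind, ind, if_neg h0, if_neg h1]) hg
  obtain ⟨t, ⟨ht0, ht1⟩, hFt⟩ := hzero
  have hyt : y0 ≤ y t := by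
    have a1 : y0 ≤ z.im := min_le_left _ _
    have a2 : y0 ≤ z'.im := min_le_right _ _
    simp only [hy]
    nlinarith [mul_le_mul_of_nonneg_left a1 (by linarith : 0 ≤ 1 - t), mul_le_mul_of_nonneg_left a2 ht0]
  have hyt' : y t ≤ Y1 := by
    have a1 : z.im ≤ Y1 := le_max_left _ _
    have a2 : z'.im ≤ Y1 := le_max_right _ _
    simp only [hy]
    nlinarith [mul_le_mul_of_nonneg_left a1 (by linarith : 0 ≤ 1 - t), mul_le_mul_of_nonneg_left a2 ht0]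
  have hxt : x t ^ 2 ≤ R := by
    have a1 : z.re ^ 2 ≤ R := le_max_left _ _
    have a2 : z'.re ^ 2 ≤ R := le_max_right _ _
    simp only [hx]
    nlinarith [mul_le_mul_of_nonneg_left a1 (by linarith : 0 ≤ 1 - t), mul_le_mul_of_nonneg_left a2 ht0,
      mul_nonneg (mul_nonneg ht0 (by linarith : 0 ≤ 1 - t)) (sq_nonneg (z.re - z'.re))]
  set X := x t with hXd
  set Y := y t with hYd
  have hY0 : 0 < Y := by linarith
  have hprod : ((q1 * X + q2) ^ 2 + (q1 * Y) ^ 2) * ((c * X + d) ^ 2 + (c * Y) ^ 2) = Y ^ 2 := by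
    have h0 : F t = q1 * c * (X ^ 2 + Y ^ 2) + (q1 * d + q2 * c) * X + q2 * d := rfl
    have h1 : ((q1 * X + q2) ^ 2 + (q1 * Y) ^ 2) * ((c * X + d) ^ 2 + (c * Y) ^ 2) =
        (F t) ^ 2 + (q1 * d - q2 * c) ^ 2 * Y ^ 2 := by rw [h0]; ring
    rw [h1, hFt, hdet]; ring
  have bp := f31a_bound (c := c) (d := d) hy0 hyt hxt
  have bq := f31a_bound (c := q1) (d := q2) hy0 hyt hxt
  rw [← hM] at bp bq
  set P := (c * X + d) ^ 2 + (c * Y) ^ 2 with hP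
  set Q := (q1 * X + q2) ^ 2 + (q1 * Y) ^ 2 with hQ
  have hint : ∀ m n : ℤ, (m ≠ 0 ∨ n ≠ 0) → (1:ℝ) ≤ (m:ℝ) ^ 2 + (n:ℝ) ^ 2 := by
    intro m n hmn
    have : 0 < m ^ 2 + n ^ 2 := by
      rcases hmn with h | h
      · have := sq_pos_of_ne_zero h
        have := sq_nonneg n
        omega
      · have := sq_pos_of_ne_zero h
        have := sq_nonneg m
        omega
    have h2 : 1 ≤ m ^ 2 + n ^ 2 := this
    exact_mod_cast h2
  have hp1 : 1 ≤ c ^ 2 + d ^ 2 := by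
    refine hint _ _ ?_
    by_contra hcon
    push Not at hcon
    rw [hc, hd, hcon.1, hcon.2] at hdet
    simp at hdet
  have hq11 : 1 ≤ q1 ^ 2 + q2 ^ 2 := by
    refine hint _ _ ?_
    by_contra hcon
    push Not at hcon
    rw [hq1, hq2, hcon.1, hcon.2] at hdet
    simp at hdet
  have hMY : (0:ℝ) ≤ M ^ 2 * Y1 ^ 2 := by positivity
  have hY2 : Y ^ 2 ≤ Y1 ^ 2 := pow_le_pow_left₀ hY0.le hyt' 2
  have hP0 : 0 ≤ P := by positivity
  have hQ0 : 0 ≤ Q := by positivity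
  have hpb : c ^ 2 + d ^ 2 ≤ M ^ 2 * Y1 ^ 2 := by
    -- 1 ≤ M Q, c²+d² ≤ M P ≤ M P (M Q) = M² Y²
    have h1 : 1 ≤ M * Q := hq11.trans bq
    have h2 : M * P ≤ (M * P) * (M * Q) := le_mul_of_one_le_right (by positivity) h1
    calc c ^ 2 + d ^ 2 ≤ M * P := bp
      _ ≤ (M * P) * (M * Q) := h2
      _ = M ^ 2 * (Q * P) := by ring
      _ = M ^ 2 * Y ^ 2 := by rw [hprod]
      _ ≤ _ := mul_le_mul_of_nonneg_left hY2 (by positivity)
  have hqb : q1 ^ 2 + q2 ^ 2 ≤ M ^ 2 * Y1 ^ 2 := by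
    have h1 : 1 ≤ M * P := hp1.trans bp
    have h2 : M * Q ≤ (M * Q) * (M * P) := le_mul_of_one_le_right (by positivity) h1
    calc q1 ^ 2 + q2 ^ 2 ≤ M * Q := bq
      _ ≤ (M * Q) * (M * P) := h2
      _ = M ^ 2 * (Q * P) := by ring
      _ = M ^ 2 * Y ^ 2 := by rw [hprod]
      _ ≤ _ := mul_le_mul_of_nonneg_left hY2 (by positivity)
  have hceil : M ^ 2 * Y1 ^ 2 ≤ (⌈M ^ 2 * Y1 ^ 2⌉ : ℝ) := Int.le_ceil _
  set B0 : ℤ := ⌈M ^ 2 * Y1 ^ 2⌉ with hB0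
  have hpb' : (g 1 0) ^ 2 + (g 1 1) ^ 2 ≤ B0 := by
    have : ((g 1 0 ^ 2 + g 1 1 ^ 2 : ℤ) : ℝ) ≤ (B0 : ℝ) := by
      push_cast; linarith
    exact_mod_cast this
  have hqb' : (g 0 0 + g 1 0) ^ 2 + (g 0 1 + g 1 1) ^ 2 ≤ B0 := by
    have : (((g 0 0 + g 1 0) ^ 2 + (g 0 1 + g 1 1) ^ 2 : ℤ) : ℝ) ≤ (B0 : ℝ) := by
      have h3 : (((g 0 0 + g 1 0) ^ 2 + (g 0 1 + g 1 1) ^ 2 : ℤ) : ℝ) = q1 ^ 2 + q2 ^ 2 := by
        rw [hq1, hq2]; push_cast; ring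
      rw [h3]; linarith
    exact_mod_cast this
  have habs : ∀ m n : ℤ, m ^ 2 + n ^ 2 ≤ B0 → |m| ≤ B0 ∧ |n| ≤ B0 := by
    intro m n h
    have e1 : |m| ≤ m ^ 2 := by
      rw [← sq_abs]
      rcases eq_or_ne m 0 with h0 | h0
      · rw [h0]; simp
      · have := Int.one_le_abs h0
        nlinarith
    have e2 : |n| ≤ n ^ 2 := by
      rw [← sq_abs]
      rcases eq_or_ne n 0 with h0 | h0
      · rw [h0]; simp
      · have := Int.one_le_abs h0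
        nlinarith
    constructor <;> nlinarith [sq_nonneg m, sq_nonneg n]
  obtain ⟨k1, k2⟩ := habs _ _ hpb'
  obtain ⟨k3, k4⟩ := habs _ _ hqb'
  rw [abs_le] at k1 k2 k3 k4
  refine ⟨?_, ?_, ?_, ?_⟩
  · rw [abs_le]; constructor <;> omega
  · rw [abs_le]; constructor <;> omega
  · rw [abs_le]; constructor <;> omega
  · rw [abs_le]; constructor <;> omega

end RV11
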