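import Pool.Agent.LibRV11.F3defs
import Pool.Agent.LibRV11.F31a
import Pool.Agent.LibRV11.Theta
open Complex Real MeasureTheory
open UpperHalfPlane hiding I
open scoped MatrixGroups

namespace RV11

/-! ### F31b: walls and `DD` -/

private theorem f31b_det (g : SL(2, ℤ)) : g 0 0 * g 1 1 - g 0 1 * g 1 0 = 1 := by
  have := g.det_coe
  rw [Matrix.det_fin_two] at this
  exact this

private theorem f31b_norm (z : ℍ) : ‖(z : ℂ)‖ ^ 2 = z.re ^ 2 + z.im ^ 2 := by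
  rw [Complex.sq_norm, Complex.normSq_apply]
  simp
  ring

private theorem f31b_ind {P Q : Prop} (h : P ↔ Q) : ind P = ind Q := by rw [propext h]

/-- sign of the form on `DD` -/
private theorem f31b_sign {g : SL(2, ℤ)} (hg : g ∈ Gam) (hc : g 1 0 ≠ 0) {x n : ℝ} (hx : |x| < 1) (hn : 1 < n) :
    (0 < (g 0 0 + g 1 0) * g 1 0 ∧ 0 < ((g 0 0 + g 1 0 : ℤ) : ℝ) * (g 1 0 : ℝ) * n +
      (((g 0 0 + g 1 0 : ℤ) : ℝ) * (g 1 1 : ℝ) + ((g 0 1 + g 1 1 : ℤ) : ℝ) * (g 1 0 : ℝ)) * x +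
      ((g 0 1 + g 1 1 : ℤ) : ℝ) * (g 1 1 : ℝ)) ∨
    ((g 0 0 + g 1 0) * g 1 0 < 0 ∧ ((g 0 0 + g 1 0 : ℤ) : ℝ) * (g 1 0 : ℝ) * n +
      (((g 0 0 + g 1 0 : ℤ) : ℝ) * (g 1 1 : ℝ) + ((g 0 1 + g 1 1 : ℤ) : ℝ) * (g 1 0 : ℝ)) * x +
      ((g 0 1 + g 1 1 : ℤ) : ℝ) * (g 1 1 : ℝ) < 0) := by
  set α : ℤ := (g 0 0 + g 1 0) * g 1 0 with hα
  set β : ℤ := (g 0 1 + g 1 1) * g 1 1 with hβ
  set γ : ℤ := (g 0 0 + g 1 0) * g 1 1 + (g 0 1 + g 1 1) * g 1 0 with hγ
  have hγ2 : γ ^ 2 = 1 + 4 * (α * β) := by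
    have h1 : (g 0 0 + g 1 0) * g 1 1 - (g 0 1 + g 1 1) * g 1 0 = 1 := by
      have := f31b_det g
      linear_combination this
    rw [hγ, hα, hβ]
    linear_combination ((g 0 0 + g 1 0) * g 1 1 - (g 0 1 + g 1 1) * g 1 0 + 1) * h1
  have o1 := odd_col hg
  have o2 := odd_col' hg
  have o3 := odd_row hg
  have hne : α ≠ β := by
    intro h
    have e1 : Even (α + β) := by rw [h]; exact ⟨β, rfl⟩
    rw [hα, hβ, Int.even_add, Int.even_mul, Int.even_mul, Int.even_add, Int.even_add] at e1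
    rw [← Int.not_even_iff_odd, Int.even_add] at o1 o2 o3
    tauto
  have hα0 : α ≠ 0 := by
    rw [hα]
    refine mul_ne_zero ?_ hc
    intro h
    rw [h] at o1
    exact absurd o1 (by decide)
  have hform : ((g 0 0 + g 1 0 : ℤ) : ℝ) * (g 1 0 : ℝ) * n +
      (((g 0 0 + g 1 0 : ℤ) : ℝ) * (g 1 1 : ℝ) + ((g 0 1 + g 1 1 : ℤ) : ℝ) * (g 1 0 : ℝ)) * x +
      ((g 0 1 + g 1 1 : ℤ) : ℝ) * (g 1 1 : ℝ) = (α : ℝ) * n + (γ : ℝ) * x + (β : ℝ) := by
    rw [hα, hβ, hγ]; push_cast; ring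
  rw [hform]
  have hdiff : 1 ≤ (α - β) ^ 2 := by
    have : 0 < (α - β) ^ 2 := by
      have : α - β ≠ 0 := sub_ne_zero.2 hne
      positivity
    exact this
  have hsq : γ ^ 2 ≤ (α + β) ^ 2 := by nlinarith
  have habs : |γ| ≤ |α + β| := sq_le_sq.1 hsq
  have hgx : |(γ : ℝ) * x| ≤ |(α : ℝ) + β| := by
    rw [abs_mul]
    have h1 : |(γ:ℝ)| ≤ |(α : ℝ) + β| := by exact_mod_cast habs
    calc |(γ:ℝ)| * |x| ≤ |(γ:ℝ)| * 1 := mul_le_mul_of_nonneg_left hx.le (abs_nonneg _)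
      _ ≤ _ := by rw [mul_one]; exact h1
  have hαβ : 0 ≤ α * β := by
    have h1 : 0 ≤ 1 + 4 * (α * β) := by rw [← hγ2]; positivity
    omega
  rcases lt_or_gt_of_ne hα0 with h | h
  · right
    refine ⟨h, ?_⟩
    have hβ0 : β ≤ 0 := by
      by_contra hcon
      push Not at hcon
      have := mul_neg_of_neg_of_pos h hcon
      omega
    have a1 : (α:ℝ) < 0 := by exact_mod_cast h
    have a2 : (β:ℝ) ≤ 0 := by exact_mod_cast hβ0
    rw [abs_of_neg (by linarith : (α:ℝ) + β < 0)] at hgx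
    have a3 := (abs_le.1 hgx).2
    nlinarith [mul_neg_of_neg_of_pos a1 (by linarith : 0 < n - 1)]
  · left
    refine ⟨h, ?_⟩
    have hβ0 : 0 ≤ β := by
      by_contra hcon
      push Not at hcon
      have := mul_neg_of_pos_of_neg h hcon
      omega
    have a1 : (0:ℝ) < α := by exact_mod_cast h
    have a2 : (0:ℝ) ≤ β := by exact_mod_cast hβ0
    rw [abs_of_pos (by linarith : 0 < (α:ℝ) + β)] at hgx
    have a3 := (abs_le.1 hgx).1
    nlinarith [mul_pos a1 (by linarith : 0 < n - 1)]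

/-- no wall crosses `DD` -/
theorem sg_DD {g : SL(2, ℤ)} (hg : g ∈ Gam) {z : ℍ} (hz : z ∈ DD) (hc : g 1 0 ≠ 0) :
    sgF g z = ind (0 < (g 0 0 + g 1 0) * g 1 0) := by
  rw [sg_eq_form]
  apply f31b_ind
  have hn : 1 < ‖(z : ℂ)‖ ^ 2 := one_lt_pow₀ hz.2 (by norm_num)
  rcases f31b_sign hg hc hz.1 hn with ⟨h1, h2⟩ | ⟨h1, h2⟩
  · exact ⟨fun _ => h1, fun _ => h2⟩
  · exact ⟨fun h => absurd h (by linarith), fun h => absurd h (by omega)⟩

private theorem f31b_z0_re : z0.re = 0 := by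
  change ((2 : ℂ) * I).re = 0
  simp

private theorem f31b_z0_norm : ‖(z0 : ℂ)‖ = 2 := by
  change ‖(2 : ℂ) * I‖ = 2
  simp

theorem z0_mem_DD : z0 ∈ DD := by
  refine ⟨?_, ?_⟩
  · rw [f31b_z0_re]; norm_num
  · rw [f31b_z0_norm]; norm_num

theorem sg_z0 {g : SL(2, ℤ)} (hg : g ∈ Gam) (hc : g 1 0 ≠ 0) :
    sgF g z0 = ind (0 < (g 0 0 + g 1 0) * g 1 0) := sg_DD hg z0_mem_DD hc

theorem ind_ratio {g : SL(2, ℤ)} (hg : g ∈ Gam) (hc : g 1 0 ≠ 0) :
    ind (-1 < (g 0 0 : ℝ) / (g 1 0 : ℝ)) = ind (0 < (g 0 0 + g 1 0) * g 1 0) := by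
  apply f31b_ind
  have hc' : (g 1 0 : ℝ) ≠ 0 := by exact_mod_cast hc
  have hc2 : (0:ℝ) < (g 1 0 : ℝ) ^ 2 := by positivity
  have h1 : ((g 0 0 : ℝ) + g 1 0) * g 1 0 = ((g 0 0 : ℝ) / (g 1 0 : ℝ) + 1) * (g 1 0 : ℝ) ^ 2 := by
    field_simp
  have h2 : (0 < (g 0 0 + g 1 0) * g 1 0) ↔ (0:ℝ) < ((g 0 0 : ℝ) + g 1 0) * g 1 0 := by
    constructor
    · intro h; exact_mod_cast h
    · intro h; exact_mod_cast h
  rw [h2, h1, mul_pos_iff_of_pos_right hc2]
  constructor <;> intro h <;> linarith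

private theorem f31b_trans {g : SL(2, ℤ)} (hg : g ∈ Gam) (hc : g 1 0 = 0) :
    ∃ m : ℤ, (∀ z : ℍ, ((g • z : ℍ) : ℂ) = z + 2 * m) ∧ (m = 0 → g = 1 ∨ g = -1) ∧
      ((g = 1 ∨ g = -1) → m = 0) := by
  have hdet := f31b_det g
  rw [hc, mul_zero, sub_zero] at hdet
  have hb : Even (g 0 1) := by
    have : Even (g 0 1 + g 1 0) := hg.2
    rwa [hc, add_zero] at this
  obtain ⟨e, he⟩ := hb
  have h1 : ∀ z : ℍ, ((g • z : ℍ) : ℂ) = ((g 0 0 : ℂ) * z + g 0 1) / ((g 1 0 : ℂ) * z + g 1 1) := by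
    intro z
    rw [UpperHalfPlane.specialLinearGroup_apply]
    simp
  rcases Int.eq_one_or_neg_one_of_mul_eq_one' hdet with ⟨ha, hd⟩ | ⟨ha, hd⟩
  · refine ⟨e, fun z => ?_, ?_, ?_⟩
    · rw [h1, hc, ha, hd, he]; push_cast; ring
    · intro h0
      left
      ext i j
      fin_cases i <;> fin_cases j <;> simp [ha, hd, he, h0, hc]
    · rintro (h | h)
      · rw [h] at he; simp at he; omega
      · rw [h] at he; simp at he; omega
  · refine ⟨-e, fun z => ?_, ?_, ?_⟩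
    · rw [h1, hc, ha, hd, he]; push_cast; ring
    · intro h0
      right
      have h0' : e = 0 := by omega
      ext i j
      fin_cases i <;> fin_cases j <;> simp [ha, hd, he, h0', hc]
    · rintro (h | h)
      · rw [h] at he; simp at he; omega
      · rw [h] at he; simp at he; omega

private theorem f31b_trans_re {g : SL(2, ℤ)} {m : ℤ} (h : ∀ z : ℍ, ((g • z : ℍ) : ℂ) = z + 2 * m) (z : ℍ) :
    (g • z).re = z.re + 2 * m := by
  have h1 : (g • z).re = ((g • z : ℍ) : ℂ).re := rfl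
  have h2 : (z : ℂ).re = z.re := rfl
  rw [h1, h z, Complex.add_re, h2]
  simp

theorem sg_Strip {g : SL(2, ℤ)} (hg : g ∈ Gam) {z : ℍ} (hz : z ∈ Strip) (hc : g 1 0 = 0) :
    sgF g z = sgF g z0 := by
  obtain ⟨m, hm, _⟩ := f31b_trans hg hc
  unfold sgF
  apply f31b_ind
  rw [f31b_trans_re hm, f31b_trans_re hm, f31b_z0_re]
  have h1 := abs_lt.1 (show |z.re| < 1 from hz)
  constructor
  · intro h
    have h2 : (-1:ℝ) < m := by linarith [h1.1, h1.2]
    have h3 : -1 < m := by exact_mod_cast h2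
    have h4 : (0:ℝ) ≤ m := by exact_mod_cast (by omega : 0 ≤ m)
    linarith
  · intro h
    have h2 : (-1:ℝ) < 2 * m := by linarith
    have h3 : -1 < 2 * m := by exact_mod_cast h2
    have h4 : (0:ℝ) ≤ m := by exact_mod_cast (by omega : 0 ≤ m)
    linarith [h1.1]

theorem S_mem_Gam : ModularGroup.S ∈ Gam := by
  constructor
  · simp [ModularGroup.S]
  · simp [ModularGroup.S]

private theorem f31b_T2 : (((ModularGroup.T ^ 2 : SL(2, ℤ)) : Matrix (Fin 2) (Fin 2) ℤ)) = !![1, 2; 0, 1] := by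
  have := ModularGroup.coe_T_zpow 2
  have h2 : (ModularGroup.T ^ (2:ℤ) : SL(2, ℤ)) = ModularGroup.T ^ 2 := by norm_cast
  rw [h2] at this
  exact this

theorem T2_mem_Gam : ModularGroup.T ^ 2 ∈ Gam := by
  have e00 : (ModularGroup.T ^ 2 : SL(2, ℤ)) 0 0 = 1 := by rw [f31b_T2]; rfl
  have e01 : (ModularGroup.T ^ 2 : SL(2, ℤ)) 0 1 = 2 := by rw [f31b_T2]; rfl
  have e10 : (ModularGroup.T ^ 2 : SL(2, ℤ)) 1 0 = 0 := by rw [f31b_T2]; rfl
  have e11 : (ModularGroup.T ^ 2 : SL(2, ℤ)) 1 1 = 1 := by rw [f31b_T2]; rfl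
  change Even ((ModularGroup.T ^ 2 : SL(2, ℤ)) 0 0 + (ModularGroup.T ^ 2 : SL(2, ℤ)) 1 1) ∧
    Even ((ModularGroup.T ^ 2 : SL(2, ℤ)) 0 1 + (ModularGroup.T ^ 2 : SL(2, ℤ)) 1 0)
  rw [e00, e01, e10, e11]
  exact ⟨by decide, by decide⟩

private theorem f31b_T2_trans : ∀ z : ℍ, (((ModularGroup.T ^ 2)⁻¹ • z : ℍ) : ℂ) = z - 2 := by
  intro z
  have h1 : ∀ z : ℍ, (((ModularGroup.T ^ 2) • z : ℍ) : ℂ) = z + 2 := by
    intro z
    rw [UpperHalfPlane.specialLinearGroup_apply]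
    simp only [f31b_T2]
    simp
  have h2 := h1 ((ModularGroup.T ^ 2)⁻¹ • z)
  rw [smul_inv_smul] at h2
  rw [h2]; ring

/-- `S z0 = i/2` lies on the same side of all walls as `z0`. -/
theorem sg_S_z0 {g : SL(2, ℤ)} (hg : g ∈ Gam) : sgF g (ModularGroup.S⁻¹ • z0) = sgF g z0 := by
  have hw : ((ModularGroup.S⁻¹ • z0 : ℍ) : ℂ) = I / 2 := by
    have h1 : ((ModularGroup.S⁻¹ • z0 : ℍ) : ℂ) = -1 / (z0 : ℂ) := by
      rw [UpperHalfPlane.specialLinearGroup_apply]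
      simp [ModularGroup.S, Matrix.SpecialLinearGroup.coe_inv, Matrix.adjugate_fin_two]
      try (rw [neg_div, ← div_neg]) 
      try field_simp
    rw [h1]
    change -1 / ((2 : ℂ) * I) = I / 2
    field_simp
    rw [I_sq]
  have hre : (ModularGroup.S⁻¹ • z0 : ℍ).re = 0 := by
    have : (ModularGroup.S⁻¹ • z0 : ℍ).re = ((ModularGroup.S⁻¹ • z0 : ℍ) : ℂ).re := rfl
    rw [this, hw]; simp
  have hnorm : ‖((ModularGroup.S⁻¹ • z0 : ℍ) : ℂ)‖ = 1 / 2 := by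
    rw [hw]; simp
  rw [sg_eq_form, sg_eq_form, hre, hnorm, f31b_z0_re, f31b_z0_norm]
  apply f31b_ind
  rw [mul_zero, add_zero, add_zero]
  by_cases hc : g 1 0 = 0
  · rw [hc]; simp
  · -- signs of the coefficients
    have hpos : ∀ n : ℝ, 1 < n → _ := fun n hn => f31b_sign hg hc (x := 0) (by norm_num) hn
    set α : ℤ := (g 0 0 + g 1 0) * g 1 0 with hα
    set β : ℤ := (g 0 1 + g 1 1) * g 1 1 with hβ
    have eα : ((g 0 0 + g 1 0 : ℤ) : ℝ) * (g 1 0 : ℝ) = α := by rw [hα]; push_cast; ring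
    have eβ : ((g 0 1 + g 1 1 : ℤ) : ℝ) * (g 1 1 : ℝ) = β := by rw [hβ]; push_cast; ring
    rw [eα, eβ]
    have hγ2 : 0 ≤ 1 + 4 * (α * β) := by
      have h1 : (g 0 0 + g 1 0) * g 1 1 - (g 0 1 + g 1 1) * g 1 0 = 1 := by
        have := f31b_det g
        linear_combination this
      have h2 : ((g 0 0 + g 1 0) * g 1 1 + (g 0 1 + g 1 1) * g 1 0) ^ 2 = 1 + 4 * (α * β) := by
        rw [hα, hβ]
        linear_combination ((g 0 0 + g 1 0) * g 1 1 - (g 0 1 + g 1 1) * g 1 0 + 1) * h1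
      rw [← h2]; positivity
    have hαβ : 0 ≤ α * β := by omega
    have hα0 : α ≠ 0 := by
      rw [hα]
      refine mul_ne_zero ?_ hc
      intro h
      have o1 := odd_col hg
      rw [h] at o1
      exact absurd o1 (by decide)
    rcases lt_or_gt_of_ne hα0 with h | h
    · have hβ0 : β ≤ 0 := by
        by_contra hcon
        push Not at hcon
        have := mul_neg_of_neg_of_pos h hcon
        omega
      have a1 : (α:ℝ) < 0 := by exact_mod_cast h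
      have a2 : (β:ℝ) ≤ 0 := by exact_mod_cast hβ0
      constructor <;> intro h3 <;> nlinarith
    · have hβ0 : 0 ≤ β := by
        by_contra hcon
        push Not at hcon
        have := mul_neg_of_pos_of_neg h hcon
        omega
      have a1 : (0:ℝ) < α := by exact_mod_cast h
      have a2 : (0:ℝ) ≤ β := by exact_mod_cast hβ0
      constructor <;> intro h3 <;> nlinarith

/-- between `z0 - 2` and `z0` there is only the wall `Re = -1`. -/
theorem sg_T_z0 {g : SL(2, ℤ)} (hg : g ∈ Gam) :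
    sgF g ((ModularGroup.T ^ 2)⁻¹ • z0) - sgF g z0 = if g = 1 ∨ g = -1 then -1 else 0 := by
  by_cases hc : g 1 0 = 0
  · obtain ⟨m, hm, hm0, hm1⟩ := f31b_trans hg hc
    have hre : (g • ((ModularGroup.T ^ 2)⁻¹ • z0)).re = 2 * m - 2 := by
      rw [f31b_trans_re hm]
      have : ((ModularGroup.T ^ 2)⁻¹ • z0 : ℍ).re = (((ModularGroup.T ^ 2)⁻¹ • z0 : ℍ) : ℂ).re := rfl
      rw [this, f31b_T2_trans, Complex.sub_re]
      have : (z0 : ℂ).re = z0.re := rfl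
      rw [this, f31b_z0_re]
      simp
      ring
    have hre0 : (g • z0).re = 2 * m := by rw [f31b_trans_re hm, f31b_z0_re, zero_add]
    unfold sgF
    rw [hre, hre0]
    by_cases h : g = 1 ∨ g = -1
    · rw [if_pos h, hm1 h]
      rw [ind, ind, if_neg (by norm_num), if_pos (by norm_num)]
      norm_num
    · rw [if_neg h]
      have hm2 : m ≠ 0 := fun h0 => h (hm0 h0)
      rcases lt_or_gt_of_ne hm2 with h3 | h3
      · have h4 : (m:ℝ) ≤ -1 := by exact_mod_cast (by omega : m ≤ -1)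
        rw [ind, ind, if_neg (by linarith), if_neg (by linarith)]
        norm_num
      · have h4 : (1:ℝ) ≤ m := by exact_mod_cast (by omega : 1 ≤ m)
        rw [ind, ind, if_pos (by linarith), if_pos (by linarith)]
        norm_num
  · have h1 : sgF g ((ModularGroup.T ^ 2)⁻¹ • z0) = sgF (g * (ModularGroup.T ^ 2)⁻¹) z0 := by
      unfold sgF
      rw [smul_smul]
    have hTi : (((ModularGroup.T ^ 2)⁻¹ : SL(2, ℤ)) : Matrix (Fin 2) (Fin 2) ℤ) = !![1, -2; 0, 1] := by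
      rw [Matrix.SpecialLinearGroup.coe_inv, f31b_T2, Matrix.adjugate_fin_two]
      simp
    have e00 : (g * (ModularGroup.T ^ 2)⁻¹ : SL(2, ℤ)) 0 0 = g 0 0 := by
      rw [Matrix.SpecialLinearGroup.coe_mul, hTi, Matrix.mul_apply, Fin.sum_univ_two]
      simp
    have e10 : (g * (ModularGroup.T ^ 2)⁻¹ : SL(2, ℤ)) 1 0 = g 1 0 := by
      rw [Matrix.SpecialLinearGroup.coe_mul, hTi, Matrix.mul_apply, Fin.sum_univ_two]
      simp
    have hmem : g * (ModularGroup.T ^ 2)⁻¹ ∈ Gam := Gam.mul_mem hg (Gam.inv_mem T2_mem_Gam)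
    rw [h1, sg_z0 hmem (by rw [e10]; exact hc), sg_z0 hg hc, e00, e10, sub_self, if_neg]
    rintro (h | h)
    · rw [h] at hc; simp at hc
    · rw [h] at hc; simp at hc

private theorem f31b_re_ne {h : SL(2, ℤ)} (hh : h ∈ Gam) {w : ℍ} (hw : w ∈ DD) : (h • w).re ≠ -1 := by
  by_cases hc : h 1 0 = 0
  · obtain ⟨m, hm, _⟩ := f31b_trans hh hc
    rw [f31b_trans_re hm]
    intro h1
    have h2 := abs_lt.1 hw.1
    have h3 : (-1:ℝ) < m := by linarith [h2.2]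
    have h4 : (m:ℝ) < 0 := by linarith [h2.1]
    have h5 : -1 < m := by exact_mod_cast h3
    have h6 : m < 0 := by exact_mod_cast h4
    omega
  · intro h1
    have hn : 1 < ‖(w : ℂ)‖ ^ 2 := one_lt_pow₀ hw.2 (by norm_num)
    have hD : 0 < ((h 1 0 : ℝ) * w.re + h 1 1) ^ 2 + ((h 1 0 : ℝ) * w.im) ^ 2 := by
      have : (h 1 0 : ℝ) ≠ 0 := by exact_mod_cast hc
      have := w.im_pos
      positivity
    have h3 : (w : ℂ).re = w.re := rfl
    have h4 : (w : ℂ).im = w.im := rfl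
    have e1 : ((h • w : ℍ) : ℂ) = ((h 0 0 : ℂ) * w + h 0 1) / ((h 1 0 : ℂ) * w + h 1 1) := by
      rw [UpperHalfPlane.specialLinearGroup_apply]
      simp
    have hN : normSq ((h 1 0 : ℂ) * w + h 1 1) = ((h 1 0 : ℝ) * w.re + h 1 1) ^ 2 + ((h 1 0 : ℝ) * w.im) ^ 2 := by
      rw [Complex.normSq_apply]
      simp
      ring
    have e2 : (h • w).re = ((h • w : ℍ) : ℂ).re := rfl
    rw [e2, e1, Complex.div_re, hN] at h1
    simp only [Complex.add_re, Complex.mul_re, Complex.add_im, Complex.mul_im, Complex.intCast_re, Complex.intCast_im, h3, h4,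
      zero_mul, sub_zero, add_zero] at h1
    set D := ((h 1 0 : ℝ) * w.re + h 1 1) ^ 2 + ((h 1 0 : ℝ) * w.im) ^ 2 with hDdef
    rw [← add_div, div_eq_iff hD.ne'] at h1
    have key : ((h 0 0 + h 1 0 : ℤ) : ℝ) * (h 1 0 : ℝ) * ‖(w : ℂ)‖ ^ 2 +
      (((h 0 0 + h 1 0 : ℤ) : ℝ) * (h 1 1 : ℝ) + ((h 0 1 + h 1 1 : ℤ) : ℝ) * (h 1 0 : ℝ)) * w.re +
      ((h 0 1 + h 1 1 : ℤ) : ℝ) * (h 1 1 : ℝ) = 0 := by
      rw [f31b_norm]
      rw [hDdef] at h1
      push_cast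
      linear_combination h1
    rcases f31b_sign hh hc hw.1 hn with ⟨_, h2⟩ | ⟨_, h2⟩
    · rw [key] at h2; exact absurd h2 (lt_irrefl _)
    · rw [key] at h2; exact absurd h2 (lt_irrefl _)

/-- points of a translate of `DD` are not on a wall -/
theorem re_ne_of_UU {z : ℍ} (hz : z ∈ UU) : z.re ≠ 1 ∧ z.re ≠ -1 := by
  obtain ⟨g, hg, hgz⟩ := hz
  constructor
  · intro h
    have h1 := f31b_re_ne (Gam.mul_mem (Gam.inv_mem T2_mem_Gam) (Gam.inv_mem hg)) hgz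
    apply h1
    rw [mul_smul, inv_smul_smul]
    have : ((ModularGroup.T ^ 2)⁻¹ • z : ℍ).re = (((ModularGroup.T ^ 2)⁻¹ • z : ℍ) : ℂ).re := rfl
    rw [this, f31b_T2_trans, Complex.sub_re]
    have : (z : ℂ).re = z.re := rfl
    rw [this, h]
    norm_num
  · intro h
    have h1 := f31b_re_ne (Gam.inv_mem hg) hgz
    rw [inv_smul_smul] at h1
    exact h1 h

theorem norm_ne_one_of_UU {z : ℍ} (hz : z ∈ UU) (hx : |z.re| < 1) : ‖(z : ℂ)‖ ≠ 1 := by
  obtain ⟨g, hg, hgz⟩ := hz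
  intro h
  by_cases hc : g 1 0 = 0
  · obtain ⟨m, hm, _⟩ := f31b_trans hg hc
    have h1 := abs_lt.1 hgz.1
    rw [f31b_trans_re hm] at h1
    have h2 := abs_lt.1 hx
    have h3 : (-1:ℝ) < m := by linarith [h1.1, h2.2]
    have h4 : (m:ℝ) < 1 := by linarith [h1.2, h2.1]
    have h5 : -1 < m := by exact_mod_cast h3
    have h6 : m < 1 := by exact_mod_cast h4
    have h7 : m = 0 := by omega
    have h8 := hgz.2
    rw [hm, h7] at h8
    simp only [Int.cast_zero, mul_zero, add_zero] at h8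
    linarith
  · have n1 := one_le_norm_row hx.le h.ge (odd_row hg)
    have i1 : (g • z).im ≤ z.im := by
      rw [im_smul_eq, Np, one_div_div]
      push_cast
      exact div_le_self z.im_pos.le (one_le_pow₀ n1)
    have hmem := Gam.inv_mem hg
    have e10 : (g⁻¹ : SL(2, ℤ)) 1 0 = -(g 1 0) := by
      rw [Matrix.SpecialLinearGroup.coe_inv, Matrix.adjugate_fin_two]
      simp
    have n2 := one_lt_norm_row hgz (c := (g⁻¹ : SL(2, ℤ)) 1 0) (d := (g⁻¹ : SL(2, ℤ)) 1 1)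
      (by rw [e10]; simpa using hc) (odd_row hmem)
    have i2 : (g⁻¹ • (g • z)).im < (g • z).im := by
      rw [im_smul_eq g⁻¹, Np, one_div_div]
      push_cast
      exact div_lt_self (g • z).im_pos (one_lt_pow₀ n2 (by norm_num))
    rw [inv_smul_smul] at i2
    linarith

end RV11
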