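import Pool.Agent.LibRV11.F31a
import Pool.Agent.LibRV11.F31b
open Complex Real MeasureTheory
open UpperHalfPlane hiding I
open scoped MatrixGroups

namespace RV11

/-! ### F32: transformation of the wall function -/

/-- the sums have finite support -/
private theorem f32_summable (r : ℝ) (z1 z2 : ℍ) (f : SL(2, ℤ) → ℂ) :
    Summable fun h : Gam => chi h * ((sgF h z1 - sgF h z2 : ℝ) : ℂ) * f h := by
  apply summable_of_hasFiniteSupport
  have h1 := sg_finite z1 z2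
  have h2 : (Function.support fun h : Gam => chi h * ((sgF h z1 - sgF h z2 : ℝ) : ℂ) * f h) ⊆
      (fun h : Gam => (h : SL(2, ℤ))) ⁻¹' {g : SL(2, ℤ) | sgF g z1 ≠ sgF g z2} := by
    intro h hh
    rw [Function.mem_support] at hh
    simp only [Set.mem_preimage, Set.mem_ofPred_eq]
    intro heq
    apply hh
    rw [heq, sub_self]
    simp
  exact (h1.preimage Subtype.val_injective.injOn).subset h2

theorem ThG_sub (r : ℝ) {g : SL(2, ℤ)} (hg : g ∈ Gam) (z : ℍ) :
    ThG r z - chi g * ThG r (g • z) = Rem r g z := by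
  have h1 : chi g * ThG r (g • z) = om r / 2 * ∑' k : Gam, chi k *
      ((sgF k z - sgF k (g⁻¹ • z0) : ℝ) : ℂ) * phh r ((k : SL(2, ℤ)) • z) := by
    unfold ThG
    rw [mul_left_comm, ← tsum_mul_left]
    congr 1
    rw [← (Equiv.mulRight (⟨g, hg⟩ : Gam)⁻¹).tsum_eq]
    refine tsum_congr fun k => ?_
    have e1 : (((Equiv.mulRight (⟨g, hg⟩ : Gam)⁻¹) k : Gam) : SL(2, ℤ)) = (k : SL(2, ℤ)) * g⁻¹ := rfl
    have e2 : chi g * chi ((k : SL(2, ℤ)) * g⁻¹) = chi k := by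
      rw [mul_comm, ← chi_mul (Gam.mul_mem k.2 (Gam.inv_mem hg)) hg, inv_mul_cancel_right]
    have e3 : ((k : SL(2, ℤ)) * g⁻¹) • (g • z) = (k : SL(2, ℤ)) • z := by
      rw [← mul_smul, inv_mul_cancel_right]
    have e4 : sgF ((k : SL(2, ℤ)) * g⁻¹) (g • z) = sgF k z := by
      unfold sgF
      rw [e3]
    have e5 : sgF ((k : SL(2, ℤ)) * g⁻¹) z0 = sgF k (g⁻¹ • z0) := by
      unfold sgF
      rw [mul_smul]
    rw [e1, e4, e5, e3, ← mul_assoc, ← mul_assoc, e2]
  rw [h1]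
  unfold ThG Rem
  rw [← mul_sub, ← (f32_summable r z z0 (fun h => phh r (h • z))).tsum_sub
    (f32_summable r z (g⁻¹ • z0) (fun h => phh r (h • z)))]
  congr 1
  refine tsum_congr fun k => ?_
  push_cast
  ring

theorem Rem_S (r : ℝ) (z : ℍ) : Rem r ModularGroup.S z = 0 := by
  unfold Rem
  have : ∀ h : Gam, chi h * ((sgF h (ModularGroup.S⁻¹ • z0) - sgF h z0 : ℝ) : ℂ) *
      phh r ((h : SL(2, ℤ)) • z) = 0 := by
    intro h
    rw [sg_S_z0 h.2, sub_self]
    simp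
  simp only [this, tsum_zero, mul_zero]

theorem Rem_T (r : ℝ) (z : ℍ) : Rem r (ModularGroup.T ^ 2) z = -(om r) * phh r z := by
  classical
  unfold Rem
  have hm1 : (-1 : SL(2, ℤ)) ∈ Gam := by
    constructor <;> simp
  have hne : (⟨1, Gam.one_mem⟩ : Gam) ≠ ⟨-1, hm1⟩ := by
    intro h
    have h1 := congrArg (fun g : Gam => ((g : SL(2, ℤ)) 0 0 : ℤ)) h
    simp at h1
  have key : ∀ h : Gam, chi h * ((sgF h ((ModularGroup.T ^ 2)⁻¹ • z0) - sgF h z0 : ℝ) : ℂ) *
      phh r ((h : SL(2, ℤ)) • z) = if h ∈ ({⟨1, Gam.one_mem⟩, ⟨-1, hm1⟩} : Finset Gam) then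
        -(phh r z) else 0 := by
    intro h
    rw [sg_T_z0 h.2]
    by_cases h1 : (h : SL(2, ℤ)) = 1
    · have h2 : h = ⟨1, Gam.one_mem⟩ := Subtype.ext h1
      subst h2
      simp [chi]
    · by_cases h3 : (h : SL(2, ℤ)) = -1
      · have h2 : h = ⟨-1, hm1⟩ := Subtype.ext h3
        subst h2
        simp [chi]
      · have h4 : h ∉ ({⟨1, Gam.one_mem⟩, ⟨-1, hm1⟩} : Finset Gam) := by
          rw [Finset.mem_insert, Finset.mem_singleton]
          rintro (h5 | h5)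
          · exact h1 (congrArg Subtype.val h5)
          · exact h3 (congrArg Subtype.val h5)
        rw [if_neg h4, if_neg (by tauto)]
        simp
  simp only [key]
  rw [tsum_eq_sum (s := ({⟨1, Gam.one_mem⟩, ⟨-1, hm1⟩} : Finset Gam))
    (fun h hh => if_neg hh), Finset.sum_congr rfl (fun h hh => if_pos hh), Finset.sum_const,
    Finset.card_pair hne]
  simp only [nsmul_eq_mul]
  push_cast
  ring

private theorem f32_coe_smul (g : SL(2, ℤ)) {w : ℂ} (hw : 0 < w.im) :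
    ((g • ofComplex w : ℍ) : ℂ) = ((g 0 0 : ℂ) * w + g 0 1) / ((g 1 0 : ℂ) * w + g 1 1) := by
  rw [UpperHalfPlane.specialLinearGroup_apply]
  simp [ofComplex_apply_of_im_pos hw]

private theorem f32_denom_ne (g : SL(2, ℤ)) {w : ℂ} (hw : 0 < w.im) :
    ((g 1 0 : ℂ) * w + g 1 1) ≠ 0 := by
  have h := UpperHalfPlane.denom_ne_zero (g : GL (Fin 2) ℝ) (⟨w, hw⟩ : ℍ)
  simpa [UpperHalfPlane.denom] using h

theorem f32_phh_hol (r : ℝ) (g : SL(2, ℤ)) :
    DifferentiableOn ℂ (fun w : ℂ => phh r (g • ofComplex w)) {w | 0 < w.im} := by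
  have h1 : DifferentiableOn ℂ (fun w : ℂ => ((g 0 0 : ℂ) * w + g 0 1) / ((g 1 0 : ℂ) * w + g 1 1))
      {w | 0 < w.im} := by
    apply DifferentiableOn.div (by fun_prop) (by fun_prop)
    intro w hw
    exact f32_denom_ne g hw
  have h2 : DifferentiableOn ℂ (fun w : ℂ => ((g • ofComplex w : ℍ) : ℂ)) {w | 0 < w.im} :=
    h1.congr fun w hw => f32_coe_smul g hw
  unfold phh
  apply DifferentiableOn.div
  · exact (h2.const_mul _).cexp
  · intro w hw
    have h3 : DifferentiableAt ℂ jacobiTheta ((g • ofComplex w : ℍ) : ℂ) :=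
      differentiableAt_jacobiTheta (g • ofComplex w : ℍ).im_pos
    exact h3.comp_differentiableWithinAt w (h2 w hw)
  · intro w _
    exact theta_ne_zero _

theorem Rem_hol (r : ℝ) {g : SL(2, ℤ)} (hg : g ∈ Gam) :
    DifferentiableOn ℂ (fun w : ℂ => Rem r g (ofComplex w)) {w | 0 < w.im} := by
  have hfin := sg_finite (g⁻¹ • z0) z0
  have hfin' : ((fun h : Gam => (h : SL(2, ℤ))) ⁻¹'
    {h : SL(2, ℤ) | sgF h (g⁻¹ • z0) ≠ sgF h z0}).Finite :=
    hfin.preimage Subtype.val_injective.injOn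
  have key : ∀ w : ℂ, Rem r g (ofComplex w) = om r / 2 * ∑ h ∈ hfin'.toFinset, chi h *
      ((sgF h (g⁻¹ • z0) - sgF h z0 : ℝ) : ℂ) * phh r ((h : SL(2, ℤ)) • ofComplex w) := by
    intro w
    unfold Rem
    rw [tsum_eq_sum]
    intro h hh
    rw [Set.Finite.mem_toFinset, Set.mem_preimage, Set.mem_ofPred_eq, not_not] at hh
    rw [hh, sub_self]
    simp
  simp only [key]
  apply DifferentiableOn.const_mul
  apply DifferentiableOn.fun_sum
  intro h _
  exact (f32_phh_hol r h).const_mul _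

theorem ThG_DD (r : ℝ) {z : ℍ} (hz : z ∈ DD) : ThG r z = 0 := by
  unfold ThG
  have : ∀ h : Gam, chi h * ((sgF h z - sgF h z0 : ℝ) : ℂ) * phh r ((h : SL(2, ℤ)) • z) = 0 := by
    intro h
    by_cases hc : (h : SL(2, ℤ)) 1 0 = 0
    · rw [sg_Strip h.2 hz.1 hc, sub_self]
      simp
    · rw [sg_DD h.2 hz hc, sg_z0 h.2 hc, sub_self]
      simp
  simp only [this, tsum_zero, mul_zero]

theorem ThG_strip (r : ℝ) {z : ℍ} (hz : z ∈ Strip) : ThG r z = Th r z := by
  unfold ThG Th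
  congr 1
  refine tsum_congr fun h => ?_
  split_ifs with hc
  · rw [sg_Strip h.2 hz hc, sub_self]
    simp
  · rw [sg_z0 h.2 hc, ← ind_ratio h.2 hc]
    rfl

end RV11
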