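import Pool.Agent.LibRV11.Defs
open Complex Real MeasureTheory
open UpperHalfPlane hiding I
open scoped MatrixGroups

namespace RV11

/-- `s(g,z) = [Re gz > -1]`. -/
noncomputable def sgF (g : SL(2, ℤ)) (z : ℍ) : ℝ := ind (-1 < (g • z).re)

/-- base point `2i` -/
noncomputable def z0 : ℍ := ⟨2 * I, by simp⟩

/-- wall function on all of `ℍ` -/
noncomputable def ThG (r : ℝ) (z : ℍ) : ℂ :=
  om r / 2 * ∑' g : Gam, chi g * ((sgF g z - sgF g z0 : ℝ) : ℂ) * phh r ((g : SL(2, ℤ)) • z)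

open Classical in
/-- automorphic extension of `F1/θ - phh` from `DD` -/
noncomputable def G0 (F1 : ℂ → ℂ) (r : ℝ) (z : ℍ) : ℂ :=
  1 / 2 * ∑' g : Gam, if (g : SL(2, ℤ)) • z ∈ DD then
    chi g * (F1 (((g : SL(2, ℤ)) • z : ℍ) : ℂ) / jacobiTheta (((g : SL(2, ℤ)) • z : ℍ) : ℂ) -
      phh r ((g : SL(2, ℤ)) • z)) else 0

/-- the union of the translates of `DD` -/
def UU : Set ℍ := {z | ∃ g ∈ Gam, g • z ∈ DD}

/-- `F/θ`, defined on `UU` -/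
noncomputable def Fh (F1 : ℂ → ℂ) (r : ℝ) (z : ℍ) : ℂ := phh r z + G0 F1 r z + ThG r z

/-- right hand side of the transformation formula -/
noncomputable def Rem (r : ℝ) (g : SL(2, ℤ)) (z : ℍ) : ℂ :=
  om r / 2 * ∑' h : Gam, chi h * ((sgF h (g⁻¹ • z0) - sgF h z0 : ℝ) : ℂ) *
    phh r ((h : SL(2, ℤ)) • z)

/-- local holomorphic extension -/
def LocExt (f : ℍ → ℂ) (U : Set ℍ) (z1 : ℍ) : Prop :=
  ∃ (k : ℂ → ℂ) (ε : ℝ), 0 < ε ∧ (Metric.ball (z1 : ℂ) ε ⊆ {w | 0 < w.im}) ∧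
    DifferentiableOn ℂ k (Metric.ball (z1 : ℂ) ε) ∧
    ∀ z : ℍ, (z : ℂ) ∈ Metric.ball (z1 : ℂ) ε → z ∈ U → f z = k z

/-- hypotheses on `F1` (the conclusions of `F1_main`) -/
structure IsF1 (F1 : ℂ → ℂ) (r : ℝ) : Prop where
  diff : DifferentiableOn ℂ F1 {z | 0 < z.im ∧ ∀ k : ℤ, 1 < ‖z - 2 * k‖}
  per : ∀ z : ℂ, 0 < z.im → (∀ k : ℤ, 1 < ‖z - 2 * k‖) → F1 (z + 2) = F1 z
  cross : ∀ z0 : ℂ, ‖z0‖ = 1 → 0 < z0.im → ∃ ε > 0, ∃ FF : ℂ → ℂ,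
      DifferentiableOn ℂ FF (Metric.ball z0 ε) ∧
      (∀ z ∈ Metric.ball z0 ε, 0 < z.im → 1 < ‖z‖ → FF z = F1 z) ∧
      (∀ z ∈ Metric.ball z0 ε, 0 < z.im → ‖z‖ < 1 →
        FF z = cexp (π * I * r * z) + (-I * z) ^ (-(1 / 2) : ℂ) *
          (cexp (π * I * r * (-1 / z)) - F1 (-1 / z)))

end RV11
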