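import Pool.Agent.LibRV11.Defs
import Pool.Agent.LibRV11.BI7
open Complex Real MeasureTheory
open UpperHalfPlane hiding I
open scoped MatrixGroups

namespace RV11

theorem interp (x0 C : ℝ) (c : ℕ → ℂ) (hc : ∀ n, ‖c n‖ ≤ C)
    (hF : ∀ τ : ℂ, 0 < τ.im →
      ∑' n : ℕ, c n * (cexp (π * I * n * τ) + (-I * τ) ^ (-(1 / 2) : ℂ) *
          cexp (π * I * n * (-1 / τ))) =
        cexp (π * I * (x0 ^ 2 : ℝ) * τ) + (-I * τ) ^ (-(1 / 2) : ℂ) *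
          cexp (π * I * (x0 ^ 2 : ℝ) * (-1 / τ)))
    (b : SchwartzMap ℝ ℝ) (heven : ∀ x, b (-x) = b x)
    (hfour : ∀ ξ : ℝ, ∫ x : ℝ, (b x : ℂ) * cexp (-(2 * π * I * x * ξ)) = b ξ) :
    (b x0 : ℂ) = ∑' n : ℕ, c n * b (Real.sqrt n) :=
  interp' x0 C c hc hF b heven hfour

end RV11
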