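import Pool.Agent.LibRV11.Defs
import Pool.Agent.LibRV11.Asm9
import Pool.Agent.LibRV11.ModB
import Pool.Agent.LibRV11.EX12
open Complex Real MeasureTheory
open UpperHalfPlane hiding I
open scoped MatrixGroups

namespace RV11

/-- The Radchenko-Viazovska basis functions exist, are unique, and are uniformly bounded. -/
theorem main2 : ∃ C : ℝ, 0 < C ∧ ∀ n : ℕ,
    (∃! b : SchwartzMap ℝ ℝ, (∀ x : ℝ, b (-x) = b x) ∧
      (∀ ξ : ℝ, ∫ x : ℝ, (b x : ℂ) * cexp (-(2 * π * I * x * ξ)) = b ξ) ∧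
      (∀ m : ℕ, b (Real.sqrt m) = if m = n then 1 else 0)) ∧
    ∀ b : SchwartzMap ℝ ℝ, (∀ x : ℝ, b (-x) = b x) →
      (∀ ξ : ℝ, ∫ x : ℝ, (b x : ℂ) * cexp (-(2 * π * I * x * ξ)) = b ξ) →
      (∀ m : ℕ, b (Real.sqrt m) = if m = n then 1 else 0) → ∀ x : ℝ, |b x| < C := by
  obtain ⟨C, hC⟩ := thmA
  have key : ∀ n : ℕ, ∀ x : ℝ, ∃ c : ℂ, ‖c‖ ≤ C ∧ ∀ b : SchwartzMap ℝ ℝ,
      (∀ x : ℝ, b (-x) = b x) →
      (∀ ξ : ℝ, ∫ x : ℝ, (b x : ℂ) * cexp (-(2 * π * I * x * ξ)) = b ξ) →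
      (∀ m : ℕ, b (Real.sqrt m) = if m = n then 1 else 0) → (b x : ℂ) = c := by
    intro n x
    obtain ⟨c, hc, hF⟩ := hC (x ^ 2) (sq_nonneg x)
    refine ⟨c n, hc n, fun b heven hfour hb => ?_⟩
    have h1 := interp x C c hc hF b heven hfour
    rw [tsum_eq_single n (fun m hm => by rw [hb m, if_neg hm]; simp), hb n, if_pos rfl] at h1
    rw [h1]; simp
  refine ⟨|C| + 1, by positivity, fun n => ⟨?_, ?_⟩⟩
  · obtain ⟨b, hb1, hb2, hb3⟩ := basis_exists n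
    refine ⟨b, ⟨hb1, hb2, hb3⟩, ?_⟩
    rintro b' ⟨h1, h2, h3⟩
    ext x
    obtain ⟨c, -, hc⟩ := key n x
    have e1 := hc b' h1 h2 h3
    have e2 := hc b hb1 hb2 hb3
    exact_mod_cast e1.trans e2.symm
  · intro b h1 h2 h3 x
    obtain ⟨c, hcC, hc⟩ := key n x
    have e1 := hc b h1 h2 h3
    have e2 : |b x| ≤ C := by
      have : ‖(b x : ℂ)‖ ≤ C := by rw [e1]; exact hcC
      simpa using this
    have := le_abs_self C
    linarith

end RV11
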