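import Pool.Agent.LibRV11.Defs

/-!
# Module N (number theory): definitions
-/

open Complex Real

namespace RV11

/-- `e(x / q)`. -/
noncomputable def er (q : ℕ) (x : ZMod q) : ℂ := cexp (2 * π * I * (x.val : ℂ) / q)

/-- number of divisors -/
noncomputable def tau (m : ℕ) : ℝ := (m.divisors.card : ℝ)

/-- sum of the divisors -/
noncomputable def sg (m : ℕ) : ℝ := ∑ d ∈ m.divisors, (d : ℝ)

/-- `φ(2n) / 2n` -/
noncomputable def ff (n : ℕ) : ℝ := (Nat.totient (2 * n) : ℝ) / (2 * n : ℕ)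

/-- `c ≠ 0` and every prime factor of `c` divides `2n` -/
def Sm (n c : ℕ) : Prop := c ≠ 0 ∧ ∀ p, p.Prime → p ∣ c → p ∣ 2 * n

/-- moreover the odd part of `c` is squarefull -/
def Sf (n c : ℕ) : Prop := Sm n c ∧ ∀ p, p.Prime → p ≠ 2 → p ∣ c → p ^ 2 ∣ c

/-- weights bounded by `1` of total variation at most `V` -/
structure BV (w : ℕ → ℂ) (V : ℝ) : Prop where
  bd : ∀ b, ‖w b‖ ≤ 1
  tv : ∀ N, ∑ b ∈ Finset.range N, ‖w (b + 1) - w b‖ ≤ V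

/-- distance to the nearest multiple of `q` -/
noncomputable def dq (q : ℕ) (x : ZMod q) : ℝ := min (x.val : ℝ) ((q : ℝ) - x.val)

/-- `(k, q)` for `k` modulo `q` -/
def gz (q : ℕ) (k : ZMod q) : ℕ := Nat.gcd k.val q

/-- Gauss sum `∑ e(t k² / q)` -/
noncomputable def GG (q : ℕ) [NeZero q] (t : ZMod q) : ℂ := ∑ k : ZMod q, er q (t * k ^ 2)

/-- Kloosterman sum -/
noncomputable def Kl (q : ℕ) [NeZero q] (k l : ZMod q) : ℂ :=
  ∑ x : (ZMod q)ˣ, er q (k * (x : ZMod q) + l * ((x⁻¹ : (ZMod q)ˣ) : ZMod q))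

/-- `A(c0, u) = ∑_{(a,d)} ∑_{k < c0} e(u (n (a + d) - k² d) / 2c0)` -/
noncomputable def Asum (n c0 : ℕ) (u : ZMod (2 * c0)) : ℂ :=
  ∑ p ∈ adPairs c0, ∑ k ∈ Finset.range c0,
    er (2 * c0) (u * ((n : ZMod (2 * c0)) * ((p.1 : ZMod (2 * c0)) + (p.2 : ZMod (2 * c0))) -
      (k : ZMod (2 * c0)) ^ 2 * (p.2 : ZMod (2 * c0))))

open Classical in
/-- `(-1)^{c0} (A(c0, 1/v) / c0) e(s n / v / c0)` for units `v` modulo `2 c0` -/
noncomputable def Gm (n c0 : ℕ) (s : ℤ) (v : ZMod (2 * c0)) : ℂ :=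
  if IsUnit v then (-1) ^ c0 * (Asum n c0 v⁻¹ / c0) *
    er c0 ((s : ZMod c0) * (n : ZMod c0) * ((v.val : ZMod c0))⁻¹) else 0

/-- `M = ⌊n^{1/20}⌋` -/
noncomputable def Mn (n : ℕ) : ℕ := ⌊(n : ℝ) ^ (1 / 20 : ℝ)⌋₊

/-- the moduli over which we average -/
noncomputable def MM (n : ℕ) : Finset ℕ :=
  (Finset.Ico (Mn n) (2 * Mn n)).filter (fun m => Nat.Coprime m (2 * n))

end RV11
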