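import Pool.Agent.LibRV11.N00

open Complex Real

namespace RV11

theorem n01a_std (q : ℕ) [NeZero q] (x : ZMod q) : er q x = ZMod.stdAddChar x := by
  have h := ZMod.stdAddChar_coe (N := q) (x.val : ℤ)
  have h1 : (((x.val : ℤ)) : ZMod q) = x := by
    rw [Int.cast_natCast, ZMod.natCast_zmod_val]
  rw [h1] at h
  rw [h, er]
  push_cast
  rfl

theorem er_natCast (q : ℕ) (hq : q ≠ 0) (m : ℕ) :
    er q (m : ZMod q) = cexp (2 * π * I * m / q) := by
  have : NeZero q := ⟨hq⟩
  rw [n01a_std]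
  have h := ZMod.stdAddChar_coe (N := q) (m : ℤ)
  push_cast at h
  exact h

theorem er_intCast (q : ℕ) (hq : q ≠ 0) (m : ℤ) :
    er q (m : ZMod q) = cexp (2 * π * I * m / q) := by
  have : NeZero q := ⟨hq⟩
  rw [n01a_std]
  exact ZMod.stdAddChar_coe (N := q) m

theorem er_zero (q : ℕ) : er q 0 = 1 := by
  simp [er]

theorem er_add (q : ℕ) (hq : q ≠ 0) (x y : ZMod q) : er q (x + y) = er q x * er q y := by
  have : NeZero q := ⟨hq⟩
  rw [n01a_std, n01a_std, n01a_std, AddChar.map_add_eq_mul]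

theorem norm_er (q : ℕ) (x : ZMod q) : ‖er q x‖ = 1 := by
  unfold er
  have : (2 * π * I * (x.val : ℂ) / q : ℂ) = ((2 * π * (x.val : ℝ) / q : ℝ) : ℂ) * I := by
    push_cast
    ring
  rw [this]
  exact Complex.norm_exp_ofReal_mul_I _

theorem er_neg_mul (q : ℕ) (hq : q ≠ 0) (x : ZMod q) : er q (-x) * er q x = 1 := by
  rw [← er_add q hq, neg_add_cancel, er_zero]

theorem er_neg (q : ℕ) (hq : q ≠ 0) (x : ZMod q) : er q (-x) = (starRingEnd ℂ) (er q x) := by
  have h1 := er_neg_mul q hq x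
  have h2 : (starRingEnd ℂ) (er q x) * er q x = 1 := by
    rw [mul_comm, Complex.mul_conj, Complex.normSq_eq_norm_sq, norm_er]
    simp
  have h3 : er q x ≠ 0 := by
    intro h
    rw [h, mul_zero] at h1
    exact zero_ne_one h1
  exact mul_right_cancel₀ h3 (h1.trans h2.symm)

theorem sum_er (q : ℕ) [NeZero q] (k : ZMod q) :
    ∑ x : ZMod q, er q (k * x) = if k = 0 then (q : ℂ) else 0 := by
  have h := AddChar.sum_mulShift (R := ZMod q) (R' := ℂ) k (ZMod.isPrimitive_stdAddChar q)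
  rw [ZMod.card, Nat.cast_ite, Nat.cast_zero] at h
  rw [← h]
  refine Finset.sum_congr rfl fun x _ => ?_
  rw [n01a_std, mul_comm]

end RV11
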