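import Pool.Agent.LibRV11.N01a

open Complex Real

namespace RV11

theorem N01b_inv (q y : ℕ) (x k : ℤ) (h : x * y + k * q = 1) :
    ((y : ℕ) : ZMod q)⁻¹ = (x : ZMod q) := by
  apply ZMod.inv_eq_of_mul_eq_one
  have h1 := congrArg (Int.cast : ℤ → ZMod q) h
  push_cast at h1
  rw [ZMod.natCast_self, mul_zero, add_zero] at h1
  rw [mul_comm]
  exact h1

theorem N01b_er (q : ℕ) (hq : q ≠ 0) (x y : ℤ) :
    er q ((x : ZMod q) * (y : ZMod q)) = cexp (2 * π * I * (x * y) / q) := by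
  have h := er_intCast q hq (x * y)
  push_cast at h
  exact h

/-- Chinese remainder theorem for phases -/
theorem er_mul (a b : ℕ) (ha : a ≠ 0) (hb : b ≠ 0) (hab : Nat.Coprime a b) (x : ℤ) :
    er (a * b) (x : ZMod (a * b)) =
      er a ((x : ZMod a) * (b : ZMod a)⁻¹) * er b ((x : ZMod b) * (a : ZMod b)⁻¹) := by
  have hbez : (Nat.gcdA a b) * (a : ℤ) + (Nat.gcdB a b) * (b : ℤ) = 1 := by
    have h := Nat.gcd_eq_gcd_ab a b
    rw [Nat.coprime_iff_gcd_eq_one.1 hab] at h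
    push_cast at h
    linarith
  set u := Nat.gcdA a b
  set v := Nat.gcdB a b
  rw [N01b_inv a b v u (by linarith), N01b_inv b a u v (by linarith), N01b_er a ha, N01b_er b hb,
    er_intCast (a * b) (mul_ne_zero ha hb), ← Complex.exp_add]
  congr 1
  have ha' : (a : ℂ) ≠ 0 := Nat.cast_ne_zero.2 ha
  have hb' : (b : ℂ) ≠ 0 := Nat.cast_ne_zero.2 hb
  have h1 : (u : ℂ) * a + (v : ℂ) * b = 1 := by exact_mod_cast congrArg (Int.cast : ℤ → ℂ) hbez
  push_cast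
  field_simp
  linear_combination (-(x : ℂ)) * h1

/-- reciprocity -/
theorem er_recip (c0 a b : ℕ) (h0 : c0 ≠ 0) (ha : a ≠ 0) (hb : b ≠ 0) (hab : Nat.Coprime a b)
    (h0a : Nat.Coprime c0 a) (h0b : Nat.Coprime c0 b) (n : ℤ) :
    er a ((n : ZMod a) * (((c0 * b : ℕ) : ZMod a))⁻¹) *
      er b ((n : ZMod b) * (((c0 * a : ℕ) : ZMod b))⁻¹) *
      er c0 ((n : ZMod c0) * (((a * b : ℕ) : ZMod c0))⁻¹) =
    cexp (2 * π * I * n / (c0 * a * b)) := by
  have hb1 : (Nat.gcdA c0 a) * (c0 : ℤ) + (Nat.gcdB c0 a) * (a : ℤ) = 1 := by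
    have h := Nat.gcd_eq_gcd_ab c0 a
    rw [Nat.coprime_iff_gcd_eq_one.1 h0a] at h
    push_cast at h
    linarith
  have hb2 : (Nat.gcdA (c0 * a) b) * ((c0 : ℤ) * a) + (Nat.gcdB (c0 * a) b) * (b : ℤ) = 1 := by
    have h := Nat.gcd_eq_gcd_ab (c0 * a) b
    rw [Nat.coprime_iff_gcd_eq_one.1 (Nat.Coprime.mul_left h0b hab)] at h
    push_cast at h
    linarith
  set t := Nat.gcdA c0 a
  set s := Nat.gcdB c0 a
  set z := Nat.gcdA (c0 * a) b
  set w := Nat.gcdB (c0 * a) b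
  have k1 : (w * t) * ((c0 * b : ℕ) : ℤ) + (w * s * b + z * c0) * (a : ℤ) = 1 := by
    push_cast
    linear_combination hb2 + (w * b) * hb1
  have k2 : z * ((c0 * a : ℕ) : ℤ) + w * (b : ℤ) = 1 := by
    push_cast
    linear_combination hb2
  have k3 : (w * s) * ((a * b : ℕ) : ℤ) + (w * t * b + z * a) * (c0 : ℤ) = 1 := by
    push_cast
    linear_combination hb2 + (w * b) * hb1
  rw [N01b_inv a _ _ _ k1, N01b_inv b _ _ _ k2, N01b_inv c0 _ _ _ k3, N01b_er a ha, N01b_er b hb,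
    N01b_er c0 h0, ← Complex.exp_add, ← Complex.exp_add]
  congr 1
  have h0' : (c0 : ℂ) ≠ 0 := Nat.cast_ne_zero.2 h0
  have ha' : (a : ℂ) ≠ 0 := Nat.cast_ne_zero.2 ha
  have hb' : (b : ℂ) ≠ 0 := Nat.cast_ne_zero.2 hb
  have h1 : (t : ℂ) * c0 + (s : ℂ) * a = 1 := by exact_mod_cast congrArg (Int.cast : ℤ → ℂ) hb1
  have h2 : (z : ℂ) * (c0 * a) + (w : ℂ) * b = 1 := by
    exact_mod_cast congrArg (Int.cast : ℤ → ℂ) hb2
  push_cast
  field_simp
  linear_combination (n : ℂ) * h2 + (n : ℂ) * (w : ℂ) * b * h1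

end RV11
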