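import Pool.Agent.LibRV11.N00

open Complex Real

namespace RV11

theorem gz_intCast (q : ℕ) (hq : q ≠ 0) (m : ℤ) : gz q (m : ZMod q) = Nat.gcd m.natAbs q := by
  have : NeZero q := ⟨hq⟩
  unfold gz
  have h1 : Int.gcd (((m : ZMod q).val : ℕ) : ℤ) (q : ℤ) = Int.gcd m q := by
    rw [ZMod.val_intCast, Int.gcd_emod]
  rw [Int.gcd_natCast_natCast] at h1
  rw [h1, Int.gcd_eq_natAbs, Int.natAbs_natCast]

theorem N01c_natCast (q : ℕ) (hq : q ≠ 0) (m : ℕ) : gz q (m : ZMod q) = Nat.gcd m q := by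
  have h := gz_intCast q hq (m : ℤ)
  rwa [Int.cast_natCast, Int.natAbs_natCast] at h

theorem gz_mul_unit (q : ℕ) (hq : q ≠ 0) (u x : ZMod q) (hu : IsUnit u) :
    gz q (u * x) = gz q x := by
  have : NeZero q := ⟨hq⟩
  obtain ⟨u, rfl⟩ := hu
  have h1 : ((u : ZMod q) * x) = (((u : ZMod q).val * x.val : ℕ) : ZMod q) := by
    rw [Nat.cast_mul, ZMod.natCast_zmod_val, ZMod.natCast_zmod_val]
  rw [h1, N01c_natCast q hq]
  unfold gz
  exact Nat.Coprime.gcd_mul_left_cancel _ (ZMod.val_coe_unit_coprime u)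

theorem gz_pos (q : ℕ) (hq : q ≠ 0) (x : ZMod q) : 0 < gz q x :=
  Nat.gcd_pos_of_pos_right _ (Nat.pos_of_ne_zero hq)

theorem gz_le (q : ℕ) (hq : q ≠ 0) (x : ZMod q) : gz q x ≤ q :=
  Nat.gcd_le_right _ (Nat.pos_of_ne_zero hq)

theorem gz_inv_sub (q : ℕ) (hq : q ≠ 0) (m m' : ℕ) (hm : Nat.Coprime m q)
    (hm' : Nat.Coprime m' q) :
    gz q ((m : ZMod q)⁻¹ - (m' : ZMod q)⁻¹) = Nat.gcd ((m : ℤ) - m').natAbs q := by
  have : NeZero q := ⟨hq⟩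
  have h1 := ZMod.coe_mul_inv_eq_one m hm
  have h2 := ZMod.coe_mul_inv_eq_one m' hm'
  have hu : IsUnit (-((m : ZMod q)⁻¹ * (m' : ZMod q)⁻¹)) := by
    apply IsUnit.neg
    exact (IsUnit.of_mul_eq_one (m : ZMod q) (by rw [mul_comm]; exact h1)).mul
      (IsUnit.of_mul_eq_one (m' : ZMod q) (by rw [mul_comm]; exact h2))
  have h3 : (m : ZMod q)⁻¹ - (m' : ZMod q)⁻¹ =
      -((m : ZMod q)⁻¹ * (m' : ZMod q)⁻¹) * (((m : ℤ) - m' : ℤ) : ZMod q) := by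
    push_cast
    linear_combination (m' : ZMod q)⁻¹ * h1 - (m : ZMod q)⁻¹ * h2
  rw [h3, gz_mul_unit q hq _ _ hu, gz_intCast q hq]

end RV11
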