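import Pool.Agent.LibRV11.N01b

open Complex Real

namespace RV11

theorem N04a_subst (q : ℕ) [NeZero q] (F : ZMod q → ℂ) (u : ZMod q) (hu : IsUnit u) :
    ∑ x : ZMod q, F (u * x) = ∑ x : ZMod q, F x := by
  obtain ⟨u, rfl⟩ := hu
  exact Fintype.sum_equiv u.mulLeft _ _ fun x => rfl

theorem GG_mul (a b : ℕ) [NeZero a] [NeZero b] (hab : Nat.Coprime a b) (t : ℤ) :
    GG (a * b) (t : ZMod (a * b)) =
      GG a ((t : ZMod a) * (b : ZMod a)) * GG b ((t : ZMod b) * (a : ZMod b)) := by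
  have ha : a ≠ 0 := NeZero.ne a
  have hb : b ≠ 0 := NeZero.ne b
  have h1 := ZMod.coe_mul_inv_eq_one b hab.symm
  have h2 := ZMod.coe_mul_inv_eq_one a hab
  have key : ∀ k : ZMod (a * b), er (a * b) ((t : ZMod (a * b)) * k ^ 2) =
      er a ((t : ZMod a) * (ZMod.chineseRemainder hab k).1 ^ 2 * (b : ZMod a)⁻¹) *
        er b ((t : ZMod b) * (ZMod.chineseRemainder hab k).2 ^ 2 * (a : ZMod b)⁻¹) := by
    intro k
    have hk : k = ((k.val : ℕ) : ZMod (a * b)) := (ZMod.natCast_zmod_val k).symm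
    have e1 : (ZMod.chineseRemainder hab k).1 = ((k.val : ℕ) : ZMod a) := by
      conv_lhs => rw [hk, map_natCast]
      rfl
    have e2 : (ZMod.chineseRemainder hab k).2 = ((k.val : ℕ) : ZMod b) := by
      conv_lhs => rw [hk, map_natCast]
      rfl
    have h := er_mul a b ha hb hab (t * (k.val : ℤ) ^ 2)
    push_cast at h
    rw [ZMod.natCast_zmod_val] at h
    rw [h, e1, e2]
  unfold GG
  rw [Finset.sum_congr rfl fun k _ => key k]
  have hsum : ∑ k : ZMod (a * b),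
      er a ((t : ZMod a) * (ZMod.chineseRemainder hab k).1 ^ 2 * (b : ZMod a)⁻¹) *
        er b ((t : ZMod b) * (ZMod.chineseRemainder hab k).2 ^ 2 * (a : ZMod b)⁻¹) =
      ∑ p : ZMod a × ZMod b, er a ((t : ZMod a) * p.1 ^ 2 * (b : ZMod a)⁻¹) *
        er b ((t : ZMod b) * p.2 ^ 2 * (a : ZMod b)⁻¹) :=
    Fintype.sum_equiv (ZMod.chineseRemainder hab).toEquiv _ _ (fun k => rfl)
  rw [hsum, Fintype.sum_prod_type, Finset.sum_mul_sum]
  have hub : IsUnit (b : ZMod a) := IsUnit.of_mul_eq_one _ h1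
  have hua : IsUnit (a : ZMod b) := IsUnit.of_mul_eq_one _ h2
  rw [← N04a_subst a (fun x => ∑ y : ZMod b, er a ((t : ZMod a) * x ^ 2 * (b : ZMod a)⁻¹) *
        er b ((t : ZMod b) * y ^ 2 * (a : ZMod b)⁻¹)) _ hub]
  refine Finset.sum_congr rfl fun x _ => ?_
  rw [← N04a_subst b (fun y => er a ((t : ZMod a) * ((b : ZMod a) * x) ^ 2 * (b : ZMod a)⁻¹) *
        er b ((t : ZMod b) * y ^ 2 * (a : ZMod b)⁻¹)) _ hua]
  refine Finset.sum_congr rfl fun y _ => ?_
  congr 2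
  · linear_combination ((t : ZMod a) * (b : ZMod a) * x ^ 2) * h1
  · linear_combination ((t : ZMod b) * (a : ZMod b) * y ^ 2) * h2

end RV11
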