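import Pool.Agent.LibRV11.N01a

open Complex Real

namespace RV11

theorem N04b_subst (q : ℕ) [NeZero q] (F : ZMod q → ℂ) (u : ZMod q) (hu : IsUnit u) :
    ∑ x : ZMod q, F (u * x) = ∑ x : ZMod q, F x := by
  obtain ⟨u, rfl⟩ := hu
  exact Fintype.sum_equiv u.mulLeft _ _ fun x => rfl

theorem N04b_char (p : ℕ) [Fact p.Prime] (hp : p ≠ 2) (t : ZMod p) (ht : t ≠ 0) :
    GG p t = ∑ x : ZMod p, ((quadraticChar (ZMod p) x : ℤ) : ℂ) * er p (t * x) := by
  classical
  have h0 : ∑ x : ZMod p, er p (t * x) = 0 := by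
    rw [sum_er, if_neg ht]
  unfold GG
  rw [← Finset.sum_fiberwise Finset.univ (fun k : ZMod p => k ^ 2) (fun k => er p (t * k ^ 2))]
  have h1 : ∀ x : ZMod p, ∑ k ∈ Finset.univ.filter (fun k : ZMod p => k ^ 2 = x),
      er p (t * k ^ 2) = (((quadraticChar (ZMod p) x : ℤ) : ℂ) + 1) * er p (t * x) := by
    intro x
    have h2 : ∀ k ∈ Finset.univ.filter (fun k : ZMod p => k ^ 2 = x),
        er p (t * k ^ 2) = er p (t * x) := by
      intro k hk
      rw [(Finset.mem_filter.1 hk).2]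
    rw [Finset.sum_congr rfl h2, Finset.sum_const, nsmul_eq_mul]
    congr 1
    have h3 := quadraticChar_card_sqrts (F := ZMod p) ((ZMod.ringChar_zmod_n p).substr hp) x
    have h4 : ({k : ZMod p | k ^ 2 = x}.toFinset).card =
        (Finset.univ.filter (fun k : ZMod p => k ^ 2 = x)).card := by
      congr 1
      ext k
      simp
    rw [← h4]
    exact_mod_cast congrArg (Int.cast : ℤ → ℂ) h3
  rw [Finset.sum_congr rfl fun x _ => h1 x]
  simp only [add_mul, one_mul, Finset.sum_add_distrib, h0, add_zero]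

theorem GG_prime (p : ℕ) [Fact p.Prime] (hp : p ≠ 2) (n : ℤ) (hn : ¬ (p : ℤ) ∣ n) (t : ZMod p)
    (ht : t ≠ 0) : GG p ((n : ZMod p) * t) = (legendreSym p n : ℂ) * GG p t := by
  have hn0 : (n : ZMod p) ≠ 0 := fun h => hn ((ZMod.intCast_zmod_eq_zero_iff_dvd n p).1 h)
  have h1 : GG p t = (legendreSym p n : ℂ) * GG p ((n : ZMod p) * t) := by
    rw [N04b_char p hp t ht, N04b_char p hp _ (mul_ne_zero hn0 ht),
      ← N04b_subst p _ (n : ZMod p) (isUnit_iff_ne_zero.2 hn0), Finset.mul_sum]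
    refine Finset.sum_congr rfl fun x _ => ?_
    rw [map_mul]
    unfold legendreSym
    push_cast
    have : t * ((n : ZMod p) * x) = (n : ZMod p) * t * x := by ring
    rw [this]
    ring
  have h2 : (legendreSym p n : ℂ) * (legendreSym p n : ℂ) = 1 := by
    have := legendreSym.sq_one p hn0
    rw [← sq]
    exact_mod_cast congrArg (Int.cast : ℤ → ℂ) this
  rw [h1, ← mul_assoc, h2, one_mul]

theorem N04b_range (q : ℕ) [NeZero q] (t : ℤ) :
    GG q (t : ZMod q) = ∑ x ∈ Finset.range q, cexp (2 * π * I * (t * (x : ℂ) ^ 2) / q) := by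
  have hq : q ≠ 0 := NeZero.ne q
  unfold GG
  refine Finset.sum_bij' (fun x _ => ZMod.val x) (fun m _ => (m : ZMod q)) ?_ ?_ ?_ ?_ ?_
  · intro x _
    exact Finset.mem_range.2 (ZMod.val_lt x)
  · intro m _
    exact Finset.mem_univ _
  · intro x _
    exact ZMod.natCast_zmod_val x
  · intro m hm
    exact ZMod.val_cast_of_lt (Finset.mem_range.1 hm)
  · intro x _
    have h := er_intCast q hq (t * (x.val : ℤ) ^ 2)
    push_cast at h
    rw [ZMod.natCast_zmod_val] at h
    exact h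

theorem N04b_split (m n : ℕ) (f : ℕ → ℂ) :
    ∑ x ∈ Finset.range (m * n), f x =
      ∑ i ∈ Finset.range m, ∑ j ∈ Finset.range n, f (j + n * i) := by
  induction m with
  | zero => simp
  | succ m ih =>
    rw [Finset.sum_range_succ, ← ih, Nat.succ_mul, Finset.sum_range_add]
    congr 1
    refine Finset.sum_congr rfl fun j _ => ?_
    congr 1
    ring

theorem N04b_orth (p : ℕ) [Fact p.Prime] (l : ℤ) :
    ∑ i ∈ Finset.range p, cexp (2 * π * I * (l * (i : ℂ)) / p) =
      if (p : ℤ) ∣ l then (p : ℂ) else 0 := by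
  have hp0 : p ≠ 0 := (Fact.out : p.Prime).ne_zero
  have h := sum_er p (l : ZMod p)
  have h1 : ∑ x : ZMod p, er p ((l : ZMod p) * x) =
      ∑ i ∈ Finset.range p, cexp (2 * π * I * (l * (i : ℂ)) / p) := by
    refine Finset.sum_bij' (fun x _ => ZMod.val x) (fun m _ => (m : ZMod p)) ?_ ?_ ?_ ?_ ?_
    · intro x _
      exact Finset.mem_range.2 (ZMod.val_lt x)
    · intro m _
      exact Finset.mem_univ _
    · intro x _
      exact ZMod.natCast_zmod_val x
    · intro m hm
      exact ZMod.val_cast_of_lt (Finset.mem_range.1 hm)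
    · intro x _
      have h := er_intCast p hp0 (l * (x.val : ℤ))
      push_cast at h
      rw [ZMod.natCast_zmod_val] at h
      exact h
  rw [← h1, h]
  by_cases hl : (p : ℤ) ∣ l
  · rw [if_pos hl, if_pos ((ZMod.intCast_zmod_eq_zero_iff_dvd l p).2 hl)]
  · rw [if_neg hl, if_neg fun h => hl ((ZMod.intCast_zmod_eq_zero_iff_dvd l p).1 h)]

theorem GG_prime_pow (p : ℕ) [Fact p.Prime] (hp : p ≠ 2) (k : ℕ) (t : ℤ) (ht : ¬ (p : ℤ) ∣ t) :
    GG (p ^ (k + 2)) (t : ZMod (p ^ (k + 2))) = p * GG (p ^ k) (t : ZMod (p ^ k)) := by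
  have hpp : p.Prime := Fact.out
  have hpc : (p : ℂ) ≠ 0 := Nat.cast_ne_zero.2 hpp.ne_zero
  rw [N04b_range, N04b_range]
  set f : ℕ → ℂ := fun x => cexp (2 * π * I * (t * (x : ℂ) ^ 2) / ((p ^ (k + 2) : ℕ) : ℂ)) with hf
  have e1 : p ^ (k + 2) = p * p ^ (k + 1) := by ring
  have e2 : p ^ (k + 1) = p ^ k * p := by ring
  have h1 : ∀ i j : ℕ, f (j + p ^ (k + 1) * i) =
      f j * cexp (2 * π * I * (((2 * t * j : ℤ) : ℂ) * (i : ℂ)) / p) := by
    intro i j
    simp only [hf]
    rw [← Complex.exp_add]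
    have h2 : (2 * π * I * (t * ((j + p ^ (k + 1) * i : ℕ) : ℂ) ^ 2) / ((p ^ (k + 2) : ℕ) : ℂ)) =
        2 * π * I * (t * (j : ℂ) ^ 2) / ((p ^ (k + 2) : ℕ) : ℂ) +
        2 * π * I * (((2 * t * j : ℤ) : ℂ) * (i : ℂ)) / p +
          ((t * (p : ℤ) ^ k * (i : ℤ) ^ 2 : ℤ) : ℂ) * (2 * π * I) := by
      push_cast
      field_simp
      ring
    rw [h2, Complex.exp_add _ (((t * (p : ℤ) ^ k * (i : ℤ) ^ 2 : ℤ) : ℂ) * (2 * π * I)),
      Complex.exp_int_mul_two_pi_mul_I, mul_one]
  have h3 : ∑ x ∈ Finset.range (p ^ (k + 2)), f x =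
      ∑ j ∈ Finset.range (p ^ (k + 1)), f j * (if p ∣ j then (p : ℂ) else 0) := by
    rw [e1, N04b_split, Finset.sum_comm]
    refine Finset.sum_congr rfl fun j _ => ?_
    rw [Finset.sum_congr rfl fun i _ => h1 i j, ← Finset.mul_sum, N04b_orth]
    congr 1
    have hiff : (p : ℤ) ∣ 2 * t * j ↔ p ∣ j := by
      have hpi : Prime (p : ℤ) := Nat.prime_iff_prime_int.1 hpp
      rw [hpi.dvd_mul, hpi.dvd_mul, Int.natCast_dvd_natCast]
      constructor
      · rintro ((h | h) | h)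
        · exfalso
          have : p ∣ 2 := by exact_mod_cast h
          exact hp ((Nat.prime_dvd_prime_iff_eq hpp Nat.prime_two).1 this)
        · exact absurd h ht
        · exact h
      · exact fun h => Or.inr h
    simp only [hiff]
  rw [h3, e2, N04b_split, Finset.mul_sum]
  refine Finset.sum_congr rfl fun s _ => ?_
  rw [Finset.sum_eq_single 0]
  · rw [zero_add, if_pos (dvd_mul_right p s), mul_comm]
    congr 1
    simp only [hf]
    congr 1
    push_cast
    field_simp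
    ring
  · intro r hr hr0
    rw [if_neg, mul_zero]
    intro hd
    have h4 : p ∣ r := (Nat.dvd_add_left (dvd_mul_right p s)).1 hd
    exact absurd (Nat.le_of_dvd (Nat.pos_of_ne_zero hr0) h4) (not_le.2 (Finset.mem_range.1 hr))
  · intro h
    exact absurd (Finset.mem_range.2 hpp.pos) h

end RV11
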