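import Pool.Agent.LibRV11.N04a
import Pool.Agent.LibRV11.N04b

open Complex Real

namespace RV11

private theorem N04c_cast {q q' : ℕ} [NeZero q] [NeZero q'] (h : q = q') (s : ℤ) :
    GG q (s : ZMod q) = GG q' (s : ZMod q') := by
  subst h
  rfl

private theorem N04c_prime_pow (p : ℕ) [hp : Fact p.Prime] (hp2 : p ≠ 2) (n s : ℤ)
    (hn : ¬ (p : ℤ) ∣ n) (hs : ¬ (p : ℤ) ∣ s) (k : ℕ) :
    GG (p ^ k) ((n * s : ℤ) : ZMod (p ^ k)) =
      (legendreSym p n : ℂ) ^ k * GG (p ^ k) (s : ZMod (p ^ k)) ∧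
    GG (p ^ (k + 1)) ((n * s : ℤ) : ZMod (p ^ (k + 1))) =
      (legendreSym p n : ℂ) ^ (k + 1) * GG (p ^ (k + 1)) (s : ZMod (p ^ (k + 1))) := by
  have hns : ¬ (p : ℤ) ∣ n * s := fun h =>
    ((Nat.prime_iff_prime_int.1 hp.out).dvd_or_dvd h).elim hn hs
  induction k with
  | zero =>
    constructor
    · rw [N04c_cast (pow_zero p) (n * s), N04c_cast (pow_zero p) s, pow_zero, one_mul]
      congr 1
      exact Subsingleton.elim _ _
    · rw [N04c_cast (q := p ^ (0 + 1)) (q' := p) (by rw [zero_add, pow_one]) (n * s),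
        N04c_cast (q := p ^ (0 + 1)) (q' := p) (by rw [zero_add, pow_one]) s, zero_add, pow_one,
        Int.cast_mul]
      refine GG_prime p hp2 n hn _ ?_
      rwa [Ne, ZMod.intCast_zmod_eq_zero_iff_dvd]
  | succ k ih =>
    refine ⟨ih.2, ?_⟩
    have h1 : (legendreSym p n : ℂ) ^ 2 = 1 := by
      have h2 := legendreSym.sq_one p (a := n) (by rwa [Ne, ZMod.intCast_zmod_eq_zero_iff_dvd])
      exact_mod_cast h2
    have e1 := GG_prime_pow p hp2 k (n * s) hns
    have e2 := GG_prime_pow p hp2 k s hs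
    change GG (p ^ (k + 2)) ((n * s : ℤ) : ZMod (p ^ (k + 2))) =
      (legendreSym p n : ℂ) ^ (k + 2) * GG (p ^ (k + 2)) (s : ZMod (p ^ (k + 2)))
    rw [e1, e2, ih.1, pow_add, h1]
    ring

private theorem N04c_main (q : ℕ) : ∀ [NeZero q], Odd q → ∀ n s : ℤ, IsCoprime n (q : ℤ) →
    IsCoprime s (q : ℤ) →
    GG q ((n * s : ℤ) : ZMod q) = (jacobiSym n q : ℂ) * GG q (s : ZMod q) := by
  induction q using Nat.recOnPosPrimePosCoprime with
  | prime_pow p k hp hk =>
    intro _ hodd n s hn hs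
    have : Fact p.Prime := ⟨hp⟩
    have hp2 : p ≠ 2 := by
      rintro rfl
      have h1 : Even (2 ^ k) := (Nat.even_pow.2 ⟨even_two, hk.ne'⟩)
      exact (Nat.not_even_iff_odd.2 hodd) h1
    have hdvd : ∀ a : ℤ, IsCoprime a ((p ^ k : ℕ) : ℤ) → ¬ (p : ℤ) ∣ a := by
      intro a ha h1
      push_cast at ha
      have h2 : IsCoprime (p : ℤ) ((p : ℤ) ^ k) := ha.of_isCoprime_of_dvd_left h1
      have h3 : IsCoprime (p : ℤ) (p : ℤ) :=
        h2.of_isCoprime_of_dvd_right (dvd_pow_self _ hk.ne')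
      exact (Nat.prime_iff_prime_int.1 hp).not_isUnit (isCoprime_self.1 h3)
    have h1 := (N04c_prime_pow p hp2 n s (hdvd n hn) (hdvd s hs) k).1
    rw [jacobiSym.pow_right, ← jacobiSym.legendreSym.to_jacobiSym]
    push_cast
    push_cast at h1
    exact h1
  | zero =>
    intro h
    exact absurd rfl h.out
  | one =>
    intro _ _ n s _ _
    rw [jacobiSym.one_right, Int.cast_one, one_mul]
    congr 1
    exact Subsingleton.elim _ _
  | coprime a b ha hb hab iha ihb =>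
    intro _ hodd n s hn hs
    have : NeZero a := ⟨by omega⟩
    have : NeZero b := ⟨by omega⟩
    have ho := Nat.odd_mul.1 hodd
    have hZab : IsCoprime (a : ℤ) (b : ℤ) := Nat.isCoprime_iff_coprime.2 hab
    push_cast at hn hs
    have e1 := GG_mul a b hab (n * s)
    have e2 := GG_mul a b hab s
    have f1 := iha ho.1 n (s * b) hn.of_mul_right_left
      (hs.of_mul_right_left.mul_left hZab.symm)
    have f2 := ihb ho.2 n (s * a) hn.of_mul_right_right
      (hs.of_mul_right_right.mul_left hZab)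
    push_cast at e1 e2 f1 f2 ⊢
    rw [e1, e2, mul_assoc (n : ZMod a), mul_assoc (n : ZMod b), f1, f2, jacobiSym.mul_right]
    push_cast
    ring

theorem GG_jacobi (q : ℕ) [NeZero q] (hq : Odd q) (n : ℤ) (hn : IsCoprime n (q : ℤ)) (t : ZMod q)
    (ht : IsUnit t) : GG q ((n : ZMod q) * t) = (jacobiSym n q : ℂ) * GG q t := by
  have h1 : ((t.val : ℤ) : ZMod q) = t := by
    rw [Int.cast_natCast, ZMod.natCast_zmod_val]
  have h2 : IsCoprime (t.val : ℤ) (q : ℤ) := by
    rw [Nat.isCoprime_iff_coprime, ← ZMod.isUnit_iff_coprime, ZMod.natCast_zmod_val]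
    exact ht
  have h3 := N04c_main q hq n (t.val : ℤ) hn h2
  rw [Int.cast_mul, h1] at h3
  exact h3

end RV11
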