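import Pool.Agent.LibRV11.N04c

open Complex Real

namespace RV11

theorem N05_er_eq_one (q : ℕ) [NeZero q] (y : ZMod q) (h : er q y = 1) : y = 0 := by
  have hq : q ≠ 0 := NeZero.ne q
  have hqc : (q : ℂ) ≠ 0 := Nat.cast_ne_zero.2 hq
  unfold er at h
  obtain ⟨m, hm⟩ := Complex.exp_eq_one_iff.1 h
  have hpi : (2 * π * I : ℂ) ≠ 0 := Complex.two_pi_I_ne_zero
  have h1 : (y.val : ℂ) = m * q := by
    field_simp at hm
    linear_combination hm
  have h2 : (y.val : ℤ) = m * q := by exact_mod_cast h1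
  have h3 : y.val < q := ZMod.val_lt y
  have h4 : (q : ℤ) ∣ y.val := Dvd.intro_left m h2.symm
  have h5 : y.val = 0 := Nat.eq_zero_of_dvd_of_lt (Int.natCast_dvd_natCast.1 h4) h3
  exact (ZMod.val_eq_zero y).1 h5

theorem N05_shift (q : ℕ) [NeZero q] (F : ZMod q → ℂ) (z : ZMod q) :
    ∑ x : ZMod q, F (x + z) = ∑ x : ZMod q, F x :=
  Fintype.sum_equiv (Equiv.addRight z) _ _ fun x => rfl

theorem N05_unit_two (q : ℕ) (hq : Odd q) : IsUnit (2 : ZMod q) := by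
  have h := (ZMod.isUnit_iff_coprime 2 q).2 (Nat.coprime_two_left.2 hq)
  exact_mod_cast h

theorem N05_units (q : ℕ) [NeZero q] (F : ZMod q → ℂ) (hF : ∀ t : ZMod q, ¬ IsUnit t → F t = 0) :
    ∑ t : ZMod q, F t = ∑ t : (ZMod q)ˣ, F (t : ZMod q) := by
  classical
  have h1 : ∑ t : (ZMod q)ˣ, F (t : ZMod q) =
      ∑ t ∈ (Finset.univ : Finset (ZMod q)ˣ).map ⟨Units.val, Units.val_injective⟩, F t := by
    rw [Finset.sum_map]
    rfl
  rw [h1]
  symm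
  refine Finset.sum_subset (Finset.subset_univ _) fun t _ ht => hF t fun hu => ht ?_
  rw [Finset.mem_map]
  exact ⟨hu.unit, Finset.mem_univ _, rfl⟩

theorem N05_zero (q : ℕ) [NeZero q] (hq : Odd q) (l t : ZMod q) (hl : IsUnit l)
    (ht : ¬ IsUnit t) : ∑ x : ZMod q, er q (t * x ^ 2 + 2 * l * x) = 0 := by
  have hq0 : q ≠ 0 := NeZero.ne q
  obtain ⟨z, hz, htz⟩ : ∃ z : ZMod q, z ≠ 0 ∧ t * z = 0 := by
    have h1 : t ∉ nonZeroDivisors (ZMod q) := by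
      intro h
      exact ht (isUnit_iff_mem_nonZeroDivisors_of_finite.2 h)
    by_contra hcon
    push Not at hcon
    apply h1
    rw [mem_nonZeroDivisors_iff_right]
    intro x hx
    by_contra hx0
    exact hcon x hx0 (by rw [mul_comm]; exact hx)
  have h1 := N05_shift q (fun x => er q (t * x ^ 2 + 2 * l * x)) z
  have h2 : ∀ x : ZMod q, er q (t * (x + z) ^ 2 + 2 * l * (x + z)) =
      er q (2 * l * z) * er q (t * x ^ 2 + 2 * l * x) := by
    intro x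
    rw [← er_add q hq0]
    congr 1
    linear_combination (2 * x + z) * htz
  beta_reduce at h1
  rw [Finset.sum_congr rfl fun x _ => h2 x, ← Finset.mul_sum] at h1
  have h3 : er q (2 * l * z) ≠ 1 := by
    intro h
    have h4 := N05_er_eq_one q _ h
    have h5 : IsUnit (2 * l) := (N05_unit_two q hq).mul hl
    exact hz ((IsUnit.mul_right_eq_zero h5).1 h4)
  have h4 : (er q (2 * l * z) - 1) * ∑ x : ZMod q, er q (t * x ^ 2 + 2 * l * x) = 0 := by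
    linear_combination h1
  exact (mul_eq_zero.1 h4).resolve_left (sub_ne_zero.2 h3)

theorem salie_open (q : ℕ) [NeZero q] (hq : Odd q) (l D : ZMod q) (hl : IsUnit l) :
    (q : ℂ) * ∑ x ∈ Finset.univ.filter (fun x : ZMod q => x ^ 2 = D), er q (2 * l * x) =
      ∑ t : (ZMod q)ˣ, GG q (t : ZMod q) *
        er q (-((t : ZMod q) * D + l ^ 2 * ((t⁻¹ : (ZMod q)ˣ) : ZMod q))) := by
  have hq0 : q ≠ 0 := NeZero.ne q
  have h1 : (q : ℂ) * ∑ x ∈ Finset.univ.filter (fun x : ZMod q => x ^ 2 = D), er q (2 * l * x) =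
      ∑ t : ZMod q, er q (-(t * D)) * ∑ x : ZMod q, er q (t * x ^ 2 + 2 * l * x) := by
    simp only [Finset.mul_sum]
    rw [Finset.sum_comm, Finset.sum_filter]
    refine Finset.sum_congr rfl fun x _ => ?_
    have h2 : ∀ t : ZMod q, er q (-(t * D)) * er q (t * x ^ 2 + 2 * l * x) =
        er q (2 * l * x) * er q ((x ^ 2 - D) * t) := by
      intro t
      rw [← er_add q hq0, ← er_add q hq0]
      congr 1
      ring
    rw [Finset.sum_congr rfl fun t _ => h2 t, ← Finset.mul_sum, sum_er]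
    by_cases hx : x ^ 2 = D
    · rw [if_pos hx, if_pos (sub_eq_zero.2 hx), mul_comm]
    · rw [if_neg hx, if_neg (sub_ne_zero.2 hx), mul_zero]
  rw [h1, N05_units q (fun t => er q (-(t * D)) * ∑ x : ZMod q, er q (t * x ^ 2 + 2 * l * x))
    (fun t ht => by beta_reduce; rw [N05_zero q hq l t hl ht, mul_zero])]
  refine Finset.sum_congr rfl fun t _ => ?_
  have ht : (t : ZMod q) * ((t⁻¹ : (ZMod q)ˣ) : ZMod q) = 1 := t.mul_inv
  have h3 : ∑ x : ZMod q, er q ((t : ZMod q) * x ^ 2 + 2 * l * x) =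
      er q (-(l ^ 2 * ((t⁻¹ : (ZMod q)ˣ) : ZMod q))) * GG q (t : ZMod q) := by
    unfold GG
    rw [← N05_shift q (fun x => er q ((t : ZMod q) * x ^ 2)) (l * ((t⁻¹ : (ZMod q)ˣ) : ZMod q)),
      Finset.mul_sum]
    refine Finset.sum_congr rfl fun x _ => ?_
    rw [← er_add q hq0]
    congr 1
    linear_combination (- 2 * x * l - l ^ 2 * ((t⁻¹ : (ZMod q)ˣ) : ZMod q)) * ht
  rw [h3, neg_add, er_add q hq0]
  ring

theorem salie_eval (q : ℕ) [NeZero q] (hq : Odd q) (n : ℕ) (hn : Nat.Coprime n q) (l : ZMod q)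
    (hl : IsUnit l) :
    ∑ d : (ZMod q)ˣ, ∑ k : ZMod q, er q (l * ((n : ZMod q) *
        ((d : ZMod q) + ((d⁻¹ : (ZMod q)ˣ) : ZMod q)) - k ^ 2 * (d : ZMod q))) =
      q * (jacobiSym n q : ℂ) *
        ∑ x ∈ Finset.univ.filter (fun x : ZMod q => x ^ 2 = (n : ZMod q) ^ 2),
          er q (2 * l * x) := by
  have hq0 : q ≠ 0 := NeZero.ne q
  have h0 := salie_open q hq l ((n : ZMod q) ^ 2) hl
  have h1 : (q : ℂ) * (jacobiSym n q : ℂ) *
        ∑ x ∈ Finset.univ.filter (fun x : ZMod q => x ^ 2 = (n : ZMod q) ^ 2),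
          er q (2 * l * x) = (jacobiSym n q : ℂ) * ((q : ℂ) *
        ∑ x ∈ Finset.univ.filter (fun x : ZMod q => x ^ 2 = (n : ZMod q) ^ 2),
          er q (2 * l * x)) := by ring
  rw [h1, h0, Finset.mul_sum]
  obtain ⟨l, rfl⟩ := hl
  set nu : (ZMod q)ˣ := ZMod.unitOfCoprime n hn with hnu
  have hnv : (nu : ZMod q) = n := ZMod.coe_unitOfCoprime n hn
  have hs : ∑ i : (ZMod q)ˣ, (jacobiSym n q : ℂ) * (GG q (i : ZMod q) *
      er q (-((i : ZMod q) * (n : ZMod q) ^ 2 + (l : ZMod q) ^ 2 * ((i⁻¹ : (ZMod q)ˣ) : ZMod q)))) =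
      ∑ d : (ZMod q)ˣ, (jacobiSym n q : ℂ) * (GG q (((-l * nu⁻¹) * d : (ZMod q)ˣ) : ZMod q) *
      er q (-((((-l * nu⁻¹) * d : (ZMod q)ˣ) : ZMod q) * (n : ZMod q) ^ 2 +
        (l : ZMod q) ^ 2 * (((((-l * nu⁻¹) * d)⁻¹ : (ZMod q)ˣ)) : ZMod q)))) :=
    (Fintype.sum_equiv (Equiv.mulLeft (-l * nu⁻¹)) _ _ (fun d => rfl)).symm
  rw [hs]
  refine Finset.sum_congr rfl fun d _ => ?_
  have hcop : IsCoprime ((n : ℕ) : ℤ) (q : ℤ) := Nat.isCoprime_iff_coprime.2 hn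
  have h2 := GG_jacobi q hq (n : ℤ) hcop (((-l * nu⁻¹) * d : (ZMod q)ˣ) : ZMod q)
    (Units.isUnit _)
  have hd : (d : ZMod q) * ((d⁻¹ : (ZMod q)ˣ) : ZMod q) = 1 := d.mul_inv
  have hll : (l : ZMod q) * ((l⁻¹ : (ZMod q)ˣ) : ZMod q) = 1 := l.mul_inv
  have hnn : (nu : ZMod q) * ((nu⁻¹ : (ZMod q)ˣ) : ZMod q) = 1 := nu.mul_inv
  have e1 : (((n : ℤ) : ZMod q)) * (((-l * nu⁻¹) * d : (ZMod q)ˣ) : ZMod q) =
      -((l : ZMod q) * (d : ZMod q)) := by
    rw [Int.cast_natCast, ← hnv]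
    push_cast
    linear_combination (-(l : ZMod q) * d) * hnn
  rw [e1] at h2
  rw [← mul_assoc, ← h2]
  unfold GG
  rw [Finset.sum_mul]
  refine Finset.sum_congr rfl fun k _ => ?_
  rw [← er_add q hq0]
  congr 1
  have e2 : (((((-l * nu⁻¹) * d)⁻¹ : (ZMod q)ˣ)) : ZMod q) =
      -(((l⁻¹ : (ZMod q)ˣ) : ZMod q) * (nu : ZMod q) * ((d⁻¹ : (ZMod q)ˣ) : ZMod q)) := by
    have : (((-l * nu⁻¹) * d)⁻¹ : (ZMod q)ˣ) = -(l⁻¹ * nu * d⁻¹) := by
      rw [mul_inv, mul_inv, inv_inv, inv_neg]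
      simp [mul_comm, mul_assoc, mul_left_comm]
    rw [this]
    push_cast
    ring
  rw [e2, ← hnv]
  push_cast
  linear_combination (-((l : ZMod q) * (nu : ZMod q) * ((d⁻¹ : (ZMod q)ˣ) : ZMod q))) * hll
    - ((l : ZMod q) * d * nu) * hnn

end RV11
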