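import Pool.Agent.LibRV11.N00

open Complex Real

namespace RV11

private theorem sum_zmod_eq_range (m : ℕ) [NeZero m] (F : ZMod m → ℂ) :
    ∑ x : ZMod m, F x = ∑ k ∈ Finset.range m, F k := by
  symm
  refine Finset.sum_nbij' (fun k : ℕ => (k : ZMod m)) (fun x : ZMod m => x.val) ?_ ?_ ?_ ?_ ?_
  · intro k _; exact Finset.mem_univ _
  · intro x _; rw [Finset.mem_range]; exact ZMod.val_lt x
  · intro k hk
    rw [Finset.mem_range] at hk
    exact ZMod.val_cast_of_lt hk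
  · intro x _; exact ZMod.natCast_zmod_val x
  · intro k _; rfl

theorem range_crt (c0 c1 : ℕ) [NeZero c1] (h0 : c0 ≠ 0) (h01 : Nat.Coprime c0 c1)
    (f : ZMod c0 → ZMod c1 → ℂ) :
    ∑ k ∈ Finset.range (c0 * c1), f k k = ∑ k ∈ Finset.range c0, ∑ l : ZMod c1, f k l := by
  have hn0 : NeZero c0 := ⟨h0⟩
  have hn : NeZero (c0 * c1) := ⟨mul_ne_zero h0 (NeZero.ne c1)⟩
  have h1 := sum_zmod_eq_range (c0 * c1)
    (fun x => f (ZMod.chineseRemainder h01 x).1 (ZMod.chineseRemainder h01 x).2)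
  have h2 : ∀ k : ℕ, ZMod.chineseRemainder h01 (k : ZMod (c0 * c1)) = ((k : ZMod c0), (k : ZMod c1)) := by
    intro k
    rw [map_natCast]
    rfl
  simp only [h2] at h1
  rw [← h1]
  have h3 := (ZMod.chineseRemainder h01).toEquiv.sum_comp
    (fun y : ZMod c0 × ZMod c1 => f y.1 y.2)
  have h4 : ∑ x : ZMod (c0 * c1), f (ZMod.chineseRemainder h01 x).1 (ZMod.chineseRemainder h01 x).2 =
      ∑ y : ZMod c0 × ZMod c1, f y.1 y.2 := h3
  rw [h4, Fintype.sum_prod_type, sum_zmod_eq_range c0 (fun x => ∑ l : ZMod c1, f x l)]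

/-- the condition on pairs modulo `2c` -/
private def PP0 (c : ℕ) (a d : ℤ) : Prop :=
  (c : ℤ) ∣ a * d - 1 ∧ Even (a * ((a * d - 1) / c)) ∧ Even ((c : ℤ) * d)

private theorem mem_adPairs' (c : ℕ) (a d : ℕ) :
    (a, d) ∈ adPairs c ↔ (a ∈ Finset.range (2 * c) ∧ d ∈ Finset.range (2 * c)) ∧ PP0 c a d := by
  unfold adPairs PP0
  rw [Finset.mem_filter, Finset.mem_product]

private theorem PP0_iff {c : ℕ} (hc : c ≠ 0) (a d : ℤ) : PP0 c a d ↔
    ∃ b : ℤ, a * d - 1 = c * b ∧ Even (a * b) ∧ Even ((c : ℤ) * d) := by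
  have hc' : (c : ℤ) ≠ 0 := by exact_mod_cast hc
  constructor
  · rintro ⟨⟨b, hb⟩, h2, h3⟩
    refine ⟨b, hb, ?_, h3⟩
    rwa [hb, Int.mul_ediv_cancel_left _ hc'] at h2
  · rintro ⟨b, hb, h2, h3⟩
    refine ⟨⟨b, hb⟩, ?_, h3⟩
    rwa [hb, Int.mul_ediv_cancel_left _ hc']

private theorem PP0_shift {c : ℕ} (hc : c ≠ 0) (a d i j : ℤ) (h : PP0 c a d) :
    PP0 c (a + 2 * c * i) (d + 2 * c * j) := by
  rw [PP0_iff hc] at h ⊢
  obtain ⟨b, hb, h2, h3⟩ := h
  refine ⟨b + 2 * (a * j + i * d + 2 * c * i * j), by linear_combination hb, ?_, ?_⟩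
  · have e : (a + 2 * c * i) * (b + 2 * (a * j + i * d + 2 * c * i * j)) =
        a * b + 2 * (a * (a * j + i * d + 2 * c * i * j) +
          c * i * (b + 2 * (a * j + i * d + 2 * c * i * j))) := by ring
    rw [e]
    exact h2.add (even_two_mul _)
  · have e : (c : ℤ) * (d + 2 * c * j) = c * d + 2 * (c * c * j) := by ring
    rw [e]
    exact h3.add (even_two_mul _)

private theorem PP0_congr {c : ℕ} (hc : c ≠ 0) {a d a' d' : ℤ}
    (ha : (a : ZMod (2 * c)) = (a' : ZMod (2 * c))) (hd : (d : ZMod (2 * c)) = (d' : ZMod (2 * c))) :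
    PP0 c a d ↔ PP0 c a' d' := by
  rw [ZMod.intCast_eq_intCast_iff_dvd_sub] at ha hd
  obtain ⟨i, hi⟩ := ha
  obtain ⟨j, hj⟩ := hd
  push_cast at hi hj
  constructor
  · intro h
    have := PP0_shift hc a d i j h
    have e1 : a + 2 * c * i = a' := by linarith
    have e2 : d + 2 * c * j = d' := by linarith
    rwa [e1, e2] at this
  · intro h
    have := PP0_shift hc a' d' (-i) (-j) h
    have e1 : a' + 2 * c * (-i) = a := by linarith
    have e2 : d' + 2 * c * (-j) = d := by linarith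
    rwa [e1, e2] at this

private theorem PP0_mul {c0 c1 : ℕ} (h0 : c0 ≠ 0) (h1' : c1 ≠ 0) (h01 : Nat.Coprime c0 c1)
    (h1 : Odd c1) (a d : ℤ) : PP0 (c0 * c1) a d ↔
      PP0 c0 a d ∧ (a : ZMod c1) * (d : ZMod c1) = 1 := by
  have hodd : Odd (c1 : ℤ) := by exact_mod_cast h1
  rw [PP0_iff (mul_ne_zero h0 h1'), PP0_iff h0]
  have e1 : (a : ZMod c1) * (d : ZMod c1) = 1 ↔ (c1 : ℤ) ∣ a * d - 1 := by
    rw [← ZMod.intCast_zmod_eq_zero_iff_dvd]
    push_cast
    rw [sub_eq_zero]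
  rw [e1]
  constructor
  · rintro ⟨b, hb, h2, h3⟩
    push_cast at hb h3
    refine ⟨⟨c1 * b, by linear_combination hb, ?_, ?_⟩, ⟨c0 * b, by linear_combination hb⟩⟩
    · have e : a * (c1 * b) = c1 * (a * b) := by ring
      rw [e]; exact h2.mul_left _
    · have e : (c0 : ℤ) * c1 * d = c1 * (c0 * d) := by ring
      rw [e, Int.even_mul] at h3
      rcases h3 with h3 | h3
      · exact absurd hodd (Int.not_odd_iff_even.mpr h3)
      · exact h3
  · rintro ⟨⟨b, hb, h2, h3⟩, h4⟩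
    rw [hb] at h4
    have hcop : IsCoprime (c1 : ℤ) (c0 : ℤ) := (Nat.isCoprime_iff_coprime.mpr h01).symm
    obtain ⟨b', hb'⟩ := hcop.dvd_of_dvd_mul_left h4
    refine ⟨b', ?_, ?_, ?_⟩
    · push_cast; rw [hb, hb']; ring
    · rw [hb'] at h2
      have e : a * (c1 * b') = c1 * (a * b') := by ring
      rw [e, Int.even_mul] at h2
      rcases h2 with h2 | h2
      · exact absurd hodd (Int.not_odd_iff_even.mpr h2)
      · exact h2
    · push_cast
      have e : (c0 : ℤ) * c1 * d = c1 * (c0 * d) := by ring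
      rw [e]; exact h3.mul_left _

open Classical in
private theorem sum_adPairs (c : ℕ) (F : ℕ → ℕ → ℂ) :
    ∑ p ∈ adPairs c, F p.1 p.2 = ∑ a ∈ Finset.range (2 * c), ∑ d ∈ Finset.range (2 * c),
      if PP0 c a d then F a d else 0 := by
  rw [← Finset.sum_product', ← Finset.sum_filter]
  apply Finset.sum_congr
  · ext ⟨a, d⟩
    rw [mem_adPairs', Finset.mem_filter, Finset.mem_product]
  · intro p _; rfl

open Classical in
private theorem sum_units (c : ℕ) [NeZero c] (h : ZMod c → ZMod c → ℂ) :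
    ∑ a : ZMod c, ∑ d : ZMod c, (if a * d = 1 then h a d else 0) =
      ∑ d : (ZMod c)ˣ, h ((d⁻¹ : (ZMod c)ˣ) : ZMod c) d := by
  rw [← Fintype.sum_prod_type' (f := fun a d : ZMod c => if a * d = 1 then h a d else 0),
    ← Finset.sum_filter]
  symm
  refine Finset.sum_nbij (fun d : (ZMod c)ˣ => (((d⁻¹ : (ZMod c)ˣ) : ZMod c), (d : ZMod c)))
    ?_ ?_ ?_ ?_
  · intro d _
    rw [Finset.mem_filter]
    exact ⟨Finset.mem_univ _, by simp⟩
  · intro d _ d' _ hdd
    simp only [Prod.mk.injEq] at hdd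
    exact Units.ext hdd.2
  · rintro ⟨a, d⟩ had
    rw [Finset.mem_coe, Finset.mem_filter] at had
    refine ⟨⟨d, a, by rw [mul_comm]; exact had.2, had.2⟩, Finset.mem_coe.mpr (Finset.mem_univ _), ?_⟩
    rfl
  · intro d _; rfl

theorem adPairs_crt (c0 c1 : ℕ) [NeZero c1] (h0 : c0 ≠ 0) (h01 : Nat.Coprime c0 c1) (h1 : Odd c1)
    (f : ZMod (2 * c0) → ZMod (2 * c0) → ZMod c1 → ZMod c1 → ℂ) :
    ∑ p ∈ adPairs (c0 * c1), f p.1 p.2 p.1 p.2 =
      ∑ p ∈ adPairs c0, ∑ d : (ZMod c1)ˣ, f p.1 p.2 ((d⁻¹ : (ZMod c1)ˣ) : ZMod c1) d := by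
  classical
  have hc1 : c1 ≠ 0 := NeZero.ne c1
  have h2 : 2 * c0 ≠ 0 := by omega
  have hn2 : NeZero (2 * c0) := ⟨h2⟩
  have h2cop : Nat.Coprime (2 * c0) c1 := by
    apply Nat.Coprime.mul_left _ h01
    exact (Nat.coprime_two_left).mpr h1
  -- the condition as a function on residues
  set g : ZMod (2 * c0) → ZMod (2 * c0) → Prop := fun x y => PP0 c0 x.val y.val with hg
  have hgnat : ∀ a d : ℕ, g (a : ZMod (2 * c0)) (d : ZMod (2 * c0)) ↔ PP0 c0 a d := by
    intro a d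
    simp only [hg]
    apply PP0_congr h0
    · have := ZMod.natCast_zmod_val (a : ZMod (2 * c0))
      push_cast at this ⊢
      exact this
    · have := ZMod.natCast_zmod_val (d : ZMod (2 * c0))
      push_cast at this ⊢
      exact this
  rw [sum_adPairs (c0 * c1) (fun a d => f a d a d)]
  have e1 : 2 * (c0 * c1) = 2 * c0 * c1 := by ring
  rw [e1]
  have e2 : ∀ a d : ℕ, (if PP0 (c0 * c1) a d then f a d a d else 0) =
      if g (a : ZMod (2 * c0)) (d : ZMod (2 * c0)) ∧ (a : ZMod c1) * (d : ZMod c1) = 1 then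
        f a d a d else 0 := by
    intro a d
    have h3 := PP0_mul h0 hc1 h01 h1 (a : ℤ) (d : ℤ)
    push_cast at h3
    rw [if_congr (h3.trans (and_congr_left' (hgnat a d).symm)) rfl rfl]
  simp only [e2]
  -- CRT for `d`
  have e3 : ∀ a : ℕ, ∑ d ∈ Finset.range (2 * c0 * c1),
      (if g (a : ZMod (2 * c0)) (d : ZMod (2 * c0)) ∧ (a : ZMod c1) * (d : ZMod c1) = 1 then
        f a d a d else 0) = ∑ d ∈ Finset.range (2 * c0), ∑ l : ZMod c1,
      (if g (a : ZMod (2 * c0)) (d : ZMod (2 * c0)) ∧ (a : ZMod c1) * l = 1 then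
        f a d a l else 0) := by
    intro a
    exact range_crt (2 * c0) c1 h2 h2cop (fun y l =>
      if g (a : ZMod (2 * c0)) y ∧ (a : ZMod c1) * l = 1 then f a y a l else 0)
  simp only [e3]
  have e4 := range_crt (2 * c0) c1 h2 h2cop (fun x m => ∑ d ∈ Finset.range (2 * c0), ∑ l : ZMod c1,
      (if g x (d : ZMod (2 * c0)) ∧ m * l = 1 then f x d m l else 0))
  rw [e4, sum_adPairs c0 (fun a d => ∑ d' : (ZMod c1)ˣ, f a d ((d'⁻¹ : (ZMod c1)ˣ) : ZMod c1) d')]
  apply Finset.sum_congr rfl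
  intro a _
  rw [Finset.sum_comm]
  apply Finset.sum_congr rfl
  intro d _
  by_cases hP : PP0 c0 a d
  · rw [if_pos hP, ← sum_units c1 (fun m l => f a d m l)]
    apply Finset.sum_congr rfl
    intro m _
    apply Finset.sum_congr rfl
    intro l _
    have : (g (a : ZMod (2 * c0)) (d : ZMod (2 * c0)) ∧ m * l = 1) ↔ m * l = 1 :=
      ⟨fun h => h.2, fun h => ⟨(hgnat a d).mpr hP, h⟩⟩
    rw [if_congr this rfl rfl]
  · rw [if_neg hP]
    apply Finset.sum_eq_zero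
    intro m _
    apply Finset.sum_eq_zero
    intro l _
    rw [if_neg]
    intro h
    exact hP ((hgnat a d).mp h.1)

end RV11
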