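import Pool.Agent.LibRV11.N06a
import Pool.Agent.LibRV11.N01b

open Complex Real

namespace RV11

/-- The phase of a pair, split by the Chinese remainder theorem. -/
theorem n06b_split (c0 c1 : ℕ) (h0 : c0 ≠ 0) (h1' : c1 ≠ 0) (h01 : Nat.Coprime c0 c1)
    (h1 : Odd c1) (x : ℤ) :
    er (2 * (c0 * c1)) (x : ZMod (2 * (c0 * c1))) =
      er (2 * c0) ((x : ZMod (2 * c0)) * (c1 : ZMod (2 * c0))⁻¹) *
        er c1 ((x : ZMod c1) * (((2 * c0 : ℕ) : ZMod c1))⁻¹) := by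
  have hcop : Nat.Coprime (2 * c0) c1 :=
    Nat.Coprime.mul_left ((Nat.coprime_two_left).mpr h1) h01
  rw [← er_mul (2 * c0) c1 (by omega) h1' hcop x,
    er_intCast _ (by positivity), er_intCast _ (by positivity)]
  congr 2
  push_cast
  ring

/-- `k² d` modulo `2 c0` depends on `k` modulo `c0` only, if `c0 d` is even. -/
theorem n06b_mod (c0 d k : ℕ) (hd : Even (c0 * d)) :
    (((k % c0 : ℕ) : ZMod (2 * c0))) ^ 2 * (d : ZMod (2 * c0)) =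
      (k : ZMod (2 * c0)) ^ 2 * (d : ZMod (2 * c0)) := by
  obtain ⟨e, he⟩ := hd
  have hk := Nat.mod_add_div k c0
  set r := k % c0 with hr
  set j := k / c0 with hj
  have h1 : k ^ 2 * d = r ^ 2 * d + (2 * c0) * (j * r * d + j ^ 2 * e) := by
    rw [← hk]
    have h2 : (r + c0 * j) ^ 2 * d = r ^ 2 * d + 2 * c0 * (j * r * d) + c0 * j ^ 2 * (c0 * d) := by
      ring
    rw [h2, he]
    ring
  have h2 := congrArg (Nat.cast : ℕ → ZMod (2 * c0)) h1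
  rw [Nat.cast_add, Nat.cast_mul (2 * c0), ZMod.natCast_self, zero_mul, add_zero] at h2
  push_cast at h2
  exact h2.symm

theorem Asum_mul (n c0 c1 : ℕ) [NeZero c1] (h0 : c0 ≠ 0) (h01 : Nat.Coprime c0 c1) (h1 : Odd c1)
    (u : ℤ) :
    Asum n (c0 * c1) (u : ZMod (2 * (c0 * c1))) =
      Asum n c0 ((u : ZMod (2 * c0)) * (c1 : ZMod (2 * c0))⁻¹) *
      ∑ d : (ZMod c1)ˣ, ∑ k : ZMod c1, er c1 ((u : ZMod c1) * (((2 * c0 : ℕ) : ZMod c1))⁻¹ *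
        ((n : ZMod c1) * ((d : ZMod c1) + ((d⁻¹ : (ZMod c1)ˣ) : ZMod c1)) -
          k ^ 2 * (d : ZMod c1))) := by
  have hc1 : c1 ≠ 0 := NeZero.ne c1
  -- the two factors
  set g : ZMod (2 * c0) → ZMod (2 * c0) → ZMod (2 * c0) → ℂ := fun A D κ =>
    er (2 * c0) ((u : ZMod (2 * c0)) * (c1 : ZMod (2 * c0))⁻¹ *
      ((n : ZMod (2 * c0)) * (A + D) - κ ^ 2 * D)) with hg
  set g' : ZMod c1 → ZMod c1 → ZMod c1 → ℂ := fun A D κ =>
    er c1 ((u : ZMod c1) * (((2 * c0 : ℕ) : ZMod c1))⁻¹ *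
      ((n : ZMod c1) * (A + D) - κ ^ 2 * D)) with hg'
  have hL : Asum n (c0 * c1) (u : ZMod (2 * (c0 * c1))) =
      ∑ p ∈ adPairs (c0 * c1), ∑ k ∈ Finset.range (c0 * c1),
        g (p.1 : ZMod (2 * c0)) (p.2 : ZMod (2 * c0)) (k : ZMod (2 * c0)) *
          g' (p.1 : ZMod c1) (p.2 : ZMod c1) (k : ZMod c1) := by
    unfold Asum
    refine Finset.sum_congr rfl fun p _ => Finset.sum_congr rfl fun k _ => ?_
    have h2 := n06b_split c0 c1 h0 hc1 h01 h1 (u * ((n : ℤ) * ((p.1 : ℤ) + (p.2 : ℤ)) -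
      (k : ℤ) ^ 2 * (p.2 : ℤ)))
    push_cast at h2
    rw [h2]
    simp only [hg, hg']
    congr 2
    · ring
    · push_cast
      ring
  rw [hL, adPairs_crt c0 c1 h0 h01 h1 (fun A D A' D' => ∑ k ∈ Finset.range (c0 * c1),
    g A D (k : ZMod (2 * c0)) * g' A' D' (k : ZMod c1))]
  have hin : ∀ p ∈ adPairs c0, ∀ d : (ZMod c1)ˣ,
      ∑ k ∈ Finset.range (c0 * c1),
        g (p.1 : ZMod (2 * c0)) (p.2 : ZMod (2 * c0)) (k : ZMod (2 * c0)) *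
          g' ((d⁻¹ : (ZMod c1)ˣ) : ZMod c1) (d : ZMod c1) (k : ZMod c1) =
      (∑ k ∈ Finset.range c0, g (p.1 : ZMod (2 * c0)) (p.2 : ZMod (2 * c0))
        (k : ZMod (2 * c0))) *
        ∑ l : ZMod c1, g' ((d⁻¹ : (ZMod c1)ˣ) : ZMod c1) (d : ZMod c1) l := by
    intro p hp d
    have hev : Even (c0 * p.2) := by
      unfold adPairs at hp
      have h2 := (Finset.mem_filter.mp hp).2.2.2
      exact_mod_cast h2
    have hgk : ∀ k : ℕ, g (p.1 : ZMod (2 * c0)) (p.2 : ZMod (2 * c0))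
        (((k % c0 : ℕ) : ZMod (2 * c0))) =
        g (p.1 : ZMod (2 * c0)) (p.2 : ZMod (2 * c0)) (k : ZMod (2 * c0)) := by
      intro k
      simp only [hg]
      rw [n06b_mod c0 p.2 k hev]
    have h3 := range_crt c0 c1 h0 h01 (fun κ l =>
      g (p.1 : ZMod (2 * c0)) (p.2 : ZMod (2 * c0)) ((κ.val : ZMod (2 * c0))) *
        g' ((d⁻¹ : (ZMod c1)ˣ) : ZMod c1) (d : ZMod c1) l)
    simp only [ZMod.val_natCast, hgk] at h3
    rw [h3, Finset.sum_mul]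
    refine Finset.sum_congr rfl fun k _ => ?_
    rw [Finset.mul_sum]
  rw [Finset.sum_congr rfl fun p hp => Finset.sum_congr rfl fun d _ => hin p hp d]
  simp_rw [← Finset.mul_sum]
  rw [← Finset.sum_mul]
  have hcomm : ∀ (d : (ZMod c1)ˣ) (l : ZMod c1),
      g' ((d⁻¹ : (ZMod c1)ˣ) : ZMod c1) (d : ZMod c1) l =
      er c1 ((u : ZMod c1) * (((2 * c0 : ℕ) : ZMod c1))⁻¹ *
        ((n : ZMod c1) * ((d : ZMod c1) + ((d⁻¹ : (ZMod c1)ˣ) : ZMod c1)) -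
          l ^ 2 * (d : ZMod c1))) := by
    intro d l
    simp only [hg']
    rw [add_comm ((d⁻¹ : (ZMod c1)ˣ) : ZMod c1)]
  simp_rw [hcomm]
  rfl

theorem Kst_eq_Asum (n c : ℕ) (hc : c ≠ 0) : Kst n c = (-1) ^ c / (c : ℂ) * Asum n c 1 := by
  unfold Kst Asum
  congr 1
  refine Finset.sum_congr rfl fun p _ => ?_
  unfold Gs
  rw [Finset.sum_mul]
  refine Finset.sum_congr rfl fun k _ => ?_
  have h1 : ((1 : ZMod (2 * c)) * ((n : ZMod (2 * c)) * ((p.1 : ZMod (2 * c)) +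
      (p.2 : ZMod (2 * c))) - (k : ZMod (2 * c)) ^ 2 * (p.2 : ZMod (2 * c)))) =
      (((n : ℤ) * ((p.1 : ℤ) + (p.2 : ℤ)) - (k : ℤ) ^ 2 * (p.2 : ℤ) : ℤ) : ZMod (2 * c)) := by
    push_cast
    ring
  rw [h1, er_intCast _ (by omega), ← Complex.exp_add]
  congr 1
  have hc' : (c : ℂ) ≠ 0 := by exact_mod_cast hc
  push_cast
  field_simp
  ring

end RV11
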