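import Pool.Agent.LibRV11.N01a
import Pool.Agent.LibRV11.TH6

open Complex Real

namespace RV11

private theorem mem_adPairs {c : ℕ} {p : ℕ × ℕ} (hp : p ∈ adPairs c) :
    p.1 < 2 * c ∧ p.2 < 2 * c ∧ ∃ b : ℤ, (p.1 : ℤ) * p.2 - 1 = c * b ∧ Even ((p.1 : ℤ) * b) ∧
      Even ((c : ℤ) * p.2) := by
  unfold adPairs at hp
  rw [Finset.mem_filter, Finset.mem_product, Finset.mem_range, Finset.mem_range] at hp
  obtain ⟨⟨h1, h2⟩, ⟨b, hb⟩, h4, h5⟩ := hp
  have hc : (c : ℤ) ≠ 0 := by omega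
  refine ⟨h1, h2, b, hb, ?_, h5⟩
  rw [hb, Int.mul_ediv_cancel_left _ hc] at h4
  exact h4

private theorem adPairs_inj {c : ℕ} {a a' d : ℕ} (h : (a, d) ∈ adPairs c) (h' : (a', d) ∈ adPairs c)
    (hle : a ≤ a') : a = a' := by
  obtain ⟨h1, h2, b, hb, hab, hcd⟩ := mem_adPairs h
  obtain ⟨h1', h2', b', hb', hab', -⟩ := mem_adPairs h'
  simp only at h1 h2 hb hab hcd h1' h2' hb' hab'
  have hc : (0 : ℤ) < c := by omega
  have hcop : IsCoprime (c : ℤ) (d : ℤ) := ⟨-b, a, by linarith⟩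
  have hdvd : (c : ℤ) ∣ (a' - a) * d := ⟨b' - b, by linarith⟩
  have hdvd2 : (c : ℤ) ∣ (a' - a) := hcop.dvd_of_dvd_mul_right hdvd
  obtain ⟨k, hk⟩ := hdvd2
  have hk0 : 0 ≤ k := by
    by_contra hcon
    push Not at hcon
    have : (c : ℤ) * k < 0 := mul_neg_of_pos_of_neg hc hcon
    omega
  have hk2 : k < 2 := by
    by_contra hcon
    push Not at hcon
    have : (c : ℤ) * 2 ≤ c * k := by nlinarith
    omega
  have hk01 : k = 0 ∨ k = 1 := by omega
  rcases hk01 with rfl | rfl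
  · omega
  · exfalso
    have ha' : (a' : ℤ) = a + c := by linarith
    have hb2 : b' = b + d := by
      have e : (c : ℤ) * b' = c * (b + d) := by
        rw [← hb', ha']; linarith
      exact mul_left_cancel₀ hc.ne' e
    rw [ha', hb2] at hab'
    have hpar : ¬ Even ((c : ℤ) * b) ↔ Even ((a : ℤ) * d) := by
      rw [← hb, Int.even_sub]
      simp
    rw [Int.even_mul] at hab hcd hab'
    rw [Int.even_mul, Int.even_mul] at hpar
    rw [Int.even_add, Int.even_add] at hab'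
    tauto

theorem card_adPairs (c : ℕ) : (adPairs c).card ≤ c := by
  classical
  rcases Nat.eq_zero_or_pos c with rfl | hc
  · simp [adPairs]
  -- project to `d`
  have hinj : Set.InjOn (fun p : ℕ × ℕ => p.2) (adPairs c : Set (ℕ × ℕ)) := by
    rintro ⟨a, d⟩ h ⟨a', d'⟩ h' hdd
    simp only at hdd
    subst hdd
    rw [Finset.mem_coe] at h h'
    rcases Nat.le_total a a' with hle | hle
    · rw [adPairs_inj h h' hle]
    · rw [adPairs_inj h' h hle]
  rw [← Finset.card_image_of_injOn hinj]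
  -- the image is contained in the numbers `2i + ε`
  have hsub : ∃ e : ℕ, (adPairs c).image (fun p : ℕ × ℕ => p.2) ⊆
      (Finset.range c).image (fun i => 2 * i + e) := by
    rcases Nat.even_or_odd c with hce | hco
    · refine ⟨1, ?_⟩
      intro d hd
      rw [Finset.mem_image] at hd ⊢
      obtain ⟨p, hp, rfl⟩ := hd
      obtain ⟨h1, h2, b, hb, hab, hcd⟩ := mem_adPairs hp
      have hodd : Odd p.2 := by
        rw [← Nat.not_even_iff_odd]
        intro hev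
        have h3 : Even ((p.1 : ℤ) * p.2 - 1) := by
          rw [hb]
          exact Even.mul_right (by exact_mod_cast hce) _
        have h4 : Even ((p.1 : ℤ) * p.2) := Even.mul_left (by exact_mod_cast hev) _
        rw [Int.even_sub] at h3
        have := h3.mp h4
        exact absurd this (by decide)
      obtain ⟨i, hi⟩ := hodd
      exact ⟨i, by rw [Finset.mem_range]; omega, hi.symm⟩
    · refine ⟨0, ?_⟩
      intro d hd
      rw [Finset.mem_image] at hd ⊢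
      obtain ⟨p, hp, rfl⟩ := hd
      obtain ⟨h1, h2, b, hb, hab, hcd⟩ := mem_adPairs hp
      have hev : Even p.2 := by
        have h3 : Even (c * p.2) := by exact_mod_cast hcd
        rw [Nat.even_mul] at h3
        rcases h3 with h3 | h3
        · exact absurd h3 (Nat.not_even_iff_odd.mpr hco)
        · exact h3
      obtain ⟨i, hi⟩ := hev
      exact ⟨i, by rw [Finset.mem_range]; omega, by omega⟩
  obtain ⟨e, he⟩ := hsub
  calc _ ≤ ((Finset.range c).image (fun i => 2 * i + e)).card := Finset.card_le_card he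
    _ ≤ (Finset.range c).card := Finset.card_image_le
    _ = c := Finset.card_range c

theorem adPairs_prop (c : ℕ) (hc : c ≠ 0) (p : ℕ × ℕ) (hp : p ∈ adPairs c) :
    IsCoprime (c : ℤ) (p.2 : ℤ) ∧ Even ((c : ℤ) * p.2) := by
  obtain ⟨h1, h2, b, hb, hab, hcd⟩ := mem_adPairs hp
  exact ⟨⟨-b, p.1, by linarith⟩, hcd⟩

private theorem val_coprime {c0 : ℕ} (h0 : c0 ≠ 0) {u : ZMod (2 * c0)} (hu : IsUnit u) :
    IsCoprime (c0 : ℤ) (u.val : ℤ) := by
  have : NeZero (2 * c0) := ⟨by omega⟩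
  have h1 : (u.val : ZMod (2 * c0)) = u := ZMod.natCast_zmod_val u
  rw [← h1, ZMod.isUnit_iff_coprime] at hu
  have h2 : Nat.Coprime u.val c0 := Nat.Coprime.coprime_dvd_right (Dvd.intro_left 2 rfl) hu
  exact (Nat.isCoprime_iff_coprime.mpr h2).symm

theorem Asum_bound (n c0 : ℕ) (h0 : c0 ≠ 0) (u : ZMod (2 * c0)) (hu : IsUnit u) :
    ‖Asum n c0 u‖ ≤ c0 * Real.sqrt c0 := by
  have hne : NeZero (2 * c0) := ⟨by omega⟩
  have h2c : 2 * c0 ≠ 0 := by omega
  unfold Asum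
  have hterm : ∀ p ∈ adPairs c0, ‖∑ k ∈ Finset.range c0,
      er (2 * c0) (u * ((n : ZMod (2 * c0)) * ((p.1 : ZMod (2 * c0)) + (p.2 : ZMod (2 * c0))) -
      (k : ZMod (2 * c0)) ^ 2 * (p.2 : ZMod (2 * c0))))‖ ≤ Real.sqrt c0 := by
    intro p hp
    obtain ⟨hcop, hev⟩ := adPairs_prop c0 h0 p hp
    have e1 : ∀ k : ℕ, er (2 * c0) (u * ((n : ZMod (2 * c0)) *
        ((p.1 : ZMod (2 * c0)) + (p.2 : ZMod (2 * c0))) -
        (k : ZMod (2 * c0)) ^ 2 * (p.2 : ZMod (2 * c0)))) =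
        er (2 * c0) (u * ((n : ZMod (2 * c0)) * ((p.1 : ZMod (2 * c0)) + (p.2 : ZMod (2 * c0))))) *
        cexp (-(π * I * (k : ℂ) ^ 2 * ((u.val : ℤ) * (p.2 : ℤ) : ℤ) / c0)) := by
      intro k
      have e2 : u * ((n : ZMod (2 * c0)) * ((p.1 : ZMod (2 * c0)) + (p.2 : ZMod (2 * c0))) -
          (k : ZMod (2 * c0)) ^ 2 * (p.2 : ZMod (2 * c0))) =
          u * ((n : ZMod (2 * c0)) * ((p.1 : ZMod (2 * c0)) + (p.2 : ZMod (2 * c0)))) +
          ((-((k : ℤ) ^ 2 * ((u.val : ℤ) * (p.2 : ℤ))) : ℤ) : ZMod (2 * c0)) := by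
        have h3 : (u.val : ZMod (2 * c0)) = u := ZMod.natCast_zmod_val u
        push_cast
        rw [h3]
        ring
      rw [e2, er_add _ h2c, er_intCast _ h2c]
      congr 2
      have hc0 : (c0 : ℂ) ≠ 0 := by exact_mod_cast h0
      push_cast
      field_simp
    rw [Finset.sum_congr rfl (fun k _ => e1 k), ← Finset.mul_sum, norm_mul, norm_er, one_mul]
    have h4 := norm_Gs ((u.val : ℤ) * (p.2 : ℤ)) c0 (Nat.pos_of_ne_zero h0)
      ((val_coprime h0 hu).mul_right hcop) (by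
        have : (c0 : ℤ) * ((u.val : ℤ) * (p.2 : ℤ)) = (u.val : ℤ) * ((c0 : ℤ) * p.2) := by ring
        rw [this]
        exact hev.mul_left _)
    unfold Gs at h4
    rw [h4]
  calc ‖∑ p ∈ adPairs c0, ∑ k ∈ Finset.range c0,
      er (2 * c0) (u * ((n : ZMod (2 * c0)) * ((p.1 : ZMod (2 * c0)) + (p.2 : ZMod (2 * c0))) -
      (k : ZMod (2 * c0)) ^ 2 * (p.2 : ZMod (2 * c0))))‖
      ≤ ∑ p ∈ adPairs c0, ‖∑ k ∈ Finset.range c0,
      er (2 * c0) (u * ((n : ZMod (2 * c0)) * ((p.1 : ZMod (2 * c0)) + (p.2 : ZMod (2 * c0))) -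
      (k : ZMod (2 * c0)) ^ 2 * (p.2 : ZMod (2 * c0))))‖ := norm_sum_le _ _
    _ ≤ ∑ p ∈ adPairs c0, Real.sqrt c0 := Finset.sum_le_sum hterm
    _ = (adPairs c0).card * Real.sqrt c0 := by rw [Finset.sum_const, nsmul_eq_mul]
    _ ≤ c0 * Real.sqrt c0 := by
        have : ((adPairs c0).card : ℝ) ≤ c0 := by exact_mod_cast card_adPairs c0
        gcongr

theorem Gm_bound (n c0 : ℕ) (h0 : c0 ≠ 0) (s : ℤ) (v : ZMod (2 * c0)) :
    ‖Gm n c0 s v‖ ≤ Real.sqrt c0 := by
  have hc0 : (0 : ℝ) < c0 := by exact_mod_cast Nat.pos_of_ne_zero h0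
  unfold Gm
  split_ifs with hv
  · have hv' : IsUnit v⁻¹ := by
      obtain ⟨w, rfl⟩ := hv
      rw [ZMod.inv_coe_unit]
      exact (w⁻¹).isUnit
    have h := Asum_bound n c0 h0 v⁻¹ hv'
    rw [norm_mul, norm_mul, norm_er, norm_pow, norm_neg, norm_one, one_pow, one_mul, mul_one,
      norm_div, Complex.norm_natCast, div_le_iff₀ hc0]
    linarith
  · rw [norm_zero]
    positivity

end RV11
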