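import Pool.Agent.LibRV11.N06b
import Pool.Agent.LibRV11.N04b

open Complex Real

namespace RV11

private theorem n08_sum_units (p : ℕ) [Fact p.Prime] (hp2 : p ≠ 2) :
    ∑ d : (ZMod p)ˣ, ((legendreSym p (((d : ZMod p).val : ℕ) : ℤ) : ℤ) : ℂ) = 0 := by
  have h1 : ∀ d : (ZMod p)ˣ, legendreSym p (((d : ZMod p).val : ℕ) : ℤ) =
      quadraticChar (ZMod p) (d : ZMod p) := by
    intro d
    rw [legendreSym]
    congr 1
    push_cast
    exact ZMod.natCast_zmod_val _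
  have h2 : ∑ d : (ZMod p)ˣ, quadraticChar (ZMod p) (d : ZMod p) = 0 := by
    have h3 := quadraticChar_sum_zero (F := ZMod p) (by rwa [ZMod.ringChar_zmod_n])
    rw [← h3]
    have h4 : ∑ a : ZMod p, quadraticChar (ZMod p) a =
        ∑ a ∈ Finset.univ.filter (fun a : ZMod p => IsUnit a), quadraticChar (ZMod p) a := by
      symm
      apply Finset.sum_subset (Finset.filter_subset _ _)
      intro x _ hx
      simp only [Finset.mem_filter, Finset.mem_univ, true_and] at hx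
      exact MulChar.map_nonunit _ hx
    rw [h4]
    apply Finset.sum_bij (fun (d : (ZMod p)ˣ) _ => (d : ZMod p))
    · intro a _
      simp
    · intro a _ b _ h
      exact Units.ext h
    · intro b hb
      simp only [Finset.mem_filter, Finset.mem_univ, true_and] at hb
      exact ⟨hb.unit, Finset.mem_univ _, rfl⟩
    · intro a _
      rfl
  have h5 : ∑ d : (ZMod p)ˣ, ((legendreSym p (((d : ZMod p).val : ℕ) : ℤ) : ℤ) : ℂ) =
      ((∑ d : (ZMod p)ˣ, quadraticChar (ZMod p) (d : ZMod p) : ℤ) : ℂ) := by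
    push_cast
    exact Finset.sum_congr rfl fun d _ => by rw [h1]
  rw [h5, h2, Int.cast_zero]

theorem Asum_zero (n c0 p : ℕ) (h0 : c0 ≠ 0) (hp : p.Prime) (hp2 : p ≠ 2) (hpn : p ∣ n)
    (hpc : p ∣ c0) (hpc2 : ¬ p ^ 2 ∣ c0) (u : ZMod (2 * c0)) (hu : IsUnit u) :
    Asum n c0 u = 0 := by
  have : Fact p.Prime := ⟨hp⟩
  obtain ⟨c', rfl⟩ := exists_eq_mul_left_of_dvd hpc
  have hc' : c' ≠ 0 := by rintro rfl; simp at h0
  have hcop : Nat.Coprime c' p := by
    rw [Nat.coprime_comm, hp.coprime_iff_not_dvd]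
    rintro ⟨m, rfl⟩
    exact hpc2 ⟨m, by ring⟩
  have : NeZero (2 * (c' * p)) := ⟨mul_ne_zero two_ne_zero h0⟩
  have hodd : Odd p := hp.odd_of_ne_two hp2
  obtain ⟨v, rfl⟩ : ∃ v : ℕ, (v : ZMod (2 * (c' * p))) = u := ⟨u.val, ZMod.natCast_zmod_val u⟩
  rw [ZMod.isUnit_iff_coprime] at hu
  have hvp : Nat.Coprime v p := Nat.Coprime.coprime_dvd_right ⟨2 * c', by ring⟩ hu
  have hv0 : (v : ZMod p) ≠ 0 := by
    intro h
    rw [ZMod.natCast_eq_zero_iff] at h
    exact (hp.coprime_iff_not_dvd.1 hvp.symm) h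
  have h2c : ((2 * c' : ℕ) : ZMod p) ≠ 0 := by
    intro h
    rw [ZMod.natCast_eq_zero_iff] at h
    rcases hp.dvd_mul.1 h with h | h
    · exact hp2 ((Nat.prime_dvd_prime_iff_eq hp Nat.prime_two).1 h)
    · exact (hp.coprime_iff_not_dvd.1 hcop.symm) h
  have hn0 : (n : ZMod p) = 0 := by rwa [ZMod.natCast_eq_zero_iff]
  have key := Asum_mul n c' p hc' hcop hodd (v : ℤ)
  rw [Int.cast_natCast] at key
  rw [key]
  apply mul_eq_zero_of_right
  set t : ZMod p := -(((v : ℤ) : ZMod p) * (((2 * c' : ℕ) : ZMod p))⁻¹) with ht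
  have ht0 : t ≠ 0 := by
    rw [ht, neg_ne_zero]
    exact mul_ne_zero (by push_cast; exact hv0) (inv_ne_zero h2c)
  have hterm : ∀ d : (ZMod p)ˣ, ∑ k : ZMod p, er p (((v : ℤ) : ZMod p) *
      (((2 * c' : ℕ) : ZMod p))⁻¹ * ((n : ZMod p) * ((d : ZMod p) + ((d⁻¹ : (ZMod p)ˣ) : ZMod p)) -
          k ^ 2 * (d : ZMod p))) =
      ((legendreSym p (((d : ZMod p).val : ℕ) : ℤ) : ℤ) : ℂ) * GG p t := by
    intro d
    have hd0 : (d : ZMod p) ≠ 0 := d.ne_zero
    have hval : ((((d : ZMod p).val : ℕ) : ℤ) : ZMod p) = (d : ZMod p) := by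
      push_cast
      exact ZMod.natCast_zmod_val _
    have hnd : ¬ (p : ℤ) ∣ (((d : ZMod p).val : ℕ) : ℤ) := by
      intro h
      rw [← ZMod.intCast_zmod_eq_zero_iff_dvd, hval] at h
      exact hd0 h
    rw [← GG_prime p hp2 _ hnd t ht0, hval, GG]
    apply Finset.sum_congr rfl
    intro k _
    congr 1
    rw [hn0, ht]
    ring
  rw [Finset.sum_congr rfl fun d _ => hterm d, ← Finset.sum_mul, n08_sum_units p hp2, zero_mul]

end RV11
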