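import Pool.Agent.LibRV11.N01b

open Complex Real

namespace RV11

private theorem n09_dvd_val {q : ℕ} [NeZero q] {d : ℕ} (hd : d ∣ q) (z : ℤ) :
    d ∣ ((z : ZMod q)).val ↔ (d : ℤ) ∣ z := by
  have h1 : (((z : ZMod q)).val : ℤ) = z % q := ZMod.val_intCast z
  rw [← Int.natCast_dvd_natCast, h1, Int.dvd_iff_emod_eq_zero,
    Int.emod_emod_of_dvd z (Int.natCast_dvd_natCast.2 hd), ← Int.dvd_iff_emod_eq_zero]

private theorem n09_gcd {q : ℕ} [NeZero q] (z : ℤ) :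
    Nat.gcd ((z : ZMod q)).val q = Int.gcd z q := by
  apply Nat.dvd_antisymm
  · have h1 : (Nat.gcd ((z : ZMod q)).val q) ∣ q := Nat.gcd_dvd_right _ _
    have h2 := (n09_dvd_val h1 z).1 (Nat.gcd_dvd_left _ _)
    exact Int.dvd_gcd h2 (Int.natCast_dvd_natCast.2 h1)
  · have h1 : Int.gcd z q ∣ q := Int.natCast_dvd_natCast.1 (Int.gcd_dvd_right _ _)
    exact Nat.dvd_gcd ((n09_dvd_val h1 z).2 (Int.gcd_dvd_left _ _)) h1

private theorem n09_inv {a : ℕ} {c0 b : ℕ} {t : ℤ} (hb : Nat.Coprime b a) (hc : Nat.Coprime c0 a)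
    (ht : (c0 : ZMod a) * (t : ZMod a) = 1) :
    (t : ZMod a) * (b : ZMod a)⁻¹ = (((c0 * b : ℕ) : ZMod a))⁻¹ := by
  have h1 : (b : ZMod a) * (b : ZMod a)⁻¹ = 1 := ZMod.coe_mul_inv_eq_one b hb
  have h2 : ((c0 * b : ℕ) : ZMod a) * (((c0 * b : ℕ) : ZMod a))⁻¹ = 1 :=
    ZMod.coe_mul_inv_eq_one (c0 * b) (Nat.Coprime.mul_left hc hb)
  have h3 : ((c0 * b : ℕ) : ZMod a) * ((t : ZMod a) * (b : ZMod a)⁻¹) = 1 := by
    push_cast
    calc (c0 : ZMod a) * b * ((t : ZMod a) * (b : ZMod a)⁻¹)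
        = ((c0 : ZMod a) * t) * ((b : ZMod a) * (b : ZMod a)⁻¹) := by ring
      _ = 1 := by rw [ht, h1, one_mul]
  calc (t : ZMod a) * (b : ZMod a)⁻¹
      = ((t : ZMod a) * (b : ZMod a)⁻¹) *
        (((c0 * b : ℕ) : ZMod a) * (((c0 * b : ℕ) : ZMod a))⁻¹) := by rw [h2, mul_one]
    _ = (((c0 * b : ℕ) : ZMod a) * ((t : ZMod a) * (b : ZMod a)⁻¹)) *
        (((c0 * b : ℕ) : ZMod a))⁻¹ := by ring
    _ = (((c0 * b : ℕ) : ZMod a))⁻¹ := by rw [h3, one_mul]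

/-- the value of the phase at a root -/
private theorem n09_value {a b c0 n : ℕ} (ha : a ≠ 0) (hb : b ≠ 0) (hab : Nat.Coprime a b)
    (h0 : Nat.Coprime c0 (a * b)) {z : ℤ} (hza : (a : ℤ) ∣ z - n) (hzb : (b : ℤ) ∣ z + n) :
    er (a * b) ((c0 : ZMod (a * b))⁻¹ * (z : ZMod (a * b))) =
      er a ((n : ZMod a) * (((c0 * b : ℕ) : ZMod a))⁻¹) *
        er b (-((n : ZMod b) * (((c0 * a : ℕ) : ZMod b))⁻¹)) := by
  have : NeZero (a * b) := ⟨mul_ne_zero ha hb⟩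
  set t : ℤ := (((c0 : ZMod (a * b))⁻¹).val : ℤ) with ht
  have ht1 : ((t : ℤ) : ZMod (a * b)) = (c0 : ZMod (a * b))⁻¹ := by
    rw [ht]
    push_cast
    exact ZMod.natCast_zmod_val _
  have hct : (c0 : ZMod (a * b)) * ((t : ℤ) : ZMod (a * b)) = 1 := by
    rw [ht1]
    exact ZMod.coe_mul_inv_eq_one c0 h0
  have hct' : ((a * b : ℕ) : ℤ) ∣ (c0 : ℤ) * t - 1 := by
    rw [← ZMod.intCast_zmod_eq_zero_iff_dvd]
    push_cast at hct ⊢
    rw [hct, sub_self]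
  have hcta : (c0 : ZMod a) * (t : ZMod a) = 1 := by
    have h1 : (a : ℤ) ∣ (c0 : ℤ) * t - 1 :=
      dvd_trans (Int.natCast_dvd_natCast.2 (dvd_mul_right a b)) hct'
    have h2 := (ZMod.intCast_zmod_eq_zero_iff_dvd ((c0 : ℤ) * t - 1) a).2 h1
    push_cast at h2
    exact sub_eq_zero.1 h2
  have hctb : (c0 : ZMod b) * (t : ZMod b) = 1 := by
    have h1 : (b : ℤ) ∣ (c0 : ℤ) * t - 1 :=
      dvd_trans (Int.natCast_dvd_natCast.2 (dvd_mul_left b a)) hct'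
    have h2 := (ZMod.intCast_zmod_eq_zero_iff_dvd ((c0 : ℤ) * t - 1) b).2 h1
    push_cast at h2
    exact sub_eq_zero.1 h2
  have hzA : (z : ZMod a) = (n : ZMod a) := by
    have h2 := (ZMod.intCast_zmod_eq_zero_iff_dvd (z - n) a).2 hza
    push_cast at h2
    exact sub_eq_zero.1 h2
  have hzB : (z : ZMod b) = -(n : ZMod b) := by
    have h2 := (ZMod.intCast_zmod_eq_zero_iff_dvd (z + n) b).2 hzb
    push_cast at h2
    exact eq_neg_of_add_eq_zero_left h2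
  have h1 : (c0 : ZMod (a * b))⁻¹ * (z : ZMod (a * b)) = ((t * z : ℤ) : ZMod (a * b)) := by
    rw [← ht1]
    push_cast
    rfl
  have h0a : Nat.Coprime c0 a := Nat.Coprime.coprime_mul_right_right h0
  have h0b : Nat.Coprime c0 b := Nat.Coprime.coprime_mul_left_right h0
  rw [h1, er_mul a b ha hb hab (t * z)]
  have e1 : ((t * z : ℤ) : ZMod a) * (b : ZMod a)⁻¹ =
      (n : ZMod a) * (((c0 * b : ℕ) : ZMod a))⁻¹ := by
    rw [← n09_inv hab.symm h0a hcta]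
    push_cast
    rw [hzA]
    ring
  have e2 : ((t * z : ℤ) : ZMod b) * (a : ZMod b)⁻¹ =
      -((n : ZMod b) * (((c0 * a : ℕ) : ZMod b))⁻¹) := by
    rw [← n09_inv hab h0b hctb]
    push_cast
    rw [hzB]
    ring
  rw [e1, e2]

theorem roots_sum (n c0 c1 : ℕ) [NeZero c1] (h : Nat.Coprime c1 (2 * n))
    (h01 : Nat.Coprime c0 c1) :
    ∑ x ∈ Finset.univ.filter (fun x : ZMod c1 => x ^ 2 = (n : ZMod c1) ^ 2),
        er c1 ((c0 : ZMod c1)⁻¹ * x) =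
      ∑ p ∈ c1.divisorsAntidiagonal.filter (fun p => Nat.Coprime p.1 p.2),
        er p.1 ((n : ZMod p.1) * (((c0 * p.2 : ℕ) : ZMod p.1))⁻¹) *
        er p.2 (-((n : ZMod p.2) * (((c0 * p.1 : ℕ) : ZMod p.2))⁻¹)) := by
  have hc1 : c1 ≠ 0 := NeZero.ne c1
  -- the representative
  have hrep : ∀ x : ZMod c1, ((x.val : ℤ) : ZMod c1) = x := fun x => by
    push_cast
    exact ZMod.natCast_zmod_val x
  -- no common prime
  have hnop : ∀ (z : ℤ) (p : ℕ), p.Prime → p ∣ c1 → (p : ℤ) ∣ z - n → (p : ℤ) ∣ z + n → False := by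
    intro z p hp hpc h1 h2
    have h3 : (p : ℤ) ∣ ((2 * n : ℕ) : ℤ) := by
      have := dvd_sub h2 h1
      have h4 : z + n - (z - n) = ((2 * n : ℕ) : ℤ) := by push_cast; ring
      rwa [h4] at this
    have h5 : p ∣ 2 * n := Int.natCast_dvd_natCast.1 h3
    exact hp.one_lt.ne' (Nat.dvd_one.1 (by
      rw [← Nat.coprime_iff_gcd_eq_one.1 h]
      exact Nat.dvd_gcd hpc h5))
  -- the factorisation attached to a root
  have hfac : ∀ z : ℤ, ((c1 : ℕ) : ℤ) ∣ (z - n) * (z + n) →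
      Int.gcd (z - n) c1 * Int.gcd (z + n) c1 = c1 ∧
      Nat.Coprime (Int.gcd (z - n) c1) (Int.gcd (z + n) c1) := by
    intro z hz
    have ha : Int.gcd (z - n) c1 ∣ c1 := Int.natCast_dvd_natCast.1 (Int.gcd_dvd_right _ _)
    have hb : Int.gcd (z + n) c1 ∣ c1 := Int.natCast_dvd_natCast.1 (Int.gcd_dvd_right _ _)
    have hcop : Nat.Coprime (Int.gcd (z - n) c1) (Int.gcd (z + n) c1) := by
      rw [Nat.coprime_iff_gcd_eq_one]
      by_contra hcon
      obtain ⟨p, hp, hpd⟩ := Nat.exists_prime_and_dvd hcon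
      have h1 : p ∣ Int.gcd (z - n) c1 := dvd_trans hpd (Nat.gcd_dvd_left _ _)
      have h2 : p ∣ Int.gcd (z + n) c1 := dvd_trans hpd (Nat.gcd_dvd_right _ _)
      exact hnop z p hp (dvd_trans h1 ha)
        (dvd_trans (Int.natCast_dvd_natCast.2 h1) (Int.gcd_dvd_left _ _))
        (dvd_trans (Int.natCast_dvd_natCast.2 h2) (Int.gcd_dvd_left _ _))
    refine ⟨Nat.dvd_antisymm (Nat.Coprime.mul_dvd_of_dvd_of_dvd hcop ha hb) ?_, hcop⟩
    have h1 : c1 ∣ (z - n).natAbs * (z + n).natAbs := by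
      rw [← Int.natAbs_mul]
      exact Int.natCast_dvd.1 hz
    have h2 : Nat.gcd c1 ((z - n).natAbs * (z + n).natAbs) = c1 := Nat.gcd_eq_left h1
    have h3 := Nat.gcd_mul_right_dvd_mul_gcd c1 (z - n).natAbs (z + n).natAbs
    rw [h2] at h3
    have h4 : Int.gcd (z - n) c1 = Nat.gcd c1 (z - n).natAbs := by
      rw [Int.gcd_eq_natAbs, Int.natAbs_natCast, Nat.gcd_comm]
    have h5 : Int.gcd (z + n) c1 = Nat.gcd c1 (z + n).natAbs := by
      rw [Int.gcd_eq_natAbs, Int.natAbs_natCast, Nat.gcd_comm]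
    rw [h4, h5]
    exact h3
  have hroot : ∀ x : ZMod c1, x ^ 2 = (n : ZMod c1) ^ 2 →
      ((c1 : ℕ) : ℤ) ∣ ((x.val : ℤ) - n) * ((x.val : ℤ) + n) := by
    intro x hx
    rw [← ZMod.intCast_zmod_eq_zero_iff_dvd]
    push_cast
    rw [ZMod.natCast_zmod_val]
    linear_combination hx
  refine Finset.sum_bij (fun x _ => (Int.gcd ((x.val : ℤ) - n) c1, Int.gcd ((x.val : ℤ) + n) c1))
    ?_ ?_ ?_ ?_
  · intro x hx
    obtain ⟨h1, h2⟩ := hfac _ (hroot x (Finset.mem_filter.1 hx).2)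
    rw [Finset.mem_filter, Nat.mem_divisorsAntidiagonal]
    exact ⟨⟨h1, hc1⟩, h2⟩
  · intro x hx y hy hxy
    obtain ⟨h1, h2⟩ := hfac _ (hroot x (Finset.mem_filter.1 hx).2)
    have e1 : Int.gcd ((x.val : ℤ) - n) c1 = Int.gcd ((y.val : ℤ) - n) c1 := congrArg Prod.fst hxy
    have e2 : Int.gcd ((x.val : ℤ) + n) c1 = Int.gcd ((y.val : ℤ) + n) c1 := congrArg Prod.snd hxy
    have d1 : ((Int.gcd ((x.val : ℤ) - n) c1 : ℕ) : ℤ) ∣ (x.val : ℤ) - y.val := by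
      have t1 : ((Int.gcd ((x.val : ℤ) - n) c1 : ℕ) : ℤ) ∣ (x.val : ℤ) - n := Int.gcd_dvd_left _ _
      have t2 : ((Int.gcd ((x.val : ℤ) - n) c1 : ℕ) : ℤ) ∣ (y.val : ℤ) - n := by
        rw [e1]
        exact Int.gcd_dvd_left _ _
      have := dvd_sub t1 t2
      have h4 : (x.val : ℤ) - n - ((y.val : ℤ) - n) = (x.val : ℤ) - y.val := by ring
      rwa [h4] at this
    have d2 : ((Int.gcd ((x.val : ℤ) + n) c1 : ℕ) : ℤ) ∣ (x.val : ℤ) - y.val := by
      have t1 : ((Int.gcd ((x.val : ℤ) + n) c1 : ℕ) : ℤ) ∣ (x.val : ℤ) + n := Int.gcd_dvd_left _ _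
      have t2 : ((Int.gcd ((x.val : ℤ) + n) c1 : ℕ) : ℤ) ∣ (y.val : ℤ) + n := by
        rw [e2]
        exact Int.gcd_dvd_left _ _
      have := dvd_sub t1 t2
      have h4 : (x.val : ℤ) + n - ((y.val : ℤ) + n) = (x.val : ℤ) - y.val := by ring
      rwa [h4] at this
    have d3 : ((c1 : ℕ) : ℤ) ∣ (x.val : ℤ) - y.val := by
      have hco : IsCoprime ((Int.gcd ((x.val : ℤ) - n) c1 : ℕ) : ℤ)
          ((Int.gcd ((x.val : ℤ) + n) c1 : ℕ) : ℤ) := Nat.isCoprime_iff_coprime.2 h2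
      have h5 := hco.mul_dvd d1 d2
      have h6 : ((Int.gcd ((x.val : ℤ) - n) c1 : ℕ) : ℤ) * ((Int.gcd ((x.val : ℤ) + n) c1 : ℕ) : ℤ) =
          ((c1 : ℕ) : ℤ) := by exact_mod_cast h1
      rwa [h6] at h5
    have h7 := (ZMod.intCast_zmod_eq_zero_iff_dvd ((x.val : ℤ) - y.val) c1).2 d3
    rw [Int.cast_sub, hrep x, hrep y] at h7
    exact sub_eq_zero.1 h7
  · intro p hp
    obtain ⟨hp1, hp2⟩ := Finset.mem_filter.1 hp
    obtain ⟨hab, -⟩ := Nat.mem_divisorsAntidiagonal.1 hp1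
    obtain ⟨a, b⟩ := p
    simp only at hab hp2
    -- Chinese remainder
    obtain ⟨s, t, hst⟩ : IsCoprime (a : ℤ) (b : ℤ) := Nat.isCoprime_iff_coprime.2 hp2
    set z : ℤ := (n : ℤ) * (t * b) - n * (s * a) with hz
    have hza : (a : ℤ) ∣ z - n := by
      refine ⟨-(2 * n * s), ?_⟩
      rw [hz]
      linear_combination (n : ℤ) * hst
    have hzb : (b : ℤ) ∣ z + n := by
      refine ⟨2 * n * t, ?_⟩
      rw [hz]
      linear_combination (-(n : ℤ)) * hst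
    have hzc : ((c1 : ℕ) : ℤ) ∣ (z - n) * (z + n) := by
      rw [← hab]
      push_cast
      exact mul_dvd_mul hza hzb
    set x : ZMod c1 := (z : ZMod c1) with hx
    -- the gcds only depend on the residue
    have hgm : Int.gcd ((x.val : ℤ) - n) c1 = Int.gcd (z - n) c1 := by
      rw [← n09_gcd, ← n09_gcd]
      congr 2
      push_cast
      rw [ZMod.natCast_zmod_val, hx]
    have hgp : Int.gcd ((x.val : ℤ) + n) c1 = Int.gcd (z + n) c1 := by
      rw [← n09_gcd, ← n09_gcd]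
      congr 2
      push_cast
      rw [ZMod.natCast_zmod_val, hx]
    obtain ⟨f1, f2⟩ := hfac z hzc
    have hac : a ∣ c1 := ⟨b, hab.symm⟩
    have hbc : b ∣ c1 := ⟨a, by rw [← hab]; ring⟩
    have ha1 : a ∣ Int.gcd (z - n) c1 :=
      Int.dvd_gcd hza (Int.natCast_dvd_natCast.2 hac)
    have hb1 : b ∣ Int.gcd (z + n) c1 :=
      Int.dvd_gcd hzb (Int.natCast_dvd_natCast.2 hbc)
    have hg1 : Int.gcd (z - n) c1 ∣ c1 := Int.natCast_dvd_natCast.1 (Int.gcd_dvd_right _ _)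
    have hg2 : Int.gcd (z + n) c1 ∣ c1 := Int.natCast_dvd_natCast.1 (Int.gcd_dvd_right _ _)
    -- `gcd (z - n) c1` is coprime to `b`
    have hco1 : Nat.Coprime (Int.gcd (z - n) c1) b := Nat.Coprime.coprime_dvd_right hb1 f2
    have hco2 : Nat.Coprime (Int.gcd (z + n) c1) a := Nat.Coprime.coprime_dvd_right ha1 f2.symm
    have ha2 : Int.gcd (z - n) c1 ∣ a := by
      rw [← hab] at hg1
      have := hco1.dvd_of_dvd_mul_right (k := Int.gcd (z - n) c1) (m := a) (n := b)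
      rw [hab] at hg1
      have h8 : Int.gcd (z - n) c1 ∣ a * b := by rw [hab]; exact hg1
      exact this h8
    have hb2 : Int.gcd (z + n) c1 ∣ b := by
      have h8 : Int.gcd (z + n) c1 ∣ a * b := by rw [hab]; exact hg2
      exact hco2.dvd_of_dvd_mul_left h8
    refine ⟨x, ?_, ?_⟩
    · rw [Finset.mem_filter]
      refine ⟨Finset.mem_univ _, ?_⟩
      have h9 := (ZMod.intCast_zmod_eq_zero_iff_dvd ((z - n) * (z + n)) c1).2 hzc
      push_cast at h9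
      rw [hx]
      linear_combination h9
    · rw [hgm, hgp]
      exact Prod.ext (Nat.dvd_antisymm ha2 ha1) (Nat.dvd_antisymm hb2 hb1)
  · intro x hx
    obtain ⟨h1, h2⟩ := hfac _ (hroot x (Finset.mem_filter.1 hx).2)
    set a := Int.gcd ((x.val : ℤ) - n) c1 with ha
    set b := Int.gcd ((x.val : ℤ) + n) c1 with hb
    have hza : (a : ℤ) ∣ (x.val : ℤ) - n := Int.gcd_dvd_left _ _
    have hzb : (b : ℤ) ∣ (x.val : ℤ) + n := Int.gcd_dvd_left _ _
    have ha0 : a ≠ 0 := by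
      intro h0
      rw [h0, zero_mul] at h1
      exact hc1 h1.symm
    have hb0 : b ≠ 0 := by
      intro h0
      rw [h0, mul_zero] at h1
      exact hc1 h1.symm
    clear_value a b
    have key : ∀ (m : ℕ) (y : ZMod m), m = a * b → Nat.Coprime c0 m → ∀ z : ℤ,
        (z : ZMod m) = y → (a : ℤ) ∣ z - n → (b : ℤ) ∣ z + n →
        er m ((c0 : ZMod m)⁻¹ * y) =
        er a ((n : ZMod a) * (((c0 * b : ℕ) : ZMod a))⁻¹) *
        er b (-((n : ZMod b) * (((c0 * a : ℕ) : ZMod b))⁻¹)) := by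
      intro m y hm hc z hzy h3 h4
      subst hm
      rw [← hzy]
      exact n09_value ha0 hb0 h2 hc h3 h4
    exact key c1 x h1.symm h01 _ (hrep x) hza hzb

end RV11
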