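import Pool.Agent.LibRV11.N05
import Pool.Agent.LibRV11.N06b
import Pool.Agent.LibRV11.N09
import Pool.Agent.LibRV11.N07

open Complex Real

namespace RV11

theorem Sm_coprime {n c0 c1 : ℕ} (h0 : Sm n c0) (h1 : Nat.Coprime c1 (2 * n)) :
    Nat.Coprime c0 c1 := by
  apply Nat.coprime_of_dvd
  intro p hp hp0 hp1
  have h2 := h0.2 p hp hp0
  exact Nat.not_coprime_of_dvd_of_dvd hp.one_lt hp1 h2 h1

theorem Kst_factor (n c0 c1 : ℕ) [NeZero c1] (h0 : Sm n c0) (h1 : Nat.Coprime c1 (2 * n)) :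
    Kst n (c0 * c1) = (-1) ^ c0 * (Asum n c0 ((c1 : ZMod (2 * c0))⁻¹) / c0) *
      (jacobiSym n c1 : ℂ) *
      ∑ x ∈ Finset.univ.filter (fun x : ZMod c1 => x ^ 2 = (n : ZMod c1) ^ 2),
        er c1 ((c0 : ZMod c1)⁻¹ * x) := by
  have hc0 : c0 ≠ 0 := h0.1
  have hc1 : c1 ≠ 0 := NeZero.ne c1
  have hcop := Sm_coprime h0 h1
  have h12 : Nat.Coprime c1 2 := Nat.Coprime.coprime_mul_right_right h1
  have hodd : Odd c1 := by
    rw [Nat.odd_iff]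
    rcases Nat.mod_two_eq_zero_or_one c1 with h | h
    · exact absurd h12 (Nat.not_coprime_of_dvd_of_dvd (by norm_num) (Nat.dvd_of_mod_eq_zero h)
        (dvd_refl 2))
    · exact h
  have hnc : Nat.Coprime n c1 := (Nat.Coprime.coprime_mul_left_right h1).symm
  have hu2 : IsUnit ((2 : ℕ) : ZMod c1) := (ZMod.isUnit_iff_coprime 2 c1).2 h12.symm
  have hu0 : IsUnit ((c0 : ℕ) : ZMod c1) := (ZMod.isUnit_iff_coprime c0 c1).2 hcop
  have hu : IsUnit ((2 * c0 : ℕ) : ZMod c1) := by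
    rw [Nat.cast_mul]
    exact hu2.mul hu0
  have hl : IsUnit ((((2 * c0 : ℕ) : ZMod c1))⁻¹) := by
    apply IsUnit.of_mul_eq_one ((2 * c0 : ℕ) : ZMod c1)
    rw [mul_comm]
    exact ZMod.mul_inv_of_unit _ hu
  have h2l : 2 * (((2 * c0 : ℕ) : ZMod c1))⁻¹ = (c0 : ZMod c1)⁻¹ := by
    have e1 := ZMod.mul_inv_of_unit _ hu
    have e2 := ZMod.mul_inv_of_unit _ hu0
    have e3 : (c0 : ZMod c1) * (2 * (((2 * c0 : ℕ) : ZMod c1))⁻¹) = 1 := by
      rw [← e1]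
      push_cast
      ring
    calc 2 * (((2 * c0 : ℕ) : ZMod c1))⁻¹
        = ((c0 : ZMod c1) * (c0 : ZMod c1)⁻¹) * (2 * (((2 * c0 : ℕ) : ZMod c1))⁻¹) := by
          rw [e2, one_mul]
      _ = ((c0 : ZMod c1) * (2 * (((2 * c0 : ℕ) : ZMod c1))⁻¹)) * (c0 : ZMod c1)⁻¹ := by ring
      _ = (c0 : ZMod c1)⁻¹ := by rw [e3, one_mul]
  rw [Kst_eq_Asum n (c0 * c1) (mul_ne_zero hc0 hc1)]
  have key := Asum_mul n c0 c1 hc0 hcop hodd 1
  have hs := salie_eval c1 hodd n hnc _ hl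
  rw [Int.cast_one] at key
  rw [key]
  simp only [Int.cast_one, one_mul]
  rw [hs, h2l]
  have hpow : ((-1 : ℂ)) ^ (c0 * c1) = (-1) ^ c0 := by
    rw [mul_comm, pow_mul, hodd.neg_one_pow]
  rw [hpow]
  have hc0' : (c0 : ℂ) ≠ 0 := by exact_mod_cast hc0
  have hc1' : (c1 : ℂ) ≠ 0 := by exact_mod_cast hc1
  push_cast
  field_simp

theorem Kst_bound (n c0 c1 : ℕ) (h0 : Sm n c0) (h1 : Nat.Coprime c1 (2 * n)) (hc1 : c1 ≠ 0) :
    ‖Kst n (c0 * c1)‖ ≤ Real.sqrt c0 * tau c1 := by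
  have : NeZero c1 := ⟨hc1⟩
  have hc0 : c0 ≠ 0 := h0.1
  have hcop := Sm_coprime h0 h1
  have h12 : Nat.Coprime c1 2 := Nat.Coprime.coprime_mul_right_right h1
  rw [Kst_factor n c0 c1 h0 h1, roots_sum n c0 c1 h1 hcop]
  have hcu : IsUnit ((c1 : ℕ) : ZMod (2 * c0)) :=
    (ZMod.isUnit_iff_coprime c1 (2 * c0)).2 (Nat.Coprime.mul_right h12 hcop.symm)
  have hcu' : IsUnit (((c1 : ℕ) : ZMod (2 * c0))⁻¹) := by
    exact IsUnit.of_mul_eq_one ((c1 : ℕ) : ZMod (2 * c0)) (ZMod.inv_mul_of_unit _ hcu)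
  have hA := Asum_bound n c0 hc0 _ hcu'
  have hc0p : (0 : ℝ) < c0 := by exact_mod_cast Nat.pos_of_ne_zero hc0
  have hb1 : ‖((-1 : ℂ)) ^ c0 * (Asum n c0 ((c1 : ZMod (2 * c0))⁻¹) / c0)‖ ≤ Real.sqrt c0 := by
    rw [norm_mul, norm_pow, norm_neg, norm_one, one_pow, one_mul, norm_div, Complex.norm_natCast]
    rw [div_le_iff₀ hc0p]
    linarith [hA]
  have hb2 : ‖((jacobiSym n c1 : ℤ) : ℂ)‖ ≤ 1 := by
    rcases jacobiSym.trichotomy (n : ℤ) c1 with h | h | h <;> rw [h] <;> simp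
  have hb3 : ‖∑ p ∈ c1.divisorsAntidiagonal.filter (fun p => Nat.Coprime p.1 p.2),
        er p.1 ((n : ZMod p.1) * (((c0 * p.2 : ℕ) : ZMod p.1))⁻¹) *
        er p.2 (-((n : ZMod p.2) * (((c0 * p.1 : ℕ) : ZMod p.2))⁻¹))‖ ≤ tau c1 := by
    refine (norm_sum_le _ _).trans ?_
    calc ∑ p ∈ c1.divisorsAntidiagonal.filter (fun p => Nat.Coprime p.1 p.2),
          ‖er p.1 ((n : ZMod p.1) * (((c0 * p.2 : ℕ) : ZMod p.1))⁻¹) *
            er p.2 (-((n : ZMod p.2) * (((c0 * p.1 : ℕ) : ZMod p.2))⁻¹))‖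
        = ∑ p ∈ c1.divisorsAntidiagonal.filter (fun p => Nat.Coprime p.1 p.2), (1 : ℝ) := by
          apply Finset.sum_congr rfl
          intro p _
          rw [norm_mul, norm_er, norm_er, mul_one]
      _ = ((c1.divisorsAntidiagonal.filter (fun p => Nat.Coprime p.1 p.2)).card : ℝ) := by
          simp
      _ ≤ (c1.divisorsAntidiagonal.card : ℝ) := by
          exact_mod_cast Finset.card_filter_le _ _
      _ = tau c1 := by
          rw [tau, ← Nat.map_div_right_divisors, Finset.card_map]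
  rw [norm_mul, norm_mul]
  calc _ ≤ Real.sqrt c0 * 1 * tau c1 := by
        apply mul_le_mul _ hb3 (norm_nonneg _) (by positivity)
        exact mul_le_mul hb1 hb2 (norm_nonneg _) (Real.sqrt_nonneg _)
    _ = _ := by rw [mul_one]

end RV11
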