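import Pool.Agent.LibRV11.N10a
import Pool.Agent.LibRV11.N08

open Complex Real

namespace RV11

theorem Kst_zero (n c0 c1 : ℕ) (h0 : Sm n c0) (h : ¬ Sf n c0) (h1 : Nat.Coprime c1 (2 * n))
    (hc1 : c1 ≠ 0) : Kst n (c0 * c1) = 0 := by
  have : NeZero c1 := ⟨hc1⟩
  have hc0 : c0 ≠ 0 := h0.1
  have hcop := Sm_coprime h0 h1
  have h12 : Nat.Coprime c1 2 := Nat.Coprime.coprime_mul_right_right h1
  obtain ⟨p, hp, hp2, hpc, hpc2⟩ : ∃ p : ℕ, p.Prime ∧ p ≠ 2 ∧ p ∣ c0 ∧ ¬ p ^ 2 ∣ c0 := by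
    by_contra hcon
    push Not at hcon
    exact h ⟨h0, fun p hp hp2 hpc => hcon p hp hp2 hpc⟩
  have hpn : p ∣ n := by
    rcases hp.dvd_mul.1 (h0.2 p hp hpc) with h | h
    · exact absurd ((Nat.prime_dvd_prime_iff_eq hp Nat.prime_two).1 h) hp2
    · exact h
  have hcu : IsUnit ((c1 : ℕ) : ZMod (2 * c0)) :=
    (ZMod.isUnit_iff_coprime c1 (2 * c0)).2 (Nat.Coprime.mul_right h12 hcop.symm)
  have hcu' : IsUnit (((c1 : ℕ) : ZMod (2 * c0))⁻¹) :=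
    IsUnit.of_mul_eq_one ((c1 : ℕ) : ZMod (2 * c0)) (ZMod.inv_mul_of_unit _ hcu)
  rw [Kst_factor n c0 c1 h0 h1, Asum_zero n c0 p hc0 hp hp2 hpn hpc hpc2 _ hcu']
  simp

end RV11
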