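import Pool.Agent.LibRV11.N10a

open Complex Real

namespace RV11

private theorem n10c_T (c0 a b : ℕ) (h0 : c0 ≠ 0) (ha : a ≠ 0) (hb : b ≠ 0)
    (hab : Nat.Coprime a b) (h0a : Nat.Coprime c0 a) (h0b : Nat.Coprime c0 b) (n : ℕ) (s : ℤ) :
    er a ((s : ZMod a) * (n : ZMod a) * (((c0 * b : ℕ) : ZMod a))⁻¹) *
      er b (-((s : ZMod b) * (n : ZMod b) * (((c0 * a : ℕ) : ZMod b))⁻¹)) =
    er c0 ((s : ZMod c0) * (n : ZMod c0) * (((a * b : ℕ) : ZMod c0))⁻¹) *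
      er a (2 * (s : ZMod a) * (n : ZMod a) * (((c0 * b : ℕ) : ZMod a))⁻¹) *
      cexp (-(2 * π * I * s * n / (c0 * a * b))) := by
  have hr := er_recip c0 a b h0 ha hb hab h0a h0b (s * n)
  have hy := er_neg_mul b hb ((s : ZMod b) * (n : ZMod b) * (((c0 * a : ℕ) : ZMod b))⁻¹)
  have hx := er_add a ha ((s : ZMod a) * (n : ZMod a) * (((c0 * b : ℕ) : ZMod a))⁻¹)
    ((s : ZMod a) * (n : ZMod a) * (((c0 * b : ℕ) : ZMod a))⁻¹)
  have h2 : 2 * (s : ZMod a) * (n : ZMod a) * (((c0 * b : ℕ) : ZMod a))⁻¹ =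
      ((s : ZMod a) * (n : ZMod a) * (((c0 * b : ℕ) : ZMod a))⁻¹) +
      ((s : ZMod a) * (n : ZMod a) * (((c0 * b : ℕ) : ZMod a))⁻¹) := by ring
  rw [h2, hx]
  have e1 : (((s * (n : ℤ) : ℤ)) : ZMod a) = (s : ZMod a) * (n : ZMod a) := by push_cast; ring
  have e2 : (((s * (n : ℤ) : ℤ)) : ZMod b) = (s : ZMod b) * (n : ZMod b) := by push_cast; ring
  have e3 : (((s * (n : ℤ) : ℤ)) : ZMod c0) = (s : ZMod c0) * (n : ZMod c0) := by push_cast; ring
  rw [e1, e2, e3] at hr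
  have e4 : cexp (-(2 * π * I * s * n / (c0 * a * b))) *
      cexp (2 * π * I * ((s * (n : ℤ) : ℤ)) / (c0 * a * b)) = 1 := by
    rw [← Complex.exp_add]
    push_cast
    rw [show (-(2 * (π : ℂ) * I * s * n / (c0 * a * b)) +
      2 * (π : ℂ) * I * (s * n) / (c0 * a * b)) = 0 by ring, Complex.exp_zero]
  rw [← hr] at e4
  generalize er a ((s : ZMod a) * (n : ZMod a) * (((c0 * b : ℕ) : ZMod a))⁻¹) = x at *
  generalize er b (-((s : ZMod b) * (n : ZMod b) * (((c0 * a : ℕ) : ZMod b))⁻¹)) = y' at *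
  generalize er b ((s : ZMod b) * (n : ZMod b) * (((c0 * a : ℕ) : ZMod b))⁻¹) = y at *
  generalize er c0 ((s : ZMod c0) * (n : ZMod c0) * (((a * b : ℕ) : ZMod c0))⁻¹) = z at *
  generalize cexp (-(2 * π * I * s * n / (c0 * a * b))) = e at *
  -- y' * y = 1, e * (x * y * z) = 1
  linear_combination (z * x * x * e) * hy - (x * y') * e4

theorem Kst_pairs (n c0 c1 : ℕ) (h0 : Sm n c0) (h1 : Nat.Coprime c1 (2 * n)) (hc1 : 1 < c1) :
    Kst n (c0 * c1) = ∑ s ∈ ({1, -1} : Finset ℤ),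
      ∑ p ∈ c1.divisorsAntidiagonal.filter (fun p => p.1 < p.2 ∧ Nat.Coprime p.1 p.2),
        Gm n c0 s ((p.1 * p.2 : ℕ) : ZMod (2 * c0)) * (jacobiSym n p.1 : ℂ) *
          (jacobiSym n p.2 : ℂ) *
          er p.1 (2 * (s : ZMod p.1) * (n : ZMod p.1) * (((c0 * p.2 : ℕ) : ZMod p.1))⁻¹) *
          cexp (-(2 * π * I * s * n / (c0 * p.1 * p.2))) := by
  have hc1' : c1 ≠ 0 := by omega
  have : NeZero c1 := ⟨hc1'⟩
  have hc0 : c0 ≠ 0 := h0.1
  have : NeZero (2 * c0) := ⟨mul_ne_zero two_ne_zero hc0⟩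
  have hcop := Sm_coprime h0 h1
  have h12 : Nat.Coprime c1 2 := Nat.Coprime.coprime_mul_right_right h1
  have hcu : IsUnit ((c1 : ℕ) : ZMod (2 * c0)) :=
    (ZMod.isUnit_iff_coprime c1 (2 * c0)).2 (Nat.Coprime.mul_right h12 hcop.symm)
  rw [Kst_factor n c0 c1 h0 h1, roots_sum n c0 c1 h1 hcop]
  -- the cast of the value
  have hvalc : (((c1 : ZMod (2 * c0)).val : ℕ) : ZMod c0) = (c1 : ZMod c0) := by
    rw [ZMod.val_natCast]
    have h := Nat.mod_modEq c1 (2 * c0)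
    have h' : c1 % (2 * c0) ≡ c1 [MOD c0] := h.of_dvd ⟨2, by ring⟩
    exact (ZMod.natCast_eq_natCast_iff _ _ _).2 h'
  have hGm : ∀ s : ℤ, Gm n c0 s (c1 : ZMod (2 * c0)) = (-1) ^ c0 *
      (Asum n c0 ((c1 : ZMod (2 * c0))⁻¹) / c0) *
      er c0 ((s : ZMod c0) * (n : ZMod c0) * ((c1 : ZMod c0))⁻¹) := by
    intro s
    rw [Gm, if_pos hcu, hvalc]
  -- the terms
  set G : ℂ := (-1) ^ c0 * (Asum n c0 ((c1 : ZMod (2 * c0))⁻¹) / c0) with hG
  set T : ℤ → ℕ → ℕ → ℂ := fun s a b =>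
    er a ((s : ZMod a) * (n : ZMod a) * (((c0 * b : ℕ) : ZMod a))⁻¹) *
      er b (-((s : ZMod b) * (n : ZMod b) * (((c0 * a : ℕ) : ZMod b))⁻¹)) with hT
  have hterm : ∀ s : ℤ, ∀ p ∈ c1.divisorsAntidiagonal.filter
      (fun p => p.1 < p.2 ∧ Nat.Coprime p.1 p.2),
      Gm n c0 s ((p.1 * p.2 : ℕ) : ZMod (2 * c0)) * (jacobiSym n p.1 : ℂ) *
          (jacobiSym n p.2 : ℂ) *
          er p.1 (2 * (s : ZMod p.1) * (n : ZMod p.1) * (((c0 * p.2 : ℕ) : ZMod p.1))⁻¹) *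
          cexp (-(2 * π * I * s * n / (c0 * p.1 * p.2))) =
        G * (jacobiSym n c1 : ℂ) * T s p.1 p.2 := by
    intro s p hp
    simp only [Finset.mem_filter, Nat.mem_divisorsAntidiagonal] at hp
    obtain ⟨⟨hp1, _⟩, _, hp2⟩ := hp
    have ha : p.1 ≠ 0 := by rintro h; rw [h, zero_mul] at hp1; exact hc1' hp1.symm
    have hb : p.2 ≠ 0 := by rintro h; rw [h, mul_zero] at hp1; exact hc1' hp1.symm
    have : NeZero p.1 := ⟨ha⟩
    have : NeZero p.2 := ⟨hb⟩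
    have h0a : Nat.Coprime c0 p.1 := Nat.Coprime.coprime_dvd_right ⟨p.2, hp1.symm⟩ hcop
    have h0b : Nat.Coprime c0 p.2 :=
      Nat.Coprime.coprime_dvd_right ⟨p.1, by rw [mul_comm, hp1]⟩ hcop
    have hj : (jacobiSym n c1 : ℂ) = (jacobiSym n p.1 : ℂ) * (jacobiSym n p.2 : ℂ) := by
      rw [← hp1, jacobiSym.mul_right]
      push_cast
      rfl
    rw [hT]
    simp only
    rw [n10c_T c0 p.1 p.2 hc0 ha hb hp2 h0a h0b n s, hj, hp1, hGm s]
    ring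
  rw [Finset.sum_congr rfl fun s _ => Finset.sum_congr rfl (hterm s)]
  rw [Finset.sum_pair (by norm_num)]
  rw [← Finset.mul_sum, ← Finset.mul_sum, ← mul_add]
  congr 1
  -- split the sum over all coprime pairs
  have hsplit : c1.divisorsAntidiagonal.filter (fun p => Nat.Coprime p.1 p.2) =
      c1.divisorsAntidiagonal.filter (fun p => p.1 < p.2 ∧ Nat.Coprime p.1 p.2) ∪
      c1.divisorsAntidiagonal.filter (fun p => p.2 < p.1 ∧ Nat.Coprime p.1 p.2) := by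
    ext p
    simp only [Finset.mem_filter, Finset.mem_union, Nat.mem_divisorsAntidiagonal]
    constructor
    · rintro ⟨⟨h, h'⟩, hco⟩
      rcases lt_trichotomy p.1 p.2 with hlt | heq | hgt
      · exact Or.inl ⟨⟨h, h'⟩, hlt, hco⟩
      · exfalso
        rw [heq, Nat.coprime_self] at hco
        rw [heq, hco] at h
        omega
      · exact Or.inr ⟨⟨h, h'⟩, hgt, hco⟩
    · rintro (⟨h, _, hco⟩ | ⟨h, _, hco⟩)
      · exact ⟨h, hco⟩
      · exact ⟨h, hco⟩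
  have hdisj : Disjoint (c1.divisorsAntidiagonal.filter (fun p => p.1 < p.2 ∧ Nat.Coprime p.1 p.2))
      (c1.divisorsAntidiagonal.filter (fun p => p.2 < p.1 ∧ Nat.Coprime p.1 p.2)) := by
    rw [Finset.disjoint_filter]
    intro p _ h1 h2
    omega
  rw [hsplit, Finset.sum_union hdisj]
  congr 1
  · apply Finset.sum_congr rfl
    intro p _
    simp only [hT, Int.cast_one, one_mul]
  · apply Finset.sum_nbij' (fun p => (p.2, p.1)) (fun p => (p.2, p.1))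
    · intro p hp
      simp only [Finset.mem_filter, Nat.mem_divisorsAntidiagonal] at hp ⊢
      exact ⟨⟨by rw [mul_comm]; exact hp.1.1, hp.1.2⟩, hp.2.1, hp.2.2.symm⟩
    · intro p hp
      simp only [Finset.mem_filter, Nat.mem_divisorsAntidiagonal] at hp ⊢
      exact ⟨⟨by rw [mul_comm]; exact hp.1.1, hp.1.2⟩, hp.2.1, hp.2.2.symm⟩
    · intro p _
      rfl
    · intro p _
      rfl
    · intro p _
      simp only [hT, Int.cast_neg, Int.cast_one, one_mul, neg_mul, neg_neg]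
      rw [mul_comm]

end RV11
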