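import Pool.Agent.LibRV11.N00

open Complex Real

namespace RV11

/-- residues which are pairwise congruent modulo a divisor `m` of `q` -/
private theorem n11a_card {q m : ℕ} [NeZero q] (hm : m ∣ q) (A : Finset (ZMod q))
    (hA : ∀ x ∈ A, ∀ y ∈ A, x.val ≡ y.val [MOD m]) : A.card ≤ q / m := by
  have hq : 0 < q := Nat.pos_of_ne_zero (NeZero.ne q)
  have hm0 : 0 < m := Nat.pos_of_dvd_of_pos hm hq
  rw [← Finset.card_range (q / m)]
  refine Finset.card_le_card_of_injOn (fun x => x.val / m) ?_ ?_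
  · intro x _
    rw [Finset.coe_range, Set.mem_Iio]
    apply Nat.div_lt_of_lt_mul
    rw [Nat.mul_div_cancel' hm]
    exact ZMod.val_lt x
  · intro x hx y hy hxy
    have h1 := hA x hx y hy
    have h2 : x.val / m = y.val / m := hxy
    have h3 : x.val = y.val := by
      rw [← Nat.div_add_mod x.val m, ← Nat.div_add_mod y.val m, h2]
      have h4 : x.val % m = y.val % m := h1
      rw [h4]
    exact ZMod.val_injective q h3

private theorem n11a_modEq {m a b : ℕ} (h : (m : ℤ) ∣ (a : ℤ) - b) : a ≡ b [MOD m] :=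
  ((Nat.modEq_iff_dvd).2 (by
    have : ((b : ℤ) - a) = -((a : ℤ) - b) := by ring
    rw [this]
    exact (dvd_neg).2 h))

/-- the two gcds -/
private theorem n11a_factor {q : ℕ} (hq : 0 < q) {s u w : ℤ} (h : (q : ℤ) ∣ s * u * w) :
    ((Int.gcd s q : ℕ) : ℤ) ∣ s ∧
    ((Int.gcd u (q / Int.gcd s q : ℕ) : ℕ) : ℤ) ∣ u ∧
    ((q / Int.gcd s q / Int.gcd u (q / Int.gcd s q : ℕ) : ℕ) : ℤ) ∣ w := by
  set g := Int.gcd s q with hg
  have hgq : g ∣ q := Int.natCast_dvd_natCast.1 (Int.gcd_dvd_right s q)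
  have hg0 : 0 < g := Nat.pos_of_dvd_of_pos hgq hq
  set q' := q / g with hq'
  have hqq : g * q' = q := Nat.mul_div_cancel' hgq
  have hq'0 : 0 < q' := by
    rcases Nat.eq_zero_or_pos q' with h0 | h0
    · rw [h0, mul_zero] at hqq; omega
    · exact h0
  set k0 := Int.gcd u q' with hk0
  have hk0q : k0 ∣ q' := Int.natCast_dvd_natCast.1 (Int.gcd_dvd_right u q')
  have hk00 : 0 < k0 := Nat.pos_of_dvd_of_pos hk0q hq'0
  refine ⟨Int.gcd_dvd_left s q, Int.gcd_dvd_left u q', ?_⟩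
  -- first step
  obtain ⟨s', hs'⟩ : (g : ℤ) ∣ s := Int.gcd_dvd_left s q
  have hcop1 : IsCoprime s' (q' : ℤ) := by
    have h1 := Int.gcd_div_gcd_div_gcd (i := s) (j := q) (by rw [← hg]; exact hg0)
    rw [← hg] at h1
    have h2 : s / (g : ℤ) = s' := by
      rw [hs']
      exact Int.mul_ediv_cancel_left _ (by exact_mod_cast hg0.ne')
    have h3 : (q : ℤ) / (g : ℤ) = (q' : ℤ) := by rw [hq']; norm_cast
    rw [h2, h3] at h1
    exact Int.isCoprime_iff_gcd_eq_one.2 h1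
  have h1 : (q' : ℤ) ∣ u * w := by
    have h2 : (g : ℤ) * q' ∣ (g : ℤ) * (s' * (u * w)) := by
      have h3 : (g : ℤ) * (s' * (u * w)) = s * u * w := by
        rw [hs']
        ring
      rw [h3]
      have h4 : (g : ℤ) * q' = q := by exact_mod_cast hqq
      rw [h4]
      exact h
    have h5 := Int.dvd_of_mul_dvd_mul_left (by exact_mod_cast hg0.ne') h2
    exact (hcop1.symm).dvd_of_dvd_mul_left h5
  -- second step
  obtain ⟨u', hu'⟩ : (k0 : ℤ) ∣ u := Int.gcd_dvd_left u q'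
  have hqq' : k0 * (q' / k0) = q' := Nat.mul_div_cancel' hk0q
  have hcop2 : IsCoprime u' ((q' / k0 : ℕ) : ℤ) := by
    have h2 := Int.gcd_div_gcd_div_gcd (i := u) (j := q') (by rw [← hk0]; exact hk00)
    rw [← hk0] at h2
    have h3 : u / (k0 : ℤ) = u' := by
      rw [hu']
      exact Int.mul_ediv_cancel_left _ (by exact_mod_cast hk00.ne')
    have h4 : (q' : ℤ) / (k0 : ℤ) = ((q' / k0 : ℕ) : ℤ) := by norm_cast
    rw [h3, h4] at h2
    exact Int.isCoprime_iff_gcd_eq_one.2 h2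
  have h2 : (k0 : ℤ) * ((q' / k0 : ℕ) : ℤ) ∣ (k0 : ℤ) * (u' * w) := by
    have h3 : (k0 : ℤ) * (u' * w) = u * w := by
      rw [hu']
      ring
    rw [h3]
    have h4 : (k0 : ℤ) * ((q' / k0 : ℕ) : ℤ) = q' := by exact_mod_cast hqq'
    rw [h4]
    exact h1
  have h5 := Int.dvd_of_mul_dvd_mul_left (by exact_mod_cast hk00.ne') h2
  exact (hcop2.symm).dvd_of_dvd_mul_left h5

private abbrev n11aU (q : ℕ) : Type := (ZMod q)ˣ × (ZMod q)ˣ × (ZMod q)ˣ × (ZMod q)ˣ

private def n11a_sys (q : ℕ) (x : n11aU q) : Prop :=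
  (x.1 : ZMod q) + x.2.1 = x.2.2.1 + x.2.2.2 ∧
      ((x.1⁻¹ : (ZMod q)ˣ) : ZMod q) + ((x.2.1⁻¹ : (ZMod q)ˣ) : ZMod q) =
        ((x.2.2.1⁻¹ : (ZMod q)ˣ) : ZMod q) + ((x.2.2.2⁻¹ : (ZMod q)ˣ) : ZMod q)

private theorem n11a_prod {q : ℕ} {x : n11aU q} (h : n11a_sys q x) :
    ((x.2.2.1 : ZMod q) + x.2.2.2) * ((x.1 : ZMod q) - x.2.2.1) * ((x.1 : ZMod q) - x.2.2.2) = 0 := by
  obtain ⟨x1, x2, x3, x4⟩ := x
  obtain ⟨h1, h2⟩ := h
  simp only at h1 h2 ⊢
  have e1 : (x1 : ZMod q) * ((x1⁻¹ : (ZMod q)ˣ) : ZMod q) = 1 := Units.mul_inv x1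
  have e2 : (x2 : ZMod q) * ((x2⁻¹ : (ZMod q)ˣ) : ZMod q) = 1 := Units.mul_inv x2
  have e3 : (x3 : ZMod q) * ((x3⁻¹ : (ZMod q)ˣ) : ZMod q) = 1 := Units.mul_inv x3
  have e4 : (x4 : ZMod q) * ((x4⁻¹ : (ZMod q)ˣ) : ZMod q) = 1 := Units.mul_inv x4
  set a : ZMod q := (↑x1 : ZMod q)
  set b : ZMod q := (↑x2 : ZMod q)
  set c : ZMod q := (↑x3 : ZMod q)
  set d : ZMod q := (↑x4 : ZMod q)
  set a' : ZMod q := ((x1⁻¹ : (ZMod q)ˣ) : ZMod q)
  set b' : ZMod q := ((x2⁻¹ : (ZMod q)ˣ) : ZMod q)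
  set c' : ZMod q := ((x3⁻¹ : (ZMod q)ˣ) : ZMod q)
  set d' : ZMod q := ((x4⁻¹ : (ZMod q)ˣ) : ZMod q)
  -- multiply the second equation by `a b c d`
  have h3 : (a + b) * (c * d) = (c + d) * (a * b) := by
    have h4 : (a' + b') * (a * b * c * d) = (c' + d') * (a * b * c * d) := by rw [h2]
    have h5 : (a' + b') * (a * b * c * d) = (a + b) * (c * d) := by
      have : (a' + b') * (a * b * c * d) =
        (a * a') * (b * c * d) + (b * b') * (a * c * d) := by ring
      rw [this, e1, e2]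
      ring
    have h6 : (c' + d') * (a * b * c * d) = (c + d) * (a * b) := by
      have : (c' + d') * (a * b * c * d) =
        (c * c') * (a * b * d) + (d * d') * (a * b * c) := by ring
      rw [this, e3, e4]
      ring
    rw [← h5, ← h6, h4]
  have h7 : b = c + d - a := by
    rw [← h1]
    ring
  rw [h7] at h3
  linear_combination h3

private theorem n11a_dvd {q : ℕ} [NeZero q] {x : n11aU q} (h : n11a_sys q x) :
    (q : ℤ) ∣ (((x.2.2.1 : ZMod q).val : ℤ) + ((x.2.2.2 : ZMod q).val : ℤ)) *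
      (((x.1 : ZMod q).val : ℤ) - ((x.2.2.1 : ZMod q).val : ℤ)) *
      (((x.1 : ZMod q).val : ℤ) - ((x.2.2.2 : ZMod q).val : ℤ)) := by
  rw [← ZMod.intCast_zmod_eq_zero_iff_dvd]
  push_cast
  rw [ZMod.natCast_zmod_val, ZMod.natCast_zmod_val, ZMod.natCast_zmod_val]
  exact n11a_prod h

private noncomputable def n11a_g (q : ℕ) (x : n11aU q) : ℕ :=
  Int.gcd (((x.2.2.1 : ZMod q).val : ℤ) + ((x.2.2.2 : ZMod q).val : ℤ)) q

private noncomputable def n11a_h (q : ℕ) (x : n11aU q) : ℕ :=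
  Int.gcd (((x.1 : ZMod q).val : ℤ) - ((x.2.2.1 : ZMod q).val : ℤ)) (q / n11a_g q x : ℕ)

/-- the fourth moment equation -/
theorem N4_count (q : ℕ) [NeZero q] (hq : Odd q) :
    (((Finset.univ : Finset ((ZMod q)ˣ × (ZMod q)ˣ × (ZMod q)ˣ × (ZMod q)ˣ)).filter (fun x =>
      (x.1 : ZMod q) + x.2.1 = x.2.2.1 + x.2.2.2 ∧
      ((x.1⁻¹ : (ZMod q)ˣ) : ZMod q) + ((x.2.1⁻¹ : (ZMod q)ˣ) : ZMod q) =
        ((x.2.2.1⁻¹ : (ZMod q)ˣ) : ZMod q) + ((x.2.2.2⁻¹ : (ZMod q)ˣ) : ZMod q))).card : ℝ) ≤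
      (q : ℝ) ^ 2 * tau q ^ 2 := by
  classical
  have hq0 : 0 < q := Nat.pos_of_ne_zero (NeZero.ne q)
  set S : Finset (n11aU q) := Finset.univ.filter (fun x => n11a_sys q x) with hS
  have hmem : ∀ x ∈ S, n11a_sys q x := fun x hx => (Finset.mem_filter.1 hx).2
  -- the classes
  set f : n11aU q → ℕ × ℕ := fun x => (n11a_g q x, n11a_h q x) with hf
  have hmaps : ∀ x ∈ S, f x ∈ q.divisors ×ˢ q.divisors := by
    intro x _
    have h1 : n11a_g q x ∣ q := Int.natCast_dvd_natCast.1 (Int.gcd_dvd_right _ _)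
    have h2 : n11a_h q x ∣ q / n11a_g q x := Int.natCast_dvd_natCast.1 (Int.gcd_dvd_right _ _)
    have h3 : n11a_h q x ∣ q := dvd_trans h2 (Nat.div_dvd_of_dvd h1)
    rw [Finset.mem_product]
    exact ⟨Nat.mem_divisors.2 ⟨h1, hq0.ne'⟩, Nat.mem_divisors.2 ⟨h3, hq0.ne'⟩⟩
  have hfib : ∀ gh ∈ q.divisors ×ˢ q.divisors, (S.filter (fun x => f x = gh)).card ≤ q ^ 2 := by
    rintro ⟨g, h⟩ -
    set F := S.filter (fun x => f x = (g, h)) with hF
    rcases F.eq_empty_or_nonempty with hemp | ⟨y, hy⟩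
    · rw [hemp]
      simp
    set k := q / g / h with hk
    -- the congruences
    have hcong : ∀ x ∈ F, (g : ℤ) ∣ ((x.2.2.1 : ZMod q).val : ℤ) + ((x.2.2.2 : ZMod q).val : ℤ) ∧
        (h : ℤ) ∣ ((x.1 : ZMod q).val : ℤ) - ((x.2.2.1 : ZMod q).val : ℤ) ∧
        (k : ℤ) ∣ ((x.1 : ZMod q).val : ℤ) - ((x.2.2.2 : ZMod q).val : ℤ) := by
      intro x hx
      obtain ⟨hxS, hxf⟩ := Finset.mem_filter.1 hx
      have h1 := n11a_factor hq0 (n11a_dvd (hmem x hxS))
      have hxg : n11a_g q x = g := congr_arg Prod.fst hxf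
      have hxh : n11a_h q x = h := congr_arg Prod.snd hxf
      have hxg' := hxg
      have hxh' := hxh
      unfold n11a_h at hxh'
      rw [hxg] at hxh'
      unfold n11a_g at hxg'
      rw [hxg', hxh'] at h1
      exact h1
    have hgq : g ∣ q := by
      obtain ⟨hyS, hyf⟩ := Finset.mem_filter.1 hy
      have h1 := (Finset.mem_product.1 (hmaps y hyS)).1
      have h2 : (f y).1 = g := congr_arg Prod.fst hyf
      rw [h2] at h1
      exact Nat.dvd_of_mem_divisors h1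
    have hhq : h ∣ q / g := by
      obtain ⟨hyS, hyf⟩ := Finset.mem_filter.1 hy
      have h2 : n11a_h q y ∣ q / n11a_g q y := Int.natCast_dvd_natCast.1 (Int.gcd_dvd_right _ _)
      have hxg : n11a_g q y = g := congr_arg Prod.fst hyf
      have hxh : n11a_h q y = h := congr_arg Prod.snd hyf
      rwa [hxg, hxh] at h2
    have hghk : g * h * k = q := by
      rw [hk, mul_assoc, Nat.mul_div_cancel' hhq, Nat.mul_div_cancel' hgq]
    set e := Nat.gcd g k with he
    have hhk : h ∣ q := ⟨g * k, by rw [← hghk]; ring⟩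
    have hgq' : g ∣ q := ⟨h * k, by rw [← hghk]; ring⟩
    have hkq : k ∣ q := ⟨g * h, by rw [← hghk]; ring⟩
    have heq : e ∣ q := dvd_trans (Nat.gcd_dvd_left g k) hgq'
    have hcop : Nat.Coprime h e := by
      rw [Nat.coprime_iff_gcd_eq_one]
      by_contra hcon
      obtain ⟨p, hp, hpd⟩ := Nat.exists_prime_and_dvd hcon
      have hph : p ∣ h := dvd_trans hpd (Nat.gcd_dvd_left _ _)
      have hpe : p ∣ e := dvd_trans hpd (Nat.gcd_dvd_right _ _)
      have hpg : p ∣ g := dvd_trans hpe (Nat.gcd_dvd_left _ _)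
      have hpk : p ∣ k := dvd_trans hpe (Nat.gcd_dvd_right _ _)
      obtain ⟨c1, c2, c3⟩ := hcong y hy
      have d1 : (p : ℤ) ∣ _ := dvd_trans (Int.natCast_dvd_natCast.2 hpg) c1
      have d2 : (p : ℤ) ∣ _ := dvd_trans (Int.natCast_dvd_natCast.2 hph) c2
      have d3 : (p : ℤ) ∣ _ := dvd_trans (Int.natCast_dvd_natCast.2 hpk) c3
      have d4 : (p : ℤ) ∣ 2 * ((y.1 : ZMod q).val : ℤ) := by
        have := dvd_add (dvd_add d1 d2) d3
        have h5 : ((y.2.2.1 : ZMod q).val : ℤ) + ((y.2.2.2 : ZMod q).val : ℤ) +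
            (((y.1 : ZMod q).val : ℤ) - ((y.2.2.1 : ZMod q).val : ℤ)) +
            (((y.1 : ZMod q).val : ℤ) - ((y.2.2.2 : ZMod q).val : ℤ)) =
            2 * ((y.1 : ZMod q).val : ℤ) := by ring
        rwa [h5] at this
      have d5 : p ∣ 2 * (y.1 : ZMod q).val := by exact_mod_cast d4
      have hpq : p ∣ q := dvd_trans hph hhk
      have hp2 : p ≠ 2 := by
        rintro rfl
        exact (Nat.not_even_iff_odd.2 hq) (even_iff_two_dvd.2 hpq)
      have d6 : p ∣ (y.1 : ZMod q).val := by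
        rcases (Nat.Prime.dvd_mul hp).1 d5 with h6 | h6
        · exact absurd ((Nat.prime_dvd_prime_iff_eq hp Nat.prime_two).1 h6) hp2
        · exact h6
      have d7 := ZMod.val_coe_unit_coprime y.1
      exact hp.one_lt.ne' (Nat.dvd_one.1 (by
        rw [← Nat.coprime_iff_gcd_eq_one.1 d7]
        exact Nat.dvd_gcd d6 hpq))
    have hheq : h * e ∣ q := Nat.Coprime.mul_dvd_of_dvd_of_dvd hcop hhk heq
    have hlcm : Nat.lcm g k ∣ q := Nat.lcm_dvd hgq' hkq
    have hlcm' : Nat.lcm g k * (h * e) = q := by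
      rw [← hghk]
      have := Nat.gcd_mul_lcm g k
      rw [← he] at this
      calc Nat.lcm g k * (h * e) = (e * Nat.lcm g k) * h := by ring
        _ = g * k * h := by rw [this]
        _ = g * h * k := by ring
    have hlcm0 : 0 < Nat.lcm g k := Nat.pos_of_dvd_of_pos hlcm hq0
    have hq_lcm : q / Nat.lcm g k = h * e := by
      apply Nat.div_eq_of_eq_mul_right hlcm0
      exact hlcm'.symm
    -- first count
    set f2 : n11aU q → (ZMod q)ˣ × (ZMod q)ˣ := fun x => (x.1, x.2.2.1) with hf2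
    have hA : F.card ≤ (h * e) * (F.image f2).card := by
      apply Finset.card_le_mul_card_image
      intro ab _
      rw [← hq_lcm]
      set T := F.filter (fun x => f2 x = ab) with hT
      have hinj : Set.InjOn (fun x : n11aU q => (x.2.2.2 : ZMod q)) T := by
        intro x hx z hz hxz
        obtain ⟨hxF, hxab⟩ := Finset.mem_filter.1 hx
        obtain ⟨hzF, hzab⟩ := Finset.mem_filter.1 hz
        have hxs := (hmem x (Finset.mem_filter.1 hxF).1).1
        have hzs := (hmem z (Finset.mem_filter.1 hzF).1).1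
        have e1 : x.1 = z.1 := by
          have h9 : (f2 x).1 = (f2 z).1 := by rw [hxab, hzab]
          exact h9
        have e3 : x.2.2.1 = z.2.2.1 := by
          have h9 : (f2 x).2 = (f2 z).2 := by rw [hxab, hzab]
          exact h9
        have e4 : x.2.2.2 = z.2.2.2 := Units.ext hxz
        have e2 : x.2.1 = z.2.1 := by
          apply Units.ext
          rw [e1, e3, e4] at hxs
          exact add_left_cancel (hxs.trans hzs.symm)
        exact Prod.ext e1 (Prod.ext e2 (Prod.ext e3 e4))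
      rw [← Finset.card_image_of_injOn hinj]
      apply n11a_card hlcm
      intro a ha b hb
      obtain ⟨x, hx, rfl⟩ := Finset.mem_image.1 ha
      obtain ⟨z, hz, rfl⟩ := Finset.mem_image.1 hb
      obtain ⟨hxF, hxab⟩ := Finset.mem_filter.1 hx
      obtain ⟨hzF, hzab⟩ := Finset.mem_filter.1 hz
      have e1 : x.1 = z.1 := by
        have h9 : (f2 x).1 = (f2 z).1 := by rw [hxab, hzab]
        exact h9
      have e3 : x.2.2.1 = z.2.2.1 := by
        have h9 : (f2 x).2 = (f2 z).2 := by rw [hxab, hzab]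
        exact h9
      obtain ⟨c1, -, c3⟩ := hcong x hxF
      obtain ⟨c1', -, c3'⟩ := hcong z hzF
      rw [e3] at c1
      rw [e1] at c3
      have m1 : (g : ℤ) ∣ ((x.2.2.2 : ZMod q).val : ℤ) - ((z.2.2.2 : ZMod q).val : ℤ) := by
        have := dvd_sub c1 c1'
        have h5 : ((z.2.2.1 : ZMod q).val : ℤ) + ((x.2.2.2 : ZMod q).val : ℤ) -
            (((z.2.2.1 : ZMod q).val : ℤ) + ((z.2.2.2 : ZMod q).val : ℤ)) =
            ((x.2.2.2 : ZMod q).val : ℤ) - ((z.2.2.2 : ZMod q).val : ℤ) := by ring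
        rwa [h5] at this
      have m2 : (k : ℤ) ∣ ((x.2.2.2 : ZMod q).val : ℤ) - ((z.2.2.2 : ZMod q).val : ℤ) := by
        have := dvd_sub c3' c3
        have h5 : ((z.1 : ZMod q).val : ℤ) - ((z.2.2.2 : ZMod q).val : ℤ) -
            (((z.1 : ZMod q).val : ℤ) - ((x.2.2.2 : ZMod q).val : ℤ)) =
            ((x.2.2.2 : ZMod q).val : ℤ) - ((z.2.2.2 : ZMod q).val : ℤ) := by ring
        rwa [h5] at this
      have m5 : (Nat.lcm g k : ℤ) ∣ ((x.2.2.2 : ZMod q).val : ℤ) - ((z.2.2.2 : ZMod q).val : ℤ) :=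
        Int.natCast_dvd.2 (Nat.lcm_dvd (Int.natCast_dvd.1 m1) (Int.natCast_dvd.1 m2))
      exact n11a_modEq m5
    -- second count
    have hB : (F.image f2).card ≤ (q / (h * e)) * ((F.image f2).image Prod.fst).card := by
      apply Finset.card_le_mul_card_image
      intro a _
      set T := (F.image f2).filter (fun ab => ab.1 = a) with hT
      have hinj : Set.InjOn (fun ab : (ZMod q)ˣ × (ZMod q)ˣ => (ab.2 : ZMod q)) T := by
        intro x hx z hz hxz
        obtain ⟨_, hx1⟩ := Finset.mem_filter.1 hx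
        obtain ⟨_, hz1⟩ := Finset.mem_filter.1 hz
        exact Prod.ext (hx1.trans hz1.symm) (Units.ext hxz)
      rw [← Finset.card_image_of_injOn hinj]
      apply n11a_card hheq
      intro b1 hb1 b2 hb2
      obtain ⟨ab1, hab1, rfl⟩ := Finset.mem_image.1 hb1
      obtain ⟨ab2, hab2, rfl⟩ := Finset.mem_image.1 hb2
      obtain ⟨hi1, ha1⟩ := Finset.mem_filter.1 hab1
      obtain ⟨hi2, ha2⟩ := Finset.mem_filter.1 hab2
      obtain ⟨x, hxF, rfl⟩ := Finset.mem_image.1 hi1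
      obtain ⟨z, hzF, rfl⟩ := Finset.mem_image.1 hi2
      have e1 : x.1 = z.1 := by
        have h8 : (f2 x).1 = (f2 z).1 := ha1.trans ha2.symm
        exact h8
      obtain ⟨c1, c2, c3⟩ := hcong x hxF
      obtain ⟨c1', c2', c3'⟩ := hcong z hzF
      rw [e1] at c2 c3
      have hev : (e : ℤ) ∣ (g : ℤ) := Int.natCast_dvd_natCast.2 (Nat.gcd_dvd_left g k)
      have hek : (e : ℤ) ∣ (k : ℤ) := Int.natCast_dvd_natCast.2 (Nat.gcd_dvd_right g k)
      have m1 : (h : ℤ) ∣ ((x.2.2.1 : ZMod q).val : ℤ) - ((z.2.2.1 : ZMod q).val : ℤ) := by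
        have := dvd_sub c2' c2
        have h5 : ((z.1 : ZMod q).val : ℤ) - ((z.2.2.1 : ZMod q).val : ℤ) -
            (((z.1 : ZMod q).val : ℤ) - ((x.2.2.1 : ZMod q).val : ℤ)) =
            ((x.2.2.1 : ZMod q).val : ℤ) - ((z.2.2.1 : ZMod q).val : ℤ) := by ring
        rwa [h5] at this
      have m2 : (e : ℤ) ∣ ((x.2.2.1 : ZMod q).val : ℤ) - ((z.2.2.1 : ZMod q).val : ℤ) := by
        have t1 := dvd_add (dvd_trans hev c1) (dvd_trans hek c3)
        have t2 := dvd_add (dvd_trans hev c1') (dvd_trans hek c3')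
        have := dvd_sub t1 t2
        have h5 : ((x.2.2.1 : ZMod q).val : ℤ) + ((x.2.2.2 : ZMod q).val : ℤ) +
            (((z.1 : ZMod q).val : ℤ) - ((x.2.2.2 : ZMod q).val : ℤ)) -
            (((z.2.2.1 : ZMod q).val : ℤ) + ((z.2.2.2 : ZMod q).val : ℤ) +
            (((z.1 : ZMod q).val : ℤ) - ((z.2.2.2 : ZMod q).val : ℤ))) =
            ((x.2.2.1 : ZMod q).val : ℤ) - ((z.2.2.1 : ZMod q).val : ℤ) := by ring
        rwa [h5] at this
      have m3 : ((h * e : ℕ) : ℤ) ∣ ((x.2.2.1 : ZMod q).val : ℤ) - ((z.2.2.1 : ZMod q).val : ℤ) := by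
        push_cast
        exact (Int.isCoprime_iff_gcd_eq_one.2 (by
          rw [Int.gcd_natCast_natCast]
          exact hcop)).mul_dvd m1 m2
      exact n11a_modEq m3
    have hC : ((F.image f2).image Prod.fst).card ≤ q := by
      refine le_trans (Finset.card_le_univ _) ?_
      rw [ZMod.card_units_eq_totient]
      exact Nat.totient_le q
    calc F.card ≤ (h * e) * (F.image f2).card := hA
      _ ≤ (h * e) * ((q / (h * e)) * ((F.image f2).image Prod.fst).card) :=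
          Nat.mul_le_mul_left _ hB
      _ ≤ (h * e) * ((q / (h * e)) * q) :=
          Nat.mul_le_mul_left _ (Nat.mul_le_mul_left _ hC)
      _ = q ^ 2 := by
          rw [← mul_assoc, Nat.mul_div_cancel' hheq]
          ring
  have htot : S.card ≤ q ^ 2 * (q.divisors ×ˢ q.divisors).card :=
    Finset.card_le_mul_card_image_of_maps_to hmaps (q ^ 2) hfib
  rw [Finset.card_product] at htot
  have hfin : (S.card : ℝ) ≤ (q : ℝ) ^ 2 * tau q ^ 2 := by
    unfold tau
    have h1 : (S.card : ℝ) ≤ ((q ^ 2 * (q.divisors.card * q.divisors.card) : ℕ) : ℝ) := by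
      exact_mod_cast htot
    refine le_trans h1 (le_of_eq ?_)
    push_cast
    ring
  convert hfin using 3
  ext x
  constructor
  · intro hx
    exact Finset.mem_filter.2 ⟨Finset.mem_univ _, (Finset.mem_filter.1 hx).2⟩
  · intro hx
    exact Finset.mem_filter.2 ⟨Finset.mem_univ _, (Finset.mem_filter.1 hx).2⟩

end RV11
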