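import Pool.Agent.LibRV11.N01a

open Complex Real

namespace RV11

private theorem norm_pow_four (q : ℕ) [NeZero q] (k l : ZMod q) :
    ((‖Kl q k l‖ ^ 4 : ℝ) : ℂ) = ∑ x : (ZMod q)ˣ × (ZMod q)ˣ × (ZMod q)ˣ × (ZMod q)ˣ,
      er q (((x.1 : ZMod q) + x.2.1 - (x.2.2.1 + x.2.2.2)) * k) *
      er q ((((x.1⁻¹ : (ZMod q)ˣ) : ZMod q) + ((x.2.1⁻¹ : (ZMod q)ˣ) : ZMod q) -
        (((x.2.2.1⁻¹ : (ZMod q)ˣ) : ZMod q) + ((x.2.2.2⁻¹ : (ZMod q)ˣ) : ZMod q))) * l) := by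
  have hq : q ≠ 0 := NeZero.ne q
  set a : (ZMod q)ˣ → ℂ := fun x => er q (k * (x : ZMod q) + l * ((x⁻¹ : (ZMod q)ˣ) : ZMod q))
    with ha
  set b : (ZMod q)ˣ → ℂ := fun x => er q (-(k * (x : ZMod q) + l * ((x⁻¹ : (ZMod q)ˣ) : ZMod q)))
    with hb
  have hKl : Kl q k l = ∑ x, a x := rfl
  have hconj : (starRingEnd ℂ) (Kl q k l) = ∑ x, b x := by
    rw [hKl, map_sum]
    apply Finset.sum_congr rfl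
    intro x _
    simp only [ha, hb, er_neg q hq]
  have h1 : ((‖Kl q k l‖ ^ 4 : ℝ) : ℂ) =
      Kl q k l * (Kl q k l * ((starRingEnd ℂ) (Kl q k l) * (starRingEnd ℂ) (Kl q k l))) := by
    have h2 : Kl q k l * (starRingEnd ℂ) (Kl q k l) = ((‖Kl q k l‖ ^ 2 : ℝ) : ℂ) := by
      rw [Complex.mul_conj, Complex.normSq_eq_norm_sq]
    calc ((‖Kl q k l‖ ^ 4 : ℝ) : ℂ) = ((‖Kl q k l‖ ^ 2 : ℝ) : ℂ) * ((‖Kl q k l‖ ^ 2 : ℝ) : ℂ) := by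
          push_cast; ring
      _ = _ := by rw [← h2]; ring
  rw [h1, hconj, hKl]
  have h3 : ∀ x : (ZMod q)ˣ × (ZMod q)ˣ × (ZMod q)ˣ × (ZMod q)ˣ,
      er q (((x.1 : ZMod q) + x.2.1 - (x.2.2.1 + x.2.2.2)) * k) *
      er q ((((x.1⁻¹ : (ZMod q)ˣ) : ZMod q) + ((x.2.1⁻¹ : (ZMod q)ˣ) : ZMod q) -
        (((x.2.2.1⁻¹ : (ZMod q)ˣ) : ZMod q) + ((x.2.2.2⁻¹ : (ZMod q)ˣ) : ZMod q))) * l) =
      a x.1 * (a x.2.1 * (b x.2.2.1 * b x.2.2.2)) := by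
    intro x
    simp only [ha, hb]
    rw [← er_add q hq, ← er_add q hq, ← er_add q hq, ← er_add q hq]
    congr 1
    ring
  rw [Finset.sum_congr rfl (fun x _ => h3 x)]
  simp only [Fintype.sum_prod_type, ← Finset.mul_sum, ← Finset.sum_mul]

theorem Kl_moment (q : ℕ) [NeZero q] :
    ∑ k : ZMod q, ∑ l : ZMod q, ‖Kl q k l‖ ^ 4 =
      (q : ℝ) ^ 2 * ((Finset.univ : Finset ((ZMod q)ˣ × (ZMod q)ˣ × (ZMod q)ˣ × (ZMod q)ˣ)).filter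
      (fun x => (x.1 : ZMod q) + x.2.1 = x.2.2.1 + x.2.2.2 ∧
      ((x.1⁻¹ : (ZMod q)ˣ) : ZMod q) + ((x.2.1⁻¹ : (ZMod q)ˣ) : ZMod q) =
        ((x.2.2.1⁻¹ : (ZMod q)ˣ) : ZMod q) + ((x.2.2.2⁻¹ : (ZMod q)ˣ) : ZMod q))).card := by
  have hq : q ≠ 0 := NeZero.ne q
  apply Complex.ofReal_injective
  rw [Complex.ofReal_sum]
  simp only [Complex.ofReal_sum, norm_pow_four]
  -- exchange the sums
  have h1 : ∀ k : ZMod q, ∑ l : ZMod q, ∑ x : (ZMod q)ˣ × (ZMod q)ˣ × (ZMod q)ˣ × (ZMod q)ˣ,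
      er q (((x.1 : ZMod q) + x.2.1 - (x.2.2.1 + x.2.2.2)) * k) *
      er q ((((x.1⁻¹ : (ZMod q)ˣ) : ZMod q) + ((x.2.1⁻¹ : (ZMod q)ˣ) : ZMod q) -
        (((x.2.2.1⁻¹ : (ZMod q)ˣ) : ZMod q) + ((x.2.2.2⁻¹ : (ZMod q)ˣ) : ZMod q))) * l) =
      ∑ x : (ZMod q)ˣ × (ZMod q)ˣ × (ZMod q)ˣ × (ZMod q)ˣ,
      er q (((x.1 : ZMod q) + x.2.1 - (x.2.2.1 + x.2.2.2)) * k) *
      (if (((x.1⁻¹ : (ZMod q)ˣ) : ZMod q) + ((x.2.1⁻¹ : (ZMod q)ˣ) : ZMod q) -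
        (((x.2.2.1⁻¹ : (ZMod q)ˣ) : ZMod q) + ((x.2.2.2⁻¹ : (ZMod q)ˣ) : ZMod q))) = 0
        then (q : ℂ) else 0) := by
    intro k
    rw [Finset.sum_comm]
    apply Finset.sum_congr rfl
    intro x _
    rw [← Finset.mul_sum, sum_er]
  rw [Finset.sum_congr rfl (fun k _ => h1 k), Finset.sum_comm]
  have h2 : ∀ x : (ZMod q)ˣ × (ZMod q)ˣ × (ZMod q)ˣ × (ZMod q)ˣ,
      ∑ k : ZMod q, er q (((x.1 : ZMod q) + x.2.1 - (x.2.2.1 + x.2.2.2)) * k) *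
      (if (((x.1⁻¹ : (ZMod q)ˣ) : ZMod q) + ((x.2.1⁻¹ : (ZMod q)ˣ) : ZMod q) -
        (((x.2.2.1⁻¹ : (ZMod q)ˣ) : ZMod q) + ((x.2.2.2⁻¹ : (ZMod q)ˣ) : ZMod q))) = 0
        then (q : ℂ) else 0) =
      if ((x.1 : ZMod q) + x.2.1 = x.2.2.1 + x.2.2.2 ∧
      ((x.1⁻¹ : (ZMod q)ˣ) : ZMod q) + ((x.2.1⁻¹ : (ZMod q)ˣ) : ZMod q) =
        ((x.2.2.1⁻¹ : (ZMod q)ˣ) : ZMod q) + ((x.2.2.2⁻¹ : (ZMod q)ˣ) : ZMod q)) then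
        (q : ℂ) ^ 2 else 0 := by
    intro x
    rw [← Finset.sum_mul, sum_er]
    simp only [sub_eq_zero]
    by_cases c1 : (x.1 : ZMod q) + x.2.1 = x.2.2.1 + x.2.2.2
    · by_cases c2 : ((x.1⁻¹ : (ZMod q)ˣ) : ZMod q) + ((x.2.1⁻¹ : (ZMod q)ˣ) : ZMod q) =
        ((x.2.2.1⁻¹ : (ZMod q)ˣ) : ZMod q) + ((x.2.2.2⁻¹ : (ZMod q)ˣ) : ZMod q)
      · rw [if_pos c1, if_pos c2, if_pos ⟨c1, c2⟩]; ring
      · simp only [c2, and_false, if_false, mul_zero]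
    · simp only [c1, false_and, if_false, zero_mul]
  rw [Finset.sum_congr rfl (fun x _ => h2 x), ← Finset.sum_filter, Finset.sum_const, nsmul_eq_mul]
  push_cast
  ring

end RV11
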