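import Pool.Agent.LibRV11.N01a
import Pool.Agent.LibRV11.N01c

open Complex Real

namespace RV11

theorem Kl_unit (q : ℕ) [NeZero q] (t : (ZMod q)ˣ) (k l : ZMod q) :
    Kl q (t * k) (((t⁻¹ : (ZMod q)ˣ) : ZMod q) * l) = Kl q k l := by
  unfold Kl
  refine Fintype.sum_equiv (Equiv.mulLeft t) _ _ fun x => ?_
  congr 1
  simp only [Equiv.coe_mulLeft, Units.val_mul, mul_inv_rev]
  ring

theorem n11c_card (q m g : ℕ) [NeZero q] (hq : q = g * m) (T : Finset (ZMod q))
    (hT : ∀ x ∈ T, ∀ y ∈ T, x.val % m = y.val % m) : T.card ≤ g := by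
  have h : T.card ≤ (Finset.range g).card := by
    refine Finset.card_le_card_of_injOn (fun x => x.val / m) (fun x _ => ?_) ?_
    · rw [Finset.coe_range, Set.mem_Iio]
      apply Nat.div_lt_of_lt_mul
      have := ZMod.val_lt x
      rw [mul_comm]
      omega
    · intro x hx y hy hxy
      apply ZMod.val_injective
      have h1 := hT x hx y hy
      have h2 : x.val / m = y.val / m := hxy
      rw [← Nat.div_add_mod x.val m, ← Nat.div_add_mod y.val m, h1, h2]
  simpa using h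

theorem n11c_card_units (q m g : ℕ) [NeZero q] (hq : q = g * m) (T : Finset (ZMod q)ˣ)
    (hT : ∀ x ∈ T, ∀ y ∈ T, (x : ZMod q).val % m = (y : ZMod q).val % m) : T.card ≤ g := by
  rw [← Finset.card_map ⟨Units.val, Units.val_injective⟩]
  refine n11c_card q m g hq _ fun x hx y hy => ?_
  rw [Finset.mem_map] at hx hy
  obtain ⟨x, hx, rfl⟩ := hx
  obtain ⟨y, hy, rfl⟩ := hy
  exact hT x hx y hy

/-- the orbit of `(k, l)` has at least `φ(q) / (k, q)` elements -/
theorem Kl_orbit (q : ℕ) [NeZero q] (k l : ZMod q) :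
    (Nat.totient q : ℝ) * ‖Kl q k l‖ ^ 4 ≤
      (gz q k : ℝ) * ∑ k' : ZMod q, ∑ l' : ZMod q, ‖Kl q k' l'‖ ^ 4 := by
  classical
  have hq0 : q ≠ 0 := NeZero.ne q
  have h1 : (Nat.totient q : ℝ) * ‖Kl q k l‖ ^ 4 =
      ∑ t : (ZMod q)ˣ, ‖Kl q (t * k) (((t⁻¹ : (ZMod q)ˣ) : ZMod q) * l)‖ ^ 4 := by
    simp only [Kl_unit]
    rw [Finset.sum_const, Finset.card_univ, ZMod.card_units_eq_totient, nsmul_eq_mul]
  have h2 : ∑ t : (ZMod q)ˣ, ‖Kl q (t * k) (((t⁻¹ : (ZMod q)ˣ) : ZMod q) * l)‖ ^ 4 ≤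
      ∑ t : (ZMod q)ˣ, ∑ l' : ZMod q, ‖Kl q (t * k) l'‖ ^ 4 := by
    refine Finset.sum_le_sum fun t _ => ?_
    exact Finset.single_le_sum (f := fun l' => ‖Kl q (t * k) l'‖ ^ 4)
      (fun _ _ => by positivity) (Finset.mem_univ _)
  rw [h1]
  refine h2.trans ?_
  rw [← Finset.sum_fiberwise Finset.univ (fun t : (ZMod q)ˣ => (t : ZMod q) * k), Finset.mul_sum]
  refine Finset.sum_le_sum fun k' _ => ?_
  have h3 : ∑ t ∈ Finset.univ.filter (fun t : (ZMod q)ˣ => (t : ZMod q) * k = k'),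
      ∑ l' : ZMod q, ‖Kl q (t * k) l'‖ ^ 4 =
      ((Finset.univ.filter (fun t : (ZMod q)ˣ => (t : ZMod q) * k = k')).card : ℝ) *
        ∑ l' : ZMod q, ‖Kl q k' l'‖ ^ 4 := by
    rw [← nsmul_eq_mul, ← Finset.sum_const]
    refine Finset.sum_congr rfl fun t ht => ?_
    rw [(Finset.mem_filter.1 ht).2]
  rw [h3]
  refine mul_le_mul_of_nonneg_right ?_ (by positivity)
  have hdvd : gz q k ∣ q := Nat.gcd_dvd_right _ _
  have h4 := n11c_card_units q (q / gz q k) (gz q k) (Nat.mul_div_cancel' hdvd).symm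
    (Finset.univ.filter (fun t : (ZMod q)ˣ => (t : ZMod q) * k = k')) (fun x hx y hy => by
      have hx' := (Finset.mem_filter.1 hx).2
      have hy' := (Finset.mem_filter.1 hy).2
      have h5 : (((x : ZMod q).val * k.val : ℕ) : ZMod q) =
          (((y : ZMod q).val * k.val : ℕ) : ZMod q) := by
        push_cast
        rw [ZMod.natCast_zmod_val, ZMod.natCast_zmod_val, ZMod.natCast_zmod_val, hx', hy']
      rw [ZMod.natCast_eq_natCast_iff] at h5
      have h6 := Nat.ModEq.cancel_right_div_gcd (Nat.pos_of_ne_zero hq0) h5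
      rw [Nat.gcd_comm] at h6
      exact h6)
  exact_mod_cast h4

/-- the sum over the multiples of `d` -/
theorem n11c_shift (m d : ℕ) [NeZero m] (hd : d ∣ m) (hdm : d ≠ m) (u : ZMod m)
    (hu : IsUnit u) :
    ∑ x ∈ Finset.univ.filter (fun x : ZMod m => d ∣ x.val), er m (u * x) = 0 := by
  classical
  have hm0 : m ≠ 0 := NeZero.ne m
  have hd0 : 0 < d := Nat.pos_of_dvd_of_pos hd (Nat.pos_of_ne_zero hm0)
  have hlt : d < m := lt_of_le_of_ne (Nat.le_of_dvd (Nat.pos_of_ne_zero hm0) hd) hdm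
  set S := ∑ x ∈ Finset.univ.filter (fun x : ZMod m => d ∣ x.val), er m (u * x) with hS
  have hval : ∀ x : ZMod m, d ∣ (x + (d : ZMod m)).val ↔ d ∣ x.val := by
    intro x
    have h1 : (x + (d : ZMod m)).val = (x.val + d) % m := by
      rw [ZMod.val_add, ZMod.val_natCast_of_lt hlt]
    rw [h1, Nat.dvd_mod_iff hd, Nat.dvd_add_left (dvd_refl d)]
  have h2 : S = S * er m (u * (d : ZMod m)) := by
    rw [hS, Finset.sum_mul]
    symm
    refine Finset.sum_bij (fun x _ => x + (d : ZMod m)) ?_ ?_ ?_ ?_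
    · intro x hx
      rw [Finset.mem_filter] at hx ⊢
      exact ⟨Finset.mem_univ _, (hval x).2 hx.2⟩
    · intro x _ y _ h
      exact add_right_cancel h
    · intro y hy
      rw [Finset.mem_filter] at hy
      refine ⟨y - (d : ZMod m), ?_, by ring⟩
      rw [Finset.mem_filter]
      refine ⟨Finset.mem_univ _, ?_⟩
      rw [← hval, sub_add_cancel]
      exact hy.2
    · intro x _
      rw [← er_add m hm0]
      congr 1
      ring
  have h3 : er m (u * (d : ZMod m)) ≠ 1 := by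
    rw [n01a_std]
    intro h
    have h4 : u * (d : ZMod m) = 0 := by
      apply ZMod.injective_stdAddChar
      rw [h, AddChar.map_zero_eq_one]
    rw [hu.mul_right_eq_zero] at h4
    rw [ZMod.natCast_eq_zero_iff] at h4
    exact absurd (Nat.le_of_dvd hd0 h4) (by omega)
  have h4 : S * (er m (u * (d : ZMod m)) - 1) = 0 := by
    rw [mul_sub, ← h2]
    ring
  rcases mul_eq_zero.1 h4 with h5 | h5
  · exact h5
  · exact absurd (sub_eq_zero.1 h5) h3

theorem n11c_primitive (m : ℕ) [NeZero m] (u : ZMod m) (hu : IsUnit u) :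
    ‖∑ y : (ZMod m)ˣ, er m (u * (y : ZMod m))‖ ≤ 1 := by
  classical
  have hm0 : m ≠ 0 := NeZero.ne m
  have h1 : ∑ y : (ZMod m)ˣ, er m (u * (y : ZMod m)) =
      ∑ x ∈ Finset.univ.filter (fun x : ZMod m => IsUnit x), er m (u * x) := by
    refine Finset.sum_bij (fun y _ => (y : ZMod m)) ?_ ?_ ?_ ?_
    · intro y _
      rw [Finset.mem_filter]
      exact ⟨Finset.mem_univ _, y.isUnit⟩
    · intro x _ y _ h
      exact Units.ext h
    · intro x hx
      exact ⟨(Finset.mem_filter.1 hx).2.unit, Finset.mem_univ _, rfl⟩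
    · intro x _
      rfl
  have hmu : ∀ n : ℕ, ∑ d ∈ n.divisors, ((ArithmeticFunction.moebius d : ℤ) : ℂ) =
      if n = 1 then 1 else 0 := by
    intro n
    have h := congrArg (fun f : ArithmeticFunction ℤ => f n)
      ArithmeticFunction.moebius_mul_coe_zeta
    simp only [ArithmeticFunction.coe_mul_zeta_apply, ArithmeticFunction.one_apply] at h
    have h' := congrArg (fun z : ℤ => (z : ℂ)) h
    push_cast at h'
    exact h'
  have h2 : ∑ x ∈ Finset.univ.filter (fun x : ZMod m => IsUnit x), er m (u * x) =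
      ∑ x : ZMod m, ∑ d ∈ m.divisors.filter (fun d => d ∣ x.val),
        ((ArithmeticFunction.moebius d : ℤ) : ℂ) * er m (u * x) := by
    rw [Finset.sum_filter]
    refine Finset.sum_congr rfl fun x _ => ?_
    rw [← Finset.sum_mul]
    have h3 : m.divisors.filter (fun d => d ∣ x.val) = (Nat.gcd x.val m).divisors := by
      ext d
      simp only [Finset.mem_filter, Nat.mem_divisors, Nat.dvd_gcd_iff]
      constructor
      · rintro ⟨⟨h4, -⟩, h5⟩
        exact ⟨⟨h5, h4⟩, Nat.gcd_ne_zero_right hm0⟩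
      · rintro ⟨⟨h4, h5⟩, -⟩
        exact ⟨⟨h5, hm0⟩, h4⟩
    rw [h3, hmu]
    have h4 : IsUnit x ↔ Nat.gcd x.val m = 1 := by
      conv_lhs => rw [← ZMod.natCast_zmod_val x]
      exact ZMod.isUnit_iff_coprime x.val m
    by_cases h5 : IsUnit x
    · rw [if_pos h5, if_pos (h4.1 h5), one_mul]
    · rw [if_neg h5, if_neg (fun h => h5 (h4.2 h)), zero_mul]
  have h3 : ∑ x : ZMod m, ∑ d ∈ m.divisors.filter (fun d => d ∣ x.val),
        ((ArithmeticFunction.moebius d : ℤ) : ℂ) * er m (u * x) =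
      ∑ d ∈ m.divisors, ((ArithmeticFunction.moebius d : ℤ) : ℂ) *
        ∑ x ∈ Finset.univ.filter (fun x : ZMod m => d ∣ x.val), er m (u * x) := by
    simp only [Finset.sum_filter, Finset.mul_sum]
    rw [Finset.sum_comm]
    refine Finset.sum_congr rfl fun d _ => Finset.sum_congr rfl fun x _ => ?_
    split_ifs <;> simp
  rw [h1, h2, h3, Finset.sum_eq_single m]
  · have h4 : Finset.univ.filter (fun x : ZMod m => m ∣ x.val) = {0} := by
      ext x
      simp only [Finset.mem_filter, Finset.mem_univ, true_and, Finset.mem_singleton]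
      constructor
      · intro h
        have h5 := Nat.eq_zero_of_dvd_of_lt h (ZMod.val_lt x)
        exact (ZMod.val_eq_zero x).1 h5
      · rintro rfl
        simp
    rw [h4, Finset.sum_singleton, mul_zero, er_zero, mul_one, Complex.norm_intCast]
    exact_mod_cast ArithmeticFunction.abs_moebius_le_one
  · intro d hd hne
    rw [n11c_shift m d (Nat.dvd_of_mem_divisors hd) hne u hu, mul_zero]
  · intro h
    exact absurd (Nat.mem_divisors_self m hm0) h

/-- Ramanujan sums -/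
theorem Kl_zero_bound (q : ℕ) [NeZero q] (k : ZMod q) : ‖Kl q k 0‖ ≤ gz q k := by
  classical
  have hq0 : q ≠ 0 := NeZero.ne q
  set g := gz q k with hg
  have hgd : g ∣ q := Nat.gcd_dvd_right _ _
  have hgk : g ∣ k.val := Nat.gcd_dvd_left _ _
  have hg0 : 0 < g := Nat.pos_of_dvd_of_pos hgd (Nat.pos_of_ne_zero hq0)
  set m := q / g with hm
  have hqm : q = g * m := (Nat.mul_div_cancel' hgd).symm
  have hm0 : m ≠ 0 := by
    rintro h
    rw [h, mul_zero] at hqm
    exact hq0 hqm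
  have : NeZero m := ⟨hm0⟩
  have hmq : m ∣ q := ⟨g, by rw [mul_comm]; exact hqm⟩
  set k₁ := k.val / g with hk₁
  have hk : k.val = g * k₁ := (Nat.mul_div_cancel' hgk).symm
  have hcop : Nat.Coprime k₁ m := Nat.coprime_div_gcd_div_gcd hg0
  have hunit : IsUnit (k₁ : ZMod m) := (ZMod.isUnit_iff_coprime k₁ m).2 hcop
  have hgC : (g : ℂ) ≠ 0 := by exact_mod_cast hg0.ne'
  have hterm : ∀ x : (ZMod q)ˣ, er q (k * (x : ZMod q) + 0 * ((x⁻¹ : (ZMod q)ˣ) : ZMod q)) =
      er m ((k₁ : ZMod m) * ((ZMod.unitsMap hmq x : (ZMod m)ˣ) : ZMod m)) := by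
    intro x
    have h1 : ((ZMod.unitsMap hmq x : (ZMod m)ˣ) : ZMod m) = (((x : ZMod q).val : ℕ) : ZMod m) := by
      rw [ZMod.unitsMap_val, ZMod.cast_eq_val]
    have h2 : k * (x : ZMod q) = ((k.val * (x : ZMod q).val : ℕ) : ZMod q) := by
      push_cast
      rw [ZMod.natCast_zmod_val, ZMod.natCast_zmod_val]
    have h3 : (k₁ : ZMod m) * (((x : ZMod q).val : ℕ) : ZMod m) =
        ((k₁ * (x : ZMod q).val : ℕ) : ZMod m) := by push_cast; rfl
    rw [zero_mul, add_zero, h2, h1, h3, er_natCast q hq0, er_natCast m hm0]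
    congr 1
    have h4 : (q : ℂ) = g * m := by exact_mod_cast hqm
    have hmC : (m : ℂ) ≠ 0 := by exact_mod_cast hm0
    rw [h4, hk]
    push_cast
    field_simp
  unfold Kl
  rw [Finset.sum_congr rfl fun x _ => hterm x]
  rw [← Finset.sum_fiberwise Finset.univ (fun x : (ZMod q)ˣ => ZMod.unitsMap hmq x)]
  set c := (Finset.univ.filter (fun x : (ZMod q)ˣ => ZMod.unitsMap hmq x = 1)).card with hc
  have hfib : ∀ y : (ZMod m)ˣ,
      (Finset.univ.filter (fun x : (ZMod q)ˣ => ZMod.unitsMap hmq x = y)).card = c := by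
    intro y
    exact MonoidHom.card_fiber_eq_of_mem_range (ZMod.unitsMap hmq)
      (ZMod.unitsMap_surjective hmq y) (ZMod.unitsMap_surjective hmq 1)
  have hcg : c ≤ g := by
    refine n11c_card_units q m g hqm _ fun x hx y hy => ?_
    have hx' := (Finset.mem_filter.1 hx).2
    have hy' := (Finset.mem_filter.1 hy).2
    have h1 : (((x : ZMod q).val : ℕ) : ZMod m) = (((y : ZMod q).val : ℕ) : ZMod m) := by
      have h2 := congrArg (fun u : (ZMod m)ˣ => (u : ZMod m)) (hx'.trans hy'.symm)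
      simp only [ZMod.unitsMap_val, ZMod.cast_eq_val] at h2
      exact h2
    exact (ZMod.natCast_eq_natCast_iff _ _ _).1 h1
  have hsum : ∑ y : (ZMod m)ˣ, ∑ x ∈ Finset.univ.filter
      (fun x : (ZMod q)ˣ => ZMod.unitsMap hmq x = y),
        er m ((k₁ : ZMod m) * ((ZMod.unitsMap hmq x : (ZMod m)ˣ) : ZMod m)) =
      (c : ℂ) * ∑ y : (ZMod m)ˣ, er m ((k₁ : ZMod m) * (y : ZMod m)) := by
    rw [Finset.mul_sum]
    refine Finset.sum_congr rfl fun y _ => ?_
    have h1 : ∑ x ∈ Finset.univ.filter (fun x : (ZMod q)ˣ => ZMod.unitsMap hmq x = y),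
        er m ((k₁ : ZMod m) * ((ZMod.unitsMap hmq x : (ZMod m)ˣ) : ZMod m)) =
        ∑ x ∈ Finset.univ.filter (fun x : (ZMod q)ˣ => ZMod.unitsMap hmq x = y),
        er m ((k₁ : ZMod m) * (y : ZMod m)) := by
      refine Finset.sum_congr rfl fun x hx => ?_
      rw [(Finset.mem_filter.1 hx).2]
    rw [h1, Finset.sum_const, hfib y, nsmul_eq_mul]
  rw [hsum, norm_mul, Complex.norm_natCast]
  have h5 := n11c_primitive m (k₁ : ZMod m) hunit
  have h6 : (c : ℝ) ≤ g := by exact_mod_cast hcg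
  calc (c : ℝ) * ‖∑ y : (ZMod m)ˣ, er m ((k₁ : ZMod m) * (y : ZMod m))‖ ≤ g * 1 :=
        mul_le_mul h6 h5 (norm_nonneg _) (Nat.cast_nonneg _)
    _ = g := mul_one _

end RV11
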