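import Pool.Agent.LibRV11.N00

open Complex Real

namespace RV11

theorem N13a_tau_prime_pow (p a : ℕ) (hp : p.Prime) : tau (p ^ a) = a + 1 := by
  unfold tau
  rw [Nat.divisors_prime_pow hp, Finset.card_map, Finset.card_range]
  push_cast
  ring

theorem N13a_tau_mul (a b : ℕ) (h : Nat.Coprime a b) : tau (a * b) = tau a * tau b := by
  unfold tau
  rw [h.card_divisors_mul]
  push_cast
  ring

/-- number of the prime factors below `P` -/
noncomputable def N13a_om (P n : ℕ) : ℕ := (n.primeFactors.filter (· < P)).card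

theorem N13a_om_le (P n : ℕ) : N13a_om P n ≤ P := by
  unfold N13a_om
  calc (n.primeFactors.filter (· < P)).card ≤ (Finset.range P).card := by
        apply Finset.card_le_card
        intro q hq
        rw [Finset.mem_filter] at hq
        exact Finset.mem_range.2 hq.2
    _ = P := Finset.card_range P

theorem N13a_om_mul (P a b : ℕ) (h : Nat.Coprime a b) :
    N13a_om P (a * b) = N13a_om P a + N13a_om P b := by
  unfold N13a_om
  rw [h.primeFactors_mul, Finset.filter_union, Finset.card_union_of_disjoint]
  exact Finset.disjoint_filter_filter h.disjoint_primeFactors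

theorem tau_bound (ε : ℝ) (hε : 0 < ε) : ∃ C : ℝ, 1 ≤ C ∧ ∀ n : ℕ, 1 ≤ n →
    tau n ≤ C * (n : ℝ) ^ ε := by
  have hc : 0 < ε * Real.log 2 := mul_pos hε (Real.log_pos one_lt_two)
  set c := ε * Real.log 2 with hcdef
  set K : ℝ := 1 + 1 / c with hK
  have hK1 : 1 ≤ K := by rw [hK]; have : 0 < 1 / c := by positivity
                         linarith
  obtain ⟨P, hP⟩ := exists_nat_ge ((2 : ℝ) ^ (1 / ε))
  have key : ∀ n : ℕ, 1 ≤ n → tau n ≤ K ^ (N13a_om P n) * (n : ℝ) ^ ε := by
    intro n
    induction n using Nat.recOnPosPrimePosCoprime with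
    | prime_pow p a hp ha =>
      intro _
      rw [N13a_tau_prime_pow p a hp]
      have hp2 : (2 : ℝ) ≤ p := by exact_mod_cast hp.two_le
      have hpa : ((p ^ a : ℕ) : ℝ) ^ ε = (p : ℝ) ^ ((a : ℝ) * ε) := by
        push_cast
        rw [← Real.rpow_natCast, ← Real.rpow_mul (by positivity)]
      rw [hpa]
      by_cases hpP : p < P
      · have hom : N13a_om P (p ^ a) = 1 := by
          unfold N13a_om
          rw [Nat.primeFactors_prime_pow ha.ne' hp, Finset.filter_singleton, if_pos hpP,
            Finset.card_singleton]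
        rw [hom, pow_one]
        have h2 : (2 : ℝ) ^ ((a : ℝ) * ε) ≤ (p : ℝ) ^ ((a : ℝ) * ε) :=
          Real.rpow_le_rpow (by norm_num) hp2 (by positivity)
        have h3 : 1 + a * c ≤ (2 : ℝ) ^ ((a : ℝ) * ε) := by
          rw [Real.rpow_def_of_pos (by norm_num)]
          have := Real.add_one_le_exp (Real.log 2 * ((a : ℝ) * ε))
          have e : Real.log 2 * ((a : ℝ) * ε) = a * c := by rw [hcdef]; ring
          rw [e] at this ⊢
          linarith
        have h4 : (a : ℝ) + 1 ≤ K * (1 + a * c) := by
          have e : K * (1 + a * c) = 1 + a * c + 1 / c + a := by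
            rw [hK]; field_simp; ring
          rw [e]
          have : 0 < 1 / c := by positivity
          have : 0 ≤ (a : ℝ) * c := by positivity
          linarith
        calc (a : ℝ) + 1 ≤ K * (1 + a * c) := h4
          _ ≤ K * (p : ℝ) ^ ((a : ℝ) * ε) := by
            apply mul_le_mul_of_nonneg_left (h3.trans h2) (by linarith)
      · have hPp : (2 : ℝ) ^ (1 / ε) ≤ p := by
          have : (P : ℝ) ≤ p := by exact_mod_cast not_lt.1 hpP
          linarith
        have h5 : (2 : ℝ) ≤ (p : ℝ) ^ ε := by
          have := Real.rpow_le_rpow (by positivity) hPp hε.le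
          rw [← Real.rpow_mul (by norm_num), one_div_mul_cancel hε.ne', Real.rpow_one] at this
          exact this
        have h6 : (p : ℝ) ^ ((a : ℝ) * ε) = ((p : ℝ) ^ ε) ^ a := by
          rw [mul_comm, Real.rpow_mul (by positivity), Real.rpow_natCast]
        rw [h6]
        have h7 : (2 : ℝ) ^ a ≤ ((p : ℝ) ^ ε) ^ a := pow_le_pow_left₀ (by norm_num) h5 a
        have h8 : (a : ℝ) + 1 ≤ 2 ^ a := by
          have : a + 1 ≤ 2 ^ a := Nat.lt_two_pow_self
          exact_mod_cast this
        have h9 : (1 : ℝ) ≤ K ^ (N13a_om P (p ^ a)) := one_le_pow₀ hK1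
        calc (a : ℝ) + 1 ≤ ((p : ℝ) ^ ε) ^ a := h8.trans h7
          _ = 1 * ((p : ℝ) ^ ε) ^ a := (one_mul _).symm
          _ ≤ _ := by apply mul_le_mul_of_nonneg_right h9 (by positivity)
    | zero => intro h; omega
    | one =>
      intro _
      simp [tau, N13a_om]
    | coprime a b ha hb hab iha ihb =>
      intro _
      rw [N13a_tau_mul a b hab, N13a_om_mul P a b hab, pow_add]
      push_cast
      rw [Real.mul_rpow (by positivity) (by positivity)]
      have h1 := iha (by omega)
      have h2 := ihb (by omega)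
      have h3 : 0 ≤ tau b := by unfold tau; positivity
      calc tau a * tau b ≤ (K ^ (N13a_om P a) * (a : ℝ) ^ ε) * (K ^ (N13a_om P b) * (b : ℝ) ^ ε) := by
            apply mul_le_mul h1 h2 h3
            positivity
        _ = _ := by ring
  refine ⟨K ^ P, one_le_pow₀ hK1, fun n hn => (key n hn).trans ?_⟩
  apply mul_le_mul_of_nonneg_right _ (by positivity)
  exact pow_le_pow_right₀ hK1 (N13a_om_le P n)

end RV11
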