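import Pool.Agent.LibRV11.N00

open Complex Real

namespace RV11

theorem tau_pos (m : ℕ) (hm : 1 ≤ m) : 1 ≤ tau m := by
  unfold tau
  have : 1 ≤ m.divisors.card := Finset.card_pos.2 ⟨1, Nat.mem_divisors.2 ⟨one_dvd _, by omega⟩⟩
  exact_mod_cast this

theorem tau_le_of_dvd (a b : ℕ) (hb : 1 ≤ b) (h : a ∣ b) : tau a ≤ tau b := by
  unfold tau
  have := Finset.card_le_card (Nat.divisors_subset_of_dvd (by omega) h)
  exact_mod_cast this

open Pointwise in
theorem tau_mul_le (a b : ℕ) : tau (a * b) ≤ tau a * tau b := by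
  unfold tau
  rw [Nat.divisors_mul]
  have := Finset.card_mul_le (s := a.divisors) (t := b.divisors)
  exact_mod_cast this

open Pointwise in
theorem sg_mul_le (a b : ℕ) : sg (a * b) ≤ sg a * sg b := by
  unfold sg
  rw [Finset.sum_mul_sum, ← Finset.sum_product']
  have hmaps : ∀ p ∈ a.divisors ×ˢ b.divisors, p.1 * p.2 ∈ (a * b).divisors := by
    intro p hp
    rw [Finset.mem_product] at hp
    rw [Nat.divisors_mul]
    exact Finset.mul_mem_mul hp.1 hp.2
  rw [← Finset.sum_fiberwise_of_maps_to hmaps]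
  apply Finset.sum_le_sum
  intro d hd
  rw [Nat.divisors_mul] at hd
  obtain ⟨x, hx, y, hy, hxy⟩ := Finset.mem_mul.1 hd
  have hmem : (x, y) ∈ (a.divisors ×ˢ b.divisors).filter (fun p => p.1 * p.2 = d) := by
    rw [Finset.mem_filter, Finset.mem_product]
    exact ⟨⟨hx, hy⟩, hxy⟩
  have := Finset.single_le_sum (f := fun p : ℕ × ℕ => (p.1 : ℝ) * (p.2 : ℝ))
    (fun p _ => by positivity) hmem
  refine le_trans (le_of_eq ?_) this
  rw [← hxy]
  push_cast
  ring

theorem sg_le (m : ℕ) : sg m ≤ m * tau m := by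
  unfold sg tau
  calc ∑ d ∈ m.divisors, (d : ℝ) ≤ ∑ d ∈ m.divisors, (m : ℝ) := by
        apply Finset.sum_le_sum
        intro d hd
        exact_mod_cast Nat.divisor_le hd
    _ = m * (m.divisors.card : ℝ) := by rw [Finset.sum_const, nsmul_eq_mul]; ring

theorem sg_le_log (m : ℕ) (hm : 1 ≤ m) : sg m ≤ m * (1 + Real.log m) := by
  have h1 : sg m = m * ∑ d ∈ m.divisors, (1 : ℝ) / d := by
    unfold sg
    rw [← Nat.sum_div_divisors, Finset.mul_sum]
    apply Finset.sum_congr rfl
    intro d hd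
    have hd' := Nat.dvd_of_mem_divisors hd
    have hd0 : (d : ℝ) ≠ 0 := by
      have : d ≠ 0 := by
        rintro rfl
        exact absurd (Nat.eq_zero_of_zero_dvd hd') (by omega)
      exact_mod_cast this
    rw [Nat.cast_div hd' hd0]
    ring
  rw [h1]
  apply mul_le_mul_of_nonneg_left _ (by positivity)
  have h2 : ∑ d ∈ m.divisors, (1 : ℝ) / d ≤ ∑ d ∈ Finset.Icc 1 m, (1 : ℝ) / d := by
    apply Finset.sum_le_sum_of_subset_of_nonneg
    · intro d hd
      rw [Finset.mem_Icc]
      exact ⟨Nat.pos_of_mem_divisors hd, Nat.divisor_le hd⟩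
    · intro d _ _
      positivity
  have h3 := harmonic_le_one_add_log m
  rw [harmonic_eq_sum_Icc] at h3
  push_cast at h3
  refine h2.trans (le_trans (le_of_eq ?_) h3)
  apply Finset.sum_congr rfl
  intro d _
  rw [one_div]

theorem sg_nonneg (m : ℕ) : 0 ≤ sg m := by
  unfold sg
  positivity

/-- `q ≤ τ(q) φ(q)` -/
theorem le_tau_mul_totient (q : ℕ) (hq : 1 ≤ q) : (q : ℝ) ≤ tau q * Nat.totient q := by
  have h1 : q ≤ q.divisors.card * Nat.totient q := by
    calc q = ∑ d ∈ q.divisors, Nat.totient d := (Nat.sum_totient q).symm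
      _ ≤ ∑ d ∈ q.divisors, Nat.totient q := by
        apply Finset.sum_le_sum
        intro d hd
        exact Nat.le_of_dvd (Nat.totient_pos.2 (by omega))
          (Nat.totient_dvd_of_dvd (Nat.dvd_of_mem_divisors hd))
      _ = q.divisors.card * Nat.totient q := by rw [Finset.sum_const, smul_eq_mul]
  unfold tau
  exact_mod_cast h1

theorem ff_pos (n : ℕ) (hn : 1 ≤ n) : 0 < ff n := by
  unfold ff
  have h1 : 0 < Nat.totient (2 * n) := Nat.totient_pos.2 (by omega)
  have h2 : 0 < 2 * n := by omega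
  have h1' : (0 : ℝ) < (Nat.totient (2 * n) : ℝ) := by exact_mod_cast h1
  have h2' : (0 : ℝ) < ((2 * n : ℕ) : ℝ) := by exact_mod_cast h2
  exact div_pos h1' h2'

theorem ff_le_one (n : ℕ) : ff n ≤ 1 := by
  unfold ff
  apply div_le_one_of_le₀
  · exact_mod_cast Nat.totient_le (2 * n)
  · positivity

theorem inv_tau_le_ff (n : ℕ) (hn : 1 ≤ n) : 1 / tau (2 * n) ≤ ff n := by
  have h1 := le_tau_mul_totient (2 * n) (by omega)
  have h2 := tau_pos (2 * n) (by omega)
  have h3 : (0 : ℝ) < ((2 * n : ℕ) : ℝ) := by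
    have : 0 < 2 * n := by omega
    exact_mod_cast this
  unfold ff
  rw [div_le_div_iff₀ (by linarith) h3, one_mul]
  linarith

end RV11
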