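import Pool.Agent.LibRV11.N11a
import Pool.Agent.LibRV11.N11b
import Pool.Agent.LibRV11.N11c
import Pool.Agent.LibRV11.N13a
import Pool.Agent.LibRV11.N13b

open Complex Real

namespace RV11

theorem Kl_bound : ∃ C : ℝ, 1 ≤ C ∧ ∀ (q : ℕ) [NeZero q], Odd q → ∀ k l : ZMod q,
    ‖Kl q k l‖ ≤ C * (q : ℝ) ^ (77 / 100 : ℝ) * (gz q k : ℝ) ^ (1 / 4 : ℝ) := by
  obtain ⟨C, hC1, hC⟩ := tau_bound (2 / 75) (by norm_num)
  refine ⟨C, hC1, ?_⟩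
  intro q _ hq k l
  have hq0 : 1 ≤ q := Nat.one_le_iff_ne_zero.mpr (NeZero.ne q)
  have hqr : (1 : ℝ) ≤ (q : ℝ) := by exact_mod_cast hq0
  have hqpos : (0 : ℝ) < (q : ℝ) := by linarith
  have hC0 : (0 : ℝ) < C := by linarith
  have hg0 : (0 : ℝ) ≤ (gz q k : ℝ) := Nat.cast_nonneg _
  have htau1 := tau_pos q hq0
  have htau0 : (0 : ℝ) ≤ tau q := by linarith
  have htau := hC q hq0
  have hK0 : (0 : ℝ) ≤ ‖Kl q k l‖ := norm_nonneg _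
  have hphi0 : (0 : ℝ) ≤ (Nat.totient q : ℝ) := Nat.cast_nonneg _
  -- the fourth moment
  have h1 := Kl_orbit q k l
  rw [Kl_moment q] at h1
  have h2 := N4_count q hq
  have h3 : (Nat.totient q : ℝ) * ‖Kl q k l‖ ^ 4 ≤
      (gz q k : ℝ) * ((q : ℝ) ^ 2 * ((q : ℝ) ^ 2 * tau q ^ 2)) := by
    refine h1.trans (mul_le_mul_of_nonneg_left (mul_le_mul_of_nonneg_left h2 (by positivity)) hg0)
  have h4 := le_tau_mul_totient q hq0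
  have h5 : (q : ℝ) * ‖Kl q k l‖ ^ 4 ≤ (q : ℝ) * ((gz q k : ℝ) * (q : ℝ) ^ 3 * tau q ^ 3) := by
    calc (q : ℝ) * ‖Kl q k l‖ ^ 4 ≤ (tau q * Nat.totient q) * ‖Kl q k l‖ ^ 4 :=
          mul_le_mul_of_nonneg_right h4 (by positivity)
      _ = tau q * ((Nat.totient q : ℝ) * ‖Kl q k l‖ ^ 4) := by ring
      _ ≤ tau q * ((gz q k : ℝ) * ((q : ℝ) ^ 2 * ((q : ℝ) ^ 2 * tau q ^ 2))) :=
          mul_le_mul_of_nonneg_left h3 htau0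
      _ = _ := by ring
  have h6 : ‖Kl q k l‖ ^ 4 ≤ (gz q k : ℝ) * (q : ℝ) ^ 3 * tau q ^ 3 :=
    le_of_mul_le_mul_left h5 hqpos
  have h7 : tau q ^ 3 ≤ C ^ 4 * (q : ℝ) ^ (2 / 25 : ℝ) := by
    calc tau q ^ 3 ≤ (C * (q : ℝ) ^ (2 / 75 : ℝ)) ^ 3 := pow_le_pow_left₀ htau0 htau 3
      _ = C ^ 3 * (q : ℝ) ^ (2 / 25 : ℝ) := by
          rw [mul_pow, ← Real.rpow_natCast ((q : ℝ) ^ (2 / 75 : ℝ)) 3, ← Real.rpow_mul hqpos.le]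
          norm_num
      _ ≤ C ^ 4 * (q : ℝ) ^ (2 / 25 : ℝ) := by
          refine mul_le_mul_of_nonneg_right (pow_le_pow_right₀ hC1 (by norm_num)) (by positivity)
  have h8 : ‖Kl q k l‖ ^ 4 ≤
      (C * (q : ℝ) ^ (77 / 100 : ℝ) * (gz q k : ℝ) ^ (1 / 4 : ℝ)) ^ 4 := by
    refine h6.trans ?_
    have h9 : (C * (q : ℝ) ^ (77 / 100 : ℝ) * (gz q k : ℝ) ^ (1 / 4 : ℝ)) ^ 4 =
        C ^ 4 * ((q : ℝ) ^ 3 * (q : ℝ) ^ (2 / 25 : ℝ)) * (gz q k : ℝ) := by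
      rw [mul_pow, mul_pow]
      have e1 : ((q : ℝ) ^ (77 / 100 : ℝ)) ^ 4 = (q : ℝ) ^ 3 * (q : ℝ) ^ (2 / 25 : ℝ) := by
        rw [← Real.rpow_natCast ((q : ℝ) ^ (77 / 100 : ℝ)) 4, ← Real.rpow_mul hqpos.le,
          ← Real.rpow_natCast (q : ℝ) 3, ← Real.rpow_add hqpos]
        norm_num
      have e2 : ((gz q k : ℝ) ^ (1 / 4 : ℝ)) ^ 4 = (gz q k : ℝ) := by
        rw [← Real.rpow_natCast ((gz q k : ℝ) ^ (1 / 4 : ℝ)) 4, ← Real.rpow_mul hg0]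
        norm_num
      rw [e1, e2]
    rw [h9]
    calc (gz q k : ℝ) * (q : ℝ) ^ 3 * tau q ^ 3
        ≤ (gz q k : ℝ) * (q : ℝ) ^ 3 * (C ^ 4 * (q : ℝ) ^ (2 / 25 : ℝ)) :=
          mul_le_mul_of_nonneg_left h7 (by positivity)
      _ = _ := by ring
  exact le_of_pow_le_pow_left₀ (by norm_num) (by positivity) h8

end RV11
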