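import Pool.Agent.LibRV11.N01a

open Complex Real

namespace RV11

theorem N12a_val {q : ℕ} (hq : q ≠ 0) {x : ZMod q} (hx : x ≠ 0) : 1 ≤ x.val ∧ x.val < q := by
  have : NeZero q := ⟨hq⟩
  refine ⟨?_, ZMod.val_lt x⟩
  rw [Nat.one_le_iff_ne_zero]
  intro h
  exact hx ((ZMod.val_eq_zero x).mp h)

theorem dq_pos (q : ℕ) (hq : q ≠ 0) (x : ZMod q) (hx : x ≠ 0) : 0 < dq q x := by
  obtain ⟨h1, h2⟩ := N12a_val hq hx
  have h1' : (1 : ℝ) ≤ x.val := by exact_mod_cast h1
  have h2' : (x.val : ℝ) < q := by exact_mod_cast h2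
  exact lt_min (by linarith) (by linarith)

theorem N12a_pow (q : ℕ) (hq : q ≠ 0) (x : ZMod q) (t : ℕ) : er q (x * t) = er q x ^ t := by
  induction t with
  | zero => simp [er_zero]
  | succ t ih =>
    rw [Nat.cast_succ, mul_add, mul_one, er_add q hq, ih, pow_succ]

theorem N12a_sin {q v : ℝ} (hv : 0 < v) (hvq : v < q) :
    2 * min v (q - v) / q ≤ Real.sin (π * v / q) := by
  have hq : 0 < q := by linarith
  have hpi := Real.pi_pos
  rcases le_total v (q - v) with h | h
  · rw [min_eq_left h]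
    have h1 : π * v / q ≤ π / 2 := by
      rw [div_le_div_iff₀ hq (by norm_num)]
      nlinarith
    have h2 := Real.mul_le_sin (x := π * v / q) (by positivity) h1
    refine le_trans (le_of_eq ?_) h2
    field_simp
  · rw [min_eq_right h]
    have e : Real.sin (π * v / q) = Real.sin (π * (q - v) / q) := by
      rw [← Real.sin_pi_sub]
      congr 1
      field_simp
    rw [e]
    have h1 : π * (q - v) / q ≤ π / 2 := by
      rw [div_le_div_iff₀ hq (by norm_num)]
      nlinarith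
    have h0 : 0 ≤ q - v := by linarith
    have h2 := Real.mul_le_sin (x := π * (q - v) / q) (by positivity) h1
    refine le_trans (le_of_eq ?_) h2
    field_simp

theorem geo (q : ℕ) (hq : q ≠ 0) (x : ZMod q) (hx : x ≠ 0) (T : ℕ) :
    ‖∑ t ∈ Finset.range T, er q (x * t)‖ ≤ q / (2 * dq q x) := by
  have hd := dq_pos q hq x hx
  obtain ⟨h1, h2⟩ := N12a_val hq hx
  have h1' : (0 : ℝ) < x.val := by exact_mod_cast h1
  have h2' : (x.val : ℝ) < q := by exact_mod_cast h2
  have hq0 : (0 : ℝ) < q := by linarith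
  simp only [N12a_pow q hq]
  have hz : ‖er q x‖ = 1 := norm_er q x
  have hgeo : (er q x - 1) * ∑ t ∈ Finset.range T, er q x ^ t = er q x ^ T - 1 := by
    rw [mul_comm]
    exact geom_sum_mul _ _
  have hn : ‖(er q x - 1) * ∑ t ∈ Finset.range T, er q x ^ t‖ ≤ 2 := by
    rw [hgeo]
    refine (norm_sub_le _ _).trans ?_
    rw [norm_pow, hz, one_pow, norm_one]
    norm_num
  have hs : 4 * dq q x / q ≤ ‖er q x - 1‖ := by
    have e1 : er q x = cexp (I * ((2 * π * x.val / q : ℝ) : ℂ)) := by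
      rw [er]
      congr 1
      push_cast
      ring
    rw [e1, Complex.norm_exp_I_mul_ofReal_sub_one]
    have e2 : 2 * π * x.val / q / 2 = π * x.val / q := by ring
    rw [e2, norm_mul, Real.norm_two]
    have h3 := N12a_sin h1' h2'
    have h4 : 2 * (2 * min (x.val : ℝ) (q - x.val) / q) ≤ 2 * Real.sin (π * x.val / q) := by
      linarith
    have h5 : Real.sin (π * x.val / q) ≤ ‖Real.sin (π * x.val / q)‖ := Real.le_norm_self _
    rw [dq]
    calc 4 * min (x.val : ℝ) (q - x.val) / q = 2 * (2 * min (x.val : ℝ) (q - x.val) / q) := by ring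
      _ ≤ 2 * Real.sin (π * x.val / q) := h4
      _ ≤ 2 * ‖Real.sin (π * x.val / q)‖ := by linarith
  rw [norm_mul] at hn
  have hS := norm_nonneg (∑ t ∈ Finset.range T, er q x ^ t)
  rw [le_div_iff₀ (by positivity)]
  have h6 : 4 * dq q x / q * ‖∑ t ∈ Finset.range T, er q x ^ t‖ ≤ 2 :=
    (mul_le_mul_of_nonneg_right hs hS).trans hn
  rw [div_mul_eq_mul_div, div_le_iff₀ hq0] at h6
  linarith

theorem sum_dq (q : ℕ) [NeZero q] :
    ∑ x ∈ (Finset.univ : Finset (ZMod q)).erase 0, (q : ℝ) / (2 * dq q x) ≤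
      q * (1 + Real.log q) := by
  have hq : q ≠ 0 := NeZero.ne q
  have hq0 : (0 : ℝ) < q := by exact_mod_cast Nat.pos_of_ne_zero hq
  have h1 : ∑ x ∈ (Finset.univ : Finset (ZMod q)).erase 0, (q : ℝ) / (2 * dq q x) ≤
      ∑ x ∈ (Finset.univ : Finset (ZMod q)).erase 0,
        (q / 2 * (1 / (x.val : ℝ)) + q / 2 * (1 / ((q - x.val : ℕ) : ℝ))) := by
    refine Finset.sum_le_sum fun x hx => ?_
    have hx0 : x ≠ 0 := (Finset.mem_erase.mp hx).1
    obtain ⟨a1, a2⟩ := N12a_val hq hx0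
    have a1' : (0 : ℝ) < x.val := by exact_mod_cast a1
    have a2' : (0 : ℝ) < (q : ℝ) - x.val := by
      have : (x.val : ℝ) < q := by exact_mod_cast a2
      linarith
    rw [Nat.cast_sub a2.le, dq]
    rcases min_choice (x.val : ℝ) ((q : ℝ) - x.val) with h | h
    · rw [h]
      have : 0 ≤ (q : ℝ) / 2 * (1 / ((q : ℝ) - x.val)) := by positivity
      have e : (q : ℝ) / (2 * x.val) = q / 2 * (1 / (x.val : ℝ)) := by
        field_simp
      linarith
    · rw [h]
      have : 0 ≤ (q : ℝ) / 2 * (1 / (x.val : ℝ)) := by positivity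
      have e : (q : ℝ) / (2 * (q - x.val)) = q / 2 * (1 / ((q : ℝ) - x.val)) := by
        field_simp
      linarith
  have h2 : ∀ f : ℕ → ℝ, ∑ x ∈ (Finset.univ : Finset (ZMod q)).erase 0, f x.val =
      ∑ v ∈ Finset.Ico 1 q, f v := by
    intro f
    refine Finset.sum_nbij' (fun x => x.val) (fun v => (v : ZMod q)) ?_ ?_ ?_ ?_ ?_
    · intro x hx
      have := N12a_val hq (Finset.mem_erase.mp hx).1
      exact Finset.mem_Ico.mpr this
    · intro v hv
      rw [Finset.mem_Ico] at hv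
      rw [Finset.mem_erase]
      refine ⟨?_, Finset.mem_univ _⟩
      intro h
      have := congrArg ZMod.val h
      rw [ZMod.val_natCast, Nat.mod_eq_of_lt hv.2, ZMod.val_zero] at this
      omega
    · intro x _
      exact ZMod.natCast_zmod_val x
    · intro v hv
      rw [Finset.mem_Ico] at hv
      rw [ZMod.val_natCast, Nat.mod_eq_of_lt hv.2]
    · intro x _
      rfl
  have h3 : ∑ v ∈ Finset.Ico 1 q, (1 / ((q - v : ℕ) : ℝ)) = ∑ v ∈ Finset.Ico 1 q, 1 / (v : ℝ) := by
    refine Finset.sum_nbij' (fun v => q - v) (fun v => q - v) ?_ ?_ ?_ ?_ ?_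
    · intro v hv
      rw [Finset.mem_Ico] at hv ⊢
      omega
    · intro v hv
      rw [Finset.mem_Ico] at hv ⊢
      omega
    · intro v hv
      rw [Finset.mem_Ico] at hv
      omega
    · intro v hv
      rw [Finset.mem_Ico] at hv
      omega
    · intro v _
      rfl
  have h4 : ∑ v ∈ Finset.Ico 1 q, 1 / (v : ℝ) ≤ 1 + Real.log q := by
    have h5 := harmonic_le_one_add_log q
    refine le_trans ?_ h5
    rw [harmonic]
    push_cast
    rw [Finset.range_eq_Ico]
    have e : ∑ i ∈ Finset.Ico 0 q, ((i : ℝ) + 1)⁻¹ = ∑ v ∈ Finset.Ico 1 (q + 1), 1 / (v : ℝ) := by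
      have hshift := Finset.sum_Ico_add' (fun v : ℕ => 1 / (v : ℝ)) 0 q 1
      rw [zero_add] at hshift
      rw [← hshift]
      refine Finset.sum_congr rfl fun i _ => ?_
      push_cast
      rw [one_div]
    rw [e]
    refine Finset.sum_le_sum_of_subset_of_nonneg ?_ fun v _ _ => by positivity
    exact Finset.Ico_subset_Ico_right (Nat.le_succ q)
  refine h1.trans ?_
  rw [h2 (fun v => (q / 2 * (1 / (v : ℝ)) + q / 2 * (1 / ((q - v : ℕ) : ℝ)))),
    Finset.sum_add_distrib, ← Finset.mul_sum, ← Finset.mul_sum, h3]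
  have := mul_le_mul_of_nonneg_left h4 hq0.le
  linarith

theorem dq_mul_sum (q : ℕ) [NeZero q] (u : ZMod q) (hu : IsUnit u) :
    ∑ x ∈ (Finset.univ : Finset (ZMod q)).erase 0, (q : ℝ) / (2 * dq q (x * u)) =
      ∑ x ∈ (Finset.univ : Finset (ZMod q)).erase 0, (q : ℝ) / (2 * dq q x) := by
  obtain ⟨v, rfl⟩ := hu
  refine Finset.sum_equiv (Units.mulRight v) (fun x => ?_) (fun x _ => rfl)
  simp only [Finset.mem_erase, Finset.mem_univ, and_true, Units.mulRight_apply, ne_eq]
  rw [Units.mul_left_eq_zero]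

end RV11
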