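import Pool.Agent.LibRV11.N00

open Complex Real

namespace RV11

theorem BV.nonneg {w : ℕ → ℂ} {V : ℝ} (hw : BV w V) : 0 ≤ V := by
  have := hw.tv 0
  simpa using this

theorem abel (z : ℕ → ℂ) (G : ℝ) (hz : ∀ T, ‖∑ t ∈ Finset.range T, z t‖ ≤ G) (w : ℕ → ℂ) (V : ℝ)
    (hw : BV w V) (T : ℕ) : ‖∑ t ∈ Finset.range T, w t * z t‖ ≤ (1 + V) * G := by
  have hG : 0 ≤ G := by
    have := hz 0
    simpa using this
  have hV := hw.nonneg
  cases T with
  | zero =>
    simp only [Finset.range_zero, Finset.sum_empty, norm_zero]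
    positivity
  | succ n =>
    have key : ∀ n, ∑ i ∈ Finset.range (n + 1), w i * z i =
        w n * (∑ i ∈ Finset.range (n + 1), z i) -
          ∑ i ∈ Finset.range n, (w (i + 1) - w i) * (∑ j ∈ Finset.range (i + 1), z j) := by
      intro n
      induction n with
      | zero => simp
      | succ n ih =>
        rw [Finset.sum_range_succ, ih, Finset.sum_range_succ z (n + 1),
          Finset.sum_range_succ (fun i => (w (i + 1) - w i) *
            (∑ j ∈ Finset.range (i + 1), z j)) n]
        ring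
    rw [key]
    refine (norm_sub_le _ _).trans ?_
    have h1 : ‖w n * (∑ i ∈ Finset.range (n + 1), z i)‖ ≤ 1 * G := by
      rw [norm_mul]
      exact mul_le_mul (hw.bd n) (hz _) (norm_nonneg _) zero_le_one
    have h2 : ‖∑ i ∈ Finset.range n, (w (i + 1) - w i) * (∑ j ∈ Finset.range (i + 1), z j)‖ ≤
        V * G := by
      refine (norm_sum_le _ _).trans ?_
      refine le_trans (Finset.sum_le_sum (g := fun i => ‖w (i + 1) - w i‖ * G) fun i _ => ?_) ?_
      · rw [norm_mul]
        exact mul_le_mul_of_nonneg_left (hz _) (norm_nonneg _)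
      · rw [← Finset.sum_mul]
        exact mul_le_mul_of_nonneg_right (hw.tv n) hG
    linarith

theorem N12b_tele (w : ℕ → ℂ) (m n : ℕ) : ‖w (m + n) - w m‖ ≤
    ∑ b ∈ Finset.range (m + n), ‖w (b + 1) - w b‖ - ∑ b ∈ Finset.range m, ‖w (b + 1) - w b‖ := by
  induction n with
  | zero => simp
  | succ n ih =>
    rw [← add_assoc, Finset.sum_range_succ]
    have h : w (m + n + 1) - w m = (w (m + n + 1) - w (m + n)) + (w (m + n) - w m) := by ring
    rw [h]
    have := norm_add_le (w (m + n + 1) - w (m + n)) (w (m + n) - w m)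
    linarith

theorem BV.comp_mul {w : ℕ → ℂ} {V : ℝ} (hw : BV w V) (a r : ℕ) :
    BV (fun b => w (a * b + r)) V := by
  refine ⟨fun b => hw.bd _, fun N => ?_⟩
  set S : ℕ → ℝ := fun n => ∑ b ∈ Finset.range n, ‖w (b + 1) - w b‖ with hS
  have h1 : ∑ b ∈ Finset.range N, ‖w (a * (b + 1) + r) - w (a * b + r)‖ ≤
      ∑ b ∈ Finset.range N, (S (a * (b + 1) + r) - S (a * b + r)) := by
    refine Finset.sum_le_sum fun b _ => ?_
    have e : a * (b + 1) + r = (a * b + r) + a := by ring
    rw [e]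
    exact N12b_tele w (a * b + r) a
  refine h1.trans ?_
  rw [Finset.sum_range_sub (fun b => S (a * b + r))]
  have h2 : 0 ≤ S (a * 0 + r) := Finset.sum_nonneg fun _ _ => norm_nonneg _
  have h3 : S (a * N + r) ≤ V := hw.tv _
  linarith

theorem BV.mul {w w' : ℕ → ℂ} {V V' : ℝ} (hw : BV w V) (hw' : BV w' V') :
    BV (fun b => w b * w' b) (V + V') := by
  refine ⟨fun b => ?_, fun N => ?_⟩
  · rw [norm_mul]
    exact mul_le_one₀ (hw.bd b) (norm_nonneg _) (hw'.bd b)
  · have h1 : ∑ b ∈ Finset.range N, ‖w (b + 1) * w' (b + 1) - w b * w' b‖ ≤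
        ∑ b ∈ Finset.range N, (‖w (b + 1) - w b‖ + ‖w' (b + 1) - w' b‖) := by
      refine Finset.sum_le_sum fun b _ => ?_
      have e : w (b + 1) * w' (b + 1) - w b * w' b =
          (w (b + 1) - w b) * w' (b + 1) + w b * (w' (b + 1) - w' b) := by ring
      rw [e]
      refine (norm_add_le _ _).trans ?_
      rw [norm_mul, norm_mul]
      exact add_le_add (mul_le_of_le_one_right (norm_nonneg _) (hw'.bd _))
        (mul_le_of_le_one_left (norm_nonneg _) (hw.bd _))
    refine h1.trans ?_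
    rw [Finset.sum_add_distrib]
    exact add_le_add (hw.tv N) (hw'.tv N)

theorem BV.conj {w : ℕ → ℂ} {V : ℝ} (hw : BV w V) : BV (fun b => (starRingEnd ℂ) (w b)) V := by
  refine ⟨fun b => ?_, fun N => ?_⟩
  · rw [Complex.norm_conj]
    exact hw.bd b
  · refine le_trans (le_of_eq (Finset.sum_congr rfl fun b _ => ?_)) (hw.tv N)
    rw [← map_sub, Complex.norm_conj]

theorem BV.mono {w : ℕ → ℂ} {V V' : ℝ} (hw : BV w V) (h : V ≤ V') : BV w V' :=
  ⟨hw.bd, fun N => (hw.tv N).trans h⟩

theorem N12b_monotone {f : ℕ → ℝ} (h0 : ∀ n, 0 ≤ f n) (h1 : ∀ n, f n ≤ 1) (hf : Monotone f) :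
    BV (fun b => (f b : ℂ)) 1 := by
  refine ⟨fun b => ?_, fun N => ?_⟩
  · rw [Complex.norm_real, Real.norm_of_nonneg (h0 b)]
    exact h1 b
  · have : ∀ b ∈ Finset.range N, ‖((f (b + 1) : ℝ) : ℂ) - (f b : ℂ)‖ = f (b + 1) - f b := by
      intro b _
      rw [← Complex.ofReal_sub, Complex.norm_real,
        Real.norm_of_nonneg (sub_nonneg.mpr (hf (Nat.le_succ b)))]
    rw [Finset.sum_congr rfl this, Finset.sum_range_sub f]
    linarith [h0 0, h1 N]

theorem N12b_antitone {f : ℕ → ℝ} (h0 : ∀ n, 0 ≤ f n) (h1 : ∀ n, f n ≤ 1) (hf : Antitone f) :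
    BV (fun b => (f b : ℂ)) 1 := by
  refine ⟨fun b => ?_, fun N => ?_⟩
  · rw [Complex.norm_real, Real.norm_of_nonneg (h0 b)]
    exact h1 b
  · have : ∀ b ∈ Finset.range N, ‖((f (b + 1) : ℝ) : ℂ) - (f b : ℂ)‖ = f b - f (b + 1) := by
      intro b _
      rw [← Complex.ofReal_sub, Complex.norm_real, Real.norm_eq_abs, abs_sub_comm,
        abs_of_nonneg (sub_nonneg.mpr (hf (Nat.le_succ b)))]
    rw [Finset.sum_congr rfl this, Finset.sum_range_sub' f]
    linarith [h0 N, h1 0]

/-- indicator of `a < m b` as a function of `b` -/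
theorem BV.ind_lt (a m : ℕ) : BV (fun b => if a < m * b then (1 : ℂ) else 0) 1 := by
  have h := N12b_monotone (f := fun b => if a < m * b then (1 : ℝ) else 0)
    (fun n => by split_ifs <;> norm_num) (fun n => by split_ifs <;> norm_num)
    (by
      intro b c hbc
      have h1 : m * b ≤ m * c := Nat.mul_le_mul_left m hbc
      show (if a < m * b then (1 : ℝ) else 0) ≤ (if a < m * c then (1 : ℝ) else 0)
      split_ifs with h2 h3
      · exact le_rfl
      · exact absurd (lt_of_lt_of_le h2 h1) h3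
      · norm_num
      · exact le_rfl)
  have e : (fun b => if a < m * b then (1 : ℂ) else 0) =
      (fun b => (((if a < m * b then (1 : ℝ) else 0) : ℝ) : ℂ)) := by
    ext b
    split_ifs <;> simp
  rw [e]
  exact h

/-- indicator of an interval -/
theorem BV.ind_Ico (a b : ℕ) : BV (fun c => if a ≤ c ∧ c < b then (1 : ℂ) else 0) 2 := by
  have h1 := N12b_monotone (f := fun c => if a ≤ c then (1 : ℝ) else 0)
    (fun n => by split_ifs <;> norm_num) (fun n => by split_ifs <;> norm_num)
    (by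
      intro c d hcd
      show (if a ≤ c then (1 : ℝ) else 0) ≤ (if a ≤ d then (1 : ℝ) else 0)
      split_ifs with h2 h3
      · exact le_rfl
      · exact absurd (h2.trans hcd) h3
      · norm_num
      · exact le_rfl)
  have h2 := N12b_antitone (f := fun c => if c < b then (1 : ℝ) else 0)
    (fun n => by split_ifs <;> norm_num) (fun n => by split_ifs <;> norm_num)
    (by
      intro c d hcd
      show (if d < b then (1 : ℝ) else 0) ≤ (if c < b then (1 : ℝ) else 0)
      split_ifs with h2 h3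
      · exact le_rfl
      · exact absurd (lt_of_le_of_lt hcd h2) h3
      · norm_num
      · exact le_rfl)
  have h3 := BV.mul h1 h2
  have e : (fun c => if a ≤ c ∧ c < b then (1 : ℂ) else 0) =
      (fun c => (((if a ≤ c then (1 : ℝ) else 0) : ℝ) : ℂ) *
        (((if c < b then (1 : ℝ) else 0) : ℝ) : ℂ)) := by
    ext c
    by_cases h4 : a ≤ c <;> by_cases h5 : c < b <;> simp [h4, h5]
  rw [e]
  exact h3.mono (by norm_num)

end RV11
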