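import Pool.Agent.LibRV11.N12a
import Pool.Agent.LibRV11.N12b

open Complex Real

namespace RV11

/-- the set of solutions of `e b = β (mod M1)` is an arithmetic progression -/
theorem N12c_prog (M1 e β : ℕ) (hM1 : 1 ≤ M1) (he : 1 ≤ e) (T : ℕ)
    (hne : ((Finset.Icc 1 T).filter (fun b => e * b ≡ β [MOD M1])).Nonempty) :
    ∃ r T' m : ℕ, m ∣ M1 ∧
      ∀ f : ℕ → ℂ, ∑ b ∈ (Finset.Icc 1 T).filter (fun b => e * b ≡ β [MOD M1]), f b =
        ∑ t ∈ Finset.range T', f (m * t + r) := by
  classical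
  set F := (Finset.Icc 1 T).filter (fun b => e * b ≡ β [MOD M1]) with hF
  set r := F.min' hne with hr
  have hrF : r ∈ F := F.min'_mem hne
  have hrF' := hrF
  rw [hF, Finset.mem_filter, Finset.mem_Icc] at hrF'
  obtain ⟨⟨hr1, hrT⟩, hre⟩ := hrF'
  set g := Nat.gcd M1 e with hg
  have hgpos : 0 < g := Nat.gcd_pos_of_pos_left _ hM1
  obtain ⟨m, hm⟩ : g ∣ M1 := Nat.gcd_dvd_left M1 e
  have hmpos : 0 < m := by
    rcases Nat.eq_zero_or_pos m with h | h
    · rw [h, mul_zero] at hm
      omega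
    · exact h
  have hm' : M1 / g = m := by
    rw [hm]
    exact Nat.mul_div_cancel_left m hgpos
  refine ⟨r, (T - r) / m + 1, m, ⟨g, by rw [hm, mul_comm]⟩, fun f => ?_⟩
  have himg : F = (Finset.range ((T - r) / m + 1)).image (fun t => m * t + r) := by
    ext b
    rw [Finset.mem_image]
    constructor
    · intro hb
      have hrb : r ≤ b := F.min'_le b hb
      rw [hF, Finset.mem_filter, Finset.mem_Icc] at hb
      obtain ⟨⟨hb1, hbT⟩, hbe⟩ := hb
      -- `e b ≡ e r`
      have h1 : e * b ≡ e * r [MOD M1] := hbe.trans hre.symm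
      have h2 : b ≡ r [MOD M1 / g] := Nat.ModEq.cancel_left_div_gcd hM1 h1
      rw [hm'] at h2
      have h3 : m ∣ b - r := (Nat.modEq_iff_dvd' hrb).mp h2.symm
      obtain ⟨t, ht⟩ := h3
      refine ⟨t, ?_, by omega⟩
      rw [Finset.mem_range, Nat.lt_succ_iff, Nat.le_div_iff_mul_le hmpos, mul_comm, ← ht]
      omega
    · rintro ⟨t, ht, rfl⟩
      rw [Finset.mem_range, Nat.lt_succ_iff, Nat.le_div_iff_mul_le hmpos, mul_comm] at ht
      rw [hF, Finset.mem_filter, Finset.mem_Icc]
      refine ⟨⟨by omega, by omega⟩, ?_⟩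
      refine Nat.ModEq.trans ?_ hre
      have h4 : M1 ∣ e * m := by
        obtain ⟨e', he'⟩ : g ∣ e := Nat.gcd_dvd_right M1 e
        refine ⟨e', ?_⟩
        calc e * m = (g * e') * m := by rw [← he']
          _ = (g * m) * e' := by ring
          _ = M1 * e' := by rw [← hm]
      have h5 : e * (m * t + r) = (e * m) * t + e * r := by ring
      rw [h5]
      have h6 : (e * m) * t ≡ 0 [MOD M1] := (Nat.modEq_zero_iff_dvd).mpr (Dvd.dvd.mul_right h4 t)
      have h7 := h6.add_right (e * r)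
      rwa [zero_add] at h7
  rw [himg, Finset.sum_image]
  intro a _ b _ hab
  simp only at hab
  have : m * a = m * b := by omega
  exact Nat.eq_of_mul_eq_mul_left hmpos this

/-- sum over the progression `e b = β (mod M1)`, all nonzero frequencies together -/
theorem ap_sum (q M1 e β : ℕ) [NeZero q] (hM1 : 1 ≤ M1) (he : 1 ≤ e) (hqM : Nat.Coprime q M1)
    (w : ℕ → ℂ) (V : ℝ) (hw : BV w V) (T : ℕ) :
    ∑ h ∈ (Finset.univ : Finset (ZMod q)).erase 0,
      ‖∑ b ∈ (Finset.Icc 1 T).filter (fun b => e * b ≡ β [MOD M1]), w (e * b) * er q (h * b)‖ ≤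
      (1 + V) * (q * (1 + Real.log q)) := by
  have hq : q ≠ 0 := NeZero.ne q
  have hV := hw.nonneg
  have hq0 : (0 : ℝ) < q := by exact_mod_cast Nat.pos_of_ne_zero hq
  have hlog : 0 ≤ Real.log q := Real.log_natCast_nonneg q
  rcases ((Finset.Icc 1 T).filter (fun b => e * b ≡ β [MOD M1])).eq_empty_or_nonempty with
    hemp | hne
  · rw [hemp]
    simp only [Finset.sum_empty, norm_zero, Finset.sum_const_zero]
    positivity
  obtain ⟨r, T', m, hmM, hsum⟩ := N12c_prog M1 e β hM1 he T hne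
  have hmq : Nat.Coprime m q := (Nat.Coprime.coprime_dvd_right hmM hqM).symm
  have hmu : IsUnit (m : ZMod q) := (ZMod.isUnit_iff_coprime m q).mpr hmq
  have key : ∀ h ∈ (Finset.univ : Finset (ZMod q)).erase 0,
      ‖∑ b ∈ (Finset.Icc 1 T).filter (fun b => e * b ≡ β [MOD M1]), w (e * b) * er q (h * b)‖ ≤
      (1 + V) * ((q : ℝ) / (2 * dq q (h * m))) := by
    intro h hh
    have hh0 : h ≠ 0 := (Finset.mem_erase.mp hh).1
    have hhm : h * (m : ZMod q) ≠ 0 := by
      obtain ⟨u, hu⟩ := hmu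
      rw [← hu]
      intro hc
      exact hh0 ((Units.mul_left_eq_zero u).mp hc)
    rw [hsum (fun b => w (e * b) * er q (h * b))]
    have e1 : ∀ t ∈ Finset.range T', w (e * (m * t + r)) * er q (h * ((m * t + r : ℕ) : ZMod q)) =
        er q (h * r) * (w ((e * m) * t + e * r) * er q (h * m * t)) := by
      intro t _
      have a1 : e * (m * t + r) = (e * m) * t + e * r := by ring
      have a2 : h * ((m * t + r : ℕ) : ZMod q) = h * m * t + h * r := by
        push_cast
        ring
      rw [a1, a2, er_add q hq]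
      ring
    rw [Finset.sum_congr rfl e1, ← Finset.mul_sum, norm_mul, norm_er, one_mul]
    exact abel (fun t => er q (h * m * t)) _ (fun T => geo q hq (h * m) hhm T)
      (fun t => w ((e * m) * t + e * r)) V (hw.comp_mul (e * m) (e * r)) T'
  refine (Finset.sum_le_sum key).trans ?_
  rw [← Finset.mul_sum, dq_mul_sum q m hmu]
  exact mul_le_mul_of_nonneg_left (sum_dq q) (by linarith)

end RV11
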