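import Pool.Agent.LibRV11.N01a

open Complex Real

namespace RV11

theorem complete (q : ℕ) [NeZero q] (k : ZMod q) (S : Finset ℕ) (z : ℕ → ℂ) :
    ∑ b ∈ S.filter (fun b => Nat.Coprime b q), z b * er q (k * (b : ZMod q)⁻¹) =
      (1 / q : ℂ) * ∑ h : ZMod q, Kl q k h * ∑ b ∈ S, z b * er q (-(h * b)) := by
  have hq : q ≠ 0 := NeZero.ne q
  have hqc : (q : ℂ) ≠ 0 := by exact_mod_cast hq
  -- the inner sum over `h`
  have h1 : ∀ (x : (ZMod q)ˣ) (b : ℕ), ∑ h : ZMod q,
      er q (k * (x : ZMod q) + h * ((x⁻¹ : (ZMod q)ˣ) : ZMod q)) * er q (-(h * b)) =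
      er q (k * (x : ZMod q)) * (if ((x⁻¹ : (ZMod q)ˣ) : ZMod q) - b = 0 then (q : ℂ) else 0) := by
    intro x b
    rw [← sum_er q (((x⁻¹ : (ZMod q)ˣ) : ZMod q) - b), Finset.mul_sum]
    refine Finset.sum_congr rfl fun h _ => ?_
    rw [← er_add q hq, ← er_add q hq]
    congr 1
    ring
  have h2 : ∑ h : ZMod q, Kl q k h * ∑ b ∈ S, z b * er q (-(h * b)) =
      ∑ b ∈ S, z b * ∑ x : (ZMod q)ˣ, er q (k * (x : ZMod q)) *
        (if ((x⁻¹ : (ZMod q)ˣ) : ZMod q) - b = 0 then (q : ℂ) else 0) := by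
    have e1 : ∀ h : ZMod q, Kl q k h * ∑ b ∈ S, z b * er q (-(h * b)) =
        ∑ b ∈ S, ∑ x : (ZMod q)ˣ, z b *
          (er q (k * (x : ZMod q) + h * ((x⁻¹ : (ZMod q)ˣ) : ZMod q)) * er q (-(h * b))) := by
      intro h
      rw [Finset.mul_sum]
      refine Finset.sum_congr rfl fun b _ => ?_
      rw [Kl, Finset.sum_mul]
      refine Finset.sum_congr rfl fun x _ => by ring
    rw [Finset.sum_congr rfl fun h _ => e1 h, Finset.sum_comm]
    refine Finset.sum_congr rfl fun b _ => ?_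
    rw [Finset.sum_comm, Finset.mul_sum]
    refine Finset.sum_congr rfl fun x _ => ?_
    rw [← Finset.mul_sum, h1]
  rw [h2, Finset.sum_filter, Finset.mul_sum]
  refine Finset.sum_congr rfl fun b _ => ?_
  split_ifs with hb
  · obtain ⟨u, hu⟩ := (ZMod.isUnit_iff_coprime b q).mpr hb
    have h3 : ∑ x : (ZMod q)ˣ, er q (k * (x : ZMod q)) *
        (if ((x⁻¹ : (ZMod q)ˣ) : ZMod q) - b = 0 then (q : ℂ) else 0) =
        er q (k * (b : ZMod q)⁻¹) * q := by
      rw [Finset.sum_eq_single u⁻¹]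
      · rw [inv_inv, ← hu, sub_self, if_pos rfl, ZMod.inv_coe_unit]
      · intro x _ hx
        rw [if_neg, mul_zero]
        rw [← hu, sub_eq_zero]
        intro hc
        have : x⁻¹ = u := Units.ext hc
        exact hx (by rw [← this, inv_inv])
      · intro hc
        exact absurd (Finset.mem_univ _) hc
    rw [h3]
    field_simp
  · have h3 : ∑ x : (ZMod q)ˣ, er q (k * (x : ZMod q)) *
        (if ((x⁻¹ : (ZMod q)ˣ) : ZMod q) - b = 0 then (q : ℂ) else 0) = 0 := by
      refine Finset.sum_eq_zero fun x _ => ?_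
      rw [if_neg, mul_zero]
      rw [sub_eq_zero]
      intro hc
      exact hb ((ZMod.isUnit_iff_coprime b q).mp ⟨x⁻¹, hc⟩)
    rw [h3]
    ring

theorem N12d_moebius (n : ℕ) (hn : 0 < n) :
    ∑ e ∈ n.divisors, (ArithmeticFunction.moebius e : ℂ) = if n = 1 then 1 else 0 := by
  have h := congrArg (fun f : ArithmeticFunction ℤ => f n) ArithmeticFunction.moebius_mul_coe_zeta
  simp only [ArithmeticFunction.coe_mul_zeta_apply, ArithmeticFunction.one_apply] at h
  have h2 : ((∑ e ∈ n.divisors, ArithmeticFunction.moebius e : ℤ) : ℂ) =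
      ((if n = 1 then 1 else 0 : ℤ) : ℂ) := by rw [h]
  push_cast at h2
  exact h2

/-- Moebius over the common divisors with `l` -/
theorem moebius_coprime (l : ℕ) (hl : 1 ≤ l) (B : ℕ) (z : ℕ → ℂ) :
    ∑ b ∈ (Finset.Icc 1 B).filter (fun b => Nat.Coprime b l), z b =
      ∑ e ∈ l.divisors, (ArithmeticFunction.moebius e : ℂ) *
        ∑ b ∈ Finset.Icc 1 (B / e), z (e * b) := by
  have h1 : ∀ b ∈ Finset.Icc 1 B, (if Nat.Coprime b l then z b else 0) =
      ∑ e ∈ l.divisors, if e ∣ b then (ArithmeticFunction.moebius e : ℂ) * z b else 0 := by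
    intro b hb
    rw [Finset.mem_Icc] at hb
    have hg : 0 < Nat.gcd b l := Nat.gcd_pos_of_pos_left _ hb.1
    have e1 : l.divisors.filter (fun e => e ∣ b) = (Nat.gcd b l).divisors := by
      ext e
      simp only [Finset.mem_filter, Nat.mem_divisors, Nat.dvd_gcd_iff]
      constructor
      · rintro ⟨⟨h1, _⟩, h3⟩
        exact ⟨⟨h3, h1⟩, hg.ne'⟩
      · rintro ⟨⟨h1, h2⟩, _⟩
        exact ⟨⟨h2, by omega⟩, h1⟩
    rw [← Finset.sum_filter, e1, ← Finset.sum_mul, N12d_moebius _ hg]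
    by_cases hc : Nat.Coprime b l
    · rw [if_pos hc, if_pos hc, one_mul]
    · rw [if_neg hc, if_neg hc, zero_mul]
  rw [Finset.sum_filter, Finset.sum_congr rfl h1, Finset.sum_comm]
  refine Finset.sum_congr rfl fun e he => ?_
  have he0 : 0 < e := Nat.pos_of_mem_divisors he
  rw [← Finset.sum_filter, Finset.mul_sum]
  symm
  refine Finset.sum_nbij' (fun b => e * b) (fun b => b / e) ?_ ?_ ?_ ?_ ?_
  · intro b hb
    rw [Finset.mem_Icc, Nat.le_div_iff_mul_le he0] at hb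
    rw [Finset.mem_filter, Finset.mem_Icc]
    refine ⟨⟨?_, by rw [mul_comm]; exact hb.2⟩, dvd_mul_right e b⟩
    exact Nat.mul_pos he0 hb.1
  · intro b hb
    rw [Finset.mem_filter, Finset.mem_Icc] at hb
    obtain ⟨⟨hb1, hb2⟩, c, rfl⟩ := hb
    rw [Nat.mul_div_cancel_left c he0, Finset.mem_Icc, Nat.le_div_iff_mul_le he0, mul_comm c e]
    refine ⟨?_, hb2⟩
    rcases Nat.eq_zero_or_pos c with h | h
    · rw [h, mul_zero] at hb1
      omega
    · exact h
  · intro b _
    exact Nat.mul_div_cancel_left b he0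
  · intro b hb
    rw [Finset.mem_filter] at hb
    exact Nat.mul_div_cancel' hb.2
  · intro b _
    rfl

end RV11
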