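import Pool.Agent.LibRV11.N12c
import Pool.Agent.LibRV11.N12d
import Pool.Agent.LibRV11.N11d

open Complex Real

namespace RV11

/-- one divisor `e` of `l` -/
private theorem N12e_one {C : ℝ} (hC : ∀ (q : ℕ) [NeZero q], Odd q → ∀ k l : ZMod q,
    ‖Kl q k l‖ ≤ C * (q : ℝ) ^ (77 / 100 : ℝ) * (gz q k : ℝ) ^ (1 / 4 : ℝ))
    (q M1 β e : ℕ) [NeZero q] (hq : Odd q) (hM1 : 1 ≤ M1) (he : 1 ≤ e)
    (hqM : Nat.Coprime q M1) (heq : Nat.Coprime e q) (k : ZMod q) (w : ℕ → ℂ) (V : ℝ)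
    (hw : BV w V) (T : ℕ) :
    ‖(∑ b ∈ (Finset.Icc 1 T).filter (fun b => e * b ≡ β [MOD M1] ∧ Nat.Coprime b q),
      w (e * b) * er q (k * ((e * b : ℕ) : ZMod q)⁻¹)) -
      (1 / q : ℂ) * Kl q k 0 * ∑ b ∈ (Finset.Icc 1 T).filter (fun b => e * b ≡ β [MOD M1]),
        w (e * b)‖ ≤
    C * (q : ℝ) ^ (77 / 100 : ℝ) * (gz q k : ℝ) ^ (1 / 4 : ℝ) * (1 + V) * (1 + Real.log q) := by
  classical
  have hq0 : q ≠ 0 := NeZero.ne q
  have hqpos : (0 : ℝ) < q := by exact_mod_cast Nat.pos_of_ne_zero hq0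
  have heu : IsUnit (e : ZMod q) := (ZMod.isUnit_iff_coprime e q).mpr heq
  obtain ⟨u, hu⟩ := heu
  have huinv : ((u⁻¹ : (ZMod q)ˣ) : ZMod q) = (e : ZMod q)⁻¹ := by
    rw [← hu]
    exact (ZMod.inv_coe_unit u).symm
  set k' : ZMod q := k * (e : ZMod q)⁻¹ with hk'
  have hKl0 : Kl q k' 0 = Kl q k 0 := by
    have := Kl_unit q u⁻¹ k 0
    rw [mul_zero, huinv] at this
    rw [hk', mul_comm]
    exact this
  have hgz : gz q k' = gz q k := by
    rw [hk', mul_comm]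
    apply gz_mul_unit q hq0
    rw [← huinv]
    exact (u⁻¹).isUnit
  set S : Finset ℕ := (Finset.Icc 1 T).filter (fun b => e * b ≡ β [MOD M1]) with hS
  have h1 : ∑ b ∈ (Finset.Icc 1 T).filter (fun b => e * b ≡ β [MOD M1] ∧ Nat.Coprime b q),
      w (e * b) * er q (k * ((e * b : ℕ) : ZMod q)⁻¹) =
      ∑ b ∈ S.filter (fun b => Nat.Coprime b q), w (e * b) * er q (k' * (b : ZMod q)⁻¹) := by
    rw [hS, Finset.filter_filter]
    refine Finset.sum_congr rfl fun b hb => ?_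
    have hbq : Nat.Coprime b q := (Finset.mem_filter.mp hb).2.2
    congr 2
    have hbu : IsUnit (b : ZMod q) := (ZMod.isUnit_iff_coprime b q).mpr hbq
    obtain ⟨v, hv⟩ := hbu
    rw [hk', Nat.cast_mul, ← hu, ← hv, ← Units.val_mul, ZMod.inv_coe_unit, ZMod.inv_coe_unit,
      ZMod.inv_coe_unit, mul_inv, Units.val_mul]
    ring
  rw [h1, complete q k' S (fun b => w (e * b))]
  rw [← Finset.add_sum_erase Finset.univ _ (Finset.mem_univ (0 : ZMod q))]
  have h2 : ∀ b : ℕ, er q (-((0 : ZMod q) * b)) = 1 := by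
    intro b
    rw [zero_mul, neg_zero, er_zero]
  simp only [h2, mul_one]
  rw [mul_add, hKl0, ← mul_assoc, add_sub_cancel_left, norm_mul]
  have h3 : ‖(1 / q : ℂ)‖ = 1 / q := by
    rw [norm_div, norm_one, Complex.norm_natCast]
  rw [h3]
  have h4 : ‖∑ h ∈ (Finset.univ : Finset (ZMod q)).erase 0,
      Kl q k' h * ∑ b ∈ S, w (e * b) * er q (-(h * b))‖ ≤
      C * (q : ℝ) ^ (77 / 100 : ℝ) * (gz q k : ℝ) ^ (1 / 4 : ℝ) *
        ((1 + V) * (q * (1 + Real.log q))) := by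
    calc ‖∑ h ∈ (Finset.univ : Finset (ZMod q)).erase 0,
          Kl q k' h * ∑ b ∈ S, w (e * b) * er q (-(h * b))‖
        ≤ ∑ h ∈ (Finset.univ : Finset (ZMod q)).erase 0,
          ‖Kl q k' h * ∑ b ∈ S, w (e * b) * er q (-(h * b))‖ := norm_sum_le _ _
      _ ≤ ∑ h ∈ (Finset.univ : Finset (ZMod q)).erase 0,
          (C * (q : ℝ) ^ (77 / 100 : ℝ) * (gz q k : ℝ) ^ (1 / 4 : ℝ)) *
            ‖∑ b ∈ S, w (e * b) * er q (-(h * b))‖ := by
          refine Finset.sum_le_sum fun h _ => ?_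
          rw [norm_mul]
          refine mul_le_mul_of_nonneg_right ?_ (norm_nonneg _)
          have := hC q hq k' h
          rwa [hgz] at this
      _ = (C * (q : ℝ) ^ (77 / 100 : ℝ) * (gz q k : ℝ) ^ (1 / 4 : ℝ)) *
            ∑ h ∈ (Finset.univ : Finset (ZMod q)).erase 0,
              ‖∑ b ∈ S, w (e * b) * er q (-(h * b))‖ := by rw [Finset.mul_sum]
      _ = (C * (q : ℝ) ^ (77 / 100 : ℝ) * (gz q k : ℝ) ^ (1 / 4 : ℝ)) *
            ∑ h ∈ (Finset.univ : Finset (ZMod q)).erase 0,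
              ‖∑ b ∈ S, w (e * b) * er q (h * b)‖ := by
          congr 1
          refine Finset.sum_bij' (fun h _ => -h) (fun h _ => -h) ?_ ?_ ?_ ?_ ?_
          · intro h hh
            exact Finset.mem_erase.mpr ⟨neg_ne_zero.mpr (Finset.mem_erase.mp hh).1,
              Finset.mem_univ _⟩
          · intro h hh
            exact Finset.mem_erase.mpr ⟨neg_ne_zero.mpr (Finset.mem_erase.mp hh).1,
              Finset.mem_univ _⟩
          · intro h _; exact neg_neg h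
          · intro h _; exact neg_neg h
          · intro h _
            simp only [neg_mul]
      _ ≤ (C * (q : ℝ) ^ (77 / 100 : ℝ) * (gz q k : ℝ) ^ (1 / 4 : ℝ)) *
            ((1 + V) * (q * (1 + Real.log q))) := by
          refine mul_le_mul_of_nonneg_left (ap_sum q M1 e β hM1 he hqM w V hw T) ?_
          have := hC q hq k 0
          exact (norm_nonneg _).trans this
  calc 1 / (q : ℝ) * ‖∑ h ∈ (Finset.univ : Finset (ZMod q)).erase 0,
        Kl q k' h * ∑ b ∈ S, w (e * b) * er q (-(h * b))‖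
      ≤ 1 / (q : ℝ) * (C * (q : ℝ) ^ (77 / 100 : ℝ) * (gz q k : ℝ) ^ (1 / 4 : ℝ) *
        ((1 + V) * (q * (1 + Real.log q)))) := by gcongr
    _ = C * (q : ℝ) ^ (77 / 100 : ℝ) * (gz q k : ℝ) ^ (1 / 4 : ℝ) * (1 + V) *
        (1 + Real.log q) := by
        field_simp

private theorem N12e_log (q : ℕ) (hq : 1 ≤ q) :
    (q : ℝ) ^ (77 / 100 : ℝ) * (1 + Real.log q) ≤ 35 * (q : ℝ) ^ (4 / 5 : ℝ) := by
  have hq1 : (1 : ℝ) ≤ q := by exact_mod_cast hq
  have hqpos : (0 : ℝ) < q := by linarith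
  have h1 : Real.log q ≤ (q : ℝ) ^ (3 / 100 : ℝ) / (3 / 100) :=
    Real.log_le_rpow_div hqpos.le (by norm_num)
  have h2 : 1 ≤ (q : ℝ) ^ (3 / 100 : ℝ) := Real.one_le_rpow hq1 (by norm_num)
  have h3 : 1 + Real.log q ≤ 35 * (q : ℝ) ^ (3 / 100 : ℝ) := by
    have : (q : ℝ) ^ (3 / 100 : ℝ) / (3 / 100) = (100 / 3) * (q : ℝ) ^ (3 / 100 : ℝ) := by ring
    rw [this] at h1
    linarith
  calc (q : ℝ) ^ (77 / 100 : ℝ) * (1 + Real.log q)
      ≤ (q : ℝ) ^ (77 / 100 : ℝ) * (35 * (q : ℝ) ^ (3 / 100 : ℝ)) := by gcongr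
    _ = 35 * ((q : ℝ) ^ (77 / 100 : ℝ) * (q : ℝ) ^ (3 / 100 : ℝ)) := by ring
    _ = 35 * (q : ℝ) ^ (4 / 5 : ℝ) := by
        rw [← Real.rpow_add hqpos]
        norm_num

/-- incomplete Kloosterman sums in progressions -/
theorem IK : ∃ C : ℝ, 1 ≤ C ∧ ∀ (q M1 l β : ℕ) [NeZero q], Odd q → 1 ≤ M1 → 1 ≤ l →
    Nat.Coprime q M1 → Nat.Coprime q l → ∀ (k : ZMod q) (w : ℕ → ℂ) (V : ℝ), BV w V → ∀ B : ℕ,
    ‖∑ b ∈ (Finset.Icc 1 B).filter (fun b => b ≡ β [MOD M1] ∧ Nat.Coprime b (l * q)),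
      w b * er q (k * (b : ZMod q)⁻¹)‖ ≤
    (gz q k : ℝ) / q *
      ((Finset.Icc 1 B).filter (fun b => b ≡ β [MOD M1] ∧ Nat.Coprime b l)).card +
    C * tau l * (1 + V) * (q : ℝ) ^ (4 / 5 : ℝ) * (gz q k : ℝ) ^ (1 / 4 : ℝ) := by
  classical
  obtain ⟨C, hC1, hC⟩ := Kl_bound
  refine ⟨C * 35, by linarith, ?_⟩
  intro q M1 l β _ hq hM1 hl hqM hql k w V hw B
  have hq0 : q ≠ 0 := NeZero.ne q
  have hq1 : 1 ≤ q := Nat.one_le_iff_ne_zero.mpr hq0
  have hqpos : (0 : ℝ) < q := by exact_mod_cast hq1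
  have hV : 0 ≤ V := hw.nonneg
  -- the two functions
  set z : ℕ → ℂ := fun b => if b ≡ β [MOD M1] ∧ Nat.Coprime b q then
    w b * er q (k * (b : ZMod q)⁻¹) else 0 with hz
  set z0 : ℕ → ℂ := fun b => if b ≡ β [MOD M1] then w b else 0 with hz0
  have h1 : ∑ b ∈ (Finset.Icc 1 B).filter (fun b => b ≡ β [MOD M1] ∧ Nat.Coprime b (l * q)),
      w b * er q (k * (b : ZMod q)⁻¹) =
      ∑ b ∈ (Finset.Icc 1 B).filter (fun b => Nat.Coprime b l), z b := by
    simp only [hz]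
    rw [← Finset.sum_filter, Finset.filter_filter]
    refine Finset.sum_congr (Finset.filter_congr fun b _ => ?_) fun b _ => rfl
    rw [Nat.coprime_mul_iff_right]
    tauto
  have h2 : ∑ b ∈ (Finset.Icc 1 B).filter (fun b => b ≡ β [MOD M1] ∧ Nat.Coprime b l), w b =
      ∑ b ∈ (Finset.Icc 1 B).filter (fun b => Nat.Coprime b l), z0 b := by
    simp only [hz0]
    rw [← Finset.sum_filter, Finset.filter_filter]
    refine Finset.sum_congr (Finset.filter_congr fun b _ => ?_) fun b _ => rfl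
    tauto
  have hmain : ‖(∑ b ∈ (Finset.Icc 1 B).filter
      (fun b => b ≡ β [MOD M1] ∧ Nat.Coprime b (l * q)), w b * er q (k * (b : ZMod q)⁻¹)) -
      (1 / q : ℂ) * Kl q k 0 *
        ∑ b ∈ (Finset.Icc 1 B).filter (fun b => b ≡ β [MOD M1] ∧ Nat.Coprime b l), w b‖ ≤
      tau l * (C * (q : ℝ) ^ (77 / 100 : ℝ) * (gz q k : ℝ) ^ (1 / 4 : ℝ) * (1 + V) *
        (1 + Real.log q)) := by
    rw [h1, h2, moebius_coprime l hl B z, moebius_coprime l hl B z0, Finset.mul_sum,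
      ← Finset.sum_sub_distrib]
    have hcard : tau l * (C * (q : ℝ) ^ (77 / 100 : ℝ) * (gz q k : ℝ) ^ (1 / 4 : ℝ) * (1 + V) *
        (1 + Real.log q)) = ∑ e ∈ l.divisors, (C * (q : ℝ) ^ (77 / 100 : ℝ) *
        (gz q k : ℝ) ^ (1 / 4 : ℝ) * (1 + V) * (1 + Real.log q)) := by
      rw [Finset.sum_const, nsmul_eq_mul]
      rfl
    rw [hcard]
    refine (norm_sum_le _ _).trans (Finset.sum_le_sum fun e he => ?_)
    have hel : e ∣ l := Nat.dvd_of_mem_divisors he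
    have he1 : 1 ≤ e := Nat.pos_of_mem_divisors he
    have heq : Nat.Coprime e q := (Nat.Coprime.coprime_dvd_right hel hql).symm
    have e1 : ∑ b ∈ Finset.Icc 1 (B / e), z (e * b) =
        ∑ b ∈ (Finset.Icc 1 (B / e)).filter (fun b => e * b ≡ β [MOD M1] ∧ Nat.Coprime b q),
          w (e * b) * er q (k * ((e * b : ℕ) : ZMod q)⁻¹) := by
      simp only [hz]
      rw [← Finset.sum_filter]
      refine Finset.sum_congr (Finset.filter_congr fun b _ => ?_) fun b _ => rfl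
      rw [Nat.coprime_mul_iff_left]
      tauto
    have e2 : ∑ b ∈ Finset.Icc 1 (B / e), z0 (e * b) =
        ∑ b ∈ (Finset.Icc 1 (B / e)).filter (fun b => e * b ≡ β [MOD M1]), w (e * b) := by
      simp only [hz0]
      rw [← Finset.sum_filter]
    rw [e1, e2]
    have e3 := N12e_one hC q M1 β e hq hM1 he1 hqM heq k w V hw (B / e)
    have e4 : ‖((ArithmeticFunction.moebius e : ℤ) : ℂ)‖ ≤ 1 := by
      rw [Complex.norm_intCast]
      have := ArithmeticFunction.abs_moebius_le_one (n := e)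
      exact_mod_cast this
    set A : ℂ := ∑ b ∈ (Finset.Icc 1 (B / e)).filter
      (fun b => e * b ≡ β [MOD M1] ∧ Nat.Coprime b q),
          w (e * b) * er q (k * ((e * b : ℕ) : ZMod q)⁻¹) with hA
    set D : ℂ := ∑ b ∈ (Finset.Icc 1 (B / e)).filter (fun b => e * b ≡ β [MOD M1]),
      w (e * b) with hD
    have e5 : (ArithmeticFunction.moebius e : ℂ) * A -
        (1 / q : ℂ) * Kl q k 0 * ((ArithmeticFunction.moebius e : ℂ) * D) =
        (ArithmeticFunction.moebius e : ℂ) * (A - (1 / q : ℂ) * Kl q k 0 * D) := by ring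
    rw [e5, norm_mul]
    calc ‖(ArithmeticFunction.moebius e : ℂ)‖ * ‖A - (1 / q : ℂ) * Kl q k 0 * D‖
        ≤ 1 * ‖A - (1 / q : ℂ) * Kl q k 0 * D‖ :=
          mul_le_mul_of_nonneg_right e4 (norm_nonneg _)
      _ = ‖A - (1 / q : ℂ) * Kl q k 0 * D‖ := one_mul _
      _ ≤ _ := e3
  have hzero : ‖(1 / q : ℂ) * Kl q k 0 *
        ∑ b ∈ (Finset.Icc 1 B).filter (fun b => b ≡ β [MOD M1] ∧ Nat.Coprime b l), w b‖ ≤
      (gz q k : ℝ) / q *
      ((Finset.Icc 1 B).filter (fun b => b ≡ β [MOD M1] ∧ Nat.Coprime b l)).card := by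
    rw [norm_mul, norm_mul]
    have h3 : ‖(1 / q : ℂ)‖ = 1 / q := by
      rw [norm_div, norm_one, Complex.norm_natCast]
    rw [h3]
    have h4 := Kl_zero_bound q k
    have h5 : ‖∑ b ∈ (Finset.Icc 1 B).filter (fun b => b ≡ β [MOD M1] ∧ Nat.Coprime b l), w b‖ ≤
        ((Finset.Icc 1 B).filter (fun b => b ≡ β [MOD M1] ∧ Nat.Coprime b l)).card := by
      refine (norm_sum_le _ _).trans ?_
      refine (Finset.sum_le_sum fun b _ => hw.bd b).trans ?_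
      rw [Finset.sum_const, nsmul_eq_mul, mul_one]
    calc 1 / (q : ℝ) * ‖Kl q k 0‖ *
          ‖∑ b ∈ (Finset.Icc 1 B).filter (fun b => b ≡ β [MOD M1] ∧ Nat.Coprime b l), w b‖
        ≤ 1 / (q : ℝ) * (gz q k : ℝ) *
          ((Finset.Icc 1 B).filter (fun b => b ≡ β [MOD M1] ∧ Nat.Coprime b l)).card := by
          gcongr
      _ = _ := by ring
  have hfin : tau l * (C * (q : ℝ) ^ (77 / 100 : ℝ) * (gz q k : ℝ) ^ (1 / 4 : ℝ) * (1 + V) *
        (1 + Real.log q)) ≤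
      C * 35 * tau l * (1 + V) * (q : ℝ) ^ (4 / 5 : ℝ) * (gz q k : ℝ) ^ (1 / 4 : ℝ) := by
    have h6 := N12e_log q hq1
    have h7 : 0 ≤ tau l := by unfold tau; positivity
    have h8 : 0 ≤ tau l * C * (gz q k : ℝ) ^ (1 / 4 : ℝ) * (1 + V) := by positivity
    calc tau l * (C * (q : ℝ) ^ (77 / 100 : ℝ) * (gz q k : ℝ) ^ (1 / 4 : ℝ) * (1 + V) *
          (1 + Real.log q))
        = tau l * C * (gz q k : ℝ) ^ (1 / 4 : ℝ) * (1 + V) *
          ((q : ℝ) ^ (77 / 100 : ℝ) * (1 + Real.log q)) := by ring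
      _ ≤ tau l * C * (gz q k : ℝ) ^ (1 / 4 : ℝ) * (1 + V) * (35 * (q : ℝ) ^ (4 / 5 : ℝ)) :=
          mul_le_mul_of_nonneg_left h6 h8
      _ = _ := by ring
  have htri := norm_sub_norm_le (∑ b ∈ (Finset.Icc 1 B).filter
      (fun b => b ≡ β [MOD M1] ∧ Nat.Coprime b (l * q)), w b * er q (k * (b : ZMod q)⁻¹))
      ((1 / q : ℂ) * Kl q k 0 *
        ∑ b ∈ (Finset.Icc 1 B).filter (fun b => b ≡ β [MOD M1] ∧ Nat.Coprime b l), w b)
  linarith

end RV11
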