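import Pool.Agent.LibRV11.N13b

open Complex Real

namespace RV11

/-- number of integers in a residue class in an interval -/
theorem N13c_class (A B r v : ℕ) (hr : 0 < r) (hAB : A ≤ B) :
    |(((Finset.Ico A B).filter (fun b => b ≡ v [MOD r])).card : ℝ) - ((B : ℝ) - A) / r| ≤ 1 := by
  have h := Nat.Ico_filter_modEq_card A B hr v
  have hr' : (0 : ℚ) < r := by exact_mod_cast hr
  have hle : ((A : ℚ) - v) / r ≤ ((B : ℚ) - v) / r := by
    apply div_le_div_of_nonneg_right _ hr'.le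
    have : (A : ℚ) ≤ B := by exact_mod_cast hAB
    linarith
  rw [max_eq_left (sub_nonneg.2 (Int.ceil_le_ceil hle))] at h
  have h1 := Int.le_ceil (((B : ℚ) - v) / r)
  have h2 := Int.ceil_lt_add_one (((B : ℚ) - v) / r)
  have h3 := Int.le_ceil (((A : ℚ) - v) / r)
  have h4 := Int.ceil_lt_add_one (((A : ℚ) - v) / r)
  have h5 : ((((Finset.Ico A B).filter (fun b => b ≡ v [MOD r])).card : ℚ)) =
      (⌈((B : ℚ) - v) / r⌉ : ℚ) - (⌈((A : ℚ) - v) / r⌉ : ℚ) := by
    exact_mod_cast h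
  have h6 : |(((Finset.Ico A B).filter (fun b => b ≡ v [MOD r])).card : ℚ) -
      ((B : ℚ) - A) / r| ≤ 1 := by
    have h7 : ((B : ℚ) - A) / r = ((B : ℚ) - v) / r - ((A : ℚ) - v) / r := by ring
    rw [h5, h7, abs_le]
    constructor <;> linarith
  have h8 : ((|(((Finset.Ico A B).filter (fun b => b ≡ v [MOD r])).card : ℚ) -
      ((B : ℚ) - A) / r| : ℚ) : ℝ) ≤ ((1 : ℚ) : ℝ) := by exact_mod_cast h6
  push_cast at h8
  exact h8

/-- number of multiples of `d` in a residue class modulo `g` in an interval -/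
theorem N13c_class_dvd (A B d g β : ℕ) (hd : 0 < d) (hg : 0 < g) (hdg : Nat.Coprime d g)
    (hAB : A ≤ B) :
    |(((Finset.Ico A B).filter (fun b => b ≡ β [MOD g] ∧ d ∣ b)).card : ℝ) -
      ((B : ℝ) - A) / ((d : ℝ) * g)| ≤ 1 := by
  obtain ⟨v, hv1, hv2⟩ := Nat.chineseRemainder hdg 0 β
  have h : (Finset.Ico A B).filter (fun b => b ≡ β [MOD g] ∧ d ∣ b) =
      (Finset.Ico A B).filter (fun b => b ≡ v [MOD (d * g)]) := by
    apply Finset.filter_congr
    intro b _
    rw [← Nat.modEq_and_modEq_iff_modEq_mul hdg]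
    constructor
    · rintro ⟨h1, h2⟩
      exact ⟨((Nat.modEq_zero_iff_dvd.2 h2).trans hv1.symm), h1.trans hv2.symm⟩
    · rintro ⟨h1, h2⟩
      exact ⟨h2.trans hv2, Nat.modEq_zero_iff_dvd.1 (h1.trans hv1)⟩
  rw [h]
  have := N13c_class A B (d * g) v (Nat.mul_pos hd hg) hAB
  push_cast at this
  exact this

/-- Moebius for the coprimality condition -/
theorem N13c_moebius (m b : ℕ) (hm : 0 < m) :
    (if Nat.Coprime b m then (1 : ℝ) else 0) =
      ∑ d ∈ m.divisors.filter (fun d => d ∣ b), (ArithmeticFunction.moebius d : ℝ) := by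
  have h1 : m.divisors.filter (fun d => d ∣ b) = (Nat.gcd b m).divisors := by
    ext d
    simp only [Finset.mem_filter, Nat.mem_divisors, Nat.dvd_gcd_iff]
    constructor
    · rintro ⟨⟨h1, _⟩, h3⟩
      exact ⟨⟨h3, h1⟩, (Nat.gcd_pos_of_pos_right b hm).ne'⟩
    · rintro ⟨⟨h1, h2⟩, _⟩
      exact ⟨⟨h2, hm.ne'⟩, h1⟩
  rw [h1]
  have h2 := congrArg (fun f : ArithmeticFunction ℤ => f (Nat.gcd b m))
    ArithmeticFunction.moebius_mul_coe_zeta
  simp only [ArithmeticFunction.coe_mul_zeta_apply, ArithmeticFunction.one_apply] at h2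
  have h3 := congrArg (fun z : ℤ => (z : ℝ)) h2
  simp only [Int.cast_sum] at h3
  rw [h3]
  simp [Nat.Coprime]

theorem N13c_totient (m : ℕ) (hm : 0 < m) :
    ∑ d ∈ m.divisors, (ArithmeticFunction.moebius d : ℝ) / d = (Nat.totient m : ℝ) / m := by
  have h1 : ∀ n : ℕ, n > 0 → ∑ i ∈ n.divisors, (Nat.totient i : ℝ) = (n : ℝ) := by
    intro n _
    exact_mod_cast Nat.sum_totient n
  have h2 := (ArithmeticFunction.sum_eq_iff_sum_mul_moebius_eq (R := ℝ)
    (f := fun i => (Nat.totient i : ℝ)) (g := fun n => (n : ℝ))).1 h1 m hm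
  rw [← h2, Finset.sum_div,
    Nat.sum_divisorsAntidiagonal (fun a b => (ArithmeticFunction.moebius a : ℝ) * (b : ℝ) / m)]
  apply Finset.sum_congr rfl
  intro d hd
  have hdm := Nat.dvd_of_mem_divisors hd
  have hd0 : (d : ℝ) ≠ 0 := by
    have := Nat.pos_of_mem_divisors hd
    exact_mod_cast this.ne'
  have hm0 : (m : ℝ) ≠ 0 := by exact_mod_cast hm.ne'
  rw [Nat.cast_div hdm hd0]
  field_simp

/-- the general count -/
theorem N13c_main (m g β A B : ℕ) (hm : 0 < m) (hg : 0 < g) (hgm : Nat.Coprime g m)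
    (hAB : A ≤ B) :
    |(((Finset.Ico A B).filter (fun b => b ≡ β [MOD g] ∧ Nat.Coprime b m)).card : ℝ) -
      (Nat.totient m : ℝ) / m * ((B : ℝ) - A) / g| ≤ m.divisors.card := by
  have h1 : (((Finset.Ico A B).filter (fun b => b ≡ β [MOD g] ∧ Nat.Coprime b m)).card : ℝ) =
      ∑ d ∈ m.divisors, (ArithmeticFunction.moebius d : ℝ) *
        (((Finset.Ico A B).filter (fun b => b ≡ β [MOD g] ∧ d ∣ b)).card : ℝ) := by
    have e1 : (((Finset.Ico A B).filter (fun b => b ≡ β [MOD g] ∧ Nat.Coprime b m)).card : ℝ) =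
        ∑ b ∈ (Finset.Ico A B).filter (fun b => b ≡ β [MOD g]),
          (if Nat.Coprime b m then (1 : ℝ) else 0) := by
      rw [← Finset.filter_filter, Finset.card_eq_sum_ones, Finset.sum_filter]
      push_cast
      rfl
    rw [e1, Finset.sum_congr rfl (fun b _ => N13c_moebius m b hm)]
    simp_rw [Finset.sum_filter (fun d => d ∣ _)]
    rw [Finset.sum_comm]
    apply Finset.sum_congr rfl
    intro d _
    rw [← Finset.filter_filter, Finset.card_eq_sum_ones, Finset.sum_filter (fun b => d ∣ b)]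
    push_cast
    rw [Finset.mul_sum]
    apply Finset.sum_congr rfl
    intro b _
    split_ifs <;> simp
  rw [h1]
  have h2 : (Nat.totient m : ℝ) / m * ((B : ℝ) - A) / g =
      ∑ d ∈ m.divisors, (ArithmeticFunction.moebius d : ℝ) * (((B : ℝ) - A) / ((d : ℝ) * g)) := by
    rw [← N13c_totient m hm, Finset.sum_mul, Finset.sum_div]
    apply Finset.sum_congr rfl
    intro d hd
    have hd0 : (d : ℝ) ≠ 0 := by
      have := Nat.pos_of_mem_divisors hd
      exact_mod_cast this.ne'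
    have hg0 : (g : ℝ) ≠ 0 := by exact_mod_cast hg.ne'
    field_simp
  rw [h2, ← Finset.sum_sub_distrib]
  refine (Finset.abs_sum_le_sum_abs _ _).trans ?_
  rw [Finset.card_eq_sum_ones]
  push_cast
  apply Finset.sum_le_sum
  intro d hd
  rw [← mul_sub, abs_mul]
  have hdp := Nat.pos_of_mem_divisors hd
  have hdm := Nat.dvd_of_mem_divisors hd
  have hc : Nat.Coprime d g := (Nat.Coprime.coprime_dvd_right hdm hgm).symm
  have h3 := N13c_class_dvd A B d g β hdp hg hc hAB
  have h4 : |(ArithmeticFunction.moebius d : ℝ)| ≤ 1 := by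
    have := ArithmeticFunction.abs_moebius_le_one (n := d)
    exact_mod_cast this
  calc _ ≤ 1 * 1 := mul_le_mul h4 h3 (abs_nonneg _) zero_le_one
    _ = 1 := one_mul 1

theorem N13c_Icc (B : ℕ) : Finset.Icc 1 B = Finset.Ico 1 (B + 1) := by
  ext x
  simp only [Finset.mem_Icc, Finset.mem_Ico]
  omega

theorem count_D (n g β B : ℕ) (hn : 1 ≤ n) (hg : 1 ≤ g) (hgn : Nat.Coprime g (2 * n)) :
    (((Finset.Icc 1 B).filter (fun b => b ≡ β [MOD g] ∧ Nat.Coprime b (2 * n))).card : ℝ) ≤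
      ff n * B / g + tau (2 * n) := by
  have h := N13c_main (2 * n) g β 1 (B + 1) (by omega) hg hgn (by omega)
  rw [← N13c_Icc] at h
  have h2 := (abs_le.1 h).2
  have e : ((B + 1 : ℕ) : ℝ) - ((1 : ℕ) : ℝ) = B := by push_cast; ring
  rw [e] at h2
  unfold ff tau
  linarith

theorem count_coprime (n B : ℕ) (hn : 1 ≤ n) :
    (((Finset.Icc 1 B).filter (fun b => Nat.Coprime b (2 * n))).card : ℝ) ≤
      ff n * B + tau (2 * n) := by
  have h := count_D n 1 0 B hn le_rfl (Nat.coprime_one_left _)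
  have e : (Finset.Icc 1 B).filter (fun b => b ≡ 0 [MOD 1] ∧ Nat.Coprime b (2 * n)) =
      (Finset.Icc 1 B).filter (fun b => Nat.Coprime b (2 * n)) := by
    apply Finset.filter_congr
    intro b _
    simp [Nat.modEq_one]
  rw [e] at h
  simpa using h

theorem count_coprime_lower (n A B : ℕ) (hn : 1 ≤ n) (hAB : A ≤ B) :
    ff n * ((B : ℝ) - A) - tau (2 * n) ≤
      (((Finset.Ico A B).filter (fun b => Nat.Coprime b (2 * n))).card : ℝ) := by
  have h := N13c_main (2 * n) 1 0 A B (by omega) one_pos (Nat.coprime_one_left _) hAB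
  have e : (Finset.Ico A B).filter (fun b => b ≡ 0 [MOD 1] ∧ Nat.Coprime b (2 * n)) =
      (Finset.Ico A B).filter (fun b => Nat.Coprime b (2 * n)) := by
    apply Finset.filter_congr
    intro b _
    simp [Nat.modEq_one]
  rw [e] at h
  have h2 := (abs_le.1 h).1
  rw [Nat.cast_one, div_one] at h2
  unfold ff tau
  linarith

end RV11
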