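import Pool.Agent.LibRV11.N12e
import Pool.Agent.LibRV11.N13c

open Complex Real

namespace RV11

theorem N12f_coprime {n c0 q : ℕ} (h0 : Sm n c0) (hq : Nat.Coprime q (2 * n)) :
    Nat.Coprime q (2 * c0) := by
  rw [Nat.coprime_mul_iff_right]
  constructor
  · exact (Nat.coprime_mul_iff_right.mp hq).1
  · apply Nat.Coprime.symm
    rw [Nat.coprime_iff_gcd_eq_one]
    by_contra hne
    obtain ⟨p, hp, hpd⟩ := Nat.exists_prime_and_dvd hne
    have h1 : p ∣ c0 := hpd.trans (Nat.gcd_dvd_left _ _)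
    have h2 : p ∣ q := hpd.trans (Nat.gcd_dvd_right _ _)
    have h3 := h0.2 p hp h1
    have h4 : p ∣ Nat.gcd q (2 * n) := Nat.dvd_gcd h2 h3
    rw [hq] at h4
    exact hp.one_lt.ne' (Nat.dvd_one.mp h4)

theorem N12f_tau {m : ℕ} (hm : 1 ≤ m) : 1 ≤ tau m := by
  rw [tau]
  have : 0 < m.divisors.card := Finset.card_pos.mpr ⟨1, Nat.one_mem_divisors.mpr (by omega)⟩
  exact_mod_cast this

theorem N12f_BV {w : ℕ → ℂ} {V : ℝ} (hw : BV w V) : 0 ≤ V := by
  have := hw.tv 0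
  simpa using this

theorem N12f_mod {M1 b : ℕ} (hM : 1 ≤ M1) (β : ℕ) (hβ : β ∈ Finset.range M1) :
    b % M1 = β ↔ b ≡ β [MOD M1] := by
  rw [Nat.ModEq, Nat.mod_eq_of_lt (Finset.mem_range.mp hβ)]

theorem N12f_gz (q : ℕ) [NeZero q] (k : ZMod q) : 1 ≤ gz q k ∧ gz q k ≤ q := by
  have hq : 0 < q := Nat.pos_of_ne_zero (NeZero.ne q)
  exact ⟨Nat.gcd_pos_of_pos_right _ hq, Nat.gcd_le_right _ hq⟩

/-- with a function of `b` modulo `2 c0` -/
theorem IK2 : ∃ C : ℝ, 1 ≤ C ∧ ∀ (n c0 q : ℕ) [NeZero q], 1 ≤ n → Sm n c0 →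
    Nat.Coprime q (2 * n) → ∀ (Γ : ZMod (2 * c0) → ℂ), (∀ v, ‖Γ v‖ ≤ 1) →
    ∀ (k : ZMod q) (w : ℕ → ℂ) (V : ℝ), BV w V → ∀ B : ℕ,
    ‖∑ b ∈ (Finset.Icc 1 B).filter (fun b => Nat.Coprime b (2 * n * q)),
      Γ (b : ZMod (2 * c0)) * w b * er q (k * (b : ZMod q)⁻¹)‖ ≤
    (gz q k : ℝ) / q * (ff n * B) +
    C * c0 * tau (2 * n) * (1 + V) * (q : ℝ) ^ (4 / 5 : ℝ) * (gz q k : ℝ) ^ (1 / 4 : ℝ) := by
  classical
  obtain ⟨C, hC1, hC⟩ := IK
  refine ⟨2 * C + 1, by linarith, ?_⟩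
  intro n c0 q _ hn h0 hq Γ hΓ k w V hw B
  have hc0 : 1 ≤ c0 := Nat.one_le_iff_ne_zero.mpr h0.1
  have hqpos : 0 < q := Nat.pos_of_ne_zero (NeZero.ne q)
  have hqR : (0 : ℝ) < q := by exact_mod_cast hqpos
  have hq1 : (1 : ℝ) ≤ q := by exact_mod_cast hqpos
  have hM : 1 ≤ 2 * c0 := by omega
  have hcop := N12f_coprime h0 hq
  have hodd : Odd q := by
    have h2 : Nat.Coprime q 2 := (Nat.coprime_mul_iff_right.mp hq).1
    rw [← Nat.not_even_iff_odd]
    intro he
    have : 2 ∣ Nat.gcd q 2 := Nat.dvd_gcd he.two_dvd (dvd_refl 2)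
    rw [h2] at this
    omega
  obtain ⟨hg1, hgq⟩ := N12f_gz q k
  have hg1R : (1 : ℝ) ≤ gz q k := by exact_mod_cast hg1
  have hgqR : (gz q k : ℝ) ≤ q := by exact_mod_cast hgq
  have hV := N12f_BV hw
  have hτ : 1 ≤ tau (2 * n) := N12f_tau (by omega)
  set E : ℝ := tau (2 * n) * (1 + V) * (q : ℝ) ^ (4 / 5 : ℝ) * (gz q k : ℝ) ^ (1 / 4 : ℝ) with hE
  have hq45 : 1 ≤ (q : ℝ) ^ (4 / 5 : ℝ) := Real.one_le_rpow hq1 (by norm_num)
  have hg14 : 1 ≤ (gz q k : ℝ) ^ (1 / 4 : ℝ) := Real.one_le_rpow hg1R (by norm_num)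
  -- the residue classes
  set S := (Finset.Icc 1 B).filter (fun b => Nat.Coprime b (2 * n * q)) with hS
  set f : ℕ → ℂ := fun b => Γ (b : ZMod (2 * c0)) * w b * er q (k * (b : ZMod q)⁻¹) with hf
  have hmaps : ∀ b ∈ S, b % (2 * c0) ∈ Finset.range (2 * c0) := fun b _ =>
    Finset.mem_range.mpr (Nat.mod_lt _ (by omega))
  have hsplit : ∑ b ∈ S, f b = ∑ β ∈ Finset.range (2 * c0),
      Γ (β : ZMod (2 * c0)) * ∑ b ∈ (Finset.Icc 1 B).filter
        (fun b => b ≡ β [MOD (2 * c0)] ∧ Nat.Coprime b (2 * n * q)),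
        w b * er q (k * (b : ZMod q)⁻¹) := by
    rw [← Finset.sum_fiberwise_of_maps_to hmaps]
    apply Finset.sum_congr rfl
    intro β hβ
    rw [Finset.mul_sum]
    have hfil : S.filter (fun b => b % (2 * c0) = β) = (Finset.Icc 1 B).filter
        (fun b => b ≡ β [MOD (2 * c0)] ∧ Nat.Coprime b (2 * n * q)) := by
      ext b
      simp only [hS, Finset.mem_filter, N12f_mod hM β hβ]
      tauto
    rw [hfil]
    apply Finset.sum_congr rfl
    intro b hb
    have hb' := (Finset.mem_filter.mp hb).2.1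
    have : (b : ZMod (2 * c0)) = (β : ZMod (2 * c0)) :=
      (ZMod.natCast_eq_natCast_iff b β (2 * c0)).mpr hb'
    simp only [hf]
    rw [this, mul_assoc]
  have hcount : ∑ β ∈ Finset.range (2 * c0),
      (((Finset.Icc 1 B).filter
        (fun b => b ≡ β [MOD (2 * c0)] ∧ Nat.Coprime b (2 * n))).card : ℝ) =
      (((Finset.Icc 1 B).filter (fun b => Nat.Coprime b (2 * n))).card : ℝ) := by
    have h1 := Finset.card_eq_sum_card_fiberwise
      (s := (Finset.Icc 1 B).filter (fun b => Nat.Coprime b (2 * n)))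
      (t := Finset.range (2 * c0)) (f := fun b => b % (2 * c0))
      (fun b _ => Finset.mem_coe.mpr (Finset.mem_range.mpr (Nat.mod_lt _ (by omega))))
    rw [h1]
    push_cast
    apply Finset.sum_congr rfl
    intro β hβ
    congr 2
    ext b
    simp only [Finset.mem_filter, N12f_mod hM β hβ]
    tauto
  have hcc := count_coprime n B hn
  calc ‖∑ b ∈ S, f b‖
      ≤ ∑ β ∈ Finset.range (2 * c0), ‖Γ (β : ZMod (2 * c0)) * ∑ b ∈ (Finset.Icc 1 B).filter
        (fun b => b ≡ β [MOD (2 * c0)] ∧ Nat.Coprime b (2 * n * q)),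
        w b * er q (k * (b : ZMod q)⁻¹)‖ := by
        rw [hsplit]; exact norm_sum_le _ _
    _ ≤ ∑ β ∈ Finset.range (2 * c0), ((gz q k : ℝ) / q *
      (((Finset.Icc 1 B).filter
        (fun b => b ≡ β [MOD (2 * c0)] ∧ Nat.Coprime b (2 * n))).card : ℝ) + C * E) := by
        apply Finset.sum_le_sum
        intro β _
        rw [norm_mul]
        have h1 := hC q (2 * c0) (2 * n) β hodd hM (by omega) hcop hq k w V hw B
        have h2 : C * tau (2 * n) * (1 + V) * (q : ℝ) ^ (4 / 5 : ℝ) *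
          (gz q k : ℝ) ^ (1 / 4 : ℝ) = C * E := by rw [hE]; ring
        rw [h2] at h1
        calc _ ≤ 1 * _ := mul_le_mul_of_nonneg_right (hΓ _) (norm_nonneg _)
          _ ≤ _ := by rw [one_mul]; exact h1
    _ = (gz q k : ℝ) / q * (((Finset.Icc 1 B).filter (fun b => Nat.Coprime b (2 * n))).card : ℝ) +
        2 * c0 * (C * E) := by
        rw [Finset.sum_add_distrib, ← Finset.mul_sum, hcount, Finset.sum_const, Finset.card_range,
          nsmul_eq_mul]
        push_cast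
        ring
    _ ≤ (gz q k : ℝ) / q * (ff n * B + tau (2 * n)) + 2 * c0 * (C * E) := by
        have : (0 : ℝ) ≤ (gz q k : ℝ) / q := by positivity
        gcongr
    _ ≤ (gz q k : ℝ) / q * (ff n * B) + (2 * C + 1) * c0 * E := by
        have h1 : (gz q k : ℝ) / q * tau (2 * n) ≤ c0 * E := by
          have h2 : (gz q k : ℝ) / q ≤ 1 := by
            rw [div_le_one hqR]; exact hgqR
          have h3 : tau (2 * n) ≤ E := by
            rw [hE]
            have h4 : 1 ≤ (1 + V) * (q : ℝ) ^ (4 / 5 : ℝ) * (gz q k : ℝ) ^ (1 / 4 : ℝ) := by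
              have h5 : 1 ≤ (1 + V) * (q : ℝ) ^ (4 / 5 : ℝ) := by nlinarith
              nlinarith
            calc tau (2 * n) = tau (2 * n) * 1 := (mul_one _).symm
              _ ≤ tau (2 * n) * ((1 + V) * (q : ℝ) ^ (4 / 5 : ℝ) *
                (gz q k : ℝ) ^ (1 / 4 : ℝ)) := by
                apply mul_le_mul_of_nonneg_left h4
                linarith
              _ = _ := by ring
          have hc0R : (1 : ℝ) ≤ c0 := by exact_mod_cast hc0
          have hE0 : 0 ≤ E := by linarith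
          calc (gz q k : ℝ) / q * tau (2 * n) ≤ 1 * tau (2 * n) := by
                apply mul_le_mul_of_nonneg_right h2
                linarith
            _ ≤ 1 * E := by linarith
            _ ≤ c0 * E := mul_le_mul_of_nonneg_right hc0R hE0
        nlinarith
    _ = _ := by rw [hE]; ring

end RV11
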