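import Pool.Agent.LibRV11.N13c

open Complex Real

namespace RV11

private theorem n13d_sg_le {m Z : ℕ} (hm : m ≤ Z) :
    sg m ≤ ∑ d ∈ m.divisors, (Z : ℝ) / d := by
  unfold sg
  rw [← Nat.sum_div_divisors m (fun d => (d : ℝ))]
  refine Finset.sum_le_sum fun d hd => ?_
  have hdvd := Nat.dvd_of_mem_divisors hd
  have hd0 : (0 : ℝ) < d := by
    have : 0 < d := Nat.pos_of_mem_divisors hd
    exact_mod_cast this
  rw [Nat.cast_div hdvd hd0.ne']
  exact div_le_div_of_nonneg_right (by exact_mod_cast hm) hd0.le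

private theorem n13d_card {n g ρ Z e : ℕ} (hn : 1 ≤ n) (hg : 1 ≤ g)
    (hgn : Nat.Coprime g (2 * n)) (hρ : Nat.Coprime ρ g) (he : 1 ≤ e) :
    ((((Finset.Icc 1 Z).filter (fun m => m ≡ ρ [MOD g] ∧ Nat.Coprime m (2 * n))).filter
      (fun m => e ∣ m)).card : ℝ) ≤ ff n * Z / (e * g) + tau (2 * n) := by
  have hff := (ff_pos n hn).le
  have htau : 0 ≤ tau (2 * n) := by unfold tau; positivity
  set A := ((Finset.Icc 1 Z).filter (fun m => m ≡ ρ [MOD g] ∧ Nat.Coprime m (2 * n))).filter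
      (fun m => e ∣ m) with hA
  rcases A.eq_empty_or_nonempty with hemp | ⟨y, hy⟩
  · rw [hemp, Finset.card_empty, Nat.cast_zero]
    positivity
  have hmem : ∀ m ∈ A, 1 ≤ m ∧ m ≤ Z ∧ m ≡ ρ [MOD g] ∧ Nat.Coprime m (2 * n) ∧ e ∣ m := by
    intro m hm
    obtain ⟨h1, h2⟩ := Finset.mem_filter.1 hm
    obtain ⟨h3, h4, h5⟩ := Finset.mem_filter.1 h1
    obtain ⟨h6, h7⟩ := Finset.mem_Icc.1 h3
    exact ⟨h6, h7, h4, h5, h2⟩
  obtain ⟨y1, y2, y3, y4, y5⟩ := hmem y hy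
  -- `e` is coprime to `g`
  have hyg : Nat.Coprime y g := by
    have h1 : Nat.gcd y g = Nat.gcd ρ g := Nat.ModEq.gcd_eq y3
    rw [Nat.coprime_iff_gcd_eq_one, h1]
    exact hρ
  have heg : Nat.Coprime e g := Nat.Coprime.coprime_dvd_left y5 hyg
  have hsub : A.card ≤ ((Finset.Icc 1 (Z / e)).filter
      (fun b => b ≡ y / e [MOD g] ∧ Nat.Coprime b (2 * n))).card := by
    refine Finset.card_le_card_of_injOn (fun m => m / e) ?_ ?_
    · intro m hm
      obtain ⟨m1, m2, m3, m4, m5⟩ := hmem m hm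
      obtain ⟨k, hk⟩ := m5
      obtain ⟨l, hl⟩ := y5
      have hmk : m / e = k := by rw [hk]; exact Nat.mul_div_cancel_left k he
      have hyl : y / e = l := by rw [hl]; exact Nat.mul_div_cancel_left l he
      simp only [Finset.coe_filter, Set.mem_ofPred_eq, Finset.mem_Icc]
      rw [hmk, hyl]
      have hk0 : 1 ≤ k := by
        rcases Nat.eq_zero_or_pos k with h0 | h0
        · rw [h0, mul_zero] at hk; omega
        · exact h0
      refine ⟨⟨hk0, ?_⟩, ?_, ?_⟩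
      · rw [Nat.le_div_iff_mul_le he]
        rw [hk] at m2
        linarith [mul_comm e k]
      · have h1 : e * k ≡ e * l [MOD g] := by
          rw [← hk, ← hl]
          exact m3.trans y3.symm
        exact Nat.ModEq.cancel_left_of_coprime (by
          rw [Nat.gcd_comm]
          exact heg) h1
      · exact Nat.Coprime.coprime_dvd_left ⟨e, by rw [hk]; ring⟩ m4
    · intro a ha b hb hab
      obtain ⟨_, _, _, _, a5⟩ := hmem a ha
      obtain ⟨_, _, _, _, b5⟩ := hmem b hb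
      have h1 : a / e = b / e := hab
      rw [← Nat.div_mul_cancel a5, ← Nat.div_mul_cancel b5, h1]
  have h2 := count_D n g (y / e) (Z / e) hn hg hgn
  have h3 : (A.card : ℝ) ≤ (((Finset.Icc 1 (Z / e)).filter
      (fun b => b ≡ y / e [MOD g] ∧ Nat.Coprime b (2 * n))).card : ℝ) := by exact_mod_cast hsub
  refine le_trans h3 (le_trans h2 ?_)
  have hg0 : (0 : ℝ) < g := by exact_mod_cast hg
  have he0 : (0 : ℝ) < e := by exact_mod_cast he
  have h4 : ((Z / e : ℕ) : ℝ) ≤ (Z : ℝ) / e := Nat.cast_div_le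
  have h5 : ff n * ((Z / e : ℕ) : ℝ) / g ≤ ff n * Z / (e * g) := by
    have h6 : ff n * Z / (e * g) = ff n * ((Z : ℝ) / e) / g := by
      field_simp
    rw [h6]
    exact div_le_div_of_nonneg_right (mul_le_mul_of_nonneg_left h4 hff) hg0.le
  linarith

private theorem n13d_sum_sq (Z : ℕ) : ∑ e ∈ Finset.Icc 1 Z, 1 / ((e : ℝ) * e) ≤ 2 := by
  have h : ∀ Z : ℕ, ∑ e ∈ Finset.Icc 1 (Z + 1), 1 / ((e : ℝ) * e) ≤ 2 - 1 / ((Z : ℝ) + 1) := by
    intro Z
    induction Z with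
    | zero => norm_num
    | succ Z ih =>
      rw [Finset.sum_Icc_succ_top (by omega)]
      have h0 : (0 : ℝ) ≤ Z := Nat.cast_nonneg Z
      have h1 : 1 / (((Z + 1 + 1 : ℕ) : ℝ) * ((Z + 1 + 1 : ℕ) : ℝ)) ≤
          1 / ((Z : ℝ) + 1) - 1 / (((Z + 1 : ℕ) : ℝ) + 1) := by
        push_cast
        rw [div_sub_div _ _ (by positivity) (by positivity), div_le_div_iff₀ (by positivity)
          (by positivity)]
        nlinarith
      linarith
  rcases Nat.eq_zero_or_pos Z with hZ | hZ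
  · subst hZ
    simp
  · obtain ⟨k, rfl⟩ : ∃ k, Z = k + 1 := ⟨Z - 1, by omega⟩
    refine le_trans (h k) ?_
    have : 0 < 1 / ((k : ℝ) + 1) := by positivity
    linarith

private theorem n13d_harm (Z : ℕ) : ∑ e ∈ Finset.Icc 1 Z, 1 / (e : ℝ) ≤ 1 + Real.log Z := by
  have h1 := harmonic_le_one_add_log Z
  rw [harmonic_eq_sum_Icc] at h1
  push_cast at h1
  simpa only [one_div] using h1

theorem sum_S : ∃ C : ℝ, 1 ≤ C ∧ ∀ n g ρ Z : ℕ, 1 ≤ n → 1 ≤ g → 1 ≤ Z →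
    Nat.Coprime g (2 * n) → Nat.Coprime ρ g →
    ∑ m ∈ (Finset.Icc 1 Z).filter (fun m => m ≡ ρ [MOD g] ∧ Nat.Coprime m (2 * n)), sg m ≤
      C * (ff n * (Z : ℝ) ^ 2 / g + Z * (1 + Real.log Z) * tau (2 * n)) := by
  refine ⟨2, by norm_num, fun n g ρ Z hn hg hZ hgn hρ => ?_⟩
  set S := (Finset.Icc 1 Z).filter (fun m => m ≡ ρ [MOD g] ∧ Nat.Coprime m (2 * n)) with hS
  have hZ0 : (0 : ℝ) < Z := by exact_mod_cast hZ
  have hg0 : (0 : ℝ) < g := by exact_mod_cast hg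
  have hff := (ff_pos n hn).le
  have htau : 0 ≤ tau (2 * n) := by unfold tau; positivity
  have hlog : 0 ≤ Real.log Z := Real.log_nonneg (by exact_mod_cast hZ)
  have h1 : ∑ m ∈ S, sg m ≤ ∑ m ∈ S, ∑ d ∈ Finset.Icc 1 Z, if d ∣ m then (Z : ℝ) / d else 0 := by
    refine Finset.sum_le_sum fun m hm => ?_
    have hm' := Finset.mem_Icc.1 (Finset.mem_filter.1 hm).1
    refine le_trans (n13d_sg_le hm'.2) ?_
    rw [← Finset.sum_filter]
    refine Finset.sum_le_sum_of_subset_of_nonneg ?_ fun d _ _ => by positivity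
    intro d hd
    rw [Finset.mem_filter, Finset.mem_Icc]
    exact ⟨⟨Nat.pos_of_mem_divisors hd, le_trans (Nat.divisor_le hd) hm'.2⟩,
      Nat.dvd_of_mem_divisors hd⟩
  refine le_trans h1 ?_
  rw [Finset.sum_comm]
  have h2 : ∀ d ∈ Finset.Icc 1 Z, (∑ m ∈ S, if d ∣ m then (Z : ℝ) / d else 0) ≤
      ff n * Z ^ 2 / g * (1 / ((d : ℝ) * d)) + Z * tau (2 * n) * (1 / (d : ℝ)) := by
    intro d hd
    have hd1 := (Finset.mem_Icc.1 hd).1
    have hd0 : (0 : ℝ) < d := by exact_mod_cast hd1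
    rw [← Finset.sum_filter, Finset.sum_const, nsmul_eq_mul]
    have h3 := n13d_card (Z := Z) hn hg hgn hρ hd1
    refine le_trans (mul_le_mul_of_nonneg_right h3 (by positivity)) (le_of_eq ?_)
    field_simp
  refine le_trans (Finset.sum_le_sum h2) ?_
  rw [Finset.sum_add_distrib, ← Finset.mul_sum, ← Finset.mul_sum]
  have h3 : ff n * (Z : ℝ) ^ 2 / g * ∑ d ∈ Finset.Icc 1 Z, 1 / ((d : ℝ) * d) ≤
      ff n * (Z : ℝ) ^ 2 / g * 2 := mul_le_mul_of_nonneg_left (n13d_sum_sq Z) (by positivity)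
  have h4 : Z * tau (2 * n) * ∑ d ∈ Finset.Icc 1 Z, 1 / (d : ℝ) ≤
      Z * tau (2 * n) * (1 + Real.log Z) :=
    mul_le_mul_of_nonneg_left (n13d_harm Z) (by positivity)
  have h5 : 0 ≤ Z * tau (2 * n) * (1 + Real.log Z) := by positivity
  linarith

end RV11
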