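import Pool.Agent.LibRV11.N13b
import Pool.Agent.LibRV11.N13a

open Complex Real

namespace RV11

/-- the odd part is squarefull -/
private def n13e_full (c : ℕ) : Prop := ∀ p, p.Prime → p ≠ 2 → p ∣ c → p ^ 2 ∣ c

open Classical in
private noncomputable def n13e_f (s : ℝ) (c : ℕ) : ℝ :=
  if n13e_full c then (c : ℝ) ^ (-s) else 0

private theorem n13e_one (s : ℝ) : n13e_f s 1 = 1 := by
  unfold n13e_f
  rw [if_pos]
  · simp
  · intro p hp _ h1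
    exact absurd (Nat.dvd_one.1 h1) hp.one_lt.ne'

private theorem n13e_full_mul {m n : ℕ} (h : Nat.Coprime m n) :
    n13e_full (m * n) ↔ n13e_full m ∧ n13e_full n := by
  constructor
  · intro hf
    refine ⟨fun p hp h2 hd => ?_, fun p hp h2 hd => ?_⟩
    · have h1 := hf p hp h2 (dvd_mul_of_dvd_left hd n)
      have h3 : Nat.Coprime (p ^ 2) n :=
        Nat.Coprime.pow_left 2 (Nat.Coprime.coprime_dvd_left hd h)
      exact h3.dvd_of_dvd_mul_right h1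
    · have h1 := hf p hp h2 (dvd_mul_of_dvd_right hd m)
      have h3 : Nat.Coprime (p ^ 2) m :=
        Nat.Coprime.pow_left 2 (Nat.Coprime.coprime_dvd_left hd h.symm)
      exact h3.dvd_of_dvd_mul_left h1
  · rintro ⟨hm, hn⟩ p hp h2 hd
    rcases (Nat.Prime.dvd_mul hp).1 hd with h1 | h1
    · exact dvd_mul_of_dvd_left (hm p hp h2 h1) n
    · exact dvd_mul_of_dvd_right (hn p hp h2 h1) m

private theorem n13e_mul (s : ℝ) {m n : ℕ} (h : Nat.Coprime m n) :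
    n13e_f s (m * n) = n13e_f s m * n13e_f s n := by
  unfold n13e_f
  by_cases h1 : n13e_full m
  · by_cases h2 : n13e_full n
    · rw [if_pos ((n13e_full_mul h).2 ⟨h1, h2⟩), if_pos h1, if_pos h2]
      push_cast
      exact Real.mul_rpow (Nat.cast_nonneg m) (Nat.cast_nonneg n)
    · rw [if_neg (fun h3 => h2 ((n13e_full_mul h).1 h3).2), if_neg h2, mul_zero]
  · rw [if_neg (fun h3 => h1 ((n13e_full_mul h).1 h3).1), if_neg h1, zero_mul]

private theorem n13e_nonneg (s : ℝ) (c : ℕ) : 0 ≤ n13e_f s c := by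
  unfold n13e_f
  split_ifs
  · positivity
  · exact le_rfl

/-- values at prime powers -/
private theorem n13e_pp (s : ℝ) {p : ℕ} (hp : p.Prime) (k : ℕ) :
    n13e_f s (p ^ k) = ((p : ℝ) ^ (-s)) ^ k - (if k = 1 ∧ p ≠ 2 then (p : ℝ) ^ (-s) else 0) := by
  have hp0 : (0 : ℝ) ≤ p := Nat.cast_nonneg p
  have hval : (((p ^ k : ℕ) : ℝ)) ^ (-s) = ((p : ℝ) ^ (-s)) ^ k := by
    push_cast
    rw [← Real.rpow_natCast, ← Real.rpow_natCast, ← Real.rpow_mul hp0, ← Real.rpow_mul hp0,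
      mul_comm]
  unfold n13e_f
  by_cases hk : k = 1 ∧ p ≠ 2
  · rw [if_pos hk, if_neg]
    · rw [hk.1, pow_one, sub_self]
    · intro hf
      have h1 := hf p hp hk.2 (by rw [hk.1, pow_one])
      rw [hk.1, pow_one] at h1
      have h2 := Nat.le_of_dvd hp.pos h1
      have h3 := hp.one_lt
      nlinarith
  · rw [if_neg hk, sub_zero, if_pos, hval]
    intro r hr hr2 hd
    have h1 : r ∣ p := hr.dvd_of_dvd_pow hd
    have h2 : r = p := (Nat.prime_dvd_prime_iff_eq hr hp).1 h1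
    subst h2
    have hk0 : k ≠ 0 := by
      rintro rfl
      rw [pow_zero] at hd
      exact hr.one_lt.ne' (Nat.dvd_one.1 hd)
    have hk1 : k ≠ 1 := fun h => hk ⟨h, hr2⟩
    exact pow_dvd_pow r (by omega)

private theorem n13e_x {s : ℝ} (hs : 0 < s) {p : ℕ} (hp : p.Prime) :
    0 < (p : ℝ) ^ (-s) ∧ (p : ℝ) ^ (-s) < 1 := by
  have hp0 : (0 : ℝ) < p := by exact_mod_cast hp.pos
  refine ⟨Real.rpow_pos_of_pos hp0 _, ?_⟩
  exact Real.rpow_lt_one_of_one_lt_of_neg (by exact_mod_cast hp.one_lt) (by linarith)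

private theorem n13e_hasSum {s : ℝ} (hs : 0 < s) {p : ℕ} (hp : p.Prime) :
    HasSum (fun k : ℕ => n13e_f s (p ^ k))
      ((1 - (p : ℝ) ^ (-s))⁻¹ - (if p ≠ 2 then (p : ℝ) ^ (-s) else 0)) := by
  obtain ⟨hx0, hx1⟩ := n13e_x hs hp
  have h1 := hasSum_geometric_of_lt_one hx0.le hx1
  have h2 : HasSum (fun k : ℕ => if k = 1 ∧ p ≠ 2 then (p : ℝ) ^ (-s) else 0)
      (if p ≠ 2 then (p : ℝ) ^ (-s) else 0) := by
    by_cases h : p ≠ 2
    · simp only [h, and_true, ne_eq, not_false_eq_true, if_true]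
      exact hasSum_ite_eq 1 _
    · simp only [h, and_false, if_false]
      exact hasSum_zero
  have h3 := h1.sub h2
  have h4 : (fun k : ℕ => n13e_f s (p ^ k)) = fun k : ℕ => ((p : ℝ) ^ (-s)) ^ k -
      (if k = 1 ∧ p ≠ 2 then (p : ℝ) ^ (-s) else 0) := funext (n13e_pp s hp)
  rw [h4]
  exact h3

private theorem n13e_le_prod {s : ℝ} (hs : 0 < s) (n : ℕ) (A : Finset ℕ)
    (hA : ∀ c ∈ A, Sf n c) (hn : 1 ≤ n) :
    ∑ c ∈ A, (c : ℝ) ^ (-s) ≤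
      ∏ p ∈ (2 * n).primeFactors, ((1 - (p : ℝ) ^ (-s))⁻¹ - (if p ≠ 2 then (p : ℝ) ^ (-s) else 0)) := by
  have hsum : ∀ {p : ℕ}, p.Prime → Summable (fun k : ℕ => ‖n13e_f s (p ^ k)‖) := fun hp =>
    (n13e_hasSum hs hp).summable.norm
  have h1 := (EulerProduct.summable_and_hasSum_factoredNumbers_prod_filter_prime_tsum
    (n13e_one s) (fun h => n13e_mul s h) hsum (2 * n).primeFactors).2
  have h2 : ∏ p ∈ (2 * n).primeFactors with p.Prime, ∑' k : ℕ, n13e_f s (p ^ k) =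
      ∏ p ∈ (2 * n).primeFactors,
        ((1 - (p : ℝ) ^ (-s))⁻¹ - (if p ≠ 2 then (p : ℝ) ^ (-s) else 0)) := by
    rw [Finset.filter_true_of_mem (fun p hp => Nat.prime_of_mem_primeFactors hp)]
    exact Finset.prod_congr rfl fun p hp =>
      (n13e_hasSum hs (Nat.prime_of_mem_primeFactors hp)).tsum_eq
  rw [h2] at h1
  have h3 : HasSum ((Nat.factoredNumbers (2 * n).primeFactors : Set ℕ).indicator (n13e_f s)) _ :=
    (hasSum_subtype_iff_indicator).1 h1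
  have h4 := sum_le_hasSum A (fun c _ => Set.indicator_nonneg (fun c _ => n13e_nonneg s c) c) h3
  refine le_trans (le_of_eq (Finset.sum_congr rfl fun c hc => ?_)) h4
  obtain ⟨⟨hc0, hc1⟩, hc2⟩ := hA c hc
  have hmem : c ∈ Nat.factoredNumbers (2 * n).primeFactors := by
    rw [Nat.mem_factoredNumbers]
    refine ⟨hc0, fun p hp => ?_⟩
    rw [Nat.mem_primeFactors]
    exact ⟨Nat.prime_of_mem_primeFactorsList hp, hc1 p (Nat.prime_of_mem_primeFactorsList hp)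
      (Nat.dvd_of_mem_primeFactorsList hp), by omega⟩
  rw [Set.indicator_of_mem hmem]
  have hc2' : n13e_full c := hc2
  unfold n13e_f
  rw [if_pos hc2']

private theorem n13e_sqrt (c : ℕ) : 1 / Real.sqrt c = (c : ℝ) ^ (-(1 / 2 : ℝ)) := by
  rw [Real.sqrt_eq_rpow, Real.rpow_neg (Nat.cast_nonneg c), one_div]

/-- one factor, exponent `1/2` -/
private theorem n13e_factor {p : ℕ} (hp : p.Prime) :
    (1 - (p : ℝ) ^ (-(1 / 2 : ℝ)))⁻¹ - (if p ≠ 2 then (p : ℝ) ^ (-(1 / 2 : ℝ)) else 0) ≤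
      (1 - (p : ℝ)⁻¹)⁻¹ * ((1 + 1 / (p : ℝ) ^ (3 / 2 : ℝ)) * (if p = 2 then 2 else 1)) := by
  have hp0 : (0 : ℝ) < p := by exact_mod_cast hp.pos
  have hp1 : (1 : ℝ) < p := by exact_mod_cast hp.one_lt
  obtain ⟨hx0, hx1⟩ := n13e_x (s := 1 / 2) (by norm_num) hp
  set x : ℝ := (p : ℝ) ^ (-(1 / 2 : ℝ)) with hx
  have hx2 : x ^ 2 = (p : ℝ)⁻¹ := by
    rw [hx, ← Real.rpow_natCast, ← Real.rpow_mul hp0.le]
    norm_num
    exact Real.rpow_neg_one _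
  have hx3 : 1 / (p : ℝ) ^ (3 / 2 : ℝ) = x ^ 3 := by
    rw [hx, ← Real.rpow_natCast, ← Real.rpow_mul hp0.le, one_div, ← Real.rpow_neg hp0.le]
    norm_num
  rw [hx3, ← hx2]
  have h1 : 0 < 1 - x := by linarith
  have h2 : 0 < 1 - x ^ 2 := by nlinarith
  by_cases h : p = 2
  · rw [if_neg (by simpa using h), if_pos h, sub_zero]
    have h3 : (1 - x)⁻¹ = (1 - x ^ 2)⁻¹ * (1 + x) := by
      have : 1 - x ^ 2 = (1 - x) * (1 + x) := by ring
      rw [this]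
      field_simp
    rw [h3]
    refine mul_le_mul_of_nonneg_left ?_ (inv_nonneg.2 h2.le)
    nlinarith [pow_pos hx0 3]
  · rw [if_pos h, if_neg h, mul_one]
    have h3 : (1 - x)⁻¹ - x = (1 - x ^ 2)⁻¹ * (1 + x ^ 3) := by
      have h4 : 1 - x ^ 2 = (1 - x) * (1 + x) := by ring
      rw [h4]
      field_simp
      ring
    rw [h3]

private theorem n13e_exp (P : Finset ℕ) :
    ∏ p ∈ P, (1 + 1 / (p : ℝ) ^ (3 / 2 : ℝ)) ≤ Real.exp (∑' m : ℕ, 1 / (m : ℝ) ^ (3 / 2 : ℝ)) := by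
  have hs : Summable fun m : ℕ => 1 / (m : ℝ) ^ (3 / 2 : ℝ) :=
    Real.summable_one_div_nat_rpow.2 (by norm_num)
  have h1 : ∑ p ∈ P, 1 / (p : ℝ) ^ (3 / 2 : ℝ) ≤ ∑' m : ℕ, 1 / (m : ℝ) ^ (3 / 2 : ℝ) :=
    hs.sum_le_tsum P fun m _ => by positivity
  refine le_trans ?_ (Real.exp_le_exp.2 h1)
  rw [Real.exp_sum]
  refine Finset.prod_le_prod (fun p _ => by positivity) fun p _ => ?_
  have := Real.add_one_le_exp (1 / (p : ℝ) ^ (3 / 2 : ℝ))
  linarith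

private theorem n13e_ff (n : ℕ) (hn : 1 ≤ n) :
    ∏ p ∈ (2 * n).primeFactors, (1 - (p : ℝ)⁻¹)⁻¹ = 1 / ff n := by
  have h1 := Nat.totient_eq_mul_prod_factors (2 * n)
  have h2 : (Nat.totient (2 * n) : ℝ) =
      ((2 * n : ℕ) : ℝ) * ∏ p ∈ (2 * n).primeFactors, (1 - (p : ℝ)⁻¹) := by
    have h3 : ((Nat.totient (2 * n) : ℚ) : ℝ) =
        ((((2 * n : ℕ) : ℚ) * ∏ p ∈ (2 * n).primeFactors, (1 - (p : ℚ)⁻¹) : ℚ) : ℝ) := by
      rw [h1]
    push_cast at h3 ⊢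
    exact h3
  have hne : ((2 * n : ℕ) : ℝ) ≠ 0 := by
    have : 2 * n ≠ 0 := by omega
    exact_mod_cast this
  unfold ff
  rw [h2, mul_div_cancel_left₀ _ hne, Finset.prod_inv_distrib, one_div]

open Classical in
/-- sum over `c0` with squarefull odd part -/
theorem sf_sum : ∃ C : ℝ, 1 ≤ C ∧ ∀ n N : ℕ, 1 ≤ n →
    ∑ c ∈ (Finset.Icc 1 N).filter (fun c => Sf n c), 1 / Real.sqrt c ≤ C / ff n := by
  set E : ℝ := ∑' m : ℕ, 1 / (m : ℝ) ^ (3 / 2 : ℝ) with hE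
  have hE0 : 0 ≤ E := tsum_nonneg fun m => by positivity
  have hE1 : 1 ≤ Real.exp E := Real.one_le_exp hE0
  refine ⟨2 * Real.exp E, by linarith, fun n N hn => ?_⟩
  have h1 := n13e_le_prod (s := 1 / 2) (by norm_num) n
    ((Finset.Icc 1 N).filter (fun c => Sf n c)) (fun c hc => (Finset.mem_filter.1 hc).2) hn
  have h2 : ∑ c ∈ (Finset.Icc 1 N).filter (fun c => Sf n c), 1 / Real.sqrt c =
      ∑ c ∈ (Finset.Icc 1 N).filter (fun c => Sf n c), (c : ℝ) ^ (-(1 / 2 : ℝ)) :=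
    Finset.sum_congr rfl fun c _ => n13e_sqrt c
  rw [h2]
  refine le_trans h1 ?_
  have h3 : ∏ p ∈ (2 * n).primeFactors, ((1 - (p : ℝ) ^ (-(1 / 2 : ℝ)))⁻¹ -
      (if p ≠ 2 then (p : ℝ) ^ (-(1 / 2 : ℝ)) else 0)) ≤
      ∏ p ∈ (2 * n).primeFactors, ((1 - (p : ℝ)⁻¹)⁻¹ *
        ((1 + 1 / (p : ℝ) ^ (3 / 2 : ℝ)) * (if p = 2 then 2 else 1))) := by
    refine Finset.prod_le_prod (fun p hp => ?_) fun p hp =>
      n13e_factor (Nat.prime_of_mem_primeFactors hp)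
    have hs := (n13e_hasSum (s := 1 / 2) (by norm_num) (Nat.prime_of_mem_primeFactors hp))
    exact hs.nonneg fun k => n13e_nonneg _ _
  refine le_trans h3 ?_
  rw [Finset.prod_mul_distrib, Finset.prod_mul_distrib, n13e_ff n hn]
  have h4 : ∏ p ∈ (2 * n).primeFactors, (if p = 2 then (2 : ℝ) else 1) ≤ 2 := by
    rw [Finset.prod_ite_eq' (2 * n).primeFactors 2 (fun _ => (2 : ℝ))]
    split_ifs <;> norm_num
  have h5 := n13e_exp (2 * n).primeFactors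
  have h6 : 0 ≤ 1 / ff n := by
    have := ff_pos n hn
    positivity
  have h7 : (∏ p ∈ (2 * n).primeFactors, (1 + 1 / (p : ℝ) ^ (3 / 2 : ℝ))) *
      ∏ p ∈ (2 * n).primeFactors, (if p = 2 then (2 : ℝ) else 1) ≤ Real.exp E * 2 := by
    refine mul_le_mul h5 h4 ?_ (Real.exp_pos _).le
    exact Finset.prod_nonneg fun p _ => by split_ifs <;> norm_num
  calc 1 / ff n * ((∏ p ∈ (2 * n).primeFactors, (1 + 1 / (p : ℝ) ^ (3 / 2 : ℝ))) *
      ∏ p ∈ (2 * n).primeFactors, (if p = 2 then (2 : ℝ) else 1)) ≤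
      1 / ff n * (Real.exp E * 2) := mul_le_mul_of_nonneg_left h7 h6
    _ = 2 * Real.exp E / ff n := by ring

/-- one factor, exponent `3/8` -/
private theorem n13e_factor8 {p : ℕ} (hp : p.Prime) :
    (1 - (p : ℝ) ^ (-(3 / 8 : ℝ)))⁻¹ - (if p ≠ 2 then (p : ℝ) ^ (-(3 / 8 : ℝ)) else 0) ≤ 8 := by
  have hp0 : (0 : ℝ) < p := by exact_mod_cast hp.pos
  have hp2 : (2 : ℝ) ≤ p := by exact_mod_cast hp.two_le
  obtain ⟨hx0, hx1⟩ := n13e_x (s := 3 / 8) (by norm_num) hp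
  set x : ℝ := (p : ℝ) ^ (-(3 / 8 : ℝ)) with hx
  have hx8 : x ^ 8 = ((p : ℝ) ^ 3)⁻¹ := by
    rw [hx, ← Real.rpow_natCast, ← Real.rpow_mul hp0.le, ← Real.rpow_natCast (p : ℝ) 3,
      ← Real.rpow_neg hp0.le]
    norm_num
  have h1 : x ^ 8 ≤ (7 / 8) ^ 8 := by
    rw [hx8]
    have h2 : (8 : ℝ) ≤ (p : ℝ) ^ 3 := by
      have := pow_le_pow_left₀ (by norm_num : (0 : ℝ) ≤ 2) hp2 3
      norm_num at this
      exact this
    refine le_trans (inv_anti₀ (by norm_num) h2) ?_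
    norm_num
  have h2 : x ≤ 7 / 8 := (pow_le_pow_iff_left₀ hx0.le (by norm_num) (by norm_num)).1 h1
  have h3 : (1 - x)⁻¹ ≤ 8 := by
    rw [inv_le_comm₀ (by linarith) (by norm_num)]
    linarith
  have h4 : 0 ≤ (if p ≠ 2 then x else 0) := by split_ifs <;> linarith
  linarith

private theorem n13e_tau {m : ℕ} (hm : m ≠ 0) : (2 : ℝ) ^ m.primeFactors.card ≤ tau m := by
  unfold tau
  rw [Nat.card_divisors hm]
  push_cast
  rw [← Finset.prod_const]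
  refine Finset.prod_le_prod (fun _ _ => by norm_num) fun p hp => ?_
  have h1 : 1 ≤ m.factorization p :=
    (Nat.prime_of_mem_primeFactors hp).factorization_pos_of_dvd hm (Nat.dvd_of_mem_primeFactors hp)
  have h2 : (1 : ℝ) ≤ (m.factorization p : ℝ) := by exact_mod_cast h1
  linarith

open Classical in
theorem sf_tail (ε : ℝ) (hε : 0 < ε) : ∃ C : ℝ, 1 ≤ C ∧ ∀ n N : ℕ, 1 ≤ n → ∀ Y : ℝ, 1 ≤ Y →
    ∑ c ∈ (Finset.Icc 1 N).filter (fun c => Sf n c ∧ Y < (c : ℝ)), 1 / Real.sqrt c ≤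
      C * Y ^ (-(1 / 8) : ℝ) * (n : ℝ) ^ ε := by
  obtain ⟨C0, hC0, hτ⟩ := tau_bound (ε / 3) (by positivity)
  have h2ε : (1 : ℝ) ≤ 2 ^ ε := Real.one_le_rpow (by norm_num) hε.le
  have hC3 : (1 : ℝ) ≤ C0 ^ 3 := one_le_pow₀ hC0
  refine ⟨C0 ^ 3 * 2 ^ ε, by nlinarith, fun n N hn Y hY => ?_⟩
  have hY0 : 0 < Y := by linarith
  have hn0 : (0 : ℝ) ≤ n := Nat.cast_nonneg n
  set A := (Finset.Icc 1 N).filter (fun c => Sf n c ∧ Y < (c : ℝ)) with hA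
  have h1 := n13e_le_prod (s := 3 / 8) (by norm_num) n A
    (fun c hc => (Finset.mem_filter.1 hc).2.1) hn
  have h2 : ∑ c ∈ A, 1 / Real.sqrt c ≤ ∑ c ∈ A, Y ^ (-(1 / 8) : ℝ) * (c : ℝ) ^ (-(3 / 8 : ℝ)) := by
    refine Finset.sum_le_sum fun c hc => ?_
    have hYc : Y < c := (Finset.mem_filter.1 hc).2.2
    have hc0 : (0 : ℝ) < c := by linarith
    rw [n13e_sqrt]
    have h3 : (c : ℝ) ^ (-(1 / 2 : ℝ)) = (c : ℝ) ^ (-(1 / 8 : ℝ)) * (c : ℝ) ^ (-(3 / 8 : ℝ)) := by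
      rw [← Real.rpow_add hc0]
      norm_num
    rw [h3]
    refine mul_le_mul_of_nonneg_right ?_ (by positivity)
    exact Real.rpow_le_rpow_of_nonpos hY0 hYc.le (by norm_num)
  have h3 : ∏ p ∈ (2 * n).primeFactors, ((1 - (p : ℝ) ^ (-(3 / 8 : ℝ)))⁻¹ -
      (if p ≠ 2 then (p : ℝ) ^ (-(3 / 8 : ℝ)) else 0)) ≤ 8 ^ (2 * n).primeFactors.card := by
    rw [← Finset.prod_const]
    refine Finset.prod_le_prod (fun p hp => ?_) fun p hp =>
      n13e_factor8 (Nat.prime_of_mem_primeFactors hp)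
    have hs := (n13e_hasSum (s := 3 / 8) (by norm_num) (Nat.prime_of_mem_primeFactors hp))
    exact hs.nonneg fun k => n13e_nonneg _ _
  have h4 : (8 : ℝ) ^ (2 * n).primeFactors.card ≤ tau (2 * n) ^ 3 := by
    have h5 : (8 : ℝ) ^ (2 * n).primeFactors.card = ((2 : ℝ) ^ (2 * n).primeFactors.card) ^ 3 := by
      have h8 : (8 : ℝ) = 2 ^ 3 := by norm_num
      rw [h8, ← pow_mul, ← pow_mul, mul_comm]
    rw [h5]
    exact pow_le_pow_left₀ (by positivity) (n13e_tau (by omega)) 3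
  have h5 : tau (2 * n) ^ 3 ≤ C0 ^ 3 * 2 ^ ε * (n : ℝ) ^ ε := by
    have h6 := hτ (2 * n) (by omega)
    have h7 : 0 ≤ tau (2 * n) := by unfold tau; positivity
    refine le_trans (pow_le_pow_left₀ h7 h6 3) (le_of_eq ?_)
    have h8 : (((2 * n : ℕ) : ℝ) ^ (ε / 3)) ^ 3 = ((2 * n : ℕ) : ℝ) ^ ε := by
      rw [← Real.rpow_natCast, ← Real.rpow_mul (Nat.cast_nonneg _)]
      congr 1
      push_cast
      ring
    rw [mul_pow, h8]
    push_cast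
    rw [Real.mul_rpow (by norm_num) hn0]
    ring
  have hYp : 0 ≤ Y ^ (-(1 / 8) : ℝ) := by positivity
  calc ∑ c ∈ A, 1 / Real.sqrt c ≤ ∑ c ∈ A, Y ^ (-(1 / 8) : ℝ) * (c : ℝ) ^ (-(3 / 8 : ℝ)) := h2
    _ = Y ^ (-(1 / 8) : ℝ) * ∑ c ∈ A, (c : ℝ) ^ (-(3 / 8 : ℝ)) := by rw [Finset.mul_sum]
    _ ≤ Y ^ (-(1 / 8) : ℝ) * (C0 ^ 3 * 2 ^ ε * (n : ℝ) ^ ε) :=
        mul_le_mul_of_nonneg_left (le_trans h1 (le_trans h3 (le_trans h4 h5))) hYp
    _ = C0 ^ 3 * 2 ^ ε * Y ^ (-(1 / 8) : ℝ) * (n : ℝ) ^ ε := by ring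

end RV11
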