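import Pool.Agent.LibRV11.N13c
import Pool.Agent.LibRV11.N13a

open Complex Real

namespace RV11

theorem Mn_bounds : ∃ n0 : ℕ, ∀ n : ℕ, n0 ≤ n →
    (n : ℝ) ^ (1 / 20 : ℝ) / 2 ≤ Mn n ∧ (Mn n : ℝ) ≤ (n : ℝ) ^ (1 / 20 : ℝ) ∧ 2 ≤ Mn n := by
  refine ⟨2 ^ 20, fun n hn => ?_⟩
  have hx : (2 : ℝ) ≤ (n : ℝ) ^ (1 / 20 : ℝ) := by
    have h1 : ((2 : ℝ) ^ (20 : ℕ)) ≤ n := by exact_mod_cast hn
    have h2 := Real.rpow_le_rpow (by positivity) h1 (by norm_num : (0 : ℝ) ≤ 1 / 20)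
    rw [← Real.rpow_natCast, ← Real.rpow_mul (by norm_num)] at h2
    norm_num at h2
    norm_num
    exact h2
  have h1 : (Mn n : ℝ) ≤ (n : ℝ) ^ (1 / 20 : ℝ) := by
    unfold Mn
    exact Nat.floor_le (by positivity)
  have h2 : (n : ℝ) ^ (1 / 20 : ℝ) < Mn n + 1 := by
    unfold Mn
    exact Nat.lt_floor_add_one _
  refine ⟨by linarith, h1, ?_⟩
  unfold Mn
  exact Nat.le_floor (by exact_mod_cast hx)

theorem N13f_large (a : ℝ) (ha : 0 < a) (K : ℝ) : ∃ n0 : ℕ, ∀ n : ℕ, n0 ≤ n →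
    K ≤ (n : ℝ) ^ a := by
  have h := (tendsto_rpow_atTop ha).comp tendsto_natCast_atTop_atTop
  obtain ⟨n0, hn0⟩ := Filter.eventually_atTop.1 (h.eventually (Filter.eventually_ge_atTop K))
  exact ⟨n0, fun n hn => hn0 n hn⟩

theorem MM_card : ∃ n0 : ℕ, ∀ n : ℕ, n0 ≤ n → ff n * Mn n / 2 ≤ ((MM n).card : ℝ) := by
  obtain ⟨n1, h1⟩ := Mn_bounds
  obtain ⟨C, hC1, hC⟩ := tau_bound (1 / 100) (by norm_num)
  obtain ⟨n2, h2⟩ := N13f_large (3 / 100) (by norm_num) (8 * C ^ 2)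
  refine ⟨max (max n1 n2) 1, fun n hn => ?_⟩
  have hn1 : n1 ≤ n := le_trans (le_trans (le_max_left _ _) (le_max_left _ _)) hn
  have hn2 : n2 ≤ n := le_trans (le_trans (le_max_right _ _) (le_max_left _ _)) hn
  have hn3 : 1 ≤ n := le_trans (le_max_right _ _) hn
  obtain ⟨hM1, hM2, hM3⟩ := h1 n hn1
  have hn0 : (0 : ℝ) < n := by exact_mod_cast hn3
  have hlow := count_coprime_lower n (Mn n) (2 * Mn n) hn3 (by omega)
  have hcard : (((Finset.Ico (Mn n) (2 * Mn n)).filter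
      (fun b => Nat.Coprime b (2 * n))).card : ℝ) = ((MM n).card : ℝ) := rfl
  rw [hcard] at hlow
  have ht1 := tau_pos (2 * n) (by omega)
  have hff := inv_tau_le_ff n hn3
  have htb := hC (2 * n) (by omega)
  -- tau^2 <= Mn / 2
  have hsq : tau (2 * n) ^ 2 ≤ (Mn n : ℝ) / 2 := by
    have e1 : tau (2 * n) ^ 2 ≤ (C * ((2 * n : ℕ) : ℝ) ^ (1 / 100 : ℝ)) ^ 2 :=
      pow_le_pow_left₀ (by linarith) htb 2
    have e2 : (C * ((2 * n : ℕ) : ℝ) ^ (1 / 100 : ℝ)) ^ 2 =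
        C ^ 2 * ((2 : ℝ) ^ (1 / 50 : ℝ) * (n : ℝ) ^ (1 / 50 : ℝ)) := by
      rw [mul_pow]
      congr 1
      push_cast
      rw [← Real.rpow_natCast, ← Real.rpow_mul (by positivity),
        ← Real.mul_rpow (by norm_num) (by positivity)]
      norm_num
    have e3 : (2 : ℝ) ^ (1 / 50 : ℝ) ≤ 2 := by
      have := Real.rpow_le_rpow_of_exponent_le (by norm_num : (1 : ℝ) ≤ 2)
        (by norm_num : (1 / 50 : ℝ) ≤ 1)
      rw [Real.rpow_one] at this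
      exact this
    have e4 : (n : ℝ) ^ (1 / 20 : ℝ) = (n : ℝ) ^ (3 / 100 : ℝ) * (n : ℝ) ^ (1 / 50 : ℝ) := by
      rw [← Real.rpow_add hn0]
      norm_num
    have e5 := h2 n hn2
    have e6 : 0 ≤ (n : ℝ) ^ (1 / 50 : ℝ) := by positivity
    have e7 : (8 * C ^ 2) * (n : ℝ) ^ (1 / 50 : ℝ) ≤ (n : ℝ) ^ (1 / 20 : ℝ) := by
      rw [e4]
      exact mul_le_mul_of_nonneg_right e5 e6
    have e8 : C ^ 2 * ((2 : ℝ) ^ (1 / 50 : ℝ) * (n : ℝ) ^ (1 / 50 : ℝ)) ≤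
        C ^ 2 * (2 * (n : ℝ) ^ (1 / 50 : ℝ)) := by
      apply mul_le_mul_of_nonneg_left _ (by positivity)
      exact mul_le_mul_of_nonneg_right e3 e6
    rw [e2] at e1
    have e9 : C ^ 2 * (2 * (n : ℝ) ^ (1 / 50 : ℝ)) = (8 * C ^ 2) * (n : ℝ) ^ (1 / 50 : ℝ) / 4 := by
      ring
    rw [e9] at e8
    linarith
  -- tau <= ff Mn / 2
  have hmain : tau (2 * n) ≤ ff n * Mn n / 2 := by
    have e1 : tau (2 * n) ≤ 1 / tau (2 * n) * ((Mn n : ℝ) / 2) := by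
      rw [one_div, inv_mul_eq_div, le_div_iff₀ (by linarith)]
      rw [← sq]
      exact hsq
    have e2 : 1 / tau (2 * n) * ((Mn n : ℝ) / 2) ≤ ff n * ((Mn n : ℝ) / 2) :=
      mul_le_mul_of_nonneg_right hff (by positivity)
    linarith
  push_cast at hlow
  have e : ff n * (2 * (Mn n : ℝ) - Mn n) = ff n * Mn n := by ring
  rw [e] at hlow
  linarith

theorem MM_card_le (n : ℕ) : ((MM n).card : ℝ) ≤ Mn n := by
  have h : (MM n).card ≤ Mn n := by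
    unfold MM
    refine (Finset.card_filter_le _ _).trans ?_
    rw [Nat.card_Ico]
    omega
  exact_mod_cast h

theorem sg_MM : ∃ n0 : ℕ, ∀ n : ℕ, n0 ≤ n → ∀ m ∈ MM n, 1 ≤ m ∧ m < 2 * Mn n ∧
    sg m ≤ (n : ℝ) ^ (1 / 10 : ℝ) := by
  obtain ⟨n1, h1⟩ := Mn_bounds
  obtain ⟨n2, h2⟩ := N13f_large (1 / 40) (by norm_num) 12
  refine ⟨max (max n1 n2) 1, fun n hn m hm => ?_⟩
  have hn1 : n1 ≤ n := le_trans (le_trans (le_max_left _ _) (le_max_left _ _)) hn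
  have hn2 : n2 ≤ n := le_trans (le_trans (le_max_right _ _) (le_max_left _ _)) hn
  have hn3 : 1 ≤ n := le_trans (le_max_right _ _) hn
  obtain ⟨hM1, hM2, hM3⟩ := h1 n hn1
  have hn0 : (0 : ℝ) < n := by exact_mod_cast hn3
  have hm' := hm
  unfold MM at hm'
  rw [Finset.mem_filter, Finset.mem_Ico] at hm'
  have hm1 : 1 ≤ m := by omega
  have hm2 : m < 2 * Mn n := hm'.1.2
  refine ⟨hm1, hm2, ?_⟩
  have hm1' : (1 : ℝ) ≤ m := by exact_mod_cast hm1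
  have hm0 : (0 : ℝ) < m := by linarith
  have hlog : Real.log m ≤ 2 * (m : ℝ) ^ (1 / 2 : ℝ) := by
    have := Real.log_le_rpow_div hm0.le (by norm_num : (0 : ℝ) < 1 / 2)
    linarith
  have hone : (1 : ℝ) ≤ (m : ℝ) ^ (1 / 2 : ℝ) := Real.one_le_rpow hm1' (by norm_num)
  have hsg : sg m ≤ 3 * (m : ℝ) ^ (3 / 2 : ℝ) := by
    have e : (m : ℝ) ^ (3 / 2 : ℝ) = m * (m : ℝ) ^ (1 / 2 : ℝ) := by
      nth_rewrite 2 [← Real.rpow_one (m : ℝ)]
      rw [← Real.rpow_add hm0]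
      norm_num
    rw [e]
    have := sg_le_log m hm1
    nlinarith
  have hmn : (m : ℝ) ≤ 2 * (n : ℝ) ^ (1 / 20 : ℝ) := by
    have : (m : ℝ) ≤ 2 * Mn n := by exact_mod_cast hm2.le
    linarith
  have h3 : (m : ℝ) ^ (3 / 2 : ℝ) ≤ 4 * (n : ℝ) ^ (3 / 40 : ℝ) := by
    have e1 := Real.rpow_le_rpow hm0.le hmn (by norm_num : (0 : ℝ) ≤ 3 / 2)
    rw [Real.mul_rpow (by norm_num) (by positivity), ← Real.rpow_mul hn0.le] at e1
    have e2 : (2 : ℝ) ^ (3 / 2 : ℝ) ≤ 4 := by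
      have := Real.rpow_le_rpow_of_exponent_le (by norm_num : (1 : ℝ) ≤ 2)
        (by norm_num : (3 / 2 : ℝ) ≤ 2)
      norm_num at this
      norm_num
      exact this
    have e3 : (1 / 20 : ℝ) * (3 / 2) = 3 / 40 := by norm_num
    rw [e3] at e1
    refine e1.trans ?_
    exact mul_le_mul_of_nonneg_right e2 (by positivity)
  have h4 : (n : ℝ) ^ (1 / 10 : ℝ) = (n : ℝ) ^ (1 / 40 : ℝ) * (n : ℝ) ^ (3 / 40 : ℝ) := by
    rw [← Real.rpow_add hn0]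
    norm_num
  have h5 := h2 n hn2
  have h6 : 12 * (n : ℝ) ^ (3 / 40 : ℝ) ≤ (n : ℝ) ^ (1 / 10 : ℝ) := by
    rw [h4]
    exact mul_le_mul_of_nonneg_right h5 (by positivity)
  linarith

/-- `D(c)` -/
theorem sum_MM_dvd (ε : ℕ → ℂ) (hε : ∀ m, ‖ε m‖ ≤ 1) (n c : ℕ) (hc : 1 ≤ c) :
    ‖∑ m ∈ (MM n).filter (fun m => m ∣ c), ε m * (sg m : ℂ)‖ ≤ 2 * Mn n * tau c ^ 2 := by
  have h1 : ∀ m ∈ (MM n).filter (fun m => m ∣ c), ‖ε m * (sg m : ℂ)‖ ≤ 2 * Mn n * tau c := by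
    intro m hm
    rw [Finset.mem_filter] at hm
    obtain ⟨hm1, hm2⟩ := hm
    unfold MM at hm1
    rw [Finset.mem_filter, Finset.mem_Ico] at hm1
    have hm3 : (m : ℝ) ≤ 2 * Mn n := by exact_mod_cast hm1.1.2.le
    have ht : tau m ≤ tau c := tau_le_of_dvd m c hc hm2
    have ht0 : 0 ≤ tau m := by unfold tau; positivity
    rw [norm_mul, Complex.norm_real, Real.norm_eq_abs, abs_of_nonneg (sg_nonneg m)]
    calc ‖ε m‖ * sg m ≤ 1 * sg m := mul_le_mul_of_nonneg_right (hε m) (sg_nonneg m)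
      _ = sg m := one_mul _
      _ ≤ m * tau m := sg_le m
      _ ≤ 2 * Mn n * tau c := mul_le_mul hm3 ht ht0 (by positivity)
  have h2 : (((MM n).filter (fun m => m ∣ c)).card : ℝ) ≤ tau c := by
    unfold tau
    have : ((MM n).filter (fun m => m ∣ c)).card ≤ c.divisors.card := by
      apply Finset.card_le_card
      intro m hm
      rw [Finset.mem_filter] at hm
      exact Nat.mem_divisors.2 ⟨hm.2, by omega⟩
    exact_mod_cast this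
  have ht0 : 0 ≤ tau c := by unfold tau; positivity
  calc ‖∑ m ∈ (MM n).filter (fun m => m ∣ c), ε m * (sg m : ℂ)‖
      ≤ ∑ m ∈ (MM n).filter (fun m => m ∣ c), ‖ε m * (sg m : ℂ)‖ := norm_sum_le _ _
    _ ≤ ∑ m ∈ (MM n).filter (fun m => m ∣ c), (2 * Mn n * tau c) := Finset.sum_le_sum h1
    _ = ((MM n).filter (fun m => m ∣ c)).card * (2 * Mn n * tau c) := by
        rw [Finset.sum_const, nsmul_eq_mul]
    _ ≤ tau c * (2 * Mn n * tau c) := mul_le_mul_of_nonneg_right h2 (by positivity)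
    _ = 2 * Mn n * tau c ^ 2 := by ring

end RV11
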