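import Pool.Agent.LibRV11.N00

open Complex Real

namespace RV11

/-- the summand of the bilinear sums; `c = c0 a b`, `m ∣ a b` -/
noncomputable def Fs (n c0 : ℕ) (s : ℤ) (Γ : ZMod (2 * c0) → ℂ) (α β ε w : ℕ → ℂ)
    (a b m : ℕ) : ℂ :=
  α a * β b * Γ ((a * b : ℕ) : ZMod (2 * c0)) *
    er a (2 * (s : ZMod a) * (n : ZMod a) * (((c0 * b : ℕ) : ZMod a))⁻¹) *
    w (c0 * a * b) * (ε m * (sg m : ℂ))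

/-- the hypotheses of the bilinear estimate -/
structure Dat (n X c0 : ℕ) (s : ℤ) (Γ : ZMod (2 * c0) → ℂ) (α β ε w : ℕ → ℂ) : Prop where
  X1 : (n : ℝ) ^ (999 / 1000 : ℝ) ≤ X
  X2 : X ≤ n
  sm : Sm n c0
  c0le : (c0 : ℝ) ≤ (n : ℝ) ^ (1 / 400 : ℝ)
  hs : s = 1 ∨ s = -1
  hΓ : ∀ v, ‖Γ v‖ ≤ 1
  hα : ∀ a, ‖α a‖ ≤ 1
  hβ : ∀ x y, x ≠ 0 → y ≠ 0 → β (x * y) = β x * β y
  hβ1 : ∀ x, Nat.Coprime x (2 * n) → ‖β x‖ = 1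
  hε : ∀ m, ‖ε m‖ ≤ 1
  hw : BV w ((n : ℝ) ^ (1 / 200 : ℝ))
  supp : ∀ c, w c ≠ 0 → X ≤ c ∧ c < 2 * X

end RV11
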