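import Pool.Agent.LibRV11.N12f
import Pool.Agent.LibRV11.N12b
import Pool.Agent.LibRV11.N01a
import Pool.Agent.LibRV11.N01c

open Complex Real

namespace RV11

private lemma n14a_inv_mul (q m b : ℕ) (hm : Nat.Coprime m q) (hb : Nat.Coprime b q) :
    (((m * b : ℕ) : ZMod q))⁻¹ = ((m : ZMod q))⁻¹ * ((b : ZMod q))⁻¹ := by
  obtain ⟨u, hu⟩ : ∃ u : (ZMod q)ˣ, (u : ZMod q) = (m : ZMod q) := ⟨ZMod.unitOfCoprime m hm, rfl⟩
  obtain ⟨v, hv⟩ : ∃ v : (ZMod q)ˣ, (v : ZMod q) = (b : ZMod q) := ⟨ZMod.unitOfCoprime b hb, rfl⟩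
  rw [Nat.cast_mul, ← hu, ← hv, ← Units.val_mul, ZMod.inv_coe_unit, ZMod.inv_coe_unit,
    ZMod.inv_coe_unit, mul_inv, Units.val_mul]

/-- abstract Cauchy-Schwarz -/
private lemma n14a_cs {ι : Type} (F : Finset ℕ) (S : Finset ι) (β : ℕ → ℂ) (g : ι → ℕ → ℂ)
    (hβ : ∀ b ∈ F, ‖β b‖ = 1) :
    ‖∑ m ∈ S, ∑ b ∈ F, β b * g m b‖ ^ 2 ≤
      F.card * ‖∑ m ∈ S, ∑ m' ∈ S, ∑ b ∈ F, g m b * (starRingEnd ℂ) (g m' b)‖ := by
  have h1 : ∑ m ∈ S, ∑ b ∈ F, β b * g m b = ∑ b ∈ F, β b * ∑ m ∈ S, g m b := by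
    rw [Finset.sum_comm]
    refine Finset.sum_congr rfl ?_
    intro b _
    rw [Finset.mul_sum]
  have h2 : ∑ m ∈ S, ∑ m' ∈ S, ∑ b ∈ F, g m b * (starRingEnd ℂ) (g m' b) =
      ((∑ b ∈ F, ‖∑ m ∈ S, g m b‖ ^ 2 : ℝ) : ℂ) := by
    push_cast
    have h3 : ∀ b ∈ F, ((‖∑ m ∈ S, g m b‖ : ℝ) : ℂ) ^ 2 =
        ∑ m ∈ S, ∑ m' ∈ S, g m b * (starRingEnd ℂ) (g m' b) := by
      intro b _
      rw [← Complex.mul_conj', map_sum, Finset.sum_mul_sum]
    rw [Finset.sum_congr rfl h3]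
    calc _ = ∑ m ∈ S, ∑ b ∈ F, ∑ m' ∈ S, g m b * (starRingEnd ℂ) (g m' b) := by
          refine Finset.sum_congr rfl ?_
          intro m _
          rw [Finset.sum_comm]
      _ = _ := by rw [Finset.sum_comm]
  have h0 : 0 ≤ ∑ b ∈ F, ‖∑ m ∈ S, g m b‖ ^ 2 := Finset.sum_nonneg (fun _ _ => sq_nonneg _)
  rw [h1, h2, Complex.norm_real, Real.norm_of_nonneg h0]
  have h4 : ‖∑ b ∈ F, β b * ∑ m ∈ S, g m b‖ ≤ ∑ b ∈ F, ‖∑ m ∈ S, g m b‖ := by
    refine (norm_sum_le _ _).trans (Finset.sum_le_sum ?_)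
    intro b hb
    rw [norm_mul, hβ b hb, one_mul]
  calc ‖∑ b ∈ F, β b * ∑ m ∈ S, g m b‖ ^ 2 ≤ (∑ b ∈ F, ‖∑ m ∈ S, g m b‖) ^ 2 :=
        pow_le_pow_left₀ (norm_nonneg _) h4 2
    _ ≤ _ := sq_sum_le_card_mul_sum_sq

/-- Cauchy-Schwarz over `b`, fixed `a` -/
theorem CS12 : ∃ C : ℝ, 1 ≤ C ∧ ∀ n c0 a : ℕ, 1 ≤ n → Sm n c0 → 1 ≤ a →
    Nat.Coprime a (2 * n) → ∀ (k0 : ZMod a), IsUnit k0 →
    ∀ (Γ : ZMod (2 * c0) → ℂ), (∀ v, ‖Γ v‖ ≤ 1) →
    ∀ (β : ℕ → ℂ), (∀ x, Nat.Coprime x (2 * n) → ‖β x‖ = 1) →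
    ∀ (S : Finset ℕ), (∀ m ∈ S, 1 ≤ m ∧ Nat.Coprime m (2 * n * a)) →
    ∀ (e : ℕ → ℂ) (V : ℝ) (wt : ℕ → ℕ → ℂ), (∀ m ∈ S, BV (wt m) V) → 0 ≤ V → ∀ B : ℕ,
    ‖∑ m ∈ S, ∑ b ∈ (Finset.Icc 1 B).filter (fun b => Nat.Coprime b (2 * n * a)),
      e m * β b * Γ ((m * b : ℕ) : ZMod (2 * c0)) * er a (k0 * (((m * b : ℕ) : ZMod a))⁻¹) *
        wt m b‖ ^ 2 ≤
    (ff n * B + tau (2 * n)) * ∑ m ∈ S, ∑ m' ∈ S, ‖e m‖ * ‖e m'‖ *
      (if m = m' then ff n * B + tau (2 * n) else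
        ff n * B * (Nat.gcd ((m : ℤ) - m').natAbs a : ℝ) / a +
        C * c0 * tau (2 * n) * (1 + V) * (a : ℝ) ^ (4 / 5 : ℝ) *
          (Nat.gcd ((m : ℤ) - m').natAbs a : ℝ) ^ (1 / 4 : ℝ)) := by
  obtain ⟨C, hC1, hIK⟩ := IK2
  refine ⟨2 * C, by linarith, ?_⟩
  intro n c0 a hn hc0 ha han k0 hk0 Γ hΓ β hβ S hS e V wt hwt hV B
  have ha0 : a ≠ 0 := by omega
  haveI : NeZero a := ⟨ha0⟩
  obtain ⟨F, hF⟩ : ∃ F : Finset ℕ,
    F = (Finset.Icc 1 B).filter (fun b => Nat.Coprime b (2 * n * a)) := ⟨_, rfl⟩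
  rw [← hF]
  have hFb : ∀ b ∈ F, Nat.Coprime b (2 * n * a) := by
    intro b hb
    rw [hF] at hb
    exact (Finset.mem_filter.mp hb).2
  have hcard : (F.card : ℝ) ≤ ff n * B + tau (2 * n) := by
    refine le_trans ?_ (count_coprime n B hn)
    have : F ⊆ (Finset.Icc 1 B).filter (fun b => Nat.Coprime b (2 * n)) := by
      intro b hb
      have h1 := hFb b hb
      rw [hF] at hb
      rw [Finset.mem_filter] at hb ⊢
      exact ⟨hb.1, Nat.Coprime.coprime_dvd_right (dvd_mul_right _ _) h1⟩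
    exact_mod_cast Finset.card_le_card this
  have hD0 : 0 ≤ ff n * B + tau (2 * n) := (Nat.cast_nonneg _).trans hcard
  -- the function of `m` and `b`
  obtain ⟨g, hg⟩ : ∃ g : ℕ → ℕ → ℂ, g = fun m b => e m * (Γ ((m * b : ℕ) : ZMod (2 * c0)) *
    er a (k0 * (((m * b : ℕ) : ZMod a))⁻¹) * wt m b) := ⟨_, rfl⟩
  have h1 : ∑ m ∈ S, ∑ b ∈ F,
      e m * β b * Γ ((m * b : ℕ) : ZMod (2 * c0)) * er a (k0 * (((m * b : ℕ) : ZMod a))⁻¹) *
        wt m b = ∑ m ∈ S, ∑ b ∈ F, β b * g m b := by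
    refine Finset.sum_congr rfl fun m _ => Finset.sum_congr rfl fun b _ => ?_
    rw [hg]; ring
  rw [h1]
  have hβ' : ∀ b ∈ F, ‖β b‖ = 1 := fun b hb =>
    hβ b (Nat.Coprime.coprime_dvd_right (dvd_mul_right _ _) (hFb b hb))
  refine (n14a_cs F S β g hβ').trans ?_
  refine mul_le_mul hcard ?_ (norm_nonneg _) hD0
  refine (norm_sum_le _ _).trans (Finset.sum_le_sum ?_)
  intro m hm
  refine (norm_sum_le _ _).trans (Finset.sum_le_sum ?_)
  intro m' hm'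
  have hΓb : ∀ m b : ℕ, ‖Γ ((m * b : ℕ) : ZMod (2 * c0)) *
      er a (k0 * (((m * b : ℕ) : ZMod a))⁻¹)‖ ≤ 1 := by
    intro m b
    rw [norm_mul, norm_er, mul_one]
    exact hΓ _
  split_ifs with hmm
  · -- diagonal
    subst hmm
    calc ‖∑ b ∈ F, g m b * (starRingEnd ℂ) (g m b)‖ ≤ ∑ _b ∈ F, ‖e m‖ * ‖e m‖ := by
          refine (norm_sum_le _ _).trans (Finset.sum_le_sum ?_)
          intro b _
          have h2 : ‖g m b‖ ≤ ‖e m‖ := by
            rw [hg]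
            simp only
            rw [norm_mul, norm_mul]
            calc ‖e m‖ * (‖Γ ((m * b : ℕ) : ZMod (2 * c0)) *
                er a (k0 * (((m * b : ℕ) : ZMod a))⁻¹)‖ * ‖wt m b‖) ≤ ‖e m‖ * (1 * 1) := by
                  gcongr
                  · exact hΓb m b
                  · exact (hwt m hm).bd b
              _ = ‖e m‖ := by ring
          rw [norm_mul, RCLike.norm_conj]
          exact mul_le_mul h2 h2 (norm_nonneg _) (norm_nonneg _)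
      _ = F.card * (‖e m‖ * ‖e m‖) := by rw [Finset.sum_const, nsmul_eq_mul]
      _ ≤ (ff n * B + tau (2 * n)) * (‖e m‖ * ‖e m‖) := by gcongr
      _ = _ := by ring
  · -- off the diagonal
    have hma : Nat.Coprime m a := Nat.Coprime.coprime_dvd_right (dvd_mul_left _ _) (hS m hm).2
    have hma' : Nat.Coprime m' a := Nat.Coprime.coprime_dvd_right (dvd_mul_left _ _) (hS m' hm').2
    obtain ⟨k, hk⟩ : ∃ k : ZMod a, k = k0 * ((m : ZMod a)⁻¹ - (m' : ZMod a)⁻¹) := ⟨_, rfl⟩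
    have hgz : gz a k = Nat.gcd ((m : ℤ) - m').natAbs a := by
      rw [hk, gz_mul_unit a ha0 _ _ hk0, gz_inv_sub a ha0 m m' hma hma']
    have hsum : ∑ b ∈ F, g m b * (starRingEnd ℂ) (g m' b) = (e m * (starRingEnd ℂ) (e m')) *
        ∑ b ∈ F, (fun v : ZMod (2 * c0) => Γ (m * v) * (starRingEnd ℂ) (Γ (m' * v)))
          (b : ZMod (2 * c0)) * (fun b => wt m b * (starRingEnd ℂ) (wt m' b)) b *
          er a (k * (b : ZMod a)⁻¹) := by
      rw [Finset.mul_sum]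
      refine Finset.sum_congr rfl ?_
      intro b hb
      have hba : Nat.Coprime b a := Nat.Coprime.coprime_dvd_right (dvd_mul_left _ _) (hFb b hb)
      have h3 : er a (k0 * (((m * b : ℕ) : ZMod a))⁻¹) *
          (starRingEnd ℂ) (er a (k0 * (((m' * b : ℕ) : ZMod a))⁻¹)) =
          er a (k * (b : ZMod a)⁻¹) := by
        rw [← er_neg a ha0, ← er_add a ha0, n14a_inv_mul a m b hma hba,
          n14a_inv_mul a m' b hma' hba, hk]
        congr 1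
        ring
      rw [hg]
      simp only [map_mul, Nat.cast_mul]
      rw [← h3]
      push_cast
      ring
    rw [hsum, norm_mul, norm_mul, RCLike.norm_conj]
    refine mul_le_mul_of_nonneg_left ?_ (by positivity)
    have hBV : BV (fun b => wt m b * (starRingEnd ℂ) (wt m' b)) (V + V) :=
      (hwt m hm).mul (hwt m' hm').conj
    have h4 := hIK n c0 a hn hc0 han
      (fun v : ZMod (2 * c0) => Γ (m * v) * (starRingEnd ℂ) (Γ (m' * v)))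
      (by
        intro v
        rw [norm_mul, RCLike.norm_conj]
        exact mul_le_one₀ (hΓ _) (norm_nonneg _) (hΓ _)) k _ (V + V) hBV B
    rw [hgz, ← hF] at h4
    refine h4.trans ?_
    apply add_le_add
    · apply le_of_eq; ring
    · have htau : 0 ≤ tau (2 * n) := by unfold tau; positivity
      have hG : (0 : ℝ) ≤ (Nat.gcd ((m : ℤ) - m').natAbs a : ℝ) ^ (1 / 4 : ℝ) := by positivity
      have hA : (0 : ℝ) ≤ (a : ℝ) ^ (4 / 5 : ℝ) := by positivity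
      apply mul_le_mul_of_nonneg_right _ hG
      apply mul_le_mul_of_nonneg_right _ hA
      have h5 : C * c0 * tau (2 * n) * (1 + (V + V)) ≤ C * c0 * tau (2 * n) * (2 * (1 + V)) := by
        apply mul_le_mul_of_nonneg_left _ (by positivity)
        linarith
      calc _ ≤ _ := h5
        _ = _ := by ring

end RV11
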