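import Pool.Agent.LibRV11.N12f
import Pool.Agent.LibRV11.N12b
import Pool.Agent.LibRV11.N01c
import Pool.Agent.LibRV11.N01b

open Complex Real

namespace RV11

/-- opening the square -/
private lemma n14b_open {ι : Type} (F : Finset ℕ) (S : Finset ι) (g : ι → ℕ → ℂ) :
    ∑ b ∈ F, ‖∑ m ∈ S, g m b‖ ^ 2 =
      ‖∑ m ∈ S, ∑ m' ∈ S, ∑ b ∈ F, g m b * (starRingEnd ℂ) (g m' b)‖ := by
  have h2 : ∑ m ∈ S, ∑ m' ∈ S, ∑ b ∈ F, g m b * (starRingEnd ℂ) (g m' b) =
      ((∑ b ∈ F, ‖∑ m ∈ S, g m b‖ ^ 2 : ℝ) : ℂ) := by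
    push_cast
    have h3 : ∀ b ∈ F, ((‖∑ m ∈ S, g m b‖ : ℝ) : ℂ) ^ 2 =
        ∑ m ∈ S, ∑ m' ∈ S, g m b * (starRingEnd ℂ) (g m' b) := by
      intro b _
      rw [← Complex.mul_conj', map_sum, Finset.sum_mul_sum]
    rw [Finset.sum_congr rfl h3]
    calc _ = ∑ m ∈ S, ∑ b ∈ F, ∑ m' ∈ S, g m b * (starRingEnd ℂ) (g m' b) := by
          refine Finset.sum_congr rfl ?_
          intro m _
          rw [Finset.sum_comm]
      _ = _ := by rw [Finset.sum_comm]
  have h0 : 0 ≤ ∑ b ∈ F, ‖∑ m ∈ S, g m b‖ ^ 2 := Finset.sum_nonneg (fun _ _ => sq_nonneg _)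
  rw [h2, Complex.norm_real, Real.norm_of_nonneg h0]

/-- inverse modulo a divisor -/
private lemma n14b_inv (M q x : ℕ) (hM : M ∣ q) (hx : Nat.Coprime x q) (Y : ℤ)
    (hY : (q : ℤ) ∣ Y * x - 1) : ((x : ZMod M))⁻¹ = (Y : ZMod M) := by
  have h1 : ((Y * x - 1 : ℤ) : ZMod M) = 0 := by
    rw [ZMod.intCast_zmod_eq_zero_iff_dvd]
    exact dvd_trans (by exact_mod_cast hM) hY
  have h2 : (Y : ZMod M) * (x : ZMod M) = 1 := by
    push_cast at h1
    exact sub_eq_zero.mp h1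
  have hxM : Nat.Coprime x M := Nat.Coprime.coprime_dvd_right hM hx
  have h3 : (x : ZMod M) * (x : ZMod M)⁻¹ = 1 := ZMod.coe_mul_inv_eq_one x hxM
  calc ((x : ZMod M))⁻¹ = ((Y : ZMod M) * (x : ZMod M)) * ((x : ZMod M))⁻¹ := by rw [h2, one_mul]
    _ = (Y : ZMod M) * ((x : ZMod M) * ((x : ZMod M))⁻¹) := by ring
    _ = _ := by rw [h3, mul_one]

/-- the product of the two phases -/
private lemma n14b_phase (m m' a g μ μ' q c x : ℕ) (n s : ℤ) (hm0 : m ≠ 0) (hm0' : m' ≠ 0)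
    (ha : a ≠ 0) (hm : m = g * μ) (hm' : m' = g * μ') (hq : q = g * μ * μ' * a)
    (hx : Nat.Coprime (c * x) q) (hc : Nat.Coprime c q) (hxx : Nat.Coprime x q) :
    er (m * a) (2 * (s : ZMod (m * a)) * (n : ZMod (m * a)) * (((c * x : ℕ) : ZMod (m * a)))⁻¹) *
      (starRingEnd ℂ) (er (m' * a) (2 * (s : ZMod (m' * a)) * (n : ZMod (m' * a)) *
        (((c * x : ℕ) : ZMod (m' * a)))⁻¹)) =
    er q ((2 * s * n * ((μ' : ℤ) - μ) : ℤ) * (c : ZMod q)⁻¹ * (x : ZMod q)⁻¹) := by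
  have hg0 : g ≠ 0 := by rintro rfl; simp at hm; exact hm0 hm
  have hμ0 : μ ≠ 0 := by rintro rfl; simp at hm; exact hm0 hm
  have hμ0' : μ' ≠ 0 := by rintro rfl; simp at hm'; exact hm0' hm'
  have hq0 : q ≠ 0 := by rw [hq]; positivity
  have hMa : m * a ∣ q := ⟨μ', by rw [hq, hm]; ring⟩
  have hMa' : m' * a ∣ q := ⟨μ, by rw [hq, hm']; ring⟩
  obtain ⟨Y, hY⟩ : ∃ Y : ℤ, (q : ℤ) ∣ Y * ((c * x : ℕ) : ℤ) - 1 := by
    have h1 : IsCoprime ((c * x : ℕ) : ℤ) (q : ℤ) := Nat.isCoprime_iff_coprime.mpr hx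
    obtain ⟨u, v, huv⟩ := h1
    exact ⟨u, ⟨-v, by linear_combination huv⟩⟩
  rw [n14b_inv (m * a) q (c * x) hMa hx Y hY, n14b_inv (m' * a) q (c * x) hMa' hx Y hY]
  have hcx : (c : ZMod q)⁻¹ * (x : ZMod q)⁻¹ = (Y : ZMod q) := by
    rw [← n14b_inv q q (c * x) dvd_rfl hx Y hY]
    obtain ⟨u, hu⟩ : ∃ u : (ZMod q)ˣ, (u : ZMod q) = (c : ZMod q) := ⟨ZMod.unitOfCoprime c hc, rfl⟩
    obtain ⟨v, hv⟩ : ∃ v : (ZMod q)ˣ, (v : ZMod q) = (x : ZMod q) :=
      ⟨ZMod.unitOfCoprime x hxx, rfl⟩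
    rw [Nat.cast_mul, ← hu, ← hv, ← Units.val_mul, ZMod.inv_coe_unit, ZMod.inv_coe_unit,
      ZMod.inv_coe_unit, mul_inv, Units.val_mul]
  rw [mul_assoc _ ((c : ZMod q)⁻¹), hcx]
  have e1 : (2 * (s : ZMod (m * a)) * (n : ZMod (m * a)) * (Y : ZMod (m * a))) =
      ((2 * s * n * Y : ℤ) : ZMod (m * a)) := by push_cast; ring
  have e2 : (2 * (s : ZMod (m' * a)) * (n : ZMod (m' * a)) * (Y : ZMod (m' * a))) =
      ((2 * s * n * Y : ℤ) : ZMod (m' * a)) := by push_cast; ring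
  have e3 : ((2 * s * n * ((μ' : ℤ) - μ) : ℤ) : ZMod q) * (Y : ZMod q) =
      ((2 * s * n * ((μ' : ℤ) - μ) * Y : ℤ) : ZMod q) := by push_cast; ring
  rw [e1, e2, e3, ← er_neg _ (by positivity), ← Int.cast_neg, er_intCast _ (by positivity),
    er_intCast _ (by positivity), er_intCast _ hq0, ← Complex.exp_add]
  congr 1
  have hgc : (g : ℂ) ≠ 0 := by exact_mod_cast hg0
  have hμc : (μ : ℂ) ≠ 0 := by exact_mod_cast hμ0
  have hμc' : (μ' : ℂ) ≠ 0 := by exact_mod_cast hμ0'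
  have hac : (a : ℂ) ≠ 0 := by exact_mod_cast ha
  rw [hq, hm, hm']
  push_cast
  field_simp
  ring

/-- Cauchy-Schwarz over `b`, the modulus `m a'` varies -/
theorem CS3 : ∃ C : ℝ, 1 ≤ C ∧ ∀ n c0 a m2 : ℕ, 1 ≤ n → Sm n c0 → 1 ≤ a → 1 ≤ m2 →
    Nat.Coprime a (2 * n) → Nat.Coprime m2 (2 * n * a) → ∀ s : ℤ, (s = 1 ∨ s = -1) →
    ∀ (Γ : ZMod (2 * c0) → ℂ), (∀ v, ‖Γ v‖ ≤ 1) →
    ∀ (S : Finset ℕ), (∀ m ∈ S, 1 ≤ m ∧ Nat.Coprime m (2 * n * m2)) →
    ∀ (e : ℕ → ℂ) (V : ℝ) (wt : ℕ → ℕ → ℂ), (∀ m ∈ S, BV (wt m) V) → 0 ≤ V → ∀ B : ℕ,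
    ∑ b ∈ (Finset.Icc 1 B).filter (fun b => Nat.Coprime b (2 * n * a)),
      ‖∑ m ∈ S.filter (fun m => Nat.Coprime m b), e m * Γ ((m * b : ℕ) : ZMod (2 * c0)) *
        er (m * a) (2 * (s : ZMod (m * a)) * (n : ZMod (m * a)) *
          (((c0 * (m2 * b) : ℕ) : ZMod (m * a)))⁻¹) * wt m b‖ ^ 2 ≤
    ∑ m ∈ S, ∑ m' ∈ S, ‖e m‖ * ‖e m'‖ *
      (if m = m' then (B : ℝ) else
        B * |(m : ℝ) - m'| / (m * m' * a) +
        C * c0 * tau (2 * n) * (1 + V) * ((m : ℝ) * m' * a) ^ (4 / 5 : ℝ) *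
          |(m : ℝ) - m'| ^ (1 / 4 : ℝ)) := by
  obtain ⟨C, hC1, hIK⟩ := IK2
  refine ⟨2 * C, by linarith, ?_⟩
  intro n c0 a m2 hn hc0 ha hm2 han hm2a s hs Γ hΓ S hS e V wt hwt hV B
  have ha0 : a ≠ 0 := by omega
  obtain ⟨F, hF⟩ : ∃ F : Finset ℕ,
    F = (Finset.Icc 1 B).filter (fun b => Nat.Coprime b (2 * n * a)) := ⟨_, rfl⟩
  rw [← hF]
  have hFB : (F.card : ℝ) ≤ B := by
    rw [hF]
    have := Finset.card_filter_le (Finset.Icc 1 B) (fun b => Nat.Coprime b (2 * n * a))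
    rw [Nat.card_Icc] at this
    exact_mod_cast (by omega : ((Finset.Icc 1 B).filter (fun b => Nat.Coprime b (2 * n * a))).card
      ≤ B)
  obtain ⟨g, hg⟩ : ∃ g : ℕ → ℕ → ℂ, g = fun m b => if Nat.Coprime m b then
    e m * Γ ((m * b : ℕ) : ZMod (2 * c0)) *
        er (m * a) (2 * (s : ZMod (m * a)) * (n : ZMod (m * a)) *
          (((c0 * (m2 * b) : ℕ) : ZMod (m * a)))⁻¹) * wt m b else 0 := ⟨_, rfl⟩
  have h1 : ∀ b ∈ F, ‖∑ m ∈ S.filter (fun m => Nat.Coprime m b),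
      e m * Γ ((m * b : ℕ) : ZMod (2 * c0)) *
        er (m * a) (2 * (s : ZMod (m * a)) * (n : ZMod (m * a)) *
          (((c0 * (m2 * b) : ℕ) : ZMod (m * a)))⁻¹) * wt m b‖ ^ 2 = ‖∑ m ∈ S, g m b‖ ^ 2 := by
    intro b _
    rw [Finset.sum_filter, hg]
  rw [Finset.sum_congr rfl h1, n14b_open]
  refine (norm_sum_le _ _).trans (Finset.sum_le_sum ?_)
  intro m hm
  refine (norm_sum_le _ _).trans (Finset.sum_le_sum ?_)
  intro m' hm'
  split_ifs with hmm
  · -- diagonal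
    subst hmm
    calc ‖∑ b ∈ F, g m b * (starRingEnd ℂ) (g m b)‖ ≤ ∑ _b ∈ F, ‖e m‖ * ‖e m‖ := by
          refine (norm_sum_le _ _).trans (Finset.sum_le_sum ?_)
          intro b _
          have h2 : ‖g m b‖ ≤ ‖e m‖ := by
            rw [hg]
            simp only
            split_ifs
            · rw [norm_mul, norm_mul, norm_mul, norm_er, mul_one]
              calc ‖e m‖ * ‖Γ ((m * b : ℕ) : ZMod (2 * c0))‖ * ‖wt m b‖ ≤ ‖e m‖ * 1 * 1 := by
                    gcongr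
                    · exact hΓ _
                    · exact (hwt m hm).bd b
                _ = ‖e m‖ := by ring
            · simp
          rw [norm_mul, RCLike.norm_conj]
          exact mul_le_mul h2 h2 (norm_nonneg _) (norm_nonneg _)
      _ = F.card * (‖e m‖ * ‖e m‖) := by rw [Finset.sum_const, nsmul_eq_mul]
      _ ≤ B * (‖e m‖ * ‖e m‖) := by gcongr
      _ = _ := by ring
  · -- off the diagonal
    obtain ⟨hm1, hmc⟩ := hS m hm
    obtain ⟨hm1', hmc'⟩ := hS m' hm'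
    obtain ⟨d, hd⟩ : ∃ d : ℕ, d = Nat.gcd m m' := ⟨_, rfl⟩
    have hd0 : 0 < d := by rw [hd]; exact Nat.gcd_pos_of_pos_left _ hm1
    obtain ⟨μ, hμ⟩ : ∃ μ, m = d * μ := by rw [hd]; exact Nat.gcd_dvd_left m m'
    obtain ⟨μ', hμ'⟩ : ∃ μ', m' = d * μ' := by rw [hd]; exact Nat.gcd_dvd_right m m'
    have hμ0 : 0 < μ := by
      rcases Nat.eq_zero_or_pos μ with h | h
      · rw [h] at hμ; omega
      · exact h
    have hμ0' : 0 < μ' := by
      rcases Nat.eq_zero_or_pos μ' with h | h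
      · rw [h] at hμ'; omega
      · exact h
    obtain ⟨q, hq⟩ : ∃ q : ℕ, q = d * μ * μ' * a := ⟨_, rfl⟩
    have hq0 : q ≠ 0 := by rw [hq]; positivity
    haveI : NeZero q := ⟨hq0⟩
    have hq1 : q = m * μ' * a := by rw [hq, hμ]
    -- coprimality with `q`
    have hcop : ∀ x : ℕ, Nat.Coprime x m → Nat.Coprime x m' → Nat.Coprime x a →
        Nat.Coprime x q := by
      intro x h1 h2 h3
      rw [hq1]
      refine Nat.Coprime.mul_right (Nat.Coprime.mul_right h1 ?_) h3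
      exact Nat.Coprime.coprime_dvd_right ⟨d, by rw [hμ']; ring⟩ h2
    have h2n : Nat.Coprime (2 * n) q := by
      apply hcop
      · exact (Nat.Coprime.coprime_dvd_right (dvd_mul_right _ _) hmc).symm
      · exact (Nat.Coprime.coprime_dvd_right (dvd_mul_right _ _) hmc').symm
      · exact han.symm
    have hc0q : Nat.Coprime c0 q := by
      rw [Nat.coprime_iff_gcd_eq_one]
      by_contra hne
      obtain ⟨p, hp, hpd⟩ := Nat.exists_prime_and_dvd hne
      have hp1 : p ∣ c0 := hpd.trans (Nat.gcd_dvd_left _ _)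
      have hp2 : p ∣ q := hpd.trans (Nat.gcd_dvd_right _ _)
      have hp3 : p ∣ 2 * n := hc0.2 p hp hp1
      have := Nat.dvd_gcd hp3 hp2
      rw [Nat.coprime_iff_gcd_eq_one.mp h2n] at this
      exact hp.one_lt.ne' (Nat.dvd_one.mp this)
    have hm2q : Nat.Coprime m2 q := by
      apply hcop
      · exact (Nat.Coprime.coprime_dvd_right (dvd_mul_left _ _) hmc).symm
      · exact (Nat.Coprime.coprime_dvd_right (dvd_mul_left _ _) hmc').symm
      · exact Nat.Coprime.coprime_dvd_right (dvd_mul_left _ _) hm2a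
    -- the sum over `b`
    obtain ⟨k, hk⟩ : ∃ k : ZMod q, k = (2 * s * n * ((μ' : ℤ) - μ) : ℤ) *
      ((c0 * m2 : ℕ) : ZMod q)⁻¹ := ⟨_, rfl⟩
    obtain ⟨F', hF'⟩ : ∃ F' : Finset ℕ,
      F' = (Finset.Icc 1 B).filter (fun b => Nat.Coprime b (2 * n * q)) := ⟨_, rfl⟩
    have hsub : F' ⊆ F := by
      intro b hb
      rw [hF', Finset.mem_filter] at hb
      rw [hF, Finset.mem_filter]
      refine ⟨hb.1, Nat.Coprime.coprime_dvd_right ?_ hb.2⟩
      rw [hq]
      exact ⟨d * μ * μ', by ring⟩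
    have hsum : ∑ b ∈ F, g m b * (starRingEnd ℂ) (g m' b) = (e m * (starRingEnd ℂ) (e m')) *
        ∑ b ∈ F', (fun v : ZMod (2 * c0) => Γ (m * v) * (starRingEnd ℂ) (Γ (m' * v)))
          (b : ZMod (2 * c0)) * (fun b => wt m b * (starRingEnd ℂ) (wt m' b)) b *
          er q (k * (b : ZMod q)⁻¹) := by
      rw [← Finset.sum_subset hsub, Finset.mul_sum]
      · refine Finset.sum_congr rfl ?_
        intro b hb
        rw [hF', Finset.mem_filter] at hb
        have hbq : Nat.Coprime b q := Nat.Coprime.coprime_dvd_right (dvd_mul_left _ _) hb.2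
        have hmq : m ∣ q := ⟨μ' * a, by rw [hq1]; ring⟩
        have hmq' : m' ∣ q := ⟨μ * a, by rw [hq, hμ']; ring⟩
        have hbm : Nat.Coprime m b := (Nat.Coprime.coprime_dvd_right hmq hbq).symm
        have hbm' : Nat.Coprime m' b := (Nat.Coprime.coprime_dvd_right hmq' hbq).symm
        have hcm : Nat.Coprime (c0 * m2) q := Nat.Coprime.mul_left hc0q hm2q
        have hph := n14b_phase m m' a d μ μ' q (c0 * m2) b n s (by omega) (by omega) ha0 hμ hμ' hq
          (Nat.Coprime.mul_left hcm hbq) hcm hbq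
        rw [hg]
        simp only [if_pos hbm, if_pos hbm']
        have hcast : ∀ M : ℕ, (((c0 * (m2 * b) : ℕ) : ZMod M)) = ((c0 * m2 * b : ℕ) : ZMod M) := by
          intro M; congr 1; ring
        rw [hcast, hcast, hk]
        rw [← hph]
        simp only [map_mul, Nat.cast_mul, Int.cast_natCast]
        ring
      · intro b hb hb'
        rw [hF, Finset.mem_filter] at hb
        rw [hg]
        simp only
        by_cases hbm : Nat.Coprime m b
        · by_cases hbm' : Nat.Coprime m' b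
          · exfalso
            apply hb'
            rw [hF', Finset.mem_filter]
            refine ⟨hb.1, Nat.Coprime.mul_right ?_ ?_⟩
            · exact Nat.Coprime.coprime_dvd_right (dvd_mul_right _ _) hb.2
            · exact hcop b hbm.symm hbm'.symm
                (Nat.Coprime.coprime_dvd_right (dvd_mul_left _ _) hb.2)
          · simp [hbm']
        · simp [hbm]
    rw [hsum, norm_mul, norm_mul, RCLike.norm_conj]
    refine mul_le_mul_of_nonneg_left ?_ (by positivity)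
    have hBV : BV (fun b => wt m b * (starRingEnd ℂ) (wt m' b)) (V + V) :=
      (hwt m hm).mul (hwt m' hm').conj
    have h4 := hIK n c0 q hn hc0 h2n.symm
      (fun v : ZMod (2 * c0) => Γ (m * v) * (starRingEnd ℂ) (Γ (m' * v)))
      (by
        intro v
        rw [norm_mul, RCLike.norm_conj]
        exact mul_le_one₀ (hΓ _) (norm_nonneg _) (hΓ _)) k _ (V + V) hBV B
    rw [← hF'] at h4
    refine h4.trans ?_
    -- the gcd
    have hne : ((μ' : ℤ) - μ) ≠ 0 := by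
      intro h0
      apply hmm
      have : μ' = μ := by omega
      rw [hμ, hμ', this]
    have hgz : gz q k ≤ ((μ' : ℤ) - μ).natAbs := by
      have hu : IsUnit (((2 * s * n : ℤ) : ZMod q) * ((c0 * m2 : ℕ) : ZMod q)⁻¹) := by
        apply IsUnit.mul
        · have e1 : ((2 * s * n : ℤ) : ZMod q) = (s : ZMod q) * ((2 * n : ℕ) : ZMod q) := by
            push_cast; ring
          rw [e1]
          apply IsUnit.mul
          · rcases hs with rfl | rfl
            · simp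
            · simp
          · exact (ZMod.isUnit_iff_coprime (2 * n) q).mpr h2n
        · have h5 : Nat.Coprime (c0 * m2) q := Nat.Coprime.mul_left hc0q hm2q
          have h6 : ((c0 * m2 : ℕ) : ZMod q) = (ZMod.unitOfCoprime _ h5 : (ZMod q)ˣ) := rfl
          rw [h6, ZMod.inv_coe_unit]
          exact Units.isUnit _
      have e2 : k = (((2 * s * n : ℤ) : ZMod q) * ((c0 * m2 : ℕ) : ZMod q)⁻¹) *
          (((μ' : ℤ) - μ : ℤ) : ZMod q) := by
        rw [hk]; push_cast; ring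
      rw [e2, gz_mul_unit q hq0 _ _ hu, gz_intCast q hq0]
      exact Nat.gcd_le_left _ (Int.natAbs_pos.mpr hne)
    have hdR : (1 : ℝ) ≤ d := by exact_mod_cast hd0
    have hμR : (0 : ℝ) < μ := by exact_mod_cast hμ0
    have hμR' : (0 : ℝ) < μ' := by exact_mod_cast hμ0'
    have haR : (0 : ℝ) < a := by exact_mod_cast ha
    have habs : (((μ' : ℤ) - μ).natAbs : ℝ) * d = |(m : ℝ) - m'| := by
      rw [Nat.cast_natAbs, hμ, hμ']
      push_cast
      rw [abs_sub_comm, ← mul_sub, abs_mul, abs_of_nonneg (by positivity : (0 : ℝ) ≤ d), mul_comm]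
    have hgzR : (gz q k : ℝ) ≤ |(m : ℝ) - m'| / d := by
      rw [le_div_iff₀ (by positivity), ← habs]
      gcongr
    have hgz2 : (gz q k : ℝ) ≤ |(m : ℝ) - m'| := hgzR.trans (div_le_self (abs_nonneg _) hdR)
    have hqR : (q : ℝ) = d * μ * μ' * a := by rw [hq]; push_cast; ring
    have hmm' : (m : ℝ) * m' * a = d * q := by
      rw [hqR, hμ, hμ']; push_cast; ring
    have hqpos : (0 : ℝ) < q := by rw [hqR]; positivity
    apply add_le_add
    · have hff : ff n * B ≤ 1 * B := mul_le_mul_of_nonneg_right (ff_le_one n) (Nat.cast_nonneg _)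
      have hff0 : 0 ≤ ff n * B := by
        have : 0 ≤ ff n := by unfold ff; positivity
        exact mul_nonneg this (Nat.cast_nonneg _)
      calc (gz q k : ℝ) / q * (ff n * B) ≤ (|(m : ℝ) - m'| / d) / q * (1 * B) :=
            mul_le_mul (div_le_div_of_nonneg_right hgzR hqpos.le) hff hff0
              (div_nonneg (div_nonneg (abs_nonneg _) (by linarith)) hqpos.le)
        _ = B * |(m : ℝ) - m'| / (m * m' * a) := by
            rw [hmm']
            field_simp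
    · have htau : 0 ≤ tau (2 * n) := by unfold tau; exact Nat.cast_nonneg _
      have h5 : (q : ℝ) ^ (4 / 5 : ℝ) ≤ ((m : ℝ) * m' * a) ^ (4 / 5 : ℝ) := by
        apply Real.rpow_le_rpow hqpos.le _ (by norm_num)
        rw [hmm']
        exact le_mul_of_one_le_left hqpos.le hdR
      have h6 : (gz q k : ℝ) ^ (1 / 4 : ℝ) ≤ |(m : ℝ) - m'| ^ (1 / 4 : ℝ) :=
        Real.rpow_le_rpow (by positivity) hgz2 (by norm_num)
      calc C * c0 * tau (2 * n) * (1 + (V + V)) * (q : ℝ) ^ (4 / 5 : ℝ) *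
            (gz q k : ℝ) ^ (1 / 4 : ℝ) ≤
          C * c0 * tau (2 * n) * (2 * (1 + V)) * ((m : ℝ) * m' * a) ^ (4 / 5 : ℝ) *
            |(m : ℝ) - m'| ^ (1 / 4 : ℝ) := by
            gcongr
            linarith
        _ = _ := by ring

end RV11
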