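import Pool.Agent.LibRV11.N13d
import Pool.Agent.LibRV11.N13a

open Complex Real

namespace RV11

/-- the gcd is at most the sum of the common divisors -/
theorem N15a_gcd_le (x a : ℕ) (ha : 1 ≤ a) :
    (Nat.gcd x a : ℝ) ≤ ∑ g ∈ a.divisors, if g ∣ x then (g : ℝ) else 0 := by
  have hmem : Nat.gcd x a ∈ a.divisors :=
    Nat.mem_divisors.mpr ⟨Nat.gcd_dvd_right _ _, by omega⟩
  have h := Finset.single_le_sum (f := fun g : ℕ => if g ∣ x then (g : ℝ) else 0)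
    (fun g _ => by split_ifs <;> positivity) hmem
  simp only [if_pos (Nat.gcd_dvd_left x a)] at h
  exact h

/-- large `n` -/
theorem N15a_large : ∃ n0 : ℕ, ∀ n : ℕ, n0 ≤ n → 1 ≤ n ∧
    (1 + Real.log n) * tau (2 * n) ^ 2 * (n : ℝ) ^ (1 / 100 : ℝ) ≤ (n : ℝ) ^ (1 / 30 : ℝ) := by
  obtain ⟨C, hC1, hC⟩ := tau_bound (1 / 400) (by norm_num)
  have h2 : Filter.Tendsto (fun x : ℝ => Real.log x / x ^ (1 / 400 : ℝ)) Filter.atTop (nhds 0) :=
    (isLittleO_log_rpow_atTop (by norm_num)).tendsto_div_nhds_zero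
  have h3 : Filter.Tendsto (fun x : ℝ => x ^ (1 / 400 : ℝ)) Filter.atTop Filter.atTop :=
    tendsto_rpow_atTop (by norm_num)
  have h4 := ((h2.eventually_le_const (show (0 : ℝ) < 1 by norm_num)).and
    ((h3.eventually_ge_atTop (2 * (C * 2) ^ 2)).and (Filter.eventually_ge_atTop 1)))
  obtain ⟨N0, hN0⟩ := Filter.eventually_atTop.mp (tendsto_natCast_atTop_atTop.eventually h4)
  refine ⟨max N0 1, ?_⟩
  intro n hn
  obtain ⟨a1, a2, a3⟩ := hN0 n (le_trans (le_max_left _ _) hn)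
  have hn1 : 1 ≤ n := le_trans (le_max_right _ _) hn
  have hn0 : (0 : ℝ) < n := by exact_mod_cast hn1
  refine ⟨hn1, ?_⟩
  set y : ℝ := (n : ℝ) ^ (1 / 400 : ℝ) with hy
  have hy0 : 0 < y := Real.rpow_pos_of_pos hn0 _
  have hy1 : 1 ≤ y := Real.one_le_rpow (by exact_mod_cast hn1) (by norm_num)
  have hlog : 1 + Real.log n ≤ 2 * y := by
    rw [div_le_one hy0] at a1
    linarith
  have htau : tau (2 * n) ≤ C * 2 * y := by
    refine (hC (2 * n) (by omega)).trans ?_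
    rw [mul_assoc]
    refine mul_le_mul_of_nonneg_left ?_ (by linarith)
    push_cast
    rw [Real.mul_rpow (by norm_num) hn0.le]
    refine mul_le_mul_of_nonneg_right ?_ hy0.le
    calc (2 : ℝ) ^ (1 / 400 : ℝ) ≤ (2 : ℝ) ^ (1 : ℝ) :=
          Real.rpow_le_rpow_of_exponent_le (by norm_num) (by norm_num)
      _ = 2 := Real.rpow_one 2
  have htau0 : 0 ≤ tau (2 * n) := by unfold tau; positivity
  have hlog0 : 0 ≤ 1 + Real.log n := by
    have := Real.log_natCast_nonneg n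
    linarith
  calc (1 + Real.log n) * tau (2 * n) ^ 2 * (n : ℝ) ^ (1 / 100 : ℝ)
      ≤ (2 * y) * (C * 2 * y) ^ 2 * (n : ℝ) ^ (1 / 100 : ℝ) := by gcongr
    _ = (2 * (C * 2) ^ 2) * (y ^ 3 * (n : ℝ) ^ (1 / 100 : ℝ)) := by ring
    _ ≤ y * (y ^ 3 * (n : ℝ) ^ (1 / 100 : ℝ)) := by
        refine mul_le_mul_of_nonneg_right a2 ?_
        positivity
    _ = y ^ 4 * (n : ℝ) ^ (1 / 100 : ℝ) := by ring
    _ = (n : ℝ) ^ (1 / 50 : ℝ) := by
        rw [hy, ← Real.rpow_natCast, ← Real.rpow_mul hn0.le, ← Real.rpow_add hn0]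
        norm_num
    _ ≤ (n : ℝ) ^ (1 / 30 : ℝ) :=
        Real.rpow_le_rpow_of_exponent_le (by exact_mod_cast hn1) (by norm_num)

/-- range (i): average of `(m - m', a)` with weights -/
theorem sum_i : ∃ (C : ℝ) (n0 : ℕ), 1 ≤ C ∧ ∀ n : ℕ, n0 ≤ n → ∀ a Z : ℕ, 1 ≤ a →
    Nat.Coprime a (2 * n) → (a : ℝ) ≤ (n : ℝ) ^ (1 / 100 : ℝ) → (n : ℝ) ^ (1 / 30 : ℝ) ≤ Z →
    Z ≤ n →
    ∑ m ∈ (Finset.Icc 1 Z).filter (fun m => Nat.Coprime m (2 * n * a)),
      ∑ m' ∈ (Finset.Icc 1 Z).filter (fun m => Nat.Coprime m (2 * n * a)),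
        sg m * sg m' * (Nat.gcd ((m : ℤ) - m').natAbs a : ℝ) ≤
      C * ff n ^ 2 * (Z : ℝ) ^ 4 * tau a := by
  classical
  obtain ⟨C1, hC1, hS⟩ := sum_S
  obtain ⟨n0, hn0⟩ := N15a_large
  refine ⟨4 * C1 ^ 2, n0, by nlinarith, ?_⟩
  intro n hn a Z ha hcop hale hZ hZn
  obtain ⟨hn1, hlarge⟩ := hn0 n hn
  have hnR : (1 : ℝ) ≤ n := by exact_mod_cast hn1
  have hnpos : (0 : ℝ) < n := by linarith
  have hZR : (1 : ℝ) ≤ Z := le_trans (Real.one_le_rpow hnR (by norm_num)) hZ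
  have hZ1 : 1 ≤ Z := by exact_mod_cast hZR
  have hff0 : 0 < ff n := ff_pos n hn1
  have htau1 : 1 ≤ tau (2 * n) := tau_pos (2 * n) (by omega)
  have htau0 : 0 < tau (2 * n) := by linarith
  -- the error term is absorbed
  have herr : ∀ g : ℕ, 1 ≤ g → g ∣ a → (Z : ℝ) * (1 + Real.log Z) * tau (2 * n) ≤
      ff n * (Z : ℝ) ^ 2 / g := by
    intro g hg hga
    have hgR : (0 : ℝ) < g := by exact_mod_cast hg
    have hgn : (g : ℝ) ≤ (n : ℝ) ^ (1 / 100 : ℝ) := by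
      refine le_trans ?_ hale
      exact_mod_cast Nat.le_of_dvd (by omega) hga
    have hlogZ : Real.log Z ≤ Real.log n := Real.log_le_log (by linarith) (by exact_mod_cast hZn)
    have hlogZ0 : 0 ≤ Real.log Z := Real.log_nonneg hZR
    rw [le_div_iff₀ hgR]
    have hff1 : 1 ≤ ff n * tau (2 * n) := by
      have := inv_tau_le_ff n hn1
      rwa [div_le_iff₀ htau0] at this
    have h1 : (1 + Real.log Z) * tau (2 * n) ^ 2 * g ≤ Z := by
      calc (1 + Real.log Z) * tau (2 * n) ^ 2 * g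
          ≤ (1 + Real.log n) * tau (2 * n) ^ 2 * (n : ℝ) ^ (1 / 100 : ℝ) := by gcongr
        _ ≤ (n : ℝ) ^ (1 / 30 : ℝ) := hlarge
        _ ≤ Z := hZ
    calc (Z : ℝ) * (1 + Real.log Z) * tau (2 * n) * g
        = Z * ((1 + Real.log Z) * tau (2 * n) * g) * 1 := by ring
      _ ≤ Z * ((1 + Real.log Z) * tau (2 * n) * g) * (ff n * tau (2 * n)) := by gcongr
      _ = ff n * Z * ((1 + Real.log Z) * tau (2 * n) ^ 2 * g) := by ring
      _ ≤ ff n * Z * Z := by gcongr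
      _ = ff n * (Z : ℝ) ^ 2 := by ring
  set T := (Finset.Icc 1 Z).filter (fun m => Nat.Coprime m (2 * n * a)) with hT
  have hTm : ∀ m ∈ T, m ∈ Finset.Icc 1 Z ∧ Nat.Coprime m (2 * n) ∧ Nat.Coprime m a := by
    intro m hm
    rw [hT, Finset.mem_filter] at hm
    exact ⟨hm.1, hm.2.coprime_mul_right_right, hm.2.coprime_mul_left_right⟩
  -- inner sums
  have hin : ∀ g ∈ a.divisors, ∀ m' ∈ T,
      ∑ m ∈ T, (if g ∣ ((m : ℤ) - m').natAbs then sg m * (g : ℝ) else 0) ≤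
        2 * C1 * ff n * (Z : ℝ) ^ 2 := by
    intro g hg m' hm'
    have hga : g ∣ a := Nat.dvd_of_mem_divisors hg
    have hg1 : 1 ≤ g := Nat.pos_of_mem_divisors hg
    have hgR : (0 : ℝ) < g := by exact_mod_cast hg1
    obtain ⟨-, b2, b3⟩ := hTm m' hm'
    have h1 := hS n g m' Z hn1 hg1 hZ1 (Nat.Coprime.coprime_dvd_left hga hcop)
      (Nat.Coprime.coprime_dvd_right hga b3)
    have hsub : T.filter (fun m : ℕ => g ∣ ((m : ℤ) - m').natAbs) ⊆
        (Finset.Icc 1 Z).filter (fun m => m ≡ m' [MOD g] ∧ Nat.Coprime m (2 * n)) := by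
      intro m hm
      rw [Finset.mem_filter] at hm
      obtain ⟨c1, c2, -⟩ := hTm m hm.1
      rw [Finset.mem_filter]
      refine ⟨c1, ?_, c2⟩
      have h2 : (g : ℤ) ∣ (m : ℤ) - m' := Int.natCast_dvd.mpr hm.2
      exact ((Nat.modEq_iff_dvd).mpr h2).symm
    calc ∑ m ∈ T, (if g ∣ ((m : ℤ) - m').natAbs then sg m * (g : ℝ) else 0)
        = (∑ m ∈ T.filter (fun m : ℕ => g ∣ ((m : ℤ) - m').natAbs), sg m) * g := by
          rw [← Finset.sum_filter, Finset.sum_mul]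
      _ ≤ (∑ m ∈ (Finset.Icc 1 Z).filter (fun m => m ≡ m' [MOD g] ∧ Nat.Coprime m (2 * n)),
            sg m) * g := by
          refine mul_le_mul_of_nonneg_right ?_ hgR.le
          exact Finset.sum_le_sum_of_subset_of_nonneg hsub fun m _ _ => sg_nonneg m
      _ ≤ (C1 * (ff n * (Z : ℝ) ^ 2 / g + ff n * (Z : ℝ) ^ 2 / g)) * g := by
          refine mul_le_mul_of_nonneg_right (h1.trans ?_) hgR.le
          have := herr g hg1 hga
          gcongr
      _ = 2 * C1 * ff n * (Z : ℝ) ^ 2 := by field_simp; ring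
  have hsg : ∑ m' ∈ T, sg m' ≤ 2 * C1 * ff n * (Z : ℝ) ^ 2 := by
    have h1 := hS n 1 0 Z hn1 le_rfl hZ1 (Nat.coprime_one_left _) (Nat.coprime_one_right _)
    have hsub : T ⊆ (Finset.Icc 1 Z).filter (fun m => m ≡ 0 [MOD 1] ∧ Nat.Coprime m (2 * n)) := by
      intro m hm
      obtain ⟨c1, c2, -⟩ := hTm m hm
      rw [Finset.mem_filter]
      exact ⟨c1, Nat.modEq_one, c2⟩
    calc ∑ m' ∈ T, sg m' ≤ _ :=
          Finset.sum_le_sum_of_subset_of_nonneg hsub fun m _ _ => sg_nonneg m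
      _ ≤ C1 * (ff n * (Z : ℝ) ^ 2 / (1 : ℕ) + ff n * (Z : ℝ) ^ 2 / (1 : ℕ)) := by
          refine h1.trans ?_
          have := herr 1 le_rfl (one_dvd a)
          gcongr
      _ = 2 * C1 * ff n * (Z : ℝ) ^ 2 := by push_cast; ring
  calc ∑ m ∈ T, ∑ m' ∈ T, sg m * sg m' * (Nat.gcd ((m : ℤ) - m').natAbs a : ℝ)
      ≤ ∑ m ∈ T, ∑ m' ∈ T, ∑ g ∈ a.divisors,
          sg m' * (if g ∣ ((m : ℤ) - m').natAbs then sg m * (g : ℝ) else 0) := by
        refine Finset.sum_le_sum fun m _ => Finset.sum_le_sum fun m' _ => ?_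
        calc sg m * sg m' * (Nat.gcd ((m : ℤ) - m').natAbs a : ℝ)
            ≤ sg m * sg m' * ∑ g ∈ a.divisors,
              (if g ∣ ((m : ℤ) - m').natAbs then (g : ℝ) else 0) :=
              mul_le_mul_of_nonneg_left (N15a_gcd_le _ a ha)
                (mul_nonneg (sg_nonneg m) (sg_nonneg m'))
          _ = _ := by
              rw [Finset.mul_sum]
              refine Finset.sum_congr rfl fun g _ => ?_
              split_ifs <;> ring
    _ = ∑ m' ∈ T, ∑ m ∈ T, ∑ g ∈ a.divisors,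
          sg m' * (if g ∣ ((m : ℤ) - m').natAbs then sg m * (g : ℝ) else 0) := Finset.sum_comm
    _ = ∑ m' ∈ T, ∑ g ∈ a.divisors, ∑ m ∈ T,
          sg m' * (if g ∣ ((m : ℤ) - m').natAbs then sg m * (g : ℝ) else 0) :=
        Finset.sum_congr rfl fun m' _ => Finset.sum_comm
    _ = ∑ g ∈ a.divisors, ∑ m' ∈ T, ∑ m ∈ T,
          sg m' * (if g ∣ ((m : ℤ) - m').natAbs then sg m * (g : ℝ) else 0) := Finset.sum_comm
    _ = ∑ g ∈ a.divisors, ∑ m' ∈ T, sg m' *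
          ∑ m ∈ T, (if g ∣ ((m : ℤ) - m').natAbs then sg m * (g : ℝ) else 0) := by
        simp_rw [Finset.mul_sum]
    _ ≤ ∑ _g ∈ a.divisors, (2 * C1 * ff n * (Z : ℝ) ^ 2) * (2 * C1 * ff n * (Z : ℝ) ^ 2) := by
        refine Finset.sum_le_sum fun g hg => ?_
        calc ∑ m' ∈ T, sg m' *
              ∑ m ∈ T, (if g ∣ ((m : ℤ) - m').natAbs then sg m * (g : ℝ) else 0)
            ≤ ∑ m' ∈ T, sg m' * (2 * C1 * ff n * (Z : ℝ) ^ 2) :=
              Finset.sum_le_sum fun m' hm' =>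
                mul_le_mul_of_nonneg_left (hin g hg m' hm') (sg_nonneg m')
          _ = (∑ m' ∈ T, sg m') * (2 * C1 * ff n * (Z : ℝ) ^ 2) := by rw [Finset.sum_mul]
          _ ≤ _ := by
              refine mul_le_mul_of_nonneg_right hsg ?_
              have : 0 ≤ C1 := by linarith
              positivity
    _ = 4 * C1 ^ 2 * ff n ^ 2 * (Z : ℝ) ^ 4 * tau a := by
        rw [Finset.sum_const, nsmul_eq_mul]
        unfold tau
        ring

end RV11
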