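import Pool.Agent.LibRV11.N13b
import Pool.Agent.LibRV11.N13a

open Complex Real

namespace RV11

/-- the gcd is at most the sum of the common divisors -/
theorem N15b_gcd_le (x a : ℕ) (ha : 1 ≤ a) :
    (Nat.gcd x a : ℝ) ≤ ∑ g ∈ a.divisors, if g ∣ x then (g : ℝ) else 0 := by
  have hmem : Nat.gcd x a ∈ a.divisors :=
    Nat.mem_divisors.mpr ⟨Nat.gcd_dvd_right _ _, by omega⟩
  have h := Finset.single_le_sum (f := fun g : ℕ => if g ∣ x then (g : ℝ) else 0)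
    (fun g _ => by split_ifs <;> positivity) hmem
  simp only [if_pos (Nat.gcd_dvd_left x a)] at h
  exact h

theorem N15b_count (m Z g : ℕ) (hm : m ∈ Finset.Icc 1 Z) :
    ((((Finset.Icc 1 Z).erase m).filter (fun m' : ℕ => g ∣ ((m : ℤ) - m').natAbs)).card) * g ≤
      2 * Z := by
  classical
  set D := (Finset.Ioc 0 Z).filter (fun d => g ∣ d) with hD
  have hsub : ((Finset.Icc 1 Z).erase m).filter (fun m' : ℕ => g ∣ ((m : ℤ) - m').natAbs) ⊆
      D.image (fun d => m - d) ∪ D.image (fun d => m + d) := by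
    intro m' hm'
    rw [Finset.mem_filter, Finset.mem_erase, Finset.mem_Icc] at hm'
    obtain ⟨⟨h1, h2, h3⟩, h4⟩ := hm'
    rw [Finset.mem_Icc] at hm
    rw [Finset.mem_union, Finset.mem_image, Finset.mem_image]
    rcases Nat.lt_or_ge m' m with h | h
    · left
      have h5 : ((m : ℤ) - m').natAbs = m - m' := by omega
      refine ⟨m - m', ?_, by omega⟩
      rw [hD, Finset.mem_filter, Finset.mem_Ioc]
      exact ⟨by omega, by rw [← h5]; exact h4⟩
    · right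
      have h5 : ((m : ℤ) - m').natAbs = m' - m := by omega
      refine ⟨m' - m, ?_, by omega⟩
      rw [hD, Finset.mem_filter, Finset.mem_Ioc]
      exact ⟨by omega, by rw [← h5]; exact h4⟩
  have hcard : (((Finset.Icc 1 Z).erase m).filter
      (fun m' : ℕ => g ∣ ((m : ℤ) - m').natAbs)).card ≤ 2 * (Z / g) := by
    calc _ ≤ (D.image (fun d => m - d) ∪ D.image (fun d => m + d)).card :=
          Finset.card_le_card hsub
      _ ≤ (D.image (fun d => m - d)).card + (D.image (fun d => m + d)).card :=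
          Finset.card_union_le _ _
      _ ≤ D.card + D.card := add_le_add Finset.card_image_le Finset.card_image_le
      _ = 2 * (Z / g) := by rw [hD, Nat.Ioc_filter_dvd_card_eq_div]; ring
  calc _ ≤ 2 * (Z / g) * g := Nat.mul_le_mul_right _ hcard
    _ = 2 * (Z / g * g) := by ring
    _ ≤ 2 * Z := Nat.mul_le_mul_left _ (Nat.div_mul_le_self Z g)

/-- ranges (ii): average of `(m - m', a)` over distinct pairs -/
theorem sum_gcd (a Z : ℕ) (ha : 1 ≤ a) :
    ∑ m ∈ Finset.Icc 1 Z, ∑ m' ∈ (Finset.Icc 1 Z).erase m,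
        (Nat.gcd ((m : ℤ) - m').natAbs a : ℝ) ≤ 2 * (Z : ℝ) ^ 2 * tau a := by
  classical
  have hinner : ∀ m ∈ Finset.Icc 1 Z, ∑ m' ∈ (Finset.Icc 1 Z).erase m,
      (Nat.gcd ((m : ℤ) - m').natAbs a : ℝ) ≤ 2 * (Z : ℝ) * tau a := by
    intro m hm
    calc ∑ m' ∈ (Finset.Icc 1 Z).erase m, (Nat.gcd ((m : ℤ) - m').natAbs a : ℝ)
        ≤ ∑ m' ∈ (Finset.Icc 1 Z).erase m, ∑ g ∈ a.divisors,
            (if g ∣ ((m : ℤ) - m').natAbs then (g : ℝ) else 0) :=
          Finset.sum_le_sum fun m' _ => N15b_gcd_le _ a ha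
      _ = ∑ g ∈ a.divisors, ∑ m' ∈ (Finset.Icc 1 Z).erase m,
            (if g ∣ ((m : ℤ) - m').natAbs then (g : ℝ) else 0) := Finset.sum_comm
      _ ≤ ∑ _g ∈ a.divisors, 2 * (Z : ℝ) := by
          refine Finset.sum_le_sum fun g _ => ?_
          rw [← Finset.sum_filter, Finset.sum_const, nsmul_eq_mul]
          exact_mod_cast N15b_count m Z g hm
      _ = 2 * (Z : ℝ) * tau a := by
          rw [Finset.sum_const, nsmul_eq_mul]
          unfold tau
          ring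
  calc ∑ m ∈ Finset.Icc 1 Z, ∑ m' ∈ (Finset.Icc 1 Z).erase m,
        (Nat.gcd ((m : ℤ) - m').natAbs a : ℝ)
      ≤ ∑ _m ∈ Finset.Icc 1 Z, 2 * (Z : ℝ) * tau a := Finset.sum_le_sum hinner
    _ = 2 * (Z : ℝ) ^ 2 * tau a := by
        rw [Finset.sum_const, Nat.card_Icc, nsmul_eq_mul, Nat.add_sub_cancel]
        ring

/-- convergence of the sum over `a` in range (i) -/
theorem sum_a_conv : ∃ C : ℝ, ∀ N : ℕ,
    ∑ a ∈ Finset.Icc 1 N, tau a ^ (5 / 2 : ℝ) * (a : ℝ) ^ (-(3 / 2) : ℝ) ≤ C := by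
  obtain ⟨C, hC1, hC⟩ := tau_bound (1 / 10) (by norm_num)
  have hC0 : 0 ≤ C := by linarith
  have hsum : Summable (fun a : ℕ => C ^ (5 / 2 : ℝ) * ((a : ℝ) ^ (5 / 4 : ℝ))⁻¹) :=
    (Real.summable_nat_rpow_inv.mpr (by norm_num)).mul_left _
  refine ⟨∑' a : ℕ, C ^ (5 / 2 : ℝ) * ((a : ℝ) ^ (5 / 4 : ℝ))⁻¹, ?_⟩
  intro N
  refine le_trans (Finset.sum_le_sum fun a ha => ?_)
    (hsum.sum_le_tsum (Finset.Icc 1 N) (fun a _ => by positivity))
  have ha1 : 1 ≤ a := (Finset.mem_Icc.mp ha).1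
  have ha0 : (0 : ℝ) < a := by exact_mod_cast ha1
  have ht0 : 0 ≤ tau a := by unfold tau; positivity
  calc tau a ^ (5 / 2 : ℝ) * (a : ℝ) ^ (-(3 / 2) : ℝ)
      ≤ (C * (a : ℝ) ^ (1 / 10 : ℝ)) ^ (5 / 2 : ℝ) * (a : ℝ) ^ (-(3 / 2) : ℝ) := by
        refine mul_le_mul_of_nonneg_right ?_ (Real.rpow_nonneg ha0.le _)
        exact Real.rpow_le_rpow ht0 (hC a ha1) (by norm_num)
    _ = C ^ (5 / 2 : ℝ) * ((a : ℝ) ^ (5 / 4 : ℝ))⁻¹ := by
        rw [Real.mul_rpow hC0 (Real.rpow_nonneg ha0.le _), ← Real.rpow_mul ha0.le, mul_assoc,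
          ← Real.rpow_add ha0, ← Real.rpow_neg ha0.le]
        norm_num

theorem sum_a_log (N : ℕ) (hN : 1 ≤ N) :
    ∑ a ∈ Finset.Icc 1 N, (1 : ℝ) / a ≤ 1 + Real.log N := by
  have h := harmonic_le_one_add_log N
  rw [harmonic_eq_sum_Icc] at h
  push_cast at h
  simpa [one_div] using h

end RV11
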