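import Pool.Agent.LibRV11.N14
import Pool.Agent.LibRV11.N14a
import Pool.Agent.LibRV11.N13f

open Complex Real

namespace RV11

theorem N16a_inv_mul {a : ℕ} {x y : ZMod a} (hx : IsUnit x) (hy : IsUnit y) :
    (x * y)⁻¹ = x⁻¹ * y⁻¹ := by
  have h1 : (x * y)⁻¹ * (x * y) = 1 := ZMod.inv_mul_of_unit _ (hx.mul hy)
  have h2 : x * x⁻¹ = 1 := ZMod.mul_inv_of_unit _ hx
  have h3 : y * y⁻¹ = 1 := ZMod.mul_inv_of_unit _ hy
  calc (x * y)⁻¹ = (x * y)⁻¹ * ((x * x⁻¹) * (y * y⁻¹)) := by rw [h2, h3]; ring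
    _ = ((x * y)⁻¹ * (x * y)) * (x⁻¹ * y⁻¹) := by ring
    _ = x⁻¹ * y⁻¹ := by rw [h1, one_mul]

theorem N16a_isUnit_inv {a : ℕ} {x : ZMod a} (hx : IsUnit x) : IsUnit x⁻¹ :=
  IsUnit.of_mul_eq_one x (ZMod.inv_mul_of_unit _ hx)

theorem N16a_coprime_of_Sm {n c0 a : ℕ} (h : Sm n c0) (ha : Nat.Coprime a (2 * n)) :
    Nat.Coprime c0 a := by
  apply Nat.Coprime.symm
  rw [Nat.coprime_iff_gcd_eq_one]
  by_contra hne
  obtain ⟨p, hp, hpd⟩ := Nat.exists_prime_and_dvd hne
  have h1 : p ∣ a := hpd.trans (Nat.gcd_dvd_left _ _)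
  have h2 : p ∣ c0 := hpd.trans (Nat.gcd_dvd_right _ _)
  have h3 := h.2 p hp h2
  have h4 : p ∣ 1 := by
    have := Nat.dvd_gcd h1 h3
    rwa [Nat.coprime_iff_gcd_eq_one.mp ha] at this
  exact hp.one_lt.ne' (Nat.dvd_one.mp h4)

/-- a block: fixed `a` and `m1`; `B' = 2 X m1 / (c0 a M)` -/
theorem blk12 : ∃ C : ℝ, 1 ≤ C ∧ ∀ (n X c0 : ℕ) (s : ℤ) (Γ : ZMod (2 * c0) → ℂ)
    (α β ε w : ℕ → ℂ), 1 ≤ n → Dat n X c0 s Γ α β ε w → 1 ≤ Mn n →
    ∀ a m1 : ℕ, 1 ≤ a → Nat.Coprime a (2 * n) → m1 ∣ a →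
    ∀ S : Finset ℕ, (∀ m ∈ S, 1 ≤ m ∧ Nat.Coprime m (2 * n * a) ∧ Mn n ≤ m1 * m) →
    ∀ B' : ℝ, B' = 2 * X * m1 / (c0 * a * Mn n) →
    ‖∑ m ∈ S, ∑ b ∈ (Finset.Icc 1 (2 * X)).filter (fun b => Nat.Coprime b (2 * n * a) ∧
        a < m * b), Fs n c0 s Γ α β ε w a (m * b) (m1 * m)‖ ^ 2 ≤
    (ff n * B' + tau (2 * n)) * ∑ m ∈ S, ∑ m' ∈ S, sg (m1 * m) * sg (m1 * m') *
      (if m = m' then ff n * B' + tau (2 * n) else
        ff n * B' * (Nat.gcd ((m : ℤ) - m').natAbs a : ℝ) / a +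
        C * c0 * tau (2 * n) * (1 + (n : ℝ) ^ (1 / 200 : ℝ)) * (a : ℝ) ^ (4 / 5 : ℝ) *
          (Nat.gcd ((m : ℤ) - m').natAbs a : ℝ) ^ (1 / 4 : ℝ)) := by
  obtain ⟨C, hC1, hC⟩ := CS12
  refine ⟨2 * C, by linarith, ?_⟩
  intro n X c0 s Γ α β ε w hn hD hM a m1 ha hcop hm1 S hS B' hB'
  have hc0 : 1 ≤ c0 := Nat.one_le_iff_ne_zero.mpr hD.sm.1
  have hm1pos : 1 ≤ m1 := Nat.pos_of_dvd_of_pos hm1 ha
  have hm1le : m1 ≤ a := Nat.le_of_dvd ha hm1
  have hMR : (1 : ℝ) ≤ Mn n := by exact_mod_cast hM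
  have hc0R : (1 : ℝ) ≤ c0 := by exact_mod_cast hc0
  have haR : (1 : ℝ) ≤ a := by exact_mod_cast ha
  have hm1R : (1 : ℝ) ≤ m1 := by exact_mod_cast hm1pos
  have hm1leR : (m1 : ℝ) ≤ a := by exact_mod_cast hm1le
  have hden : (0 : ℝ) < c0 * a * Mn n := by positivity
  have hB'0 : 0 ≤ B' := by rw [hB']; positivity
  have hB'le : B' ≤ 2 * X := by
    rw [hB', div_le_iff₀ hden]
    have h1 : (m1 : ℝ) ≤ c0 * a * Mn n := by
      calc (m1 : ℝ) ≤ a := hm1leR
        _ = 1 * a * 1 := by ring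
        _ ≤ c0 * a * Mn n := by
          apply mul_le_mul (mul_le_mul_of_nonneg_right hc0R (by linarith)) hMR (by norm_num)
          positivity
    exact mul_le_mul_of_nonneg_left h1 (by positivity)
  set B : ℕ := ⌊B'⌋₊ with hB
  have hBB' : (B : ℝ) ≤ B' := Nat.floor_le hB'0
  have hB2X : B ≤ 2 * X := by
    have : (B : ℝ) ≤ ((2 * X : ℕ) : ℝ) := by push_cast; linarith
    exact_mod_cast this
  set V : ℝ := (n : ℝ) ^ (1 / 200 : ℝ) with hV
  have hV0 : 0 ≤ V := by positivity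
  -- units
  have h2n : Nat.Coprime (2 * n) a := hcop.symm
  have hu2 : IsUnit ((2 : ℕ) : ZMod a) := (ZMod.isUnit_iff_coprime 2 a).mpr
    (Nat.Coprime.coprime_dvd_left (Dvd.intro n rfl) h2n)
  have hun : IsUnit ((n : ℕ) : ZMod a) := (ZMod.isUnit_iff_coprime n a).mpr
    (Nat.Coprime.coprime_dvd_left (Dvd.intro_left 2 rfl) h2n)
  have huc : IsUnit ((c0 : ℕ) : ZMod a) := (ZMod.isUnit_iff_coprime c0 a).mpr
    (N16a_coprime_of_Sm hD.sm hcop)
  have hus : IsUnit ((s : ℤ) : ZMod a) := by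
    rcases hD.hs with h | h <;> rw [h] <;> simp
  set k0 : ZMod a := 2 * (s : ZMod a) * (n : ZMod a) * ((c0 : ℕ) : ZMod a)⁻¹ with hk0
  have hk0u : IsUnit k0 := by
    rw [hk0]
    refine ((IsUnit.mul ?_ hus).mul hun).mul (N16a_isUnit_inv huc)
    simpa using hu2
  -- the application of CS12
  have hBVm : ∀ m : ℕ, BV (fun b => w (c0 * a * m * b + 0) * (if a < m * b then (1 : ℂ) else 0))
      (V + 1) := fun m => (hD.hw.comp_mul (c0 * a * m) 0).mul (BV.ind_lt a m)
  have key := hC n c0 a hn hD.sm ha hcop k0 hk0u (fun v => Γ ((a : ZMod (2 * c0)) * v))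
    (fun v => hD.hΓ _) β hD.hβ1 S (fun m hm => ⟨(hS m hm).1, (hS m hm).2.1⟩)
    (fun m => α a * β m * (ε (m1 * m) * (sg (m1 * m) : ℂ))) (V + 1)
    (fun m b => w (c0 * a * m * b + 0) * (if a < m * b then (1 : ℂ) else 0))
    (fun m _ => hBVm m) (by linarith) B
  -- identify the sums
  have hsum : ∀ m ∈ S, ∑ b ∈ (Finset.Icc 1 (2 * X)).filter (fun b =>
        Nat.Coprime b (2 * n * a) ∧ a < m * b), Fs n c0 s Γ α β ε w a (m * b) (m1 * m) =
      ∑ b ∈ (Finset.Icc 1 B).filter (fun b => Nat.Coprime b (2 * n * a)),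
        (α a * β m * (ε (m1 * m) * (sg (m1 * m) : ℂ))) * β b *
          Γ ((a : ZMod (2 * c0)) * ((m * b : ℕ) : ZMod (2 * c0))) *
          er a (k0 * (((m * b : ℕ) : ZMod a))⁻¹) *
          (w (c0 * a * m * b + 0) * (if a < m * b then (1 : ℂ) else 0)) := by
    intro m hm
    obtain ⟨hm1', hmc, hmM⟩ := hS m hm
    symm
    have hsub : (Finset.Icc 1 B).filter (fun b => Nat.Coprime b (2 * n * a)) ⊆
        (Finset.Icc 1 (2 * X)).filter (fun b => Nat.Coprime b (2 * n * a)) := by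
      intro b hb
      rw [Finset.mem_filter, Finset.mem_Icc] at hb ⊢
      exact ⟨⟨hb.1.1, hb.1.2.trans hB2X⟩, hb.2⟩
    rw [Finset.sum_subset hsub]
    · rw [← Finset.filter_filter, Finset.sum_filter (s := (Finset.Icc 1 (2 * X)).filter
        (fun b => Nat.Coprime b (2 * n * a))) (p := fun b => a < m * b)]
      apply Finset.sum_congr rfl
      intro b hb
      rw [Finset.mem_filter, Finset.mem_Icc] at hb
      by_cases hab : a < m * b
      · rw [if_pos hab, if_pos hab]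
        unfold Fs
        have hb1 : b ≠ 0 := by omega
        have hm0 : m ≠ 0 := by omega
        have hbc : IsUnit (((m * b : ℕ)) : ZMod a) := by
          rw [ZMod.isUnit_iff_coprime]
          apply Nat.Coprime.mul_left
          · exact Nat.Coprime.coprime_dvd_right (Dvd.intro_left (2 * n) rfl) hmc
          · exact Nat.Coprime.coprime_dvd_right (Dvd.intro_left (2 * n) rfl) hb.2
        have e1 : 2 * (s : ZMod a) * (n : ZMod a) * (((c0 * (m * b) : ℕ) : ZMod a))⁻¹ =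
            k0 * (((m * b : ℕ) : ZMod a))⁻¹ := by
          rw [hk0, Nat.cast_mul c0 (m * b), N16a_inv_mul huc hbc]
          ring
        have e2 : ((a * (m * b) : ℕ) : ZMod (2 * c0)) =
            (a : ZMod (2 * c0)) * ((m * b : ℕ) : ZMod (2 * c0)) := by
          push_cast; ring
        have e3 : c0 * a * (m * b) = c0 * a * m * b + 0 := by ring
        rw [e1, e2, e3, hD.hβ m b hm0 hb1]
        ring
      · rw [if_neg hab, if_neg hab]; simp
    · intro b hb hnb
      rw [Finset.mem_filter, Finset.mem_Icc] at hb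
      have hbB : B < b := by
        by_contra hcon
        apply hnb
        rw [Finset.mem_filter, Finset.mem_Icc]
        exact ⟨⟨hb.1.1, not_lt.mp hcon⟩, hb.2⟩
      have hbR : B' < b := (Nat.floor_lt hB'0).mp hbB
      have hw0 : w (c0 * a * m * b + 0) = 0 := by
        by_contra hne
        have h1 := (hD.supp _ hne).2
        have h2 : ((c0 * a * m * b + 0 : ℕ) : ℝ) < 2 * X := by exact_mod_cast h1
        push_cast at h2
        rw [hB', div_lt_iff₀ hden] at hbR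
        have hmMR : (Mn n : ℝ) ≤ m1 * m := by exact_mod_cast hmM
        have hmR : (1 : ℝ) ≤ m := by exact_mod_cast hm1'
        -- 2 X m1 < b c0 a M ≤ b c0 a m1 m
        have h3 : 2 * (X : ℝ) * m1 < b * (c0 * a * (m1 * m)) := by
          refine hbR.trans_le ?_
          apply mul_le_mul_of_nonneg_left _ (by positivity)
          apply mul_le_mul_of_nonneg_left hmMR (by positivity)
        have h4 : 2 * (X : ℝ) * m1 < (c0 * a * m * b) * m1 := by
          calc _ < _ := h3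
            _ = _ := by ring
        have h5 := lt_of_mul_lt_mul_right h4 (by linarith)
        linarith
      rw [hw0]; ring
  rw [Finset.sum_congr rfl hsum]
  refine key.trans ?_
  have hff := (ff_pos n hn).le
  have htau : 0 ≤ tau (2 * n) := by unfold tau; positivity
  have hpre : ff n * B + tau (2 * n) ≤ ff n * B' + tau (2 * n) := by
    have := mul_le_mul_of_nonneg_left hBB' hff
    linarith
  apply mul_le_mul hpre _ _ (by positivity)
  · apply Finset.sum_le_sum
    intro m hm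
    apply Finset.sum_le_sum
    intro m' hm'
    have hen : ∀ m ∈ S, ‖α a * β m * (ε (m1 * m) * (sg (m1 * m) : ℂ))‖ ≤ sg (m1 * m) := by
      intro m hm
      have hmc : Nat.Coprime m (2 * n) :=
        Nat.Coprime.coprime_dvd_right (Dvd.intro a rfl) (hS m hm).2.1
      rw [norm_mul, norm_mul, norm_mul, hD.hβ1 m hmc, Complex.norm_real, Real.norm_eq_abs,
        abs_of_nonneg (sg_nonneg _), mul_one]
      have h1 := hD.hα a
      have h2 := hD.hε (m1 * m)
      have h3 := sg_nonneg (m1 * m)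
      calc ‖α a‖ * (‖ε (m1 * m)‖ * sg (m1 * m)) ≤ 1 * (1 * sg (m1 * m)) := by
            apply mul_le_mul h1 (mul_le_mul_of_nonneg_right h2 h3) (by positivity) (by norm_num)
        _ = _ := by ring
    apply mul_le_mul
    · exact mul_le_mul (hen m hm) (hen m' hm') (norm_nonneg _) (sg_nonneg _)
    · split_ifs with h
      · exact hpre
      · apply add_le_add
        · apply div_le_div_of_nonneg_right _ (by positivity)
          apply mul_le_mul_of_nonneg_right _ (by positivity)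
          exact mul_le_mul_of_nonneg_left hBB' hff
        · apply mul_le_mul_of_nonneg_right _ (by positivity)
          apply mul_le_mul_of_nonneg_right _ (by positivity)
          have : (1 : ℝ) + (V + 1) ≤ 2 * (1 + V) := by linarith
          calc C * c0 * tau (2 * n) * (1 + (V + 1)) ≤ C * c0 * tau (2 * n) * (2 * (1 + V)) := by
                apply mul_le_mul_of_nonneg_left this (by positivity)
            _ = 2 * C * c0 * tau (2 * n) * (1 + V) := by ring
    · split_ifs <;> positivity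
    · exact mul_nonneg (sg_nonneg _) (sg_nonneg _)
  · apply Finset.sum_nonneg
    intro m _
    apply Finset.sum_nonneg
    intro m' _
    split_ifs <;> positivity

end RV11
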