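import Pool.Agent.LibRV11.N16a
import Pool.Agent.LibRV11.N15a
import Pool.Agent.LibRV11.N15b

open Complex Real

namespace RV11

theorem N16b_large (y K : ℝ) (hy : 0 < y) :
    ∃ n0 : ℕ, 1 ≤ n0 ∧ ∀ n : ℕ, n0 ≤ n → K ≤ (n : ℝ) ^ y := by
  have h := ((tendsto_rpow_atTop hy).comp tendsto_natCast_atTop_atTop).eventually_ge_atTop K
  obtain ⟨n0, hn0⟩ := Filter.eventually_atTop.mp h
  exact ⟨max n0 1, le_max_right _ _, fun n hn => hn0 n ((le_max_left _ _).trans hn)⟩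

/-- the error terms are small -/
theorem N16b_err (C : ℝ) (hC : 1 ≤ C) : ∃ n0 : ℕ, 1 ≤ n0 ∧ ∀ (n X c0 : ℕ) (s : ℤ)
    (Γ : ZMod (2 * c0) → ℂ) (α β ε w : ℕ → ℂ), n0 ≤ n → Dat n X c0 s Γ α β ε w →
    ∀ a m1 : ℕ, 1 ≤ a → (a : ℝ) ≤ (n : ℝ) ^ (1 / 100 : ℝ) → 1 ≤ m1 →
    C * c0 * tau (2 * n) ^ 2 * (1 + (n : ℝ) ^ (1 / 200 : ℝ)) * (a : ℝ) ^ 2 ≤
      2 * X * m1 / (c0 * a * Mn n) := by
  obtain ⟨K, hK1, hK⟩ := tau_bound (1 / 200) (by norm_num)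
  obtain ⟨n1, hn1⟩ := Mn_bounds
  obtain ⟨n2, hn21, hn2⟩ := N16b_large (1 / 2) (4 * C * K ^ 2) (by norm_num)
  refine ⟨max n1 n2, hn21.trans (le_max_right _ _), ?_⟩
  intro n X c0 s Γ α β ε w hn hD a m1 ha haN hm1
  obtain ⟨-, hM2, hM3⟩ := hn1 n ((le_max_left _ _).trans hn)
  have hbig := hn2 n ((le_max_right _ _).trans hn)
  have hn1' : 1 ≤ n := hn21.trans ((le_max_right _ _).trans hn)
  have hnR : (1 : ℝ) ≤ n := by exact_mod_cast hn1'
  have hc0 : 1 ≤ c0 := Nat.one_le_iff_ne_zero.mpr hD.sm.1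
  have hc0R : (1 : ℝ) ≤ c0 := by exact_mod_cast hc0
  have haR : (1 : ℝ) ≤ a := by exact_mod_cast ha
  have hm1R : (1 : ℝ) ≤ m1 := by exact_mod_cast hm1
  have hMR : (2 : ℝ) ≤ Mn n := by exact_mod_cast hM3
  have hn0 : (0 : ℝ) < n := by linarith
  have htau0 : 0 ≤ tau (2 * n) := by unfold tau; positivity
  have htau : tau (2 * n) ≤ 2 * K * (n : ℝ) ^ (1 / 200 : ℝ) := by
    have h1 := hK (2 * n) (by omega)
    push_cast at h1
    rw [Real.mul_rpow (by norm_num) (by linarith)] at h1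
    have h2 : (2 : ℝ) ^ (1 / 200 : ℝ) ≤ 2 := by
      calc (2 : ℝ) ^ (1 / 200 : ℝ) ≤ 2 ^ (1 : ℝ) :=
            Real.rpow_le_rpow_of_exponent_le (by norm_num) (by norm_num)
        _ = 2 := by norm_num
    calc tau (2 * n) ≤ K * (2 ^ (1 / 200 : ℝ) * (n : ℝ) ^ (1 / 200 : ℝ)) := h1
      _ ≤ K * (2 * (n : ℝ) ^ (1 / 200 : ℝ)) := by
          apply mul_le_mul_of_nonneg_left _ (by linarith)
          exact mul_le_mul_of_nonneg_right h2 (by positivity)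
      _ = _ := by ring
  rw [le_div_iff₀ (by positivity)]
  have h200 : (1 : ℝ) ≤ (n : ℝ) ^ (1 / 200 : ℝ) := Real.one_le_rpow hnR (by norm_num)
  have e1 : C * c0 * tau (2 * n) ^ 2 * (1 + (n : ℝ) ^ (1 / 200 : ℝ)) * (a : ℝ) ^ 2 *
      (c0 * a * Mn n) ≤
      C * (n : ℝ) ^ (1 / 400 : ℝ) * (2 * K * (n : ℝ) ^ (1 / 200 : ℝ)) ^ 2 *
        (2 * (n : ℝ) ^ (1 / 200 : ℝ)) * ((n : ℝ) ^ (1 / 100 : ℝ)) ^ 2 *
        ((n : ℝ) ^ (1 / 400 : ℝ) * (n : ℝ) ^ (1 / 100 : ℝ) * (n : ℝ) ^ (1 / 20 : ℝ)) := by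
    have hc := hD.c0le
    have hK0 : 0 ≤ K := by linarith
    have hC0 : 0 ≤ C := by linarith
    gcongr
    linarith
  have e2 : C * (n : ℝ) ^ (1 / 400 : ℝ) * (2 * K * (n : ℝ) ^ (1 / 200 : ℝ)) ^ 2 *
        (2 * (n : ℝ) ^ (1 / 200 : ℝ)) * ((n : ℝ) ^ (1 / 100 : ℝ)) ^ 2 *
        ((n : ℝ) ^ (1 / 400 : ℝ) * (n : ℝ) ^ (1 / 100 : ℝ) * (n : ℝ) ^ (1 / 20 : ℝ)) =
      8 * C * K ^ 2 * (n : ℝ) ^ (1 / 10 : ℝ) := by
    have h1 : ((n : ℝ) ^ (1 / 200 : ℝ)) = ((n : ℝ) ^ (1 / 400 : ℝ)) ^ 2 := by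
      rw [← Real.rpow_natCast, ← Real.rpow_mul hn0.le]; norm_num
    have h2 : ((n : ℝ) ^ (1 / 100 : ℝ)) = ((n : ℝ) ^ (1 / 400 : ℝ)) ^ 4 := by
      rw [← Real.rpow_natCast, ← Real.rpow_mul hn0.le]; norm_num
    have h3 : ((n : ℝ) ^ (1 / 20 : ℝ)) = ((n : ℝ) ^ (1 / 400 : ℝ)) ^ 20 := by
      rw [← Real.rpow_natCast, ← Real.rpow_mul hn0.le]; norm_num
    have h4 : ((n : ℝ) ^ (1 / 10 : ℝ)) = ((n : ℝ) ^ (1 / 400 : ℝ)) ^ 40 := by
      rw [← Real.rpow_natCast, ← Real.rpow_mul hn0.le]; norm_num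
    rw [h1, h2, h3, h4]; ring
  have e3 : (n : ℝ) ^ (1 / 10 : ℝ) * (n : ℝ) ^ (1 / 2 : ℝ) ≤ X := by
    rw [← Real.rpow_add hn0]
    refine le_trans ?_ hD.X1
    exact Real.rpow_le_rpow_of_exponent_le hnR (by norm_num)
  calc _ ≤ _ := e1
    _ = 8 * C * K ^ 2 * (n : ℝ) ^ (1 / 10 : ℝ) := e2
    _ = 2 * ((n : ℝ) ^ (1 / 10 : ℝ) * (4 * C * K ^ 2)) := by ring
    _ ≤ 2 * ((n : ℝ) ^ (1 / 10 : ℝ) * (n : ℝ) ^ (1 / 2 : ℝ)) := by
        apply mul_le_mul_of_nonneg_left _ (by norm_num)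
        exact mul_le_mul_of_nonneg_left hbig (by positivity)
    _ ≤ 2 * X := mul_le_mul_of_nonneg_left e3 (by norm_num)
    _ = 2 * X * 1 := by ring
    _ ≤ 2 * X * m1 := mul_le_mul_of_nonneg_left hm1R (by positivity)

/-- range (i), fixed `a`, `m1` -/
theorem blk_i : ∃ (C : ℝ) (n0 : ℕ), 1 ≤ C ∧ ∀ (n X c0 : ℕ) (s : ℤ) (Γ : ZMod (2 * c0) → ℂ)
    (α β ε w : ℕ → ℂ), n0 ≤ n → Dat n X c0 s Γ α β ε w →
    ∀ a m1 : ℕ, 1 ≤ a → Nat.Coprime a (2 * n) → (a : ℝ) ≤ (n : ℝ) ^ (1 / 100 : ℝ) → m1 ∣ a →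
    ‖∑ m ∈ (Finset.Icc 1 (2 * Mn n)).filter (fun m => Nat.Coprime m (2 * n * a) ∧
        Mn n ≤ m1 * m ∧ m1 * m < 2 * Mn n ∧ (a : ℝ) ≤ (n : ℝ) ^ (1 / 100 : ℝ)),
      ∑ b ∈ (Finset.Icc 1 (2 * X)).filter (fun b => Nat.Coprime b (2 * n * a) ∧
        a < m * b), Fs n c0 s Γ α β ε w a (m * b) (m1 * m)‖ ≤
    C * X * Mn n / c0 * ff n ^ 2 * (sg m1 / m1) * tau a ^ (1 / 2 : ℝ) *
      (a : ℝ) ^ (-(3 / 2) : ℝ) := by
  classical
  obtain ⟨C, hC1, hC⟩ := blk12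
  obtain ⟨Cs, ns, hCs1, hCs⟩ := sum_i
  obtain ⟨n1, hn1⟩ := Mn_bounds
  obtain ⟨n2, hn21, hn2⟩ := N16b_err C hC1
  obtain ⟨n3, -, hn3⟩ := N16b_large (1 / 150) 2 (by norm_num)
  obtain ⟨n4, -, hn4⟩ := N16b_large (19 / 20) 2 (by norm_num)
  refine ⟨16 * Cs, max (max ns n1) (max (max n2 n3) n4), by linarith, ?_⟩
  intro n X c0 s Γ α β ε w hn hD a m1 ha hcop haN hm1
  have hns : ns ≤ n := (le_max_left _ _).trans ((le_max_left _ _).trans hn)
  have hnn1 : n1 ≤ n := (le_max_right _ _).trans ((le_max_left _ _).trans hn)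
  have hnn2 : n2 ≤ n :=
    (le_max_left _ _).trans ((le_max_left _ _).trans ((le_max_right _ _).trans hn))
  have hnn3 : n3 ≤ n :=
    (le_max_right _ _).trans ((le_max_left _ _).trans ((le_max_right _ _).trans hn))
  have hnn4 : n4 ≤ n := (le_max_right _ _).trans ((le_max_right _ _).trans hn)
  obtain ⟨hM1, hM2, hM3⟩ := hn1 n hnn1
  have hn1' : 1 ≤ n := hn21.trans hnn2
  have hnR : (1 : ℝ) ≤ n := by exact_mod_cast hn1'
  have hn0 : (0 : ℝ) < n := by linarith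
  have hm1pos : 1 ≤ m1 := Nat.pos_of_dvd_of_pos hm1 ha
  have hm1le : m1 ≤ a := Nat.le_of_dvd ha hm1
  have hc0 : 1 ≤ c0 := Nat.one_le_iff_ne_zero.mpr hD.sm.1
  have hc0R : (1 : ℝ) ≤ c0 := by exact_mod_cast hc0
  have haR : (1 : ℝ) ≤ a := by exact_mod_cast ha
  have hm1R : (1 : ℝ) ≤ m1 := by exact_mod_cast hm1pos
  have hm1leR : (m1 : ℝ) ≤ a := by exact_mod_cast hm1le
  have hMR : (2 : ℝ) ≤ Mn n := by exact_mod_cast hM3
  have hff := ff_pos n hn1'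
  have htau1 : 1 ≤ tau (2 * n) := tau_pos _ (by omega)
  have htauff : 1 ≤ ff n * tau (2 * n) := by
    have := inv_tau_le_ff n hn1'
    rwa [div_le_iff₀ (by linarith)] at this
  set S : Finset ℕ := (Finset.Icc 1 (2 * Mn n)).filter (fun m => Nat.Coprime m (2 * n * a) ∧
        Mn n ≤ m1 * m ∧ m1 * m < 2 * Mn n ∧ (a : ℝ) ≤ (n : ℝ) ^ (1 / 100 : ℝ)) with hS
  set B' : ℝ := 2 * X * m1 / (c0 * a * Mn n) with hB'
  have hB'0 : 0 ≤ B' := by rw [hB']; positivity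
  have herr := hn2 n X c0 s Γ α β ε w hnn2 hD a m1 ha haN hm1pos
  rw [← hB'] at herr
  have key := hC n X c0 s Γ α β ε w hn1' hD (by omega) a m1 ha hcop hm1 S
    (by
      intro m hm
      rw [hS, Finset.mem_filter, Finset.mem_Icc] at hm
      exact ⟨hm.1.1, hm.2.1, hm.2.2.1⟩) B' hB'
  -- the two error bounds
  have hV1 : (1 : ℝ) ≤ 1 + (n : ℝ) ^ (1 / 200 : ℝ) := by
    have : (0 : ℝ) ≤ (n : ℝ) ^ (1 / 200 : ℝ) := by positivity
    linarith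
  set V1 : ℝ := 1 + (n : ℝ) ^ (1 / 200 : ℝ) with hV1def
  have herr2 : C * c0 * tau (2 * n) * V1 * (a : ℝ) ^ 2 ≤ ff n * B' := by
    have h1 : 0 ≤ C * c0 * tau (2 * n) * V1 * (a : ℝ) ^ 2 := by positivity
    calc C * c0 * tau (2 * n) * V1 * (a : ℝ) ^ 2
        = 1 * (C * c0 * tau (2 * n) * V1 * (a : ℝ) ^ 2) := by ring
      _ ≤ (ff n * tau (2 * n)) * (C * c0 * tau (2 * n) * V1 * (a : ℝ) ^ 2) :=
          mul_le_mul_of_nonneg_right htauff h1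
      _ = ff n * (C * c0 * tau (2 * n) ^ 2 * V1 * (a : ℝ) ^ 2) := by ring
      _ ≤ ff n * B' := mul_le_mul_of_nonneg_left herr hff.le
  have herr1 : tau (2 * n) * a ≤ ff n * B' := by
    refine le_trans ?_ herr2
    have h1 : (1 : ℝ) ≤ C * c0 * V1 * a := by
      have h2 : (1 : ℝ) ≤ C * c0 := one_le_mul_of_one_le_of_one_le hC1 hc0R
      have h3 : (1 : ℝ) ≤ C * c0 * V1 := one_le_mul_of_one_le_of_one_le h2 hV1
      exact one_le_mul_of_one_le_of_one_le h3 haR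
    calc tau (2 * n) * a = 1 * (tau (2 * n) * a) := by ring
      _ ≤ (C * c0 * V1 * a) * (tau (2 * n) * a) := mul_le_mul_of_nonneg_right h1 (by positivity)
      _ = _ := by ring
  have htle : tau (2 * n) ≤ ff n * B' := by
    refine le_trans ?_ herr1
    nlinarith
  -- each bracket
  have hbr : ∀ m m' : ℕ, (if m = m' then ff n * B' + tau (2 * n) else
        ff n * B' * (Nat.gcd ((m : ℤ) - m').natAbs a : ℝ) / a +
        C * c0 * tau (2 * n) * V1 * (a : ℝ) ^ (4 / 5 : ℝ) *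
          (Nat.gcd ((m : ℤ) - m').natAbs a : ℝ) ^ (1 / 4 : ℝ)) ≤
      2 * (ff n * B') / a * (Nat.gcd ((m : ℤ) - m').natAbs a : ℝ) := by
    intro m m'
    split_ifs with h
    · subst h
      rw [sub_self, Int.natAbs_zero, Nat.gcd_zero_left, div_mul_cancel₀ _ (by positivity)]
      linarith
    · set G : ℝ := (Nat.gcd ((m : ℤ) - m').natAbs a : ℝ) with hG
      have hG1 : 1 ≤ G := by
        rw [hG]
        have : 1 ≤ Nat.gcd ((m : ℤ) - m').natAbs a := Nat.gcd_pos_of_pos_right _ ha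
        exact_mod_cast this
      have hG4 : G ^ (1 / 4 : ℝ) ≤ G := by
        calc G ^ (1 / 4 : ℝ) ≤ G ^ (1 : ℝ) :=
              Real.rpow_le_rpow_of_exponent_le hG1 (by norm_num)
          _ = G := Real.rpow_one G
      have ha45 : (a : ℝ) ^ (4 / 5 : ℝ) ≤ a := by
        calc (a : ℝ) ^ (4 / 5 : ℝ) ≤ (a : ℝ) ^ (1 : ℝ) :=
              Real.rpow_le_rpow_of_exponent_le haR (by norm_num)
          _ = a := Real.rpow_one _
      have h2 : C * c0 * tau (2 * n) * V1 * (a : ℝ) ^ (4 / 5 : ℝ) * G ^ (1 / 4 : ℝ) ≤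
          ff n * B' / a * G := by
        calc C * c0 * tau (2 * n) * V1 * (a : ℝ) ^ (4 / 5 : ℝ) * G ^ (1 / 4 : ℝ)
            ≤ C * c0 * tau (2 * n) * V1 * a * G := by gcongr
          _ = (C * c0 * tau (2 * n) * V1 * (a : ℝ) ^ 2) / a * G := by
              field_simp
          _ ≤ ff n * B' / a * G := by gcongr
      calc _ ≤ ff n * B' * G / a + ff n * B' / a * G := by linarith
        _ = _ := by ring
  -- the sum over pairs
  set Z : ℕ := (2 * Mn n) / m1 with hZ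
  set F : Finset ℕ := (Finset.Icc 1 Z).filter (fun m => Nat.Coprime m (2 * n * a)) with hF
  have hSF : S ⊆ F := by
    intro m hm
    rw [hS, Finset.mem_filter, Finset.mem_Icc] at hm
    rw [hF, Finset.mem_filter, Finset.mem_Icc]
    refine ⟨⟨hm.1.1, ?_⟩, hm.2.1⟩
    rw [hZ, Nat.le_div_iff_mul_le hm1pos, mul_comm]
    exact hm.2.2.2.1.le
  have hZle : (Z : ℝ) ≤ 2 * Mn n / m1 := by
    have := @Nat.cast_div_le ℝ _ _ _ (2 * Mn n) m1
    rw [hZ]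
    push_cast at this ⊢
    exact this
  have hZge : (n : ℝ) ^ (1 / 30 : ℝ) ≤ Z := by
    have h1 : (2 * Mn n : ℝ) / m1 < Z + 1 := by
      have h2 : 2 * Mn n < (Z + 1) * m1 := by
        rw [hZ]
        have := Nat.lt_div_mul_add (a := 2 * Mn n) (b := m1) hm1pos
        linarith
      rw [div_lt_iff₀ (by linarith)]
      exact_mod_cast h2
    have h3 : (n : ℝ) ^ (1 / 25 : ℝ) ≤ 2 * Mn n / m1 := by
      rw [le_div_iff₀ (by linarith)]
      calc (n : ℝ) ^ (1 / 25 : ℝ) * m1 ≤ (n : ℝ) ^ (1 / 25 : ℝ) * (n : ℝ) ^ (1 / 100 : ℝ) :=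
            mul_le_mul_of_nonneg_left (hm1leR.trans haN) (by positivity)
        _ = (n : ℝ) ^ (1 / 20 : ℝ) := by rw [← Real.rpow_add hn0]; norm_num
        _ ≤ 2 * Mn n := by linarith
    have h4 : (n : ℝ) ^ (1 / 25 : ℝ) = (n : ℝ) ^ (1 / 30 : ℝ) * (n : ℝ) ^ (1 / 150 : ℝ) := by
      rw [← Real.rpow_add hn0]; norm_num
    have h5 := hn3 n hnn3
    have h6 : (1 : ℝ) ≤ (n : ℝ) ^ (1 / 30 : ℝ) := Real.one_le_rpow hnR (by norm_num)
    nlinarith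
  have hZn : Z ≤ n := by
    have h1 : (Z : ℝ) ≤ n := by
      have h2 : (2 * Mn n : ℝ) / m1 ≤ 2 * Mn n := div_le_self (by positivity) hm1R
      have h3 := hn4 n hnn4
      have h4 : (n : ℝ) = (n : ℝ) ^ (1 / 20 : ℝ) * (n : ℝ) ^ (19 / 20 : ℝ) := by
        rw [← Real.rpow_add hn0]; norm_num
      have h5 : (0 : ℝ) ≤ (n : ℝ) ^ (1 / 20 : ℝ) := by positivity
      nlinarith
    exact_mod_cast h1
  have hsumF := hCs n hns a Z ha hcop haN hZge hZn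
  rw [← hF] at hsumF
  have hsg1 := sg_nonneg m1
  have hpair : ∑ m ∈ S, ∑ m' ∈ S, sg (m1 * m) * sg (m1 * m') *
      (if m = m' then ff n * B' + tau (2 * n) else
        ff n * B' * (Nat.gcd ((m : ℤ) - m').natAbs a : ℝ) / a +
        C * c0 * tau (2 * n) * V1 * (a : ℝ) ^ (4 / 5 : ℝ) *
          (Nat.gcd ((m : ℤ) - m').natAbs a : ℝ) ^ (1 / 4 : ℝ)) ≤
      (sg m1 ^ 2 * (2 * (ff n * B') / a)) * (Cs * ff n ^ 2 * (Z : ℝ) ^ 4 * tau a) := by
    calc _ ≤ ∑ m ∈ S, ∑ m' ∈ S, (sg m1 ^ 2 * (2 * (ff n * B') / a)) *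
          (sg m * sg m' * (Nat.gcd ((m : ℤ) - m').natAbs a : ℝ)) := by
          apply Finset.sum_le_sum
          intro m _
          apply Finset.sum_le_sum
          intro m' _
          have h1 := sg_mul_le m1 m
          have h2 := sg_mul_le m1 m'
          have h3 : sg (m1 * m) * sg (m1 * m') ≤ (sg m1 * sg m) * (sg m1 * sg m') :=
            mul_le_mul h1 h2 (sg_nonneg _) (mul_nonneg hsg1 (sg_nonneg _))
          calc _ ≤ ((sg m1 * sg m) * (sg m1 * sg m')) *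
                (2 * (ff n * B') / a * (Nat.gcd ((m : ℤ) - m').natAbs a : ℝ)) := by
                apply mul_le_mul h3 (hbr m m')
                · split_ifs <;> positivity
                · exact mul_nonneg (mul_nonneg hsg1 (sg_nonneg _)) (mul_nonneg hsg1 (sg_nonneg _))
            _ = _ := by ring
      _ = (sg m1 ^ 2 * (2 * (ff n * B') / a)) * ∑ m ∈ S, ∑ m' ∈ S,
          (sg m * sg m' * (Nat.gcd ((m : ℤ) - m').natAbs a : ℝ)) := by
          rw [Finset.mul_sum]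
          apply Finset.sum_congr rfl
          intro m _
          rw [Finset.mul_sum]
      _ ≤ (sg m1 ^ 2 * (2 * (ff n * B') / a)) * ∑ m ∈ F, ∑ m' ∈ F,
          (sg m * sg m' * (Nat.gcd ((m : ℤ) - m').natAbs a : ℝ)) := by
          apply mul_le_mul_of_nonneg_left _ (by positivity)
          have hnn : ∀ m m' : ℕ, 0 ≤ sg m * sg m' * (Nat.gcd ((m : ℤ) - m').natAbs a : ℝ) :=
            fun m m' => mul_nonneg (mul_nonneg (sg_nonneg _) (sg_nonneg _)) (by positivity)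
          calc _ ≤ ∑ m ∈ S, ∑ m' ∈ F,
                (sg m * sg m' * (Nat.gcd ((m : ℤ) - m').natAbs a : ℝ)) := by
                apply Finset.sum_le_sum
                intro m _
                exact Finset.sum_le_sum_of_subset_of_nonneg hSF (fun _ _ _ => hnn _ _)
            _ ≤ _ := Finset.sum_le_sum_of_subset_of_nonneg hSF
                (fun _ _ _ => Finset.sum_nonneg fun _ _ => hnn _ _)
      _ ≤ _ := mul_le_mul_of_nonneg_left hsumF (by positivity)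
  -- conclusion
  have htaua : 0 ≤ tau a := by unfold tau; positivity
  have hBZ : B' * (Z : ℝ) ^ 2 ≤ 8 * X * Mn n / (c0 * a * m1) := by
    have h1 : (Z : ℝ) ^ 2 ≤ (2 * Mn n / m1) ^ 2 := pow_le_pow_left₀ (by positivity) hZle 2
    calc B' * (Z : ℝ) ^ 2 ≤ B' * (2 * Mn n / m1) ^ 2 := mul_le_mul_of_nonneg_left h1 hB'0
      _ = 8 * X * Mn n / (c0 * a * m1) := by
          rw [hB']; field_simp; ring
  have hfin : ‖∑ m ∈ S, ∑ b ∈ (Finset.Icc 1 (2 * X)).filter (fun b =>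
        Nat.Coprime b (2 * n * a) ∧ a < m * b), Fs n c0 s Γ α β ε w a (m * b) (m1 * m)‖ ^ 2 ≤
      (16 * Cs * X * Mn n / c0 * ff n ^ 2 * (sg m1 / m1) * tau a ^ (1 / 2 : ℝ) *
      (a : ℝ) ^ (-(3 / 2) : ℝ)) ^ 2 := by
    have e1 : (tau a ^ (1 / 2 : ℝ)) ^ 2 = tau a := by
      rw [← Real.sqrt_eq_rpow, Real.sq_sqrt htaua]
    have e2 : ((a : ℝ) ^ (-(3 / 2) : ℝ)) ^ 2 = 1 / (a : ℝ) ^ 3 := by
      rw [← Real.rpow_natCast, ← Real.rpow_mul (by positivity)]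
      rw [show (-(3 / 2) : ℝ) * ((2 : ℕ) : ℝ) = -((3 : ℕ) : ℝ) by push_cast; norm_num,
        Real.rpow_neg (by positivity), Real.rpow_natCast]
      field_simp
    calc _ ≤ _ := key
      _ ≤ (2 * (ff n * B')) * ((sg m1 ^ 2 * (2 * (ff n * B') / a)) *
          (Cs * ff n ^ 2 * (Z : ℝ) ^ 4 * tau a)) := by
          apply mul_le_mul (by linarith) hpair _ (by positivity)
          apply Finset.sum_nonneg
          intro m _
          apply Finset.sum_nonneg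
          intro m' _
          apply mul_nonneg (mul_nonneg (sg_nonneg _) (sg_nonneg _))
          split_ifs <;> positivity
      _ = 4 * Cs * ff n ^ 4 * sg m1 ^ 2 * tau a / a * (B' * (Z : ℝ) ^ 2) ^ 2 := by ring
      _ ≤ 4 * Cs * ff n ^ 4 * sg m1 ^ 2 * tau a / a *
          (8 * X * Mn n / (c0 * a * m1)) ^ 2 := by
          apply mul_le_mul_of_nonneg_left _ (by positivity)
          exact pow_le_pow_left₀ (by positivity) hBZ 2
      _ = 256 * Cs * ((X * Mn n / c0) ^ 2 * ff n ^ 4 * (sg m1 / m1) ^ 2 * tau a *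
          (1 / (a : ℝ) ^ 3)) := by
          field_simp; ring
      _ ≤ 256 * Cs ^ 2 * ((X * Mn n / c0) ^ 2 * ff n ^ 4 * (sg m1 / m1) ^ 2 * tau a *
          (1 / (a : ℝ) ^ 3)) := by
          apply mul_le_mul_of_nonneg_right _ (by positivity)
          nlinarith
      _ = _ := by
          rw [mul_pow, mul_pow, e1, e2]
          ring
  have hR0 : 0 ≤ 16 * Cs * X * Mn n / c0 * ff n ^ 2 * (sg m1 / m1) * tau a ^ (1 / 2 : ℝ) *
      (a : ℝ) ^ (-(3 / 2) : ℝ) := by positivity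
  exact le_of_abs_le (abs_le_of_sq_le_sq hfin hR0)

end RV11
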