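import Pool.Agent.LibRV11.N16b

open Complex Real

namespace RV11

/-- range (i) -/
theorem range_i : ∃ (C : ℝ) (n0 : ℕ), 1 ≤ C ∧ ∀ (n X c0 : ℕ) (s : ℤ) (Γ : ZMod (2 * c0) → ℂ)
    (α β ε w : ℕ → ℂ), n0 ≤ n → Dat n X c0 s Γ α β ε w →
    ‖∑ a ∈ (Finset.Icc 1 (2 * X)).filter (fun a => Nat.Coprime a (2 * n)),
      ∑ m1 ∈ a.divisors, ∑ m ∈ (Finset.Icc 1 (2 * Mn n)).filter (fun m =>
        Nat.Coprime m (2 * n * a) ∧ Mn n ≤ m1 * m ∧ m1 * m < 2 * Mn n ∧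
          (a : ℝ) ≤ (n : ℝ) ^ (1 / 100 : ℝ)),
      ∑ b ∈ (Finset.Icc 1 (2 * X)).filter (fun b => Nat.Coprime b (2 * n * a) ∧
        a < m * b), Fs n c0 s Γ α β ε w a (m * b) (m1 * m)‖ ≤
    C * X * Mn n / c0 * ff n ^ 2 := by
  obtain ⟨C, n0, hC1, hC⟩ := blk_i
  obtain ⟨K, hK⟩ := sum_a_conv
  refine ⟨C * max K 1, max n0 1, ?_, ?_⟩
  · exact one_le_mul_of_one_le_of_one_le hC1 (le_max_right _ _)
  intro n X c0 s Γ α β ε w hn hD
  have hn0 : n0 ≤ n := (le_max_left _ _).trans hn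
  have hn1 : 1 ≤ n := (le_max_right _ _).trans hn
  have hc0 : 1 ≤ c0 := Nat.one_le_iff_ne_zero.mpr hD.sm.1
  have hc0R : (1 : ℝ) ≤ c0 := by exact_mod_cast hc0
  have hff := ff_pos n hn1
  set P : ℝ := C * X * Mn n / c0 * ff n ^ 2 with hP
  have hP0 : 0 ≤ P := by rw [hP]; positivity
  have hterm : ∀ a ∈ (Finset.Icc 1 (2 * X)).filter (fun a => Nat.Coprime a (2 * n)),
      ‖∑ m1 ∈ a.divisors, ∑ m ∈ (Finset.Icc 1 (2 * Mn n)).filter (fun m =>
        Nat.Coprime m (2 * n * a) ∧ Mn n ≤ m1 * m ∧ m1 * m < 2 * Mn n ∧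
          (a : ℝ) ≤ (n : ℝ) ^ (1 / 100 : ℝ)),
      ∑ b ∈ (Finset.Icc 1 (2 * X)).filter (fun b => Nat.Coprime b (2 * n * a) ∧
        a < m * b), Fs n c0 s Γ α β ε w a (m * b) (m1 * m)‖ ≤
      P * (tau a ^ (5 / 2 : ℝ) * (a : ℝ) ^ (-(3 / 2) : ℝ)) := by
    intro a ha
    rw [Finset.mem_filter, Finset.mem_Icc] at ha
    obtain ⟨⟨ha1, -⟩, hcop⟩ := ha
    have haR : (1 : ℝ) ≤ a := by exact_mod_cast ha1
    have hta : 1 ≤ tau a := tau_pos a ha1
    by_cases haN : (a : ℝ) ≤ (n : ℝ) ^ (1 / 100 : ℝ)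
    · refine (norm_sum_le _ _).trans ?_
      have h1 : ∀ m1 ∈ a.divisors, ‖∑ m ∈ (Finset.Icc 1 (2 * Mn n)).filter (fun m =>
          Nat.Coprime m (2 * n * a) ∧ Mn n ≤ m1 * m ∧ m1 * m < 2 * Mn n ∧
            (a : ℝ) ≤ (n : ℝ) ^ (1 / 100 : ℝ)),
          ∑ b ∈ (Finset.Icc 1 (2 * X)).filter (fun b => Nat.Coprime b (2 * n * a) ∧
          a < m * b), Fs n c0 s Γ α β ε w a (m * b) (m1 * m)‖ ≤
          P * tau a * (tau a ^ (1 / 2 : ℝ) * (a : ℝ) ^ (-(3 / 2) : ℝ)) := by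
        intro m1 hm1
        have hm1d : m1 ∣ a := Nat.dvd_of_mem_divisors hm1
        have hm1pos : 1 ≤ m1 := Nat.pos_of_dvd_of_pos hm1d ha1
        have hm1R : (1 : ℝ) ≤ m1 := by exact_mod_cast hm1pos
        have h2 := hC n X c0 s Γ α β ε w hn0 hD a m1 ha1 hcop haN hm1d
        refine h2.trans ?_
        have h3 : sg m1 / m1 ≤ tau a := by
          rw [div_le_iff₀ (by linarith)]
          calc sg m1 ≤ m1 * tau m1 := sg_le m1
            _ ≤ m1 * tau a := mul_le_mul_of_nonneg_left (tau_le_of_dvd m1 a ha1 hm1d)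
                (by linarith)
            _ = tau a * m1 := by ring
        calc C * X * Mn n / c0 * ff n ^ 2 * (sg m1 / m1) * tau a ^ (1 / 2 : ℝ) *
              (a : ℝ) ^ (-(3 / 2) : ℝ)
            = P * (sg m1 / m1) * (tau a ^ (1 / 2 : ℝ) * (a : ℝ) ^ (-(3 / 2) : ℝ)) := by
              rw [hP]; ring
          _ ≤ P * tau a * (tau a ^ (1 / 2 : ℝ) * (a : ℝ) ^ (-(3 / 2) : ℝ)) := by
              apply mul_le_mul_of_nonneg_right _ (by positivity)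
              exact mul_le_mul_of_nonneg_left h3 hP0
      refine (Finset.sum_le_sum h1).trans ?_
      rw [Finset.sum_const, nsmul_eq_mul]
      have e1 : (a.divisors.card : ℝ) = tau a := rfl
      rw [e1]
      have e2 : tau a ^ (5 / 2 : ℝ) = tau a * tau a * tau a ^ (1 / 2 : ℝ) := by
        rw [show (5 / 2 : ℝ) = 1 + 1 + 1 / 2 by norm_num, Real.rpow_add (by linarith),
          Real.rpow_add (by linarith), Real.rpow_one]
      rw [e2]
      apply le_of_eq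
      ring
    · have h0 : ∀ m1 : ℕ, (Finset.Icc 1 (2 * Mn n)).filter (fun m =>
          Nat.Coprime m (2 * n * a) ∧ Mn n ≤ m1 * m ∧ m1 * m < 2 * Mn n ∧
            (a : ℝ) ≤ (n : ℝ) ^ (1 / 100 : ℝ)) = ∅ := by
        intro m1
        apply Finset.filter_false_of_mem
        rintro m - ⟨-, -, -, h⟩
        exact haN h
      simp only [h0, Finset.sum_empty, Finset.sum_const_zero, norm_zero]
      positivity
  refine (norm_sum_le _ _).trans ((Finset.sum_le_sum hterm).trans ?_)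
  rw [← Finset.mul_sum]
  have h5 : ∑ a ∈ (Finset.Icc 1 (2 * X)).filter (fun a => Nat.Coprime a (2 * n)),
      tau a ^ (5 / 2 : ℝ) * (a : ℝ) ^ (-(3 / 2) : ℝ) ≤ K := by
    refine le_trans ?_ (hK (2 * X))
    apply Finset.sum_le_sum_of_subset_of_nonneg (Finset.filter_subset _ _)
    intro a _ _
    unfold tau
    positivity
  calc P * _ ≤ P * K := mul_le_mul_of_nonneg_left h5 hP0
    _ ≤ P * max K 1 := mul_le_mul_of_nonneg_left (le_max_left _ _) hP0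
    _ = C * max K 1 * X * Mn n / c0 * ff n ^ 2 := by rw [hP]; ring

end RV11
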