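import Pool.Agent.LibRV11.N16a
import Pool.Agent.LibRV11.N15b

open Complex Real

namespace RV11

/-- the double sum over pairs from `S`, bounded by the sum over `[1, Z]` -/
theorem N17a_sum (a Z m1 : ℕ) (ha : 1 ≤ a) (S : Finset ℕ) (hS : S ⊆ Finset.Icc 1 Z)
    (G D P E : ℝ) (hG0 : 0 ≤ G) (hD : 0 ≤ D) (hP : 0 ≤ P) (hE : 0 ≤ E)
    (hG : ∀ m ∈ S, sg (m1 * m) ≤ G) (P' E' : ℝ) (hP' : P' ≤ P) (hE' : E' ≤ E)
    (hP0 : 0 ≤ P') (hE0 : 0 ≤ E') (D' : ℝ) (hD' : D' ≤ D) (hD0 : 0 ≤ D') :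
    ∑ m ∈ S, ∑ m' ∈ S, sg (m1 * m) * sg (m1 * m') *
      (if m = m' then D' else
        P' * (Nat.gcd ((m : ℤ) - m').natAbs a : ℝ) / a +
        E' * (Nat.gcd ((m : ℤ) - m').natAbs a : ℝ) ^ (1 / 4 : ℝ)) ≤
    G ^ 2 * (Z * D + (P / a + E) * (2 * (Z : ℝ) ^ 2 * tau a)) := by
  classical
  have ha0 : (0 : ℝ) < a := by exact_mod_cast ha
  have hstep : ∀ m ∈ S, ∀ m' ∈ S, sg (m1 * m) * sg (m1 * m') *
      (if m = m' then D' else
        P' * (Nat.gcd ((m : ℤ) - m').natAbs a : ℝ) / a +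
        E' * (Nat.gcd ((m : ℤ) - m').natAbs a : ℝ) ^ (1 / 4 : ℝ)) ≤
      G ^ 2 * (if m = m' then D else (P / a + E) * (Nat.gcd ((m : ℤ) - m').natAbs a : ℝ)) := by
    intro m hm m' hm'
    have h1 : sg (m1 * m) * sg (m1 * m') ≤ G ^ 2 := by
      rw [pow_two]
      exact mul_le_mul (hG m hm) (hG m' hm') (sg_nonneg _) hG0
    have hg1 : (1 : ℝ) ≤ (Nat.gcd ((m : ℤ) - m').natAbs a : ℝ) := by
      exact_mod_cast Nat.gcd_pos_of_pos_right _ ha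
    have hg4 : (Nat.gcd ((m : ℤ) - m').natAbs a : ℝ) ^ (1 / 4 : ℝ) ≤
        (Nat.gcd ((m : ℤ) - m').natAbs a : ℝ) := by
      calc (Nat.gcd ((m : ℤ) - m').natAbs a : ℝ) ^ (1 / 4 : ℝ) ≤
          (Nat.gcd ((m : ℤ) - m').natAbs a : ℝ) ^ (1 : ℝ) :=
            Real.rpow_le_rpow_of_exponent_le hg1 (by norm_num)
        _ = _ := Real.rpow_one _
    refine mul_le_mul h1 ?_ ?_ (by positivity)
    · split_ifs with h
      · exact hD'
      · have e1 : P' * (Nat.gcd ((m : ℤ) - m').natAbs a : ℝ) / a ≤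
            P / a * (Nat.gcd ((m : ℤ) - m').natAbs a : ℝ) := by
          rw [div_mul_eq_mul_div]
          gcongr
        have e2 : E' * (Nat.gcd ((m : ℤ) - m').natAbs a : ℝ) ^ (1 / 4 : ℝ) ≤
            E * (Nat.gcd ((m : ℤ) - m').natAbs a : ℝ) := by
          exact mul_le_mul hE' hg4 (by positivity) hE
        linarith
    · split_ifs with h
      · exact hD0
      · positivity
  calc _ ≤ ∑ m ∈ S, ∑ m' ∈ S, G ^ 2 *
          (if m = m' then D else (P / a + E) * (Nat.gcd ((m : ℤ) - m').natAbs a : ℝ)) :=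
        Finset.sum_le_sum fun m hm => Finset.sum_le_sum fun m' hm' => hstep m hm m' hm'
    _ ≤ ∑ m ∈ Finset.Icc 1 Z, ∑ m' ∈ Finset.Icc 1 Z, G ^ 2 *
          (if m = m' then D else (P / a + E) * (Nat.gcd ((m : ℤ) - m').natAbs a : ℝ)) := by
        have hnn : ∀ m m' : ℕ, 0 ≤ G ^ 2 *
          (if m = m' then D else (P / a + E) * (Nat.gcd ((m : ℤ) - m').natAbs a : ℝ)) := by
          intro m m'
          refine mul_nonneg (by positivity) ?_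
          split_ifs <;> positivity
        refine (Finset.sum_le_sum fun m _ =>
          Finset.sum_le_sum_of_subset_of_nonneg hS fun m' _ _ => hnn m m').trans ?_
        exact Finset.sum_le_sum_of_subset_of_nonneg hS fun m _ _ =>
          Finset.sum_nonneg fun m' _ => hnn m m'
    _ = G ^ 2 * ∑ m ∈ Finset.Icc 1 Z, (D + (P / a + E) * ∑ m' ∈ (Finset.Icc 1 Z).erase m,
          (Nat.gcd ((m : ℤ) - m').natAbs a : ℝ)) := by
        rw [Finset.mul_sum]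
        refine Finset.sum_congr rfl fun m hm => ?_
        rw [← Finset.mul_sum, ← Finset.add_sum_erase _ _ hm, if_pos rfl,
          Finset.mul_sum _ _ (P / a + E)]
        congr 2
        refine Finset.sum_congr rfl fun m' hm' => ?_
        rw [if_neg]
        exact fun h => (Finset.mem_erase.mp hm').1 h.symm
    _ ≤ _ := by
        refine mul_le_mul_of_nonneg_left ?_ (by positivity)
        rw [Finset.sum_add_distrib, Finset.sum_const, Nat.card_Icc, nsmul_eq_mul,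
          ← Finset.mul_sum]
        simp only [Nat.add_sub_cancel]
        have := sum_gcd a Z ha
        gcongr

/-- the final real inequality -/
theorem N17a_real (K C1 : ℝ) (hK : 1 ≤ K) (hC1 : 1 ≤ C1) (N X M c0 a m1 Z t ta y B E : ℝ)
    (hN : 1 ≤ N) (hX : N ^ (999 / 1000 : ℝ) ≤ X) (hM1 : N ^ (1 / 20 : ℝ) / 2 ≤ M)
    (hM2 : M ≤ N ^ (1 / 20 : ℝ)) (hc1 : 1 ≤ c0) (hc2 : c0 ≤ N ^ (1 / 400 : ℝ))
    (ha : N ^ (1 / 100 : ℝ) < a) (hac : c0 * a ^ 2 < 2 * X) (hm1 : 1 ≤ m1)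
    (hZ1 : M ≤ Z ^ 2) (hZ2 : Z * m1 ≤ 2 * M) (hZ0 : 0 < Z) (hy : y = N ^ (1 / 4000 : ℝ))
    (ht0 : 0 ≤ t) (ht : t ≤ 2 * K * y) (hta0 : 0 ≤ ta) (hta : ta ≤ K * y)
    (hB : B = 2 * X * m1 / (c0 * a * M))
    (hE : E = C1 * c0 * t * (1 + N ^ (1 / 200 : ℝ)) * a ^ (4 / 5 : ℝ)) :
    (2 * t * B) * ((2 * M * (K * y)) ^ 2 *
      (Z * (2 * t * B) + (B / a + E) * (2 * Z ^ 2 * ta))) ≤
    (200 * K ^ 3 * C1 * (X * M / (c0 * a)) * N ^ (-(1 / 250) : ℝ)) ^ 2 := by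
  have hN0 : 0 < N := by linarith
  have hy1 : 1 ≤ y := by rw [hy]; exact Real.one_le_rpow hN (by norm_num)
  have hX0 : 0 < X := lt_of_lt_of_le (Real.rpow_pos_of_pos hN0 _) hX
  have hp100 : 0 < N ^ (1 / 100 : ℝ) := Real.rpow_pos_of_pos hN0 _
  have hp20 : 0 < N ^ (1 / 20 : ℝ) := Real.rpow_pos_of_pos hN0 _
  have ha0 : 0 < a := hp100.trans ha
  have hM0 : 0 < M := by linarith
  have hB0 : 0 < B := by rw [hB]; positivity
  have hid : (2 * t * B) * ((2 * M * (K * y)) ^ 2 *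
      (Z * (2 * t * B) + (B / a + E) * (2 * Z ^ 2 * ta))) =
      2 * t * (2 * M * (K * y)) ^ 2 * (B * Z) ^ 2 *
        (2 * t / Z + 2 * ta / a + E / B * (2 * ta)) := by
    field_simp
    ring
  have hBZ : B * Z ≤ 4 * (X / (c0 * a)) := by
    rw [hB]
    calc 2 * X * m1 / (c0 * a * M) * Z = 2 * X / (c0 * a * M) * (Z * m1) := by ring
      _ ≤ 2 * X / (c0 * a * M) * (2 * M) := by
          refine mul_le_mul_of_nonneg_left hZ2 (by positivity)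
      _ = 4 * (X / (c0 * a)) := by field_simp; ring
  have hneg : N ^ (-(1 / 100) : ℝ) * N ^ (1 / 100 : ℝ) = 1 := by
    rw [← Real.rpow_add hN0]; norm_num
  have hneg0 : 0 < N ^ (-(1 / 100) : ℝ) := Real.rpow_pos_of_pos hN0 _
  -- first term
  have f1 : 2 * t / Z ≤ 8 * K * y ^ 2 * N ^ (-(1 / 100) : ℝ) := by
    have hZl : N ^ (1 / 40 : ℝ) / 2 ≤ Z := by
      refine le_of_sq_le_sq ?_ hZ0.le
      calc (N ^ (1 / 40 : ℝ) / 2) ^ 2 = N ^ (1 / 20 : ℝ) / 4 := by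
            rw [div_pow, ← Real.rpow_natCast, ← Real.rpow_mul hN0.le]; norm_num
        _ ≤ N ^ (1 / 20 : ℝ) / 2 := by linarith
        _ ≤ Z ^ 2 := hM1.trans hZ1
    rw [div_le_iff₀ hZ0]
    have h40 : 1 ≤ N ^ (-(1 / 100) : ℝ) * N ^ (1 / 40 : ℝ) := by
      rw [← Real.rpow_add hN0]
      exact Real.one_le_rpow hN (by norm_num)
    calc 2 * t ≤ 2 * (2 * K * y) * 1 := by linarith
      _ ≤ 2 * (2 * K * y) * (y * (N ^ (-(1 / 100) : ℝ) * N ^ (1 / 40 : ℝ))) := by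
          refine mul_le_mul_of_nonneg_left ?_ (by positivity)
          calc (1 : ℝ) = 1 * 1 := by ring
            _ ≤ y * (N ^ (-(1 / 100) : ℝ) * N ^ (1 / 40 : ℝ)) :=
              mul_le_mul hy1 h40 (by norm_num) (by linarith)
      _ = 8 * K * y ^ 2 * N ^ (-(1 / 100) : ℝ) * (N ^ (1 / 40 : ℝ) / 2) := by ring
      _ ≤ 8 * K * y ^ 2 * N ^ (-(1 / 100) : ℝ) * Z :=
          mul_le_mul_of_nonneg_left hZl (by positivity)
  have f2 : 2 * ta / a ≤ 2 * K * y ^ 2 * N ^ (-(1 / 100) : ℝ) := by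
    rw [div_le_iff₀ ha0]
    calc 2 * ta ≤ 2 * (K * y) * 1 := by linarith
      _ ≤ 2 * (K * y) * (y * (N ^ (-(1 / 100) : ℝ) * a)) := by
          refine mul_le_mul_of_nonneg_left ?_ (by positivity)
          have h := mul_le_mul_of_nonneg_left ha.le hneg0.le
          rw [hneg] at h
          calc (1 : ℝ) = 1 * 1 := by ring
            _ ≤ y * (N ^ (-(1 / 100) : ℝ) * a) := mul_le_mul hy1 h (by norm_num) (by linarith)
      _ = 2 * K * y ^ 2 * N ^ (-(1 / 100) : ℝ) * a := by ring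
  have f3a : E / B ≤ 4 * C1 * K * y * N ^ (-(1 / 100) : ℝ) := by
    have h200 : 1 ≤ N ^ (1 / 200 : ℝ) := Real.one_le_rpow hN (by norm_num)
    have hsq : a ^ (4 / 5 : ℝ) * a ≤ (2 * X) ^ (9 / 10 : ℝ) := by
      calc a ^ (4 / 5 : ℝ) * a = a ^ (4 / 5 : ℝ) * a ^ (1 : ℝ) := by rw [Real.rpow_one]
        _ = (a ^ 2) ^ (9 / 10 : ℝ) := by
            rw [← Real.rpow_add ha0, ← Real.rpow_natCast, ← Real.rpow_mul ha0.le]
            norm_num
        _ ≤ (2 * X) ^ (9 / 10 : ℝ) := by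
            refine Real.rpow_le_rpow (by positivity) ?_ (by norm_num)
            calc a ^ 2 = 1 * a ^ 2 := by ring
              _ ≤ c0 * a ^ 2 := mul_le_mul_of_nonneg_right hc1 (sq_nonneg a)
              _ ≤ 2 * X := hac.le
    have hX10 : (2 * X) ^ (9 / 10 : ℝ) ≤ (2 * X) * N ^ (-(999 / 10000) : ℝ) := by
      have h2X : 0 < 2 * X := by positivity
      calc (2 * X) ^ (9 / 10 : ℝ) = (2 * X) * (2 * X) ^ (-(1 / 10) : ℝ) := by
            nth_rewrite 2 [← Real.rpow_one (2 * X)]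
            rw [← Real.rpow_add h2X]; norm_num
        _ ≤ (2 * X) * (N ^ (999 / 1000 : ℝ)) ^ (-(1 / 10) : ℝ) := by
            refine mul_le_mul_of_nonneg_left ?_ h2X.le
            exact Real.rpow_le_rpow_of_nonpos (Real.rpow_pos_of_pos hN0 _) (by linarith)
              (by norm_num)
        _ = _ := by rw [← Real.rpow_mul hN0.le]; norm_num
    have hprod : N ^ (1 / 400 : ℝ) * N ^ (1 / 400 : ℝ) * N ^ (1 / 200 : ℝ) *
        N ^ (1 / 20 : ℝ) * N ^ (-(999 / 10000) : ℝ) ≤ N ^ (-(1 / 100) : ℝ) := by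
      rw [← Real.rpow_add hN0, ← Real.rpow_add hN0, ← Real.rpow_add hN0, ← Real.rpow_add hN0]
      exact Real.rpow_le_rpow_of_exponent_le hN (by norm_num)
    rw [hE, hB, div_div_eq_mul_div, div_le_iff₀ (by positivity)]
    have hc0' : 0 < c0 := by linarith
    have hn999 : 0 < N ^ (-(999 / 10000) : ℝ) := Real.rpow_pos_of_pos hN0 _
    have hn400 : 0 < N ^ (1 / 400 : ℝ) := Real.rpow_pos_of_pos hN0 _
    calc C1 * c0 * t * (1 + N ^ (1 / 200 : ℝ)) * a ^ (4 / 5 : ℝ) * (c0 * a * M)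
        = C1 * t * (1 + N ^ (1 / 200 : ℝ)) * (c0 * c0) * M * (a ^ (4 / 5 : ℝ) * a) := by ring
      _ ≤ C1 * (2 * K * y) * (2 * N ^ (1 / 200 : ℝ)) *
          (N ^ (1 / 400 : ℝ) * N ^ (1 / 400 : ℝ)) * N ^ (1 / 20 : ℝ) *
          ((2 * X) * N ^ (-(999 / 10000) : ℝ)) := by
          have := hsq.trans hX10
          gcongr
          linarith
      _ = (4 * C1 * K * y) * (2 * X) * (N ^ (1 / 400 : ℝ) * N ^ (1 / 400 : ℝ) *
          N ^ (1 / 200 : ℝ) * N ^ (1 / 20 : ℝ) * N ^ (-(999 / 10000) : ℝ)) := by ring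
      _ ≤ (4 * C1 * K * y) * (2 * X) * N ^ (-(1 / 100) : ℝ) :=
          mul_le_mul_of_nonneg_left hprod (by positivity)
      _ = (4 * C1 * K * y * N ^ (-(1 / 100) : ℝ)) * (2 * X * 1) := by ring
      _ ≤ (4 * C1 * K * y * N ^ (-(1 / 100) : ℝ)) * (2 * X * m1) := by gcongr
  have f3 : E / B * (2 * ta) ≤ 8 * C1 * K ^ 2 * y ^ 2 * N ^ (-(1 / 100) : ℝ) := by
    calc E / B * (2 * ta) ≤ (4 * C1 * K * y * N ^ (-(1 / 100) : ℝ)) * (2 * (K * y)) := by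
          refine mul_le_mul f3a (by linarith) (by positivity) (by positivity)
      _ = _ := by ring
  have hbr : 2 * t / Z + 2 * ta / a + E / B * (2 * ta) ≤
      18 * C1 * K ^ 2 * y ^ 2 * N ^ (-(1 / 100) : ℝ) := by
    have k1 : K ≤ C1 * K ^ 2 := by nlinarith [mul_pos (by linarith : 0 < C1) (by linarith : 0 < K)]
    have k2 : 10 * K * (y ^ 2 * N ^ (-(1 / 100) : ℝ)) ≤
        10 * (C1 * K ^ 2) * (y ^ 2 * N ^ (-(1 / 100) : ℝ)) := by gcongr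
    linarith
  have hfin : y ^ 5 * N ^ (-(1 / 100) : ℝ) ≤ (N ^ (-(1 / 250) : ℝ)) ^ 2 := by
    rw [hy, ← Real.rpow_natCast, ← Real.rpow_natCast, ← Real.rpow_mul hN0.le,
      ← Real.rpow_mul hN0.le, ← Real.rpow_add hN0]
    exact Real.rpow_le_rpow_of_exponent_le hN (by norm_num)
  rw [hid]
  have hc0' : 0 < c0 := by linarith
  have hQ0 : 0 ≤ X * M / (c0 * a) := by positivity
  calc 2 * t * (2 * M * (K * y)) ^ 2 * (B * Z) ^ 2 *
        (2 * t / Z + 2 * ta / a + E / B * (2 * ta))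
      ≤ 2 * (2 * K * y) * (2 * M * (K * y)) ^ 2 * (4 * (X / (c0 * a))) ^ 2 *
        (18 * C1 * K ^ 2 * y ^ 2 * N ^ (-(1 / 100) : ℝ)) := by
        have hE0 : 0 ≤ E := by rw [hE]; positivity
        gcongr
    _ = 4608 * (C1 * K ^ 5) * (X * M / (c0 * a)) ^ 2 * (y ^ 5 * N ^ (-(1 / 100) : ℝ)) := by
        field_simp
        ring
    _ ≤ 40000 * (C1 ^ 2 * K ^ 6) * (X * M / (c0 * a)) ^ 2 * (N ^ (-(1 / 250) : ℝ)) ^ 2 := by
        have k1 : C1 * K ^ 5 ≤ C1 ^ 2 * K ^ 6 := by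
          have h1 : C1 ≤ C1 ^ 2 := by nlinarith
          have h2 : K ^ 5 ≤ K ^ 6 := pow_le_pow_right₀ hK (by norm_num)
          exact mul_le_mul h1 h2 (by positivity) (by positivity)
        gcongr
        norm_num
    _ = _ := by ring

/-- range (ii), fixed `a`, `m1` -/
theorem blk_ii : ∃ (C : ℝ) (n0 : ℕ), 1 ≤ C ∧ ∀ (n X c0 : ℕ) (s : ℤ) (Γ : ZMod (2 * c0) → ℂ)
    (α β ε w : ℕ → ℂ), n0 ≤ n → Dat n X c0 s Γ α β ε w →
    ∀ a m1 : ℕ, 1 ≤ a → Nat.Coprime a (2 * n) → (n : ℝ) ^ (1 / 100 : ℝ) < (a : ℝ) → m1 ∣ a →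
    c0 * a ^ 2 < 2 * X →
    ‖∑ m ∈ (Finset.Icc 1 (2 * Mn n)).filter (fun m => Nat.Coprime m (2 * n * a) ∧
        Mn n ≤ m1 * m ∧ m1 * m < 2 * Mn n ∧ (¬ ((a : ℝ) ≤ (n : ℝ) ^ (1 / 100 : ℝ)) ∧
          Mn n ≤ m ^ 2)),
      ∑ b ∈ (Finset.Icc 1 (2 * X)).filter (fun b => Nat.Coprime b (2 * n * a) ∧
        a < m * b), Fs n c0 s Γ α β ε w a (m * b) (m1 * m)‖ ≤
    C * X * Mn n / (c0 * a) * (n : ℝ) ^ (-(1 / 250) : ℝ) := by
  classical
  obtain ⟨C1, hC1, hblk⟩ := blk12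
  obtain ⟨K, hK, htau⟩ := tau_bound (1 / 4000) (by norm_num)
  obtain ⟨n1, hn1⟩ := Mn_bounds
  have hCge : 1 ≤ 200 * K ^ 3 * C1 := by
    have h1 : 1 ≤ K ^ 3 := one_le_pow₀ hK
    nlinarith
  refine ⟨200 * K ^ 3 * C1, max n1 4, hCge, ?_⟩
  intro n X c0 s Γ α β ε w hn hd a m1 ha hacop ha100 hm1 hca
  obtain ⟨hM1, hM2, hM3⟩ := hn1 n (le_trans (le_max_left _ _) hn)
  have hn4 : 4 ≤ n := le_trans (le_max_right _ _) hn
  have hN1 : (1 : ℝ) ≤ n := by exact_mod_cast (by omega : 1 ≤ n)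
  have hN0 : (0 : ℝ) < n := by linarith
  have hN4 : (4 : ℝ) ≤ n := by exact_mod_cast hn4
  set S := (Finset.Icc 1 (2 * Mn n)).filter (fun m => Nat.Coprime m (2 * n * a) ∧
        Mn n ≤ m1 * m ∧ m1 * m < 2 * Mn n ∧ (¬ ((a : ℝ) ≤ (n : ℝ) ^ (1 / 100 : ℝ)) ∧
          Mn n ≤ m ^ 2)) with hSdef
  rcases S.eq_empty_or_nonempty with hSe | hSne
  · rw [hSe, Finset.sum_empty, norm_zero]
    positivity
  obtain ⟨mw, hmw⟩ := hSne
  have hmem : ∀ m ∈ S, 1 ≤ m ∧ Nat.Coprime m (2 * n * a) ∧ Mn n ≤ m1 * m ∧ m1 * m < 2 * Mn n ∧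
      Mn n ≤ m ^ 2 := by
    intro m hm
    rw [hSdef, Finset.mem_filter, Finset.mem_Icc] at hm
    exact ⟨hm.1.1, hm.2.1, hm.2.2.1, hm.2.2.2.1, hm.2.2.2.2.2⟩
  obtain ⟨hw1, -, hw3, hw4, hw5⟩ := hmem mw hmw
  have hm1pos : 1 ≤ m1 := Nat.one_le_iff_ne_zero.mpr (by
    rintro rfl
    rw [Nat.zero_mul] at hw3
    omega)
  set Z := 2 * Mn n / m1 with hZdef
  have hmZ : ∀ m ∈ S, m ≤ Z := by
    intro m hm
    obtain ⟨-, -, -, h4, -⟩ := hmem m hm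
    rw [hZdef, Nat.le_div_iff_mul_le hm1pos, mul_comm]
    exact h4.le
  have hSub : S ⊆ Finset.Icc 1 Z := fun m hm =>
    Finset.mem_Icc.mpr ⟨(hmem m hm).1, hmZ m hm⟩
  have hZ1 : Mn n ≤ Z ^ 2 := hw5.trans (Nat.pow_le_pow_left (hmZ mw hmw) 2)
  have hZ2 : Z * m1 ≤ 2 * Mn n := Nat.div_mul_le_self _ _
  have hZpos : 1 ≤ Z := hw1.trans (hmZ mw hmw)
  have hc0pos : 1 ≤ c0 := Nat.one_le_iff_ne_zero.mpr hd.sm.1
  have hc0R : (1 : ℝ) ≤ c0 := by exact_mod_cast hc0pos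
  have hcaR : (c0 : ℝ) * (a : ℝ) ^ 2 < 2 * X := by exact_mod_cast hca
  have haR : (0 : ℝ) < a := by exact_mod_cast ha
  have hMR : (0 : ℝ) < Mn n := by exact_mod_cast (by omega : 0 < Mn n)
  have hX0 : (0 : ℝ) < X := lt_of_lt_of_le (Real.rpow_pos_of_pos hN0 _) hd.X1
  have hXn : (X : ℝ) ≤ n := by exact_mod_cast hd.X2
  set y : ℝ := (n : ℝ) ^ (1 / 4000 : ℝ) with hy
  have hy1 : 1 ≤ y := Real.one_le_rpow hN1 (by norm_num)
  set t : ℝ := tau (2 * n) with ht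
  have ht1 : 1 ≤ t := tau_pos _ (by omega)
  have htle : t ≤ 2 * K * y := by
    refine (htau (2 * n) (by omega)).trans ?_
    push_cast
    rw [Real.mul_rpow (by norm_num) hN0.le]
    calc K * ((2 : ℝ) ^ (1 / 4000 : ℝ) * y) ≤ K * ((2 : ℝ) ^ (1 : ℝ) * y) := by
          have : (2 : ℝ) ^ (1 / 4000 : ℝ) ≤ (2 : ℝ) ^ (1 : ℝ) :=
            Real.rpow_le_rpow_of_exponent_le (by norm_num) (by norm_num)
          gcongr
      _ = 2 * K * y := by rw [Real.rpow_one]; ring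
  have htau_n : ∀ k : ℕ, 1 ≤ k → (k : ℝ) ≤ n → tau k ≤ K * y := by
    intro k hk hkn
    refine (htau k hk).trans ?_
    refine mul_le_mul_of_nonneg_left ?_ (by linarith)
    exact Real.rpow_le_rpow (by positivity) hkn (by norm_num)
  have han : (a : ℝ) ≤ n := by
    by_contra hcon
    push Not at hcon
    have h1 : (n : ℝ) * n < (a : ℝ) ^ 2 := by nlinarith
    have h2 : (a : ℝ) ^ 2 ≤ c0 * (a : ℝ) ^ 2 := by nlinarith [sq_nonneg (a : ℝ)]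
    nlinarith
  have h2M : 2 * (Mn n : ℝ) ≤ n := by
    have h1 : (n : ℝ) ^ (1 / 20 : ℝ) ≤ (n : ℝ) ^ (1 / 2 : ℝ) :=
      Real.rpow_le_rpow_of_exponent_le hN1 (by norm_num)
    have h2 : (n : ℝ) ^ (1 / 2 : ℝ) * (n : ℝ) ^ (1 / 2 : ℝ) = n := by
      rw [← Real.rpow_add hN0]; norm_num
    have h3 : (2 : ℝ) ≤ (n : ℝ) ^ (1 / 2 : ℝ) := by
      rw [← Real.sqrt_eq_rpow]
      exact Real.le_sqrt_of_sq_le (by linarith)
    nlinarith
  have hG : ∀ m ∈ S, sg (m1 * m) ≤ 2 * (Mn n : ℝ) * (K * y) := by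
    intro m hm
    obtain ⟨h1, -, -, h4, -⟩ := hmem m hm
    have h5 : ((m1 * m : ℕ) : ℝ) ≤ 2 * (Mn n : ℝ) := by exact_mod_cast h4.le
    have h6 : tau (m1 * m) ≤ K * y :=
      htau_n _ (Nat.mul_pos hm1pos h1) (h5.trans h2M)
    refine (sg_le _).trans ?_
    exact mul_le_mul h5 h6 (by unfold tau; positivity) (by positivity)
  set B : ℝ := 2 * X * m1 / (c0 * a * Mn n) with hB
  have hm1R : (1 : ℝ) ≤ m1 := by exact_mod_cast hm1pos
  have hB1 : 1 ≤ B := by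
    rw [hB, le_div_iff₀ (by positivity), one_mul]
    have h1 : (c0 : ℝ) * a * Mn n ≤ 2 * X := by
      refine le_of_sq_le_sq ?_ (by positivity)
      have h2 : (c0 : ℝ) * (Mn n : ℝ) ^ 2 ≤ X := by
        calc (c0 : ℝ) * (Mn n : ℝ) ^ 2 ≤ (n : ℝ) ^ (1 / 400 : ℝ) *
              ((n : ℝ) ^ (1 / 20 : ℝ)) ^ 2 := by
              have := hd.c0le
              gcongr
          _ ≤ (n : ℝ) ^ (999 / 1000 : ℝ) := by
              rw [← Real.rpow_natCast, ← Real.rpow_mul hN0.le, ← Real.rpow_add hN0]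
              exact Real.rpow_le_rpow_of_exponent_le hN1 (by norm_num)
          _ ≤ X := hd.X1
      calc ((c0 : ℝ) * (a : ℝ) * (Mn n : ℝ)) ^ 2 =
            ((c0 : ℝ) * (a : ℝ) ^ 2) * ((c0 : ℝ) * (Mn n : ℝ) ^ 2) := by ring
        _ ≤ (2 * (X : ℝ)) * (X : ℝ) := mul_le_mul hcaR.le h2 (by positivity) (by positivity)
        _ ≤ (2 * (X : ℝ)) ^ 2 := by nlinarith
    calc (c0 : ℝ) * a * Mn n ≤ 2 * X * 1 := by linarith
      _ ≤ 2 * X * m1 := by gcongr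
  have hb := hblk n X c0 s Γ α β ε w (by omega) hd (by omega) a m1 ha hacop hm1 S
    (fun m hm => ⟨(hmem m hm).1, (hmem m hm).2.1, (hmem m hm).2.2.1⟩) B rfl
  have hff0 : 0 ≤ ff n := (ff_pos n (by omega)).le
  have hff1 : ff n ≤ 1 := ff_le_one n
  have hfB : ff n * B ≤ B := by nlinarith
  have hfB0 : 0 ≤ ff n * B := by positivity
  have hD : ff n * B + t ≤ 2 * t * B := by nlinarith
  set E : ℝ := C1 * c0 * t * (1 + (n : ℝ) ^ (1 / 200 : ℝ)) * (a : ℝ) ^ (4 / 5 : ℝ) with hE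
  have hE0 : 0 ≤ E := by
    have : 0 ≤ (n : ℝ) ^ (1 / 200 : ℝ) := (Real.rpow_pos_of_pos hN0 _).le
    rw [hE]; positivity
  have hs := N17a_sum a Z m1 ha S hSub (2 * (Mn n : ℝ) * (K * y)) (2 * t * B) B E
    (by positivity) (by positivity) (by positivity) hE0 hG (ff n * B) E hfB le_rfl hfB0 hE0
    (ff n * B + t) hD (by positivity)
  have hreal := N17a_real K C1 hK hC1 n X (Mn n) c0 a m1 Z t (tau a) y B E hN1 hd.X1 hM1 hM2
    hc0R hd.c0le ha100 hcaR hm1R (by exact_mod_cast hZ1) (by exact_mod_cast hZ2)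
    (by exact_mod_cast hZpos) hy (by linarith) htle (by unfold tau; positivity)
    (htau_n a ha han) hB hE
  have hfinal : ‖∑ m ∈ S, ∑ b ∈ (Finset.Icc 1 (2 * X)).filter (fun b =>
      Nat.Coprime b (2 * n * a) ∧ a < m * b), Fs n c0 s Γ α β ε w a (m * b) (m1 * m)‖ ^ 2 ≤
      (200 * K ^ 3 * C1 * (X * Mn n / (c0 * a)) * (n : ℝ) ^ (-(1 / 250) : ℝ)) ^ 2 := by
    refine hb.trans (le_trans ?_ hreal)
    refine mul_le_mul hD hs ?_ (by positivity)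
    refine Finset.sum_nonneg fun m _ => Finset.sum_nonneg fun m' _ => ?_
    refine mul_nonneg (mul_nonneg (sg_nonneg _) (sg_nonneg _)) ?_
    split_ifs
    · positivity
    · positivity
  have hR0 : 0 ≤ 200 * K ^ 3 * C1 * ((X : ℝ) * Mn n / (c0 * a)) *
      (n : ℝ) ^ (-(1 / 250) : ℝ) := by positivity
  refine (le_of_sq_le_sq hfinal hR0).trans (le_of_eq ?_)
  ring

end RV11
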