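import Pool.Agent.LibRV11.N17a

open Complex Real

namespace RV11

private theorem N17b_log (n X : ℕ) (hn : 2 ≤ n) (hX : X ≤ n) (hX1 : 1 ≤ X) :
    ∑ a ∈ Finset.Icc 1 (2 * X), (1 : ℝ) / a ≤ 6001 * (n : ℝ) ^ (1 / 3000 : ℝ) := by
  have h1 := sum_a_log (2 * X) (by omega)
  have hn1 : (1 : ℝ) ≤ n := by exact_mod_cast (by omega : 1 ≤ n)
  have hn2 : (2 : ℝ) ≤ n := by exact_mod_cast hn
  have hX' : (X : ℝ) ≤ n := by exact_mod_cast hX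
  have hX1' : (1 : ℝ) ≤ X := by exact_mod_cast hX1
  have h2 : Real.log ((2 * X : ℕ) : ℝ) ≤ Real.log ((n : ℝ) ^ 2) := by
    apply Real.log_le_log
    · push_cast
      positivity
    · push_cast
      nlinarith
  have h3 : Real.log ((n : ℝ) ^ 2) ≤ ((n : ℝ) ^ 2) ^ (1 / 6000 : ℝ) / (1 / 6000 : ℝ) :=
    Real.log_le_rpow_div (by positivity) (by norm_num)
  have h4 : ((n : ℝ) ^ 2) ^ (1 / 6000 : ℝ) = (n : ℝ) ^ (1 / 3000 : ℝ) := by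
    rw [← Real.rpow_natCast, ← Real.rpow_mul (by positivity)]
    norm_num
  have h5 : (1 : ℝ) ≤ (n : ℝ) ^ (1 / 3000 : ℝ) := Real.one_le_rpow hn1 (by norm_num)
  rw [h4] at h3
  linarith

private theorem N17b_inner (C1 : ℝ) (hC1 : 1 ≤ C1) (n X c0 : ℕ) (s : ℤ) (Γ : ZMod (2 * c0) → ℂ)
    (α β ε w : ℕ → ℂ) (hD : Dat n X c0 s Γ α β ε w)
    (hblk : ∀ a m1 : ℕ, 1 ≤ a → Nat.Coprime a (2 * n) → (n : ℝ) ^ (1 / 100 : ℝ) < (a : ℝ) →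
      m1 ∣ a → c0 * a ^ 2 < 2 * X →
      ‖∑ m ∈ (Finset.Icc 1 (2 * Mn n)).filter (fun m => Nat.Coprime m (2 * n * a) ∧
          Mn n ≤ m1 * m ∧ m1 * m < 2 * Mn n ∧ (¬ ((a : ℝ) ≤ (n : ℝ) ^ (1 / 100 : ℝ)) ∧
            Mn n ≤ m ^ 2)),
        ∑ b ∈ (Finset.Icc 1 (2 * X)).filter (fun b => Nat.Coprime b (2 * n * a) ∧
          a < m * b), Fs n c0 s Γ α β ε w a (m * b) (m1 * m)‖ ≤
      C1 * X * Mn n / (c0 * a) * (n : ℝ) ^ (-(1 / 250) : ℝ))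
    (a m1 : ℕ) (ha1 : 1 ≤ a) (hac : Nat.Coprime a (2 * n)) (hm1 : m1 ∣ a) :
    ‖∑ m ∈ (Finset.Icc 1 (2 * Mn n)).filter (fun m => Nat.Coprime m (2 * n * a) ∧
          Mn n ≤ m1 * m ∧ m1 * m < 2 * Mn n ∧ (¬ ((a : ℝ) ≤ (n : ℝ) ^ (1 / 100 : ℝ)) ∧
            Mn n ≤ m ^ 2)),
        ∑ b ∈ (Finset.Icc 1 (2 * X)).filter (fun b => Nat.Coprime b (2 * n * a) ∧
          a < m * b), Fs n c0 s Γ α β ε w a (m * b) (m1 * m)‖ ≤
      C1 * X * Mn n / (c0 * a) * (n : ℝ) ^ (-(1 / 250) : ℝ) := by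
  have hpos : 0 ≤ C1 * X * Mn n / (c0 * a) * (n : ℝ) ^ (-(1 / 250) : ℝ) := by positivity
  by_cases ha : (a : ℝ) ≤ (n : ℝ) ^ (1 / 100 : ℝ)
  · rw [Finset.sum_eq_zero, norm_zero]
    · exact hpos
    · intro m hm
      exact absurd ha (Finset.mem_filter.1 hm).2.2.2.2.1
  by_cases hc : c0 * a ^ 2 < 2 * X
  · exact hblk a m1 ha1 hac (not_le.1 ha) hm1 hc
  rw [Finset.sum_eq_zero, norm_zero]
  · exact hpos
  · intro m _
    refine Finset.sum_eq_zero fun b hb => ?_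
    have hb' := (Finset.mem_filter.1 hb).2.2
    have hw : w (c0 * a * (m * b)) = 0 := by
      by_contra hw
      have h1 := (hD.supp _ hw).2
      have h2 : c0 * a ^ 2 ≤ c0 * a * (m * b) := by
        rw [pow_two, ← mul_assoc]
        exact Nat.mul_le_mul_left _ hb'.le
      omega
    rw [Fs, hw, mul_zero, zero_mul]

/-- range (ii) -/
theorem range_ii : ∃ (C : ℝ) (n0 : ℕ), 1 ≤ C ∧ ∀ (n X c0 : ℕ) (s : ℤ) (Γ : ZMod (2 * c0) → ℂ)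
    (α β ε w : ℕ → ℂ), n0 ≤ n → Dat n X c0 s Γ α β ε w →
    ‖∑ a ∈ (Finset.Icc 1 (2 * X)).filter (fun a => Nat.Coprime a (2 * n)),
      ∑ m1 ∈ a.divisors, ∑ m ∈ (Finset.Icc 1 (2 * Mn n)).filter (fun m =>
        Nat.Coprime m (2 * n * a) ∧ Mn n ≤ m1 * m ∧ m1 * m < 2 * Mn n ∧
          (¬ ((a : ℝ) ≤ (n : ℝ) ^ (1 / 100 : ℝ)) ∧ Mn n ≤ m ^ 2)),
      ∑ b ∈ (Finset.Icc 1 (2 * X)).filter (fun b => Nat.Coprime b (2 * n * a) ∧
        a < m * b), Fs n c0 s Γ α β ε w a (m * b) (m1 * m)‖ ≤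
    C * X * Mn n / c0 * (n : ℝ) ^ (-(1 / 300) : ℝ) := by
  obtain ⟨C1, n1, hC1, h1⟩ := blk_ii
  obtain ⟨C2, hC2, h2⟩ := tau_bound (1 / 6000) (by norm_num)
  refine ⟨6001 * C1 * C2, max n1 2, by nlinarith, ?_⟩
  intro n X c0 s Γ α β ε w hn hD
  have hn1 : n1 ≤ n := (le_max_left _ _).trans hn
  have hn2 : 2 ≤ n := (le_max_right _ _).trans hn
  have hnR : (1 : ℝ) ≤ n := by exact_mod_cast (by omega : 1 ≤ n)
  have hnR2 : (2 : ℝ) ≤ n := by exact_mod_cast hn2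
  have hn0 : (0 : ℝ) < n := by linarith
  have hc0 : (0 : ℝ) < c0 := by
    have := Nat.pos_of_ne_zero hD.sm.1
    exact_mod_cast this
  have hX1 : 1 ≤ X := by
    have h3 := hD.X1
    have h4 : (1 : ℝ) ≤ (n : ℝ) ^ (999 / 1000 : ℝ) := Real.one_le_rpow hnR (by norm_num)
    have h5 : (1 : ℝ) ≤ (X : ℝ) := h4.trans h3
    exact_mod_cast h5
  have hX' : (X : ℝ) ≤ n := by exact_mod_cast hD.X2
  set K : ℝ := C2 * (n : ℝ) ^ (1 / 3000 : ℝ) * (C1 * X * Mn n / c0 * (n : ℝ) ^ (-(1 / 250) : ℝ))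
    with hK
  have hK0 : 0 ≤ K := by positivity
  have hstep : ∀ a ∈ (Finset.Icc 1 (2 * X)).filter (fun a => Nat.Coprime a (2 * n)),
      ‖∑ m1 ∈ a.divisors, ∑ m ∈ (Finset.Icc 1 (2 * Mn n)).filter (fun m =>
        Nat.Coprime m (2 * n * a) ∧ Mn n ≤ m1 * m ∧ m1 * m < 2 * Mn n ∧
          (¬ ((a : ℝ) ≤ (n : ℝ) ^ (1 / 100 : ℝ)) ∧ Mn n ≤ m ^ 2)),
      ∑ b ∈ (Finset.Icc 1 (2 * X)).filter (fun b => Nat.Coprime b (2 * n * a) ∧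
        a < m * b), Fs n c0 s Γ α β ε w a (m * b) (m1 * m)‖ ≤ K * (1 / a) := by
    intro a ha
    rw [Finset.mem_filter, Finset.mem_Icc] at ha
    obtain ⟨⟨ha1, ha2⟩, hac⟩ := ha
    have haR : (0 : ℝ) < a := by exact_mod_cast ha1
    refine (norm_sum_le _ _).trans ?_
    refine (Finset.sum_le_sum fun m1 hm1 => N17b_inner C1 hC1 n X c0 s Γ α β ε w hD
      (fun a m1 => h1 n X c0 s Γ α β ε w hn1 hD a m1) a m1 ha1 hac
      (Nat.dvd_of_mem_divisors hm1)).trans ?_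
    rw [Finset.sum_const, nsmul_eq_mul]
    have h3 : (a.divisors.card : ℝ) ≤ C2 * (n : ℝ) ^ (1 / 3000 : ℝ) := by
      refine (h2 a ha1).trans (mul_le_mul_of_nonneg_left ?_ (by linarith))
      have h4 : (a : ℝ) ≤ (n : ℝ) ^ 2 := by
        have h5 : (a : ℝ) ≤ 2 * X := by exact_mod_cast ha2
        nlinarith
      refine (Real.rpow_le_rpow haR.le h4 (by norm_num)).trans (le_of_eq ?_)
      rw [← Real.rpow_natCast, ← Real.rpow_mul (by positivity)]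
      norm_num
    have h4 : 0 ≤ C1 * X * Mn n / (c0 * a) * (n : ℝ) ^ (-(1 / 250) : ℝ) := by positivity
    refine (mul_le_mul_of_nonneg_right h3 h4).trans (le_of_eq ?_)
    rw [hK]
    field_simp
  refine (norm_sum_le _ _).trans ((Finset.sum_le_sum hstep).trans ?_)
  rw [← Finset.mul_sum]
  have h3 : ∑ a ∈ (Finset.Icc 1 (2 * X)).filter (fun a => Nat.Coprime a (2 * n)), (1 : ℝ) / a ≤
      6001 * (n : ℝ) ^ (1 / 3000 : ℝ) :=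
    (Finset.sum_le_sum_of_subset_of_nonneg (Finset.filter_subset _ _)
      fun a _ _ => by positivity).trans (N17b_log n X hn2 hD.X2 hX1)
  refine (mul_le_mul_of_nonneg_left h3 hK0).trans (le_of_eq ?_)
  have h4 : (n : ℝ) ^ (1 / 3000 : ℝ) * (n : ℝ) ^ (-(1 / 250) : ℝ) * (n : ℝ) ^ (1 / 3000 : ℝ) =
      (n : ℝ) ^ (-(1 / 300) : ℝ) := by
    rw [← Real.rpow_add hn0, ← Real.rpow_add hn0]
    norm_num
  rw [← h4, hK]
  ring

end RV11
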