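import Pool.Agent.LibRV11.N14
import Pool.Agent.LibRV11.N14b
import Pool.Agent.LibRV11.N13f
import Pool.Agent.LibRV11.N15b

open Complex Real

namespace RV11

/-- the set of `m` in range (iii) -/
noncomputable def N19a_S (n m2 a : ℕ) : Finset ℕ :=
  (Finset.Icc 1 (2 * Mn n)).filter (fun m => Nat.Coprime m (2 * n * m2) ∧
    Mn n ≤ m * m2 ∧ m * m2 < 2 * Mn n ∧
      (¬ (((m * a : ℕ) : ℝ) ≤ (n : ℝ) ^ (1 / 100 : ℝ)) ∧ m2 ^ 2 < Mn n))

theorem N19a_inner (n c0 : ℕ) (s : ℤ) (Γ : ZMod (2 * c0) → ℂ) (α β ε w : ℕ → ℂ) (m2 a b : ℕ) :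
    ∑ m ∈ (Finset.Icc 1 (2 * Mn n)).filter (fun m => Nat.Coprime m (2 * n * m2 * b) ∧
        Mn n ≤ m * m2 ∧ m * m2 < 2 * Mn n ∧ m * a < m2 * b ∧
          (¬ (((m * a : ℕ) : ℝ) ≤ (n : ℝ) ^ (1 / 100 : ℝ)) ∧ m2 ^ 2 < Mn n)),
        Fs n c0 s Γ α β ε w (m * a) (m2 * b) (m * m2) =
    β (m2 * b) * ∑ m ∈ (N19a_S n m2 a).filter (fun m => Nat.Coprime m b),
      (α (m * a) * (ε (m * m2) * (sg (m * m2) : ℂ))) *
        Γ (((a * m2 : ℕ) : ZMod (2 * c0)) * ((m * b : ℕ) : ZMod (2 * c0))) *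
        er (m * a) (2 * (s : ZMod (m * a)) * (n : ZMod (m * a)) *
          (((c0 * (m2 * b) : ℕ) : ZMod (m * a)))⁻¹) *
        (w (c0 * (m * a) * m2 * b + 0) * (if m * a < m2 * b then (1 : ℂ) else 0)) := by
  have hset : (Finset.Icc 1 (2 * Mn n)).filter (fun m => Nat.Coprime m (2 * n * m2 * b) ∧
        Mn n ≤ m * m2 ∧ m * m2 < 2 * Mn n ∧ m * a < m2 * b ∧
          (¬ (((m * a : ℕ) : ℝ) ≤ (n : ℝ) ^ (1 / 100 : ℝ)) ∧ m2 ^ 2 < Mn n)) =
      ((N19a_S n m2 a).filter (fun m => Nat.Coprime m b)).filter (fun m => m * a < m2 * b) := by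
    ext m
    simp only [N19a_S, Finset.mem_filter, Nat.coprime_mul_iff_right (m := 2 * n * m2)]
    tauto
  rw [hset, Finset.sum_filter, Finset.mul_sum]
  apply Finset.sum_congr rfl
  intro m _
  by_cases h : m * a < m2 * b
  · rw [if_pos h, if_pos h]
    unfold Fs
    have e1 : (((m * a) * (m2 * b) : ℕ) : ZMod (2 * c0)) =
        ((a * m2 : ℕ) : ZMod (2 * c0)) * ((m * b : ℕ) : ZMod (2 * c0)) := by
      push_cast
      ring
    have e2 : c0 * (m * a) * (m2 * b) = c0 * (m * a) * m2 * b + 0 := by ring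
    rw [e1, e2]
    ring
  · rw [if_neg h, if_neg h]
    ring

theorem N19a_mem {n m2 a m : ℕ} (hm2 : 1 ≤ m2) (h : m ∈ N19a_S n m2 a) :
    1 ≤ m ∧ Nat.Coprime m (2 * n * m2) ∧ (Mn n : ℝ) / m2 ≤ m ∧ (m : ℝ) < 2 * ((Mn n : ℝ) / m2) ∧
      Mn n ≤ m * m2 ∧ m * m2 < 2 * Mn n := by
  unfold N19a_S at h
  simp only [Finset.mem_filter, Finset.mem_Icc] at h
  obtain ⟨⟨h1, _⟩, h2, h3, h4, _⟩ := h
  have hp : (0 : ℝ) < m2 := by exact_mod_cast hm2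
  refine ⟨h1, h2, ?_, ?_, h3, h4⟩
  · rw [div_le_iff₀ hp]
    exact_mod_cast h3
  · rw [← mul_div_assoc, lt_div_iff₀ hp]
    exact_mod_cast h4

theorem N19a_card {n m2 a : ℕ} (hm2 : 1 ≤ m2) :
    ((N19a_S n m2 a).card : ℝ) ≤ 2 * ((Mn n : ℝ) / m2) := by
  have h0 : (0 : ℝ) ≤ 2 * ((Mn n : ℝ) / m2) := by positivity
  have hsub : N19a_S n m2 a ⊆ Finset.Icc 1 ⌊2 * ((Mn n : ℝ) / m2)⌋₊ := by
    intro m hm
    obtain ⟨h1, _, _, h2, _⟩ := N19a_mem hm2 hm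
    rw [Finset.mem_Icc]
    exact ⟨h1, Nat.le_floor h2.le⟩
  have h2 := Finset.card_le_card hsub
  rw [Nat.card_Icc, Nat.add_sub_cancel] at h2
  calc ((N19a_S n m2 a).card : ℝ) ≤ (⌊2 * ((Mn n : ℝ) / m2)⌋₊ : ℝ) := by exact_mod_cast h2
    _ ≤ _ := Nat.floor_le h0

/-- summation over the pairs -/
theorem N19a_pairs {S : Finset ℕ} {e : ℕ → ℂ} {K B L a E : ℝ} (hK : 0 ≤ K) (hB : 0 ≤ B)
    (hL : 1 ≤ L) (ha : 1 ≤ a) (hE : 0 ≤ E) (he : ∀ m ∈ S, ‖e m‖ ≤ K) (hS : (S.card : ℝ) ≤ 2 * L)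
    (hSm : ∀ m ∈ S, L ≤ (m : ℝ) ∧ (m : ℝ) < 2 * L) {f : ℕ → ℕ → ℝ}
    (hf : ∀ m ∈ S, ∀ m' ∈ S, f m m' ≤ E) (_hf0 : ∀ m m', 0 ≤ f m m') :
    ∑ m ∈ S, ∑ m' ∈ S, ‖e m‖ * ‖e m'‖ *
      (if m = m' then B else B * |(m : ℝ) - m'| / (m * m' * a) + f m m') ≤
    K ^ 2 * (6 * L * B + 4 * L ^ 2 * E) := by
  have hL0 : 0 < L := by linarith
  have h1 : ∀ m ∈ S, ∀ m' ∈ S, ‖e m‖ * ‖e m'‖ *
      (if m = m' then B else B * |(m : ℝ) - m'| / (m * m' * a) + f m m') ≤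
      (if m = m' then K ^ 2 * B else 0) + K ^ 2 * (B / L + E) := by
    intro m hm m' hm'
    obtain ⟨h1, h2⟩ := hSm m hm
    obtain ⟨h3, h4⟩ := hSm m' hm'
    have hm0 : (0 : ℝ) < m := by linarith
    have hm0' : (0 : ℝ) < m' := by linarith
    have hee : ‖e m‖ * ‖e m'‖ ≤ K ^ 2 := by
      rw [sq]
      exact mul_le_mul (he m hm) (he m' hm') (norm_nonneg _) hK
    have hee0 : 0 ≤ ‖e m‖ * ‖e m'‖ := by positivity
    by_cases h : m = m'
    · rw [if_pos h, if_pos h]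
      have : ‖e m‖ * ‖e m'‖ * B ≤ K ^ 2 * B := mul_le_mul_of_nonneg_right hee hB
      have h5 : 0 ≤ K ^ 2 * (B / L + E) := by positivity
      linarith
    · rw [if_neg h, if_neg h, zero_add]
      have h5 : |(m : ℝ) - m'| ≤ L := by
        rw [abs_le]
        constructor <;> linarith
      have h6 : B * |(m : ℝ) - m'| / (m * m' * a) ≤ B / L := by
        rw [div_le_div_iff₀ (by positivity) hL0]
        have h7 : L * L ≤ m * m' := mul_le_mul h1 h3 hL0.le hm0.le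
        have h8 : L * L ≤ m * m' * a := by
          nlinarith [mul_pos hm0 hm0']
        have h9 : |(m : ℝ) - m'| * L ≤ m * m' * a := by
          nlinarith
        calc B * |(m : ℝ) - m'| * L = B * (|(m : ℝ) - m'| * L) := by ring
          _ ≤ B * (m * m' * a) := mul_le_mul_of_nonneg_left h9 hB
      have h10 : B * |(m : ℝ) - m'| / (m * m' * a) + f m m' ≤ B / L + E :=
        add_le_add h6 (hf m hm m' hm')
      have h11 : 0 ≤ B / L + E := by positivity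
      calc _ ≤ ‖e m‖ * ‖e m'‖ * (B / L + E) := mul_le_mul_of_nonneg_left h10 hee0
        _ ≤ _ := mul_le_mul_of_nonneg_right hee h11
  have h2 : ∑ m ∈ S, ∑ m' ∈ S, ‖e m‖ * ‖e m'‖ *
      (if m = m' then B else B * |(m : ℝ) - m'| / (m * m' * a) + f m m') ≤
      ∑ m ∈ S, ∑ m' ∈ S, ((if m = m' then K ^ 2 * B else 0) + K ^ 2 * (B / L + E)) :=
    Finset.sum_le_sum fun m hm => Finset.sum_le_sum fun m' hm' => h1 m hm m' hm'
  refine h2.trans ?_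
  have h3 : ∑ m ∈ S, ∑ m' ∈ S, ((if m = m' then K ^ 2 * B else 0) + K ^ 2 * (B / L + E)) =
      (S.card : ℝ) * (K ^ 2 * B) + (S.card : ℝ) * ((S.card : ℝ) * (K ^ 2 * (B / L + E))) := by
    have h4 : ∀ m ∈ S, ∑ m' ∈ S, ((if m = m' then K ^ 2 * B else 0) + K ^ 2 * (B / L + E)) =
        K ^ 2 * B + (S.card : ℝ) * (K ^ 2 * (B / L + E)) := by
      intro m hm
      rw [Finset.sum_add_distrib, Finset.sum_ite_eq, if_pos hm, Finset.sum_const, nsmul_eq_mul]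
    rw [Finset.sum_congr rfl h4, Finset.sum_const, nsmul_eq_mul]
    ring
  rw [h3]
  have hc0 : (0 : ℝ) ≤ S.card := Nat.cast_nonneg _
  have h5 : 0 ≤ K ^ 2 * B := by positivity
  have h6 : 0 ≤ K ^ 2 * (B / L + E) := by positivity
  have h7 : (S.card : ℝ) * (S.card : ℝ) ≤ (2 * L) * (2 * L) :=
    mul_le_mul hS hS hc0 (by positivity)
  calc (S.card : ℝ) * (K ^ 2 * B) + (S.card : ℝ) * ((S.card : ℝ) * (K ^ 2 * (B / L + E)))
      = (S.card : ℝ) * (K ^ 2 * B) + ((S.card : ℝ) * (S.card : ℝ)) * (K ^ 2 * (B / L + E)) := by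
        ring
    _ ≤ (2 * L) * (K ^ 2 * B) + ((2 * L) * (2 * L)) * (K ^ 2 * (B / L + E)) := by
        apply add_le_add
        · exact mul_le_mul_of_nonneg_right hS h5
        · exact mul_le_mul_of_nonneg_right h7 h6
    _ = K ^ 2 * (6 * L * B + 4 * L ^ 2 * E) := by
        field_simp
        ring

/-- range (iii), fixed `m2` and `a`: the mean square over `b` -/
theorem blk3 : ∃ (C : ℝ) (n0 : ℕ), 1 ≤ C ∧ ∀ (n X c0 : ℕ) (s : ℤ) (Γ : ZMod (2 * c0) → ℂ)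
    (α β ε w : ℕ → ℂ), n0 ≤ n → Dat n X c0 s Γ α β ε w →
    ∀ m2 a : ℕ, 1 ≤ m2 → m2 ^ 2 < Mn n → Nat.Coprime m2 (2 * n) → 1 ≤ a →
    Nat.Coprime a (2 * n * m2) →
    ∑ b ∈ (Finset.Icc 1 (2 * X)).filter (fun b => Nat.Coprime b (2 * n * a)),
      ‖∑ m ∈ (Finset.Icc 1 (2 * Mn n)).filter (fun m => Nat.Coprime m (2 * n * m2 * b) ∧
        Mn n ≤ m * m2 ∧ m * m2 < 2 * Mn n ∧ m * a < m2 * b ∧
          (¬ (((m * a : ℕ) : ℝ) ≤ (n : ℝ) ^ (1 / 100 : ℝ)) ∧ m2 ^ 2 < Mn n)),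
        Fs n c0 s Γ α β ε w (m * a) (m2 * b) (m * m2)‖ ^ 2 ≤
    C * (n : ℝ) ^ (1 / 1000 : ℝ) * (Mn n : ℝ) ^ 2 * (((X : ℝ) / (c0 * a * Mn n)) *
      ((Mn n : ℝ) / m2) + c0 * (n : ℝ) ^ (1 / 200 : ℝ) * ((Mn n : ℝ) / m2) ^ (77 / 20 : ℝ) *
        (a : ℝ) ^ (4 / 5 : ℝ)) := by
  obtain ⟨C, hC, hCS⟩ := CS3
  obtain ⟨C1, hC1, htau⟩ := tau_bound (1 / 4000) (by norm_num)
  obtain ⟨n1, hn1⟩ := Mn_bounds
  refine ⟨1536 * C * C1 ^ 3, max n1 1, ?_, ?_⟩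
  · have h1 : 1 ≤ C1 ^ 3 := one_le_pow₀ hC1
    nlinarith [mul_le_mul hC h1 zero_le_one (by linarith : (0 : ℝ) ≤ C)]
  intro n X c0 s Γ α β ε w hn hD m2 a hm2 hm2M hm2n ha han
  have hn1' : n1 ≤ n := (le_max_left _ _).trans hn
  have hnpos : 1 ≤ n := (le_max_right _ _).trans hn
  obtain ⟨hM1, hM2, hM3⟩ := hn1 n hn1'
  have hnR : (1 : ℝ) ≤ n := by exact_mod_cast hnpos
  have hn0 : (0 : ℝ) < n := by linarith
  have hMpos : (0 : ℝ) < Mn n := by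
    have : (2 : ℝ) ≤ Mn n := by exact_mod_cast hM3
    linarith
  have hc0 : c0 ≠ 0 := hD.sm.1
  have hc0R : (0 : ℝ) < c0 := by exact_mod_cast Nat.pos_of_ne_zero hc0
  have haR : (1 : ℝ) ≤ a := by exact_mod_cast ha
  have ha0 : (0 : ℝ) < a := by linarith
  have hm2R : (0 : ℝ) < m2 := by exact_mod_cast hm2
  set M : ℝ := (Mn n : ℝ) with hMdef
  set L : ℝ := M / m2 with hL
  have hL1 : 1 ≤ L := by
    rw [hL, le_div_iff₀ hm2R, one_mul]
    have h1 : m2 ≤ m2 ^ 2 := Nat.le_self_pow (by norm_num) m2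
    have h2 : m2 ≤ Mn n := h1.trans hm2M.le
    rw [hMdef]
    exact_mod_cast h2
  have hL0 : 0 < L := by linarith
  -- data for Cauchy-Schwarz
  set V : ℝ := (n : ℝ) ^ (1 / 200 : ℝ) + 1 with hV
  have hnV : 1 ≤ (n : ℝ) ^ (1 / 200 : ℝ) := Real.one_le_rpow hnR (by norm_num)
  have hV0 : 0 ≤ V := by linarith
  set B : ℕ := ⌊2 * (X : ℝ) / (c0 * a * M)⌋₊ with hB
  have hBle : (B : ℝ) ≤ 2 * (X : ℝ) / (c0 * a * M) := Nat.floor_le (by positivity)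
  set S := N19a_S n m2 a with hS
  set Γ' : ZMod (2 * c0) → ℂ := fun x => Γ (((a * m2 : ℕ) : ZMod (2 * c0)) * x) with hΓ'
  set e : ℕ → ℂ := fun m => α (m * a) * (ε (m * m2) * (sg (m * m2) : ℂ)) with he
  set wt : ℕ → ℕ → ℂ := fun m b => w (c0 * (m * a) * m2 * b + 0) *
    (if m * a < m2 * b then (1 : ℂ) else 0) with hwt
  have hwtBV : ∀ m ∈ S, BV (wt m) V := by
    intro m _
    exact (hD.hw.comp_mul (c0 * (m * a) * m2) 0).mul (BV.ind_lt (m * a) m2)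
  have han' : Nat.Coprime a (2 * n) := Nat.Coprime.coprime_dvd_right (Dvd.intro _ rfl) han
  have ham2 : Nat.Coprime a m2 := Nat.Coprime.coprime_dvd_right (Dvd.intro_left _ rfl) han
  have hm2na : Nat.Coprime m2 (2 * n * a) := Nat.Coprime.mul_right hm2n ham2.symm
  have hSprop : ∀ m ∈ S, 1 ≤ m ∧ Nat.Coprime m (2 * n * m2) := by
    intro m hm
    obtain ⟨h1, h2, _⟩ := N19a_mem hm2 hm
    exact ⟨h1, h2⟩
  have hmain := hCS n c0 a m2 hnpos hD.sm ha hm2 han' hm2na s hD.hs Γ' (fun v => hD.hΓ _) S hSprop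
    e V wt hwtBV hV0 B
  -- reduction of the left side
  have hleft : ∑ b ∈ (Finset.Icc 1 (2 * X)).filter (fun b => Nat.Coprime b (2 * n * a)),
      ‖∑ m ∈ (Finset.Icc 1 (2 * Mn n)).filter (fun m => Nat.Coprime m (2 * n * m2 * b) ∧
        Mn n ≤ m * m2 ∧ m * m2 < 2 * Mn n ∧ m * a < m2 * b ∧
          (¬ (((m * a : ℕ) : ℝ) ≤ (n : ℝ) ^ (1 / 100 : ℝ)) ∧ m2 ^ 2 < Mn n)),
        Fs n c0 s Γ α β ε w (m * a) (m2 * b) (m * m2)‖ ^ 2 ≤
      ∑ b ∈ (Finset.Icc 1 B).filter (fun b => Nat.Coprime b (2 * n * a)),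
      ‖∑ m ∈ S.filter (fun m => Nat.Coprime m b), e m * Γ' ((m * b : ℕ) : ZMod (2 * c0)) *
        er (m * a) (2 * (s : ZMod (m * a)) * (n : ZMod (m * a)) *
          (((c0 * (m2 * b) : ℕ) : ZMod (m * a)))⁻¹) * wt m b‖ ^ 2 := by
    have hterm : ∀ b ∈ (Finset.Icc 1 (2 * X)).filter (fun b => Nat.Coprime b (2 * n * a)),
        ‖∑ m ∈ (Finset.Icc 1 (2 * Mn n)).filter (fun m => Nat.Coprime m (2 * n * m2 * b) ∧
          Mn n ≤ m * m2 ∧ m * m2 < 2 * Mn n ∧ m * a < m2 * b ∧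
            (¬ (((m * a : ℕ) : ℝ) ≤ (n : ℝ) ^ (1 / 100 : ℝ)) ∧ m2 ^ 2 < Mn n)),
          Fs n c0 s Γ α β ε w (m * a) (m2 * b) (m * m2)‖ ^ 2 =
        ‖∑ m ∈ S.filter (fun m => Nat.Coprime m b), e m * Γ' ((m * b : ℕ) : ZMod (2 * c0)) *
          er (m * a) (2 * (s : ZMod (m * a)) * (n : ZMod (m * a)) *
            (((c0 * (m2 * b) : ℕ) : ZMod (m * a)))⁻¹) * wt m b‖ ^ 2 := by
      intro b hb
      rw [Finset.mem_filter, Finset.mem_Icc] at hb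
      have hbn : Nat.Coprime b (2 * n) :=
        Nat.Coprime.coprime_dvd_right (Dvd.intro _ rfl) hb.2
      have hβ : ‖β (m2 * b)‖ = 1 := hD.hβ1 _ (Nat.Coprime.mul_left hm2n hbn)
      rw [N19a_inner n c0 s Γ α β ε w m2 a b, norm_mul, hβ, one_mul]
    rw [Finset.sum_congr rfl hterm]
    rw [Finset.sum_filter, Finset.sum_filter]
    rw [← Finset.sum_filter_add_sum_filter_not (Finset.Icc 1 (2 * X)) (fun b => b ≤ B)]
    have hzero : ∑ b ∈ (Finset.Icc 1 (2 * X)).filter (fun b => ¬ b ≤ B),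
        (if Nat.Coprime b (2 * n * a) then
          ‖∑ m ∈ S.filter (fun m => Nat.Coprime m b), e m * Γ' ((m * b : ℕ) : ZMod (2 * c0)) *
          er (m * a) (2 * (s : ZMod (m * a)) * (n : ZMod (m * a)) *
            (((c0 * (m2 * b) : ℕ) : ZMod (m * a)))⁻¹) * wt m b‖ ^ 2 else 0) = 0 := by
      apply Finset.sum_eq_zero
      intro b hb
      rw [Finset.mem_filter] at hb
      have hbB : B < b := not_le.1 hb.2
      have hb2 : 2 * (X : ℝ) / (c0 * a * M) < b := (Nat.floor_lt (by positivity)).1 hbB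
      rw [div_lt_iff₀ (by positivity)] at hb2
      split_ifs
      · have : ∑ m ∈ S.filter (fun m => Nat.Coprime m b),
            e m * Γ' ((m * b : ℕ) : ZMod (2 * c0)) *
            er (m * a) (2 * (s : ZMod (m * a)) * (n : ZMod (m * a)) *
            (((c0 * (m2 * b) : ℕ) : ZMod (m * a)))⁻¹) * wt m b = 0 := by
          apply Finset.sum_eq_zero
          intro m hm
          rw [Finset.mem_filter] at hm
          obtain ⟨_, _, _, _, h5, _⟩ := N19a_mem hm2 hm.1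
          have hw0 : w (c0 * (m * a) * m2 * b + 0) = 0 := by
            by_contra hne
            obtain ⟨_, h7⟩ := hD.supp _ hne
            have h8 : (((c0 * (m * a) * m2 * b + 0 : ℕ)) : ℝ) < 2 * X := by exact_mod_cast h7
            have h9 : (M : ℝ) ≤ m * m2 := by
              rw [hMdef]
              exact_mod_cast h5
            have h10 : (b : ℝ) * (c0 * a * M) ≤ (((c0 * (m * a) * m2 * b + 0 : ℕ)) : ℝ) := by
              push_cast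
              have h11 : (0 : ℝ) ≤ b * (c0 * a) := by positivity
              nlinarith [mul_le_mul_of_nonneg_left h9 h11]
            linarith
          simp only [hwt, hw0, zero_mul, mul_zero]
        rw [this]
        simp
      · rfl
    rw [hzero, add_zero]
    apply Finset.sum_le_sum_of_subset_of_nonneg
    · intro b hb
      rw [Finset.mem_filter, Finset.mem_Icc] at hb
      rw [Finset.mem_Icc]
      exact ⟨hb.1.1, hb.2⟩
    · intro b _ _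
      split_ifs
      · positivity
      · exact le_rfl
  refine hleft.trans (hmain.trans ?_)
  -- bounds for the terms
  set K : ℝ := 4 * C1 * M * (n : ℝ) ^ (1 / 4000 : ℝ) with hK
  have hn4 : 1 ≤ (n : ℝ) ^ (1 / 4000 : ℝ) := Real.one_le_rpow hnR (by norm_num)
  have h2n : ∀ x : ℝ, 0 ≤ x → x ≤ 2 * n → x ^ (1 / 4000 : ℝ) ≤ 2 * (n : ℝ) ^ (1 / 4000 : ℝ) := by
    intro x hx0 hx
    calc x ^ (1 / 4000 : ℝ) ≤ (2 * (n : ℝ)) ^ (1 / 4000 : ℝ) :=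
          Real.rpow_le_rpow hx0 hx (by norm_num)
      _ = (2 : ℝ) ^ (1 / 4000 : ℝ) * (n : ℝ) ^ (1 / 4000 : ℝ) :=
          Real.mul_rpow (by norm_num) hn0.le
      _ ≤ 2 * (n : ℝ) ^ (1 / 4000 : ℝ) := by
          apply mul_le_mul_of_nonneg_right _ (by linarith)
          calc (2 : ℝ) ^ (1 / 4000 : ℝ) ≤ (2 : ℝ) ^ (1 : ℝ) :=
                Real.rpow_le_rpow_of_exponent_le (by norm_num) (by norm_num)
            _ = 2 := Real.rpow_one 2
  have hMn : M ≤ n := by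
    calc M ≤ (n : ℝ) ^ (1 / 20 : ℝ) := hM2
      _ ≤ (n : ℝ) ^ (1 : ℝ) := Real.rpow_le_rpow_of_exponent_le hnR (by norm_num)
      _ = n := Real.rpow_one _
  have hKe : ∀ m ∈ S, ‖e m‖ ≤ K := by
    intro m hm
    obtain ⟨h1, _, _, _, _, h6⟩ := N19a_mem hm2 hm
    have hmm : 1 ≤ m * m2 := Nat.one_le_iff_ne_zero.2
      (Nat.mul_ne_zero (by omega) (by omega))
    have h7 : ((m * m2 : ℕ) : ℝ) ≤ 2 * M := by
      rw [hMdef]
      exact_mod_cast h6.le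
    have hsg := sg_le (m * m2)
    have htau' := htau (m * m2) hmm
    have h8 := h2n ((m * m2 : ℕ) : ℝ) (Nat.cast_nonneg _) (by linarith)
    have h9 : tau (m * m2) ≤ C1 * (2 * (n : ℝ) ^ (1 / 4000 : ℝ)) :=
      htau'.trans (mul_le_mul_of_nonneg_left h8 (by linarith))
    have h10 : 0 ≤ tau (m * m2) := by unfold tau; positivity
    have h11 : sg (m * m2) ≤ K := by
      calc sg (m * m2) ≤ ((m * m2 : ℕ) : ℝ) * tau (m * m2) := hsg
        _ ≤ (2 * M) * (C1 * (2 * (n : ℝ) ^ (1 / 4000 : ℝ))) :=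
            mul_le_mul h7 h9 h10 (by positivity)
        _ = K := by rw [hK]; ring
    have h12 := sg_nonneg (m * m2)
    rw [he]
    simp only [norm_mul, Complex.norm_real, Real.norm_of_nonneg h12]
    calc ‖α (m * a)‖ * (‖ε (m * m2)‖ * sg (m * m2)) ≤ 1 * (1 * sg (m * m2)) := by
          apply mul_le_mul (hD.hα _) _ (by positivity) zero_le_one
          exact mul_le_mul_of_nonneg_right (hD.hε _) h12
      _ ≤ K := by linarith
  have htau2n : tau (2 * n) ≤ C1 * (2 * (n : ℝ) ^ (1 / 4000 : ℝ)) := by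
    refine (htau (2 * n) (by omega)).trans (mul_le_mul_of_nonneg_left ?_ (by linarith))
    apply h2n
    · positivity
    · push_cast
      exact le_rfl
  have htau0 : 0 ≤ tau (2 * n) := by unfold tau; positivity
  set T : ℝ := C * c0 * tau (2 * n) * (1 + V) with hT
  have hT0 : 0 ≤ T := by
    rw [hT]
    have : 0 ≤ C := by linarith
    positivity
  set E : ℝ := T * ((2 * L) * (2 * L) * a) ^ (4 / 5 : ℝ) * L ^ (1 / 4 : ℝ) with hE
  have hE0 : 0 ≤ E := by rw [hE]; positivity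
  have hSm : ∀ m ∈ S, L ≤ (m : ℝ) ∧ (m : ℝ) < 2 * L := by
    intro m hm
    obtain ⟨_, _, h3, h4, _⟩ := N19a_mem hm2 hm
    exact ⟨h3, h4⟩
  have hpairs := N19a_pairs (S := S) (e := e) (K := K) (B := (B : ℝ)) (L := L) (a := (a : ℝ))
    (E := E) (f := fun m m' => T * ((m : ℝ) * m' * a) ^ (4 / 5 : ℝ) *
      |(m : ℝ) - m'| ^ (1 / 4 : ℝ)) (by rw [hK]; positivity) (Nat.cast_nonneg _) hL1 haR hE0 hKe
    (N19a_card hm2) hSm
    (by
      intro m hm m' hm'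
      obtain ⟨h1, h2⟩ := hSm m hm
      obtain ⟨h3, h4⟩ := hSm m' hm'
      have h5 : |(m : ℝ) - m'| ≤ L := by
        rw [abs_le]
        constructor <;> linarith
      have h6 : (m : ℝ) * m' * a ≤ (2 * L) * (2 * L) * a := by
        apply mul_le_mul_of_nonneg_right _ ha0.le
        exact mul_le_mul h2.le h4.le (by linarith) (by linarith)
      have h7 : ((m : ℝ) * m' * a) ^ (4 / 5 : ℝ) ≤ ((2 * L) * (2 * L) * a) ^ (4 / 5 : ℝ) :=
        Real.rpow_le_rpow (by positivity) h6 (by norm_num)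
      have h8 : |(m : ℝ) - m'| ^ (1 / 4 : ℝ) ≤ L ^ (1 / 4 : ℝ) :=
        Real.rpow_le_rpow (abs_nonneg _) h5 (by norm_num)
      exact mul_le_mul (mul_le_mul_of_nonneg_left h7 hT0) h8 (by positivity) (by positivity))
    (by
      intro m m'
      positivity)
  refine hpairs.trans ?_
  -- final comparison
  have hEle : 4 * L ^ 2 * E ≤ 96 * C * C1 * (c0 * (n : ℝ) ^ (1 / 4000 : ℝ) *
      (n : ℝ) ^ (1 / 200 : ℝ) * L ^ (77 / 20 : ℝ) * (a : ℝ) ^ (4 / 5 : ℝ)) := by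
    have h1 : ((2 * L) * (2 * L) * a) ^ (4 / 5 : ℝ) ≤ 4 * (L ^ (8 / 5 : ℝ) * (a : ℝ) ^ (4 / 5 : ℝ)) := by
      have e1 : (2 * L) * (2 * L) * a = 4 * (L ^ (2 : ℝ) * a) := by
        rw [Real.rpow_two]; ring
      rw [e1, Real.mul_rpow (by norm_num) (by positivity), Real.mul_rpow (by positivity) ha0.le,
        ← Real.rpow_mul hL0.le]
      have e2 : (2 : ℝ) * (4 / 5) = 8 / 5 := by norm_num
      rw [e2]
      apply mul_le_mul_of_nonneg_right _ (by positivity)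
      calc (4 : ℝ) ^ (4 / 5 : ℝ) ≤ (4 : ℝ) ^ (1 : ℝ) :=
            Real.rpow_le_rpow_of_exponent_le (by norm_num) (by norm_num)
        _ = 4 := Real.rpow_one 4
    have h2 : T ≤ C * c0 * (C1 * (2 * (n : ℝ) ^ (1 / 4000 : ℝ))) * (3 * (n : ℝ) ^ (1 / 200 : ℝ)) := by
      rw [hT]
      have hC0 : 0 ≤ C * c0 := by
        have : 0 ≤ C := by linarith
        positivity
      apply mul_le_mul (mul_le_mul_of_nonneg_left htau2n hC0) _ (by linarith) _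
      · rw [hV]; linarith
      · have : 0 ≤ C := by linarith
        positivity
    have h3 : L ^ 2 * (L ^ (8 / 5 : ℝ) * L ^ (1 / 4 : ℝ)) = L ^ (77 / 20 : ℝ) := by
      rw [← Real.rpow_two, ← Real.rpow_add hL0, ← Real.rpow_add hL0]
      norm_num
    have hC0 : 0 ≤ C := by linarith
    calc 4 * L ^ 2 * E = 4 * L ^ 2 * (T * ((2 * L) * (2 * L) * a) ^ (4 / 5 : ℝ) *
          L ^ (1 / 4 : ℝ)) := by rw [hE]
      _ ≤ 4 * L ^ 2 * ((C * c0 * (C1 * (2 * (n : ℝ) ^ (1 / 4000 : ℝ))) *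
          (3 * (n : ℝ) ^ (1 / 200 : ℝ))) * (4 * (L ^ (8 / 5 : ℝ) * (a : ℝ) ^ (4 / 5 : ℝ))) *
          L ^ (1 / 4 : ℝ)) := by
          apply mul_le_mul_of_nonneg_left _ (by positivity)
          apply mul_le_mul_of_nonneg_right _ (by positivity)
          exact mul_le_mul h2 h1 (by positivity) (by positivity)
      _ = 96 * C * C1 * (c0 * (n : ℝ) ^ (1 / 4000 : ℝ) * (n : ℝ) ^ (1 / 200 : ℝ) *
          (L ^ 2 * (L ^ (8 / 5 : ℝ) * L ^ (1 / 4 : ℝ))) * (a : ℝ) ^ (4 / 5 : ℝ)) := by ring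
      _ = _ := by rw [h3]
  have hBle2 : 6 * L * (B : ℝ) ≤ 12 * ((X : ℝ) / (c0 * a * M) * L) := by
    calc 6 * L * (B : ℝ) ≤ 6 * L * (2 * (X : ℝ) / (c0 * a * M)) :=
          mul_le_mul_of_nonneg_left hBle (by positivity)
      _ = _ := by ring
  have hKsq : K ^ 2 = 16 * C1 ^ 2 * M ^ 2 * (n : ℝ) ^ (1 / 2000 : ℝ) := by
    rw [hK]
    have : ((n : ℝ) ^ (1 / 4000 : ℝ)) ^ 2 = (n : ℝ) ^ (1 / 2000 : ℝ) := by
      rw [← Real.rpow_natCast, ← Real.rpow_mul hn0.le]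
      norm_num
    calc (4 * C1 * M * (n : ℝ) ^ (1 / 4000 : ℝ)) ^ 2 =
        16 * C1 ^ 2 * M ^ 2 * ((n : ℝ) ^ (1 / 4000 : ℝ)) ^ 2 := by ring
      _ = _ := by rw [this]
  have hn2000 : 0 ≤ (n : ℝ) ^ (1 / 2000 : ℝ) := by positivity
  have hA0 : 0 ≤ (X : ℝ) / (c0 * a * M) * L := by positivity
  have hD0 : 0 ≤ (c0 : ℝ) * (n : ℝ) ^ (1 / 200 : ℝ) * L ^ (77 / 20 : ℝ) * (a : ℝ) ^ (4 / 5 : ℝ) := by
    positivity
  have hx1 : (n : ℝ) ^ (1 / 2000 : ℝ) ≤ (n : ℝ) ^ (1 / 1000 : ℝ) :=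
    Real.rpow_le_rpow_of_exponent_le hnR (by norm_num)
  have hx2 : (n : ℝ) ^ (1 / 2000 : ℝ) * (n : ℝ) ^ (1 / 4000 : ℝ) ≤ (n : ℝ) ^ (1 / 1000 : ℝ) := by
    rw [← Real.rpow_add hn0]
    exact Real.rpow_le_rpow_of_exponent_le hnR (by norm_num)
  have hCC : 1 ≤ C * C1 := by nlinarith
  have hC0 : 0 ≤ C := by linarith
  have hC10 : 0 ≤ C1 := by linarith
  calc K ^ 2 * (6 * L * (B : ℝ) + 4 * L ^ 2 * E)
      ≤ K ^ 2 * (12 * ((X : ℝ) / (c0 * a * M) * L) + 96 * C * C1 *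
        (c0 * (n : ℝ) ^ (1 / 4000 : ℝ) * (n : ℝ) ^ (1 / 200 : ℝ) * L ^ (77 / 20 : ℝ) *
          (a : ℝ) ^ (4 / 5 : ℝ))) :=
        mul_le_mul_of_nonneg_left (add_le_add hBle2 hEle) (sq_nonneg K)
    _ = 16 * C1 ^ 2 * M ^ 2 * (12 * (n : ℝ) ^ (1 / 2000 : ℝ) * ((X : ℝ) / (c0 * a * M) * L) +
        96 * (C * C1) * ((n : ℝ) ^ (1 / 2000 : ℝ) * (n : ℝ) ^ (1 / 4000 : ℝ)) *
          (c0 * (n : ℝ) ^ (1 / 200 : ℝ) * L ^ (77 / 20 : ℝ) * (a : ℝ) ^ (4 / 5 : ℝ))) := by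
        rw [hKsq]; ring
    _ ≤ 16 * C1 ^ 2 * M ^ 2 * (96 * (C * C1) * (n : ℝ) ^ (1 / 1000 : ℝ) *
          ((X : ℝ) / (c0 * a * M) * L) +
        96 * (C * C1) * (n : ℝ) ^ (1 / 1000 : ℝ) *
          (c0 * (n : ℝ) ^ (1 / 200 : ℝ) * L ^ (77 / 20 : ℝ) * (a : ℝ) ^ (4 / 5 : ℝ))) := by
        apply mul_le_mul_of_nonneg_left _ (by positivity)
        apply add_le_add
        · apply mul_le_mul_of_nonneg_right _ hA0
          have h1 : 12 * (n : ℝ) ^ (1 / 2000 : ℝ) ≤ 12 * (n : ℝ) ^ (1 / 1000 : ℝ) := by linarith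
          have h2 : 12 * (n : ℝ) ^ (1 / 1000 : ℝ) ≤ 96 * (C * C1) * (n : ℝ) ^ (1 / 1000 : ℝ) := by
            apply mul_le_mul_of_nonneg_right _ (by positivity)
            linarith
          linarith
        · apply mul_le_mul_of_nonneg_right _ hD0
          exact mul_le_mul_of_nonneg_left hx2 (by positivity)
    _ = 1536 * C * C1 ^ 3 * (n : ℝ) ^ (1 / 1000 : ℝ) * M ^ 2 * (((X : ℝ) / (c0 * a * M)) * L +
        c0 * (n : ℝ) ^ (1 / 200 : ℝ) * L ^ (77 / 20 : ℝ) * (a : ℝ) ^ (4 / 5 : ℝ)) := by ring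

end RV11
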