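import Pool.Agent.LibRV11.N19a

open Complex Real

namespace RV11

private lemma N19b_Fs_ne {n X c0 : ℕ} {s : ℤ} {Γ : ZMod (2 * c0) → ℂ} {α β ε w : ℕ → ℂ}
    (hD : Dat n X c0 s Γ α β ε w) {a b m : ℕ} (h : Fs n c0 s Γ α β ε w a b m ≠ 0) :
    X ≤ c0 * a * b ∧ c0 * a * b < 2 * X := by
  apply hD.supp
  intro h0
  apply h
  unfold Fs
  rw [h0]
  ring

private lemma N19b_num (C M X c0 m2 x L : ℝ) (hC : 1 ≤ C) (hx : 1 ≤ x)
    (hM1 : x ^ (1 / 20 : ℝ) / 2 ≤ M) (hM2 : M ≤ x ^ (1 / 20 : ℝ)) (hM3 : 2 ≤ M)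
    (hX1 : x ^ (999 / 1000 : ℝ) ≤ X) (hc0 : 1 ≤ c0) (hc0' : c0 ≤ x ^ (1 / 400 : ℝ))
    (hm2 : 1 ≤ m2) (hm2' : m2 ^ 2 ≤ M) (hL0 : 0 ≤ L) (hL : L ≤ 1002 * x ^ (1 / 1000 : ℝ))
    (A : ℝ) (hA : A = Real.sqrt (2 * X / c0) * m2 / M) :
    (2 * X / (c0 * M) * L) * (C * x ^ (1 / 1000 : ℝ) * M ^ 2 * (X / (c0 * m2) * L +
      c0 * x ^ (1 / 200 : ℝ) * (M / m2) ^ (77 / 20 : ℝ) * (A * A ^ (4 / 5 : ℝ)))) ≤
    ((4 * C * 1002 ^ 2 + 4 * C * 1002) * (X * M / (c0 * m2) * x ^ (-(1 / 100) : ℝ))) ^ 2 := by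
  have hx0 : 0 < x := by linarith
  have hM0 : 0 < M := by linarith
  have hX0 : 0 < X := lt_of_lt_of_le (Real.rpow_pos_of_pos hx0 _) hX1
  have hc00 : 0 < c0 := by linarith
  have hm20 : 0 < m2 := by linarith
  have hC0 : 0 < C := by linarith
  set R : ℝ := X * M / (c0 * m2) with hR
  have hR0 : 0 < R := by positivity
  -- the first term
  have h1 : m2 / M ≤ 2 * x ^ (-(1 / 40) : ℝ) := by
    have e1 : (m2 / M) ^ 2 ≤ (2 * x ^ (-(1 / 40) : ℝ)) ^ 2 := by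
      have e2 : (m2 / M) ^ 2 ≤ 1 / M := by
        rw [div_pow, div_le_div_iff₀ (by positivity) hM0]
        nlinarith
      have e3 : 1 / M ≤ 2 * x ^ (-(1 / 20) : ℝ) := by
        rw [Real.rpow_neg hx0.le]
        rw [← div_eq_mul_inv]
        rw [div_le_div_iff₀ hM0 (Real.rpow_pos_of_pos hx0 _)]
        linarith
      have e4 : (2 * x ^ (-(1 / 40) : ℝ)) ^ 2 = 4 * x ^ (-(1 / 20) : ℝ) := by
        rw [mul_pow, ← Real.rpow_natCast (x ^ (-(1 / 40) : ℝ)) 2, ← Real.rpow_mul hx0.le]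
        norm_num
      rw [e4]
      have : 0 < x ^ (-(1 / 20) : ℝ) := Real.rpow_pos_of_pos hx0 _
      linarith
    have e5 : 0 ≤ 2 * x ^ (-(1 / 40) : ℝ) := by positivity
    exact le_of_sq_le_sq e1 e5
  have hmul : ∀ p q : ℝ, x ^ p * x ^ q = x ^ (p + q) := fun p q => (Real.rpow_add hx0 p q).symm
  have hLsq : L ^ 2 ≤ 1002 ^ 2 * x ^ (2 / 1000 : ℝ) := by
    have : L ^ 2 ≤ (1002 * x ^ (1 / 1000 : ℝ)) ^ 2 := pow_le_pow_left₀ hL0 hL 2
    refine this.trans (le_of_eq ?_)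
    rw [mul_pow, ← Real.rpow_natCast (x ^ (1 / 1000 : ℝ)) 2, ← Real.rpow_mul hx0.le]
    norm_num
  have T1 : (2 * X / (c0 * M) * L) * (C * x ^ (1 / 1000 : ℝ) * M ^ 2 * (X / (c0 * m2) * L)) ≤
      4 * C * 1002 ^ 2 * R ^ 2 * x ^ (-(2 / 100) : ℝ) := by
    have e1 : (2 * X / (c0 * M) * L) * (C * x ^ (1 / 1000 : ℝ) * M ^ 2 * (X / (c0 * m2) * L)) =
        2 * C * R ^ 2 * (x ^ (1 / 1000 : ℝ) * (L ^ 2 * (m2 / M))) := by
      rw [hR]
      field_simp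
    rw [e1]
    have e2 : L ^ 2 * (m2 / M) ≤ (1002 ^ 2 * x ^ (2 / 1000 : ℝ)) * (2 * x ^ (-(1 / 40) : ℝ)) := by
      apply mul_le_mul hLsq h1 (by positivity) (by positivity)
    have e3 : x ^ (1 / 1000 : ℝ) * (L ^ 2 * (m2 / M)) ≤ 2 * 1002 ^ 2 * x ^ (-(2 / 100) : ℝ) := by
      calc x ^ (1 / 1000 : ℝ) * (L ^ 2 * (m2 / M)) ≤
          x ^ (1 / 1000 : ℝ) * ((1002 ^ 2 * x ^ (2 / 1000 : ℝ)) * (2 * x ^ (-(1 / 40) : ℝ))) :=
            mul_le_mul_of_nonneg_left e2 (by positivity)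
        _ = 2 * 1002 ^ 2 * (x ^ (1 / 1000 : ℝ) * x ^ (2 / 1000 : ℝ) * x ^ (-(1 / 40) : ℝ)) := by
            ring
        _ = 2 * 1002 ^ 2 * x ^ (1 / 1000 + 2 / 1000 + -(1 / 40) : ℝ) := by
            rw [hmul, hmul]
        _ ≤ 2 * 1002 ^ 2 * x ^ (-(2 / 100) : ℝ) := by
            apply mul_le_mul_of_nonneg_left _ (by positivity)
            exact Real.rpow_le_rpow_of_exponent_le hx (by norm_num)
    calc 2 * C * R ^ 2 * (x ^ (1 / 1000 : ℝ) * (L ^ 2 * (m2 / M))) ≤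
        2 * C * R ^ 2 * (2 * 1002 ^ 2 * x ^ (-(2 / 100) : ℝ)) :=
          mul_le_mul_of_nonneg_left e3 (by positivity)
      _ = _ := by ring
  -- the second term
  have hu1 : 1 ≤ M / m2 := by
    rw [le_div_iff₀ hm20]
    nlinarith
  have T2 : (2 * X / (c0 * M) * L) * (C * x ^ (1 / 1000 : ℝ) * M ^ 2 *
      (c0 * x ^ (1 / 200 : ℝ) * (M / m2) ^ (77 / 20 : ℝ) * (A * A ^ (4 / 5 : ℝ)))) ≤
      4 * C * 1002 * R ^ 2 * x ^ (-(2 / 100) : ℝ) := by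
    have hY0 : 0 < 2 * X / c0 := by positivity
    have hA0 : 0 < A := by rw [hA]; positivity
    have eA : A * A ^ (4 / 5 : ℝ) = (2 * X / c0) ^ (9 / 10 : ℝ) * (M / m2) ^ (-(9 / 5) : ℝ) := by
      have : A * A ^ (4 / 5 : ℝ) = A ^ (9 / 5 : ℝ) := by
        nth_rewrite 1 [← Real.rpow_one A]
        rw [← Real.rpow_add hA0]
        norm_num
      rw [this]
      have hA' : A = (2 * X / c0) ^ (1 / 2 : ℝ) * (M / m2) ^ (-1 : ℝ) := by
        rw [hA, Real.sqrt_eq_rpow, Real.rpow_neg_one, mul_div_assoc, inv_div]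
      rw [hA', Real.mul_rpow (by positivity) (by positivity), ← Real.rpow_mul hY0.le,
        ← Real.rpow_mul (by positivity)]
      norm_num
    have eB : (M / m2) ^ (77 / 20 : ℝ) * ((2 * X / c0) ^ (9 / 10 : ℝ) *
        (M / m2) ^ (-(9 / 5) : ℝ)) = (2 * X / c0) ^ (9 / 10 : ℝ) *
        ((M / m2) ^ 2 * (M / m2) ^ (1 / 20 : ℝ)) := by
      have hu0 : 0 < M / m2 := by positivity
      have : (M / m2) ^ (77 / 20 : ℝ) * (M / m2) ^ (-(9 / 5) : ℝ) =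
          (M / m2) ^ 2 * (M / m2) ^ (1 / 20 : ℝ) := by
        rw [← Real.rpow_add hu0, ← Real.rpow_natCast (M / m2) 2, ← Real.rpow_add hu0]
        norm_num
      calc _ = (2 * X / c0) ^ (9 / 10 : ℝ) * ((M / m2) ^ (77 / 20 : ℝ) *
          (M / m2) ^ (-(9 / 5) : ℝ)) := by ring
        _ = _ := by rw [this]
    have hu20 : (M / m2) ^ (1 / 20 : ℝ) ≤ x ^ (1 / 400 : ℝ) := by
      have : M / m2 ≤ x ^ (1 / 20 : ℝ) := (div_le_self hM0.le hm2).trans hM2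
      calc (M / m2) ^ (1 / 20 : ℝ) ≤ (x ^ (1 / 20 : ℝ)) ^ (1 / 20 : ℝ) :=
            Real.rpow_le_rpow (by positivity) this (by norm_num)
        _ = x ^ (1 / 400 : ℝ) := by
            rw [← Real.rpow_mul hx0.le]; norm_num
    have hY : (2 * X / c0) ^ (9 / 10 : ℝ) ≤ (2 * X / c0) * x ^ (-(9965 / 100000) : ℝ) := by
      have h2 : x ^ (9965 / 10000 : ℝ) ≤ 2 * X / c0 := by
        rw [le_div_iff₀ hc00]
        calc x ^ (9965 / 10000 : ℝ) * c0 ≤ x ^ (9965 / 10000 : ℝ) * x ^ (1 / 400 : ℝ) :=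
              mul_le_mul_of_nonneg_left hc0' (by positivity)
          _ = x ^ (999 / 1000 : ℝ) := by rw [hmul]; norm_num
          _ ≤ X := hX1
          _ ≤ 2 * X := by linarith
      have h3 : (2 * X / c0) ^ (-(1 / 10) : ℝ) ≤ x ^ (-(9965 / 100000) : ℝ) := by
        have : x ^ (-(9965 / 100000) : ℝ) = (x ^ (9965 / 10000 : ℝ)) ^ (-(1 / 10) : ℝ) := by
          rw [← Real.rpow_mul hx0.le]; norm_num
        rw [this]
        apply Real.rpow_le_rpow_of_nonpos (Real.rpow_pos_of_pos hx0 _) h2 (by norm_num)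
      have h4 : (2 * X / c0) ^ (9 / 10 : ℝ) = (2 * X / c0) * (2 * X / c0) ^ (-(1 / 10) : ℝ) := by
        nth_rewrite 2 [← Real.rpow_one (2 * X / c0)]
        rw [← Real.rpow_add hY0]
        norm_num
      rw [h4]
      exact mul_le_mul_of_nonneg_left h3 hY0.le
    have e1 : (2 * X / (c0 * M) * L) * (C * x ^ (1 / 1000 : ℝ) * M ^ 2 *
        (c0 * x ^ (1 / 200 : ℝ) * (M / m2) ^ (77 / 20 : ℝ) * (A * A ^ (4 / 5 : ℝ)))) =
        2 * C * X * M * (x ^ (1 / 1000 : ℝ) * x ^ (1 / 200 : ℝ)) * (M / m2) ^ 2 *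
          (L * ((2 * X / c0) ^ (9 / 10 : ℝ) * (M / m2) ^ (1 / 20 : ℝ))) := by
      rw [eA]
      calc _ = (2 * X / (c0 * M) * L) * (C * x ^ (1 / 1000 : ℝ) * M ^ 2 *
          (c0 * x ^ (1 / 200 : ℝ) * ((M / m2) ^ (77 / 20 : ℝ) * ((2 * X / c0) ^ (9 / 10 : ℝ) *
        (M / m2) ^ (-(9 / 5) : ℝ))))) := by ring
        _ = _ := by
          rw [eB]
          field_simp
    rw [e1]
    have e2 : L * ((2 * X / c0) ^ (9 / 10 : ℝ) * (M / m2) ^ (1 / 20 : ℝ)) ≤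
        (1002 * x ^ (1 / 1000 : ℝ)) * (((2 * X / c0) * x ^ (-(9965 / 100000) : ℝ)) *
          x ^ (1 / 400 : ℝ)) := by
      apply mul_le_mul hL _ (by positivity) (by positivity)
      exact mul_le_mul hY hu20 (by positivity) (by positivity)
    have e3 : 2 * C * X * M * (x ^ (1 / 1000 : ℝ) * x ^ (1 / 200 : ℝ)) * (M / m2) ^ 2 *
        ((1002 * x ^ (1 / 1000 : ℝ)) * (((2 * X / c0) * x ^ (-(9965 / 100000) : ℝ)) *
          x ^ (1 / 400 : ℝ))) = 4 * C * 1002 * R ^ 2 * ((c0 * M) *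
          (x ^ (1 / 1000 : ℝ) * x ^ (1 / 200 : ℝ) * x ^ (1 / 1000 : ℝ) *
            x ^ (-(9965 / 100000) : ℝ) * x ^ (1 / 400 : ℝ))) := by
      rw [hR]
      field_simp
      ring
    have e4 : (c0 * M) * (x ^ (1 / 1000 : ℝ) * x ^ (1 / 200 : ℝ) * x ^ (1 / 1000 : ℝ) *
            x ^ (-(9965 / 100000) : ℝ) * x ^ (1 / 400 : ℝ)) ≤ x ^ (-(2 / 100) : ℝ) := by
      calc (c0 * M) * (x ^ (1 / 1000 : ℝ) * x ^ (1 / 200 : ℝ) * x ^ (1 / 1000 : ℝ) *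
            x ^ (-(9965 / 100000) : ℝ) * x ^ (1 / 400 : ℝ)) ≤
            (x ^ (1 / 400 : ℝ) * x ^ (1 / 20 : ℝ)) *
            (x ^ (1 / 1000 : ℝ) * x ^ (1 / 200 : ℝ) * x ^ (1 / 1000 : ℝ) *
            x ^ (-(9965 / 100000) : ℝ) * x ^ (1 / 400 : ℝ)) := by
              apply mul_le_mul_of_nonneg_right _ (by positivity)
              exact mul_le_mul hc0' hM2 hM0.le (by positivity)
        _ = x ^ (1 / 400 + 1 / 20 + (1 / 1000 + 1 / 200 + 1 / 1000 +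
              -(9965 / 100000) + 1 / 400) : ℝ) := by
            simp only [hmul]
        _ ≤ x ^ (-(2 / 100) : ℝ) :=
            Real.rpow_le_rpow_of_exponent_le hx (by norm_num)
    calc _ ≤ 2 * C * X * M * (x ^ (1 / 1000 : ℝ) * x ^ (1 / 200 : ℝ)) * (M / m2) ^ 2 *
        ((1002 * x ^ (1 / 1000 : ℝ)) * (((2 * X / c0) * x ^ (-(9965 / 100000) : ℝ)) *
          x ^ (1 / 400 : ℝ))) := mul_le_mul_of_nonneg_left e2 (by positivity)
      _ = _ := e3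
      _ ≤ 4 * C * 1002 * R ^ 2 * x ^ (-(2 / 100) : ℝ) :=
          mul_le_mul_of_nonneg_left e4 (by positivity)
  have hfin : (x ^ (-(1 / 100) : ℝ)) ^ 2 = x ^ (-(2 / 100) : ℝ) := by
    rw [← Real.rpow_natCast (x ^ (-(1 / 100) : ℝ)) 2, ← Real.rpow_mul hx0.le]
    norm_num
  have hK : (4 * C * 1002 ^ 2 + 4 * C * 1002) ≤ (4 * C * 1002 ^ 2 + 4 * C * 1002) ^ 2 := by
    nlinarith
  calc _ = (2 * X / (c0 * M) * L) * (C * x ^ (1 / 1000 : ℝ) * M ^ 2 * (X / (c0 * m2) * L)) +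
      (2 * X / (c0 * M) * L) * (C * x ^ (1 / 1000 : ℝ) * M ^ 2 *
      (c0 * x ^ (1 / 200 : ℝ) * (M / m2) ^ (77 / 20 : ℝ) * (A * A ^ (4 / 5 : ℝ)))) := by ring
    _ ≤ 4 * C * 1002 ^ 2 * R ^ 2 * x ^ (-(2 / 100) : ℝ) +
        4 * C * 1002 * R ^ 2 * x ^ (-(2 / 100) : ℝ) := add_le_add T1 T2
    _ = (4 * C * 1002 ^ 2 + 4 * C * 1002) * (R ^ 2 * x ^ (-(2 / 100) : ℝ)) := by ring
    _ ≤ (4 * C * 1002 ^ 2 + 4 * C * 1002) ^ 2 * (R ^ 2 * x ^ (-(2 / 100) : ℝ)) :=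
        mul_le_mul_of_nonneg_right hK (by positivity)
    _ = _ := by rw [mul_pow, mul_pow, hfin]

private lemma N19b_cs {ι : Type*} (s : Finset ι) (f : ι → ℂ) :
    ‖∑ i ∈ s, f i‖ ^ 2 ≤ s.card * ∑ i ∈ s, ‖f i‖ ^ 2 := by
  have h1 : ‖∑ i ∈ s, f i‖ ≤ ∑ i ∈ s, ‖f i‖ := norm_sum_le _ _
  have h2 : (∑ i ∈ s, ‖f i‖) ^ 2 ≤ s.card * ∑ i ∈ s, ‖f i‖ ^ 2 := sq_sum_le_card_mul_sum_sq
  exact (pow_le_pow_left₀ (norm_nonneg _) h1 2).trans h2

/-- range (iii), fixed `m2` -/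
theorem range3_fixed : ∃ (C : ℝ) (n0 : ℕ), 1 ≤ C ∧ ∀ (n X c0 : ℕ) (s : ℤ)
    (Γ : ZMod (2 * c0) → ℂ) (α β ε w : ℕ → ℂ), n0 ≤ n → Dat n X c0 s Γ α β ε w →
    ∀ m2 : ℕ, 1 ≤ m2 → m2 ^ 2 < Mn n → Nat.Coprime m2 (2 * n) →
    ‖∑ a ∈ (Finset.Icc 1 (2 * X)).filter (fun a => Nat.Coprime a (2 * n * m2)),
      ∑ b ∈ (Finset.Icc 1 (2 * X)).filter (fun b => Nat.Coprime b (2 * n * a)),
        ∑ m ∈ (Finset.Icc 1 (2 * Mn n)).filter (fun m => Nat.Coprime m (2 * n * m2 * b) ∧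
          Mn n ≤ m * m2 ∧ m * m2 < 2 * Mn n ∧ m * a < m2 * b ∧
            (¬ (((m * a : ℕ) : ℝ) ≤ (n : ℝ) ^ (1 / 100 : ℝ)) ∧ m2 ^ 2 < Mn n)),
          Fs n c0 s Γ α β ε w (m * a) (m2 * b) (m * m2)‖ ≤
    C * X * Mn n / (c0 * m2) * (n : ℝ) ^ (-(1 / 100) : ℝ) := by
  obtain ⟨C, n0, hC, H⟩ := blk3
  obtain ⟨n1, HM⟩ := Mn_bounds
  refine ⟨4 * C * 1002 ^ 2 + 4 * C * 1002, max (max n0 n1) 1, by nlinarith, ?_⟩
  intro n X c0 s Γ α β ε w hn hD m2 hm2 hm2M hcop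
  have hn0 : n0 ≤ n := le_trans (le_trans (le_max_left _ _) (le_max_left _ _)) hn
  have hn1 : n1 ≤ n := le_trans (le_trans (le_max_right _ _) (le_max_left _ _)) hn
  have hn' : 1 ≤ n := le_trans (le_max_right _ _) hn
  obtain ⟨hM1, hM2, hM3⟩ := HM n hn1
  have hx : (1 : ℝ) ≤ n := by exact_mod_cast hn'
  have hx0 : (0 : ℝ) < n := by linarith
  have hc0 : 1 ≤ c0 := Nat.one_le_iff_ne_zero.mpr hD.sm.1
  have hXpos : (0 : ℝ) < X := lt_of_lt_of_le (Real.rpow_pos_of_pos hx0 _) hD.X1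
  have hXpos' : 1 ≤ X := by
    have : 0 < X := by exact_mod_cast hXpos
    omega
  -- abbreviations
  set M : ℕ := Mn n with hMdef
  set T : ℕ → ℕ → ℂ := fun a b =>
    ∑ m ∈ (Finset.Icc 1 (2 * M)).filter (fun m => Nat.Coprime m (2 * n * m2 * b) ∧
          M ≤ m * m2 ∧ m * m2 < 2 * M ∧ m * a < m2 * b ∧
            (¬ (((m * a : ℕ) : ℝ) ≤ (n : ℝ) ^ (1 / 100 : ℝ)) ∧ m2 ^ 2 < M)),
          Fs n c0 s Γ α β ε w (m * a) (m2 * b) (m * m2) with hT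
  set A : ℝ := Real.sqrt (2 * X / c0) * m2 / M with hA
  have hMr : (2 : ℝ) ≤ M := by exact_mod_cast hM3
  have hM0 : (0 : ℝ) < M := by linarith
  have hc0r : (1 : ℝ) ≤ c0 := by exact_mod_cast hc0
  have hc00 : (0 : ℝ) < c0 := by linarith
  have hm2r : (1 : ℝ) ≤ m2 := by exact_mod_cast hm2
  have hm20 : (0 : ℝ) < m2 := by linarith
  have hA0 : 0 < A := by rw [hA]; positivity
  -- non vanishing
  have key : ∀ a b : ℕ, 1 ≤ a → T a b ≠ 0 → c0 * a * M * b ≤ 2 * X ∧ (a : ℝ) ≤ A := by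
    intro a b ha hne
    obtain ⟨m, hm, hFm⟩ := Finset.exists_ne_zero_of_sum_ne_zero hne
    rw [Finset.mem_filter, Finset.mem_Icc] at hm
    obtain ⟨⟨hm1, -⟩, -, hmM, -, hmab, -, -⟩ := hm
    obtain ⟨-, hlt⟩ := N19b_Fs_ne hD hFm
    constructor
    · have h1 : c0 * a * M * b ≤ c0 * a * (m * m2) * b := by gcongr
      have h2 : c0 * a * (m * m2) * b = c0 * (m * a) * (m2 * b) := by ring
      omega
    · have h1 : c0 * ((m * a) * (m * a)) < 2 * X := by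
        have h3 : (m * a) * (m * a) ≤ (m * a) * (m2 * b) := Nat.mul_le_mul_left _ hmab.le
        have h4 : c0 * ((m * a) * (m * a)) ≤ c0 * ((m * a) * (m2 * b)) :=
          Nat.mul_le_mul_left _ h3
        have h5 : c0 * ((m * a) * (m2 * b)) = c0 * (m * a) * (m2 * b) := by ring
        omega
      have h2 : (c0 : ℝ) * (((m : ℝ) * a) * ((m : ℝ) * a)) < 2 * X := by exact_mod_cast h1
      have h3 : ((m : ℝ) * a) ^ 2 ≤ 2 * X / c0 := by
        rw [le_div_iff₀ hc00]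
        nlinarith
      have h4 : (m : ℝ) * a ≤ Real.sqrt (2 * X / c0) := Real.le_sqrt_of_sq_le h3
      rw [hA, le_div_iff₀ hM0]
      have h5 : (M : ℝ) ≤ m * m2 := by exact_mod_cast hmM
      calc (a : ℝ) * M ≤ a * (m * m2) := mul_le_mul_of_nonneg_left h5 (by positivity)
        _ = ((m : ℝ) * a) * m2 := by ring
        _ ≤ Real.sqrt (2 * X / c0) * m2 := mul_le_mul_of_nonneg_right h4 hm20.le
  -- sets
  set SA : Finset ℕ := (Finset.Icc 1 (2 * X)).filter (fun a => Nat.Coprime a (2 * n * m2)) with hSA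
  set SA' : Finset ℕ := SA.filter (fun a => (a : ℝ) ≤ A) with hSA'
  set SB : ℕ → Finset ℕ := fun a =>
    (Finset.Icc 1 (2 * X)).filter (fun b => Nat.Coprime b (2 * n * a)) with hSB
  set SB' : ℕ → Finset ℕ := fun a => (SB a).filter (fun b => c0 * a * M * b ≤ 2 * X) with hSB'
  have hSApos : ∀ a ∈ SA, 1 ≤ a := by
    intro a ha
    rw [hSA, Finset.mem_filter, Finset.mem_Icc] at ha
    exact ha.1.1
  have hS1 : ∑ a ∈ SA, ∑ b ∈ SB a, T a b = ∑ a ∈ SA', ∑ b ∈ SB' a, T a b := by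
    have e1 : ∀ a ∈ SA, ∑ b ∈ SB a, T a b = ∑ b ∈ SB' a, T a b := by
      intro a ha
      symm
      apply Finset.sum_subset (Finset.filter_subset _ _)
      intro b hb hnb
      by_contra hne
      apply hnb
      exact Finset.mem_filter.mpr ⟨hb, (key a b (hSApos a ha) hne).1⟩
    rw [Finset.sum_congr rfl e1]
    symm
    apply Finset.sum_subset (Finset.filter_subset _ _)
    intro a ha hna
    apply Finset.sum_eq_zero
    intro b hb
    by_contra hne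
    apply hna
    exact Finset.mem_filter.mpr ⟨ha, (key a b (hSApos a ha) hne).2⟩
  have hS2 : ∑ a ∈ SA', ∑ b ∈ SB' a, T a b = ∑ p ∈ SA'.sigma SB', T p.1 p.2 :=
    (Finset.sum_sigma SA' SB' (fun p => T p.1 p.2)).symm
  -- L
  set L : ℝ := 1 + Real.log ((2 * X : ℕ) : ℝ) with hL
  have hLsum : ∑ a ∈ SA', (1 : ℝ) / a ≤ L := by
    refine le_trans ?_ (sum_a_log (2 * X) (by omega))
    apply Finset.sum_le_sum_of_subset_of_nonneg
    · intro a ha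
      rw [hSA', Finset.mem_filter, hSA, Finset.mem_filter] at ha
      exact ha.1.1
    · intros
      positivity
  have hL0 : 0 ≤ L := by
    have : 0 ≤ Real.log ((2 * X : ℕ) : ℝ) := Real.log_natCast_nonneg _
    rw [hL]; linarith
  have hLle : L ≤ 1002 * (n : ℝ) ^ (1 / 1000 : ℝ) := by
    have h1 : Real.log ((2 * X : ℕ) : ℝ) ≤ Real.log 2 + Real.log n := by
      rw [← Real.log_mul (by norm_num) (by positivity)]
      apply Real.log_le_log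
      · push_cast; positivity
      · push_cast
        have : (X : ℝ) ≤ n := by exact_mod_cast hD.X2
        linarith
    have h2 : Real.log n ≤ (n : ℝ) ^ (1 / 1000 : ℝ) / (1 / 1000) :=
      Real.log_le_rpow_div hx0.le (by norm_num)
    have h3 : Real.log 2 ≤ 1 := by
      have := Real.log_two_lt_d9
      linarith
    have h4 : 1 ≤ (n : ℝ) ^ (1 / 1000 : ℝ) := Real.one_le_rpow hx (by norm_num)
    rw [hL]
    have h5 : (n : ℝ) ^ (1 / 1000 : ℝ) / (1 / 1000) = 1000 * (n : ℝ) ^ (1 / 1000 : ℝ) := by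
      field_simp
    rw [h5] at h2
    linarith
  -- the card
  have hcard : ((SA'.sigma SB').card : ℝ) ≤ 2 * X / (c0 * M) * L := by
    rw [Finset.card_sigma]
    push_cast
    have e1 : ∀ a ∈ SA', ((SB' a).card : ℝ) ≤ 2 * X / (c0 * M) * (1 / a) := by
      intro a ha
      have ha1 : 1 ≤ a := hSApos a (Finset.mem_filter.mp ha).1
      have ha0 : (0 : ℝ) < a := by exact_mod_cast ha1
      have e2 : SB' a ⊆ Finset.Icc 1 ((2 * X) / (c0 * a * M)) := by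
        intro b hb
        rw [hSB', Finset.mem_filter, hSB, Finset.mem_filter, Finset.mem_Icc] at hb
        rw [Finset.mem_Icc]
        refine ⟨hb.1.1.1, ?_⟩
        rw [Nat.le_div_iff_mul_le]
        · calc b * (c0 * a * M) = c0 * a * M * b := by ring
            _ ≤ 2 * X := hb.2
        · have : 0 < M := by omega
          positivity
      have e3 : (SB' a).card ≤ (2 * X) / (c0 * a * M) := by
        have := Finset.card_le_card e2
        simpa using this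
      calc ((SB' a).card : ℝ) ≤ (((2 * X) / (c0 * a * M) : ℕ) : ℝ) := by exact_mod_cast e3
        _ ≤ ((2 * X : ℕ) : ℝ) / ((c0 * a * M : ℕ) : ℝ) := Nat.cast_div_le
        _ = 2 * X / (c0 * M) * (1 / a) := by
            push_cast
            field_simp
    calc ∑ a ∈ SA', ((SB' a).card : ℝ) ≤ ∑ a ∈ SA', 2 * X / (c0 * M) * (1 / (a : ℝ)) :=
          Finset.sum_le_sum e1
      _ = 2 * X / (c0 * M) * ∑ a ∈ SA', (1 / (a : ℝ)) := by rw [Finset.mul_sum]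
      _ ≤ 2 * X / (c0 * M) * L := mul_le_mul_of_nonneg_left hLsum (by positivity)
  -- the mean square
  have hms : ∑ p ∈ SA'.sigma SB', ‖T p.1 p.2‖ ^ 2 ≤
      C * (n : ℝ) ^ (1 / 1000 : ℝ) * (M : ℝ) ^ 2 * (X / (c0 * m2) * L +
      c0 * (n : ℝ) ^ (1 / 200 : ℝ) * ((M : ℝ) / m2) ^ (77 / 20 : ℝ) *
        (A * A ^ (4 / 5 : ℝ))) := by
    rw [Finset.sum_sigma SA' SB' (fun p => ‖T p.1 p.2‖ ^ 2)]
    have e1 : ∀ a ∈ SA', ∑ b ∈ SB' a, ‖T a b‖ ^ 2 ≤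
        C * (n : ℝ) ^ (1 / 1000 : ℝ) * (M : ℝ) ^ 2 * (X / (c0 * m2) * (1 / a) +
        c0 * (n : ℝ) ^ (1 / 200 : ℝ) * ((M : ℝ) / m2) ^ (77 / 20 : ℝ) *
          (A ^ (4 / 5 : ℝ))) := by
      intro a ha
      have ha1 : 1 ≤ a := hSApos a (Finset.mem_filter.mp ha).1
      have ha0 : (0 : ℝ) < a := by exact_mod_cast ha1
      have haA : (a : ℝ) ≤ A := (Finset.mem_filter.mp ha).2
      have haC : Nat.Coprime a (2 * n * m2) :=
        (Finset.mem_filter.mp (Finset.mem_filter.mp ha).1).2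
      have h1 := H n X c0 s Γ α β ε w hn0 hD m2 a hm2 hm2M hcop ha1 haC
      have h2 : ∑ b ∈ SB' a, ‖T a b‖ ^ 2 ≤ ∑ b ∈ SB a, ‖T a b‖ ^ 2 := by
        apply Finset.sum_le_sum_of_subset_of_nonneg (Finset.filter_subset _ _)
        intros
        positivity
      refine h2.trans (h1.trans ?_)
      apply mul_le_mul_of_nonneg_left _ (by positivity)
      apply add_le_add
      · apply le_of_eq
        have hMM : ((Mn n : ℕ) : ℝ) ≠ 0 := by
          rw [← hMdef]; exact hM0.ne'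
        field_simp
      · apply mul_le_mul_of_nonneg_left _ (by positivity)
        exact Real.rpow_le_rpow ha0.le haA (by norm_num)
    refine (Finset.sum_le_sum e1).trans ?_
    rw [← Finset.mul_sum]
    apply mul_le_mul_of_nonneg_left _ (by positivity)
    rw [Finset.sum_add_distrib, ← Finset.mul_sum, Finset.sum_const, nsmul_eq_mul]
    apply add_le_add
    · exact mul_le_mul_of_nonneg_left hLsum (by positivity)
    · have e2 : (SA'.card : ℝ) ≤ A := by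
        have : SA' ⊆ Finset.Icc 1 ⌊A⌋₊ := by
          intro a ha
          rw [Finset.mem_Icc]
          exact ⟨hSApos a (Finset.mem_filter.mp ha).1,
            Nat.le_floor (Finset.mem_filter.mp ha).2⟩
        have h3 := Finset.card_le_card this
        have h4 : SA'.card ≤ ⌊A⌋₊ := by simpa using h3
        calc (SA'.card : ℝ) ≤ (⌊A⌋₊ : ℝ) := by exact_mod_cast h4
          _ ≤ A := Nat.floor_le hA0.le
      calc (SA'.card : ℝ) * (c0 * (n : ℝ) ^ (1 / 200 : ℝ) * ((M : ℝ) / m2) ^ (77 / 20 : ℝ) *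
          (A ^ (4 / 5 : ℝ))) ≤ A * (c0 * (n : ℝ) ^ (1 / 200 : ℝ) *
          ((M : ℝ) / m2) ^ (77 / 20 : ℝ) * (A ^ (4 / 5 : ℝ))) :=
            mul_le_mul_of_nonneg_right e2 (by positivity)
        _ = _ := by ring
  have hfin : ‖∑ a ∈ SA, ∑ b ∈ SB a, T a b‖ ^ 2 ≤
      ((4 * C * 1002 ^ 2 + 4 * C * 1002) * ((X : ℝ) * M / (c0 * m2) *
        (n : ℝ) ^ (-(1 / 100) : ℝ))) ^ 2 := by
    rw [hS1, hS2]
    refine (N19b_cs _ _).trans ?_
    refine (mul_le_mul hcard hms (Finset.sum_nonneg (fun _ _ => by positivity))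
      (by positivity)).trans ?_
    apply N19b_num C M X c0 m2 n L hC hx hM1 hM2 hMr hD.X1 hc0r hD.c0le hm2r _ hL0 hLle A hA
    exact_mod_cast hm2M.le
  have hres := le_of_sq_le_sq hfin (by positivity)
  refine hres.trans (le_of_eq ?_)
  ring

end RV11
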