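import Pool.Agent.LibRV11.N19b

open Complex Real

namespace RV11

/-- range (iii) -/
theorem range_iii : ∃ (C : ℝ) (n0 : ℕ), 1 ≤ C ∧ ∀ (n X c0 : ℕ) (s : ℤ)
    (Γ : ZMod (2 * c0) → ℂ) (α β ε w : ℕ → ℂ), n0 ≤ n → Dat n X c0 s Γ α β ε w →
    ‖∑ m2 ∈ (Finset.Icc 1 (2 * Mn n)).filter (fun m2 => Nat.Coprime m2 (2 * n)),
      ∑ a ∈ (Finset.Icc 1 (2 * X)).filter (fun a => Nat.Coprime a (2 * n * m2)),
      ∑ b ∈ (Finset.Icc 1 (2 * X)).filter (fun b => Nat.Coprime b (2 * n * a)),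
        ∑ m ∈ (Finset.Icc 1 (2 * Mn n)).filter (fun m => Nat.Coprime m (2 * n * m2 * b) ∧
          Mn n ≤ m * m2 ∧ m * m2 < 2 * Mn n ∧ m * a < m2 * b ∧
            (¬ (((m * a : ℕ) : ℝ) ≤ (n : ℝ) ^ (1 / 100 : ℝ)) ∧ m2 ^ 2 < Mn n)),
          Fs n c0 s Γ α β ε w (m * a) (m2 * b) (m * m2)‖ ≤
    C * X * Mn n / c0 * (n : ℝ) ^ (-(1 / 300) : ℝ) := by
  obtain ⟨C, n0, hC, h⟩ := range3_fixed
  refine ⟨152 * C, max n0 1, by linarith, ?_⟩
  intro n X c0 s Γ α β ε w hn hD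
  have hn0 : n0 ≤ n := le_trans (le_max_left _ _) hn
  have hn1 : 1 ≤ n := le_trans (le_max_right _ _) hn
  have hnr : (1 : ℝ) ≤ n := by exact_mod_cast hn1
  have hnp : (0 : ℝ) < n := by linarith
  have hM1 : 1 ≤ Mn n := by
    rw [Mn]
    apply Nat.le_floor
    rw [Nat.cast_one]
    exact Real.one_le_rpow hnr (by norm_num)
  have hM2 : (Mn n : ℝ) ≤ n := by
    calc (Mn n : ℝ) ≤ (n : ℝ) ^ (1 / 20 : ℝ) := Nat.floor_le (by positivity)
      _ ≤ (n : ℝ) ^ (1 : ℝ) := Real.rpow_le_rpow_of_exponent_le hnr (by norm_num)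
      _ = n := Real.rpow_one _
  have hK : 0 ≤ C * X * Mn n / c0 * (n : ℝ) ^ (-(1 / 100) : ℝ) := by positivity
  have hharm : ∑ m2 ∈ Finset.Icc 1 (2 * Mn n), (1 / (m2 : ℝ)) ≤
      152 * (n : ℝ) ^ (1 / 150 : ℝ) := by
    have h1 : ∑ m2 ∈ Finset.Icc 1 (2 * Mn n), (1 / (m2 : ℝ)) =
        ((harmonic (2 * Mn n) : ℚ) : ℝ) := by
      rw [harmonic_eq_sum_Icc]
      push_cast
      apply Finset.sum_congr rfl
      intro i _
      rw [one_div]
    have h2 : ((harmonic (2 * Mn n) : ℚ) : ℝ) ≤ 1 + Real.log ((2 * Mn n : ℕ) : ℝ) :=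
      harmonic_le_one_add_log _
    have h3 : Real.log ((2 * Mn n : ℕ) : ℝ) ≤ 1 + Real.log n := by
      have h4 : ((2 * Mn n : ℕ) : ℝ) ≤ Real.exp 1 * n := by
        push_cast
        have h5 : (2 : ℝ) ≤ Real.exp 1 := by
          have := Real.add_one_le_exp (1 : ℝ)
          linarith
        have h6 : (0 : ℝ) ≤ (Mn n : ℝ) := by positivity
        calc (2 : ℝ) * (Mn n : ℝ) ≤ Real.exp 1 * (Mn n : ℝ) :=
              mul_le_mul_of_nonneg_right h5 h6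
          _ ≤ Real.exp 1 * n := mul_le_mul_of_nonneg_left hM2 (Real.exp_pos 1).le
      have h7 : (0 : ℝ) < ((2 * Mn n : ℕ) : ℝ) := by
        have : 0 < 2 * Mn n := by omega
        exact_mod_cast this
      calc Real.log ((2 * Mn n : ℕ) : ℝ) ≤ Real.log (Real.exp 1 * n) :=
            Real.log_le_log h7 h4
        _ = 1 + Real.log n := by
            rw [Real.log_mul (Real.exp_pos 1).ne' hnp.ne', Real.log_exp]
    have h4 : Real.log n ≤ (n : ℝ) ^ (1 / 150 : ℝ) / (1 / 150 : ℝ) :=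
      Real.log_le_rpow_div hnp.le (by norm_num)
    have h5 : (1 : ℝ) ≤ (n : ℝ) ^ (1 / 150 : ℝ) := Real.one_le_rpow hnr (by norm_num)
    rw [h1]
    have h6 : (n : ℝ) ^ (1 / 150 : ℝ) / (1 / 150 : ℝ) = 150 * (n : ℝ) ^ (1 / 150 : ℝ) := by
      rw [div_div_eq_mul_div, div_one, mul_comm]
    rw [h6] at h4
    linarith
  have hexp : (n : ℝ) ^ (-(1 / 100) : ℝ) * (n : ℝ) ^ (1 / 150 : ℝ) =
      (n : ℝ) ^ (-(1 / 300) : ℝ) := by
    rw [← Real.rpow_add hnp]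
    norm_num
  calc _ ≤ ∑ m2 ∈ (Finset.Icc 1 (2 * Mn n)).filter (fun m2 => Nat.Coprime m2 (2 * n)),
        ‖∑ a ∈ (Finset.Icc 1 (2 * X)).filter (fun a => Nat.Coprime a (2 * n * m2)),
        ∑ b ∈ (Finset.Icc 1 (2 * X)).filter (fun b => Nat.Coprime b (2 * n * a)),
        ∑ m ∈ (Finset.Icc 1 (2 * Mn n)).filter (fun m => Nat.Coprime m (2 * n * m2 * b) ∧
          Mn n ≤ m * m2 ∧ m * m2 < 2 * Mn n ∧ m * a < m2 * b ∧
            (¬ (((m * a : ℕ) : ℝ) ≤ (n : ℝ) ^ (1 / 100 : ℝ)) ∧ m2 ^ 2 < Mn n)),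
          Fs n c0 s Γ α β ε w (m * a) (m2 * b) (m * m2)‖ := norm_sum_le _ _
    _ ≤ ∑ m2 ∈ (Finset.Icc 1 (2 * Mn n)).filter (fun m2 => Nat.Coprime m2 (2 * n)),
        C * X * Mn n / c0 * (n : ℝ) ^ (-(1 / 100) : ℝ) * (1 / (m2 : ℝ)) := by
        apply Finset.sum_le_sum
        intro m2 hm2
        rw [Finset.mem_filter, Finset.mem_Icc] at hm2
        by_cases hlt : m2 ^ 2 < Mn n
        · refine le_trans (h n X c0 s Γ α β ε w hn0 hD m2 hm2.1.1 hlt hm2.2) (le_of_eq ?_)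
          have h8 : (m2 : ℝ) ≠ 0 := by
            have : m2 ≠ 0 := by omega
            exact_mod_cast this
          have h9 : (c0 : ℝ) ≠ 0 := by exact_mod_cast hD.sm.1
          field_simp
        · have hz : ∑ a ∈ (Finset.Icc 1 (2 * X)).filter (fun a => Nat.Coprime a (2 * n * m2)),
              ∑ b ∈ (Finset.Icc 1 (2 * X)).filter (fun b => Nat.Coprime b (2 * n * a)),
              ∑ m ∈ (Finset.Icc 1 (2 * Mn n)).filter (fun m => Nat.Coprime m (2 * n * m2 * b) ∧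
                Mn n ≤ m * m2 ∧ m * m2 < 2 * Mn n ∧ m * a < m2 * b ∧
                (¬ (((m * a : ℕ) : ℝ) ≤ (n : ℝ) ^ (1 / 100 : ℝ)) ∧ m2 ^ 2 < Mn n)),
                Fs n c0 s Γ α β ε w (m * a) (m2 * b) (m * m2) = 0 := by
            apply Finset.sum_eq_zero
            intro a _
            apply Finset.sum_eq_zero
            intro b _
            apply Finset.sum_eq_zero
            intro m hm
            rw [Finset.mem_filter] at hm
            exact absurd hm.2.2.2.2.2.2 hlt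
          rw [hz, norm_zero]
          positivity
    _ ≤ ∑ m2 ∈ Finset.Icc 1 (2 * Mn n),
        C * X * Mn n / c0 * (n : ℝ) ^ (-(1 / 100) : ℝ) * (1 / (m2 : ℝ)) := by
        apply Finset.sum_le_sum_of_subset_of_nonneg (Finset.filter_subset _ _)
        intro i _ _
        positivity
    _ = C * X * Mn n / c0 * (n : ℝ) ^ (-(1 / 100) : ℝ) *
        ∑ m2 ∈ Finset.Icc 1 (2 * Mn n), (1 / (m2 : ℝ)) := by rw [Finset.mul_sum]
    _ ≤ C * X * Mn n / c0 * (n : ℝ) ^ (-(1 / 100) : ℝ) * (152 * (n : ℝ) ^ (1 / 150 : ℝ)) :=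
        mul_le_mul_of_nonneg_left hharm hK
    _ = 152 * C * X * Mn n / c0 * (n : ℝ) ^ (-(1 / 300) : ℝ) := by
        rw [← hexp]
        ring

end RV11
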