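import Pool.Agent.LibRV11.N00

open Complex Real

namespace RV11

/-- the case of fixed `a` -/
private lemma n20a_fixed (n N M a : ℕ) (P : ℕ → ℕ → Prop) [∀ a m, Decidable (P a m)]
    (F : ℕ → ℕ → ℕ → ℂ) (ha : 1 ≤ a) (han : Nat.Coprime a (2 * n)) :
      ∑ b ∈ (Finset.Icc 1 N).filter (fun b => a < b ∧ Nat.Coprime a b ∧
          Nat.Coprime (a * b) (2 * n)),
        ∑ m ∈ (Finset.Ico M (2 * M)).filter (fun m => Nat.Coprime m (2 * n) ∧ m ∣ a * b ∧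
          P a (Nat.gcd m b)), F a b m =
    ∑ m1 ∈ a.divisors,
      ∑ m2 ∈ (Finset.Icc 1 (2 * M)).filter (fun m2 => Nat.Coprime m2 (2 * n * a) ∧
          M ≤ m1 * m2 ∧ m1 * m2 < 2 * M ∧ P a m2),
        ∑ b ∈ (Finset.Icc 1 N).filter (fun b => Nat.Coprime b (2 * n * a) ∧ a < m2 * b ∧
          m2 * b ≤ N), F a (m2 * b) (m1 * m2) := by
  have hR : ∀ m1 : ℕ, ∑ m2 ∈ (Finset.Icc 1 (2 * M)).filter (fun m2 => Nat.Coprime m2 (2 * n * a) ∧
          M ≤ m1 * m2 ∧ m1 * m2 < 2 * M ∧ P a m2),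
        ∑ b ∈ (Finset.Icc 1 N).filter (fun b => Nat.Coprime b (2 * n * a) ∧ a < m2 * b ∧
          m2 * b ≤ N), F a (m2 * b) (m1 * m2) =
      ∑ y ∈ ((Finset.Icc 1 (2 * M)).filter (fun m2 => Nat.Coprime m2 (2 * n * a) ∧
          M ≤ m1 * m2 ∧ m1 * m2 < 2 * M ∧ P a m2)).sigma (fun m2 =>
            (Finset.Icc 1 N).filter (fun b => Nat.Coprime b (2 * n * a) ∧ a < m2 * b ∧
          m2 * b ≤ N)), F a (y.1 * y.2) (m1 * y.1) := by
    intro m1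
    rw [Finset.sum_sigma']
  rw [Finset.sum_congr rfl (fun m1 _ => hR m1), Finset.sum_sigma', Finset.sum_sigma']
  refine Finset.sum_bij' (fun x _ => ⟨Nat.gcd x.2 a, ⟨Nat.gcd x.2 x.1, x.1 / Nat.gcd x.2 x.1⟩⟩)
    (fun y _ => ⟨y.2.1 * y.2.2, y.1 * y.2.1⟩) ?_ ?_ ?_ ?_ ?_
  · rintro ⟨b, m⟩ hx
    simp only [Finset.mem_sigma, Finset.mem_filter, Finset.mem_Icc, Finset.mem_Ico,
      Nat.mem_divisors] at hx ⊢
    obtain ⟨⟨⟨hb1, hbN⟩, hab, hcop, hcop2⟩, ⟨hm1, hm2⟩, hmn, hmab, hP⟩ := hx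
    have hgg : Nat.gcd m a * Nat.gcd m b = m := by
      rw [← Nat.Coprime.gcd_mul m hcop]
      exact Nat.gcd_eq_left hmab
    have hm0 : 0 < m := by
      rcases Nat.eq_zero_or_pos m with h | h
      · exfalso
        rw [h] at hm1 hm2
        omega
      · exact h
    have hg2 : 0 < Nat.gcd m b := Nat.gcd_pos_of_pos_left _ hm0
    have hbdiv : Nat.gcd m b * (b / Nat.gcd m b) = b := Nat.mul_div_cancel' (Nat.gcd_dvd_right m b)
    have hbn : Nat.Coprime b (2 * n) := Nat.Coprime.coprime_mul_left hcop2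
    have hba : Nat.Coprime b (2 * n * a) := Nat.Coprime.mul_right hbn hcop.symm
    refine ⟨⟨Nat.gcd_dvd_right m a, by omega⟩, ⟨⟨by omega, ?_⟩, ?_, ?_, ?_, hP⟩, ⟨?_, ?_⟩, ?_, ?_, ?_⟩
    · exact (Nat.le_of_dvd hm0 (Nat.gcd_dvd_left m b)).trans hm2.le
    · exact Nat.Coprime.coprime_dvd_left (Nat.gcd_dvd_right m b) hba
    · rw [hgg]; exact hm1
    · rw [hgg]; exact hm2
    · exact Nat.div_pos (Nat.le_of_dvd (by omega) (Nat.gcd_dvd_right m b)) hg2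
    · exact (Nat.div_le_self _ _).trans hbN
    · exact Nat.Coprime.coprime_dvd_left (Nat.div_dvd_of_dvd (Nat.gcd_dvd_right m b)) hba
    · rw [hbdiv]; exact hab
    · rw [hbdiv]; exact hbN
  · rintro ⟨m1, m2, b⟩ hy
    simp only [Finset.mem_sigma, Finset.mem_filter, Finset.mem_Icc, Finset.mem_Ico,
      Nat.mem_divisors] at hy ⊢
    obtain ⟨⟨hm1a, -⟩, ⟨⟨hm21, hm2M⟩, hm2c, hM1, hM2, hP⟩, ⟨hb1, hbN⟩, hbc, hab, hbN2⟩ := hy
    have hm2a : Nat.Coprime m2 a := Nat.Coprime.coprime_dvd_right (dvd_mul_left _ _) hm2c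
    have hba : Nat.Coprime b a := Nat.Coprime.coprime_dvd_right (dvd_mul_left _ _) hbc
    have hm2n : Nat.Coprime m2 (2 * n) := Nat.Coprime.coprime_dvd_right (dvd_mul_right _ _) hm2c
    have hbn : Nat.Coprime b (2 * n) := Nat.Coprime.coprime_dvd_right (dvd_mul_right _ _) hbc
    have hm1b : Nat.Coprime m1 b := Nat.Coprime.coprime_dvd_left hm1a hba.symm
    have hg : Nat.gcd (m1 * m2) (m2 * b) = m2 := by
      rw [mul_comm m1 m2, Nat.gcd_mul_left, Nat.coprime_iff_gcd_eq_one.mp hm1b, mul_one]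
    refine ⟨⟨⟨?_, hbN2⟩, hab, ?_, ?_⟩, ⟨hM1, hM2⟩, ?_, ?_, ?_⟩
    · have : 0 < m2 * b := Nat.mul_pos (by omega) (by omega)
      omega
    · exact (Nat.Coprime.mul_left hm2a hba).symm
    · exact Nat.Coprime.mul_left han (Nat.Coprime.mul_left hm2n hbn)
    · exact Nat.Coprime.mul_left (Nat.Coprime.coprime_dvd_left hm1a han) hm2n
    · exact Nat.mul_dvd_mul hm1a (dvd_mul_right _ _)
    · rw [hg]; exact hP
  · rintro ⟨b, m⟩ hx
    simp only [Finset.mem_sigma, Finset.mem_filter, Finset.mem_Icc, Finset.mem_Ico,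
      Nat.mem_divisors] at hx ⊢
    obtain ⟨⟨⟨hb1, hbN⟩, hab, hcop, hcop2⟩, ⟨hm1, hm2⟩, hmn, hmab, hP⟩ := hx
    have hgg : Nat.gcd m a * Nat.gcd m b = m := by
      rw [← Nat.Coprime.gcd_mul m hcop]
      exact Nat.gcd_eq_left hmab
    have hbdiv : Nat.gcd m b * (b / Nat.gcd m b) = b := Nat.mul_div_cancel' (Nat.gcd_dvd_right m b)
    rw [hgg, hbdiv]
  · rintro ⟨m1, m2, b⟩ hy
    simp only [Finset.mem_sigma, Finset.mem_filter, Finset.mem_Icc, Finset.mem_Ico,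
      Nat.mem_divisors] at hy ⊢
    obtain ⟨⟨hm1a, -⟩, ⟨⟨hm21, hm2M⟩, hm2c, hM1, hM2, hP⟩, ⟨hb1, hbN⟩, hbc, hab, hbN2⟩ := hy
    have hm2a : Nat.Coprime m2 a := Nat.Coprime.coprime_dvd_right (dvd_mul_left _ _) hm2c
    have hba : Nat.Coprime b a := Nat.Coprime.coprime_dvd_right (dvd_mul_left _ _) hbc
    have hm1b : Nat.Coprime m1 b := Nat.Coprime.coprime_dvd_left hm1a hba.symm
    have hg : Nat.gcd (m1 * m2) (m2 * b) = m2 := by
      rw [mul_comm m1 m2, Nat.gcd_mul_left, Nat.coprime_iff_gcd_eq_one.mp hm1b, mul_one]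
    have hg' : Nat.gcd (m1 * m2) a = m1 := by
      rw [Nat.Coprime.gcd_mul_right_cancel m1 hm2a]
      exact Nat.gcd_eq_left hm1a
    rw [hg, hg', Nat.mul_div_cancel_left b (by omega)]
  · rintro ⟨b, m⟩ hx
    simp only [Finset.mem_sigma, Finset.mem_filter, Finset.mem_Icc, Finset.mem_Ico,
      Nat.mem_divisors] at hx ⊢
    obtain ⟨⟨⟨hb1, hbN⟩, hab, hcop, hcop2⟩, ⟨hm1, hm2⟩, hmn, hmab, hP⟩ := hx
    have hgg : Nat.gcd m a * Nat.gcd m b = m := by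
      rw [← Nat.Coprime.gcd_mul m hcop]
      exact Nat.gcd_eq_left hmab
    have hbdiv : Nat.gcd m b * (b / Nat.gcd m b) = b := Nat.mul_div_cancel' (Nat.gcd_dvd_right m b)
    rw [hgg, hbdiv]

/-- `m = m1 m2`, `m1 = (m, a)`, `m2 = (m, b)` -/
theorem reidx12 (n N M : ℕ) (P : ℕ → ℕ → Prop) [∀ a m, Decidable (P a m)]
    (F : ℕ → ℕ → ℕ → ℂ) :
    ∑ a ∈ Finset.Icc 1 N,
      ∑ b ∈ (Finset.Icc 1 N).filter (fun b => a < b ∧ Nat.Coprime a b ∧
          Nat.Coprime (a * b) (2 * n)),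
        ∑ m ∈ (Finset.Ico M (2 * M)).filter (fun m => Nat.Coprime m (2 * n) ∧ m ∣ a * b ∧
          P a (Nat.gcd m b)), F a b m =
    ∑ a ∈ (Finset.Icc 1 N).filter (fun a => Nat.Coprime a (2 * n)), ∑ m1 ∈ a.divisors,
      ∑ m2 ∈ (Finset.Icc 1 (2 * M)).filter (fun m2 => Nat.Coprime m2 (2 * n * a) ∧
          M ≤ m1 * m2 ∧ m1 * m2 < 2 * M ∧ P a m2),
        ∑ b ∈ (Finset.Icc 1 N).filter (fun b => Nat.Coprime b (2 * n * a) ∧ a < m2 * b ∧
          m2 * b ≤ N), F a (m2 * b) (m1 * m2) := by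
  rw [← Finset.sum_subset (Finset.filter_subset (fun a => Nat.Coprime a (2 * n)) (Finset.Icc 1 N))]
  · refine Finset.sum_congr rfl ?_
    intro a ha
    rw [Finset.mem_filter, Finset.mem_Icc] at ha
    exact n20a_fixed n N M a P F ha.1.1 ha.2
  · intro a ha ha'
    have hne : ¬ Nat.Coprime a (2 * n) := fun h => ha' (Finset.mem_filter.mpr ⟨ha, h⟩)
    apply Finset.sum_eq_zero
    intro b hb
    rw [Finset.mem_filter] at hb
    exact absurd (Nat.Coprime.coprime_mul_right hb.2.2.2) hne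

end RV11
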