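import Pool.Agent.LibRV11.N20a

open Complex Real

namespace RV11

theorem reidx3 (n N M : ℕ) (P : ℕ → ℕ → Prop) [∀ a m, Decidable (P a m)]
    (F : ℕ → ℕ → ℕ → ℂ) :
    ∑ a ∈ Finset.Icc 1 N,
      ∑ b ∈ (Finset.Icc 1 N).filter (fun b => a < b ∧ Nat.Coprime a b ∧
          Nat.Coprime (a * b) (2 * n)),
        ∑ m ∈ (Finset.Ico M (2 * M)).filter (fun m => Nat.Coprime m (2 * n) ∧ m ∣ a * b ∧
          P a (Nat.gcd m b)), F a b m =
    ∑ m2 ∈ (Finset.Icc 1 (2 * M)).filter (fun m2 => Nat.Coprime m2 (2 * n)),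
      ∑ a ∈ (Finset.Icc 1 N).filter (fun a => Nat.Coprime a (2 * n * m2)),
        ∑ b ∈ (Finset.Icc 1 N).filter (fun b => Nat.Coprime b (2 * n * a)),
          ∑ m1 ∈ (Finset.Icc 1 (2 * M)).filter (fun m1 => Nat.Coprime m1 (2 * n * m2 * b) ∧
            M ≤ m1 * m2 ∧ m1 * m2 < 2 * M ∧ m1 * a < m2 * b ∧ m2 * b ≤ N ∧ P (m1 * a) m2),
            F (m1 * a) (m2 * b) (m1 * m2) := by
  rw [Finset.sum_sigma', Finset.sum_sigma', Finset.sum_sigma', Finset.sum_sigma',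
    Finset.sum_sigma']
  refine Finset.sum_bij' (fun x _ => ⟨⟨⟨Nat.gcd x.2 x.1.2, x.1.1 / Nat.gcd x.2 x.1.1⟩,
      x.1.2 / Nat.gcd x.2 x.1.2⟩, Nat.gcd x.2 x.1.1⟩)
    (fun y _ => ⟨⟨y.2 * y.1.1.2, y.1.1.1 * y.1.2⟩, y.2 * y.1.1.1⟩) ?_ ?_ ?_ ?_ ?_
  · rintro ⟨⟨a, b⟩, m⟩ hx
    simp only [Finset.mem_sigma, Finset.mem_Icc, Finset.mem_filter, Finset.mem_Ico] at hx
    obtain ⟨⟨⟨ha1, haN⟩, ⟨hb1, hbN⟩, hab, hcop, hcab⟩, ⟨hmM, hm2M⟩, hmn, hmab, hP⟩ := hx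
    have hm0 : 0 < m := by omega
    have hmul : Nat.gcd m a * Nat.gcd m b = m := by
      rw [← hcop.gcd_mul m, Nat.gcd_eq_left hmab]
    have hg1 : 0 < Nat.gcd m a := Nat.gcd_pos_of_pos_left _ hm0
    have hg2 : 0 < Nat.gcd m b := Nat.gcd_pos_of_pos_left _ hm0
    have ha' : Nat.gcd m a * (a / Nat.gcd m a) = a := Nat.mul_div_cancel' (Nat.gcd_dvd_right m a)
    have hb' : Nat.gcd m b * (b / Nat.gcd m b) = b := Nat.mul_div_cancel' (Nat.gcd_dvd_right m b)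
    have hcm2 : Nat.Coprime (Nat.gcd m b) (2 * n) := hmn.coprime_dvd_left (Nat.gcd_dvd_left m b)
    have hcm1 : Nat.Coprime (Nat.gcd m a) (2 * n) := hmn.coprime_dvd_left (Nat.gcd_dvd_left m a)
    have hca : Nat.Coprime a (2 * n) := hcab.coprime_dvd_left (dvd_mul_right a b)
    have hcb : Nat.Coprime b (2 * n) := hcab.coprime_dvd_left (dvd_mul_left b a)
    have hda : a / Nat.gcd m a ∣ a := Nat.div_dvd_of_dvd (Nat.gcd_dvd_right m a)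
    have hdb : b / Nat.gcd m b ∣ b := Nat.div_dvd_of_dvd (Nat.gcd_dvd_right m b)
    simp only [Finset.mem_sigma, Finset.mem_Icc, Finset.mem_filter]
    refine ⟨⟨⟨⟨⟨hg2, ?_⟩, hcm2⟩, ⟨?_, ?_⟩, ?_⟩, ⟨?_, ?_⟩, ?_⟩, ⟨hg1, ?_⟩, ?_, ?_, ?_, ?_, ?_, ?_⟩
    · exact (Nat.le_of_dvd hm0 (Nat.gcd_dvd_left m b)).trans hm2M.le
    · exact Nat.div_pos (Nat.le_of_dvd ha1 (Nat.gcd_dvd_right m a)) hg1
    · exact (Nat.div_le_self _ _).trans haN
    · exact Nat.Coprime.mul_right (hca.coprime_dvd_left hda)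
        ((hcop.coprime_dvd_left hda).coprime_dvd_right (Nat.gcd_dvd_right m b))
    · exact Nat.div_pos (Nat.le_of_dvd hb1 (Nat.gcd_dvd_right m b)) hg2
    · exact (Nat.div_le_self _ _).trans hbN
    · exact Nat.Coprime.mul_right (hcb.coprime_dvd_left hdb)
        ((hcop.symm.coprime_dvd_left hdb).coprime_dvd_right hda)
    · exact (Nat.le_of_dvd hm0 (Nat.gcd_dvd_left m a)).trans hm2M.le
    · exact Nat.Coprime.mul_right (Nat.Coprime.mul_right hcm1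
        ((hcop.coprime_dvd_left (Nat.gcd_dvd_right m a)).coprime_dvd_right (Nat.gcd_dvd_right m b)))
        ((hcop.coprime_dvd_left (Nat.gcd_dvd_right m a)).coprime_dvd_right hdb)
    · rw [hmul]; exact hmM
    · rw [hmul]; exact hm2M
    · rw [ha', hb']; exact hab
    · rw [hb']; exact hbN
    · rw [ha']; exact hP
  · rintro ⟨⟨⟨m2, a⟩, b⟩, m1⟩ hx
    simp only [Finset.mem_sigma, Finset.mem_Icc, Finset.mem_filter] at hx
    obtain ⟨⟨⟨⟨⟨hm2, hm2M⟩, hcm2⟩, ⟨ha1, haN⟩, hca⟩, ⟨hb1, hbN⟩, hcb⟩, ⟨hm1, hm1M⟩, hcm1, hM1, hM2,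
      hlt, hle, hP⟩ := hx
    have c1 : Nat.Coprime m1 (2 * n) :=
      hcm1.coprime_dvd_right ((dvd_mul_right _ m2).mul_right b)
    have c2 : Nat.Coprime m1 m2 := hcm1.coprime_dvd_right ((dvd_mul_left m2 _).mul_right b)
    have c3 : Nat.Coprime m1 b := hcm1.coprime_dvd_right (dvd_mul_left b _)
    have c4 : Nat.Coprime a (2 * n) := hca.coprime_dvd_right (dvd_mul_right _ m2)
    have c5 : Nat.Coprime a m2 := hca.coprime_dvd_right (dvd_mul_left m2 _)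
    have c6 : Nat.Coprime b (2 * n) := hcb.coprime_dvd_right (dvd_mul_right _ a)
    have c7 : Nat.Coprime b a := hcb.coprime_dvd_right (dvd_mul_left a _)
    simp only [Finset.mem_sigma, Finset.mem_Icc, Finset.mem_filter, Finset.mem_Ico]
    refine ⟨⟨⟨Nat.mul_pos hm1 ha1, (hlt.trans_le hle).le⟩, ⟨Nat.mul_pos hm2 hb1, hle⟩, hlt, ?_, ?_⟩,
      ⟨hM1, hM2⟩, ?_, ?_, ?_⟩
    · exact Nat.Coprime.mul_left (Nat.Coprime.mul_right c2 c3) (Nat.Coprime.mul_right c5 c7.symm)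
    · exact Nat.Coprime.mul_left (Nat.Coprime.mul_left c1 c4) (Nat.Coprime.mul_left hcm2 c6)
    · exact Nat.Coprime.mul_left c1 hcm2
    · exact mul_dvd_mul (dvd_mul_right m1 a) (dvd_mul_right m2 b)
    · have : Nat.gcd (m1 * m2) (m2 * b) = m2 := by
        rw [mul_comm m1 m2, Nat.gcd_mul_left, c3, mul_one]
      rw [this]
      exact hP
  · rintro ⟨⟨a, b⟩, m⟩ hx
    simp only [Finset.mem_sigma, Finset.mem_Icc, Finset.mem_filter, Finset.mem_Ico] at hx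
    obtain ⟨⟨⟨ha1, haN⟩, ⟨hb1, hbN⟩, hab, hcop, hcab⟩, ⟨hmM, hm2M⟩, hmn, hmab, hP⟩ := hx
    have hmul : Nat.gcd m a * Nat.gcd m b = m := by
      rw [← hcop.gcd_mul m, Nat.gcd_eq_left hmab]
    have ha' : Nat.gcd m a * (a / Nat.gcd m a) = a := Nat.mul_div_cancel' (Nat.gcd_dvd_right m a)
    have hb' : Nat.gcd m b * (b / Nat.gcd m b) = b := Nat.mul_div_cancel' (Nat.gcd_dvd_right m b)
    simp only [hmul, ha', hb']
  · rintro ⟨⟨⟨m2, a⟩, b⟩, m1⟩ hx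
    simp only [Finset.mem_sigma, Finset.mem_Icc, Finset.mem_filter] at hx
    obtain ⟨⟨⟨⟨⟨hm2, hm2M⟩, hcm2⟩, ⟨ha1, haN⟩, hca⟩, ⟨hb1, hbN⟩, hcb⟩, ⟨hm1, hm1M⟩, hcm1, hM1, hM2,
      hlt, hle, hP⟩ := hx
    have c3 : Nat.Coprime m1 b := hcm1.coprime_dvd_right (dvd_mul_left b _)
    have c5 : Nat.Coprime a m2 := hca.coprime_dvd_right (dvd_mul_left m2 _)
    have e1 : Nat.gcd (m1 * m2) (m2 * b) = m2 := by
      rw [mul_comm m1 m2, Nat.gcd_mul_left, c3, mul_one]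
    have e2 : Nat.gcd (m1 * m2) (m1 * a) = m1 := by
      rw [Nat.gcd_mul_left, c5.symm, mul_one]
    simp only [e1, e2, Nat.mul_div_cancel_left _ (Nat.pos_of_ne_zero (by omega : m1 ≠ 0)),
      Nat.mul_div_cancel_left _ (Nat.pos_of_ne_zero (by omega : m2 ≠ 0))]
  · rintro ⟨⟨a, b⟩, m⟩ hx
    simp only [Finset.mem_sigma, Finset.mem_Icc, Finset.mem_filter, Finset.mem_Ico] at hx
    obtain ⟨⟨⟨ha1, haN⟩, ⟨hb1, hbN⟩, hab, hcop, hcab⟩, ⟨hmM, hm2M⟩, hmn, hmab, hP⟩ := hx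
    have hmul : Nat.gcd m a * Nat.gcd m b = m := by
      rw [← hcop.gcd_mul m, Nat.gcd_eq_left hmab]
    have ha' : Nat.gcd m a * (a / Nat.gcd m a) = a := Nat.mul_div_cancel' (Nat.gcd_dvd_right m a)
    have hb' : Nat.gcd m b * (b / Nat.gcd m b) = b := Nat.mul_div_cancel' (Nat.gcd_dvd_right m b)
    simp only [hmul, ha', hb']

end RV11
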