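import Pool.Agent.LibRV11.N16c
import Pool.Agent.LibRV11.N17b
import Pool.Agent.LibRV11.N19c
import Pool.Agent.LibRV11.N20b

open Complex Real

namespace RV11

/-- the summand vanishes outside the support of the weight -/
private theorem Fs_zero {n X c0 : ℕ} {s : ℤ} {Γ : ZMod (2 * c0) → ℂ} {α β ε w : ℕ → ℂ}
    (h : Dat n X c0 s Γ α β ε w) (a b m : ℕ) (ha : 1 ≤ a) (hb : 2 * X < b) :
    Fs n c0 s Γ α β ε w a b m = 0 := by
  have hc0 : 1 ≤ c0 := Nat.one_le_iff_ne_zero.mpr h.sm.1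
  have hw : w (c0 * a * b) = 0 := by
    by_contra hne
    have h2 := (h.supp _ hne).2
    have h3 : b ≤ c0 * a * b := Nat.le_mul_of_pos_left b (Nat.mul_pos hc0 ha)
    omega
  simp [Fs, hw]

/-- the bilinear estimate -/
theorem BIL : ∃ (C : ℝ) (n0 : ℕ), 1 ≤ C ∧ ∀ (n X c0 : ℕ) (s : ℤ) (Γ : ZMod (2 * c0) → ℂ)
    (α β ε w : ℕ → ℂ), n0 ≤ n → Dat n X c0 s Γ α β ε w →
    ‖∑ a ∈ Finset.Icc 1 (2 * X),
      ∑ b ∈ (Finset.Icc 1 (2 * X)).filter (fun b => a < b ∧ Nat.Coprime a b ∧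
          Nat.Coprime (a * b) (2 * n)),
        ∑ m ∈ (MM n).filter (fun m => m ∣ a * b), Fs n c0 s Γ α β ε w a b m‖ ≤
    C * X * Mn n / c0 * (ff n ^ 2 + (n : ℝ) ^ (-(1 / 300) : ℝ)) := by
  obtain ⟨C1, n1, hC1, h1⟩ := range_i
  obtain ⟨C2, n2, hC2, h2⟩ := range_ii
  obtain ⟨C3, n3, hC3, h3⟩ := range_iii
  refine ⟨C1 + C2 + C3, max (max n1 n2) n3, by linarith, ?_⟩
  intro n X c0 s Γ α β ε w hn hD
  have hn1 : n1 ≤ n := le_trans (by simp) hn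
  have hn2 : n2 ≤ n := le_trans (by simp) hn
  have hn3 : n3 ≤ n := le_trans (by simp) hn
  have e1 := h1 n X c0 s Γ α β ε w hn1 hD
  have e2 := h2 n X c0 s Γ α β ε w hn2 hD
  have e3 := h3 n X c0 s Γ α β ε w hn3 hD
  have r1 := reidx12 n (2 * X) (Mn n) (fun a _ => (a : ℝ) ≤ (n : ℝ) ^ (1 / 100 : ℝ))
    (Fs n c0 s Γ α β ε w)
  have r2 := reidx12 n (2 * X) (Mn n) (fun a m => ¬ ((a : ℝ) ≤ (n : ℝ) ^ (1 / 100 : ℝ)) ∧
    Mn n ≤ m ^ 2) (Fs n c0 s Γ α β ε w)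
  have r3 := reidx3 n (2 * X) (Mn n) (fun a m => ¬ ((a : ℝ) ≤ (n : ℝ) ^ (1 / 100 : ℝ)) ∧
    m ^ 2 < Mn n) (Fs n c0 s Γ α β ε w)
  -- drop the condition `m b ≤ 2X`
  have d1 : ∀ (P : ℕ → ℕ → Prop) [∀ a m, Decidable (P a m)],
      ∑ a ∈ (Finset.Icc 1 (2 * X)).filter (fun a => Nat.Coprime a (2 * n)), ∑ m1 ∈ a.divisors,
      ∑ m2 ∈ (Finset.Icc 1 (2 * Mn n)).filter (fun m2 => Nat.Coprime m2 (2 * n * a) ∧
          Mn n ≤ m1 * m2 ∧ m1 * m2 < 2 * Mn n ∧ P a m2),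
        ∑ b ∈ (Finset.Icc 1 (2 * X)).filter (fun b => Nat.Coprime b (2 * n * a) ∧ a < m2 * b ∧
          m2 * b ≤ 2 * X), Fs n c0 s Γ α β ε w a (m2 * b) (m1 * m2) =
      ∑ a ∈ (Finset.Icc 1 (2 * X)).filter (fun a => Nat.Coprime a (2 * n)), ∑ m1 ∈ a.divisors,
      ∑ m2 ∈ (Finset.Icc 1 (2 * Mn n)).filter (fun m2 => Nat.Coprime m2 (2 * n * a) ∧
          Mn n ≤ m1 * m2 ∧ m1 * m2 < 2 * Mn n ∧ P a m2),
        ∑ b ∈ (Finset.Icc 1 (2 * X)).filter (fun b => Nat.Coprime b (2 * n * a) ∧ a < m2 * b),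
          Fs n c0 s Γ α β ε w a (m2 * b) (m1 * m2) := by
    intro P _
    refine Finset.sum_congr rfl (fun a ha => ?_)
    refine Finset.sum_congr rfl (fun m1 _ => ?_)
    refine Finset.sum_congr rfl (fun m2 _ => ?_)
    have ha1 : 1 ≤ a := by
      simp only [Finset.mem_filter, Finset.mem_Icc] at ha; exact ha.1.1
    rw [Finset.sum_filter, Finset.sum_filter]
    refine Finset.sum_congr rfl (fun b _ => ?_)
    by_cases hb : m2 * b ≤ 2 * X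
    · simp [hb]
    · have hz := Fs_zero hD a (m2 * b) (m1 * m2) ha1 (by omega)
      simp [hz]
  have d3 : ∑ m2 ∈ (Finset.Icc 1 (2 * Mn n)).filter (fun m2 => Nat.Coprime m2 (2 * n)),
      ∑ a ∈ (Finset.Icc 1 (2 * X)).filter (fun a => Nat.Coprime a (2 * n * m2)),
        ∑ b ∈ (Finset.Icc 1 (2 * X)).filter (fun b => Nat.Coprime b (2 * n * a)),
          ∑ m1 ∈ (Finset.Icc 1 (2 * Mn n)).filter (fun m1 => Nat.Coprime m1 (2 * n * m2 * b) ∧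
            Mn n ≤ m1 * m2 ∧ m1 * m2 < 2 * Mn n ∧ m1 * a < m2 * b ∧ m2 * b ≤ 2 * X ∧
              (¬ (((m1 * a : ℕ) : ℝ) ≤ (n : ℝ) ^ (1 / 100 : ℝ)) ∧ m2 ^ 2 < Mn n)),
            Fs n c0 s Γ α β ε w (m1 * a) (m2 * b) (m1 * m2) =
      ∑ m2 ∈ (Finset.Icc 1 (2 * Mn n)).filter (fun m2 => Nat.Coprime m2 (2 * n)),
      ∑ a ∈ (Finset.Icc 1 (2 * X)).filter (fun a => Nat.Coprime a (2 * n * m2)),
      ∑ b ∈ (Finset.Icc 1 (2 * X)).filter (fun b => Nat.Coprime b (2 * n * a)),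
        ∑ m ∈ (Finset.Icc 1 (2 * Mn n)).filter (fun m => Nat.Coprime m (2 * n * m2 * b) ∧
          Mn n ≤ m * m2 ∧ m * m2 < 2 * Mn n ∧ m * a < m2 * b ∧
            (¬ (((m * a : ℕ) : ℝ) ≤ (n : ℝ) ^ (1 / 100 : ℝ)) ∧ m2 ^ 2 < Mn n)),
          Fs n c0 s Γ α β ε w (m * a) (m2 * b) (m * m2) := by
    refine Finset.sum_congr rfl (fun m2 _ => ?_)
    refine Finset.sum_congr rfl (fun a ha => ?_)
    refine Finset.sum_congr rfl (fun b _ => ?_)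
    have ha1 : 1 ≤ a := by
      simp only [Finset.mem_filter, Finset.mem_Icc] at ha; exact ha.1.1
    rw [Finset.sum_filter, Finset.sum_filter]
    refine Finset.sum_congr rfl (fun m hm => ?_)
    have hm1 : 1 ≤ m := by
      simp only [Finset.mem_Icc] at hm; exact hm.1
    by_cases hb : m2 * b ≤ 2 * X
    · simp [hb]
    · have hz := Fs_zero hD (m * a) (m2 * b) (m * m2) (Nat.mul_pos hm1 ha1) (by omega)
      simp [hz]
  -- the decomposition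
  have key : ∑ a ∈ Finset.Icc 1 (2 * X),
      ∑ b ∈ (Finset.Icc 1 (2 * X)).filter (fun b => a < b ∧ Nat.Coprime a b ∧
          Nat.Coprime (a * b) (2 * n)),
        ∑ m ∈ (MM n).filter (fun m => m ∣ a * b), Fs n c0 s Γ α β ε w a b m =
      (∑ a ∈ Finset.Icc 1 (2 * X),
      ∑ b ∈ (Finset.Icc 1 (2 * X)).filter (fun b => a < b ∧ Nat.Coprime a b ∧
          Nat.Coprime (a * b) (2 * n)),
        ∑ m ∈ (Finset.Ico (Mn n) (2 * Mn n)).filter (fun m => Nat.Coprime m (2 * n) ∧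
          m ∣ a * b ∧ (a : ℝ) ≤ (n : ℝ) ^ (1 / 100 : ℝ)), Fs n c0 s Γ α β ε w a b m) +
      (∑ a ∈ Finset.Icc 1 (2 * X),
      ∑ b ∈ (Finset.Icc 1 (2 * X)).filter (fun b => a < b ∧ Nat.Coprime a b ∧
          Nat.Coprime (a * b) (2 * n)),
        ∑ m ∈ (Finset.Ico (Mn n) (2 * Mn n)).filter (fun m => Nat.Coprime m (2 * n) ∧
          m ∣ a * b ∧ (¬ ((a : ℝ) ≤ (n : ℝ) ^ (1 / 100 : ℝ)) ∧ Mn n ≤ (Nat.gcd m b) ^ 2)),
            Fs n c0 s Γ α β ε w a b m) +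
      (∑ a ∈ Finset.Icc 1 (2 * X),
      ∑ b ∈ (Finset.Icc 1 (2 * X)).filter (fun b => a < b ∧ Nat.Coprime a b ∧
          Nat.Coprime (a * b) (2 * n)),
        ∑ m ∈ (Finset.Ico (Mn n) (2 * Mn n)).filter (fun m => Nat.Coprime m (2 * n) ∧
          m ∣ a * b ∧ (¬ ((a : ℝ) ≤ (n : ℝ) ^ (1 / 100 : ℝ)) ∧ (Nat.gcd m b) ^ 2 < Mn n)),
            Fs n c0 s Γ α β ε w a b m) := by
    rw [← Finset.sum_add_distrib, ← Finset.sum_add_distrib]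
    refine Finset.sum_congr rfl (fun a _ => ?_)
    rw [← Finset.sum_add_distrib, ← Finset.sum_add_distrib]
    refine Finset.sum_congr rfl (fun b _ => ?_)
    unfold MM
    rw [Finset.filter_filter, Finset.sum_filter, Finset.sum_filter, Finset.sum_filter,
      Finset.sum_filter, ← Finset.sum_add_distrib, ← Finset.sum_add_distrib]
    refine Finset.sum_congr rfl (fun m _ => ?_)
    by_cases hP : (a : ℝ) ≤ (n : ℝ) ^ (1 / 100 : ℝ)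
    · simp only [hP, and_true, not_true_eq_false, false_and, and_false, if_false, add_zero]
    · by_cases hQ : Mn n ≤ (Nat.gcd m b) ^ 2
      · have hQ' : ¬ (Nat.gcd m b) ^ 2 < Mn n := not_lt.mpr hQ
        simp only [hP, hQ, hQ', and_true, not_false_eq_true, and_false, if_false, add_zero,
          zero_add]
      · have hQ' : (Nat.gcd m b) ^ 2 < Mn n := not_le.mp hQ
        simp only [hP, hQ, hQ', and_true, not_false_eq_true, and_false, if_false, add_zero,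
          zero_add]
  rw [key]
  have f1 : ‖∑ a ∈ Finset.Icc 1 (2 * X),
      ∑ b ∈ (Finset.Icc 1 (2 * X)).filter (fun b => a < b ∧ Nat.Coprime a b ∧
          Nat.Coprime (a * b) (2 * n)),
        ∑ m ∈ (Finset.Ico (Mn n) (2 * Mn n)).filter (fun m => Nat.Coprime m (2 * n) ∧
          m ∣ a * b ∧ (a : ℝ) ≤ (n : ℝ) ^ (1 / 100 : ℝ)), Fs n c0 s Γ α β ε w a b m‖ ≤
      C1 * X * Mn n / c0 * ff n ^ 2 := by
    rw [r1, d1 (fun a _ => (a : ℝ) ≤ (n : ℝ) ^ (1 / 100 : ℝ))]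
    exact e1
  have f2 : ‖∑ a ∈ Finset.Icc 1 (2 * X),
      ∑ b ∈ (Finset.Icc 1 (2 * X)).filter (fun b => a < b ∧ Nat.Coprime a b ∧
          Nat.Coprime (a * b) (2 * n)),
        ∑ m ∈ (Finset.Ico (Mn n) (2 * Mn n)).filter (fun m => Nat.Coprime m (2 * n) ∧
          m ∣ a * b ∧ (¬ ((a : ℝ) ≤ (n : ℝ) ^ (1 / 100 : ℝ)) ∧ Mn n ≤ (Nat.gcd m b) ^ 2)),
            Fs n c0 s Γ α β ε w a b m‖ ≤
      C2 * X * Mn n / c0 * (n : ℝ) ^ (-(1 / 300) : ℝ) := by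
    rw [r2, d1 (fun a m => ¬ ((a : ℝ) ≤ (n : ℝ) ^ (1 / 100 : ℝ)) ∧ Mn n ≤ m ^ 2)]
    exact e2
  have f3 : ‖∑ a ∈ Finset.Icc 1 (2 * X),
      ∑ b ∈ (Finset.Icc 1 (2 * X)).filter (fun b => a < b ∧ Nat.Coprime a b ∧
          Nat.Coprime (a * b) (2 * n)),
        ∑ m ∈ (Finset.Ico (Mn n) (2 * Mn n)).filter (fun m => Nat.Coprime m (2 * n) ∧
          m ∣ a * b ∧ (¬ ((a : ℝ) ≤ (n : ℝ) ^ (1 / 100 : ℝ)) ∧ (Nat.gcd m b) ^ 2 < Mn n)),
            Fs n c0 s Γ α β ε w a b m‖ ≤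
      C3 * X * Mn n / c0 * (n : ℝ) ^ (-(1 / 300) : ℝ) := by
    rw [r3, d3]
    exact e3
  refine (norm_add_le _ _).trans ?_
  refine (add_le_add (norm_add_le _ _) le_rfl).trans ?_
  refine (add_le_add (add_le_add f1 f2) f3).trans ?_
  have hK : (0 : ℝ) ≤ X * Mn n / c0 := by positivity
  have hp : (0 : ℝ) ≤ (n : ℝ) ^ (-(1 / 300) : ℝ) := by positivity
  have hf : (0 : ℝ) ≤ ff n ^ 2 := by positivity
  have : (C1 + C2 + C3) * X * Mn n / c0 * (ff n ^ 2 + (n : ℝ) ^ (-(1 / 300) : ℝ)) -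
      (C1 * X * Mn n / c0 * ff n ^ 2 + C2 * X * Mn n / c0 * (n : ℝ) ^ (-(1 / 300) : ℝ) +
        C3 * X * Mn n / c0 * (n : ℝ) ^ (-(1 / 300) : ℝ)) =
      (C2 + C3) * (X * Mn n / c0) * ff n ^ 2 + C1 * (X * Mn n / c0) *
        (n : ℝ) ^ (-(1 / 300) : ℝ) := by ring
  have h0 : 0 ≤ (C2 + C3) * (X * Mn n / c0) * ff n ^ 2 + C1 * (X * Mn n / c0) *
        (n : ℝ) ^ (-(1 / 300) : ℝ) := by
    have : 0 ≤ C2 + C3 := by linarith
    have : 0 ≤ C1 := by linarith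
    positivity
  linarith

end RV11
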