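import Pool.Agent.LibRV11.N00

open Complex Real

namespace RV11

theorem N22_exists (n : ℕ) (hn : 1 ≤ n) : ∀ c : ℕ, 1 ≤ c →
    ∃ c0 c1 : ℕ, Sm n c0 ∧ Nat.Coprime c1 (2 * n) ∧ c1 ≠ 0 ∧ c0 * c1 = c := by
  intro c
  induction c using Nat.strong_induction_on with
  | _ c ih =>
    intro hc
    by_cases h : Nat.Coprime c (2 * n)
    · refine ⟨1, c, ⟨one_ne_zero, fun p hp h1 => ?_⟩, h, by omega, one_mul c⟩
      exact absurd (Nat.dvd_one.mp h1) hp.one_lt.ne'
    · obtain ⟨p, hp, hpc, hpn⟩ := Nat.Prime.not_coprime_iff_dvd.mp h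
      obtain ⟨c', rfl⟩ := hpc
      have hc' : 1 ≤ c' := by
        rcases Nat.eq_zero_or_pos c' with h0 | h0
        · rw [h0] at hc; simp at hc
        · exact h0
      have hlt : c' < p * c' := by
        have := hp.two_le
        nlinarith
      obtain ⟨c0, c1, h0, h1, h2, h3⟩ := ih c' hlt hc'
      refine ⟨p * c0, c1, ⟨mul_ne_zero hp.ne_zero h0.1, fun q hq hqc => ?_⟩, h1, h2, ?_⟩
      · rcases hq.dvd_mul.mp hqc with h4 | h4
        · rw [(Nat.prime_dvd_prime_iff_eq hq hp).mp h4]; exact hpn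
        · exact h0.2 q hq h4
      · rw [mul_assoc, h3]

theorem N22_coprime {n c0 c1 : ℕ} (h0 : Sm n c0) (h1 : Nat.Coprime c1 (2 * n)) :
    Nat.Coprime c0 c1 := by
  by_contra h
  obtain ⟨p, hp, h2, h3⟩ := Nat.Prime.not_coprime_iff_dvd.mp h
  have h4 := h0.2 p hp h2
  have h5 : p ∣ Nat.gcd c1 (2 * n) := Nat.dvd_gcd h3 h4
  rw [h1] at h5
  exact absurd (Nat.dvd_one.mp h5) hp.one_lt.ne'

theorem N22_dvd {n c0 c1 d0 d1 : ℕ} (h0 : Sm n c0) (h1 : Nat.Coprime d1 (2 * n))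
    (h : c0 * c1 = d0 * d1) : c0 ∣ d0 := by
  have : c0 ∣ d0 * d1 := ⟨c1, h.symm⟩
  exact (N22_coprime h0 h1).dvd_of_dvd_mul_right this

open Classical in
/-- `c = c0 c1` -/
theorem split_c {R : Type*} [AddCommMonoid R] (n N : ℕ) (hn : 1 ≤ n) (F : ℕ → R) :
    ∑ c ∈ Finset.Icc 1 N, F c =
      ∑ c0 ∈ (Finset.Icc 1 N).filter (fun c0 => Sm n c0),
        ∑ c1 ∈ (Finset.Icc 1 N).filter (fun c1 => Nat.Coprime c1 (2 * n) ∧ c0 * c1 ≤ N),
          F (c0 * c1) := by
  rw [Finset.sum_sigma']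
  symm
  apply Finset.sum_nbij (fun x : (_ : ℕ) × ℕ => x.1 * x.2)
  · rintro ⟨c0, c1⟩ hx
    simp only [Finset.mem_sigma, Finset.mem_filter, Finset.mem_Icc] at hx ⊢
    refine ⟨?_, hx.2.2.2⟩
    exact Nat.mul_pos (by omega) (by omega)
  · rintro ⟨c0, c1⟩ hx ⟨d0, d1⟩ hy hxy
    simp only [Finset.coe_sigma, Set.mem_sigma_iff, Finset.mem_coe, Finset.mem_filter,
      Finset.mem_Icc] at hx hy hxy
    have e1 := N22_dvd hx.1.2 hy.2.2.1 hxy
    have e2 := N22_dvd hy.1.2 hx.2.2.1 hxy.symm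
    have e3 : c0 = d0 := Nat.dvd_antisymm e1 e2
    subst e3
    have e4 : c1 = d1 := Nat.eq_of_mul_eq_mul_left (by omega) hxy
    rw [e4]
  · intro c hc
    simp only [Finset.coe_Icc, Set.mem_Icc] at hc
    obtain ⟨c0, c1, h0, h1, h2, h3⟩ := N22_exists n hn c hc.1
    refine ⟨⟨c0, c1⟩, ?_, h3⟩
    simp only [Finset.coe_sigma, Set.mem_sigma_iff, Finset.mem_coe, Finset.mem_filter,
      Finset.mem_Icc]
    have h4 : 1 ≤ c0 := Nat.one_le_iff_ne_zero.mpr h0.1
    have h5 : 1 ≤ c1 := Nat.one_le_iff_ne_zero.mpr h2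
    have h6 : c0 ≤ c := by rw [← h3]; exact Nat.le_mul_of_pos_right _ h5
    have h7 : c1 ≤ c := by rw [← h3]; exact Nat.le_mul_of_pos_left _ h4
    exact ⟨⟨⟨h4, by omega⟩, h0⟩, ⟨h5, by omega⟩, h1, by rw [h3]; omega⟩
  · intro x _
    rfl

/-- dyadic decomposition -/
theorem dyadic (f : ℕ → ℂ) (N1 N : ℕ) (h1 : 1 ≤ N1) (K : ℝ) (hK : 0 ≤ K)
    (h : ∀ X, N1 ≤ X → X ≤ N →
      ‖∑ c ∈ (Finset.Icc 1 N).filter (fun c => X ≤ c ∧ c < 2 * X), f c‖ ≤ K * X) :
    ‖∑ c ∈ (Finset.Icc 1 N).filter (fun c => N1 ≤ c), f c‖ ≤ 2 * K * N := by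
  have key : ∀ m Y : ℕ, N + 1 - Y ≤ m → N1 ≤ Y → Y ≤ N →
      ‖∑ c ∈ (Finset.Icc 1 N).filter (fun c => Y ≤ c), f c‖ ≤ K * (2 * N - Y) := by
    intro m
    induction m with
    | zero => intro Y hm hY hYN; omega
    | succ m ih =>
      intro Y hm hY hYN
      have hsplit : ∑ c ∈ (Finset.Icc 1 N).filter (fun c => Y ≤ c), f c =
          ∑ c ∈ (Finset.Icc 1 N).filter (fun c => Y ≤ c ∧ c < 2 * Y), f c +
          ∑ c ∈ (Finset.Icc 1 N).filter (fun c => 2 * Y ≤ c), f c := by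
        rw [← Finset.sum_union]
        · congr 1
          ext c
          simp only [Finset.mem_filter, Finset.mem_Icc, Finset.mem_union]
          omega
        · rw [Finset.disjoint_left]
          intro c hc hc'
          simp only [Finset.mem_filter, Finset.mem_Icc] at hc hc'
          omega
      rw [hsplit]
      refine (norm_add_le _ _).trans ?_
      have hb := h Y hY hYN
      have hYN' : (Y : ℝ) ≤ N := by exact_mod_cast hYN
      by_cases h2 : 2 * Y ≤ N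
      · have := ih (2 * Y) (by omega) (by omega) h2
        push_cast at this
        calc _ ≤ K * Y + K * (2 * N - 2 * Y) := add_le_add hb this
          _ = K * (2 * N - Y) := by ring
      · have hempty : (Finset.Icc 1 N).filter (fun c => 2 * Y ≤ c) = ∅ := by
          ext c
          simp only [Finset.mem_filter, Finset.mem_Icc, Finset.notMem_empty, iff_false]
          omega
        rw [hempty, Finset.sum_empty, norm_zero, add_zero]
        refine hb.trans (mul_le_mul_of_nonneg_left ?_ hK)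
        linarith
  rcases le_or_gt N1 N with hle | hgt
  · refine (key _ N1 le_rfl le_rfl hle).trans ?_
    have : (0 : ℝ) ≤ N1 := Nat.cast_nonneg _
    nlinarith
  · have hempty : (Finset.Icc 1 N).filter (fun c => N1 ≤ c) = ∅ := by
      ext c
      simp only [Finset.mem_filter, Finset.mem_Icc, Finset.notMem_empty, iff_false]
      omega
    rw [hempty, Finset.sum_empty, norm_zero]
    positivity

end RV11
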