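import Pool.Agent.LibRV11.N12b

open Complex Real

namespace RV11

/-- admissible weights in the number theory module -/
structure IsJ (δ : ℝ) (J : ℝ → ℂ) : Prop where
  bd : ∀ ρ, 0 < ρ → ‖J ρ‖ ≤ Real.sqrt ρ
  lip : ∀ ρ ρ', 0 < ρ → ρ ≤ ρ' → ρ' ≤ 1 → ‖J ρ - J ρ'‖ ≤ (ρ' - ρ) / ρ ^ 2
  zero : ∀ ρ, 4 * δ < ρ → J ρ = 0

/-- the weight of a dyadic block -/
noncomputable def wJ (n X N : ℕ) (s : ℤ) (J : ℝ → ℂ) (c : ℕ) : ℂ :=
  if X ≤ c ∧ c < 2 * X ∧ c ≤ N then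
    (Real.sqrt n : ℂ) * (J (c / n) / (Real.sqrt c : ℂ)) * cexp (-(2 * π * I * s * n / c)) else 0

private theorem N23_phase (θ : ℝ) : ‖cexp (-(I * θ))‖ = 1 := by
  rw [Complex.norm_exp]
  simp

/-- difference of two phases -/
private theorem N23_phase_sub (θ η : ℝ) : ‖cexp (-(I * θ)) - cexp (-(I * η))‖ ≤ |θ - η| := by
  have h1 : cexp (-(I * θ)) - cexp (-(I * η)) =
      cexp (-(I * η)) * (cexp (I * ((η - θ : ℝ) : ℂ)) - 1) := by
    rw [mul_sub, ← Complex.exp_add, mul_one]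
    congr 2
    push_cast
    ring
  rw [h1, norm_mul, N23_phase, one_mul]
  have := Real.norm_exp_I_mul_ofReal_sub_one_le (x := η - θ)
  rw [Real.norm_eq_abs, abs_sub_comm] at this
  exact this

/-- the amplitude -/
private noncomputable def N23_g (n : ℕ) (J : ℝ → ℂ) (c : ℕ) : ℂ :=
  (Real.sqrt n : ℂ) * (J (c / n) / (Real.sqrt c : ℂ))

private theorem N23_g_le {δ : ℝ} {J : ℝ → ℂ} (hJ : IsJ δ J) {n c : ℕ} (hn : 0 < n) (hc : 0 < c) :
    ‖N23_g n J c‖ ≤ 1 := by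
  have hn' : (0 : ℝ) < n := by exact_mod_cast hn
  have hc' : (0 : ℝ) < c := by exact_mod_cast hc
  unfold N23_g
  rw [norm_mul, norm_div, Complex.norm_real, Complex.norm_real, Real.norm_of_nonneg (Real.sqrt_nonneg _),
    Real.norm_of_nonneg (Real.sqrt_nonneg _)]
  have h1 := hJ.bd (c / n) (by positivity)
  have h2 : Real.sqrt (c / n : ℝ) = Real.sqrt c / Real.sqrt n := Real.sqrt_div hc'.le _
  rw [h2] at h1
  have h3 : 0 < Real.sqrt n := Real.sqrt_pos.mpr hn'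
  have h4 : 0 < Real.sqrt c := Real.sqrt_pos.mpr hc'
  calc Real.sqrt n * (‖J (c / n)‖ / Real.sqrt c)
      ≤ Real.sqrt n * ((Real.sqrt c / Real.sqrt n) / Real.sqrt c) := by gcongr
    _ = 1 := by field_simp

private theorem N23_g_sub {δ : ℝ} {J : ℝ → ℂ} (hJ : IsJ δ J) {n c X : ℕ} (hn : 0 < n) (hX : 0 < X)
    (hc : X ≤ c) (hcn : c + 1 ≤ n) :
    ‖N23_g n J (c + 1) - N23_g n J c‖ ≤ Real.sqrt n * n / (X ^ 2 * Real.sqrt X) + 1 / X := by
  have hn' : (0 : ℝ) < n := by exact_mod_cast hn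
  have hX' : (0 : ℝ) < X := by exact_mod_cast hX
  have hXc : (X : ℝ) ≤ c := by exact_mod_cast hc
  have hc' : (0 : ℝ) < c := by linarith
  have h3 : 0 < Real.sqrt n := Real.sqrt_pos.mpr hn'
  have h4 : 0 < Real.sqrt c := Real.sqrt_pos.mpr hc'
  have h5 : 0 < Real.sqrt X := Real.sqrt_pos.mpr hX'
  have h6 : 0 < Real.sqrt ((c : ℝ) + 1) := Real.sqrt_pos.mpr (by linarith)
  have hcast : ((c + 1 : ℕ) : ℝ) = (c : ℝ) + 1 := by push_cast; ring
  set A : ℂ := (Real.sqrt n : ℂ) * ((J (((c : ℝ) + 1) / n) - J (c / n)) /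
    (Real.sqrt ((c : ℝ) + 1) : ℂ)) with hA
  set B : ℂ := (Real.sqrt n : ℂ) * J (c / n) *
    (((Real.sqrt ((c : ℝ) + 1))⁻¹ - (Real.sqrt c)⁻¹ : ℝ) : ℂ) with hB
  have hdec : N23_g n J (c + 1) - N23_g n J c = A + B := by
    simp only [N23_g, hA, hB, hcast]
    push_cast
    have e1 : (Real.sqrt ((c : ℝ) + 1) : ℂ) ≠ 0 := by exact_mod_cast h6.ne'
    have e2 : (Real.sqrt (c : ℝ) : ℂ) ≠ 0 := by exact_mod_cast h4.ne'
    field_simp
    ring
  have hAle : ‖A‖ ≤ Real.sqrt n * n / (X ^ 2 * Real.sqrt X) := by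
    rw [hA, norm_mul, norm_div, Complex.norm_real, Complex.norm_real,
      Real.norm_of_nonneg (Real.sqrt_nonneg _), Real.norm_of_nonneg (Real.sqrt_nonneg _)]
    have h7 := hJ.lip (c / n) (((c : ℝ) + 1) / n) (by positivity) (by gcongr; linarith)
      (by rw [div_le_one hn']; exact_mod_cast hcn)
    rw [norm_sub_rev] at h7
    have h8 : (((c : ℝ) + 1) / n - c / n) / ((c : ℝ) / n) ^ 2 = n / (c : ℝ) ^ 2 := by
      field_simp
      ring
    rw [h8] at h7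
    calc Real.sqrt n * (‖J (((c : ℝ) + 1) / n) - J (c / n)‖ / Real.sqrt ((c : ℝ) + 1))
        ≤ Real.sqrt n * ((n / (c : ℝ) ^ 2) / Real.sqrt ((c : ℝ) + 1)) := by gcongr
      _ ≤ Real.sqrt n * ((n / (X : ℝ) ^ 2) / Real.sqrt X) := by
          gcongr
          linarith
      _ = Real.sqrt n * n / (X ^ 2 * Real.sqrt X) := by
          field_simp
  have hBle : ‖B‖ ≤ 1 / X := by
    rw [hB, norm_mul, norm_mul, Complex.norm_real, Complex.norm_real,
      Real.norm_of_nonneg (Real.sqrt_nonneg _), Real.norm_eq_abs]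
    have h1 := hJ.bd (c / n) (by positivity)
    rw [Real.sqrt_div hc'.le] at h1
    have h9 : |(Real.sqrt ((c : ℝ) + 1))⁻¹ - (Real.sqrt c)⁻¹| =
        (Real.sqrt c)⁻¹ - (Real.sqrt ((c : ℝ) + 1))⁻¹ := by
      rw [abs_of_nonpos, neg_sub]
      rw [sub_nonpos]
      exact inv_anti₀ h4 (Real.sqrt_le_sqrt (by linarith))
    rw [h9]
    have h10 : Real.sqrt n * (Real.sqrt c / Real.sqrt n) *
        ((Real.sqrt c)⁻¹ - (Real.sqrt ((c : ℝ) + 1))⁻¹) ≤ 1 / X := by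
      have e : Real.sqrt n * (Real.sqrt c / Real.sqrt n) *
        ((Real.sqrt c)⁻¹ - (Real.sqrt ((c : ℝ) + 1))⁻¹) =
        (Real.sqrt ((c : ℝ) + 1) - Real.sqrt c) / Real.sqrt ((c : ℝ) + 1) := by
        field_simp
      rw [e]
      have h11 : Real.sqrt ((c : ℝ) + 1) ^ 2 = (c : ℝ) + 1 := Real.sq_sqrt (by linarith)
      have h12 : Real.sqrt (c : ℝ) ^ 2 = (c : ℝ) := Real.sq_sqrt hc'.le
      have h13 : Real.sqrt (c : ℝ) ≤ Real.sqrt ((c : ℝ) + 1) := Real.sqrt_le_sqrt (by linarith)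
      rw [div_le_div_iff₀ h6 hX', one_mul]
      have h14 : (Real.sqrt ((c : ℝ) + 1) - Real.sqrt c) * Real.sqrt ((c : ℝ) + 1) ≤ 1 := by
        nlinarith
      have h15 : (X : ℝ) ≤ Real.sqrt ((c : ℝ) + 1) * Real.sqrt ((c : ℝ) + 1) := by nlinarith
      calc (Real.sqrt ((c : ℝ) + 1) - Real.sqrt c) * X
          ≤ (Real.sqrt ((c : ℝ) + 1) - Real.sqrt c) *
            (Real.sqrt ((c : ℝ) + 1) * Real.sqrt ((c : ℝ) + 1)) :=
            mul_le_mul_of_nonneg_left h15 (by linarith)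
        _ = ((Real.sqrt ((c : ℝ) + 1) - Real.sqrt c) * Real.sqrt ((c : ℝ) + 1)) *
            Real.sqrt ((c : ℝ) + 1) := by ring
        _ ≤ 1 * Real.sqrt ((c : ℝ) + 1) := mul_le_mul_of_nonneg_right h14 h6.le
        _ = Real.sqrt ((c : ℝ) + 1) := one_mul _
    refine le_trans ?_ h10
    have h16 : 0 ≤ (Real.sqrt c)⁻¹ - (Real.sqrt ((c : ℝ) + 1))⁻¹ := by
      rw [sub_nonneg]
      exact inv_anti₀ h4 (Real.sqrt_le_sqrt (by linarith))
    gcongr
  rw [hdec]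
  exact (norm_add_le _ _).trans (add_le_add hAle hBle)

/-- one step inside the block -/
private theorem N23_step {δ : ℝ} {J : ℝ → ℂ} (hJ : IsJ δ J) {n c X : ℕ} (s : ℤ)
    (hs : s = 1 ∨ s = -1) (hn : 0 < n) (hX : 0 < X) (hc : X ≤ c) (hcn : c + 1 ≤ n) :
    ‖N23_g n J (c + 1) * cexp (-(2 * π * I * s * n / (c + 1 : ℕ))) -
      N23_g n J c * cexp (-(2 * π * I * s * n / c))‖ ≤
    Real.sqrt n * n / (X ^ 2 * Real.sqrt X) + 1 / X + 2 * π * n / X ^ 2 := by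
  have hn' : (0 : ℝ) < n := by exact_mod_cast hn
  have hX' : (0 : ℝ) < X := by exact_mod_cast hX
  have hXc : (X : ℝ) ≤ c := by exact_mod_cast hc
  have hc' : (0 : ℝ) < c := by linarith
  set θ : ℕ → ℝ := fun d => 2 * π * s * n / d with hθ
  have hph : ∀ d : ℕ, cexp (-(2 * π * I * s * n / d)) = cexp (-(I * (θ d : ℝ))) := by
    intro d
    congr 2
    simp only [hθ]
    push_cast
    ring
  rw [hph, hph]
  have hdec : N23_g n J (c + 1) * cexp (-(I * (θ (c + 1) : ℝ))) -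
      N23_g n J c * cexp (-(I * (θ c : ℝ))) =
      (N23_g n J (c + 1) - N23_g n J c) * cexp (-(I * (θ (c + 1) : ℝ))) +
      N23_g n J c * (cexp (-(I * (θ (c + 1) : ℝ))) - cexp (-(I * (θ c : ℝ)))) := by ring
  rw [hdec]
  refine (norm_add_le _ _).trans (add_le_add ?_ ?_)
  · rw [norm_mul, N23_phase, mul_one]
    exact N23_g_sub hJ hn hX hc hcn
  · rw [norm_mul]
    have h1 := N23_g_le hJ hn (show 0 < c by omega)
    have h2 := N23_phase_sub (θ (c + 1)) (θ c)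
    have h3 : |θ (c + 1) - θ c| ≤ 2 * π * n / X ^ 2 := by
      have e : θ (c + 1) - θ c = -(s : ℝ) * (2 * π * n / ((c : ℝ) * ((c : ℝ) + 1))) := by
        simp only [hθ]
        push_cast
        field_simp
        ring
      rw [e, abs_mul, abs_neg]
      have hs1 : |(s : ℝ)| = 1 := by rcases hs with h | h <;> simp [h]
      rw [hs1, one_mul, abs_of_pos (by positivity)]
      have : (X : ℝ) ^ 2 ≤ (c : ℝ) * ((c : ℝ) + 1) := by nlinarith
      gcongr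
    calc ‖N23_g n J c‖ * ‖cexp (-(I * (θ (c + 1) : ℝ))) - cexp (-(I * (θ c : ℝ)))‖
        ≤ 1 * (2 * π * n / X ^ 2) :=
          mul_le_mul h1 (h2.trans h3) (norm_nonneg _) zero_le_one
      _ = 2 * π * n / X ^ 2 := one_mul _

private theorem N23_large : ∃ n0 : ℕ, ∀ n : ℕ, n0 ≤ n → 0 < n ∧
    (n : ℝ) ^ (3 / 2000 : ℝ) + 2 * π * (n : ℝ) ^ (1 / 1000 : ℝ) + 3 ≤ (n : ℝ) ^ (1 / 200 : ℝ) := by
  have h : ∀ᶠ x : ℝ in Filter.atTop, 20 ≤ x ^ (1 / 500 : ℝ) :=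
    (tendsto_rpow_atTop (by norm_num : (0 : ℝ) < 1 / 500)).eventually_ge_atTop 20
  obtain ⟨n0, hn0⟩ := Filter.eventually_atTop.mp (tendsto_natCast_atTop_atTop.eventually h)
  refine ⟨max n0 1, fun n hn => ?_⟩
  have hn1 : 1 ≤ n := le_trans (le_max_right _ _) hn
  have hn1' : (1 : ℝ) ≤ n := by exact_mod_cast hn1
  have h20 := hn0 n (le_trans (le_max_left _ _) hn)
  refine ⟨hn1, ?_⟩
  have hpos : (0 : ℝ) < n := by linarith
  set y : ℝ := (n : ℝ) ^ (3 / 2000 : ℝ) with hy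
  have hy1 : 1 ≤ y := Real.one_le_rpow hn1' (by norm_num)
  have h1 : (n : ℝ) ^ (1 / 1000 : ℝ) ≤ y := Real.rpow_le_rpow_of_exponent_le hn1' (by norm_num)
  have h2 : (n : ℝ) ^ (1 / 500 : ℝ) * y ≤ (n : ℝ) ^ (1 / 200 : ℝ) := by
    rw [hy, ← Real.rpow_add hpos]
    exact Real.rpow_le_rpow_of_exponent_le hn1' (by norm_num)
  have hpi : π ≤ 4 := Real.pi_le_four
  have hpi0 : 0 < π := Real.pi_pos
  calc y + 2 * π * (n : ℝ) ^ (1 / 1000 : ℝ) + 3 ≤ y + 2 * 4 * y + 3 * y := by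
        gcongr
        linarith
    _ = 12 * y := by ring
    _ ≤ (n : ℝ) ^ (1 / 500 : ℝ) * y := by nlinarith
    _ ≤ _ := h2

theorem wJ_BV : ∃ n0 : ℕ, ∀ n : ℕ, n0 ≤ n → ∀ X N : ℕ, (n : ℝ) ^ (999 / 1000 : ℝ) ≤ X →
    2 * N ≤ n → ∀ s : ℤ, (s = 1 ∨ s = -1) → ∀ (δ : ℝ) (J : ℝ → ℂ), IsJ δ J →
    BV (wJ n X N s J) ((n : ℝ) ^ (1 / 200 : ℝ)) := by
  obtain ⟨n0, hn0⟩ := N23_large
  refine ⟨n0, fun n hn X N hXn hN s hs δ J hJ => ?_⟩
  obtain ⟨hnpos, hbig⟩ := hn0 n hn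
  have hn' : (0 : ℝ) < n := by exact_mod_cast hnpos
  have hX' : (0 : ℝ) < X := lt_of_lt_of_le (by positivity) hXn
  have hX : 0 < X := by exact_mod_cast hX'
  have hw : ∀ c, wJ n X N s J c = if X ≤ c ∧ c < 2 * X ∧ c ≤ N then
      N23_g n J c * cexp (-(2 * π * I * s * n / c)) else 0 := fun c => rfl
  have hphn : ∀ d : ℕ, ‖cexp (-(2 * π * I * s * n / d))‖ = 1 := by
    intro d
    have : cexp (-(2 * π * I * s * n / d)) = cexp (-(I * ((2 * π * s * n / d : ℝ) : ℂ))) := by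
      congr 2
      push_cast
      ring
    rw [this, N23_phase]
  have hbd : ∀ b, ‖wJ n X N s J b‖ ≤ 1 := by
    intro b
    rw [hw]
    split_ifs with h
    · rw [norm_mul, hphn, mul_one]
      exact N23_g_le hJ hnpos (by omega)
    · simp
  refine ⟨hbd, fun R => ?_⟩
  set K : ℝ := Real.sqrt n * n / (X ^ 2 * Real.sqrt X) + 1 / X + 2 * π * n / X ^ 2 with hK
  have hK0 : 0 ≤ K := by positivity
  set L : ℕ := min (2 * X - 1) N with hL
  have hpt : ∀ b : ℕ, ‖wJ n X N s J (b + 1) - wJ n X N s J b‖ ≤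
      (if b = X - 1 then 1 else 0) + (if b = L then 1 else 0) +
      (if b ∈ Finset.Ico X (2 * X) then K else 0) := by
    intro b
    have hi1 : (0 : ℝ) ≤ if b = X - 1 then (1 : ℝ) else 0 := by split_ifs <;> norm_num
    have hi2 : (0 : ℝ) ≤ if b = L then (1 : ℝ) else 0 := by split_ifs <;> norm_num
    have hi3 : (0 : ℝ) ≤ if b ∈ Finset.Ico X (2 * X) then K else 0 := by
      split_ifs
      · exact hK0
      · exact le_rfl
    by_cases h1 : X ≤ b ∧ b < 2 * X ∧ b ≤ N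
    · by_cases h2 : X ≤ b + 1 ∧ b + 1 < 2 * X ∧ b + 1 ≤ N
      · have h3 := N23_step hJ s hs hnpos hX h1.1 (by omega)
        rw [hw, hw, if_pos h1, if_pos h2]
        have h4 : (if b ∈ Finset.Ico X (2 * X) then K else 0) = K :=
          if_pos (Finset.mem_Ico.mpr ⟨h1.1, h1.2.1⟩)
        rw [h4]
        linarith
      · have h5 : b = L := by omega
        have h6 : (if b = L then (1 : ℝ) else 0) = 1 := if_pos h5
        rw [h6, hw (b + 1), if_neg h2, zero_sub, norm_neg]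
        have := hbd b
        linarith
    · by_cases h2 : X ≤ b + 1 ∧ b + 1 < 2 * X ∧ b + 1 ≤ N
      · have h5 : b = X - 1 := by omega
        have h6 : (if b = X - 1 then (1 : ℝ) else 0) = 1 := if_pos h5
        rw [h6, hw b, if_neg h1, sub_zero]
        have := hbd (b + 1)
        linarith
      · rw [hw, hw, if_neg h1, if_neg h2, sub_zero, norm_zero]
        linarith
  refine (Finset.sum_le_sum fun b _ => hpt b).trans ?_
  rw [Finset.sum_add_distrib, Finset.sum_add_distrib]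
  have hs1 : ∑ b ∈ Finset.range R, (if b = X - 1 then (1 : ℝ) else 0) ≤ 1 := by
    rw [Finset.sum_ite_eq']
    split_ifs <;> norm_num
  have hs2 : ∑ b ∈ Finset.range R, (if b = L then (1 : ℝ) else 0) ≤ 1 := by
    rw [Finset.sum_ite_eq']
    split_ifs <;> norm_num
  have hs3 : ∑ b ∈ Finset.range R, (if b ∈ Finset.Ico X (2 * X) then K else 0) ≤ X * K := by
    rw [← Finset.sum_filter, Finset.sum_const, nsmul_eq_mul]
    have hcard : ((Finset.range R).filter fun b => b ∈ Finset.Ico X (2 * X)).card ≤ X := by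
      have : ((Finset.range R).filter fun b => b ∈ Finset.Ico X (2 * X)) ⊆
          Finset.Ico X (2 * X) := fun b hb => (Finset.mem_filter.mp hb).2
      have h7 := Finset.card_le_card this
      rw [Nat.card_Ico] at h7
      omega
    exact mul_le_mul_of_nonneg_right (by exact_mod_cast hcard) hK0
  have hXK : (X : ℝ) * K ≤ (n : ℝ) ^ (3 / 2000 : ℝ) + 1 + 2 * π * (n : ℝ) ^ (1 / 1000 : ℝ) := by
    have hq : (n : ℝ) / X ≤ (n : ℝ) ^ (1 / 1000 : ℝ) := by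
      rw [div_le_iff₀ hX']
      calc (n : ℝ) = (n : ℝ) ^ (1 / 1000 : ℝ) * (n : ℝ) ^ (999 / 1000 : ℝ) := by
            rw [← Real.rpow_add hn']
            norm_num
        _ ≤ (n : ℝ) ^ (1 / 1000 : ℝ) * X := by gcongr
    have hsqX : 0 < Real.sqrt X := Real.sqrt_pos.mpr hX'
    have hq0 : 0 ≤ (n : ℝ) / X := by positivity
    have e1 : (X : ℝ) * K = (n : ℝ) / X * (Real.sqrt n / Real.sqrt X) + 1 +
        2 * π * ((n : ℝ) / X) := by
      rw [hK]
      field_simp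
    rw [e1]
    have h8 : Real.sqrt n / Real.sqrt X ≤ (n : ℝ) ^ (1 / 2000 : ℝ) := by
      rw [← Real.sqrt_div hn'.le]
      calc Real.sqrt ((n : ℝ) / X) ≤ Real.sqrt ((n : ℝ) ^ (1 / 1000 : ℝ)) :=
            Real.sqrt_le_sqrt hq
        _ = (n : ℝ) ^ (1 / 2000 : ℝ) := by
            rw [Real.sqrt_eq_rpow, ← Real.rpow_mul hn'.le]
            norm_num
    have h9 : (n : ℝ) / X * (Real.sqrt n / Real.sqrt X) ≤ (n : ℝ) ^ (3 / 2000 : ℝ) := by
      calc (n : ℝ) / X * (Real.sqrt n / Real.sqrt X)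
          ≤ (n : ℝ) ^ (1 / 1000 : ℝ) * (n : ℝ) ^ (1 / 2000 : ℝ) := by gcongr
        _ = (n : ℝ) ^ (3 / 2000 : ℝ) := by
            rw [← Real.rpow_add hn']
            norm_num
    have hpi0 : 0 < π := Real.pi_pos
    gcongr
  linarith

end RV11
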