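import Pool.Agent.LibRV11.N21
import Pool.Agent.LibRV11.N23
import Pool.Agent.LibRV11.N10c

open Complex Real

namespace RV11

/-- the coefficients -/
noncomputable def N24a_al (n : ℕ) (a : ℕ) : ℂ := ((jacobiSym n a : ℤ) : ℂ)

noncomputable def N24a_Ga (n c0 : ℕ) (s : ℤ) (v : ZMod (2 * c0)) : ℂ :=
  Gm n c0 s v / (Real.sqrt c0 : ℂ)

theorem N24a_al_norm (n a : ℕ) : ‖N24a_al n a‖ ≤ 1 := by
  unfold N24a_al
  rcases jacobiSym.trichotomy n a with h | h | h <;> rw [h] <;> simp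

theorem N24a_dat {n X N c0 : ℕ} (hn : 1 ≤ n) (hX : (n : ℝ) ^ (999 / 1000 : ℝ) ≤ X) (hXN : X ≤ N)
    (hN : 2 * N ≤ n) (h0 : Sm n c0) (hc0 : (c0 : ℝ) ≤ (n : ℝ) ^ (1 / 400 : ℝ))
    {J : ℝ → ℂ} {ε : ℕ → ℂ} (hε : ∀ m, ‖ε m‖ ≤ 1) {s : ℤ} (hs : s = 1 ∨ s = -1)
    (hw : BV (wJ n X N s J) ((n : ℝ) ^ (1 / 200 : ℝ))) :
    Dat n X c0 s (N24a_Ga n c0 s) (N24a_al n) (N24a_al n) ε (wJ n X N s J) where
  X1 := hX
  X2 := by omega
  sm := h0
  c0le := hc0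
  hs := hs
  hΓ := by
    intro v
    unfold N24a_Ga
    have hc0' : (0 : ℝ) < c0 := by exact_mod_cast Nat.pos_of_ne_zero h0.1
    have h1 : 0 < Real.sqrt c0 := Real.sqrt_pos.mpr hc0'
    rw [norm_div, Complex.norm_real, Real.norm_eq_abs, abs_of_pos h1, div_le_one h1]
    exact Gm_bound n c0 h0.1 s v
  hα := N24a_al_norm n
  hβ := by
    intro x y hx hy
    unfold N24a_al
    rw [jacobiSym.mul_right' _ hx hy]
    push_cast; ring
  hβ1 := by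
    intro x hx
    unfold N24a_al
    have h1 : Nat.Coprime n x := (Nat.Coprime.coprime_mul_left_right hx).symm
    have h2 : Int.gcd (n : ℤ) (x : ℤ) = 1 := by simpa using h1
    rcases jacobiSym.eq_one_or_neg_one h2 with h | h <;> rw [h] <;> simp
  hε := hε
  hw := hw
  supp := by
    intro c hc
    unfold wJ at hc
    by_contra hcon
    apply hc
    rw [if_neg]
    tauto

/-- the sum over `m` -/
noncomputable def N24a_G (n X N c0 : ℕ) (s : ℤ) (J : ℝ → ℂ) (ε : ℕ → ℂ) (a b : ℕ) : ℂ :=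
  ∑ m ∈ (MM n).filter (fun m => m ∣ a * b),
    Fs n c0 s (N24a_Ga n c0 s) (N24a_al n) (N24a_al n) ε (wJ n X N s J) a b m

theorem N24a_G_ne {n X N c0 : ℕ} {s : ℤ} {J : ℝ → ℂ} {ε : ℕ → ℂ} {a b : ℕ}
    (h : N24a_G n X N c0 s J ε a b ≠ 0) :
    X ≤ c0 * a * b ∧ c0 * a * b < 2 * X ∧ c0 * a * b ≤ N := by
  by_contra hcon
  apply h
  unfold N24a_G
  apply Finset.sum_eq_zero
  intro m _
  unfold Fs
  have : wJ n X N s J (c0 * a * b) = 0 := by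
    unfold wJ; rw [if_neg hcon]
  rw [this]; ring

theorem N24a_dvd {n c0 k m : ℕ} (h0 : Sm n c0) (hm : m ∈ MM n) : m ∣ c0 * k ↔ m ∣ k := by
  unfold MM at hm
  simp only [Finset.mem_filter, Finset.mem_Ico] at hm
  have hcop : Nat.Coprime m c0 := by
    by_contra h
    obtain ⟨p, hp, h2, h3⟩ := Nat.Prime.not_coprime_iff_dvd.mp h
    have h4 := h0.2 p hp h3
    have h5 : p ∣ Nat.gcd m (2 * n) := Nat.dvd_gcd h2 h4
    rw [hm.2] at h5
    exact absurd (Nat.dvd_one.mp h5) hp.one_lt.ne'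
  exact ⟨fun h => hcop.dvd_of_dvd_mul_left h, fun h => Dvd.dvd.mul_left h c0⟩

/-- termwise identity -/
theorem N24a_term {n X N c0 c1 : ℕ} (hn : 1 ≤ n) (h0 : Sm n c0) (h1 : Nat.Coprime c1 (2 * n))
    (hN : c0 * c1 ≤ N) (hc1 : X ≤ c0 * c1 → 1 < c1) (J : ℝ → ℂ) (ε : ℕ → ℂ) :
    (if X ≤ c0 * c1 ∧ c0 * c1 < 2 * X then
        Kst n (c0 * c1) * (J ((c0 * c1 : ℕ) / n) / (Real.sqrt (c0 * c1 : ℕ) : ℂ)) *
          ∑ m ∈ (MM n).filter (fun m => m ∣ c0 * c1), ε m * (sg m : ℂ) else 0) =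
      ((Real.sqrt c0 : ℂ) / Real.sqrt n) * ∑ s ∈ ({1, -1} : Finset ℤ),
        ∑ p ∈ c1.divisorsAntidiagonal.filter (fun p => p.1 < p.2 ∧ Nat.Coprime p.1 p.2),
          N24a_G n X N c0 s J ε p.1 p.2 := by
  have hc0' : (0 : ℝ) < c0 := by exact_mod_cast Nat.pos_of_ne_zero h0.1
  have hn' : (0 : ℝ) < n := by exact_mod_cast hn
  have hs0 : ((Real.sqrt c0 : ℝ) : ℂ) ≠ 0 := by exact_mod_cast (Real.sqrt_pos.mpr hc0').ne'
  have hs1 : ((Real.sqrt n : ℝ) : ℂ) ≠ 0 := by exact_mod_cast (Real.sqrt_pos.mpr hn').ne'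
  split_ifs with hX
  · rw [Kst_pairs n c0 c1 h0 h1 (hc1 hX.1), Finset.sum_mul, Finset.sum_mul, Finset.mul_sum]
    apply Finset.sum_congr rfl
    intro s _
    rw [Finset.sum_mul, Finset.sum_mul, Finset.mul_sum]
    apply Finset.sum_congr rfl
    intro p hp
    simp only [Finset.mem_filter, Nat.mem_divisorsAntidiagonal] at hp
    obtain ⟨⟨hp1, hc10⟩, hp2, hp3⟩ := hp
    have hcp : c0 * c1 = c0 * p.1 * p.2 := by rw [← hp1]; ring
    have hfil : (MM n).filter (fun m => m ∣ c0 * c1) = (MM n).filter (fun m => m ∣ p.1 * p.2) := by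
      apply Finset.filter_congr
      intro m hm
      rw [N24a_dvd h0 hm, hp1]
    have hw : wJ n X N s J (c0 * p.1 * p.2) =
        (Real.sqrt n : ℂ) * (J ((c0 * c1 : ℕ) / n) / (Real.sqrt (c0 * c1 : ℕ) : ℂ)) *
          cexp (-(2 * π * I * s * n / (c0 * p.1 * p.2))) := by
      unfold wJ
      rw [← hcp, if_pos ⟨hX.1, hX.2, hN⟩]
      have : ((c0 * c1 : ℕ) : ℂ) = (c0 : ℂ) * p.1 * p.2 := by rw [hcp]; push_cast; ring
      rw [this]
    unfold N24a_G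
    rw [hfil, Finset.mul_sum, Finset.mul_sum]
    apply Finset.sum_congr rfl
    intro m _
    unfold Fs N24a_Ga N24a_al
    rw [hw]
    field_simp
  · symm
    have : ∀ s ∈ ({1, -1} : Finset ℤ),
        ∑ p ∈ c1.divisorsAntidiagonal.filter (fun p => p.1 < p.2 ∧ Nat.Coprime p.1 p.2),
          N24a_G n X N c0 s J ε p.1 p.2 = 0 := by
      intro s _
      apply Finset.sum_eq_zero
      intro p hp
      simp only [Finset.mem_filter, Nat.mem_divisorsAntidiagonal] at hp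
      by_contra hne
      obtain ⟨e1, e2, -⟩ := N24a_G_ne hne
      apply hX
      have hcp : c0 * c1 = c0 * p.1 * p.2 := by rw [← hp.1.1]; ring
      rw [hcp]
      exact ⟨e1, e2⟩
    rw [Finset.sum_eq_zero this, mul_zero]

/-- reindexing -/
theorem N24a_reindex {n X N c0 : ℕ} (h0 : Sm n c0) (s : ℤ) (J : ℝ → ℂ) (ε : ℕ → ℂ) :
    ∑ c1 ∈ (Finset.Icc 1 N).filter (fun c1 => Nat.Coprime c1 (2 * n) ∧ c0 * c1 ≤ N),
      ∑ p ∈ c1.divisorsAntidiagonal.filter (fun p => p.1 < p.2 ∧ Nat.Coprime p.1 p.2),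
          N24a_G n X N c0 s J ε p.1 p.2 =
    ∑ a ∈ Finset.Icc 1 (2 * X),
      ∑ b ∈ (Finset.Icc 1 (2 * X)).filter (fun b => a < b ∧ Nat.Coprime a b ∧
          Nat.Coprime (a * b) (2 * n)), N24a_G n X N c0 s J ε a b := by
  have hc0 : 1 ≤ c0 := Nat.one_le_iff_ne_zero.mpr h0.1
  rw [Finset.sum_sigma', Finset.sum_sigma']
  refine Finset.sum_bij_ne_zero (fun x _ _ => (⟨x.2.1, x.2.2⟩ : (_ : ℕ) × ℕ)) ?_ ?_ ?_ ?_
  · rintro ⟨c1, p⟩ hx hne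
    simp only [Finset.mem_sigma, Finset.mem_filter, Finset.mem_Icc,
      Nat.mem_divisorsAntidiagonal] at hx hne ⊢
    obtain ⟨⟨⟨hc1, -⟩, hcop, hN⟩, ⟨hp1, hc10⟩, hp2, hp3⟩ := hx
    obtain ⟨e1, e2, e3⟩ := N24a_G_ne hne
    have ha : 1 ≤ p.1 := by
      rcases Nat.eq_zero_or_pos p.1 with h | h
      · rw [h, zero_mul] at hp1; omega
      · exact h
    have hb : 1 ≤ p.2 := by omega
    have h3 : p.1 ≤ c0 * p.1 * p.2 := by
      calc p.1 = 1 * p.1 * 1 := by ring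
        _ ≤ c0 * p.1 * p.2 := Nat.mul_le_mul (Nat.mul_le_mul_right _ hc0) hb
    have h4 : p.2 ≤ c0 * p.1 * p.2 := by
      calc p.2 = 1 * 1 * p.2 := by ring
        _ ≤ c0 * p.1 * p.2 := Nat.mul_le_mul_right _ (Nat.mul_le_mul hc0 ha)
    refine ⟨⟨ha, by omega⟩, ⟨hb, by omega⟩, hp2, hp3, ?_⟩
    rw [hp1]; exact hcop
  · rintro ⟨c1, p⟩ hx hne ⟨d1, q⟩ hy hne' hxy
    simp only [Finset.mem_sigma, Finset.mem_filter, Finset.mem_Icc,
      Nat.mem_divisorsAntidiagonal] at hx hy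
    simp only [Sigma.mk.injEq, heq_eq_eq] at hxy
    have hpq : p = q := Prod.ext hxy.1 hxy.2
    subst hpq
    have : c1 = d1 := by rw [← hx.2.1.1, ← hy.2.1.1]
    subst this
    rfl
  · rintro ⟨a, b⟩ hy hne
    simp only [Finset.mem_sigma, Finset.mem_filter, Finset.mem_Icc] at hy hne
    obtain ⟨⟨ha, -⟩, ⟨hb, -⟩, hab, hcop, hcop2⟩ := hy
    obtain ⟨e1, e2, e3⟩ := N24a_G_ne hne
    have hab0 : 1 ≤ a * b := Nat.mul_pos ha hb
    have hle : a * b ≤ c0 * a * b := by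
      rw [mul_assoc]; exact Nat.le_mul_of_pos_left _ hc0
    refine ⟨⟨a * b, (a, b)⟩, ?_, hne, rfl⟩
    simp only [Finset.mem_sigma, Finset.mem_filter, Finset.mem_Icc,
      Nat.mem_divisorsAntidiagonal]
    refine ⟨⟨⟨hab0, by omega⟩, hcop2, ?_⟩, ⟨trivial, by omega⟩, hab, hcop⟩
    rw [← mul_assoc]; exact e3
  · rintro ⟨c1, p⟩ _ _
    rfl

/-- one block, fixed small `c0` -/
theorem c0_small : ∃ (C : ℝ) (n0 : ℕ), 1 ≤ C ∧ ∀ n : ℕ, n0 ≤ n → ∀ X N c0 : ℕ,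
    (n : ℝ) ^ (999 / 1000 : ℝ) ≤ X → X ≤ N → 2 * N ≤ n → Sm n c0 →
    (c0 : ℝ) ≤ (n : ℝ) ^ (1 / 400 : ℝ) → ∀ (δ : ℝ) (J : ℝ → ℂ), IsJ δ J →
    ∀ ε : ℕ → ℂ, (∀ m, ‖ε m‖ ≤ 1) →
    ‖∑ c1 ∈ (Finset.Icc 1 N).filter (fun c1 => Nat.Coprime c1 (2 * n) ∧ c0 * c1 ≤ N),
      (if X ≤ c0 * c1 ∧ c0 * c1 < 2 * X then
        Kst n (c0 * c1) * (J ((c0 * c1 : ℕ) / n) / (Real.sqrt (c0 * c1 : ℕ) : ℂ)) *
          ∑ m ∈ (MM n).filter (fun m => m ∣ c0 * c1), ε m * (sg m : ℂ) else 0)‖ ≤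
    C * X * Mn n / (Real.sqrt c0 * Real.sqrt n) * (ff n ^ 2 + (n : ℝ) ^ (-(1 / 300) : ℝ)) := by
  obtain ⟨C, n1, hC, hB⟩ := BIL
  obtain ⟨n2, hw⟩ := wJ_BV
  refine ⟨2 * C, max (max n1 n2) 2, by linarith, ?_⟩
  intro n hn X N c0 hX hXN hN h0 hc0 δ J hJ ε hε
  have hn1 : n1 ≤ n := (le_max_left _ _).trans ((le_max_left _ _).trans hn)
  have hn2 : n2 ≤ n := (le_max_right _ _).trans ((le_max_left _ _).trans hn)
  have hn3 : 2 ≤ n := (le_max_right _ _).trans hn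
  have hnR : (1 : ℝ) < n := by exact_mod_cast (by omega : 1 < n)
  have hnpos : (0 : ℝ) < n := by linarith
  have hc0pos : (0 : ℝ) < c0 := by exact_mod_cast Nat.pos_of_ne_zero h0.1
  have hc1 : ∀ c1 : ℕ, X ≤ c0 * c1 → 1 < c1 := by
    intro c1 h
    by_contra hcon
    have h1 : c1 ≤ 1 := by omega
    have h2 : (X : ℝ) ≤ c0 := by
      have : X ≤ c0 := h.trans (by nlinarith)
      exact_mod_cast this
    have h3 : (n : ℝ) ^ (1 / 400 : ℝ) < (n : ℝ) ^ (999 / 1000 : ℝ) :=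
      Real.rpow_lt_rpow_of_exponent_lt hnR (by norm_num)
    linarith
  have hterm : ∑ c1 ∈ (Finset.Icc 1 N).filter (fun c1 => Nat.Coprime c1 (2 * n) ∧ c0 * c1 ≤ N),
      (if X ≤ c0 * c1 ∧ c0 * c1 < 2 * X then
        Kst n (c0 * c1) * (J ((c0 * c1 : ℕ) / n) / (Real.sqrt (c0 * c1 : ℕ) : ℂ)) *
          ∑ m ∈ (MM n).filter (fun m => m ∣ c0 * c1), ε m * (sg m : ℂ) else 0) =
      ((Real.sqrt c0 : ℂ) / Real.sqrt n) * ∑ s ∈ ({1, -1} : Finset ℤ),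
        ∑ a ∈ Finset.Icc 1 (2 * X),
      ∑ b ∈ (Finset.Icc 1 (2 * X)).filter (fun b => a < b ∧ Nat.Coprime a b ∧
          Nat.Coprime (a * b) (2 * n)), N24a_G n X N c0 s J ε a b := by
    rw [Finset.sum_congr rfl (g := fun c1 => ((Real.sqrt c0 : ℂ) / Real.sqrt n) *
        ∑ s ∈ ({1, -1} : Finset ℤ),
        ∑ p ∈ c1.divisorsAntidiagonal.filter (fun p => p.1 < p.2 ∧ Nat.Coprime p.1 p.2),
          N24a_G n X N c0 s J ε p.1 p.2)]
    · rw [← Finset.mul_sum, Finset.sum_comm]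
      congr 1
      apply Finset.sum_congr rfl
      intro s _
      exact N24a_reindex h0 s J ε
    · intro c1 hc
      simp only [Finset.mem_filter, Finset.mem_Icc] at hc
      exact N24a_term (by omega) h0 hc.2.1 hc.2.2 (hc1 c1) J ε
  rw [hterm, norm_mul]
  set E : ℝ := C * X * Mn n / c0 * (ff n ^ 2 + (n : ℝ) ^ (-(1 / 300) : ℝ)) with hE
  have hs : ∀ s ∈ ({1, -1} : Finset ℤ), ‖∑ a ∈ Finset.Icc 1 (2 * X),
      ∑ b ∈ (Finset.Icc 1 (2 * X)).filter (fun b => a < b ∧ Nat.Coprime a b ∧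
          Nat.Coprime (a * b) (2 * n)), N24a_G n X N c0 s J ε a b‖ ≤ E := by
    intro s hs
    have hs' : s = 1 ∨ s = -1 := by simpa using hs
    exact hB n X c0 s _ _ _ ε _ hn1
      (N24a_dat (by omega) hX hXN hN h0 hc0 hε hs' (hw n hn2 X N hX hN s hs' δ J hJ))
  have h2 : ‖∑ s ∈ ({1, -1} : Finset ℤ), ∑ a ∈ Finset.Icc 1 (2 * X),
      ∑ b ∈ (Finset.Icc 1 (2 * X)).filter (fun b => a < b ∧ Nat.Coprime a b ∧
          Nat.Coprime (a * b) (2 * n)), N24a_G n X N c0 s J ε a b‖ ≤ 2 * E := by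
    refine (norm_sum_le_of_le _ hs).trans ?_
    rw [Finset.sum_const, nsmul_eq_mul]
    have : ({1, -1} : Finset ℤ).card = 2 := by decide
    rw [this]; norm_num
  have h3 : ‖(Real.sqrt c0 : ℂ) / Real.sqrt n‖ = Real.sqrt c0 / Real.sqrt n := by
    rw [norm_div, Complex.norm_real, Complex.norm_real, Real.norm_eq_abs, Real.norm_eq_abs,
      abs_of_nonneg (Real.sqrt_nonneg _), abs_of_nonneg (Real.sqrt_nonneg _)]
  rw [h3]
  calc Real.sqrt c0 / Real.sqrt n * _ ≤ Real.sqrt c0 / Real.sqrt n * (2 * E) :=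
        mul_le_mul_of_nonneg_left h2 (by positivity)
    _ = _ := by
        have hsq : Real.sqrt c0 * Real.sqrt c0 = c0 := Real.mul_self_sqrt hc0pos.le
        have hs0 : 0 < Real.sqrt c0 := Real.sqrt_pos.mpr hc0pos
        have hs1 : 0 < Real.sqrt n := Real.sqrt_pos.mpr hnpos
        have h6 : C * X * Mn n / (c0 : ℝ) = C * X * Mn n / (Real.sqrt c0 * Real.sqrt c0) := by
          rw [hsq]
        rw [hE, h6]
        field_simp

end RV11
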