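import Pool.Agent.LibRV11.N10b
import Pool.Agent.LibRV11.N13e
import Pool.Agent.LibRV11.N13f
import Pool.Agent.LibRV11.N23

open Complex Real

namespace RV11

/-- `‖J(c/n)/√c‖ ≤ 1/√n` -/
theorem N24b_J {δ : ℝ} {J : ℝ → ℂ} (hJ : IsJ δ J) {n c : ℕ} (hn : 1 ≤ n) (hc : 1 ≤ c) :
    ‖J ((c : ℕ) / n) / (Real.sqrt (c : ℕ) : ℂ)‖ ≤ 1 / Real.sqrt n := by
  have hn0 : (0 : ℝ) < n := by exact_mod_cast hn
  have hc0 : (0 : ℝ) < c := by exact_mod_cast hc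
  have h1 := hJ.bd ((c : ℝ) / n) (by positivity)
  rw [Real.sqrt_div hc0.le] at h1
  rw [norm_div, Complex.norm_real, Real.norm_eq_abs, abs_of_nonneg (Real.sqrt_nonneg _),
    div_le_iff₀ (Real.sqrt_pos.mpr hc0)]
  refine h1.trans (le_of_eq ?_)
  ring

/-- one value of `c0` -/
theorem N24b_inner {n X N c0 : ℕ} (hn : 1 ≤ n) (hXN : X ≤ N) (hN : 2 * N ≤ n) (h0 : Sm n c0)
    {δ : ℝ} {J : ℝ → ℂ} (hJ : IsJ δ J) {ε : ℕ → ℂ} (hε : ∀ m, ‖ε m‖ ≤ 1) {T : ℝ} (hT0 : 1 ≤ T)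
    (hT : ∀ c : ℕ, 1 ≤ c → c ≤ n → tau c ≤ T) :
    ‖∑ c1 ∈ (Finset.Icc 1 N).filter (fun c1 => Nat.Coprime c1 (2 * n) ∧ c0 * c1 ≤ N),
      (if X ≤ c0 * c1 ∧ c0 * c1 < 2 * X then
        Kst n (c0 * c1) * (J ((c0 * c1 : ℕ) / n) / (Real.sqrt (c0 * c1 : ℕ) : ℂ)) *
          ∑ m ∈ (MM n).filter (fun m => m ∣ c0 * c1), ε m * (sg m : ℂ) else 0)‖ ≤
    4 * T ^ 3 * (X * Mn n / Real.sqrt n) * (1 / Real.sqrt c0) := by
  have hc0 : 0 < c0 := Nat.pos_of_ne_zero h0.1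
  have hc0R : (0 : ℝ) < c0 := by exact_mod_cast hc0
  have hn0 : (0 : ℝ) < n := by exact_mod_cast hn
  set B : ℝ := (Real.sqrt c0 * T) * (1 / Real.sqrt n) * (2 * Mn n * T ^ 2) with hB
  have hB0 : 0 ≤ B := by positivity
  have h1 : ∀ c1 ∈ (Finset.Icc 1 N).filter (fun c1 => Nat.Coprime c1 (2 * n) ∧ c0 * c1 ≤ N),
      ‖(if X ≤ c0 * c1 ∧ c0 * c1 < 2 * X then
        Kst n (c0 * c1) * (J ((c0 * c1 : ℕ) / n) / (Real.sqrt (c0 * c1 : ℕ) : ℂ)) *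
          ∑ m ∈ (MM n).filter (fun m => m ∣ c0 * c1), ε m * (sg m : ℂ) else 0)‖ ≤
      if c0 * c1 < 2 * X then B else 0 := by
    intro c1 hc1
    simp only [Finset.mem_filter, Finset.mem_Icc] at hc1
    by_cases hX : X ≤ c0 * c1 ∧ c0 * c1 < 2 * X
    · rw [if_pos hX, if_pos hX.2, norm_mul, norm_mul]
      have hcc : 1 ≤ c0 * c1 := Nat.mul_pos hc0 (by omega)
      have a1 : ‖Kst n (c0 * c1)‖ ≤ Real.sqrt c0 * T :=
        (Kst_bound n c0 c1 h0 hc1.2.1 (by omega)).trans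
          (mul_le_mul_of_nonneg_left (hT c1 hc1.1.1 (by omega)) (Real.sqrt_nonneg _))
      have a2 := N24b_J hJ hn hcc
      have a3 : ‖∑ m ∈ (MM n).filter (fun m => m ∣ c0 * c1), ε m * (sg m : ℂ)‖ ≤
          2 * Mn n * T ^ 2 := by
        refine (sum_MM_dvd ε hε n (c0 * c1) hcc).trans ?_
        have h5 := hT (c0 * c1) hcc (by omega)
        have h6 : 1 ≤ tau (c0 * c1) := tau_pos _ hcc
        gcongr
      exact mul_le_mul (mul_le_mul a1 a2 (norm_nonneg _) (by positivity)) a3 (norm_nonneg _)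
        (by positivity)
    · rw [if_neg hX, norm_zero]
      split_ifs
      · exact hB0
      · exact le_rfl
  refine (norm_sum_le _ _).trans ((Finset.sum_le_sum h1).trans ?_)
  rw [← Finset.sum_filter, Finset.sum_const, nsmul_eq_mul]
  have h2 : ((((Finset.Icc 1 N).filter (fun c1 => Nat.Coprime c1 (2 * n) ∧ c0 * c1 ≤ N)).filter
      (fun c1 => c0 * c1 < 2 * X)).card : ℝ) ≤ 2 * X / c0 := by
    have h3 : ((Finset.Icc 1 N).filter (fun c1 => Nat.Coprime c1 (2 * n) ∧ c0 * c1 ≤ N)).filter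
      (fun c1 => c0 * c1 < 2 * X) ⊆ Finset.Icc 1 (2 * X / c0) := by
      intro c1 hc1
      simp only [Finset.mem_filter, Finset.mem_Icc] at hc1 ⊢
      exact ⟨hc1.1.1.1, (Nat.le_div_iff_mul_le hc0).mpr (by rw [mul_comm]; omega)⟩
    have h4 := Finset.card_le_card h3
    rw [Nat.card_Icc, Nat.add_sub_cancel] at h4
    calc _ ≤ ((2 * X / c0 : ℕ) : ℝ) := by exact_mod_cast h4
      _ ≤ ((2 * X : ℕ) : ℝ) / c0 := Nat.cast_div_le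
      _ = 2 * X / c0 := by push_cast; ring
  have h5 : (2 * (X : ℝ) / c0) * B =
      4 * T ^ 3 * (X * Mn n / Real.sqrt n) * (1 / Real.sqrt c0) := by
    have hs : Real.sqrt c0 * Real.sqrt c0 = c0 := Real.mul_self_sqrt hc0R.le
    have hs0 : 0 < Real.sqrt c0 := Real.sqrt_pos.mpr hc0R
    have hs1 : 0 < Real.sqrt n := Real.sqrt_pos.mpr hn0
    have h6 : (2 * (X : ℝ) / c0) = 2 * X / (Real.sqrt c0 * Real.sqrt c0) := by rw [hs]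
    rw [h6, hB]; field_simp; ring
  rw [← h5]
  exact mul_le_mul_of_nonneg_right h2 hB0

/-- a power of `n` beats a constant -/
theorem N24b_large (K κ : ℝ) (hκ : 0 < κ) : ∃ n0 : ℕ, 1 ≤ n0 ∧ ∀ n : ℕ, n0 ≤ n →
    K ≤ (n : ℝ) ^ κ := by
  have h := (tendsto_rpow_atTop hκ).comp tendsto_natCast_atTop_atTop
  obtain ⟨n0, hn0⟩ := Filter.eventually_atTop.mp (h.eventually_ge_atTop K)
  exact ⟨max n0 1, le_max_right _ _, fun n hn => hn0 n ((le_max_left _ _).trans hn)⟩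

open Classical in
/-- one block, large `c0` -/
theorem c0_large : ∃ (n0 : ℕ), ∀ n : ℕ, n0 ≤ n → ∀ X N : ℕ, X ≤ N → 2 * N ≤ n →
    ∀ (δ : ℝ) (J : ℝ → ℂ), IsJ δ J → ∀ ε : ℕ → ℂ, (∀ m, ‖ε m‖ ≤ 1) →
    ∑ c0 ∈ (Finset.Icc 1 N).filter (fun c0 => Sm n c0 ∧ (n : ℝ) ^ (1 / 400 : ℝ) < (c0 : ℝ)),
      ‖∑ c1 ∈ (Finset.Icc 1 N).filter (fun c1 => Nat.Coprime c1 (2 * n) ∧ c0 * c1 ≤ N),
      (if X ≤ c0 * c1 ∧ c0 * c1 < 2 * X then
        Kst n (c0 * c1) * (J ((c0 * c1 : ℕ) / n) / (Real.sqrt (c0 * c1 : ℕ) : ℂ)) *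
          ∑ m ∈ (MM n).filter (fun m => m ∣ c0 * c1), ε m * (sg m : ℂ) else 0)‖ ≤
    X * Mn n / Real.sqrt n * (n : ℝ) ^ (-(1 / 4000) : ℝ) := by
  obtain ⟨C1, hC1, h1⟩ := tau_bound (1 / 100000) (by norm_num)
  obtain ⟨C2, hC2, h2⟩ := sf_tail (1 / 100000) (by norm_num)
  obtain ⟨n0, hn01, hn0⟩ := N24b_large (4 * C1 ^ 3 * C2) (9 / 400000) (by norm_num)
  refine ⟨n0, ?_⟩
  intro n hn X N hXN hN δ J hJ ε hε
  have hn1 : 1 ≤ n := hn01.trans hn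
  have hnR : (1 : ℝ) ≤ n := by exact_mod_cast hn1
  have hnpos : (0 : ℝ) < n := by linarith
  set T : ℝ := C1 * (n : ℝ) ^ (1 / 100000 : ℝ) with hT
  have hT0 : 1 ≤ T := one_le_mul_of_one_le_of_one_le hC1 (Real.one_le_rpow hnR (by norm_num))
  have hTb : ∀ c : ℕ, 1 ≤ c → c ≤ n → tau c ≤ T := by
    intro c ha hb
    refine (h1 c ha).trans ?_
    have : (c : ℝ) ≤ n := by exact_mod_cast hb
    have hc0 : (0 : ℝ) ≤ c := Nat.cast_nonneg _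
    exact mul_le_mul_of_nonneg_left (Real.rpow_le_rpow hc0 this (by norm_num)) (by linarith)
  set A : ℝ := X * Mn n / Real.sqrt n with hA
  have hA0 : 0 ≤ A := by positivity
  have hterm : ∀ c0 ∈ (Finset.Icc 1 N).filter
      (fun c0 => Sm n c0 ∧ (n : ℝ) ^ (1 / 400 : ℝ) < (c0 : ℝ)),
      ‖∑ c1 ∈ (Finset.Icc 1 N).filter (fun c1 => Nat.Coprime c1 (2 * n) ∧ c0 * c1 ≤ N),
      (if X ≤ c0 * c1 ∧ c0 * c1 < 2 * X then
        Kst n (c0 * c1) * (J ((c0 * c1 : ℕ) / n) / (Real.sqrt (c0 * c1 : ℕ) : ℂ)) *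
          ∑ m ∈ (MM n).filter (fun m => m ∣ c0 * c1), ε m * (sg m : ℂ) else 0)‖ ≤
      if Sf n c0 then 4 * T ^ 3 * A * (1 / Real.sqrt c0) else 0 := by
    intro c0 hc0
    simp only [Finset.mem_filter, Finset.mem_Icc] at hc0
    split_ifs with hsf
    · exact N24b_inner hn1 hXN hN hc0.2.1 hJ hε hT0 hTb
    · rw [Finset.sum_eq_zero, norm_zero]
      intro c1 hc1
      simp only [Finset.mem_filter, Finset.mem_Icc] at hc1
      rw [Kst_zero n c0 c1 hc0.2.1 hsf hc1.2.1 (by omega), zero_mul, zero_mul, ite_self]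
  refine (Finset.sum_le_sum hterm).trans ?_
  rw [← Finset.sum_filter, Finset.filter_filter, ← Finset.mul_sum]
  have hsub : (Finset.Icc 1 N).filter
      (fun c0 => (Sm n c0 ∧ (n : ℝ) ^ (1 / 400 : ℝ) < (c0 : ℝ)) ∧ Sf n c0) =
      (Finset.Icc 1 N).filter (fun c0 => Sf n c0 ∧ (n : ℝ) ^ (1 / 400 : ℝ) < (c0 : ℝ)) := by
    apply Finset.filter_congr
    intro c _
    exact ⟨fun h => ⟨h.2, h.1.2⟩, fun h => ⟨⟨h.1.1, h.2⟩, h.1⟩⟩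
  rw [hsub]
  have h3 := h2 n N hn1 ((n : ℝ) ^ (1 / 400 : ℝ)) (Real.one_le_rpow hnR (by norm_num))
  rw [← Real.rpow_mul hnpos.le] at h3
  have h4 : 4 * T ^ 3 * (C2 * (n : ℝ) ^ (1 / 400 * -(1 / 8) : ℝ) * (n : ℝ) ^ (1 / 100000 : ℝ)) ≤
      (n : ℝ) ^ (-(1 / 4000) : ℝ) := by
    have e1 : T ^ 3 = C1 ^ 3 * (n : ℝ) ^ (3 / 100000 : ℝ) := by
      rw [hT, mul_pow, ← Real.rpow_natCast ((n : ℝ) ^ (1 / 100000 : ℝ)) 3,
        ← Real.rpow_mul hnpos.le]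
      norm_num
    rw [e1]
    calc 4 * (C1 ^ 3 * (n : ℝ) ^ (3 / 100000 : ℝ)) *
          (C2 * (n : ℝ) ^ (1 / 400 * -(1 / 8) : ℝ) * (n : ℝ) ^ (1 / 100000 : ℝ))
        = (4 * C1 ^ 3 * C2) * ((n : ℝ) ^ (3 / 100000 : ℝ) *
          ((n : ℝ) ^ (1 / 400 * -(1 / 8) : ℝ) * (n : ℝ) ^ (1 / 100000 : ℝ))) := by ring
      _ = (4 * C1 ^ 3 * C2) * (n : ℝ) ^ (-(109 / 400000) : ℝ) := by
          rw [← Real.rpow_add hnpos, ← Real.rpow_add hnpos]; norm_num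
      _ ≤ (n : ℝ) ^ (9 / 400000 : ℝ) * (n : ℝ) ^ (-(109 / 400000) : ℝ) :=
          mul_le_mul_of_nonneg_right (hn0 n hn) (by positivity)
      _ = (n : ℝ) ^ (-(1 / 4000) : ℝ) := by
          rw [← Real.rpow_add hnpos]; norm_num
  calc _ ≤ 4 * T ^ 3 * A *
        (C2 * (n : ℝ) ^ (1 / 400 * -(1 / 8) : ℝ) * (n : ℝ) ^ (1 / 100000 : ℝ)) :=
        mul_le_mul_of_nonneg_left h3 (by positivity)
    _ = A * (4 * T ^ 3 *
        (C2 * (n : ℝ) ^ (1 / 400 * -(1 / 8) : ℝ) * (n : ℝ) ^ (1 / 100000 : ℝ))) := by ring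
    _ ≤ _ := mul_le_mul_of_nonneg_left h4 hA0

end RV11
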