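import Pool.Agent.LibRV11.N24a
import Pool.Agent.LibRV11.N24b
import Pool.Agent.LibRV11.N22

open Complex Real

namespace RV11

/-- one dyadic block -/
theorem block_large : ∃ (C : ℝ) (n0 : ℕ), 1 ≤ C ∧ ∀ n : ℕ, n0 ≤ n → ∀ X N : ℕ,
    (n : ℝ) ^ (999 / 1000 : ℝ) ≤ X → X ≤ N → 2 * N ≤ n → ∀ (δ : ℝ) (J : ℝ → ℂ), IsJ δ J →
    ∀ ε : ℕ → ℂ, (∀ m, ‖ε m‖ ≤ 1) →
    ‖∑ c ∈ (Finset.Icc 1 N).filter (fun c => X ≤ c ∧ c < 2 * X),
        Kst n c * (J (c / n) / (Real.sqrt c : ℂ)) *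
          ∑ m ∈ (MM n).filter (fun m => m ∣ c), ε m * (sg m : ℂ)‖ ≤
    C * (MM n).card * X / Real.sqrt n := by
  classical
  obtain ⟨C1, n1, hC1, h1⟩ := c0_small
  obtain ⟨n2, h2⟩ := c0_large
  obtain ⟨n3, h3⟩ := MM_card
  obtain ⟨Cs, hCs, hs⟩ := sf_sum
  obtain ⟨Ct, hCt, ht⟩ := tau_bound (1 / 10000) (by norm_num)
  refine ⟨2 * (C1 * Cs + C1 * (2 * Ct) + 2 * Ct), max (max n1 n2) (max n3 1), ?_, ?_⟩
  · nlinarith
  intro n hn X N hX hXN hNn δ J hJ ε hε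
  have hn1 : n1 ≤ n := le_trans (by simp) hn
  have hn2 : n2 ≤ n := le_trans (by simp) hn
  have hn3 : n3 ≤ n := le_trans (by simp) hn
  have hn6 : 1 ≤ n := le_trans (by simp) hn
  have hnpos : (0 : ℝ) < n := by exact_mod_cast hn6
  have hn1' : (1 : ℝ) ≤ n := by exact_mod_cast hn6
  have hsq0 : 0 < Real.sqrt n := Real.sqrt_pos.mpr hnpos
  have hff0 : 0 < ff n := ff_pos n hn6
  -- ff is not small
  have hffl : (n : ℝ) ^ (-(1 / 4000) : ℝ) ≤ 2 * Ct * ff n := by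
    have ht0 : 1 ≤ tau (2 * n) := tau_pos _ (by omega)
    have hiv := inv_tau_le_ff n hn6
    have htb := ht (2 * n) (by omega)
    have h2 : ((2 * n : ℕ) : ℝ) ^ (1 / 10000 : ℝ) ≤ 2 * (n : ℝ) ^ (1 / 4000 : ℝ) := by
      push_cast
      rw [Real.mul_rpow (by norm_num) hnpos.le]
      have e1 : (2 : ℝ) ^ (1 / 10000 : ℝ) ≤ 2 := by
        calc (2 : ℝ) ^ (1 / 10000 : ℝ) ≤ 2 ^ (1 : ℝ) :=
              Real.rpow_le_rpow_of_exponent_le (by norm_num) (by norm_num)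
          _ = 2 := Real.rpow_one 2
      have e2 : (n : ℝ) ^ (1 / 10000 : ℝ) ≤ (n : ℝ) ^ (1 / 4000 : ℝ) :=
        Real.rpow_le_rpow_of_exponent_le hn1' (by norm_num)
      exact mul_le_mul e1 e2 (by positivity) (by norm_num)
    have h4 : tau (2 * n) ≤ Ct * (2 * (n : ℝ) ^ (1 / 4000 : ℝ)) :=
      htb.trans (by gcongr)
    have h5 : 1 / (Ct * (2 * (n : ℝ) ^ (1 / 4000 : ℝ))) ≤ ff n :=
      le_trans (one_div_le_one_div_of_le (by linarith) h4) hiv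
    have hp : (0 : ℝ) < (n : ℝ) ^ (1 / 4000 : ℝ) := by positivity
    rw [Real.rpow_neg hnpos.le]
    rw [div_le_iff₀ (by positivity)] at h5
    rw [inv_le_iff_one_le_mul₀ hp]
    calc (1 : ℝ) ≤ ff n * (Ct * (2 * (n : ℝ) ^ (1 / 4000 : ℝ))) := h5
      _ = 2 * Ct * ff n * (n : ℝ) ^ (1 / 4000 : ℝ) := by ring
  set f : ℕ → ℂ := fun c => Kst n c * (J (c / n) / (Real.sqrt c : ℂ)) *
          ∑ m ∈ (MM n).filter (fun m => m ∣ c), ε m * (sg m : ℂ) with hf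
  have hsplit : ∑ c ∈ (Finset.Icc 1 N).filter (fun c => X ≤ c ∧ c < 2 * X), f c =
      ∑ c0 ∈ (Finset.Icc 1 N).filter (fun c0 => Sm n c0),
        ∑ c1 ∈ (Finset.Icc 1 N).filter (fun c1 => Nat.Coprime c1 (2 * n) ∧ c0 * c1 ≤ N),
          if X ≤ c0 * c1 ∧ c0 * c1 < 2 * X then f (c0 * c1) else 0 := by
    rw [Finset.sum_filter]
    exact split_c n N hn6 (fun c => if X ≤ c ∧ c < 2 * X then f c else 0)
  rw [hsplit]
  set T : ℕ → ℝ := fun c0 =>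
    ‖∑ c1 ∈ (Finset.Icc 1 N).filter (fun c1 => Nat.Coprime c1 (2 * n) ∧ c0 * c1 ≤ N),
          if X ≤ c0 * c1 ∧ c0 * c1 < 2 * X then f (c0 * c1) else 0‖ with hT
  have hstep : ‖∑ c0 ∈ (Finset.Icc 1 N).filter (fun c0 => Sm n c0),
        ∑ c1 ∈ (Finset.Icc 1 N).filter (fun c1 => Nat.Coprime c1 (2 * n) ∧ c0 * c1 ≤ N),
          if X ≤ c0 * c1 ∧ c0 * c1 < 2 * X then f (c0 * c1) else 0‖ ≤
      ∑ c0 ∈ (Finset.Icc 1 N).filter (fun c0 => Sm n c0), T c0 := norm_sum_le _ _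
  refine hstep.trans ?_
  rw [← Finset.sum_filter_add_sum_filter_not _ (fun c0 : ℕ => (c0 : ℝ) ≤ (n : ℝ) ^ (1 / 400 : ℝ))]
  -- large c0
  have hL : ∑ c0 ∈ ((Finset.Icc 1 N).filter (fun c0 => Sm n c0)).filter
      (fun c0 : ℕ => ¬ (c0 : ℝ) ≤ (n : ℝ) ^ (1 / 400 : ℝ)), T c0 ≤
      X * Mn n / Real.sqrt n * (2 * Ct * ff n) := by
    have := h2 n hn2 X N hXN hNn δ J hJ ε hε
    have e : ((Finset.Icc 1 N).filter (fun c0 => Sm n c0)).filter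
      (fun c0 : ℕ => ¬ (c0 : ℝ) ≤ (n : ℝ) ^ (1 / 400 : ℝ)) =
      (Finset.Icc 1 N).filter (fun c0 => Sm n c0 ∧ (n : ℝ) ^ (1 / 400 : ℝ) < (c0 : ℝ)) := by
      ext c
      simp only [Finset.mem_filter, not_le, and_assoc]
    rw [e]
    refine this.trans ?_
    gcongr
  -- small c0
  have hS : ∀ c0 ∈ ((Finset.Icc 1 N).filter (fun c0 => Sm n c0)).filter
      (fun c0 : ℕ => (c0 : ℝ) ≤ (n : ℝ) ^ (1 / 400 : ℝ)), T c0 ≤
      C1 * X * Mn n / Real.sqrt n * (ff n ^ 2 * (if Sf n c0 then 1 / Real.sqrt c0 else 0) +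
        (n : ℝ) ^ (-(1 / 300) : ℝ)) := by
    intro c0 hc0
    simp only [Finset.mem_filter, Finset.mem_Icc] at hc0
    obtain ⟨⟨⟨hc1, hcN⟩, hsm⟩, hcle⟩ := hc0
    have hc0r : (1 : ℝ) ≤ c0 := by exact_mod_cast hc1
    have hsc : 1 ≤ Real.sqrt c0 := by
      rw [show (1 : ℝ) = Real.sqrt 1 by simp]
      exact Real.sqrt_le_sqrt hc0r
    by_cases hsf : Sf n c0
    · rw [if_pos hsf]
      have := h1 n hn1 X N c0 hX hXN hNn hsm hcle δ J hJ ε hε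
      refine this.trans ?_
      have e1 : C1 * X * Mn n / (Real.sqrt c0 * Real.sqrt n) *
          (ff n ^ 2 + (n : ℝ) ^ (-(1 / 300) : ℝ)) =
          C1 * X * Mn n / Real.sqrt n * (ff n ^ 2 * (1 / Real.sqrt c0) +
            (n : ℝ) ^ (-(1 / 300) : ℝ) * (1 / Real.sqrt c0)) := by
        field_simp
      rw [e1]
      have e2 : (n : ℝ) ^ (-(1 / 300) : ℝ) * (1 / Real.sqrt c0) ≤ (n : ℝ) ^ (-(1 / 300) : ℝ) := by
        have : 1 / Real.sqrt c0 ≤ 1 := by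
          rw [div_le_one (by positivity)]; exact hsc
        exact mul_le_of_le_one_right (by positivity) this
      gcongr
    · rw [if_neg hsf]
      have : T c0 = 0 := by
        rw [hT]
        simp only [norm_eq_zero]
        refine Finset.sum_eq_zero (fun c1 hc1' => ?_)
        simp only [Finset.mem_filter, Finset.mem_Icc] at hc1'
        split_ifs
        · simp only [hf]
          rw [Kst_zero n c0 c1 hsm hsf hc1'.2.1 (by omega)]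
          simp
        · rfl
      rw [this]
      positivity
  have hS2 : ∑ c0 ∈ ((Finset.Icc 1 N).filter (fun c0 => Sm n c0)).filter
      (fun c0 : ℕ => (c0 : ℝ) ≤ (n : ℝ) ^ (1 / 400 : ℝ)), T c0 ≤
      C1 * X * Mn n / Real.sqrt n * (Cs * ff n + 2 * Ct * ff n) := by
    refine (Finset.sum_le_sum hS).trans ?_
    rw [← Finset.mul_sum, Finset.sum_add_distrib, ← Finset.mul_sum]
    have a1 : ∑ c0 ∈ ((Finset.Icc 1 N).filter (fun c0 => Sm n c0)).filter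
      (fun c0 : ℕ => (c0 : ℝ) ≤ (n : ℝ) ^ (1 / 400 : ℝ)),
        (if Sf n c0 then 1 / Real.sqrt c0 else 0) ≤ Cs / ff n := by
      refine le_trans ?_ (hs n N hn6)
      rw [← Finset.sum_filter]
      refine Finset.sum_le_sum_of_subset_of_nonneg ?_ (fun _ _ _ => by positivity)
      intro c hc
      simp only [Finset.mem_filter] at hc ⊢
      exact ⟨hc.1.1.1, hc.2⟩
    have a2 : ∑ c0 ∈ ((Finset.Icc 1 N).filter (fun c0 => Sm n c0)).filter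
      (fun c0 : ℕ => (c0 : ℝ) ≤ (n : ℝ) ^ (1 / 400 : ℝ)), (n : ℝ) ^ (-(1 / 300) : ℝ) ≤
        2 * Ct * ff n := by
      rw [Finset.sum_const, nsmul_eq_mul]
      have hc : ((((Finset.Icc 1 N).filter (fun c0 => Sm n c0)).filter
        (fun c0 : ℕ => (c0 : ℝ) ≤ (n : ℝ) ^ (1 / 400 : ℝ))).card : ℝ) ≤
          (n : ℝ) ^ (1 / 400 : ℝ) := by
        have hsub : ((Finset.Icc 1 N).filter (fun c0 => Sm n c0)).filter
          (fun c0 : ℕ => (c0 : ℝ) ≤ (n : ℝ) ^ (1 / 400 : ℝ)) ⊆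
            Finset.Icc 1 ⌊(n : ℝ) ^ (1 / 400 : ℝ)⌋₊ := by
          intro c hc
          simp only [Finset.mem_filter, Finset.mem_Icc] at hc ⊢
          exact ⟨hc.1.1.1, Nat.le_floor hc.2⟩
        have := Finset.card_le_card hsub
        rw [Nat.card_Icc] at this
        calc ((((Finset.Icc 1 N).filter (fun c0 => Sm n c0)).filter
          (fun c0 : ℕ => (c0 : ℝ) ≤ (n : ℝ) ^ (1 / 400 : ℝ))).card : ℝ) ≤
            ((⌊(n : ℝ) ^ (1 / 400 : ℝ)⌋₊ + 1 - 1 : ℕ) : ℝ) := by exact_mod_cast this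
          _ = (⌊(n : ℝ) ^ (1 / 400 : ℝ)⌋₊ : ℝ) := by simp
          _ ≤ (n : ℝ) ^ (1 / 400 : ℝ) := Nat.floor_le (by positivity)
      calc _ ≤ (n : ℝ) ^ (1 / 400 : ℝ) * (n : ℝ) ^ (-(1 / 300) : ℝ) := by gcongr
        _ = (n : ℝ) ^ (1 / 400 + -(1 / 300) : ℝ) := by rw [Real.rpow_add hnpos]
        _ ≤ (n : ℝ) ^ (-(1 / 4000) : ℝ) :=
            Real.rpow_le_rpow_of_exponent_le hn1' (by norm_num)
        _ ≤ 2 * Ct * ff n := hffl
    have a3 : ff n ^ 2 * (Cs / ff n) = Cs * ff n := by field_simp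
    have a4 : ff n ^ 2 * ∑ c0 ∈ ((Finset.Icc 1 N).filter (fun c0 => Sm n c0)).filter
      (fun c0 : ℕ => (c0 : ℝ) ≤ (n : ℝ) ^ (1 / 400 : ℝ)),
        (if Sf n c0 then 1 / Real.sqrt c0 else 0) ≤ Cs * ff n := by
      rw [← a3]
      gcongr
    gcongr
  refine (add_le_add hS2 hL).trans ?_
  have hM := h3 n hn3
  have e1 : C1 * X * Mn n / Real.sqrt n * (Cs * ff n + 2 * Ct * ff n) +
      X * Mn n / Real.sqrt n * (2 * Ct * ff n) =
      2 * (C1 * Cs + C1 * (2 * Ct) + 2 * Ct) * (X / Real.sqrt n) * (ff n * Mn n / 2) := by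
    field_simp
  rw [e1]
  have e2 : 2 * (C1 * Cs + C1 * (2 * Ct) + 2 * Ct) * (MM n).card * X / Real.sqrt n =
      2 * (C1 * Cs + C1 * (2 * Ct) + 2 * Ct) * (X / Real.sqrt n) * (MM n).card := by
    ring
  rw [e2]
  gcongr

end RV11
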