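import Pool.Agent.LibRV11.N10b
import Pool.Agent.LibRV11.N13e
import Pool.Agent.LibRV11.N22

open Complex Real

namespace RV11

theorem N25_inner {n Y c0 : ℕ} (h0 : Sm n c0) {T : ℝ} (hT0 : 0 ≤ T)
    (hT : ∀ c1 : ℕ, 1 ≤ c1 → c1 ≤ Y → tau c1 ≤ T) :
    ∑ c1 ∈ (Finset.Icc 1 Y).filter (fun c1 => Nat.Coprime c1 (2 * n) ∧ c0 * c1 ≤ Y),
      ‖Kst n (c0 * c1)‖ ≤ Y * T * (1 / Real.sqrt c0) := by
  have hc0 : 0 < c0 := Nat.pos_of_ne_zero h0.1
  have hc0R : (0 : ℝ) < c0 := by exact_mod_cast hc0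
  have h1 : ∀ c1 ∈ (Finset.Icc 1 Y).filter (fun c1 => Nat.Coprime c1 (2 * n) ∧ c0 * c1 ≤ Y),
      ‖Kst n (c0 * c1)‖ ≤ Real.sqrt c0 * T := by
    intro c1 hc1
    simp only [Finset.mem_filter, Finset.mem_Icc] at hc1
    refine (Kst_bound n c0 c1 h0 hc1.2.1 (by omega)).trans ?_
    exact mul_le_mul_of_nonneg_left (hT c1 hc1.1.1 hc1.1.2) (Real.sqrt_nonneg _)
  have h2 : (((Finset.Icc 1 Y).filter
      (fun c1 => Nat.Coprime c1 (2 * n) ∧ c0 * c1 ≤ Y)).card : ℝ) ≤ Y / c0 := by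
    have h3 : (Finset.Icc 1 Y).filter (fun c1 => Nat.Coprime c1 (2 * n) ∧ c0 * c1 ≤ Y) ⊆
        Finset.Icc 1 (Y / c0) := by
      intro c1 hc1
      simp only [Finset.mem_filter, Finset.mem_Icc] at hc1 ⊢
      exact ⟨hc1.1.1, (Nat.le_div_iff_mul_le hc0).mpr (by rw [mul_comm]; exact hc1.2.2)⟩
    have h4 := Finset.card_le_card h3
    rw [Nat.card_Icc, Nat.add_sub_cancel] at h4
    calc _ ≤ ((Y / c0 : ℕ) : ℝ) := by exact_mod_cast h4
      _ ≤ (Y : ℝ) / c0 := Nat.cast_div_le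
  refine (Finset.sum_le_card_nsmul _ _ _ h1).trans ?_
  rw [nsmul_eq_mul]
  have h5 : (Y : ℝ) / c0 * (Real.sqrt c0 * T) = Y * T * (1 / Real.sqrt c0) := by
    have hs : Real.sqrt c0 * Real.sqrt c0 = c0 := Real.mul_self_sqrt hc0R.le
    have hs0 : 0 < Real.sqrt c0 := Real.sqrt_pos.mpr hc0R
    have h6 : (Y : ℝ) / c0 = Y / (Real.sqrt c0 * Real.sqrt c0) := by rw [hs]
    rw [h6]; field_simp
  rw [← h5]
  exact mul_le_mul_of_nonneg_right h2 (by positivity)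

theorem Kst_sum (ε : ℝ) (hε : 0 < ε) : ∃ C : ℝ, 1 ≤ C ∧ ∀ n Y : ℕ, 1 ≤ n → Y ≤ n →
    ∑ c ∈ Finset.Icc 1 Y, ‖Kst n c‖ ≤ C * Y * (n : ℝ) ^ ε := by
  classical
  obtain ⟨C1, hC1, h1⟩ := tau_bound (ε / 2) (by positivity)
  obtain ⟨C2, hC2, h2⟩ := sf_sum
  refine ⟨C1 * C2 * (C1 * 2 ^ (ε / 2)), ?_, ?_⟩
  · have : (1 : ℝ) ≤ 2 ^ (ε / 2) := Real.one_le_rpow (by norm_num) (by positivity)
    have e1 : (1 : ℝ) ≤ C1 * C2 := one_le_mul_of_one_le_of_one_le hC1 hC2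
    have e2 : (1 : ℝ) ≤ C1 * 2 ^ (ε / 2) := one_le_mul_of_one_le_of_one_le hC1 this
    exact one_le_mul_of_one_le_of_one_le e1 e2
  intro n Y hn hY
  have hn0 : (0 : ℝ) < n := by exact_mod_cast hn
  rw [split_c n Y hn]
  set T : ℝ := C1 * (n : ℝ) ^ (ε / 2) with hT
  have hT0 : 0 ≤ T := by positivity
  have hTb : ∀ c1 : ℕ, 1 ≤ c1 → c1 ≤ Y → tau c1 ≤ T := by
    intro c1 ha hb
    refine (h1 c1 ha).trans ?_
    have : (c1 : ℝ) ≤ n := by exact_mod_cast hb.trans hY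
    have hc0 : (0 : ℝ) ≤ c1 := Nat.cast_nonneg _
    exact mul_le_mul_of_nonneg_left (Real.rpow_le_rpow hc0 this (by positivity)) (by linarith)
  have hterm : ∀ c0 ∈ (Finset.Icc 1 Y).filter (fun c0 => Sm n c0),
      ∑ c1 ∈ (Finset.Icc 1 Y).filter (fun c1 => Nat.Coprime c1 (2 * n) ∧ c0 * c1 ≤ Y),
        ‖Kst n (c0 * c1)‖ ≤ if Sf n c0 then Y * T * (1 / Real.sqrt c0) else 0 := by
    intro c0 hc0
    simp only [Finset.mem_filter, Finset.mem_Icc] at hc0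
    split_ifs with hsf
    · exact N25_inner hc0.2 hT0 hTb
    · apply le_of_eq
      apply Finset.sum_eq_zero
      intro c1 hc1
      simp only [Finset.mem_filter, Finset.mem_Icc] at hc1
      rw [Kst_zero n c0 c1 hc0.2 hsf hc1.2.1 (by omega), norm_zero]
  refine (Finset.sum_le_sum hterm).trans ?_
  rw [← Finset.sum_filter, Finset.filter_filter, ← Finset.mul_sum]
  have hsub : (Finset.Icc 1 Y).filter (fun c0 => Sm n c0 ∧ Sf n c0) =
      (Finset.Icc 1 Y).filter (fun c0 => Sf n c0) := by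
    apply Finset.filter_congr
    intro c _
    exact ⟨fun h => h.2, fun h => ⟨h.1, h⟩⟩
  rw [hsub]
  have h3 := h2 n Y hn
  have hff := ff_pos n hn
  have h4 : 1 / ff n ≤ C1 * 2 ^ (ε / 2) * (n : ℝ) ^ (ε / 2) := by
    have h5 := inv_tau_le_ff n hn
    have h6 := h1 (2 * n) (by omega)
    have h7 : 1 ≤ tau (2 * n) := tau_pos (2 * n) (by omega)
    have h8 : 1 / ff n ≤ tau (2 * n) := by
      rw [div_le_iff₀ hff]
      rw [div_le_iff₀ (by linarith)] at h5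
      linarith
    refine h8.trans (h6.trans ?_)
    push_cast
    rw [Real.mul_rpow (by norm_num) hn0.le]
    linarith
  have hrp : (n : ℝ) ^ ε = (n : ℝ) ^ (ε / 2) * (n : ℝ) ^ (ε / 2) := by
    rw [← Real.rpow_add hn0]; congr 1; ring
  have hC2' : C2 / ff n ≤ C2 * (C1 * 2 ^ (ε / 2) * (n : ℝ) ^ (ε / 2)) := by
    rw [div_eq_mul_one_div]
    exact mul_le_mul_of_nonneg_left h4 (by linarith)
  calc _ ≤ Y * T * (C2 / ff n) := mul_le_mul_of_nonneg_left h3 (by positivity)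
    _ ≤ Y * T * (C2 * (C1 * 2 ^ (ε / 2) * (n : ℝ) ^ (ε / 2))) :=
        mul_le_mul_of_nonneg_left hC2' (by positivity)
    _ = _ := by rw [hT, hrp]; ring

end RV11
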