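import Pool.Agent.LibRV11.N25
import Pool.Agent.LibRV11.N13f
import Pool.Agent.LibRV11.N23

open Complex Real

namespace RV11

/-- small `c` -/
theorem block_small : ∃ (C : ℝ) (n0 : ℕ), 1 ≤ C ∧ ∀ n : ℕ, n0 ≤ n → ∀ δ : ℝ,
    (n : ℝ) ^ (-(1 / 2000) : ℝ) ≤ δ → ∀ N : ℕ, N ≤ n → ∀ (J : ℝ → ℂ), IsJ δ J →
    ∀ ε : ℕ → ℂ, (∀ m, ‖ε m‖ ≤ 1) →
    ∑ c ∈ (Finset.Icc 1 N).filter (fun c => ¬ (⌈(n : ℝ) ^ (999 / 1000 : ℝ)⌉₊ ≤ c)),
        ‖Kst n c * (J (c / n) / (Real.sqrt c : ℂ)) *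
          ∑ m ∈ (MM n).filter (fun m => m ∣ c), ε m * (sg m : ℂ)‖ ≤
    C * (MM n).card * δ * Real.sqrt n := by
  obtain ⟨C1, hC1, hτ⟩ := tau_bound (1 / 10000) (by norm_num)
  obtain ⟨C2, hC2, hK⟩ := Kst_sum (1 / 10000) (by norm_num)
  obtain ⟨n1, hM⟩ := MM_card
  refine ⟨8 * C1 ^ 3 * C2, max n1 1, ?_, ?_⟩
  · have h1 : (1 : ℝ) ≤ C1 ^ 3 := one_le_pow₀ hC1
    nlinarith
  intro n hn δ hδ N hN J hJ ε hε
  have hn1 : 1 ≤ n := (le_max_right _ _).trans hn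
  have hnM : n1 ≤ n := (le_max_left _ _).trans hn
  have hnR : (1 : ℝ) ≤ n := by exact_mod_cast hn1
  have hn0 : (0 : ℝ) < n := by linarith
  set a : ℝ := (n : ℝ) ^ (1 / 10000 : ℝ) with ha
  set X : ℝ := (n : ℝ) ^ (999 / 1000 : ℝ) with hX
  set b : ℝ := (n : ℝ) ^ (-(1 / 2000) : ℝ) with hb
  set s : ℝ := Real.sqrt n with hs
  have ha1 : 1 ≤ a := Real.one_le_rpow hnR (by norm_num)
  have ha0 : 0 < a := by linarith
  have hX0 : 0 < X := Real.rpow_pos_of_pos hn0 _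
  have hb0 : 0 < b := Real.rpow_pos_of_pos hn0 _
  have hs0 : 0 < s := Real.sqrt_pos.2 hn0
  have hss : s * s = n := Real.mul_self_sqrt hn0.le
  have hkey : X * a ^ 4 ≤ b * n := by
    have h1 : a ^ 4 = (n : ℝ) ^ (4 / 10000 : ℝ) := by
      rw [ha, ← Real.rpow_natCast, ← Real.rpow_mul hn0.le]
      norm_num
    have h2 : b * n = (n : ℝ) ^ (1999 / 2000 : ℝ) := by
      rw [hb]
      nth_rewrite 2 [← Real.rpow_one (n : ℝ)]
      rw [← Real.rpow_add hn0]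
      norm_num
    rw [h1, h2, hX, ← Real.rpow_add hn0]
    exact Real.rpow_le_rpow_of_exponent_le hnR (by norm_num)
  -- the number of averaging moduli
  have hMn0 : (0 : ℝ) ≤ Mn n := Nat.cast_nonneg _
  have hcard : (Mn n : ℝ) / (4 * C1 * a) ≤ ((MM n).card : ℝ) := by
    have h1 : 1 / (2 * C1 * a) ≤ ff n := by
      refine le_trans ?_ (inv_tau_le_ff n hn1)
      have h2 : tau (2 * n) ≤ 2 * C1 * a := by
        refine (hτ (2 * n) (by omega)).trans ?_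
        push_cast
        rw [Real.mul_rpow (by norm_num) hn0.le]
        have h3 : (2 : ℝ) ^ (1 / 10000 : ℝ) ≤ 2 := by
          have := Real.rpow_le_rpow_of_exponent_le (x := 2) (by norm_num)
            (show (1 / 10000 : ℝ) ≤ 1 by norm_num)
          rwa [Real.rpow_one] at this
        calc C1 * ((2 : ℝ) ^ (1 / 10000 : ℝ) * a) ≤ C1 * (2 * a) := by gcongr
          _ = 2 * C1 * a := by ring
      have h4 : 0 < tau (2 * n) := lt_of_lt_of_le one_pos (tau_pos (2 * n) (by omega))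
      gcongr
    refine le_trans ?_ (hM n hnM)
    calc (Mn n : ℝ) / (4 * C1 * a) = 1 / (2 * C1 * a) * Mn n / 2 := by
          field_simp
          norm_num
      _ ≤ ff n * Mn n / 2 := by gcongr
  -- the terms
  have hterm : ∀ c ∈ (Finset.Icc 1 N).filter (fun c => ¬ (⌈X⌉₊ ≤ c)),
      ‖Kst n c * (J (c / n) / (Real.sqrt c : ℂ)) *
          ∑ m ∈ (MM n).filter (fun m => m ∣ c), ε m * (sg m : ℂ)‖ ≤
      ‖Kst n c‖ * ((1 / s) * (2 * Mn n * (C1 * a) ^ 2)) := by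
    intro c hc
    rw [Finset.mem_filter, Finset.mem_Icc] at hc
    obtain ⟨⟨hc1, hcN⟩, -⟩ := hc
    have hc0 : (0 : ℝ) < c := by exact_mod_cast hc1
    have hcn : (c : ℝ) ≤ n := by exact_mod_cast hcN.trans hN
    have h1 : ‖J (c / n) / (Real.sqrt c : ℂ)‖ ≤ 1 / s := by
      rw [norm_div, Complex.norm_real, Real.norm_eq_abs, abs_of_nonneg (Real.sqrt_nonneg _)]
      have h2 := hJ.bd (c / n) (div_pos hc0 hn0)
      rw [Real.sqrt_div hc0.le] at h2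
      have h3 : 0 < Real.sqrt c := Real.sqrt_pos.2 hc0
      rw [div_le_div_iff₀ h3 hs0, one_mul]
      rw [le_div_iff₀ hs0] at h2
      exact h2
    have h4 : ‖∑ m ∈ (MM n).filter (fun m => m ∣ c), ε m * (sg m : ℂ)‖ ≤
        2 * Mn n * (C1 * a) ^ 2 := by
      refine (sum_MM_dvd ε hε n c hc1).trans ?_
      have h5 : tau c ≤ C1 * a := by
        refine (hτ c hc1).trans ?_
        have : (c : ℝ) ^ (1 / 10000 : ℝ) ≤ a :=
          Real.rpow_le_rpow hc0.le hcn (by norm_num)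
        gcongr
      have h6 : 0 ≤ tau c := (zero_le_one).trans (tau_pos c hc1)
      gcongr
    rw [norm_mul, norm_mul, mul_assoc]
    gcongr
  refine (Finset.sum_le_sum hterm).trans ?_
  rw [← Finset.sum_mul]
  have hsum : ∑ c ∈ (Finset.Icc 1 N).filter (fun c => ¬ (⌈X⌉₊ ≤ c)), ‖Kst n c‖ ≤
      C2 * X * a := by
    have hXn : X ≤ n := by
      have := Real.rpow_le_rpow_of_exponent_le hnR (show (999 / 1000 : ℝ) ≤ 1 by norm_num)
      rwa [Real.rpow_one] at this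
    have hY : ⌊X⌋₊ ≤ n := by
      have h1 := Nat.floor_le_floor hXn
      rwa [Nat.floor_natCast] at h1
    have h1 : ∑ c ∈ (Finset.Icc 1 N).filter (fun c => ¬ (⌈X⌉₊ ≤ c)), ‖Kst n c‖ ≤
        ∑ c ∈ Finset.Icc 1 ⌊X⌋₊, ‖Kst n c‖ := by
      apply Finset.sum_le_sum_of_subset_of_nonneg
      · intro c hc
        rw [Finset.mem_filter, Finset.mem_Icc] at hc
        obtain ⟨⟨hc1, -⟩, hc2⟩ := hc
        rw [Finset.mem_Icc]
        refine ⟨hc1, Nat.le_floor ?_⟩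
        rw [not_le, Nat.lt_ceil] at hc2
        exact hc2.le
      · intro c _ _
        exact norm_nonneg _
    refine (h1.trans (hK n ⌊X⌋₊ hn1 hY)).trans ?_
    have h2 : (⌊X⌋₊ : ℝ) ≤ X := Nat.floor_le hX0.le
    gcongr
  calc (∑ c ∈ (Finset.Icc 1 N).filter (fun c => ¬ (⌈X⌉₊ ≤ c)), ‖Kst n c‖) *
        ((1 / s) * (2 * Mn n * (C1 * a) ^ 2)) ≤
      (C2 * X * a) * ((1 / s) * (2 * Mn n * (C1 * a) ^ 2)) := by gcongr
    _ = (2 * C1 ^ 2 * C2 * Mn n) * ((X * a ^ 4) / (s * a)) := by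
        field_simp
    _ ≤ (2 * C1 ^ 2 * C2 * Mn n) * ((b * n) / (s * a)) := by gcongr
    _ = 8 * C1 ^ 3 * C2 * (Mn n / (4 * C1 * a)) * b * s := by
        rw [← hss]
        field_simp
        ring
    _ ≤ 8 * C1 ^ 3 * C2 * (MM n).card * δ * s := by
        gcongr

end RV11
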