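import Pool.Agent.LibRV11.N24c
import Pool.Agent.LibRV11.N26

open Complex Real

namespace RV11

theorem NT1_main : ∃ (C : ℝ) (n0 : ℕ), ∀ n : ℕ, n0 ≤ n → ∀ δ : ℝ,
    (n : ℝ) ^ (-(1 / 2000) : ℝ) ≤ δ → δ ≤ 1 / 8 → ∀ J, IsJ δ J →
    ∃ m : ℕ, 1 ≤ m ∧ (∑ d ∈ m.divisors, (d : ℝ)) ≤ (n : ℝ) ^ (1 / 10 : ℝ) ∧
      (∑ d ∈ m.divisors, (d : ℝ)) *
        ‖∑ c ∈ (Finset.Icc 1 ⌊4 * δ * n⌋₊).filter (fun c => m ∣ c),
          Kst n c * J (c / n) / Real.sqrt c‖ ≤ C * δ * Real.sqrt n := by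
  obtain ⟨C1, n1, hC1, h1⟩ := block_large
  obtain ⟨C2, n2, hC2, h2⟩ := block_small
  obtain ⟨n3, h3⟩ := MM_card
  obtain ⟨n4, h4⟩ := sg_MM
  obtain ⟨n5, h5⟩ := Mn_bounds
  refine ⟨8 * C1 + C2, max (max (max n1 n2) (max n3 n4)) (max n5 1), ?_⟩
  intro n hn δ hδ hδ8 J hJ
  have hn1 : n1 ≤ n := le_trans (by simp) hn
  have hn2 : n2 ≤ n := le_trans (by simp) hn
  have hn3 : n3 ≤ n := le_trans (by simp) hn
  have hn4 : n4 ≤ n := le_trans (by simp) hn
  have hn5 : n5 ≤ n := le_trans (by simp) hn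
  have hn6 : 1 ≤ n := le_trans (by simp) hn
  have hnpos : (0 : ℝ) < n := by exact_mod_cast hn6
  have hδ0 : 0 < δ := lt_of_lt_of_le (by positivity) hδ
  set N : ℕ := ⌊4 * δ * n⌋₊ with hN
  have hNle : (N : ℝ) ≤ 4 * δ * n := Nat.floor_le (by positivity)
  have hNn : 2 * N ≤ n := by
    have : 2 * (N : ℝ) ≤ n := by nlinarith
    exact_mod_cast this
  have hNn' : N ≤ n := by omega
  -- the sums
  let Z : ℕ → ℂ := fun m => ∑ c ∈ (Finset.Icc 1 N).filter (fun c => m ∣ c),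
          Kst n c * J (c / n) / Real.sqrt c
  have hsgn : ∀ m, ∃ e : ℂ, ‖e‖ ≤ 1 ∧ e * Z m = (‖Z m‖ : ℂ) := by
    intro m
    by_cases hz : Z m = 0
    · exact ⟨0, by simp, by simp [hz]⟩
    · refine ⟨(starRingEnd ℂ) (Z m) / ‖Z m‖, ?_, ?_⟩
      · rw [norm_div, RCLike.norm_conj, Complex.norm_real, norm_norm, div_self]
        simpa using hz
      · have hz' : (‖Z m‖ : ℂ) ≠ 0 := by simpa using hz
        rw [div_mul_eq_mul_div, div_eq_iff hz', mul_comm, Complex.mul_conj, Complex.normSq_eq_norm_sq]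
        push_cast
        ring
  choose ε hε1 hε2 using hsgn
  -- the double sum
  have hT : ∑ m ∈ MM n, (sg m : ℂ) * (‖Z m‖ : ℂ) =
      ∑ c ∈ Finset.Icc 1 N, Kst n c * (J (c / n) / (Real.sqrt c : ℂ)) *
          ∑ m ∈ (MM n).filter (fun m => m ∣ c), ε m * (sg m : ℂ) := by
    calc ∑ m ∈ MM n, (sg m : ℂ) * (‖Z m‖ : ℂ)
        = ∑ m ∈ MM n, ∑ c ∈ Finset.Icc 1 N, if m ∣ c then
            Kst n c * (J (c / n) / (Real.sqrt c : ℂ)) * (ε m * (sg m : ℂ)) else 0 := by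
          refine Finset.sum_congr rfl (fun m _ => ?_)
          rw [← hε2 m, ← Finset.sum_filter]
          simp only [Z]
          rw [Finset.mul_sum, Finset.mul_sum]
          refine Finset.sum_congr rfl (fun c _ => ?_)
          ring
      _ = ∑ c ∈ Finset.Icc 1 N, ∑ m ∈ MM n, if m ∣ c then
            Kst n c * (J (c / n) / (Real.sqrt c : ℂ)) * (ε m * (sg m : ℂ)) else 0 :=
          Finset.sum_comm
      _ = _ := by
          refine Finset.sum_congr rfl (fun c _ => ?_)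
          rw [← Finset.sum_filter, Finset.mul_sum]
  -- bound of the double sum
  have hTb : ‖∑ c ∈ Finset.Icc 1 N, Kst n c * (J (c / n) / (Real.sqrt c : ℂ)) *
          ∑ m ∈ (MM n).filter (fun m => m ∣ c), ε m * (sg m : ℂ)‖ ≤
      (8 * C1 + C2) * (MM n).card * δ * Real.sqrt n := by
    set f : ℕ → ℂ := fun c => Kst n c * (J (c / n) / (Real.sqrt c : ℂ)) *
          ∑ m ∈ (MM n).filter (fun m => m ∣ c), ε m * (sg m : ℂ) with hf
    set N1 : ℕ := ⌈(n : ℝ) ^ (999 / 1000 : ℝ)⌉₊ with hN1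
    have hN1pos : 1 ≤ N1 := by
      rw [hN1]
      exact Nat.one_le_ceil_iff.mpr (by positivity)
    have hlarge : ‖∑ c ∈ (Finset.Icc 1 N).filter (fun c => N1 ≤ c), f c‖ ≤
        2 * (C1 * (MM n).card / Real.sqrt n) * N := by
      refine dyadic f N1 N hN1pos _ (by positivity) ?_
      intro X hX1 hX2
      have hX : (n : ℝ) ^ (999 / 1000 : ℝ) ≤ X := by
        calc (n : ℝ) ^ (999 / 1000 : ℝ) ≤ N1 := Nat.le_ceil _
          _ ≤ X := by exact_mod_cast hX1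
      refine (h1 n hn1 X N hX hX2 hNn δ J hJ ε hε1).trans (le_of_eq ?_)
      ring
    have hsmall : ‖∑ c ∈ (Finset.Icc 1 N).filter (fun c => ¬ N1 ≤ c), f c‖ ≤
        C2 * (MM n).card * δ * Real.sqrt n :=
      (norm_sum_le _ _).trans (h2 n hn2 δ hδ N hNn' J hJ ε hε1)
    rw [← Finset.sum_filter_add_sum_filter_not (Finset.Icc 1 N) (fun c => N1 ≤ c)]
    refine (norm_add_le _ _).trans ?_
    have hsq : Real.sqrt n * Real.sqrt n = n := Real.mul_self_sqrt hnpos.le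
    have hsq0 : 0 < Real.sqrt n := Real.sqrt_pos.mpr hnpos
    have hlarge2 : 2 * (C1 * (MM n).card / Real.sqrt n) * N ≤
        8 * C1 * (MM n).card * δ * Real.sqrt n := by
      have e1 : (N : ℝ) ≤ 4 * δ * (Real.sqrt n * Real.sqrt n) := by rw [hsq]; exact hNle
      calc 2 * (C1 * (MM n).card / Real.sqrt n) * N
          ≤ 2 * (C1 * (MM n).card / Real.sqrt n) * (4 * δ * (Real.sqrt n * Real.sqrt n)) := by
            gcongr
        _ = 8 * C1 * (MM n).card * δ * Real.sqrt n := by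
            field_simp
            ring
    calc _ ≤ 8 * C1 * (MM n).card * δ * Real.sqrt n + C2 * (MM n).card * δ * Real.sqrt n :=
          add_le_add (hlarge.trans hlarge2) hsmall
      _ = _ := by ring
  have hTr : ∑ m ∈ MM n, sg m * ‖Z m‖ ≤ (8 * C1 + C2) * (MM n).card * δ * Real.sqrt n := by
    rw [← hT] at hTb
    have : ∑ m ∈ MM n, (sg m : ℂ) * (‖Z m‖ : ℂ) = ((∑ m ∈ MM n, sg m * ‖Z m‖ : ℝ) : ℂ) := by
      push_cast; rfl
    rw [this, Complex.norm_real] at hTb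
    exact (le_abs_self _).trans hTb
  -- pigeonhole
  have hcard : (0 : ℝ) < (MM n).card := by
    have hb := h5 n hn5
    have hM : (2 : ℝ) ≤ Mn n := by exact_mod_cast hb.2.2
    have hf := ff_pos n hn6
    exact lt_of_lt_of_le (by positivity) (h3 n hn3)
  have hne : (MM n).Nonempty := by
    rw [← Finset.card_pos]
    exact_mod_cast hcard
  obtain ⟨m, hm, hmle⟩ : ∃ m ∈ MM n, sg m * ‖Z m‖ ≤ (8 * C1 + C2) * δ * Real.sqrt n := by
    by_contra hcon
    push Not at hcon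
    have := Finset.sum_lt_sum_of_nonempty hne hcon
    rw [Finset.sum_const, nsmul_eq_mul] at this
    have h' : ((MM n).card : ℝ) * ((8 * C1 + C2) * δ * Real.sqrt n) =
      (8 * C1 + C2) * (MM n).card * δ * Real.sqrt n := by ring
    rw [h'] at this
    exact absurd hTr (not_le.mpr this)
  obtain ⟨hm1, hm2, hm3⟩ := h4 n hn4 m hm
  exact ⟨m, hm1, hm3, hmle⟩

end RV11
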