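import Mathlib

open Complex Real MeasureTheory

namespace RV11

/-- First derivative test. -/
theorem first_test {a b l : ℝ} (hab : a ≤ b) (hl : 0 < l) (f f' f'' : ℝ → ℝ)
    (h1 : ∀ x ∈ Set.Icc a b, HasDerivAt f (f' x) x)
    (h2 : ∀ x ∈ Set.Icc a b, HasDerivAt f' (f'' x) x)
    (hc : ContinuousOn f'' (Set.Icc a b))
    (hs : (∀ x ∈ Set.Icc a b, 0 ≤ f'' x) ∨ (∀ x ∈ Set.Icc a b, f'' x ≤ 0))
    (hl' : (∀ x ∈ Set.Icc a b, l ≤ f' x) ∨ (∀ x ∈ Set.Icc a b, f' x ≤ -l)) :
    ‖∫ x in a..b, cexp (I * f x)‖ ≤ 3 / l := by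
  have hu : Set.uIcc a b = Set.Icc a b := Set.uIcc_of_le hab
  have hne : ∀ x ∈ Set.Icc a b, f' x ≠ 0 := by
    intro x hx
    rcases hl' with h | h
    · have := h x hx; intro h0; linarith
    · have := h x hx; intro h0; linarith
  have habs : ∀ x ∈ Set.Icc a b, l ≤ |f' x| := by
    intro x hx
    rcases hl' with h | h
    · exact (h x hx).trans (le_abs_self _)
    · have := h x hx
      rw [abs_of_nonpos (by linarith)]; linarith
  have hcf : ContinuousOn f (Set.Icc a b) := fun x hx => (h1 x hx).continuousAt.continuousWithinAt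
  have hcf' : ContinuousOn f' (Set.Icc a b) :=
    fun x hx => (h2 x hx).continuousAt.continuousWithinAt
  -- the derivative of `1 / f'`
  have hinv : ∀ x ∈ Set.Icc a b, HasDerivAt (fun x => (f' x)⁻¹) (-(f'' x) / (f' x) ^ 2) x :=
    fun x hx => (h2 x hx).inv (hne x hx)
  have hu1 : ∀ x ∈ Set.uIcc a b,
      HasDerivAt (fun x => -I * (((f' x)⁻¹ : ℝ) : ℂ)) (-I * ((-(f'' x) / (f' x) ^ 2 : ℝ) : ℂ)) x := by
    intro x hx
    rw [hu] at hx
    exact ((hinv x hx).ofReal_comp).const_mul (-I)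
  have hv1 : ∀ x ∈ Set.uIcc a b,
      HasDerivAt (fun x => cexp (I * f x)) (cexp (I * f x) * (I * (f' x : ℂ))) x := by
    intro x hx
    rw [hu] at hx
    exact (((h1 x hx).ofReal_comp).const_mul I).cexp
  have hcq : ContinuousOn (fun x => -(f'' x) / (f' x) ^ 2) (Set.Icc a b) :=
    hc.neg.div (hcf'.pow 2) (fun x hx => pow_ne_zero 2 (hne x hx))
  have hIq : IntervalIntegrable (fun x => -(f'' x) / (f' x) ^ 2) volume a b := by
    apply ContinuousOn.intervalIntegrable; rw [hu]; exact hcq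
  have hI1 : IntervalIntegrable (fun x => -I * ((-(f'' x) / (f' x) ^ 2 : ℝ) : ℂ)) volume a b := by
    apply ContinuousOn.intervalIntegrable; rw [hu]
    exact continuousOn_const.mul (Complex.continuous_ofReal.comp_continuousOn hcq)
  have hce : ContinuousOn (fun x => cexp (I * f x)) (Set.Icc a b) :=
    (continuousOn_const.mul (Complex.continuous_ofReal.comp_continuousOn hcf)).cexp
  have hI2 : IntervalIntegrable (fun x => cexp (I * f x) * (I * (f' x : ℂ))) volume a b := by
    apply ContinuousOn.intervalIntegrable; rw [hu]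
    exact hce.mul (continuousOn_const.mul (Complex.continuous_ofReal.comp_continuousOn hcf'))
  have hparts := intervalIntegral.integral_mul_deriv_eq_deriv_mul hu1 hv1 hI1 hI2
  have hleft : ∫ x in a..b, -I * (((f' x)⁻¹ : ℝ) : ℂ) * (cexp (I * f x) * (I * (f' x : ℂ)))
      = ∫ x in a..b, cexp (I * f x) := by
    apply intervalIntegral.integral_congr
    intro x hx
    rw [hu] at hx
    have h0 : (f' x : ℂ) ≠ 0 := by exact_mod_cast hne x hx
    simp only [Complex.ofReal_inv]
    have hI : I * I = -1 := I_mul_I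
    have hI2 : ((f' x : ℂ))⁻¹ * (f' x : ℂ) = 1 := inv_mul_cancel₀ h0
    calc -I * ((f' x : ℂ))⁻¹ * (cexp (I * f x) * (I * (f' x : ℂ)))
        = -(I * I) * (((f' x : ℂ))⁻¹ * (f' x : ℂ)) * cexp (I * f x) := by ring
      _ = cexp (I * f x) := by rw [hI, hI2]; ring
  rw [hleft] at hparts
  rw [hparts]
  have hnexp : ∀ x, ‖cexp (I * f x)‖ = 1 := by
    intro x
    rw [mul_comm]
    exact Complex.norm_exp_ofReal_mul_I (f x)
  have ha : a ∈ Set.Icc a b := ⟨le_rfl, hab⟩
  have hb : b ∈ Set.Icc a b := ⟨hab, le_rfl⟩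
  have hbd : ∀ x ∈ Set.Icc a b, ‖-I * (((f' x)⁻¹ : ℝ) : ℂ) * cexp (I * f x)‖ ≤ 1 / l := by
    intro x hx
    rw [norm_mul, norm_mul, hnexp, norm_neg, Complex.norm_I, Complex.norm_real, Real.norm_eq_abs,
      abs_inv, one_mul, mul_one, ← one_div]
    exact one_div_le_one_div_of_le hl (habs x hx)
  have hFTC : ∫ x in a..b, -(f'' x) / (f' x) ^ 2 = (f' b)⁻¹ - (f' a)⁻¹ := by
    apply intervalIntegral.integral_eq_sub_of_hasDerivAt
    · intro x hx; rw [hu] at hx; exact hinv x hx
    · exact hIq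
  have hdiff : |(f' b)⁻¹ - (f' a)⁻¹| ≤ 1 / l := by
    rcases hl' with h | h
    · have h3 := h a ha
      have h4 := h b hb
      have h5 : 0 < (f' a)⁻¹ := inv_pos.mpr (by linarith)
      have h6 : 0 < (f' b)⁻¹ := inv_pos.mpr (by linarith)
      have h7 : (f' a)⁻¹ ≤ 1 / l := by
        rw [← one_div]; exact one_div_le_one_div_of_le hl h3
      have h8 : (f' b)⁻¹ ≤ 1 / l := by
        rw [← one_div]; exact one_div_le_one_div_of_le hl h4
      rw [abs_le]; constructor <;> linarith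
    · have h3 := h a ha
      have h4 := h b hb
      have h5 : (f' a)⁻¹ < 0 := inv_lt_zero.mpr (by linarith)
      have h6 : (f' b)⁻¹ < 0 := inv_lt_zero.mpr (by linarith)
      have h7 : -(f' a)⁻¹ ≤ 1 / l := by
        rw [← inv_neg, ← one_div]; exact one_div_le_one_div_of_le hl (by linarith)
      have h8 : -(f' b)⁻¹ ≤ 1 / l := by
        rw [← inv_neg, ← one_div]; exact one_div_le_one_div_of_le hl (by linarith)
      rw [abs_le]; constructor <;> linarith
  have hint : ‖∫ x in a..b, -I * ((-(f'' x) / (f' x) ^ 2 : ℝ) : ℂ) * cexp (I * f x)‖ ≤ 1 / l := by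
    have hle : ‖∫ x in a..b, -I * ((-(f'' x) / (f' x) ^ 2 : ℝ) : ℂ) * cexp (I * f x)‖
        ≤ ∫ x in a..b, |-(f'' x) / (f' x) ^ 2| := by
      refine (intervalIntegral.norm_integral_le_integral_norm hab).trans (le_of_eq ?_)
      apply intervalIntegral.integral_congr
      intro x hx
      simp only
      rw [norm_mul, norm_mul, hnexp, norm_neg, Complex.norm_I, Complex.norm_real,
        Real.norm_eq_abs, one_mul, mul_one]
    refine hle.trans ?_
    rcases hs with h | h
    · have : ∫ x in a..b, |-(f'' x) / (f' x) ^ 2| = -∫ x in a..b, -(f'' x) / (f' x) ^ 2 := by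
        rw [← intervalIntegral.integral_neg]
        apply intervalIntegral.integral_congr
        intro x hx
        rw [hu] at hx
        have h3 := h x hx
        simp only
        rw [abs_of_nonpos]
        exact div_nonpos_of_nonpos_of_nonneg (by linarith) (sq_nonneg _)
      rw [this, hFTC]
      exact (neg_le_abs _).trans hdiff
    · have : ∫ x in a..b, |-(f'' x) / (f' x) ^ 2| = ∫ x in a..b, -(f'' x) / (f' x) ^ 2 := by
        apply intervalIntegral.integral_congr
        intro x hx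
        rw [hu] at hx
        have h3 := h x hx
        simp only
        rw [abs_of_nonneg]
        exact div_nonneg (by linarith) (sq_nonneg _)
      rw [this, hFTC]
      exact (le_abs_self _).trans hdiff
  calc ‖-I * (((f' b)⁻¹ : ℝ) : ℂ) * cexp (I * f b) - -I * (((f' a)⁻¹ : ℝ) : ℂ) * cexp (I * f a)
        - ∫ x in a..b, -I * ((-(f'' x) / (f' x) ^ 2 : ℝ) : ℂ) * cexp (I * f x)‖
      ≤ ‖-I * (((f' b)⁻¹ : ℝ) : ℂ) * cexp (I * f b)‖ + ‖-I * (((f' a)⁻¹ : ℝ) : ℂ) * cexp (I * f a)‖
        + ‖∫ x in a..b, -I * ((-(f'' x) / (f' x) ^ 2 : ℝ) : ℂ) * cexp (I * f x)‖ :=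
        (norm_sub_le _ _).trans (add_le_add_left (norm_sub_le _ _) _)
    _ ≤ 1 / l + 1 / l + 1 / l := add_le_add (add_le_add (hbd b hb) (hbd a ha)) hint
    _ = 3 / l := by ring

end RV11
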