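import Pool.Agent.LibRV11.Defs
import Pool.Agent.LibRV11.TH0
open Complex Real MeasureTheory
open UpperHalfPlane hiding I
open scoped MatrixGroups

namespace RV11

/-! ## Module U, definitions.
`(up, vp)`, `(uq, vq)` are the frame coordinates of the rows `p = (c, d)`, `q = (a + c, b + d)`;
always `uq * vp - vq * up = 1`. -/

/-- separation indicator in frame coordinates -/
noncomputable def sepR (up vp uq vq : ℝ) : ℝ := ind (0 < up * uq + vp * vq) - ind (0 < up * uq)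

/-- piecewise linear cutoff: `0` for `x ≤ 1/4`, `1` for `x ≥ 1` -/
noncomputable def sH (x : ℝ) : ℝ := max 0 (min 1 ((4 * x - 1) / 3))

/-- height ratio -/
noncomputable def Hr (up vp uq vq : ℝ) : ℝ := |uq * vq| / |up * vp|

/-- `1` (for the function) or `± (uq vp + up vq)` (for its derivative in the angle) -/
noncomputable def kapR (e : Bool) (up vp uq vq : ℝ) : ℝ :=
  if e = true then (if 0 < up * uq then 1 else -1) * (uq * vp + up * vq) else 1

/-- basic weight -/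
noncomputable def wR (Z : ℝ → ℝ) (e : Bool) (J up vp uq vq : ℝ) : ℝ :=
  sepR up vp uq vq * Z (J * |up * uq|) * kapR e up vp uq vq

/-- P-part of the weight -/
noncomputable def wP (Z : ℝ → ℝ) (e : Bool) (J up vp uq vq : ℝ) : ℝ :=
  wR Z e J up vp uq vq * sH (Hr up vp uq vq)

/-- Q-part of the weight -/
noncomputable def wQ (Z : ℝ → ℝ) (e : Bool) (J up vp uq vq : ℝ) : ℝ :=
  wR Z e J up vp uq vq * (1 - sH (Hr up vp uq vq))

/-- kernel functions -/
structure IsKer (Z : ℝ → ℝ) : Prop where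
  smooth : ContDiff ℝ 1 Z
  supp : ∀ x, x ≤ 1 / 2 ∨ 2 ≤ x → Z x = 0

/-- a function of the frame coordinates evaluated at a matrix -/
noncomputable def atg (w : ℝ → ℝ → ℝ → ℝ → ℝ) (g : SL(2, ℤ)) (z : ℍ) (φ : ℝ) : ℝ :=
  w (uu z φ (g 1 0) (g 1 1)) (vv z φ (g 1 0) (g 1 1))
    (uu z φ (g 0 0 + g 1 0) (g 0 1 + g 1 1)) (vv z φ (g 0 0 + g 1 0) (g 0 1 + g 1 1))

/-- norms of the two rows -/
noncomputable def NP (g : SL(2, ℤ)) (z : ℍ) : ℝ := Np z (g 1 0) (g 1 1)
noncomputable def NQ (g : SL(2, ℤ)) (z : ℍ) : ℝ := Np z (g 0 0 + g 1 0) (g 0 1 + g 1 1)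

/-- the general wall sum with weight `w` over a set of matrices -/
noncomputable def VS (w : ℝ → ℝ → ℝ → ℝ → ℝ) (r : ℝ) (S : Set SL(2, ℤ)) (z : ℍ) (φ : ℝ) : ℂ :=
  om r / 2 * ∑' g : Gam, S.indicator (fun g : SL(2, ℤ) => chi g * (atg w g z φ : ℂ) *
    phh r (g • z)) g

/-- `-e^{iπ/4}` -/
noncomputable def kp : ℂ := -cexp (π * I / 4)

/-- `A(w) = (-iw)^{-1/2} e^{-iπ r/w}` -/
noncomputable def AA (r : ℝ) (w : ℂ) : ℂ := (-I * w) ^ (-(1 / 2) : ℂ) * cexp (-(π * I * r / w))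

/-- the parabolic matrix fixing `-1`: `(p, q) ↦ (p + q, q)`. -/
def PP : SL(2, ℤ) := ⟨!![0, -1; 1, 2], by simp [Matrix.det_fin_two]⟩

/-- bottom rows of the theta group -/
def RowP : Type := {p : ℤ × ℤ // IsCoprime p.1 p.2 ∧ Odd (p.1 + p.2)}

/-- sums of the two rows -/
def RowQ : Type := {q : ℤ × ℤ // IsCoprime q.1 q.2 ∧ Odd q.1 ∧ Odd q.2}

end RV11
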