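import Pool.Agent.LibRV11.U0
open Complex Real MeasureTheory
open UpperHalfPlane hiding I
open scoped MatrixGroups

namespace RV11

/-! ### U01: algebra of separated frames -/

/-- the frame `(up, vp, uq, vq)` is separated -/
structure Sep (up vp uq vq : ℝ) : Prop where
  det : uq * vp - vq * up = 1
  s : sepR up vp uq vq ≠ 0
  d : up * uq ≠ 0

theorem Sep.cases {up vp uq vq : ℝ} (h : Sep up vp uq vq) :
    (0 < up * uq + vp * vq ∧ up * uq < 0) ∨ (up * uq + vp * vq ≤ 0 ∧ 0 < up * uq) := by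
  have hs := h.s
  have hd := h.d
  unfold sepR ind at hs
  by_cases h1 : 0 < up * uq + vp * vq <;> by_cases h2 : 0 < up * uq
  · simp [h1, h2] at hs
  · exact Or.inl ⟨h1, lt_of_le_of_ne (not_lt.mp h2) hd⟩
  · exact Or.inr ⟨not_lt.mp h1, h2⟩
  · simp [h1, h2] at hs

theorem Sep.opp {up vp uq vq : ℝ} (h : Sep up vp uq vq) : (up * uq) * (vp * vq) < 0 := by
  rcases h.cases with ⟨h1, h2⟩ | ⟨h1, h2⟩
  · have : 0 < vp * vq := by linarith
    exact mul_neg_of_neg_of_pos h2 this
  · have : vp * vq < 0 := by linarith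
    exact mul_neg_of_pos_of_neg h2 this

theorem Sep.abs_le {up vp uq vq : ℝ} (h : Sep up vp uq vq) : |up * uq| ≤ |vp * vq| := by
  rcases h.cases with ⟨h1, h2⟩ | ⟨h1, h2⟩
  · rw [abs_of_neg h2, abs_of_pos (by linarith)]; linarith
  · rw [abs_of_pos h2, abs_of_neg (by linarith)]; linarith

theorem Sep.sum {up vp uq vq : ℝ} (h : Sep up vp uq vq) : |uq * vp| + |up * vq| = 1 := by
  have hdet := h.det
  have hopp := h.opp
  have h1 : (uq * vp) * (-(up * vq)) > 0 := by nlinarith
  rcases pos_and_pos_or_neg_and_neg_of_mul_pos h1 with ⟨h2, h3⟩ | ⟨h2, h3⟩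
  · rw [abs_of_pos h2, abs_of_neg (by linarith)]; linarith
  · exfalso; nlinarith

theorem Sep.quarter' {up vp uq vq : ℝ} (h : Sep up vp uq vq) :
    |uq * vp| * |up * vq| ≤ 1 / 4 := by
  have h1 := h.sum
  nlinarith [sq_nonneg (|uq * vp| - |up * vq|)]

theorem Sep.quarter'' {up vp uq vq : ℝ} (h : Sep up vp uq vq) :
    |up * uq| * |vp * vq| ≤ 1 / 4 := by
  have h1 := h.quarter'
  have : |up * uq| * |vp * vq| = |uq * vp| * |up * vq| := by
    simp only [abs_mul]; ring
  rw [this]; exact h1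

theorem Sep.half {up vp uq vq : ℝ} (h : Sep up vp uq vq) : |up * uq| ≤ 1 / 2 := by
  have h1 := h.quarter''
  have h2 := h.abs_le
  have h3 : |up * uq| * |up * uq| ≤ 1 / 4 :=
    (mul_le_mul_of_nonneg_left h2 (abs_nonneg _)).trans h1
  nlinarith [abs_nonneg (up * uq)]

theorem Sep.quarter {up vp uq vq : ℝ} (h : Sep up vp uq vq) : |up * vp| * |uq * vq| ≤ 1 / 4 := by
  have h1 := h.quarter'
  have : |up * vp| * |uq * vq| = |uq * vp| * |up * vq| := by
    simp only [abs_mul]; ring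
  rw [this]; exact h1

theorem Sep.dot {up vp uq vq : ℝ} (h : Sep up vp uq vq) :
    |up * uq + vp * vq| * |up * uq| ≤ 1 / 4 := by
  have h1 := h.quarter''
  have h2 : |up * uq + vp * vq| ≤ |vp * vq| := by
    rcases h.cases with ⟨h1, h2⟩ | ⟨h1, h2⟩
    · rw [abs_of_pos h1, abs_of_pos (by linarith)]; linarith
    · rw [abs_of_nonpos h1, abs_of_neg (by linarith)]; linarith
  calc |up * uq + vp * vq| * |up * uq| ≤ |vp * vq| * |up * uq| :=
        mul_le_mul_of_nonneg_right h2 (abs_nonneg _)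
    _ = |up * uq| * |vp * vq| := mul_comm _ _
    _ ≤ 1 / 4 := h1

theorem Sep.kap {up vp uq vq : ℝ} (h : Sep up vp uq vq) (e : Bool) : |kapR e up vp uq vq| ≤ 1 := by
  have h1 : |uq * vp + up * vq| ≤ 1 := (abs_add_le _ _).trans h.sum.le
  unfold kapR
  split_ifs
  · rw [one_mul]; exact h1
  · rw [neg_one_mul, abs_neg]; exact h1
  · simp

theorem abs_sepR_le (up vp uq vq : ℝ) : |sepR up vp uq vq| ≤ 1 := by
  unfold sepR ind
  split_ifs <;> norm_num

/-- nonzero weight gives separation and the size of `Δ` -/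
theorem sep_of_wR {Z : ℝ → ℝ} (hZ : IsKer Z) {e : Bool} {J up vp uq vq : ℝ} (hJ : 0 < J)
    (hdet : uq * vp - vq * up = 1) (h : wR Z e J up vp uq vq ≠ 0) :
    Sep up vp uq vq ∧ 1 / (2 * J) ≤ |up * uq| ∧ |up * uq| ≤ 2 / J := by
  unfold wR at h
  have h1 : sepR up vp uq vq ≠ 0 := by
    intro h0; apply h; rw [h0]; ring
  have h2 : Z (J * |up * uq|) ≠ 0 := by
    intro h0; apply h; rw [h0]; ring
  have h3 : 1 / 2 < J * |up * uq| ∧ J * |up * uq| < 2 := by
    constructor
    · by_contra hc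
      exact h2 (hZ.supp _ (Or.inl (not_lt.mp hc)))
    · by_contra hc
      exact h2 (hZ.supp _ (Or.inr (not_lt.mp hc)))
  refine ⟨⟨hdet, h1, ?_⟩, ?_, ?_⟩
  · intro h0
    rw [h0] at h3
    norm_num at h3
  · rw [div_le_iff₀ (by positivity)]
    nlinarith [h3.1]
  · rw [le_div_iff₀ hJ]
    nlinarith [h3.2]

/-- fact (a) -/
theorem Sep.factA {up vp uq vq : ℝ} (h : Sep up vp uq vq) (hH : |up * vp| < 4 * |uq * vq|) :
    |up * vp| ≤ 1 ∧ (up ^ 2 < vp ^ 2 ∨ up ^ 2 + vp ^ 2 < 4) := by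
  have hq := h.quarter
  have h0 := abs_nonneg (up * vp)
  refine ⟨?_, ?_⟩
  · nlinarith
  · by_contra hc
    push Not at hc
    obtain ⟨h1, h2⟩ := hc
    -- vp^2 ≤ up^2, N ≥ 4 so up^2 ≥ 2
    have hup2 : 2 ≤ up ^ 2 := by linarith
    have hopp := h.opp
    have hne : up ≠ 0 := by intro h'; rw [h'] at hup2; norm_num at hup2
    -- |uq| |up| ≤ |vp| |vq|
    have hab := h.abs_le
    rw [abs_mul, abs_mul] at hab
    have hsum := h.sum
    rw [abs_mul, abs_mul] at hsum
    have hB : |up| * |vq| ≤ 1 := by nlinarith [mul_nonneg (abs_nonneg uq) (abs_nonneg vp)]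
    have hvp : |vp| ≤ |up| := by
      rw [← sq_le_sq]; exact h1
    rw [abs_mul, abs_mul] at hH
    -- |up||vp| < 4 |uq||vq|; multiply by |up|
    have hu : 0 < |up| := abs_pos.mpr hne
    have hv : 0 < |vp| := by
      rcases eq_or_lt_of_le (abs_nonneg vp) with h' | h'
      · rw [eq_comm, abs_eq_zero] at h'
        rw [h'] at hopp; simp at hopp
      · exact h'
    have h5 : |up| * (|up| * |vp|) < |up| * (4 * (|uq| * |vq|)) := mul_lt_mul_of_pos_left hH hu
    have h6 : |up| * (4 * (|uq| * |vq|)) ≤ 4 * (|vp| * |vq|) * |vq| := by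
      have : |up| * (4 * (|uq| * |vq|)) = 4 * (|up| * |uq|) * |vq| := by ring
      rw [this]
      have h7 := abs_nonneg vq
      nlinarith [mul_le_mul_of_nonneg_right hab h7]
    have h8 : |up| ^ 2 * |vp| < 4 * |vp| * |vq| ^ 2 := by nlinarith
    have h9 : |up| ^ 2 < 4 * |vq| ^ 2 := by
      have : |vp| * |up| ^ 2 < |vp| * (4 * |vq| ^ 2) := by nlinarith
      exact lt_of_mul_lt_mul_left this hv.le
    -- |up|^2 ≥ 2, |up|^2|vq|^2 ≤ 1
    have h10 : (|up| * |vq|) ^ 2 ≤ 1 := by
      have := mul_nonneg (abs_nonneg up) (abs_nonneg vq)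
      nlinarith
    have h11 : 2 ≤ |up| ^ 2 := by rwa [sq_abs]
    nlinarith

/-- fact (b) -/
theorem Sep.factB {up vp uq vq : ℝ} (h : Sep up vp uq vq) (hH : |uq * vq| < |up * vp|) :
    |uq * vq| ≤ 1 / 2 ∧ (uq ^ 2 < vq ^ 2 ∨ uq ^ 2 + vq ^ 2 < 2) := by
  have hq := h.quarter
  have h0 := abs_nonneg (uq * vq)
  refine ⟨?_, ?_⟩
  · nlinarith
  · by_contra hc
    push Not at hc
    obtain ⟨h1, h2⟩ := hc
    have huq2 : 1 ≤ uq ^ 2 := by linarith
    have hopp := h.opp
    have hne : uq ≠ 0 := by intro h'; rw [h'] at huq2; norm_num at huq2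
    have hab := h.abs_le
    rw [abs_mul, abs_mul] at hab
    have hsum := h.sum
    rw [abs_mul, abs_mul] at hsum
    have hA : |uq| * |vp| ≤ 1 := by nlinarith [mul_nonneg (abs_nonneg up) (abs_nonneg vq)]
    rw [abs_mul, abs_mul] at hH
    have hu : 0 < |uq| := abs_pos.mpr hne
    have hv : 0 < |vq| := by
      rcases eq_or_lt_of_le (abs_nonneg vq) with h' | h'
      · rw [eq_comm, abs_eq_zero] at h'
        rw [h'] at hopp; simp at hopp
      · exact h'
    have hvp := abs_nonneg vp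
    -- |uq||uq||vq| < |uq||up||vp| ≤ |vp||vq||vp|
    have h5 : |uq| * (|uq| * |vq|) < |uq| * (|up| * |vp|) := mul_lt_mul_of_pos_left hH hu
    have h6 : |uq| * (|up| * |vp|) ≤ |vp| * |vq| * |vp| := by
      have : |uq| * (|up| * |vp|) = (|up| * |uq|) * |vp| := by ring
      rw [this]
      exact mul_le_mul_of_nonneg_right hab hvp
    have h9 : |uq| ^ 2 < |vp| ^ 2 := by
      have : |vq| * |uq| ^ 2 < |vq| * |vp| ^ 2 := by nlinarith
      exact lt_of_mul_lt_mul_left this hv.le
    have h10 : (|uq| * |vp|) ^ 2 ≤ 1 := by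
      have := mul_nonneg (abs_nonneg uq) (abs_nonneg vp)
      nlinarith
    have h11 : 1 ≤ |uq| ^ 2 := by rwa [sq_abs]
    nlinarith

/-- fact (c): near terms of Q-blocks -/
theorem Sep.factC {up vp uq vq : ℝ} (h : Sep up vp uq vq) (hH : |uq * vq| < |up * vp|)
    (h1 : 1 < uq ^ 2 + vq ^ 2) (h2 : |up * uq + vp * vq| ≤ uq ^ 2 + vq ^ 2) :
    (|up * vp| ≤ 3 ∧ up ^ 2 < vp ^ 2) ∨ up ^ 2 + vp ^ 2 ≤ 4 := by
  have hsum := h.sum
  have hab := h.abs_le
  have hhalf := h.half
  have hvv : |vp * vq| ≤ uq ^ 2 + vq ^ 2 + 1 / 2 := by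
    have : |vp * vq| ≤ |up * uq + vp * vq| + |up * uq| := by
      have := abs_sub_abs_le_abs_sub (vp * vq) (-(up * uq))
      rw [abs_neg, sub_neg_eq_add] at this
      have h' : vp * vq + up * uq = up * uq + vp * vq := by ring
      rw [h'] at this; linarith
    linarith
  rw [abs_mul, abs_mul] at hsum hab hH
  rw [abs_mul] at hvv hhalf
  have hA : |uq| * |vp| ≤ 1 := by nlinarith [mul_nonneg (abs_nonneg up) (abs_nonneg vq)]
  have hB : |up| * |vq| ≤ 1 := by nlinarith [mul_nonneg (abs_nonneg uq) (abs_nonneg vp)]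
  have e1 : up ^ 2 = |up| ^ 2 := (sq_abs _).symm
  have e2 : vp ^ 2 = |vp| ^ 2 := (sq_abs _).symm
  have e3 : uq ^ 2 = |uq| ^ 2 := (sq_abs _).symm
  have e4 : vq ^ 2 = |vq| ^ 2 := (sq_abs _).symm
  rw [abs_mul]
  rw [e1, e2]
  rw [e3, e4] at h1 hvv
  have g1 := abs_nonneg up
  have g2 := abs_nonneg vp
  have g3 := abs_nonneg uq
  have g4 := abs_nonneg vq
  generalize |up| = a at *
  generalize |vp| = b at *
  generalize |uq| = c at *
  generalize |vq| = d at *
  clear e1 e2 e3 e4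
  by_cases hcd : c ^ 2 < d ^ 2
  · -- d^2 > 1/2
    have hd2 : 1 / 2 < d ^ 2 := by linarith
    have hd0 : 0 < d := by
      rcases eq_or_lt_of_le g4 with h' | h'
      · rw [← h'] at hd2; norm_num at hd2
      · exact h'
    by_cases hab' : a ^ 2 < b ^ 2
    · left
      refine ⟨?_, hab'⟩
      -- a b d^2 = (a d)(b d) ≤ b d ≤ 2 d^2 + 1/2 ≤ 3 d^2
      have h5 : (a * b) * d ^ 2 ≤ 3 * d ^ 2 := by
        have : (a * b) * d ^ 2 = (a * d) * (b * d) := by ring
        rw [this]
        have h6 : (a * d) * (b * d) ≤ 1 * (b * d) :=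
          mul_le_mul_of_nonneg_right hB (mul_nonneg g2 g4)
        linarith
      exact le_of_mul_le_mul_right h5 (by positivity)
    · right
      push Not at hab'
      -- a^2 d^2 ≤ 1, d^2>1/2 => a^2 < 2
      have h6 : (a * d) ^ 2 ≤ 1 := by nlinarith [mul_nonneg g1 g4]
      nlinarith
  · push Not at hcd
    right
    have hc2 : 1 / 2 < c ^ 2 := by linarith
    have hc0 : 0 < c := by
      rcases eq_or_lt_of_le g3 with h' | h'
      · rw [← h'] at hc2; norm_num at hc2
      · exact h'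
    have hdc : d ≤ c := by
      by_contra hh; push Not at hh; nlinarith
    -- a c ≤ b d ≤ b c => a ≤ b
    have h5 : a ≤ b := by
      have : a * c ≤ b * c := hab.trans (mul_le_mul_of_nonneg_left hdc g2)
      exact le_of_mul_le_mul_right this hc0
    have h6 : (c * b) ^ 2 ≤ 1 := by nlinarith [mul_nonneg g3 g2]
    have h7 : b ^ 2 ≤ 2 := by nlinarith
    nlinarith

/-- multiplicity: for a fixed row `p` at most two `q + 2kp` are separated with height ratio `< 1`. -/
theorem multiplicity {up vp uq vq : ℝ} (hdet : uq * vp - vq * up = 1) (S : Finset ℤ)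
    (hS : ∀ k ∈ S, Sep up vp (uq + 2 * k * up) (vq + 2 * k * vp) ∧
      |(uq + 2 * k * up) * (vq + 2 * k * vp)| < |up * vp|) : S.card ≤ 2 := by
  by_contra hcard
  push Not at hcard
  have hne : S.Nonempty := Finset.card_pos.mp (by omega)
  have h13 : ∃ k2 ∈ S, k2 ≠ S.min' hne ∧ k2 ≠ S.max' hne := by
    by_contra hc
    push Not at hc
    have : S ⊆ {S.min' hne, S.max' hne} := by
      intro k hk
      by_cases h : k = S.min' hne
      · rw [h]; simp
      · rw [hc k hk h]; simp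
    have := Finset.card_le_card this
    have h2 := Finset.card_le_two (a := S.min' hne) (b := S.max' hne)
    omega
  obtain ⟨k2, hk2, hne1, hne3⟩ := h13
  have hk1 := S.min'_mem hne
  have hk3 := S.max'_mem hne
  have hlt1 : S.min' hne + 1 ≤ k2 := by
    have := S.min'_le k2 hk2
    omega
  have hlt3 : k2 + 1 ≤ S.max' hne := by
    have := S.le_max' k2 hk2
    omega
  obtain ⟨hs1, hh1⟩ := hS _ hk1
  obtain ⟨hs2, hh2⟩ := hS _ hk2
  obtain ⟨hs3, hh3⟩ := hS _ hk3
  generalize S.min' hne = k1 at *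
  generalize S.max' hne = k3 at *
  have hopp2 := hs2.opp
  have hopp1 := hs1.opp
  have hopp3 := hs3.opp
  have hup : up * vp ≠ 0 := by
    intro h0
    have : (up * (uq + 2 * k2 * up)) * (vp * (vq + 2 * k2 * vp)) =
      (up * vp) * ((uq + 2 * k2 * up) * (vq + 2 * k2 * vp)) := by ring
    rw [this, h0, zero_mul] at hopp2
    exact lt_irrefl _ hopp2
  have hup0 : up ≠ 0 := left_ne_zero_of_mul hup
  have hvp0 : vp ≠ 0 := right_ne_zero_of_mul hup
  set x := uq / up with hx
  set x' := vq / vp with hx'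
  have hux : ∀ k : ℝ, uq + 2 * k * up = up * (x + 2 * k) := by
    intro k; rw [hx]; field_simp
  have hvx : ∀ k : ℝ, vq + 2 * k * vp = vp * (x' + 2 * k) := by
    intro k; rw [hx']; field_simp
  have key : ∀ k : ℝ, (up * (uq + 2 * k * up)) * (vp * (vq + 2 * k * vp)) < 0 →
      (x + 2 * k) * (x' + 2 * k) < 0 := by
    intro k hk
    rw [hux, hvx] at hk
    have : (up * (up * (x + 2 * k))) * (vp * (vp * (x' + 2 * k))) =
      (up * vp) ^ 2 * ((x + 2 * k) * (x' + 2 * k)) := by ring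
    rw [this] at hk
    have h2 : 0 < (up * vp) ^ 2 := by positivity
    by_contra hc
    push Not at hc
    have := mul_nonneg h2.le hc
    linarith
  have f1 := key k1 hopp1
  have f2 := key k2 hopp2
  have f3 := key k3 hopp3
  have g2 : |(x + 2 * k2) * (x' + 2 * k2)| < 1 := by
    rw [hux, hvx] at hh2
    have : up * (x + 2 * k2) * (vp * (x' + 2 * k2)) = (up * vp) * ((x + 2 * k2) * (x' + 2 * k2)) := by
      ring
    rw [this, abs_mul] at hh2
    have hpos : 0 < |up * vp| := abs_pos.mpr hup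
    by_contra hc
    push Not at hc
    have := mul_le_mul_of_nonneg_left hc hpos.le
    linarith
  rw [abs_lt] at g2
  have c1 : (k1 : ℝ) + 1 ≤ k2 := by exact_mod_cast hlt1
  have c3 : (k2 : ℝ) + 1 ≤ k3 := by exact_mod_cast hlt3
  -- signs
  rcases mul_neg_iff.mp f2 with ⟨p2, q2⟩ | ⟨p2, q2⟩
  · rcases mul_neg_iff.mp f1 with ⟨p1, q1⟩ | ⟨p1, q1⟩
    · rcases mul_neg_iff.mp f3 with ⟨p3, q3⟩ | ⟨p3, q3⟩
      · nlinarith
      · linarith
    · linarith
  · rcases mul_neg_iff.mp f1 with ⟨p1, q1⟩ | ⟨p1, q1⟩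
    · linarith
    · rcases mul_neg_iff.mp f3 with ⟨p3, q3⟩ | ⟨p3, q3⟩
      · linarith
      · nlinarith

/-- `sH` facts -/
theorem sH_mem (x : ℝ) : 0 ≤ sH x ∧ sH x ≤ 1 := by
  unfold sH
  exact ⟨le_max_left _ _, max_le (by norm_num) (min_le_left _ _)⟩

theorem lt_of_sH_ne_zero {up vp uq vq : ℝ} (h : Sep up vp uq vq)
    (hs : sH (Hr up vp uq vq) ≠ 0) : |up * vp| < 4 * |uq * vq| := by
  have hopp := h.opp
  have hpos : 0 < |up * vp| := by
    rw [abs_pos]
    intro h0
    have : (up * uq) * (vp * vq) = (up * vp) * (uq * vq) := by ring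
    rw [this, h0, zero_mul] at hopp
    exact lt_irrefl _ hopp
  by_contra hc
  push Not at hc
  apply hs
  unfold sH Hr
  have h1 : |uq * vq| / |up * vp| ≤ 1 / 4 := by
    rw [div_le_iff₀ hpos]; linarith
  apply max_eq_left
  apply (min_le_right _ _).trans
  linarith

theorem lt_of_sH_ne_one {up vp uq vq : ℝ} (h : Sep up vp uq vq)
    (hs : 1 - sH (Hr up vp uq vq) ≠ 0) : |uq * vq| < |up * vp| := by
  have hopp := h.opp
  have hpos : 0 < |up * vp| := by
    rw [abs_pos]
    intro h0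
    have : (up * uq) * (vp * vq) = (up * vp) * (uq * vq) := by ring
    rw [this, h0, zero_mul] at hopp
    exact lt_irrefl _ hopp
  by_contra hc
  push Not at hc
  apply hs
  unfold sH Hr
  have h1 : 1 ≤ |uq * vq| / |up * vp| := by
    rw [le_div_iff₀ hpos]; linarith
  rw [min_eq_left (by linarith), max_eq_right (by norm_num)]
  ring

theorem contDiff_zet {n : ℕ∞} : ContDiff ℝ n zet := by
  unfold zet eta
  have h1 : ContDiff ℝ n (fun x : ℝ => Real.smoothTransition (2 - x)) :=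
    Real.smoothTransition.contDiff.comp (contDiff_const.sub contDiff_id)
  exact h1.sub (h1.comp (contDiff_const.mul contDiff_id))

theorem zet_supp (x : ℝ) (hx : x ≤ 1 / 2 ∨ 2 ≤ x) : zet x = 0 := by
  unfold zet eta
  rcases hx with hx | hx
  · rw [Real.smoothTransition.one_of_one_le (by linarith),
      Real.smoothTransition.one_of_one_le (by linarith)]; ring
  · rw [Real.smoothTransition.zero_of_nonpos (by linarith),
      Real.smoothTransition.zero_of_nonpos (by linarith)]; ring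

theorem isKer_zet : IsKer zet := ⟨contDiff_zet (n := 1), zet_supp⟩

theorem hasDerivAt_zet (x : ℝ) : HasDerivAt zet (deriv zet x) x :=
  ((contDiff_zet (n := 1)).differentiable (by norm_num) x).hasDerivAt

theorem isKer_deriv_zet : IsKer (deriv zet) := by
  have hc2 : ContDiff ℝ 2 zet := contDiff_zet (n := 2)
  have hc1 : ContDiff ℝ 1 (deriv zet) := by
    have := (contDiff_succ_iff_deriv (n := 1) (f := zet)).mp (by exact_mod_cast hc2)
    exact this.2.2
  refine ⟨hc1, ?_⟩
  have hcont : Continuous (deriv zet) := hc1.continuous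
  have hlt : ∀ x < 1 / 2, deriv zet x = 0 := by
    intro x hx
    have : zet =ᶠ[nhds x] fun _ => 0 := by
      filter_upwards [Iio_mem_nhds hx] with y hy
      exact zet_supp y (Or.inl (le_of_lt hy))
    rw [this.deriv_eq]; simp
  have hgt : ∀ x > 2, deriv zet x = 0 := by
    intro x hx
    have : zet =ᶠ[nhds x] fun _ => 0 := by
      filter_upwards [Ioi_mem_nhds hx] with y hy
      exact zet_supp y (Or.inr (le_of_lt hy))
    rw [this.deriv_eq]; simp
  intro x hx
  rcases hx with hx | hx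
  · rcases eq_or_lt_of_le hx with h | h
    · have hcl : x ∈ closure (Set.Iio (1 / 2 : ℝ)) := by
        rw [closure_Iio' ⟨0, by norm_num⟩, h]; exact Set.mem_Iic.mpr le_rfl
      exact (isClosed_eq hcont continuous_const).closure_subset_iff.mpr
        (fun y hy => hlt y hy) hcl
    · exact hlt x h
  · rcases eq_or_lt_of_le hx with h | h
    · have hcl : x ∈ closure (Set.Ioi (2 : ℝ)) := by
        rw [closure_Ioi' ⟨3, by norm_num⟩, ← h]; exact Set.mem_Ici.mpr le_rfl
      exact (isClosed_eq hcont continuous_const).closure_subset_iff.mpr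
        (fun y hy => hgt y hy) hcl
    · exact hgt x h

end RV11
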