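import Pool.Agent.LibRV11.U01
import Pool.Agent.LibRV11.Theta
open Complex Real MeasureTheory
open UpperHalfPlane hiding I
open scoped MatrixGroups

namespace RV11

/-! ### U02: finiteness of the wall sums -/

private theorem det_real (g : SL(2, ℤ)) :
    ((g 0 0 : ℝ) + (g 1 0 : ℝ)) * (g 1 1 : ℝ) - ((g 0 1 : ℝ) + (g 1 1 : ℝ)) * (g 1 0 : ℝ) = 1 := by
  have h := Matrix.SpecialLinearGroup.det_coe g
  rw [Matrix.det_fin_two] at h
  have h2 : ((g 0 0 * g 1 1 - g 0 1 * g 1 0 : ℤ) : ℝ) = 1 := by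
    rw [h]; norm_num
  push_cast at h2
  linarith

theorem atg_det (g : SL(2, ℤ)) (z : ℍ) (φ : ℝ) :
    atg (fun up vp uq vq => uq * vp - vq * up) g z φ = 1 := by
  exact (uu_vv_det z φ _ _ _ _).trans (det_real g)

theorem NP_mul_NQ (g : SL(2, ℤ)) (z : ℍ) (φ : ℝ) :
    NP g z * NQ g z = (atg (fun up vp uq vq => up * uq + vp * vq) g z φ) ^ 2 + 1 := by
  have h := atg_det g z φ
  unfold atg at h ⊢
  rw [NP, NQ, ← uu_sq_add_vv_sq z φ, ← uu_sq_add_vv_sq z φ]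
  linear_combination (uu z φ (↑(g 0 0) + ↑(g 1 0)) (↑(g 0 1) + ↑(g 1 1)) * vv z φ ↑(g 1 0) ↑(g 1 1) -
    vv z φ (↑(g 0 0) + ↑(g 1 0)) (↑(g 0 1) + ↑(g 1 1)) * uu z φ ↑(g 1 0) ↑(g 1 1) + 1) * h

private theorem Np_lower (z : ℍ) (c d : ℝ) :
    c ^ 2 + d ^ 2 ≤ ((2 + (1 + 2 * z.re ^ 2) / z.im ^ 2) * z.im) * Np z c d := by
  have hy : 0 < z.im := z.im_pos
  have h1 : ‖(c : ℂ) * (z : ℂ) + d‖ ^ 2 = (c * z.re + d) ^ 2 + (c * z.im) ^ 2 := by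
    rw [Complex.sq_norm, normSq_apply]
    simp
    ring
  rw [Np, h1]
  have e : ((2 + (1 + 2 * z.re ^ 2) / z.im ^ 2) * z.im) *
      (((c * z.re + d) ^ 2 + (c * z.im) ^ 2) / z.im) =
      2 * (c * z.re + d) ^ 2 + 2 * (c * z.im) ^ 2 +
        (1 + 2 * z.re ^ 2) / z.im ^ 2 * (c * z.re + d) ^ 2 + (1 + 2 * z.re ^ 2) * c ^ 2 := by
    field_simp
    ring
  rw [e]
  have h2 : 0 ≤ (1 + 2 * z.re ^ 2) / z.im ^ 2 * (c * z.re + d) ^ 2 := by positivity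
  nlinarith [sq_nonneg (2 * c * z.re + d), sq_nonneg (c * z.im)]

private theorem row_sq_ge_one {c d : ℤ} (h : ¬ (c = 0 ∧ d = 0)) : (1 : ℝ) ≤ (c : ℝ) ^ 2 + (d : ℝ) ^ 2 := by
  have : 1 ≤ c ^ 2 + d ^ 2 := by
    by_contra hcon
    push Not at hcon
    have h1 : c ^ 2 ≥ 0 := sq_nonneg c
    have h2 : d ^ 2 ≥ 0 := sq_nonneg d
    have hc : c ^ 2 = 0 := by omega
    have hd : d ^ 2 = 0 := by omega
    exact h ⟨by simpa using hc, by simpa using hd⟩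
  exact_mod_cast this

private theorem abs_le_of_sq {c d : ℤ} {B : ℝ} (h : (c : ℝ) ^ 2 + (d : ℝ) ^ 2 ≤ B) :
    c ∈ Set.Icc (-⌈B⌉) ⌈B⌉ ∧ d ∈ Set.Icc (-⌈B⌉) ⌈B⌉ := by
  have hB : B ≤ (⌈B⌉ : ℝ) := Int.le_ceil B
  have h1 : ((c ^ 2 + d ^ 2 : ℤ) : ℝ) ≤ ((⌈B⌉ : ℤ) : ℝ) := by push_cast; linarith
  have h2 : c ^ 2 + d ^ 2 ≤ ⌈B⌉ := by exact_mod_cast h1
  have hc : |c| ≤ c ^ 2 := by
    rw [← sq_abs]
    rcases eq_or_lt_of_le (abs_nonneg c) with h | h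
    · rw [← h]; norm_num
    · nlinarith
  have hd : |d| ≤ d ^ 2 := by
    rw [← sq_abs]
    rcases eq_or_lt_of_le (abs_nonneg d) with h | h
    · rw [← h]; norm_num
    · nlinarith
  have hc' : |c| ≤ ⌈B⌉ := by nlinarith [sq_nonneg d]
  have hd' : |d| ≤ ⌈B⌉ := by nlinarith [sq_nonneg c]
  exact ⟨abs_le.mp hc', abs_le.mp hd'⟩

/-- the sets `NP * NQ ≤ K` are finite, locally uniformly in `z` -/
theorem finite_NPNQ (z : ℍ) (K : ℝ) : {g : SL(2, ℤ) | NP g z * NQ g z ≤ K}.Finite := by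
  set M : ℝ := (2 + (1 + 2 * z.re ^ 2) / z.im ^ 2) * z.im with hM
  have hMpos : 0 < M := by have := z.im_pos; positivity
  set B : ℝ := M * (|K| * M) with hB
  set I4 : Set (ℤ × ℤ × ℤ × ℤ) := (Set.Icc (-⌈B⌉) ⌈B⌉) ×ˢ (Set.Icc (-⌈B⌉) ⌈B⌉) ×ˢ
    (Set.Icc (-⌈B⌉) ⌈B⌉) ×ˢ (Set.Icc (-⌈B⌉) ⌈B⌉) with hI4
  have hfin : I4.Finite :=
    (Set.finite_Icc _ _).prod ((Set.finite_Icc _ _).prod ((Set.finite_Icc _ _).prod
      (Set.finite_Icc _ _)))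
  refine Set.Finite.of_injOn
    (f := fun g : SL(2, ℤ) => (g 1 0, g 1 1, g 0 0 + g 1 0, g 0 1 + g 1 1)) ?_ ?_ hfin
  · intro g hg
    have hg : NP g z * NQ g z ≤ K := hg
    have hd := det_real g
    have hdet : (g 0 0 + g 1 0) * g 1 1 - (g 0 1 + g 1 1) * g 1 0 = 1 := by
      have : (((g 0 0 + g 1 0) * g 1 1 - (g 0 1 + g 1 1) * g 1 0 : ℤ) : ℝ) = ((1 : ℤ) : ℝ) := by
        push_cast; linarith
      exact_mod_cast this
    have hp : ¬ (g 1 0 = 0 ∧ g 1 1 = 0) := by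
      rintro ⟨h1, h2⟩
      rw [h1, h2] at hdet
      simp at hdet
    have hq : ¬ (g 0 0 + g 1 0 = 0 ∧ g 0 1 + g 1 1 = 0) := by
      rintro ⟨h1, h2⟩
      rw [h1, h2] at hdet
      simp at hdet
    have hp1 := row_sq_ge_one hp
    have hq1 := row_sq_ge_one hq
    push_cast at hq1
    have hp2 := Np_lower z (g 1 0) (g 1 1)
    have hq2 := Np_lower z (g 0 0 + g 1 0) (g 0 1 + g 1 1)
    rw [← hM] at hp2 hq2
    change _ ≤ M * NP g z at hp2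
    change _ ≤ M * NQ g z at hq2
    have hNP : 1 ≤ M * NP g z := hp1.trans hp2
    have hNQ : 1 ≤ M * NQ g z := hq1.trans hq2
    have hNP0 : 0 ≤ NP g z := by
      rw [NP, Np]; have := z.im_pos; positivity
    have hNQ0 : 0 ≤ NQ g z := by
      rw [NQ, Np]; have := z.im_pos; positivity
    have hK : NP g z * NQ g z ≤ |K| := hg.trans (le_abs_self K)
    have hNPle : NP g z ≤ |K| * M := by
      calc NP g z = NP g z * 1 := by ring
        _ ≤ NP g z * (M * NQ g z) := by gcongr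
        _ = NP g z * NQ g z * M := by ring
        _ ≤ |K| * M := by gcongr
    have hNQle : NQ g z ≤ |K| * M := by
      calc NQ g z = NQ g z * 1 := by ring
        _ ≤ NQ g z * (M * NP g z) := by gcongr
        _ = NP g z * NQ g z * M := by ring
        _ ≤ |K| * M := by gcongr
    have hp3 : (g 1 0 : ℝ) ^ 2 + (g 1 1 : ℝ) ^ 2 ≤ B := by
      refine hp2.trans ?_
      rw [hB]; gcongr
    have hq3 : ((g 0 0 + g 1 0 : ℤ) : ℝ) ^ 2 + ((g 0 1 + g 1 1 : ℤ) : ℝ) ^ 2 ≤ B := by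
      push_cast
      refine hq2.trans ?_
      rw [hB]; gcongr
    obtain ⟨a1, a2⟩ := abs_le_of_sq hp3
    obtain ⟨a3, a4⟩ := abs_le_of_sq hq3
    exact ⟨a1, a2, a3, a4⟩
  · intro g _ k _ h
    simp only [Prod.mk.injEq] at h
    obtain ⟨h1, h2, h3, h4⟩ := h
    have h5 : g 0 0 = k 0 0 := by omega
    have h6 : g 0 1 = k 0 1 := by omega
    apply Matrix.SpecialLinearGroup.ext
    intro i j
    fin_cases i <;> fin_cases j <;> simp_all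

theorem NPNQ_le {Z : ℝ → ℝ} (hZ : IsKer Z) {e : Bool} {J : ℝ} (hJ : 1 ≤ J) (g : SL(2, ℤ)) (z : ℍ)
    (φ : ℝ) (h : atg (wR Z e J) g z φ ≠ 0) : NP g z * NQ g z ≤ J ^ 2 + 1 := by
  have hJ0 : 0 < J := by linarith
  obtain ⟨hs, h1, h2⟩ := sep_of_wR hZ hJ0 (atg_det g z φ) h
  have h3 := hs.dot
  rw [NP_mul_NQ g z φ]
  have h4 : |atg (fun up vp uq vq => up * uq + vp * vq) g z φ| ≤ J / 2 := by
    unfold atg
    set D := uu z φ (↑(g 1 0)) (↑(g 1 1)) * uu z φ (↑(g 0 0) + ↑(g 1 0)) (↑(g 0 1) + ↑(g 1 1)) +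
      vv z φ (↑(g 1 0)) (↑(g 1 1)) * vv z φ (↑(g 0 0) + ↑(g 1 0)) (↑(g 0 1) + ↑(g 1 1)) with hD
    set E := |uu z φ (↑(g 1 0)) (↑(g 1 1)) * uu z φ (↑(g 0 0) + ↑(g 1 0)) (↑(g 0 1) + ↑(g 1 1))|
      with hE
    have h5 : |D| * (1 / (2 * J)) ≤ 1 / 4 := le_trans (by gcongr) h3
    rw [mul_one_div, div_le_iff₀ (by positivity)] at h5
    linarith
  have h5 := sq_le_sq' (neg_le_of_abs_le h4) (le_of_abs_le h4)
  nlinarith

/-- `wR` on matrices in terms of the definition of `Uj` -/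
theorem atg_wR (Z : ℝ → ℝ) (J : ℝ) (g : SL(2, ℤ)) (z : ℍ) (φ : ℝ) :
    atg (wR Z false J) g z φ =
      (ind (-1 < (g • z).re) - ind (0 < del g z φ)) * Z (J * |del g z φ|) := by
  have hNp : 0 < Np z (g 1 0) (g 1 1) := by
    have h := im_smul_eq g z
    have h2 := (g • z).im_pos
    rw [h] at h2
    exact one_div_pos.mp h2
  have hre := re_smul_add_one g z φ
  have hiff : (-1 < (g • z).re) ↔ 0 < uu z φ (g 1 0) (g 1 1) *
      uu z φ (g 0 0 + g 1 0) (g 0 1 + g 1 1) +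
      vv z φ (g 1 0) (g 1 1) * vv z φ (g 0 0 + g 1 0) (g 0 1 + g 1 1) := by
    constructor
    · intro h
      have : 0 < (g • z).re + 1 := by linarith
      rw [hre] at this
      exact (div_pos_iff_of_pos_right hNp).mp this
    · intro h
      have : 0 < (g • z).re + 1 := by
        rw [hre]; exact div_pos h hNp
      linarith
  have e1 : ind (-1 < (g • z).re) = ind (0 < uu z φ (g 1 0) (g 1 1) *
      uu z φ (g 0 0 + g 1 0) (g 0 1 + g 1 1) +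
      vv z φ (g 1 0) (g 1 1) * vv z φ (g 0 0 + g 1 0) (g 0 1 + g 1 1)) := by
    rw [propext hiff]
  rw [e1]
  simp only [atg, wR, sepR, kapR, del]
  simp

theorem Uj_eq_VS (r : ℝ) (j : ℕ) (z : ℍ) (φ : ℝ) :
    Uj r j z φ = VS (wR zet false (2 ^ j)) r Set.univ z φ := by
  unfold Uj VS
  congr 1
  apply tsum_congr
  intro g
  rw [Set.indicator_univ, atg_wR]

end RV11
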