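import Pool.Agent.LibRV11.U02
open Complex Real MeasureTheory
open UpperHalfPlane hiding I
open scoped MatrixGroups

namespace RV11

/-! ### U03: derivative in the angle, continuity -/

/-- the product of the rows does not depend on the angle -/
theorem dot_const (z : ℍ) (c d c' d' φ φ' : ℝ) :
    uu z φ c d * uu z φ c' d' + vv z φ c d * vv z φ c' d'
      = uu z φ' c d * uu z φ' c' d' + vv z φ' c d * vv z φ' c' d' := by
  have h : ∀ x, HasDerivAt (fun φ => uu z φ c d * uu z φ c' d' + vv z φ c d * vv z φ c' d') 0 x := by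
    intro x
    have := ((hasDerivAt_uu z x c d).mul (hasDerivAt_uu z x c' d')).add
      ((hasDerivAt_vv z x c d).mul (hasDerivAt_vv z x c' d'))
    refine this.congr_deriv ?_
    ring
  exact is_const_of_deriv_eq_zero (fun x => (h x).differentiableAt) (fun x => (h x).deriv) φ φ'

theorem continuous_uu (z : ℍ) (c d : ℝ) : Continuous fun φ => uu z φ c d :=
  continuous_iff_continuousAt.2 fun x => (hasDerivAt_uu z x c d).continuousAt

theorem continuous_vv (z : ℍ) (c d : ℝ) : Continuous fun φ => vv z φ c d :=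
  continuous_iff_continuousAt.2 fun x => (hasDerivAt_vv z x c d).continuousAt

/-- near an angle where the kernel does not vanish identically the weight is given by a smooth
expression -/
theorem atg_wR_local {Z : ℝ → ℝ} (hZ : IsKer Z) (e : Bool) (J : ℝ)
    (g : SL(2, ℤ)) (z : ℍ) (φ₀ : ℝ) :
    (J * |atg (fun up _ uq _ => up * uq) g z φ₀| < 1 / 2 ∧
      ∀ᶠ φ in nhds φ₀, atg (wR Z e J) g z φ = 0) ∨
    ∃ c s : ℝ, 0 < s * atg (fun up _ uq _ => up * uq) g z φ₀ ∧
      (s = if 0 < atg (fun up _ uq _ => up * uq) g z φ₀ then 1 else -1) ∧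
      (c = atg sepR g z φ₀) ∧
      ∀ᶠ φ in nhds φ₀, |atg (fun up _ uq _ => up * uq) g z φ|
          = s * atg (fun up _ uq _ => up * uq) g z φ ∧
        atg (wR Z e J) g z φ = c * Z (J * (s * atg (fun up _ uq _ => up * uq) g z φ)) *
        (if e = true then s * atg (fun up vp uq vq => uq * vp + up * vq) g z φ else 1) := by
  set D : ℝ → ℝ := fun φ => atg (fun up _ uq _ => up * uq) g z φ with hD
  have hDc : Continuous D := (continuous_uu z _ _).mul (continuous_uu z _ _)
  have hwR : ∀ φ, atg (wR Z e J) g z φ = atg sepR g z φ * Z (J * |D φ|) * atg (kapR e) g z φ :=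
    fun φ => rfl
  rcases lt_or_ge (J * |D φ₀|) (1 / 2) with h | h
  · left
    refine ⟨h, ?_⟩
    have hc : Continuous fun φ => J * |D φ| := continuous_const.mul hDc.abs
    filter_upwards [hc.continuousAt.eventually_lt continuousAt_const h] with φ hφ
    rw [hwR, hZ.supp _ (Or.inl hφ.le)]
    ring
  · right
    have hD0 : D φ₀ ≠ 0 := by
      intro h0
      rw [h0] at h
      norm_num at h
    have hdot : ∀ φ, atg (fun up vp uq vq => up * uq + vp * vq) g z φ
        = atg (fun up vp uq vq => up * uq + vp * vq) g z φ₀ := fun φ => dot_const z _ _ _ _ φ φ₀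
    have hsep : ∀ φ, atg sepR g z φ = ind (0 < atg (fun up vp uq vq => up * uq + vp * vq) g z φ₀)
        - ind (0 < D φ) := by
      intro φ
      rw [← hdot φ]
      rfl
    have hkap : ∀ φ, atg (kapR e) g z φ = if e = true then (if 0 < D φ then 1 else -1) *
      atg (fun up vp uq vq => uq * vp + up * vq) g z φ else 1 := fun φ => rfl
    rcases lt_or_gt_of_ne hD0 with hn | hp
    · refine ⟨atg sepR g z φ₀, -1, by show 0 < -1 * D φ₀; linarith, ?_, rfl, ?_⟩
      · show (-1 : ℝ) = if 0 < D φ₀ then 1 else -1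
        rw [if_neg (by linarith)]
      · filter_upwards [hDc.continuousAt.eventually_lt continuousAt_const hn] with φ hφ
        have h1 : ¬ 0 < D φ := by linarith
        have h2 : ¬ 0 < D φ₀ := by linarith
        have h3 : |D φ| = -1 * D φ := by rw [abs_of_neg hφ]; ring
        refine ⟨h3, ?_⟩
        rw [hwR, hsep, hsep, hkap, h3]
        simp only [h1, h2, if_false]
        rfl
    · refine ⟨atg sepR g z φ₀, 1, by show 0 < 1 * D φ₀; linarith, ?_, rfl, ?_⟩
      · show (1 : ℝ) = if 0 < D φ₀ then 1 else -1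
        rw [if_pos hp]
      · filter_upwards [continuousAt_const.eventually_lt hDc.continuousAt hp] with φ hφ
        have h3 : |D φ| = 1 * D φ := by rw [abs_of_pos hφ]; ring
        refine ⟨h3, ?_⟩
        rw [hwR, hsep, hsep, hkap, h3]
        simp only [hφ, hp, if_true]
        rfl

/-- derivative of one weight: the indicators only jump where `Z` vanishes -/
theorem hasDerivAt_atg_wR (J : ℝ) (hJ : 1 ≤ J) (g : SL(2, ℤ)) (z : ℍ) (φ : ℝ) :
    HasDerivAt (fun φ => atg (wR zet false J) g z φ) (J * atg (wR (deriv zet) true J) g z φ) φ := by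
  have hwR : atg (wR (deriv zet) true J) g z φ = atg sepR g z φ *
      deriv zet (J * |atg (fun up _ uq _ => up * uq) g z φ|) * atg (kapR true) g z φ := rfl
  have hkap : atg (kapR true) g z φ =
      (if 0 < atg (fun up _ uq _ => up * uq) g z φ then 1 else -1) *
      atg (fun up vp uq vq => uq * vp + up * vq) g z φ := rfl
  rcases atg_wR_local isKer_zet false J g z φ with ⟨h1, h2⟩ | ⟨c, s, hs, hs', hc, h⟩
  · have h3 : J * atg (wR (deriv zet) true J) g z φ = 0 := by
      rw [hwR, isKer_deriv_zet.supp _ (Or.inl h1.le)]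
      ring
    rw [h3]
    exact (hasDerivAt_const φ (0 : ℝ)).congr_of_eventuallyEq h2
  · have hfe : (fun φ => atg (wR zet false J) g z φ) =ᶠ[nhds φ]
        (fun φ => c * zet (J * (s * atg (fun up _ uq _ => up * uq) g z φ))) := by
      filter_upwards [h] with φ' h'
      rw [h'.2]
      simp
    refine HasDerivAt.congr_of_eventuallyEq ?_ hfe
    have habs : |atg (fun up _ uq _ => up * uq) g z φ| = s * atg (fun up _ uq _ => up * uq) g z φ :=
      h.self_of_nhds.1
    have hD : HasDerivAt (fun φ => atg (fun up _ uq _ => up * uq) g z φ)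
        (atg (fun up vp uq vq => uq * vp + up * vq) g z φ) φ := by
      have := (hasDerivAt_uu z φ (g 1 0) (g 1 1)).mul
        (hasDerivAt_uu z φ (g 0 0 + g 1 0) (g 0 1 + g 1 1))
      refine this.congr_deriv ?_
      simp only [atg]
      ring
    have hz := (hasDerivAt_zet (J * (s * atg (fun up _ uq _ => up * uq) g z φ))).comp φ
      ((hD.const_mul s).const_mul J)
    have := hz.const_mul c
    refine this.congr_deriv ?_
    rw [hwR, hkap, habs, ← hs', hc]
    ring

theorem continuous_atg_wR {Z : ℝ → ℝ} (hZ : IsKer Z) (e : Bool) (J : ℝ) (hJ : 1 ≤ J)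
    (g : SL(2, ℤ)) (z : ℍ) : Continuous (fun φ => atg (wR Z e J) g z φ) := by
  rw [continuous_iff_continuousAt]
  intro φ
  rcases atg_wR_local hZ e J g z φ with ⟨_, h2⟩ | ⟨c, s, hs, hs', hc, h⟩
  · exact (continuousAt_const (y := (0 : ℝ))).congr (h2.mono fun _ h => h.symm)
  · have hfe : (fun φ => atg (wR Z e J) g z φ) =ᶠ[nhds φ]
        (fun φ => c * Z (J * (s * atg (fun up _ uq _ => up * uq) g z φ)) *
        (if e = true then s * atg (fun up vp uq vq => uq * vp + up * vq) g z φ else 1)) := by
      filter_upwards [h] with φ' h'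
      exact h'.2
    refine ContinuousAt.congr ?_ hfe.symm
    apply Continuous.continuousAt
    have c1 : Continuous fun φ => atg (fun up _ uq _ => up * uq) g z φ :=
      (continuous_uu z _ _).mul (continuous_uu z _ _)
    have c2 : Continuous fun φ => atg (fun up vp uq vq => uq * vp + up * vq) g z φ :=
      ((continuous_uu z _ _).mul (continuous_vv z _ _)).add
        ((continuous_uu z _ _).mul (continuous_vv z _ _))
    have c3 : Continuous Z := hZ.smooth.continuous
    cases e
    · simp only [Bool.false_eq_true, if_false, mul_one]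
      exact continuous_const.mul (c3.comp (continuous_const.mul (continuous_const.mul c1)))
    · simp only [if_true]
      exact (continuous_const.mul (c3.comp (continuous_const.mul (continuous_const.mul c1)))).mul
        (continuous_const.mul c2)

/-- the wall sum is a finite sum over a set independent of the angle -/
theorem exists_finset_VS (z : ℍ) (J : ℝ) (hJ : 1 ≤ J) : ∃ S : Finset Gam,
    ∀ {Z : ℝ → ℝ} (_ : IsKer Z) (e : Bool) (r φ : ℝ),
      VS (wR Z e J) r Set.univ z φ = om r / 2 * ∑ g ∈ S, chi g * (atg (wR Z e J) g z φ : ℂ) *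
        phh r ((g : SL(2, ℤ)) • z) := by
  have hfin : ((fun g : Gam => (g : SL(2, ℤ))) ⁻¹' {g : SL(2, ℤ) | NP g z * NQ g z ≤ J ^ 2 + 1}).Finite :=
    (finite_NPNQ z (J ^ 2 + 1)).preimage Subtype.val_injective.injOn
  refine ⟨hfin.toFinset, fun {Z} hZ e r φ => ?_⟩
  unfold VS
  congr 1
  rw [tsum_eq_sum (s := hfin.toFinset)]
  · apply Finset.sum_congr rfl
    intro g _
    rw [Set.indicator_of_mem (Set.mem_univ _)]
  · intro g hg
    rw [Set.indicator_of_mem (Set.mem_univ _)]
    have : atg (wR Z e J) g z φ = 0 := by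
      by_contra h
      apply hg
      rw [Set.Finite.mem_toFinset]
      exact NPNQ_le hZ hJ _ _ _ h
    rw [this]
    simp

theorem hasDerivAt_VS (r : ℝ) (J : ℝ) (hJ : 1 ≤ J) (z : ℍ) (φ : ℝ) :
    HasDerivAt (fun φ => VS (wR zet false J) r Set.univ z φ)
      (J * VS (wR (deriv zet) true J) r Set.univ z φ) φ := by
  obtain ⟨S, hS⟩ := exists_finset_VS z J hJ
  have h1 : (fun φ => VS (wR zet false J) r Set.univ z φ) = fun φ => om r / 2 *
      ∑ g ∈ S, chi g * (atg (wR zet false J) g z φ : ℂ) * phh r ((g : SL(2, ℤ)) • z) := by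
    funext φ
    exact hS isKer_zet false r φ
  rw [h1, hS isKer_deriv_zet true r φ]
  have h2 : HasDerivAt (fun φ => ∑ g ∈ S, chi g * (atg (wR zet false J) g z φ : ℂ) *
      phh r ((g : SL(2, ℤ)) • z)) (∑ g ∈ S, chi g * ((J * atg (wR (deriv zet) true J) g z φ : ℝ) : ℂ) *
      phh r ((g : SL(2, ℤ)) • z)) φ := by
    apply HasDerivAt.fun_sum
    intro g _
    exact (((hasDerivAt_atg_wR J hJ g z φ).ofReal_comp).const_mul _).mul_const _
  have h3 := h2.const_mul (om r / 2)
  refine h3.congr_deriv ?_
  symm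
  rw [← mul_assoc, mul_comm (J : ℂ), mul_assoc, Finset.mul_sum]
  congr 1
  apply Finset.sum_congr rfl
  intro g _
  push_cast
  ring

theorem continuous_VS {Z : ℝ → ℝ} (hZ : IsKer Z) (e : Bool) (r J : ℝ) (hJ : 1 ≤ J) (z : ℍ) :
    Continuous (fun φ => VS (wR Z e J) r Set.univ z φ) := by
  obtain ⟨S, hS⟩ := exists_finset_VS z J hJ
  have h1 : (fun φ => VS (wR Z e J) r Set.univ z φ) = fun φ => om r / 2 *
      ∑ g ∈ S, chi g * (atg (wR Z e J) g z φ : ℂ) * phh r ((g : SL(2, ℤ)) • z) := by
    funext φ
    exact hS hZ e r φ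
  rw [h1]
  refine continuous_const.mul (continuous_finsetSum _ fun g _ => ?_)
  exact (continuous_const.mul (Complex.continuous_ofReal.comp
    (continuous_atg_wR hZ e J hJ g z))).mul continuous_const

end RV11
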