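import Pool.Agent.LibRV11.U01
import Pool.Agent.LibRV11.U05
import Pool.Agent.LibRV11.U06a
open Complex Real MeasureTheory
open UpperHalfPlane hiding I
open scoped MatrixGroups

namespace RV11

/-! ### U06b -/

/-- `1 - sH(c/x)` is monotone in `x > 0` -/
theorem one_sub_sH_mono {c x y : ℝ} (hc : 0 ≤ c) (hx : 0 < x) (hxy : x ≤ y) :
    1 - sH (c / x) ≤ 1 - sH (c / y) := by
  have : c / y ≤ c / x := div_le_div_of_nonneg_left hc hx hxy
  linarith [sH_mono this]

/-- Q-blocks (`p ↦ p + kq`) -/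
theorem tv_wQ {Z : ℝ → ℝ} (hZ : IsKer Z) (e : Bool) : ∃ C : ℝ, ∀ J : ℝ, 0 < J →
    ∀ up vp uq vq : ℝ, uq * vp - vq * up = 1 →
    (Function.support (fun k : ℤ => wQ Z e J (up + k * uq) (vp + k * vq) uq vq)).Finite ∧
    tv (fun k : ℤ => wQ Z e J (up + k * uq) (vp + k * vq) uq vq) ≤ C := by
  obtain ⟨C, hC0, hC⟩ := tv_generic hZ e
  refine ⟨C, fun J hJ up vp uq vq hdet => ?_⟩
  refine hC J hJ (fun k => up + k * uq) (fun k => vp + k * vq) (fun _ => uq) (fun _ => vq)
    (fun k => by linear_combination hdet) (up * uq + vp * vq) (uq ^ 2 + vq ^ 2) (up * uq)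
    (uq ^ 2) (uq * vp + up * vq) (2 * (uq * vq)) (by positivity) (by positivity)
    (fun h => by
      rw [pow_eq_zero_iff (by norm_num)] at h
      rw [h]; ring)
    (fun k => by ring) (fun k => by ring) (fun k => by ring)
    (fun k => 1 - sH (Hr (up + k * uq) (vp + k * vq) uq vq)) ?_
  intro K1 K2 h12 hsep
  have h01 : ∀ k : ℤ, 0 ≤ 1 - sH (Hr (up + k * uq) (vp + k * vq) uq vq) ∧
      1 - sH (Hr (up + k * uq) (vp + k * vq) uq vq) ≤ 1 := by
    intro k
    have := sH_mem (Hr (up + k * uq) (vp + k * vq) uq vq)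
    constructor <;> linarith [this.1, this.2]
  refine ⟨fun k _ _ => ?_, ?_⟩
  · rw [abs_of_nonneg (h01 k).1]; exact (h01 k).2
  · have huq : uq * vq ≠ 0 := by
      have hopp := (hsep K1 le_rfl h12).opp
      intro h0
      have : ((up + K1 * uq) * uq) * ((vp + K1 * vq) * vq) =
        (uq * vq) * ((up + K1 * uq) * (vp + K1 * vq)) := by ring
      rw [this, h0, zero_mul] at hopp
      exact lt_irrefl _ hopp
    have huq0 : uq ≠ 0 := left_ne_zero_of_mul huq
    have hvq0 : vq ≠ 0 := right_ne_zero_of_mul huq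
    -- the product `|up_k vp_k| / |uq vq|`
    set G : ℤ → ℝ := fun k => -((up + k * uq) * (vp + k * vq)) / (uq * vq) with hG
    have hGpos : ∀ k : ℤ, K1 ≤ k → k ≤ K2 → 0 < G k ∧
        Hr (up + k * uq) (vp + k * vq) uq vq = 1 / G k := by
      intro k h1 h2
      have hopp := (hsep k h1 h2).opp
      have h3 : (uq * vq) * ((up + k * uq) * (vp + k * vq)) < 0 := by
        have : (uq * vq) * ((up + k * uq) * (vp + k * vq)) =
          ((up + k * uq) * uq) * ((vp + k * vq) * vq) := by ring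
        rw [this]; exact hopp
      rcases mul_neg_iff.mp h3 with ⟨a, b⟩ | ⟨a, b⟩
      · constructor
        · rw [hG]; exact div_pos (by linarith) a
        · rw [hG]; unfold Hr; rw [abs_of_neg b, abs_of_pos a, one_div_div]
      · constructor
        · rw [hG]; exact div_pos_of_neg_of_neg (by linarith) a
        · rw [hG]; unfold Hr; rw [abs_of_pos b, abs_of_neg a, one_div_div, div_neg, neg_div]
    apply tvI_unimodal
    · intro k _ _; exact h01 k
    · intro k i hk1 hki hi hlt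
      obtain ⟨p1, q1⟩ := hGpos (k + 1) (by omega) (by omega)
      obtain ⟨p2, q2⟩ := hGpos k hk1 (by omega)
      obtain ⟨p3, q3⟩ := hGpos (i + 1) (by omega) (by omega)
      obtain ⟨p4, q4⟩ := hGpos i (by omega) (by omega)
      rw [q1, q2] at hlt
      rw [q3, q4]
      have hlt' : G (k + 1) < G k := by
        by_contra hc
        push Not at hc
        exact absurd (one_sub_sH_mono zero_le_one p2 hc) (not_le.mpr hlt)
      apply one_sub_sH_mono zero_le_one p3
      have hik : (k : ℝ) ≤ i := by exact_mod_cast hki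
      have e1 : ∀ t : ℤ, G (t + 1) - G t =
          -(2 * (t : ℝ) + 1) - (uq * vp + up * vq) / (uq * vq) := by
        intro t
        rw [hG]
        push_cast
        field_simp
        ring
      have e2 := e1 k
      have e3 := e1 i
      linarith

/-- In a Q-block the support lies on one side of `ξ = -(up uq + vp vq)/(uq² + vq²)`:
either all `k > ξ` or all `k ≤ ξ`. -/
theorem wQ_side {Z : ℝ → ℝ} (hZ : IsKer Z) (e : Bool) {J : ℝ} (hJ : 0 < J)
    {up vp uq vq : ℝ} (hdet : uq * vp - vq * up = 1) :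
    (∀ k : ℤ, wQ Z e J (up + k * uq) (vp + k * vq) uq vq ≠ 0 →
      -(up * uq + vp * vq) / (uq ^ 2 + vq ^ 2) < k) ∨
    (∀ k : ℤ, wQ Z e J (up + k * uq) (vp + k * vq) uq vq ≠ 0 →
      (k : ℝ) ≤ -(up * uq + vp * vq) / (uq ^ 2 + vq ^ 2)) := by
  have hN : 0 < uq ^ 2 + vq ^ 2 := by
    rcases eq_or_ne uq 0 with h | h
    · rcases eq_or_ne vq 0 with h' | h'
      · rw [h, h'] at hdet; norm_num at hdet
      · positivity
    · positivity
  have hsep : ∀ k : ℤ, wQ Z e J (up + k * uq) (vp + k * vq) uq vq ≠ 0 →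
      Sep (up + k * uq) (vp + k * vq) uq vq := by
    intro k hk
    exact (sep_of_wR hZ hJ (by linear_combination hdet) (left_ne_zero_of_mul hk)).1
  by_cases h : ∃ k0 : ℤ, wQ Z e J (up + k0 * uq) (vp + k0 * vq) uq vq ≠ 0 ∧
      0 < (up + k0 * uq) * uq + (vp + k0 * vq) * vq
  · left
    obtain ⟨k0, hk0, hp⟩ := h
    intro k hk
    rw [div_lt_iff₀ hN]
    have hc := (hsep k0 hk0).cases
    rcases hc with ⟨a, b⟩ | ⟨a, b⟩
    · rcases (hsep k hk).cases with ⟨a', b'⟩ | ⟨a', b'⟩
      · nlinarith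
      · exfalso
        -- dot_k ≤ 0 < dot_k0 => k < k0 ; del_k > 0 > del_k0 => k > k0
        have h1 : (k : ℝ) * (uq ^ 2 + vq ^ 2) < k0 * (uq ^ 2 + vq ^ 2) := by nlinarith
        have h2 : (k : ℝ) < k0 := lt_of_mul_lt_mul_right h1 hN.le
        nlinarith [mul_nonneg (sq_nonneg uq) (sub_nonneg.mpr h2.le)]
    · linarith
  · right
    push Not at h
    intro k hk
    rw [le_div_iff₀ hN]
    have := h k hk
    nlinarith

end RV11
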