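import Pool.Agent.LibRV11.U0
open Complex Real MeasureTheory
open UpperHalfPlane hiding I
open scoped MatrixGroups

namespace RV11

/-! ### U09: partial sums, first bound -/

theorem U09_norm_cpow (z : ℂ) (x : ℝ) : ‖z ^ (x : ℂ)‖ = ‖z‖ ^ x := Complex.norm_cpow_real z x

theorem U09_norm_base (w : ℂ) : ‖-I * w‖ = ‖w‖ := by
  rw [norm_mul, norm_neg, Complex.norm_I, one_mul]

theorem U09_norm_exp (r : ℝ) {w : ℂ} (hw : 0 < w.im) :
    ‖cexp (-(π * I * r / w))‖ = Real.exp (-(π * r * w.im / ‖w‖ ^ 2)) := by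
  have hw0 : w ≠ 0 := by
    rintro rfl
    simp at hw
  rw [Complex.norm_exp]
  congr 1
  rw [Complex.neg_re, Complex.div_re]
  have h2 : ‖w‖ ^ 2 = Complex.normSq w := (Complex.normSq_eq_norm_sq w).symm
  rw [h2]
  have e1 : ((π : ℂ) * I * r).re = 0 := by simp
  have e2 : ((π : ℂ) * I * r).im = π * r := by simp
  rw [e1, e2]
  ring

theorem U09_half : ((-(1 / 2) : ℝ) : ℂ) = (-(1 / 2) : ℂ) := by push_cast; ring

theorem norm_AA (r : ℝ) {w : ℂ} (hw : 0 < w.im) :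
    ‖AA r w‖ = ‖w‖ ^ (-(1 / 2) : ℝ) * Real.exp (-(π * r * w.im / ‖w‖ ^ 2)) := by
  rw [AA, norm_mul, U09_norm_exp r hw, ← U09_half, U09_norm_cpow, U09_norm_base]

theorem U09_AA_le (r : ℝ) (hr : 0 ≤ r) {w : ℂ} (hw : 0 < w.im) :
    ‖AA r w‖ ≤ ‖w‖ ^ (-(1 / 2) : ℝ) := by
  rw [norm_AA r hw]
  have h1 : Real.exp (-(π * r * w.im / ‖w‖ ^ 2)) ≤ 1 := by
    rw [Real.exp_le_one_iff]
    have := Real.pi_pos
    have : 0 ≤ π * r * w.im / ‖w‖ ^ 2 := by positivity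
    linarith
  have h2 : 0 ≤ ‖w‖ ^ (-(1 / 2) : ℝ) := Real.rpow_nonneg (norm_nonneg w) _
  exact mul_le_of_le_one_right h2 h1

theorem U09_slit {w : ℂ} (hw : 0 < w.im) : -I * w ∈ Complex.slitPlane := by
  left
  have : (-I * w).re = w.im := by simp
  rw [this]
  exact hw

theorem U09_deriv (r : ℝ) {u : ℂ} (hu : 0 < u.im) :
    HasDerivAt (AA r) (((-(1 / 2) : ℂ) * (-I * u) ^ ((-(1 / 2) : ℂ) - 1) * (-I * 1)) *
      cexp (-(π * I * r / u)) + (-I * u) ^ (-(1 / 2) : ℂ) *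
      (cexp (-(π * I * r / u)) * (-(-(π * I * r) / u ^ 2)))) u := by
  have hu0 : u ≠ 0 := by
    rintro rfl
    simp at hu
  have h1 : HasDerivAt (fun u : ℂ => -I * u) (-I * 1) u := (hasDerivAt_id u).const_mul (-I)
  have h2 := h1.cpow_const (c := (-(1 / 2) : ℂ)) (U09_slit hu)
  have h3 : HasDerivAt (fun u : ℂ => (π * I * r) / u) (-(π * I * r) / u ^ 2) u := by
    have := (hasDerivAt_inv hu0).const_mul ((π : ℂ) * I * r)
    refine (this.congr_deriv ?_).congr_of_eventuallyEq ?_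
    · ring
    · exact Filter.Eventually.of_forall fun v => by simp [div_eq_mul_inv]
  have h4 : HasDerivAt (fun u : ℂ => cexp (-(π * I * r / u)))
      (cexp (-(π * I * r / u)) * (-(-(π * I * r) / u ^ 2))) u := h3.neg.cexp
  exact h2.mul h4

theorem U09_deriv_norm (r : ℝ) (hr : 0 ≤ r) {u : ℂ} (hu : 0 < u.im) :
    ‖((-(1 / 2) : ℂ) * (-I * u) ^ ((-(1 / 2) : ℂ) - 1) * (-I * 1)) *
      cexp (-(π * I * r / u)) + (-I * u) ^ (-(1 / 2) : ℂ) *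
      (cexp (-(π * I * r / u)) * (-(-(π * I * r) / u ^ 2)))‖ ≤
      1 / 2 * ‖u‖ ^ (-(3 / 2) : ℝ) + 4 * r * ‖u‖ ^ (-(5 / 2) : ℝ) := by
  have hu0 : 0 < ‖u‖ := by
    rw [norm_pos_iff]
    rintro rfl
    simp at hu
  have he1 : ‖cexp (-(π * I * r / u))‖ ≤ 1 := by
    rw [U09_norm_exp r hu, Real.exp_le_one_iff]
    have := Real.pi_pos
    have : 0 ≤ π * r * u.im / ‖u‖ ^ 2 := by positivity
    linarith
  have e1 : ((-(1 / 2) : ℂ) - 1) = ((-(3 / 2) : ℝ) : ℂ) := by push_cast; ring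
  have n1 : ‖(-I * u) ^ ((-(1 / 2) : ℂ) - 1)‖ = ‖u‖ ^ (-(3 / 2) : ℝ) := by
    rw [e1, U09_norm_cpow, U09_norm_base]
  have n2 : ‖(-I * u) ^ (-(1 / 2) : ℂ)‖ = ‖u‖ ^ (-(1 / 2) : ℝ) := by
    rw [← U09_half, U09_norm_cpow, U09_norm_base]
  have n3 : ‖-(-((π : ℂ) * I * r) / u ^ 2)‖ = π * r / ‖u‖ ^ 2 := by
    rw [norm_neg, norm_div, norm_neg, norm_mul, norm_mul, Complex.norm_I, norm_pow,
      Complex.norm_real, Complex.norm_real, Real.norm_of_nonneg Real.pi_pos.le,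
      Real.norm_of_nonneg hr, mul_one]
  have n4 : ‖(-(1 / 2) : ℂ)‖ = 1 / 2 := by
    rw [norm_neg]
    norm_num
  have n5 : ‖-I * (1 : ℂ)‖ = 1 := by rw [mul_one, norm_neg, Complex.norm_I]
  have hpi : π ≤ 4 := Real.pi_le_four
  have p1 : 0 ≤ ‖u‖ ^ (-(3 / 2) : ℝ) := Real.rpow_nonneg hu0.le _
  have p2 : 0 ≤ ‖u‖ ^ (-(1 / 2) : ℝ) := Real.rpow_nonneg hu0.le _
  have e2 : ‖u‖ ^ (-(1 / 2) : ℝ) * (r / ‖u‖ ^ 2) = r * ‖u‖ ^ (-(5 / 2) : ℝ) := by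
    have : ‖u‖ ^ (-(5 / 2) : ℝ) = ‖u‖ ^ (-(1 / 2) : ℝ) * ‖u‖ ^ (-2 : ℝ) := by
      rw [← Real.rpow_add hu0]
      norm_num
    rw [this, Real.rpow_neg hu0.le 2, Real.rpow_two]
    ring
  refine (norm_add_le _ _).trans ?_
  have t1 : ‖((-(1 / 2) : ℂ) * (-I * u) ^ ((-(1 / 2) : ℂ) - 1) * (-I * 1)) *
      cexp (-(π * I * r / u))‖ ≤ 1 / 2 * ‖u‖ ^ (-(3 / 2) : ℝ) := by
    rw [norm_mul, norm_mul, norm_mul, n1, n4, n5, mul_one]
    exact mul_le_of_le_one_right (by positivity) he1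
  have t2 : ‖(-I * u) ^ (-(1 / 2) : ℂ) *
      (cexp (-(π * I * r / u)) * (-(-(π * I * r) / u ^ 2)))‖ ≤ 4 * r * ‖u‖ ^ (-(5 / 2) : ℝ) := by
    rw [norm_mul, norm_mul, n2, n3]
    calc ‖u‖ ^ (-(1 / 2) : ℝ) * (‖cexp (-(π * I * r / u))‖ * (π * r / ‖u‖ ^ 2))
        ≤ ‖u‖ ^ (-(1 / 2) : ℝ) * (1 * (4 * r / ‖u‖ ^ 2)) := by
          refine mul_le_mul_of_nonneg_left ?_ p2
          refine mul_le_mul he1 ?_ (by positivity) zero_le_one
          gcongr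
      _ = 4 * (‖u‖ ^ (-(1 / 2) : ℝ) * (r / ‖u‖ ^ 2)) := by ring
      _ = 4 * r * ‖u‖ ^ (-(5 / 2) : ℝ) := by rw [e2]; ring
  linarith

theorem U09_sq (z : ℂ) : ‖z‖ ^ 2 = z.re ^ 2 + z.im ^ 2 := by
  rw [← Complex.normSq_eq_norm_sq, Complex.normSq_apply]
  ring

/-- the segment from `w` to `w - 1` stays away from `0` -/
theorem U09_seg {w : ℂ} (h1 : 1 ≤ ‖w‖) (h2 : 1 ≤ ‖w - 1‖) {t : ℝ} (ht0 : 0 ≤ t)
    (ht1 : t ≤ 1) : 2 / 5 * ‖w‖ ≤ ‖w - t‖ := by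
  rcases le_total ‖w‖ 2 with h | h
  · have e1 : ‖w - t‖ ^ 2 = (1 - t) * ‖w‖ ^ 2 + t * ‖w - 1‖ ^ 2 - t * (1 - t) := by
      rw [U09_sq, U09_sq, U09_sq]
      simp only [Complex.sub_re, Complex.sub_im, Complex.ofReal_re, Complex.ofReal_im,
        Complex.one_re, Complex.one_im]
      ring
    have e2 : (2 / 5 * ‖w‖) ^ 2 ≤ ‖w - t‖ ^ 2 := by
      rw [e1]
      have a1 : 1 ≤ ‖w‖ ^ 2 := by nlinarith
      have a2 : 1 ≤ ‖w - 1‖ ^ 2 := by nlinarith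
      have a3 : ‖w‖ ^ 2 ≤ 4 := by nlinarith
      nlinarith [mul_nonneg ht0 (by linarith : 0 ≤ 1 - t), sq_nonneg (2 * t - 1),
        mul_nonneg (by linarith : 0 ≤ 1 - t) (by linarith : 0 ≤ ‖w‖ ^ 2 - 1),
        mul_nonneg ht0 (by linarith : 0 ≤ ‖w - 1‖ ^ 2 - 1)]
    exact (abs_le_abs_of_nonneg (by positivity) (le_of_sq_le_sq e2 (norm_nonneg _))).trans_eq
      (abs_of_nonneg (norm_nonneg _)) |> le_trans (le_abs_self _)
  · have : ‖w‖ - ‖(t : ℂ)‖ ≤ ‖w - t‖ := norm_sub_norm_le w t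
    rw [Complex.norm_real, Real.norm_of_nonneg ht0] at this
    linarith

theorem U09_rpow_le {a b : ℝ} (ha : 0 < a) (hab : 2 / 5 * a ≤ b) :
    b ^ (-(3 / 2) : ℝ) ≤ 4 * a ^ (-(3 / 2) : ℝ) ∧ b ^ (-(5 / 2) : ℝ) ≤ 10 * a ^ (-(5 / 2) : ℝ) := by
  have hq : (0 : ℝ) < 2 / 5 * a := by positivity
  have c1 : ((2 : ℝ) / 5) ^ (-(3 / 2) : ℝ) ≤ 4 := by
    have h : (((2 : ℝ) / 5) ^ (-(3 / 2) : ℝ)) ^ 2 ≤ 4 ^ 2 := by
      rw [← Real.rpow_natCast, ← Real.rpow_mul (by norm_num)]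
      have : (-(3 / 2) : ℝ) * ((2 : ℕ) : ℝ) = -((3 : ℕ) : ℝ) := by norm_num
      rw [this, Real.rpow_neg (by norm_num), Real.rpow_natCast]
      norm_num
    exact le_of_sq_le_sq h (by norm_num)
  have c2 : ((2 : ℝ) / 5) ^ (-(5 / 2) : ℝ) ≤ 10 := by
    have h : (((2 : ℝ) / 5) ^ (-(5 / 2) : ℝ)) ^ 2 ≤ 10 ^ 2 := by
      rw [← Real.rpow_natCast, ← Real.rpow_mul (by norm_num)]
      have : (-(5 / 2) : ℝ) * ((2 : ℕ) : ℝ) = -((5 : ℕ) : ℝ) := by norm_num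
      rw [this, Real.rpow_neg (by norm_num), Real.rpow_natCast]
      norm_num
    exact le_of_sq_le_sq h (by norm_num)
  constructor
  · calc b ^ (-(3 / 2) : ℝ) ≤ (2 / 5 * a) ^ (-(3 / 2) : ℝ) :=
          Real.rpow_le_rpow_of_nonpos hq hab (by norm_num)
      _ = (2 / 5) ^ (-(3 / 2) : ℝ) * a ^ (-(3 / 2) : ℝ) := Real.mul_rpow (by norm_num) ha.le
      _ ≤ 4 * a ^ (-(3 / 2) : ℝ) := mul_le_mul_of_nonneg_right c1 (Real.rpow_nonneg ha.le _)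
  · calc b ^ (-(5 / 2) : ℝ) ≤ (2 / 5 * a) ^ (-(5 / 2) : ℝ) :=
          Real.rpow_le_rpow_of_nonpos hq hab (by norm_num)
      _ = (2 / 5) ^ (-(5 / 2) : ℝ) * a ^ (-(5 / 2) : ℝ) := Real.mul_rpow (by norm_num) ha.le
      _ ≤ 10 * a ^ (-(5 / 2) : ℝ) := mul_le_mul_of_nonneg_right c2 (Real.rpow_nonneg ha.le _)

/-- difference of consecutive terms -/
theorem AA_sub (r : ℝ) (hr : 0 ≤ r) {w : ℂ} (hw : 0 < w.im) (h1 : 1 ≤ ‖w‖) (h2 : 1 ≤ ‖w - 1‖) :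
    ‖AA r w - AA r (w - 1)‖ ≤ 100 * (‖w‖ ^ (-(3 / 2) : ℝ) + r * ‖w‖ ^ (-(5 / 2) : ℝ)) := by
  have hpos : 0 < ‖w‖ := by linarith
  have p1 : 0 ≤ ‖w‖ ^ (-(3 / 2) : ℝ) := Real.rpow_nonneg hpos.le _
  have p2 : 0 ≤ ‖w‖ ^ (-(5 / 2) : ℝ) := Real.rpow_nonneg hpos.le _
  have hseg : ∀ u ∈ segment ℝ (w - 1) w, ∃ t : ℝ, 0 ≤ t ∧ t ≤ 1 ∧ u = w - t := by
    rintro u ⟨a, b, ha, hb, hab, rfl⟩
    refine ⟨a, ha, by linarith, ?_⟩
    have : (a : ℂ) + b = 1 := by exact_mod_cast hab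
    simp only [Complex.real_smul]
    linear_combination w * this
  have key := (convex_segment (w - 1) w).norm_image_sub_le_of_norm_hasDerivWithin_le
    (𝕜 := ℂ) (f := AA r)
    (f' := fun u => ((-(1 / 2) : ℂ) * (-I * u) ^ ((-(1 / 2) : ℂ) - 1) * (-I * 1)) *
      cexp (-(π * I * r / u)) + (-I * u) ^ (-(1 / 2) : ℂ) *
      (cexp (-(π * I * r / u)) * (-(-(π * I * r) / u ^ 2))))
    (C := 1 / 2 * (4 * ‖w‖ ^ (-(3 / 2) : ℝ)) + 4 * r * (10 * ‖w‖ ^ (-(5 / 2) : ℝ)))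
    (fun u hu => by
      obtain ⟨t, _, _, rfl⟩ := hseg u hu
      have : 0 < (w - t).im := by simpa using hw
      exact (U09_deriv r this).hasDerivWithinAt)
    (fun u hu => by
      obtain ⟨t, ht0, ht1, rfl⟩ := hseg u hu
      have him : 0 < (w - t).im := by simpa using hw
      have h3 := U09_rpow_le hpos (U09_seg h1 h2 ht0 ht1)
      refine (U09_deriv_norm r hr him).trans ?_
      have := mul_le_mul_of_nonneg_left h3.2 (by positivity : 0 ≤ 4 * r)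
      linarith [h3.1])
    (left_mem_segment ℝ (w - 1) w) (right_mem_segment ℝ (w - 1) w)
  have e : ‖w - (w - 1)‖ = 1 := by
    rw [sub_sub_cancel, norm_one]
  rw [e, mul_one] at key
  refine key.trans ?_
  nlinarith [mul_nonneg hr p2]

theorem U09_sum_Ico {M : Type*} [AddCommMonoid M] (f : ℤ → M) (K1 : ℤ) (n : ℕ) :
    ∑ k ∈ Finset.Ico K1 (K1 + n), f k = ∑ i ∈ Finset.range n, f (K1 + i) := by
  induction n with
  | zero => simp
  | succ n ih =>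
    have : Finset.Ico K1 (K1 + ((n + 1 : ℕ) : ℤ)) =
        insert (K1 + (n : ℤ)) (Finset.Ico K1 (K1 + (n : ℤ))) := by
      ext k
      simp only [Finset.mem_Ico, Finset.mem_insert]
      push_cast
      omega
    rw [this, Finset.sum_insert (by simp), ih, Finset.sum_range_succ, add_comm]

theorem U09_Icc_eq (K1 K2 : ℤ) : Finset.Icc K1 K2 =
    Finset.Ico K1 (K1 + ((K2 + 1 - K1).toNat : ℤ)) := by
  ext k
  simp only [Finset.mem_Icc, Finset.mem_Ico]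
  omega

theorem U09_sum_Icc {M : Type*} [AddCommMonoid M] (f : ℤ → M) (K1 K2 : ℤ) :
    ∑ k ∈ Finset.Icc K1 K2, f k = ∑ i ∈ Finset.range (K2 + 1 - K1).toNat, f (K1 + i) := by
  rw [U09_Icc_eq, U09_sum_Ico]

theorem U09_kp_norm : ‖kp‖ = 1 := by
  rw [kp, norm_neg]
  have : (π : ℂ) * I / 4 = ((π / 4 : ℝ) : ℂ) * I := by push_cast; ring
  rw [this, Complex.norm_exp_ofReal_mul_I]

theorem U09_kp_ne : kp ≠ 0 := by
  intro h
  have := U09_kp_norm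
  rw [h, norm_zero] at this
  norm_num at this

theorem U09_kp_sub : 1 ≤ ‖kp - 1‖ := by
  have h1 : (kp - 1).re = -(Real.cos (π / 4)) - 1 := by
    have : (π : ℂ) * I / 4 = ((π / 4 : ℝ) : ℂ) * I := by push_cast; ring
    rw [kp, this, Complex.sub_re, Complex.neg_re, Complex.exp_ofReal_mul_I_re, Complex.one_re]
  have h2 : 0 ≤ Real.cos (π / 4) := by
    rw [Real.cos_pi_div_four]
    positivity
  have h3 := Complex.abs_re_le_norm (kp - 1)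
  rw [h1] at h3
  have h4 : |-(Real.cos (π / 4)) - 1| = Real.cos (π / 4) + 1 := by
    rw [abs_of_nonpos (by linarith)]
    ring
  rw [h4] at h3
  linarith

theorem U09_kp_range (K1 : ℤ) (n : ℕ) : ‖∑ i ∈ Finset.range n, kp ^ (K1 + (i : ℤ))‖ ≤ 2 := by
  have h1 : ∀ n : ℕ, (kp - 1) * ∑ i ∈ Finset.range n, kp ^ (K1 + (i : ℤ)) =
      kp ^ (K1 + (n : ℤ)) - kp ^ K1 := by
    intro n
    induction n with
    | zero => simp
    | succ n ih =>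
      rw [Finset.sum_range_succ, mul_add, ih]
      have : kp ^ (K1 + ((n + 1 : ℕ) : ℤ)) = kp * kp ^ (K1 + (n : ℤ)) := by
        push_cast
        rw [← add_assoc, zpow_add_one₀ U09_kp_ne, mul_comm]
      rw [this]
      ring
  have h2 : ‖(kp - 1) * ∑ i ∈ Finset.range n, kp ^ (K1 + (i : ℤ))‖ ≤ 2 := by
    rw [h1]
    refine (norm_sub_le _ _).trans ?_
    rw [norm_zpow, norm_zpow, U09_kp_norm, one_zpow, one_zpow]
    norm_num
  rw [norm_mul] at h2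
  have h3 := norm_nonneg (∑ i ∈ Finset.range n, kp ^ (K1 + (i : ℤ)))
  nlinarith [U09_kp_sub]

/-- geometric partial sums -/
theorem kp_partial (K1 K2 : ℤ) : ‖∑ k ∈ Finset.Icc K1 K2, kp ^ k‖ ≤ 4 := by
  rw [U09_sum_Icc (fun k => kp ^ k)]
  linarith [U09_kp_range K1 (K2 + 1 - K1).toNat]

/-- Abel summation -/
theorem U09_abel (z A : ℕ → ℂ) (M : ℝ) (hS : ∀ n, ‖∑ i ∈ Finset.range n, z i‖ ≤ M) (n : ℕ) :
    ‖∑ i ∈ Finset.range (n + 1), z i * A i‖ ≤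
      M * (‖A n‖ + ∑ i ∈ Finset.range n, ‖A (i + 1) - A i‖) := by
  have key : ∀ n, ∑ i ∈ Finset.range (n + 1), z i * A i =
      (∑ i ∈ Finset.range (n + 1), z i) * A n -
        ∑ i ∈ Finset.range n, (∑ j ∈ Finset.range (i + 1), z j) * (A (i + 1) - A i) := by
    intro n
    induction n with
    | zero => simp
    | succ n ih =>
      rw [Finset.sum_range_succ, ih, Finset.sum_range_succ z (n + 1),
        Finset.sum_range_succ (fun i => (∑ j ∈ Finset.range (i + 1), z j) * (A (i + 1) - A i)) n]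
      ring
  rw [key]
  refine (norm_sub_le _ _).trans ?_
  rw [mul_add]
  refine add_le_add ?_ ?_
  · rw [norm_mul]
    exact mul_le_mul_of_nonneg_right (hS _) (norm_nonneg _)
  · refine (norm_sum_le _ _).trans ?_
    rw [Finset.mul_sum]
    refine Finset.sum_le_sum fun i _ => ?_
    rw [norm_mul]
    exact mul_le_mul_of_nonneg_right (hS _) (norm_nonneg _)

/-- two sided sums -/
theorem U09_two_sided (F : ℕ → ℝ) (hF : ∀ n, 0 ≤ F n) (B : ℝ)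
    (hB : ∀ N, ∑ n ∈ Finset.range N, F n ≤ B) (K : Finset ℤ) (m : ℤ) :
    ∑ k ∈ K, F (k - m).natAbs ≤ 2 * B := by
  classical
  have key : ∀ L : Finset ℤ, Set.InjOn (fun k : ℤ => (k - m).natAbs) L →
      ∑ k ∈ L, F (k - m).natAbs ≤ B := by
    intro L hL
    rw [← Finset.sum_image (f := F) (g := fun k : ℤ => (k - m).natAbs) hL]
    obtain ⟨N, hN⟩ : ∃ N : ℕ, L.image (fun k : ℤ => (k - m).natAbs) ⊆ Finset.range N :=
      Finset.exists_nat_subset_range _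
    exact (Finset.sum_le_sum_of_subset_of_nonneg hN fun n _ _ => hF n).trans (hB N)
  rw [← Finset.sum_filter_add_sum_filter_not K (fun k => m ≤ k)]
  have h1 := key (K.filter (fun k => m ≤ k)) (by
    intro a ha b hb hab
    simp only [Finset.coe_filter, Set.mem_ofPred_eq] at ha hb
    simp only at hab
    omega)
  have h2 := key (K.filter (fun k => ¬ m ≤ k)) (by
    intro a ha b hb hab
    simp only [Finset.coe_filter, Set.mem_ofPred_eq] at ha hb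
    simp only at hab
    omega)
  linarith

theorem U09_pow {t : ℝ} (ht : 0 < t) :
    t ^ (-(3 / 2) : ℝ) = (t ^ (-(1 / 2) : ℝ)) ^ 3 ∧
    t ^ (-(5 / 2) : ℝ) = (t ^ (-(1 / 2) : ℝ)) ^ 5 ∧ (t ^ (-(1 / 2) : ℝ)) ^ 2 = 1 / t := by
  refine ⟨?_, ?_, ?_⟩
  · rw [← Real.rpow_natCast, ← Real.rpow_mul ht.le]
    norm_num
  · rw [← Real.rpow_natCast, ← Real.rpow_mul ht.le]
    norm_num
  · rw [← Real.rpow_natCast, ← Real.rpow_mul ht.le]
    have : (-(1 / 2) : ℝ) * ((2 : ℕ) : ℝ) = -1 := by norm_num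
    rw [this, Real.rpow_neg_one, one_div]

/-- telescoping bounds -/
theorem U09_tele {t : ℝ} (ht : 1 ≤ t) :
    t ^ (-(3 / 2) : ℝ) ≤ 4 * (t ^ (-(1 / 2) : ℝ) - (t + 1) ^ (-(1 / 2) : ℝ)) ∧
    t ^ (-(5 / 2) : ℝ) ≤ 4 * (t ^ (-(3 / 2) : ℝ) - (t + 1) ^ (-(3 / 2) : ℝ)) := by
  have ht0 : 0 < t := by linarith
  have ht1 : 0 < t + 1 := by linarith
  obtain ⟨e1, e2, e3⟩ := U09_pow ht0
  obtain ⟨f1, _, f3⟩ := U09_pow ht1
  have pa : 0 < t ^ (-(1 / 2) : ℝ) := Real.rpow_pos_of_pos ht0 _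
  have pb : 0 < (t + 1) ^ (-(1 / 2) : ℝ) := Real.rpow_pos_of_pos ht1 _
  rw [e1, e2, f1]
  set a := t ^ (-(1 / 2) : ℝ) with ha
  set b := (t + 1) ^ (-(1 / 2) : ℝ) with hb
  -- `a² = 1/t`, `b² = 1/(t+1)`
  have hab : b ≤ a := Real.rpow_le_rpow_of_nonpos ht0 (by linarith) (by norm_num)
  have h1 : a ^ 2 - b ^ 2 = a ^ 2 * b ^ 2 := by
    rw [e3, f3]
    field_simp
    ring
  have h2 : a ^ 2 / 2 ≤ b ^ 2 := by
    rw [e3, f3, div_div, one_div_le_one_div (by positivity) (by positivity)]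
    linarith
  have h3 : a ^ 3 ≤ 4 * (a - b) := by
    have h4 : (a - b) * (a + b) = a ^ 2 * b ^ 2 := by linarith [h1]
    have h5 : a ^ 2 * b ^ 2 ≤ (a - b) * (2 * a) := by
      rw [← h4]
      exact mul_le_mul_of_nonneg_left (by linarith) (by linarith)
    have h6 : a ^ 2 * (a ^ 2 / 2) ≤ (a - b) * (2 * a) :=
      (mul_le_mul_of_nonneg_left h2 (by positivity)).trans h5
    have h7 : a * a ^ 3 ≤ a * (4 * (a - b)) := by nlinarith
    exact le_of_mul_le_mul_left h7 pa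
  refine ⟨h3, ?_⟩
  have h8 : a ^ 2 * a ^ 3 ≤ a ^ 2 * (4 * (a - b)) :=
    mul_le_mul_of_nonneg_left h3 (by positivity)
  have h9 : a ^ 2 * (a - b) ≤ a ^ 3 - b ^ 3 := by
    have : a ^ 3 - b ^ 3 - a ^ 2 * (a - b) = b * (a ^ 2 - b ^ 2) := by ring
    have h10 : 0 ≤ b * (a ^ 2 - b ^ 2) := mul_nonneg pb.le (by nlinarith)
    linarith
  nlinarith

theorem U09_sum1 {R : ℝ} (hR : 1 ≤ R) (N : ℕ) :
    ∑ n ∈ Finset.range N, (R + n) ^ (-(3 / 2) : ℝ) ≤ 4 * R ^ (-(1 / 2) : ℝ) := by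
  have h : ∑ n ∈ Finset.range N, (R + n) ^ (-(3 / 2) : ℝ) ≤
      ∑ n ∈ Finset.range N, 4 * ((R + n) ^ (-(1 / 2) : ℝ) -
        (R + ((n + 1 : ℕ) : ℝ)) ^ (-(1 / 2) : ℝ)) := by
    refine Finset.sum_le_sum fun n _ => ?_
    have h1 := (U09_tele (t := R + n) (by
      have : (0 : ℝ) ≤ n := Nat.cast_nonneg n
      linarith)).1
    push_cast
    rw [← add_assoc]
    exact h1
  refine h.trans ?_
  rw [← Finset.mul_sum, Finset.sum_range_sub' (fun n : ℕ => (R + (n : ℝ)) ^ (-(1 / 2) : ℝ))]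
  have : 0 ≤ (R + (N : ℝ)) ^ (-(1 / 2) : ℝ) := Real.rpow_nonneg (by positivity) _
  simp only [Nat.cast_zero, add_zero]
  linarith

theorem U09_sum2 {R : ℝ} (hR : 1 ≤ R) (N : ℕ) :
    ∑ n ∈ Finset.range N, (R + n) ^ (-(5 / 2) : ℝ) ≤ 4 * R ^ (-(3 / 2) : ℝ) := by
  have h : ∑ n ∈ Finset.range N, (R + n) ^ (-(5 / 2) : ℝ) ≤
      ∑ n ∈ Finset.range N, 4 * ((R + n) ^ (-(3 / 2) : ℝ) -
        (R + ((n + 1 : ℕ) : ℝ)) ^ (-(3 / 2) : ℝ)) := by
    refine Finset.sum_le_sum fun n _ => ?_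
    have h1 := (U09_tele (t := R + n) (by
      have : (0 : ℝ) ≤ n := Nat.cast_nonneg n
      linarith)).2
    push_cast
    rw [← add_assoc]
    exact h1
  refine h.trans ?_
  rw [← Finset.mul_sum, Finset.sum_range_sub' (fun n : ℕ => (R + (n : ℝ)) ^ (-(3 / 2) : ℝ))]
  have : 0 ≤ (R + (N : ℝ)) ^ (-(3 / 2) : ℝ) := Real.rpow_nonneg (by positivity) _
  simp only [Nat.cast_zero, add_zero]
  linarith

/-- distance to the integer part -/
theorem U09_floor {w : ℂ} {k : ℤ} (h : 1 ≤ ‖w - k‖) :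
    (((k - ⌊w.re⌋).natAbs : ℕ) : ℝ) ≤ ‖w - k‖ + 1 := by
  have h1 : |w.re - k| ≤ ‖w - k‖ := by
    have := Complex.abs_re_le_norm (w - k)
    simpa using this
  have h2 : (((k - ⌊w.re⌋).natAbs : ℕ) : ℝ) = |(k : ℝ) - ⌊w.re⌋| := by
    rw [Nat.cast_natAbs]
    push_cast
    rfl
  rw [h2]
  have h3 := Int.floor_le w.re
  have h4 := Int.lt_floor_add_one w.re
  rw [abs_le] at h1 ⊢
  constructor <;> linarith [h1.1, h1.2]

theorem U09_dist {w : ℂ} {k : ℤ} {R : ℝ} (hR : 1 ≤ R) (h : R ≤ ‖w - k‖) :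
    (R + (((k - ⌊w.re⌋).natAbs : ℕ) : ℝ)) / 4 ≤ ‖w - k‖ := by
  have := U09_floor (hR.trans h)
  linarith

theorem U09_four {a b : ℝ} (ha : 0 < a) (hab : a / 4 ≤ b) :
    b ^ (-(1 / 2) : ℝ) ≤ 2 * a ^ (-(1 / 2) : ℝ) ∧ b ^ (-(3 / 2) : ℝ) ≤ 8 * a ^ (-(3 / 2) : ℝ) ∧
    b ^ (-(5 / 2) : ℝ) ≤ 32 * a ^ (-(5 / 2) : ℝ) := by
  have ha4 : 0 < a / 4 := by positivity
  obtain ⟨e1, e2, _⟩ := U09_pow (ha4.trans_le hab)
  obtain ⟨f1, f2, _⟩ := U09_pow ha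
  have h0 : b ^ (-(1 / 2) : ℝ) ≤ 2 * a ^ (-(1 / 2) : ℝ) := by
    calc b ^ (-(1 / 2) : ℝ) ≤ (a / 4) ^ (-(1 / 2) : ℝ) :=
          Real.rpow_le_rpow_of_nonpos ha4 hab (by norm_num)
      _ = 2 * a ^ (-(1 / 2) : ℝ) := by
          rw [Real.div_rpow ha.le (by norm_num)]
          have : (4 : ℝ) ^ (-(1 / 2) : ℝ) = 1 / 2 := by
            have h4 : (4 : ℝ) = 2 ^ (2 : ℝ) := by norm_num
            rw [h4, ← Real.rpow_mul (by norm_num)]
            norm_num [Real.rpow_neg_one]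
          rw [this]
          ring
  have hb0 : 0 ≤ b ^ (-(1 / 2) : ℝ) := Real.rpow_nonneg (by linarith) _
  refine ⟨h0, ?_, ?_⟩
  · rw [e1, f1]
    calc (b ^ (-(1 / 2) : ℝ)) ^ 3 ≤ (2 * a ^ (-(1 / 2) : ℝ)) ^ 3 := pow_le_pow_left₀ hb0 h0 3
      _ = 8 * (a ^ (-(1 / 2) : ℝ)) ^ 3 := by ring
  · rw [e2, f2]
    calc (b ^ (-(1 / 2) : ℝ)) ^ 5 ≤ (2 * a ^ (-(1 / 2) : ℝ)) ^ 5 := pow_le_pow_left₀ hb0 h0 5
      _ = 32 * (a ^ (-(1 / 2) : ℝ)) ^ 5 := by ring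

/-- tail: Abel summation where `‖w - k‖ ≥ R`. -/
theorem PS_tail : ∃ C : ℝ, ∀ r : ℝ, 0 ≤ r → ∀ w : ℂ, 0 < w.im → ∀ R : ℝ, 1 ≤ R → ∀ K1 K2 : ℤ,
    (∀ k, K1 ≤ k → k ≤ K2 → R ≤ ‖w - k‖) →
    ‖∑ k ∈ Finset.Icc K1 K2, kp ^ k * AA r (w - k)‖ ≤
      C * (R ^ (-(1 / 2) : ℝ) + r * R ^ (-(3 / 2) : ℝ)) := by
  refine ⟨60000, fun r hr w hw R hR K1 K2 hK => ?_⟩
  have hR0 : 0 < R := by linarith
  have q1 : 0 ≤ R ^ (-(1 / 2) : ℝ) := Real.rpow_nonneg hR0.le _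
  have q2 : 0 ≤ R ^ (-(3 / 2) : ℝ) := Real.rpow_nonneg hR0.le _
  rcases lt_or_ge K2 K1 with hlt | hle
  · rw [Finset.Icc_eq_empty (by omega), Finset.sum_empty, norm_zero]
    positivity
  obtain ⟨n, hn⟩ : ∃ n : ℕ, (K2 + 1 - K1).toNat = n + 1 := ⟨(K2 - K1).toNat, by omega⟩
  have hn' : K1 + (n : ℤ) = K2 := by omega
  rw [U09_sum_Icc (fun k => kp ^ k * AA r (w - k)), hn]
  have him : ∀ k : ℤ, 0 < (w - k).im := fun k => by simpa using hw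
  refine (U09_abel (fun i => kp ^ (K1 + (i : ℤ))) (fun i => AA r (w - ((K1 + (i : ℤ) : ℤ) : ℂ))) 2
    (fun n => U09_kp_range K1 n) n).trans ?_
  have b1 : ‖AA r (w - ((K1 + (n : ℤ) : ℤ) : ℂ))‖ ≤ R ^ (-(1 / 2) : ℝ) := by
    rw [hn']
    refine (U09_AA_le r hr (him K2)).trans ?_
    exact Real.rpow_le_rpow_of_nonpos hR0 (hK K2 hle le_rfl) (by norm_num)
  have b2 : ∀ i ∈ Finset.range n, ‖AA r (w - ((K1 + ((i + 1 : ℕ) : ℤ) : ℤ) : ℂ)) -
      AA r (w - ((K1 + (i : ℤ) : ℤ) : ℂ))‖ ≤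
      800 * (R + (((K1 + (i : ℤ) - ⌊w.re⌋).natAbs : ℕ) : ℝ)) ^ (-(3 / 2) : ℝ) +
      3200 * r * (R + (((K1 + (i : ℤ) - ⌊w.re⌋).natAbs : ℕ) : ℝ)) ^ (-(5 / 2) : ℝ) := by
    intro i hi
    have hi' := Finset.mem_range.mp hi
    have hk1 := hK (K1 + (i : ℤ)) (by omega) (by omega)
    have hk2 := hK (K1 + ((i + 1 : ℕ) : ℤ)) (by omega) (by omega)
    have e : w - ((K1 + ((i + 1 : ℕ) : ℤ) : ℤ) : ℂ) = (w - ((K1 + (i : ℤ) : ℤ) : ℂ)) - 1 := by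
      push_cast
      ring
    rw [norm_sub_rev]
    rw [e] at hk2 ⊢
    have h1 := AA_sub r hr (him (K1 + (i : ℤ))) (hR.trans hk1) (hR.trans hk2)
    have h2 := U09_dist hR hk1
    have h3 := U09_four (a := R + (((K1 + (i : ℤ) - ⌊w.re⌋).natAbs : ℕ) : ℝ)) (by positivity) h2
    refine h1.trans ?_
    have h4 := mul_le_mul_of_nonneg_left h3.2.2 hr
    linarith [h3.2.1]
  have b3 : ∑ i ∈ Finset.range n, ‖AA r (w - ((K1 + ((i + 1 : ℕ) : ℤ) : ℤ) : ℂ)) -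
      AA r (w - ((K1 + (i : ℤ) : ℤ) : ℂ))‖ ≤
      800 * (2 * (4 * R ^ (-(1 / 2) : ℝ))) + 3200 * r * (2 * (4 * R ^ (-(3 / 2) : ℝ))) := by
    refine (Finset.sum_le_sum b2).trans ?_
    rw [Finset.sum_add_distrib, ← Finset.mul_sum, ← Finset.mul_sum]
    have c1 := U09_two_sided (fun n => (R + (n : ℝ)) ^ (-(3 / 2) : ℝ))
      (fun n => Real.rpow_nonneg (by positivity) _) _ (fun N => U09_sum1 hR N)
      (Finset.Ico K1 (K1 + n)) ⌊w.re⌋
    have c2 := U09_two_sided (fun n => (R + (n : ℝ)) ^ (-(5 / 2) : ℝ))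
      (fun n => Real.rpow_nonneg (by positivity) _) _ (fun N => U09_sum2 hR N)
      (Finset.Ico K1 (K1 + n)) ⌊w.re⌋
    rw [U09_sum_Ico (fun k : ℤ => (R + (((k - ⌊w.re⌋).natAbs : ℕ) : ℝ)) ^ (-(3 / 2) : ℝ))] at c1
    rw [U09_sum_Ico (fun k : ℤ => (R + (((k - ⌊w.re⌋).natAbs : ℕ) : ℝ)) ^ (-(5 / 2) : ℝ))] at c2
    have c3 := mul_le_mul_of_nonneg_left c2 (by positivity : 0 ≤ 3200 * r)
    linarith
  nlinarith [mul_nonneg hr q2]

theorem U09_sum_split {M : Type*} [AddCommMonoid M] (f : ℤ → M) {K1 a K2 : ℤ} (h1 : K1 ≤ a)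
    (h2 : a ≤ K2 + 1) :
    ∑ k ∈ Finset.Icc K1 K2, f k = ∑ k ∈ Finset.Icc K1 (a - 1), f k + ∑ k ∈ Finset.Icc a K2, f k := by
  rw [← Finset.sum_union]
  · congr 1
    ext k
    simp only [Finset.mem_Icc, Finset.mem_union]
    omega
  · rw [Finset.disjoint_left]
    intro k hk hk'
    simp only [Finset.mem_Icc] at hk hk'
    omega

/-- splitting an interval of integers into a middle part and two tails -/
theorem U09_parts (w : ℂ) (R : ℝ) (K1 K2 : ℤ) : ∃ a b : ℤ,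
    (∀ f : ℤ → ℂ, ∑ k ∈ Finset.Icc K1 K2, f k = ∑ k ∈ Finset.Icc K1 (a - 1), f k +
      ∑ k ∈ Finset.Icc a b, f k + ∑ k ∈ Finset.Icc (b + 1) K2, f k) ∧
    (∀ k, a ≤ k → k ≤ b → K1 ≤ k ∧ k ≤ K2 ∧ ‖w - k‖ < R) ∧
    (∀ k, K1 ≤ k → k ≤ a - 1 → R ≤ ‖w - k‖) ∧
    (∀ k, b + 1 ≤ k → k ≤ K2 → R ≤ ‖w - k‖) := by
  classical
  set M := (Finset.Icc K1 K2).filter (fun k : ℤ => ‖w - k‖ < R) with hM
  rcases M.eq_empty_or_nonempty with he | hne
  · refine ⟨K1, K1 - 1, fun f => ?_, fun k h1 h2 => by omega, fun k h1 h2 => by omega,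
      fun k h1 h2 => ?_⟩
    · rw [Finset.Icc_eq_empty (a := K1) (b := K1 - 1) (by omega), Finset.sum_empty, zero_add,
        zero_add, sub_add_cancel]
    · by_contra hc
      have : k ∈ M := by
        rw [hM, Finset.mem_filter, Finset.mem_Icc]
        exact ⟨⟨by omega, h2⟩, not_le.mp hc⟩
      rw [he] at this
      simp at this
  · have ha := M.min'_mem hne
    have hb := M.max'_mem hne
    set a := M.min' hne with hadef
    set b := M.max' hne with hbdef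
    have hab : a ≤ b := M.min'_le b hb
    rw [hM, Finset.mem_filter, Finset.mem_Icc] at ha hb
    refine ⟨a, b, fun f => ?_, fun k h1 h2 => ⟨by omega, by omega, ?_⟩, fun k h1 h2 => ?_,
      fun k h1 h2 => ?_⟩
    · rw [U09_sum_split f ha.1.1 (by omega : a ≤ K2 + 1),
        U09_sum_split f (by omega : a ≤ b + 1) (by omega : b + 1 ≤ K2 + 1), add_sub_cancel_right,
        add_assoc]
    · have hsq : ∀ j : ℤ, ‖w - j‖ ^ 2 = (w.re - j) ^ 2 + w.im ^ 2 := by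
        intro j
        rw [U09_sq]
        simp
      have h1' : (a : ℝ) ≤ k := by exact_mod_cast h1
      have h2' : (k : ℝ) ≤ b := by exact_mod_cast h2
      have hRpos : 0 ≤ R := (norm_nonneg _).trans ha.2.le
      rcases le_total w.re k with hx | hx
      · have : ‖w - k‖ ^ 2 ≤ ‖w - b‖ ^ 2 := by
          rw [hsq, hsq]
          nlinarith
        exact (le_of_sq_le_sq this (norm_nonneg _)).trans_lt hb.2
      · have : ‖w - k‖ ^ 2 ≤ ‖w - a‖ ^ 2 := by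
          rw [hsq, hsq]
          nlinarith
        exact (le_of_sq_le_sq this (norm_nonneg _)).trans_lt ha.2
    · by_contra hc
      have : k ∈ M := by
        rw [hM, Finset.mem_filter, Finset.mem_Icc]
        exact ⟨⟨by omega, by omega⟩, not_le.mp hc⟩
      have := M.min'_le k this
      omega
    · by_contra hc
      have : k ∈ M := by
        rw [hM, Finset.mem_filter, Finset.mem_Icc]
        exact ⟨⟨by omega, by omega⟩, not_le.mp hc⟩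
      have := M.le_max' k this
      omega

theorem U09_sqrt_sum (N : ℕ) :
    ∑ n ∈ Finset.range N, (1 + (n : ℝ)) ^ (-(1 / 2) : ℝ) ≤ 2 * Real.sqrt N := by
  induction N with
  | zero => simp
  | succ N ih =>
    rw [Finset.sum_range_succ]
    have h1 : (1 + (N : ℝ)) ^ (-(1 / 2) : ℝ) = 1 / Real.sqrt (N + 1) := by
      rw [Real.rpow_neg (by positivity), ← Real.sqrt_eq_rpow, add_comm, one_div]
    rw [h1]
    push_cast
    have hs0 : 0 < Real.sqrt (N + 1) := Real.sqrt_pos.mpr (by positivity)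
    have hs1 : Real.sqrt (N + 1) ^ 2 = N + 1 := Real.sq_sqrt (by positivity)
    have hs2 : Real.sqrt (N : ℝ) ^ 2 = N := Real.sq_sqrt (by positivity)
    have hs3 : 0 ≤ Real.sqrt (N : ℝ) := Real.sqrt_nonneg _
    have hs4 : Real.sqrt (N : ℝ) ≤ Real.sqrt (N + 1) := Real.sqrt_le_sqrt (by linarith)
    have h2 : 1 / Real.sqrt (N + 1) ≤ 2 * (Real.sqrt (N + 1) - Real.sqrt N) := by
      rw [div_le_iff₀ hs0]
      nlinarith
    linarith

/-- (PSa) -/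
theorem PSa : ∃ C : ℝ, ∀ r : ℝ, 0 ≤ r → ∀ w : ℂ, 0 < w.im → ∀ K1 K2 : ℤ,
    (∀ k, K1 ≤ k → k ≤ K2 → 1 ≤ ‖w - k‖) →
    ‖∑ k ∈ Finset.Icc K1 K2, kp ^ k * AA r (w - k)‖ ≤ C * (1 + r) ^ (1 / 4 : ℝ) := by
  obtain ⟨C, hC⟩ := PS_tail
  refine ⟨2 * (16 + 4 * |C|), fun r hr w hw K1 K2 hK => ?_⟩
  set R : ℝ := 1 + Real.sqrt r with hRdef
  have hsr : 0 ≤ Real.sqrt r := Real.sqrt_nonneg r
  have hsr2 : Real.sqrt r ^ 2 = r := Real.sq_sqrt hr
  have hR1 : 1 ≤ R := by linarith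
  have hR0 : 0 < R := by linarith
  obtain ⟨a, b, hsplit, hmid, hl, hr'⟩ := U09_parts w R K1 K2
  rw [hsplit]
  have t1 := hC r hr w hw R hR1 K1 (a - 1) hl
  have t3 := hC r hr w hw R hR1 (b + 1) K2 hr'
  have hsR : 1 ≤ Real.sqrt R := Real.one_le_sqrt.mpr hR1
  have hsR2 : Real.sqrt R ^ 2 = R := Real.sq_sqrt hR0.le
  have hneg : R ^ (-(1 / 2) : ℝ) = 1 / Real.sqrt R := by
    rw [Real.rpow_neg hR0.le, ← Real.sqrt_eq_rpow, one_div]
  have hneg3 : R ^ (-(3 / 2) : ℝ) = (1 / Real.sqrt R) ^ 3 := by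
    rw [(U09_pow hR0).1, hneg]
  have hT : R ^ (-(1 / 2) : ℝ) + r * R ^ (-(3 / 2) : ℝ) ≤ 2 * Real.sqrt R := by
    rw [hneg, hneg3]
    have u1 : 1 / Real.sqrt R ≤ 1 := by
      rw [div_le_one (by linarith)]
      exact hsR
    have u2 : r ≤ Real.sqrt R ^ 4 := by
      have : Real.sqrt R ^ 4 = R ^ 2 := by
        calc Real.sqrt R ^ 4 = (Real.sqrt R ^ 2) ^ 2 := by ring
          _ = R ^ 2 := by rw [hsR2]
      rw [this, hRdef]
      nlinarith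
    have u3 : r * (1 / Real.sqrt R) ^ 3 ≤ Real.sqrt R := by
      calc r * (1 / Real.sqrt R) ^ 3 ≤ Real.sqrt R ^ 4 * (1 / Real.sqrt R) ^ 3 :=
            mul_le_mul_of_nonneg_right u2 (by positivity)
        _ = Real.sqrt R := by
            field_simp
    linarith
  have him : ∀ k : ℤ, 0 < (w - k).im := fun k => by simpa using hw
  -- the middle part
  have t2 : ‖∑ k ∈ Finset.Icc a b, kp ^ k * AA r (w - k)‖ ≤ 16 * Real.sqrt R := by
    set N : ℕ := ⌈R⌉₊ + 1 with hN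
    have hbound : ∀ k ∈ Finset.Icc a b, ‖kp ^ k * AA r (w - k)‖ ≤
        2 * (if (k - ⌊w.re⌋).natAbs < N then (1 + (((k - ⌊w.re⌋).natAbs : ℕ) : ℝ)) ^ (-(1 / 2) : ℝ)
          else 0) := by
      intro k hk
      rw [Finset.mem_Icc] at hk
      obtain ⟨hk1, hk2, hk3⟩ := hmid k hk.1 hk.2
      have h1 := hK k hk1 hk2
      have h2 := U09_floor h1
      have h3 : (k - ⌊w.re⌋).natAbs < N := by
        have h4 : (((k - ⌊w.re⌋).natAbs : ℕ) : ℝ) < N := by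
          rw [hN]
          push_cast
          linarith [Nat.le_ceil R]
        exact_mod_cast h4
      rw [if_pos h3, norm_mul, norm_zpow, U09_kp_norm, one_zpow, one_mul]
      refine (U09_AA_le r hr (him k)).trans ?_
      exact (U09_four (a := 1 + (((k - ⌊w.re⌋).natAbs : ℕ) : ℝ)) (by positivity)
        (U09_dist le_rfl h1)).1
    refine (norm_sum_le _ _).trans ((Finset.sum_le_sum hbound).trans ?_)
    rw [← Finset.mul_sum]
    have c1 := U09_two_sided (fun n => if n < N then (1 + (n : ℝ)) ^ (-(1 / 2) : ℝ) else 0)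
      (fun n => by
        split_ifs
        · exact Real.rpow_nonneg (by positivity) _
        · exact le_rfl) (2 * Real.sqrt N)
      (fun M => by
        refine le_trans ?_ (U09_sqrt_sum N)
        rw [← Finset.sum_filter]
        refine Finset.sum_le_sum_of_subset_of_nonneg ?_ fun n _ _ =>
          Real.rpow_nonneg (by positivity) _
        intro n hn
        rw [Finset.mem_filter] at hn
        exact Finset.mem_range.mpr hn.2)
      (Finset.Icc a b) ⌊w.re⌋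
    have hN4 : Real.sqrt N ≤ 2 * Real.sqrt R := by
      have : (N : ℝ) ≤ 2 ^ 2 * R := by
        rw [hN]
        push_cast
        have := Nat.ceil_lt_add_one hR0.le
        linarith
      calc Real.sqrt N ≤ Real.sqrt (2 ^ 2 * R) := Real.sqrt_le_sqrt this
        _ = 2 * Real.sqrt R := by
          rw [Real.sqrt_mul (by norm_num), Real.sqrt_sq (by norm_num)]
    linarith
  have t1' : ‖∑ k ∈ Finset.Icc K1 (a - 1), kp ^ k * AA r (w - k)‖ ≤ 2 * |C| * Real.sqrt R := by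
    refine t1.trans ?_
    have hnn : 0 ≤ R ^ (-(1 / 2) : ℝ) + r * R ^ (-(3 / 2) : ℝ) := by positivity
    calc C * (R ^ (-(1 / 2) : ℝ) + r * R ^ (-(3 / 2) : ℝ))
        ≤ |C| * (R ^ (-(1 / 2) : ℝ) + r * R ^ (-(3 / 2) : ℝ)) :=
          mul_le_mul_of_nonneg_right (le_abs_self C) hnn
      _ ≤ |C| * (2 * Real.sqrt R) := mul_le_mul_of_nonneg_left hT (abs_nonneg C)
      _ = 2 * |C| * Real.sqrt R := by ring
  have t3' : ‖∑ k ∈ Finset.Icc (b + 1) K2, kp ^ k * AA r (w - k)‖ ≤ 2 * |C| * Real.sqrt R := by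
    refine t3.trans ?_
    have hnn : 0 ≤ R ^ (-(1 / 2) : ℝ) + r * R ^ (-(3 / 2) : ℝ) := by positivity
    calc C * (R ^ (-(1 / 2) : ℝ) + r * R ^ (-(3 / 2) : ℝ))
        ≤ |C| * (R ^ (-(1 / 2) : ℝ) + r * R ^ (-(3 / 2) : ℝ)) :=
          mul_le_mul_of_nonneg_right (le_abs_self C) hnn
      _ ≤ |C| * (2 * Real.sqrt R) := mul_le_mul_of_nonneg_left hT (abs_nonneg C)
      _ = 2 * |C| * Real.sqrt R := by ring
  have hfin : Real.sqrt R ≤ 2 * (1 + r) ^ (1 / 4 : ℝ) := by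
    have h1 : R ≤ 2 * Real.sqrt (1 + r) := by
      have h2 : 0 ≤ Real.sqrt (1 + r) := Real.sqrt_nonneg _
      have h3 : Real.sqrt (1 + r) ^ 2 = 1 + r := Real.sq_sqrt (by linarith)
      have h4 : Real.sqrt r ≤ Real.sqrt (1 + r) := Real.sqrt_le_sqrt (by linarith)
      have h5 : 1 ≤ Real.sqrt (1 + r) := Real.one_le_sqrt.mpr (by linarith)
      linarith
    have h6 : (1 + r) ^ (1 / 4 : ℝ) = Real.sqrt (Real.sqrt (1 + r)) := by
      rw [Real.sqrt_eq_rpow, Real.sqrt_eq_rpow, ← Real.rpow_mul (by linarith)]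
      norm_num
    rw [h6]
    calc Real.sqrt R ≤ Real.sqrt (2 ^ 2 * Real.sqrt (1 + r)) := by
          refine Real.sqrt_le_sqrt ?_
          have : 0 ≤ Real.sqrt (1 + r) := Real.sqrt_nonneg _
          linarith
      _ = 2 * Real.sqrt (Real.sqrt (1 + r)) := by
          rw [Real.sqrt_mul (by norm_num), Real.sqrt_sq (by norm_num)]
  have hfin2 : ‖∑ k ∈ Finset.Icc K1 (a - 1), kp ^ k * AA r (w - k) +
      ∑ k ∈ Finset.Icc a b, kp ^ k * AA r (w - k) +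
      ∑ k ∈ Finset.Icc (b + 1) K2, kp ^ k * AA r (w - k)‖ ≤ (16 + 4 * |C|) * Real.sqrt R := by
    refine (norm_add_le _ _).trans ?_
    have := norm_add_le (∑ k ∈ Finset.Icc K1 (a - 1), kp ^ k * AA r (w - k))
      (∑ k ∈ Finset.Icc a b, kp ^ k * AA r (w - k))
    linarith
  refine hfin2.trans ?_
  have := mul_le_mul_of_nonneg_left hfin (by positivity : 0 ≤ 16 + 4 * |C|)
  linarith

end RV11
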