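import Pool.Agent.LibRV11.U09
open Complex Real MeasureTheory
open UpperHalfPlane hiding I
open scoped MatrixGroups

namespace RV11

/-! ### U10a -/

/-- Gaussian integral -/
theorem AA_eq_integral (r : ℝ) (hr : 0 ≤ r) {w : ℂ} (hw : 0 < w.im) :
    AA r w = ∫ x : ℝ, cexp (π * I * w * x ^ 2 - 2 * π * I * Real.sqrt r * x) := by
  have hw0 : w ≠ 0 := by
    rintro rfl
    simp at hw
  have hpi : (π : ℂ) ≠ 0 := by exact_mod_cast Real.pi_ne_zero
  have hI : (I : ℂ) ≠ 0 := Complex.I_ne_zero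
  have hb : ((π : ℂ) * I * w).re < 0 := by
    have : ((π : ℂ) * I * w).re = -(π * w.im) := by simp
    rw [this]
    have := mul_pos Real.pi_pos hw
    linarith
  have h1 := integral_cexp_quadratic hb (-(2 * π * I * Real.sqrt r)) 0
  have h2 : ∀ x : ℝ, cexp (π * I * w * x ^ 2 - 2 * π * I * Real.sqrt r * x) =
      cexp (π * I * w * x ^ 2 + -(2 * π * I * Real.sqrt r) * x + 0) := by
    intro x
    congr 1
    ring
  simp only [h2]
  rw [h1, AA]
  have e1 : (π : ℂ) / -(π * I * w) = (-I * w)⁻¹ := by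
    field_simp
  have hs : ((Real.sqrt r : ℝ) : ℂ) ^ 2 = r := by
    rw [← Complex.ofReal_pow, Real.sq_sqrt hr]
  have e2 : (0 : ℂ) - (-(2 * π * I * Real.sqrt r)) ^ 2 / (4 * (π * I * w)) =
      -(π * I * r / w) := by
    field_simp
    linear_combination (-(4 : ℂ) * π * I) * hs
  have harg : (-I * w).arg ≠ π := Complex.slitPlane_arg_ne_pi (U09_slit hw)
  have e3 : ((-I * w)⁻¹) ^ (1 / 2 : ℂ) = (-I * w) ^ (-(1 / 2) : ℂ) := by
    rw [Complex.inv_cpow _ _ harg, ← Complex.cpow_neg]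
  rw [e1, e2, e3]

/-- Dirichlet kernel at `5/4 - x²` -/
theorem dirichlet_bound (K1 K2 : ℤ) (hK : K1 ≤ K2) (x : ℝ) :
    ‖∑ k ∈ Finset.Icc K1 K2, kp ^ k * cexp (-(π * I * k * x ^ 2))‖ ≤ (K2 - K1 + 1 : ℝ) ∧
    ‖∑ k ∈ Finset.Icc K1 K2, kp ^ k * cexp (-(π * I * k * x ^ 2))‖ *
      |Real.sin (π * (5 / 8 - x ^ 2 / 2))| ≤ 1 := by
  set z : ℂ := cexp (((π * (5 / 4 - x ^ 2) : ℝ) : ℂ) * I) with hz
  have hz1 : ‖z‖ = 1 := Complex.norm_exp_ofReal_mul_I _
  have hz0 : z ≠ 0 := Complex.exp_ne_zero _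
  have hterm : ∀ k : ℤ, kp ^ k * cexp (-(π * I * k * x ^ 2)) = z ^ k := by
    intro k
    have h1 : cexp (-(π * I * k * x ^ 2)) = cexp (-(π * I * x ^ 2)) ^ k := by
      rw [← Complex.exp_int_mul]
      congr 1
      ring
    have h2 : kp * cexp (-(π * I * x ^ 2)) = z := by
      have h3 : kp = cexp (π * I) * cexp (π * I / 4) := by
        rw [Complex.exp_pi_mul_I, kp]
        ring
      rw [h3, hz, ← Complex.exp_add, ← Complex.exp_add]
      congr 1
      push_cast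
      ring
    rw [h1, ← mul_zpow, h2]
  simp only [hterm]
  have hcard : ((Finset.Icc K1 K2).card : ℝ) = K2 - K1 + 1 := by
    rw [Int.card_Icc]
    have : (((K2 + 1 - K1).toNat : ℤ) : ℝ) = ((K2 + 1 - K1 : ℤ) : ℝ) := by
      rw [Int.toNat_of_nonneg (by omega)]
    rw [Int.cast_natCast] at this
    rw [this]
    push_cast
    ring
  constructor
  · refine (norm_sum_le _ _).trans ?_
    simp only [norm_zpow, hz1, one_zpow, Finset.sum_const, nsmul_eq_mul, mul_one]
    exact hcard.le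
  · -- telescoping
    have h1 : ∀ n : ℕ, (z - 1) * ∑ i ∈ Finset.range n, z ^ (K1 + (i : ℤ)) =
        z ^ (K1 + (n : ℤ)) - z ^ K1 := by
      intro n
      induction n with
      | zero => simp
      | succ n ih =>
        rw [Finset.sum_range_succ, mul_add, ih]
        have : z ^ (K1 + ((n + 1 : ℕ) : ℤ)) = z * z ^ (K1 + (n : ℤ)) := by
          push_cast
          rw [← add_assoc, zpow_add_one₀ hz0, mul_comm]
        rw [this]
        ring
    rw [U09_sum_Icc (fun k => z ^ k)]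
    set S := ∑ i ∈ Finset.range (K2 + 1 - K1).toNat, z ^ (K1 + (i : ℤ)) with hS
    have h2 : ‖(z - 1) * S‖ ≤ 2 := by
      rw [hS, h1]
      refine (norm_sub_le _ _).trans ?_
      rw [norm_zpow, norm_zpow, hz1, one_zpow, one_zpow]
      norm_num
    have h3 : ‖z - 1‖ = 2 * |Real.sin (π * (5 / 8 - x ^ 2 / 2))| := by
      have h4 : ‖z - 1‖ ^ 2 = (2 * |Real.sin (π * (5 / 8 - x ^ 2 / 2))|) ^ 2 := by
        rw [U09_sq, hz, Complex.sub_re, Complex.sub_im, Complex.exp_ofReal_mul_I_re,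
          Complex.exp_ofReal_mul_I_im, Complex.one_re, Complex.one_im, mul_pow, sq_abs]
        have e1 : π * (5 / 4 - x ^ 2) = 2 * (π * (5 / 8 - x ^ 2 / 2)) := by ring
        rw [e1, Real.cos_two_mul, Real.sin_two_mul]
        set s := Real.sin (π * (5 / 8 - x ^ 2 / 2))
        set c := Real.cos (π * (5 / 8 - x ^ 2 / 2))
        have e2 : s ^ 2 + c ^ 2 = 1 := Real.sin_sq_add_cos_sq _
        have e3 : c ^ 2 = 1 - s ^ 2 := by linarith
        have e4 : c ^ 4 = (1 - s ^ 2) ^ 2 := by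
          calc c ^ 4 = (c ^ 2) ^ 2 := by ring
            _ = (1 - s ^ 2) ^ 2 := by rw [e3]
        linear_combination 4 * e4 + (4 * s ^ 2 - 8) * e3
      exact (sq_eq_sq₀ (norm_nonneg _) (by positivity)).mp h4
    rw [norm_mul, h3] at h2
    nlinarith
end RV11
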