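import Pool.Agent.LibRV11.U0
open Complex Real MeasureTheory
open UpperHalfPlane hiding I
open scoped MatrixGroups

namespace RV11

/-! ### U10b -/

/-- singular point number `l` -/
noncomputable def U10b_s (l : ℕ) : ℝ := Real.sqrt (2 * l + 5 / 4)

/-- end points of the pieces -/
noncomputable def U10b_b : ℕ → ℝ
  | 0 => 0
  | (l + 1) => Real.sqrt (2 * l + 1 / 4)

theorem U10b_s_sq (l : ℕ) : U10b_s l ^ 2 = 2 * l + 5 / 4 := Real.sq_sqrt (by positivity)

theorem U10b_b_sq (l : ℕ) : U10b_b (l + 1) ^ 2 = 2 * l + 1 / 4 := Real.sq_sqrt (by positivity)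

theorem U10b_b_nonneg (l : ℕ) : 0 ≤ U10b_b l := by
  cases l with
  | zero => exact le_rfl
  | succ l => exact Real.sqrt_nonneg _

theorem U10b_s_one (l : ℕ) : 1 ≤ U10b_s l := by
  refine Real.one_le_sqrt.mpr ?_
  have : (0 : ℝ) ≤ l := Nat.cast_nonneg l
  linarith

theorem U10b_b_le_s (l : ℕ) : U10b_b (l + 1) ≤ U10b_s l := Real.sqrt_le_sqrt (by linarith)

theorem U10b_s_le_b (l : ℕ) : U10b_s l ≤ U10b_b (l + 2) := by
  refine Real.sqrt_le_sqrt ?_
  push_cast
  linarith

theorem U10b_b_mono (l : ℕ) : U10b_b l ≤ U10b_b (l + 1) := by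
  cases l with
  | zero => exact U10b_b_nonneg 1
  | succ l => exact (U10b_b_le_s l).trans (U10b_s_le_b l)

/-- the previous piece is not too short -/
theorem U10b_len (l : ℕ) : 1 / (2 * U10b_s l) ≤ U10b_b (l + 1) - U10b_b l := by
  have hs := U10b_s_one l
  cases l with
  | zero =>
    have h1 : U10b_b (0 + 1) = 1 / 2 := by
      have h2 := U10b_b_sq 0
      have h3 := U10b_b_nonneg (0 + 1)
      have h4 : U10b_b (0 + 1) ^ 2 = (1 / 2) ^ 2 := by rw [h2]; norm_num
      exact (sq_eq_sq₀ h3 (by norm_num)).mp h4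
    rw [h1]
    show 1 / (2 * U10b_s 0) ≤ 1 / 2 - 0
    rw [sub_zero, one_div_le_one_div (by positivity) (by norm_num)]
    linarith
  | succ l =>
    have h1 := U10b_b_sq (l + 1)
    have h2 := U10b_b_sq l
    have h3 := U10b_b_le_s (l + 1)
    have h4 := U10b_b_mono (l + 1)
    have h5 := U10b_b_nonneg (l + 1)
    rw [div_le_iff₀ (by positivity)]
    push_cast at h1
    nlinarith

theorem U10b_sin {l : ℕ} {x : ℝ} (hx0 : 0 ≤ x) (h1 : 2 * l + 1 / 4 ≤ x ^ 2)
    (h2 : x ^ 2 ≤ 2 * l + 9 / 4) :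
    |x - U10b_s l| * U10b_s l ≤ |Real.sin (π * (5 / 8 - x ^ 2 / 2))| := by
  have hs := U10b_s_one l
  have hs2 := U10b_s_sq l
  have e1 : |Real.sin (π * (5 / 8 - x ^ 2 / 2))| =
      |Real.sin (π * (x ^ 2 / 2 - 5 / 8 - l))| := by
    have : π * (x ^ 2 / 2 - 5 / 8 - l) = -(π * (5 / 8 - x ^ 2 / 2)) - l * π := by ring
    rw [this, Real.sin_sub_nat_mul_pi, abs_mul, Real.sin_neg, abs_neg, abs_pow, abs_neg, abs_one,
      one_pow, one_mul]
  rw [e1]
  have h3 : |π * (x ^ 2 / 2 - 5 / 8 - l)| ≤ π / 2 := by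
    rw [abs_mul, abs_of_pos Real.pi_pos]
    have : |x ^ 2 / 2 - 5 / 8 - l| ≤ 1 / 2 := by
      rw [abs_le]
      constructor <;> linarith
    have := mul_le_mul_of_nonneg_left this Real.pi_pos.le
    linarith
  refine le_trans ?_ (Real.mul_abs_le_abs_sin h3)
  have e2 : 2 / π * |π * (x ^ 2 / 2 - 5 / 8 - l)| = |x - U10b_s l| * (x + U10b_s l) := by
    have h4 : x ^ 2 / 2 - 5 / 8 - l = (x - U10b_s l) * (x + U10b_s l) / 2 := by
      have : (x - U10b_s l) * (x + U10b_s l) = x ^ 2 - U10b_s l ^ 2 := by ring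
      rw [this, hs2]
      ring
    rw [h4, abs_mul, abs_of_pos Real.pi_pos, abs_div, abs_mul,
      abs_of_nonneg (by linarith : 0 ≤ x + U10b_s l), abs_two]
    field_simp
  rw [e2]
  exact mul_le_mul_of_nonneg_left (by linarith) (abs_nonneg _)

/-- the integral of `D` over a piece -/
theorem U10b_piece {N : ℝ} (hN : 1 ≤ N) {D : ℝ → ℝ} (hDc : Continuous D) (hD0 : ∀ x, 0 ≤ D x)
    (hDN : ∀ x, D x ≤ N) (hDs : ∀ x, D x * |Real.sin (π * (5 / 8 - x ^ 2 / 2))| ≤ 1) (l : ℕ) :
    ∫ x in (U10b_b (l + 1))..(U10b_b (l + 2)), D x ≤ 4 / U10b_s l * Real.log (1 + N) := by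
  set s := U10b_s l with hsdef
  have hs : 1 ≤ s := U10b_s_one l
  have hs0 : 0 < s := by linarith
  have ha := U10b_b_le_s l
  have hb := U10b_s_le_b l
  have ha0 := U10b_b_nonneg (l + 1)
  have hasq := U10b_b_sq l
  have hbsq := U10b_b_sq (l + 1)
  have hssq := U10b_s_sq l
  rw [← hsdef] at ha hb hssq
  push_cast at hbsq
  set a := U10b_b (l + 1) with hadef
  set b := U10b_b (l + 2) with hbdef
  have hb0 : 0 ≤ b := by linarith
  have hN0 : 0 < N := by linarith
  -- pointwise bound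
  have hpt : ∀ x, a ≤ x → x ≤ b → D x ≤ 2 * N / (1 + N * s * |x - s|) := by
    intro x hx1 hx2
    have h1 : 2 * (l : ℝ) + 1 / 4 ≤ x ^ 2 := by
      rw [← hasq]
      exact pow_le_pow_left₀ ha0 hx1 2
    have h2 : x ^ 2 ≤ 2 * (l : ℝ) + 9 / 4 := by
      have : x ^ 2 ≤ b ^ 2 := pow_le_pow_left₀ (by linarith) hx2 2
      linarith
    have h3 := U10b_sin (by linarith : 0 ≤ x) h1 h2
    rw [← hsdef] at h3
    have h4 := hDs x
    have h5 : D x * (|x - s| * s) ≤ 1 := (mul_le_mul_of_nonneg_left h3 (hD0 x)).trans h4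
    rw [le_div_iff₀ (by positivity)]
    have h6 := hDN x
    nlinarith
  have hlog : ∀ t : ℝ, 0 ≤ t → t * s ≤ 1 → Real.log (1 + N * s * t) ≤ Real.log (1 + N) := by
    intro t ht hts
    refine Real.log_le_log (by positivity) ?_
    nlinarith
  have hDi : ∀ u v : ℝ, IntervalIntegrable D volume u v := fun u v => hDc.intervalIntegrable u v
  -- right part
  have hright : ∫ x in s..b, D x ≤ 2 / s * Real.log (1 + N) := by
    have hder : ∀ x ∈ Set.uIcc s b, HasDerivAt (fun x => 2 / s * Real.log (1 + N * s * (x - s)))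
        (2 * N / (1 + N * s * (x - s))) x := by
      intro x hx
      rw [Set.uIcc_of_le hb] at hx
      have hpos : 0 < 1 + N * s * (x - s) := by
        have : 0 ≤ x - s := by linarith [hx.1]
        positivity
      have h1 : HasDerivAt (fun x => 1 + N * s * (x - s)) (N * s) x := by
        have := (((hasDerivAt_id x).sub_const s).const_mul (N * s)).const_add 1
        simpa using this
      have h2 := (h1.log hpos.ne').const_mul (2 / s)
      refine h2.congr_deriv ?_
      field_simp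
    have hcont : ContinuousOn (fun x => 2 * N / (1 + N * s * (x - s))) (Set.uIcc s b) := by
      rw [Set.uIcc_of_le hb]
      refine ContinuousOn.div continuousOn_const (by fun_prop) fun x hx => ?_
      have : 0 ≤ x - s := by linarith [hx.1]
      positivity
    have hint := intervalIntegral.integral_eq_sub_of_hasDerivAt hder hcont.intervalIntegrable
    have hle : ∫ x in s..b, D x ≤ ∫ x in s..b, 2 * N / (1 + N * s * (x - s)) := by
      refine intervalIntegral.integral_mono_on hb (hDi s b) hcont.intervalIntegrable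
        fun x hx => ?_
      have h1 := hpt x (by linarith [hx.1]) hx.2
      rwa [abs_of_nonneg (by linarith [hx.1] : 0 ≤ x - s)] at h1
    refine hle.trans ?_
    rw [hint]
    simp only [sub_self, mul_zero, add_zero, Real.log_one]
    have h2 : (b - s) * s ≤ 1 := by nlinarith
    have h3 := hlog (b - s) (by linarith) h2
    rw [sub_zero]
    exact mul_le_mul_of_nonneg_left h3 (by positivity)
  -- left part
  have hleft : ∫ x in a..s, D x ≤ 2 / s * Real.log (1 + N) := by
    have hder : ∀ x ∈ Set.uIcc a s, HasDerivAt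
        (fun x => -(2 / s * Real.log (1 + N * s * (s - x))))
        (2 * N / (1 + N * s * (s - x))) x := by
      intro x hx
      rw [Set.uIcc_of_le ha] at hx
      have hpos : 0 < 1 + N * s * (s - x) := by
        have : 0 ≤ s - x := by linarith [hx.2]
        positivity
      have h1 : HasDerivAt (fun x => 1 + N * s * (s - x)) (-(N * s)) x := by
        have := (((hasDerivAt_id x).const_sub s).const_mul (N * s)).const_add 1
        simpa using this
      have h2 := ((h1.log hpos.ne').const_mul (2 / s)).neg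
      refine h2.congr_deriv ?_
      field_simp
    have hcont : ContinuousOn (fun x => 2 * N / (1 + N * s * (s - x))) (Set.uIcc a s) := by
      rw [Set.uIcc_of_le ha]
      refine ContinuousOn.div continuousOn_const (by fun_prop) fun x hx => ?_
      have : 0 ≤ s - x := by linarith [hx.2]
      positivity
    have hint := intervalIntegral.integral_eq_sub_of_hasDerivAt hder hcont.intervalIntegrable
    have hle : ∫ x in a..s, D x ≤ ∫ x in a..s, 2 * N / (1 + N * s * (s - x)) := by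
      refine intervalIntegral.integral_mono_on ha (hDi a s) hcont.intervalIntegrable
        fun x hx => ?_
      have h1 := hpt x hx.1 (by linarith [hx.2])
      rwa [abs_of_nonpos (by linarith [hx.2] : x - s ≤ 0), neg_sub] at h1
    refine hle.trans ?_
    rw [hint]
    simp only [sub_self, mul_zero, add_zero, Real.log_one, neg_zero, zero_sub, neg_neg]
    have h2 : (s - a) * s ≤ 1 := by nlinarith
    have h3 := hlog (s - a) (by linarith) h2
    exact mul_le_mul_of_nonneg_left h3 (by positivity)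
  have hsplit : ∫ x in a..b, D x = (∫ x in a..s, D x) + ∫ x in s..b, D x :=
    (intervalIntegral.integral_add_adjacent_intervals (hDi a s) (hDi s b)).symm
  rw [hsplit]
  have : 4 / s * Real.log (1 + N) = 2 / s * Real.log (1 + N) + 2 / s * Real.log (1 + N) := by ring
  rw [this]
  exact add_le_add hleft hright

theorem U10b_gauss_mono {v : ℝ} (hv : 0 < v) {x y : ℝ} (hx : 0 ≤ x) (hxy : x ≤ y) :
    Real.exp (-(π * v * y ^ 2)) ≤ Real.exp (-(π * v * x ^ 2)) := by
  refine Real.exp_le_exp.mpr ?_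
  have h1 : x ^ 2 ≤ y ^ 2 := pow_le_pow_left₀ hx hxy 2
  have h2 := mul_le_mul_of_nonneg_left h1 (by positivity : 0 ≤ π * v)
  linarith

theorem U10b_gauss_cont (v : ℝ) : Continuous (fun x : ℝ => Real.exp (-(π * v * x ^ 2))) := by
  fun_prop

/-- one piece with the Gaussian -/
theorem U10b_piece2 {v : ℝ} (hv : 0 < v) {N : ℝ} (hN : 1 ≤ N) {D : ℝ → ℝ} (hDc : Continuous D)
    (hD0 : ∀ x, 0 ≤ D x) (hDN : ∀ x, D x ≤ N)
    (hDs : ∀ x, D x * |Real.sin (π * (5 / 8 - x ^ 2 / 2))| ≤ 1) (l : ℕ) :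
    ∫ x in (U10b_b (l + 1))..(U10b_b (l + 2)), Real.exp (-(π * v * x ^ 2)) * D x ≤
      8 * Real.log (1 + N) *
        ∫ x in (U10b_b l)..(U10b_b (l + 1)), Real.exp (-(π * v * x ^ 2)) := by
  have hs0 : 0 < U10b_s l := by linarith [U10b_s_one l]
  have hlog : 0 ≤ Real.log (1 + N) := Real.log_nonneg (by linarith)
  have hab := U10b_b_mono (l + 1)
  have ha0 := U10b_b_nonneg (l + 1)
  have h1 : ∫ x in (U10b_b (l + 1))..(U10b_b (l + 2)), Real.exp (-(π * v * x ^ 2)) * D x ≤
      ∫ x in (U10b_b (l + 1))..(U10b_b (l + 2)),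
        Real.exp (-(π * v * U10b_b (l + 1) ^ 2)) * D x := by
    refine intervalIntegral.integral_mono_on hab
      (((U10b_gauss_cont v).mul hDc).intervalIntegrable _ _)
      ((continuous_const.mul hDc).intervalIntegrable _ _) fun x hx => ?_
    exact mul_le_mul_of_nonneg_right (U10b_gauss_mono hv ha0 hx.1) (hD0 x)
  have h2 : Real.exp (-(π * v * U10b_b (l + 1) ^ 2)) * (1 / (2 * U10b_s l)) ≤
      ∫ x in (U10b_b l)..(U10b_b (l + 1)), Real.exp (-(π * v * x ^ 2)) := by
    have h3 : ∫ _x in (U10b_b l)..(U10b_b (l + 1)), Real.exp (-(π * v * U10b_b (l + 1) ^ 2)) ≤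
        ∫ x in (U10b_b l)..(U10b_b (l + 1)), Real.exp (-(π * v * x ^ 2)) := by
      refine intervalIntegral.integral_mono_on (U10b_b_mono l)
        (continuous_const.intervalIntegrable _ _)
        ((U10b_gauss_cont v).intervalIntegrable _ _) fun x hx => ?_
      exact U10b_gauss_mono hv ((U10b_b_nonneg l).trans hx.1) hx.2
    rw [intervalIntegral.integral_const, smul_eq_mul] at h3
    refine le_trans ?_ h3
    rw [mul_comm]
    exact mul_le_mul_of_nonneg_right (U10b_len l) (Real.exp_pos _).le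
  refine h1.trans ?_
  rw [intervalIntegral.integral_const_mul]
  have h4 := U10b_piece hN hDc hD0 hDN hDs l
  calc Real.exp (-(π * v * U10b_b (l + 1) ^ 2)) *
        ∫ x in (U10b_b (l + 1))..(U10b_b (l + 2)), D x
      ≤ Real.exp (-(π * v * U10b_b (l + 1) ^ 2)) * (4 / U10b_s l * Real.log (1 + N)) :=
        mul_le_mul_of_nonneg_left h4 (Real.exp_pos _).le
    _ = 8 * Real.log (1 + N) *
        (Real.exp (-(π * v * U10b_b (l + 1) ^ 2)) * (1 / (2 * U10b_s l))) := by
        field_simp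
        ring
    _ ≤ _ := mul_le_mul_of_nonneg_left h2 (by positivity)

theorem U10b_first {D : ℝ → ℝ} (hD0 : ∀ x, 0 ≤ D x)
    (hDs : ∀ x, D x * |Real.sin (π * (5 / 8 - x ^ 2 / 2))| ≤ 1) {x : ℝ}
    (hx : 0 ≤ x) (hx1 : x ≤ 1 / 2) : D x ≤ 2 := by
  have h1 : Real.sin (π * (5 / 8 - x ^ 2 / 2)) = Real.cos (π * (1 / 8 - x ^ 2 / 2)) := by
    rw [← Real.sin_add_pi_div_two]
    congr 1
    ring
  have hx2 : x ^ 2 ≤ 1 / 4 := by nlinarith
  have h2 : 1 / 2 ≤ Real.cos (π * (1 / 8 - x ^ 2 / 2)) := by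
    have h3 := Real.one_sub_sq_div_two_le_cos (x := π * (1 / 8 - x ^ 2 / 2))
    have h4 : (π * (1 / 8 - x ^ 2 / 2)) ^ 2 ≤ 1 := by
      have h5 : 0 ≤ 1 / 8 - x ^ 2 / 2 := by linarith
      have h6 : 1 / 8 - x ^ 2 / 2 ≤ 1 / 8 := by nlinarith [sq_nonneg x]
      have h7 : π * (1 / 8 - x ^ 2 / 2) ≤ 1 := by nlinarith [Real.pi_le_four, Real.pi_pos]
      have h8 : 0 ≤ π * (1 / 8 - x ^ 2 / 2) := mul_nonneg Real.pi_pos.le h5
      nlinarith
    linarith
  have h3 := hDs x
  rw [h1, abs_of_pos (by linarith)] at h3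
  have h4 := hD0 x
  nlinarith

theorem U10b_half {v : ℝ} (hv : 0 < v) {N : ℝ} (hN : 1 ≤ N) {D : ℝ → ℝ} (hDc : Continuous D)
    (hD0 : ∀ x, 0 ≤ D x) (hDN : ∀ x, D x ≤ N)
    (hDs : ∀ x, D x * |Real.sin (π * (5 / 8 - x ^ 2 / 2))| ≤ 1) :
    Integrable (fun x : ℝ => Real.exp (-(π * v * x ^ 2)) * D x) ∧
    ∫ x in Set.Ioi (0 : ℝ), Real.exp (-(π * v * x ^ 2)) * D x ≤
      5 * v ^ (-(1 / 2) : ℝ) * Real.log (2 + N) := by
  have hg : Integrable (fun x : ℝ => Real.exp (-(π * v * x ^ 2))) := by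
    have := integrable_exp_neg_mul_sq (mul_pos Real.pi_pos hv)
    refine this.congr (Filter.Eventually.of_forall fun x => ?_)
    show Real.exp (-(π * v) * x ^ 2) = _
    rw [neg_mul]
  have hint : Integrable (fun x : ℝ => Real.exp (-(π * v * x ^ 2)) * D x) := by
    refine (hg.mul_const N).mono' ((U10b_gauss_cont v).mul hDc).aestronglyMeasurable
      (Filter.Eventually.of_forall fun x => ?_)
    rw [Real.norm_of_nonneg (mul_nonneg (Real.exp_pos _).le (hD0 x))]
    exact mul_le_mul_of_nonneg_left (hDN x) (Real.exp_pos _).le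
  refine ⟨hint, ?_⟩
  have hlog1 : 0 ≤ Real.log (1 + N) := Real.log_nonneg (by linarith)
  have hlog2 : Real.log (1 + N) ≤ Real.log (2 + N) := Real.log_le_log (by linarith) (by linarith)
  have hlog3 : 1 ≤ Real.log (2 + N) := by
    rw [Real.le_log_iff_exp_le (by linarith)]
    linarith [Real.exp_one_lt_d9]
  -- the Gaussian integral
  have hG : ∫ x in Set.Ioi (0 : ℝ), Real.exp (-(π * v * x ^ 2)) = v ^ (-(1 / 2) : ℝ) / 2 := by
    have := integral_gaussian_Ioi (π * v)
    have e1 : ∀ x : ℝ, Real.exp (-(π * v) * x ^ 2) = Real.exp (-(π * v * x ^ 2)) := fun x => by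
      rw [neg_mul]
    simp only [e1] at this
    rw [this]
    have e2 : π / (π * v) = v⁻¹ := by
      field_simp
    rw [e2, Real.sqrt_inv, Real.rpow_neg hv.le, ← Real.sqrt_eq_rpow]
  have hGle : ∀ u : ℝ, 0 ≤ u → ∫ x in (0 : ℝ)..u, Real.exp (-(π * v * x ^ 2)) ≤
      v ^ (-(1 / 2) : ℝ) / 2 := by
    intro u hu
    rw [← hG, intervalIntegral.integral_of_le hu]
    refine setIntegral_mono_set hg.integrableOn
      (Filter.Eventually.of_forall fun x => (Real.exp_pos _).le) ?_
    exact Filter.Eventually.of_forall (fun x hx => hx.1)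
  have hv0 : 0 ≤ v ^ (-(1 / 2) : ℝ) := Real.rpow_nonneg hv.le _
  have hi : ∀ u w : ℝ, IntervalIntegrable (fun x : ℝ => Real.exp (-(π * v * x ^ 2)) * D x)
      volume u w := fun u w => ((U10b_gauss_cont v).mul hDc).intervalIntegrable u w
  have hig : ∀ u w : ℝ, IntervalIntegrable (fun x : ℝ => Real.exp (-(π * v * x ^ 2)))
      volume u w := fun u w => (U10b_gauss_cont v).intervalIntegrable u w
  have hb1 : U10b_b 1 = 1 / 2 := by
    have h2 := U10b_b_sq 0
    have h3 := U10b_b_nonneg (0 + 1)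
    have h4 : U10b_b (0 + 1) ^ 2 = (1 / 2) ^ 2 := by rw [h2]; norm_num
    exact (sq_eq_sq₀ h3 (by norm_num)).mp h4
  have hfin : ∀ L : ℕ, ∫ x in (0 : ℝ)..(U10b_b (L + 1)), Real.exp (-(π * v * x ^ 2)) * D x ≤
      5 * v ^ (-(1 / 2) : ℝ) * Real.log (2 + N) := by
    intro L
    have e1 : ∫ x in (0 : ℝ)..(U10b_b (L + 1)), Real.exp (-(π * v * x ^ 2)) * D x =
        (∫ x in (0 : ℝ)..(U10b_b 1), Real.exp (-(π * v * x ^ 2)) * D x) +
        ∫ x in (U10b_b 1)..(U10b_b (L + 1)), Real.exp (-(π * v * x ^ 2)) * D x :=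
      (intervalIntegral.integral_add_adjacent_intervals (hi _ _) (hi _ _)).symm
    have e2 := intervalIntegral.sum_integral_adjacent_intervals (a := fun k => U10b_b (k + 1))
      (n := L) (f := fun x : ℝ => Real.exp (-(π * v * x ^ 2)) * D x) (μ := volume)
      (fun k _ => hi _ _)
    have e3 := intervalIntegral.sum_integral_adjacent_intervals (a := fun k => U10b_b k)
      (n := L) (f := fun x : ℝ => Real.exp (-(π * v * x ^ 2))) (μ := volume)
      (fun k _ => hig _ _)
    simp only [zero_add] at e2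
    have h1 : ∫ x in (0 : ℝ)..(U10b_b 1), Real.exp (-(π * v * x ^ 2)) * D x ≤
        2 * (v ^ (-(1 / 2) : ℝ) / 2) := by
      refine le_trans ?_ (mul_le_mul_of_nonneg_left (hGle (U10b_b 1) (U10b_b_nonneg 1))
        (by norm_num))
      rw [← intervalIntegral.integral_const_mul]
      refine intervalIntegral.integral_mono_on (U10b_b_nonneg 1) (hi _ _)
        ((hig _ _).const_mul 2) fun x hx => ?_
      have := U10b_first hD0 hDs hx.1 (by rw [← hb1]; exact hx.2)
      rw [mul_comm 2]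
      exact mul_le_mul_of_nonneg_left this (Real.exp_pos _).le
    have h2 : ∫ x in (U10b_b 1)..(U10b_b (L + 1)), Real.exp (-(π * v * x ^ 2)) * D x ≤
        8 * Real.log (1 + N) * (v ^ (-(1 / 2) : ℝ) / 2) := by
      rw [← e2]
      refine (Finset.sum_le_sum fun k _ => U10b_piece2 hv hN hDc hD0 hDN hDs k).trans ?_
      rw [← Finset.mul_sum, e3]
      exact mul_le_mul_of_nonneg_left (hGle _ (U10b_b_nonneg L)) (by positivity)
    rw [e1]
    nlinarith
  have hbt : Filter.Tendsto (fun L : ℕ => U10b_b (L + 1)) Filter.atTop Filter.atTop := by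
    refine Filter.tendsto_atTop.mpr fun B => ?_
    obtain ⟨m, hm⟩ := exists_nat_gt (B ^ 2)
    filter_upwards [Filter.eventually_ge_atTop m] with L hL
    have hL' : (m : ℝ) ≤ L := by exact_mod_cast hL
    refine le_trans (le_abs_self B) ?_
    rw [← Real.sqrt_sq_eq_abs]
    refine Real.sqrt_le_sqrt ?_
    have : (0 : ℝ) ≤ L := Nat.cast_nonneg L
    linarith
  have hlim := intervalIntegral_tendsto_integral_Ioi (0 : ℝ)
    (hint.integrableOn (s := Set.Ioi (0 : ℝ))) hbt
  exact le_of_tendsto' hlim hfin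

/-- the integral of the kernel bound -/
theorem kernel_integral : ∃ C : ℝ, ∀ v : ℝ, 0 < v → ∀ N : ℝ, 1 ≤ N → ∀ D : ℝ → ℝ, Continuous D →
    (∀ x, 0 ≤ D x) → (∀ x, D x ≤ N) → (∀ x, D x * |Real.sin (π * (5 / 8 - x ^ 2 / 2))| ≤ 1) →
    ∫ x : ℝ, Real.exp (-(π * v * x ^ 2)) * D x ≤ C * v ^ (-(1 / 2) : ℝ) * Real.log (2 + N) := by
  refine ⟨10, fun v hv N hN D hDc hD0 hDN hDs => ?_⟩
  obtain ⟨hint, h1⟩ := U10b_half hv hN hDc hD0 hDN hDs
  obtain ⟨_, h2⟩ := U10b_half hv hN (D := fun x => D (-x)) (hDc.comp continuous_neg)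
    (fun x => hD0 _) (fun x => hDN _) (fun x => by
      have := hDs (-x)
      rwa [neg_sq] at this)
  have h3 : ∫ x in Set.Ioi (0 : ℝ), Real.exp (-(π * v * x ^ 2)) * D (-x) =
      ∫ x in Set.Iic (0 : ℝ), Real.exp (-(π * v * x ^ 2)) * D x := by
    have := integral_comp_neg_Ioi (0 : ℝ) (fun x => Real.exp (-(π * v * x ^ 2)) * D x)
    rw [neg_zero] at this
    rw [← this]
    simp only [neg_sq]
  rw [h3] at h2
  have h4 : ∫ x : ℝ, Real.exp (-(π * v * x ^ 2)) * D x =
      (∫ x in Set.Iic (0 : ℝ), Real.exp (-(π * v * x ^ 2)) * D x) +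
      ∫ x in Set.Ioi (0 : ℝ), Real.exp (-(π * v * x ^ 2)) * D x := by
    rw [← setIntegral_union (Set.Iic_disjoint_Ioi le_rfl) measurableSet_Ioi hint.integrableOn
      hint.integrableOn, Set.Iic_union_Ioi, setIntegral_univ]
  rw [h4]
  linarith

end RV11
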