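import Pool.Agent.LibRV11.U09
import Pool.Agent.LibRV11.U10a
import Pool.Agent.LibRV11.U10b
open Complex Real MeasureTheory
open UpperHalfPlane hiding I
open scoped MatrixGroups

namespace RV11

/-! ### U10c -/

theorem U10c_integrable (r : ℝ) {w : ℂ} (hw : 0 < w.im) :
    Integrable (fun x : ℝ => cexp (π * I * w * x ^ 2 - 2 * π * I * Real.sqrt r * x)) := by
  have hb : ((π : ℂ) * I * w).re < 0 := by
    have : ((π : ℂ) * I * w).re = -(π * w.im) := by simp
    rw [this]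
    have := mul_pos Real.pi_pos hw
    linarith
  have h1 := integrable_cexp_quadratic' hb (-(2 * π * I * Real.sqrt r)) 0
  refine h1.congr (Filter.Eventually.of_forall fun x => ?_)
  show cexp (π * I * w * x ^ 2 + -(2 * π * I * Real.sqrt r) * x + 0) = _
  congr 1
  ring

/-- (PSb) for short ranges -/
theorem PSb_short : ∃ C : ℝ, ∀ r : ℝ, 0 ≤ r → ∀ w : ℂ, 0 < w.im → ∀ K1 K2 : ℤ, K1 ≤ K2 →
    ‖∑ k ∈ Finset.Icc K1 K2, kp ^ k * AA r (w - k)‖ ≤
      C * w.im ^ (-(1 / 2) : ℝ) * Real.log (2 + (K2 - K1 + 1 : ℝ)) := by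
  obtain ⟨C, hC⟩ := kernel_integral
  refine ⟨C, fun r hr w hw K1 K2 hK => ?_⟩
  have him : ∀ k : ℤ, 0 < (w - k).im := fun k => by simpa using hw
  have h1 : ∑ k ∈ Finset.Icc K1 K2, kp ^ k * AA r (w - k) =
      ∫ x : ℝ, cexp (π * I * w * x ^ 2 - 2 * π * I * Real.sqrt r * x) *
        ∑ k ∈ Finset.Icc K1 K2, kp ^ k * cexp (-(π * I * k * x ^ 2)) := by
    have e1 : ∀ k : ℤ, kp ^ k * AA r (w - k) = ∫ x : ℝ, kp ^ k *
        cexp (π * I * (w - k) * x ^ 2 - 2 * π * I * Real.sqrt r * x) := by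
      intro k
      rw [AA_eq_integral r hr (him k), integral_const_mul]
    simp only [e1]
    rw [← integral_finsetSum _ fun k _ => (U10c_integrable r (him k)).const_mul (kp ^ k)]
    congr 1
    ext x
    rw [Finset.mul_sum]
    refine Finset.sum_congr rfl fun k _ => ?_
    have : cexp (π * I * (w - k) * x ^ 2 - 2 * π * I * Real.sqrt r * x) =
        cexp (π * I * w * x ^ 2 - 2 * π * I * Real.sqrt r * x) *
          cexp (-(π * I * k * x ^ 2)) := by
      rw [← Complex.exp_add]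
      congr 1
      ring
    rw [this]
    ring
  rw [h1]
  refine (norm_integral_le_integral_norm _).trans ?_
  have h2 : ∀ x : ℝ, ‖cexp (π * I * w * x ^ 2 - 2 * π * I * Real.sqrt r * x) *
        ∑ k ∈ Finset.Icc K1 K2, kp ^ k * cexp (-(π * I * k * x ^ 2))‖ =
      Real.exp (-(π * w.im * x ^ 2)) *
        ‖∑ k ∈ Finset.Icc K1 K2, kp ^ k * cexp (-(π * I * k * x ^ 2))‖ := by
    intro x
    rw [norm_mul, Complex.norm_exp]
    congr 2
    have e1 : ((π : ℂ) * I * w * x ^ 2 - 2 * π * I * Real.sqrt r * x) =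
        ((π * x ^ 2 : ℝ) : ℂ) * (I * w) - ((2 * π * Real.sqrt r * x : ℝ) : ℂ) * I := by
      push_cast
      ring
    rw [e1, Complex.sub_re, Complex.re_ofReal_mul, Complex.re_ofReal_mul, Complex.I_mul_re,
      Complex.I_re]
    ring
  simp only [h2]
  have hKr : (K1 : ℝ) ≤ K2 := by exact_mod_cast hK
  refine hC w.im hw (K2 - K1 + 1 : ℝ) (by linarith)
    (fun x : ℝ => ‖∑ k ∈ Finset.Icc K1 K2, kp ^ k * cexp (-(π * I * k * x ^ 2))‖) ?_
    (fun x => norm_nonneg _) (fun x => (dirichlet_bound K1 K2 hK x).1)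
    (fun x => (dirichlet_bound K1 K2 hK x).2)
  refine continuous_norm.comp (continuous_finsetSum _ fun k _ => ?_)
  fun_prop

/-- (PSb) -/
theorem PSb : ∃ C : ℝ, ∀ r : ℝ, 0 ≤ r → ∀ w : ℂ, 0 < w.im → ∀ K1 K2 : ℤ,
    ‖∑ k ∈ Finset.Icc K1 K2, kp ^ k * AA r (w - k)‖ ≤
      C * w.im ^ (-(1 / 2) : ℝ) * Real.log (2 + r) := by
  obtain ⟨C1, hC1⟩ := PS_tail
  obtain ⟨C2, hC2⟩ := PSb_short
  refine ⟨8 * |C1| + 3 * |C2|, fun r hr w hw K1 K2 => ?_⟩
  have hv0 : 0 ≤ w.im ^ (-(1 / 2) : ℝ) := Real.rpow_nonneg hw.le _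
  have hlog2 : 1 / 2 ≤ Real.log (2 + r) := by
    have h1 : Real.log 2 ≤ Real.log (2 + r) := Real.log_le_log (by norm_num) (by linarith)
    linarith [Real.log_two_gt_d9]
  -- tails
  have htail : ∀ R : ℝ, 1 ≤ R → r ≤ R → w.im ≤ R → ∀ L1 L2 : ℤ,
      (∀ k, L1 ≤ k → k ≤ L2 → R ≤ ‖w - k‖) →
      ‖∑ k ∈ Finset.Icc L1 L2, kp ^ k * AA r (w - k)‖ ≤ 2 * |C1| * w.im ^ (-(1 / 2) : ℝ) := by
    intro R hR1 hRr hRv L1 L2 hL
    have hR0 : 0 < R := by linarith
    refine (hC1 r hr w hw R hR1 L1 L2 hL).trans ?_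
    have q1 : 0 ≤ R ^ (-(1 / 2) : ℝ) := Real.rpow_nonneg hR0.le _
    have q2 : 0 ≤ R ^ (-(3 / 2) : ℝ) := Real.rpow_nonneg hR0.le _
    have h1 : r * R ^ (-(3 / 2) : ℝ) ≤ R ^ (-(1 / 2) : ℝ) := by
      calc r * R ^ (-(3 / 2) : ℝ) ≤ R * R ^ (-(3 / 2) : ℝ) := mul_le_mul_of_nonneg_right hRr q2
        _ = R ^ (1 : ℝ) * R ^ (-(3 / 2) : ℝ) := by rw [Real.rpow_one]
        _ = R ^ (-(1 / 2) : ℝ) := by
            rw [← Real.rpow_add hR0]
            norm_num
    have h2 : R ^ (-(1 / 2) : ℝ) ≤ w.im ^ (-(1 / 2) : ℝ) :=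
      Real.rpow_le_rpow_of_nonpos hw hRv (by norm_num)
    calc C1 * (R ^ (-(1 / 2) : ℝ) + r * R ^ (-(3 / 2) : ℝ))
        ≤ |C1| * (R ^ (-(1 / 2) : ℝ) + r * R ^ (-(3 / 2) : ℝ)) :=
          mul_le_mul_of_nonneg_right (le_abs_self C1) (by positivity)
      _ ≤ |C1| * (2 * w.im ^ (-(1 / 2) : ℝ)) :=
          mul_le_mul_of_nonneg_left (by linarith) (abs_nonneg C1)
      _ = 2 * |C1| * w.im ^ (-(1 / 2) : ℝ) := by ring
  have habs : ∀ k : ℤ, w.im ≤ ‖w - k‖ := by
    intro k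
    have := Complex.abs_im_le_norm (w - k)
    have e : (w - k).im = w.im := by simp
    rw [e, abs_of_pos hw] at this
    exact this
  have hnn : 0 ≤ |C1| * w.im ^ (-(1 / 2) : ℝ) := by positivity
  have hnn2 : 0 ≤ |C2| * w.im ^ (-(1 / 2) : ℝ) := by positivity
  rcases le_total (r + 1) w.im with hv | hv
  · have h1 := htail w.im (by linarith) (by linarith) le_rfl K1 K2 (fun k _ _ => habs k)
    refine h1.trans ?_
    nlinarith
  · obtain ⟨a, b, hsplit, hmid, hl, hr'⟩ := U09_parts w (r + 1) K1 K2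
    rw [hsplit]
    have t1 := htail (r + 1) (by linarith) (by linarith) hv K1 (a - 1) hl
    have t3 := htail (r + 1) (by linarith) (by linarith) hv (b + 1) K2 hr'
    have t2 : ‖∑ k ∈ Finset.Icc a b, kp ^ k * AA r (w - k)‖ ≤
        3 * |C2| * w.im ^ (-(1 / 2) : ℝ) * Real.log (2 + r) := by
      rcases lt_or_ge b a with hab | hab
      · rw [Finset.Icc_eq_empty (by omega), Finset.sum_empty, norm_zero]
        positivity
      · refine (hC2 r hr w hw a b hab).trans ?_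
        have h1 : (b - a + 1 : ℝ) ≤ 2 * r + 3 := by
          have ha := (hmid a le_rfl hab).2.2
          have hb := (hmid b hab le_rfl).2.2
          have ha' := Complex.abs_re_le_norm (w - a)
          have hb' := Complex.abs_re_le_norm (w - b)
          have ea : (w - a).re = w.re - a := by simp
          have eb : (w - b).re = w.re - b := by simp
          rw [ea, abs_le] at ha'
          rw [eb, abs_le] at hb'
          linarith [ha'.2, hb'.1]
        have habr : (a : ℝ) ≤ b := by exact_mod_cast hab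
        have h2 : Real.log (2 + (b - a + 1 : ℝ)) ≤ 3 * Real.log (2 + r) := by
          have h3 : Real.log ((2 + r) ^ 3) = 3 * Real.log (2 + r) := by
            rw [Real.log_pow]
            norm_num
          rw [← h3]
          refine Real.log_le_log (by linarith) ?_
          nlinarith [mul_nonneg hr hr, mul_nonneg (mul_nonneg hr hr) hr]
        have h4 : 0 ≤ Real.log (2 + (b - a + 1 : ℝ)) := Real.log_nonneg (by linarith)
        calc C2 * w.im ^ (-(1 / 2) : ℝ) * Real.log (2 + (b - a + 1 : ℝ))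
            ≤ |C2| * w.im ^ (-(1 / 2) : ℝ) * Real.log (2 + (b - a + 1 : ℝ)) :=
              mul_le_mul_of_nonneg_right
                (mul_le_mul_of_nonneg_right (le_abs_self C2) hv0) h4
          _ ≤ |C2| * w.im ^ (-(1 / 2) : ℝ) * (3 * Real.log (2 + r)) :=
              mul_le_mul_of_nonneg_left h2 hnn2
          _ = 3 * |C2| * w.im ^ (-(1 / 2) : ℝ) * Real.log (2 + r) := by ring
    refine (norm_add_le _ _).trans ?_
    have := norm_add_le (∑ k ∈ Finset.Icc K1 (a - 1), kp ^ k * AA r (w - k))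
      (∑ k ∈ Finset.Icc a b, kp ^ k * AA r (w - k))
    have h5 : 4 * (|C1| * w.im ^ (-(1 / 2) : ℝ)) ≤
        8 * (|C1| * w.im ^ (-(1 / 2) : ℝ)) * Real.log (2 + r) := by nlinarith
    linarith

end RV11
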