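import Pool.Agent.LibRV11.U02
import Pool.Agent.LibRV11.U06b
import Pool.Agent.LibRV11.U07
import Pool.Agent.LibRV11.U08
import Pool.Agent.LibRV11.U09
import Pool.Agent.LibRV11.U10c
open Complex Real MeasureTheory
open UpperHalfPlane hiding I
open scoped MatrixGroups

namespace RV11

/-! ### U11b -/

theorem U11b_norm_chi (g : SL(2, ℤ)) : ‖chi g‖ = 1 := by
  unfold chi
  split_ifs <;> simp

theorem U11b_NQ_pos (g : SL(2, ℤ)) (z : ℍ) : 0 < NQ g z := by
  have h1 := NP_mul_NQ g z 0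
  have h2 : 0 ≤ NP g z := by
    unfold NP Np
    exact div_nonneg (sq_nonneg _) z.im_pos.le
  have h3 : 0 ≤ NQ g z := by
    unfold NQ Np
    exact div_nonneg (sq_nonneg _) z.im_pos.le
  rcases h3.eq_or_lt with h4 | h4
  · rw [← h4, mul_zero] at h1
    nlinarith [sq_nonneg (atg (fun up vp uq vq => up * uq + vp * vq) g z 0)]
  · exact h4

/-- the coordinate `ξ` of `wQ_side` is the real part of `ww`. -/
theorem U11b_xi (g : SL(2, ℤ)) (z : ℍ) (φ : ℝ) :
    -(uu z φ (g 1 0) (g 1 1) * uu z φ (g 0 0 + g 1 0) (g 0 1 + g 1 1) +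
      vv z φ (g 1 0) (g 1 1) * vv z φ (g 0 0 + g 1 0) (g 0 1 + g 1 1)) /
      (uu z φ (g 0 0 + g 1 0) (g 0 1 + g 1 1) ^ 2 +
        vv z φ (g 0 0 + g 1 0) (g 0 1 + g 1 1) ^ 2) = (ww g z).re := by
  rw [ww_re g z φ]
  have hy := z.im_pos
  have h1 : uu z φ (g 0 0 + g 1 0) (g 0 1 + g 1 1) ^ 2 +
        vv z φ (g 0 0 + g 1 0) (g 0 1 + g 1 1) ^ 2 = NQ g z := by
    unfold uu vv NQ Np
    have hs : Real.sqrt z.im ^ 2 = z.im := Real.sq_sqrt hy.le
    have hsc := Real.sin_sq_add_cos_sq φ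
    rw [div_pow, div_pow, hs, ← add_div]
    congr 1
    rw [← Complex.normSq_eq_norm_sq, Complex.normSq_apply]
    have e1 : (((g 0 0 + g 1 0 : ℝ) : ℂ) * (z : ℂ) + ((g 0 1 + g 1 1 : ℝ) : ℂ)).re =
        (g 0 0 + g 1 0 : ℝ) * z.re + (g 0 1 + g 1 1 : ℝ) := by
      simp
    have e2 : (((g 0 0 + g 1 0 : ℝ) : ℂ) * (z : ℂ) + ((g 0 1 + g 1 1 : ℝ) : ℂ)).im =
        (g 0 0 + g 1 0 : ℝ) * z.im := by
      simp
    rw [e1, e2]
    linear_combination (((g 0 0 + g 1 0 : ℝ) * z.re + (g 0 1 + g 1 1 : ℝ)) ^ 2 +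
      ((g 0 0 + g 1 0 : ℝ) * z.im) ^ 2) * hsc
  rw [h1]
  rfl

/-- the core estimate -/
theorem U11b_core (r : ℝ) {g : SL(2, ℤ)} (hg : g ∈ Gam) (z : ℍ) (w : ℤ → ℝ)
    (hfin : w.support.Finite) (T : ℝ) (hT : tv w ≤ T) (S : Set ℤ) (hS : S.OrdConnected)
    (hwS : ∀ k, w k ≠ 0 → k ∈ S) (B : ℝ) (hB0 : 0 ≤ B)
    (hB : ∀ K1 K2 : ℤ, (∀ k, K1 ≤ k → k ≤ K2 → k ∈ S) →
      ‖∑ k ∈ Finset.Icc K1 K2, kp ^ k * AA r (ww g z - k)‖ ≤ B) :
    ‖∑' k : ℤ, (w k : ℂ) * (chi (PP ^ k * g) * phh r ((PP ^ k * g) • z))‖ * Real.sqrt (W z) ≤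
      B * T * (1 / NQ g z) ^ (1 / 4 : ℝ) := by
  have hsum : ∑' k : ℤ, (w k : ℂ) * (chi (PP ^ k * g) * phh r ((PP ^ k * g) • z)) =
      (chi g * cexp (-(π * I * r)) / th2 (ww g z)) *
        ∑' k : ℤ, (w k : ℂ) * (kp ^ k * AA r (ww g z - k)) := by
    rw [← tsum_mul_left]
    congr 1
    ext k
    rw [term_Q r hg z k]
    ring
  have hpart : ‖∑' k : ℤ, (w k : ℂ) * (kp ^ k * AA r (ww g z - k))‖ ≤ B * T := by
    rcases hfin.toFinset.eq_empty_or_nonempty with h0 | h0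
    · have : ∀ k, w k = 0 := by
        intro k
        by_contra hk
        have : k ∈ hfin.toFinset := by simpa using hk
        rw [h0] at this
        simp at this
      simp only [this]
      simp
      exact mul_nonneg hB0 ((tv_nonneg w).trans hT)
    · have h1 : ∀ k, w k ≠ 0 → hfin.toFinset.min' h0 ≤ k ∧ k ≤ hfin.toFinset.max' h0 := by
        intro k hk
        have hk' : k ∈ hfin.toFinset := by simpa using hk
        exact ⟨Finset.min'_le _ _ hk', Finset.le_max' _ _ hk'⟩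
      have hmin : hfin.toFinset.min' h0 ∈ S := by
        apply hwS
        have := Finset.min'_mem _ h0
        simpa using this
      have hmax : hfin.toFinset.max' h0 ∈ S := by
        apply hwS
        have := Finset.max'_mem _ h0
        simpa using this
      have h2 := abel_partial (fun k => kp ^ k * AA r (ww g z - k)) w _ _ h1 B (by
        intro M hM1 hM2
        apply hB
        intro k hk1 hk2
        exact hS.out hmin hmax ⟨hk1, hk2.trans hM2⟩)
      exact h2.trans (mul_le_mul_of_nonneg_left hT hB0)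
  rw [hsum, norm_mul]
  have h4 : ‖chi g * cexp (-(π * I * r)) / th2 (ww g z)‖ * Real.sqrt (W z) ≤
      (1 / NQ g z) ^ (1 / 4 : ℝ) := by
    have hx : ‖cexp (-(π * I * r))‖ = 1 := by
      rw [Complex.norm_exp]
      simp
    rw [sqrt_W_eq hg z, norm_div, norm_mul, U11b_norm_chi, hx, ww_im]
    have hN := U11b_NQ_pos g z
    have h5 : 0 ≤ (1 / NQ g z) ^ (1 / 4 : ℝ) := by positivity
    rcases eq_or_ne ‖th2 (ww g z)‖ 0 with h6 | h6
    · rw [h6]; simpa using h5
    · apply le_of_eq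
      field_simp
  have h7 : 0 ≤ (1 / NQ g z) ^ (1 / 4 : ℝ) := by
    have hN := U11b_NQ_pos g z
    positivity
  calc _ = ‖∑' k : ℤ, (w k : ℂ) * (kp ^ k * AA r (ww g z - k))‖ *
        (‖chi g * cexp (-(π * I * r)) / th2 (ww g z)‖ * Real.sqrt (W z)) := by ring
    _ ≤ B * T * (1 / NQ g z) ^ (1 / 4 : ℝ) := by
        apply mul_le_mul hpart h4 (by positivity)
        exact mul_nonneg hB0 ((tv_nonneg w).trans hT)

theorem U11b_pow1 {N : ℝ} (hN : 0 < N) :
    (1 / N) ^ (-(1 / 2) : ℝ) * (1 / N) ^ (1 / 4 : ℝ) = N ^ (1 / 4 : ℝ) := by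
  rw [← Real.rpow_add (by positivity), one_div, Real.inv_rpow hN.le, ← Real.rpow_neg hN.le]
  norm_num

theorem U11b_pow2 {N : ℝ} (hN : 0 < N) :
    (1 / N) ^ (1 / 4 : ℝ) = N ^ (-(1 / 4) : ℝ) := by
  rw [one_div, Real.inv_rpow hN.le, ← Real.rpow_neg hN.le]

/-- Q-block, all `k` except possibly one: bound (b). -/
theorem block_Qb {Z : ℝ → ℝ} (hZ : IsKer Z) (e : Bool) : ∃ C : ℝ, ∀ r : ℝ, 0 ≤ r → ∀ J : ℝ, 1 ≤ J →
    ∀ (z : ℍ) (φ : ℝ), ∀ g ∈ Gam, ∀ k0 : ℤ,
    ‖∑' k : ℤ, Set.indicator ({k0}ᶜ : Set ℤ) (fun k => chi (PP ^ k * g) *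
      (atg (wQ Z e J) (PP ^ k * g) z φ : ℂ) * phh r ((PP ^ k * g) • z)) k‖ * Real.sqrt (W z) ≤
      C * (NQ g z) ^ (1 / 4 : ℝ) * Real.log (2 + r) := by
  obtain ⟨C1, hC1⟩ := tv_wQ hZ e
  obtain ⟨C2, hC2⟩ := PSb
  refine ⟨|C2| * (3 * C1), fun r hr J hJ z φ g hg k0 => ?_⟩
  have hN := U11b_NQ_pos g z
  have hlog : 0 ≤ Real.log (2 + r) := Real.log_nonneg (by linarith)
  obtain ⟨hf, htv⟩ := hC1 J (by linarith) _ _ _ _ (atg_det g z φ)
  set w0 : ℤ → ℝ := fun k => atg (wQ Z e J) (PP ^ k * g) z φ with hw0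
  have hw0' : w0 = fun k : ℤ => wQ Z e J
      (uu z φ (g 1 0) (g 1 1) + k * uu z φ (g 0 0 + g 1 0) (g 0 1 + g 1 1))
      (vv z φ (g 1 0) (g 1 1) + k * vv z φ (g 0 0 + g 1 0) (g 0 1 + g 1 1))
      (uu z φ (g 0 0 + g 1 0) (g 0 1 + g 1 1)) (vv z φ (g 0 0 + g 1 0) (g 0 1 + g 1 1)) := by
    ext k
    rw [hw0]
    simp only
    rw [atg_PP]
    rfl
  rw [← hw0'] at hf htv
  have hfin' : (Set.indicator ({k0}ᶜ : Set ℤ) w0).support.Finite :=
    hf.subset (by rw [Set.support_indicator]; exact Set.inter_subset_right)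
  have key := U11b_core r hg z (Set.indicator ({k0}ᶜ : Set ℤ) w0) hfin' (3 * C1)
    ((tv_remove w0 hf k0).trans (by linarith)) Set.univ Set.ordConnected_univ (fun _ _ => trivial)
    (|C2| * (1 / NQ g z) ^ (-(1 / 2) : ℝ) * Real.log (2 + r)) (by positivity) (by
      intro K1 K2 _
      have him : 0 < (ww g z).im := by rw [ww_im]; positivity
      have h1 := hC2 r hr (ww g z) him K1 K2
      rw [ww_im] at h1
      refine h1.trans ?_
      apply mul_le_mul_of_nonneg_right _ hlog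
      exact mul_le_mul_of_nonneg_right (le_abs_self C2) (by positivity))
  have e1 : ∀ k : ℤ, Set.indicator ({k0}ᶜ : Set ℤ) (fun k => chi (PP ^ k * g) *
      (atg (wQ Z e J) (PP ^ k * g) z φ : ℂ) * phh r ((PP ^ k * g) • z)) k =
      ((Set.indicator ({k0}ᶜ : Set ℤ) w0 k : ℝ) : ℂ) *
        (chi (PP ^ k * g) * phh r ((PP ^ k * g) • z)) := by
    intro k
    by_cases hk : k ∈ ({k0}ᶜ : Set ℤ)
    · rw [Set.indicator_of_mem hk, Set.indicator_of_mem hk, hw0]; ring
    · rw [Set.indicator_of_notMem hk, Set.indicator_of_notMem hk]; simp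
  simp only [e1]
  refine key.trans (le_of_eq ?_)
  rw [← U11b_pow1 hN]
  ring

/-- Q-block, far terms: bounds (a) and (b). -/
theorem block_Qfar {Z : ℝ → ℝ} (hZ : IsKer Z) (e : Bool) : ∃ C : ℝ, ∀ r : ℝ, 0 ≤ r →
    ∀ J : ℝ, 1 ≤ J → ∀ (z : ℍ) (φ : ℝ), ∀ g ∈ Gam, ∀ k0 : ℤ,
    ‖∑' k : ℤ, Set.indicator ({k | k ≠ k0 ∧ 1 < |(ww g z).re - k|} : Set ℤ)
      (fun k => chi (PP ^ k * g) *
      (atg (wQ Z e J) (PP ^ k * g) z φ : ℂ) * phh r ((PP ^ k * g) • z)) k‖ * Real.sqrt (W z) ≤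
      C * (NQ g z) ^ (-(1 / 4) : ℝ) *
        min ((1 + r) ^ (1 / 4 : ℝ)) ((NQ g z) ^ (1 / 2 : ℝ) * Real.log (2 + r)) := by
  obtain ⟨C1, hC1⟩ := tv_wQ hZ e
  obtain ⟨C2, hC2⟩ := PSb
  obtain ⟨C3, hC3⟩ := PSa
  refine ⟨(|C2| + |C3|) * (9 * C1), fun r hr J hJ z φ g hg k0 => ?_⟩
  have hN := U11b_NQ_pos g z
  have hlog : 0 ≤ Real.log (2 + r) := Real.log_nonneg (by linarith)
  obtain ⟨hf, htv⟩ := hC1 J (by linarith) _ _ _ _ (atg_det g z φ)
  have hside := wQ_side hZ e (J := J) (by linarith) (atg_det g z φ)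
  rw [U11b_xi g z φ] at hside
  set w0 : ℤ → ℝ := fun k => atg (wQ Z e J) (PP ^ k * g) z φ with hw0
  have hw0' : w0 = fun k : ℤ => wQ Z e J
      (uu z φ (g 1 0) (g 1 1) + k * uu z φ (g 0 0 + g 1 0) (g 0 1 + g 1 1))
      (vv z φ (g 1 0) (g 1 1) + k * vv z φ (g 0 0 + g 1 0) (g 0 1 + g 1 1))
      (uu z φ (g 0 0 + g 1 0) (g 0 1 + g 1 1)) (vv z φ (g 0 0 + g 1 0) (g 0 1 + g 1 1)) := by
    ext k
    rw [hw0]
    simp only
    rw [atg_PP]
    rfl
  rw [← hw0'] at hf htv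
  have hside' : (∀ k : ℤ, w0 k ≠ 0 → (ww g z).re < k) ∨
      (∀ k : ℤ, w0 k ≠ 0 → (k : ℝ) ≤ (ww g z).re) := by
    rw [hw0']
    exact hside
  set D : Set ℤ := {k | k ≠ k0 ∧ 1 < |(ww g z).re - k|} with hD
  -- an order connected set containing the support
  obtain ⟨S, hS, hSD, hS1⟩ : ∃ S : Set ℤ, S.OrdConnected ∧
      Set.indicator D w0 = Set.indicator ({k0}ᶜ : Set ℤ) (Set.indicator S w0) ∧
      ∀ k ∈ S, 1 ≤ ‖ww g z - k‖ := by
    have hnorm : ∀ k : ℤ, |(ww g z).re - k| ≤ ‖ww g z - k‖ := by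
      intro k
      have := Complex.abs_re_le_norm (ww g z - k)
      simpa using this
    rcases hside' with h1 | h1
    · refine ⟨{k : ℤ | (ww g z).re + 1 < k}, ?_, ?_, ?_⟩
      · constructor
        intro a ha b hb c hc
        have : (a : ℝ) ≤ c := by exact_mod_cast hc.1
        exact lt_of_lt_of_le ha this
      · ext k
        by_cases hk0 : k ∈ ({k0}ᶜ : Set ℤ)
        · rw [Set.indicator_of_mem hk0]
          by_cases hw : w0 k = 0
          · by_cases h2 : k ∈ D <;> by_cases h3 : k ∈ {k : ℤ | (ww g z).re + 1 < k} <;>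
              simp [Set.indicator, h2, h3, hw]
          · have h4 := h1 k hw
            have h5 : k ∈ D ↔ k ∈ {k : ℤ | (ww g z).re + 1 < k} := by
              rw [hD]
              simp only [Set.mem_ofPred_eq]
              rw [abs_sub_comm, abs_of_pos (by linarith)]
              constructor
              · rintro ⟨-, h⟩; linarith
              · intro h; exact ⟨hk0, by linarith⟩
            by_cases h2 : k ∈ D
            · rw [Set.indicator_of_mem h2, Set.indicator_of_mem (h5.mp h2)]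
            · rw [Set.indicator_of_notMem h2, Set.indicator_of_notMem (fun h => h2 (h5.mpr h))]
        · rw [Set.indicator_of_notMem hk0, Set.indicator_of_notMem]
          intro h
          exact hk0 h.1
      · intro k hk
        have hk' : (ww g z).re + 1 < k := hk
        refine le_trans ?_ (hnorm k)
        rw [abs_sub_comm, abs_of_pos (by linarith)]
        linarith
    · refine ⟨{k : ℤ | (k : ℝ) < (ww g z).re - 1}, ?_, ?_, ?_⟩
      · constructor
        intro a ha b hb c hc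
        have : (c : ℝ) ≤ b := by exact_mod_cast hc.2
        exact lt_of_le_of_lt this hb
      · ext k
        by_cases hk0 : k ∈ ({k0}ᶜ : Set ℤ)
        · rw [Set.indicator_of_mem hk0]
          by_cases hw : w0 k = 0
          · by_cases h2 : k ∈ D <;> by_cases h3 : k ∈ {k : ℤ | (k : ℝ) < (ww g z).re - 1} <;>
              simp [Set.indicator, h2, h3, hw]
          · have h4 := h1 k hw
            have h5 : k ∈ D ↔ k ∈ {k : ℤ | (k : ℝ) < (ww g z).re - 1} := by
              rw [hD]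
              simp only [Set.mem_ofPred_eq]
              rw [abs_of_nonneg (by linarith)]
              constructor
              · rintro ⟨-, h⟩; linarith
              · intro h; exact ⟨hk0, by linarith⟩
            by_cases h2 : k ∈ D
            · rw [Set.indicator_of_mem h2, Set.indicator_of_mem (h5.mp h2)]
            · rw [Set.indicator_of_notMem h2, Set.indicator_of_notMem (fun h => h2 (h5.mpr h))]
        · rw [Set.indicator_of_notMem hk0, Set.indicator_of_notMem]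
          intro h
          exact hk0 h.1
      · intro k hk
        have hk' : (k : ℝ) < (ww g z).re - 1 := hk
        refine le_trans ?_ (hnorm k)
        rw [abs_of_nonneg (by linarith)]
        linarith
  have hfS : (Set.indicator S w0).support.Finite :=
    hf.subset (by rw [Set.support_indicator]; exact Set.inter_subset_right)
  have hfD : (Set.indicator D w0).support.Finite :=
    hf.subset (by rw [Set.support_indicator]; exact Set.inter_subset_right)
  have htvD : tv (Set.indicator D w0) ≤ 9 * C1 := by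
    rw [hSD]
    have h1 := tv_remove (Set.indicator S w0) hfS k0
    have h2 := tv_indicator w0 hf S hS
    linarith
  have him : 0 < (ww g z).im := by rw [ww_im]; positivity
  have hC10 : 0 ≤ C1 := (tv_nonneg w0).trans htv
  have keyb := U11b_core r hg z (Set.indicator D w0) hfD (9 * C1) htvD Set.univ
    Set.ordConnected_univ (fun _ _ => trivial)
    (|C2| * (1 / NQ g z) ^ (-(1 / 2) : ℝ) * Real.log (2 + r)) (by positivity) (by
      intro K1 K2 _
      have h1 := hC2 r hr (ww g z) him K1 K2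
      rw [ww_im] at h1
      refine h1.trans ?_
      apply mul_le_mul_of_nonneg_right _ hlog
      exact mul_le_mul_of_nonneg_right (le_abs_self C2) (by positivity))
  have keya := U11b_core r hg z (Set.indicator D w0) hfD (9 * C1) htvD S hS
    (by
      intro k hk
      rw [hSD] at hk
      by_contra hkS
      apply hk
      by_cases hk0 : k ∈ ({k0}ᶜ : Set ℤ)
      · rw [Set.indicator_of_mem hk0, Set.indicator_of_notMem hkS]
      · rw [Set.indicator_of_notMem hk0])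
    (|C3| * (1 + r) ^ (1 / 4 : ℝ)) (by positivity) (by
      intro K1 K2 hK
      have h1 := hC3 r hr (ww g z) him K1 K2 (fun k hk1 hk2 => hS1 k (hK k hk1 hk2))
      refine h1.trans ?_
      exact mul_le_mul_of_nonneg_right (le_abs_self C3) (by positivity))
  have e1 : ∀ k : ℤ, Set.indicator D (fun k => chi (PP ^ k * g) *
      (atg (wQ Z e J) (PP ^ k * g) z φ : ℂ) * phh r ((PP ^ k * g) • z)) k =
      ((Set.indicator D w0 k : ℝ) : ℂ) *
        (chi (PP ^ k * g) * phh r ((PP ^ k * g) • z)) := by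
    intro k
    by_cases hk : k ∈ D
    · rw [Set.indicator_of_mem hk, Set.indicator_of_mem hk, hw0]; ring
    · rw [Set.indicator_of_notMem hk, Set.indicator_of_notMem hk]; simp
  simp only [e1]
  have hNm : (0 : ℝ) ≤ (NQ g z) ^ (-(1 / 4) : ℝ) := by positivity
  have hN14 : (1 / NQ g z) ^ (-(1 / 2) : ℝ) * (1 / NQ g z) ^ (1 / 4 : ℝ) =
      (NQ g z) ^ (-(1 / 4) : ℝ) * (NQ g z) ^ (1 / 2 : ℝ) := by
    rw [U11b_pow1 hN, ← Real.rpow_add hN]
    norm_num
  rcases le_total ((1 + r) ^ (1 / 4 : ℝ)) ((NQ g z) ^ (1 / 2 : ℝ) * Real.log (2 + r)) with h | h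
  · rw [min_eq_left h]
    refine keya.trans ?_
    rw [U11b_pow2 hN]
    calc |C3| * (1 + r) ^ (1 / 4 : ℝ) * (9 * C1) * (NQ g z) ^ (-(1 / 4) : ℝ)
        = |C3| * ((9 * C1) * (NQ g z) ^ (-(1 / 4) : ℝ) * (1 + r) ^ (1 / 4 : ℝ)) := by ring
      _ ≤ (|C2| + |C3|) * ((9 * C1) * (NQ g z) ^ (-(1 / 4) : ℝ) * (1 + r) ^ (1 / 4 : ℝ)) := by
          apply mul_le_mul_of_nonneg_right _ (by positivity)
          linarith [abs_nonneg C2]
      _ = _ := by ring
  · rw [min_eq_right h]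
    refine keyb.trans ?_
    calc |C2| * (1 / NQ g z) ^ (-(1 / 2) : ℝ) * Real.log (2 + r) * (9 * C1) *
          (1 / NQ g z) ^ (1 / 4 : ℝ)
        = |C2| * ((9 * C1) * ((1 / NQ g z) ^ (-(1 / 2) : ℝ) * (1 / NQ g z) ^ (1 / 4 : ℝ)) *
          Real.log (2 + r)) := by ring
      _ = |C2| * ((9 * C1) * ((NQ g z) ^ (-(1 / 4) : ℝ) * (NQ g z) ^ (1 / 2 : ℝ)) *
          Real.log (2 + r)) := by rw [hN14]
      _ ≤ (|C2| + |C3|) * ((9 * C1) * ((NQ g z) ^ (-(1 / 4) : ℝ) * (NQ g z) ^ (1 / 2 : ℝ)) *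
          Real.log (2 + r)) := by
          apply mul_le_mul_of_nonneg_right _ (by positivity)
          linarith [abs_nonneg C3]
      _ = _ := by ring

end RV11
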