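import Pool.Agent.LibRV11.U02
open Complex Real MeasureTheory
open UpperHalfPlane hiding I
open scoped MatrixGroups

namespace RV11

/-! ### U16a -/

private theorem u16_hasDeriv {φ : ℝ} (h : Real.sin φ ≠ 0) :
    HasDerivAt (fun φ => -(Real.cos φ / Real.sin φ)) (1 / Real.sin φ ^ 2) φ := by
  have h1 := ((Real.hasDerivAt_cos φ).div (Real.hasDerivAt_sin φ) h).neg
  have h2 : -((-Real.sin φ * Real.sin φ - Real.cos φ * Real.cos φ) / Real.sin φ ^ 2) =
      1 / Real.sin φ ^ 2 := by
    rw [← neg_div]
    congr 1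
    nlinarith [Real.sin_sq_add_cos_sq φ]
  rw [← h2]
  exact h1

open Classical in
private theorem u16_csc (M : ℝ) (hM : 0 < M) :
    ∫⁻ φ in Set.Ioc (0:ℝ) π, (if |Real.cos φ| ≤ M * Real.sin φ then
      ENNReal.ofReal (1 / Real.sin φ ^ 2) else 0) ≤ ENNReal.ofReal (2 * M) := by
  set φ0 := Real.arctan (1 / M) with hφ0
  have h0 : 0 < φ0 := by rw [hφ0, Real.arctan_pos]; positivity
  have h1 : φ0 < π / 2 := Real.arctan_lt_pi_div_two _
  have key : ∀ ψ : ℝ, 0 ≤ ψ → ψ < φ0 → M * Real.sin ψ < Real.cos ψ := by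
    intro ψ hp hlt
    have hc : 0 < Real.cos ψ := Real.cos_pos_of_mem_Ioo ⟨by linarith, by linarith⟩
    have : Real.tan ψ < 1 / M := by
      rw [← Real.tan_arctan (1 / M)]
      exact Real.tan_lt_tan_of_lt_of_lt_pi_div_two (by linarith) h1 hlt
    rw [Real.tan_eq_sin_div_cos, div_lt_div_iff₀ hc hM] at this
    linarith
  have hle : ∀ φ ∈ Set.Ioc (0:ℝ) π, (if |Real.cos φ| ≤ M * Real.sin φ then
      ENNReal.ofReal (1 / Real.sin φ ^ 2) else 0) ≤
      (Set.Icc φ0 (π - φ0)).indicator (fun φ => ENNReal.ofReal (1 / Real.sin φ ^ 2)) φ := by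
    intro φ hφ
    split_ifs with hc
    · rw [Set.indicator_of_mem]
      constructor
      · by_contra hlt
        push Not at hlt
        have := key φ hφ.1.le hlt
        have h2 := le_abs_self (Real.cos φ)
        linarith
      · by_contra hlt
        push Not at hlt
        have := key (π - φ) (by linarith [hφ.2]) (by linarith)
        rw [Real.sin_pi_sub, Real.cos_pi_sub] at this
        have h2 := neg_le_abs (Real.cos φ)
        linarith
    · exact bot_le
  calc _ ≤ ∫⁻ φ in Set.Ioc (0:ℝ) π,
      (Set.Icc φ0 (π - φ0)).indicator (fun φ => ENNReal.ofReal (1 / Real.sin φ ^ 2)) φ :=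
        setLIntegral_mono' measurableSet_Ioc hle
    _ ≤ ∫⁻ φ, (Set.Icc φ0 (π - φ0)).indicator (fun φ => ENNReal.ofReal (1 / Real.sin φ ^ 2)) φ :=
        setLIntegral_le_lintegral _ _
    _ = ∫⁻ φ in Set.Icc φ0 (π - φ0), ENNReal.ofReal (1 / Real.sin φ ^ 2) :=
        lintegral_indicator measurableSet_Icc _
    _ = ENNReal.ofReal (∫ φ in Set.Icc φ0 (π - φ0), (1 / Real.sin φ ^ 2)) := by
        rw [ofReal_integral_eq_lintegral_ofReal]
        · apply ContinuousOn.integrableOn_Icc
          apply ContinuousOn.div continuousOn_const (Real.continuous_sin.pow 2).continuousOn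
          intro φ hφ
          have : 0 < Real.sin φ := Real.sin_pos_of_pos_of_lt_pi (by linarith [hφ.1])
            (by linarith [hφ.2])
          exact (pow_pos this 2).ne'
        · filter_upwards with φ
          positivity
    _ = ENNReal.ofReal (2 * M) := by
        congr 1
        rw [integral_Icc_eq_integral_Ioc, ← intervalIntegral.integral_of_le (by linarith),
          intervalIntegral.integral_eq_sub_of_hasDerivAt
            (f := fun φ => -(Real.cos φ / Real.sin φ))]
        · have ht : Real.sin φ0 / Real.cos φ0 = 1 / M := by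
            rw [← Real.tan_eq_sin_div_cos, Real.tan_arctan]
          have hs : 0 < Real.sin φ0 := Real.sin_pos_of_pos_of_lt_pi h0 (by linarith)
          have hc : 0 < Real.cos φ0 := Real.cos_pos_of_mem_Ioo ⟨by linarith, by linarith⟩
          rw [Real.sin_pi_sub, Real.cos_pi_sub]
          rw [div_eq_div_iff hc.ne' hM.ne'] at ht
          field_simp
          linarith
        · intro φ hφ
          rw [Set.uIcc_of_le (by linarith)] at hφ
          apply u16_hasDeriv
          exact (Real.sin_pos_of_pos_of_lt_pi (by linarith [hφ.1]) (by linarith [hφ.2])).ne'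
        · apply ContinuousOn.intervalIntegrable
          rw [Set.uIcc_of_le (by linarith)]
          apply ContinuousOn.div continuousOn_const (Real.continuous_sin.pow 2).continuousOn
          intro φ hφ
          have : 0 < Real.sin φ := Real.sin_pos_of_pos_of_lt_pi (by linarith [hφ.1])
            (by linarith [hφ.2])
          exact (pow_pos this 2).ne'

open Classical in
private theorem u16_sin (δ : ℝ) (hδ : 0 ≤ δ) :
    ∫⁻ φ in Set.Ioc (0:ℝ) π, (if Real.sin φ ≤ δ then (1 : ENNReal) else 0) ≤
      ENNReal.ofReal (π * δ) := by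
  have hle : ∀ φ ∈ Set.Ioc (0:ℝ) π, (if Real.sin φ ≤ δ then (1 : ENNReal) else 0) ≤
      (Set.Icc 0 (π * δ / 2)).indicator 1 φ + (Set.Icc (π - π * δ / 2) π).indicator 1 φ := by
    intro φ hφ
    split_ifs with hc
    · rcases le_total φ (π / 2) with h | h
      · have := Real.mul_le_sin hφ.1.le h
        have h2 : φ ≤ π * δ / 2 := by
          have h3 : 2 / π * φ ≤ δ := this.trans hc
          rw [div_mul_eq_mul_div, div_le_iff₀ Real.pi_pos] at h3
          linarith
        rw [Set.indicator_of_mem (show φ ∈ Set.Icc 0 (π * δ / 2) from ⟨hφ.1.le, h2⟩)]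
        simp
      · have := Real.mul_le_sin (x := π - φ) (by linarith [hφ.2]) (by linarith)
        rw [Real.sin_pi_sub] at this
        have h2 : π - φ ≤ π * δ / 2 := by
          have h3 : 2 / π * (π - φ) ≤ δ := this.trans hc
          rw [div_mul_eq_mul_div, div_le_iff₀ Real.pi_pos] at h3
          linarith
        rw [Set.indicator_of_mem (show φ ∈ Set.Icc (π - π * δ / 2) π from
          ⟨by linarith, hφ.2⟩)]
        simp
    · exact bot_le
  calc _ ≤ ∫⁻ φ in Set.Ioc (0:ℝ) π, ((Set.Icc 0 (π * δ / 2)).indicator 1 φ +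
        (Set.Icc (π - π * δ / 2) π).indicator 1 φ) :=
        setLIntegral_mono' measurableSet_Ioc hle
    _ ≤ ∫⁻ φ, ((Set.Icc 0 (π * δ / 2)).indicator 1 φ +
        (Set.Icc (π - π * δ / 2) π).indicator 1 φ) := setLIntegral_le_lintegral _ _
    _ = ENNReal.ofReal (π * δ) := by
        rw [lintegral_add_left (measurable_one.indicator measurableSet_Icc),
          lintegral_indicator_one measurableSet_Icc, lintegral_indicator_one measurableSet_Icc,
          Real.volume_Icc, Real.volume_Icc, ← ENNReal.ofReal_add]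
        · congr 1; ring
        · have := Real.pi_pos; simp; positivity
        · have := Real.pi_pos; simp; positivity

private theorem u16_ind {P Q : Prop} (h : ind P - ind Q ≠ 0) : (P ∧ ¬ Q) ∨ (¬ P ∧ Q) := by
  unfold ind at h
  by_cases hP : P <;> by_cases hQ : Q <;> simp_all

private theorem u16_core {Z : ℝ → ℝ} (hZ : IsKer Z) {e : Bool} {J y x φ : ℝ} (hJ : 1 ≤ J)
    (hy : 0 < y) (hz : 0 < ((x : ℂ) + I * y).im) (hφ : φ ∈ Set.Ioc 0 π)
    (h : atg (wQ Z e J) 1 ⟨x + I * y, hz⟩ φ ≠ 0) (S : ℝ)
    (hS : S = y * |Real.cos φ| / Real.sin φ) :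
    0 < Real.sin φ ∧ ∃ X : ℝ, 0 ≤ X ∧ ((0 < Real.cos φ ∧ x = -1 - X) ∨
      (Real.cos φ < 0 ∧ x = -1 + X)) ∧ X < S ∧
      1 / (2 * J) ≤ (Real.sin φ) ^ 2 * (S - X) / y ∧
      (Real.sin φ) ^ 2 * (S - X) / y ≤ 2 / J ∧
      (S - X) * (X * S + y ^ 2) < S := by
  set s := Real.sin φ with hs
  set c := Real.cos φ with hc
  set r := Real.sqrt y with hr
  have hr0 : 0 < r := Real.sqrt_pos.mpr hy
  have hr2 : r ^ 2 = y := Real.sq_sqrt hy.le
  have hsc : s ^ 2 + c ^ 2 = 1 := Real.sin_sq_add_cos_sq φ
  have hs0 : 0 ≤ s := Real.sin_nonneg_of_nonneg_of_le_pi hφ.1.le hφ.2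
  set t := x + 1 with ht
  have him : (⟨x + I * y, hz⟩ : ℍ).im = y := by
    show ((x : ℂ) + I * y).im = y
    simp
  have hre : (⟨x + I * y, hz⟩ : ℍ).re = x := by
    show ((x : ℂ) + I * y).re = x
    simp
  have e1 : uu ⟨x + I * y, hz⟩ φ (((1 : SL(2, ℤ)) 1 0 : ℤ) : ℝ) (((1 : SL(2, ℤ)) 1 1 : ℤ) : ℝ) =
      s / r := by
    unfold uu
    rw [him, hre]
    simp [hs, hr]
  have e2 : vv ⟨x + I * y, hz⟩ φ (((1 : SL(2, ℤ)) 1 0 : ℤ) : ℝ) (((1 : SL(2, ℤ)) 1 1 : ℤ) : ℝ) =
      c / r := by
    unfold vv
    rw [him, hre]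
    simp [hc, hr]
  have e3 : uu ⟨x + I * y, hz⟩ φ
      ((((1 : SL(2, ℤ)) 0 0 : ℤ) : ℝ) + (((1 : SL(2, ℤ)) 1 0 : ℤ) : ℝ))
      ((((1 : SL(2, ℤ)) 0 1 : ℤ) : ℝ) + (((1 : SL(2, ℤ)) 1 1 : ℤ) : ℝ)) =
      (t * s + y * c) / r := by
    unfold uu
    rw [him, hre]
    simp [hc, hs, hr, ht]
  have e4 : vv ⟨x + I * y, hz⟩ φ
      ((((1 : SL(2, ℤ)) 0 0 : ℤ) : ℝ) + (((1 : SL(2, ℤ)) 1 0 : ℤ) : ℝ))
      ((((1 : SL(2, ℤ)) 0 1 : ℤ) : ℝ) + (((1 : SL(2, ℤ)) 1 1 : ℤ) : ℝ)) =
      (t * c - y * s) / r := by
    unfold vv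
    rw [him, hre]
    simp [hc, hs, hr, ht]
  unfold atg at h
  rw [e1, e2, e3, e4] at h
  have hdet : (t * s + y * c) / r * (c / r) - (t * c - y * s) / r * (s / r) = 1 := by
    have : (t * s + y * c) / r * (c / r) - (t * c - y * s) / r * (s / r) =
        y * (s ^ 2 + c ^ 2) / r ^ 2 := by
      field_simp
      ring
    rw [this, hsc, hr2, mul_one, div_self hy.ne']
  unfold wQ at h
  obtain ⟨hsep, hd1, hd2⟩ := sep_of_wR hZ (by linarith : (0:ℝ) < J) hdet (left_ne_zero_of_mul h)
  have hH := lt_of_sH_ne_one hsep (right_ne_zero_of_mul h)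
  have hspos : 0 < s := by
    rcases hs0.lt_or_eq with h0 | h0
    · exact h0
    · exfalso
      apply hsep.d
      rw [← h0]
      simp
  refine ⟨hspos, ?_⟩
  have f1 : s / r * ((t * s + y * c) / r) + c / r * ((t * c - y * s) / r) = t / y := by
    have : s / r * ((t * s + y * c) / r) + c / r * ((t * c - y * s) / r) =
        t * (s ^ 2 + c ^ 2) / r ^ 2 := by
      field_simp
      ring
    rw [this, hsc, hr2, mul_one]
  have f2 : s / r * ((t * s + y * c) / r) = s * (t * s + y * c) / y := by
    rw [← hr2]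
    field_simp
  have hsp := hsep.s
  have hdd := hsep.d
  unfold sepR at hsp
  rw [f1, f2] at hsp
  rw [f2] at hdd hd1 hd2
  have f3 : (t * s + y * c) / r * ((t * c - y * s) / r) = (t * s + y * c) * (t * c - y * s) / y := by
    rw [← hr2]
    field_simp
  have f4 : s / r * (c / r) = s * c / y := by
    rw [← hr2]
    field_simp
  rw [f3, f4, abs_div, abs_div, abs_of_pos hy, div_lt_div_iff_of_pos_right hy] at hH
  have hw0 : t * s + y * c ≠ 0 := by
    intro h0
    rw [h0] at hdd
    simp at hdd
  rcases u16_ind hsp with ⟨hP, hQ⟩ | ⟨hP, hQ⟩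
  · have ht0 : 0 < t := by
      have := (div_pos_iff_of_pos_right hy).mp hP
      exact this
    have hneg : t * s + y * c < 0 := by
      by_contra hge
      push Not at hge
      have : 0 < t * s + y * c := lt_of_le_of_ne hge (Ne.symm hw0)
      exact hQ (by positivity)
    have hc0 : c < 0 := by
      by_contra hge
      push Not at hge
      have : 0 ≤ t * s + y * c := by positivity
      linarith
    have hSc : S * s = - (y * c) := by
      rw [hS, abs_of_neg hc0]
      field_simp
    have hcS : c = -(S * s / y) := by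
      field_simp
      linarith
    refine ⟨t, ht0.le, Or.inr ⟨hc0, by rw [ht]; ring⟩, ?_, ?_, ?_, ?_⟩
    · by_contra hge
      push Not at hge
      have : S * s ≤ t * s := mul_le_mul_of_nonneg_right hge hspos.le
      linarith
    · have : s ^ 2 * (S - t) / y = |s * (t * s + y * c) / y| := by
        rw [abs_div, abs_mul, abs_of_pos hspos, abs_of_neg hneg, abs_of_pos hy]
        congr 1
        linear_combination s * hSc
      rw [this]; exact hd1
    · have : s ^ 2 * (S - t) / y = |s * (t * s + y * c) / y| := by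
        rw [abs_div, abs_mul, abs_of_pos hspos, abs_of_neg hneg, abs_of_pos hy]
        congr 1
        linear_combination s * hSc
      rw [this]; exact hd2
    · have g1 : |(t * s + y * c) * (t * c - y * s)| = (s * (S - t)) * (t * (S * s / y) + y * s) := by
        have hn2 : t * c - y * s < 0 := by
          have q1 := mul_neg_of_pos_of_neg ht0 hc0
          have q2 := mul_pos hy hspos
          linarith
        rw [abs_mul, abs_of_neg hneg, abs_of_neg hn2]
        have : -(t * c - y * s) = t * (S * s / y) + y * s := by rw [hcS]; ring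
        rw [this]
        have : -(t * s + y * c) = s * (S - t) := by linarith
        rw [this]
      have g2 : |s * c| = s * (S * s / y) := by
        rw [abs_mul, abs_of_pos hspos, abs_of_neg hc0]
        congr 1
        linarith
      rw [g1, g2] at hH
      have g3 : (s * (S - t)) * (t * (S * s / y) + y * s) = (s ^ 2 / y) * ((S - t) * (t * S + y ^ 2)) := by
        field_simp
      have g4 : s * (S * s / y) = (s ^ 2 / y) * S := by
        field_simp
      rw [g3, g4] at hH
      exact lt_of_mul_lt_mul_left hH (by positivity)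
  · have ht0 : t ≤ 0 := by
      by_contra hge
      push Not at hge
      exact hP (by positivity)
    have hpos : 0 < t * s + y * c := by
      have h1 := (div_pos_iff_of_pos_right hy).mp hQ
      exact (mul_pos_iff_of_pos_left hspos).mp h1
    have hc0 : 0 < c := by
      by_contra hge
      push Not at hge
      have h1 : t * s ≤ 0 := mul_nonpos_of_nonpos_of_nonneg ht0 hspos.le
      have h2 : y * c ≤ 0 := mul_nonpos_of_nonneg_of_nonpos hy.le hge
      linarith
    have hSc : S * s = y * c := by
      rw [hS, abs_of_pos hc0]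
      field_simp
    have hcS : c = S * s / y := by
      field_simp
      linarith
    refine ⟨-t, by linarith, Or.inl ⟨hc0, by rw [ht]; ring⟩, ?_, ?_, ?_, ?_⟩
    · by_contra hge
      push Not at hge
      have : S * s ≤ -t * s := mul_le_mul_of_nonneg_right hge hspos.le
      linarith
    · have : s ^ 2 * (S - -t) / y = |s * (t * s + y * c) / y| := by
        rw [abs_div, abs_mul, abs_of_pos hspos, abs_of_pos hpos, abs_of_pos hy]
        congr 1
        linear_combination s * hSc
      rw [this]; exact hd1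
    · have : s ^ 2 * (S - -t) / y = |s * (t * s + y * c) / y| := by
        rw [abs_div, abs_mul, abs_of_pos hspos, abs_of_pos hpos, abs_of_pos hy]
        congr 1
        linear_combination s * hSc
      rw [this]; exact hd2
    · have g1 : |(t * s + y * c) * (t * c - y * s)| = (s * (S - -t)) * (-t * (S * s / y) + y * s) := by
        have hn2 : t * c - y * s < 0 := by
          have q1 := mul_nonpos_of_nonpos_of_nonneg ht0 hc0.le
          have q2 := mul_pos hy hspos
          linarith
        rw [abs_mul, abs_of_pos hpos, abs_of_neg hn2]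
        have : -(t * c - y * s) = -t * (S * s / y) + y * s := by rw [← hcS]; ring
        rw [this]
        have : (t * s + y * c) = s * (S - -t) := by linarith
        rw [this]
      have g2 : |s * c| = s * (S * s / y) := by
        rw [abs_mul, abs_of_pos hspos, abs_of_pos hc0, ← hcS]
      rw [g1, g2] at hH
      have g3 : (s * (S - -t)) * (-t * (S * s / y) + y * s) = (s ^ 2 / y) * ((S - -t) * (-t * S + y ^ 2)) := by
        field_simp
      have g4 : s * (S * s / y) = (s ^ 2 / y) * S := by
        field_simp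
      rw [g3, g4] at hH
      exact lt_of_mul_lt_mul_left hH (by positivity)


private theorem u16_E {y J s S X : ℝ} (hy : 0 < y) (hJ : 1 ≤ J) (hs : 0 < s)
    (hid : s ^ 2 * (S ^ 2 + y ^ 2) = y ^ 2) (D1 : 1 / (2 * J) ≤ s ^ 2 * (S - X) / y)
    (D2 : s ^ 2 * (S - X) / y ≤ 2 / J) :
    S ^ 2 + y ^ 2 ≤ 2 * J * y * (S - X) ∧ J * y * (S - X) ≤ 2 * (S ^ 2 + y ^ 2) := by
  have hJ0 : 0 < J := by linarith
  rw [div_le_div_iff₀ (by positivity) hy] at D1
  rw [div_le_div_iff₀ hy hJ0] at D2
  have hs2 : 0 < s ^ 2 := by positivity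
  constructor
  · have h1 := mul_le_mul_of_nonneg_right D1 (show 0 ≤ S ^ 2 + y ^ 2 by positivity)
    have h2 : s ^ 2 * (S - X) * (2 * J) * (S ^ 2 + y ^ 2) = y * (2 * J * y * (S - X)) := by
      linear_combination (S - X) * (2 * J) * hid
    rw [h2] at h1
    have h3 : 1 * y * (S ^ 2 + y ^ 2) = y * (S ^ 2 + y ^ 2) := by ring
    rw [h3] at h1
    exact le_of_mul_le_mul_left h1 hy
  · have h1 := mul_le_mul_of_nonneg_right D2 (show 0 ≤ S ^ 2 + y ^ 2 by positivity)
    have h2 : s ^ 2 * (S - X) * J * (S ^ 2 + y ^ 2) = y * (J * y * (S - X)) := by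
      linear_combination (S - X) * J * hid
    rw [h2] at h1
    have h3 : 2 * y * (S ^ 2 + y ^ 2) = y * (2 * (S ^ 2 + y ^ 2)) := by ring
    rw [h3] at h1
    exact le_of_mul_le_mul_left h1 hy

private theorem u16_regA {y J S X : ℝ} (hy : 0 < y) (hJ : 1 ≤ J) (hX : 0 ≤ X) (hXS : X < S)
    (E1 : S ^ 2 + y ^ 2 ≤ 2 * J * y * (S - X)) : S ≤ 2 * J * y := by
  have hS : 0 < S := by linarith
  have h1 : S * S ≤ (2 * J * y) * S := by
    have : 2 * J * y * (S - X) ≤ 2 * J * y * S :=
      mul_le_mul_of_nonneg_left (by linarith) (by positivity)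
    nlinarith [sq_nonneg y]
  exact le_of_mul_le_mul_right h1 hS

private theorem u16_regB {y J S X : ℝ} (hy : 0 < y) (hJ : 1 ≤ J) (hX : 0 ≤ X) (hXS : X < S)
    (E1 : S ^ 2 + y ^ 2 ≤ 2 * J * y * (S - X)) (H : (S - X) * (X * S + y ^ 2) < S)
    (hSy : S ≤ y) : y ^ 2 ≤ 2 * J := by
  have hS : 0 < S := by linarith
  have hZ : 0 < S - X := by linarith
  have h1 : (S - X) * y ^ 2 ≤ (S - X) * (X * S + y ^ 2) :=
    mul_le_mul_of_nonneg_left (by nlinarith) hZ.le
  have h2 : ((S - X) * y) * y < 1 * y := by nlinarith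
  have h3 : (S - X) * y < 1 := lt_of_mul_lt_mul_right h2 hy.le
  have h4 : 2 * J * ((S - X) * y) ≤ 2 * J * 1 := mul_le_mul_of_nonneg_left h3.le (by linarith)
  nlinarith [sq_nonneg S]

private theorem u16_regC {y J S X : ℝ} (hy : 0 < y) (hJ : 1 ≤ J) (_hX : 0 ≤ X) (hXS : X < S)
    (E1 : S ^ 2 + y ^ 2 ≤ 2 * J * y * (S - X)) (H : (S - X) * (X * S + y ^ 2) < S)
    (hXS2 : S / 2 ≤ X) : S ^ 3 ≤ 4 * J * y := by
  have hS : 0 < S := by linarith
  have hZ : 0 < S - X := by linarith
  have h1 : (S - X) * (S / 2 * S) ≤ (S - X) * (X * S + y ^ 2) := by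
    apply mul_le_mul_of_nonneg_left _ hZ.le
    have := mul_le_mul_of_nonneg_right hXS2 hS.le
    nlinarith [sq_nonneg y]
  have h2 : ((S - X) * S) * S < 2 * S := by nlinarith
  have h3 : (S - X) * S < 2 := lt_of_mul_lt_mul_right h2 hS.le
  have h4 : 2 * J * y * ((S - X) * S) ≤ 2 * J * y * 2 :=
    mul_le_mul_of_nonneg_left h3.le (by positivity)
  have h5 : S ^ 2 * S ≤ 2 * J * y * (S - X) * S := by
    apply mul_le_mul_of_nonneg_right _ hS.le
    nlinarith [sq_nonneg y]
  calc S ^ 3 = S ^ 2 * S := by ring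
    _ ≤ 2 * J * y * (S - X) * S := h5
    _ = 2 * J * y * ((S - X) * S) := by ring
    _ ≤ 2 * J * y * 2 := h4
    _ = 4 * J * y := by ring

private theorem u16_regD {y J S X : ℝ} (hy : 0 < y) (hJ : 1 ≤ J) (hX : 0 ≤ X) (hXS : X < S)
    (E2 : J * y * (S - X) ≤ 2 * (S ^ 2 + y ^ 2)) (H : (S - X) * (X * S + y ^ 2) < S)
    (hSy : y < S) (hXS2 : X < S / 2) : J * y ≤ 8 * S ∧ X ≤ 16 / (J * y) := by
  have hS : 0 < S := by linarith
  have hZ : 0 < S - X := by linarith
  have hJy : 0 < J * y := by positivity
  have h1 : J * y ≤ 8 * S := by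
    have h2 : J * y * (S / 2) ≤ J * y * (S - X) :=
      mul_le_mul_of_nonneg_left (by linarith) hJy.le
    have h3 : y ^ 2 ≤ S ^ 2 := by
      apply pow_le_pow_left₀ hy.le hSy.le
    have h4 : J * y * S ≤ 8 * S * S := by nlinarith
    exact le_of_mul_le_mul_right h4 hS
  refine ⟨h1, ?_⟩
  rw [le_div_iff₀ hJy]
  have h5 : (S - X) * X * S < 1 * S := by
    have : 0 ≤ (S - X) * y ^ 2 := by positivity
    nlinarith
  have h6 : (S - X) * X < 1 := lt_of_mul_lt_mul_right h5 hS.le
  have h7 : S / 2 * X ≤ (S - X) * X := mul_le_mul_of_nonneg_right (by linarith) hX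
  have h8 : X * (J * y) ≤ X * (8 * S) := mul_le_mul_of_nonneg_left h1 hX
  nlinarith

open Classical in
/-- inner integral -/
private theorem u16_inner {Z : ℝ → ℝ} (hZ : IsKer Z) {e : Bool} {J y b φ : ℝ} (hJ : 1 ≤ J)
    (hy : 0 < y) (hb : 0 < b) (hb3 : b ^ 3 = 1 / (J * y)) (hφ : φ ∈ Set.Ioc 0 π) :
    (∫⁻ x : ℝ, (if atg (wQ Z e J) 1 ⟨x + I * y, by simpa using hy⟩ φ ≠ 0
      then (1 : ENNReal) else 0) ≤
      (if |Real.cos φ| ≤ (2 * J) * Real.sin φ then ENNReal.ofReal (1 / Real.sin φ ^ 2) else 0) *
        ENNReal.ofReal (2 * y / J)) ∧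
    (∫⁻ x : ℝ, (if atg (wQ Z e J) 1 ⟨x + I * y, by simpa using hy⟩ φ ≠ 0
      then (1 : ENNReal) else 0) ≤
      (if y ^ 2 ≤ 2 * J then
        (if |Real.cos φ| ≤ 1 * Real.sin φ then ENNReal.ofReal (1 / Real.sin φ ^ 2) else 0)
        else 0) * ENNReal.ofReal (2 * y / J) +
      (if |Real.cos φ| ≤ (2 / (b * y)) * Real.sin φ then
        ENNReal.ofReal (1 / Real.sin φ ^ 2) else 0) * ENNReal.ofReal (2 * y / J) +
      (if Real.sin φ ≤ 8 / J then 1 else 0) * ENNReal.ofReal (32 / (J * y))) := by
  have hJ0 : 0 < J := by linarith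
  set S := y * |Real.cos φ| / Real.sin φ with hS
  set s := Real.sin φ with hs
  have hs0 : 0 ≤ s := Real.sin_nonneg_of_nonneg_of_le_pi hφ.1.le hφ.2
  rcases hs0.eq_or_lt with h0 | hspos
  · have hE : ∀ x : ℝ, ¬ (atg (wQ Z e J) 1 ⟨x + I * y, by simpa using hy⟩ φ ≠ 0) := by
      intro x hx
      have := (u16_core hZ hJ hy _ hφ hx S hS).1
      rw [← hs, ← h0] at this
      exact lt_irrefl _ this
    simp [hE]
  have hsc : s ^ 2 + Real.cos φ ^ 2 = 1 := Real.sin_sq_add_cos_sq φ
  have hid : s ^ 2 * (S ^ 2 + y ^ 2) = y ^ 2 := by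
    have : s ^ 2 * (S ^ 2 + y ^ 2) = y ^ 2 * (s ^ 2 + |Real.cos φ| ^ 2) := by
      rw [hS]; field_simp
      ring
    rw [this, sq_abs, hsc, mul_one]
  -- the interval
  obtain ⟨A, B, hAB, hI⟩ : ∃ A B : ℝ, B - A ≤ 1 / s ^ 2 * (2 * y / J) ∧
      ∀ x : ℝ, atg (wQ Z e J) 1 ⟨x + I * y, by simpa using hy⟩ φ ≠ 0 → x ∈ Set.Icc A B := by
    have hpos : (0:ℝ) ≤ y / (J * s ^ 2) := by positivity
    have e1 : 1 / s ^ 2 * (2 * y / J) = 2 * (y / (J * s ^ 2)) := by
      field_simp
    have key : ∀ X : ℝ, 1 / (2 * J) ≤ s ^ 2 * (S - X) / y → s ^ 2 * (S - X) / y ≤ 2 / J →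
        1 / 2 * (y / (J * s ^ 2)) ≤ S - X ∧ S - X ≤ 2 * (y / (J * s ^ 2)) := by
      intro X D1 D2
      rw [div_le_div_iff₀ (by positivity) hy] at D1
      rw [div_le_div_iff₀ hy hJ0] at D2
      constructor
      · rw [← mul_div_assoc, div_le_iff₀ (by positivity)]
        linarith
      · rw [← mul_div_assoc, le_div_iff₀ (by positivity)]
        linarith
    rcases lt_or_ge 0 (Real.cos φ) with hc | hc
    · refine ⟨-1 - S + 1 / 2 * (y / (J * s ^ 2)), -1 - S + 2 * (y / (J * s ^ 2)), ?_, ?_⟩
      · rw [e1]; linarith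
      · intro x hx
        obtain ⟨-, X, hX, hxX, hXS, D1, D2, -⟩ := u16_core hZ hJ hy _ hφ hx S hS
        obtain ⟨k1, k2⟩ := key X D1 D2
        rcases hxX with ⟨-, h⟩ | ⟨h, -⟩
        · rw [h]; constructor <;> linarith
        · linarith
    · refine ⟨-1 + S - 2 * (y / (J * s ^ 2)), -1 + S - 1 / 2 * (y / (J * s ^ 2)), ?_, ?_⟩
      · rw [e1]; linarith
      · intro x hx
        obtain ⟨-, X, hX, hxX, hXS, D1, D2, -⟩ := u16_core hZ hJ hy _ hφ hx S hS
        obtain ⟨k1, k2⟩ := key X D1 D2
        rcases hxX with ⟨h, -⟩ | ⟨-, h⟩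
        · linarith
        · rw [h]; constructor <;> linarith
  have hvol : volume (Set.Icc A B) ≤ ENNReal.ofReal (1 / s ^ 2) * ENNReal.ofReal (2 * y / J) := by
    rw [Real.volume_Icc, ← ENNReal.ofReal_mul (by positivity)]
    exact ENNReal.ofReal_le_ofReal hAB
  have hcS : ∀ M : ℝ, S ≤ M * y → |Real.cos φ| ≤ M * s := by
    intro M hM
    rw [hS, div_le_iff₀ hspos] at hM
    have : y * |Real.cos φ| ≤ y * (M * s) := by linarith
    exact le_of_mul_le_mul_left this hy
  constructor
  · -- crude bound
    by_cases hc : |Real.cos φ| ≤ (2 * J) * s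
    · rw [if_pos hc]
      calc _ ≤ ∫⁻ x : ℝ, (Set.Icc A B).indicator 1 x := by
            apply lintegral_mono
            intro x
            dsimp only
            split_ifs with hx
            · rw [Set.indicator_of_mem (hI x hx)]; simp
            · exact bot_le
        _ = volume (Set.Icc A B) := lintegral_indicator_one measurableSet_Icc
        _ ≤ _ := hvol
    · have hE : ∀ x : ℝ, ¬ (atg (wQ Z e J) 1 ⟨x + I * y, by simpa using hy⟩ φ ≠ 0) := by
        intro x hx
        obtain ⟨-, X, hX, hxX, hXS, D1, D2, H⟩ := u16_core hZ hJ hy _ hφ hx S hS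
        obtain ⟨E1, E2⟩ := u16_E hy hJ hspos hid D1 D2
        exact hc (hcS _ (u16_regA hy hJ hX hXS E1))
      simp [hE]
  · set c1 : Prop := y ^ 2 ≤ 2 * J ∧ |Real.cos φ| ≤ 1 * s with hc1
    set c2 : Prop := |Real.cos φ| ≤ (2 / (b * y)) * s with hc2
    set c3 : Prop := s ≤ 8 / J with hc3
    have hcase : ∀ x : ℝ, atg (wQ Z e J) 1 ⟨x + I * y, by simpa using hy⟩ φ ≠ 0 →
        c1 ∨ c2 ∨ (c3 ∧ x ∈ Set.Icc (-1 - 16 / (J * y)) (-1 + 16 / (J * y))) := by
      intro x hx
      obtain ⟨-, X, hX, hxX, hXS, D1, D2, H⟩ := u16_core hZ hJ hy _ hφ hx S hS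
      obtain ⟨E1, E2⟩ := u16_E hy hJ hspos hid D1 D2
      rcases le_or_gt S y with h1 | h1
      · left
        exact ⟨u16_regB hy hJ hX hXS E1 H h1, hcS 1 (by linarith)⟩
      · right
        rcases le_or_gt (S / 2) X with h2 | h2
        · left
          apply hcS
          have h3 := u16_regC hy hJ hX hXS E1 H h2
          have h4 : 2 / (b * y) * y = 2 / b := by field_simp
          rw [h4]
          have h6 : (2 / b) ^ 3 = 8 * (J * y) := by
            have h7 : (2 / b) ^ 3 = 8 / b ^ 3 := by
              field_simp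
              norm_num
            rw [h7, hb3]
            field_simp
          have h5 : S ^ 3 ≤ (2 / b) ^ 3 := by
            rw [h6]
            have : 0 < J * y := by positivity
            linarith
          exact le_of_pow_le_pow_left₀ (by norm_num) (by positivity) h5
        · right
          obtain ⟨h3, h4⟩ := u16_regD hy hJ hX hXS E2 H h1 h2
          constructor
          · rw [hc3, le_div_iff₀ hJ0]
            have h5 : J * y * s ≤ 8 * S * s := mul_le_mul_of_nonneg_right h3 hspos.le
            have h6 : S * s = y * |Real.cos φ| := by rw [hS]; field_simp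
            have h7 : |Real.cos φ| ≤ 1 := Real.abs_cos_le_one φ
            have h8 : y * (s * J) ≤ y * 8 := by nlinarith
            exact le_of_mul_le_mul_left h8 hy
          · rcases hxX with ⟨-, h⟩ | ⟨-, h⟩
            · rw [h]; constructor
              · linarith
              · have : 0 ≤ 16 / (J * y) := by positivity
                linarith
            · rw [h]; constructor
              · have : 0 ≤ 16 / (J * y) := by positivity
                linarith
              · linarith
    calc _ ≤ ∫⁻ x : ℝ, ((if c1 then 1 else 0) * (Set.Icc A B).indicator 1 x +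
            (if c2 then 1 else 0) * (Set.Icc A B).indicator 1 x +
            (if c3 then 1 else 0) *
              (Set.Icc (-1 - 16 / (J * y)) (-1 + 16 / (J * y))).indicator 1 x) := by
            apply lintegral_mono
            intro x
            by_cases hx : atg (wQ Z e J) 1 ⟨x + I * y, by simpa using hy⟩ φ ≠ 0
            · simp only [if_pos hx]
              rcases hcase x hx with h | h | ⟨h, h'⟩
              · have : (1 : ENNReal) ≤ (if c1 then 1 else 0) * (Set.Icc A B).indicator 1 x := by
                  rw [if_pos h, Set.indicator_of_mem (hI x hx)]; simp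
                exact le_add_right (le_add_right this)
              · have : (1 : ENNReal) ≤ (if c2 then 1 else 0) * (Set.Icc A B).indicator 1 x := by
                  rw [if_pos h, Set.indicator_of_mem (hI x hx)]; simp
                exact le_add_right (le_add_left this)
              · have : (1 : ENNReal) ≤ (if c3 then 1 else 0) *
                    (Set.Icc (-1 - 16 / (J * y)) (-1 + 16 / (J * y))).indicator 1 x := by
                  rw [if_pos h, Set.indicator_of_mem h']; simp
                exact le_add_left this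
            · simp only [if_neg hx]
              exact bot_le
      _ = (if c1 then 1 else 0) * volume (Set.Icc A B) + (if c2 then 1 else 0) *
            volume (Set.Icc A B) + (if c3 then 1 else 0) * volume
              (Set.Icc (-1 - 16 / (J * y)) (-1 + 16 / (J * y))) := by
            have m1 : Measurable ((Set.Icc A B).indicator (1 : ℝ → ENNReal)) :=
              measurable_one.indicator measurableSet_Icc
            have m2 : Measurable ((Set.Icc (-1 - 16 / (J * y)) (-1 + 16 / (J * y))).indicator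
              (1 : ℝ → ENNReal)) := measurable_one.indicator measurableSet_Icc
            rw [lintegral_add_left, lintegral_add_left, lintegral_const_mul _ m1,
              lintegral_const_mul _ m1, lintegral_const_mul _ m2,
              lintegral_indicator_one measurableSet_Icc, lintegral_indicator_one measurableSet_Icc]
            · exact m1.const_mul _
            · exact (m1.const_mul _).add (m1.const_mul _)
      _ ≤ _ := by
            have v2 : volume (Set.Icc (-1 - 16 / (J * y)) (-1 + 16 / (J * y))) ≤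
                ENNReal.ofReal (32 / (J * y)) := by
              rw [Real.volume_Icc]
              apply ENNReal.ofReal_le_ofReal
              apply le_of_eq
              ring
            apply add_le_add
            · apply add_le_add
              · by_cases h : c1
                · rw [if_pos h, one_mul, if_pos h.1, if_pos h.2]; exact hvol
                · rw [if_neg h, zero_mul]; exact bot_le
              · by_cases h : c2
                · rw [if_pos h, one_mul, if_pos h]; exact hvol
                · rw [if_neg h, zero_mul]; exact bot_le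
            · exact mul_le_mul' le_rfl v2


open Classical in
private theorem u16_meas (M : ℝ) : Measurable (fun φ : ℝ => if |Real.cos φ| ≤ M * Real.sin φ then
      ENNReal.ofReal (1 / Real.sin φ ^ 2) else 0) := by
  apply Measurable.ite
  · exact measurableSet_le (by fun_prop) (by fun_prop)
  · fun_prop
  · exact measurable_const

open Classical in
/-- fixed height: integral over `x` and `φ` of the indicator of the Q-event for `g = 1`
(`a = 1/J`). -/
theorem fibre_Q {Z : ℝ → ℝ} (hZ : IsKer Z) (e : Bool) : ∃ C : ℝ, ∀ J : ℝ, 1 ≤ J →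
    ∀ (y : ℝ) (hy : 0 < y),
    ∫⁻ φ in Set.Ioc (0 : ℝ) π, ∫⁻ x : ℝ,
      (if atg (wQ Z e J) 1 ⟨x + I * y, by simpa using hy⟩ φ ≠ 0 then (1 : ENNReal) else 0) ≤
      ENNReal.ofReal (C * y * (min 1 ((1 / (J * y)) ^ (2 / 3 : ℝ)) +
        (if y ^ 2 ≤ 2 * J then 1 / J else 0))) := by
  refine ⟨1100, fun J hJ y hy => ?_⟩
  have hJ0 : 0 < J := by linarith
  have hq : 0 < 1 / (J * y) := by positivity
  obtain ⟨b, hb, hb3, hb2⟩ : ∃ b : ℝ, 0 < b ∧ b ^ 3 = 1 / (J * y) ∧
      (1 / (J * y)) ^ (2 / 3 : ℝ) = b ^ 2 := by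
    refine ⟨(1 / (J * y)) ^ (1 / 3 : ℝ), by positivity, ?_, ?_⟩
    · rw [← Real.rpow_natCast, ← Real.rpow_mul hq.le]
      norm_num
    · rw [← Real.rpow_natCast, ← Real.rpow_mul hq.le]
      norm_num
  rw [hb2]
  have hif : (0:ℝ) ≤ if y ^ 2 ≤ 2 * J then 1 / J else 0 := by
    split_ifs <;> positivity
  rcases le_or_gt 1 b with h1 | h1
  · have hmin : min 1 (b ^ 2) = 1 := by
      apply min_eq_left
      nlinarith
    rw [hmin]
    calc _ ≤ ∫⁻ φ in Set.Ioc (0 : ℝ) π, (if |Real.cos φ| ≤ (2 * J) * Real.sin φ then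
          ENNReal.ofReal (1 / Real.sin φ ^ 2) else 0) * ENNReal.ofReal (2 * y / J) :=
          setLIntegral_mono' measurableSet_Ioc
            (fun φ hφ => (u16_inner hZ hJ hy hb hb3 hφ).1)
      _ = (∫⁻ φ in Set.Ioc (0 : ℝ) π, (if |Real.cos φ| ≤ (2 * J) * Real.sin φ then
          ENNReal.ofReal (1 / Real.sin φ ^ 2) else 0)) * ENNReal.ofReal (2 * y / J) :=
          lintegral_mul_const' _ _ ENNReal.ofReal_ne_top
      _ ≤ ENNReal.ofReal (2 * (2 * J)) * ENNReal.ofReal (2 * y / J) :=
          mul_le_mul' (u16_csc _ (by positivity)) le_rfl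
      _ = ENNReal.ofReal (8 * y) := by
          rw [← ENNReal.ofReal_mul (by positivity)]
          congr 1
          field_simp
          ring
      _ ≤ _ := by
          apply ENNReal.ofReal_le_ofReal
          nlinarith [mul_nonneg hy.le hif]
  · have hmin : min 1 (b ^ 2) = b ^ 2 := by
      apply min_eq_right
      nlinarith
    rw [hmin]
    calc _ ≤ ∫⁻ φ in Set.Ioc (0 : ℝ) π, ((if y ^ 2 ≤ 2 * J then
        (if |Real.cos φ| ≤ 1 * Real.sin φ then ENNReal.ofReal (1 / Real.sin φ ^ 2) else 0)
        else 0) * ENNReal.ofReal (2 * y / J) +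
      (if |Real.cos φ| ≤ (2 / (b * y)) * Real.sin φ then
        ENNReal.ofReal (1 / Real.sin φ ^ 2) else 0) * ENNReal.ofReal (2 * y / J) +
      (if Real.sin φ ≤ 8 / J then 1 else 0) * ENNReal.ofReal (32 / (J * y))) :=
          setLIntegral_mono' measurableSet_Ioc
            (fun φ hφ => (u16_inner hZ hJ hy hb hb3 hφ).2)
      _ = (if y ^ 2 ≤ 2 * J then (∫⁻ φ in Set.Ioc (0 : ℝ) π,
        (if |Real.cos φ| ≤ 1 * Real.sin φ then ENNReal.ofReal (1 / Real.sin φ ^ 2) else 0))
        else 0) * ENNReal.ofReal (2 * y / J) +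
        (∫⁻ φ in Set.Ioc (0 : ℝ) π, (if |Real.cos φ| ≤ (2 / (b * y)) * Real.sin φ then
        ENNReal.ofReal (1 / Real.sin φ ^ 2) else 0)) * ENNReal.ofReal (2 * y / J) +
        (∫⁻ φ in Set.Ioc (0 : ℝ) π, (if Real.sin φ ≤ 8 / J then 1 else 0)) *
          ENNReal.ofReal (32 / (J * y)) := by
          have m1 := u16_meas 1
          have m2 := u16_meas (2 / (b * y))
          have m1' : Measurable (fun φ : ℝ => (if y ^ 2 ≤ 2 * J then
            (if |Real.cos φ| ≤ 1 * Real.sin φ then ENNReal.ofReal (1 / Real.sin φ ^ 2) else 0)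
            else 0) * ENNReal.ofReal (2 * y / J)) := by
            by_cases hyJ : y ^ 2 ≤ 2 * J
            · simp only [if_pos hyJ]
              exact m1.mul_const _
            · simp only [if_neg hyJ]
              exact measurable_const.mul_const _
          rw [lintegral_add_left, lintegral_add_left m1',
            lintegral_mul_const' _ _ ENNReal.ofReal_ne_top,
            lintegral_mul_const' _ _ ENNReal.ofReal_ne_top,
            lintegral_mul_const' _ _ ENNReal.ofReal_ne_top]
          · congr 3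
            by_cases hyJ : y ^ 2 ≤ 2 * J
            · simp only [if_pos hyJ]
            · simp only [if_neg hyJ]
              simp
          · exact m1'.add (m2.mul_const _)
      _ ≤ (if y ^ 2 ≤ 2 * J then ENNReal.ofReal (2 * 1) else 0) * ENNReal.ofReal (2 * y / J) +
          ENNReal.ofReal (2 * (2 / (b * y))) * ENNReal.ofReal (2 * y / J) +
          ENNReal.ofReal (π * (8 / J)) * ENNReal.ofReal (32 / (J * y)) := by
          apply add_le_add
          · apply add_le_add
            · apply mul_le_mul' _ le_rfl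
              split_ifs
              · exact u16_csc 1 one_pos
              · exact le_rfl
            · exact mul_le_mul' (u16_csc _ (by positivity)) le_rfl
          · exact mul_le_mul' (u16_sin _ (by positivity)) le_rfl
      _ = ENNReal.ofReal ((if y ^ 2 ≤ 2 * J then 2 * 1 else 0) * (2 * y / J) +
          2 * (2 / (b * y)) * (2 * y / J) + π * (8 / J) * (32 / (J * y))) := by
          have hpi := Real.pi_pos
          have hif2 : (0:ℝ) ≤ if y ^ 2 ≤ 2 * J then 2 * 1 else 0 := by
            split_ifs <;> positivity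
          rw [ENNReal.ofReal_add (by positivity) (by positivity),
            ENNReal.ofReal_add (by positivity) (by positivity)]
          congr 1
          · congr 1
            · rw [ENNReal.ofReal_mul hif2]
              congr 1
              split_ifs
              · rfl
              · simp
            · exact (ENNReal.ofReal_mul (by positivity)).symm
          · exact (ENNReal.ofReal_mul (by positivity)).symm
      _ ≤ _ := by
          apply ENNReal.ofReal_le_ofReal
          have hJb : 1 / J = y * b ^ 3 := by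
            rw [hb3]; field_simp
          have hpi : π ≤ 4 := Real.pi_le_four
          have hpi0 := Real.pi_pos
          have t1 : (if y ^ 2 ≤ 2 * J then (2:ℝ) * 1 else 0) * (2 * y / J) =
              4 * y * (if y ^ 2 ≤ 2 * J then 1 / J else 0) := by
            split_ifs
            · ring
            · ring
          have t2 : 2 * (2 / (b * y)) * (2 * y / J) = 8 * y * b ^ 2 := by
            have : 2 * (2 / (b * y)) * (2 * y / J) = 8 / b * (1 / J) := by
              field_simp
              norm_num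
            rw [this, hJb]
            field_simp
          have t3 : π * (8 / J) * (32 / (J * y)) = 256 * π * y * (b ^ 2 * b ^ 4) := by
            have : π * (8 / J) * (32 / (J * y)) = 256 * π * (1 / J) * (1 / J) / y := by
              field_simp
              norm_num
            rw [this, hJb]
            field_simp
          have t4 : π * (8 / J) * (32 / (J * y)) ≤ 1024 * y * b ^ 2 := by
            rw [t3]
            have hb4 : b ^ 4 ≤ 1 := pow_le_one₀ hb.le h1.le
            have h5 : b ^ 2 * b ^ 4 ≤ b ^ 2 * 1 := mul_le_mul_of_nonneg_left hb4 (by positivity)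
            calc 256 * π * y * (b ^ 2 * b ^ 4) ≤ 256 * 4 * y * (b ^ 2 * 1) := by gcongr
              _ = _ := by ring
          rw [t1, t2]
          have hb20 : 0 ≤ y * b ^ 2 := by positivity
          have hyif : 0 ≤ y * (if y ^ 2 ≤ 2 * J then 1 / J else 0) := mul_nonneg hy.le hif
          nlinarith

end RV11
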