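import Pool.Agent.LibRV11.U16a
import Pool.Agent.LibRV11.U04
import Pool.Agent.LibRV11.TH13
open Complex Real MeasureTheory
open UpperHalfPlane hiding I
open scoped MatrixGroups

namespace RV11

/-! ### U16b -/

private theorem u16b_small {b : ℝ} (hb : 0 ≤ b) :
    ∫⁻ y in Set.Ioc 0 b, ENNReal.ofReal (y ^ (-(3 / 4) : ℝ)) =
      ENNReal.ofReal (4 * b ^ (1 / 4 : ℝ)) := by
  have hint : IntervalIntegrable (fun y : ℝ => y ^ (-(3 / 4) : ℝ)) volume 0 b :=
    intervalIntegral.intervalIntegrable_rpow' (by norm_num)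
  rw [← ofReal_integral_eq_lintegral_ofReal]
  · rw [← intervalIntegral.integral_of_le hb, integral_rpow (Or.inl (by norm_num))]
    congr 1
    have h1 : (-(3 / 4) + 1 : ℝ) = 1 / 4 := by norm_num
    rw [h1, Real.zero_rpow (by norm_num)]
    ring
  · rw [intervalIntegrable_iff_integrableOn_Ioc_of_le hb] at hint
    exact hint
  · filter_upwards [ae_restrict_mem measurableSet_Ioc] with y hy
    exact Real.rpow_nonneg hy.1.le _

private theorem u16b_large {b p : ℝ} (hb : 0 < b) (hp : 1 < p) :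
    ∫⁻ y in Set.Ioi b, ENNReal.ofReal (y ^ (-p)) =
      ENNReal.ofReal (b ^ (1 - p) / (p - 1)) := by
  rw [← ofReal_integral_eq_lintegral_ofReal]
  · rw [integral_Ioi_rpow_of_lt (by linarith) hb]
    congr 1
    have h1 : (-p + 1 : ℝ) = 1 - p := by ring
    rw [h1]
    have h2 : (1 - p : ℝ) = - (p - 1) := by ring
    rw [div_eq_div_iff (by linarith) (by linarith)]
    rw [h2]; ring
  · exact integrableOn_Ioi_rpow_of_lt (by linarith) hb
  · filter_upwards [ae_restrict_mem measurableSet_Ioi] with y hy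
    exact Real.rpow_nonneg (hb.le.trans (le_of_lt hy)) _

private theorem u16b_measpow (p : ℝ) : Measurable fun y : ℝ => ENNReal.ofReal (y ^ p) := by
  fun_prop

open Classical in
/-- bound (I) -/
private theorem u16b_I {r J : ℝ} (hr : 0 ≤ r) (hJ : 1 ≤ J) :
    ∫⁻ y in Set.Ioi (0 : ℝ), ENNReal.ofReal (y ^ (-(3 / 4) : ℝ) * Real.exp (-(π * r * y)) *
      (min 1 ((1 / (J * y)) ^ (2 / 3 : ℝ)) + (if y ^ 2 ≤ 2 * J then 1 / J else 0))) ≤
      ENNReal.ofReal (20 * J ^ (-(1 / 4) : ℝ)) := by
  have hJ0 : 0 < J := by linarith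
  have hpi := Real.pi_pos
  set b := Real.sqrt (2 * J) with hb
  have hb0 : 0 ≤ b := Real.sqrt_nonneg _
  calc _ ≤ ∫⁻ y in Set.Ioi (0 : ℝ),
      ((Set.Ioc 0 (1 / J)).indicator (fun y => ENNReal.ofReal (y ^ (-(3 / 4) : ℝ))) y +
      ENNReal.ofReal (J ^ (-(2 / 3) : ℝ)) *
        (Set.Ioi (1 / J)).indicator (fun y => ENNReal.ofReal (y ^ (-(17 / 12) : ℝ))) y +
      ENNReal.ofReal (1 / J) *
        (Set.Ioc 0 b).indicator (fun y => ENNReal.ofReal (y ^ (-(3 / 4) : ℝ))) y) := by
        apply setLIntegral_mono' measurableSet_Ioi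
        intro y hy
        have hy0 : 0 < y := hy
        have hexp : Real.exp (-(π * r * y)) ≤ 1 := by
          apply Real.exp_le_one_iff.mpr
          have : 0 ≤ π * r * y := by positivity
          linarith
        have hif : (0:ℝ) ≤ if y ^ 2 ≤ 2 * J then 1 / J else 0 := by
          split_ifs <;> positivity
        have hmin0 : 0 ≤ min 1 ((1 / (J * y)) ^ (2 / 3 : ℝ)) := by positivity
        have hyp : 0 < y ^ (-(3 / 4) : ℝ) := Real.rpow_pos_of_pos hy0 _
        have h1 : y ^ (-(3 / 4) : ℝ) * Real.exp (-(π * r * y)) *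
            (min 1 ((1 / (J * y)) ^ (2 / 3 : ℝ)) + (if y ^ 2 ≤ 2 * J then 1 / J else 0)) ≤
            y ^ (-(3 / 4) : ℝ) * min 1 ((1 / (J * y)) ^ (2 / 3 : ℝ)) +
            y ^ (-(3 / 4) : ℝ) * (if y ^ 2 ≤ 2 * J then 1 / J else 0) := by
          rw [← mul_add]
          have : y ^ (-(3 / 4) : ℝ) * Real.exp (-(π * r * y)) ≤ y ^ (-(3 / 4) : ℝ) * 1 :=
            mul_le_mul_of_nonneg_left hexp hyp.le
          rw [mul_one] at this
          exact mul_le_mul_of_nonneg_right this (by positivity)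
        refine (ENNReal.ofReal_le_ofReal h1).trans ?_
        rw [ENNReal.ofReal_add (by positivity) (by positivity)]
        apply add_le_add
        · rcases le_or_gt y (1 / J) with hyJ | hyJ
          · rw [Set.indicator_of_mem (show y ∈ Set.Ioc 0 (1 / J) from ⟨hy0, hyJ⟩)]
            refine le_add_right (ENNReal.ofReal_le_ofReal ?_)
            calc y ^ (-(3 / 4) : ℝ) * min 1 ((1 / (J * y)) ^ (2 / 3 : ℝ)) ≤
                y ^ (-(3 / 4) : ℝ) * 1 := mul_le_mul_of_nonneg_left (min_le_left _ _) hyp.le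
              _ = _ := mul_one _
          · rw [Set.indicator_of_mem (show y ∈ Set.Ioi (1 / J) from hyJ)]
            refine le_add_left ?_
            rw [← ENNReal.ofReal_mul (by positivity)]
            apply ENNReal.ofReal_le_ofReal
            calc y ^ (-(3 / 4) : ℝ) * min 1 ((1 / (J * y)) ^ (2 / 3 : ℝ)) ≤
                y ^ (-(3 / 4) : ℝ) * (1 / (J * y)) ^ (2 / 3 : ℝ) :=
                  mul_le_mul_of_nonneg_left (min_le_right _ _) hyp.le
              _ = y ^ (-(3 / 4) : ℝ) * (J ^ (-(2 / 3) : ℝ) * y ^ (-(2 / 3) : ℝ)) := by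
                  rw [one_div, Real.inv_rpow (by positivity), ← Real.rpow_neg (by positivity),
                    Real.mul_rpow hJ0.le hy0.le]
              _ = J ^ (-(2 / 3) : ℝ) * (y ^ (-(3 / 4) : ℝ) * y ^ (-(2 / 3) : ℝ)) := by ring
              _ = J ^ (-(2 / 3) : ℝ) * y ^ (-(17 / 12) : ℝ) := by
                  rw [← Real.rpow_add hy0]
                  norm_num
              _ ≤ _ := le_rfl
        · by_cases hyJ : y ^ 2 ≤ 2 * J
          · rw [if_pos hyJ, Set.indicator_of_mem (show y ∈ Set.Ioc 0 b from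
              ⟨hy0, Real.le_sqrt_of_sq_le hyJ⟩), ← ENNReal.ofReal_mul (by positivity)]
            apply ENNReal.ofReal_le_ofReal
            rw [mul_comm]
          · rw [if_neg hyJ]
            simp
    _ ≤ ∫⁻ y : ℝ,
      ((Set.Ioc 0 (1 / J)).indicator (fun y => ENNReal.ofReal (y ^ (-(3 / 4) : ℝ))) y +
      ENNReal.ofReal (J ^ (-(2 / 3) : ℝ)) *
        (Set.Ioi (1 / J)).indicator (fun y => ENNReal.ofReal (y ^ (-(17 / 12) : ℝ))) y +
      ENNReal.ofReal (1 / J) *
        (Set.Ioc 0 b).indicator (fun y => ENNReal.ofReal (y ^ (-(3 / 4) : ℝ))) y) :=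
        setLIntegral_le_lintegral _ _
    _ = ENNReal.ofReal (4 * (1 / J) ^ (1 / 4 : ℝ)) + ENNReal.ofReal (J ^ (-(2 / 3) : ℝ)) *
        ENNReal.ofReal ((1 / J) ^ (1 - 17 / 12 : ℝ) / (17 / 12 - 1)) +
        ENNReal.ofReal (1 / J) * ENNReal.ofReal (4 * b ^ (1 / 4 : ℝ)) := by
        have m1 := (u16b_measpow (-(3 / 4))).indicator (measurableSet_Ioc (a := 0) (b := 1 / J))
        have m2 := (u16b_measpow (-(17 / 12))).indicator (measurableSet_Ioi (a := 1 / J))
        have m3 := (u16b_measpow (-(3 / 4))).indicator (measurableSet_Ioc (a := 0) (b := b))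
        rw [lintegral_add_left, lintegral_add_left m1, lintegral_const_mul _ m2,
          lintegral_const_mul _ m3, lintegral_indicator measurableSet_Ioc,
          lintegral_indicator measurableSet_Ioi, lintegral_indicator measurableSet_Ioc,
          u16b_small (by positivity), u16b_small hb0, u16b_large (by positivity) (by norm_num)]
        exact m1.add (m2.const_mul _)
    _ = ENNReal.ofReal (4 * (1 / J) ^ (1 / 4 : ℝ) + J ^ (-(2 / 3) : ℝ) *
        ((1 / J) ^ (1 - 17 / 12 : ℝ) / (17 / 12 - 1)) + 1 / J * (4 * b ^ (1 / 4 : ℝ))) := by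
        have k1 : (0:ℝ) ≤ (1 / J) ^ (1 - 17 / 12 : ℝ) / (17 / 12 - 1) := by
          apply div_nonneg (by positivity)
          norm_num
        rw [ENNReal.ofReal_add (by positivity) (by positivity),
          ENNReal.ofReal_add (by positivity) (by positivity)]
        congr 1
        · congr 1
          exact (ENNReal.ofReal_mul (by positivity)).symm
        · exact (ENNReal.ofReal_mul (by positivity)).symm
    _ ≤ _ := by
        apply ENNReal.ofReal_le_ofReal
        have h1 : (1 / J) ^ (1 / 4 : ℝ) = J ^ (-(1 / 4) : ℝ) := by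
          rw [one_div, Real.inv_rpow hJ0.le, ← Real.rpow_neg hJ0.le]
        have h2 : J ^ (-(2 / 3) : ℝ) * ((1 / J) ^ (1 - 17 / 12 : ℝ) / (17 / 12 - 1)) =
            12 / 5 * J ^ (-(1 / 4) : ℝ) := by
          rw [one_div, Real.inv_rpow hJ0.le, ← Real.rpow_neg hJ0.le, mul_div_assoc',
            ← Real.rpow_add hJ0]
          norm_num
          ring
        have h3 : 1 / J * (4 * b ^ (1 / 4 : ℝ)) ≤ 8 * J ^ (-(1 / 4) : ℝ) := by
          have e1 : b ^ (1 / 4 : ℝ) = (2 * J) ^ (1 / 8 : ℝ) := by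
            rw [hb, Real.sqrt_eq_rpow, ← Real.rpow_mul (by positivity)]
            norm_num
          have e2 : (2 * J) ^ (1 / 8 : ℝ) ≤ 2 * J ^ (1 / 8 : ℝ) := by
            rw [Real.mul_rpow (by norm_num) hJ0.le]
            apply mul_le_mul_of_nonneg_right _ (by positivity)
            calc (2:ℝ) ^ (1 / 8 : ℝ) ≤ 2 ^ (1 : ℝ) :=
                  Real.rpow_le_rpow_of_exponent_le (by norm_num) (by norm_num)
              _ = 2 := Real.rpow_one 2
          have e3 : 1 / J * J ^ (1 / 8 : ℝ) ≤ J ^ (-(1 / 4) : ℝ) := by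
            have : 1 / J = J ^ (-1 : ℝ) := by rw [Real.rpow_neg_one, one_div]
            rw [this, ← Real.rpow_add hJ0]
            exact Real.rpow_le_rpow_of_exponent_le hJ (by norm_num)
          rw [e1]
          calc 1 / J * (4 * (2 * J) ^ (1 / 8 : ℝ)) ≤ 1 / J * (4 * (2 * J ^ (1 / 8 : ℝ))) := by
                gcongr
            _ = 8 * (1 / J * J ^ (1 / 8 : ℝ)) := by ring
            _ ≤ 8 * J ^ (-(1 / 4) : ℝ) := by gcongr
        rw [h1, h2]
        have : 0 ≤ J ^ (-(1 / 4) : ℝ) := by positivity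
        linarith


open Classical in
/-- bound (II) -/
private theorem u16b_II {r J : ℝ} (hr : 1 ≤ r) (hJ : 1 ≤ J) :
    ∫⁻ y in Set.Ioi (0 : ℝ), ENNReal.ofReal (y ^ (-(3 / 4) : ℝ) * Real.exp (-(π * r * y)) *
      (min 1 ((1 / (J * y)) ^ (2 / 3 : ℝ)) + (if y ^ 2 ≤ 2 * J then 1 / J else 0))) ≤
      ENNReal.ofReal (20 * r ^ (-(1 / 4) : ℝ)) := by
  have hJ0 : 0 < J := by linarith
  have hr0 : 0 < r := by linarith
  have hpi := Real.pi_gt_three
  calc _ ≤ ∫⁻ y in Set.Ioi (0 : ℝ),
      (ENNReal.ofReal 2 * (Set.Ioc 0 (1 / r)).indicator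
        (fun y => ENNReal.ofReal (y ^ (-(3 / 4) : ℝ))) y +
      ENNReal.ofReal (2 / r) *
        (Set.Ioi (1 / r)).indicator (fun y => ENNReal.ofReal (y ^ (-(7 / 4) : ℝ))) y) := by
        apply setLIntegral_mono' measurableSet_Ioi
        intro y hy
        have hy0 : 0 < y := hy
        have hJ1 : 1 / J ≤ 1 := by
          rw [div_le_one hJ0]; exact hJ
        have hw : min 1 ((1 / (J * y)) ^ (2 / 3 : ℝ)) + (if y ^ 2 ≤ 2 * J then 1 / J else 0) ≤ 2 := by
          have h1 : min 1 ((1 / (J * y)) ^ (2 / 3 : ℝ)) ≤ 1 := min_le_left _ _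
          have h2 : (if y ^ 2 ≤ 2 * J then 1 / J else 0) ≤ 1 := by
            split_ifs
            · exact hJ1
            · norm_num
          linarith
        have hyp : 0 < y ^ (-(3 / 4) : ℝ) := Real.rpow_pos_of_pos hy0 _
        have hE : 0 < Real.exp (-(π * r * y)) := Real.exp_pos _
        rcases le_or_gt y (1 / r) with hyr | hyr
        · rw [Set.indicator_of_mem (show y ∈ Set.Ioc 0 (1 / r) from ⟨hy0, hyr⟩),
            ← ENNReal.ofReal_mul (by norm_num)]
          refine le_add_right (ENNReal.ofReal_le_ofReal ?_)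
          have hexp : Real.exp (-(π * r * y)) ≤ 1 := by
            apply Real.exp_le_one_iff.mpr
            have : 0 ≤ π * r * y := by positivity
            linarith
          calc y ^ (-(3 / 4) : ℝ) * Real.exp (-(π * r * y)) *
              (min 1 ((1 / (J * y)) ^ (2 / 3 : ℝ)) + (if y ^ 2 ≤ 2 * J then 1 / J else 0)) ≤
              y ^ (-(3 / 4) : ℝ) * 1 * 2 := by gcongr
            _ = _ := by ring
        · rw [Set.indicator_of_mem (show y ∈ Set.Ioi (1 / r) from hyr),
            ← ENNReal.ofReal_mul (by positivity)]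
          refine le_add_left (ENNReal.ofReal_le_ofReal ?_)
          have hexp : Real.exp (-(π * r * y)) ≤ 1 / (r * y) := by
            rw [Real.exp_neg, inv_eq_one_div]
            apply one_div_le_one_div_of_le (by positivity)
            have h1 := Real.add_one_le_exp (π * r * y)
            have h2 : r * y ≤ π * (r * y) := by nlinarith [mul_pos hr0 hy0]
            linarith
          calc y ^ (-(3 / 4) : ℝ) * Real.exp (-(π * r * y)) *
              (min 1 ((1 / (J * y)) ^ (2 / 3 : ℝ)) + (if y ^ 2 ≤ 2 * J then 1 / J else 0)) ≤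
              y ^ (-(3 / 4) : ℝ) * (1 / (r * y)) * 2 := by gcongr
            _ = 2 / r * (y ^ (-(3 / 4) : ℝ) * y ^ (-1 : ℝ)) := by
              rw [Real.rpow_neg_one]
              field_simp
            _ = 2 / r * y ^ (-(7 / 4) : ℝ) := by
              rw [← Real.rpow_add hy0]
              norm_num
    _ ≤ ∫⁻ y : ℝ,
      (ENNReal.ofReal 2 * (Set.Ioc 0 (1 / r)).indicator
        (fun y => ENNReal.ofReal (y ^ (-(3 / 4) : ℝ))) y +
      ENNReal.ofReal (2 / r) *
        (Set.Ioi (1 / r)).indicator (fun y => ENNReal.ofReal (y ^ (-(7 / 4) : ℝ))) y) :=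
        setLIntegral_le_lintegral _ _
    _ = ENNReal.ofReal 2 * ENNReal.ofReal (4 * (1 / r) ^ (1 / 4 : ℝ)) +
        ENNReal.ofReal (2 / r) *
        ENNReal.ofReal ((1 / r) ^ (1 - 7 / 4 : ℝ) / (7 / 4 - 1)) := by
        have m1 := (u16b_measpow (-(3 / 4))).indicator (measurableSet_Ioc (a := 0) (b := 1 / r))
        have m2 := (u16b_measpow (-(7 / 4))).indicator (measurableSet_Ioi (a := 1 / r))
        rw [lintegral_add_left, lintegral_const_mul _ m1, lintegral_const_mul _ m2,
          lintegral_indicator measurableSet_Ioi, lintegral_indicator measurableSet_Ioc,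
          u16b_small (by positivity), u16b_large (by positivity) (by norm_num)]
        exact m1.const_mul _
    _ = ENNReal.ofReal (2 * (4 * (1 / r) ^ (1 / 4 : ℝ)) + 2 / r *
        ((1 / r) ^ (1 - 7 / 4 : ℝ) / (7 / 4 - 1))) := by
        have k1 : (0:ℝ) ≤ (1 / r) ^ (1 - 7 / 4 : ℝ) / (7 / 4 - 1) := by
          apply div_nonneg (by positivity)
          norm_num
        rw [ENNReal.ofReal_add (by positivity) (by positivity)]
        congr 1
        · exact (ENNReal.ofReal_mul (by positivity)).symm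
        · exact (ENNReal.ofReal_mul (by positivity)).symm
    _ ≤ _ := by
        apply ENNReal.ofReal_le_ofReal
        have h1 : (1 / r) ^ (1 / 4 : ℝ) = r ^ (-(1 / 4) : ℝ) := by
          rw [one_div, Real.inv_rpow hr0.le, ← Real.rpow_neg hr0.le]
        have h2 : 2 / r * ((1 / r) ^ (1 - 7 / 4 : ℝ) / (7 / 4 - 1)) =
            8 / 3 * r ^ (-(1 / 4) : ℝ) := by
          have : 2 / r = 2 * r ^ (-1 : ℝ) := by rw [Real.rpow_neg_one]; ring
          rw [this, one_div, Real.inv_rpow hr0.le, ← Real.rpow_neg hr0.le, mul_div_assoc',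
            mul_assoc, ← Real.rpow_add hr0]
          norm_num
          ring
        rw [h1, h2]
        have : 0 ≤ r ^ (-(1 / 4) : ℝ) := by positivity
        linarith

open Classical in
private theorem u16b_one {r J : ℝ} (hr : 0 ≤ r) (hJ : 1 ≤ J) :
    ∫⁻ y in Set.Ioi (0 : ℝ), ENNReal.ofReal (y ^ (-(3 / 4) : ℝ) * Real.exp (-(π * r * y)) *
      (min 1 ((1 / (J * y)) ^ (2 / 3 : ℝ)) + (if y ^ 2 ≤ 2 * J then 1 / J else 0))) ≤
      ENNReal.ofReal (40 * min (J ^ (-(1 / 4) : ℝ)) ((1 + r) ^ (-(1 / 4) : ℝ))) := by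
  have hJ0 : 0 < J := by linarith
  have hI := u16b_I hr hJ
  have h24 : (1:ℝ) ≤ 2 * 2 ^ (-(1 / 4) : ℝ) := by
    have : (2:ℝ) * 2 ^ (-(1 / 4) : ℝ) = 2 ^ (3 / 4 : ℝ) := by
      have h := Real.rpow_add (show (0:ℝ) < 2 by norm_num) 1 (-(1 / 4))
      rw [Real.rpow_one] at h
      rw [← h]; norm_num
    rw [this]
    exact Real.one_le_rpow (by norm_num) (by norm_num)
  rcases le_total (J ^ (-(1 / 4) : ℝ)) ((1 + r) ^ (-(1 / 4) : ℝ)) with h | h
  · rw [min_eq_left h]
    refine hI.trans (ENNReal.ofReal_le_ofReal ?_)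
    have : 0 ≤ J ^ (-(1 / 4) : ℝ) := by positivity
    linarith
  · rw [min_eq_right h]
    rcases le_total r 1 with h1 | h1
    · refine hI.trans (ENNReal.ofReal_le_ofReal ?_)
      have h2 : J ^ (-(1 / 4) : ℝ) ≤ 1 := Real.rpow_le_one_of_one_le_of_nonpos hJ (by norm_num)
      have h3 : (2:ℝ) ^ (-(1 / 4) : ℝ) ≤ (1 + r) ^ (-(1 / 4) : ℝ) :=
        Real.rpow_le_rpow_of_nonpos (by positivity) (by linarith) (by norm_num)
      linarith
    · refine (u16b_II h1 hJ).trans (ENNReal.ofReal_le_ofReal ?_)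
      have h3 : (2 * r) ^ (-(1 / 4) : ℝ) ≤ (1 + r) ^ (-(1 / 4) : ℝ) :=
        Real.rpow_le_rpow_of_nonpos (by positivity) (by linarith) (by norm_num)
      rw [Real.mul_rpow (by norm_num) (by positivity)] at h3
      have h4 : 0 ≤ r ^ (-(1 / 4) : ℝ) := by positivity
      nlinarith

private theorem u16b_coord (F : ℍ → ENNReal) (hF : Measurable F) :
    ∫⁻ z : ℍ, F z = ∫⁻ y in Set.Ioi (0:ℝ), ∫⁻ x : ℝ,
      (if h : 0 < ((x : ℂ) + I * y).im then F ⟨x + I * y, h⟩ else 0) *
        ENNReal.ofReal (1 / y ^ 2) := by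
  obtain ⟨f, hf, hfF⟩ := measurableEmbedding_coe.exists_measurable_extend hF
    (fun _ => inferInstance)
  have h1 : ∀ z : ℍ, F z = f z := fun z => (congrFun hfF z).symm
  simp_rw [h1]
  rw [lintegral_coord f hf]
  apply setLIntegral_congr_fun measurableSet_Ioi
  intro y hy
  apply lintegral_congr
  intro x
  have him : 0 < ((x : ℂ) + I * y).im := by simpa using hy
  simp only [dif_pos him]

open Classical in
theorem plane_Q {Z : ℝ → ℝ} (hZ : IsKer Z) (e : Bool) : ∃ C : ℝ, ∀ r : ℝ, 0 ≤ r →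
    ∀ J : ℝ, 1 ≤ J →
    ∫⁻ z : ℍ, ∫⁻ φ in Set.Ioc (0 : ℝ) π,
      (if atg (wQ Z e J) 1 z φ ≠ 0 then
        ENNReal.ofReal (z.im ^ (1 / 4 : ℝ) * Real.exp (-(π * r * z.im))) else 0) ≤
      ENNReal.ofReal (C * min (J ^ (-(1 / 4) : ℝ)) ((1 + r) ^ (-(1 / 4) : ℝ))) := by
  obtain ⟨C0, hC0⟩ := fibre_Q hZ e
  refine ⟨max C0 0 * 40, fun r hr J hJ => ?_⟩
  have hJ0 : 0 < J := by linarith
  set C := max C0 0 with hC
  have hCn : 0 ≤ C := le_max_right _ _
  have hma : Measurable (Function.uncurry (atg (wQ Z e J) 1)) :=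
    measurable_atg (measurable_wQ hZ e J) 1
  have hset : MeasurableSet {p : ℍ × ℝ | Function.uncurry (atg (wQ Z e J) 1) p ≠ 0} :=
    (hma (measurableSet_singleton 0)).compl
  have hF2 : Measurable (fun p : ℍ × ℝ => if atg (wQ Z e J) 1 p.1 p.2 ≠ 0 then
        ENNReal.ofReal (p.1.im ^ (1 / 4 : ℝ) * Real.exp (-(π * r * p.1.im))) else 0) := by
    apply Measurable.ite hset _ measurable_const
    apply Measurable.ennreal_ofReal
    have h1 : Measurable (fun p : ℍ × ℝ => p.1.im) :=
      (UpperHalfPlane.continuous_im.measurable).comp measurable_fst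
    exact (h1.pow_const _).mul ((h1.const_mul _).neg.exp)
  have hF : Measurable (fun z : ℍ => ∫⁻ φ in Set.Ioc (0 : ℝ) π,
      (if atg (wQ Z e J) 1 z φ ≠ 0 then
        ENNReal.ofReal (z.im ^ (1 / 4 : ℝ) * Real.exp (-(π * r * z.im))) else 0)) :=
    hF2.lintegral_prod_right'
  rw [u16b_coord _ hF]
  calc _ ≤ ∫⁻ y in Set.Ioi (0 : ℝ), ENNReal.ofReal C * ENNReal.ofReal (y ^ (-(3 / 4) : ℝ) *
        Real.exp (-(π * r * y)) *
      (min 1 ((1 / (J * y)) ^ (2 / 3 : ℝ)) + (if y ^ 2 ≤ 2 * J then 1 / J else 0))) := by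
        apply setLIntegral_mono' measurableSet_Ioi
        intro y hy
        have hy0 : 0 < y := hy
        have him : ∀ x : ℝ, 0 < ((x : ℂ) + I * y).im := fun x => by simpa using hy0
        have himy : ∀ x : ℝ, (⟨(x : ℂ) + I * y, him x⟩ : ℍ).im = y := by
          intro x
          show ((x : ℂ) + I * y).im = y
          simp
        have hmap : Measurable (fun p : ℝ × ℝ => ((⟨(p.1 : ℂ) + I * y, him p.1⟩ : ℍ), p.2)) := by
          apply Measurable.prodMk _ measurable_snd
          apply Continuous.measurable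
          apply UpperHalfPlane.isEmbedding_coe.continuous_iff.mpr
          show Continuous (fun p : ℝ × ℝ => (p.1 : ℂ) + I * y)
          fun_prop
        have hA : Measurable (fun p : ℝ × ℝ =>
            if atg (wQ Z e J) 1 ⟨(p.1 : ℂ) + I * y, him p.1⟩ p.2 ≠ 0 then (1 : ENNReal) else 0) :=
          Measurable.ite (hmap hset) measurable_const measurable_const
        have hfin : ENNReal.ofReal (y ^ (1 / 4 : ℝ) * Real.exp (-(π * r * y))) ≠ ⊤ :=
          ENNReal.ofReal_ne_top
        calc _ = ∫⁻ x : ℝ, (∫⁻ φ in Set.Ioc (0 : ℝ) π,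
              (if atg (wQ Z e J) 1 ⟨(x : ℂ) + I * y, him x⟩ φ ≠ 0 then (1 : ENNReal) else 0)) *
              (ENNReal.ofReal (y ^ (1 / 4 : ℝ) * Real.exp (-(π * r * y))) *
                ENNReal.ofReal (1 / y ^ 2)) := by
              apply lintegral_congr
              intro x
              rw [dif_pos (him x), ← mul_assoc]
              congr 1
              rw [← lintegral_mul_const' _ _ hfin]
              apply lintegral_congr
              intro φ
              rw [himy x, ite_mul, one_mul, zero_mul]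
          _ = (∫⁻ x : ℝ, (∫⁻ φ in Set.Ioc (0 : ℝ) π,
              (if atg (wQ Z e J) 1 ⟨(x : ℂ) + I * y, him x⟩ φ ≠ 0 then (1 : ENNReal) else 0))) *
              (ENNReal.ofReal (y ^ (1 / 4 : ℝ) * Real.exp (-(π * r * y))) *
                ENNReal.ofReal (1 / y ^ 2)) :=
              lintegral_mul_const' _ _ (ENNReal.mul_ne_top hfin ENNReal.ofReal_ne_top)
          _ = (∫⁻ φ in Set.Ioc (0 : ℝ) π, ∫⁻ x : ℝ,
              (if atg (wQ Z e J) 1 ⟨(x : ℂ) + I * y, him x⟩ φ ≠ 0 then (1 : ENNReal) else 0)) *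
              (ENNReal.ofReal (y ^ (1 / 4 : ℝ) * Real.exp (-(π * r * y))) *
                ENNReal.ofReal (1 / y ^ 2)) := by
              congr 1
              exact lintegral_lintegral_swap hA.aemeasurable
          _ ≤ ENNReal.ofReal (C0 * y * (min 1 ((1 / (J * y)) ^ (2 / 3 : ℝ)) +
              (if y ^ 2 ≤ 2 * J then 1 / J else 0))) *
              (ENNReal.ofReal (y ^ (1 / 4 : ℝ) * Real.exp (-(π * r * y))) *
                ENNReal.ofReal (1 / y ^ 2)) := mul_le_mul' (hC0 J hJ y hy0) le_rfl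
          _ ≤ ENNReal.ofReal (C * y * (min 1 ((1 / (J * y)) ^ (2 / 3 : ℝ)) +
              (if y ^ 2 ≤ 2 * J then 1 / J else 0))) *
              (ENNReal.ofReal (y ^ (1 / 4 : ℝ) * Real.exp (-(π * r * y))) *
                ENNReal.ofReal (1 / y ^ 2)) := by
              apply mul_le_mul' _ le_rfl
              apply ENNReal.ofReal_le_ofReal
              have hif : (0:ℝ) ≤ if y ^ 2 ≤ 2 * J then 1 / J else 0 := by
                split_ifs <;> positivity
              have : C0 ≤ C := le_max_left _ _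
              gcongr
          _ = _ := by
              have hif : (0:ℝ) ≤ if y ^ 2 ≤ 2 * J then 1 / J else 0 := by
                split_ifs <;> positivity
              rw [← ENNReal.ofReal_mul (by positivity), ← ENNReal.ofReal_mul (by positivity),
                ← ENNReal.ofReal_mul hCn]
              congr 1
              have hyy : y * y ^ (1 / 4 : ℝ) * (1 / y ^ 2) = y ^ (-(3 / 4) : ℝ) := by
                have e1 : y * y ^ (1 / 4 : ℝ) * (1 / y ^ 2) =
                    y ^ (1 : ℝ) * y ^ (1 / 4 : ℝ) * y ^ (-2 : ℝ) := by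
                  rw [Real.rpow_one]
                  congr 1
                  rw [Real.rpow_neg hy0.le, one_div]
                  norm_num
                rw [e1, ← Real.rpow_add hy0, ← Real.rpow_add hy0]
                norm_num
              rw [← hyy]
              ring
    _ = ENNReal.ofReal C * ∫⁻ y in Set.Ioi (0 : ℝ), ENNReal.ofReal (y ^ (-(3 / 4) : ℝ) *
        Real.exp (-(π * r * y)) *
      (min 1 ((1 / (J * y)) ^ (2 / 3 : ℝ)) + (if y ^ 2 ≤ 2 * J then 1 / J else 0))) :=
        lintegral_const_mul' _ _ ENNReal.ofReal_ne_top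
    _ ≤ ENNReal.ofReal C *
        ENNReal.ofReal (40 * min (J ^ (-(1 / 4) : ℝ)) ((1 + r) ^ (-(1 / 4) : ℝ))) :=
        mul_le_mul' le_rfl (u16b_one hr hJ)
    _ = _ := by
        rw [← ENNReal.ofReal_mul hCn, mul_assoc]

end RV11
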